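import Pool.Agent.DL.NP.Spec

/-!
# MP_3ff0f8_gt, ALGEBRA HALF: frame of the induction (helper25)

Common definitions for EXIST (sections 1-6), R1A, Step Y and the assembly of Theorem C.  Theorem C is proved for all nonplanar graphs of class `C1`:
`C1 G → NP G → OK G`, induction on `sz G` = number of vertices + number of edges.
-/

open SimpleGraph Finset

namespace DL

/-- number of vertices plus number of edges -/
noncomputable def sz {α : Type} [Fintype α] [DecidableEq α] (G : SimpleGraph α) : ℕ :=
  (VS G).card + G.edgeSet.ncard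

/-- what is proved for every nonplanar graph of class `C1` -/
def OK {α : Type} [Fintype α] [DecidableEq α] (G : SimpleGraph α) : Prop := U G ∧ KZ G

/-- induction hypothesis -/
def IH {α : Type} [Fintype α] [DecidableEq α] (G : SimpleGraph α) : Prop :=
  ∀ H : SimpleGraph α, sz H < sz G → C1 H → NP H → OK H

/-- `G` without the edges from `u` to `P` -/
def dst {α : Type} (G : SimpleGraph α) (u : α) (P : Finset α) : SimpleGraph α :=
  G.deleteEdges {e | ∃ p ∈ P, e = s(u, p)}

/-- degree -/
noncomputable def dg {α : Type} [Fintype α] [DecidableEq α] (G : SimpleGraph α) (v : α) : ℕ := (NB G {v}).card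

/-- standing hypotheses of EXIST sections 2-6: 4-connected, `n ≥ 8`, nonplanar, induction hypothesis, every rigid vertex is an apex of
degree 4 (the other rigid vertices are dealt with in EXIST section 1 and in R1A) -/
structure SH {α : Type} [Fintype α] [DecidableEq α] (G : SimpleGraph α) : Prop where
  k48 : K48 G
  np : NP G
  ih : IH G
  rig : ∀ u ∈ VS G, Rig G u → dg G u = 4 ∧ ¬ NP (del G {u})

/-- no (3,3)-pair -/
def No33 {α : Type} [Fintype α] [DecidableEq α] (G : SimpleGraph α) : Prop :=
  ∀ x y s₁ s₂ s₃ s₄, ¬ P33 G x y s₁ s₂ s₃ s₄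

/-- no (3,4)-pair -/
def No34 {α : Type} [Fintype α] [DecidableEq α] (G : SimpleGraph α) : Prop :=
  ∀ x y s₁ s₂ s₃ s₄, ¬ P34 G x y s₁ s₂ s₃ s₄

/-- no (4,4)-pair -/
def No44 {α : Type} [Fintype α] [DecidableEq α] (G : SimpleGraph α) : Prop :=
  ∀ x y, ∀ s : Fin 4 → α, ¬ P44 G x y s

/-- no twins -/
def NoTW {α : Type} [Fintype α] [DecidableEq α] (G : SimpleGraph α) : Prop :=
  ∀ x y, ∀ s : Fin 4 → α, ¬ TW G x y s

end DL
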