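import Pool.Agent.DL.E.Spec3
import Pool.Agent.DL.KC

/-!
# MP_3ff0f8_gt, EXIST section 4, module E4N (helper45)

A nonrigid vertex of a double pair: the split.
-/

set_option autoImplicit false

open SimpleGraph Finset

namespace DL

namespace E4NM

variable {α : Type} [Fintype α] [DecidableEq α] {G : SimpleGraph α}

omit [DecidableEq α] in
theorem mem_NB {A : Finset α} {w : α} : w ∈ NB G A ↔ w ∉ A ∧ ∃ a ∈ A, G.Adj a w := by
  simp [NB]

/-- a side of a cut `T ∋ x, y` which contains at most one `s i` has at most one vertex -/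
theorem small (hNBF : SpecNBF) (hG : K48 G) {x y : α} {s : Fin 4 → α} (h : DP G x y s)
    {T P Q : Finset α} (hs : Sep G T P Q) (h4 : T.card = 4) (hx : x ∈ T) (hy : y ∈ T)
    (i : Fin 4) (hi : ∀ j, s j ∈ P → j = i) : P.card ≤ 1 := by
  by_contra hcon
  have hne : (P.erase (s i)).Nonempty := by
    rw [← card_pos]
    have := pred_card_le_card_erase (s := P) (a := s i)
    omega
  have hsub : NB G (P.erase (s i)) ⊆ insert (s i) ((T.erase x).erase y) := by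
    intro w hw
    obtain ⟨hw1, a, ha, haw⟩ := mem_NB.1 hw
    rw [mem_erase] at ha
    rw [mem_insert]
    by_cases hwi : w = s i
    · exact Or.inl hwi
    refine Or.inr ?_
    rcases hs.mem_or (right_mem_VS haw) with h1 | h1 | h1
    · rw [mem_erase, mem_erase]
      refine ⟨?_, ?_, h1⟩
      · rintro rfl
        rcases h.ny a haw.symm with h2 | ⟨j, h2⟩
        · rw [h2] at ha
          exact Finset.disjoint_left.1 hs.2.1 hx ha.2
        · rw [h2] at ha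
          exact ha.1 (by rw [hi j ha.2])
      · rintro rfl
        rcases h.nx a haw.symm with h2 | ⟨j, h2⟩
        · rw [h2] at ha
          exact Finset.disjoint_left.1 hs.2.1 hy ha.2
        · rw [h2] at ha
          exact ha.1 (by rw [hi j ha.2])
    · exact absurd (mem_erase.2 ⟨hwi, h1⟩) hw1
    · exact absurd haw (hs.2.2.2.2 a ha.2 w h1)
  have hcard : (NB G (P.erase (s i))).card < 4 := by
    refine lt_of_le_of_lt (card_le_card hsub) (lt_of_le_of_lt (card_insert_le _ _) ?_)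
    rw [card_erase_of_mem (mem_erase.2 ⟨h.xy.symm, hy⟩), card_erase_of_mem hx, h4]
    norm_num
  have hV := hNBF.nb hG.1 ((erase_subset _ _).trans hs.subP) hne hcard (hs.subS hx)
  rw [mem_union] at hV
  rcases hV with hV | hV
  · exact Finset.disjoint_left.1 hs.2.1 hx (mem_of_mem_erase hV)
  · have h1 := hsub hV
    rw [mem_insert, mem_erase, mem_erase] at h1
    rcases h1 with h1 | h1
    · exact (h.sx i).1 h1.symm
    · exact h1.2.1 rfl

/-- the other vertex is in the cut, too -/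
theorem mem_cut (hG : K48 G) {x y : α} {s : Fin 4 → α} (h : DP G x y s)
    {T P Q : Finset α} (hs : Sep G T P Q) (h4 : T.card = 4) (hx : x ∈ T) (hP : P.Nonempty)
    (hQ : Q.Nonempty) : y ∈ T := by
  have key : ∀ P Q : Finset α, Sep G T P Q → Q.Nonempty → y ∉ P := by
    intro P Q hs hQ hy
    obtain ⟨w, hw, hxw⟩ := hG.1.exists_adj_of_sep hs.symm hQ h4.le hx
    rcases h.nx w hxw with rfl | ⟨j, rfl⟩
    · exact Finset.disjoint_left.1 hs.2.2.2.1 hy hw
    · exact hs.2.2.2.2 y hy (s j) hw (h.ay j)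
  rcases hs.mem_or (left_mem_VS (h.ay 0)) with h1 | h1 | h1
  · exact h1
  · exact absurd h1 (key P Q hs hQ)
  · exact absurd h1 (key Q P hs.symm hP)

/-- there is an `s i` on each side -/
theorem exists_mem (hG : K48 G) {x y : α} {s : Fin 4 → α} (h : DP G x y s)
    {T P Q : Finset α} (hs : Sep G T P Q) (h4 : T.card = 4) (hx : x ∈ T) (hy : y ∈ T)
    (hP : P.Nonempty) : ∃ i, s i ∈ P := by
  obtain ⟨w, hw, hxw⟩ := hG.1.exists_adj_of_sep hs hP h4.le hx
  rcases h.nx w hxw with rfl | ⟨j, rfl⟩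
  · exact absurd hw (Finset.disjoint_left.1 hs.2.1 hy)
  · exact ⟨j, hw⟩

omit [Fintype α] in
/-- the cut is `{x, y, c, d}` -/
theorem cut_eq {x y : α} (hxy : x ≠ y) {T : Finset α} (h4 : T.card = 4) (hx : x ∈ T)
    (hy : y ∈ T) : ∃ c d, [x, y, c, d].Nodup ∧ T = {x, y, c, d} := by
  have h2 : ((T.erase x).erase y).card = 2 := by
    rw [card_erase_of_mem (mem_erase.2 ⟨hxy.symm, hy⟩), card_erase_of_mem hx, h4]
  obtain ⟨c, d, hcd, he⟩ := card_eq_two.1 h2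
  have hT : T = {x, y, c, d} := by
    rw [← insert_erase hx, ← insert_erase (mem_erase.2 ⟨hxy.symm, hy⟩), he]
  have hc : c ∈ (T.erase x).erase y := by rw [he]; simp
  have hd : d ∈ (T.erase x).erase y := by rw [he]; simp
  rw [mem_erase, mem_erase] at hc hd
  refine ⟨c, d, ?_, hT⟩
  simp only [List.nodup_cons, List.mem_cons, List.not_mem_nil, or_false, not_or,
    List.nodup_nil, and_true, not_false_eq_true]
  exact ⟨⟨hxy, hc.2.1.symm, hd.2.1.symm⟩, ⟨hc.1.symm, hd.1.symm⟩, hcd⟩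

theorem comb : ∀ i j k l : Fin 4, j ≠ i → l ≠ k → i ≠ k → i ≠ l → j ≠ k → j ≠ l →
    ((({0, 1} : Finset (Fin 4)) ⊆ {i, j} ∧ ({2, 3} : Finset (Fin 4)) ⊆ {k, l}) ∨
      (({0, 1} : Finset (Fin 4)) ⊆ {k, l} ∧ ({2, 3} : Finset (Fin 4)) ⊆ {i, j})) ∨
    ((({0, 2} : Finset (Fin 4)) ⊆ {i, j} ∧ ({1, 3} : Finset (Fin 4)) ⊆ {k, l}) ∨
      (({0, 2} : Finset (Fin 4)) ⊆ {k, l} ∧ ({1, 3} : Finset (Fin 4)) ⊆ {i, j})) ∨
    ((({0, 3} : Finset (Fin 4)) ⊆ {i, j} ∧ ({1, 2} : Finset (Fin 4)) ⊆ {k, l}) ∨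
      (({0, 3} : Finset (Fin 4)) ⊆ {k, l} ∧ ({1, 2} : Finset (Fin 4)) ⊆ {i, j})) := by
  decide

end E4NM

open E4NM in
/-- **E4N** -/
theorem specE4N (hNBF : SpecNBF) : SpecE4N := by
  classical
  intro α _ _ G x y s hG h hxV hrig
  unfold Rig at hrig
  push Not at hrig
  obtain ⟨T, P, Q, hs, h4, hx, hP, hQ⟩ := hrig
  have hPn : P.Nonempty := card_pos.1 (by omega)
  have hQn : Q.Nonempty := card_pos.1 (by omega)
  have hy := mem_cut hG h hs h4 hx hPn hQn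
  obtain ⟨c, d, hnd, hT⟩ := cut_eq h.xy h4 hx hy
  have key : ∀ P Q : Finset α, Sep G T P Q → 1 < P.card → ∀ i, s i ∈ P → ∃ j, s j ∈ P ∧ j ≠ i := by
    intro P Q hs hP i hi
    by_contra hcon
    push Not at hcon
    have := small hNBF hG h hs h4 hx hy i hcon
    omega
  obtain ⟨i, hi⟩ := exists_mem hG h hs h4 hx hy hPn
  obtain ⟨k, hk⟩ := exists_mem hG h hs.symm h4 hx hy hQn
  obtain ⟨j, hj, hji⟩ := key P Q hs hP i hi
  obtain ⟨l, hl, hlk⟩ := key Q P hs.symm hQ k hk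
  have hne : ∀ i k : Fin 4, s i ∈ P → s k ∈ Q → i ≠ k := by
    rintro i k h1 h2 rfl
    exact Finset.disjoint_left.1 hs.2.2.2.1 h1 h2
  have hPm : ∀ m ∈ ({i, j} : Finset (Fin 4)), s m ∈ P := by
    intro m hm
    rw [mem_insert, mem_singleton] at hm
    rcases hm with rfl | rfl
    · exact hi
    · exact hj
  have hQm : ∀ m ∈ ({k, l} : Finset (Fin 4)), s m ∈ Q := by
    intro m hm
    rw [mem_insert, mem_singleton] at hm
    rcases hm with rfl | rfl
    · exact hk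
    · exact hl
  have hc := comb i j k l hji hlk (hne i k hi hk) (hne i l hi hl) (hne j k hj hk) (hne j l hj hl)
  have hm1 : ∀ {a b : Fin 4} {S : Finset (Fin 4)}, ({a, b} : Finset (Fin 4)) ⊆ S → a ∈ S :=
    fun h' => h' (mem_insert_self _ _)
  have hm2 : ∀ {a b : Fin 4} {S : Finset (Fin 4)}, ({a, b} : Finset (Fin 4)) ⊆ S → b ∈ S :=
    fun h' => h' (mem_insert_of_mem (mem_singleton_self _))
  subst hT
  rcases hc with (⟨h1, h2⟩ | ⟨h1, h2⟩) | (⟨h1, h2⟩ | ⟨h1, h2⟩) | (⟨h1, h2⟩ | ⟨h1, h2⟩)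
  · exact Or.inl ⟨c, d, P, Q, hnd, hs, hPm _ (hm1 h1), hPm _ (hm2 h1), hQm _ (hm1 h2),
      hQm _ (hm2 h2)⟩
  · exact Or.inl ⟨c, d, Q, P, hnd, hs.symm, hQm _ (hm1 h1), hQm _ (hm2 h1), hPm _ (hm1 h2),
      hPm _ (hm2 h2)⟩
  · exact Or.inr (Or.inl ⟨c, d, P, Q, hnd, hs, hPm _ (hm1 h1), hPm _ (hm2 h1), hQm _ (hm1 h2),
      hQm _ (hm2 h2)⟩)
  · exact Or.inr (Or.inl ⟨c, d, Q, P, hnd, hs.symm, hQm _ (hm1 h1), hQm _ (hm2 h1),
      hPm _ (hm1 h2), hPm _ (hm2 h2)⟩)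
  · exact Or.inr (Or.inr ⟨c, d, P, Q, hnd, hs, hPm _ (hm1 h1), hPm _ (hm2 h1), hQm _ (hm1 h2),
      hQm _ (hm2 h2)⟩)
  · exact Or.inr (Or.inr ⟨c, d, Q, P, hnd, hs.symm, hQm _ (hm1 h1), hQm _ (hm2 h1),
      hPm _ (hm1 h2), hPm _ (hm2 h2)⟩)

end DL
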