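import Pool.Agent.DL.E.Spec5
import Pool.Agent.DL.NP.PAI

/-!
# Module E5D (helper72): separations of the D-pair graphs of twins
-/

open SimpleGraph Finset

namespace DL

namespace E5DM

variable {α : Type} [Fintype α] [DecidableEq α] {G : SimpleGraph α} {x y : α} {s : Fin 4 → α}
  {W P Q : Finset α}

theorem TW.symm (h : TW G x y s) : TW G y x s :=
  ⟨h.inj, h.xy.symm, fun i => ⟨(h.sx i).2, (h.sx i).1⟩, h.ny, h.nx⟩

theorem few3 {D : Finset α} {a b c r : α} (hG : KConn 4 G) (hD : D ⊆ VS G) (h0 : D.Nonempty)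
    (h : ∀ v ∈ D, ∀ w, G.Adj v w → w ∈ D ∨ w = a ∨ w = b ∨ w = c) (hr : r ∈ VS G) (hrD : r ∉ D)
    (ha : r ≠ a) (hb : r ≠ b) (hc : r ≠ c) : False := by
  have hsub : NB G D ⊆ {a, b, c} := by
    intro w hw
    obtain ⟨h1, v, hv, hvw⟩ := NBFM.mem_NB.1 hw
    simp only [mem_insert, mem_singleton]
    exact (h v hv w hvw).resolve_left h1
  have hcard : (NB G D).card < 4 :=
    lt_of_le_of_lt (card_le_card hsub) (lt_of_le_of_lt card_le_three (by norm_num))
  have h1 := NBFM.nb hG hD h0 hcard hr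
  rw [mem_union] at h1
  rcases h1 with h1 | h1
  · exact hrD h1
  · have := hsub h1
    simp only [mem_insert, mem_singleton] at this
    tauto

theorem DD_adj {n m a b : α} :
    (DD G x n y m).Adj a b ↔ G.Adj a b ∧ s(a, b) ≠ s(x, n) ∧ s(a, b) ≠ s(y, m) := by
  rw [DD, delE_adj, delE_adj, and_assoc]

theorem sep_of {H K : SimpleGraph α} (hs : Sep H W P Q) (hV : VS K = VS H)
    (hc : ∀ a ∈ P, ∀ b ∈ Q, K.Adj a b → H.Adj a b) : Sep K W P Q :=
  ⟨hs.1.trans hV.symm, hs.2.1, hs.2.2.1, hs.2.2.2.1,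
    fun a ha b hb hab => hs.2.2.2.2 a ha b hb (hc a ha b hb hab)⟩

/-- what a graph of class `C1` does not have -/
def Bd (W P Q : Finset α) : Prop :=
  P.Nonempty ∧ Q.Nonempty ∧ W.card ≤ 3 ∧ (W.card = 3 → 2 ≤ P.card ∧ 2 ≤ Q.card)

theorem Bd.symm (h : Bd W P Q) : Bd W Q P :=
  ⟨h.2.1, h.1, h.2.2.1, fun h3 => (h.2.2.2 h3).symm⟩

theorem no {H : SimpleGraph α} (hH : C1 H) (hs : Sep H W P Q) (hb : Bd W P Q) : False := by
  have h1 := hH.1.le_of_sep hs hb.1 hb.2.1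
  have h2 : W.card = 3 := le_antisymm hb.2.2.1 h1
  have h3 := hb.2.2.2 h2
  have h4 := hH.2 _ _ _ hs h2
  omega

theorem VS_delE1 (hG : K48 G) (a b : α) : VS (delE G a b) = VS G :=
  VS_delE fun _ hv => le_trans (by norm_num) (hG.1.le_nbs hv)

theorem VS_DD (hG : K48 G) {n m : α} (h1 : C1 (delE G x n)) : VS (DD G x n y m) = VS G := by
  rw [DD, VS_delE, VS_delE1 hG]
  exact fun _ hv => le_trans (by norm_num) (h1.1.le_nbs hv)

theorem main (hG : K48 G) (ht : TW G x y s) (h1 : C1 (delE G x (s 2)))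
    (h2 : C1 (delE G y (s 0))) (hs : Sep (DD G x (s 2) y (s 0)) W P Q) (hb : Bd W P Q) :
    x ∉ W ∧ y ∉ W ∧ (x ∈ P → y ∈ Q ∧ s 0 ∈ P ∧ s 2 ∈ Q ∧ s 1 ∈ W ∧ s 3 ∈ W) := by
  have hV := VS_DD (y := y) (m := s 0) hG h1
  have hx1 : ∀ i, G.Adj x (s i) := fun i => (ht.nx _).2 ⟨i, rfl⟩
  have hy1 : ∀ i, G.Adj y (s i) := fun i => (ht.ny _).2 ⟨i, rfl⟩
  have hvs : ∀ i, s i ∈ VS (DD G x (s 2) y (s 0)) := fun i => by
    rw [hV]
    exact right_mem_VS (hx1 i)
  have hWP : ∀ v, v ∈ W → v ∉ P := fun v hv => Finset.disjoint_left.1 hs.2.1 hv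
  have hWQ : ∀ v, v ∈ W → v ∉ Q := fun v hv => Finset.disjoint_left.1 hs.2.2.1 hv
  have hPQ : ∀ v, v ∈ P → v ∉ Q := fun v hv => Finset.disjoint_left.1 hs.2.2.2.1 hv
  -- the edge `x s₂` crosses
  have c1 : (x ∈ P ∧ s 2 ∈ Q) ∨ (x ∈ Q ∧ s 2 ∈ P) := by
    by_contra hc
    refine no h2 (sep_of hs ?_ ?_) hb
    · rw [hV, VS_delE1 hG]
    · intro a ha b hb hab
      rw [delE_adj] at hab
      rw [DD_adj]
      refine ⟨hab.1, ?_, hab.2⟩
      intro e
      rw [Sym2.eq_iff] at e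
      rcases e with ⟨rfl, rfl⟩ | ⟨rfl, rfl⟩
      · exact hc (Or.inl ⟨ha, hb⟩)
      · exact hc (Or.inr ⟨hb, ha⟩)
  -- the edge `y s₀` crosses
  have c2 : (y ∈ P ∧ s 0 ∈ Q) ∨ (y ∈ Q ∧ s 0 ∈ P) := by
    by_contra hc
    refine no h1 (sep_of hs ?_ ?_) hb
    · rw [hV, VS_delE1 hG]
    · intro a ha b hb hab
      rw [delE_adj] at hab
      rw [DD_adj]
      refine ⟨hab.1, hab.2, ?_⟩
      intro e
      rw [Sym2.eq_iff] at e
      rcases e with ⟨rfl, rfl⟩ | ⟨rfl, rfl⟩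
      · exact hc (Or.inl ⟨ha, hb⟩)
      · exact hc (Or.inr ⟨hb, ha⟩)
  have hxa : ∀ i, i ≠ 2 → (DD G x (s 2) y (s 0)).Adj x (s i) := by
    intro i hi
    rw [DD_adj]
    refine ⟨hx1 i, fun e => ?_, fun e => ?_⟩
    · rw [Sym2.eq_iff] at e
      rcases e with ⟨_, e⟩ | ⟨e, _⟩
      · exact hi (ht.inj e)
      · exact (ht.sx 2).1 e.symm
    · rw [Sym2.eq_iff] at e
      rcases e with ⟨e, _⟩ | ⟨e, _⟩
      · exact ht.xy e
      · exact (ht.sx 0).1 e.symm
  have hya : ∀ i, i ≠ 0 → (DD G x (s 2) y (s 0)).Adj y (s i) := by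
    intro i hi
    rw [DD_adj]
    refine ⟨hy1 i, fun e => ?_, fun e => ?_⟩
    · rw [Sym2.eq_iff] at e
      rcases e with ⟨e, _⟩ | ⟨e, _⟩
      · exact ht.xy e.symm
      · exact (ht.sx 2).2 e.symm
    · rw [Sym2.eq_iff] at e
      rcases e with ⟨_, e⟩ | ⟨e, _⟩
      · exact hi (ht.inj e)
      · exact (ht.sx 0).2 e.symm
  refine ⟨?_, ?_, ?_⟩
  · intro hx
    rcases c1 with h | h
    · exact hWP x hx h.1
    · exact hWQ x hx h.1
  · intro hy
    rcases c2 with h | h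
    · exact hWP y hy h.1
    · exact hWQ y hy h.1
  · intro hx
    have hs2 : s 2 ∈ Q := by
      rcases c1 with h | h
      · exact h.2
      · exact absurd h.1 (hPQ x hx)
    have hs0 : y ∈ Q ∧ s 0 ∈ P := by
      rcases c2 with h | h
      · exact absurd (hxa 0 (by decide)) (hs.2.2.2.2 x hx _ h.2)
      · exact h
    have key : ∀ i, i ≠ 0 → i ≠ 2 → s i ∈ W := by
      intro i h0 h2'
      rcases hs.mem_or (hvs i) with h | h | h
      · exact h
      · exact absurd (hya i h0).symm (hs.2.2.2.2 _ h y hs0.1)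
      · exact absurd (hxa i h2') (hs.2.2.2.2 x hx _ h)
    exact ⟨hs0.1, hs0.2, hs2, key 1 (by decide) (by decide), key 3 (by decide) (by decide)⟩

/-- edges of `G` avoiding `x` and `y` are edges of `DD` -/
theorem DD_of {n m a b : α} (h : G.Adj a b) (h1 : a ≠ x) (h2 : b ≠ x) (h3 : a ≠ y) (h4 : b ≠ y) :
    (DD G x n y m).Adj a b := by
  rw [DD_adj]
  refine ⟨h, fun e => ?_, fun e => ?_⟩
  · rw [Sym2.eq_iff] at e
    rcases e with ⟨e, _⟩ | ⟨_, e⟩
    · exact h1 e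
    · exact h2 e
  · rw [Sym2.eq_iff] at e
    rcases e with ⟨e, _⟩ | ⟨_, e⟩
    · exact h3 e
    · exact h4 e

theorem fin4 {p : Fin 4 → Prop} (h0 : p 0) (h1 : p 1) (h2 : p 2) (h3 : p 3) : ∀ i, p i := by
  intro i
  fin_cases i <;> assumption

theorem small (hG : K48 G) (ht : TW G x y s) (hs : Sep (DD G x (s 2) y (s 0)) W P Q)
    (hV : VS (DD G x (s 2) y (s 0)) = VS G) (hW : W = {s 1, s 3}) (hx : x ∈ P) (hy : y ∈ Q)
    (h0 : s 0 ∈ P) (h2 : s 2 ∈ Q) : P ⊆ {x, s 0} ∧ Q ⊆ {y, s 2} := by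
  have hWP : ∀ v, v ∈ W → v ∉ P := fun v hv => Finset.disjoint_left.1 hs.2.1 hv
  have hWQ : ∀ v, v ∈ W → v ∉ Q := fun v hv => Finset.disjoint_left.1 hs.2.2.1 hv
  have hPQ : ∀ v, v ∈ P → v ∉ Q := fun v hv => Finset.disjoint_left.1 hs.2.2.2.1 hv
  have h1W : s 1 ∈ W := by rw [hW]; simp
  have h3W : s 3 ∈ W := by rw [hW]; simp
  constructor
  · by_contra hc
    rw [Finset.not_subset] at hc
    obtain ⟨v₀, hv₀, hv₀'⟩ := hc
    refine few3 (D := P \ {x, s 0}) (a := s 0) (b := s 1) (c := s 3) (r := y) hG.1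
      (fun v hv => hV ▸ hs.subP (mem_sdiff.1 hv).1) ⟨v₀, mem_sdiff.2 ⟨hv₀, hv₀'⟩⟩ ?_
      (hV ▸ hs.subQ hy) (fun h => hPQ y (mem_sdiff.1 h).1 hy) (ht.sx 0).2.symm (ht.sx 1).2.symm
      (ht.sx 3).2.symm
    intro v hv w hvw
    rw [mem_sdiff, mem_insert, mem_singleton, not_or] at hv
    obtain ⟨hvP, hvx, hv0⟩ := hv
    have hne : ∀ i, v ≠ s i := fin4 hv0 (fun e => hWP _ h1W (e ▸ hvP))
      (fun e => hPQ _ hvP (e ▸ h2)) (fun e => hWP _ h3W (e ▸ hvP))
    have hvy : v ≠ y := fun e => hPQ _ hvP (e ▸ hy)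
    have hwx : w ≠ x := by
      rintro rfl
      obtain ⟨i, hi⟩ := (ht.nx v).1 hvw.symm
      exact hne i hi
    have hwy : w ≠ y := by
      rintro rfl
      obtain ⟨i, hi⟩ := (ht.ny v).1 hvw.symm
      exact hne i hi
    have hD := DD_of (n := s 2) (m := s 0) hvw hvx hwx hvy hwy
    rcases hs.mem_or (right_mem_VS hD) with h | h | h
    · rw [hW, mem_insert, mem_singleton] at h
      tauto
    · by_cases hw0 : w = s 0
      · exact Or.inr (Or.inl hw0)
      · left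
        rw [mem_sdiff, mem_insert, mem_singleton, not_or]
        exact ⟨h, hwx, hw0⟩
    · exact absurd hD (hs.2.2.2.2 v hvP w h)
  · by_contra hc
    rw [Finset.not_subset] at hc
    obtain ⟨v₀, hv₀, hv₀'⟩ := hc
    refine few3 (D := Q \ {y, s 2}) (a := s 2) (b := s 1) (c := s 3) (r := x) hG.1
      (fun v hv => hV ▸ hs.subQ (mem_sdiff.1 hv).1) ⟨v₀, mem_sdiff.2 ⟨hv₀, hv₀'⟩⟩ ?_
      (hV ▸ hs.subP hx) (fun h => hPQ x hx (mem_sdiff.1 h).1) (ht.sx 2).1.symm (ht.sx 1).1.symm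
      (ht.sx 3).1.symm
    intro v hv w hvw
    rw [mem_sdiff, mem_insert, mem_singleton, not_or] at hv
    obtain ⟨hvQ, hvy, hv2⟩ := hv
    have hne : ∀ i, v ≠ s i := fin4 (fun e => hPQ _ (e ▸ h0) hvQ) (fun e => hWQ _ h1W (e ▸ hvQ))
      hv2 (fun e => hWQ _ h3W (e ▸ hvQ))
    have hvx : v ≠ x := fun e => hPQ _ (e ▸ hx) hvQ
    have hwx : w ≠ x := by
      rintro rfl
      obtain ⟨i, hi⟩ := (ht.nx v).1 hvw.symm
      exact hne i hi
    have hwy : w ≠ y := by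
      rintro rfl
      obtain ⟨i, hi⟩ := (ht.ny v).1 hvw.symm
      exact hne i hi
    have hD := DD_of (n := s 2) (m := s 0) hvw hvx hwx hvy hwy
    rcases hs.mem_or (right_mem_VS hD) with h | h | h
    · rw [hW, mem_insert, mem_singleton] at h
      tauto
    · exact absurd hD.symm (hs.2.2.2.2 w h v hvQ)
    · by_cases hw2 : w = s 2
      · exact Or.inr (Or.inl hw2)
      · left
        rw [mem_sdiff, mem_insert, mem_singleton, not_or]
        exact ⟨h, hwy, hw2⟩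

theorem k3aux (hG : K48 G) (ht : TW G x y s) (h1 : C1 (delE G x (s 2)))
    (h2 : C1 (delE G y (s 0))) (hs : Sep (DD G x (s 2) y (s 0)) W P Q) (hb : Bd W P Q)
    (hc : W.card < 3) (hx : x ∈ P) : False := by
  have hV := VS_DD (y := y) (m := s 0) hG h1
  obtain ⟨_, _, hm⟩ := main hG ht h1 h2 hs hb
  obtain ⟨hy, h0, h2', h1W, h3W⟩ := hm hx
  have h13 : s 1 ≠ s 3 := fun e => absurd (ht.inj e) (by decide)
  have hW : W = {s 1, s 3} := by
    symm
    apply eq_of_subset_of_card_le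
    · intro v hv
      rw [mem_insert, mem_singleton] at hv
      rcases hv with rfl | rfl <;> assumption
    · rw [card_pair h13]
      omega
  obtain ⟨hP, hQ⟩ := small hG ht hs hV hW hx hy h0 h2'
  have e1 := hs.1
  rw [hV] at e1
  have e2 : (VS G).card ≤ 6 := by
    rw [← e1]
    have k1 := card_union_le (W ∪ P) Q
    have k2 := card_union_le W P
    have k3 : P.card ≤ 2 := (card_le_card hP).trans card_le_two
    have k4 : Q.card ≤ 2 := (card_le_card hQ).trans card_le_two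
    omega
  have := hG.2
  omega

theorem k3 (hG : K48 G) (ht : TW G x y s) (h1 : C1 (delE G x (s 2)))
    (h2 : C1 (delE G y (s 0))) : KConn 3 (DD G x (s 2) y (s 0)) := by
  have hV := VS_DD (y := y) (m := s 0) hG h1
  rw [kconn_iff_sep]
  refine ⟨?_, ?_⟩
  · rw [hV]
    have := hG.2
    omega
  · intro W P Q hs hc
    by_contra hne
    rw [not_or, ← ne_eq, ← ne_eq, ← nonempty_iff_ne_empty, ← nonempty_iff_ne_empty] at hne
    have hb : Bd W P Q := ⟨hne.1, hne.2, hc.le, fun h => absurd h (by omega)⟩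
    have hx : x ∈ VS (DD G x (s 2) y (s 0)) := by
      rw [hV]
      exact left_mem_VS ((ht.nx _).2 ⟨0, rfl⟩)
    rcases hs.mem_or hx with h | h | h
    · exact (main hG ht h1 h2 hs hb).1 h
    · exact k3aux hG ht h1 h2 hs hb hc h
    · exact k3aux hG ht h1 h2 hs.symm hb.symm hc h

theorem bad (hG : K48 G) (ht : TW G x y s) (h1 : C1 (delE G x (s 2)))
    (h2 : C1 (delE G y (s 0))) (hs : Sep (DD G x (s 2) y (s 0)) W P Q) (hc : W.card = 3)
    (hP : 2 ≤ P.card) (hQ : 2 ≤ Q.card) (hx : x ∈ P) :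
    y ∈ Q ∧ ∃ q, W = {s 1, s 3, q} ∧ BC G x y s q (P.erase x) (Q.erase y) := by
  have hV := VS_DD (y := y) (m := s 0) hG h1
  have hb : Bd W P Q := ⟨card_pos.1 (by omega), card_pos.1 (by omega), hc.le, fun _ => ⟨hP, hQ⟩⟩
  obtain ⟨hxW, hyW, hm⟩ := main hG ht h1 h2 hs hb
  obtain ⟨hy, h0, h2', h1W, h3W⟩ := hm hx
  have h13 : s 1 ≠ s 3 := fun e => absurd (ht.inj e) (by decide)
  have hPQ : ∀ v, v ∈ P → v ∉ Q := fun v hv => Finset.disjoint_left.1 hs.2.2.2.1 hv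
  refine ⟨hy, ?_⟩
  have hsub : ({s 1, s 3} : Finset α) ⊆ W := by
    intro v hv
    rw [mem_insert, mem_singleton] at hv
    rcases hv with rfl | rfl <;> assumption
  have hcd : (W \ {s 1, s 3}).card = 1 := by
    rw [card_sdiff_of_subset hsub, hc, card_pair h13]
  obtain ⟨q, hq⟩ := card_eq_one.1 hcd
  have hqm : q ∈ W \ {s 1, s 3} := by rw [hq]; simp
  rw [mem_sdiff, mem_insert, mem_singleton, not_or] at hqm
  have hWe : W = {s 1, s 3, q} := by
    ext v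
    rw [mem_insert, mem_insert, mem_singleton]
    constructor
    · intro hv
      by_cases hv1 : v = s 1
      · exact Or.inl hv1
      · by_cases hv3 : v = s 3
        · exact Or.inr (Or.inl hv3)
        · right; right
          have : v ∈ W \ {s 1, s 3} := by
            rw [mem_sdiff, mem_insert, mem_singleton, not_or]
            exact ⟨hv, hv1, hv3⟩
          rw [hq, mem_singleton] at this
          exact this
    · rintro (rfl | rfl | rfl)
      · exact h1W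
      · exact h3W
      · exact hqm.1
  refine ⟨q, hWe, hqm.2.1, hqm.2.2, ?_, ?_, ?_⟩
  · rw [← hWe]
    have hVd : VS (del G {x, y}) = VS G \ {x, y} :=
      hG.1.VS_del (lt_of_le_of_lt card_le_two (by norm_num))
    refine ⟨?_, ?_, ?_, ?_, ?_⟩
    · rw [hVd, ← hV, ← hs.1]
      ext v
      simp only [mem_union, mem_erase, mem_sdiff, mem_insert, mem_singleton, not_or]
      constructor
      · rintro ((h | h) | h)
        · exact ⟨Or.inl (Or.inl h), fun e => hxW (e ▸ h), fun e => hyW (e ▸ h)⟩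
        · exact ⟨Or.inl (Or.inr h.2), h.1, fun e => hPQ _ h.2 (e ▸ hy)⟩
        · exact ⟨Or.inr h.2, fun e => hPQ _ (e ▸ hx) h.2, h.1⟩
      · rintro ⟨(h | h) | h, hx', hy'⟩
        · exact Or.inl (Or.inl h)
        · exact Or.inl (Or.inr ⟨hx', h⟩)
        · exact Or.inr ⟨hy', h⟩
    · exact disjoint_of_subset_right (erase_subset _ _) hs.2.1
    · exact disjoint_of_subset_right (erase_subset _ _) hs.2.2.1
    · exact disjoint_of_subset_left (erase_subset _ _)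
        (disjoint_of_subset_right (erase_subset _ _) hs.2.2.2.1)
    · intro a ha b hb' hab
      rw [mem_erase] at ha hb'
      refine hs.2.2.2.2 a ha.2 b hb'.2 (DD_of hab.1 ha.1 ?_ ?_ hb'.1)
      · exact fun e => hPQ _ (e ▸ hx) hb'.2
      · exact fun e => hPQ _ ha.2 (e ▸ hy)
  · exact mem_erase.2 ⟨(ht.sx 0).1, h0⟩
  · exact mem_erase.2 ⟨(ht.sx 2).2, h2'⟩

end E5DM

open E5DM in
theorem specE5D (hE5A : SpecE5A) : SpecE5D where
  k3 := fun hG ht => k3 hG ht (hE5A hG ht 2).1 (hE5A hG (TW.symm ht) 0).1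
  bad := fun hG ht hs hc hP hQ hx =>
    bad hG ht (hE5A hG ht 2).1 (hE5A hG (TW.symm ht) 0).1 hs hc hP hQ hx
  inW := by
    intro α _ _ G x y s W P Q hG ht hs hc hP hQ
    exact (main hG ht (hE5A hG ht 2).1 (hE5A hG (TW.symm ht) 0).1 hs
      ⟨card_pos.1 (by omega), card_pos.1 (by omega), hc.le, fun _ => ⟨hP, hQ⟩⟩).1
  c1 := by
    intro α _ _ G x y s hG ht hno
    have h1 := (hE5A hG ht 2).1
    have h2 := (hE5A hG (TW.symm ht) 0).1
    refine ⟨k3 hG ht h1 h2, ?_⟩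
    intro W P Q hs hc
    by_contra hne
    rw [not_or, not_le, not_le] at hne
    have hb : Bd W P Q :=
      ⟨card_pos.1 (by omega), card_pos.1 (by omega), hc.le, fun _ => ⟨hne.1, hne.2⟩⟩
    have hx : x ∈ VS (DD G x (s 2) y (s 0)) := by
      rw [VS_DD hG h1]
      exact left_mem_VS ((ht.nx _).2 ⟨0, rfl⟩)
    rcases hs.mem_or hx with h | h | h
    · exact (main hG ht h1 h2 hs hb).1 h
    · obtain ⟨_, q, _, hB⟩ := bad hG ht h1 h2 hs hc hne.1 hne.2 h
      exact hno _ _ _ hB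
    · obtain ⟨_, q, _, hB⟩ := bad hG ht h1 h2 hs.symm hc hne.2 hne.1 h
      exact hno _ _ _ hB

end DL
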