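import Pool.Agent.DL.E.Spec5
import Pool.Agent.DL.E.E4N

/-!
# MP_3ff0f8_gt, EXIST section 5, module E5A (helper51)

Twins: the graphs `G - x s_i` are nonplanar and in the class `C1`.
-/

set_option autoImplicit false
set_option linter.unusedSectionVars false

open SimpleGraph Finset

namespace DL

namespace E5AM

open E4NM

variable {α : Type}

/-- twins are a double pair -/
theorem dp {G : SimpleGraph α} {x y : α} {s : Fin 4 → α} (h : TW G x y s) : DP G x y s where
  inj := h.inj
  xy := h.xy
  sx := h.sx
  nx := fun w hw => Or.inr ((h.nx w).1 hw)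
  ny := fun w hw => Or.inr ((h.ny w).1 hw)
  ax := fun i => (h.nx _).2 ⟨i, rfl⟩
  ay := fun i => (h.ny _).2 ⟨i, rfl⟩

/-- `dst G x {a} = G - xa` -/
theorem dst_one (G : SimpleGraph α) (x a : α) : dst G x {a} = delE G x a := by
  unfold dst delE
  congr 1
  ext e
  simp

theorem delE_adj {G : SimpleGraph α} {x a u v : α} :
    (delE G x a).Adj u v ↔ G.Adj u v ∧ s(u, v) ≠ s(x, a) := by
  rw [delE, deleteEdges_adj, Set.mem_singleton_iff]

/-- an edge with an end different from `x` and `a` stays -/
theorem delE_adj_of {G : SimpleGraph α} {x a u v : α} (h : G.Adj u v) (h1 : u ≠ x) (h2 : u ≠ a) :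
    (delE G x a).Adj u v := by
  rw [delE_adj]
  refine ⟨h, fun e => ?_⟩
  rw [Sym2.eq_iff] at e
  rcases e with e | e
  · exact h1 e.1
  · exact h2 e.1

variable [Fintype α] [DecidableEq α] {G : SimpleGraph α}

theorem tw_mem_NB {x y : α} {s : Fin 4 → α} (h : TW G x y s) {w : α} :
    w ∈ NB G {x} ↔ ∃ i, w = s i := by
  rw [mem_NB]
  constructor
  · rintro ⟨_, a, ha, haw⟩
    rw [mem_singleton] at ha
    rw [ha] at haw
    exact (h.nx w).1 haw
  · intro hw
    have := (h.nx w).2 hw
    exact ⟨by rw [mem_singleton]; exact this.ne', x, mem_singleton_self x, this⟩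

/-- `{x, y} ∪ S` -/
def T0 (x y : α) (s : Fin 4 → α) : Finset α := {x, y} ∪ univ.image s

theorem mem_T0 {x y v : α} {s : Fin 4 → α} : v ∈ T0 x y s ↔ v = x ∨ v = y ∨ ∃ i, v = s i := by
  simp only [T0, mem_union, mem_insert, mem_singleton, mem_image, mem_univ, true_and, or_assoc]
  constructor
  · rintro (h | h | ⟨i, h⟩)
    · exact Or.inl h
    · exact Or.inr (Or.inl h)
    · exact Or.inr (Or.inr ⟨i, h.symm⟩)
  · rintro (h | h | ⟨i, h⟩)
    · exact Or.inl h
    · exact Or.inr (Or.inl h)
    · exact Or.inr (Or.inr ⟨i, h.symm⟩)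

theorem card_T0 (x y : α) (s : Fin 4 → α) : (T0 x y s).card ≤ 6 := by
  refine (card_union_le _ _).trans ?_
  have h1 : ({x, y} : Finset α).card ≤ 2 := card_le_two
  have h2 : (univ.image s).card ≤ 4 := card_image_le.trans (by simp)
  omega

/-- **a component of `G - x - y - S`**: connected in every graph which contains the edges of `G` at it, adjacent to
all of `S` -/
theorem exists_comp (hNBF : SpecNBF) (hG : K48 G) {x y : α} {s : Fin 4 → α} (h : DP G x y s) :
    ∃ K : Finset α, K.Nonempty ∧ K ⊆ VS G ∧ (∀ v ∈ K, v ∉ T0 x y s) ∧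
      (∀ i, ∃ k ∈ K, G.Adj (s i) k) ∧
      ∀ H : SimpleGraph α, (∀ u v, G.Adj u v → u ∉ T0 x y s → v ∉ T0 x y s → H.Adj u v) → CSet H K := by
  classical
  obtain ⟨r, hr⟩ : (VS G \ T0 x y s).Nonempty := by
    rw [← card_pos]
    have h1 := le_card_sdiff (T0 x y s) (VS G)
    have h2 := card_T0 x y s
    have h3 := hG.2
    omega
  rw [mem_sdiff] at hr
  have hK : ∀ v, (del G (T0 x y s)).Reachable r v → v ∉ T0 x y s := fun v hv =>
    DL.mem_of_reachable (X := {x' | x' ∉ T0 x y s}) hv hr.2 fun u w huw _ => huw.2.2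
  have hKV : ∀ v, (del G (T0 x y s)).Reachable r v → v ∈ VS G := fun v hv =>
    DL.mem_of_reachable (X := {x' | x' ∈ VS G}) hv hr.1 fun u w huw _ => right_mem_VS huw.1
  have hmem : ∀ v, v ∈ univ.filter (fun v => (del G (T0 x y s)).Reachable r v) ↔
      (del G (T0 x y s)).Reachable r v := fun v => by simp
  have hsub : univ.filter (fun v => (del G (T0 x y s)).Reachable r v) ⊆ VS G := fun v hv =>
    hKV v ((hmem v).1 hv)
  have hne : (univ.filter (fun v => (del G (T0 x y s)).Reachable r v)).Nonempty :=
    ⟨r, (hmem r).2 (Reachable.refl r)⟩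
  refine ⟨univ.filter fun v => (del G (T0 x y s)).Reachable r v, hne, hsub,
    fun v hv => hK v ((hmem v).1 hv), fun i => ?_, fun H hH => ⟨hne, ?_⟩⟩
  · by_contra hcon
    push Not at hcon
    have hNB : NB G (univ.filter fun v => (del G (T0 x y s)).Reachable r v) ⊆
        (univ.image s).erase (s i) := by
      intro w hw
      obtain ⟨hw1, a, ha, haw⟩ := mem_NB.1 hw
      have hwT : w ∈ T0 x y s := by
        by_contra hwT
        exact hw1 ((hmem w).2 (((hmem a).1 ha).trans
          (Adj.reachable ⟨haw, hK a ((hmem a).1 ha), hwT⟩)))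
      have haT := hK a ((hmem a).1 ha)
      rw [mem_T0, not_or, not_or] at haT
      rcases mem_T0.1 hwT with rfl | rfl | ⟨j, rfl⟩
      · rcases h.nx a haw.symm with h1 | h1
        · exact absurd h1 haT.2.1
        · exact absurd h1 haT.2.2
      · rcases h.ny a haw.symm with h1 | h1
        · exact absurd h1 haT.1
        · exact absurd h1 haT.2.2
      · rw [mem_erase]
        refine ⟨fun e => hcon a ha (e ▸ haw.symm), mem_image_of_mem s (mem_univ j)⟩
    have hcard : (NB G (univ.filter fun v => (del G (T0 x y s)).Reachable r v)).card < 4 := by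
      refine lt_of_le_of_lt (card_le_card hNB) ?_
      rw [card_erase_of_mem (mem_image_of_mem s (mem_univ i))]
      have h2 : (univ.image s).card ≤ 4 := card_image_le.trans (by simp)
      omega
    have hV := hNBF.nb hG.1 hsub hne hcard (left_mem_VS (h.ax 0))
    rw [mem_union] at hV
    rcases hV with hV | hV
    · exact hK x ((hmem x).1 hV) (mem_T0.2 (Or.inl rfl))
    · have h1 := hNB hV
      rw [mem_erase, mem_image] at h1
      obtain ⟨_, j, _, hj⟩ := h1
      exact (h.sx j).1 hj
  · have key : ∀ v, (del G (T0 x y s)).Reachable r v →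
        (del H (univ \ univ.filter fun v => (del G (T0 x y s)).Reachable r v)).Reachable r v := by
      intro v hv
      refine (DL.mem_of_reachable (X := {v | (del G (T0 x y s)).Reachable r v ∧
        (del H (univ \ univ.filter fun v => (del G (T0 x y s)).Reachable r v)).Reachable r v})
        hv ⟨Reachable.refl r, Reachable.refl r⟩ fun u w huw hu => ?_).2
      have hw := hu.1.trans huw.reachable
      refine ⟨hw, hu.2.trans (Adj.reachable ⟨hH u w huw.1 huw.2.1 huw.2.2, ?_, ?_⟩)⟩
      · rw [mem_sdiff, not_and, not_not]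
        exact fun _ => (hmem u).2 hu.1
      · rw [mem_sdiff, not_and, not_not]
        exact fun _ => (hmem w).2 hw
    intro u hu v hv
    exact (key u ((hmem u).1 hu)).symm.trans (key v ((hmem v).1 hv))

theorem cset_one (H : SimpleGraph α) (v : α) : CSet H {v} := by
  refine ⟨singleton_nonempty v, fun a ha b hb => ?_⟩
  rw [mem_singleton] at ha hb
  rw [ha, hb]

/-- three indices different from `i` -/
def oth (i : Fin 4) (j : Fin 3) : Fin 4 := i.succAbove j

theorem oth_ne (i : Fin 4) (j : Fin 3) : oth i j ≠ i := Fin.succAbove_ne i j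

theorem oth_inj (i : Fin 4) {j k : Fin 3} (h : oth i j = oth i k) : j = k :=
  Fin.succAbove_right_injective h

end E5AM

open E4NM E5AM in
/-- **E5A** -/
theorem specE5A (hCRX : SpecCRX) (hNPM : SpecNPM) (hNBF : SpecNBF) : SpecE5A := by
  classical
  intro α _ _ G x y s hG h i
  have hd := dp h
  constructor
  · rcases hCRX (P := {s i}) hG (left_mem_VS (hd.ax 0)) (by
        intro w hw
        rw [mem_singleton] at hw
        exact (tw_mem_NB h).2 ⟨i, hw⟩) (by
        have hsub : (univ.image fun j : Fin 3 => s (oth i j)) ⊆ NB G {x} \ {s i} := by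
          intro w hw
          rw [mem_image] at hw
          obtain ⟨j, _, rfl⟩ := hw
          rw [mem_sdiff, tw_mem_NB h, mem_singleton]
          exact ⟨⟨_, rfl⟩, fun e => oth_ne i j (h.inj e)⟩
        have h3 : (univ.image fun j : Fin 3 => s (oth i j)).card = 3 := by
          rw [card_image_of_injective _ fun j k e => oth_inj i (h.inj e)]
          simp
        exact h3.ge.trans (card_le_card hsub)) with h1 | ⟨T, A, B, hs, h4, hx, hA, hB, hN⟩
    · rwa [dst_one] at h1
    · exfalso
      have hBn : B.Nonempty := card_pos.1 (by omega)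
      have hy := mem_cut hG hd hs h4 hx hA hBn
      have := small hNBF hG hd hs.symm h4 hx hy i (fun j hj => by
        have h1 := hN (s j) hj (hd.ax j)
        rw [mem_singleton] at h1
        exact h.inj h1)
      omega
  · obtain ⟨K, hKn, _, hKT, hKs, hKC⟩ := exists_comp hNBF hG hd
    have hxK : x ∉ K := fun h1 => hKT x h1 (mem_T0.2 (Or.inl rfl))
    have hyK : y ∉ K := fun h1 => hKT y h1 (mem_T0.2 (Or.inr (Or.inl rfl)))
    have hsK : ∀ j, s j ∉ K := fun j h1 => hKT _ h1 (mem_T0.2 (Or.inr (Or.inr ⟨j, rfl⟩)))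
    have hCK : CSet (delE G x (s i)) K := hKC _ fun u v huv hu _ => by
      rw [mem_T0, not_or, not_or] at hu
      exact delE_adj_of huv hu.1 fun e => hu.2.2 ⟨i, e⟩
    have hsne : ∀ j : Fin 3, s (oth i j) ≠ s i := fun j e => oth_ne i j (h.inj e)
    have hA0 : ∀ j : Fin 3, ![({x} : Finset α), {y}, K] j = {x} ∨
        ![({x} : Finset α), {y}, K] j = {y} ∨ ![({x} : Finset α), {y}, K] j = K := by
      intro j
      fin_cases j
      · exact Or.inl rfl
      · exact Or.inr (Or.inl rfl)
      · exact Or.inr (Or.inr rfl)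
    refine hNPM.k33 ![{x}, {y}, K] (fun j => {s (oth i j)}) (fun j => ?_) (fun j => cset_one _ _)
      (fun j k hjk => ?_) (fun j k hjk => ?_) (fun j k => ?_) (fun j k => ?_)
    · rcases hA0 j with e | e | e
      · rw [e]; exact cset_one _ _
      · rw [e]; exact cset_one _ _
      · rw [e]; exact hCK
    · have h1 : Disjoint ({x} : Finset α) {y} := disjoint_singleton.2 h.xy
      have h2 : Disjoint ({x} : Finset α) K := disjoint_singleton_left.2 hxK
      have h3 : Disjoint ({y} : Finset α) K := disjoint_singleton_left.2 hyK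
      fin_cases j <;> fin_cases k
      · exact absurd rfl hjk
      · exact h1
      · exact h2
      · exact h1.symm
      · exact absurd rfl hjk
      · exact h3
      · exact h2.symm
      · exact h3.symm
      · exact absurd rfl hjk
    · exact disjoint_singleton.2 fun e => hjk (oth_inj i (h.inj e))
    · rcases hA0 j with e | e | e
      · rw [e]; exact disjoint_singleton.2 (h.sx _).1.symm
      · rw [e]; exact disjoint_singleton.2 (h.sx _).2.symm
      · rw [e]; exact disjoint_singleton_right.2 (hsK _)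
    · rcases hA0 j with e | e | e
      · rw [e]
        exact ⟨x, mem_singleton_self x, _, mem_singleton_self _,
          (delE_adj_of (hd.ax _).symm (h.sx _).1 (hsne k)).symm⟩
      · rw [e]
        refine ⟨y, mem_singleton_self y, _, mem_singleton_self _, delE_adj_of (hd.ay _) h.xy.symm ?_⟩
        exact (h.sx i).2.symm
      · rw [e]
        obtain ⟨v, hv, hadj⟩ := hKs (oth i k)
        exact ⟨v, hv, _, mem_singleton_self _, (delE_adj_of hadj (h.sx _).1 (hsne k)).symm⟩

end DL
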