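import Pool.Agent.DL.E.Spec5
import Pool.Agent.DL.E.E5A
import Pool.Agent.DL.KC

section
/-!
# MP_3ff0f8_gt, EXIST section 5, module E5J (helper51)

Twins: the graph `G - x + s₀s₁`.
-/
set_option autoImplicit false

open SimpleGraph Finset

namespace DL

namespace E5JM

variable {α : Type} [Fintype α] [DecidableEq α] {G : SimpleGraph α}

theorem jp_adj {x a b u v : α} : (JP G x a b).Adj u v ↔
    (G.Adj u v ∧ u ≠ x ∧ v ≠ x) ∨ (s(u, v) = s(a, b) ∧ u ≠ v) := by
  unfold JP
  rw [sup_adj, fromEdgeSet_adj, Set.mem_singleton_iff]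
  simp only [del, mem_singleton]

theorem jp_of_adj {x a b u v : α} (h : G.Adj u v) (hu : u ≠ x) (hv : v ≠ x) :
    (JP G x a b).Adj u v := jp_adj.2 (Or.inl ⟨h, hu, hv⟩)

/-- the vertices of `G - x + ab` -/
theorem VS_jp (hG : KConn 4 G) {x a b : α} (ha : G.Adj x a) (hb : G.Adj x b) :
    VS (JP G x a b) = VS G \ {x} := by
  have h1 : VS (del G {x}) = VS G \ {x} := hG.VS_del (by simp)
  apply Subset.antisymm
  · intro v hv
    obtain ⟨w, hw⟩ := mem_VS.1 hv
    rw [mem_sdiff, mem_singleton]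
    rcases jp_adj.1 hw with h2 | h2
    · exact ⟨left_mem_VS h2.1, h2.2.1⟩
    · have h3 := h2.1
      rw [Sym2.eq_iff] at h3
      rcases h3 with ⟨rfl, _⟩ | ⟨rfl, _⟩
      · exact ⟨right_mem_VS ha, ha.ne'⟩
      · exact ⟨right_mem_VS hb, hb.ne'⟩
  · rw [← h1]
    exact VS_mono (fun u v huv => Or.inl huv)

theorem kconn_jp (hG : KConn 4 G) {x a b : α} (ha : G.Adj x a) (hb : G.Adj x b) :
    KConn 3 (JP G x a b) := by
  have h1 : VS (del G {x}) = VS G \ {x} := hG.VS_del (by simp)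
  have h2 : KConn 3 (del G {x}) := KConn.del_vertex (k := 3) (by norm_num) hG x
  have h3 := VS_jp hG ha hb
  refine ⟨by rw [h3, ← h1]; exact h2.1, fun S hS u hu v hv huS hvS => ?_⟩
  rw [h3, ← h1] at hu hv
  have hle : del (del G {x}) S ≤ del (JP G x a b) S := fun p q hpq =>
    ⟨Or.inl hpq.1, hpq.2⟩
  exact (h2.reach hS hu hv huS hvS).mono hle

end E5JM

open E4NM E5AM E5JM in
/-- **E5J** -/
theorem specE5J (hNBF : SpecNBF) : SpecE5J := by
  classical
  intro α _ _ G x y s hG h hspl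
  have hd := dp h
  have hV := VS_jp hG.1 (hd.ax 0) (hd.ax 1)
  refine ⟨kconn_jp hG.1 (hd.ax 0) (hd.ax 1), fun W P Q hs hW => ?_⟩
  by_contra hcon
  rw [not_or, not_le, not_le] at hcon
  have h01 : (JP G x (s 0) (s 1)).Adj (s 0) (s 1) :=
    jp_adj.2 (Or.inr ⟨rfl, fun e => absurd (h.inj e) (by decide)⟩)
  have hnx : ∀ v ∈ VS (JP G x (s 0) (s 1)), v ≠ x := fun v hv => by
    rw [hV, mem_sdiff, mem_singleton] at hv
    exact hv.2
  have hxP : x ∉ P := fun h1 => hnx x (hs.subP h1) rfl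
  have hxQ : x ∉ Q := fun h1 => hnx x (hs.subQ h1) rfl
  have hxW : x ∉ W := fun h1 => hnx x (hs.subS h1) rfl
  have hxV : x ∈ VS G := left_mem_VS (hd.ax 0)
  have hsG : Sep G (insert x W) P Q := by
    refine ⟨?_, disjoint_insert_left.2 ⟨hxP, hs.2.1⟩, disjoint_insert_left.2 ⟨hxQ, hs.2.2.1⟩,
      hs.2.2.2.1, fun a ha b hb hab => ?_⟩
    · rw [insert_union, insert_union, hs.1, hV]
      ext v
      simp only [mem_insert, mem_sdiff, mem_singleton]
      constructor
      · rintro (rfl | h1)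
        · exact hxV
        · exact h1.1
      · intro h1
        by_cases h2 : v = x
        · exact Or.inl h2
        · exact Or.inr ⟨h1, h2⟩
    · exact hs.2.2.2.2 a ha b hb (jp_of_adj hab (hnx a (hs.subP ha)) (hnx b (hs.subQ hb)))
  have h4 : (insert x W).card = 4 := by rw [card_insert_of_notMem hxW, hW]
  have hx : x ∈ insert x W := mem_insert_self _ _
  have hPn : P.Nonempty := card_pos.1 (by omega)
  have hQn : Q.Nonempty := card_pos.1 (by omega)
  have hy := mem_cut hG hd hsG h4 hx hPn hQn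
  obtain ⟨c, d, hnd, hT⟩ := cut_eq h.xy h4 hx hy
  have key : ∀ P Q : Finset α, Sep G (insert x W) P Q → 1 < P.card → P.Nonempty →
      ∃ i j, i ≠ j ∧ s i ∈ P ∧ s j ∈ P := by
    intro P Q hs hP hPn
    obtain ⟨i, hi⟩ := exists_mem hG hd hs h4 hx hy hPn
    by_contra hcon
    have h1 : ∀ j, s j ∈ P → j = i := fun j hj => by
      by_contra hji
      exact hcon ⟨j, i, hji, hj, hi⟩
    have := small hNBF hG hd hs h4 hx hy i h1
    omega
  obtain ⟨i, j, hij, hi, hj⟩ := key P Q hsG hcon.1 hPn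
  obtain ⟨k, l, hkl, hk, hl⟩ := key Q P hsG.symm hcon.2 hQn
  have hdis : ∀ {v : α}, v ∈ P → v ∈ Q → False := fun h2 h3 =>
    Finset.disjoint_left.1 hs.2.2.2.1 h2 h3
  have hne : ∀ i k : Fin 4, s i ∈ P → s k ∈ Q → i ≠ k := by
    rintro i k h1 h2 rfl
    exact hdis h1 h2
  have hn1 : ¬ (s 0 ∈ P ∧ s 1 ∈ Q) := fun h1 => hs.2.2.2.2 _ h1.1 _ h1.2 h01
  have hn2 : ¬ (s 1 ∈ P ∧ s 0 ∈ Q) := fun h1 => hs.2.2.2.2 _ h1.1 _ h1.2 h01.symm
  have hall : ∀ m : Fin 4, s m ∈ P ∨ s m ∈ Q := by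
    have h1 : ∀ i j k l : Fin 4, i ≠ j → k ≠ l → i ≠ k → i ≠ l → j ≠ k → j ≠ l →
        ∀ m, m = i ∨ m = j ∨ m = k ∨ m = l := by decide
    intro m
    rcases h1 i j k l hij hkl (hne _ _ hi hk) (hne _ _ hi hl) (hne _ _ hj hk) (hne _ _ hj hl) m
      with rfl | rfl | rfl | rfl
    · exact Or.inl hi
    · exact Or.inl hj
    · exact Or.inr hk
    · exact Or.inr hl
  have fin : ∀ P Q : Finset α, Sep G (insert x W) P Q → (∀ m : Fin 4, s m ∈ P ∨ s m ∈ Q) →
      (∃ k l : Fin 4, k ≠ l ∧ s k ∈ Q ∧ s l ∈ Q) → s 0 ∈ P → s 1 ∈ P → False := by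
    rintro P Q hs hall ⟨k, l, hkl, hk, hl⟩ h0 h1
    have hd' : ∀ {v : α}, v ∈ P → v ∈ Q → False := fun h2 h3 =>
      Finset.disjoint_left.1 hs.2.2.2.1 h2 h3
    have hk0 : k ≠ 0 := by rintro rfl; exact hd' h0 hk
    have hk1 : k ≠ 1 := by rintro rfl; exact hd' h1 hk
    have hl0 : l ≠ 0 := by rintro rfl; exact hd' h0 hl
    have hl1 : l ≠ 1 := by rintro rfl; exact hd' h1 hl
    have h1' : ∀ k l : Fin 4, k ≠ l → k ≠ 0 → k ≠ 1 → l ≠ 0 → l ≠ 1 →
        (k = 2 ∧ l = 3) ∨ (k = 3 ∧ l = 2) := by decide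
    rw [hT] at hs
    rcases h1' k l hkl hk0 hk1 hl0 hl1 with ⟨rfl, rfl⟩ | ⟨rfl, rfl⟩
    · exact hspl ⟨c, d, P, Q, hnd, hs, h0, h1, hk, hl⟩
    · exact hspl ⟨c, d, P, Q, hnd, hs, h0, h1, hl, hk⟩
  rcases hall 0 with h0 | h0
  · rcases hall 1 with h1 | h1
    · exact fin P Q hsG hall ⟨k, l, hkl, hk, hl⟩ h0 h1
    · exact hn1 ⟨h0, h1⟩
  · rcases hall 1 with h1 | h1
    · exact hn2 ⟨h1, h0⟩
    · exact fin Q P hsG.symm (fun m => (hall m).symm) ⟨i, j, hij, hi, hj⟩ h0 h1

end DL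
end

section
/-!
# MP_3ff0f8_gt, EXIST section 5, module T3S: deleting an edge at a cubic vertex
-/
set_option autoImplicit false

open SimpleGraph Finset

namespace DL

namespace T3SM

variable {α : Type} [Fintype α] [DecidableEq α] {G : SimpleGraph α}

omit [DecidableEq α] in
theorem mem_NB {A : Finset α} {w : α} : w ∈ NB G A ↔ w ∉ A ∧ ∃ a ∈ A, G.Adj a w := by
  simp [NB]

theorem dg_eq (v : α) : dg G v = (nbs G v).card := by
  unfold dg
  congr 1
  ext w
  rw [mem_NB, mem_nbs]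
  simp only [mem_singleton, exists_eq_left]
  exact ⟨fun h => h.2, fun h => ⟨h.ne', h⟩⟩

/-- three different neighbours -/
theorem three_nbs {v : α} (h : 3 ≤ (nbs G v).card) :
    ∃ x y z, x ≠ y ∧ x ≠ z ∧ y ≠ z ∧ G.Adj v x ∧ G.Adj v y ∧ G.Adj v z := by
  obtain ⟨x, y, z, hx, hy, hz, h1, h2, h3⟩ := two_lt_card_iff.1 (show 2 < (nbs G v).card from h)
  exact ⟨x, y, z, h1, h2, h3, mem_nbs.1 hx, mem_nbs.1 hy, mem_nbs.1 hz⟩

theorem delE_nbs {v a b : α} (hva : v ≠ a) (hvb : v ≠ b) : nbs (delE G a b) v = nbs G v := by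
  ext w
  rw [mem_nbs, mem_nbs, delE_adj]
  refine ⟨fun h => h.1, fun h => ⟨h, fun h1 => ?_⟩⟩
  rw [Sym2.eq_iff] at h1
  rcases h1 with ⟨h1, _⟩ | ⟨h1, _⟩
  · exact hva h1
  · exact hvb h1

end T3SM

open T3SM

theorem specT3S : SpecT3S := by
  intro α _ _ S b c p q hC1 hpq hpc hqc hb hpq' hdc
  classical
  have hS := hC1.1
  have hbc : S.Adj b c := (hb c).2 (Or.inl rfl)
  have hbp : S.Adj b p := (hb p).2 (Or.inr (Or.inl rfl))
  have hbq : S.Adj b q := (hb q).2 (Or.inr (Or.inr rfl))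
  obtain ⟨J, hJ⟩ : ∃ J : SimpleGraph α, J = delE S b c := ⟨_, rfl⟩
  have hJadj : ∀ v w, J.Adj v w ↔ S.Adj v w ∧ s(v, w) ≠ s(b, c) := by
    intro v w
    rw [hJ, delE_adj]
  have hJS : J ≤ S := fun v w h => ((hJadj v w).1 h).1
  have hJof : ∀ v w, S.Adj v w → v ≠ b → v ≠ c → J.Adj v w := by
    intro v w h h1 h2
    refine (hJadj v w).2 ⟨h, fun h3 => ?_⟩
    rw [Sym2.eq_iff] at h3
    rcases h3 with ⟨h3, _⟩ | ⟨h3, _⟩
    · exact h1 h3
    · exact h2 h3
  have hJ2 : KConn 2 J := by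
    rw [hJ]
    exact hS.delE (by norm_num) b c
  have hJb : ∀ w, J.Adj b w ↔ w = p ∨ w = q := by
    intro w
    rw [hJadj, hb]
    constructor
    · rintro ⟨h1 | h1, h2⟩
      · rw [h1] at h2
        exact absurd rfl h2
      · exact h1
    · intro h1
      refine ⟨Or.inr h1, fun h2 => ?_⟩
      rw [Sym2.eq_iff] at h2
      rcases h2 with ⟨_, h2⟩ | ⟨h2, _⟩
      · rcases h1 with h1 | h1
        · exact hpc (h1.symm.trans h2)
        · exact hqc (h1.symm.trans h2)
      · exact hbc.ne h2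
  have hVS : VS J = VS S := by
    rw [hJ]
    exact VS_delE fun v hv => le_trans (by norm_num) (hS.le_nbs hv)
  have hc3 : 3 ≤ (nbs J c).card := by
    have h1 : (nbs S c).erase b ⊆ nbs J c := by
      intro w hw
      rw [mem_erase, mem_nbs] at hw
      rw [mem_nbs, hJadj]
      refine ⟨hw.2, fun h2 => ?_⟩
      rw [Sym2.eq_iff] at h2
      rcases h2 with ⟨h2, _⟩ | ⟨_, h2⟩
      · exact hbc.ne h2.symm
      · exact hw.1 h2
    have h2 := card_le_card h1
    have h3 := pred_card_le_card_erase (s := nbs S c) (a := b)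
    rw [dg_eq] at hdc
    omega
  rw [← hJ]
  refine ⟨hJ2, ⟨c, three_nbs hc3⟩, ?_⟩
  intro p' q' hne
  by_contra hcon
  rw [not_or] at hcon
  obtain ⟨hcon1, hcon2⟩ := hcon
  apply hcon2
  clear hcon2
  obtain ⟨T, hT⟩ : ∃ T : Finset α, T = {p', q'} := ⟨_, rfl⟩
  have hTm : ∀ v, v ∈ T ↔ v = p' ∨ v = q' := by
    intro v
    rw [hT, mem_insert, mem_singleton]
  have hTc : T.card ≤ 2 := by
    rw [hT]
    exact card_le_two
  rw [← hT] at hcon1
  -- both vertices are in the graph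
  have hin : ∀ r, r ∈ T → r ∈ VS S := by
    intro r hr
    by_contra hrV
    apply hcon1
    intro u hu v hv huT hvT
    have h1 := hJ2.reach (S := T.erase r) (by
      rw [card_erase_of_mem hr]
      omega) hu hv (fun h => huT (mem_of_mem_erase h)) (fun h => hvT (mem_of_mem_erase h))
    refine h1.mono fun x y hxy => ?_
    refine ⟨hxy.1, fun hx => ?_, fun hy => ?_⟩
    · by_cases hxr : x = r
      · rw [hxr] at hxy
        exact hrV (hVS ▸ left_mem_VS hxy.1)
      · exact hxy.2.1 (mem_erase.2 ⟨hxr, hx⟩)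
    · by_cases hyr : y = r
      · rw [hyr] at hxy
        exact hrV (hVS ▸ right_mem_VS hxy.1)
      · exact hxy.2.2 (mem_erase.2 ⟨hyr, hy⟩)
  -- `b`, `c` are not connected in `J - T`
  have hconS : ConnOff S T := hS.2 T (by omega)
  have hbcn : b ∉ T ∧ c ∉ T ∧ ¬ (del J T).Reachable b c := by
    by_contra hcc
    apply hcon1
    have hstep : ∀ x y, (del S T).Adj x y → (del J T).Reachable x y := by
      intro x y hxy
      by_cases he : s(x, y) = s(b, c)
      · have hrc : (del J T).Reachable b c := by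
          by_contra hrc
          apply hcc
          rw [Sym2.eq_iff] at he
          rcases he with ⟨rfl, rfl⟩ | ⟨rfl, rfl⟩
          · exact ⟨hxy.2.1, hxy.2.2, hrc⟩
          · exact ⟨hxy.2.2, hxy.2.1, hrc⟩
        rw [Sym2.eq_iff] at he
        rcases he with ⟨rfl, rfl⟩ | ⟨rfl, rfl⟩
        · exact hrc
        · exact hrc.symm
      · exact Adj.reachable ⟨(hJadj x y).2 ⟨hxy.1, he⟩, hxy.2.1, hxy.2.2⟩
    intro u hu v hv huT hvT
    rw [hVS] at hu hv
    exact mem_of_reachable (X := {w | (del J T).Reachable u w}) (hconS u hu v hv huT hvT)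
      (Reachable.refl u) fun x y hxy hx => hx.trans (hstep x y hxy)
  obtain ⟨hbT, hcT, hnr⟩ := hbcn
  have hbV : b ∈ VS S := left_mem_VS hbc
  have hcV : c ∈ VS S := right_mem_VS hbc
  -- the two components
  obtain ⟨P, hP⟩ : ∃ P : Finset α, ∀ v, v ∈ P ↔ (del J T).Reachable b v :=
    ⟨univ.filter fun v => (del J T).Reachable b v, fun v => by simp⟩
  obtain ⟨Q, hQ⟩ : ∃ Q : Finset α, ∀ v, v ∈ Q ↔ (del J T).Reachable c v :=
    ⟨univ.filter fun v => (del J T).Reachable c v, fun v => by simp⟩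
  have hPT : ∀ v ∈ P, v ∉ T := fun v hv =>
    mem_of_reachable (X := {v | v ∉ T}) ((hP v).1 hv) hbT fun _ _ hab _ => hab.2.2
  have hQT : ∀ v ∈ Q, v ∉ T := fun v hv =>
    mem_of_reachable (X := {v | v ∉ T}) ((hQ v).1 hv) hcT fun _ _ hab _ => hab.2.2
  have hPV : ∀ v ∈ P, v ∈ VS S := fun v hv =>
    mem_of_reachable (X := {v | v ∈ VS S}) ((hP v).1 hv) hbV fun _ _ hab _ =>
      right_mem_VS (hJS hab.1)
  have hQV : ∀ v ∈ Q, v ∈ VS S := fun v hv =>
    mem_of_reachable (X := {v | v ∈ VS S}) ((hQ v).1 hv) hcV fun _ _ hab _ =>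
      right_mem_VS (hJS hab.1)
  have hPQ : ∀ v, v ∈ P → v ∉ Q := fun v h1 h2 =>
    hnr (((hP v).1 h1).trans ((hQ v).1 h2).symm)
  have hbP : b ∈ P := (hP b).2 (Reachable.refl b)
  have hcQ : c ∈ Q := (hQ c).2 (Reachable.refl c)
  have hcov : ∀ v ∈ VS S, v ∉ T → v ∈ P ∨ v ∈ Q := by
    intro v hv hvT
    refine mem_of_reachable (X := {w | w ∈ P ∨ w ∈ Q}) (hconS b hbV v hv hbT hvT) (Or.inl hbP) ?_
    intro x y hxy hx
    by_cases he : s(x, y) = s(b, c)
    · rw [Sym2.eq_iff] at he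
      rcases he with ⟨rfl, rfl⟩ | ⟨rfl, rfl⟩
      · exact Or.inr hcQ
      · exact Or.inl hbP
    · have hadj : (del J T).Adj x y := ⟨(hJadj x y).2 ⟨hxy.1, he⟩, hxy.2.1, hxy.2.2⟩
      rcases hx with hx | hx
      · exact Or.inl ((hP y).2 (((hP x).1 hx).trans (Adj.reachable hadj)))
      · exact Or.inr ((hQ y).2 (((hQ x).1 hx).trans (Adj.reachable hadj)))
  have hnP : ∀ v ∈ P, ∀ w, J.Adj v w → w ∈ T ∨ w ∈ P := by
    intro v hv w hw
    by_cases hwT : w ∈ T
    · exact Or.inl hwT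
    · exact Or.inr ((hP w).2 (((hP v).1 hv).trans (Adj.reachable ⟨hw, hPT v hv, hwT⟩)))
  have hnQ : ∀ v ∈ Q, ∀ w, J.Adj v w → w ∈ T ∨ w ∈ Q := by
    intro v hv w hw
    by_cases hwT : w ∈ T
    · exact Or.inl hwT
    · exact Or.inr ((hQ w).2 (((hQ v).1 hv).trans (Adj.reachable ⟨hw, hQT v hv, hwT⟩)))
  have hJbp : J.Adj b p := (hJb p).2 (Or.inl rfl)
  have hJbq : J.Adj b q := (hJb q).2 (Or.inr rfl)
  by_cases hP1 : ∀ v ∈ P, v = b
  · -- `P = {b}`
    have hpT : p ∈ T := (hnP b hbP p hJbp).resolve_right fun h => hJbp.ne (hP1 p h).symm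
    have hqT : q ∈ T := (hnP b hbP q hJbq).resolve_right fun h => hJbq.ne (hP1 q h).symm
    have hpair : (p' = p ∧ q' = q) ∨ (p' = q ∧ q' = p) := by
      rcases (hTm p).1 hpT with h1 | h1 <;> rcases (hTm q).1 hqT with h2 | h2
      · exact absurd (h1.trans h2.symm) hpq
      · exact Or.inl ⟨h1.symm, h2.symm⟩
      · exact Or.inr ⟨h2.symm, h1.symm⟩
      · exact absurd (h1.trans h2.symm) hpq
    refine ⟨b, ?_, ?_, ?_⟩
    · intro w
      rw [hJb]
      rcases hpair with ⟨rfl, rfl⟩ | ⟨rfl, rfl⟩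
      · exact Iff.rfl
      · exact or_comm
    · intro h
      rcases hpair with ⟨rfl, rfl⟩ | ⟨rfl, rfl⟩
      · exact hpq' (hJS h)
      · exact hpq' (hJS h).symm
    · have key : ∀ v ∈ VS J, v ∉ ({p', q', b} : Finset α) →
          (del J {p', q', b}).Reachable c v := by
        intro v hv hvT
        rw [hVS] at hv
        have hvT' : v ∉ T ∧ v ≠ b := by
          rw [hTm]
          simp only [mem_insert, mem_singleton, not_or] at hvT
          exact ⟨fun h => h.elim hvT.1 hvT.2.1, hvT.2.2⟩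
        have hvQ : v ∈ Q := (hcov v hv hvT'.1).resolve_left fun h => hvT'.2 (hP1 v h)
        have := mem_of_reachable (X := {w | w ∈ Q ∧ (del J {p', q', b}).Reachable c w})
          ((hQ v).1 hvQ) ⟨hcQ, Reachable.refl c⟩ (by
            rintro x y hxy ⟨hx1, hx2⟩
            have hy : y ∈ Q := (hQ y).2 (((hQ x).1 hx1).trans (Adj.reachable hxy))
            have hnot : ∀ z ∈ Q, z ∉ ({p', q', b} : Finset α) := by
              intro z hz h
              simp only [mem_insert, mem_singleton] at h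
              rcases h with h | h | h
              · exact hQT z hz ((hTm z).2 (Or.inl h))
              · exact hQT z hz ((hTm z).2 (Or.inr h))
              · rw [h] at hz
                exact hPQ b hbP hz
            exact ⟨hy, hx2.trans (Adj.reachable ⟨hxy.1, hnot x hx1, hnot y hy⟩)⟩)
        exact this.2
      intro u hu v hv huT hvT
      exact (key u hu huT).symm.trans (key v hv hvT)
  · exfalso
    push Not at hP1
    obtain ⟨v₀, hv₀, hv₀b⟩ := hP1
    have hsep : Sep S (insert b T) (P.erase b) Q := by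
      refine ⟨?_, ?_, ?_, ?_, ?_⟩
      · ext v
        simp only [mem_union, mem_insert, mem_erase]
        constructor
        · rintro (((rfl | h) | h) | h)
          · exact hbV
          · exact hin v h
          · exact hPV v h.2
          · exact hQV v h
        · intro hv
          by_cases hvb : v = b
          · exact Or.inl (Or.inl (Or.inl hvb))
          · by_cases hvT : v ∈ T
            · exact Or.inl (Or.inl (Or.inr hvT))
            · rcases hcov v hv hvT with h | h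
              · exact Or.inl (Or.inr ⟨hvb, h⟩)
              · exact Or.inr h
      · rw [Finset.disjoint_left]
        intro v hv hv'
        rw [mem_erase] at hv'
        rcases mem_insert.1 hv with h | h
        · exact hv'.1 h
        · exact hPT v hv'.2 h
      · rw [Finset.disjoint_left]
        intro v hv hv'
        rcases mem_insert.1 hv with h | h
        · rw [h] at hv'
          exact hPQ b hbP hv'
        · exact hQT v hv' h
      · rw [Finset.disjoint_left]
        intro v hv hv'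
        exact hPQ v (mem_of_mem_erase hv) hv'
      · intro x hx y hy hxy
        rw [mem_erase] at hx
        have hxc : x ≠ c := by
          rintro rfl
          exact hPQ x hx.2 hcQ
        rcases hnP x hx.2 y (hJof x y hxy hx.1 hxc) with h | h
        · exact hQT y hy h
        · exact hPQ y h hy
    have hTc3 : (insert b T).card = 3 := by
      rw [card_insert_of_notMem hbT, hT, card_pair hne]
    rcases hC1.2 _ _ _ hsep hTc3 with h | h
    · -- `P = {b, v₀}`
      have hPe : ∀ v ∈ P, v = b ∨ v = v₀ := by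
        intro v hv
        by_cases hvb : v = b
        · exact Or.inl hvb
        · exact Or.inr (card_le_one.1 h v (mem_erase.2 ⟨hvb, hv⟩) v₀ (mem_erase.2 ⟨hv₀b, hv₀⟩))
      have hv₀c : v₀ ≠ c := by
        rintro rfl
        exact hPQ v₀ hv₀ hcQ
      have hsub : nbs S v₀ ⊆ insert b T := by
        intro w hw
        rw [mem_nbs] at hw
        rw [mem_insert]
        rcases hnP v₀ hv₀ w (hJof v₀ w hw hv₀b hv₀c) with h1 | h1
        · exact Or.inr h1
        · rcases hPe w h1 with h2 | h2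
          · exact Or.inl h2
          · exact absurd h2.symm hw.ne
      have heq : nbs S v₀ = insert b T := eq_of_subset_of_card_le hsub (by
        rw [hTc3]
        exact hS.le_nbs (hPV v₀ hv₀))
      have hvb : S.Adj v₀ b := by
        rw [← mem_nbs, heq]
        exact mem_insert_self b T
      have hTadj : ∀ t ∈ T, S.Adj v₀ t := by
        intro t ht
        rw [← mem_nbs, heq]
        exact mem_insert_of_mem ht
      rcases (hb v₀).1 hvb.symm with h1 | h1 | h1
      · exact hv₀c h1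
      · have hqT : q ∈ T := (hnP b hbP q hJbq).resolve_right fun h2 => by
          rcases hPe q h2 with h3 | h3
          · exact hJbq.ne h3.symm
          · exact hpq (h1.symm.trans h3.symm)
        apply hpq'
        rw [← h1]
        exact hTadj q hqT
      · have hpT : p ∈ T := (hnP b hbP p hJbp).resolve_right fun h2 => by
          rcases hPe p h2 with h3 | h3
          · exact hJbp.ne h3.symm
          · exact hpq (h3.trans h1)
        apply hpq'
        rw [← h1]
        exact (hTadj p hpT).symm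
    · -- `Q = {c}`
      have hsub : nbs J c ⊆ T := by
        intro w hw
        rw [mem_nbs] at hw
        rcases hnQ c hcQ w hw with h1 | h1
        · exact h1
        · exact absurd (card_le_one.1 h c hcQ w h1) hw.ne
      have := card_le_card hsub
      omega

end DL
end

section
/-!
# MP_3ff0f8_gt, row 180, module E5X (helper39)
-/
open SimpleGraph Finset

namespace DL

namespace E5XM

theorem sz_lt {α : Type} [Fintype α] [DecidableEq α] {G H : SimpleGraph α} (h : H ≤ G)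
    {e : Sym2 α} (he : e ∈ G.edgeSet) (he' : e ∉ H.edgeSet) : sz H < sz G := by
  unfold sz
  have h1 : (VS H).card ≤ (VS G).card := card_le_card (VS_mono h)
  have h2 : H.edgeSet.ncard < G.edgeSet.ncard :=
    Set.ncard_lt_ncard ⟨SimpleGraph.edgeSet_mono h, fun h' => he' (h' he)⟩ (Set.toFinite _)
  omega

theorem DD_le {α : Type} (G : SimpleGraph α) (x n y m : α) : DD G x n y m ≤ G :=
  (deleteEdges_le _).trans (deleteEdges_le _)

theorem DD_adj {α : Type} {G : SimpleGraph α} {x n y m a b : α} :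
    (DD G x n y m).Adj a b ↔ G.Adj a b ∧ s(a, b) ≠ s(x, n) ∧ s(a, b) ≠ s(y, m) := by
  classical
  simp only [DD, delE, deleteEdges_adj, Set.mem_singleton_iff]
  tauto

theorem DD_comm {α : Type} (G : SimpleGraph α) (x n y m : α) : DD G x n y m = DD G y m x n := by
  ext a b
  rw [DD_adj, DD_adj]
  tauto

theorem sz_DD {α : Type} [Fintype α] [DecidableEq α] {G : SimpleGraph α} {x n y m : α}
    (h : G.Adj x n) : sz (DD G x n y m) < sz G := by
  refine sz_lt (DD_le G x n y m) (e := s(x, n)) h ?_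
  rw [SimpleGraph.mem_edgeSet, DD_adj]
  tauto

/-- exchange of `x` and `y` -/
theorem tw_swap {α : Type} {G : SimpleGraph α} {x y : α} {s : Fin 4 → α} (h : TW G x y s) :
    TW G y x s :=
  ⟨h.inj, h.xy.symm, fun i => (h.sx i).symm, h.ny, h.nx⟩

/-- relabelling of `s` -/
theorem tw_perm {α : Type} {G : SimpleGraph α} {x y : α} {s : Fin 4 → α} (h : TW G x y s)
    (p : Equiv.Perm (Fin 4)) : TW G x y (s ∘ p) := by
  have hp : ∀ w, (∃ i, w = (s ∘ p) i) ↔ ∃ i, w = s i := fun w =>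
    ⟨fun ⟨i, hi⟩ => ⟨p i, hi⟩, fun ⟨i, hi⟩ => ⟨p.symm i, by simp [hi]⟩⟩
  exact ⟨h.inj.comp p.injective, h.xy, fun i => h.sx (p i), fun w => (h.nx w).trans (hp w).symm,
    fun w => (h.ny w).trans (hp w).symm⟩

/-- relabelling of `s` by a list of indices -/
theorem tw_vec {α : Type} {G : SimpleGraph α} {x y : α} {s : Fin 4 → α} (h : TW G x y s)
    (a b c d : Fin 4) (hn : Function.Bijective ![a, b, c, d]) :
    TW G x y ![s a, s b, s c, s d] := by
  have h1 := tw_perm h (Equiv.ofBijective _ hn)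
  have e : s ∘ (Equiv.ofBijective _ hn) = ![s a, s b, s c, s d] := by
    funext i
    fin_cases i <;> rfl
  rwa [e] at h1

theorem bc_sep {α : Type} [Fintype α] [DecidableEq α] {G : SimpleGraph α} {x y q : α}
    {s : Fin 4 → α} {P Q : Finset α} (h : BC G x y s q P Q) : q ∉ P ∧ q ∉ Q := by
  obtain ⟨-, -, h3, -, -⟩ := h
  have hq : q ∈ ({s 1, s 3, q} : Finset α) := by simp
  exact ⟨Finset.disjoint_left.1 h3.2.1 hq, Finset.disjoint_left.1 h3.2.2.1 hq⟩

/-- exchange of the two sides of a bad cut -/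
theorem bc_swap {α : Type} [Fintype α] [DecidableEq α] {G : SimpleGraph α} {x y q : α}
    {s : Fin 4 → α} {P Q : Finset α} :
    BC G y x ![s 2, s 3, s 0, s 1] q P Q ↔ BC G x y s q Q P := by
  have e1 : ({y, x} : Finset α) = {x, y} := Finset.pair_comm _ _
  have e2 : ({s 3, s 1, q} : Finset α) = {s 1, s 3, q} := by
    ext z; simp only [mem_insert, mem_singleton]; tauto
  constructor
  · rintro ⟨h1, h2, h3, h4, h5⟩
    refine ⟨h2, h1, ?_, h5, h4⟩
    have h3' : Sep (del G {y, x}) {s 3, s 1, q} P Q := h3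
    rw [e1, e2] at h3'
    exact h3'.symm
  · rintro ⟨h1, h2, h3, h4, h5⟩
    refine ⟨h2, h1, ?_, h5, h4⟩
    change Sep (del G {y, x}) {s 3, s 1, q} P Q
    rw [e1, e2]
    exact h3.symm

end E5XM

open E5XM

theorem specE5X (hE5D : SpecE5D) (hE5M : SpecE5M) (hE5Q : SpecE5Q) (hE5T : SpecE5T)
    (hE5U : SpecE5U) : SpecE5X := by
  intro α _ _ G x y s Z hK hIH h33 h34 hT hJ hZ hND
  have hNP : NP (DD G x (s 2) y (s 0)) := hE5M hK h34 hT hJ hZ
  have hx2 : G.Adj x (s 2) := (hT.nx _).2 ⟨2, rfl⟩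
  by_cases hA : ∃ q P Q, BC G x y s q P Q ∧ P = {s 0} ∧
      (∀ w, G.Adj (s 0) w ↔ w = x ∨ w = y ∨ w = s 3 ∨ w = q) ∧ ¬ G.Adj (s 1) q
  · obtain ⟨q, P, Q, hb, hP, hn, hq⟩ := hA
    have hq1 : q ≠ s 1 := hb.1
    have hq2 : q ≠ s 2 := fun e => (bc_sep hb).2 (e ▸ hb.2.2.2.2)
    by_cases hB : ∃ q P Q, BC G x y s q P Q ∧ Q = {s 2} ∧
      (∀ w, G.Adj (s 2) w ↔ w = x ∨ w = y ∨ w = s 1 ∨ w = q) ∧ ¬ G.Adj (s 3) q
    · obtain ⟨q', P', Q', hb', hP', hn', hq'⟩ := hB
      have hq3 : q' ≠ s 3 := hb'.2.1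
      have hq0 : q' ≠ s 0 := fun e => (bc_sep hb').1 (e ▸ hb'.2.2.2.1)
      refine hE5U hK hIH h33 hT hq1 hq2 hq0 hq3 hn hn' hq hq' ?_ hNP
      intro q'' P'' Q'' hb''
      rcases hE5Q.dis hK hT hND hb'' with h | h
      · exact Or.inl h.1
      · exact Or.inr h.1
    · refine hE5T hK hIH h33 hT hq1 hq2 hn hq ?_ hNP
      intro q'' P'' Q'' hb''
      rcases hE5Q.dis hK hT hND hb'' with h | h
      · exact h.1
      · exact absurd ⟨q'', P'', Q'', hb'', h⟩ hB
  · by_cases hB : ∃ q P Q, BC G x y s q P Q ∧ Q = {s 2} ∧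
      (∀ w, G.Adj (s 2) w ↔ w = x ∨ w = y ∨ w = s 1 ∨ w = q) ∧ ¬ G.Adj (s 3) q
    · obtain ⟨q', P', Q', hb', hP', hn', hq'⟩ := hB
      have hq3 : q' ≠ s 3 := hb'.2.1
      have hq0 : q' ≠ s 0 := fun e => (bc_sep hb').1 (e ▸ hb'.2.2.2.1)
      have hT' : TW G y x ![s 2, s 3, s 0, s 1] := tw_vec (tw_swap hT) 2 3 0 1 (by decide)
      rw [DD_comm]
      refine hE5T (s := ![s 2, s 3, s 0, s 1]) (q := q') hK hIH h33 hT' hq3 hq0 ?_ hq' ?_ ?_
      · intro w
        change G.Adj (s 2) w ↔ w = y ∨ w = x ∨ w = s 1 ∨ w = q'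
        rw [hn' w]; tauto
      · intro q'' P'' Q'' hb''
        have hb2 := bc_swap.1 hb''
        change P'' = {s 2}
        rcases hE5Q.dis hK hT hND hb2 with h | h
        · exact absurd ⟨q'', _, _, hb2, h⟩ hA
        · exact h.1
      · change NP (DD G y (s 0) x (s 2))
        rw [DD_comm]; exact hNP
    · have hno : ∀ q P Q, ¬ BC G x y s q P Q := by
        intro q P Q hb
        rcases hE5Q.dis hK hT hND hb with h | h
        · exact hA ⟨q, P, Q, hb, h⟩
        · exact hB ⟨q, P, Q, hb, h⟩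
      exact (hIH _ (sz_DD hx2) (hE5D.c1 hK hT hno) hNP).2

end DL
end
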