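import Pool.Agent.DL.E.Defs

/-!
# MP_3ff0f8_gt, ALGEBRA HALF, EXIST section 0 (helper61): the tools

Module `XXX` = file `DL/E/XXX.lean`, theorem `specXXX (hYYY : SpecYYY) … : SpecXXX`; the hypotheses may be any other Specs
named in the docstring (also of DL/EX, DL/K, DL/NP); own lemmas in the namespace `DL.XXXM`.  The docstrings contain complete proofs.
`dst G u P` = `G` without the edges from `u` to `P` (`DL/E/Defs.lean`).
-/

open SimpleGraph Finset

namespace DL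

/-! ## A. Stars, sizes -/

/-- **DST** (from KC, S3F; 120 lines).  Elementary facts on `dst G u P`.  `vs`: a vertex `v ≠ u` of the 3-connected graph `G` has a neighbour `≠ u`.
`sz1` (deletion of at least one edge), `sz2` (the vertex `b` disappears; an edge of `contr G a b` comes from an edge `≠ ab` of `G`:
the map `Sym2.map (mrg a b)` maps `G.edgeSet \ {ab}` onto the edges of `contr G a b`), `sz3`, `sz4`: sizes for the induction. -/
structure SpecDST : Prop where
  adj : ∀ {α : Type} (G : SimpleGraph α) (u : α) (P : Finset α) (a b : α),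
    (dst G u P).Adj a b ↔ G.Adj a b ∧ ¬ (a = u ∧ b ∈ P) ∧ ¬ (b = u ∧ a ∈ P)
  le : ∀ {α : Type} (G : SimpleGraph α) (u : α) (P : Finset α), dst G u P ≤ G
  mono : ∀ {α : Type} {G H : SimpleGraph α} (u : α) {P Q : Finset α}, G ≤ H → Q ⊆ P → dst G u P ≤ dst H u Q
  emp : ∀ {α : Type} (G : SimpleGraph α) (u : α), dst G u ∅ = G
  one : ∀ {α : Type} (G : SimpleGraph α) (u a : α), dst G u {a} = delE G u a
  ins : ∀ {α : Type} [DecidableEq α] (G : SimpleGraph α) (u a : α) (P : Finset α),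
    dst G u (insert a P) = delE (dst G u P) u a
  dld : ∀ {α : Type} [DecidableEq α] (G : SimpleGraph α) (u : α) (P : Finset α), del (dst G u P) {u} = del G {u}
  dle : ∀ {α : Type} [DecidableEq α] (G : SimpleGraph α) (u : α) (P : Finset α), del G {u} ≤ dst G u P
  vs : ∀ {α : Type} [Fintype α] [DecidableEq α] {G : SimpleGraph α} {u : α} {P : Finset α}, KConn 3 G →
    (∃ w, G.Adj u w ∧ w ∉ P) → VS (dst G u P) = VS G
  cyc : ∀ {α : Type} [Fintype α] [DecidableEq α] {G : SimpleGraph α} {u : α} {P : Finset α} {C : Finset (Sym2 α)},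
    IsCyc G C → (∀ p ∈ P, s(u, p) ∉ C) → IsCyc (dst G u P) C
  sz1 : ∀ {α : Type} [Fintype α] [DecidableEq α] {G H : SimpleGraph α}, H ≤ G → H ≠ G → sz H < sz G
  sz2 : ∀ {α : Type} [Fintype α] [DecidableEq α] {G : SimpleGraph α} {a b : α}, G.Adj a b →
    sz (contr G a b) < sz G
  sz3 : ∀ {α : Type} [Fintype α] [DecidableEq α] {G : SimpleGraph α} {u : α}, u ∈ VS G → sz (del G {u}) < sz G
  sz4 : ∀ {α : Type} [Fintype α] [DecidableEq α] {G : SimpleGraph α} {u a : α} {P : Finset α}, G.Adj u a → a ∈ P →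
    sz (dst G u P) < sz G

/-- **CRL** (from KC, S3F, NBF, DST; 300 lines).  Connectivity of `dst G u P`.  `J = G - u = del G {u}` is 3-connected (S3F.del), `del (dst G u P)
{u} = J`.  `k3`: `|S| ≤ 2`: if `u ∈ S` then `J - (S - u)` is connected; otherwise `J - S` is connected and one of the three outside neighbours of `u` is
not in `S`.  `s3s` (exactly two outside neighbours `r`, `s`, not adjacent): KConn 2 as before.  A vertex with three neighbours: `r` has at least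
three neighbours in `J` (S3F.deg).  `p ≠ q`: `{p, q} = {r, s}`: second alternative with `v = u`.  `u ∈ {p, q}`: `J - q` is connected.  Otherwise `J - {p, q}`
is connected and `u` is attached to `r` or `s`.  `ks` = `k3` or `s3s`.  `c1` (criterion CR): let `(S, A, B)` be a separation of `dst G u P`, `|S| = 3`, `|A|, |B| ≥ 2`.  `u ∈ S`: `J -
(S - u)` is not connected, `|S - u| = 2`: no.  `u ∈ A`: `Sep G (insert u S) B (A.erase u)`; the hypothesis gives a neighbour `w ∈ B` of `u`, `w ∉ P`, so `uw` is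
an edge of `dst G u P` between `A` and `B`: no.  The same if `u ∈ B`.  `rig` (`u` rigid): in `c1` let `T, A, B` be given.  Rigidity: `|B| ≤ 1` (as `|A| ≥ 2`), `B = {v}`; by
KConn 4 all vertices of `T` are neighbours of `v` (`NB G {v} ⊆ T` has at least 4 elements), so `v ~ u`, `dg G v = 4`; the hypothesis gives `w ∈ A`.
`add`: adding edges between vertices of a graph of class C1. -/
structure SpecCRL : Prop where
  k3 : ∀ {α : Type} [Fintype α] [DecidableEq α] {G : SimpleGraph α} {u x y z : α} {P : Finset α},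
    KConn 3 (del G {u}) → x ≠ y → x ≠ z → y ≠ z → (∀ w, w = x ∨ w = y ∨ w = z → G.Adj u w ∧ w ∉ P) →
    (∀ w, G.Adj u w → w ∉ P → w ∈ VS (del G {u})) → KConn 3 (dst G u P)
  s3s : ∀ {α : Type} [Fintype α] [DecidableEq α] {G : SimpleGraph α} {u r s : α} {P : Finset α},
    KConn 3 (del G {u}) → r ≠ s → ¬ G.Adj r s → r ∈ VS (del G {u}) → s ∈ VS (del G {u}) →
    (∀ w, G.Adj u w ∧ w ∉ P ↔ w = r ∨ w = s) → S3S (dst G u P)
  ks : ∀ {α : Type} [Fintype α] [DecidableEq α] {G : SimpleGraph α} {u r s : α} {P : Finset α},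
    KConn 4 G → r ≠ s → G.Adj u r → G.Adj u s → r ∉ P → s ∉ P →
    (¬ G.Adj r s ∨ ∃ t, G.Adj u t ∧ t ∉ P ∧ t ≠ r ∧ t ≠ s) → S3S (dst G u P)
  c1 : ∀ {α : Type} [Fintype α] [DecidableEq α] {G : SimpleGraph α} {u x y z : α} {P : Finset α},
    KConn 4 G → x ≠ y → x ≠ z → y ≠ z → (∀ w, w = x ∨ w = y ∨ w = z → G.Adj u w ∧ w ∉ P) →
    (∀ T A B, Sep G T A B → T.card = 4 → u ∈ T → 2 ≤ A.card → 1 ≤ B.card → ∃ w ∈ A, G.Adj u w ∧ w ∉ P) →
    C1 (dst G u P)
  rig : ∀ {α : Type} [Fintype α] [DecidableEq α] {G : SimpleGraph α} {u x y z : α} {P : Finset α},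
    K48 G → Rig G u → x ≠ y → x ≠ z → y ≠ z → (∀ w, w = x ∨ w = y ∨ w = z → G.Adj u w ∧ w ∉ P) →
    (∀ v, G.Adj u v → dg G v = 4 → ∃ w, G.Adj u w ∧ w ≠ v ∧ ¬ G.Adj v w ∧ w ∉ P) → C1 (dst G u P)
  add : ∀ {α : Type} [Fintype α] [DecidableEq α] {G : SimpleGraph α} {a b : α},
    C1 G → a ∈ VS G → b ∈ VS G → C1 (G ⊔ fromEdgeSet {s(a, b)}) ∧ VS (G ⊔ fromEdgeSet {s(a, b)}) = VS G

/-! ## B. Gluing -/

/-- **GLU** (from POL, FEV, EXD, PC; 150 lines).  `pol`, `quad`, `coh1`: by definition (`quad`: `c ↦ c(e) c(f) (w0 + Σ w h c h)` has degree `≤ 3` by POL.mul,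
POL.ofAdd; `Σ_{h ∈ C} w h = Σ_h w h (chi C h)`).  `u`: `D4even N f`, so `f C = p (chi C) + cohs l C` on the cycles of `N`; `φ` := this expression.
`ex1`: EXD for `delE N' u a ≤ N'`: `φ C = Σ_e chi C e * q e (chi C) + cohs μ C`; only `e = s(u, a)` occurs (if it is an edge of `N'`; otherwise everything is
`0`), so `ψ C := chi C (ua) * q (ua) (chi C) + cohs μ C` vanishes if `s(u, a) ∉ C` (`coh a' b' c d C = 0` if `s(a', b') ∉ C`). -/
structure SpecGLU : Prop where
  zero : ∀ {α : Type} [Fintype α] [DecidableEq α] (G : SimpleGraph α), InF G (fun _ => 0)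
  pol : ∀ {α : Type} [Fintype α] [DecidableEq α] (G : SimpleGraph α) (p : Chain α → ZMod 2)
    (l : α → α → α → α → ZMod 2), DegLE 3 p → p 0 = 0 → InF G (fun C => p (chi C) + cohs l C)
  quad : ∀ {α : Type} [Fintype α] [DecidableEq α] (G : SimpleGraph α) (e f : Sym2 α) (w0 : ZMod 2) (w : Chain α),
    InF G (fun C => chi C e * chi C f * (w0 + ∑ h ∈ C, w h))
  coh1 : ∀ {α : Type} [Fintype α] [DecidableEq α] (G : SimpleGraph α) (x : ZMod 2) (a b c d : α),
    InF G (fun C => x * coh a b c d C)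
  add : ∀ {α : Type} [Fintype α] [DecidableEq α] {G : SimpleGraph α} {f g : Finset (Sym2 α) → ZMod 2},
    InF G f → InF G g → InF G (fun C => f C + g C)
  sum : ∀ {α ι : Type} [Fintype α] [DecidableEq α] {G : SimpleGraph α} (s : Finset ι)
    (f : ι → Finset (Sym2 α) → ZMod 2), (∀ i ∈ s, InF G (f i)) → InF G (fun C => ∑ i ∈ s, f i C)
  mono : ∀ {α : Type} [Fintype α] [DecidableEq α] {G H : SimpleGraph α} {f : Finset (Sym2 α) → ZMod 2},
    H ≤ G → InF G f → InF H f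
  congr : ∀ {α : Type} [Fintype α] [DecidableEq α] {G : SimpleGraph α} {f g : Finset (Sym2 α) → ZMod 2},
    (∀ C, IsCyc G C → f C = g C) → InF G g → InF G f
  dmono : ∀ {α : Type} [Fintype α] [DecidableEq α] {G H : SimpleGraph α} {f : Finset (Sym2 α) → ZMod 2},
    H ≤ G → D4even G f → D4even H f
  dadd : ∀ {α : Type} [Fintype α] [DecidableEq α] {G : SimpleGraph α} {f g : Finset (Sym2 α) → ZMod 2},
    D4even G f → InF G g → D4even G (fun C => f C + g C)
  u : ∀ {α : Type} [Fintype α] [DecidableEq α] {G N : SimpleGraph α} {f : Finset (Sym2 α) → ZMod 2},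
    U N → N ≤ G → D4even G f →
    ∃ φ : Finset (Sym2 α) → ZMod 2, (∀ G' : SimpleGraph α, InF G' φ) ∧ ∀ C, IsCyc N C → f C = φ C
  ex1 : ∀ {α : Type} [Fintype α] [DecidableEq α] {N' : SimpleGraph α} {u a : α}, S3S (delE N' u a) →
    KZ (delE N' u a) → ∀ φ : Finset (Sym2 α) → ZMod 2, InF N' φ → (∀ C, IsCyc (delE N' u a) C → φ C = 0) →
    ∃ ψ : Finset (Sym2 α) → ZMod 2, (∀ G' : SimpleGraph α, InF G' ψ) ∧ (∀ C, s(u, a) ∉ C → ψ C = 0) ∧
      ∀ C, IsCyc N' C → φ C = ψ C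

/-! ## C. LEMMA B -/

/-- **LMA** (from EXD, LPE, KUR, VRS, NOR, I3S, DVS, POL, TRA, PC2; 250 lines).  `φ ∈ F(G')` vanishes on the cycles of `N1 = G' - ua` and of `N2 = G' - ub`.
EXD for `N1 ≤ G'`: `φ = x_{ua} q (chi C) + cohs μ C`, `μ a' b' c d ≠ 0` only for `s(a', b') = s(u, a)` and `c`, `d` different from `u`, `a`.  On the cycles of `N2` `cohs μ = x_{ua} q` is
cubic, so `pair2 μ z = 0` for `z ∈ Z_2(N2)` (`KZ N2`).  Put `M c d := μ u a c d + μ a u c d`; `pair2 μ z = Σ_{c, d} M c d * z (ua) (cd)`.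
Case `b`: by LPE.edge (`G := N2`, edge `ua`) the rows `z (ua) ·` are all of `Z1 (N2 - u - a)`, and `N2 - u - a = G' - u - a`.  So (PC2.cut) there is `s` with `M c d + M d c = s c + s d` for all edges `cd` of
`G' - u - a`.  Put `m w e := if e = s(u, a) ∧ w ≠ u ∧ w ≠ a then s w else 0`; VRS gives `l'`, cubic on all cycles, with `sym8 l'` given by `m`.  `sym8 (μ + l') = 0` on all pairs of disjoint edges of `G'`: NOR, so
`cohs μ`, and `φ`, is a cubic polynomial `P` on the cycles of `G'`.  `P = 0` on the cycles of `N1`: I3S: `P = Σ_v r v` on `Z1 N1`; DVS (`V = Z1 G'`, `S = {ua}`): `P c + Σ_v r v c = c(ua) q' c` on `Z1 G'`;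
`r v (chi C) = 0` on cycles (TRA.two).
Case `b'` (`rs` an edge of `G'`, `r, s ≠ u, a`; `K = N2 - rs`): LPE.edge for `K` and `ua` (`K - ua = (N2 - ua) - rs` is S3S): the rows contain `Z1 (K - u - a)`: `M c d + M d c = s c + s d` for all edges `cd ≠ rs` of `G' -
u - a`.  Put `ε := M r s + M s r + s r + s s`, and add the coefficient `ε` at `(a, u, r, s)`: as before `φ + ε * coh a u r s` is a cubic polynomial; it vanishes on the cycles of `N1` (they do not contain `ua`). -/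
structure SpecLMA : Prop where
  b : ∀ {α : Type} [Fintype α] [DecidableEq α] {G' : SimpleGraph α} {u a b : α}, G'.Adj u a → G'.Adj u b → a ≠ b →
    S3S (delE G' u a) → KZ (delE G' u a) → KZ (delE G' u b) → S3S (delE (delE G' u b) u a) →
    u ∈ VS (delE (delE G' u b) u a) → a ∈ VS (delE (delE G' u b) u a) →
    ∀ φ : Finset (Sym2 α) → ZMod 2, InF G' φ → (∀ C, IsCyc (delE G' u a) C → φ C = 0) →
    (∀ C, IsCyc (delE G' u b) C → φ C = 0) →
    ∃ q : Chain α → ZMod 2, DegLE 2 q ∧ ∀ C, IsCyc G' C → φ C = chi C s(u, a) * q (chi C)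
  b' : ∀ {α : Type} [Fintype α] [DecidableEq α] {G' : SimpleGraph α} {u a b r s : α}, G'.Adj u a → G'.Adj u b → a ≠ b →
    G'.Adj r s → r ≠ u → r ≠ a → s ≠ u → s ≠ a →
    S3S (delE G' u a) → KZ (delE G' u a) → KZ (delE G' u b) → S3S (delE (delE (delE G' u b) u a) r s) →
    u ∈ VS (delE (delE (delE G' u b) u a) r s) → a ∈ VS (delE (delE (delE G' u b) u a) r s) →
    ∀ φ : Finset (Sym2 α) → ZMod 2, InF G' φ → (∀ C, IsCyc (delE G' u a) C → φ C = 0) →
    (∀ C, IsCyc (delE G' u b) C → φ C = 0) →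
    ∃ (q : Chain α → ZMod 2) (ε : ZMod 2), DegLE 2 q ∧
      ∀ C, IsCyc G' C → φ C = chi C s(u, a) * q (chi C) + ε * coh a u r s C

/-- **LMC** (from I3K, DIR, S3F, TRA, POL, PC, KC; 200 lines).  `N2 = G' - ub` is 3-connected, `x_{ua} q = 0` on the cycles of `N2`.  `p c := c(ua) q c` is cubic: I3K: `p c = Σ_v r v c` on `Z1 N2`, `r v ∈ RV N2 v`.
`N12 = N2 - ua`; TRA.res (`B = {ua}`): `r' v ∈ RV N12 v` with `r v c = r' v c` if `c(ua) = 0`.  On `Z1 N12` `Σ_v r' v = p = 0`; DIR for `N12` (S3F.dhE): `r' v c = 0` for all chains `c` on `N12` with `bdy c v = 0`.  For `v ≠ u, a`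
and `c ∈ Z1 N2`: `c` and `c + c(ua) δ_{ua}` agree on the edges at `v`, so `r v c = 0`.  So for `c ∈ Z1 N2` with `c(ua) = 1`: `q c = r u c + r a c`.  If there is no cycle through `ua` and `ub` nothing is to be shown; otherwise `b` is a vertex of `N2`.  Let `R` be a path from `b` to `u` in `N2 - a` (connected); `γ := chi R + δ_{ub} ∈ Z1 G'` is
the chain of a cycle through `ub` avoiding `a`.  Let `C` be a cycle of `G'` through `ua` and `ub`, `c := chi C + γ ∈ Z1 N2`, `c(ua) = 1`.  At `a` `c` has the two edges of `C`: `r a c = 0` (TRA.two).  At `u` `C` has `ua`, `ub` and `γ` has `ub`, `uk`, so `c` has at most `ua`, `uk`: `r u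
c = 0`.  So `q (chi C + γ) = 0` and `q (chi C) = q (chi C) + q (chi C + γ)`, and `c ↦ q c + q (c + γ)` has degree `≤ 1` (POL.dif, POL.lin). -/
def SpecLMC : Prop := ∀ {α : Type} [Fintype α] [DecidableEq α] {G' : SimpleGraph α} {u a b : α}, G'.Adj u a →
  G'.Adj u b → a ≠ b → KConn 3 (delE G' u b) → ∀ q : Chain α → ZMod 2, DegLE 2 q →
  (∀ C, IsCyc (delE G' u b) C → chi C s(u, a) * q (chi C) = 0) →
  ∃ (w0 : ZMod 2) (w : Chain α), ∀ C, IsCyc G' C → s(u, a) ∈ C → s(u, b) ∈ C → q (chi C) = w0 + ∑ h ∈ C, w h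

/-- **LMB** (from LMA, LMC, S3F, GLU, PC2; 120 lines).  LEMMA B, LEMMA B'.  `b`: LMA.b, LMC (`x_{ua} q = φ = 0` on the cycles of `N2`); on cycles without `ub` or without `ua` both sides are `0`.
`b'`: `u` has in `N2 = G' - ub` exactly the neighbours `a`, `r`, `s`, and `r ~ s`.  LMA.b'.  On a cycle of `N2` `coh a u r s = x_{ua} x_{ur} x_{rs}`: if it contains `ua` and `ur` and `rs` it passes `a, u, r, s`; if it contains `ua`, `us` and `rs` it
passes `a, u, s, r`: `coh = 0`.  So `q' c := q c + ε c(ur) c(rs)` satisfies `x_{ua} q' = 0` on the cycles of `N2`; LMC for `q'`.  A cycle through `ua` and `ub` does not contain `ur`.  `S3S (delE G' u a)` from KConn 3. -/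
structure SpecLMB : Prop where
  b : ∀ {α : Type} [Fintype α] [DecidableEq α] {G' : SimpleGraph α} {u a b : α}, G'.Adj u a → G'.Adj u b → a ≠ b →
    S3S (delE G' u a) → KZ (delE G' u a) → KConn 3 (delE G' u b) → KZ (delE G' u b) → S3S (delE (delE G' u b) u a) →
    u ∈ VS (delE (delE G' u b) u a) → a ∈ VS (delE (delE G' u b) u a) →
    ∀ φ : Finset (Sym2 α) → ZMod 2, InF G' φ → (∀ C, IsCyc (delE G' u a) C → φ C = 0) →
    (∀ C, IsCyc (delE G' u b) C → φ C = 0) →
    ∃ (w0 : ZMod 2) (w : Chain α), ∀ C, IsCyc G' C → φ C = chi C s(u, a) * chi C s(u, b) * (w0 + ∑ h ∈ C, w h)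
  b' : ∀ {α : Type} [Fintype α] [DecidableEq α] {G' : SimpleGraph α} {u a b r s : α},
    [u, a, b, r, s].Nodup → (∀ w, G'.Adj u w ↔ w = a ∨ w = b ∨ w = r ∨ w = s) → G'.Adj r s →
    S3S (delE G' u a) → KZ (delE G' u a) → KConn 3 (delE G' u b) → KZ (delE G' u b) →
    S3S (delE (delE (delE G' u b) u a) r s) →
    u ∈ VS (delE (delE (delE G' u b) u a) r s) → a ∈ VS (delE (delE (delE G' u b) u a) r s) →
    ∀ φ : Finset (Sym2 α) → ZMod 2, InF G' φ → (∀ C, IsCyc (delE G' u a) C → φ C = 0) →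
    (∀ C, IsCyc (delE G' u b) C → φ C = 0) →
    ∃ (w0 ε : ZMod 2) (w : Chain α), ∀ C, IsCyc G' C →
      φ C = chi C s(u, a) * chi C s(u, b) * (w0 + ∑ h ∈ C, w h + ε * coh a u r s C)

/-! ## D. LEMMA DEL3 -/

/-- **DL3** (from GLU, LMB, DST; 120 lines).  LEMMA DEL3.  `N_A = dst G u A`.  `two`: `f` `D_4`-even on `G`, `U N_a`, `U N_b`, `N_ab` S3S and `KZ N_ab`: there is `φ ∈ F` with `f = φ` on the
cycles of `N_a` and of `N_b`.  [GLU.u for `N_a`: `f = φ₁` there; `f₁ = f + φ₁` (GLU.dadd), GLU.u for `N_b`: `f₁ = φ₂` on the cycles of `N_b`, `φ₂ = f₁ = 0` on those of `N_ab = delE N_b u a`: GLU.ex1: `ψ₂`, zero on cycles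
without `ua`.  `φ := φ₁ + ψ₂`.]  `three`: `f₂ := f + φ` vanishes on the cycles of `N_a`, `N_b`; `U N_c`: `f₂ = φ₃` on the cycles of `N_c`; LMB.b (`G' := N_c`; `N1 = N_ac`, `N2 = N_bc`, `N2 - ua = N_abc`): `f₂ = x_{ua} x_{ub}
(w0 + Σ w h)` on the cycles of `N_c`, and this holds on all cycles of `G`: a cycle contains at most two of `ua`, `ub`, `uc`. -/
structure SpecDL3 : Prop where
  two : ∀ {α : Type} [Fintype α] [DecidableEq α] {G : SimpleGraph α} {u a b : α}, G.Adj u a → G.Adj u b → a ≠ b →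
    U (dst G u {a}) → U (dst G u {b}) → S3S (dst G u {a, b}) → KZ (dst G u {a, b}) → ∀ f, D4even G f →
    ∃ φ, (∀ G' : SimpleGraph α, InF G' φ) ∧ (∀ C, IsCyc G C → s(u, a) ∉ C ∨ s(u, b) ∉ C → f C = φ C)
  three : ∀ {α : Type} [Fintype α] [DecidableEq α] {G : SimpleGraph α} {u a b c : α}, G.Adj u a → G.Adj u b → G.Adj u c →
    a ≠ b → a ≠ c → b ≠ c → U (dst G u {a}) → U (dst G u {b}) → U (dst G u {c}) →
    S3S (dst G u {a, b}) → KZ (dst G u {a, b}) → S3S (dst G u {a, c}) → KZ (dst G u {a, c}) →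
    KConn 3 (dst G u {b, c}) → KZ (dst G u {b, c}) → S3S (dst G u {a, b, c}) →
    u ∈ VS (dst G u {a, b, c}) → a ∈ VS (dst G u {a, b, c}) → U G

/-- **DL5** (from DL3, KST, CRL, DST; 80 lines).  The form used in all sections.  `dst G u P` is smaller than `G` (DST.sz4), so by the induction hypothesis `OK` for `P = {a}, {b}, {c}, {a, b}, {a, c}`;
`dst G u {b, c}` is 3-connected (outside neighbours `a`, `r`, `s`: CRL.k3), `dst G u {a, b, c}` S3S: CRL.ks.  `KZ G`: KST with `w = ![a, b, c, r, s]`. -/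
def SpecDL5 : Prop := ∀ {α : Type} [Fintype α] [DecidableEq α] {G : SimpleGraph α} {u a b c r s : α}, K48 G → IH G →
  [a, b, c, r, s].Nodup → (∀ x ∈ ({a, b, c, r, s} : Finset α), G.Adj u x) →
  (¬ G.Adj r s ∨ ∃ t, G.Adj u t ∧ t ∉ ({a, b, c, r, s} : Finset α)) →
  (∀ P : Finset α, P = {a} ∨ P = {b} ∨ P = {c} ∨ P = {a, b} ∨ P = {a, c} → C1 (dst G u P) ∧ NP (dst G u P)) →
  KZ (dst G u {b, c}) → OK G

/-! ## E. Nonplanarity of `dst G u P` -/

/-- **GMC** (from NCN, NPC, VKA, KUR, DST; 120 lines).  `dst`: the graph `K` of the edges of `G - u` and `uw`, `uw'` is contained in `dst G u P`; `contr K w u` contains `(G - u) + ww'` (NCN.np), NPC.up.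
`cyc`: TORUS RULE.  `t = chi C`, the torus `tor t Z` is in `Z_2(G)` (KUR.tor), its rows at `u` are `Z` at `uw`, `uw'` and `0` otherwise (`Z` has no edge at `u`), so it differs from the 2-cycle in `Gam` by an element of
`Z_2(G)` without edges at `u`, i.e. of `Z_2(G - u)`, where `vk = 0`; `vk (tor t Z) = 0` (VKA.tor).  `deg`: `v` has (at most) one neighbour outside `{u, w, w'}`, so no edge of `Z` at `v`; `cyc` with the 4-cycle `u w v w'`. -/
structure SpecGMC : Prop where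
  dst : ∀ {α : Type} [Fintype α] [DecidableEq α] {G : SimpleGraph α} {u w w' : α} {Z : Chain α} {P : Finset α},
    Gam G u w w' Z → w ∉ P → w' ∉ P → NP (DL.dst G u P)
  cyc : ∀ {α : Type} [Fintype α] [DecidableEq α] {G : SimpleGraph α} {u w w' : α} {Z : Chain α} {C : Finset (Sym2 α)},
    ¬ NP (del G {u}) → Gam G u w w' Z → IsCyc G C → s(u, w) ∈ C → s(u, w') ∈ C →
    ¬ (∀ e v, v ∈ vs C → v ∈ e → Z e = 0)
  deg : ∀ {α : Type} [Fintype α] [DecidableEq α] {G : SimpleGraph α} {u w w' v z : α} {Z : Chain α},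
    ¬ NP (del G {u}) → Gam G u w w' Z → v ≠ u → G.Adj w v → G.Adj w' v →
    ¬ (∀ x, G.Adj v x → x = u ∨ x = w ∨ x = w' ∨ x = z)

end DL
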