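import Pool.Agent.DL.E.Spec3

/-!
# MP_3ff0f8_gt, EXIST section 5 (helper25): twins

Text: /team-store/MP_3ff0f8_gt_EXIST_h61.md section 5, MP_3ff0f8_gt_VKE_h97.md; the docstrings here are self-contained (J planar is treated without section 6).  Module `XXX` =
file `DL/E/XXX.lean`, theorem `specXXX (hYYY : SpecYYY) … : SpecXXX`; the hypotheses may be any other Specs; own lemmas in the namespace `DL.XXXM`.

CONVENTIONS of `Spec3.lean`.  Twins `TW G x y s`: `N(x) = N(y) = S = {s 0, …, s 3}`, `x ≁ y`; they are a `DP`.  `H = del G {x, y}`, `J = del G {x}`; `VS H = VS G - {x, y}`.  (X) A cut `T'`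
(order 4, both sides with at least two vertices) with `x ∈ T'` contains `y`, no element of `S`, and each side contains two elements of `S` (if `y` is in a side `P` then `x` has no neighbour in the other side; a side containing only one `s ∈ S` is `{s}`, as `N(P - s) ⊆ {s} ∪ (T' - x - y)`).
D-pair graph `DD G x n y m = G - xn - ym`.
-/

open SimpleGraph Finset

namespace DL

/-- `G - x + ab` -/
def JP {α : Type} [Fintype α] [DecidableEq α] (G : SimpleGraph α) (x a b : α) : SimpleGraph α :=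
  del G {x} ⊔ fromEdgeSet {s(a, b)}

/-- `G - xn - ym` -/
def DD {α : Type} (G : SimpleGraph α) (x n y m : α) : SimpleGraph α := delE (delE G x n) y m

/-- the separation `{s₁, s₃, q}` of `H` with `s₀ ∈ P`, `s₂ ∈ Q` (a bad cut of the D-pair graph `DD G x s₂ y s₀`) -/
def BC {α : Type} [Fintype α] [DecidableEq α] (G : SimpleGraph α) (x y : α) (s : Fin 4 → α) (q : α)
    (P Q : Finset α) : Prop :=
  q ≠ s 1 ∧ q ≠ s 3 ∧ Sep (del G {x, y}) {s 1, s 3, q} P Q ∧ s 0 ∈ P ∧ s 2 ∈ Q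

/-- no disjoint paths `s₀ … s₁`, `s₂ … s₃` in `H` -/
def ND {α : Type} [Fintype α] [DecidableEq α] (G : SimpleGraph α) (x y : α) (s : Fin 4 → α) : Prop :=
  ∀ P Q, IsPth (del G {x, y}) (s 0) (s 1) P → IsPth (del G {x, y}) (s 2) (s 3) Q → ¬ Disjoint (vs P) (vs Q)

/-! ## A. The graphs of the recipe -/

/-- **E5A** (from CRX, NPM, NBF, KC; 150 lines).  `G - x s_i`.  `C1`: CRX with `P = {s i}` (`dst G x {s i} = delE G x (s i)`): `y ∈ A`: `x` has no neighbour in `B`; `y ∈ B`: none in `A`; `y ∈ T`: `N(B - s_i) ⊆ {s_i} ∪ (T - x - y)`, `B = {s_i}`: no.  NP: NPM.k33 with branch sets `{x}`, `{y}`, `K` (a component of `G - {x, y} - S`, adjacent to all of `S`) and the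
three `{s_j}`, `j ≠ i`. -/
def SpecE5A : Prop := ∀ {α : Type} [Fintype α] [DecidableEq α] {G : SimpleGraph α} {x y : α} {s : Fin 4 → α},
  K48 G → TW G x y s → ∀ i, C1 (delE G x (s i)) ∧ NP (delE G x (s i))

/-- **E5D** (from E5A, NBF, KC; 250 lines).  Separations of `A' = DD G x (s 2) y (s 0)`.  Let `Sep A' W P Q` with `|W| ≤ 3`, `P`, `Q` not empty.  `x ∈ W`: it is a separation of `G - y s₀`; `y ∈ W`: of `G - x s₂`.  Otherwise, if `x ∈ P` and `s₂ ∉ Q` it is a separation of `G - y s₀`, so `s₂ ∈ Q`; in the same way `y ∈ P`, `s₀ ∈ Q` or `y ∈ Q`, `s₀ ∈ P`.  `x ~ s₀` in `A'`, so `s₀ ∉ Q`: `y ∈ Q`, `s₀ ∈ P`; `s₁, s₃`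
are adjacent to `x` and `y`: in `W`.  [`G - y s₀`, `G - x s₂` are `C1` by E5A (also for the pair `y, x`).]  `k3`: `|W| ≤ 2`: `W = {s₁, s₃}`, `N_G(P - x - s₀) ⊆ {s₀, s₁, s₃}`, so `P = {x, s₀}`, `Q = {y, s₂}`, `n = 6`.  `bad`: `W = {s₁, s₃, q}`.  `inW`: for `x ∈ W` one of `P`, `Q` has at most one vertex.  `c1`: from `bad`, `inW`. -/
structure SpecE5D : Prop where
  k3 : ∀ {α : Type} [Fintype α] [DecidableEq α] {G : SimpleGraph α} {x y : α} {s : Fin 4 → α},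
    K48 G → TW G x y s → KConn 3 (DD G x (s 2) y (s 0))
  bad : ∀ {α : Type} [Fintype α] [DecidableEq α] {G : SimpleGraph α} {x y : α} {s : Fin 4 → α} {W P Q : Finset α},
    K48 G → TW G x y s → Sep (DD G x (s 2) y (s 0)) W P Q → W.card = 3 → 2 ≤ P.card → 2 ≤ Q.card → x ∈ P →
    y ∈ Q ∧ ∃ q, W = {s 1, s 3, q} ∧ BC G x y s q (P.erase x) (Q.erase y)
  inW : ∀ {α : Type} [Fintype α] [DecidableEq α] {G : SimpleGraph α} {x y : α} {s : Fin 4 → α} {W P Q : Finset α},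
    K48 G → TW G x y s → Sep (DD G x (s 2) y (s 0)) W P Q → W.card = 3 → 2 ≤ P.card → 2 ≤ Q.card → x ∉ W
  c1 : ∀ {α : Type} [Fintype α] [DecidableEq α] {G : SimpleGraph α} {x y : α} {s : Fin 4 → α},
    K48 G → TW G x y s → (∀ q P Q, ¬ BC G x y s q P Q) → C1 (DD G x (s 2) y (s 0))

/-- **E5J** (from NBF, KC; 120 lines).  `JP = J + s₀s₁`.  `J` is 3-connected.  A separation `(W, P, Q)` of `JP`, `|W| = 3`, `|P|, |Q| ≥ 2`, gives the separation `(W ∪ {x}, P, Q)` of `G`; (X): `y ∈ W`, each side contains two elements of `S`; `s₀`, `s₁` are adjacent in `JP`: in the same side: a split. -/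
def SpecE5J : Prop := ∀ {α : Type} [Fintype α] [DecidableEq α] {G : SimpleGraph α} {x y : α} {s : Fin 4 → α},
  K48 G → TW G x y s → ¬ SPL G x y (s 0) (s 1) (s 2) (s 3) → C1 (JP G x (s 0) (s 1))

/-- **TWR** (from E5A, E5D, GLU, DL3, LMB, CRL, DST (E/Spec0), KDD, KSU, FEV, S3F, PC, KC, TREE; 500 lines).  THE RECIPE.  `k, l, i, j = s 0, s 1, s 2, s 3`; `A₁ = G - xi`, `A₂ = G - xj`, `A₃ = G - yk`, `A₄ = G - yl` (`dst G x {i} = delE G x i`): `OK` by E5A and `IH` (for `A₃`, `A₄` use `TW G y x s`); `A₁₂ = A₁ ∩ A₂`, etc.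
CONDITIONS.  `A₁₂`: `x` has exactly the neighbours `k ≁ l`: S3S (CRL.s3s), KZ by KSU (`contr A₁₂ k x = JP`).  `A₁₃, A₂₃, A₁₄, A₂₄` are D-pair graphs: 3-connected (E5D.k3, relabelled), so S3S, KZ by hypothesis.  `A₁₂₃`: `x` has exactly the neighbours `k ≁ l`, and `J - yk + kl` is 3-connected [a 2-cut of `J - yk` separates `k` from `y`, so its side of `k` contains no other element of `S`
and is `{k}` (`N(side - k) ⊆ {k} ∪ cut`); `N(k) = {x, y, p, q}`, but `l ∉ {p, q}` is a further neighbour of `k` in `J - yk + kl`]: S3S; the same for `A₁₂₄`.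
GLUING.  `f` `D4even` on `G`.  (1) DL3.two (`u = x`, `a = i`, `b = j`): `f = φ ∈ F` on the cycles missing `xi` or `xj`; `f₂ := f + φ`.  (2) `A₃`: `f₂ = φ₃ ∈ F` on its cycles (GLU.u); LMB.b (`G' = A₃`, `u = x`, `a = i`, `b = j`; `N1 = A₁₃`, `N2 = A₂₃`, `N12 = A₁₂₃`): `f₂ = x_{xi} x_{xj} (w0 + Σ w h)` on the cycles of `A₃`; `f₃ := f₂ +` this (GLU.quad) vanishes on the cycles missing `xi`, `xj` or `yk`.
(3) `A₄`: in the same way `f₃ = x_{xi} x_{xj} λ`, `λ C = w0 + Σ_{h ∈ C} w h`, on the cycles of `A₄ = G - yl`.  `λ = 0` on the cycles through `xi`, `xj` missing `yk` and `yl`.  The graph `M` = `H` with `x` and `y` attached to `i`, `j` only is 2-connected; every cycle `Z` of `M - x` is the sum of two cycles of `M` through `xi` (two disjoint paths from `{x, i}` to `Z`), so `Σ w h Z h = 0` for all `Z ∈ Z1 (M - x)`.  `C₀ := x i y j`.  For two cycles `C`, `C'`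
of `A₄` through `xi, xj, yk` the chain `C + C' + C₀` is `C₀ + Z` with `Z ∈ Z1 (M - x)`, so `λ C + λ C' = λ C₀ + Σ w h Z h = 0`: `λ = c` on these cycles.  `f₄ := f₃ + c x_{xi} x_{xj} x_{yk}` vanishes on all cycles missing `xi`, `xj`, `yk` or `yl`.
(4) A cycle `C` of `G` through `xi, xj, yk, yl` is `x i P k y l P' j x` or `x i P l y k P' j x`.  First case: the `D4` minor with trees `{x}`, `P`, `{y}`, `P'` and double edges `(xi | xk)`, `(ky | iy)`, `(yl | yj)`, `(jx | lx)`: the other 15 cycles miss `xi`, `yk`, `yl` or `xj`, so `f₄ C = 0`.  Second case: exchange `k`, `l`.  So `f₄ = 0` on all cycles, `f ∈ F(G)`.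
`KZ G`: KDD with `a = x`, `b = s 2`, `c = s 3` (`A₁`, `A₂`, `A₁₂`). -/
def SpecTWR : Prop := ∀ {α : Type} [Fintype α] [DecidableEq α] {G : SimpleGraph α} {x y : α} {s : Fin 4 → α},
  K48 G → IH G → TW G x y s → ¬ G.Adj (s 0) (s 1) → KZ (JP G x (s 0) (s 1)) →
  KZ (DD G x (s 2) y (s 0)) → KZ (DD G x (s 2) y (s 1)) → KZ (DD G x (s 3) y (s 0)) →
  KZ (DD G x (s 3) y (s 1)) → OK G

/-! ## B. D-pair graphs are nonplanar -/

/-- **E5N** (from VKA, KUR, STA, NBF, PC; 200 lines).  `J` nonplanar, `s₁ ≁ s₃`.  `z ∈ Z_2(J)`, `vk r z ≠ 0`; `μ = z (y s₀) · ∈ Z1 (H - s₀)`.  `H - {s₀, s₁, s₃}` is connected (a component without `s₂` has its neighbours in `{s₀, s₁, s₃}`), so by STA (`J := H - s₀`) no functional `≠ 0` of `Z1 (H - s₀)` vanishes on `Z1 (H - s₀ - s₁)` and `Z1 (H - s₀ - s₃)`: `μ = ν₁ + ν₃`.  Add the tori of the 4-cycles `x s₀ y s₁`, `x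
s₀ y s₃` with `ν₁`, `ν₃`: the row `y s₀` becomes 0, the row `x s₂` is 0. -/
def SpecE5N : Prop := ∀ {α : Type} [Fintype α] [DecidableEq α] {G : SimpleGraph α} {x y : α} {s : Fin 4 → α},
  K48 G → TW G x y s → NP (del G {x}) → ¬ G.Adj (s 1) (s 3) → NP (DD G x (s 2) y (s 0))

/-- **E5M** (from VKA, NPC, NCN, KUR, STA, LPE, S3F, NBF, KC, PC; 450 lines).  `J` planar, `Gam G x (s 0) (s 1) Z`.  `z₀` = the 2-cycle of `Gam` (rows `Z` at `xs₀`, `xs₁`, 0 at `xs₂`, `xs₃`), `μ₀ = z₀ (y s₀) ·`: no edge at `x` (`z₀ (ys₀) (xs₁) = Z (ys₀) = 0`), so `μ₀ ∈ Z1 (H - s₀)`.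
(a) If `z' ∈ Z_2(J)` and `μ = μ₀ + z' (ys₀) ·` satisfies `μ (s₁s₃) = 0` (automatic if `s₁ ≁ s₃`, with `z' = 0`) then `μ = ν₁ + ν₃` as in E5N (a functional vanishing on both spaces is a multiple of `Z (s₁s₃)`); `z₀ + z' +` the two tori of E5N is in `Z_2(DD)`, `vk = vk z₀ ≠ 0` (`vk z' = 0`: `J` planar).  So let `s₁ ~ s₃`; we need `z' ∈ Z_2(J)` with `z' (ys₀) (s₁s₃) = 1`.  Note `s₀ ≁ s₁` (NCN.nadj).
(b) There is a cycle through `s₁s₃` in `H - s₀`: otherwise `s₁s₃` is a bridge of this connected graph, sides `P ∋ s₁`, `Q ∋ s₃`; `s₂ ∈ Q`: `N(P - s₁) ⊆ {s₁, s₀}`, `P = {s₁}`, `N(s₁) ⊆ {x, y, s₃}`: no; `s₂ ∈ P`: `N(Q - s₃) ⊆ {s₃, s₀}`, `N(P - s₁ - s₂) ⊆ {s₁, s₂, s₀}`: `n = 6`.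
(c) `J` is 3-connected.  A 2-cut `{p, q}` of `J - ys₀` separates `y` from `s₀`; `s₁, s₂, s₃` are adjacent to `y`, so the side `Q` of `s₀` satisfies `N(Q - s₀) ⊆ {s₀, p, q}`: `Q = {s₀}`, `N(s₀) = {x, y, p, q}`.  So if not (`N(s₀) = {x, y, p, q}` with `p ~ q`) then `J - ys₀` is S3S, and LPE.edge (graph `J - ys₀`, edge `ys₀`; any `Z ∈ Z1 (J - y - s₀)`) gives `z'`.
(d) `N(s₀) = {x, y, p, q}`, `p ~ q`.  `J - s₀` is 3-connected: a 2-cut `{c, d}` gives the 4-cut `{x, s₀, c, d}` of `G`; one side `A` contains none of `p, q`, so it contains the neighbour `y` of `s₀`; then `s₁, s₂, s₃ ∈ A ∪ {c, d}` and `x` has no neighbour in the other side: no.  Let `J⁻ = J - pq`; `J⁻ - ys₀` is `J - s₀` with the edge `pq` subdivided by `s₀`: S3S; LPE.edge for it gives `z' ∈ Z_2(J⁻)` with any row in `Z1 (H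
- s₀ - pq)`.  A cycle through `s₁s₃` in `(H - s₀) - pq` (`{p, q} ≠ {s₁, s₃}` since `s₀ ≁ s₁`): otherwise, by (b), `s₁s₃` and `pq` both join the two sides, `P ∋ s₁, p`, `Q ∋ s₃, q`.  `s₂ ∈ Q`: `N(P - s₁ - p) ⊆ {s₁, p}`: `P = {s₁, p}`, `p ≠ s₁`, `N(p) ⊆ {s₁, q, s₀}`: no.  `s₂ ∈ P`: `Q ⊆ {s₃, q}`; `q ≠ s₃`: `N(q) ⊆ {s₃, p, s₀}`: no; `q = s₃`: `Q = {s₃}`, `N(s₃) = {x, y, s₀, s₁, p}`, `N(s₀) = {x, y, s₃, p}`:
`P34 G s₀ s₃ s₁ x y p`: excluded. -/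
def SpecE5M : Prop := ∀ {α : Type} [Fintype α] [DecidableEq α] {G : SimpleGraph α} {x y : α} {s : Fin 4 → α}
  {Z : Chain α}, K48 G → No34 G → TW G x y s → ¬ NP (del G {x}) → Gam G x (s 0) (s 1) Z →
  NP (DD G x (s 2) y (s 0))

/-- **E5O** (from NPM, NBF, KC; 250 lines).  A split with `s₀, s₂ ∈ A`, `s₁, s₃ ∈ B`, cut `{x, y, c, d}`.  `D := A` if `A` is connected; otherwise the components of `s₀` and `s₂` in `A` are single vertices (`N(D₀ - s₀) ⊆ {s₀, c, d}`), `N(s₀) = N(s₂) = {x, y, c, d}`, `D := {s₀, c, s₂}`.  `e := c` in the first case, `e := d` in the second.  `K := {e} ∪ L`, `L` a component of `B - {s₁, s₃}` (`N(L) = {s₁, s₃, c, d}`), if there is one; otherwise `B = {s₁, s₃}`, `s₁ ≁ s₃`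
(if adjacent: `N(s₁) ⊆ {x, y, s₃, c, d}`, `N(s₃) ⊆ {x, y, s₁, c, d}`: a `P33`, `P34` or `P44`), `N(s₁) = N(s₃) = {x, y, c, d}`, `K := {e}`.  NPM.k33 in `DD`: `{x}`, `{y}`, `K` and `{s₁}`, `{s₃}`, `D` (`x ~ s₀`, `y ~ s₂`). -/
def SpecE5O : Prop := ∀ {α : Type} [Fintype α] [DecidableEq α] {G : SimpleGraph α} {x y : α} {s : Fin 4 → α},
  K48 G → No33 G → No34 G → No44 G → TW G x y s → SPL G x y (s 0) (s 2) (s 1) (s 3) →
  NP (DD G x (s 2) y (s 0))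

/-! ## C. Bad cuts -/

/-- **E5B** (from NPM, NBF, KC; 400 lines).  A split with `s₀, s₂ ∈ A`, `s₁, s₃ ∈ B`, cut `{x, y, c, d}`: no bad cut.  Suppose `(W, P, Q)`, `W = {s₁, s₃, q}`, `s₀ ∈ P`, `s₂ ∈ Q`.  `q ∉ A` is impossible: `s₀`, `s₂` are connected in `A` or both adjacent to `c` and `d` (see E5O), one of them `≠ q`.  So `q ∈ A`, `c, d ∉ W`.  `N(P ∩ A) ⊆ {x, y, q} ∪ ({c, d} ∩ P)`, `N(Q ∩ A) ⊆ {x, y, q} ∪ ({c, d} ∩ Q)`: `c ∈ P`, `d ∈ Q` (names), `P ∩ A = {s₀}` (the rest has its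
neighbours in `{s₀, q, c}`), `N(s₀) = {x, y, q, c}`, `Q ∩ A = {s₂}`, `N(s₂) = {x, y, q, d}`, `A = {s₀, s₂, q}`.  A component `L` of `B - {s₁, s₃}` would join `c` and `d`: `B = {s₁, s₃}`, `s₁ ≁ s₃` (see E5O), `N(s₁) = N(s₃) = {x, y, c, d}`; `c ≁ d`; `N(q) = {s₀, s₂, c, d}`.
`G - q` is nonplanar: `{x}, {y}, {c}` / `{s₀}, {s₁}, {s₃}`.  `q` is rigid: let `T'` be a 4-cut through `q`, sides `X'`, `Y'` with at least two vertices.  `x ∈ T'`: by (X) `T' = {x, y, q, t}`, `t ∈ {c, d}`; `t = c`: `s₀` is isolated and the rest `{s₁, s₂, s₃, d}` is connected by `d`: no; `t = d`: the same with `s₂`.  The same for `y ∈ T'`.  `x ∈ X'`, `y ∈ Y'`: `S ∪ {q} ⊆ T'`: no.  `x, y ∈ X'`: `S ∩ Y' = ∅`, `Y' = {c, d}`, but `N({c, d}) = S ∪ {q}`.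
Contradiction to `SH.rig`. -/
def SpecE5B : Prop := ∀ {α : Type} [Fintype α] [DecidableEq α] {G : SimpleGraph α} {x y : α} {s : Fin 4 → α},
  SH G → No33 G → No34 G → No44 G → TW G x y s → SPL G x y (s 0) (s 2) (s 1) (s 3) →
  ∀ q P Q, ¬ BC G x y s q P Q

/-- **E5Q** (from NBF, KC; 350 lines).  `x`, `y` have in `P` only the neighbour `s₀`, in `Q` only `s₂`.  `spl`: split `s₀, s₃ ∈ A`, `s₁, s₂ ∈ B`, cut `T = {x, y, c, d}`.  `q ∈ A`: `N(B ∩ P) ⊆ {s₁} ∪ ({c, d} ∩ P)`: `B ∩ P = ∅`.  `c, d ∈ Q`: `N(A ∩ P) ⊆ {x, y, s₃, q}`, so `A ∩ P = {s₀}` (the rest has its neighbours in `{s₀, s₃, q}`), `P = {s₀}`, `N(s₀) = {x, y, s₃, q}`; `s₁ ∈ B` is not adjacent to `q ∈ A`.  `c ∈ P`, `d ∈ Q` (names): `N(A ∩ Q) ⊆ {s₃, q, d}`: empty; `N(B ∩ Q)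
⊆ {x, y, s₁, d}`: `B ∩ Q = {s₂}`, `B = {s₁, s₂}`, `N(s₂) = {x, y, s₁, d}`, `N(s₁) ⊆ {x, y, s₂, c, d}`: a `P33` or `P34`: excluded.  `c, d ∈ P`: `N(B ∩ Q) ⊆ {x, y, s₁}`: no.  `q ∈ B`: symmetric (`x ↔ y`, `s₀ ↔ s₂`, `s₃ ↔ s₁`, `A ↔ B`, `P ↔ Q`): the second alternative.  `q = c` (or `d`): `N(B ∩ P)`, `N(A ∩ Q)` have at most 3 elements: both empty.  `d ∈ Q`: `N(A ∩ P) ⊆ {x, y, s₃, c}`: `A = {s₀, s₃}`, `N(s₀) = {x, y, s₃, c}`, `N(s₃)
⊆ {x, y, s₀, c, d}`: excluded.  `d ∈ P`: `B = {s₁, s₂}`: excluded.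
`dis`: `P`, `Q` are connected (a component of `P` without `s₀` has its neighbours in `W`).  If `s₁` has a neighbour in `P` and `s₃` has one in `Q` there are disjoint paths.  Let `s₁` have no neighbour in `P`: `N(P - s₀) ⊆ {s₀, s₃, q}`: `P = {s₀}`, `N(s₀) = {x, y, s₃, q}`.  Suppose `s₁ ~ q`: path `s₀ q s₁`, so `s₂`, `s₃` are not connected in `H - {s₀, q, s₁}`; the component `D` of `s₂`: `s₀` is not adjacent to it; `N(D - s₂) ⊆ {s₂, q, s₁}`: `D = {s₂}`, `N(s₂) = {x, y, q,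
s₁}`; then the vertices outside `{x, y, q} ∪ S` have their neighbours in `{s₁, s₃, q}`: no.  The other case is symmetric. -/
structure SpecE5Q : Prop where
  spl : ∀ {α : Type} [Fintype α] [DecidableEq α] {G : SimpleGraph α} {x y q : α} {s : Fin 4 → α} {P Q : Finset α},
    K48 G → No33 G → No34 G → TW G x y s → SPL G x y (s 0) (s 3) (s 1) (s 2) → BC G x y s q P Q →
    (P = {s 0} ∧ (∀ w, G.Adj (s 0) w ↔ w = x ∨ w = y ∨ w = s 3 ∨ w = q) ∧ ¬ G.Adj (s 1) q) ∨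
      (Q = {s 2} ∧ (∀ w, G.Adj (s 2) w ↔ w = x ∨ w = y ∨ w = s 1 ∨ w = q) ∧ ¬ G.Adj (s 3) q)
  dis : ∀ {α : Type} [Fintype α] [DecidableEq α] {G : SimpleGraph α} {x y q : α} {s : Fin 4 → α} {P Q : Finset α},
    K48 G → TW G x y s → ND G x y s → BC G x y s q P Q →
    (P = {s 0} ∧ (∀ w, G.Adj (s 0) w ↔ w = x ∨ w = y ∨ w = s 3 ∨ w = q) ∧ ¬ G.Adj (s 1) q) ∨
      (Q = {s 2} ∧ (∀ w, G.Adj (s 2) w ↔ w = x ∨ w = y ∨ w = s 1 ∨ w = q) ∧ ¬ G.Adj (s 3) q)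

/-! ## D. `K = 0` for D-pair graphs with a bad cut -/

/-- **T3S** (from KC, S3F; 150 lines).  `J = delE S b c` is 2-connected; `c` has three neighbours in `J`.  A 2-cut `{p', q'}` of `J` separates `b ∈ P` from `c ∈ Q` (two sides, both connected).  `P = {b}`: `{p', q'} = {p, q}`, not adjacent, and `Q` is connected: fine.  `|P| ≥ 2`: `{p', q', b}` separates `P - b` from `Q` in `S`: `|P - b| = 1` or `|Q| = 1`.  `Q = {c}`: `c` has only the neighbours `p', q'` in `J`: no.  `P = {b, v}`: `N_S(v) = {b, p', q'}`, so `v ∈ {p, q}` and the other one is in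
`{p', q'}` (it is adjacent to `b` in `J`): `p ~ q`: no. -/
def SpecT3S : Prop := ∀ {α : Type} [Fintype α] [DecidableEq α] {S : SimpleGraph α} {b c p q : α}, C1 S →
  p ≠ q → p ≠ c → q ≠ c → (∀ w, S.Adj b w ↔ w = c ∨ w = p ∨ w = q) → ¬ S.Adj p q → 4 ≤ dg S c →
  S3S (delE S b c)

/-- **E5T** (from E5D, T3S, TRI (E/Spec0 or E/TRI), ISO, KSU, NPC, NBF, KC; 400 lines).  `A' = DD G x (s 2) y (s 0)`; there `N(s₀) = {x, s₃, q}`, `N(x) = {s₀, s₃, s₁}`: adjacent cubic vertices with common neighbour `s₃`.  `S := contr (delE A' (s 0) (s 3)) x (s 0)`: vertices `V - s₀`, `x ~ s₁, s₃, q`, otherwise as `A'`.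
NP: for `z ∈ Z_2(A')` the row `z (s₀s₃) ·` has no edge at `x` (boundary at `x`: the only edge at `x` disjoint from `s₀s₃` is `xs₁`), NPC.tdel (`a, b, c = s₀, s₃, x`): `A' - s₀s₃` is nonplanar; there `s₀` has the neighbours `x`, `q` only, so `Zab x s₀ z` for all `z ∈ Z_2` (boundary at `s₀` of the row of an edge at `x`), NPC.down: `NP S`.
`C1 S`: let `Sep S W P Q`, `|W| ≤ 3`.  `x ∈ W`: `(W ∪ {s₀}, P, Q)` is a separation of `G`: `|W| = 3` (4-connected) and (X) `s₀ ∉ W ∪ {s₀}` if `|P|, |Q| ≥ 2`: no.  `x ∈ P` (or `Q`): `s₁, s₃, q ∈ P ∪ W`, `(W, P ∪ {s₀}, Q)` is a separation of `A'`: for `|W| ≤ 2` no (E5D.k3); for `|W| = 3`, `|P|, |Q| ≥ 2` E5D.bad: `BC G x y s q' ((P ∪ {s₀}).erase x) _`, so by hypothesis this set is `{s₀}` and `P = {x}`: no.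
`KZ S`: `IH` (`sz S < sz G`).  `S3S (delE S x (s 3))`: T3S (`b = x`, `c = s₃`, `p = s₁`, `q`): `dg G s₃ ≥ 5` (otherwise `N(s₃) = {x, y, s₀, w}`, `w ≠ q` since `N({s₀, s₃})` has 4 elements: a `P33`), `s₃` loses only `s₀`.  `A'` is 3-connected (E5D.k3).  TRI (`a = s₀`, `b = x`, `c = s₃`): the graph `A' - xs₃` with `x` suppressed is the image of `S` under the swap of `x` and `s₀` (ISO); KSU for `A' - s₀s₃` and `A' - xs₃`. -/
def SpecE5T : Prop := ∀ {α : Type} [Fintype α] [DecidableEq α] {G : SimpleGraph α} {x y q : α} {s : Fin 4 → α},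
  K48 G → IH G → No33 G → TW G x y s → q ≠ s 1 → q ≠ s 2 →
  (∀ w, G.Adj (s 0) w ↔ w = x ∨ w = y ∨ w = s 3 ∨ w = q) → ¬ G.Adj (s 1) q →
  (∀ q' P Q, BC G x y s q' P Q → P = {s 0}) → NP (DD G x (s 2) y (s 0)) → KZ (DD G x (s 2) y (s 0))

/-- **E5U** (from E5D, T3S, TRI, ISO, KSU, NPC, NBF, KC; 500 lines).  Both `s₀` and `s₂` special.  `q ≠ q'` (otherwise the vertices outside `{x, y, q} ∪ S` have their neighbours in `{s₁, s₃, q}`).  `A' = DD G x (s 2) y (s 0)`, `S₁ := contr (delE A' (s 0) (s 3)) x (s 0)`, `S₂ := contr (delE S₁ (s 2) (s 1)) y (s 2)`: vertices `V - s₀ - s₂`, `x ~ s₁, s₃, q`, `y ~ s₁, s₃, q'`, otherwise as `G`.  `NP S₁`, `NP S₂`: as in E5T, twice (in `S₁`: `N(s₂) = {y, s₁, q'}`, `N(y) = {s₂, s₁, s₃}`).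
`S₂` is 3-connected and `C1`: let `Sep S₂ W P Q`, `|W| ≤ 3`, `P`, `Q` not empty.  `x, y ∈ P`: `s₁, s₃, q, q' ∈ P ∪ W`, `(W, P ∪ {s₀, s₂}, Q)` is a separation of `G`: no.  `x ∈ P`, `y ∈ Q`: `s₁, s₃ ∈ W`, `(W, P - x + s₀, Q - y + s₂)` is a separation of `H`; `|W| = 2`: `N_G(P - x) ⊆ {s₀, s₁, s₃}`, so `P = {x}`, `Q = {y}`, `n = 6`; `|W| = 3`: `BC`, by hypothesis `P = {x}` or `Q = {y}`.  `x ∈ W`, `y ∈ Q`: `s₁, s₃, q' ∈ Q ∪ W`,
`(W ∪ {s₀}, P, Q ∪ {s₂})` is a separation of `G` with `x` and not `y` in the cut: `|W| = 3`, and `|P| ≥ 2` is impossible by (X).  `y ∈ W`, `x ∉ W`: symmetric.  `x, y ∈ W`: if `s₃`, `q` are not separated, `s₀` can be added to a side, and `(W ∪ {s₂}, …)` is a separation of `G` of order `≤ 4` containing `x` and `s₂ ∈ S`: no (4-connected, resp. (X) for `|P|, |Q| ≥ 2`); the same for `s₁`, `q'`.  So `s₃ ∈ P`, `q ∈ Q` (names).  `s₁ ∈ P`, `q' ∈ Q`: `N_G(Q)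 ⊆ (W - x - y) ∪
{s₀, s₂}`: no.  `s₁ ∈ Q`, `q' ∈ P`: `N_G(P - s₃) ⊆ (W - x - y) ∪ {s₃, s₂}`, not empty (`q' ≠ s₃`): no.
`KZ S₂`: `IH`.  `S3S (delE S₂ y (s 1))`: T3S (`N(y) = {s₁, s₃, q'}`, `s₃ ≁ q'`; `dg G s₁ ≥ 5` as in E5T, `s₀ ≁ s₁`).  `S₁` is 3-connected (`(W, P, Q)`, `|W| ≤ 2`: `x ∈ W`: `(W ∪ {s₀}, P, Q)` in `G`; `x ∈ P`: `(W, P ∪ {s₀}, Q)` in `A'`).  TRI for `S₁` (`a = s₂`, `b = y`, `c = s₁`): `KZ S₁`.
`S3S (delE S₁ x (s 3))`: a 2-cut `{p', q''}` of `J' = delE S₁ x (s 3)` separates `x ∈ P` from `s₃ ∈ Q`.  `P = {x}`: `{s₁, q}`, not adjacent, `Q` connected: fine.  Otherwise `({p', q'', x, s₀}, P - x, Q)` is a separation of `G` with `x` and `s₀ ∈ S` in the cut: by (X) `|P - x| = 1` or `|Q| = 1`.  `Q = {s₃}`: `s₃` has at least 3 neighbours in `J'` (`dg G s₃ ≥ 5`): no.  `P = {x, v}`: `N_{S₁}(v) = {x, p', q''}`, `v ∈ {s₁, q}`, the other one in `{p', q''}`: `s₁ ~ q`: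 no.  TRI for `A'` (`a = s₀`, `b = x`, `c = s₃`). -/
def SpecE5U : Prop := ∀ {α : Type} [Fintype α] [DecidableEq α] {G : SimpleGraph α} {x y q q' : α} {s : Fin 4 → α},
  K48 G → IH G → No33 G → TW G x y s → q ≠ s 1 → q ≠ s 2 → q' ≠ s 0 → q' ≠ s 3 →
  (∀ w, G.Adj (s 0) w ↔ w = x ∨ w = y ∨ w = s 3 ∨ w = q) →
  (∀ w, G.Adj (s 2) w ↔ w = x ∨ w = y ∨ w = s 1 ∨ w = q') → ¬ G.Adj (s 1) q → ¬ G.Adj (s 3) q' →
  (∀ q'' P Q, BC G x y s q'' P Q → P = {s 0} ∨ Q = {s 2}) → NP (DD G x (s 2) y (s 0)) →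
  KZ (DD G x (s 2) y (s 0))

/-! ## E. Assembly -/

/-- **E5X** (from E5D, E5M, E5Q, E5T, E5U; 150 lines).  `J` planar: `K = 0` for the D-pair graphs.  NP by E5M.  No bad cut: E5D.c1, `IH` (`sz` is smaller).  Every bad cut has `P = {s 0}` or `Q = {s 2}` (E5Q.dis) with the special neighbourhoods.  Both kinds occur: E5U.  Only `P = {s 0}`: E5T.  Only `Q = {s 2}`: E5T for `TW G y x ![s 2, s 3, s 0, s 1]` (`DD G y (s 0) x (s 2) = DD G x (s 2) y (s 0)`, `BC` with `P`, `Q` exchanged).  (`q ≠ s 2` since `s 2 ∈ Q`, `q ∉ Q`.) -/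
def SpecE5X : Prop := ∀ {α : Type} [Fintype α] [DecidableEq α] {G : SimpleGraph α} {x y : α} {s : Fin 4 → α}
  {Z : Chain α}, K48 G → IH G → No33 G → No34 G → TW G x y s → ¬ NP (del G {x}) → Gam G x (s 0) (s 1) Z →
  ND G x y s → KZ (DD G x (s 2) y (s 0))

/-- **E5Y** (from TWR, E5D, E5J, E5N, E5O, E5B, E5Q, E5T, NPC; 300 lines).  `J` nonplanar, split `s₀, s₃ ∈ A`, `s₁, s₂ ∈ B`, `{s₀ s₁ | s₂ s₃}` no split, `s₂`, `s₃` not special.  TWR: `s₀ ≁ s₁`; `JP G x (s 0) (s 1)` is `C1` (E5J) and NP (NPC.mono from `J`): `KZ` by `IH`.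
`DD G x (s 2) y (s 0)`: NP by E5N (`s₁ ∈ B`, `s₃ ∈ A`), no bad cut: `IH`; otherwise by E5Q.spl every bad cut has `P = {s 0}` (`Q = {s 2}` would make `s₂` special): E5T.  `DD G x (s 3) y (s 1)`: the same for `![s 1, s 0, s 3, s 2]`.  `DD G x (s 3) y (s 0)`: for `![s 0, s 1, s 3, s 2]`: NP by E5O, no bad cut by E5B: `IH`.  `DD G x (s 2) y (s 1)`: the same for `![s 1, s 0, s 2, s 3]` (sides exchanged). -/
def SpecE5Y : Prop := ∀ {α : Type} [Fintype α] [DecidableEq α] {G : SimpleGraph α} {x y : α} {s : Fin 4 → α},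
  SH G → No33 G → No34 G → No44 G → TW G x y s → NP (del G {x}) → SPL G x y (s 0) (s 3) (s 1) (s 2) →
  ¬ SPL G x y (s 0) (s 1) (s 2) (s 3) →
  (¬ ∃ q, ∀ w, G.Adj (s 2) w ↔ w = x ∨ w = y ∨ w = s 1 ∨ w = q) →
  (¬ ∃ q, ∀ w, G.Adj (s 3) w ↔ w = x ∨ w = y ∨ w = s 0 ∨ w = q) → OK G

/-- **E5G** (from TWR, E5D, E5J, E5N, NPC; 300 lines).  The ring, `J` nonplanar.  TWR for `s' = ![s 0, s 3, s 1, s 2]` (`S` is independent).  `JP`: no split `{s₀ s₃ | s₁ s₂}` (a cut `{x, y, e, f}`: `c ~ s₀, s₂`, `c' ~ s₀, s₁`, `d ~ s₁, s₃` would be in `{e, f}`), E5J, NPC.mono, `IH`.  D-pair graphs `(n, m) ∈ {s₁, s₂} × {s₀, s₃}`: NP by E5N; no bad cut `{a, b, q}`: `m` and `n` are connected in `H - a - b - q` through the 4-cycle `c c' d d'`: `(s₁, s₀)`: common neighbour `c'`, or `s₀ c d' d s₁`; `(s₁, s₃)`: `d`, or `s₃ d' c c' s₁`; `(s₂,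
s₀)`: `c`, or `s₀ c' d d' s₂`; `(s₂, s₃)`: `d'`, or `s₃ d c' c s₂`.  `IH`. -/
def SpecE5G : Prop := ∀ {α : Type} [Fintype α] [DecidableEq α] {G : SimpleGraph α} {x y c d c' d' : α}
  {s : Fin 4 → α}, K48 G → IH G → TW G x y s → NP (del G {x}) → RNG G x y s c d c' d' → OK G

/-- `K_{3,4}` with parts `{b i}`, `{a i}` and the additional edge `a₀a₁` -/
structure K34E {α : Type} [Fintype α] [DecidableEq α] (G : SimpleGraph α) (a : Fin 4 → α) (b : Fin 3 → α) :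
    Prop where
  ia : Function.Injective a
  ib : Function.Injective b
  ab : ∀ i j, a i ≠ b j
  vs : ∀ v ∈ VS G, (∃ i, v = a i) ∨ ∃ i, v = b i
  nb : ∀ i w, G.Adj (b i) w ↔ ∃ j, w = a j
  aa : ∀ i j, G.Adj (a i) (a j) ↔ (i = 0 ∧ j = 1) ∨ (i = 1 ∧ j = 0)

/-- **K34** (from KUR, KSU, PC; 300 lines).  `K_{3,3}` is `C1`, NP, smaller than `G`: `KZ` by `IH`. `z ∈ Z_2(G)`, row of `a₀a₁` in `Z1 (G - a₀ - a₁)`, spanned by the 4-cycles `a₂ b_i a₃ b_j`.  The subdivisions of `K_{3,3}` with parts `{a₀, a₂, a₃}`, `{b₀, b₁, b₂}` in which `a₀ b_k` is replaced by `a₀ a₁ b_k` have `KZ` (KSU), and their 2-cycle has the row `a₂ b_i a₃ b_j` (`{i, j, k} = {0, 1, 2}`) at `a₀a₁`.  So we may assume `z ∈ Z_2(K_{3,4})`.  Row of `a₃b₀`: in `Z1 (K_{3,4} - a₃ - b₀)` (parts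
`{b₁, b₂}`, `{a₀, a₁, a₂}`), spanned by the 4-cycles `b₁ a_i b₂ a_j`; the 2-cycle of the `K_{3,3}` with parts `{b}`, `{a_i, a_j, a₃}` has this row.  So we may assume that the row of `a₃b₀` is 0.  Then the rows of `a₃ b₁`, `a₃ b₂` are equal (boundary at `a₃`), without edges at `b₁`, `b₂`: they consist of edges at `b₀`, even at every `a_i`: zero.  So `z ∈ Z_2(K_{3,3})` (parts `{b}`, `{a₀, a₁, a₂}`). -/
def SpecK34 : Prop := ∀ {α : Type} [Fintype α] [DecidableEq α] {G : SimpleGraph α} {a : Fin 4 → α} {b : Fin 3 → α},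
  IH G → K34E G a b → KZ G

/-- **E5K** (from TWR, E5D, E5J, K34, NPM, KC; 350 lines).  `K_{4,4}` with at most the edges `a₀a₁`, `a₂a₃`.  TWR for the twins `b 0, b 1` and `s' = ![a 0, a 2, a 1, a 3]`; `a₀ ≁ a₂`.  D-pair graphs `(n, m) ∈ {a₁, a₃} × {a₀, a₂}`: NP: NPM.k33 with `{b 0}, {b 2}, {b 3}` and the `{a_j}`, `a_j ≠ n`; no bad cut: `b 2`, `b 3` are adjacent to all `a_j`, one of them is `≠ q`.  `IH`.
`JP = G - b₀ + a₀a₂`: if `a₀a₁` or `a₂a₃` is an edge: no split `{a₀ a₂ | a₁ a₃}` of `b 0, b 1` (the cut would be `{b 0, b 1, b 2, b 3}`, and the edge joins the two sides), E5J: `C1`; NP: `{b 1}, {b 2}, {b 3}` and three of the `{a_j}`; `IH`.  If there is no such edge: K34 (`![a 0, a 2, a 1, a 3]`, `![b 1, b 2, b 3]`); its hypothesis by `IH` (`sz JP < sz G`). -/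
def SpecE5K : Prop := ∀ {α : Type} [Fintype α] [DecidableEq α] {G : SimpleGraph α} {a b : Fin 4 → α},
  K48 G → IH G → K4E G a b → OK G

/-- **E5Z** (from TWR, E5J, E5X, E5Y, E5G, E5K, EDG, EDB, EDL, E4N, E4S, NCN, NCX, NBF; 300 lines).  TWINS.  `TW` gives `DP`; both are invariant under relabelling of `s`.  `¬ NP (del G {x})`: EDG.two, relabel: `Gam G x (s 0) (s 1)`, `Gam G x (s 2) (s 3)`; `ND` (EDB.dis); TWR: `s₀ ≁ s₁` (NCN.nadj); `JP`: `{s₀ s₁ | s₂ s₃}` is no split (EDL), so `C1` (E5J), NP (NCN.np): `IH`.  The four D-pair graphs: E5X for `s` and with `s 0, s 1` and/or `s 2, s 3` exchanged (`Gam` is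
symmetric, NCX.symm; `ND` is invariant).
`NP (del G {x})`: `x` is not rigid (`SH.rig`); E4N: a split.  Two different splits: relabel, E4S: E5K or E5G.  Exactly one split: relabel such that it is `{s₀ s₃ | s₁ s₂}`; if `s₃` is special (`N(s₃) = {x, y, s₀, q}`) exchange `s₀`, `s₃` (not both are special: `P33`, or `N({s₀, s₃})` has 3 elements); the same for `s₂`, `s₁`.  E5Y. -/
def SpecE5Z : Prop := ∀ {α : Type} [Fintype α] [DecidableEq α] {G : SimpleGraph α} {x y : α} {s : Fin 4 → α},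
  SH G → No33 G → No34 G → No44 G → TW G x y s → OK G

end DL
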