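import Pool.Agent.DL.BASE.TRP
import Pool.Agent.DL.K.Spec
import Pool.Agent.DL.MENG
import Pool.Agent.DL.E.Spec0
import Pool.Agent.DL.E.Spec5
import Pool.Agent.DL.E.E4N
import Pool.Agent.DL.E.E5D
import Pool.Agent.DL.E.E5X

section
/-!
# MP_3ff0f8_gt, ALGEBRA HALF: module ISO (helper19): transport along injective maps

Everything is in `DL/BASE/TRP.lean` (structure `Tr G H f`), here for `G.map f`.
-/
open SimpleGraph Finset

namespace DL

/-- **ISO.** Transport of `U`, `KZ`, `NP`, `C1`, `KConn` along an injective map of the vertex type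
(for permutations this gives both directions) -/
structure SpecISO : Prop where
  u : ∀ {α β : Type} [Fintype α] [DecidableEq α] [Fintype β] [DecidableEq β] (f : α ↪ β)
    (G : SimpleGraph α), U G → U (G.map f)
  kz : ∀ {α β : Type} [Fintype α] [DecidableEq α] [Fintype β] [DecidableEq β] (f : α ↪ β)
    (G : SimpleGraph α), KZ G → KZ (G.map f)
  np : ∀ {α β : Type} [Fintype α] [DecidableEq α] [Fintype β] [DecidableEq β] (f : α ↪ β)
    (G : SimpleGraph α), NP G → NP (G.map f)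
  c1 : ∀ {α β : Type} [Fintype α] [DecidableEq α] [Fintype β] [DecidableEq β] (f : α ↪ β)
    (G : SimpleGraph α), C1 G → C1 (G.map f)
  k3 : ∀ {α β : Type} [Fintype α] [DecidableEq α] [Fintype β] [DecidableEq β] (f : α ↪ β)
    (G : SimpleGraph α) (k : ℕ), KConn k G → KConn k (G.map f)
  s3s : ∀ {α β : Type} [Fintype α] [DecidableEq α] [Fintype β] [DecidableEq β] (f : α ↪ β)
    (G : SimpleGraph α), S3S G → S3S (G.map f)
  /-- the same for `G` and `G.map f`, in both directions -/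
  npi : ∀ {α β : Type} [Fintype α] [DecidableEq α] [Fintype β] [DecidableEq β] (f : α ↪ β)
    (G : SimpleGraph α), NP (G.map f) → NP G
  c1i : ∀ {α β : Type} [Fintype α] [DecidableEq α] [Fintype β] [DecidableEq β] (f : α ↪ β)
    (G : SimpleGraph α), C1 (G.map f) → C1 G
  k3i : ∀ {α β : Type} [Fintype α] [DecidableEq α] [Fintype β] [DecidableEq β] (f : α ↪ β)
    (G : SimpleGraph α) (k : ℕ), KConn k (G.map f) → KConn k G
  s3si : ∀ {α β : Type} [Fintype α] [DecidableEq α] [Fintype β] [DecidableEq β] (f : α ↪ β)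
    (G : SimpleGraph α), S3S (G.map f) → S3S G

theorem specISO : SpecISO where
  u f G h := (Tr.tr_map f.injective G).u h
  kz f G h := (Tr.tr_map f.injective G).kz h
  np f G h := (Tr.tr_map f.injective G).np h
  c1 f G h := (Tr.tr_map f.injective G).c1.2 h
  k3 f G k h := ((Tr.tr_map f.injective G).kConn k).2 h
  s3s f G h := (Tr.tr_map f.injective G).s3s.2 h
  npi f G h := (Tr.tr_map f.injective G).np_of h
  c1i f G h := (Tr.tr_map f.injective G).c1.1 h
  k3i f G k h := ((Tr.tr_map f.injective G).kConn k).1 h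
  s3si f G h := (Tr.tr_map f.injective G).s3s.1 h

/-- permutations: `G.map f` for `f = Equiv.swap a b` etc., in terms of adjacency -/
theorem map_equiv_adj {α β : Type*} (f : α ≃ β) (G : SimpleGraph α) (u v : β) :
    (G.map f).Adj u v ↔ G.Adj (f.symm u) (f.symm v) := by
  rw [SimpleGraph.map_adj']
  constructor
  · rintro ⟨_, u', v', h, rfl, rfl⟩
    rwa [f.symm_apply_apply, f.symm_apply_apply]
  · intro h
    refine ⟨fun e => h.ne (by rw [e]), f.symm u, f.symm v, h, ?_, ?_⟩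
    · exact f.apply_symm_apply u
    · exact f.apply_symm_apply v

end DL
end

section
/-!
# MP_3ff0f8_gt, ALGEBRA HALF, E block: module TRI (helper42)

`KZ` of a graph with two adjacent cubic vertices with a common neighbour.
-/
open SimpleGraph Finset

namespace DL

/-- **TRI** (from KUR, KSU, LPE, CTZ, ISO).  `a`, `b` adjacent vertices of degree 3 with the common neighbour `c`,
`N(a) = {b, c, p}`, `N(b) = {a, c, q}`, `S` = the graph `A - ac` with `a` suppressed (vertices `V - a`, `b ~ c, p, q`).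
`A - bc` with `b` suppressed is the image of `S` under the swap of `a` and `b`. -/
def SpecTRI : Prop := ∀ {α : Type} [Fintype α] [DecidableEq α] {A : SimpleGraph α} {a b c p q : α},
  [a, b, c, p, q].Nodup → (∀ w, A.Adj a w ↔ w = b ∨ w = c ∨ w = p) →
  (∀ w, A.Adj b w ↔ w = a ∨ w = c ∨ w = q) → KZ (contr (delE A a c) b a) →
  S3S (delE (contr (delE A a c) b a) b c) → c ∈ VS (delE (contr (delE A a c) b a) b c) → KZ A

namespace TRIM

variable {α : Type} [Fintype α] [DecidableEq α] {A : SimpleGraph α} {a b c p q : α}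

theorem s_ne {u v x y : α} (h : u ≠ x) (h' : u ≠ y) : s(u, v) ≠ s(x, y) := by
  intro e
  rw [Sym2.eq_iff] at e
  rcases e with ⟨e, _⟩ | ⟨e, _⟩
  · exact h e
  · exact h' e

theorem s_ne' {u v x y : α} (h : u ≠ x) (h' : v ≠ x) : s(u, v) ≠ s(x, y) := by
  intro e
  rw [Sym2.eq_iff] at e
  rcases e with ⟨e, _⟩ | ⟨_, e⟩
  · exact h e
  · exact h' e

/-- adjacency in `S` -/
theorem adjS (hbp : b ≠ p) (hpa : p ≠ a) (hpc : p ≠ c)
    (ha : ∀ w, A.Adj a w ↔ w = b ∨ w = c ∨ w = p) (u v : α) :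
    (contr (delE A a c) b a).Adj u v ↔
      u ≠ a ∧ v ≠ a ∧ (A.Adj u v ∨ (u = b ∧ v = p) ∨ (u = p ∧ v = b)) := by
  rw [contr_adj]
  simp only [delE_adj]
  constructor
  · rintro ⟨h1, h2, h3, h4 | ⟨rfl, h4, h5⟩ | ⟨rfl, h4, h5⟩⟩
    · exact ⟨h1, h2, Or.inl h4.1⟩
    · rw [ha] at h4
      rcases h4 with h4 | h4 | h4
      · exact absurd h4.symm h3
      · exact absurd (by rw [h4]) h5
      · exact ⟨h1, h2, Or.inr (Or.inl ⟨rfl, h4⟩)⟩
    · rw [A.adj_comm, ha] at h4
      rcases h4 with h4 | h4 | h4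
      · exact absurd h4 h3
      · exact absurd (by rw [h4, Sym2.eq_swap]) h5
      · exact ⟨h1, h2, Or.inr (Or.inr ⟨h4, rfl⟩)⟩
  · rintro ⟨h1, h2, h3 | ⟨rfl, rfl⟩ | ⟨rfl, rfl⟩⟩
    · exact ⟨h1, h2, h3.ne, Or.inl ⟨h3, s_ne' h1 h2⟩⟩
    · exact ⟨h1, h2, hbp, Or.inr (Or.inl ⟨rfl, (ha _).2 (by simp), by
        rw [Sym2.eq_swap]; exact s_ne hpa hpc⟩)⟩
    · exact ⟨h1, h2, hbp.symm, Or.inr (Or.inr ⟨rfl, ((ha _).2 (by simp)).symm, s_ne hpa hpc⟩)⟩

/-- the two suppressed graphs are isomorphic -/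
theorem iso (hnd : [a, b, c, p, q].Nodup) (ha : ∀ w, A.Adj a w ↔ w = b ∨ w = c ∨ w = p)
    (hb : ∀ w, A.Adj b w ↔ w = a ∨ w = c ∨ w = q) (u v : α) :
    (contr (delE A a c) b a).Adj (Equiv.swap a b u) (Equiv.swap a b v) ↔
      (contr (delE A b c) a b).Adj u v := by
  simp only [List.nodup_cons, List.mem_cons, List.not_mem_nil, or_false, not_or, List.nodup_nil,
    and_true, not_false_eq_true] at hnd
  obtain ⟨⟨hab, hac, hap, haq⟩, ⟨hbc, hbp, hbq⟩, ⟨hcp, hcq⟩, hpq⟩ := hnd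
  rw [adjS hbp (Ne.symm hap) (Ne.symm hcp) ha, adjS haq (Ne.symm hbq) (Ne.symm hcq) hb]
  have e1 : ∀ x, Equiv.swap a b x ≠ a ↔ x ≠ b := by
    intro x
    constructor
    · rintro h rfl
      exact h (Equiv.swap_apply_right a x)
    · intro h e
      apply h
      have := congrArg (Equiv.swap a b) e
      rwa [Equiv.swap_apply_self, Equiv.swap_apply_left] at this
  rw [e1, e1]
  refine and_congr_right fun hu => and_congr_right fun hv => ?_
  have e2 : ∀ x, x ≠ a → x ≠ b → Equiv.swap a b x = x := fun x h h' =>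
    Equiv.swap_apply_of_ne_of_ne h h'
  by_cases hua : u = a
  · subst hua
    by_cases hva : v = u
    · subst hva
      simp only [Equiv.swap_apply_left]
      constructor
      · rintro (h | ⟨_, h⟩ | ⟨h, _⟩)
        · exact absurd rfl h.ne
        · exact absurd h hbp
        · exact absurd h hbp
      · rintro (h | ⟨_, h⟩ | ⟨h, _⟩)
        · exact absurd rfl h.ne
        · exact absurd h haq
        · exact absurd h haq
    · rw [Equiv.swap_apply_left, e2 v hva hv, hb, ha]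
      constructor
      · rintro ((h | h | h) | ⟨_, h⟩ | ⟨h, _⟩)
        · exact absurd h hva
        · exact Or.inl (Or.inr (Or.inl h))
        · exact Or.inr (Or.inl ⟨rfl, h⟩)
        · exact Or.inl (Or.inr (Or.inr h))
        · exact absurd h hbp
      · rintro ((h | h | h) | ⟨_, h⟩ | ⟨h, _⟩)
        · exact absurd h hv
        · exact Or.inl (Or.inr (Or.inl h))
        · exact Or.inr (Or.inl ⟨rfl, h⟩)
        · exact Or.inl (Or.inr (Or.inr h))
        · exact absurd h haq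
  · by_cases hva : v = a
    · subst hva
      rw [Equiv.swap_apply_left, e2 u hua hu, A.adj_comm, hb, A.adj_comm, ha]
      constructor
      · rintro ((h | h | h) | ⟨h, _⟩ | ⟨h, _⟩)
        · exact absurd h hua
        · exact Or.inl (Or.inr (Or.inl h))
        · exact Or.inr (Or.inr ⟨h, rfl⟩)
        · exact absurd h hu
        · exact Or.inl (Or.inr (Or.inr h))
      · rintro ((h | h | h) | ⟨h, _⟩ | ⟨h, _⟩)
        · exact absurd h hu
        · exact Or.inl (Or.inr (Or.inl h))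
        · exact Or.inr (Or.inr ⟨h, rfl⟩)
        · exact absurd h hua
        · exact Or.inl (Or.inr (Or.inr h))
    · rw [e2 u hua hu, e2 v hva hv]
      constructor
      · rintro (h | ⟨h, _⟩ | ⟨_, h⟩)
        · exact Or.inl h
        · exact absurd h hu
        · exact absurd h hv
      · rintro (h | ⟨h, _⟩ | ⟨_, h⟩)
        · exact Or.inl h
        · exact absurd h hua
        · exact absurd h hva

end TRIM

open TRIM in
/-- **TRI** -/
theorem specTRI (hKUR : SpecKUR) (hKSU : SpecKSU) (hLPE : SpecLPE) (hCTZ : SpecCTZ)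
    (hISO : SpecISO) : SpecTRI := by
  intro α _ _ A a b c p q hnd ha hb hKS hS3 hcV
  have hiso := iso hnd ha hb
  have hnd' := hnd
  simp only [List.nodup_cons, List.mem_cons, List.not_mem_nil, or_false, not_or, List.nodup_nil,
    and_true, not_false_eq_true] at hnd'
  obtain ⟨⟨hab, hac, hap, haq⟩, ⟨hbc, hbp, hbq⟩, ⟨hcp, hcq⟩, hpq⟩ := hnd'
  have hSa := adjS (A := A) hbp (Ne.symm hap) (Ne.symm hcp) ha
  have hSb := adjS (A := A) haq (Ne.symm hbq) (Ne.symm hcq) hb
  have e2 : ∀ x, x ≠ a → x ≠ b → Equiv.swap a b x = x := fun x h h' =>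
    Equiv.swap_apply_of_ne_of_ne h h'
  have hσc : Equiv.swap a b c = c := e2 c (Ne.symm hac) (Ne.symm hbc)
  have hσσ : ∀ x, Equiv.swap a b (Equiv.swap a b x) = x := Equiv.swap_apply_self a b
  -- transport
  have hm1 : (contr (delE A a c) b a).map ((Equiv.swap a b).toEmbedding : α ↪ α) =
      contr (delE A b c) a b := by
    ext u v
    rw [← hiso]
    exact map_equiv_adj (Equiv.swap a b) _ u v
  have hsw : ∀ u v : α, s(Equiv.swap a b u, Equiv.swap a b v) = s(b, c) ↔ s(u, v) = s(a, c) := by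
    intro u v
    have h1 : s(b, c) = s(Equiv.swap a b a, Equiv.swap a b c) := by
      rw [Equiv.swap_apply_left, hσc]
    rw [h1]
    have h2 : ∀ x y : α, s(Equiv.swap a b x, Equiv.swap a b y) =
      (s(x, y)).map (Equiv.swap a b) := fun x y => rfl
    rw [h2, h2]
    exact (Sym2.map.injective (Equiv.swap a b).injective).eq_iff
  have hm2 : (delE (contr (delE A a c) b a) b c).map ((Equiv.swap a b).toEmbedding : α ↪ α) =
      delE (contr (delE A b c) a b) a c := by
    ext u v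
    have h1 := map_equiv_adj (Equiv.swap a b) (delE (contr (delE A a c) b a) b c) u v
    refine h1.trans ?_
    rw [delE_adj, delE_adj, ← hiso]
    exact and_congr_right fun _ => not_congr (hsw u v)
  have hKS' : KZ (contr (delE A b c) a b) := by
    rw [← hm1]
    exact hISO.kz _ _ hKS
  have hS3' : S3S (delE (contr (delE A b c) a b) a c) := by
    rw [← hm2]
    exact hISO.s3s _ _ hS3
  have hcV' : c ∈ VS (delE (contr (delE A b c) a b) a c) := by
    obtain ⟨y, hy⟩ := mem_VS.1 hcV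
    rw [mem_VS]
    refine ⟨Equiv.swap a b y, ?_⟩
    rw [← hm2]
    refine (map_equiv_adj (Equiv.swap a b) _ _ _).2 ?_
    rw [Equiv.symm_swap, hσc, hσσ]
    exact hy
  have haV' : a ∈ VS (delE (contr (delE A b c) a b) a c) := by
    rw [mem_VS]
    refine ⟨p, ?_⟩
    rw [delE_adj, hSb]
    refine ⟨⟨hab, Ne.symm hbp, Or.inl ((ha p).2 (by simp))⟩, ?_⟩
    rw [Sym2.eq_swap]
    exact s_ne (Ne.symm hap) (Ne.symm hcp)
  have hadj' : (contr (delE A b c) a b).Adj a c := by
    rw [hSb]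
    exact ⟨hab, Ne.symm hbc, Or.inl ((ha c).2 (by simp))⟩
  -- the two deletions
  have K1 : KZ (delE A a c) := by
    refine hKSU (v := a) (p := b) (q := p) hbp ?_ ?_ hKS
    · intro w
      rw [delE_adj, ha]
      constructor
      · rintro ⟨h | h | h, h'⟩
        · exact Or.inl h
        · exact absurd (by rw [h]) h'
        · exact Or.inr h
      · rintro (rfl | rfl)
        · exact ⟨by simp, by rw [Sym2.eq_swap]; exact s_ne (Ne.symm hab) hbc⟩
        · exact ⟨by simp, by rw [Sym2.eq_swap]; exact s_ne (Ne.symm hap) (Ne.symm hcp)⟩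
    · intro h
      have := (hb p).1 (delE_le _ _ _ h)
      rcases this with h' | h' | h'
      · exact hap h'.symm
      · exact hcp h'.symm
      · exact hpq h'
  have K2 : KZ (delE A b c) := by
    refine hKSU (v := b) (p := a) (q := q) haq ?_ ?_ hKS'
    · intro w
      rw [delE_adj, hb]
      constructor
      · rintro ⟨h | h | h, h'⟩
        · exact Or.inl h
        · exact absurd (by rw [h]) h'
        · exact Or.inr h
      · rintro (rfl | rfl)
        · exact ⟨by simp, by rw [Sym2.eq_swap]; exact s_ne hab hac⟩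
        · exact ⟨by simp, by rw [Sym2.eq_swap]; exact s_ne (Ne.symm hbq) (Ne.symm hcq)⟩
    · intro h
      have := (ha q).1 (delE_le _ _ _ h)
      rcases this with h' | h' | h'
      · exact hbq h'.symm
      · exact hcq h'.symm
      · exact hpq h'.symm
  rw [hKUR.kz]
  intro z hz
  have hZ := hKUR.row a c hz
  set Z : Chain α := z s(a, c) with hZdef
  have hZsup : ∀ x y, Z s(x, y) ≠ 0 → A.Adj x y ∧ x ≠ a ∧ x ≠ c ∧ y ≠ a ∧ y ≠ c := by
    intro x y h
    have h1 : (del A {a, c}).Adj x y := (mem_Z1.1 hZ).1 _ h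
    obtain ⟨h2, h3, h4⟩ := h1
    rw [mem_insert, mem_singleton, not_or] at h3 h4
    exact ⟨h2, h3.1, h3.2, h4.1, h4.2⟩
  have hZbq : Z s(b, q) = 0 := by
    have h1 := (mem_Z1.1 hZ).2 b
    rw [bdy_eq] at h1
    rw [Finset.sum_eq_single s(b, q)] at h1
    · exact h1
    · intro e he hne
      rw [mem_filter] at he
      obtain ⟨y, rfl⟩ := Sym2.mem_iff_exists.1 he.2
      by_contra h0
      obtain ⟨h2, _, _, h3, h4⟩ := hZsup b y h0
      rw [hb] at h2
      rcases h2 with h2 | h2 | h2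
      · exact h3 h2
      · exact h4 h2
      · exact hne (by rw [h2])
    · intro h
      exact absurd (mem_filter.2 ⟨mem_univ _, by simp⟩) h
  have hZb : ∀ x y, Z s(x, y) ≠ 0 → x ≠ b := by
    rintro x y h rfl
    obtain ⟨h2, _, _, h3, h4⟩ := hZsup x y h
    rw [hb] at h2
    rcases h2 with h2 | h2 | h2
    · exact h3 h2
    · exact h4 h2
    · rw [h2] at h
      exact h hZbq
  have hZ' : Z ∈ Z1 (del (contr (delE A b c) a b) {a, c}) := by
    rw [mem_Z1]
    refine ⟨fun e he => ?_, (mem_Z1.1 hZ).2⟩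
    induction e using Sym2.ind with
    | _ x y =>
      obtain ⟨h1, h2, h3, h4, h5⟩ := hZsup x y he
      have h6 := hZb x y he
      have h7 := hZb y x (by rwa [Sym2.eq_swap])
      refine ⟨(hSb x y).2 ⟨h6, h7, Or.inl h1⟩, ?_, ?_⟩
      · rw [mem_insert, mem_singleton, not_or]
        exact ⟨h2, h3⟩
      · rw [mem_insert, mem_singleton, not_or]
        exact ⟨h4, h5⟩
  obtain ⟨w, hw, hwZ⟩ := hLPE.edge hadj' hS3' haV' hcV' Z hZ'
  have habE : (delE A b c).Adj a b := by
    rw [delE_adj]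
    exact ⟨(ha b).2 (by simp), s_ne hab hac⟩
  have hNo : NoCN (delE A b c) a b := by
    rintro x ⟨h1, h2⟩
    rw [delE_adj, ha] at h1
    rw [delE_adj, hb] at h2
    rcases h2 with ⟨h2 | h2 | h2, h3⟩
    · rcases h1.1 with h4 | h4 | h4
      · exact hab (h2.symm.trans h4)
      · exact hac (h2.symm.trans h4)
      · exact hap (h2.symm.trans h4)
    · exact h3 (by rw [h2])
    · rcases h1.1 with h4 | h4 | h4
      · exact hbq (h4.symm.trans h2)
      · exact hcq (h4.symm.trans h2)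
      · exact hpq (h4.symm.trans h2)
  obtain ⟨z', hz', hzw⟩ := hCTZ.up habE hNo w hw
  have hacE : s(a, c) ∈ (delE A b c).edgeSet := by
    have : (delE A b c).Adj a c := by
      rw [delE_adj]
      exact ⟨(ha c).2 (by simp), s_ne' hab (Ne.symm hbc)⟩
    exact this
  have hacab : s(a, c) ≠ s(a, b) := by
    rw [Sym2.eq_swap]
    exact s_ne (Ne.symm hac) (Ne.symm hbc)
  have key : ∀ f, z' s(a, c) f = Z f := by
    intro f
    by_cases hf : f ∈ (delE A b c).edgeSet
    · by_cases hfab : f = s(a, b)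
      · subst hfab
        have h1 : z' s(a, c) s(a, b) = 0 := by
          by_contra h
          exact (hz'.2.1 _ _ h).2.2 a ⟨by simp, by simp⟩
        have h2 : Z s(a, b) = 0 := by
          by_contra h
          exact (hZsup a b h).2.1 rfl
        rw [h1, h2]
      · rw [hzw _ hacE f hf hacab hfab]
        have h1 : (s(a, c)).map (mrg a b) = s(a, c) := by
          rw [Sym2.map_mk]
          have : mrg a b a = a := if_neg hab
          have h' : mrg a b c = c := if_neg (Ne.symm hbc)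
          simp only [this, h']
        rw [h1, hwZ]
        induction f using Sym2.ind with
        | _ x y =>
          have hadj : (delE A b c).Adj x y := hf
          rw [Sym2.map_mk]
          have hkey : ∀ y, (delE A b c).Adj b y → s(b, y) ≠ s(a, b) → y = q := by
            intro y hy hne
            rw [delE_adj, hb] at hy
            rcases hy with ⟨h | h | h, h'⟩
            · exact absurd (by rw [h, Sym2.eq_swap]) hne
            · exact absurd (by rw [h]) h'
            · exact h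
          have hZa : ∀ x, Z s(a, x) = 0 := by
            intro x
            by_contra h
            exact (hZsup a x h).2.1 rfl
          by_cases hxb : x = b
          · subst hxb
            have := hkey y hadj hfab
            subst this
            have e1 : mrg a x x = a := if_pos rfl
            show Z s(mrg a x x, mrg a x y) = Z s(x, y)
            rw [e1, hZa, hZbq]
          · by_cases hyb : y = b
            · subst hyb
              have := hkey x hadj.symm (by rwa [Sym2.eq_swap])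
              subst this
              have e1 : mrg a y y = a := if_pos rfl
              show Z s(mrg a y x, mrg a y y) = Z s(x, y)
              rw [e1, Sym2.eq_swap, hZa, Sym2.eq_swap, hZbq]
            · have e1 : mrg a b x = x := if_neg hxb
              have e3 : mrg a b y = y := if_neg hyb
              show Z s(mrg a b x, mrg a b y) = Z s(x, y)
              rw [e1, e3]
    · have h1 : z' s(a, c) f = 0 := by
        by_contra h
        exact hf (hz'.2.1 _ _ h).2.1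
      have h2 : Z f = 0 := by
        by_contra h
        apply hf
        induction f using Sym2.ind with
        | _ x y =>
          obtain ⟨h3, h4, h5, h6, h7⟩ := hZsup x y h
          have h8 := hZb x y h
          have h9 := hZb y x (by rwa [Sym2.eq_swap])
          have : (delE A b c).Adj x y := by
            rw [delE_adj]
            exact ⟨h3, s_ne' h8 h9⟩
          exact this
      rw [h1, h2]
  have hzA' : IsZ2 A z' := hKUR.zmono (delE_le _ _ _) hz'
  have hsum : IsZ2 A (fun e f => z e f + z' e f) := hKUR.zadd hz hzA'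
  have hdel : IsZ2 (delE A a c) (fun e f => z e f + z' e f) := by
    apply hKUR.del hsum
    intro f
    show Z f + z' s(a, c) f = 0
    rw [key f]
    exact zmod2_add_self _
  have k1 : Kur A (fun e f => z e f + z' e f) :=
    hKUR.mono (delE_le _ _ _) ((hKUR.kz _).1 K1 _ hdel)
  have k2 : Kur A z' := hKUR.mono (delE_le _ _ _) ((hKUR.kz _).1 K2 _ hz')
  have k3 := hKUR.add k1 k2
  have : (fun e f => z e f + z' e f + z' e f) = z := by
    funext e f
    rw [add_assoc, zmod2_add_self, add_zero]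
  rwa [this] at k3

end DL
end

section
/-!
# MP_3ff0f8_gt, EXIST section 5, module E5T: `K = 0` for a D-pair graph with bad cuts at `s 0`
-/
set_option autoImplicit false

open SimpleGraph Finset

namespace DL

namespace E5TM

open E5DM

variable {α : Type} [Fintype α] [DecidableEq α] {G : SimpleGraph α} {x y q : α} {s : Fin 4 → α}
  {W P Q : Finset α}

/-- (X): a cut through `x` contains no element of `S` -/
theorem cutX (hNBF : SpecNBF) (hG : K48 G) (ht : TW G x y s) (hs : Sep G W P Q) (h4 : W.card = 4)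
    (hP : 2 ≤ P.card) (hQ : 2 ≤ Q.card) (hx : x ∈ W) (i : Fin 4) : s i ∉ W := by
  intro hi
  have hd := E5AM.dp ht
  have hPn : P.Nonempty := card_pos.1 (by omega)
  have hQn : Q.Nonempty := card_pos.1 (by omega)
  obtain ⟨a, ha, hxa⟩ := hG.1.exists_adj_of_sep hs hPn h4.le hx
  obtain ⟨b, hb, hxb⟩ := hG.1.exists_adj_of_sep hs.symm hQn h4.le hx
  obtain ⟨j, rfl⟩ := (ht.nx _).1 hxa
  obtain ⟨k, rfl⟩ := (ht.nx _).1 hxb
  have hWP : ∀ v, v ∈ W → v ∉ P := fun v hv => Finset.disjoint_left.1 hs.2.1 hv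
  have hWQ : ∀ v, v ∈ W → v ∉ Q := fun v hv => Finset.disjoint_left.1 hs.2.2.1 hv
  have hPQ : ∀ v, v ∈ P → v ∉ Q := fun v hv => Finset.disjoint_left.1 hs.2.2.2.1 hv
  have hy : y ∈ W := by
    rcases hs.mem_or (left_mem_VS (hd.ay 0)) with h | h | h
    · exact h
    · exact absurd (hd.ay k) (hs.2.2.2.2 y h _ hb)
    · exact absurd (hd.ay j).symm (hs.2.2.2.2 _ ha y h)
  -- a second element of `S` in `P`
  have h1 : ∃ j', j' ≠ j ∧ s j' ∈ P := by
    by_contra hcon
    push Not at hcon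
    have := E4NM.small hNBF hG hd hs h4 hx hy j fun j' hj' => by
      by_contra hne
      exact hcon j' hne hj'
    omega
  have h2 : ∃ k', k' ≠ k ∧ s k' ∈ Q := by
    by_contra hcon
    push Not at hcon
    have := E4NM.small hNBF hG hd hs.symm h4 hx hy k fun k' hk' => by
      by_contra hne
      exact hcon k' hne hk'
    omega
  obtain ⟨j', hj', hj'P⟩ := h1
  obtain ⟨k', hk', hk'Q⟩ := h2
  have d1 : j ≠ k := fun e => hPQ _ ha (e ▸ hb)
  have d2 : j ≠ k' := fun e => hPQ _ ha (e ▸ hk'Q)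
  have d3 : j' ≠ k := fun e => hPQ _ hj'P (e ▸ hb)
  have d4 : j' ≠ k' := fun e => hPQ _ hj'P (e ▸ hk'Q)
  have d5 : i ≠ j := fun e => hWP _ hi (e ▸ ha)
  have d6 : i ≠ j' := fun e => hWP _ hi (e ▸ hj'P)
  have d7 : i ≠ k := fun e => hWQ _ hi (e ▸ hb)
  have d8 : i ≠ k' := fun e => hWQ _ hi (e ▸ hk'Q)
  rw [ne_eq, Fin.ext_iff] at hj' hk' d1 d2 d3 d4 d5 d6 d7 d8
  have := i.2
  have := j.2
  have := k.2
  have := j'.2
  have := k'.2
  omega

theorem four_le (hG : KConn 4 G) {v a b c d : α} (h : ∀ w, G.Adj v w → w = a ∨ w = b ∨ w = c ∨ w = d)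
    (hv : v ∈ VS G) : [a, b, c, d].Nodup := by
  have h1 := hG.le_nbs hv
  have h2 : nbs G v ⊆ {a, b, c, d} := by
    intro w hw
    rw [mem_nbs] at hw
    simp only [mem_insert, mem_singleton]
    exact h w hw
  have h3 := h1.trans (card_le_card h2)
  have e : ({a, b, c, d} : Finset α) = [a, b, c, d].toFinset := by
    ext w
    simp
  rw [e] at h3
  have h4 : [a, b, c, d].toFinset.card = [a, b, c, d].length :=
    le_antisymm (List.toFinset_card_le _) h3
  exact Multiset.coe_nodup.1 (Multiset.toFinset_card_eq_card_iff_nodup.1 h4)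

/-- the setup of the module -/
structure Cfg (G : SimpleGraph α) (x y q : α) (s : Fin 4 → α) : Prop where
  k48 : K48 G
  tw : TW G x y s
  q1 : q ≠ s 1
  q2 : q ≠ s 2
  n0 : ∀ w, G.Adj (s 0) w ↔ w = x ∨ w = y ∨ w = s 3 ∨ w = q
  n1 : ¬ G.Adj (s 1) q

theorem Cfg.nd (h : Cfg G x y q s) : [s 0, x, y, s 3, q, s 1].Nodup := by
  have h0 : [x, y, s 3, q].Nodup := four_le h.k48.1 (fun w hw => (h.n0 w).1 hw)
    (left_mem_VS ((h.n0 x).2 (Or.inl rfl)))
  have h1 := h.tw.sx 0
  have h2 := h.tw.sx 1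
  have h3 : s 0 ≠ s 3 := fun e => absurd (h.tw.inj e) (by decide)
  have h4 : s 0 ≠ s 1 := fun e => absurd (h.tw.inj e) (by decide)
  have h5 : s 3 ≠ s 1 := fun e => absurd (h.tw.inj e) (by decide)
  have h6 : s 0 ≠ q := ((h.n0 q).2 (by tauto)).ne
  have h7 := h.q1
  simp only [List.nodup_cons, List.mem_cons, List.not_mem_nil, or_false, not_or, List.nodup_nil,
    and_true, not_false_eq_true] at h0 ⊢
  obtain ⟨⟨a1, a2, a3⟩, ⟨a4, a5⟩, a6⟩ := h0
  exact ⟨⟨h1.1, h1.2, h3, h6, h4⟩, ⟨a1, a2, a3, h2.1.symm⟩, ⟨a4, a5, h2.2.symm⟩, ⟨a6, h5⟩, h7⟩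

/-- distinctness, unfolded -/
theorem Cfg.ne (h : Cfg G x y q s) : (s 0 ≠ x ∧ s 0 ≠ y ∧ s 0 ≠ s 3 ∧ s 0 ≠ q ∧ s 0 ≠ s 1) ∧
    (x ≠ y ∧ x ≠ s 3 ∧ x ≠ q ∧ x ≠ s 1) ∧ (y ≠ s 3 ∧ y ≠ q ∧ y ≠ s 1) ∧ (s 3 ≠ q ∧ s 3 ≠ s 1) ∧
    q ≠ s 1 := by
  have h0 := h.nd
  simp only [List.nodup_cons, List.mem_cons, List.not_mem_nil, or_false, not_or, List.nodup_nil,
    and_true, not_false_eq_true] at h0
  exact h0

/-- the neighbours of `s 0` in the D-pair graph -/
theorem Cfg.a0 (h : Cfg G x y q s) (w : α) :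
    (DD G x (s 2) y (s 0)).Adj (s 0) w ↔ w = x ∨ w = s 3 ∨ w = q := by
  obtain ⟨⟨a1, a2, a3, a4, a5⟩, ⟨b1, b2, b3, b4⟩, ⟨c1, c2, c3⟩, ⟨d1, d2⟩, e1⟩ := h.ne
  have h02 : s 0 ≠ s 2 := fun e => absurd (h.tw.inj e) (by decide)
  rw [DD_adj, h.n0]
  constructor
  · rintro ⟨h1 | h1 | h1 | h1, h2, h3⟩
    · exact Or.inl h1
    · exact absurd (by rw [h1, Sym2.eq_swap]) h3
    · exact Or.inr (Or.inl h1)
    · exact Or.inr (Or.inr h1)
  · intro h1
    refine ⟨by tauto, fun e => ?_, fun e => ?_⟩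
    · rw [Sym2.eq_iff] at e
      rcases e with ⟨e, _⟩ | ⟨e, _⟩
      · exact a1 e
      · exact h02 e
    · rw [Sym2.eq_iff] at e
      rcases e with ⟨e, _⟩ | ⟨_, e⟩
      · exact a2 e
      · rcases h1 with h1 | h1 | h1
        · exact b1 (h1.symm.trans e)
        · exact c1 (e.symm.trans h1)
        · exact c2 (e.symm.trans h1)

/-- the neighbours of `x` in the D-pair graph -/
theorem Cfg.ax (h : Cfg G x y q s) (w : α) :
    (DD G x (s 2) y (s 0)).Adj x w ↔ w = s 0 ∨ w = s 3 ∨ w = s 1 := by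
  obtain ⟨⟨a1, a2, a3, a4, a5⟩, ⟨b1, b2, b3, b4⟩, ⟨c1, c2, c3⟩, ⟨d1, d2⟩, e1⟩ := h.ne
  rw [DD_adj, h.tw.nx]
  constructor
  · rintro ⟨⟨i, rfl⟩, h2, h3⟩
    fin_cases i
    · exact Or.inl rfl
    · exact Or.inr (Or.inr rfl)
    · exact absurd rfl h2
    · exact Or.inr (Or.inl rfl)
  · intro h1
    have h4 : ∃ i, w = s i ∧ i ≠ 2 := by
      rcases h1 with h1 | h1 | h1
      · exact ⟨0, h1, by decide⟩
      · exact ⟨3, h1, by decide⟩
      · exact ⟨1, h1, by decide⟩
    obtain ⟨i, rfl, hi⟩ := h4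
    refine ⟨⟨i, rfl⟩, fun e => ?_, fun e => ?_⟩
    · rw [Sym2.eq_iff] at e
      rcases e with ⟨_, e⟩ | ⟨e, _⟩
      · exact hi (h.tw.inj e)
      · exact (h.tw.sx 2).1 e.symm
    · rw [Sym2.eq_iff] at e
      rcases e with ⟨e, _⟩ | ⟨e, _⟩
      · exact b1 e
      · exact a1 e.symm

/-- the suppressed graph -/
def SS (G : SimpleGraph α) (x y : α) (s : Fin 4 → α) : SimpleGraph α :=
  contr (delE (DD G x (s 2) y (s 0)) (s 0) (s 3)) x (s 0)

theorem Cfg.sadj (h : Cfg G x y q s) (u v : α) : (SS G x y s).Adj u v ↔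
    u ≠ s 0 ∧ v ≠ s 0 ∧ ((DD G x (s 2) y (s 0)).Adj u v ∨ (u = x ∧ v = q) ∨ (u = q ∧ v = x)) := by
  obtain ⟨⟨a1, a2, a3, a4, a5⟩, ⟨b1, b2, b3, b4⟩, ⟨c1, c2, c3⟩, ⟨d1, d2⟩, e1⟩ := h.ne
  exact TRIM.adjS b3 a4.symm d1.symm h.a0 u v

theorem Cfg.sadjG (h : Cfg G x y q s) {u v : α} (hu : u ≠ x) (hv : v ≠ x) (hu0 : u ≠ s 0)
    (hv0 : v ≠ s 0) : (SS G x y s).Adj u v ↔ G.Adj u v := by
  rw [h.sadj, DD_adj]
  constructor
  · rintro ⟨_, _, h1 | h1 | h1⟩
    · exact h1.1
    · exact absurd h1.1 hu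
    · exact absurd h1.2 hv
  · intro h1
    refine ⟨hu0, hv0, Or.inl ⟨h1, fun e => ?_, fun e => ?_⟩⟩
    · rw [Sym2.eq_iff] at e
      rcases e with ⟨e, _⟩ | ⟨_, e⟩
      · exact hu e
      · exact hv e
    · rw [Sym2.eq_iff] at e
      rcases e with ⟨_, e⟩ | ⟨e, _⟩
      · exact hv0 e
      · exact hu0 e

theorem Cfg.sx (h : Cfg G x y q s) (w : α) :
    (SS G x y s).Adj x w ↔ w = s 3 ∨ w = s 1 ∨ w = q := by
  obtain ⟨⟨a1, a2, a3, a4, a5⟩, ⟨b1, b2, b3, b4⟩, ⟨c1, c2, c3⟩, ⟨d1, d2⟩, e1⟩ := h.ne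
  rw [h.sadj, h.ax]
  constructor
  · rintro ⟨_, h1, (h2 | h2 | h2) | h2 | h2⟩
    · exact absurd h2 h1
    · exact Or.inl h2
    · exact Or.inr (Or.inl h2)
    · exact Or.inr (Or.inr h2.2)
    · exact absurd h2.1 b3
  · rintro (rfl | rfl | rfl)
    · exact ⟨a1.symm, a3.symm, Or.inl (by tauto)⟩
    · exact ⟨a1.symm, a5.symm, Or.inl (by tauto)⟩
    · exact ⟨a1.symm, a4.symm, by tauto⟩

/-- the vertices of the suppressed graph -/
theorem Cfg.vs (h : Cfg G x y q s) (hE5A : SpecE5A) (hE5D : SpecE5D) :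
    VS (SS G x y s) = (VS G).erase (s 0) := by
  obtain ⟨⟨a1, a2, a3, a4, a5⟩, ⟨b1, b2, b3, b4⟩, ⟨c1, c2, c3⟩, ⟨d1, d2⟩, e1⟩ := h.ne
  have hK := hE5D.k3 h.k48 h.tw
  have hV : VS (DD G x (s 2) y (s 0)) = VS G := VS_DD h.k48 (hE5A h.k48 h.tw 2).1
  have hM : VS (delE (DD G x (s 2) y (s 0)) (s 0) (s 3)) = VS (DD G x (s 2) y (s 0)) :=
    VS_delE fun v hv => le_trans (by norm_num) (hK.le_nbs hv)
  rw [SS, VS_contr, hM, hV]
  · rw [delE_adj, h.ax]
    refine ⟨Or.inl rfl, fun e => ?_⟩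
    rw [Sym2.eq_iff] at e
    rcases e with ⟨e, _⟩ | ⟨e, _⟩
    · exact a1 e.symm
    · exact b2 e
  · intro v hv
    exact (hK.delE (by norm_num) (s 0) (s 3)).le_nbs hv

/-- no bad separation in the suppressed graph, `x` in the cut -/
theorem Cfg.noW (h : Cfg G x y q s) (hE5A : SpecE5A) (hE5D : SpecE5D) (hNBF : SpecNBF)
    (hs : Sep (SS G x y s) W P Q) (hb : Bd W P Q) (hx : x ∈ W) : False := by
  obtain ⟨⟨a1, a2, a3, a4, a5⟩, ⟨b1, b2, b3, b4⟩, ⟨c1, c2, c3⟩, ⟨d1, d2⟩, e1⟩ := h.ne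
  have hV := h.vs hE5A hE5D
  have h0W : s 0 ∉ W := fun h0 => by
    have := hs.subS h0
    rw [hV] at this
    exact absurd this (notMem_erase _ _)
  have h0P : s 0 ∉ P := fun h0 => by
    have := hs.subP h0
    rw [hV] at this
    exact absurd this (notMem_erase _ _)
  have h0Q : s 0 ∉ Q := fun h0 => by
    have := hs.subQ h0
    rw [hV] at this
    exact absurd this (notMem_erase _ _)
  have h0V : s 0 ∈ VS G := left_mem_VS ((h.n0 x).2 (Or.inl rfl))
  have hs' : Sep G (insert (s 0) W) P Q := by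
    refine ⟨?_, ?_, ?_, hs.2.2.2.1, ?_⟩
    · rw [insert_union, insert_union, hs.1, hV, insert_erase h0V]
    · rw [disjoint_insert_left]
      exact ⟨h0P, hs.2.1⟩
    · rw [disjoint_insert_left]
      exact ⟨h0Q, hs.2.2.1⟩
    · intro a ha b hb' hab
      refine hs.2.2.2.2 a ha b hb' ((h.sadjG ?_ ?_ ?_ ?_).2 hab)
      · exact fun e => Finset.disjoint_left.1 hs.2.1 hx (e ▸ ha)
      · exact fun e => Finset.disjoint_left.1 hs.2.2.1 hx (e ▸ hb')
      · exact fun e => h0P (e ▸ ha)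
      · exact fun e => h0Q (e ▸ hb')
  have hc := h.k48.1.le_of_sep hs' hb.1 hb.2.1
  rw [card_insert_of_notMem h0W] at hc
  have h3 : W.card = 3 := by
    have := hb.2.2.1
    omega
  have h4 : (insert (s 0) W).card = 4 := by
    rw [card_insert_of_notMem h0W, h3]
  exact cutX hNBF h.k48 h.tw hs' h4 (hb.2.2.2 h3).1 (hb.2.2.2 h3).2 (mem_insert_of_mem hx) 0
    (mem_insert_self _ _)

/-- no bad separation in the suppressed graph, `x` in a side -/
theorem Cfg.noP (h : Cfg G x y q s) (hE5A : SpecE5A) (hE5D : SpecE5D)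
    (hB : ∀ q' P Q, BC G x y s q' P Q → P = {s 0})
    (hs : Sep (SS G x y s) W P Q) (hb : Bd W P Q) (hx : x ∈ P) : False := by
  obtain ⟨⟨a1, a2, a3, a4, a5⟩, ⟨b1, b2, b3, b4⟩, ⟨c1, c2, c3⟩, ⟨d1, d2⟩, e1⟩ := h.ne
  have hV := h.vs hE5A hE5D
  have hVA : VS (DD G x (s 2) y (s 0)) = VS G := VS_DD h.k48 (hE5A h.k48 h.tw 2).1
  have h0W : s 0 ∉ W := fun h0 => by
    have := hs.subS h0
    rw [hV] at this
    exact absurd this (notMem_erase _ _)
  have h0P : s 0 ∉ P := fun h0 => by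
    have := hs.subP h0
    rw [hV] at this
    exact absurd this (notMem_erase _ _)
  have h0Q : s 0 ∉ Q := fun h0 => by
    have := hs.subQ h0
    rw [hV] at this
    exact absurd this (notMem_erase _ _)
  have h0V : s 0 ∈ VS G := left_mem_VS ((h.n0 x).2 (Or.inl rfl))
  have hxQ : ∀ w, (SS G x y s).Adj x w → w ∉ Q := fun w hw hwQ => hs.2.2.2.2 x hx w hwQ hw
  have hs' : Sep (DD G x (s 2) y (s 0)) W (insert (s 0) P) Q := by
    refine ⟨?_, ?_, hs.2.2.1, ?_, ?_⟩
    · rw [union_insert, insert_union, hs.1, hV, insert_erase h0V, hVA]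
    · rw [disjoint_insert_right]
      exact ⟨h0W, hs.2.1⟩
    · rw [disjoint_insert_left]
      exact ⟨h0Q, hs.2.2.2.1⟩
    · intro a ha b hb' hab
      rw [mem_insert] at ha
      rcases ha with rfl | ha
      · rw [h.a0] at hab
        rcases hab with rfl | rfl | rfl
        · exact Finset.disjoint_left.1 hs.2.2.2.1 hx hb'
        · exact hxQ _ ((h.sx _).2 (Or.inl rfl)) hb'
        · exact hxQ _ ((h.sx _).2 (Or.inr (Or.inr rfl))) hb'
      · exact hs.2.2.2.2 a ha b hb' ((h.sadj a b).2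
          ⟨fun e => h0P (e ▸ ha), fun e => h0Q (e ▸ hb'), Or.inl hab⟩)
  have hc := (hE5D.k3 h.k48 h.tw).le_of_sep hs' ⟨s 0, mem_insert_self _ _⟩ hb.2.1
  have h3 : W.card = 3 := le_antisymm hb.2.2.1 hc
  obtain ⟨h5, h6⟩ := hb.2.2.2 h3
  obtain ⟨_, q', _, hBC⟩ := hE5D.bad h.k48 h.tw hs' h3
    (by rw [card_insert_of_notMem h0P]; omega) h6 (mem_insert_of_mem hx)
  have h7 := hB _ _ _ hBC
  have h8 : P ⊆ {x} := by
    intro v hv
    rw [mem_singleton]
    by_contra hvx
    have : v ∈ (insert (s 0) P).erase x := mem_erase.2 ⟨hvx, mem_insert_of_mem hv⟩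
    rw [h7, mem_singleton] at this
    exact h0P (this ▸ hv)
  have h9 := card_le_card h8
  rw [card_singleton] at h9
  omega

theorem Cfg.c1 (h : Cfg G x y q s) (hE5A : SpecE5A) (hE5D : SpecE5D) (hNBF : SpecNBF)
    (hB : ∀ q' P Q, BC G x y s q' P Q → P = {s 0}) : C1 (SS G x y s) := by
  have hV := h.vs hE5A hE5D
  have h0V : s 0 ∈ VS G := left_mem_VS ((h.n0 x).2 (Or.inl rfl))
  have hxV : x ∈ VS (SS G x y s) := left_mem_VS ((h.sx _).2 (Or.inl rfl))
  have key : ∀ W P Q, Sep (SS G x y s) W P Q → Bd W P Q → False := by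
    intro W P Q hs hb
    rcases hs.mem_or hxV with hx | hx | hx
    · exact h.noW hE5A hE5D hNBF hs hb hx
    · exact h.noP hE5A hE5D hB hs hb hx
    · exact h.noP hE5A hE5D hB hs.symm hb.symm hx
  refine ⟨kconn_iff_sep.2 ⟨?_, ?_⟩, ?_⟩
  · rw [hV, card_erase_of_mem h0V]
    have := h.k48.2
    omega
  · intro W P Q hs hc
    by_contra hne
    rw [not_or, ← ne_eq, ← ne_eq, ← nonempty_iff_ne_empty, ← nonempty_iff_ne_empty] at hne
    exact key W P Q hs ⟨hne.1, hne.2, hc.le, fun h => absurd h (by omega)⟩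
  · intro W P Q hs hc
    by_contra hne
    rw [not_or, not_le, not_le] at hne
    exact key W P Q hs
      ⟨card_pos.1 (by omega), card_pos.1 (by omega), hc.le, fun _ => ⟨hne.1, hne.2⟩⟩

/-- a row of a two-cycle with one possible edge at a vertex vanishes at this vertex -/
theorem row_one {A : SimpleGraph α} {z : Sym2 α → Sym2 α → ZMod 2} (hz : IsZ2 A z) {e : Sym2 α}
    {v w : α} (hv : v ∉ e) (h : ∀ u, A.Adj v u → u ≠ w → ∃ t, t ∈ e ∧ t ∈ s(v, u)) (f : Sym2 α)
    (hf : v ∈ f) : z e f = 0 := by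
  have h1 := hz.2.2 e v hv
  rw [Finset.sum_eq_single s(v, w)] at h1
  · by_contra h0
    obtain ⟨_, h2, h3⟩ := hz.2.1 _ _ h0
    obtain ⟨u, rfl⟩ := Sym2.mem_iff_exists.1 hf
    by_cases huw : u = w
    · subst huw
      exact h0 h1
    · obtain ⟨t, ht, ht'⟩ := h u h2 huw
      exact h3 t ⟨ht, ht'⟩
  · intro f hf' hne
    rw [mem_filter] at hf'
    obtain ⟨u, rfl⟩ := Sym2.mem_iff_exists.1 hf'.2
    by_contra h0
    obtain ⟨_, h2, h3⟩ := hz.2.1 _ _ h0
    obtain ⟨t, ht, ht'⟩ := h u h2 (fun e' => hne (by rw [e']))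
    exact h3 t ⟨ht, ht'⟩
  · intro h'
    exact absurd (mem_filter.2 ⟨mem_univ _, by simp⟩) h'

theorem Cfg.np (h : Cfg G x y q s) (hNPC : SpecNPC) (hNP : NP (DD G x (s 2) y (s 0))) :
    NP (SS G x y s) := by
  obtain ⟨⟨a1, a2, a3, a4, a5⟩, ⟨b1, b2, b3, b4⟩, ⟨c1, c2, c3⟩, ⟨d1, d2⟩, e1⟩ := h.ne
  have h1 : NP (delE (DD G x (s 2) y (s 0)) (s 0) (s 3)) := by
    obtain ⟨r, hr, z, hz, hv⟩ := hNP
    have hx0 : x ∉ s(s 0, s 3) := by
      rw [Sym2.mem_iff, not_or]
      exact ⟨a1.symm, b2⟩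
    refine hNPC.tdel (c := x) hr hz hv ((h.a0 _).2 (by tauto)) ((h.a0 _).2 (by tauto))
      ((h.ax _).2 (by tauto)).symm fun f hf => ?_
    refine row_one hz hx0 (w := s 1) ?_ f hf
    intro u hu hu1
    rw [h.ax] at hu
    rcases hu with rfl | rfl | rfl
    · exact ⟨s 0, by simp, by simp⟩
    · exact ⟨s 3, by simp, by simp⟩
    · exact absurd rfl hu1
  obtain ⟨r, hr, z, hz, hv⟩ := h1
  have hxs : (delE (DD G x (s 2) y (s 0)) (s 0) (s 3)).Adj x (s 0) := by
    rw [delE_adj, h.ax]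
    refine ⟨Or.inl rfl, fun e => ?_⟩
    rw [Sym2.eq_iff] at e
    rcases e with ⟨e, _⟩ | ⟨e, _⟩
    · exact a1 e.symm
    · exact b2 e
  refine (hNPC.down hr hz hv hxs ?_).1
  intro e f he hf hne _
  by_contra h0
  obtain ⟨h2, h3, h4⟩ := hz.2.1 _ _ h0
  have h5 : s 0 ∉ e := fun h5 => h4 _ ⟨h5, hf⟩
  apply h0
  refine row_one hz h5 (w := q) ?_ f hf
  intro u hu huq
  rw [delE_adj, h.a0] at hu
  rcases hu.1 with rfl | rfl | rfl
  · exact ⟨u, he, by simp⟩
  · exact absurd rfl hu.2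
  · exact absurd rfl huq

/-- the degree of `s 3` -/
theorem Cfg.dg3 (h : Cfg G x y q s) (hNo : No33 G) : 5 ≤ (nbs G (s 3)).card := by
  obtain ⟨⟨a1, a2, a3, a4, a5⟩, ⟨b1, b2, b3, b4⟩, ⟨c1, c2, c3⟩, ⟨d1, d2⟩, e1⟩ := h.ne
  have hx3 : G.Adj (s 3) x := ((h.tw.nx _).2 ⟨3, rfl⟩).symm
  have hy3 : G.Adj (s 3) y := ((h.tw.ny _).2 ⟨3, rfl⟩).symm
  have h03 : G.Adj (s 3) (s 0) := ((h.n0 _).2 (by tauto)).symm
  have h4 := h.k48.1.le_nbs (left_mem_VS hx3)
  by_contra hlt
  have h5 : (nbs G (s 3)).card = 4 := by omega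
  have hsub : ({x, y, s 0} : Finset α) ⊆ nbs G (s 3) := by
    intro v hv
    simp only [mem_insert, mem_singleton] at hv
    rw [mem_nbs]
    rcases hv with rfl | rfl | rfl
    · exact hx3
    · exact hy3
    · exact h03
  have hcard : ({x, y, s 0} : Finset α).card = 3 := by
    rw [card_eq_three]
    exact ⟨x, y, s 0, b1, a1.symm, a2.symm, rfl⟩
  have h6 : (nbs G (s 3) \ {x, y, s 0}).card = 1 := by
    rw [card_sdiff_of_subset hsub, h5, hcard]
  obtain ⟨w, hw⟩ := card_eq_one.1 h6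
  have hwm : w ∈ nbs G (s 3) \ {x, y, s 0} := by rw [hw]; simp
  simp only [mem_sdiff, mem_nbs, mem_insert, mem_singleton, not_or] at hwm
  obtain ⟨hw3, hwx, hwy, hw0⟩ := hwm
  have hN : ∀ v, G.Adj (s 3) v ↔ v = s 0 ∨ v = w ∨ v = x ∨ v = y := by
    intro v
    constructor
    · intro hv
      by_cases h1 : v = x
      · tauto
      · by_cases h2 : v = y
        · tauto
        · by_cases h3 : v = s 0
          · tauto
          · have : v ∈ nbs G (s 3) \ {x, y, s 0} := by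
              simp only [mem_sdiff, mem_nbs, mem_insert, mem_singleton, not_or]
              exact ⟨hv, h1, h2, h3⟩
            rw [hw, mem_singleton] at this
            tauto
    · rintro (rfl | rfl | rfl | rfl)
      · exact h03
      · exact hw3
      · exact hx3
      · exact hy3
  have hwq : w ≠ q := by
    rintro rfl
    refine few3 (D := {s 0, s 3}) (a := x) (b := y) (c := w) (r := s 1) h.k48.1 ?_
      ⟨s 0, by simp⟩ ?_ (right_mem_VS ((h.tw.nx _).2 ⟨1, rfl⟩)) ?_ b4.symm c3.symm e1.symm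
    · intro v hv
      simp only [mem_insert, mem_singleton] at hv
      rcases hv with rfl | rfl
      · exact right_mem_VS h03
      · exact left_mem_VS h03
    · intro v hv u hu
      simp only [mem_insert, mem_singleton] at hv ⊢
      rcases hv with rfl | rfl
      · rw [h.n0] at hu
        tauto
      · rw [hN] at hu
        tauto
    · simp only [mem_insert, mem_singleton, not_or]
      exact ⟨a5.symm, d2.symm⟩
  refine hNo (s 0) (s 3) w q x y ⟨?_, ?_, ?_⟩
  · simp only [List.nodup_cons, List.mem_cons, List.not_mem_nil, or_false, not_or, List.nodup_nil,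
      and_true, not_false_eq_true]
    exact ⟨⟨a3, Ne.symm hw0, a4, a1, a2⟩, ⟨hw3.ne, d1, b2.symm, c1.symm⟩, ⟨hwq, hwx, hwy⟩,
      ⟨b3.symm, c2.symm⟩, b1⟩
  · intro v
    rw [h.n0]
    tauto
  · exact hN

end E5TM

open E5TM in
/-- **E5T** -/
theorem specE5T (hE5A : SpecE5A) (hE5D : SpecE5D) (hT3S : SpecT3S) (hTRI : SpecTRI)
    (hNPC : SpecNPC) (hNBF : SpecNBF) (hDST : SpecDST) : SpecE5T := by
  intro α _ _ G x y q s hG hIH hNo ht hq1 hq2 hn0 hn1 hB hNP
  have h : Cfg G x y q s := ⟨hG, ht, hq1, hq2, hn0, hn1⟩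
  obtain ⟨⟨a1, a2, a3, a4, a5⟩, ⟨b1, b2, b3, b4⟩, ⟨c1, c2, c3⟩, ⟨d1, d2⟩, e1⟩ := h.ne
  have hC1 := h.c1 hE5A hE5D hNBF hB
  have hNPS := h.np hNPC hNP
  have hsz : sz (SS G x y s) < sz G := by
    have hle : ∀ {H K : SimpleGraph α}, H ≤ K → sz H ≤ sz K := by
      intro H K hHK
      by_cases e : H = K
      · rw [e]
      · exact (hDST.sz1 hHK e).le
    have h1 : sz (SS G x y s) < sz (delE (DD G x (s 2) y (s 0)) (s 0) (s 3)) := by
      refine hDST.sz2 ?_
      rw [delE_adj, h.ax]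
      refine ⟨Or.inl rfl, fun e => ?_⟩
      rw [Sym2.eq_iff] at e
      rcases e with ⟨e, _⟩ | ⟨e, _⟩
      · exact a1 e.symm
      · exact b2 e
    refine h1.trans_le (hle ?_)
    exact (delE_le _ _ _).trans ((delE_le _ _ _).trans (delE_le _ _ _))
  have hKZ : KZ (SS G x y s) := (hIH _ hsz hC1 hNPS).2
  have h5 := h.dg3 hNo
  have hsub : (nbs G (s 3)).erase (s 0) ⊆ nbs (SS G x y s) (s 3) := by
    intro v hv
    rw [mem_erase, mem_nbs] at hv
    rw [mem_nbs]
    by_cases hvx : v = x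
    · rw [hvx]
      exact ((h.sx _).2 (Or.inl rfl)).symm
    · exact (h.sadjG b2.symm hvx a3.symm hv.1).2 hv.2
  have h6 : 4 ≤ (nbs (SS G x y s) (s 3)).card := by
    have h7 := card_le_card hsub
    have h8 := pred_card_le_card_erase (s := nbs G (s 3)) (a := s 0)
    omega
  have hS3 : S3S (delE (SS G x y s) x (s 3)) := by
    refine hT3S hC1 (p := s 1) (q := q) hq1.symm d2.symm d1.symm h.sx ?_ ?_
    · intro h7
      exact hn1 ((h.sadjG b4.symm b3.symm a5.symm a4.symm).1 h7)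
    · rw [T3SM.dg_eq]
      exact h6
  refine hTRI (a := s 0) (b := x) (c := s 3) (p := q) (q := s 1) ?_ h.a0 h.ax hKZ hS3 ?_
  · simp only [List.nodup_cons, List.mem_cons, List.not_mem_nil, or_false, not_or, List.nodup_nil,
      and_true, not_false_eq_true]
    exact ⟨⟨a1, a3, a4, a5⟩, ⟨b2, b3, b4⟩, ⟨d1, d2⟩, e1⟩
  · refine left_mem_VS (b := y) ?_
    show (delE (SS G x y s) x (s 3)).Adj (s 3) y
    rw [delE_adj]
    refine ⟨(h.sadjG b2.symm b1.symm a3.symm a2.symm).2 ((ht.ny _).2 ⟨3, rfl⟩).symm, fun e => ?_⟩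
    rw [Sym2.eq_iff] at e
    rcases e with ⟨e, _⟩ | ⟨_, e⟩
    · exact b2 e.symm
    · exact b1 e.symm

end DL
end
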