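import Pool.Agent.DL.E.Spec0
import Pool.Agent.DL.E.E5T

/-!
# MP_3ff0f8_gt, ALGEBRA HALF, EXIST section 1 (helper61): rigid vertices

Module `XXX` = file `DL/E/XXX.lean`, theorem `specXXX (hYYY : SpecYYY) … : SpecXXX`; the hypotheses may be any other Specs
named in the docstring (also of DL/EX, DL/K, DL/NP, DL/E/Spec0, SpecISO); own lemmas in the namespace `DL.XXXM`.
`u` is a rigid vertex of a 4-connected graph with `n ≥ 8` vertices, `J = del G {u}`, `W` = the neighbours of `u`, `d = |W| = dg G u`.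
For a neighbour `v` of `u` of degree 4 let `β v = W - N[v]`; it has at least `d - 4` elements.  CRL.rig: `dst G u P ∈ C1` if no `β v ⊆ P` (and three
outside neighbours); if `J` is nonplanar all `dst G u P` are nonplanar (NPC.mono, DST.dle).
-/

open SimpleGraph Finset

namespace DL

/-- what R1A supplies: rigid vertices of degree 4 which are no apices -/
def RNA : Prop := ∀ {α : Type} [Fintype α] [DecidableEq α] {G : SimpleGraph α} {u : α}, K48 G → NP G → IH G →
  u ∈ VS G → Rig G u → dg G u = 4 → NP (del G {u}) → OK G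

/-- **S1J** (from S3F; 60 lines).  `J` is in C1 (a separation `(S, A, B)` of `J` with `|S| = 3` gives `Sep G (insert u S) A B`; rigidity) and smaller. -/
def SpecS1J : Prop := ∀ {α : Type} [Fintype α] [DecidableEq α] {G : SimpleGraph α} {u : α}, K48 G → Rig G u →
  u ∈ VS G → C1 (del G {u}) ∧ 7 ≤ (VS (del G {u})).card ∧ sz (del G {u}) < sz G

/-- **S1P** (from NBF, KC, NPC, ISO; 120 lines).  `v` a neighbour of `u` with `N(v) ⊆ N[u]`, `J` nonplanar: `v` is rigid and no apex.  Let `(T, A, B)` be a separation, `|T| = 4`, `v ∈ T`, `|A|, |B| ≥ 2`.  `v` has neighbours in `A` and in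
`B` (KConn.exists_adj_of_sep); they are in `N[u]`, so `u ∉ A` and `u ∉ B` (no edges between `A` and `B`): `u ∈ T`, contradiction to `Rig G u`.  `(del G {u}).map (Equiv.swap u v) ≤ del G {v}`: an edge `xy` of `J`
without `v` is mapped to itself, an edge `vy` to `uy`, and `y ∈ N(v)`, `y ≠ u`, so `y ~ u`.  ISO.np, NPC.mono. -/
def SpecS1P : Prop := ∀ {α : Type} [Fintype α] [DecidableEq α] {G : SimpleGraph α} {u v : α}, K48 G → Rig G u →
  u ∈ VS G → NP (del G {u}) → G.Adj u v → (∀ w, G.Adj v w → w = u ∨ G.Adj u w) →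
  v ∈ VS G ∧ Rig G v ∧ NP (del G {v})

/-- **S1N** (from NCG, NCN, GMC, CRL, DL5, DST, S1J; 120 lines).  `J` planar.  NCG: `Gam G u w w' Z`; `w`, `w'` are not adjacent (NCN.nadj).  Choose `a, b, c ∈ W - {w, w'}`; DL5 with `r = w`, `s = w'`.  For nonempty `P ⊆ {a, b, c}` with at most two elements:
NP by GMC.dst; C1 by CRL.rig (outside neighbours `w`, `w'` and the third of `a, b, c`): let `v ~ u`, `dg G v = 4`.  If `w ≠ v` and `v ≁ w` take `w`, if `w' ≠ v` and `v ≁ w'` take `w'`.  Otherwise `v ~ w` and `v ~ w'` (`v = w` would give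
`w ~ w'`), `N(v) = {u, w, w', z}`: contradiction to GMC.deg.  `KZ (dst G u {b, c})` by IH. -/
def SpecS1N : Prop := ∀ {α : Type} [Fintype α] [DecidableEq α] {G : SimpleGraph α} {u : α}, K48 G → NP G → IH G →
  u ∈ VS G → Rig G u → 5 ≤ dg G u → ¬ NP (del G {u}) → OK G

/-- **S1G** (from CRL, DL5, DST, NPC, NBF; 250 lines).  `J` nonplanar, `d ≥ 6`.  It is enough to find three elements `a, b, c` of `W` such that no `β v` is contained in `{a, b}`, `{a, c}` or `{b, c}` (then CRL.rig, IH; DL5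
with two further elements `r`, `s` of `W` and a sixth one `t`).  `d ≥ 7`: `|β v| ≥ 3`, any `a, b, c`.  `d = 6`: `|β v| ≥ 2`, with equality only if `N(v) ⊆ N[u]`.  There is `v₀ ∈ W` which has not `N(v₀) ⊆ N[u]` (otherwise `NB G (W ∪ {u}) = ∅`
and `VS G ⊆ W ∪ {u}` has 7 elements, NBF.nb).  So there are at most 5 pairs (2-subsets of `W`) of the form `β v`.  A graph with at most 5 edges on 6 vertices has an independent triple: a vertex `x` of degree `≤ 1` (the sum of the degrees is `≤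
10 < 12`), four vertices not adjacent to `x`, two of them not adjacent (otherwise 6 edges). -/
def SpecS1G : Prop := ∀ {α : Type} [Fintype α] [DecidableEq α] {G : SimpleGraph α} {u : α}, K48 G → IH G →
  u ∈ VS G → Rig G u → 6 ≤ dg G u → NP (del G {u}) → OK G

/-- **S1F** (from CRL, DL5, DST, NPC; 300 lines).  `J` nonplanar, `d = 5`, every `β v` has at least two elements (hypothesis `hs`: no neighbour `v` of degree 4 with `N(v) ⊆ N[u]`).  Suppose `OK G` is false.  CLAIM: for every pair `r ≠ s` of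
nonadjacent elements of `W` there is `z ∈ W`, `dg G z = 4`, with `N(z) ∩ W = {r, s}`.  Let `{a, b, c} = W - {r, s}`; by DL5 (and CRL.rig, IH) some `β v` is contained in a pair `{x, y} ⊆ {a, b, c}`, so `β v = {x, y}`, and with `{x, y, z} = {a, b, c}` `N[v] ∩ W =
{z, r, s} ∋ v`; `v = r` or `v = s` would give `r ~ s`; so `v = z`.
If `W` is a clique we have the first alternative.  Otherwise let `r ≁ s`, `z₁` as in the claim, `W = {z₁, r, s, x, y}`.  The pair `{z₁, x}` gives `z'` with `N(z') ∩ W = {z₁, x}`, `z' ~ z₁`, so `z' ∈ {r, s}`; exchange `r` and `s` if necessary: `N(r) ∩ W = {z₁, x}`.  The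
pair `{z₁, y}` gives `N(s) ∩ W = {z₁, y}` (the vertex is `r` or `s`, and not `r` as `x ≠ y`).  The pair `{r, y}`: the vertex is a neighbour of `r`, `z₁` or `x`, not `z₁`: `N(x) ∩ W = {r, y}`.  The pair `{x, s}`: `N(y) ∩ W = {x, s}`.  `c := ![z₁, r, x, y, s]`; all have degree 4, `w i` := the
fourth neighbour of `c i`. -/
def SpecS1F : Prop := ∀ {α : Type} [Fintype α] [DecidableEq α] {G : SimpleGraph α} {u : α}, K48 G → IH G →
  u ∈ VS G → Rig G u → dg G u = 5 → NP (del G {u}) →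
  (∀ v, G.Adj u v → dg G v = 4 → ¬ ∀ w, G.Adj v w → w = u ∨ G.Adj u w) →
  OK G ∨ ∃ c : Fin 5 → α, Function.Injective c ∧ (∀ x, G.Adj u x ↔ ∃ i, x = c i) ∧
    ((∀ i j, i ≠ j → G.Adj (c i) (c j)) ∨
      ∃ w : Fin 5 → α, (∀ i, w i ≠ u ∧ ∀ j, w i ≠ c j) ∧
        ∀ i x, G.Adj (c i) x ↔ x = u ∨ x = c (i + 1) ∨ x = c (i - 1) ∨ x = w i)

/-- **S1C** (from S1J, CRL, DL5, DST, NBF, C1L, KSU, STA, LPE, CTZ, KUR, NPC; 350 lines).  `G[W]` is the 5-cycle `c 0, …, c 4`, all of degree 4.  `β (c i) = {c (i+2), c (i+3)}`.  DL5 with `(a, b, c) = (c 0, c 2, c 3)`, `(r, s) = (c 1, c 4)`, not adjacent; no `β` is contained in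
`{c 0, c 2}` or `{c 0, c 3}`: C1 by CRL.rig.  It remains `KZ A`, `A = dst G u {c 2, c 3}`; in `A` the neighbours of `u` are `c 0, c 1, c 4`.
(1) `w i ≠ w (i+1)`: otherwise `NB G {c i, c (i+1)} = {u, c (i-1), c (i+2), w i}`: NBF.rig, `n ≥ 8`.  (2) `J - c₀c₁` and `J - c₀c₄` are S3S: C1L (`J ∈ C1`, S1J): the neighbours `≠ c 1` of `c 0` in `J` are `c 4`, `w 0`, not adjacent as `w 0 ≠ w 4`; the neighbours `≠ c 0` of `c 1`
are `c 2`, `w 1`, not adjacent as `w 1 ≠ w 2`; similarly `c 0`: `c 1`, `w 0` and `c 4`: `c 3`, `w 4`.  (3) `J - {c 0, c 1, c 4}` is connected: otherwise NBF.one gives `z` with `N(z) = {u, c 0, c 1, c 4}`; `z ~ u`, so `z = c i`, but no `c i` is adjacent to `c 0, c 1, c 4`.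
(4) `KZ J` (IH).  `KZ (A - u c₀)`: `u` has there the nonadjacent neighbours `c 1`, `c 4`; KSU: `contr (A - uc₀) (c 1) u = J ⊔ {c₁c₄}`, in C1 (CRL.add), NP, smaller than `G`.
(5) `KZ (A - c₀c₁ - uc₄)`: `u` has there the neighbours `c 0`, `c 1`, not adjacent; `contr · (c 0) u = J`: KSU.  The same for `A - c₀c₄ - uc₁`.
(6) Let `λ ∈ Z1 (J - c₀ - c₁)`.  LPE.edge for `J` and `c₀c₁`: `y ∈ Z_2(J)` with row `λ`.  CTZ.up for `A' = A - c₀c₁ - uc₄` (`a = c 0`, `b = u`; NoCN): `z' ∈ Z_2(A')`, `z' e f = y (m e) (m f)` for `e, f ≠ uc₀`.  Row of `uc₁`: `λ (m f)`.  The boundary at `u` of the row `f` (`u ∉ f`) gives `z' (uc₀) f = z' (uc₁) f`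
for all `f`, so the row of `uc₀` is `λ`.  `z' ∈ Z_2(A)`, Kur by (5), KUR.mono.
(7) Let `z ∈ Z_2(A)`, `λ = z (uc₀) · ∈ Z1 (J - c₀)`.  `λ = λ₁ + λ₂`, `λ₁ ∈ Z1 (J - c₀ - c₁)`, `λ₂ ∈ Z1 (J - c₀ - c₄)`: otherwise a functional vanishes on both and not on `Z1 (J - c₀)`: STA for the graph `J - c₀` and `c 1`, `c 4` (not adjacent; (3)).  By (6) there are Kur cycles with these rows; `z +` their sum
is in `Z_2(A - uc₀)`: (4), KUR.add. -/
def SpecS1C : Prop := ∀ {α : Type} [Fintype α] [DecidableEq α] {G : SimpleGraph α} {u : α} (c w : Fin 5 → α), K48 G →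
  IH G → u ∈ VS G → Rig G u → NP (del G {u}) → Function.Injective c → (∀ x, G.Adj u x ↔ ∃ i, x = c i) →
  (∀ i, w i ≠ u ∧ ∀ j, w i ≠ c j) → (∀ i x, G.Adj (c i) x ↔ x = u ∨ x = c (i + 1) ∨ x = c (i - 1) ∨ x = w i) → OK G

/-- **SBD** (from KC; 120 lines).  Subdivision of an edge: `u` has exactly the neighbours `r`, `s`, adjacent, `del G {u}` is 3-connected: `G - rs` is S3S.  KConn 2: delete at most one vertex `x`: `x = u`: `J - rs` is connected (`J` is 2-connected: an edge does not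
disconnect; take `J - x` connected for two different `x`, or KC lemmas); `x ≠ u`: `J - x` is 2-connected, `J - x - rs` is connected, `u` is attached.  Third condition: `{p, q} = {r, s}`: `v = u`, `J - r - s` is connected.  `u ∈ {p, q}`, `q` the other: `J - q` is 2-connected, so `J - q - rs` is
connected.  Otherwise `J - p - q` is connected; if `p` or `q` is in `{r, s}` the edge `rs` does not matter and `u` is attached to the other one; if not, the edge `rs` is replaced by `r u s`.  A vertex with three neighbours: `r` has three neighbours in `J`, and `u` instead of `s`. -/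
def SpecSBD : Prop := ∀ {α : Type} [Fintype α] [DecidableEq α] {G : SimpleGraph α} {u r s : α},
  KConn 3 (del G {u}) → (∀ w, G.Adj u w ↔ w = r ∨ w = s) → G.Adj r s →
  S3S (delE G r s) ∧ VS (delE G r s) = VS G

/-- **S1K** (from CRL, DL3.two, LMB.b', SBD, KST, DST, GLU, NPC; 300 lines).  `W` is a clique.  No neighbour of `u` has degree 4, so (CRL.rig) `dst G u P ∈ C1` and nonplanar for all `P ⊆ W` with at most two elements, and `OK` by IH.  `KZ G`: KST.  `U G`: let `f` be `D_4`-even.  DL3.two (`a = c 0`, `b = c 1`): after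
subtraction `f = 0` on all cycles missing `uc₀` or `uc₁`.  LMB.b' for `G' = dst G u {c 2}`, `r = c 3`, `s = c 4` (`N1 = dst G u {c 0, c 2}`, `N2 = dst G u {c 1, c 2}`; SBD for `dst G u {c 0, c 1, c 2}`; `f = φ ∈ F(G')` on the cycles of `G'` by GLU.u): `f C = x_{uc₀} x_{uc₁} (w0 + Σ_{h ∈ C} w h + ε coh c₀ u c₃ c₄)` on the cycles of `G'`;
and for `dst G u {c 3}`, `r = c 2`, `s = c 4`: `f C = x_{uc₀} x_{uc₁} (w0' + Σ w' h + ε' coh c₀ u c₂ c₄)`.  The four cycles `u c₀ Q c₁ u`, `Q = c₀c₃c₁, c₀c₄c₁, c₀c₃c₄c₁, c₀c₄c₃c₁` are in both graphs; the sum of the four chains is `0`, so the second formula (no edge `c₂c₄`) gives `Σ f = 0`; in the first `coh c₀ u c₃ c₄` is `1`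
exactly for the last one: `Σ f = ε`.  So `ε = 0`.  A cycle with `uc₀` and `uc₁` is one of `G'`: `f = x_{uc₀} x_{uc₁} (w0 + Σ w h)` on all cycles. -/
def SpecS1K : Prop := ∀ {α : Type} [Fintype α] [DecidableEq α] {G : SimpleGraph α} {u : α} (c : Fin 5 → α), K48 G →
  IH G → u ∈ VS G → Rig G u → NP (del G {u}) → Function.Injective c → (∀ x, G.Adj u x ↔ ∃ i, x = c i) →
  (∀ i j, i ≠ j → G.Adj (c i) (c j)) → OK G

/-- **S1M** (from S1P, S1N, S1G, S1F, S1C, S1K; 60 lines).  Assembly.  `u` rigid: degree `≥ 4`; degree 4: apex or RNA.  Degree `≥ 5`: `J` planar: S1N; degree `≥ 6`: S1G; degree 5: if `v ~ u` has degree 4 and `N(v) ⊆ N[u]` then S1P and RNA for `v`; otherwise S1F, S1C, S1K. -/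
def SpecS1M : Prop := RNA → ∀ {α : Type} [Fintype α] [DecidableEq α] {G : SimpleGraph α}, K48 G → NP G → IH G →
  SH G ∨ OK G

end DL
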