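import Pool.Agent.DL.E.Spec2b

/-!
# MP_3ff0f8_gt, ALGEBRA HALF, EXIST section 2.3 (i) (helper25): `s₃` adjacent to `s₁`, `s₂`; `s₄` not adjacent to `s₁`, `s₂`

Module `XXX` = file `DL/E/XXX.lean`, theorem `specXXX (hYYY : SpecYYY) … : SpecXXX`; the hypotheses may be any other Specs named in the docstring (also of
DL/EX, DL/K, DL/NP, DL/G4, DL/E); own lemmas in the namespace `DL.XXXM`.
Setting: `K48 G`, `P33 G x y s₁ s₂ s₃ s₄`: `N(x) = {y, s₂, s₃, s₄}`, `N(y) = {x, s₁, s₃, s₄}`, `H = del G {x, y}`; `A24 = dst G s₃ {s₁, y}`, `A13 = dst G s₃ {s₂, x}`.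
SYMMETRY: `P33.sym1` (exchange `x, y` and `s₁, s₂`) exchanges `A24` and `A13`.  FEW = FRG.few (a nonempty set `D` of vertices whose neighbours are in a set with at most
three elements and with a further vertex outside does not exist).
-/

open SimpleGraph Finset

namespace DL

/-- the bad cut of `A24` (My); `MY G y x s₂ s₁ s₃ s₄` is the bad cut of `A13` (Mx) -/
def MY {α : Type} [Fintype α] [DecidableEq α] (G : SimpleGraph α) (x y s₁ s₂ s₃ s₄ : α) : Prop :=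
  ∃ (c d : α) (A B : Finset α), [s₃, x, c, d].Nodup ∧ Sep G {s₃, x, c, d} A B ∧ y ∈ A ∧ s₁ ∈ A ∧ s₄ ∈ A ∧ s₂ ∈ B ∧
    ∀ w ∈ A, G.Adj s₃ w → w = s₁ ∨ w = y

/-- **XF1** (from VKA, KUR, NPC, DST, PC; 200 lines).  Two disjoint paths.  `A2 = delE G s₁ s₃`, `z ∈ Z_2(A2)`, `vk r z ≠ 0`, `λ = z (ys₃) · ∈ Z1 (A2 - y - s₃)`.  In `A2 - y - s₃` `x` has the neighbours `s₂`, `s₄`.  If `λ (xs₂) = 1`: the cycles `x s₂ P s₄ x` and `y s₁ Q s₃ y` of `A2` are disjoint (`s(s₁, s₃)` is not on `P`, as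
`s₃ ∈ vs Q`; it is not on `Q`); add their torus (KUR.tor, VKA.tor; its row at `ys₃` is the chain of the first cycle).  Now `λ (xs₂) = 0` and by the boundary at `x` `λ (xs₄) = 0`: `λ ∈ Z1 (A2 - {x, y, s₃})`.  Add `tor (tri x y s₃) λ`: the row `ys₃` is `0`: NPC.del.  `dst G s₃ {s₁, y} = delE (delE G s₁ s₃) y s₃`. -/
def SpecXF1 : Prop := ∀ {α : Type} [Fintype α] [DecidableEq α] {G : SimpleGraph α} {x y s₁ s₂ s₃ s₄ : α}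
  {P Q : Finset (Sym2 α)}, P33 G x y s₁ s₂ s₃ s₄ → NP (delE G s₁ s₃) → IsPth (del G {x, y}) s₂ s₄ P →
  IsPth (delE (del G {x, y}) s₁ s₃) s₁ s₃ Q → Disjoint (vs P) (vs Q) → NP (dst G s₃ {s₁, y})

/-- **XF2** (from XF1, XCC, XCB, FRG, MENG, KC; 250 lines).  `A13` and `A24` are not both planar.  XCC.np: `delE G s₂ s₃`, `delE G s₁ s₃` (`P33.sym1`) are nonplanar.  Suppose both `A13` and `A24` are planar.  `H' := delE (delE (del G {x, y}) s₁ s₃) s₂ s₃`.  By XF1 (and XF1 for `P33.sym1`) there are no two disjoint paths of `H'` from `{s₁, s₂}` to `{s₃, s₄}`.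
Menger: there are `c` and a set `B` of vertices of `H` with `s₁, s₂, c ∉ B`, `s₃, s₄ ∈ B ∪ {c}`, all neighbours (in `H'`) of `B` in `B ∪ {c}`.  In `G`: the neighbours of `B - s₃ - s₄` are in `B ∪ {c}` (`x`, `y` are adjacent only to each other and to the `s_i`).  Case `c ∉ {s₃, s₄}`: `D = B - s₃ - s₄`, `NB G D ⊆ {s₃, s₄, c}`: `D = ∅` (FEW), `N(s₄) ⊆ {x, y, s₃, c}`,
`N(s₃) ⊆ {x, y, s₁, s₂, s₄, c}`, `NB G {x, y, s₃, s₄} ⊆ {s₁, s₂, c}`: FEW (`n ≥ 8`).  Case `c = s₄`: `NB G (B - s₃) ⊆ {s₃, s₄}`: `B = {s₃}`, `N(s₃) ⊆ {x, y, s₁, s₂, s₄}`: XCB.s3.  Case `c = s₃`: `NB G (B - s₄) ⊆ {s₃, s₄}`: `B = {s₄}`, `N(s₄) ⊆ {x, y, s₃}`: degree `≥ 4`. -/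
def SpecXF2 : Prop := ∀ {α : Type} [Fintype α] [DecidableEq α] {G : SimpleGraph α} {x y s₁ s₂ s₃ s₄ : α}, K48 G →
  NP G → P33 G x y s₁ s₂ s₃ s₄ → G.Adj s₁ s₃ → G.Adj s₂ s₃ → ¬ G.Adj s₁ s₄ → ¬ G.Adj s₂ s₄ →
  NP (dst G s₃ {s₁, y}) ∨ NP (dst G s₃ {s₂, x})

/-- **XF3** (from XF1, XCC, XCB, FRG, MENG, KC; 300 lines).  (Mx) implies that `A24` is nonplanar.  (Mx): `Sep G {s₃, y, c, d} A B`, `x, s₂, s₄ ∈ A`, `s₁ ∈ B`, every neighbour of `s₃` in `A` is `s₂` or `x`.  `P := A - x`, `Q := B ∪ {s₃}`.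
(1) `s₂`, `s₄` are connected in `G[P]`, or `s₂`, `s₄` are both adjacent to `c` and to `d`.  Let `K` be the component of `s₂` in `G[P]`, `s₄ ∉ K`.  `NB G (K - s₂) ⊆ {s₂, c, d}` (`s₃` has in `P` only the neighbour `s₂`, `x` only `s₂, s₄`, `y` only `s₄`): `K = {s₂}` (FEW), `N(s₂) ⊆ {x, s₃, c, d}`, equality by the degree.  Component `K'` of `s₄`: `NB G (K' - s₄) ⊆ {s₄, c, d}`: `K' =
{s₄}`, `N(s₄) ⊆ {x, y, c, d}`.  (2) `s₁`, `s₃` are connected in `G[Q]` without the edge `s₁s₃`, or `s₁` is adjacent to `c` and `d` and `s₃` is adjacent to `c` or `d`.  Component `K ∌ s₃` of `s₁`: `NB G (K - s₁) ⊆ {s₁, c, d}` (`y` has in `B` only the neighbour `s₁`, `s₃` has no neighbour in `K - s₁`, `x` has none in `B`): `K = {s₁}`, `N(s₁) = {y, s₃, c, d}`.  Component `K'' ∌ s₁` of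
`s₃`: `NB G (K'' - s₃) ⊆ {s₃, c, d}`: `K'' = {s₃}`; by XCB.s3 `s₃` has a neighbour `w ∉ {x, y, s₁, s₂, s₄}`, not in `A` and not in `B`: `w ∈ {c, d}`.  So there are disjoint paths from `s₂` to `s₄` (in `P`, or `s₂ c s₄`, or `s₂ d s₄`) and from `s₁` to `s₃` (in `Q`, or `s₁ c s₃`, or `s₁ d s₃`), the second without the edge `s₁s₃`: XF1 (`delE G s₁ s₃` is nonplanar: XCC.np for
`P33.sym1`). -/
def SpecXF3 : Prop := ∀ {α : Type} [Fintype α] [DecidableEq α] {G : SimpleGraph α} {x y s₁ s₂ s₃ s₄ : α}, K48 G →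
  NP G → P33 G x y s₁ s₂ s₃ s₄ → G.Adj s₁ s₃ → MY G y x s₂ s₁ s₃ s₄ → NP (dst G s₃ {s₁, y})

/-- outcome of two bad cuts with one common vertex `c`.  `D` = corner of `s₄` -/
structure XB1 {α : Type} [Fintype α] [DecidableEq α] (G : SimpleGraph α) (x y s₁ s₂ s₃ s₄ c d d' : α)
    (D : Finset α) : Prop where
  nd : [x, y, s₁, s₂, s₃, s₄, c, d, d'].Nodup
  n3 : ∀ w, G.Adj s₃ w ↔ w = x ∨ w = y ∨ w = s₁ ∨ w = s₂ ∨ w = c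
  n2 : ∀ w, G.Adj s₂ w ↔ w = x ∨ w = s₃ ∨ w = c ∨ w = d'
  n1 : ∀ w, G.Adj s₁ w ↔ w = y ∨ w = s₃ ∨ w = c ∨ w = d
  cD : CSet G D
  s4 : s₄ ∈ D
  dj : ∀ w ∈ ({x, y, s₁, s₂, s₃, c, d, d'} : Finset α), w ∉ D
  ex : ∃ v ∈ D, G.Adj d' v

/-- outcome of two equal bad cuts: 8 vertices -/
structure XB2 {α : Type} [Fintype α] [DecidableEq α] (G : SimpleGraph α) (x y s₁ s₂ s₃ s₄ c d : α) : Prop where
  nd : [x, y, s₁, s₂, s₃, s₄, c, d].Nodup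
  n1 : ∀ w, G.Adj s₁ w ↔ w = y ∨ w = s₃ ∨ w = c ∨ w = d
  n2 : ∀ w, G.Adj s₂ w ↔ w = x ∨ w = s₃ ∨ w = c ∨ w = d
  n4 : ∀ w, G.Adj s₄ w ↔ w = x ∨ w = y ∨ w = c ∨ w = d
  n3 : ∀ w, G.Adj s₃ w → w = x ∨ w = y ∨ w = s₁ ∨ w = s₂ ∨ w = c ∨ w = d

/-- **XF4** (from XCB, FRG, PLC, KC; 450 lines).  (Mx) and (My).  (Mx): `Sep G {s₃, y, c, d} A B`, `x, s₂, s₄ ∈ A`, `s₁ ∈ B`; put `P = A - x`, `Q = B ∪ {s₃}`, `T = {c, d}`.  (My): `Sep G {s₃, x, c', d'} A' B'`, `y, s₁, s₄ ∈ A'`, `s₂ ∈ B'`; `P' = A' - y`, `Q' = B' ∪ {s₃}`, `T' = {c', d'}`.  The vertices `≠ x, y` are `P ∪ T ∪ Q = P' ∪ T' ∪ Q'`; the only edge between `P` and `Q` is `s₂s₃`, the only edge between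
`P'` and `Q'` is `s₁s₃`.  `s₄ ∈ P ∩ P'`, `s₂ ∈ P ∩ Q'`, `s₁ ∈ Q ∩ P'`, `s₃ ∈ Q ∩ Q'`; `x` is adjacent to `y, s₂, s₃, s₄` only, `y` to `x, s₁, s₃, s₄` only.  Let `a₁ = |T ∩ P'|`, `a₂ = |T ∩ Q'|`, `b₁ = |T' ∩ P|`, `b₂ = |T' ∩ Q|`, `b = |T ∩ T'|`: `a₁ + a₂ + b = 2 = b₁ + b₂ + b`.  Neighbours of the corners: `P ∩ P'`: in `{x, y} ∪ (T ∩ P') ∪ (T' ∩ P) ∪ (T ∩ T')`, so `a₁ + b₁ + b ≥ 2` (`s₃` is outside and not
adjacent); `P ∩ Q'`: in `{x, s₃} ∪ (T ∩ Q') ∪ (T' ∩ P) ∪ (T ∩ T')`: `a₂ + b₁ + b ≥ 2` (`y` outside); `Q ∩ P'`: in `{y, s₃} ∪ (T ∩ P') ∪ (T' ∩ Q) ∪ (T ∩ T')`: `a₁ + b₂ + b ≥ 2` (`x` outside).  The sum of the last two is 4: both are `2`, so `b₁ = a₁`, `b₂ = a₂`, `2 a₁ + b ≥ 2`.  `NB G ((P ∩ Q') - s₂) ⊆ {s₂} ∪` (2 vertices): `P ∩ Q' = {s₂}` (FEW); `Q ∩ P' = {s₁}`; `NB G ((P ∩ P') - s₄) ⊆ {s₄} ∪` (`2 a₁ + b`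
vertices); `NB G ((Q ∩ Q') - s₃) ⊆ {s₃} ∪` (`2 a₂ + b` vertices).
(b = 2) `a₁ = a₂ = 0`: all corners are single: XB2 (`N(s₂) ⊆ {x, s₃, c, d}`, `N(s₁) ⊆ {y, s₃, c, d}`, `N(s₄) ⊆ {x, y, c, d}`, `N(s₃) ⊆ {x, y, s₁, s₂, c, d}`; degree `≥ 4` gives equality).
(b = 0, a₁ = 2) `a₂ = 0`: `Q ∩ Q' = {s₃}`, `N(s₃) ⊆ {x, y, s₁, s₂}`: XCB.s3.
(b = 0, a₁ = 1) all corners are single; names: `c ∈ P'`, `d ∈ Q'`, `c' ∈ P`, `d' ∈ Q`: `N(s₄) ⊆ {x, y, c, c'}`, `N(s₂) ⊆ {x, s₃, d, c'}`, `N(s₁) ⊆ {y, s₃, c, d'}`, `N(s₃) ⊆ {x, y, s₁, s₂, d, d'}`, `N(c) ⊆ {s₄, s₁, c', d'}`, `N(d) ⊆ {s₂, s₃, c', d'}`, `N(c') ⊆ {s₄, s₂, c, d}`, `N(d') ⊆ {s₁, s₃, c, d}`: `PLCM.plan10` (DL/BASE/PLC.lean): contradiction to `NP G`.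
(b = 1) `a₁ = 1`, `a₂ = 0`: `T = {c, d}`, `T' = {c, d'}` (names), `d ∈ P'`, `d' ∈ P`; `Q ∩ Q' = {s₃}`; `D := P ∩ P'`.  `N(s₃) ⊆ {x, y, s₁, s₂, c}` (equality: `x, y, s₁, s₂`, and `c` by XCB.s3), `N(s₂) ⊆ {x, s₃, d', c}`, `N(s₁) ⊆ {y, s₃, d, c}` (equality by the degree); `N(d') ⊆ D ∪ {s₂, c, d}` (`d' ∈ P`): `d'` has a neighbour in `D`.  `D` is connected: a component `K ∌ s₄` of `G[D]` has `NB G K ⊆ {c, d, d'}`: FEW. -/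
def SpecXF4 : Prop := ∀ {α : Type} [Fintype α] [DecidableEq α] {G : SimpleGraph α} {x y s₁ s₂ s₃ s₄ : α}, K48 G →
  NP G → P33 G x y s₁ s₂ s₃ s₄ → G.Adj s₁ s₃ → G.Adj s₂ s₃ → ¬ G.Adj s₁ s₄ → ¬ G.Adj s₂ s₄ →
  MY G x y s₁ s₂ s₃ s₄ → MY G y x s₂ s₁ s₃ s₄ →
  (∃ c d d' D, XB1 G x y s₁ s₂ s₃ s₄ c d d' D) ∨ ∃ c d, XB2 G x y s₁ s₂ s₃ s₄ c d

/-- **XF5** (from FRG, KC; 250 lines).  `x` is rigid.  Otherwise (FRG.nrig, FRG.sep) there is a 4-separation `(T', X', Y')`, `x ∈ T'`, `|X'|, |Y'| ≥ 2`, every vertex of `T'` has neighbours in `X'` and in `Y'`.  (I) `y ∈ T' = {x, y, p, q}`.  `X'` contains at least two of the `s_i`: otherwise `NB G (X' - s_i) ⊆ {s_i, p, q}`, `X' = {s_i}` (FEW); the same for `Y'`; so `T'` contains none of the `s_i`; `s₃ ∈ X'`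
(say) is adjacent to `s₁`, `s₂`: both are in `X'`: contradiction.  (II) `y ∉ T'`, `y ∈ X'` (names).  `s₃, s₄ ∉ Y'` (adjacent to `y`), so `x` has in `Y'` only the neighbour `s₂`; `s₃ ~ y, s₂`: `s₃ ∈ T'`.  `NB G (Y' - s₂) ⊆ (T' - x) ∪ {s₂}`, a set of 4 vertices, `Y' - s₂ ≠ ∅`: by FEW every one of them is a neighbour of `Y' - s₂`; so `s₃` has a neighbour `v ∈ Y' - s₂`; `v ≠ s₁` (`s₁ ~ y`, so `s₁ ∉
Y'`), so `v = c` (`b1`), `v ∈ {c, d}` (`b2`).  `s₁ ~ y, v`: `s₁ ∈ T'`.  `b1`: `T' = {x, s₃, s₁, q}`; `NB G (X' - y - s₄) ⊆ {s₄, s₁, q}` (`x`, `y`, `s₃` have no neighbours there): `X' ⊆ {y, s₄}` (FEW), so `X' = {y, s₄}` and `N(s₄) ⊆ {x, y, q}`: degree `≥ 4`.  `b2`: also `s₄ ~ y, v`: `s₄ ∈ T' = {x, s₃, s₁, s₄}`; `NB G (X' - y) ⊆ {s₃, s₁, s₄}`: `X' = {y}`: contradiction. -/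
structure SpecXF5 : Prop where
  b1 : ∀ {α : Type} [Fintype α] [DecidableEq α] {G : SimpleGraph α} {x y s₁ s₂ s₃ s₄ c d d' : α} {D : Finset α},
    K48 G → P33 G x y s₁ s₂ s₃ s₄ → ¬ G.Adj s₁ s₄ → XB1 G x y s₁ s₂ s₃ s₄ c d d' D → Rig G x
  b2 : ∀ {α : Type} [Fintype α] [DecidableEq α] {G : SimpleGraph α} {x y s₁ s₂ s₃ s₄ c d : α},
    K48 G → P33 G x y s₁ s₂ s₃ s₄ → G.Adj s₁ s₃ → G.Adj s₂ s₃ → XB2 G x y s₁ s₂ s₃ s₄ c d → Rig G x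

/-- **XF6** (from NPM; 80 lines).  `b2`: `G - x` is nonplanar: `K_{3,3}` model `{s₁}, {s₂, s₃}, {s₄}` and `{c}, {d}, {y}` in `del G {x}` (`s₂ ~ s₃`, `s₂ ~ c, d`, `s₃ ~ y`). -/
def SpecXF6 : Prop := ∀ {α : Type} [Fintype α] [DecidableEq α] {G : SimpleGraph α} {x y s₁ s₂ s₃ s₄ c d : α},
  P33 G x y s₁ s₂ s₃ s₄ → G.Adj s₂ s₃ → XB2 G x y s₁ s₂ s₃ s₄ c d → NP (del G {x})

/-- **XF7** (from NCG, NCN, GMC, MNZ, PC; 250 lines).  `b1`, `x` rigid: `G - x` is nonplanar.  Otherwise NCG gives `Gam G x w w' Z`, `w, w' ∈ {y, s₂, s₃, s₄}`, not adjacent (NCN.nadj), so `{w, w'}` is `{s₃, s₄}`, `{y, s₂}` or `{s₂, s₄}` (`Gam` is symmetric in `w`, `w'`).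
`{s₃, s₄}`: GMC.deg with `v = y`, `z = s₁`.  In the other cases use NCN.lin: if `Gam Z` then for a cycle `Z'` of `G - {x, w, w'}` `Gam Z'` or `Gam (Z + Z')`.
`{y, s₂}`: `s₃` has in `G - {x, y, s₂}` the neighbours `s₁, c`.  If `Z (s₃c) = 0` then `Z` has no edge at `s₃` (boundary at `s₃`): GMC.cyc with the 4-cycle `x y s₃ s₂`.  Otherwise `Z' = tri s₃ s₁ c` (`s₁ ~ c`): `Gam (Z + Z')` is impossible in the same way; `Gam (tri s₃ s₁ c)`: NCN.sep with the path `y s₄ … d' s₂` (through `D`).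
`{s₂, s₄}`: in `G - {x, s₂, s₄}` `y` has the neighbours `s₁, s₃` and `s₃` the neighbours `y, s₁, c`.  With `tri y s₁ s₃` (if `Z (ys₁) = 1`) and then `tri s₃ s₁ c` (if now `Z (s₃c) = 1`) one gets: `Gam (tri y s₁ s₃)`, or `Gam (tri s₃ s₁ c)`, or `Gam ν` with `ν` without edges at `y` and `s₃`.  The last: GMC.cyc with the 5-cycle `x s₂ s₃ y s₄`.  The first two: NCN.sep with the path `s₂ d' … s₄` (through `D`, without `c`). -/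
def SpecXF7 : Prop := ∀ {α : Type} [Fintype α] [DecidableEq α] {G : SimpleGraph α} {x y s₁ s₂ s₃ s₄ c d d' : α}
  {D : Finset α}, K48 G → NP G → P33 G x y s₁ s₂ s₃ s₄ → XB1 G x y s₁ s₂ s₃ s₄ c d d' D → Rig G x →
  NP (del G {x})

/-! **XI3** (`SpecXI3` in `DL/E/Spec2b.lean`; file `DL/E/XI3.lean`; from XA3, XF2, XF3, XF4, XF5, XF6, XF7, XCC; 60 lines).  `H4 G x y s₁ s₄` and `H4 G y x s₂ s₄` are clear (`s₄ ≁ s₁, s₂`).  XA3.y2 (its second alternative needs `s₁ ~ s₄`): `A24 ∈ C1` or (My) = `MY G x y s₁ s₂ s₃ s₄`; for `T3.sym1`: `A13 ∈ C1` or (Mx) = `MY G y x s₂ s₁ s₃ s₄`.  Suppose the conclusion is false.  `A24`,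
`A13` both planar: XF2.  `A24` planar and (Mx): XF3.  `A13` planar and (My): XF3 for `P33.sym1`.  So (Mx) and (My): XF4; `x` is rigid (XF5) and `G - x` nonplanar (XF6, XF7): contradiction to `SH.rig`. -/

end DL
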