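import Pool.Agent.DL.E.Spec2c
import Pool.Agent.DL.E.Spec2d
import Pool.Agent.DL.E.Spec1

/-!
# MP_3ff0f8_gt, ALGEBRA HALF, EXIST section 2 without `SH` (helper61): all (3,3)-pairs are treated BEFORE the rigid vertices

Dispatch: a (3,3)-pair: X33R; no (3,3)-pair: S1MR (rigid vertices of degree 4 lie in no (3,3)-pair, `RNA0`), so `SH G`; then `P34`, `P44`, twins, SX6.
`R3A`, `R3B` (helper15, `DL/Y/SpecN.lean`): R1A at the rigid nonapex vertex `x` of the (3,3)-pair, with LEMMA N for the partner `s₂`.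
-/

open SimpleGraph Finset

namespace DL

/-- **R3A** (helper15).  `s₁, s₂` not adjacent to `s₃, s₄`; `M = contr (contr G x s₂) y s₁` is not in C1 (bad cut) or planar; `x`, `y` rigid, `G - x` nonplanar. -/
def SpecR3A : Prop := ∀ {α : Type} [Fintype α] [DecidableEq α] {G : SimpleGraph α} {x y s₁ s₂ s₃ s₄ : α}, K48 G →
  NP G → IH G → P33 G x y s₁ s₂ s₃ s₄ → E4 G s₁ s₂ s₃ s₄ → Rig G x → Rig G y → NP (del G {x}) →
  ((∃ t A B, BCut G x y s₁ s₂ s₃ s₄ t A B) ∨ ¬ NP (contr (contr G x s₂) y s₁)) → OK G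

/-- **R3B** (helper15).  `s₃ ~ s₁, s₂`, `s₄ ≁ s₁, s₂`, the two configurations of XF4; `x` rigid, `G - x` nonplanar. -/
def SpecR3B : Prop := ∀ {α : Type} [Fintype α] [DecidableEq α] {G : SimpleGraph α} {x y s₁ s₂ s₃ s₄ : α},
  T3 G x y s₁ s₂ s₃ s₄ → NP G → IH G → ¬ G.Adj s₁ s₄ → ¬ G.Adj s₂ s₄ → Rig G x → NP (del G {x}) →
  ((∃ c d d' D, XB1 G x y s₁ s₂ s₃ s₄ c d d' D) ∨ ∃ c d, XB2 G x y s₁ s₂ s₃ s₄ c d) → OK G

/-- **XI3R** (from XA3, XF2, XF3, XF4, XF5, XF6, XF7): XI3 without `SH` -/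
def SpecXI3R : Prop := ∀ {α : Type} [Fintype α] [DecidableEq α] {G : SimpleGraph α} {x y s₁ s₂ s₃ s₄ : α},
  T3 G x y s₁ s₂ s₃ s₄ → NP G → ¬ G.Adj s₁ s₄ → ¬ G.Adj s₂ s₄ →
  (C1 (dst G s₃ {s₁, y}) ∧ NP (dst G s₃ {s₁, y})) ∨ (C1 (dst G s₃ {s₂, x}) ∧ NP (dst G s₃ {s₂, x})) ∨
  (Rig G x ∧ NP (del G {x}) ∧
    ((∃ c d d' D, XB1 G x y s₁ s₂ s₃ s₄ c d d' D) ∨ ∃ c d, XB2 G x y s₁ s₂ s₃ s₄ c d))

/-- **XZ3R** (from XI1, XI3R, X35, XCB, DST, R3B): XZ3 without `SH` -/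
def SpecXZ3R : Prop := ∀ {α : Type} [Fintype α] [DecidableEq α] {G : SimpleGraph α} {x y s₁ s₂ s₃ s₄ : α},
  T3 G x y s₁ s₂ s₃ s₄ → NP G → IH G → OK G

/-- **XQ1R** (from XU1, XK1, C20, F1N, DST): case 2.1 if `KZ M` -/
def SpecXQ1R : Prop := ∀ {α : Type} [Fintype α] [DecidableEq α] {G : SimpleGraph α} {x y s₁ s₂ s₃ s₄ : α}, K48 G →
  NP G → IH G → P33 G x y s₁ s₂ s₃ s₄ → E4 G s₁ s₂ s₃ s₄ → KZ (contr (contr G x s₂) y s₁) → OK G

/-- **X33R** (from MCT, MC1, XMA, XMB, FRG, XM3, MNP, XQ1R, XQ2, XZ3R, R3A, DST, C20): all (3,3)-pairs -/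
def SpecX33R : Prop := ∀ {α : Type} [Fintype α] [DecidableEq α] {G : SimpleGraph α} {x y s₁ s₂ s₃ s₄ : α}, K48 G →
  NP G → IH G → P33 G x y s₁ s₂ s₃ s₄ → OK G

/-- all (3,3)-pairs satisfy E4 -/
def A33 {α : Type} [Fintype α] [DecidableEq α] (G : SimpleGraph α) : Prop :=
  ∀ x y s₁ s₂ s₃ s₄, P33 G x y s₁ s₂ s₃ s₄ → E4 G s₁ s₂ s₃ s₄

/-- **X33E** (from XQ2, XZ3R): the (3,3)-pairs which do not satisfy E4 (helper92's dispatch: `R3A` is not needed) -/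
def SpecX33E : Prop := ∀ {α : Type} [Fintype α] [DecidableEq α] {G : SimpleGraph α} {x y s₁ s₂ s₃ s₄ : α}, K48 G →
  NP G → IH G → P33 G x y s₁ s₂ s₃ s₄ → ¬ E4 G s₁ s₂ s₃ s₄ → OK G

/-- what R1A and YR supply if all (3,3)-pairs satisfy E4: rigid vertices of degree 4 which are no apices -/
def RNAE : Prop := ∀ {α : Type} [Fintype α] [DecidableEq α] {G : SimpleGraph α} {u : α}, K48 G → NP G → IH G →
  A33 G → u ∈ VS G → Rig G u → dg G u = 4 → NP (del G {u}) → OK G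

/-- **S1ME** (from S1P, S1N, S1G, S1F, S1C, S1K): S1M for graphs whose (3,3)-pairs satisfy E4 -/
def SpecS1ME : Prop := RNAE → ∀ {α : Type} [Fintype α] [DecidableEq α] {G : SimpleGraph α}, K48 G → NP G → IH G →
  A33 G → SH G ∨ OK G

/-- what R1A supplies if there is no (3,3)-pair: rigid vertices of degree 4 which are no apices -/
def RNA0 : Prop := ∀ {α : Type} [Fintype α] [DecidableEq α] {G : SimpleGraph α} {u : α}, K48 G → NP G → IH G →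
  No33 G → u ∈ VS G → Rig G u → dg G u = 4 → NP (del G {u}) → OK G

/-- **S1MR** (from S1P, S1N, S1G, S1F, S1C, S1K): S1M for graphs without (3,3)-pairs -/
def SpecS1MR : Prop := RNA0 → ∀ {α : Type} [Fintype α] [DecidableEq α] {G : SimpleGraph α}, K48 G → NP G → IH G →
  No33 G → SH G ∨ OK G

end DL
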