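import Pool.Agent.DL.E.Spec1
import Pool.Agent.DL.E.Spec5
import Pool.Agent.DL.G4.Spec2
import Pool.Agent.DL.E.Spec2e

section
/-!
# MP_3ff0f8_gt, ALGEBRA HALF: assembly of Theorem C (helper25)

`OK G` for all nonplanar graphs of class `C1`, induction on `sz G`: base (`n ≤ 7`), Step Y (a cubic vertex), and 4-connected graphs: rigid vertices (EXIST section 1,
R1A), (3,3)-, (3,4)-, (4,4)-pairs, twins, no fragment with two vertices.
-/
open SimpleGraph Finset

namespace DL

/-- base -/
def TopBase : Prop := ∀ {α : Type} [Fintype α] [DecidableEq α] {G : SimpleGraph α}, C1 G → NP G →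
  (VS G).card ≤ 7 → OK G

/-- a property of graphs (for example `TP`, the third statement of the induction) -/
abbrev GProp : Type 1 := (α : Type) → [Fintype α] → [DecidableEq α] → SimpleGraph α → Prop

/-- induction hypothesis for an additional property `Q` -/
def IHQ (Q : GProp) {α : Type} [Fintype α] [DecidableEq α] (G : SimpleGraph α) : Prop :=
  ∀ H : SimpleGraph α, sz H < sz G → C1 H → NP H → Q α H

/-- Step Y: a cubic vertex.  `Q`: additional property of all smaller graphs (`TP` for all triangles), `fun _ _ _ _ => True` if not needed -/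
def TopCubic (Q : GProp) : Prop := ∀ {α : Type} [Fintype α] [DecidableEq α] {G : SimpleGraph α}, C1 G → NP G → IH G →
  IHQ Q G → 8 ≤ (VS G).card → (∃ v ∈ VS G, dg G v = 3) → OK G

/-- the additional property (Lemma T): from the induction hypothesis, `OK G` may be used -/
def TopTP (Q : GProp) : Prop := ∀ {α : Type} [Fintype α] [DecidableEq α] {G : SimpleGraph α}, C1 G → NP G → IH G →
  IHQ Q G → OK G → Q α G

/-- rigid vertices (S1M with RNA) -/
def TopRigid (Q : GProp) : Prop := ∀ {α : Type} [Fintype α] [DecidableEq α] {G : SimpleGraph α}, K48 G → NP G →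
  IH G → IHQ Q G → SH G ∨ OK G

/-- EXIST section 2 -/
def Top33 : Prop := ∀ {α : Type} [Fintype α] [DecidableEq α] {G : SimpleGraph α} {x y s₁ s₂ s₃ s₄ : α},
  SH G → P33 G x y s₁ s₂ s₃ s₄ → OK G

/-- a graph of class `C1` without cubic vertices is 4-connected -/
theorem C1.kconn4 {α : Type} [Fintype α] [DecidableEq α] {G : SimpleGraph α} (h : C1 G)
    (hn : 5 ≤ (VS G).card) (h3 : ¬ ∃ v ∈ VS G, dg G v = 3) : KConn 4 G := by
  classical
  refine kconn_iff_sep.2 ⟨by omega, fun S P Q hs hS => ?_⟩
  by_contra hc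
  rw [not_or, ← ne_eq, ← ne_eq, ← nonempty_iff_ne_empty, ← nonempty_iff_ne_empty] at hc
  have hS3 : S.card = 3 := le_antisymm (by omega) (h.1.le_of_sep hs hc.1 hc.2)
  -- a side with one vertex is a cubic vertex
  have key : ∀ P Q : Finset α, Sep G S P Q → P.Nonempty → P.card ≤ 1 → False := by
    intro P Q hs hP hP1
    obtain ⟨v, rfl⟩ := card_eq_one.1 (le_antisymm hP1 hP.card_pos)
    have hv : v ∈ VS G := hs.subP (mem_singleton_self v)
    have hsub : NB G {v} ⊆ S := by
      intro w hw
      simp only [NB, mem_filter, mem_univ, true_and, mem_singleton] at hw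
      obtain ⟨hwv, a, rfl, haw⟩ := hw
      rcases hs.mem_or (right_mem_VS haw) with h1 | h1 | h1
      · exact h1
      · exact absurd (mem_singleton.1 h1) hwv
      · exact absurd haw (hs.2.2.2.2 _ (mem_singleton_self _) w h1)
    have hle : dg G v ≤ 3 := (card_le_card hsub).trans hS3.le
    have hge : 3 ≤ dg G v := by
      have hnb : NB G {v} = nbs G v := by
        ext w
        simp only [NB, mem_filter, mem_univ, true_and, mem_singleton, mem_nbs]
        constructor
        · rintro ⟨_, a, rfl, haw⟩; exact haw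
        · intro hvw; exact ⟨hvw.ne', v, rfl, hvw⟩
      unfold dg
      rw [hnb]
      exact h.1.le_nbs hv
    exact h3 ⟨v, hv, le_antisymm hle hge⟩
  rcases h.2 S P Q hs hS3 with h1 | h1
  · exact key P Q hs hc.1 h1
  · exact key Q P hs.symm hc.2 h1

/-- **assembly** -/
theorem top_ok (Q : GProp) (hB : TopBase) (hY : TopCubic Q) (hT : TopTP Q) (hR : TopRigid Q) (h33 : Top33)
    (h34 : SpecE34) (h44 : SpecE44) (hTW : SpecE5Z) (h6 : SpecSX6) {α : Type} [Fintype α] [DecidableEq α] :
    ∀ (n : ℕ) (G : SimpleGraph α), sz G = n → C1 G → NP G → OK G ∧ Q α G := by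
  intro n
  induction n using Nat.strong_induction_on with
  | _ n ih =>
    intro G hn hC hN
    have hIH : IH G := fun H hH hCH hNH => (ih (sz H) (by omega) H rfl hCH hNH).1
    have hIQ : IHQ Q G := fun H hH hCH hNH => (ih (sz H) (by omega) H rfl hCH hNH).2
    suffices h : OK G from ⟨h, hT hC hN hIH hIQ h⟩
    by_cases h7 : (VS G).card ≤ 7
    · exact hB hC hN h7
    by_cases h3 : ∃ v ∈ VS G, dg G v = 3
    · exact hY hC hN hIH hIQ (by omega) h3
    have hK : K48 G := ⟨hC.kconn4 (by omega) h3, by omega⟩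
    rcases hR hK hN hIH hIQ with hSH | hOK
    swap
    · exact hOK
    by_cases a33 : No33 G
    swap
    · simp only [No33, not_forall, not_not] at a33
      obtain ⟨x, y, s₁, s₂, s₃, s₄, hp⟩ := a33
      exact h33 hSH hp
    by_cases a34 : No34 G
    swap
    · simp only [No34, not_forall, not_not] at a34
      obtain ⟨x, y, s₁, s₂, s₃, s₄, hp⟩ := a34
      exact h34 hSH a33 hp
    by_cases a44 : No44 G
    swap
    · simp only [No44, not_forall, not_not] at a44
      obtain ⟨x, y, s, hp⟩ := a44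
      exact h44 hSH hp
    by_cases aTW : NoTW G
    swap
    · simp only [NoTW, not_forall, not_not] at aTW
      obtain ⟨x, y, s, hp⟩ := aTW
      exact hTW hSH a33 a34 a44 hp
    exact h6 hSH a33 a34 a44 aTW

/-- **THEOREM C** -/
theorem theoremC_of (Q : GProp) (hB : TopBase) (hY : TopCubic Q) (hT : TopTP Q) (hR : TopRigid Q) (h33 : Top33)
    (h34 : SpecE34) (h44 : SpecE44) (hTW : SpecE5Z) (h6 : SpecSX6) : TheoremC := fun _ G hI hN =>
  (top_ok Q hB hY hT hR h33 h34 h44 hTW h6 _ G rfl ⟨hI.1, hI.2.1⟩ hN).1.1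

/-- the nonapex rigid vertices of degree 4 with an additional property -/
def RNAQ (Q : GProp) : Prop := ∀ {α : Type} [Fintype α] [DecidableEq α] {G : SimpleGraph α}, K48 G → NP G →
  IH G → IHQ Q G → ∀ u ∈ VS G, Rig G u → dg G u = 4 → NP (del G {u}) → OK G

end DL
end

section
/-!
# MP_3ff0f8_gt, ALGEBRA HALF: assembly of Theorem C, dispatch with the (3,3)-pairs BEFORE the rigid vertices (helper61, from helper25's `Top.lean`)
-/
open SimpleGraph Finset

namespace DL

/-- Step Y: a cubic vertex -/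
def TopY : Prop := ∀ {α : Type} [Fintype α] [DecidableEq α] {G : SimpleGraph α}, C1 G → NP G → IH G →
  8 ≤ (VS G).card → (∃ v ∈ VS G, dg G v = 3) → OK G

/-- **assembly**, without additional property -/
theorem top_okR (hB : TopBase) (hY : TopY) (h33 : SpecX33R) (hS : SpecS1MR) (hR : RNA0) (h34 : SpecE34)
    (h44 : SpecE44) (hTW : SpecE5Z) (h6 : SpecSX6) {α : Type} [Fintype α] [DecidableEq α] :
    ∀ (n : ℕ) (G : SimpleGraph α), sz G = n → C1 G → NP G → OK G := by
  intro n
  induction n using Nat.strong_induction_on with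
  | _ n ih =>
    intro G hn hC hN
    have hIH : IH G := fun H hH hCH hNH => ih (sz H) (by omega) H rfl hCH hNH
    by_cases h7 : (VS G).card ≤ 7
    · exact hB hC hN h7
    by_cases h3 : ∃ v ∈ VS G, dg G v = 3
    · exact hY hC hN hIH (by omega) h3
    have hK : K48 G := ⟨hC.kconn4 (by omega) h3, by omega⟩
    by_cases a33 : No33 G
    swap
    · simp only [No33, not_forall, not_not] at a33
      obtain ⟨x, y, s₁, s₂, s₃, s₄, hp⟩ := a33
      exact h33 hK hN hIH hp
    rcases hS hR hK hN hIH a33 with hSH | hOK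
    swap
    · exact hOK
    by_cases a34 : No34 G
    swap
    · simp only [No34, not_forall, not_not] at a34
      obtain ⟨x, y, s₁, s₂, s₃, s₄, hp⟩ := a34
      exact h34 hSH a33 hp
    by_cases a44 : No44 G
    swap
    · simp only [No44, not_forall, not_not] at a44
      obtain ⟨x, y, s, hp⟩ := a44
      exact h44 hSH hp
    by_cases aTW : NoTW G
    swap
    · simp only [NoTW, not_forall, not_not] at aTW
      obtain ⟨x, y, s, hp⟩ := aTW
      exact hTW hSH a33 a34 a44 hp
    exact h6 hSH a33 a34 a44 aTW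

/-- **THEOREM C** -/
theorem theoremC_ofR (hB : TopBase) (hY : TopY) (h33 : SpecX33R) (hS : SpecS1MR) (hR : RNA0) (h34 : SpecE34)
    (h44 : SpecE44) (hTW : SpecE5Z) (h6 : SpecSX6) : TheoremC := fun _ G hI hN =>
  (top_okR hB hY h33 hS hR h34 h44 hTW h6 _ G rfl ⟨hI.1, hI.2.1⟩ hN).1

/-- **assembly**, helper92's dispatch: cubic vertex; a (3,3)-pair without E4; rigid vertices; (3,3)-pairs with E4; (3,4); (4,4); twins; SX6 -/
theorem top_okE (hB : TopBase) (hY : TopY) (h33 : SpecX33E) (hS : SpecS1ME) (hR : RNAE) (hQ : SpecXQ1)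
    (h34 : SpecE34) (h44 : SpecE44) (hTW : SpecE5Z) (h6 : SpecSX6) {α : Type} [Fintype α] [DecidableEq α] :
    ∀ (n : ℕ) (G : SimpleGraph α), sz G = n → C1 G → NP G → OK G := by
  intro n
  induction n using Nat.strong_induction_on with
  | _ n ih =>
    intro G hn hC hN
    have hIH : IH G := fun H hH hCH hNH => ih (sz H) (by omega) H rfl hCH hNH
    by_cases h7 : (VS G).card ≤ 7
    · exact hB hC hN h7
    by_cases h3 : ∃ v ∈ VS G, dg G v = 3
    · exact hY hC hN hIH (by omega) h3
    have hK : K48 G := ⟨hC.kconn4 (by omega) h3, by omega⟩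
    by_cases a : A33 G
    swap
    · simp only [A33, not_forall] at a
      obtain ⟨x, y, s₁, s₂, s₃, s₄, hp, he⟩ := a
      exact h33 hK hN hIH hp he
    rcases hS hR hK hN hIH a with hSH | hOK
    swap
    · exact hOK
    by_cases a33 : No33 G
    swap
    · simp only [No33, not_forall, not_not] at a33
      obtain ⟨x, y, s₁, s₂, s₃, s₄, hp⟩ := a33
      exact hQ hSH hp (a _ _ _ _ _ _ hp)
    by_cases a34 : No34 G
    swap
    · simp only [No34, not_forall, not_not] at a34
      obtain ⟨x, y, s₁, s₂, s₃, s₄, hp⟩ := a34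
      exact h34 hSH a33 hp
    by_cases a44 : No44 G
    swap
    · simp only [No44, not_forall, not_not] at a44
      obtain ⟨x, y, s, hp⟩ := a44
      exact h44 hSH hp
    by_cases aTW : NoTW G
    swap
    · simp only [NoTW, not_forall, not_not] at aTW
      obtain ⟨x, y, s, hp⟩ := aTW
      exact hTW hSH a33 a34 a44 hp
    exact h6 hSH a33 a34 a44 aTW

/-- **THEOREM C**, helper92's dispatch -/
theorem theoremC_ofE (hB : TopBase) (hY : TopY) (h33 : SpecX33E) (hS : SpecS1ME) (hR : RNAE) (hQ : SpecXQ1)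
    (h34 : SpecE34) (h44 : SpecE44) (hTW : SpecE5Z) (h6 : SpecSX6) : TheoremC := fun _ G hI hN =>
  (top_okE hB hY h33 hS hR hQ h34 h44 hTW h6 _ G rfl ⟨hI.1, hI.2.1⟩ hN).1

end DL
end
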