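import Pool.Agent.DL.E.Spec0
import Pool.Agent.DL.K.KY3
import Pool.Agent.DL.E.Spec5
import Pool.Agent.DL.TREE

section
/-!
MP_3ff0f8_gt, ALGEBRA HALF, E block section 0, module CRL (helper20): connectivity of `dst G u P`
-/
open SimpleGraph Finset

namespace DL

namespace CRLM

variable {α : Type} [Fintype α] [DecidableEq α]

/-- a vertex of `del D {u}` outside `S`: connections avoid `u` -/
theorem reachJ {D : SimpleGraph α} {u : α} {S : Finset α} (hJ : ConnOff (del D {u}) S) {a b : α}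
    (ha : a ∈ VS (del D {u})) (hb : b ∈ VS (del D {u})) (haS : a ∉ S) (hbS : b ∉ S) :
    (del D S).Reachable a b := by
  refine (hJ a ha b hb haS hbS).mono ?_
  intro p q h
  exact ⟨h.1.1, h.2.1, h.2.2⟩

theorem connA {D : SimpleGraph α} {u : α} {S : Finset α} (hJ : ConnOff (del D {u}) S)
    (hV : ∀ v ∈ VS D, v ≠ u → v ∈ VS (del D {u})) (hu : u ∉ S)
    (hw : ∃ w, D.Adj u w ∧ w ∉ S) : ConnOff D S := by
  obtain ⟨w, hw1, hw2⟩ := hw
  have hwV : w ∈ VS (del D {u}) := hV w (right_mem_VS hw1) hw1.ne.symm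
  have key : ∀ a ∈ VS D, a ∉ S → (del D S).Reachable a w := by
    intro a ha haS
    by_cases hau : a = u
    · subst hau
      exact SimpleGraph.Adj.reachable (show (del D S).Adj a w from ⟨hw1, haS, hw2⟩)
    · exact reachJ hJ (hV a ha hau) hwV haS hw2
  intro a ha b hb haS hbS
  exact (key a ha haS).trans (key b hb hbS).symm

theorem connB {D : SimpleGraph α} {u : α} {S : Finset α} (hJ : ConnOff (del D {u}) (S.erase u))
    (hV : ∀ v ∈ VS D, v ≠ u → v ∈ VS (del D {u})) (hu : u ∈ S) : ConnOff D S := by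
  intro a ha b hb haS hbS
  have hau : a ≠ u := fun h => haS (h ▸ hu)
  have hbu : b ≠ u := fun h => hbS (h ▸ hu)
  refine (hJ a (hV a ha hau) b (hV b hb hbu) (fun h => haS (mem_of_mem_erase h))
    (fun h => hbS (mem_of_mem_erase h))).mono ?_
  intro p q h
  have hp : p ≠ u := by
    have := h.1.2.1
    simpa using this
  have hq : q ≠ u := by
    have := h.1.2.2
    simpa using this
  exact ⟨h.1.1, fun hpS => h.2.1 (mem_erase.2 ⟨hp, hpS⟩), fun hqS => h.2.2 (mem_erase.2 ⟨hq, hqS⟩)⟩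

/-- connectivity of `D` outside a set of at most two vertices -/
theorem connAB {D : SimpleGraph α} {u : α} {S : Finset α} (hJ : KConn 3 (del D {u}))
    (hV : ∀ v ∈ VS D, v ≠ u → v ∈ VS (del D {u})) (hS : (S.erase u).card < 3)
    (hw : u ∉ S → ∃ w, D.Adj u w ∧ w ∉ S) : ConnOff D S := by
  by_cases hu : u ∈ S
  · exact connB (hJ.2 _ hS) hV hu
  · rw [erase_eq_of_notMem hu] at hS
    exact connA (hJ.2 _ hS) hV hu (hw hu)

theorem exists_notMem_of_three {x y z : α} (hxy : x ≠ y) (hxz : x ≠ z) (hyz : y ≠ z) {S : Finset α}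
    (hS : S.card < 3) : ∃ w, (w = x ∨ w = y ∨ w = z) ∧ w ∉ S := by
  by_contra hcon
  push_neg at hcon
  have h3 : ({x, y, z} : Finset α) ⊆ S := by
    intro w hw
    simp only [mem_insert, mem_singleton] at hw
    exact hcon w hw
  have h4 := card_le_card h3
  rw [card_eq_three.2 ⟨x, y, z, hxy, hxz, hyz, rfl⟩] at h4
  omega

theorem exists_notMem_of_two {x y : α} (hxy : x ≠ y) {S : Finset α}
    (hS : S.card < 2) : ∃ w, (w = x ∨ w = y) ∧ w ∉ S := by
  by_contra hcon
  push_neg at hcon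
  have h3 : ({x, y} : Finset α) ⊆ S := by
    intro w hw
    simp only [mem_insert, mem_singleton] at hw
    exact hcon w hw
  have h4 := card_le_card h3
  rw [card_pair hxy] at h4
  omega

theorem card_lt {D : SimpleGraph α} {u : α} {k : ℕ} (h : k < (VS (del D {u})).card) :
    k < (VS D).card :=
  lt_of_lt_of_le h (card_le_card fun _ hv => (mem_sdiff.1 (VS_del_subset _ hv)).1)

theorem vsD {G : SimpleGraph α} {u : α} {P : Finset α} (hDST : SpecDST)
    (h : ∀ w, G.Adj u w → w ∉ P → w ∈ VS (del G {u})) :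
    ∀ v ∈ VS (dst G u P), v ≠ u → v ∈ VS (del (dst G u P) {u}) := by
  intro v hv hvu
  rw [hDST.dld]
  obtain ⟨w, hw⟩ := mem_VS.1 hv
  rw [hDST.adj] at hw
  by_cases hwu : w = u
  · subst hwu
    exact h v hw.1.symm fun hvP => hw.2.2 ⟨rfl, hvP⟩
  · exact mem_VS.2 ⟨w, hw.1, by simpa using hvu, by simpa using hwu⟩

theorem k3 (hDST : SpecDST) {G : SimpleGraph α} {u x y z : α} {P : Finset α}
    (hJ : KConn 3 (del G {u})) (hxy : x ≠ y) (hxz : x ≠ z) (hyz : y ≠ z)
    (h : ∀ w, w = x ∨ w = y ∨ w = z → G.Adj u w ∧ w ∉ P)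
    (hV : ∀ w, G.Adj u w → w ∉ P → w ∈ VS (del G {u})) : KConn 3 (dst G u P) := by
  have hJ' : KConn 3 (del (dst G u P) {u}) := by
    rw [hDST.dld]
    exact hJ
  refine ⟨card_lt hJ'.1, ?_⟩
  intro S hS
  refine connAB hJ' (vsD hDST hV) (lt_of_le_of_lt (card_le_card (erase_subset _ _)) hS) ?_
  intro hu
  obtain ⟨w, hw, hwS⟩ := exists_notMem_of_three hxy hxz hyz hS
  refine ⟨w, ?_, hwS⟩
  rw [hDST.adj]
  obtain ⟨h1, h2⟩ := h w hw
  exact ⟨h1, fun h' => h2 h'.2, fun h' => h1.ne h'.1.symm⟩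

theorem s3s (hDST : SpecDST) {G : SimpleGraph α} {u r s : α} {P : Finset α}
    (hJ : KConn 3 (del G {u})) (hrs : r ≠ s) (hnadj : ¬ G.Adj r s) (hr : r ∈ VS (del G {u}))
    (hs : s ∈ VS (del G {u})) (h : ∀ w, G.Adj u w ∧ w ∉ P ↔ w = r ∨ w = s) : S3S (dst G u P) := by
  have hJ' : KConn 3 (del (dst G u P) {u}) := by
    rw [hDST.dld]
    exact hJ
  have hV : ∀ w, G.Adj u w → w ∉ P → w ∈ VS (del G {u}) := by
    intro w h1 h2
    rcases (h w).1 ⟨h1, h2⟩ with rfl | rfl
    · exact hr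
    · exact hs
  have hV' := vsD hDST hV
  have hadj : ∀ w, (dst G u P).Adj u w ↔ w = r ∨ w = s := by
    intro w
    rw [hDST.adj, ← h w]
    constructor
    · rintro ⟨h1, h2, h3⟩
      exact ⟨h1, fun h' => h2 ⟨rfl, h'⟩⟩
    · rintro ⟨h1, h2⟩
      exact ⟨h1, fun h' => h2 h'.2, fun h' => h1.ne h'.1.symm⟩
  have hle := hDST.le G u P
  refine ⟨⟨card_lt (lt_trans (by norm_num) hJ'.1), ?_⟩, ?_, ?_⟩
  · intro S hS
    refine connAB hJ' hV' (lt_of_le_of_lt (card_le_card (erase_subset _ _)) (by omega)) ?_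
    intro hu
    obtain ⟨w, hw, hwS⟩ := exists_notMem_of_two hrs hS
    exact ⟨w, (hadj w).2 hw, hwS⟩
  · have h3 := hJ.le_nbs hr
    obtain ⟨a, b, c, ha, hb, hc, hab, hac, hbc⟩ := two_lt_card_iff.1 (show 2 < (nbs (del G {u}) r).card by omega)
    have hle2 : del G {u} ≤ dst G u P := hDST.dle G u P
    exact ⟨r, a, b, c, hab, hac, hbc, hle2 (mem_nbs.1 ha), hle2 (mem_nbs.1 hb), hle2 (mem_nbs.1 hc)⟩
  · intro p q hpq
    by_cases hex : ∃ w, (w = r ∨ w = s) ∧ w ∉ ({p, q} : Finset α)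
    · left
      obtain ⟨w, hw, hwS⟩ := hex
      refine connAB hJ' hV' (lt_of_le_of_lt (card_le_card (erase_subset _ _)) ?_) ?_
      · rw [card_pair hpq]
        norm_num
      · intro _
        exact ⟨w, (hadj w).2 hw, hwS⟩
    · right
      push_neg at hex
      have h1 := hex r (Or.inl rfl)
      have h2 := hex s (Or.inr rfl)
      simp only [mem_insert, mem_singleton] at h1 h2
      have hpq' : (p = r ∧ q = s) ∨ (p = s ∧ q = r) := by
        rcases h1 with h1 | h1 <;> rcases h2 with h2 | h2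
        · exact absurd (h1.trans h2.symm) hrs
        · exact Or.inl ⟨h1.symm, h2.symm⟩
        · exact Or.inr ⟨h2.symm, h1.symm⟩
        · exact absurd (h1.trans h2.symm) hrs
      refine ⟨u, ?_, ?_, ?_⟩
      · intro w
        rw [hadj]
        rcases hpq' with ⟨rfl, rfl⟩ | ⟨rfl, rfl⟩
        · exact Iff.rfl
        · exact or_comm
      · rcases hpq' with ⟨rfl, rfl⟩ | ⟨rfl, rfl⟩
        · exact fun h' => hnadj (hle h')
        · exact fun h' => hnadj (hle h').symm
      · refine connAB hJ' hV' ?_ ?_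
        · have : ({p, q, u} : Finset α).erase u ⊆ {p, q} := by
            intro w hw
            simp only [mem_erase, mem_insert, mem_singleton] at hw ⊢
            tauto
          refine lt_of_le_of_lt (card_le_card this) ?_
          rw [card_pair hpq]
          norm_num
        · intro hu
          exact absurd (by simp) hu

theorem memJ {G : SimpleGraph α} (hG : KConn 4 G) {u w : α} (h : G.Adj u w) :
    w ∈ VS (del G {u}) := by
  rw [hG.VS_del (by simp), mem_sdiff, mem_singleton]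
  exact ⟨right_mem_VS h, h.ne.symm⟩

theorem ks (hDST : SpecDST) (hS3F : SpecS3F) {G : SimpleGraph α} {u r s : α} {P : Finset α}
    (hG : KConn 4 G) (hrs : r ≠ s) (hur : G.Adj u r) (hus : G.Adj u s) (hrP : r ∉ P) (hsP : s ∉ P)
    (h : ¬ G.Adj r s ∨ ∃ t, G.Adj u t ∧ t ∉ P ∧ t ≠ r ∧ t ≠ s) : S3S (dst G u P) := by
  have hJ : KConn 3 (del G {u}) := hG.del_vertex (by norm_num) u
  by_cases ht : ∃ t, G.Adj u t ∧ t ∉ P ∧ t ≠ r ∧ t ≠ s
  · obtain ⟨t, h1, h2, h3, h4⟩ := ht
    refine hS3F.k3 (k3 hDST (x := t) (y := r) (z := s) hJ h3 h4 hrs ?_ fun w hw _ => memJ hG hw)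
    rintro w (rfl | rfl | rfl)
    · exact ⟨h1, h2⟩
    · exact ⟨hur, hrP⟩
    · exact ⟨hus, hsP⟩
  · have hn : ¬ G.Adj r s := by
      rcases h with h | h
      · exact h
      · exact absurd h ht
    refine s3s hDST hJ hrs hn (memJ hG hur) (memJ hG hus) ?_
    intro w
    constructor
    · rintro ⟨h1, h2⟩
      by_contra hcon
      push_neg at hcon
      exact ht ⟨w, h1, h2, hcon.1, hcon.2⟩
    · rintro (rfl | rfl)
      · exact ⟨hur, hrP⟩
      · exact ⟨hus, hsP⟩

/-- the half of the argument for `c1` -/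
theorem c1_aux (hDST : SpecDST) {G : SimpleGraph α} {u : α} {P : Finset α}
    (hV : VS (dst G u P) = VS G)
    (h : ∀ T A B, Sep G T A B → T.card = 4 → u ∈ T → 2 ≤ A.card → 1 ≤ B.card →
      ∃ w ∈ A, G.Adj u w ∧ w ∉ P) {S A B : Finset α} (hsep : Sep (dst G u P) S A B)
    (hS : S.card = 3) (hA : 2 ≤ A.card) (hB : 2 ≤ B.card) (hu : u ∈ A) : False := by
  have huS : u ∉ S := fun h' => disjoint_left.1 hsep.2.1 h' hu
  have huB : u ∉ B := fun h' => disjoint_left.1 hsep.2.2.2.1 hu h'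
  have hsep' : Sep G (insert u S) B (A.erase u) := by
    refine ⟨?_, ?_, ?_, ?_, ?_⟩
    · rw [← hV, ← hsep.1]
      ext w
      simp only [mem_union, mem_insert, mem_erase]
      by_cases hw : w = u
      · subst hw
        simp [hu]
      · simp [hw]
        tauto
    · rw [disjoint_insert_left]
      exact ⟨huB, hsep.2.2.1⟩
    · rw [disjoint_insert_left]
      exact ⟨notMem_erase _ _, disjoint_of_subset_right (erase_subset _ _) hsep.2.1⟩
    · exact (disjoint_of_subset_left (erase_subset _ _) hsep.2.2.2.1).symm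
    · intro b hb a ha hab
      rw [mem_erase] at ha
      refine hsep.2.2.2.2 a ha.2 b hb ?_
      rw [hDST.adj]
      exact ⟨hab.symm, fun h' => ha.1 h'.1, fun h' => huB (h'.1 ▸ hb)⟩
  obtain ⟨w, hw, h1, h2⟩ := h _ _ _ hsep' (by rw [card_insert_of_notMem huS, hS])
    (mem_insert_self _ _) hB (by rw [card_erase_of_mem hu]; omega)
  refine hsep.2.2.2.2 u hu w hw ?_
  rw [hDST.adj]
  exact ⟨h1, fun h' => h2 h'.2, fun h' => h1.ne h'.1.symm⟩

theorem c1 (hDST : SpecDST) {G : SimpleGraph α} {u x y z : α} {P : Finset α}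
    (hG : KConn 4 G) (hxy : x ≠ y) (hxz : x ≠ z) (hyz : y ≠ z)
    (hw : ∀ w, w = x ∨ w = y ∨ w = z → G.Adj u w ∧ w ∉ P)
    (h : ∀ T A B, Sep G T A B → T.card = 4 → u ∈ T → 2 ≤ A.card → 1 ≤ B.card →
      ∃ w ∈ A, G.Adj u w ∧ w ∉ P) : C1 (dst G u P) := by
  have hJ : KConn 3 (del G {u}) := hG.del_vertex (by norm_num) u
  refine ⟨k3 hDST hJ hxy hxz hyz hw fun w hw _ => memJ hG hw, ?_⟩
  have hV : VS (dst G u P) = VS G :=
    hDST.vs (hG.mono (by norm_num)) ⟨x, (hw x (Or.inl rfl)).1, (hw x (Or.inl rfl)).2⟩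
  have huV : u ∈ VS G := left_mem_VS (hw x (Or.inl rfl)).1
  intro S A B hsep hS
  by_contra hcon
  push_neg at hcon
  obtain ⟨hA, hB⟩ := hcon
  rcases hsep.mem_or (hV.symm ▸ huV) with hu | hu | hu
  · obtain ⟨a, ha⟩ := card_pos.1 (show 0 < A.card by omega)
    obtain ⟨b, hb⟩ := card_pos.1 (show 0 < B.card by omega)
    have haS : a ∉ S := fun h' => disjoint_left.1 hsep.2.1 h' ha
    have hbS : b ∉ S := fun h' => disjoint_left.1 hsep.2.2.1 h' hb
    refine hsep.not_reachable ha hb ?_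
    have hJ' : KConn 3 (del (dst G u P) {u}) := by
      rw [hDST.dld]
      exact hJ
    have hcon : ConnOff (dst G u P) S := by
      refine connB (hJ'.2 _ ?_) (vsD hDST fun w hw _ => memJ hG hw) hu
      rw [card_erase_of_mem hu]
      omega
    exact hcon a (hsep.subP ha) b (hsep.subQ hb) haS hbS
  · exact c1_aux hDST hV h hsep hS (by omega) (by omega) hu
  · exact c1_aux hDST hV h hsep.symm hS (by omega) (by omega) hu

theorem mem_NB_singleton {G : SimpleGraph α} {v w : α} : w ∈ NB G {v} ↔ G.Adj v w := by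
  unfold NB
  simp only [mem_filter, mem_univ, true_and, mem_singleton, exists_eq_left]
  exact ⟨fun h => h.2, fun h => ⟨h.ne.symm, h⟩⟩

theorem rig (hDST : SpecDST) {G : SimpleGraph α} {u x y z : α} {P : Finset α}
    (hG : K48 G) (hR : Rig G u) (hxy : x ≠ y) (hxz : x ≠ z) (hyz : y ≠ z)
    (hw : ∀ w, w = x ∨ w = y ∨ w = z → G.Adj u w ∧ w ∉ P)
    (h : ∀ v, G.Adj u v → dg G v = 4 → ∃ w, G.Adj u w ∧ w ≠ v ∧ ¬ G.Adj v w ∧ w ∉ P) :
    C1 (dst G u P) := by
  refine c1 hDST hG.1 hxy hxz hyz hw ?_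
  intro T A B hsep hT huT hA hB
  have hB1 : B.card = 1 := by
    rcases hR T A B hsep hT huT with h1 | h1 <;> omega
  obtain ⟨v, rfl⟩ := card_eq_one.1 hB1
  have hvV : v ∈ VS G := hsep.subQ (mem_singleton_self _)
  have hvA : v ∉ A := fun h' => disjoint_left.1 hsep.2.2.2.1 h' (mem_singleton_self _)
  have hsub : NB G {v} ⊆ T := by
    intro w hw'
    rw [mem_NB_singleton] at hw'
    rcases hsep.mem_or (right_mem_VS hw') with h1 | h1 | h1
    · exact h1
    · exact absurd hw'.symm (hsep.2.2.2.2 w h1 v (mem_singleton_self _))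
    · rw [mem_singleton] at h1
      exact absurd h1 hw'.ne.symm
  have hnb : NB G {v} = nbs G v := by
    ext w
    rw [mem_NB_singleton, mem_nbs]
  have h4 : 4 ≤ (NB G {v}).card := by
    rw [hnb]
    exact hG.1.le_nbs hvV
  have heq : NB G {v} = T := eq_of_subset_of_card_le hsub (by omega)
  have huv : G.Adj u v := by
    rw [← heq, mem_NB_singleton] at huT
    exact huT.symm
  obtain ⟨w, h1, h2, h3, h5⟩ := h v huv (by unfold dg; rw [heq, hT])
  refine ⟨w, ?_, h1, h5⟩
  rcases hsep.mem_or (right_mem_VS h1) with h6 | h6 | h6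
  · rw [← heq, mem_NB_singleton] at h6
    exact absurd h6 h3
  · exact h6
  · rw [mem_singleton] at h6
    exact absurd h6 h2

theorem add {G : SimpleGraph α} {a b : α} (hG : C1 G) (ha : a ∈ VS G) (hb : b ∈ VS G) :
    C1 (G ⊔ fromEdgeSet {s(a, b)}) ∧ VS (G ⊔ fromEdgeSet {s(a, b)}) = VS G := by
  have hle : G ≤ G ⊔ fromEdgeSet {s(a, b)} := le_sup_left
  have hV : VS (G ⊔ fromEdgeSet {s(a, b)}) = VS G := by
    refine Subset.antisymm ?_ (VS_mono hle)
    intro v hv
    obtain ⟨w, hw⟩ := mem_VS.1 hv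
    rw [SimpleGraph.sup_adj, SimpleGraph.fromEdgeSet_adj, Set.mem_singleton_iff, Sym2.eq_iff] at hw
    rcases hw with hw | ⟨⟨rfl, rfl⟩ | ⟨rfl, rfl⟩, _⟩
    · exact left_mem_VS hw
    · exact ha
    · exact hb
  refine ⟨⟨⟨by rw [hV]; exact hG.1.1, ?_⟩, ?_⟩, hV⟩
  · intro S hS x hx y hy hxS hyS
    rw [hV] at hx hy
    refine (hG.1.2 S hS x hx y hy hxS hyS).mono ?_
    intro p q h
    exact ⟨hle h.1, h.2.1, h.2.2⟩
  · intro S P Q hsep hS
    refine hG.2 S P Q ⟨?_, hsep.2.1, hsep.2.2.1, hsep.2.2.2.1, ?_⟩ hS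
    · rw [← hV]
      exact hsep.1
    · intro x hx y hy h
      exact hsep.2.2.2.2 x hx y hy (hle h)

end CRLM

open CRLM

theorem specCRL (hDST : SpecDST) (hS3F : SpecS3F) : SpecCRL where
  k3 := fun hJ hxy hxz hyz h hV => k3 hDST hJ hxy hxz hyz h hV
  s3s := fun hJ hrs hn hr hs h => s3s hDST hJ hrs hn hr hs h
  ks := fun hG hrs hur hus hrP hsP h => ks hDST hS3F hG hrs hur hus hrP hsP h
  c1 := fun hG hxy hxz hyz hw h => c1 hDST hG hxy hxz hyz hw h
  rig := fun hG hR hxy hxz hyz hw h => rig hDST hG hR hxy hxz hyz hw h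
  add := fun hG ha hb => add hG ha hb

end DL
end

section
/-!
MP_3ff0f8_gt, ALGEBRA HALF, E block section 0, module DST (helper20)
-/
open SimpleGraph Finset

namespace DL

namespace DSTM

theorem dst_adj {α : Type} (G : SimpleGraph α) (u : α) (P : Finset α) (a b : α) :
    (dst G u P).Adj a b ↔ G.Adj a b ∧ ¬ (a = u ∧ b ∈ P) ∧ ¬ (b = u ∧ a ∈ P) := by
  unfold dst
  rw [SimpleGraph.deleteEdges_adj]
  constructor
  · rintro ⟨h1, h2⟩
    refine ⟨h1, ?_, ?_⟩
    · rintro ⟨rfl, hb⟩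
      exact h2 ⟨b, hb, rfl⟩
    · rintro ⟨rfl, ha⟩
      exact h2 ⟨a, ha, Sym2.eq_swap⟩
  · rintro ⟨h1, h2, h3⟩
    refine ⟨h1, ?_⟩
    rintro ⟨p, hp, h⟩
    rw [Sym2.eq_iff] at h
    rcases h with ⟨rfl, rfl⟩ | ⟨rfl, rfl⟩
    · exact h2 ⟨rfl, hp⟩
    · exact h3 ⟨rfl, hp⟩

theorem dst_le {α : Type} (G : SimpleGraph α) (u : α) (P : Finset α) : dst G u P ≤ G :=
  SimpleGraph.deleteEdges_le _

theorem edges_finite {α : Type} [Fintype α] (G : SimpleGraph α) : G.edgeSet.Finite := by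
  classical
  exact Set.toFinite _

theorem sz1 {α : Type} [Fintype α] [DecidableEq α] {G H : SimpleGraph α} (hle : H ≤ G)
    (hne : H ≠ G) : sz H < sz G := by
  have h1 : (VS H).card ≤ (VS G).card := card_le_card (VS_mono hle)
  have h2 : H.edgeSet ⊂ G.edgeSet := SimpleGraph.edgeSet_ssubset_edgeSet.2 (lt_of_le_of_ne hle hne)
  have h3 := Set.ncard_lt_ncard h2 (edges_finite G)
  unfold sz
  omega

end DSTM

open DSTM

theorem specDST : SpecDST where
  adj := dst_adj
  le := dst_le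
  mono := by
    intro α G H u P Q hGH hQP a b h
    rw [dst_adj] at h ⊢
    exact ⟨hGH h.1, fun h' => h.2.1 ⟨h'.1, hQP h'.2⟩, fun h' => h.2.2 ⟨h'.1, hQP h'.2⟩⟩
  emp := by
    intro α G u
    ext a b
    rw [dst_adj]
    simp
  one := by
    intro α G u a
    unfold dst delE
    congr 1
    ext e
    simp
  ins := by
    intro α _ G u a P
    ext x y
    unfold delE
    rw [SimpleGraph.deleteEdges_adj, dst_adj, dst_adj, Set.mem_singleton_iff, Sym2.eq_iff]
    simp only [mem_insert]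
    tauto
  dld := by
    intro α _ G u P
    ext a b
    show (dst G u P).Adj a b ∧ a ∉ ({u} : Finset α) ∧ b ∉ ({u} : Finset α) ↔
      G.Adj a b ∧ a ∉ ({u} : Finset α) ∧ b ∉ ({u} : Finset α)
    rw [dst_adj, mem_singleton, mem_singleton]
    tauto
  dle := by
    intro α _ G u P a b h
    rw [dst_adj]
    obtain ⟨h1, h2, h3⟩ := h
    rw [mem_singleton] at h2 h3
    exact ⟨h1, fun h => h2 h.1, fun h => h3 h.1⟩
  vs := by
    intro α _ _ G u P hG ⟨w, hw, hwP⟩
    refine Subset.antisymm (VS_mono (dst_le G u P)) fun v hv => ?_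
    by_cases hvu : v = u
    · subst hvu
      refine mem_VS.2 ⟨w, (dst_adj G v P v w).2 ⟨hw, fun h => hwP h.2, fun h => ?_⟩⟩
      exact hw.ne h.1.symm
    · have h3 := hG.le_nbs hv
      obtain ⟨x, hx, hxu⟩ := exists_mem_ne (show 1 < (nbs G v).card by omega) u
      rw [mem_nbs] at hx
      exact mem_VS.2 ⟨x, (dst_adj G u P v x).2 ⟨hx, fun h => hvu h.1, fun h => hxu h.1⟩⟩
  cyc := by
    intro α _ _ G u P C hC hP
    refine hC.transfer fun e he => ?_
    induction e with
    | _ a b =>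
      rw [SimpleGraph.mem_edgeSet, dst_adj]
      refine ⟨hC.adj_of_mem he, ?_, ?_⟩
      · rintro ⟨rfl, hb⟩
        exact hP b hb he
      · rintro ⟨rfl, ha⟩
        exact hP a ha (by rw [Sym2.eq_swap]; exact he)
  sz1 := sz1
  sz2 := by
    intro α _ _ G a b hab
    have h1 : (VS (contr G a b)).card < (VS G).card := by
      refine lt_of_le_of_lt (card_le_card (VS_contr_subset a b (left_mem_VS hab))) ?_
      exact card_erase_lt_of_mem (right_mem_VS hab)
    have h2 : (contr G a b).edgeSet ⊆ (Sym2.map (cpr a b)) '' G.edgeSet := by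
      intro e he
      induction e with
      | _ x y =>
        rw [SimpleGraph.mem_edgeSet, contr_adj] at he
        obtain ⟨hx, hy, hxy, h⟩ := he
        rcases h with h | ⟨rfl, h⟩ | ⟨rfl, h⟩
        · exact ⟨s(x, y), h, by rw [Sym2.map_mk, cpr_of_ne hx, cpr_of_ne hy]⟩
        · exact ⟨s(b, y), h, by rw [Sym2.map_mk, cpr_self, cpr_of_ne hy]⟩
        · exact ⟨s(x, b), h, by rw [Sym2.map_mk, cpr_self, cpr_of_ne hx]⟩
    have h3 : (contr G a b).edgeSet.ncard ≤ G.edgeSet.ncard :=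
      (Set.ncard_le_ncard h2 ((edges_finite G).image _)).trans (Set.ncard_image_le (edges_finite G))
    unfold sz
    omega
  sz3 := by
    intro α _ _ G u hu
    have h1 : (VS (del G {u})).card < (VS G).card := by
      refine card_lt_card ?_
      refine ⟨fun v hv => ?_, fun h => ?_⟩
      · have := VS_del_subset {u} hv
        exact (mem_sdiff.1 this).1
      · have := VS_del_subset {u} (h hu)
        exact (mem_sdiff.1 this).2 (mem_singleton_self u)
    have h2 : (del G {u}).edgeSet ⊆ G.edgeSet :=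
      SimpleGraph.edgeSet_subset_edgeSet.2 fun _ _ h => h.1
    have h3 := Set.ncard_le_ncard h2 (edges_finite G)
    unfold sz
    omega
  sz4 := by
    intro α _ _ G u a P hua haP
    refine sz1 (dst_le G u P) fun h => ?_
    have h1 : (dst G u P).Adj u a := by rw [h]; exact hua
    exact ((dst_adj G u P u a).1 h1).2.1 ⟨rfl, haP⟩

end DL
end

section
set_option autoImplicit false
set_option linter.unusedSectionVars false

/-!
# GMC: consequences of `Gam`
-/

open SimpleGraph Finset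

namespace DL

namespace GMCM

variable {α : Type} [Fintype α] [DecidableEq α]

/-- a 2-cycle without rows at `u` is a 2-cycle of `G - u` -/
lemma zdel {G : SimpleGraph α} {u : α} {z : Sym2 α → Sym2 α → ZMod 2} (hz : IsZ2 G z)
    (h : ∀ v f, z s(u, v) f = 0) : IsZ2 (del G {u}) z := by
  have key : ∀ e f, z e f ≠ 0 → e ∈ (del G {u}).edgeSet := by
    intro e f hef
    refine KURM.mem_del.2 ⟨(hz.2.1 e f hef).1, fun v hv hvu => ?_⟩
    rw [mem_singleton] at hvu
    subst hvu
    obtain ⟨w, rfl⟩ : ∃ w, e = s(v, w) := ⟨Sym2.Mem.other hv, (Sym2.other_spec hv).symm⟩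
    exact hef (h w f)
  refine ⟨hz.1, fun e f hef => ⟨key e f hef, key f e ?_, (hz.2.1 e f hef).2.2⟩, hz.2.2⟩
  rw [hz.1]
  exact hef

lemma dst_adj {G : SimpleGraph α} {u : α} {P : Finset α} {a b : α} :
    (DL.dst G u P).Adj a b ↔ G.Adj a b ∧ ¬ ∃ p ∈ P, s(a, b) = s(u, p) := by
  unfold DL.dst
  rw [deleteEdges_adj]
  exact Iff.rfl

lemma dst {G : SimpleGraph α} {u w w' : α} {Z : Chain α} {P : Finset α}
    (h : Gam G u w w' Z) (hw : w ∉ P) (hw' : w' ∉ P) : NP (DL.dst G u P) := by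
  obtain ⟨_, _, _, _, r, z, hr, hz, hv, _, _, h0⟩ := h
  refine ⟨r, hr, z, ?_, hv⟩
  have key : ∀ e f, z e f ≠ 0 → e ∈ (DL.dst G u P).edgeSet := by
    intro e f hef
    have h1 := (hz.2.1 e f hef).1
    induction e using Sym2.ind with
    | _ a b =>
      rw [mem_edgeSet, dst_adj]
      refine ⟨h1, ?_⟩
      rintro ⟨p, hp, hab⟩
      rw [hab, h0 p (fun e => hw (e ▸ hp)) (fun e => hw' (e ▸ hp))] at hef
      exact hef rfl
  refine ⟨hz.1, fun e f hef => ⟨key e f hef, key f e ?_, (hz.2.1 e f hef).2.2⟩, hz.2.2⟩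
  rw [hz.1]
  exact hef

lemma cyc (hVKA : SpecVKA) {G : SimpleGraph α} {u w w' : α} {Z : Chain α} {C : Finset (Sym2 α)}
    (hpl : ¬ NP (del G {u})) (h : Gam G u w w' Z) (hC : IsCyc G C) (hw : s(u, w) ∈ C)
    (hw' : s(u, w') ∈ C) : ¬ (∀ e v, v ∈ vs C → v ∈ e → Z e = 0) := by
  intro h0
  obtain ⟨_, _, hne, hZ, r, z, hr, hz, hv, h1, h2, h3⟩ := h
  have hZG : Z ∈ Z1 G := Z1_mono (del_le _ _) hZ
  have hQ : ∀ e v, Z e ≠ 0 → v ∈ e → v ∈ univ \ vs C := by
    intro e v he hve
    rw [mem_sdiff]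
    exact ⟨mem_univ _, fun hvC => he (h0 e v hvC hve)⟩
  have hP : ∀ e v, chi C e ≠ 0 → v ∈ e → v ∈ vs C := by
    intro e v he hve
    rw [chi_ne_zero] at he
    exact mem_vs.2 ⟨e, he, hve⟩
  have hz' := KURM.zadd hz (KURM.tor (vs C) (univ \ vs C) hC.chi_mem hZG hP hQ disjoint_sdiff)
  have hvk : vk r (fun e f => z e f + (chi C e * Z f + Z e * chi C f)) = vk r z := by
    have e1 := hVKA.add r z (DL.tor (chi C) Z)
    have e2 := hVKA.tor (vs C) (univ \ vs C) hr hC.chi_mem hZG hP hQ disjoint_sdiff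
    rw [e2, add_zero] at e1
    exact e1
  apply hpl
  refine ⟨r, hr, _, zdel hz' ?_, by rw [hvk]; exact hv⟩
  intro v f
  have hZu : Z s(u, v) = 0 := h0 _ u (left_mem_vs hw) (Sym2.mem_mk_left _ _)
  simp only [hZu, zero_mul, add_zero]
  by_cases hvw : v = w
  · subst hvw
    rw [h1, chi_of_mem hw, one_mul]
    exact zmod2_add_self _
  · by_cases hvw' : v = w'
    · subst hvw'
      rw [h2, chi_of_mem hw', one_mul]
      exact zmod2_add_self _
    · have hnot : s(u, v) ∉ C := by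
        intro hvC
        rcases hC.eq_or_eq hw hw' hne hvC with e | e
        · exact hvw e
        · exact hvw' e
      rw [h3 v hvw hvw', chi_of_notMem hnot, zero_mul]
      simp

/-- the only edge at `v` of a chain in `Z1` vanishes -/
lemma zero_of_one {G : SimpleGraph α} {Z : Chain α} {v z : α} (hZ : Z ∈ Z1 G)
    (h : ∀ x, G.Adj v x → x = z) : ∀ e, v ∈ e → Z e = 0 := by
  have h1 := hZ.2 v
  rw [bdy_eq_sum_ite, sum_eq_single s(v, z)] at h1
  · rw [if_pos (Sym2.mem_mk_left _ _)] at h1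
    intro e hve
    obtain ⟨x, rfl⟩ : ∃ x, e = s(v, x) := ⟨Sym2.Mem.other hve, (Sym2.other_spec hve).symm⟩
    by_contra hne
    have := h x (hZ.1 _ hne)
    subst this
    exact hne h1
  · intro e _ hne
    by_cases hve : v ∈ e
    · rw [if_pos hve]
      obtain ⟨x, rfl⟩ : ∃ x, e = s(v, x) := ⟨Sym2.Mem.other hve, (Sym2.other_spec hve).symm⟩
      by_contra hz
      have := h x (hZ.1 _ hz)
      subst this
      exact hne rfl
    · rw [if_neg hve]
  · intro h2
    exact absurd (mem_univ _) h2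

lemma deg (hVKA : SpecVKA) {G : SimpleGraph α} {u w w' v z : α} {Z : Chain α}
    (hpl : ¬ NP (del G {u})) (h : Gam G u w w' Z) (hvu : v ≠ u) (hwv : G.Adj w v)
    (hwv' : G.Adj w' v) : ¬ (∀ x, G.Adj v x → x = u ∨ x = w ∨ x = w' ∨ x = z) := by
  intro hN
  have huw := h.1
  have huw' := h.2.1
  have hne := h.2.2.1
  have hZ := h.2.2.2.1
  have hP : IsPth (del G {u}) w w' (insert s(w, v) {s(v, w')}) := by
    have h1 : IsPth (del G {u}) v w' {s(v, w')} :=
      IsPth.edge ⟨hwv'.symm, by simpa using hvu, by simpa using huw'.ne.symm⟩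
    refine h1.cons ⟨hwv, by simpa using huw.ne.symm, by simpa using hvu⟩ ?_
    rw [vs_singleton, mem_insert, mem_singleton, not_or]
    exact ⟨hwv.ne, hne⟩
  have hC := isCyc_of_isPth_del huw huw' hne hP
  refine cyc hVKA hpl h hC (mem_insert_self _ _) (mem_insert_of_mem (mem_insert_self _ _)) ?_
  intro e x hx hxe
  rw [vs_insert, vs_insert, vs_insert, vs_singleton] at hx
  simp only [mem_union, mem_insert, mem_singleton] at hx
  have hdel : ∀ y, y ∈ ({u, w, w'} : Finset α) → y ∈ e → Z e = 0 := by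
    intro y hy hye
    by_contra hne0
    exact (KURM.mem_del.1 (hZ.1 e hne0)).2 y hye hy
  have hvz : v ∈ e → Z e = 0 := by
    refine zero_of_one (z := z) hZ ?_ e
    intro x hx
    rw [del_adj, mem_insert, mem_insert, mem_singleton, mem_insert, mem_insert,
      mem_singleton] at hx
    rcases hN x hx.1 with e | e | e | e
    · exact absurd (Or.inl e) hx.2.2
    · exact absurd (Or.inr (Or.inl e)) hx.2.2
    · exact absurd (Or.inr (Or.inr e)) hx.2.2
    · exact e
  rcases hx with (rfl | rfl) | (rfl | rfl) | (rfl | rfl) | (rfl | rfl)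
  · exact hdel _ (by simp) hxe
  · exact hdel _ (by simp) hxe
  · exact hdel _ (by simp) hxe
  · exact hdel _ (by simp) hxe
  · exact hdel _ (by simp) hxe
  · exact hvz hxe
  · exact hvz hxe
  · exact hdel _ (by simp) hxe

end GMCM

theorem specGMC (hVKA : SpecVKA) : SpecGMC where
  dst := GMCM.dst
  cyc := GMCM.cyc hVKA
  deg := GMCM.deg hVKA

end DL
end

section
set_option autoImplicit false
set_option linter.unusedSectionVars false

/-!
# E44: (4,4)-pairs
-/

open SimpleGraph Finset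

namespace DL

namespace E44M

variable {α : Type} [Fintype α] [DecidableEq α]

lemma dp {G : SimpleGraph α} {x y : α} {s : Fin 4 → α} (h : P44 G x y s) : DP G x y s where
  inj := h.inj
  xy := h.xy
  sx := h.sx
  nx := fun w hw => (h.nx w).1 hw
  ny := fun w hw => (h.ny w).1 hw
  ax := fun i => (h.nx _).2 (Or.inr ⟨i, rfl⟩)
  ay := fun i => (h.ny _).2 (Or.inr ⟨i, rfl⟩)

lemma rel {G : SimpleGraph α} {x y : α} {s : Fin 4 → α} (h : P44 G x y s)
    (σ : Equiv.Perm (Fin 4)) : P44 G x y (s ∘ σ) where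
  inj := h.inj.comp σ.injective
  xy := h.xy
  sx := fun i => h.sx _
  nx := fun w => by
    rw [h.nx]
    constructor
    · rintro (e | ⟨i, rfl⟩)
      · exact Or.inl e
      · exact Or.inr ⟨σ.symm i, by simp⟩
    · rintro (e | ⟨i, rfl⟩)
      · exact Or.inl e
      · exact Or.inr ⟨σ i, rfl⟩
  ny := fun w => by
    rw [h.ny]
    constructor
    · rintro (e | ⟨i, rfl⟩)
      · exact Or.inl e
      · exact Or.inr ⟨σ.symm i, by simp⟩
    · rintro (e | ⟨i, rfl⟩)
      · exact Or.inl e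
      · exact Or.inr ⟨σ i, rfl⟩

/-- the triple `y, s 0, s 1` -/
lemma fin0 (hDFV : SpecDFV) (hE4C : SpecE4C) {G : SimpleGraph α} {x y : α} {s : Fin 4 → α}
    (hG : K48 G) (hIH : IH G) (h : P44 G x y s) (h23 : ¬ G.Adj (s 2) (s 3))
    (hspl : ¬ SPL G x y (s 0) (s 1) (s 2) (s 3))
    (hnp : ∀ P : Finset α, s 2 ∉ P → s 3 ∉ P → NP (dst G x P))
    (c2' : C1 (dst G x {y, s 1})) : OK G := by
  have hne : ∀ i j : Fin 4, i ≠ j → s i ≠ s j := fun i j hij => h.inj.ne hij
  have h0 := h.sx 0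
  have h1 := h.sx 1
  have h2 := h.sx 2
  have h3 := h.sx 3
  have e01 := hne 0 1 (by decide)
  have e02 := hne 0 2 (by decide)
  have e03 := hne 0 3 (by decide)
  have e12 := hne 1 2 (by decide)
  have e13 := hne 1 3 (by decide)
  have e23 := hne 2 3 (by decide)
  have hne' : s 1 ≠ s 0 := e01.symm
  have hN : ∀ w, G.Adj x w ↔ w = y ∨ w = s 0 ∨ w = s 1 ∨ w = s 2 ∨ w = s 3 := by
    intro w
    rw [h.nx]
    constructor
    · rintro (e | ⟨i, e⟩)
      · exact Or.inl e
      · have hc : i = 0 ∨ i = 1 ∨ i = 2 ∨ i = 3 := by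
          clear e
          revert i
          decide
        rcases hc with rfl | rfl | rfl | rfl
        · exact Or.inr (Or.inl e)
        · exact Or.inr (Or.inr (Or.inl e))
        · exact Or.inr (Or.inr (Or.inr (Or.inl e)))
        · exact Or.inr (Or.inr (Or.inr (Or.inr e)))
    · rintro (e | e | e | e | e)
      · exact Or.inl e
      · exact Or.inr ⟨0, e⟩
      · exact Or.inr ⟨1, e⟩
      · exact Or.inr ⟨2, e⟩
      · exact Or.inr ⟨3, e⟩
  have c1 : C1 (dst G x {y, s 0}) := hE4C.edge hG h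
  have c3 : C1 (dst G x {s 0, s 1}) := hE4C.pair hG h h23 hspl
  have n1 : NP (dst G x {y, s 0}) := hnp _ (by simp [h2.2, e02.symm]) (by simp [h3.2, e03.symm])
  have n2 : NP (dst G x {y, s 1}) := hnp _ (by simp [h2.2, e12.symm]) (by simp [h3.2, e13.symm])
  have n3 : NP (dst G x {s 0, s 1}) := hnp _ (by simp [e02.symm, e12.symm])
    (by simp [e03.symm, e13.symm])
  have hnd : [x, y, s 0, s 1, s 2, s 3].Nodup := by
    simp only [List.nodup_cons, List.mem_cons, List.not_mem_nil, or_false, not_or,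
      not_false_eq_true, List.nodup_nil, and_true]
    exact ⟨⟨h.xy, h0.1.symm, h1.1.symm, h2.1.symm, h3.1.symm⟩,
      ⟨h0.2.symm, h1.2.symm, h2.2.symm, h3.2.symm⟩, ⟨e01, e02, e03⟩, ⟨e12, e13⟩, e23⟩
  have c2 : C1 (dst G x {y, s 1}) := c2'
  exact hDFV hG hIH hnd hN h23 c1 c2 c3 n1 n2 n3

lemma edge1 (hE4C : SpecE4C) {G : SimpleGraph α} {x y : α} {s : Fin 4 → α}
    (hG : K48 G) (h : P44 G x y s) : C1 (dst G x {y, s 1}) := by
  have h1 := hE4C.edge hG (rel h (Equiv.swap 0 1))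
  have h2 : (s ∘ Equiv.swap 0 1) 0 = s 1 := by
    rw [Function.comp_apply, Equiv.swap_apply_left]
  rw [h2] at h1
  exact h1

/-- the triple `y, s 0, s 1` -/
lemma fin (hDFV : SpecDFV) (hE4C : SpecE4C) {G : SimpleGraph α} {x y : α} {s : Fin 4 → α}
    (hG : K48 G) (hIH : IH G) (h : P44 G x y s) (h23 : ¬ G.Adj (s 2) (s 3))
    (hspl : ¬ SPL G x y (s 0) (s 1) (s 2) (s 3))
    (hnp : ∀ P : Finset α, s 2 ∉ P → s 3 ∉ P → NP (dst G x P)) : OK G :=
  fin0 hDFV hE4C hG hIH h h23 hspl hnp (edge1 hE4C hG h)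

lemma not_rig {G : SimpleGraph α} {x y : α} {s : Fin 4 → α} (hSH : SH G) (h : P44 G x y s) :
    ¬ Rig G x := by
  intro hrig
  have hx : x ∈ VS G := left_mem_VS ((h.nx y).2 (Or.inl rfl))
  have h1 := (hSH.rig x hx hrig).1
  have h2 : NB G {x} = insert y (univ.image s) := by
    ext w
    simp only [NB, mem_filter, mem_univ, true_and, mem_singleton, exists_eq_left, mem_insert,
      mem_image]
    constructor
    · rintro ⟨_, hw⟩
      rcases (h.nx w).1 hw with e | ⟨i, e⟩
      · exact Or.inl e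
      · exact Or.inr ⟨i, e.symm⟩
    · intro hw
      have hxw : G.Adj x w := by
        rw [h.nx]
        rcases hw with e | ⟨i, e⟩
        · exact Or.inl e
        · exact Or.inr ⟨i, e.symm⟩
      exact ⟨hxw.ne.symm, hxw⟩
  unfold dg at h1
  rw [h2, card_insert_of_notMem, card_image_of_injective _ h.inj] at h1
  · simp at h1
  · rw [mem_image]
    rintro ⟨i, _, e⟩
    exact (h.sx i).2 e

/-- a split: no edges between the sides -/
lemma spl_nadj {G : SimpleGraph α} {x y i j k l : α} (h : SPL G x y i j k l) :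
    ¬ G.Adj i k ∧ ¬ G.Adj i l ∧ ¬ G.Adj j k ∧ ¬ G.Adj j l := by
  obtain ⟨c, d, A, B, _, hs, hi, hj, hk, hl⟩ := h
  exact ⟨hs.2.2.2.2 _ hi _ hk, hs.2.2.2.2 _ hi _ hl, hs.2.2.2.2 _ hj _ hk,
    hs.2.2.2.2 _ hj _ hl⟩

/-- the nonplanar case with a split `{s₀ s₁ | s₂ s₃}` -/
lemma main1 (hDFV : SpecDFV) (hE4C : SpecE4C) (hE4S : SpecE4S) (hE5K : SpecE5K)
    (hNPC : SpecNPC) (hDST : SpecDST) {G : SimpleGraph α} {x y : α} {s : Fin 4 → α}
    (hG : K48 G) (hIH : IH G) (h : P44 G x y s) (hnp : NP (del G {x}))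
    (hspl : SPL G x y (s 0) (s 1) (s 2) (s 3)) : OK G := by
  have hall : ∀ P : Finset α, NP (dst G x P) := fun P => hNPC.mono (hDST.dle G x P) hnp
  obtain ⟨-, -, n12, n13⟩ := spl_nadj hspl
  by_cases h2 : SPL G x y (s 0) (s 2) (s 1) (s 3)
  · by_cases h3 : SPL G x y (s 0) (s 3) (s 1) (s 2)
    · rcases hE4S hG (dp h) hspl h2 with ⟨c, d, hK⟩ | ⟨c, d, c', d', hR⟩
      · exact hE5K hG hIH hK
      · exfalso
        obtain ⟨e, f, A, B, _, hs, h0A, h3A, h1B, h2B⟩ := h3
        have hnd := hR.nd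
        simp only [List.nodup_cons, List.mem_cons, List.not_mem_nil, or_false, not_or,
          not_false_eq_true, List.nodup_nil, and_true] at hnd
        have key : ∀ v a b, G.Adj v a → G.Adj v b → a ∈ A → b ∈ B → v ≠ x → v ≠ y →
            v = e ∨ v = f := by
          intro v a b hva hvb ha hb hvx hvy
          rcases hs.mem_or (left_mem_VS hva) with h1 | h1 | h1
          · simp only [mem_insert, mem_singleton] at h1
            tauto
          · exact absurd hvb (hs.2.2.2.2 v h1 b hb)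
          · exact absurd hva.symm (hs.2.2.2.2 a ha v h1)
        have kc := key c (s 0) (s 2) ((hR.nc _).2 (by tauto)) ((hR.nc _).2 (by tauto)) h0A h2B
          (by tauto) (by tauto)
        have kc' := key c' (s 0) (s 1) ((hR.ncp _).2 (by tauto)) ((hR.ncp _).2 (by tauto)) h0A h1B
          (by tauto) (by tauto)
        have kd := key d (s 3) (s 1) ((hR.nd' _).2 (by tauto)) ((hR.nd' _).2 (by tauto)) h3A h1B
          (by tauto) (by tauto)
        have ncd : c ≠ d := by tauto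
        have ncc' : c ≠ c' := by tauto
        have ndc' : d ≠ c' := by tauto
        rcases kc with rfl | rfl <;> rcases kc' with rfl | rfl <;> rcases kd with rfl | rfl <;>
          tauto
    · -- triple `y, s₀, s₃`
      let σ : Equiv.Perm (Fin 4) := ⟨![0, 3, 1, 2], ![0, 2, 3, 1], by decide, by decide⟩
      exact fin hDFV hE4C hG hIH (rel h σ) n12 h3 fun P _ _ => hall P
  · -- triple `y, s₀, s₂`
    let σ : Equiv.Perm (Fin 4) := ⟨![0, 2, 1, 3], ![0, 2, 1, 3], by decide, by decide⟩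
    exact fin hDFV hE4C hG hIH (rel h σ) n13 h2 fun P _ _ => hall P

end E44M

theorem specE44 (hDFV : SpecDFV) (hE4C : SpecE4C) (hE4N : SpecE4N) (hE4S : SpecE4S)
    (hEDB : SpecEDB) (hEDL : SpecEDL) (hEDG : SpecEDG) (hNCN : SpecNCN) (hNPC : SpecNPC)
    (hDST : SpecDST) (hE5K : SpecE5K) : SpecE44 := by
  intro α _ _ G x y s hSH h
  have hG := hSH.k48
  have hIH := hSH.ih
  have hx : x ∈ VS G := left_mem_VS ((h.nx y).2 (Or.inl rfl))
  by_cases hnp : NP (del G {x})
  · rcases hE4N hG (E44M.dp h) hx (E44M.not_rig hSH h) with h1 | h1 | h1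
    · exact E44M.main1 hDFV hE4C hE4S hE5K hNPC hDST hG hIH h hnp h1
    · let σ : Equiv.Perm (Fin 4) := ⟨![0, 2, 1, 3], ![0, 2, 1, 3], by decide, by decide⟩
      exact E44M.main1 hDFV hE4C hE4S hE5K hNPC hDST hG hIH (E44M.rel h σ) hnp h1
    · let σ : Equiv.Perm (Fin 4) := ⟨![0, 3, 1, 2], ![0, 2, 3, 1], by decide, by decide⟩
      exact E44M.main1 hDFV hE4C hE4S hE5K hNPC hDST hG hIH (E44M.rel h σ) hnp h1
  · obtain ⟨i, hi, Z, hZ⟩ := hEDG.one hG (E44M.dp h) hnp 3
    have main : ∀ s : Fin 4 → α, P44 G x y s → Gam G x (s 2) (s 3) Z → OK G := by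
      intro s h hZ
      refine E44M.fin hDFV hE4C hG hIH h (hNCN.nadj hnp hZ) ?_ fun P h2 h3 =>
        GMCM.dst hZ h2 h3
      intro hspl
      obtain ⟨P, Q, hP, hQ, hd⟩ := hEDL hG (E44M.dp h) hspl
      exact hEDB.dis hG (E44M.dp h) hnp hZ hP hQ hd
    refine main (s ∘ Equiv.swap i 2) (E44M.rel h _) ?_
    have e2 : (s ∘ Equiv.swap i 2) 2 = s i := by simp
    have e3 : (s ∘ Equiv.swap i 2) 3 = s 3 := by
      rw [Function.comp_apply, Equiv.swap_apply_of_ne_of_ne (Ne.symm hi) (by decide)]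
    rw [e2, e3]
    exact hZ

end DL
end

section
/-!
# E5G (row 180, section 5): the ring
-/
open SimpleGraph Finset

namespace DL

namespace E5GM

set_option linter.unusedSectionVars false

variable {α : Type} [Fintype α] [DecidableEq α] {G : SimpleGraph α} {x y : α} {s : Fin 4 → α}

/-- relabelling of twins -/
lemma tw (h : TW G x y s) (σ : Fin 4 → Fin 4) (hσ : Function.Injective σ) :
    TW G x y (fun i => s (σ i)) where
  inj := h.inj.comp hσ
  xy := h.xy
  sx := fun i => h.sx _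
  nx := fun w => by
    rw [h.nx]
    constructor
    · rintro ⟨i, rfl⟩
      obtain ⟨j, rfl⟩ := (Finite.injective_iff_surjective.1 hσ) i
      exact ⟨j, rfl⟩
    · rintro ⟨i, rfl⟩
      exact ⟨_, rfl⟩
  ny := fun w => by
    rw [h.ny]
    constructor
    · rintro ⟨i, rfl⟩
      obtain ⟨j, rfl⟩ := (Finite.injective_iff_surjective.1 hσ) i
      exact ⟨j, rfl⟩
    · rintro ⟨i, rfl⟩
      exact ⟨_, rfl⟩

/-- a neighbour outside the cut is in the same side -/
lemma step {H : SimpleGraph α} {W P Q : Finset α} (h : Sep H W P Q) {u v : α} (hu : u ∈ P)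
    (huv : H.Adj u v) (hv : v ∉ W) : v ∈ P := by
  rcases h.mem_or (right_mem_VS huv) with h1 | h1 | h1
  · exact absurd h1 hv
  · exact h1
  · exact absurd huv (h.2.2.2.2 u hu v h1)

/-- two paths from `m` to `n` without common inner vertex -/
lemma nobad {H : SimpleGraph α} {a b q m n p r₁ r₂ r₃ : α} {P Q : Finset α}
    (h : Sep H {a, b, q} P Q) (hm : m ∈ P) (hn : n ∈ Q) (h1 : H.Adj m p) (h2 : H.Adj p n)
    (h3 : H.Adj m r₁) (h4 : H.Adj r₁ r₂) (h5 : H.Adj r₂ r₃) (h6 : H.Adj r₃ n)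
    (hp : p ≠ a ∧ p ≠ b) (hr₁ : r₁ ≠ a ∧ r₁ ≠ b ∧ r₁ ≠ p) (hr₂ : r₂ ≠ a ∧ r₂ ≠ b ∧ r₂ ≠ p)
    (hr₃ : r₃ ≠ a ∧ r₃ ≠ b ∧ r₃ ≠ p) : False := by
  have hnW : n ∉ ({a, b, q} : Finset α) := fun h' => Finset.disjoint_left.1 h.2.2.1 h' hn
  have key : n ∈ P := by
    by_cases hq : q = p
    · subst hq
      have e : ∀ r, (r ≠ a ∧ r ≠ b ∧ r ≠ q) → r ∉ ({a, b, q} : Finset α) := by
        intro r hr
        simp only [mem_insert, mem_singleton, not_or]
        exact hr
      exact step h (step h (step h (step h hm h3 (e _ hr₁)) h4 (e _ hr₂)) h5 (e _ hr₃)) h6 hnW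
    · refine step h (step h hm h1 ?_) h2 hnW
      simp only [mem_insert, mem_singleton, not_or]
      exact ⟨hp.1, hp.2, fun e => hq e.symm⟩
  exact Finset.disjoint_left.1 h.2.2.2.1 key hn

/-- the size of a D-pair graph -/
lemma sz_DD {m n : α} (h : G.Adj x n) : sz (DD G x n y m) < sz G := by
  have hle : DD G x n y m ≤ G := (delE_le _ _ _).trans (delE_le _ _ _)
  unfold sz
  have h1 : (VS (DD G x n y m)).card ≤ (VS G).card := card_le_card (VS_mono hle)
  have h2 : (DD G x n y m).edgeSet.ncard < G.edgeSet.ncard := by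
    refine Set.ncard_lt_ncard ((Set.ssubset_iff_of_subset (edgeSet_subset_edgeSet.2 hle)).2
      ⟨s(x, n), h, fun h' => ?_⟩) (Set.toFinite _)
    have h3 : (delE G x n).Adj x n := (delE_le _ _ _) h'
    exact (delE_adj.1 h3).2 rfl
  omega

/-- the size of `G - x + ab` -/
lemma sz_JP {a b : α} (ha : G.Adj x a) (hax : a ≠ x) (hbx : b ≠ x) (hb : b ∈ VS G) :
    sz (JP G x a b) < sz G := by
  have hdel : ∀ u v, (JP G x a b).Adj u v → (del G {x}).Adj u v ∨ s(u, v) = s(a, b) := by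
    intro u v h
    rcases h with h | h
    · exact Or.inl h
    · exact Or.inr ((fromEdgeSet_adj _).1 h).1
  have hxV : x ∈ VS G := left_mem_VS ha
  have h1 : VS (JP G x a b) ⊆ (VS G).erase x := by
    intro v hv
    obtain ⟨w, hw⟩ := mem_VS.1 hv
    rcases hdel v w hw with h | h
    · have h' := h.2.1
      rw [mem_singleton] at h'
      exact mem_erase.2 ⟨h', left_mem_VS h.1⟩
    · rw [Sym2.eq_iff] at h
      rcases h with ⟨rfl, -⟩ | ⟨rfl, -⟩
      · exact mem_erase.2 ⟨hax, right_mem_VS ha⟩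
      · exact mem_erase.2 ⟨hbx, hb⟩
  have h2 : (VS (JP G x a b)).card < (VS G).card :=
    (card_le_card h1).trans_lt (card_erase_lt_of_mem hxV)
  have h3 : (JP G x a b).edgeSet ⊆ insert s(a, b) (del G {x}).edgeSet := by
    intro e
    induction e using Sym2.ind with
    | _ u v =>
      intro he
      rcases hdel u v he with h | h
      · exact Or.inr h
      · exact Or.inl h
  have h4 : s(x, a) ∉ (del G {x}).edgeSet := fun h => h.2.1 (mem_singleton_self x)
  have h5 : insert s(x, a) (del G {x}).edgeSet ⊆ G.edgeSet := by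
    intro e he
    rcases he with rfl | he
    · exact ha
    · exact edgeSet_subset_edgeSet.2 (del_le G {x}) he
  have h6 := Set.ncard_le_ncard h3 (Set.toFinite _)
  have h7 := Set.ncard_insert_le s(a, b) (del G {x}).edgeSet
  have h8 := Set.ncard_le_ncard h5 (Set.toFinite _)
  rw [Set.ncard_insert_of_notMem h4 (Set.toFinite _)] at h8
  unfold sz
  omega

end E5GM

open E5GM in
theorem specE5G (hTWR : SpecTWR) (hE5D : SpecE5D) (hE5J : SpecE5J) (hE5N : SpecE5N)
    (hNPC : SpecNPC) : SpecE5G := by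
  intro α _ _ G x y c d c' d' s hK hIH hTW hNP hR
  have nd := hR.nd
  simp only [List.nodup_cons, List.mem_cons, List.not_mem_nil, or_false, not_or, not_false_eq_true,
    List.nodup_nil, and_true] at nd
  obtain ⟨⟨x1, x2, x3, x4, x5, x6, x7, x8, x9⟩, ⟨y1, y2, y3, y4, y5, y6, y7, y8⟩,
    ⟨a1, a2, a3, a4, a5, a6, a7⟩, ⟨b1, b2, b3, b4, b5, b6⟩, ⟨e1, e2, e3, e4, e5⟩, ⟨f1, f2, f3, f4⟩,
    ⟨g1, g2, g3⟩, ⟨k1, k2⟩, l1⟩ := nd
  have i03 : ¬ G.Adj (s 0) (s 3) := fun h => by
    rcases (hR.n0 _).1 h with h | h | h | h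
    · exact x5 h.symm
    · exact y4 h.symm
    · exact f1 h
    · exact f3 h
  have i23 : ¬ G.Adj (s 2) (s 3) := fun h => by
    rcases (hR.n2 _).1 h with h | h | h | h
    · exact x5 h.symm
    · exact y4 h.symm
    · exact f1 h
    · exact f4 h
  have i02 : ¬ G.Adj (s 0) (s 2) := fun h => by
    rcases (hR.n0 _).1 h with h | h | h | h
    · exact x4 h.symm
    · exact y3 h.symm
    · exact e2 h
    · exact e4 h
  have i13 : ¬ G.Adj (s 1) (s 3) := fun h => by
    rcases (hR.n1 _).1 h with h | h | h | h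
    · exact x5 h.symm
    · exact y4 h.symm
    · exact f2 h
    · exact f3 h
  have i01 : ¬ G.Adj (s 0) (s 1) := fun h => by
    rcases (hR.n0 _).1 h with h | h | h | h
    · exact x3 h.symm
    · exact y2 h.symm
    · exact b3 h
    · exact b5 h
  -- the adjacencies in `H`
  have hH : ∀ u v, G.Adj u v → x ≠ u → y ≠ u → x ≠ v → y ≠ v → (del G {x, y}).Adj u v := by
    intro u v h h1 h2 h3 h4
    refine ⟨h, ?_, ?_⟩
    · simp only [mem_insert, mem_singleton, not_or]
      exact ⟨fun e => h1 e.symm, fun e => h2 e.symm⟩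
    · simp only [mem_insert, mem_singleton, not_or]
      exact ⟨fun e => h3 e.symm, fun e => h4 e.symm⟩
  have g0c := hH _ _ ((hR.n0 c).2 (by simp)) x2 y1 x6 y5
  have g0c' := hH _ _ ((hR.n0 c').2 (by simp)) x2 y1 x8 y7
  have g1d := hH _ _ ((hR.n1 d).2 (by simp)) x3 y2 x7 y6
  have g1c' := hH _ _ ((hR.n1 c').2 (by simp)) x3 y2 x8 y7
  have g2c := hH _ _ ((hR.n2 c).2 (by simp)) x4 y3 x6 y5
  have g2d' := hH _ _ ((hR.n2 d').2 (by simp)) x4 y3 x9 y8
  have g3d := hH _ _ ((hR.n3 d).2 (by simp)) x5 y4 x7 y6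
  have g3d' := hH _ _ ((hR.n3 d').2 (by simp)) x5 y4 x9 y8
  have gcc' := hH _ _ ((hR.nc c').2 (by simp)) x6 y5 x8 y7
  have gcd' := hH _ _ ((hR.nc d').2 (by simp)) x6 y5 x9 y8
  have gdc' := hH _ _ ((hR.nd' c').2 (by simp)) x7 y6 x8 y7
  have gdd' := hH _ _ ((hR.nd' d').2 (by simp)) x7 y6 x9 y8
  -- `KZ` of the D-pair graphs
  have hDD : ∀ σ : Fin 4 → Fin 4, Function.Injective σ → ¬ G.Adj (s (σ 1)) (s (σ 3)) →
      (∀ q P Q, Sep (del G {x, y}) {s (σ 1), s (σ 3), q} P Q → s (σ 0) ∈ P → s (σ 2) ∈ Q → False) →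
      KZ (DD G x (s (σ 2)) y (s (σ 0))) := by
    intro σ hσ hadj hbad
    have hT := tw hTW σ hσ
    have h1 : NP (DD G x (s (σ 2)) y (s (σ 0))) :=
      @hE5N α _ _ G x y (fun i => s (σ i)) hK hT hNP hadj
    have h2 : C1 (DD G x (s (σ 2)) y (s (σ 0))) :=
      @SpecE5D.c1 hE5D α _ _ G x y (fun i => s (σ i)) hK hT
        fun q P Q hBC => hbad q P Q hBC.2.2.1 hBC.2.2.2.1 hBC.2.2.2.2
    exact (hIH _ (sz_DD ((hTW.nx _).2 ⟨_, rfl⟩)) h2 h1).2
  have hT' := tw hTW ![0, 3, 1, 2] (by decide)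
  have q0 : (![0, 3, 1, 2] : Fin 4 → Fin 4) 0 = 0 := rfl
  have q1 : (![0, 3, 1, 2] : Fin 4 → Fin 4) 1 = 3 := rfl
  have q2 : (![0, 3, 1, 2] : Fin 4 → Fin 4) 2 = 1 := rfl
  have q3 : (![0, 3, 1, 2] : Fin 4 → Fin 4) 3 = 2 := rfl
  have hmain := @hTWR α _ _ G x y _ hK hIH hT'
  rw [q0, q1, q2, q3] at hmain
  refine hmain i03 ?_ ?_ ?_ ?_ ?_
  · -- `G - x + s₀ s₃`
    have h1 : C1 (JP G x (s 0) (s 3)) := by
      have h0 := @hE5J α _ _ G x y _ hK hT'
      rw [q0, q1, q2, q3] at h0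
      refine h0 ?_
      rintro ⟨c₁, d₁, A, B, hnd, hsep, h0A, h3A, h1B, h2B⟩
      have cut : ∀ u a b, a ∈ A → b ∈ B → G.Adj a u → G.Adj b u → x ≠ u → y ≠ u →
          u ∈ ({c₁, d₁} : Finset α) := by
        intro u a b ha hb hau hbu hxu hyu
        rcases hsep.mem_or (right_mem_VS hau) with h | h | h
        · simp only [mem_insert, mem_singleton] at h ⊢
          rcases h with h | h | h | h
          · exact absurd h.symm hxu
          · exact absurd h.symm hyu
          · exact Or.inl h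
          · exact Or.inr h
        · exact absurd hbu.symm (hsep.2.2.2.2 u h b hb)
        · exact absurd hau (hsep.2.2.2.2 a ha u h)
      have m1 := cut c' (s 0) (s 1) h0A h1B g0c'.1 g1c'.1 x8 y7
      have m2 := cut c (s 0) (s 2) h0A h2B g0c.1 g2c.1 x6 y5
      have m3 := cut d (s 3) (s 1) h3A h1B g3d.1 g1d.1 x7 y6
      have h4 : ({c, d, c'} : Finset α) ⊆ {c₁, d₁} := by
        intro u hu
        simp only [mem_insert, mem_singleton] at hu
        rcases hu with rfl | rfl | rfl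
        · exact m2
        · exact m3
        · exact m1
      have h5 := card_le_card h4
      rw [card_eq_three.2 ⟨c, d, c', g1, g2, k1, rfl⟩] at h5
      have h6 := card_le_two (a := c₁) (b := d₁)
      omega
    have h2 : NP (JP G x (s 0) (s 3)) := hNPC.mono le_sup_left hNP
    exact (hIH _ (sz_JP ((hTW.nx _).2 ⟨_, rfl⟩) (Ne.symm x2) (Ne.symm x5)
      (right_mem_VS ((hTW.nx _).2 ⟨3, rfl⟩))) h1 h2).2
  · exact hDD ![0, 2, 1, 3] (by decide) i23 fun q P Q hsep hP hQ =>
      nobad hsep hP hQ g0c' g1c'.symm g0c gcd' gdd'.symm g1d.symm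
        ⟨Ne.symm e4, Ne.symm f3⟩ ⟨Ne.symm e2, Ne.symm f1, g2⟩ ⟨Ne.symm e5, Ne.symm f4, Ne.symm l1⟩
        ⟨Ne.symm e3, Ne.symm f2, k1⟩
  · exact hDD ![3, 0, 1, 2] (by decide) i02 fun q P Q hsep hP hQ =>
      nobad hsep hP hQ g3d g1d.symm g3d' gcd'.symm gcc' g1c'.symm
        ⟨Ne.symm a5, Ne.symm e3⟩ ⟨Ne.symm a7, Ne.symm e5, Ne.symm k2⟩ ⟨Ne.symm a4, Ne.symm e2, g1⟩
        ⟨Ne.symm a6, Ne.symm e4, Ne.symm k1⟩
  · exact hDD ![0, 1, 2, 3] (by decide) i13 fun q P Q hsep hP hQ =>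
      nobad hsep hP hQ g0c g2c.symm g0c' gdc'.symm gdd' g2d'.symm
        ⟨Ne.symm b3, Ne.symm f1⟩ ⟨Ne.symm b5, Ne.symm f3, Ne.symm g2⟩ ⟨Ne.symm b4, Ne.symm f2, Ne.symm g1⟩
        ⟨Ne.symm b6, Ne.symm f4, Ne.symm g3⟩
  · exact hDD ![3, 0, 2, 1] (by decide) i01 fun q P Q hsep hP hQ =>
      nobad hsep hP hQ g3d' g2d'.symm g3d gdc' gcc'.symm g2c.symm
        ⟨Ne.symm a7, Ne.symm b6⟩ ⟨Ne.symm a5, Ne.symm b4, k2⟩ ⟨Ne.symm a6, Ne.symm b5, l1⟩
        ⟨Ne.symm a4, Ne.symm b3, g3⟩

end DL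
end

section
/-!
# TWR: the recipe for twins
-/
open SimpleGraph Finset

namespace DL.TWRM

open DL

variable {α : Type} [Fintype α] [DecidableEq α] {G : SimpleGraph α}

omit [Fintype α] [DecidableEq α] in
theorem sn {a b c d : α} (h : (¬ a = c ∨ ¬ b = d) ∧ (¬ a = d ∨ ¬ b = c)) : s(a, b) ≠ s(c, d) := by
  intro e
  rw [Sym2.eq_iff] at e
  tauto

/-! ## Relabelling -/

omit [Fintype α] [DecidableEq α] in
theorem tw_perm {x y : α} {s : Fin 4 → α} (h : TW G x y s) (σ : Equiv.Perm (Fin 4)) :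
    TW G x y (s ∘ σ) where
  inj := h.inj.comp σ.injective
  xy := h.xy
  sx := fun i => h.sx (σ i)
  nx := fun w => by
    rw [h.nx w]
    exact ⟨fun ⟨i, hi⟩ => ⟨σ.symm i, by simp [hi]⟩, fun ⟨i, hi⟩ => ⟨σ i, hi⟩⟩
  ny := fun w => by
    rw [h.ny w]
    exact ⟨fun ⟨i, hi⟩ => ⟨σ.symm i, by simp [hi]⟩, fun ⟨i, hi⟩ => ⟨σ i, hi⟩⟩

omit [Fintype α] [DecidableEq α] in
theorem tw_symm {x y : α} {s : Fin 4 → α} (h : TW G x y s) : TW G y x s where
  inj := h.inj
  xy := h.xy.symm
  sx := fun i => (h.sx i).symm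
  nx := h.ny
  ny := h.nx

omit [Fintype α] [DecidableEq α] in
theorem tw_of {x y : α} {s t : Fin 4 → α} (h : TW G x y s) (σ : Equiv.Perm (Fin 4))
    (ht : ∀ m, t m = s (σ m)) : TW G x y t := by
  have : t = s ∘ σ := funext ht
  rw [this]
  exact tw_perm h σ

/-! ## Cycles through an edge of a 2-connected graph generate -/

/-- a cycle and two disjoint paths to it -/
theorem gen_cyc {M : SimpleGraph α} (hM : KConn 2 M) {a b : α} (hab : M.Adj a b) {v : Chain α}
    (hv : ∀ C, IsCyc M C → s(a, b) ∈ C → ∑ h ∈ C, v h = 0) {Z : Finset (Sym2 α)}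
    (hZ : IsCyc M Z) : ∑ h ∈ Z, v h = 0 := by
  by_cases he : s(a, b) ∈ Z
  · exact hv Z hZ he
  -- two disjoint paths
  obtain ⟨p, q, P, Q, hp, hq, hP, hQ, hdis, hPZ, hQZ⟩ : ∃ p q P Q, p ∈ vs Z ∧ q ∈ vs Z ∧
      IsPth M a p P ∧ IsPth M b q Q ∧ Disjoint (insert a (vs P)) (insert b (vs Q)) ∧
      (∀ z ∈ insert a (vs P), z ∈ vs Z → z = p) ∧ (∀ z ∈ insert b (vs Q), z ∈ vs Z → z = q) := by
    have hAB : ({a, b} : Finset α) ⊆ VS M := by
      intro z hz
      rw [mem_insert, mem_singleton] at hz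
      rcases hz with rfl | rfl
      · exact left_mem_VS hab
      · exact right_mem_VS hab
    have hcard : 2 ≤ (vs Z).card := by
      obtain ⟨e, heZ⟩ := hZ.nonempty
      induction e using Sym2.ind with
      | _ c d =>
        have hcd : c ≠ d := (hZ.adj_of_mem heZ).ne
        calc 2 = ({c, d} : Finset α).card := (card_pair hcd).symm
          _ ≤ _ := card_le_card (by
            intro z hz
            rw [mem_insert, mem_singleton] at hz
            rcases hz with rfl | rfl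
            · exact left_mem_vs heZ
            · exact right_mem_vs heZ)
    obtain ⟨x, y, P, hx, hy, hP, hdis, hA, hB⟩ := hM.linked (A := {a, b}) (B := vs Z) hAB
      hZ.vs_subset (by rw [card_pair hab.ne]) hcard
    have h01 := hdis 0 1 (by decide)
    have hx01 : x 0 ≠ x 1 := fun e =>
      Finset.disjoint_left.1 h01 (mem_insert_self _ _) (e ▸ mem_insert_self _ _)
    have hx0 := hx 0
    have hx1 := hx 1
    rw [mem_insert, mem_singleton] at hx0 hx1
    have hP0 := hP 0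
    have hP1 := hP 1
    have hB0 := hB 0
    have hB1 := hB 1
    rcases hx0 with h | h <;> rcases hx1 with h' | h'
    · exact absurd (h.trans h'.symm) hx01
    · rw [h] at h01 hP0 hB0
      rw [h'] at h01 hP1 hB1
      exact ⟨y 0, y 1, P 0, P 1, hy 0, hy 1, hP0, hP1, h01, hB0, hB1⟩
    · rw [h] at h01 hP0 hB0
      rw [h'] at h01 hP1 hB1
      exact ⟨y 1, y 0, P 1, P 0, hy 1, hy 0, hP1, hP0, h01.symm, hB1, hB0⟩
    · exact absurd (h.trans h'.symm) hx01
  have hpq : p ≠ q := by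
    rintro rfl
    exact Finset.disjoint_left.1 hdis hP.end_mem hQ.end_mem
  obtain ⟨R, R', hR, hR', hRR, hdR, hvR⟩ := hZ.split hp hq hpq
  have hRZ : vs R ⊆ vs Z := vs_mono (hRR ▸ subset_union_left)
  have hRZ' : vs R' ⊆ vs Z := vs_mono (hRR ▸ subset_union_right)
  -- the cycle with a part of Z
  have key : ∀ R : Finset (Sym2 α), IsPth M p q R → vs R ⊆ vs Z → R ⊆ Z →
      ∑ h ∈ P, v h + ∑ h ∈ Q, v h + ∑ h ∈ R, v h + v s(a, b) = 0 := by
    intro R hR hRZ hRs
    have h1 : vs P ∩ vs R ⊆ {p} := by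
      intro z hz
      rw [mem_inter] at hz
      rw [mem_singleton]
      exact hPZ z (mem_insert_of_mem hz.1) (hRZ hz.2)
    have hPR : IsPth M a q (P ∪ R) := hP.append hR h1
    have hdPR : Disjoint P R := hP.append_disjoint h1
    have h2 : vs (P ∪ R) ∩ vs Q ⊆ {q} := by
      intro z hz
      rw [mem_inter, mem_vs_union] at hz
      rw [mem_singleton]
      rcases hz.1 with h | h
      · exact absurd (mem_insert_of_mem hz.2)
          (Finset.disjoint_left.1 hdis (mem_insert_of_mem h))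
      · exact hQZ z (mem_insert_of_mem hz.2) (hRZ h)
    have hPRQ : IsPth M a b ((P ∪ R) ∪ Q) := hPR.append hQ.symm h2
    have hdPRQ : Disjoint (P ∪ R) Q := hPR.append_disjoint h2
    have hn : s(a, b) ∉ (P ∪ R) ∪ Q := by
      rw [mem_union, mem_union]
      rintro ((h | h) | h)
      · exact Finset.disjoint_left.1 hdis (mem_insert_of_mem (right_mem_vs h))
          (mem_insert_self _ _)
      · exact he (hRs h)
      · exact Finset.disjoint_left.1 hdis (mem_insert_self _ _)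
          (mem_insert_of_mem (left_mem_vs h))
    have hC := hPRQ.isCyc hab hn
    have h3 := hv _ hC (mem_insert_self _ _)
    rw [sum_insert hn, sum_union hdPRQ, sum_union hdPR] at h3
    rw [← h3]
    ring
  have k1 := key R hR hRZ (hRR ▸ subset_union_left)
  have k2 := key R' hR' hRZ' (hRR ▸ subset_union_right)
  rw [← hRR, sum_union hdR]
  generalize ∑ h ∈ P, v h = A at k1 k2
  generalize ∑ h ∈ Q, v h = B at k1 k2
  generalize ∑ h ∈ R, v h = C at k1 k2 ⊢
  generalize ∑ h ∈ R', v h = D at k1 k2 ⊢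
  generalize v s(a, b) = E at k1 k2
  revert A B C D E
  decide

theorem gen {M : SimpleGraph α} (hM : KConn 2 M) {a b : α} (hab : M.Adj a b) {v : Chain α}
    (hv : ∀ C, IsCyc M C → s(a, b) ∈ C → ∑ h ∈ C, v h = 0) :
    ∀ c ∈ Z1 M, ∑ e, v e * c e = 0 := by
  refine Z1_induction (by simp) ?_
  intro C c hC _ _ ih
  have h1 : ∑ e, v e * (chi C + c) e = ∑ e, v e * chi C e + ∑ e, v e * c e := by
    rw [← sum_add_distrib]
    refine sum_congr rfl fun e _ => ?_
    rw [Pi.add_apply, mul_add]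
  rw [h1, ih, sum_mul_chi, gen_cyc hM hab hv hC, add_zero]

/-! ## Adding a vertex to a 2-connected graph -/

theorem add2 {M : SimpleGraph α} {u a b : α} (h : KConn 2 (del M {u})) (ha : M.Adj u a)
    (hb : M.Adj u b) (hab : a ≠ b) (hu : ∀ w, M.Adj u w → w ∈ VS (del M {u})) : KConn 2 M := by
  have hle : VS (del M {u}) ⊆ VS M := VS_mono (del_le M {u})
  have hV : ∀ v ∈ VS M, v ≠ u → v ∈ VS (del M {u}) := by
    intro v hv hvu
    obtain ⟨w, hw⟩ := mem_VS.1 hv
    by_cases hwu : w = u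
    · exact hu v (hwu ▸ hw.symm)
    · exact mem_VS.2 ⟨w, hw, by simpa using hvu, by simpa using hwu⟩
  refine ⟨lt_of_lt_of_le h.1 (card_le_card hle), fun S hS => ?_⟩
  -- every vertex different from u is connected to a fixed one
  have hsub : del (del M {u}) (S.erase u) ≤ del M S := by
    intro p q hpq
    obtain ⟨⟨h1, h2, h3⟩, h4, h5⟩ := hpq
    rw [mem_singleton] at h2 h3
    refine ⟨h1, fun h => h4 (mem_erase.2 ⟨h2, h⟩), fun h => h5 (mem_erase.2 ⟨h3, h⟩)⟩
  have hmain : ∀ p ∈ VS M, ∀ q ∈ VS M, p ∉ S → q ∉ S → p ≠ u → q ≠ u →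
      (del M S).Reachable p q := by
    intro p hp q hq hpS hqS hpu hqu
    refine Reachable.mono hsub ?_
    exact h.reach (lt_of_le_of_lt (card_le_card (erase_subset _ _)) hS) (hV p hp hpu)
      (hV q hq hqu) (fun h => hpS (mem_of_mem_erase h)) (fun h => hqS (mem_of_mem_erase h))
  -- u is attached
  have huS : u ∉ S → ∃ w ∈ VS M, w ∉ S ∧ w ≠ u ∧ (del M S).Reachable u w := by
    intro hu'
    have : a ∉ S ∨ b ∉ S := by
      by_contra hcon
      push Not at hcon
      have : 2 ≤ S.card := by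
        calc 2 = ({a, b} : Finset α).card := (card_pair hab).symm
          _ ≤ _ := card_le_card (by
            intro z hz
            rw [mem_insert, mem_singleton] at hz
            rcases hz with rfl | rfl
            · exact hcon.1
            · exact hcon.2)
      omega
    rcases this with h1 | h1
    · exact ⟨a, right_mem_VS ha, h1, ha.ne.symm, Adj.reachable ⟨ha, hu', h1⟩⟩
    · exact ⟨b, right_mem_VS hb, h1, hb.ne.symm, Adj.reachable ⟨hb, hu', h1⟩⟩
  intro p hp q hq hpS hqS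
  by_cases hpu : p = u <;> by_cases hqu : q = u
  · rw [hpu, hqu]
  · obtain ⟨w, hw, hwS, hwu, hr⟩ := huS (hpu ▸ hpS)
    rw [hpu]
    exact hr.trans (hmain w hw q hq hwS hqS hwu hqu)
  · obtain ⟨w, hw, hwS, hwu, hr⟩ := huS (hqu ▸ hqS)
    rw [hqu]
    exact (hmain p hp w hw hpS hwS hpu hwu).trans hr.symm
  · exact hmain p hp q hq hpS hqS hpu hqu

/-- `x`, `y` are adjacent exactly to `k, l, i, j` -/
structure Q4 (G : SimpleGraph α) (x y k l i j : α) : Prop where
  nd : [x, y, k, l, i, j].Nodup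
  nx : ∀ w, G.Adj x w ↔ w = k ∨ w = l ∨ w = i ∨ w = j
  ny : ∀ w, G.Adj y w ↔ w = k ∨ w = l ∨ w = i ∨ w = j

omit [Fintype α] [DecidableEq α] in
theorem q4 {x y : α} {s : Fin 4 → α} (h : TW G x y s) : Q4 G x y (s 0) (s 1) (s 2) (s 3) where
  nd := by
    have h1 := h.xy
    have h2 : ∀ i j, s i = s j → i = j := fun i j e => h.inj e
    have h01 : s 0 ≠ s 1 := fun e => absurd (h2 _ _ e) (by decide)
    have h02 : s 0 ≠ s 2 := fun e => absurd (h2 _ _ e) (by decide)
    have h03 : s 0 ≠ s 3 := fun e => absurd (h2 _ _ e) (by decide)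
    have h12 : s 1 ≠ s 2 := fun e => absurd (h2 _ _ e) (by decide)
    have h13 : s 1 ≠ s 3 := fun e => absurd (h2 _ _ e) (by decide)
    have h23 : s 2 ≠ s 3 := fun e => absurd (h2 _ _ e) (by decide)
    have hx := fun i => (h.sx i).1.symm
    have hy := fun i => (h.sx i).2.symm
    simp only [List.nodup_cons, List.mem_cons, List.not_mem_nil, or_false, not_or,
      not_false_eq_true, List.nodup_nil, and_true]
    exact ⟨⟨h1, hx 0, hx 1, hx 2, hx 3⟩, ⟨hy 0, hy 1, hy 2, hy 3⟩, ⟨h01, h02, h03⟩,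
      ⟨h12, h13⟩, h23⟩
  nx := fun w => by
    rw [h.nx w]
    exact ⟨fun ⟨i, hi⟩ => by fin_cases i <;> simp_all, fun h => by
      rcases h with h | h | h | h
      exacts [⟨0, h⟩, ⟨1, h⟩, ⟨2, h⟩, ⟨3, h⟩]⟩
  ny := fun w => by
    rw [h.ny w]
    exact ⟨fun ⟨i, hi⟩ => by fin_cases i <;> simp_all, fun h => by
      rcases h with h | h | h | h
      exacts [⟨0, h⟩, ⟨1, h⟩, ⟨2, h⟩, ⟨3, h⟩]⟩

theorem s3s {x y k l i j : α} (h4 : KConn 4 G) (q : Q4 G x y k l i j) (hkl : ¬ G.Adj k l) :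
    S3S (delE (delE (delE G y k) x j) x i) := by
  have nd := q.nd
  simp only [List.nodup_cons, List.mem_cons, List.not_mem_nil, or_false, not_or,
    not_false_eq_true, List.nodup_nil, and_true] at nd
  obtain ⟨⟨hxy, hxk, hxl, hxi, hxj⟩, ⟨hyk, hyl, hyi, hyj⟩, ⟨hk_l, hki, hkj⟩, ⟨hli, hlj⟩, hij⟩ := nd
  have axk := (q.nx k).2 (by simp)
  have axl := (q.nx l).2 (by simp)
  have axi := (q.nx i).2 (by simp)
  have axj := (q.nx j).2 (by simp)
  have ayk := (q.ny k).2 (by simp)
  have ayl := (q.ny l).2 (by simp)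
  have ayi := (q.ny i).2 (by simp)
  have ayj := (q.ny j).2 (by simp)
  set N := delE (delE (delE G y k) x j) x i with hN
  have hNa : ∀ a b, N.Adj a b ↔ G.Adj a b ∧ s(a, b) ≠ s(y, k) ∧ s(a, b) ≠ s(x, j) ∧
      s(a, b) ≠ s(x, i) := by
    intro a b
    rw [hN, delE_adj, delE_adj, delE_adj]
    tauto
  have hNle : N ≤ G := fun a b hab => ((hNa a b).1 hab).1
  have nxk : N.Adj x k := (hNa _ _).2 ⟨axk, by constructor <;> [skip; constructor] <;> exact sn (by grind)⟩
  have nxl : N.Adj x l := (hNa _ _).2 ⟨axl, by constructor <;> [skip; constructor] <;> exact sn (by grind)⟩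
  have nyl : N.Adj y l := (hNa _ _).2 ⟨ayl, by constructor <;> [skip; constructor] <;> exact sn (by grind)⟩
  have nyi : N.Adj y i := (hNa _ _).2 ⟨ayi, by constructor <;> [skip; constructor] <;> exact sn (by grind)⟩
  have nyj : N.Adj y j := (hNa _ _).2 ⟨ayj, by constructor <;> [skip; constructor] <;> exact sn (by grind)⟩
  have nx : ∀ w, N.Adj x w ↔ w = k ∨ w = l := by
    intro w
    constructor
    · intro h
      obtain ⟨h1, h2, h3, h4⟩ := (hNa _ _).1 h
      rcases (q.nx w).1 h1 with h | h | h | h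
      · exact Or.inl h
      · exact Or.inr h
      · exact absurd (by rw [h]) h4
      · exact absurd (by rw [h]) h3
    · rintro (rfl | rfl)
      · exact nxk
      · exact nxl
  -- G - x
  have hJ3 : KConn 3 (del G {x}) := h4.del_vertex (by norm_num) x
  have hVJ : VS (del G {x}) = VS G \ {x} := h4.VS_del (by simp)
  have hdN : del N {x} = delE (del G {x}) y k := by
    ext a b
    rw [del_adj, hNa, delE_adj, del_adj]
    constructor
    · rintro ⟨⟨h1, h2, h3, h4⟩, h5, h6⟩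
      exact ⟨⟨h1, h5, h6⟩, h2⟩
    · rintro ⟨⟨h1, h5, h6⟩, h2⟩
      refine ⟨⟨h1, h2, ?_, ?_⟩, h5, h6⟩
      · intro e
        rw [mem_singleton] at h5 h6
        rw [Sym2.eq_iff] at e
        rcases e with ⟨e, _⟩ | ⟨_, e⟩
        · exact h5 e
        · exact h6 e
      · intro e
        rw [mem_singleton] at h5 h6
        rw [Sym2.eq_iff] at e
        rcases e with ⟨e, _⟩ | ⟨_, e⟩
        · exact h5 e
        · exact h6 e
  have hVdN : VS (del N {x}) = VS G \ {x} := by
    rw [hdN, VS_delE fun v hv => le_trans (by norm_num) (hJ3.le_nbs hv), hVJ]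
  have hVN : VS N = VS G := by
    apply Subset.antisymm (VS_mono hNle)
    intro v hv
    by_cases hvx : v = x
    · rw [hvx]; exact left_mem_VS nxk
    · have : v ∈ VS (del N {x}) := by
        rw [hVdN, mem_sdiff, mem_singleton]; exact ⟨hv, hvx⟩
      exact VS_mono (del_le N {x}) this
  have h2 : KConn 2 N := by
    refine add2 (u := x) (a := k) (b := l) ?_ nxk nxl hk_l ?_
    · rw [hdN]; exact hJ3.delE (by norm_num) y k
    · intro w hw
      rw [hVdN, mem_sdiff, mem_singleton]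
      exact ⟨right_mem_VS (hNle hw), hw.ne.symm⟩
  refine ⟨h2, ⟨y, l, i, j, hli, hlj, hij, nyl, nyi, nyj⟩, ?_⟩
  -- A₃
  have hA3 : KConn 3 (delE G y k) := h4.delE (by norm_num) y k
  have hVA3 : VS (delE G y k) = VS G := VS_delE fun v hv => le_trans (by norm_num) (h4.le_nbs hv)
  intro p q' hpq
  by_cases hx : x = p ∨ x = q'
  · left
    intro a ha b hb haS hbS
    have hle : del (delE G y k) {p, q'} ≤ del N {p, q'} := by
      intro a b hab
      obtain ⟨h1, h2, h3⟩ := hab
      rw [delE_adj] at h1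
      rw [mem_insert, mem_singleton, not_or] at h2 h3
      refine ⟨(hNa _ _).2 ⟨h1.1, h1.2, ?_, ?_⟩, by rw [mem_insert, mem_singleton, not_or]; exact h2,
        by rw [mem_insert, mem_singleton, not_or]; exact h3⟩
      · intro e
        rw [Sym2.eq_iff] at e
        rcases e with ⟨e, _⟩ | ⟨_, e⟩ <;> rcases hx with hx | hx
        · exact h2.1 (e.trans hx)
        · exact h2.2 (e.trans hx)
        · exact h3.1 (e.trans hx)
        · exact h3.2 (e.trans hx)
      · intro e
        rw [Sym2.eq_iff] at e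
        rcases e with ⟨e, _⟩ | ⟨_, e⟩ <;> rcases hx with hx | hx
        · exact h2.1 (e.trans hx)
        · exact h2.2 (e.trans hx)
        · exact h3.1 (e.trans hx)
        · exact h3.2 (e.trans hx)
    rw [hVN] at ha hb
    exact (hA3.reach (lt_of_le_of_lt card_le_two (by norm_num)) (by rw [hVA3]; exact ha)
      (by rw [hVA3]; exact hb) haS hbS).mono hle
  rw [not_or] at hx
  by_cases hc : ConnOff N {p, q'}
  · exact Or.inl hc
  right
  -- a separation with `x` in `P`
  obtain ⟨P, Q, hsep, hxP, hQne⟩ : ∃ P Q, Sep N ({p, q'} ∩ VS N) P Q ∧ x ∈ P ∧ Q.Nonempty := by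
    unfold ConnOff at hc
    push Not at hc
    obtain ⟨a, ha, b, hb, haS, hbS, hr⟩ := hc
    obtain ⟨P, Q, h1, h2, h3, _⟩ := exists_sep_of_not_reachable ha hb haS hbS hr
    rcases h1.mem_or (left_mem_VS nxk) with h | h | h
    · rw [mem_inter, mem_insert, mem_singleton] at h
      exact absurd h.1 (not_or.2 hx)
    · exact ⟨P, Q, h1, h, ⟨b, h3⟩⟩
    · exact ⟨Q, P, h1.symm, h, ⟨a, h2⟩⟩
  have hdP : ∀ v, v ∈ P → v ∉ Q := fun v hv => Finset.disjoint_left.1 hsep.2.2.2.1 hv
  have hdS : ∀ v, v ∈ P → v ≠ p ∧ v ≠ q' := by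
    intro v hv
    have h1 := Finset.disjoint_right.1 hsep.2.1 hv
    rw [mem_inter, mem_insert, mem_singleton] at h1
    have h2 := hsep.subP hv
    tauto
  have hdSQ : ∀ v, v ∈ Q → v ≠ p ∧ v ≠ q' := by
    intro v hv
    have h1 := Finset.disjoint_right.1 hsep.2.2.1 hv
    rw [mem_inter, mem_insert, mem_singleton] at h1
    have h2 := hsep.subQ hv
    tauto
  have hmem : ∀ v ∈ VS G, (v = p ∨ v = q') ∨ v ∈ P ∨ v ∈ Q := by
    intro v hv
    rcases hsep.mem_or (v := v) (by rw [hVN]; exact hv) with h | h | h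
    · rw [mem_inter, mem_insert, mem_singleton] at h
      exact Or.inl h.1
    · exact Or.inr (Or.inl h)
    · exact Or.inr (Or.inr h)
  have hP : ∀ u v, u ∈ P → N.Adj u v → (v = p ∨ v = q') ∨ v ∈ P := by
    intro u v hu huv
    rcases hmem v (right_mem_VS (hNle huv)) with h | h | h
    · exact Or.inl h
    · exact Or.inr h
    · exact absurd huv (hsep.2.2.2.2 u hu v h)
  have hQ : ∀ u v, u ∈ Q → N.Adj u v → (v = p ∨ v = q') ∨ v ∈ Q := by
    intro u v hu huv
    rcases hmem v (right_mem_VS (hNle huv)) with h | h | h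
    · exact Or.inl h
    · exact absurd huv.symm (hsep.2.2.2.2 v h u hu)
    · exact Or.inr h
  have hkP := hP x k hxP nxk
  have hlP := hP x l hxP nxl
  by_cases hB : k ∈ P ∧ y ∈ Q
  · -- impossible
    exfalso
    obtain ⟨hkP, hyQ⟩ := hB
    have hl : l = p ∨ l = q' := by
      rcases hlP with h | h
      · exact h
      · rcases hQ y l hyQ nyl with h' | h'
        · exact h'
        · exact absurd h' (hdP l h)
    have hi := hQ y i hyQ nyi
    have hj := hQ y j hyQ nyj
    have hD : ∀ u ∈ P, u = x ∨ u = k := by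
      intro d hd
      by_contra hcon
      rw [not_or] at hcon
      have hS : ({k, p, q'} : Finset α).card < 4 := lt_of_le_of_lt card_le_three (by norm_num)
      have hr := h4.reach hS (hVN ▸ hsep.subP hd) (hVN ▸ hsep.subQ hyQ)
        (by
          simp only [mem_insert, mem_singleton, not_or]
          exact ⟨hcon.2, hdS d hd⟩)
        (by
          simp only [mem_insert, mem_singleton, not_or]
          exact ⟨hyk, hdSQ y hyQ⟩)
      have : y ∈ P ∧ y ≠ x ∧ y ≠ k := by
        refine mem_of_reachable (X := {v | v ∈ P ∧ v ≠ x ∧ v ≠ k}) hr ⟨hd, hcon⟩ ?_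
        rintro u w ⟨huw, hu1, hw1⟩ ⟨huP, hux, huk⟩
        simp only [mem_insert, mem_singleton, not_or] at hu1 hw1
        have hwP : w ∈ P := by
          by_cases hN' : N.Adj u w
          · rcases hP u w huP hN' with h | h
            · rcases h with h | h
              · exact absurd h hw1.2.1
              · exact absurd h hw1.2.2
            · exact h
          · exfalso
            apply hN'
            refine (hNa _ _).2 ⟨huw, ?_, ?_, ?_⟩
            · intro e
              rw [Sym2.eq_iff] at e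
              rcases e with ⟨e, _⟩ | ⟨e, _⟩
              · exact hdP u huP (e ▸ hyQ)
              · exact huk e
            · intro e
              rw [Sym2.eq_iff] at e
              rcases e with ⟨e, _⟩ | ⟨e, _⟩
              · exact hux e
              · rcases hj with h | h
                · rcases h with h | h
                  · exact (hdS u huP).1 (e.trans h)
                  · exact (hdS u huP).2 (e.trans h)
                · exact hdP u huP (e ▸ h)
            · intro e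
              rw [Sym2.eq_iff] at e
              rcases e with ⟨e, _⟩ | ⟨e, _⟩
              · exact hux e
              · rcases hi with h | h
                · rcases h with h | h
                  · exact (hdS u huP).1 (e.trans h)
                  · exact (hdS u huP).2 (e.trans h)
                · exact hdP u huP (e ▸ h)
        refine ⟨hwP, ?_, hw1.1⟩
        rintro rfl
        rcases (q.nx u).1 huw.symm with h | h | h | h
        · exact huk h
        · rcases hl with h' | h'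
          · exact (hdS u huP).1 (h.trans h')
          · exact (hdS u huP).2 (h.trans h')
        · rcases hi with h' | h'
          · rcases h' with h' | h'
            · exact (hdS u huP).1 (h.trans h')
            · exact (hdS u huP).2 (h.trans h')
          · exact hdP u huP (h ▸ h')
        · rcases hj with h' | h'
          · rcases h' with h' | h'
            · exact (hdS u huP).1 (h.trans h')
            · exact (hdS u huP).2 (h.trans h')
          · exact hdP u huP (h ▸ h')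
      exact hdP y this.1 hyQ
    have hsub : nbs G k ⊆ {x, y, p, q'} := by
      intro w hw
      rw [mem_nbs] at hw
      simp only [mem_insert, mem_singleton]
      by_cases hwy : w = y
      · exact Or.inr (Or.inl hwy)
      by_cases hwx : w = x
      · exact Or.inl hwx
      have hN' : N.Adj k w := by
        refine (hNa _ _).2 ⟨hw, ?_, ?_, ?_⟩ <;> intro e <;> rw [Sym2.eq_iff] at e <;>
          rcases e with ⟨e1, e2⟩ | ⟨e1, e2⟩
        · exact hyk e1.symm
        · exact hwy e2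
        · exact hxk e1.symm
        · exact hwx e2
        · exact hxk e1.symm
        · exact hwx e2
      rcases hP k w hkP hN' with h | h
      · exact Or.inr (Or.inr h)
      · rcases hD w h with h | h
        · exact absurd h hwx
        · exact absurd h hw.ne.symm
    have hcard : ({x, y, p, q'} : Finset α).card ≤ (nbs G k).card :=
      le_trans card_le_four (h4.le_nbs (left_mem_VS axk.symm))
    have heq := Finset.eq_of_subset_of_card_le hsub hcard
    apply hkl
    rw [← mem_nbs, heq]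
    simp only [mem_insert, mem_singleton]
    exact Or.inr (Or.inr hl)
  · -- `P = {x}`
    have hyk' : ∀ u ∈ P, ∀ w ∈ Q, s(u, w) ≠ s(y, k) := by
      intro u hu w hw e
      rw [Sym2.eq_iff] at e
      rcases e with ⟨_, e⟩ | ⟨e1, e2⟩
      · rcases hkP with h | h
        · rcases h with h | h
          · exact (hdSQ w hw).1 (e.trans h)
          · exact (hdSQ w hw).2 (e.trans h)
        · exact hdP k h (e ▸ hw)
      · exact hB ⟨e1 ▸ hu, e2 ▸ hw⟩
    have hPx : ∀ u ∈ P, u = x := by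
      intro d hd
      by_contra hdx
      obtain ⟨b, hb⟩ := hQne
      have hS : ({x, p, q'} : Finset α).card < 4 := lt_of_le_of_lt card_le_three (by norm_num)
      have hr := h4.reach hS (hVN ▸ hsep.subP hd) (hVN ▸ hsep.subQ hb)
        (by
          simp only [mem_insert, mem_singleton, not_or]
          exact ⟨hdx, hdS d hd⟩)
        (by
          simp only [mem_insert, mem_singleton, not_or]
          exact ⟨fun e => hdP x hxP (e ▸ hb), hdSQ b hb⟩)
      have : b ∈ P := by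
        refine mem_of_reachable (X := {v | v ∈ P}) hr hd ?_
        rintro u w ⟨huw, hu1, hw1⟩ huP
        simp only [mem_insert, mem_singleton, not_or] at hu1 hw1
        rcases hmem w (right_mem_VS huw) with h | h | h
        · rcases h with h | h
          · exact absurd h hw1.2.1
          · exact absurd h hw1.2.2
        · exact h
        · exfalso
          refine hsep.2.2.2.2 u huP w h ((hNa _ _).2 ⟨huw, hyk' u huP w h, ?_, ?_⟩) <;> intro e <;>
            rw [Sym2.eq_iff] at e <;> rcases e with ⟨e1, e2⟩ | ⟨e1, e2⟩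
          · exact hu1.1 e1
          · exact hw1.1 e2
          · exact hu1.1 e1
          · exact hw1.1 e2
      exact hdP b this hb
    have hk' : k = p ∨ k = q' := hkP.resolve_right fun h => hxk (hPx k h).symm
    have hl' : l = p ∨ l = q' := hlP.resolve_right fun h => hxl (hPx l h).symm
    have hset : (p = k ∧ q' = l) ∨ (p = l ∧ q' = k) := by
      rcases hk' with h | h <;> rcases hl' with h' | h'
      · exact absurd (h.trans h'.symm) hk_l
      · exact Or.inl ⟨h.symm, h'.symm⟩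
      · exact Or.inr ⟨h'.symm, h.symm⟩
      · exact absurd (h.trans h'.symm) hk_l
    refine ⟨x, ?_, ?_, ?_⟩
    · intro w
      rw [nx w]
      rcases hset with ⟨h, h'⟩ | ⟨h, h'⟩
      · rw [h, h']
      · rw [h, h']; exact or_comm
    · intro hN'
      rcases hset with ⟨h, h'⟩ | ⟨h, h'⟩
      · rw [h, h'] at hN'; exact hkl (hNle hN')
      · rw [h, h'] at hN'; exact hkl (hNle hN').symm
    · intro a ha b hb haS hbS
      rw [hVN] at ha hb
      have hS : ({p, q', x} : Finset α).card < 4 := lt_of_le_of_lt card_le_three (by norm_num)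
      refine (h4.reach hS ha hb haS hbS).mono ?_
      rintro u w ⟨huw, hu1, hw1⟩
      refine ⟨(hNa _ _).2 ⟨huw, ?_, ?_, ?_⟩, hu1, hw1⟩ <;> intro e <;>
        simp only [mem_insert, mem_singleton, not_or] at hu1 hw1 <;>
        rw [Sym2.eq_iff] at e <;> rcases e with ⟨e1, e2⟩ | ⟨e1, e2⟩
      · rcases hk' with h | h
        · exact hw1.1 (e2.trans h)
        · exact hw1.2.1 (e2.trans h)
      · rcases hk' with h | h
        · exact hu1.1 (e1.trans h)
        · exact hu1.2.1 (e1.trans h)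
      · exact hu1.2.2 e1
      · exact hw1.2.2 e2
      · exact hu1.2.2 e1
      · exact hw1.2.2 e2

/-- the graph in which `x`, `y` are attached to `i`, `j` only -/
def MM (G : SimpleGraph α) (x y k l : α) : SimpleGraph α :=
  delE (delE (delE (delE G x k) x l) y k) y l

theorem MM_adj {x y k l a b : α} : (MM G x y k l).Adj a b ↔ G.Adj a b ∧ s(a, b) ≠ s(x, k) ∧
    s(a, b) ≠ s(x, l) ∧ s(a, b) ≠ s(y, k) ∧ s(a, b) ≠ s(y, l) := by
  rw [MM, delE_adj, delE_adj, delE_adj, delE_adj]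
  tauto

theorem MM_cyc {x y k l : α} {C : Finset (Sym2 α)} : IsCyc (MM G x y k l) C ↔ IsCyc G C ∧
    s(x, k) ∉ C ∧ s(x, l) ∉ C ∧ s(y, k) ∉ C ∧ s(y, l) ∉ C := by
  rw [MM, isCyc_delE, isCyc_delE, isCyc_delE, isCyc_delE]
  tauto

theorem MM_two {x y k l i j : α} (h4 : KConn 4 G) (q : Q4 G x y k l i j) :
    KConn 2 (MM G x y k l) := by
  have nd := q.nd
  simp only [List.nodup_cons, List.mem_cons, List.not_mem_nil, or_false, not_or,
    not_false_eq_true, List.nodup_nil, and_true] at nd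
  obtain ⟨⟨hxy, hxk, hxl, hxi, hxj⟩, ⟨hyk, hyl, hyi, hyj⟩, ⟨hk_l, hki, hkj⟩, ⟨hli, hlj⟩, hij⟩ := nd
  have axi := (q.nx i).2 (by simp)
  have axj := (q.nx j).2 (by simp)
  have ayi := (q.ny i).2 (by simp)
  have ayj := (q.ny j).2 (by simp)
  set M := MM G x y k l with hM
  have mxi : M.Adj x i := MM_adj.2 ⟨axi, by refine ⟨?_, ?_, ?_, ?_⟩ <;> exact sn (by grind)⟩
  have mxj : M.Adj x j := MM_adj.2 ⟨axj, by refine ⟨?_, ?_, ?_, ?_⟩ <;> exact sn (by grind)⟩
  have myi : M.Adj y i := MM_adj.2 ⟨ayi, by refine ⟨?_, ?_, ?_, ?_⟩ <;> exact sn (by grind)⟩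
  have myj : M.Adj y j := MM_adj.2 ⟨ayj, by refine ⟨?_, ?_, ?_, ?_⟩ <;> exact sn (by grind)⟩
  have hH : KConn 2 (del G {x, y}) := h4.del_pair (k := 2) (by norm_num) x y
  have hVH : VS (del G {x, y}) = VS G \ {x, y} := h4.VS_del (lt_of_le_of_lt card_le_two (by norm_num))
  have hdd : del (del M {x}) {y} = del G {x, y} := by
    rw [del_del]
    ext a b
    have e : ({x} ∪ {y} : Finset α) = {x, y} := rfl
    rw [e, del_adj, del_adj, MM_adj]
    constructor
    · rintro ⟨⟨h1, -⟩, h2, h3⟩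
      exact ⟨h1, h2, h3⟩
    · rintro ⟨h1, h2, h3⟩
      refine ⟨⟨h1, ?_⟩, h2, h3⟩
      rw [mem_insert, mem_singleton, not_or] at h2 h3
      obtain ⟨h21, h22⟩ := h2
      obtain ⟨h31, h32⟩ := h3
      refine ⟨?_, ?_, ?_, ?_⟩ <;> exact sn (by grind)
  have d : ∀ a b, M.Adj a b → a ≠ x → b ≠ x → (del M {x}).Adj a b := fun a b h h1 h2 =>
    ⟨h, by simpa using h1, by simpa using h2⟩
  have hyV : ∀ w, (del M {x}).Adj y w → w ∈ VS (del (del M {x}) {y}) := by
    intro w hw
    rw [hdd, hVH, mem_sdiff, mem_insert, mem_singleton, not_or]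
    refine ⟨right_mem_VS (MM_adj.1 hw.1).1, fun e => hw.2.2 (by simp [e]), hw.ne.symm⟩
  have hM1 : KConn 2 (del M {x}) := by
    refine add2 (u := y) (a := i) (b := j) ?_ (d _ _ myi (Ne.symm hxy) (Ne.symm hxi))
      (d _ _ myj (Ne.symm hxy) (Ne.symm hxj)) hij hyV
    rw [hdd]
    exact hH
  refine add2 (u := x) (a := i) (b := j) hM1 mxi mxj hij ?_
  intro w hw
  -- `w` is a vertex of `G - x - y`
  have h1 : w ≠ x := hw.ne.symm
  have h2 : w ≠ y := by
    rintro rfl
    rcases (q.nx w).1 (MM_adj.1 hw).1 with h | h | h | h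
    exacts [hyk h, hyl h, hyi h, hyj h]
  have : w ∈ VS (del (del M {x}) {y}) := by
    rw [hdd, hVH, mem_sdiff, mem_insert, mem_singleton, not_or]
    exact ⟨right_mem_VS (MM_adj.1 hw).1, h1, h2⟩
  exact VS_mono (del_le _ _) this

/-! ## The `D_4` minor -/

/-- the `D_4` minor with the trees `{x}`, `P`, `{y}`, `P'` -/
theorem d4 {x y k l i j : α} (q : Q4 G x y k l i j) {P P' : Finset (Sym2 α)}
    (hP : IsPth G i k P) (hP' : IsPth G l j P') (hdis : Disjoint (vs P) (vs P'))
    (hxP : x ∉ vs P) (hyP : y ∉ vs P) (hxP' : x ∉ vs P') (hyP' : y ∉ vs P') :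
    ∃ D : D4M G, (∀ e, (e 0 = true → s(x, k) ∈ D.cyc e) ∧ (e 1 = true → s(y, i) ∈ D.cyc e) ∧
      (e 2 = true → s(y, j) ∈ D.cyc e) ∧ (e 3 = true → s(x, l) ∈ D.cyc e) ∧
      (e 0 = false → s(x, i) ∈ D.cyc e) ∧ (e 1 = false → s(y, k) ∈ D.cyc e) ∧
      (e 2 = false → s(y, l) ∈ D.cyc e) ∧ (e 3 = false → s(x, j) ∈ D.cyc e)) ∧
      D.cyc (fun _ => false) = {s(x, i), s(y, k), s(y, l), s(x, j)} ∪ P ∪ P' := by
  have nd := q.nd
  simp only [List.nodup_cons, List.mem_cons, List.not_mem_nil, or_false, not_or,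
    not_false_eq_true, List.nodup_nil, and_true] at nd
  obtain ⟨⟨hxy, hxk, hxl, hxi, hxj⟩, ⟨hyk, hyl, hyi, hyj⟩, ⟨hk_l, hki, hkj⟩, ⟨hli, hlj⟩, hij⟩ := nd
  have hi : i ∈ vs P := hP.left_mem (Ne.symm hki)
  have hk : k ∈ vs P := hP.right_mem (Ne.symm hki)
  have hl : l ∈ vs P' := hP'.left_mem hlj
  have hj : j ∈ vs P' := hP'.right_mem hlj
  have tP := hP.treeOn
  have tP' := hP'.treeOn
  rw [insert_eq_self.2 hi] at tP
  rw [insert_eq_self.2 hl] at tP'
  have tx := RTree.single x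
  have ty := RTree.single y
  let X : Fin 4 → Finset α := ![{x}, vs P, {y}, vs P']
  let T : Fin 4 → SimpleGraph α := ![⊥, gr P, ⊥, gr P']
  have hT : ∀ m, RTree (X m) (T m) := by
    intro m
    fin_cases m
    exacts [tx, tP, ty, tP']
  let p : Fin 4 → Bool → α := fun m b => ![x, if b then i else k, y, if b then l else j] m
  let r : Fin 4 → Bool → α := fun m b => ![if b then k else i, y, if b then j else l, x] m
  let D : D4M G :=
    { X := X
      T := T
      p := p
      q := r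
      disj := by
        have h1 : ∀ a b : Fin 4, a < b → Disjoint (X a) (X b) := by
          intro a b hab
          fin_cases a <;> fin_cases b <;> first
            | exact absurd hab (by decide)
            | skip
          · exact Finset.disjoint_singleton_left.2 hxP
          · exact Finset.disjoint_singleton_left.2 fun h => hxy (mem_singleton.1 h)
          · exact Finset.disjoint_singleton_left.2 hxP'
          · exact Finset.disjoint_singleton_right.2 hyP
          · exact hdis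
          · exact Finset.disjoint_singleton_left.2 hyP'
        intro a b hab
        rcases lt_or_gt_of_ne hab with h | h
        · exact h1 a b h
        · exact (h1 b a h).symm
      sub := by
        intro m
        fin_cases m
        exacts [bot_le, gr_le hP.subset, bot_le, gr_le hP'.subset]
      inX := fun m v w h => (hT m).inY v w h
      conn := fun m => (hT m).conn
      acyc := fun m => (hT m).acyc
      pX := by
        intro m b
        fin_cases m <;> cases b
        exacts [mem_singleton_self _, mem_singleton_self _, hk, hi, mem_singleton_self _,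
          mem_singleton_self _, hj, hl]
      qX := by
        intro m b
        fin_cases m <;> cases b
        exacts [hi, hk, mem_singleton_self _, mem_singleton_self _, hl, hj, mem_singleton_self _,
          mem_singleton_self _]
      adj := by
        intro m b
        fin_cases m <;> cases b
        exacts [(q.nx i).2 (by simp), (q.nx k).2 (by simp), ((q.ny k).2 (by simp)).symm,
          ((q.ny i).2 (by simp)).symm, (q.ny l).2 (by simp), (q.ny j).2 (by simp),
          ((q.nx j).2 (by simp)).symm, ((q.nx l).2 (by simp)).symm]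
      ne := by
        intro m
        fin_cases m
        · show s(x, i) ≠ s(x, k)
          exact sn (by grind)
        · show s(k, y) ≠ s(i, y)
          exact sn (by grind)
        · show s(y, l) ≠ s(y, j)
          exact sn (by grind)
        · show s(j, x) ≠ s(l, x)
          exact sn (by grind) }
  refine ⟨D, ?_, ?_⟩
  · intro e
    have h0 : ∀ m, s(p m (e m), r m (e m)) ∈ D.cyc e := by
      intro m
      rw [D4M.cyc]
      exact mem_union_left _ (mem_image_of_mem _ (mem_univ m))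
    have e0 := h0 0
    have e1 := h0 1
    have e2 := h0 2
    have e3 := h0 3
    refine ⟨fun h => ?_, fun h => ?_, fun h => ?_, fun h => ?_, fun h => ?_, fun h => ?_,
      fun h => ?_, fun h => ?_⟩
    · rw [h] at e0; exact e0
    · rw [h] at e1; rw [Sym2.eq_swap]; exact e1
    · rw [h] at e2; exact e2
    · rw [h] at e3; rw [Sym2.eq_swap]; exact e3
    · rw [h] at e0; exact e0
    · rw [h] at e1; rw [Sym2.eq_swap]; exact e1
    · rw [h] at e2; exact e2
    · rw [h] at e3; rw [Sym2.eq_swap]; exact e3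
  · have t0 : tp (⊥ : SimpleGraph α) x x = ∅ := tp_self isAcyclic_bot x
    have t2 : tp (⊥ : SimpleGraph α) y y = ∅ := tp_self isAcyclic_bot y
    have t1 : tp (gr P) i k = P := tP.tp_eq hP le_rfl
    have t3 : tp (gr P') l j = P' := tP'.tp_eq hP' le_rfl
    have hu : (univ : Finset (Fin 4)) = {0, 1, 2, 3} := rfl
    have b : (univ.biUnion fun m : Fin 4 => tp (D.T (m + 1)) (D.q m false) (D.p (m + 1) false)) =
        P ∪ P' := by
      rw [hu]
      simp only [biUnion_insert, singleton_biUnion]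
      show tp (gr P) i k ∪ (tp (⊥ : SimpleGraph α) y y ∪ (tp (gr P') l j ∪
        tp (⊥ : SimpleGraph α) x x)) = P ∪ P'
      rw [t0, t1, t2, t3]
      simp
    have c : (univ.image fun m : Fin 4 => s(D.p m false, D.q m false)) =
        {s(x, i), s(y, k), s(y, l), s(x, j)} := by
      rw [hu]
      simp only [image_insert, image_singleton]
      show ({s(x, i), s(k, y), s(y, l), s(j, x)} : Finset (Sym2 α)) = _
      rw [Sym2.eq_swap (a := k), Sym2.eq_swap (a := j)]
    rw [D4M.cyc, b, c, union_assoc]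

/-- the cycles through `xi`, `xj`, `yk`, `yl` -/
theorem dec {x y k l i j : α} (q : Q4 G x y k l i j) {C : Finset (Sym2 α)} (hC : IsCyc G C)
    (h1 : s(x, i) ∈ C) (h2 : s(x, j) ∈ C) (h3 : s(y, k) ∈ C) (h4 : s(y, l) ∈ C) :
    ∃ P P' : Finset (Sym2 α), Disjoint (vs P) (vs P') ∧ x ∉ vs P ∧ y ∉ vs P ∧ x ∉ vs P' ∧
      y ∉ vs P' ∧ C = {s(x, i), s(y, k), s(y, l), s(x, j)} ∪ P ∪ P' ∧
      ((IsPth G i k P ∧ IsPth G l j P') ∨ (IsPth G i l P ∧ IsPth G k j P')) := by
  have nd := q.nd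
  simp only [List.nodup_cons, List.mem_cons, List.not_mem_nil, or_false, not_or,
    not_false_eq_true, List.nodup_nil, and_true] at nd
  obtain ⟨⟨hxy, hxk, hxl, hxi, hxj⟩, ⟨hyk, hyl, hyi, hyj⟩, ⟨hk_l, hki, hkj⟩, ⟨hli, hlj⟩, hij⟩ := nd
  obtain ⟨R, hRC, hR⟩ : ∃ R, C = {s(y, k), s(y, l)} ∪ R ∧ IsPth (del G {y}) k l R := by
    refine ⟨C \ {s(y, k), s(y, l)}, ?_, hC.isPth_del h3 h4 hk_l⟩
    rw [union_sdiff_of_subset]
    intro e he
    rw [mem_insert, mem_singleton] at he
    rcases he with rfl | rfl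
    · exact h3
    · exact h4
  rw [DL.isPth_del, disjoint_singleton_right] at hR
  obtain ⟨hR, hyR⟩ := hR
  have hxR : x ∈ vs R := by
    have : s(x, i) ∈ R := by
      rw [hRC, mem_union, mem_insert, mem_singleton] at h1
      rcases h1 with (h | h) | h
      · exact absurd h (by exact sn (by grind))
      · exact absurd h (by exact sn (by grind))
      · exact h
    exact left_mem_vs this
  obtain ⟨R1, R2, hR1, hR2, hRR, hdR, hvR⟩ := hR.split (Or.inr hxR)
  have hR1C : R1 ⊆ C := by rw [hRC, ← hRR]; exact subset_union_left.trans subset_union_right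
  have hR2C : R2 ⊆ C := by rw [hRC, ← hRR]; exact subset_union_right.trans subset_union_right
  have hR1v : vs R1 ⊆ vs R := vs_mono (hRR ▸ subset_union_left)
  have hR2v : vs R2 ⊆ vs R := vs_mono (hRR ▸ subset_union_right)
  obtain ⟨u, hu, huR, hxu, hPu⟩ := hR1.symm.uncons hxk
  obtain ⟨u', hu', huR', hxu', hPu'⟩ := hR2.uncons hxl
  have hui := hC.eq_or_eq h1 h2 hij (hR1C huR)
  have hui' := hC.eq_or_eq h1 h2 hij (hR2C huR')
  have hne : u ≠ u' := by
    rintro rfl
    exact Finset.disjoint_left.1 hdR huR huR'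
  have e1 : R1 = insert s(x, u) (R1 \ {s(x, u)}) := by
    rw [insert_eq, union_sdiff_of_subset (singleton_subset_iff.2 huR)]
  have e2 : R2 = insert s(x, u') (R2 \ {s(x, u')}) := by
    rw [insert_eq, union_sdiff_of_subset (singleton_subset_iff.2 huR')]
  have hv1 : vs (R1 \ {s(x, u)}) ⊆ vs R1 := vs_mono sdiff_subset
  have hv2 : vs (R2 \ {s(x, u')}) ⊆ vs R2 := vs_mono sdiff_subset
  have hdis : Disjoint (vs (R1 \ {s(x, u)})) (vs (R2 \ {s(x, u')})) := by
    rw [Finset.disjoint_left]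
    intro z hz hz'
    have := hvR (mem_inter.2 ⟨hv1 hz, hv2 hz'⟩)
    rw [mem_singleton] at this
    exact hxu (this ▸ hz)
  have hy1 : y ∉ vs (R1 \ {s(x, u)}) := fun h => hyR (hR1v (hv1 h))
  have hy2 : y ∉ vs (R2 \ {s(x, u')}) := fun h => hyR (hR2v (hv2 h))
  have hCC : C = {s(y, k), s(y, l)} ∪ (insert s(x, u) (R1 \ {s(x, u)}) ∪
      insert s(x, u') (R2 \ {s(x, u')})) := by
    rw [← e1, ← e2, hRR, ← hRC]
  generalize R1 \ {s(x, u)} = P at *
  generalize R2 \ {s(x, u')} = P' at *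
  rcases hui with rfl | rfl <;> rcases hui' with rfl | rfl
  · exact absurd rfl hne
  · refine ⟨P, P', hdis, hxu, hy1, hxu', hy2, ?_, Or.inl ⟨hPu, hPu'.symm⟩⟩
    rw [hCC]
    ext e
    simp only [mem_union, mem_insert, mem_singleton]
    tauto
  · refine ⟨P', P, hdis.symm, hxu', hy2, hxu, hy1, ?_, Or.inr ⟨hPu', hPu.symm⟩⟩
    rw [hCC]
    ext e
    simp only [mem_union, mem_insert, mem_singleton]
    tauto
  · exact absurd rfl hne

omit [Fintype α] [DecidableEq α] in
theorem Q4.swap {x y k l i j : α} (q : Q4 G x y k l i j) : Q4 G x y l k i j where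
  nd := by
    have nd := q.nd
    simp only [List.nodup_cons, List.mem_cons, List.not_mem_nil, or_false, not_or,
      not_false_eq_true, List.nodup_nil, and_true] at nd ⊢
    obtain ⟨⟨hxy, hxk, hxl, hxi, hxj⟩, ⟨hyk, hyl, hyi, hyj⟩, ⟨hk_l, hki, hkj⟩, ⟨hli, hlj⟩, hij⟩ := nd
    exact ⟨⟨hxy, hxl, hxk, hxi, hxj⟩, ⟨hyl, hyk, hyi, hyj⟩, ⟨Ne.symm hk_l, hli, hlj⟩,
      ⟨hki, hkj⟩, hij⟩
  nx := fun w => by rw [q.nx w]; tauto
  ny := fun w => by rw [q.ny w]; tauto

/-- a `D_4`-even function which vanishes on the cycles missing one of `xi`, `xj`, `yk`, `yl` is zero on cycles -/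
theorem last (hDCB : SpecDCB) {x y k l i j : α} (q : Q4 G x y k l i j)
    {f : Finset (Sym2 α) → ZMod 2} (hf : D4even G f)
    (hv : ∀ C, IsCyc G C → (s(x, i) ∉ C ∨ s(x, j) ∉ C ∨ s(y, k) ∉ C ∨ s(y, l) ∉ C) → f C = 0) :
    ∀ C, IsCyc G C → f C = 0 := by
  -- one of the two cases
  have key : ∀ k l, Q4 G x y k l i j → (∀ C, IsCyc G C →
      (s(x, i) ∉ C ∨ s(x, j) ∉ C ∨ s(y, k) ∉ C ∨ s(y, l) ∉ C) → f C = 0) →
      ∀ P P' : Finset (Sym2 α), Disjoint (vs P) (vs P') → x ∉ vs P → y ∉ vs P → x ∉ vs P' →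
      y ∉ vs P' → IsPth G i k P → IsPth G l j P' →
      f ({s(x, i), s(y, k), s(y, l), s(x, j)} ∪ P ∪ P') = 0 := by
    intro k l q hv P P' hd h1 h2 h3 h4 hP hP'
    obtain ⟨D, hD, hD0⟩ := d4 q hP hP' hd h1 h2 h3 h4
    have hs := hf D
    have hz : ∀ e : Fin 4 → Bool, e ≠ (fun _ => false) → f (D.cyc e) = 0 := by
      intro e he
      have hc := (hDCB.cyc D e).1
      obtain ⟨a1, a2, a3, a4, b1, b2, b3, b4⟩ := hD e
      have nd := q.nd
      simp only [List.nodup_cons, List.mem_cons, List.not_mem_nil, or_false, not_or,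
        not_false_eq_true, List.nodup_nil, and_true] at nd
      obtain ⟨⟨hxy, hxk, hxl, hxi, hxj⟩, ⟨hyk, hyl, hyi, hyj⟩, ⟨hk_l, hki, hkj⟩, ⟨hli, hlj⟩,
        hij⟩ := nd
      apply hv _ hc
      by_contra hcon
      push Not at hcon
      obtain ⟨c1, c2, c3, c4⟩ := hcon
      have z0 : e 0 = false := by
        rcases Bool.eq_false_or_eq_true (e 0) with h | h
        · rcases hc.eq_or_eq c1 c2 hij (a1 h) with h' | h'
          · exact absurd h' hki
          · exact absurd h' hkj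
        · exact h
      have z1 : e 1 = false := by
        rcases Bool.eq_false_or_eq_true (e 1) with h | h
        · rcases hc.eq_or_eq c3 c4 hk_l (a2 h) with h' | h'
          · exact absurd h'.symm hki
          · exact absurd h'.symm hli
        · exact h
      have z2 : e 2 = false := by
        rcases Bool.eq_false_or_eq_true (e 2) with h | h
        · rcases hc.eq_or_eq c3 c4 hk_l (a3 h) with h' | h'
          · exact absurd h'.symm hkj
          · exact absurd h'.symm hlj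
        · exact h
      have z3 : e 3 = false := by
        rcases Bool.eq_false_or_eq_true (e 3) with h | h
        · rcases hc.eq_or_eq c1 c2 hij (a4 h) with h' | h'
          · exact absurd h' hli
          · exact absurd h' hlj
        · exact h
      apply he
      funext m
      fin_cases m
      exacts [z0, z1, z2, z3]
    rw [Finset.sum_eq_single (fun _ : Fin 4 => false) (fun e _ he => hz e he)
      (fun h => absurd (mem_univ _) h), hD0] at hs
    exact hs
  intro C hC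
  by_cases h : s(x, i) ∉ C ∨ s(x, j) ∉ C ∨ s(y, k) ∉ C ∨ s(y, l) ∉ C
  · exact hv C hC h
  · push Not at h
    obtain ⟨P, P', h1, h2, h3, h4, h5, h6, h7 | h7⟩ := dec q hC h.1 h.2.1 h.2.2.1 h.2.2.2
    · rw [h6]
      exact key k l q hv P P' h1 h2 h3 h4 h5 h7.1 h7.2
    · have := key l k q.swap (fun C hC h => hv C hC (by tauto)) P P' h1 h2 h3 h4 h5 h7.1 h7.2
      rw [h6, ← this]
      congr 3
      ext e
      simp only [mem_insert, mem_singleton]
      tauto

/-- cycles of `G - yl` through `xi`, `xj`, `yk` -/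
theorem lam {x y k l i j : α} (h4 : KConn 4 G) (q : Q4 G x y k l i j) {v0 : ZMod 2} {v : Chain α}
    (h0 : ∀ C, IsCyc G C → s(y, l) ∉ C → s(y, k) ∉ C → s(x, i) ∈ C → s(x, j) ∈ C →
      v0 + ∑ h ∈ C, v h = 0) : ∃ c : ZMod 2, ∀ C, IsCyc G C → s(y, l) ∉ C → s(x, i) ∈ C →
      s(x, j) ∈ C → s(y, k) ∈ C → v0 + ∑ h ∈ C, v h = c := by
  have nd := q.nd
  simp only [List.nodup_cons, List.mem_cons, List.not_mem_nil, or_false, not_or,
    not_false_eq_true, List.nodup_nil, and_true] at nd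
  obtain ⟨⟨hxy, hxk, hxl, hxi, hxj⟩, ⟨hyk, hyl, hyi, hyj⟩, ⟨hk_l, hki, hkj⟩, ⟨hli, hlj⟩, hij⟩ := nd
  have hM := MM_two h4 q
  have mxi : (MM G x y k l).Adj x i := MM_adj.2 ⟨(q.nx i).2 (by simp), by
    refine ⟨?_, ?_, ?_, ?_⟩ <;> exact sn (by grind)⟩
  set v' : Chain α := fun h => v h + if h = s(x, i) then v0 else 0 with hv'
  have hsum : ∀ C : Finset (Sym2 α), s(x, i) ∈ C → ∑ h ∈ C, v' h = v0 + ∑ h ∈ C, v h := by
    intro C hC
    rw [hv', sum_add_distrib, Finset.sum_ite_eq' C s(x, i), if_pos hC, add_comm]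
  have hg := gen hM mxi (v := v') (by
    intro C hC hxiC
    rw [MM_cyc] at hC
    obtain ⟨hC, n1, n2, n3, n4⟩ := hC
    rw [hsum C hxiC]
    obtain ⟨j', hj', hj'C⟩ := hC.exists_other hxiC
    have : s(x, j) ∈ C := by
      rcases (q.nx j').1 (hC.adj_of_mem hj'C) with h | h | h | h
      · exact absurd (h ▸ hj'C) n1
      · exact absurd (h ▸ hj'C) n2
      · exact absurd h hj'
      · exact h ▸ hj'C
    exact h0 C hC n4 n3 hxiC this)
  have key : ∀ C C', (IsCyc G C ∧ s(y, l) ∉ C ∧ s(x, i) ∈ C ∧ s(x, j) ∈ C ∧ s(y, k) ∈ C) →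
      (IsCyc G C' ∧ s(y, l) ∉ C' ∧ s(x, i) ∈ C' ∧ s(x, j) ∈ C' ∧ s(y, k) ∈ C') →
      v0 + ∑ h ∈ C, v h = v0 + ∑ h ∈ C', v h := by
    rintro C C' ⟨a1, a2, a3, a4, a5⟩ ⟨b1, b2, b3, b4, b5⟩
    have n1 : ∀ C, IsCyc G C → s(x, i) ∈ C → s(x, j) ∈ C → s(x, k) ∉ C ∧ s(x, l) ∉ C := by
      intro C hC c1 c2
      refine ⟨fun h => ?_, fun h => ?_⟩
      · rcases hC.eq_or_eq c1 c2 hij h with h' | h'
        · exact hki h'
        · exact hkj h'
      · rcases hC.eq_or_eq c1 c2 hij h with h' | h'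
        · exact hli h'
        · exact hlj h'
    have hmem : chi C + chi C' ∈ Z1 (MM G x y k l) := by
      rw [mem_Z1]
      refine ⟨fun e he => ?_, fun w => by rw [bdy_add, a1.bdy_chi, b1.bdy_chi, add_zero]⟩
      have h1 := csupp_add _ _ (mem_csupp.2 he)
      rw [csupp_chi, csupp_chi, mem_union] at h1
      have hE : e ∈ G.edgeSet := h1.elim (a1.subset e) (b1.subset e)
      have hyk' : e ≠ s(y, k) := by
        rintro rfl
        apply he
        rw [Pi.add_apply, chi_of_mem a5, chi_of_mem b5]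
        decide
      have hn : ∀ e', e' ∉ C → e' ∉ C' → e ≠ e' := by
        rintro e' h2 h3 rfl
        exact h1.elim h2 h3
      have c1 := n1 C a1 a3 a4
      have c2 := n1 C' b1 b3 b4
      have f1 := hn _ c1.1 c2.1
      have f2 := hn _ c1.2 c2.2
      have f3 := hn _ a2 b2
      clear he h1 hn
      induction e using Sym2.ind with
      | _ a b => exact MM_adj.2 ⟨hE, f1, f2, hyk', f3⟩
    have h1 := hg _ hmem
    have h2 : ∑ e, v' e * (chi C + chi C') e = ∑ e, v' e * chi C e + ∑ e, v' e * chi C' e := by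
      rw [← sum_add_distrib]
      refine sum_congr rfl fun e _ => ?_
      rw [Pi.add_apply, mul_add]
    rw [h2, sum_mul_chi, sum_mul_chi, hsum C a3, hsum C' b3] at h1
    generalize v0 + ∑ h ∈ C, v h = A at *
    generalize v0 + ∑ h ∈ C', v h = B at *
    revert A B
    decide
  by_cases hex : ∃ C, IsCyc G C ∧ s(y, l) ∉ C ∧ s(x, i) ∈ C ∧ s(x, j) ∈ C ∧ s(y, k) ∈ C
  · obtain ⟨C, hC⟩ := hex
    exact ⟨v0 + ∑ h ∈ C, v h, fun C' h1 h2 h3 h4 h5 => key C' C ⟨h1, h2, h3, h4, h5⟩ hC⟩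
  · exact ⟨0, fun C' h1 h2 h3 h4 h5 => absurd ⟨C', h1, h2, h3, h4, h5⟩ hex⟩

theorem dcomm (G : SimpleGraph α) (a b c d : α) :
    delE (delE G a b) c d = delE (delE G c d) a b := by
  ext p q
  rw [delE_adj, delE_adj, delE_adj, delE_adj]
  tauto

/-- `A₃` (and `A₄`) -/
theorem step (hGLU : SpecGLU) (hLMB : SpecLMB) (hS3F : SpecS3F) {x y k l i j : α}
    (h4 : KConn 4 G) (q : Q4 G x y k l i j) (hkl : ¬ G.Adj k l) (hU : U (delE G y k))
    (k3i : KConn 3 (DD G x i y k)) (k3j : KConn 3 (DD G x j y k)) (hKi : KZ (DD G x i y k))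
    (hKj : KZ (DD G x j y k)) {f : Finset (Sym2 α) → ZMod 2} (hf : D4even G f)
    (hz : ∀ C, IsCyc G C → (s(x, i) ∉ C ∨ s(x, j) ∉ C) → f C = 0) :
    ∃ (w0 : ZMod 2) (w : Chain α), ∀ C, IsCyc G C → s(y, k) ∉ C →
      f C = chi C s(x, i) * chi C s(x, j) * (w0 + ∑ h ∈ C, w h) := by
  have nd := q.nd
  simp only [List.nodup_cons, List.mem_cons, List.not_mem_nil, or_false, not_or,
    not_false_eq_true, List.nodup_nil, and_true] at nd
  obtain ⟨⟨hxy, hxk, hxl, hxi, hxj⟩, ⟨hyk, hyl, hyi, hyj⟩, ⟨hk_l, hki, hkj⟩, ⟨hli, hlj⟩, hij⟩ := nd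
  have e1 : delE (delE G y k) x i = DD G x i y k := dcomm G y k x i
  have e2 : delE (delE G y k) x j = DD G x j y k := dcomm G y k x j
  obtain ⟨φ, hφ, hφ'⟩ := hGLU.u hU (delE_le G y k) hf
  have axi : (delE G y k).Adj x i := delE_adj.2 ⟨(q.nx i).2 (by simp), by exact sn (by grind)⟩
  have axj : (delE G y k).Adj x j := delE_adj.2 ⟨(q.nx j).2 (by simp), by exact sn (by grind)⟩
  have hN : ∀ a b, G.Adj a b → s(a, b) ≠ s(y, k) → s(a, b) ≠ s(x, j) → s(a, b) ≠ s(x, i) →
      (delE (delE (delE G y k) x j) x i).Adj a b := by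
    intro a b h1 h2 h3 h4
    rw [delE_adj, delE_adj, delE_adj]
    exact ⟨⟨⟨h1, h2⟩, h3⟩, h4⟩
  have hxV : x ∈ VS (delE (delE (delE G y k) x j) x i) :=
    left_mem_VS (hN x k ((q.nx k).2 (by simp)) (by exact sn (by grind)) (by exact sn (by grind)) (by exact sn (by grind)))
  have hiV : i ∈ VS (delE (delE (delE G y k) x j) x i) :=
    right_mem_VS (hN y i ((q.ny i).2 (by simp)) (by exact sn (by grind)) (by exact sn (by grind)) (by exact sn (by grind)))
  obtain ⟨w0, w, hw⟩ := hLMB.b axi axj hij (by rw [e1]; exact hS3F.k3 k3i) (by rw [e1]; exact hKi)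
    (by rw [e2]; exact k3j) (by rw [e2]; exact hKj) (s3s h4 q hkl) hxV hiV φ
    (hφ (delE G y k))
    (fun C hC => by
      rw [isCyc_delE] at hC
      rw [← hφ' C hC.1]
      exact hz C (isCyc_delE.1 hC.1).1 (Or.inl hC.2))
    (fun C hC => by
      rw [isCyc_delE] at hC
      rw [← hφ' C hC.1]
      exact hz C (isCyc_delE.1 hC.1).1 (Or.inr hC.2))
  refine ⟨w0, w, fun C hC hykC => ?_⟩
  have hC' : IsCyc (delE G y k) C := isCyc_delE.2 ⟨hC, hykC⟩
  rw [hφ' C hC', hw C hC']

end DL.TWRM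

namespace DL

open TWRM

/-- **TWR.** The recipe. -/
theorem specTWR (hE5A : SpecE5A) (hE5D : SpecE5D) (hGLU : SpecGLU) (hDL3 : SpecDL3)
    (hLMB : SpecLMB) (hCRL : SpecCRL) (hDST : SpecDST) (hKDD : SpecKDD) (hKSU : SpecKSU)
    (hS3F : SpecS3F) (hDCB : SpecDCB) : SpecTWR := by
  intro α _ _ G x y s hK hIH hTW hkl hJP hD20 hD21 hD30 hD31
  have q := q4 hTW
  have h4 := hK.1
  have q1 := q.nd
  simp only [List.nodup_cons, List.mem_cons, List.not_mem_nil, or_false, not_or,
    not_false_eq_true, List.nodup_nil, and_true] at q1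
  obtain ⟨⟨hxy, hxk, hxl, hxi, hxj⟩, ⟨hyk, hyl, hyi, hyj⟩, ⟨hk_l, hki, hkj⟩, ⟨hli, hlj⟩, hij⟩ := q1
  have axs : ∀ m, G.Adj x (s m) := fun m => (hTW.nx _).2 ⟨m, rfl⟩
  have ays : ∀ m, G.Adj y (s m) := fun m => (hTW.ny _).2 ⟨m, rfl⟩
  have hOK : ∀ m, OK (delE G x (s m)) := by
    intro m
    have h1 := hE5A hK hTW m
    refine hIH _ ?_ h1.1 h1.2
    rw [← hDST.one]
    exact hDST.sz4 (axs m) (mem_singleton_self _)
  have hOK' : ∀ m, OK (delE G y (s m)) := by
    intro m
    have h1 := hE5A hK (tw_symm hTW) m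
    refine hIH _ ?_ h1.1 h1.2
    rw [← hDST.one]
    exact hDST.sz4 (ays m) (mem_singleton_self _)
  -- the D-pair graphs are 3-connected
  have k20 : KConn 3 (DD G x (s 2) y (s 0)) := hE5D.k3 hK hTW
  have t30 : TW G x y ![s 0, s 1, s 3, s 2] :=
    tw_of hTW (Equiv.swap 2 3) fun m => by fin_cases m <;> rfl
  have t21 : TW G x y ![s 1, s 0, s 2, s 3] :=
    tw_of hTW (Equiv.swap 0 1) fun m => by fin_cases m <;> rfl
  have t31 : TW G x y ![s 1, s 0, s 3, s 2] :=
    tw_of t21 (Equiv.swap 2 3) fun m => by fin_cases m <;> rfl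
  have k30' := hE5D.k3 hK t30
  have k21' := hE5D.k3 hK t21
  have k31' := hE5D.k3 hK t31
  have k30 : KConn 3 (DD G x (s 3) y (s 0)) := k30'
  have k21 : KConn 3 (DD G x (s 2) y (s 1)) := k21'
  have k31 : KConn 3 (DD G x (s 3) y (s 1)) := k31'
  -- A₁₂
  have e12 : dst G x {s 2, s 3} = delE (delE G x (s 3)) x (s 2) := by
    rw [← hDST.one G x (s 3), ← hDST.ins]
  have hS12 : S3S (dst G x {s 2, s 3}) := by
    refine hCRL.ks h4 (r := s 0) (s := s 1) hk_l (axs 0) (axs 1) ?_ ?_ (Or.inl hkl)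
    · rw [mem_insert, mem_singleton, not_or]; exact ⟨hki, hkj⟩
    · rw [mem_insert, mem_singleton, not_or]; exact ⟨hli, hlj⟩
  have n12 : ∀ w, (dst G x {s 2, s 3}).Adj x w ↔ w = s 0 ∨ w = s 1 := by
    intro w
    rw [hDST.adj, q.nx w]
    constructor
    · rintro ⟨h1, h2, h3⟩
      rw [mem_insert, mem_singleton] at h2
      tauto
    · rintro (rfl | rfl)
      · refine ⟨by simp, ?_, fun h => hxk h.1.symm⟩
        rintro ⟨-, h⟩
        rw [mem_insert, mem_singleton] at h
        exact h.elim hki hkj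
      · refine ⟨by simp, ?_, fun h => hxl h.1.symm⟩
        rintro ⟨-, h⟩
        rw [mem_insert, mem_singleton] at h
        exact h.elim hli hlj
  have hK12 : KZ (dst G x {s 2, s 3}) := by
    refine hKSU hk_l n12 (fun h => hkl (hDST.le G x _ h)) ?_
    have e : contr (dst G x {s 2, s 3}) (s 0) x = JP G x (s 0) (s 1) := by
      ext u w
      rw [contr_adj, JP, sup_adj, del_adj, fromEdgeSet_adj, Set.mem_singleton_iff, Sym2.eq_iff,
        mem_singleton, mem_singleton, n12 w, (dst G x {s 2, s 3}).adj_comm u x, n12 u, hDST.adj]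
      constructor
      · rintro ⟨h1, h2, h3, h | h | h⟩
        · exact Or.inl ⟨h.1, h1, h2⟩
        · refine Or.inr ⟨?_, h3⟩
          rcases h.2 with h' | h'
          · exact absurd (h.1.trans h'.symm) h3
          · exact Or.inl ⟨h.1, h'⟩
        · refine Or.inr ⟨?_, h3⟩
          rcases h.2 with h' | h'
          · exact absurd (h'.trans h.1.symm) h3
          · exact Or.inr ⟨h', h.1⟩
      · rintro (⟨h1, h2, h3⟩ | ⟨h, h3⟩)
        · exact ⟨h2, h3, h1.ne, Or.inl ⟨h1, fun h => h2 h.1, fun h => h3 h.1⟩⟩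
        · rcases h with ⟨rfl, rfl⟩ | ⟨rfl, rfl⟩
          · exact ⟨Ne.symm hxk, Ne.symm hxl, h3, Or.inr (Or.inl ⟨rfl, Or.inr rfl⟩)⟩
          · exact ⟨Ne.symm hxl, Ne.symm hxk, h3, Or.inr (Or.inr ⟨rfl, Or.inr rfl⟩)⟩
    rw [e]
    exact hJP
  refine ⟨fun f hf => ?_, ?_⟩
  · -- `U G`
    obtain ⟨φ, hφ, hφ'⟩ := hDL3.two (axs 2) (axs 3) hij (by rw [hDST.one]; exact (hOK 2).1)
      (by rw [hDST.one]; exact (hOK 3).1) hS12 hK12 f hf
    have hf2 : D4even G (fun C => f C + φ C) := hGLU.dadd hf (hφ G)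
    have hz2 : ∀ C, IsCyc G C → (s(x, s 2) ∉ C ∨ s(x, s 3) ∉ C) → f C + φ C = 0 := by
      intro C hC h
      rw [hφ' C hC h, zmod2_add_self]
    obtain ⟨w0, w, hw⟩ := step hGLU hLMB hS3F h4 q hkl (hOK' 0).1 k20 k30 hD20 hD30 hf2 hz2
    set ψ : Finset (Sym2 α) → ZMod 2 := fun C => chi C s(x, s 2) * chi C s(x, s 3) *
      (w0 + ∑ h ∈ C, w h) with hψ
    have hψF : InF G ψ := hGLU.quad G s(x, s 2) s(x, s 3) w0 w
    have hf3 : D4even G (fun C => f C + φ C + ψ C) := hGLU.dadd hf2 hψF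
    have hψ0 : ∀ C, (s(x, s 2) ∉ C ∨ s(x, s 3) ∉ C) → ψ C = 0 := by
      intro C h
      rcases h with h | h
      · simp only [hψ, chi_of_notMem h, zero_mul]
      · simp only [hψ, chi_of_notMem h, mul_zero, zero_mul]
    have hz3 : ∀ C, IsCyc G C → (s(x, s 2) ∉ C ∨ s(x, s 3) ∉ C) → f C + φ C + ψ C = 0 := by
      intro C hC h
      rw [hz2 C hC h, hψ0 C h, zero_add]
    have hz3' : ∀ C, IsCyc G C → s(y, s 0) ∉ C → f C + φ C + ψ C = 0 := by
      intro C hC h
      rw [hw C hC h]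
      exact zmod2_add_self _
    obtain ⟨v0, v, hv⟩ := step hGLU hLMB hS3F h4 q.swap (fun h => hkl h.symm) (hOK' 1).1 k21 k31
      hD21 hD31 hf3 hz3
    obtain ⟨c, hc⟩ := lam h4 q (v0 := v0) (v := v) (by
      intro C hC h1 h2 h3 h5
      have := hv C hC h1
      rw [hz3' C hC h2, chi_of_mem h3, chi_of_mem h5, one_mul, one_mul] at this
      exact this.symm)
    set χ : Finset (Sym2 α) → ZMod 2 := fun C => chi C s(x, s 2) * chi C s(x, s 3) *
      (0 + ∑ h ∈ C, if h = s(y, s 0) then c else 0) with hχ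
    have hχF : InF G χ := hGLU.quad G s(x, s 2) s(x, s 3) 0 (fun h => if h = s(y, s 0) then c else 0)
    have hf4 : D4even G (fun C => f C + φ C + ψ C + χ C) := hGLU.dadd hf3 hχF
    have hχ0 : ∀ C, (s(x, s 2) ∉ C ∨ s(x, s 3) ∉ C) → χ C = 0 := by
      intro C h
      rcases h with h | h
      · simp only [hχ, chi_of_notMem h, zero_mul]
      · simp only [hχ, chi_of_notMem h, mul_zero, zero_mul]
    have hχ1 : ∀ C, s(y, s 0) ∉ C → χ C = 0 := by
      intro C h
      simp only [hχ]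
      rw [Finset.sum_ite_eq' C s(y, s 0), if_neg h, add_zero, mul_zero]
    have hz4 := last hDCB q hf4 (by
      intro C hC h
      by_cases hx : s(x, s 2) ∉ C ∨ s(x, s 3) ∉ C
      · show f C + φ C + ψ C + χ C = 0
        rw [hz3 C hC hx, hχ0 C hx, add_zero]
      by_cases hy : s(y, s 0) ∉ C
      · show f C + φ C + ψ C + χ C = 0
        rw [hz3' C hC hy, hχ1 C hy, add_zero]
      have hl : s(y, s 1) ∉ C := by tauto
      push Not at hx hy
      show f C + φ C + ψ C + χ C = 0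
      have h1 := hv C hC hl
      rw [h1, hc C hC hl hx.1 hx.2 hy]
      simp only [hχ]
      rw [Finset.sum_ite_eq' C s(y, s 0), if_pos hy, chi_of_mem hx.1, chi_of_mem hx.2, zero_add]
      exact zmod2_add_self _)
    refine hGLU.congr (g := fun C => φ C + ψ C + χ C) (fun C hC => ?_)
      (hGLU.add (hGLU.add (hφ G) hψF) hχF)
    have := hz4 C hC
    generalize f C = A at *
    generalize φ C = B at *
    generalize ψ C = D at *
    generalize χ C = E at *
    clear * - this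
    revert A B D E
    decide
  · -- `KZ G`
    rw [e12] at hS12
    refine hKDD (axs 2) (axs 3) hij (hOK 2).2 (hOK 3).2 hS12 ?_ ?_
    · refine left_mem_VS (b := s 0) (delE_adj.2 ⟨delE_adj.2 ⟨axs 0, ?_⟩, ?_⟩) <;> exact sn (by grind)
    · refine right_mem_VS (a := y) (delE_adj.2 ⟨delE_adj.2 ⟨ays 2, ?_⟩, ?_⟩) <;> exact sn (by grind)

end DL
end
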