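import Pool.Agent.DL.E.Spec3
import Pool.Agent.DL.NP.N44
import Pool.Agent.DL.E.TWR

section
set_option autoImplicit false
set_option linter.unusedSectionVars false

/-!
# E3G: some `Gam G y s_i s₁`
-/

open SimpleGraph Finset

namespace DL

namespace E3GM

variable {α : Type} [Fintype α] [DecidableEq α]

open N44M

/-- a component is connected -/
lemma cset_cmp {G : SimpleGraph α} {S : Finset α} {a : α} : CSet G (cmp G S a) := by
  have key : ∀ v ∈ cmp G S a, (del G (univ \ cmp G S a)).Reachable a v := by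
    intro v hv
    have h1 := mem_cmp.1 hv
    refine mem_of_reachable (X := {v | (del G (univ \ cmp G S a)).Reachable a v ∧
      v ∈ cmp G S a}) h1 ⟨Reachable.refl a, mem_cmp.2 (Reachable.refl a)⟩ ?_ |>.1
    rintro p q hpq ⟨hp1, hp2⟩
    have hq : q ∈ cmp G S a := mem_cmp.2 ((mem_cmp.1 hp2).trans hpq.reachable)
    refine ⟨hp1.trans (Adj.reachable ⟨hpq.1, ?_, ?_⟩), hq⟩
    · rw [mem_sdiff, not_and, not_not]
      exact fun _ => hp2
    · rw [mem_sdiff, not_and, not_not]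
      exact fun _ => hq
  refine ⟨⟨a, mem_cmp.2 (Reachable.refl a)⟩, fun u hu v hv => ?_⟩
  exact (key u hu).symm.trans (key v hv)

end E3GM

open N44M in
theorem specE3G (hGK3 : SpecGK3) (hNBF : SpecNBF) : SpecE3G := by
  intro α _ _ G x y s₁ s₂ s₃ s₄ hG h hpl
  have hnd := h.nd
  simp only [List.nodup_cons, List.mem_cons, List.not_mem_nil, or_false, not_or,
    not_false_eq_true, List.nodup_nil, and_true] at hnd
  obtain ⟨⟨hxy, hx1, hx2, hx3, hx4⟩, ⟨hy1, hy2, hy3, hy4⟩, ⟨h12, h13, h14⟩, ⟨h23, h24⟩, h34⟩ := hnd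
  set S : Finset α := {x, y, s₁, s₂, s₃, s₄} with hS
  have memS : ∀ w, w ∈ S ↔ w = x ∨ w = y ∨ w = s₁ ∨ w = s₂ ∨ w = s₃ ∨ w = s₄ := by
    intro w; simp [hS]
  have hcard : S.card ≤ 6 := card_le_six
  obtain ⟨k0, hk0, hk0S⟩ : ∃ k ∈ VS G, k ∉ S :=
    exists_mem_notMem_of_card_lt_card (lt_of_le_of_lt hcard (lt_of_lt_of_le (by norm_num) hG.2))
  have hAx : G.Adj x y := (h.nx y).2 (Or.inl rfl)
  have hxV : x ∈ VS G := left_mem_VS hAx
  have hNsub : NB G (cmp G S k0) ⊆ {s₁, s₂, s₃, s₄} := by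
    intro w hw
    rw [mem_NB] at hw
    obtain ⟨hw1, z, hz, hzw⟩ := hw
    have h1 := (mem_of_adj_cmp hk0S hz hzw).resolve_right hw1
    have h2 := cmp_notMem hk0S hz
    rw [memS] at h1 h2
    simp only [mem_insert, mem_singleton]
    rcases h1 with rfl | rfl | h1 | h1 | h1 | h1
    · have := (h.nx z).1 hzw.symm
      exfalso
      tauto
    · have := (h.ny z).1 hzw.symm
      exfalso
      tauto
    · tauto
    · tauto
    · tauto
    · tauto
  have hN4 : 4 ≤ (NB G (cmp G S k0)).card := by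
    by_contra hlt
    rw [not_le] at hlt
    have h1 := hNBF.nb hG.1 (A := cmp G S k0) (fun w hw => cmp_VS hk0 hw)
      ⟨k0, mem_cmp.2 (Reachable.refl k0)⟩ hlt hxV
    rw [mem_union] at h1
    rcases h1 with h1 | h1
    · exact cmp_notMem hk0S h1 ((memS x).2 (Or.inl rfl))
    · have := hNsub h1
      simp only [mem_insert, mem_singleton] at this
      tauto
  have hNeq : NB G (cmp G S k0) = {s₁, s₂, s₃, s₄} := by
    refine eq_of_subset_of_card_le hNsub (le_trans card_le_four hN4)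
  have hnb : ∀ s, s = s₁ ∨ s = s₂ ∨ s = s₃ ∨ s = s₄ → ∃ k ∈ cmp G S k0, G.Adj s k := by
    intro s hs
    have h1 : s ∈ NB G (cmp G S k0) := by
      rw [hNeq]
      simpa using hs
    rw [mem_NB] at h1
    obtain ⟨_, k, hk, hks⟩ := h1
    exact ⟨k, hk, hks.symm⟩
  have hnot : ∀ w, w ∈ S → w ∉ cmp G S k0 := fun w hw hw' => cmp_notMem hk0S hw' hw
  have hinj : Function.Injective ![s₂, s₃, s₄] := by
    intro i j hij
    fin_cases i <;> fin_cases j <;> first
      | rfl
      | exact absurd hij h23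
      | exact absurd hij h24
      | exact absurd hij h34
      | exact absurd hij.symm h23
      | exact absurd hij.symm h24
      | exact absurd hij.symm h34
  have a1 : ∀ i, G.Adj y (![s₂, s₃, s₄] i) := by
    intro i
    rw [h.ny]
    fin_cases i <;> simp
  have a2 : ∀ i, G.Adj x (![s₂, s₃, s₄] i) := by
    intro i
    rw [h.nx]
    fin_cases i <;> simp
  have a3 : ∀ i, ![s₂, s₃, s₄] i ≠ s₁ := by
    intro i
    fin_cases i
    · exact Ne.symm h12
    · exact Ne.symm h13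
    · exact Ne.symm h14
  have a4 : ∀ i, ![s₂, s₃, s₄] i ∉ cmp G S k0 := by
    intro i
    apply hnot
    rw [memS]
    fin_cases i <;> simp
  have a5 : ∀ i, ∃ k ∈ cmp G S k0, G.Adj (![s₂, s₃, s₄] i) k := by
    intro i
    apply hnb
    fin_cases i <;> simp
  have a6 : G.Adj y s₁ := (h.ny s₁).2 (Or.inr (Or.inl rfl))
  have a7 : y ∉ cmp G S k0 := hnot y (by rw [memS]; tauto)
  have a8 : x ∉ cmp G S k0 := hnot x (by rw [memS]; tauto)
  have a9 : s₁ ∉ cmp G S k0 := hnot s₁ (by rw [memS]; tauto)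
  obtain ⟨i, Z, hZ⟩ := hGK3 hG.1 hpl hinj a1 a2 a6 hxy hx1 a3 E3GM.cset_cmp a7 a8 a9 a4 a5
  fin_cases i
  · exact Or.inl ⟨Z, hZ⟩
  · exact Or.inr (Or.inl ⟨Z, hZ⟩)
  · exact Or.inr (Or.inr ⟨Z, hZ⟩)

end DL
end

section
set_option autoImplicit false
set_option linter.unusedSectionVars false

/-!
# E3D: the functions `Gam` at a (3,4)-pair
-/

open SimpleGraph Finset

namespace DL

namespace E3DM

variable {α : Type} [Fintype α] [DecidableEq α]

open N44M E3GM

/-- a set `D` in which every component meets `v0` -/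
lemma conn_in (hNBF : SpecNBF) {G : SimpleGraph α} (hG : KConn 4 G) {D : Finset α} {v0 a x0 : α}
    (hD : D ⊆ VS G) (ha : a ∈ D) (hx0 : x0 ∈ VS G) (hx0D : x0 ∉ D)
    (T' : Finset α) (hT' : T'.card < 4) (hx0n : ∀ d ∈ D, d ≠ v0 → ¬ G.Adj x0 d)
    (hN : ∀ w, w ∉ D → ∀ d ∈ D, d ≠ v0 → G.Adj d w → w ∈ T') :
    (del G (univ \ D)).Reachable a v0 := by
  by_contra hcon
  have haS : a ∉ univ \ D := by
    rw [mem_sdiff, not_and, not_not]
    exact fun _ => ha
  have hKD : ∀ w ∈ cmp G (univ \ D) a, w ∈ D := by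
    intro w hw
    have := cmp_notMem haS hw
    rw [mem_sdiff, not_and, not_not] at this
    exact this (mem_univ _)
  have hKv : ∀ w ∈ cmp G (univ \ D) a, w ≠ v0 := by
    rintro w hw rfl
    exact hcon (mem_cmp.1 hw)
  have hNK : NB G (cmp G (univ \ D) a) ⊆ T' := by
    intro w hw
    rw [mem_NB] at hw
    obtain ⟨hw1, d, hd, hdw⟩ := hw
    have h1 := (mem_of_adj_cmp haS hd hdw).resolve_right hw1
    rw [mem_sdiff] at h1
    exact hN w h1.2 d (hKD d hd) (hKv d hd) hdw
  have h1 := hNBF.nb hG (A := cmp G (univ \ D) a) (fun w hw => hD (hKD w hw))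
    ⟨a, mem_cmp.2 (Reachable.refl a)⟩ (lt_of_le_of_lt (card_le_card hNK) hT') hx0
  rw [mem_union] at h1
  rcases h1 with h1 | h1
  · exact hx0D (hKD _ h1)
  · rw [mem_NB] at h1
    obtain ⟨_, d, hd, hdx⟩ := h1
    exact hx0n d (hKD d hd) (hKv d hd) hdx.symm

lemma leaf (hVKA : SpecVKA) {G : SimpleGraph α} {x y s₁ s₂ s₃ s₄ : α} {Z : Chain α}
    (h : P34 G x y s₁ s₂ s₃ s₄) (hpl : ¬ NP (del G {y})) (hZ : Gam G y x s₁ Z) :
    ¬ ∃ w, ∀ v, G.Adj s₄ v ↔ v = x ∨ v = y ∨ v = s₁ ∨ v = w := by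
  rintro ⟨w, hw⟩
  have hnd := h.nd
  simp only [List.nodup_cons, List.mem_cons, List.not_mem_nil, or_false, not_or,
    not_false_eq_true, List.nodup_nil, and_true] at hnd
  obtain ⟨⟨hxy, hx1, hx2, hx3, hx4⟩, ⟨hy1, hy2, hy3, hy4⟩, ⟨h12, h13, h14⟩, ⟨h23, h24⟩, h34⟩ := hnd
  refine GMCM.deg hVKA (v := s₄) (z := w) hpl hZ (Ne.symm hy4)
    ((hw x).2 (Or.inl rfl)).symm ((hw s₁).2 (Or.inr (Or.inr (Or.inl rfl)))).symm ?_
  intro v hv
  have := (hw v).1 hv
  tauto

/-- a chain of `G - y - s₄ - s₁` zero at `xs₂` avoids `x` -/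
lemma avoid {G : SimpleGraph α} {x y s₁ s₂ s₃ s₄ : α} {W : Chain α}
    (h : P34 G x y s₁ s₂ s₃ s₄) (hW : W ∈ Z1 (del G {y, s₄, s₁})) (h0 : W s(x, s₂) = 0) :
    W ∈ Z1 (del G {y, s₄, s₁, x}) := by
  have key : ∀ v, W s(x, v) ≠ 0 → v = s₃ := by
    intro v hv
    have h1 := hW.1 _ hv
    rw [mem_edgeSet, del_adj] at h1
    simp only [mem_insert, mem_singleton, not_or] at h1
    rcases (h.nx v).1 h1.1 with e | e | e | e
    · exact absurd e h1.2.2.1
    · subst e
      exact absurd h0 hv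
    · exact e
    · exact absurd e h1.2.2.2.1
  have h3 : W s(x, s₃) = 0 := by
    have h1 := hW.2 x
    rw [bdy_eq_sum_ite, sum_eq_single s(x, s₃)] at h1
    · rwa [if_pos (Sym2.mem_mk_left _ _)] at h1
    · intro e _ hne
      by_cases hxe : x ∈ e
      · rw [if_pos hxe]
        obtain ⟨v, rfl⟩ : ∃ v, e = s(x, v) := ⟨Sym2.Mem.other hxe, (Sym2.other_spec hxe).symm⟩
        by_contra hz
        have := key v hz
        subst this
        exact hne rfl
      · rw [if_neg hxe]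
    · intro h2
      exact absurd (mem_univ _) h2
  refine ⟨fun e he => ?_, hW.2⟩
  have h1 := KURM.mem_del.1 (hW.1 e he)
  refine KURM.mem_del.2 ⟨h1.1, fun v hv hv' => ?_⟩
  simp only [mem_insert, mem_singleton] at hv'
  rcases hv' with e1 | e1 | e1 | e1
  · exact h1.2 v hv (by simp [e1])
  · exact h1.2 v hv (by simp [e1])
  · exact h1.2 v hv (by simp [e1])
  · subst e1
    obtain ⟨w, rfl⟩ : ∃ w, e = s(v, w) := ⟨Sym2.Mem.other hv, (Sym2.other_spec hv).symm⟩
    have := key w he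
    subst this
    exact he h3

lemma all (hNCX : SpecNCX) (hNCN : SpecNCN) {G : SimpleGraph α} {x y s₁ s₂ s₃ s₄ : α}
    {Z Z' : Chain α} (hG : K48 G) (h : P34 G x y s₁ s₂ s₃ s₄) (hpl : ¬ NP (del G {y}))
    (hno : ∀ W, ¬ Gam G y x s₁ W) (hZ : Gam G y s₄ s₁ Z) (hZ' : Z' ∈ Z1 (del G {y, s₄, s₁}))
    (h1 : Z' s(x, s₂) = 1) : Gam G y s₄ s₁ Z' := by
  have hnd := h.nd
  simp only [List.nodup_cons, List.mem_cons, List.not_mem_nil, or_false, not_or,
    not_false_eq_true, List.nodup_nil, and_true] at hnd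
  obtain ⟨⟨hxy, hx1, hx2, hx3, hx4⟩, ⟨hy1, hy2, hy3, hy4⟩, ⟨h12, h13, h14⟩, ⟨h23, h24⟩, h34⟩ := hnd
  have star : ∀ W, W ∈ Z1 (del G {y, s₄, s₁}) → W s(x, s₂) = 0 → ¬ Gam G y s₄ s₁ W := by
    intro W hW h0 hg
    rcases hNCX.tri hG.1 hg ((h.ny x).2 (Or.inl rfl)) hx4 hx1 (avoid h hW h0) with h2 | h2
    · exact hNCN.nadj hpl h2 ((h.nx s₄).2 (by tauto)).symm
    · exact hno W (hNCX.symm h2)
  have hZ1 : Z s(x, s₂) = 1 := by
    rcases zmod2_cases (Z s(x, s₂)) with e | e
    · exact absurd hZ (star Z hZ.2.2.2.1 e)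
    · exact e
  rcases hNCN.lin hG.1 hpl hZ hZ' with h2 | h2
  · exact h2
  · refine absurd h2 (star _ ((Z1 _).add_mem hZ.2.2.2.1 hZ') ?_)
    rw [Pi.add_apply, hZ1, h1]
    exact zmod2_add_self _

lemma cut (hNBF : SpecNBF) (hNCX : SpecNCX) (hNCN : SpecNCN) {G : SimpleGraph α}
    {x y s₁ s₂ s₃ s₄ : α} {Z : Chain α} (hG : K48 G) (hno33 : No33 G)
    (h : P34 G x y s₁ s₂ s₃ s₄) (hpl : ¬ NP (del G {y}))
    (hno : ∀ W, ¬ Gam G y x s₁ W) (hZ : Gam G y s₄ s₁ Z) :
    ¬ ∃ c A B, [y, s₃, s₄, c].Nodup ∧ Sep G {y, s₃, s₄, c} A B ∧ x ∈ A ∧ s₂ ∈ A ∧ s₁ ∈ B := by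
  rintro ⟨c, A, B, hndT, hsep, hxA, h2A, h1B⟩
  have hnd := h.nd
  simp only [List.nodup_cons, List.mem_cons, List.not_mem_nil, or_false, not_or,
    not_false_eq_true, List.nodup_nil, and_true] at hnd hndT
  obtain ⟨⟨hxy, hx1, hx2, hx3, hx4⟩, ⟨hy1, hy2, hy3, hy4⟩, ⟨h12, h13, h14⟩, ⟨h23, h24⟩, h34⟩ := hnd
  obtain ⟨⟨-, -, hyc⟩, ⟨-, h3c⟩, h4c⟩ := hndT
  have hTA : ∀ v, v ∈ ({y, s₃, s₄, c} : Finset α) → v ∉ A := fun v hv =>
    Finset.disjoint_left.1 hsep.2.1 hv
  have hTB : ∀ v, v ∈ ({y, s₃, s₄, c} : Finset α) → v ∉ B := fun v hv =>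
    Finset.disjoint_left.1 hsep.2.2.1 hv
  have hAB : ∀ v, v ∈ A → v ∉ B := fun v hv => Finset.disjoint_left.1 hsep.2.2.2.1 hv
  have hyA : y ∉ A := hTA y (by simp)
  have h3A : s₃ ∉ A := hTA s₃ (by simp)
  have h4A : s₄ ∉ A := hTA s₄ (by simp)
  have hcA : c ∉ A := hTA c (by simp)
  have hyB : y ∉ B := hTB y (by simp)
  have h3B : s₃ ∉ B := hTB s₃ (by simp)
  have h4B : s₄ ∉ B := hTB s₄ (by simp)
  have h1A : s₁ ∉ A := fun h => hAB _ h h1B
  have hxB : x ∉ B := hAB _ hxA
  have h2B : s₂ ∉ B := hAB _ h2A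
  have hxV : x ∈ VS G := hsep.subP hxA
  have hyV : y ∈ VS G := hsep.subS (by simp)
  have hT3 : ({s₃, s₄, c} : Finset α).card < 4 := lt_of_le_of_lt card_le_three (by norm_num)
  -- neighbours of vertices of `A`
  have nbA : ∀ d ∈ A, ∀ w, G.Adj d w → w ∈ A ∨ w = y ∨ w = s₃ ∨ w = s₄ ∨ w = c := by
    intro d hd w hdw
    rcases hsep.mem_or (right_mem_VS hdw) with h1 | h1 | h1
    · simp only [mem_insert, mem_singleton] at h1
      exact Or.inr h1
    · exact Or.inl h1
    · exact absurd hdw (hsep.2.2.2.2 d hd w h1)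
  have nbB : ∀ d ∈ B, ∀ w, G.Adj d w → w ∈ B ∨ w = y ∨ w = s₃ ∨ w = s₄ ∨ w = c := by
    intro d hd w hdw
    rcases hsep.mem_or (right_mem_VS hdw) with h1 | h1 | h1
    · simp only [mem_insert, mem_singleton] at h1
      exact Or.inr h1
    · exact absurd hdw.symm (hsep.2.2.2.2 w h1 d hd)
    · exact Or.inl h1
  have nxA : ∀ d ∈ A, d ≠ x → d ≠ s₂ → ¬ G.Adj x d := by
    intro d hd hdx hd2 hxd
    rcases (h.nx d).1 hxd with e | e | e | e
    · exact hyA (e ▸ hd)
    · exact hd2 e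
    · exact h3A (e ▸ hd)
    · exact h4A (e ▸ hd)
  have nyA : ∀ d ∈ A, d ≠ x → d ≠ s₂ → ¬ G.Adj y d := by
    intro d hd hdx hd2 hyd
    rcases (h.ny d).1 hyd with e | e | e | e | e
    · exact hdx e
    · exact h1A (e ▸ hd)
    · exact hd2 e
    · exact h3A (e ▸ hd)
    · exact h4A (e ▸ hd)
  have nyB : ∀ d ∈ B, d ≠ s₁ → ¬ G.Adj y d := by
    intro d hd hd1 hyd
    rcases (h.ny d).1 hyd with e | e | e | e | e
    · exact hxB (e ▸ hd)
    · exact hd1 e
    · exact h2B (e ▸ hd)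
    · exact h3B (e ▸ hd)
    · exact h4B (e ▸ hd)
  -- `A - x` is connected
  have cA : ∀ a ∈ A.erase x, (del G (univ \ A.erase x)).Reachable a s₂ := by
    intro a ha
    refine conn_in hNBF hG.1 (D := A.erase x) (x0 := x) ((erase_subset _ _).trans hsep.subP) ha
      hxV (notMem_erase _ _) {s₃, s₄, c} hT3 ?_ ?_
    · intro d hd hd2
      rw [mem_erase] at hd
      exact nxA d hd.2 hd.1 hd2
    · intro w hw d hd hd2 hdw
      rw [mem_erase] at hd
      rw [mem_erase, not_and_or, not_not] at hw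
      simp only [mem_insert, mem_singleton]
      rcases nbA d hd.2 w hdw with h1 | h1 | h1 | h1 | h1
      · rcases hw with hw | hw
        · subst hw
          exact absurd hdw.symm (nxA d hd.2 hd.1 hd2)
        · exact absurd h1 hw
      · subst h1
        exact absurd hdw.symm (nyA d hd.2 hd.1 hd2)
      · exact Or.inl h1
      · exact Or.inr (Or.inl h1)
      · exact Or.inr (Or.inr h1)
  -- `B` is connected
  have cB : ∀ b ∈ B, (del G (univ \ B)).Reachable b s₁ := by
    intro b hb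
    refine conn_in hNBF hG.1 (D := B) (x0 := y) hsep.subQ hb hyV hyB {s₃, s₄, c} hT3 ?_ ?_
    · intro d hd hd1
      exact nyB d hd hd1
    · intro w hw d hd hd1 hdw
      simp only [mem_insert, mem_singleton]
      rcases nbB d hd w hdw with h1 | h1 | h1 | h1 | h1
      · exact absurd h1 hw
      · subst h1
        exact absurd hdw.symm (nyB d hd hd1)
      · exact Or.inl h1
      · exact Or.inr (Or.inl h1)
      · exact Or.inr (Or.inr h1)
  have hTcard : ({y, s₃, s₄, c} : Finset α).card ≤ 4 := card_le_four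
  by_cases h3 : ∃ a ∈ A.erase x, G.Adj s₃ a
  · -- a cycle
    obtain ⟨a, ha, h3a⟩ := h3
    obtain ⟨P, hP⟩ := exists_isPth (cA a ha).symm
    have hvP : ∀ v ∈ vs P, v ∈ A.erase x := by
      intro v hv
      have h1 := Finset.disjoint_left.1 (vs_of_isPth_del hP) hv
      rw [mem_sdiff, not_and, not_not] at h1
      exact h1 (mem_univ _)
    have h3P : s₃ ∉ vs P := fun hv => h3A (mem_of_mem_erase (hvP _ hv))
    have hPx : IsPth (del G {x}) s₂ a P := by
      refine DL.isPth_del.2 ⟨(DL.isPth_del.1 hP).1, ?_⟩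
      rw [disjoint_singleton_right]
      exact fun hv => notMem_erase x A (hvP _ hv)
    have hP' : IsPth (del G {x}) s₂ s₃ (insert s(a, s₃) P) := by
      refine hPx.concat ⟨h3a.symm, ?_, ?_⟩ h3P
      · rw [mem_singleton]
        exact (mem_erase.1 ha).1
      · rw [mem_singleton]
        exact Ne.symm hx3
    have hC := isCyc_of_isPth_del ((h.nx s₂).2 (by tauto)) ((h.nx s₃).2 (by tauto)) h23 hP'
    set C := insert s(x, s₂) (insert s(x, s₃) (insert s(a, s₃) P)) with hCdef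
    have hvC : ∀ v ∈ vs C, v ∈ A ∨ v = s₃ := by
      intro v hv
      rw [hCdef, vs_insert, vs_insert, vs_insert] at hv
      simp only [mem_union, mem_insert, mem_singleton] at hv
      rcases hv with (rfl | rfl) | (rfl | rfl) | (rfl | rfl) | hv
      · exact Or.inl hxA
      · exact Or.inl h2A
      · exact Or.inl hxA
      · exact Or.inr rfl
      · exact Or.inl (mem_of_mem_erase ha)
      · exact Or.inr rfl
      · exact Or.inl (mem_of_mem_erase (hvP _ hv))
    have hCd : IsCyc (del G {y, s₄, s₁}) C := by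
      refine isCyc_del.2 ⟨hC, ?_⟩
      rw [Finset.disjoint_left]
      intro v hv hv'
      simp only [mem_insert, mem_singleton] at hv'
      rcases hvC v hv with h1 | h1
      · rcases hv' with e | e | e
        · exact hyA (e ▸ h1)
        · exact h4A (e ▸ h1)
        · exact h1A (e ▸ h1)
      · rcases hv' with e | e | e
        · exact hy3 (e.symm.trans h1)
        · exact h34 (h1.symm.trans e)
        · exact h13 (e.symm.trans h1)
    have hg : Gam G y s₄ s₁ (chi C) :=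
      all hNCX hNCN hG h hpl hno hZ hCd.chi_mem (chi_of_mem (mem_insert_self _ _))
    -- `s₄` has a neighbour in `B`
    obtain ⟨b, hb, h4b⟩ := hG.1.exists_adj_of_sep hsep.symm ⟨s₁, h1B⟩ hTcard
      (s := s₄) (by simp)
    have hCB : ∀ v ∈ insert y (vs C), v ∉ B := by
      intro v hv
      rw [mem_insert] at hv
      rcases hv with rfl | hv
      · exact hyB
      · rcases hvC v hv with h1 | h1
        · exact hAB v h1
        · rw [h1]; exact h3B
    refine hNCN.sep hpl hC hg ?_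
    have h4C : s₄ ∉ insert y (vs C) := by
      rw [mem_insert, not_or]
      refine ⟨Ne.symm hy4, fun hv => ?_⟩
      rcases hvC _ hv with h1 | h1
      · exact h4A h1
      · exact h34 h1.symm
    refine Reachable.trans (v := b) (Adj.reachable ⟨h4b, h4C, fun hv => hCB b hv hb⟩) ?_
    refine (cB b hb).mono (del_anti ?_)
    intro v hv
    rw [mem_sdiff]
    exact ⟨mem_univ _, hCB v hv⟩
  · -- `A = {x, s₂}`
    push Not at h3
    have hA : A ⊆ {x, s₂} := by
      by_contra hcon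
      obtain ⟨a, haA, ha⟩ := not_subset.1 hcon
      simp only [mem_insert, mem_singleton, not_or] at ha
      have hsub : NB G ((A.erase x).erase s₂) ⊆ {s₂, s₄, c} := by
        intro w hw
        rw [mem_NB] at hw
        obtain ⟨hw1, d, hd, hdw⟩ := hw
        rw [mem_erase, mem_erase] at hd
        rw [mem_erase, mem_erase] at hw1
        simp only [mem_insert, mem_singleton]
        rcases nbA d hd.2.2 w hdw with h1 | h1 | h1 | h1 | h1
        · by_cases hw2 : w = s₂
          · exact Or.inl hw2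
          · by_cases hwx : w = x
            · subst hwx
              exact absurd hdw.symm (nxA d hd.2.2 hd.2.1 hd.1)
            · exact absurd ⟨hw2, hwx, h1⟩ hw1
        · subst h1
          exact absurd hdw.symm (nyA d hd.2.2 hd.2.1 hd.1)
        · subst h1
          exact absurd hdw.symm (h3 d (mem_erase.2 hd.2))
        · exact Or.inr (Or.inl h1)
        · exact Or.inr (Or.inr h1)
      have h1 := hNBF.nb hG.1 (A := (A.erase x).erase s₂)
        (fun w hw => hsep.subP (mem_of_mem_erase (mem_of_mem_erase hw)))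
        ⟨a, mem_erase.2 ⟨ha.2, mem_erase.2 ⟨ha.1, haA⟩⟩⟩
        (lt_of_le_of_lt (card_le_card hsub) (lt_of_le_of_lt card_le_three (by norm_num))) hxV
      rw [mem_union] at h1
      rcases h1 with h1 | h1
      · exact notMem_erase x A (mem_of_mem_erase h1)
      · have := hsub h1
        simp only [mem_insert, mem_singleton] at this
        rcases this with e | e | e
        · exact hx2 e
        · exact hx4 e
        · exact hcA (e ▸ hxA)
    have hn2 : ∀ w, G.Adj s₂ w → w = x ∨ w = c ∨ w = y ∨ w = s₄ := by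
      intro w hw
      rcases nbA s₂ h2A w hw with h1 | h1 | h1 | h1 | h1
      · have := hA h1
        simp only [mem_insert, mem_singleton] at this
        rcases this with e | e
        · exact Or.inl e
        · exact absurd e.symm hw.ne
      · exact Or.inr (Or.inr (Or.inl h1))
      · subst h1
        exact absurd hw.symm (h3 s₂ (mem_erase.2 ⟨Ne.symm hx2, h2A⟩))
      · exact Or.inr (Or.inr (Or.inr h1))
      · exact Or.inr (Or.inl h1)
    have hsub : nbs G s₂ ⊆ {x, c, y, s₄} := by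
      intro w hw
      have := hn2 w (mem_nbs.1 hw)
      simpa using this
    have heq : nbs G s₂ = {x, c, y, s₄} :=
      eq_of_subset_of_card_le hsub (le_trans card_le_four (hG.1.le_nbs (hsep.subP h2A)))
    refine hno33 x s₂ c s₃ y s₄ ⟨?_, ?_, ?_⟩
    · simp only [List.nodup_cons, List.mem_cons, List.not_mem_nil, or_false, not_or,
        not_false_eq_true, List.nodup_nil, and_true]
      exact ⟨⟨hx2, fun e => hcA (e ▸ hxA), hx3, hxy, hx4⟩,
        ⟨fun e => hcA (e ▸ h2A), h23, Ne.symm hy2, h24⟩, ⟨Ne.symm h3c, Ne.symm hyc, Ne.symm h4c⟩,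
        ⟨Ne.symm hy3, h34⟩, hy4⟩
    · intro w
      rw [h.nx]
      tauto
    · intro w
      constructor
      · exact hn2 w
      · intro hw
        have : w ∈ nbs G s₂ := by
          rw [heq]
          simpa using hw
        exact mem_nbs.1 this

end E3DM

theorem specE3D (hVKA : SpecVKA) (hNBF : SpecNBF) (hNCX : SpecNCX) (hNCN : SpecNCN) : SpecE3D where
  leaf := fun _ h hpl hZ => E3DM.leaf hVKA h hpl hZ
  all := E3DM.all hNCX hNCN
  cut := E3DM.cut hNBF hNCX hNCN

end DL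
end
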