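import Pool.Agent.DL.E.Spec3
import Pool.Agent.DL.NP.PAI

/-!
# Module E3S: a split at a (3,4)-pair
-/

set_option autoImplicit false

open SimpleGraph Finset

namespace DL

namespace E3SM

variable {α : Type} [Fintype α] [DecidableEq α] {G : SimpleGraph α}

/-- a vertex set which is not everything has at least four boundary vertices -/
theorem four_le (hG : KConn 4 G) {D X : Finset α} (hD : D ⊆ VS G) (hne : D.Nonempty) {z : α}
    (hz : z ∈ VS G) (hzD : z ∉ D) (hzN : ∀ v ∈ D, ¬ G.Adj v z)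
    (hX : ∀ v ∈ D, ∀ w, G.Adj v w → w ∈ D ∨ w ∈ X) : 4 ≤ X.card := by
  by_contra hc
  have h1 : NB G D ⊆ X := by
    intro w hw
    obtain ⟨h1, v, hv, h2⟩ := NBFM.mem_NB.1 hw
    exact (hX v hv w h2).resolve_left h1
  have h2 := NBFM.nb hG hD hne (lt_of_le_of_lt (card_le_card h1) (not_le.1 hc))
  have h3 := h2 hz
  rw [mem_union] at h3
  rcases h3 with h3 | h3
  · exact hzD h3
  · obtain ⟨_, v, hv, h4⟩ := NBFM.mem_NB.1 h3
    exact hzN v hv h4

/-- the boundary of a corner -/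
def W (T A T' A' : Finset α) : Finset α := (T ∩ A') ∪ (T' ∩ A) ∪ (T ∩ T')

theorem mem_W {T A T' A' : Finset α} {w : α} :
    w ∈ W T A T' A' ↔ (w ∈ T ∧ w ∈ A') ∨ (w ∈ T' ∧ w ∈ A) ∨ (w ∈ T ∧ w ∈ T') := by
  simp only [W, mem_union, mem_inter, or_assoc]

/-- the three parts are disjoint -/
theorem TA {T A B : Finset α} (h : Sep G T A B) {v : α} (hT : v ∈ T) : v ∉ A :=
  Finset.disjoint_left.1 h.2.1 hT

theorem TB {T A B : Finset α} (h : Sep G T A B) {v : α} (hT : v ∈ T) : v ∉ B :=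
  Finset.disjoint_left.1 h.2.2.1 hT

theorem AB {T A B : Finset α} (h : Sep G T A B) {v : α} (hA : v ∈ A) : v ∉ B :=
  Finset.disjoint_left.1 h.2.2.2.1 hA

/-- a set splits into three parts -/
theorem split_card {T A B S : Finset α} (h : Sep G T A B) (hS : S ⊆ VS G) :
    (S ∩ A).card + (S ∩ B).card + (S ∩ T).card = S.card := by
  have e : S = (S ∩ A) ∪ (S ∩ B) ∪ (S ∩ T) := by
    ext v
    simp only [mem_union, mem_inter]
    constructor
    · intro hv
      rcases h.mem_or (hS hv) with h1 | h1 | h1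
      · exact Or.inr ⟨hv, h1⟩
      · exact Or.inl (Or.inl ⟨hv, h1⟩)
      · exact Or.inl (Or.inr ⟨hv, h1⟩)
    · rintro ((h1 | h1) | h1) <;> exact h1.1
  have h1 : Disjoint (S ∩ A) (S ∩ B) :=
    Disjoint.mono inter_subset_right inter_subset_right h.2.2.2.1
  have h2 : Disjoint ((S ∩ A) ∪ (S ∩ B)) (S ∩ T) := by
    rw [disjoint_union_left]
    exact ⟨Disjoint.mono inter_subset_right inter_subset_right h.2.1.symm,
      Disjoint.mono inter_subset_right inter_subset_right h.2.2.1.symm⟩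
  conv_rhs => rw [e]
  rw [card_union_of_disjoint h2, card_union_of_disjoint h1]

theorem W_card_eq {T A B T' A' B' : Finset α} (h : Sep G T A B) (h' : Sep G T' A' B') :
    (W T A T' A').card = (T ∩ A').card + (T' ∩ A).card + (T ∩ T').card := by
  unfold W
  rw [card_union_of_disjoint, card_union_of_disjoint]
  · rw [Finset.disjoint_left]
    intro v hv hv'
    rw [mem_inter] at hv hv'
    exact TA h hv.1 hv'.2
  · rw [Finset.disjoint_left]
    intro v hv hv'
    rw [mem_union, mem_inter, mem_inter] at hv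
    rw [mem_inter] at hv'
    rcases hv with hv | hv
    · exact TA h' hv'.2 hv.2
    · exact TA h hv'.1 hv.2

/-- boundaries of opposite corners -/
theorem W_card {T A B T' A' B' : Finset α} (h : Sep G T A B) (h' : Sep G T' A' B') :
    (W T A T' A').card + (W T B T' B').card = T.card + T'.card := by
  rw [W_card_eq h h', W_card_eq h.symm h'.symm]
  have h1 := split_card h' h.subS
  have h2 := split_card h h'.subS
  rw [inter_comm T' T] at h2
  omega

/-- neighbours of a vertex in a corner -/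
theorem nbr {T A B T' A' B' : Finset α} (h : Sep G T A B) (h' : Sep G T' A' B') {v w : α}
    (hv : v ∈ A) (hv' : v ∈ A') (hvw : G.Adj v w) : (w ∈ A ∧ w ∈ A') ∨ w ∈ W T A T' A' := by
  rw [mem_W]
  have hw : w ∈ VS G := right_mem_VS hvw
  have h1 : w ∈ T ∨ w ∈ A := by
    rcases h.mem_or hw with h1 | h1 | h1
    · exact Or.inl h1
    · exact Or.inr h1
    · exact absurd hvw (h.2.2.2.2 v hv w h1)
  have h2 : w ∈ T' ∨ w ∈ A' := by
    rcases h'.mem_or hw with h1 | h1 | h1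
    · exact Or.inl h1
    · exact Or.inr h1
    · exact absurd hvw (h'.2.2.2.2 v hv' w h1)
  tauto

theorem corner {T A B T' A' B' X : Finset α} (hG : KConn 4 G) (h : Sep G T A B)
    (h' : Sep G T' A' B') {u z : α} (hu : u ∈ A) (hu' : u ∈ A') (hz : z ∈ B)
    (hX : ∀ w ∈ W T A T' A', (∃ v, v ∈ A ∧ v ∈ A' ∧ G.Adj v w) → w ∈ X) : 4 ≤ X.card := by
  refine four_le hG (D := A ∩ A') (inter_subset_left.trans h.subP) ⟨u, mem_inter.2 ⟨hu, hu'⟩⟩
    (h.subQ hz) (fun hzA => AB h (mem_inter.1 hzA).1 hz)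
    (fun v hv => h.2.2.2.2 v (mem_inter.1 hv).1 z hz) fun v hv w hvw => ?_
  rw [mem_inter] at hv
  rcases nbr h h' hv.1 hv.2 hvw with h1 | h1
  · exact Or.inl (mem_inter.2 h1)
  · exact Or.inr (hX w h1 ⟨v, hv.1, hv.2, hvw⟩)

theorem corner_one {T A B T' A' B' X : Finset α} (hG : KConn 4 G) (h : Sep G T A B)
    (h' : Sep G T' A' B') {u z : α} (hz : z ∈ B)
    (hX : ∀ w ∈ W T A T' A', (∃ v, v ∈ A ∧ v ∈ A' ∧ v ≠ u ∧ G.Adj v w) → w ∈ X)
    (hc : X.card ≤ 2) : ∀ v, v ∈ A → v ∈ A' → v = u := by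
  intro v hv hv'
  by_contra hne
  have h1 : 4 ≤ (insert u X).card := by
    refine four_le hG (D := (A ∩ A').erase u)
      ((erase_subset _ _).trans (inter_subset_left.trans h.subP))
      ⟨v, mem_erase.2 ⟨hne, mem_inter.2 ⟨hv, hv'⟩⟩⟩
      (h.subQ hz) (fun hzA => AB h (mem_inter.1 (mem_erase.1 hzA).2).1 hz)
      (fun v hv => h.2.2.2.2 v (mem_inter.1 (mem_erase.1 hv).2).1 z hz) fun v hv w hvw => ?_
    rw [mem_erase, mem_inter] at hv
    by_cases hwu : w = u
    · exact Or.inr (mem_insert.2 (Or.inl hwu))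
    rcases nbr h h' hv.2.1 hv.2.2 hvw with h1 | h1
    · exact Or.inl (mem_erase.2 ⟨hwu, mem_inter.2 h1⟩)
    · exact Or.inr (mem_insert_of_mem (hX w h1 ⟨v, hv.2.1, hv.2.2, hv.1, hvw⟩))
  have h2 := card_insert_le u X
  omega

theorem card_four {a b c d : α} (h : [a, b, c, d].Nodup) : ({a, b, c, d} : Finset α).card = 4 := by
  simp only [List.nodup_cons, List.mem_cons, List.not_mem_nil, or_false, not_or,
    List.nodup_nil, and_true, not_false_eq_true] at h
  rw [card_insert_of_notMem, card_insert_of_notMem, card_insert_of_notMem, card_singleton]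
  · simp only [mem_singleton]; tauto
  · simp only [mem_insert, mem_singleton]; tauto
  · simp only [mem_insert, mem_singleton]; tauto

/-- neighbours contained in a set with four elements -/
theorem deg4 {a b c d u : α} (hG : KConn 4 G) (hu : u ∈ VS G)
    (h : ∀ w, G.Adj u w → w = a ∨ w = b ∨ w = c ∨ w = d) :
    ∀ w, G.Adj u w ↔ w = a ∨ w = b ∨ w = c ∨ w = d := by
  have h1 : nbs G u ⊆ {a, b, c, d} := by
    intro w hw
    simp only [mem_insert, mem_singleton]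
    exact h w (mem_nbs.1 hw)
  have h2 := eq_of_subset_of_card_le h1 (card_le_four.trans (hG.le_nbs hu))
  intro w
  refine ⟨h w, fun hw => ?_⟩
  rw [← mem_nbs, h2]
  simp only [mem_insert, mem_singleton]
  exact hw

/-- case (2) -/
theorem two {x y s₁ s₂ s₃ s₄ : α} (hG : K48 G) (h33 : No33 G) (hp : P34 G x y s₁ s₂ s₃ s₄)
    (hs : SPL G x y s₂ s₃ s₄ s₁) : ¬ ∃ c A B, [y, s₃, s₄, c].Nodup ∧
      Sep G {y, s₃, s₄, c} A B ∧ x ∈ A ∧ s₂ ∈ A ∧ s₁ ∈ B := by
  rintro ⟨e, A', B', hnd', h', hxA', hs2A', hs1B'⟩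
  obtain ⟨c, d, A, B, hnd, h, hs2A, hs3A, hs4B, hs1B⟩ := hs
  have hc4 := card_four hnd
  have hc4' := card_four hnd'
  generalize hT : ({x, y, c, d} : Finset α) = T at h hc4
  generalize hT' : ({y, s₃, s₄, e} : Finset α) = T' at h' hc4'
  have hxT : x ∈ T := by rw [← hT]; simp
  have hyT : y ∈ T := by rw [← hT]; simp
  have hyT' : y ∈ T' := by rw [← hT']; simp
  have hs3T' : s₃ ∈ T' := by rw [← hT']; simp
  have hs4T' : s₄ ∈ T' := by rw [← hT']; simp
  have h1 : 4 ≤ (W T A T' A').card := corner hG.1 h h' hs2A hs2A' hs1B fun w hw _ => hw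
  have h2 : 4 ≤ (W T B T' B').card := corner hG.1 h.symm h'.symm hs1B hs1B' hs2A fun w hw _ => hw
  have h3 := W_card h h'
  have h4 : (W T A T' A').card = 4 := by omega
  have hnp := hp.nd
  simp only [List.nodup_cons, List.mem_cons, List.not_mem_nil, or_false, not_or,
    List.nodup_nil, and_true, not_false_eq_true] at hnp
  obtain ⟨⟨nxy, nx1, nx2, nx3, nx4⟩, ⟨ny1, ny2, ny3, ny4⟩, ⟨n12, n13, n14⟩, ⟨n23, n24⟩, n34⟩ := hnp
  have hsub : ({x, y, s₃} : Finset α) ⊆ W T A T' A' := by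
    intro w hw
    simp only [mem_insert, mem_singleton] at hw
    rw [mem_W]
    rcases hw with rfl | rfl | rfl
    · exact Or.inl ⟨hxT, hxA'⟩
    · exact Or.inr (Or.inr ⟨hyT, hyT'⟩)
    · exact Or.inr (Or.inl ⟨hs3T', hs3A⟩)
  have h5 : (W T A T' A' \ {x, y, s₃}).card = 1 := by
    rw [card_sdiff_of_subset hsub, h4, card_eq_three.2 ⟨x, y, s₃, nxy, nx3, ny3, rfl⟩]
  obtain ⟨e', he'⟩ := card_eq_one.1 h5
  have he1 : e' ∈ W T A T' A' \ {x, y, s₃} := by rw [he']; exact mem_singleton_self _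
  rw [mem_sdiff] at he1
  have he2 := he1.2
  simp only [mem_insert, mem_singleton, not_or] at he2
  have hW : ∀ w ∈ W T A T' A', w = x ∨ w = y ∨ w = s₃ ∨ w = e' := by
    intro w hw
    by_contra hcon
    simp only [not_or] at hcon
    have : w ∈ W T A T' A' \ {x, y, s₃} := by
      rw [mem_sdiff]
      refine ⟨hw, ?_⟩
      simp only [mem_insert, mem_singleton, not_or]
      exact ⟨hcon.1, hcon.2.1, hcon.2.2.1⟩
    rw [he', mem_singleton] at this
    exact hcon.2.2.2 this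
  have hone : ∀ v, v ∈ A → v ∈ A' → v = s₂ := by
    refine corner_one hG.1 h h' (X := {s₃, e'}) hs1B ?_ card_le_two
    rintro w hw ⟨v, hvA, hvA', hv, hvw⟩
    rw [mem_insert, mem_singleton]
    rcases hW w hw with rfl | rfl | rfl | rfl
    · exfalso
      rcases (hp.nx v).1 hvw.symm with rfl | rfl | rfl | rfl
      · exact TA h hyT hvA
      · exact hv rfl
      · exact TA h' hs3T' hvA'
      · exact TA h' hs4T' hvA'
    · exfalso
      rcases (hp.ny v).1 hvw.symm with rfl | rfl | rfl | rfl | rfl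
      · exact TA h hxT hvA
      · exact AB h hvA hs1B
      · exact hv rfl
      · exact TA h' hs3T' hvA'
      · exact TA h' hs4T' hvA'
    · exact Or.inl rfl
    · exact Or.inr rfl
  have hN : ∀ w, G.Adj s₂ w ↔ w = x ∨ w = y ∨ w = s₃ ∨ w = e' := by
    refine deg4 hG.1 (h.subP hs2A) fun w hw => ?_
    rcases nbr h h' hs2A hs2A' hw with h1 | h1
    · exact absurd (hone w h1.1 h1.2) hw.ne'
    · exact hW w h1
  have hWn : ∀ w, w ∈ W T A T' A' → w ∉ T → w ∉ A → False := by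
    intro w hw h1 h2
    rw [mem_W] at hw
    tauto
  have hWn' : ∀ w, w ∈ W T A T' A' → w ∉ T → w ∉ T' → False := by
    intro w hw h1 h2
    rw [mem_W] at hw
    tauto
  have e2 : e' ≠ s₂ := by
    rintro rfl
    exact hWn' e' he1.1 (fun hh => TA h hh hs2A) (fun hh => TA h' hh hs2A')
  have e4 : e' ≠ s₄ := by
    rintro rfl
    exact hWn e' he1.1 (fun hh => TB h hh hs4B) (fun hh => AB h hh hs4B)
  refine h33 x s₂ e' s₄ y s₃ ⟨?_, fun w => ?_, fun w => ?_⟩
  · simp only [List.nodup_cons, List.mem_cons, List.not_mem_nil, or_false, not_or,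
      List.nodup_nil, and_true, not_false_eq_true]
    have := he2
    refine ⟨⟨nx2, Ne.symm this.1, nx4, nxy, nx3⟩, ⟨e2.symm, n24, Ne.symm ny2, n23⟩,
      ⟨e4, this.2.1, this.2.2⟩, ⟨Ne.symm ny4, Ne.symm n34⟩, ny3⟩
  · rw [hp.nx]
    tauto
  · rw [hN]
    tauto

/-- case (1) -/
theorem one {x y s₁ s₂ s₃ s₄ : α} (hG : K48 G) (hp : P34 G x y s₁ s₂ s₃ s₄)
    (hs : SPL G x y s₂ s₃ s₄ s₁) : ¬ ∃ c A B, [y, s₂, s₃, c].Nodup ∧
      Sep G {y, s₂, s₃, c} A B ∧ x ∈ A ∧ s₄ ∈ A ∧ s₁ ∈ B := by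
  rintro ⟨e, A', B', hnd', h', hxA', hs4A', hs1B'⟩
  obtain ⟨c, d, A, B, hnd, h, hs2A, hs3A, hs4B, hs1B⟩ := hs
  have hmT : ∀ w, w ∈ ({x, y, c, d} : Finset α) ↔ w = x ∨ w = y ∨ w = c ∨ w = d := by
    intro w; simp only [mem_insert, mem_singleton]
  have hmT' : ∀ w, w ∈ ({y, s₂, s₃, e} : Finset α) ↔ w = y ∨ w = s₂ ∨ w = s₃ ∨ w = e := by
    intro w; simp only [mem_insert, mem_singleton]
  generalize ({x, y, c, d} : Finset α) = T at h hmT
  generalize ({y, s₂, s₃, e} : Finset α) = T' at h' hmT'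
  simp only [List.nodup_cons, List.mem_cons, List.not_mem_nil, or_false, not_or,
    List.nodup_nil, and_true, not_false_eq_true] at hnd hnd'
  obtain ⟨⟨nxy, nxc, nxd⟩, ⟨nyc, nyd⟩, ncd⟩ := hnd
  obtain ⟨⟨ny2, ny3, nye⟩, ⟨n23, n2e⟩, n3e⟩ := hnd'
  have hxT' : x ∉ T' := fun hh => TA h' hh hxA'
  have hs2T : s₂ ∉ T := fun hh => TA h hh hs2A
  have hs3T : s₃ ∉ T := fun hh => TA h hh hs3A
  have hsub : W T B T' B' ⊆ {y, c, d, e} := by
    intro w hw
    rw [mem_W] at hw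
    simp only [mem_insert, mem_singleton]
    rcases hw with ⟨h1, h2⟩ | ⟨h1, h2⟩ | ⟨h1, h2⟩
    · rcases (hmT w).1 h1 with rfl | rfl | rfl | rfl
      · exact absurd h2 (AB h' hxA')
      all_goals tauto
    · rcases (hmT' w).1 h1 with rfl | rfl | rfl | rfl
      · tauto
      · exact absurd h2 (AB h hs2A)
      · exact absurd h2 (AB h hs3A)
      · tauto
    · rcases (hmT w).1 h1 with rfl | rfl | rfl | rfl
      · exact absurd h2 hxT'
      all_goals tauto
  have h2 : 4 ≤ (W T B T' B').card := corner hG.1 h.symm h'.symm hs1B hs1B' hs2A fun w hw _ => hw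
  have h3 : W T B T' B' = {y, c, d, e} :=
    eq_of_subset_of_card_le hsub (card_le_four.trans h2)
  have h4 : ({y, c, d, e} : Finset α).card = 4 :=
    le_antisymm card_le_four (h3 ▸ h2)
  have hec : e ≠ c := by
    rintro rfl
    have : ({y, e, d, e} : Finset α) ⊆ {y, e, d} := by
      intro w; simp only [mem_insert, mem_singleton]; tauto
    have := (card_le_card this).trans card_le_three
    omega
  have hed : e ≠ d := by
    rintro rfl
    have : ({y, c, e, e} : Finset α) ⊆ {y, c, e} := by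
      intro w; simp only [mem_insert, mem_singleton]; tauto
    have := (card_le_card this).trans card_le_three
    omega
  have hcT : c ∈ T := (hmT c).2 (by tauto)
  have hdT : d ∈ T := (hmT d).2 (by tauto)
  have hcT' : c ∉ T' := by
    intro hh
    rcases (hmT' c).1 hh with e1 | e1 | e1 | e1
    · exact nyc e1.symm
    · exact hs2T (e1 ▸ hcT)
    · exact hs3T (e1 ▸ hcT)
    · exact hec e1.symm
  have hdT' : d ∉ T' := by
    intro hh
    rcases (hmT' d).1 hh with e1 | e1 | e1 | e1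
    · exact nyd e1.symm
    · exact hs2T (e1 ▸ hdT)
    · exact hs3T (e1 ▸ hdT)
    · exact hed e1.symm
  have hcB' : c ∈ B' := by
    have : c ∈ W T B T' B' := by rw [h3]; simp
    rw [mem_W] at this
    tauto
  have hdB' : d ∈ B' := by
    have : d ∈ W T B T' B' := by rw [h3]; simp
    rw [mem_W] at this
    tauto
  have h5 : 4 ≤ ({x, y, e} : Finset α).card := by
    refine corner hG.1 h.symm h' hs4B hs4A' hs2A fun w hw _ => ?_
    rw [mem_W] at hw
    simp only [mem_insert, mem_singleton]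
    rcases hw with ⟨h1, h2⟩ | ⟨h1, h2⟩ | ⟨h1, h2⟩
    · rcases (hmT w).1 h1 with rfl | rfl | rfl | rfl
      · tauto
      · tauto
      · exact absurd hcB' (AB h' h2)
      · exact absurd hdB' (AB h' h2)
    · rcases (hmT' w).1 h1 with rfl | rfl | rfl | rfl
      · tauto
      · exact absurd h2 (AB h hs2A)
      · exact absurd h2 (AB h hs3A)
      · tauto
    · rcases (hmT w).1 h1 with rfl | rfl | rfl | rfl
      · tauto
      · tauto
      · exact absurd h2 hcT'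
      · exact absurd h2 hdT'
  have := h5.trans card_le_three
  omega

/-- case (4) -/
theorem fourth {x y s₁ s₂ s₃ s₄ : α} (hG : K48 G) (hp : P34 G x y s₁ s₂ s₃ s₄)
    (hs : SPL G x y s₂ s₃ s₄ s₁) : ¬ SPL G x y s₂ s₄ s₃ s₁ := by
  rintro ⟨c', d', A', B', hnd', h', hs2A', hs4A', hs3B', hs1B'⟩
  obtain ⟨c, d, A, B, hnd, h, hs2A, hs3A, hs4B, hs1B⟩ := hs
  have hc4 := card_four hnd
  have hc4' := card_four hnd'
  generalize hT : ({x, y, c, d} : Finset α) = T at h hc4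
  generalize hT' : ({x, y, c', d'} : Finset α) = T' at h' hc4'
  have hxT : x ∈ T := by rw [← hT]; simp
  have hyT : y ∈ T := by rw [← hT]; simp
  have hxT' : x ∈ T' := by rw [← hT']; simp
  have h1 : 4 ≤ (W T A T' A').card := corner hG.1 h h' hs2A hs2A' hs1B fun w hw _ => hw
  have h2 : 4 ≤ ((W T B T' B').erase x).card := by
    refine corner hG.1 h.symm h'.symm hs1B hs1B' hs2A ?_
    rintro w hw ⟨v, hvB, hvB', hvw⟩
    rw [mem_erase]
    refine ⟨?_, hw⟩
    rintro rfl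
    rcases (hp.nx v).1 hvw.symm with rfl | rfl | rfl | rfl
    · exact TB h hyT hvB
    · exact AB h hs2A hvB
    · exact AB h hs3A hvB
    · exact AB h' hs4A' hvB'
  have h3 := W_card h h'
  have h4 : ((W T B T' B').erase x).card + 1 = (W T B T' B').card :=
    card_erase_add_one (mem_W.2 (Or.inr (Or.inr ⟨hxT, hxT'⟩)))
  omega

end E3SM

theorem p34_swap23 {α : Type} {G : SimpleGraph α} {x y s₁ s₂ s₃ s₄ : α}
    (h : P34 G x y s₁ s₂ s₃ s₄) : P34 G x y s₁ s₃ s₂ s₄ := by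
  obtain ⟨h1, h2, h3⟩ := h
  refine ⟨?_, fun w => ?_, fun w => ?_⟩
  · simp only [List.nodup_cons, List.mem_cons, List.not_mem_nil, or_false, not_or,
      List.nodup_nil, and_true, not_false_eq_true] at h1 ⊢
    obtain ⟨⟨a1, a2, a3, a4, a5⟩, ⟨b1, b2, b3, b4⟩, ⟨c1, c2, c3⟩, ⟨d1, d2⟩, e1⟩ := h1
    exact ⟨⟨a1, a2, a4, a3, a5⟩, ⟨b1, b3, b2, b4⟩, ⟨c2, c1, c3⟩, ⟨Ne.symm d1, e1⟩, d2⟩
  · rw [h2]; tauto
  · rw [h3]; tauto

theorem p34_swap34 {α : Type} {G : SimpleGraph α} {x y s₁ s₂ s₃ s₄ : α}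
    (h : P34 G x y s₁ s₂ s₃ s₄) : P34 G x y s₁ s₂ s₄ s₃ := by
  obtain ⟨h1, h2, h3⟩ := h
  refine ⟨?_, fun w => ?_, fun w => ?_⟩
  · simp only [List.nodup_cons, List.mem_cons, List.not_mem_nil, or_false, not_or,
      List.nodup_nil, and_true, not_false_eq_true] at h1 ⊢
    obtain ⟨⟨a1, a2, a3, a4, a5⟩, ⟨b1, b2, b3, b4⟩, ⟨c1, c2, c3⟩, ⟨d1, d2⟩, e1⟩ := h1
    exact ⟨⟨a1, a2, a3, a5, a4⟩, ⟨b1, b2, b4, b3⟩, ⟨c1, c3, c2⟩, ⟨d2, d1⟩, Ne.symm e1⟩
  · rw [h2]; tauto
  · rw [h3]; tauto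

theorem spl_swap {α : Type} [Fintype α] [DecidableEq α] {G : SimpleGraph α} {x y i j k l : α}
    (h : SPL G x y i j k l) : SPL G x y j i k l := by
  obtain ⟨c, d, A, B, h1, h2, h3, h4, h5⟩ := h
  exact ⟨c, d, A, B, h1, h2, h4, h3, h5⟩

open E3SM in
theorem specE3S (hE3C : SpecE3C) : SpecE3S := by
  intro α _ _ G x y s₁ s₂ s₃ s₄ hG h33 hp hs
  have hp' := p34_swap23 hp
  have hs' := spl_swap hs
  have n2 : ¬ G.Adj s₂ s₁ := by
    obtain ⟨c, d, A, B, hnd, h, hs2A, hs3A, hs4B, hs1B⟩ := hs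
    exact h.2.2.2.2 s₂ hs2A s₁ hs1B
  have n3 : ¬ G.Adj s₃ s₁ := by
    obtain ⟨c, d, A, B, hnd, h, hs2A, hs3A, hs4B, hs1B⟩ := hs
    exact h.2.2.2.2 s₃ hs3A s₁ hs1B
  refine ⟨?_, ?_, ?_, ?_, ?_, n2, n3⟩
  · exact (hE3C.edge hG hp).resolve_right (two hG h33 hp hs)
  · exact (hE3C.edge hG hp').resolve_right (two hG h33 hp' hs')
  · exact (hE3C.edge hG (p34_swap23 (p34_swap34 hp))).resolve_right (one hG hp hs)
  · rcases hE3C.pair hG (p34_swap34 hp) with h1 | ⟨w, h1⟩ | h1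
    · exact h1
    · exact absurd ((h1 s₁).2 (by tauto)) n3
    · exact absurd h1 (fourth hG hp hs)
  · rcases hE3C.pair hG (p34_swap34 hp') with h1 | ⟨w, h1⟩ | h1
    · exact h1
    · exact absurd ((h1 s₁).2 (by tauto)) n2
    · exact absurd h1 (fourth hG hp' hs')

end DL
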