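import Pool.Agent.DL.E.E3S

/-!
# Module E3T: (3,4)-pairs without split
-/

set_option autoImplicit false

open SimpleGraph Finset

namespace DL

namespace E3TM

open E3SM

variable {α : Type} [Fintype α] [DecidableEq α] {G : SimpleGraph α}

/-- a side of a 4-separation without one vertex has at least four boundary vertices -/
theorem side_one {T A B X : Finset α} (hG : KConn 4 G) (h : Sep G T A B) {u z : α} (hz : z ∈ B)
    (hX : ∀ w ∈ T, (∃ v, v ∈ A ∧ v ≠ u ∧ G.Adj v w) → w ∈ X) (hc : X.card ≤ 2) :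
    ∀ v, v ∈ A → v = u := by
  intro v hv
  by_contra hne
  have h1 : 4 ≤ (insert u X).card := by
    refine four_le hG (D := A.erase u) ((erase_subset _ _).trans h.subP)
      ⟨v, mem_erase.2 ⟨hne, hv⟩⟩ (h.subQ hz) (fun hzA => AB h (mem_erase.1 hzA).2 hz)
      (fun v hv => h.2.2.2.2 v (mem_erase.1 hv).2 z hz) fun v hv w hvw => ?_
    rw [mem_erase] at hv
    by_cases hwu : w = u
    · exact Or.inr (mem_insert.2 (Or.inl hwu))
    rcases h.mem_or (right_mem_VS hvw) with h1 | h1 | h1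
    · exact Or.inr (mem_insert_of_mem (hX w h1 ⟨v, hv.2, hv.1, hvw⟩))
    · exact Or.inl (mem_erase.2 ⟨hwu, h1⟩)
    · exact absurd hvw (h.2.2.2.2 v hv.2 w h1)
  have h2 := card_insert_le u X
  omega

/-- two neighbours of `y` in each side of a separation containing `x` and `y` -/
theorem two_in {x y s₁ s₂ s₃ s₄ : α} (hG : K48 G) (hp : P34 G x y s₁ s₂ s₃ s₄)
    {c d : α} {P Q : Finset α} (h : Sep G {x, y, c, d} P Q)
    (hP : 2 ≤ P.card) (hQ : 2 ≤ Q.card) :
    ∃ s t, s ≠ t ∧ s ∈ P ∧ t ∈ P ∧ (s = s₁ ∨ s = s₂ ∨ s = s₃ ∨ s = s₄) ∧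
      (t = s₁ ∨ t = s₂ ∨ t = s₃ ∨ t = s₄) := by
  have hPne : P.Nonempty := card_pos.1 (by omega)
  obtain ⟨z, hz⟩ : Q.Nonempty := card_pos.1 (by omega)
  have hmT : ∀ w, w ∈ ({x, y, c, d} : Finset α) ↔ w = x ∨ w = y ∨ w = c ∨ w = d := by
    intro w; simp only [mem_insert, mem_singleton]
  have hc4 : ({x, y, c, d} : Finset α).card ≤ 4 := card_le_four
  generalize ({x, y, c, d} : Finset α) = T at h hmT hc4
  have hxT : x ∈ T := (hmT x).2 (Or.inl rfl)
  have hyT : y ∈ T := (hmT y).2 (Or.inr (Or.inl rfl))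
  obtain ⟨s, hs, hys⟩ := hG.1.exists_adj_of_sep h hPne hc4 hyT
  have hs' : s = s₁ ∨ s = s₂ ∨ s = s₃ ∨ s = s₄ := by
    rcases (hp.ny s).1 hys with rfl | h1
    · exact absurd hs (TA h hxT)
    · exact h1
  by_contra hcon
  push Not at hcon
  -- no other neighbour of `y` in `P`
  have hno : ∀ t, t ∈ P → (t = s₁ ∨ t = s₂ ∨ t = s₃ ∨ t = s₄) → t = s := by
    intro t ht ht'
    by_contra hne
    have h1 := hcon s t (Ne.symm hne) hs ht hs'
    tauto
  have h1 := side_one hG.1 h (u := s) (X := {c, d}) hz (fun w hw hex => by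
    obtain ⟨v, hv, hvs, hvw⟩ := hex
    rw [mem_insert, mem_singleton]
    rcases (hmT w).1 hw with rfl | rfl | h2 | h2
    · exfalso
      rcases (hp.nx v).1 hvw.symm with h2 | h2
      · exact TA h hyT (h2 ▸ hv)
      · exact hvs (hno v hv (Or.inr h2))
    · exfalso
      rcases (hp.ny v).1 hvw.symm with h2 | h2
      · exact TA h hxT (h2 ▸ hv)
      · exact hvs (hno v hv h2)
    · exact Or.inl h2
    · exact Or.inr h2) card_le_two
  have h2 : P ⊆ {s} := fun v hv => mem_singleton.2 (h1 v hv)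
  have h3 := card_le_card h2
  rw [card_singleton] at h3
  omega

/-- a 4-separation containing `x` and `y` is a split -/
theorem spl_of {x y s₁ s₂ s₃ s₄ : α} (hG : K48 G) (hp : P34 G x y s₁ s₂ s₃ s₄)
    {T P Q : Finset α} (h : Sep G T P Q) (hT : T.card = 4) (hx : x ∈ T) (hy : y ∈ T)
    (hP : 2 ≤ P.card) (hQ : 2 ≤ Q.card) :
    SPL G x y s₂ s₃ s₄ s₁ ∨ SPL G x y s₂ s₄ s₃ s₁ ∨ SPL G x y s₃ s₄ s₂ s₁ := by
  have hnp := hp.nd
  simp only [List.nodup_cons, List.mem_cons, List.not_mem_nil, or_false, not_or,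
    List.nodup_nil, and_true, not_false_eq_true] at hnp
  obtain ⟨⟨nxy, nx1, nx2, nx3, nx4⟩, ⟨ny1, ny2, ny3, ny4⟩, ⟨n12, n13, n14⟩, ⟨n23, n24⟩, n34⟩ := hnp
  -- the other two vertices of `T`
  have h2 : ((T.erase x).erase y).card = 2 := by
    rw [card_erase_of_mem (mem_erase.2 ⟨Ne.symm nxy, hy⟩), card_erase_of_mem hx, hT]
  obtain ⟨c, d, hcd, he⟩ := card_eq_two.1 h2
  have hc : c ∈ (T.erase x).erase y := by rw [he]; simp
  have hd : d ∈ (T.erase x).erase y := by rw [he]; simp
  rw [mem_erase, mem_erase] at hc hd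
  have hTe : T = {x, y, c, d} := by
    ext w
    simp only [mem_insert, mem_singleton]
    constructor
    · intro hw
      by_cases h3 : w = x
      · exact Or.inl h3
      by_cases h4 : w = y
      · exact Or.inr (Or.inl h4)
      have : w ∈ (T.erase x).erase y := mem_erase.2 ⟨h4, mem_erase.2 ⟨h3, hw⟩⟩
      rw [he, mem_insert, mem_singleton] at this
      exact Or.inr (Or.inr this)
    · rintro (rfl | rfl | rfl | rfl)
      · exact hx
      · exact hy
      · exact hc.2.2
      · exact hd.2.2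
  have hnd : [x, y, c, d].Nodup := by
    simp only [List.nodup_cons, List.mem_cons, List.not_mem_nil, or_false, not_or,
      List.nodup_nil, and_true, not_false_eq_true]
    exact ⟨⟨nxy, Ne.symm hc.2.1, Ne.symm hd.2.1⟩, ⟨Ne.symm hc.1, Ne.symm hd.1⟩, hcd⟩
  rw [hTe] at h
  obtain ⟨a, b, hab, ha, hb, ha', hb'⟩ := two_in hG hp h hP hQ
  obtain ⟨p, q, hpq, hp1, hq1, hp', hq'⟩ := two_in hG hp h.symm hQ hP
  have key : ∀ i j k l : α, i ∈ P → j ∈ P → k ∈ Q → l ∈ Q → SPL G x y i j k l :=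
    fun i j k l h1 h2 h3 h4 => ⟨c, d, P, Q, hnd, h, h1, h2, h3, h4⟩
  have key' : ∀ i j k l : α, i ∈ Q → j ∈ Q → k ∈ P → l ∈ P → SPL G x y i j k l :=
    fun i j k l h1 h2 h3 h4 => ⟨c, d, Q, P, hnd, h.symm, h1, h2, h3, h4⟩
  have hdis : ∀ v, v ∈ P → v ∉ Q := fun v hv => AB h hv
  have e1 : a ≠ p := fun e => hdis a ha (e ▸ hp1)
  have e2 : a ≠ q := fun e => hdis a ha (e ▸ hq1)
  have e3 : b ≠ p := fun e => hdis b hb (e ▸ hp1)
  have e4 : b ≠ q := fun e => hdis b hb (e ▸ hq1)
  -- all cases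
  rcases ha' with rfl | rfl | rfl | rfl <;> rcases hb' with rfl | rfl | rfl | rfl <;>
    first
    | exact absurd rfl hab
    | (rcases hp' with rfl | rfl | rfl | rfl <;>
        first
        | exact absurd rfl e1
        | exact absurd rfl e3
        | (rcases hq' with rfl | rfl | rfl | rfl <;>
            first
            | exact absurd rfl e2
            | exact absurd rfl e4
            | exact absurd rfl hpq
            | exact Or.inl (key _ _ _ _ (by assumption) (by assumption) (by assumption)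
                (by assumption))
            | exact Or.inl (key' _ _ _ _ (by assumption) (by assumption) (by assumption)
                (by assumption))
            | exact Or.inr (Or.inl (key _ _ _ _ (by assumption) (by assumption) (by assumption)
                (by assumption)))
            | exact Or.inr (Or.inl (key' _ _ _ _ (by assumption) (by assumption) (by assumption)
                (by assumption)))
            | exact Or.inr (Or.inr (key _ _ _ _ (by assumption) (by assumption) (by assumption)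
                (by assumption)))
            | exact Or.inr (Or.inr (key' _ _ _ _ (by assumption) (by assumption) (by assumption)
                (by assumption)))))

/-- case (ii) with `x` in the side `P` -/
theorem all_adj {x y s₁ s₂ s₃ s₄ : α} (hG : K48 G) (hp : P34 G x y s₁ s₂ s₃ s₄)
    {T P Q : Finset α} (h : Sep G T P Q) (hT : T.card = 4) (hx : x ∈ P) (hy : y ∈ T)
    (hP : 2 ≤ P.card) (hQ : 2 ≤ Q.card) (h2 : G.Adj s₂ s₁) (h3 : G.Adj s₃ s₁)
    (h4 : G.Adj s₄ s₁) : False := by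
  have hnp := hp.nd
  simp only [List.nodup_cons, List.mem_cons, List.not_mem_nil, or_false, not_or,
    List.nodup_nil, and_true, not_false_eq_true] at hnp
  obtain ⟨⟨nxy, nx1, nx2, nx3, nx4⟩, ⟨ny1, ny2, ny3, ny4⟩, ⟨n12, n13, n14⟩, ⟨n23, n24⟩, n34⟩ := hnp
  obtain ⟨z, hz⟩ : Q.Nonempty := card_pos.1 (by omega)
  -- the neighbours of `x` are in `P ∪ T`
  have hPT : ∀ s, G.Adj x s → s ∉ Q := fun s hs hsQ => h.2.2.2.2 x hx s hsQ hs
  have q2 : s₂ ∉ Q := hPT _ ((hp.nx _).2 (by tauto))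
  have q3 : s₃ ∉ Q := hPT _ ((hp.nx _).2 (by tauto))
  have q4 : s₄ ∉ Q := hPT _ ((hp.nx _).2 (by tauto))
  -- the neighbour of `y` in `Q`
  obtain ⟨s, hs, hys⟩ := hG.1.exists_adj_of_sep h.symm ⟨z, hz⟩ hT.le hy
  have hs1 : s = s₁ := by
    rcases (hp.ny s).1 hys with rfl | rfl | rfl | rfl | rfl
    · exact absurd hs (AB h hx)
    · rfl
    · exact absurd hs q2
    · exact absurd hs q3
    · exact absurd hs q4
  subst hs1
  have key : ∀ t, G.Adj t s → t ∉ Q → t ∈ T := by
    intro t hts htQ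
    rcases h.mem_or (left_mem_VS hts) with h5 | h5 | h5
    · exact h5
    · exact absurd hts (h.2.2.2.2 t h5 s hs)
    · exact absurd h5 htQ
  have t2 := key _ h2 q2
  have t3 := key _ h3 q3
  have t4 := key _ h4 q4
  have hTe : ({y, s₂, s₃, s₄} : Finset α) = T := by
    apply eq_of_subset_of_card_le
    · intro w hw
      simp only [mem_insert, mem_singleton] at hw
      rcases hw with rfl | rfl | rfl | rfl <;> assumption
    · rw [hT, card_four]
      simp only [List.nodup_cons, List.mem_cons, List.not_mem_nil, or_false, not_or,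
        List.nodup_nil, and_true, not_false_eq_true]
      exact ⟨⟨ny2, ny3, ny4⟩, ⟨n23, n24⟩, n34⟩
  -- `P = {x}`
  obtain ⟨v, hv, hvx⟩ : ∃ v ∈ P, v ≠ x := exists_mem_ne (by omega) x
  have h5 : 4 ≤ ({s₂, s₃, s₄} : Finset α).card := by
    refine four_le hG.1 (D := P.erase x) ((erase_subset _ _).trans h.subP)
      ⟨v, mem_erase.2 ⟨hvx, hv⟩⟩ (h.subQ hz) (fun hzA => AB h (mem_erase.1 hzA).2 hz)
      (fun v hv => h.2.2.2.2 v (mem_erase.1 hv).2 z hz) fun u hu w huw => ?_
    rw [mem_erase] at hu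
    by_cases hwx : w = x
    · exfalso
      subst hwx
      rcases (hp.nx u).1 huw.symm with rfl | rfl | rfl | rfl
      · exact TA h hy hu.2
      · exact TA h t2 hu.2
      · exact TA h t3 hu.2
      · exact TA h t4 hu.2
    rcases h.mem_or (right_mem_VS huw) with h6 | h6 | h6
    · right
      rw [← hTe] at h6
      simp only [mem_insert, mem_singleton] at h6 ⊢
      rcases h6 with rfl | h6
      · exfalso
        rcases (hp.ny u).1 huw.symm with rfl | rfl | rfl | rfl | rfl
        · exact hu.1 rfl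
        · exact AB h hu.2 hs
        · exact TA h t2 hu.2
        · exact TA h t3 hu.2
        · exact TA h t4 hu.2
      · exact h6
    · exact Or.inl (mem_erase.2 ⟨hwx, h6⟩)
    · exact absurd huw (h.2.2.2.2 u hu.2 w h6)
  have := h5.trans card_le_three
  omega

/-- case (v) -/
theorem five {x y s₁ s₂ s₃ s₄ w₀ : α} (hG : K48 G) (h33 : No33 G)
    (hp : P34 G x y s₁ s₂ s₃ s₄) (hw : ∀ v, G.Adj s₄ v ↔ v = x ∨ v = y ∨ v = s₁ ∨ v = w₀)
    (hc : ∃ c A B, [y, s₃, s₄, c].Nodup ∧ Sep G {y, s₃, s₄, c} A B ∧ x ∈ A ∧ s₂ ∈ A ∧ s₁ ∈ B)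
    (hc' : ∃ c A B, [y, s₂, s₄, c].Nodup ∧ Sep G {y, s₂, s₄, c} A B ∧ x ∈ A ∧ s₃ ∈ A ∧ s₁ ∈ B) :
    False := by
  obtain ⟨c, A, B, hnd, h, hxA, hs2A, hs1B⟩ := hc
  obtain ⟨c', A', B', hnd', h', hxA', hs3A', hs1B'⟩ := hc'
  have hc4 := card_four hnd
  have hc4' := card_four hnd'
  have hmT : ∀ w, w ∈ ({y, s₃, s₄, c} : Finset α) ↔ w = y ∨ w = s₃ ∨ w = s₄ ∨ w = c := by
    intro w; simp only [mem_insert, mem_singleton]
  have hmT' : ∀ w, w ∈ ({y, s₂, s₄, c'} : Finset α) ↔ w = y ∨ w = s₂ ∨ w = s₄ ∨ w = c' := by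
    intro w; simp only [mem_insert, mem_singleton]
  generalize ({y, s₃, s₄, c} : Finset α) = T at h hmT hc4
  generalize ({y, s₂, s₄, c'} : Finset α) = T' at h' hmT' hc4'
  have hnp := hp.nd
  simp only [List.nodup_cons, List.mem_cons, List.not_mem_nil, or_false, not_or,
    List.nodup_nil, and_true, not_false_eq_true] at hnp hnd hnd'
  obtain ⟨⟨nxy, nx1, nx2, nx3, nx4⟩, ⟨ny1, ny2, ny3, ny4⟩, ⟨n12, n13, n14⟩, ⟨n23, n24⟩, n34⟩ := hnp
  obtain ⟨⟨-, -, nyc⟩, ⟨-, n3c⟩, n4c⟩ := hnd
  obtain ⟨⟨-, -, nyc'⟩, ⟨-, n2c'⟩, n4c'⟩ := hnd'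
  have hyT : y ∈ T := (hmT y).2 (by tauto)
  have hs3T : s₃ ∈ T := (hmT s₃).2 (by tauto)
  have hs4T : s₄ ∈ T := (hmT s₄).2 (by tauto)
  have hcT : c ∈ T := (hmT c).2 (by tauto)
  have hyT' : y ∈ T' := (hmT' y).2 (by tauto)
  have hs2T' : s₂ ∈ T' := (hmT' s₂).2 (by tauto)
  have hs4T' : s₄ ∈ T' := (hmT' s₄).2 (by tauto)
  have hcT' : c' ∈ T' := (hmT' c').2 (by tauto)
  -- the corner of `s₁`
  have hsub : W T B T' B' ⊆ {y, s₄, c, c'} := by
    intro w hw
    rw [mem_W] at hw
    simp only [mem_insert, mem_singleton]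
    rcases hw with ⟨h1, h2⟩ | ⟨h1, h2⟩ | ⟨h1, h2⟩
    · rcases (hmT w).1 h1 with rfl | rfl | rfl | rfl
      · tauto
      · exact absurd h2 (AB h' hs3A')
      all_goals tauto
    · rcases (hmT' w).1 h1 with rfl | rfl | rfl | rfl
      · tauto
      · exact absurd h2 (AB h hs2A)
      all_goals tauto
    · rcases (hmT w).1 h1 with rfl | rfl | rfl | rfl
      · tauto
      · exact absurd hs3A' (TA h' h2)
      all_goals tauto
  have h2 : 4 ≤ (W T B T' B').card := corner hG.1 h.symm h'.symm hs1B hs1B' hxA fun w hw _ => hw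
  have h3 : W T B T' B' = {y, s₄, c, c'} :=
    eq_of_subset_of_card_le hsub (card_le_four.trans h2)
  have h4 : ({y, s₄, c, c'} : Finset α).card = 4 :=
    le_antisymm card_le_four (h3 ▸ h2)
  have hcc : c ≠ c' := by
    rintro rfl
    have : ({y, s₄, c, c} : Finset α) ⊆ {y, s₄, c} := by
      intro w; simp only [mem_insert, mem_singleton]; tauto
    have := (card_le_card this).trans card_le_three
    omega
  have hcT'n : c ∉ T' := by
    intro hh
    rcases (hmT' c).1 hh with e1 | e1 | e1 | e1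
    · exact nyc e1.symm
    · exact TA h hcT (e1 ▸ hs2A)
    · exact n4c e1.symm
    · exact hcc e1
  have hcTn : c' ∉ T := by
    intro hh
    rcases (hmT c').1 hh with e1 | e1 | e1 | e1
    · exact nyc' e1.symm
    · exact TA h' hcT' (e1 ▸ hs3A')
    · exact n4c' e1.symm
    · exact hcc e1.symm
  have hcB' : c ∈ B' := by
    have : c ∈ W T B T' B' := by rw [h3]; simp
    rw [mem_W] at this
    tauto
  have hcB : c' ∈ B := by
    have : c' ∈ W T B T' B' := by rw [h3]; simp
    rw [mem_W] at this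
    tauto
  -- the corner of `x` is `{x}`
  have hone : ∀ v, v ∈ A → v ∈ A' → v = x := by
    intro v hv hv'
    by_contra hne
    have h1 : 4 ≤ ({s₂, s₃, s₄} : Finset α).card := by
      refine four_le hG.1 (D := (A ∩ A').erase x)
        ((erase_subset _ _).trans (inter_subset_left.trans h.subP))
        ⟨v, mem_erase.2 ⟨hne, mem_inter.2 ⟨hv, hv'⟩⟩⟩
        (h.subQ hs1B) (fun hzA => AB h (mem_inter.1 (mem_erase.1 hzA).2).1 hs1B)
        (fun v hv => h.2.2.2.2 v (mem_inter.1 (mem_erase.1 hv).2).1 s₁ hs1B) fun u hu w huw => ?_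
      rw [mem_erase, mem_inter] at hu
      by_cases hwx : w = x
      · exfalso
        subst hwx
        rcases (hp.nx u).1 huw.symm with rfl | rfl | rfl | rfl
        · exact TA h hyT hu.2.1
        · exact TA h' hs2T' hu.2.2
        · exact TA h hs3T hu.2.1
        · exact TA h hs4T hu.2.1
      have hwy : w ≠ y := by
        rintro rfl
        rcases (hp.ny u).1 huw.symm with rfl | rfl | rfl | rfl | rfl
        · exact hu.1 rfl
        · exact AB h hu.2.1 hs1B
        · exact TA h' hs2T' hu.2.2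
        · exact TA h hs3T hu.2.1
        · exact TA h hs4T hu.2.1
      rcases nbr h h' hu.2.1 hu.2.2 huw with h1 | h1
      · exact Or.inl (mem_erase.2 ⟨hwx, mem_inter.2 h1⟩)
      · right
        rw [mem_W] at h1
        simp only [mem_insert, mem_singleton]
        rcases h1 with ⟨h1, h2⟩ | ⟨h1, h2⟩ | ⟨h1, h2⟩
        · rcases (hmT w).1 h1 with rfl | rfl | rfl | rfl
          · exact absurd rfl hwy
          · tauto
          · tauto
          · exact absurd hcB' (AB h' h2)
        · rcases (hmT' w).1 h1 with rfl | rfl | rfl | rfl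
          · exact absurd rfl hwy
          · tauto
          · tauto
          · exact absurd hcB (AB h h2)
        · rcases (hmT w).1 h1 with rfl | rfl | rfl | rfl
          · exact absurd rfl hwy
          · tauto
          · tauto
          · exact absurd h2 hcT'n
    have := h1.trans card_le_three
    omega
  -- `A ∩ B'` is empty
  have hAB' : ∀ v, v ∈ A → v ∉ B' := by
    intro v hv hv'
    have h1 : 4 ≤ ({s₂, s₄, c} : Finset α).card := by
      refine corner hG.1 h h'.symm hv hv' hs1B ?_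
      rintro w hw ⟨u, hu, hu', huw⟩
      have hwy : w ≠ y := by
        rintro rfl
        rcases (hp.ny u).1 huw.symm with rfl | rfl | rfl | rfl | rfl
        · exact AB h' hxA' hu'
        · exact AB h hu hs1B
        · exact TB h' hs2T' hu'
        · exact TA h hs3T hu
        · exact TA h hs4T hu
      rw [mem_W] at hw
      simp only [mem_insert, mem_singleton]
      rcases hw with ⟨h1, h2⟩ | ⟨h1, h2⟩ | ⟨h1, h2⟩
      · rcases (hmT w).1 h1 with rfl | rfl | rfl | rfl
        · exact absurd rfl hwy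
        · exact absurd h2 (AB h' hs3A')
        all_goals tauto
      · rcases (hmT' w).1 h1 with rfl | rfl | rfl | rfl
        · exact absurd rfl hwy
        · tauto
        · tauto
        · exact absurd hcB (AB h h2)
      · rcases (hmT w).1 h1 with rfl | rfl | rfl | rfl
        · exact absurd rfl hwy
        · exact absurd hs3A' (TA h' h2)
        all_goals tauto
    have := h1.trans card_le_three
    omega
  -- `A' ∩ B` is empty
  have hA'B : ∀ v, v ∈ A' → v ∉ B := by
    intro v hv hv'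
    have h1 : 4 ≤ ({s₃, s₄, c'} : Finset α).card := by
      refine corner hG.1 h' h.symm hv hv' hs1B' ?_
      rintro w hw ⟨u, hu, hu', huw⟩
      have hwy : w ≠ y := by
        rintro rfl
        rcases (hp.ny u).1 huw.symm with rfl | rfl | rfl | rfl | rfl
        · exact AB h hxA hu'
        · exact AB h' hu hs1B'
        · exact TA h' hs2T' hu
        · exact TB h hs3T hu'
        · exact TA h' hs4T' hu
      rw [mem_W] at hw
      simp only [mem_insert, mem_singleton]
      rcases hw with ⟨h1, h2⟩ | ⟨h1, h2⟩ | ⟨h1, h2⟩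
      · rcases (hmT' w).1 h1 with rfl | rfl | rfl | rfl
        · exact absurd rfl hwy
        · exact absurd h2 (AB h hs2A)
        all_goals tauto
      · rcases (hmT w).1 h1 with rfl | rfl | rfl | rfl
        · exact absurd rfl hwy
        · tauto
        · tauto
        · exact absurd hcB' (AB h' h2)
      · rcases (hmT' w).1 h1 with rfl | rfl | rfl | rfl
        · exact absurd rfl hwy
        · exact absurd hs2A (TA h h2)
        all_goals tauto
    have := h1.trans card_le_three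
    omega
  have hA : ∀ v, v ∈ A → v = x ∨ v = s₂ := by
    intro v hv
    rcases h'.mem_or (h.subP hv) with h1 | h1 | h1
    · rcases (hmT' v).1 h1 with rfl | rfl | rfl | rfl
      · exact absurd hv (TA h hyT)
      · exact Or.inr rfl
      · exact absurd hv (TA h hs4T)
      · exact absurd hcB (AB h hv)
    · exact Or.inl (hone v hv h1)
    · exact absurd h1 (hAB' v hv)
  have hA' : ∀ v, v ∈ A' → v = x ∨ v = s₃ := by
    intro v hv
    rcases h.mem_or (h'.subP hv) with h1 | h1 | h1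
    · rcases (hmT v).1 h1 with rfl | rfl | rfl | rfl
      · exact absurd hv (TA h' hyT')
      · exact Or.inr rfl
      · exact absurd hv (TA h' hs4T')
      · exact absurd hcB' (AB h' hv)
    · exact Or.inl (hone v h1 hv)
    · exact absurd h1 (hA'B v hv)
  have e12 : c ≠ x := by rintro rfl; exact TA h hcT hxA
  have e13 : c ≠ s₂ := by rintro rfl; exact TA h hcT hs2A
  have e12' : c' ≠ x := by rintro rfl; exact TA h' hcT' hxA'
  have e13' : c' ≠ s₃ := by rintro rfl; exact TA h' hcT' hs3A'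
  by_cases h24 : G.Adj s₂ s₄
  · -- `s₃` and `s₄` are not adjacent
    have hw2 : w₀ = s₂ := by
      rcases (hw s₂).1 h24.symm with e | e | e | e
      · exact absurd e.symm nx2
      · exact absurd e.symm ny2
      · exact absurd e.symm n12
      · exact e.symm
    have h34 : ¬ G.Adj s₃ s₄ := by
      intro h34
      rcases (hw s₃).1 h34.symm with e | e | e | e
      · exact nx3 e.symm
      · exact ny3 e.symm
      · exact n13 e.symm
      · exact n23 (hw2.symm.trans e.symm)
    have hN : ∀ w, G.Adj s₃ w ↔ w = x ∨ w = y ∨ w = s₂ ∨ w = c' := by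
      refine deg4 hG.1 (h'.subP hs3A') fun w hww => ?_
      rcases h'.mem_or (right_mem_VS hww) with h1 | h1 | h1
      · rcases (hmT' w).1 h1 with rfl | rfl | rfl | rfl
        · tauto
        · tauto
        · exact absurd hww h34
        · tauto
      · rcases hA' w h1 with rfl | rfl
        · exact Or.inl rfl
        · exact absurd rfl hww.ne
      · exact absurd hww (h'.2.2.2.2 s₃ hs3A' w h1)
    refine h33 x s₃ c' s₄ y s₂ ⟨?_, fun w => ?_, fun w => ?_⟩
    · simp only [List.nodup_cons, List.mem_cons, List.not_mem_nil, or_false, not_or,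
        List.nodup_nil, and_true, not_false_eq_true]
      exact ⟨⟨nx3, Ne.symm e12', nx4, nxy, nx2⟩, ⟨Ne.symm e13', n34, Ne.symm ny3, Ne.symm n23⟩,
        ⟨Ne.symm n4c', Ne.symm nyc', Ne.symm n2c'⟩, ⟨Ne.symm ny4, Ne.symm n24⟩, ny2⟩
    · rw [hp.nx]; tauto
    · rw [hN]; tauto
  · have hN : ∀ w, G.Adj s₂ w ↔ w = x ∨ w = y ∨ w = s₃ ∨ w = c := by
      refine deg4 hG.1 (h.subP hs2A) fun w hww => ?_
      rcases h.mem_or (right_mem_VS hww) with h1 | h1 | h1
      · rcases (hmT w).1 h1 with rfl | rfl | rfl | rfl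
        · tauto
        · tauto
        · exact absurd hww h24
        · tauto
      · rcases hA w h1 with rfl | rfl
        · exact Or.inl rfl
        · exact absurd rfl hww.ne
      · exact absurd hww (h.2.2.2.2 s₂ hs2A w h1)
    refine h33 x s₂ c s₄ y s₃ ⟨?_, fun w => ?_, fun w => ?_⟩
    · simp only [List.nodup_cons, List.mem_cons, List.not_mem_nil, or_false, not_or,
        List.nodup_nil, and_true, not_false_eq_true]
      exact ⟨⟨nx2, Ne.symm e12, nx4, nxy, nx3⟩, ⟨Ne.symm e13, n24, Ne.symm ny2, n23⟩,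
        ⟨Ne.symm n4c, Ne.symm nyc, Ne.symm n3c⟩, ⟨Ne.symm ny4, Ne.symm n34⟩, ny3⟩
    · rw [hp.nx]; tauto
    · rw [hN]; tauto

/-- the case in which `s₄` has degree 4 and is adjacent to `s₁` -/
theorem special {x y s₁ s₂ s₃ s₄ w₀ : α} (hE3C : SpecE3C) (hG : K48 G) (h33 : No33 G)
    (hp : P34 G x y s₁ s₂ s₃ s₄) (hy : ¬ Rig G y) (hs1 : ¬ SPL G x y s₂ s₃ s₄ s₁)
    (hs2 : ¬ SPL G x y s₂ s₄ s₃ s₁) (hs3 : ¬ SPL G x y s₃ s₄ s₂ s₁)
    (hw : ∀ v, G.Adj s₄ v ↔ v = x ∨ v = y ∨ v = s₁ ∨ v = w₀) :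
    GT3 G x y s₁ s₂ s₄ s₃ ∨ GT3 G x y s₁ s₃ s₄ s₂ := by
  have h41 : G.Adj s₄ s₁ := (hw s₁).2 (by tauto)
  have p4 := p34_swap23 (p34_swap34 hp)
  -- (i)
  have g4 : C1 (dst G y {x, s₄}) := by
    refine (hE3C.edge hG p4).resolve_right ?_
    rintro ⟨c, A, B, -, h, -, h4, h1⟩
    exact h.2.2.2.2 s₄ h4 s₁ h1 h41
  have g2 : G.Adj s₂ s₁ → C1 (dst G y {x, s₂}) := by
    intro h21
    refine (hE3C.edge hG hp).resolve_right ?_
    rintro ⟨c, A, B, -, h, -, h4, h1⟩
    exact h.2.2.2.2 s₂ h4 s₁ h1 h21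
  have g3 : G.Adj s₃ s₁ → C1 (dst G y {x, s₃}) := by
    intro h21
    refine (hE3C.edge hG (p34_swap23 hp)).resolve_right ?_
    rintro ⟨c, A, B, -, h, -, h4, h1⟩
    exact h.2.2.2.2 s₃ h4 s₁ h1 h21
  have g24 : ¬ G.Adj s₃ s₁ → C1 (dst G y {s₂, s₄}) := by
    intro h31
    rcases hE3C.pair hG (p34_swap34 hp) with h1 | ⟨w, h1⟩ | h1
    · exact h1
    · exact absurd ((h1 s₁).2 (by tauto)) h31
    · exact absurd h1 hs2
  have g34 : ¬ G.Adj s₂ s₁ → C1 (dst G y {s₃, s₄}) := by
    intro h21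
    rcases hE3C.pair hG (p34_swap34 (p34_swap23 hp)) with h1 | ⟨w, h1⟩ | h1
    · exact h1
    · exact absurd ((h1 s₁).2 (by tauto)) h21
    · exact absurd h1 hs3
  by_cases h21 : G.Adj s₂ s₁
  · by_cases h31 : G.Adj s₃ s₁
    · -- (ii)
      exfalso
      unfold Rig at hy
      push Not at hy
      obtain ⟨T, P, Q, h, hT, hyT, hP, hQ⟩ := hy
      have hx : x ∈ VS G := left_mem_VS ((hp.nx y).2 (Or.inl rfl))
      rcases h.mem_or hx with h1 | h1 | h1
      · rcases spl_of hG hp h hT h1 hyT hP hQ with h2 | h2 | h2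
        · exact hs1 h2
        · exact hs2 h2
        · exact hs3 h2
      · exact all_adj hG hp h hT h1 hyT hP hQ h21 h31 h41
      · exact all_adj hG hp h.symm hT h1 hyT hQ hP h21 h31 h41
    · exact Or.inl ⟨g2 h21, g4, g24 h31, h31⟩
  · by_cases h31 : G.Adj s₃ s₁
    · exact Or.inr ⟨g3 h31, g4, g34 h21, h21⟩
    · -- (v)
      rcases hE3C.edge hG hp with h1 | h1
      · exact Or.inl ⟨h1, g4, g24 h31, h31⟩
      · rcases hE3C.edge hG (p34_swap23 hp) with h2 | h2
        · exact Or.inr ⟨h2, g4, g34 h21, h21⟩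
        · exact (five hG h33 hp hw h1 h2).elim

end E3TM

theorem gt3_swap {α : Type} [Fintype α] [DecidableEq α] {G : SimpleGraph α} {x y s i j k : α}
    (h : GT3 G x y s i j k) : GT3 G x y s j i k := by
  obtain ⟨h1, h2, h3, h4⟩ := h
  exact ⟨h2, h1, by rw [pair_comm]; exact h3, h4⟩

open E3TM in
theorem specE3T (hE3C : SpecE3C) : SpecE3T := by
  intro α _ _ G x y s₁ s₂ s₃ s₄ hG h33 hp hy hs1 hs2 hs3
  have hs1' : ¬ SPL G x y s₃ s₂ s₄ s₁ := fun h => hs1 (spl_swap h)
  have hs2' : ¬ SPL G x y s₄ s₂ s₃ s₁ := fun h => hs2 (spl_swap h)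
  have hs3' : ¬ SPL G x y s₄ s₃ s₂ s₁ := fun h => hs3 (spl_swap h)
  rcases hE3C.pair hG hp with h1 | ⟨w, h1⟩ | h1
  · rcases hE3C.pair hG (p34_swap34 hp) with h2 | ⟨w, h2⟩ | h2
    · rcases hE3C.pair hG (p34_swap34 (p34_swap23 hp)) with h3 | ⟨w, h3⟩ | h3
      · exact Or.inl ⟨h1, h2, h3⟩
      · -- `s₂` is special
        right
        have hp' : P34 G x y s₁ s₄ s₃ s₂ := p34_swap23 (p34_swap34 (p34_swap23 hp))
        rcases special hE3C hG h33 hp' hy hs3' hs2' hs1' h3 with h4 | h4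
        · exact Or.inr (Or.inl (gt3_swap h4))
        · exact Or.inl (gt3_swap h4)
      · exact absurd h3 hs3
    · -- `s₃` is special
      right
      rcases special hE3C hG h33 (p34_swap34 hp) hy hs2 hs1 hs3' h2 with h4 | h4
      · exact Or.inl h4
      · exact Or.inr (Or.inr (gt3_swap h4))
    · exact absurd h2 hs2
  · right
    rcases special hE3C hG h33 hp hy hs1 hs2 hs3 h1 with h4 | h4
    · exact Or.inr (Or.inl h4)
    · exact Or.inr (Or.inr h4)
  · exact absurd h1 hs1

end DL
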