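import Pool.Agent.DL.E.E4N

/-!
# MP_3ff0f8_gt, EXIST section 4, module E4C (helper45)

(4,4)-pairs, two edges at `x` deleted.
-/

set_option autoImplicit false

open SimpleGraph Finset

namespace DL

namespace E4CM

open E4NM

variable {α : Type} [Fintype α] [DecidableEq α] {G : SimpleGraph α}

theorem dp {x y : α} {s : Fin 4 → α} (h : P44 G x y s) : DP G x y s where
  inj := h.inj
  xy := h.xy
  sx := h.sx
  nx := fun w hw => (h.nx w).1 hw
  ny := fun w hw => (h.ny w).1 hw
  ax := fun i => (h.nx _).2 (Or.inr ⟨i, rfl⟩)
  ay := fun i => (h.ny _).2 (Or.inr ⟨i, rfl⟩)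

theorem adj_xy {x y : α} {s : Fin 4 → α} (h : P44 G x y s) : G.Adj x y :=
  (h.nx y).2 (Or.inl rfl)

theorem mem_NB1 {x y : α} {s : Fin 4 → α} (h : P44 G x y s) {w : α} :
    w ∈ NB G {x} ↔ w = y ∨ ∃ i, w = s i := by
  rw [mem_NB]
  constructor
  · rintro ⟨_, a, ha, haw⟩
    rw [mem_singleton] at ha
    rw [ha] at haw
    exact (h.nx w).1 haw
  · intro hw
    have := (h.nx w).2 hw
    exact ⟨by rw [mem_singleton]; exact this.ne', x, mem_singleton_self x, this⟩

theorem mem_T (hG : K48 G) {x y : α} {s : Fin 4 → α} (h : P44 G x y s) {T P Q : Finset α}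
    (hs : Sep G T P Q) (h4 : T.card = 4) (hx : x ∈ T) (hP : P.Nonempty) (hQ : Q.Nonempty) :
    y ∈ T := mem_cut hG (dp h) hs h4 hx hP hQ

end E4CM

open E4NM E4CM in
/-- **E4C** -/
theorem specE4C (hCRX : SpecCRX) (hNBF : SpecNBF) : SpecE4C where
  edge := by
    intro α _ _ G x y s hG h
    have hd := dp h
    have hinj : ∀ i j : Fin 4, i ≠ j → s i ≠ s j := fun i j hij he => hij (h.inj he)
    rcases hCRX (P := {y, s 0}) hG (left_mem_VS (hd.ax 0)) (by
        intro w hw
        rw [mem_insert, mem_singleton] at hw
        rw [mem_NB1 h]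
        rcases hw with hw | hw
        · exact Or.inl hw
        · exact Or.inr ⟨0, hw⟩) (by
        have hsub : ({s 1, s 2, s 3} : Finset α) ⊆ NB G {x} \ {y, s 0} := by
          intro w hw
          simp only [mem_insert, mem_singleton] at hw
          rw [mem_sdiff, mem_NB1 h, mem_insert, mem_singleton, not_or]
          rcases hw with rfl | rfl | rfl
          · exact ⟨Or.inr ⟨1, rfl⟩, (h.sx 1).2, hinj 1 0 (by decide)⟩
          · exact ⟨Or.inr ⟨2, rfl⟩, (h.sx 2).2, hinj 2 0 (by decide)⟩
          · exact ⟨Or.inr ⟨3, rfl⟩, (h.sx 3).2, hinj 3 0 (by decide)⟩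
        have h3 : ({s 1, s 2, s 3} : Finset α).card = 3 :=
          card_eq_three.2 ⟨s 1, s 2, s 3, hinj 1 2 (by decide), hinj 1 3 (by decide),
            hinj 2 3 (by decide), rfl⟩
        exact h3.ge.trans (card_le_card hsub)) with h1 | ⟨T, A, B, hs, h4, hx, hA, hB, hN⟩
    · exact h1
    · exfalso
      have hBn : B.Nonempty := card_pos.1 (by omega)
      have hy := mem_T hG h hs h4 hx hA hBn
      have := small hNBF hG hd hs.symm h4 hx hy 0 (fun j hj => by
        have h1 := hN (s j) hj (hd.ax j)
        rw [mem_insert, mem_singleton] at h1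
        rcases h1 with h1 | h1
        · exact absurd h1 (h.sx j).2
        · exact h.inj h1)
      omega
  pair := by
    intro α _ _ G x y s hG h hn23 hnS
    have hd := dp h
    have hinj : ∀ i j : Fin 4, i ≠ j → s i ≠ s j := fun i j hij he => hij (h.inj he)
    rcases hCRX (P := {s 0, s 1}) hG (left_mem_VS (hd.ax 0)) (by
        intro w hw
        rw [mem_insert, mem_singleton] at hw
        rw [mem_NB1 h]
        rcases hw with hw | hw
        · exact Or.inr ⟨0, hw⟩
        · exact Or.inr ⟨1, hw⟩) (by
        have hsub : ({y, s 2, s 3} : Finset α) ⊆ NB G {x} \ {s 0, s 1} := by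
          intro w hw
          simp only [mem_insert, mem_singleton] at hw
          rw [mem_sdiff, mem_NB1 h, mem_insert, mem_singleton, not_or]
          rcases hw with rfl | rfl | rfl
          · exact ⟨Or.inl rfl, (h.sx 0).2.symm, (h.sx 1).2.symm⟩
          · exact ⟨Or.inr ⟨2, rfl⟩, hinj 2 0 (by decide), hinj 2 1 (by decide)⟩
          · exact ⟨Or.inr ⟨3, rfl⟩, hinj 3 0 (by decide), hinj 3 1 (by decide)⟩
        have h3 : ({y, s 2, s 3} : Finset α).card = 3 :=
          card_eq_three.2 ⟨y, s 2, s 3, (h.sx 2).2.symm, (h.sx 3).2.symm,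
            hinj 2 3 (by decide), rfl⟩
        exact h3.ge.trans (card_le_card hsub)) with h1 | ⟨T, A, B, hs, h4, hx, hA, hB, hN⟩
    · exact h1
    · exfalso
      have hBn : B.Nonempty := card_pos.1 (by omega)
      have hy := mem_T hG h hs h4 hx hA hBn
      obtain ⟨c, d, hnd, hT⟩ := cut_eq h.xy h4 hx hy
      have hB01 : ∀ j, s j ∈ B → j = 0 ∨ j = 1 := fun j hj => by
        have h1 := hN (s j) hj (hd.ax j)
        rw [mem_insert, mem_singleton] at h1
        rcases h1 with h1 | h1
        · exact Or.inl (h.inj h1)
        · exact Or.inr (h.inj h1)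
      have h0 : s 0 ∈ B := by
        by_contra hcon
        have := small hNBF hG hd hs.symm h4 hx hy 1 (fun j hj => by
          rcases hB01 j hj with rfl | rfl
          · exact absurd hj hcon
          · rfl)
        omega
      have h1 : s 1 ∈ B := by
        by_contra hcon
        have := small hNBF hG hd hs.symm h4 hx hy 0 (fun j hj => by
          rcases hB01 j hj with rfl | rfl
          · rfl
          · exact absurd hj hcon)
        omega
      have hdis : ∀ {v : α}, v ∈ A → v ∈ B → False := fun h2 h3 =>
        Finset.disjoint_left.1 hs.2.2.2.1 h2 h3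
      have hA23 : ∀ j, s j ∈ A → j = 2 ∨ j = 3 := by
        intro j hj
        fin_cases j
        · exact absurd h0 (fun h' => hdis hj h')
        · exact absurd h1 (fun h' => hdis hj h')
        · exact Or.inl rfl
        · exact Or.inr rfl
      -- the case of one `s j` in `A`, the other one in `T`
      have key : ∀ j k : Fin 4, s j ∈ A → s k ∈ T → (∀ i, s i ∈ A → i = j) → G.Adj (s j) (s k) := by
        intro j k hj hk honly
        have hA1 : A.card ≤ 1 := small hNBF hG hd hs h4 hx hy j honly
        have hsub : nbs G (s j) ⊆ T := by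
          intro w hw
          rw [mem_nbs] at hw
          rcases hs.mem_or (right_mem_VS hw) with h2 | h2 | h2
          · exact h2
          · exfalso
            have := card_le_one.1 hA1 w h2 (s j) hj
            rw [this] at hw
            exact hw.ne rfl
          · exact absurd hw (hs.2.2.2.2 _ hj w h2)
        have heq : nbs G (s j) = T :=
          eq_of_subset_of_card_le hsub (by rw [h4]; exact hG.1.le_nbs (hs.subP hj))
        rw [← mem_nbs, heq]
        exact hk
      have h2V : s 2 ∈ VS G := right_mem_VS (hd.ax 2)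
      have h3V : s 3 ∈ VS G := right_mem_VS (hd.ax 3)
      have h2B : s 2 ∉ B := fun h' => by
        rcases hB01 2 h' with h'' | h'' <;> exact absurd h'' (by decide)
      have h3B : s 3 ∉ B := fun h' => by
        rcases hB01 3 h' with h'' | h'' <;> exact absurd h'' (by decide)
      obtain ⟨i, hi⟩ := exists_mem hG hd hs h4 hx hy hA
      by_cases h2A : s 2 ∈ A
      · by_cases h3A : s 3 ∈ A
        · subst hT
          exact hnS ⟨c, d, B, A, hnd, hs.symm, h0, h1, h2A, h3A⟩
        · have h3T : s 3 ∈ T := by
            rcases hs.mem_or h3V with h' | h' | h'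
            · exact h'
            · exact absurd h' h3A
            · exact absurd h' h3B
          exact hn23 (key 2 3 h2A h3T (fun j hj => by
            rcases hA23 j hj with rfl | rfl
            · rfl
            · exact absurd hj h3A))
      · have h3A : s 3 ∈ A := by
          rcases hA23 i hi with rfl | rfl
          · exact absurd hi h2A
          · exact hi
        have h2T : s 2 ∈ T := by
          rcases hs.mem_or h2V with h' | h' | h'
          · exact h'
          · exact absurd h' h2A
          · exact absurd h' h2B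
        exact hn23 (key 3 2 h3A h2T (fun j hj => by
          rcases hA23 j hj with rfl | rfl
          · exact absurd hj h2A
          · rfl)).symm

end DL
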