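import Pool.Agent.DL.E.E4N

/-!
# MP_3ff0f8_gt, EXIST section 4, module E4S (helper45)

Two different splits at a double pair: `K_{4,4}` or the ring.
-/

set_option autoImplicit false

open SimpleGraph Finset

namespace DL

namespace E4SM

open E4NM

variable {α : Type} [Fintype α] [DecidableEq α] {G : SimpleGraph α}

/-- a vertex with at most four neighbours has exactly these -/
theorem eq4 (hG : K48 G) {v a b c d : α} (hv : v ∈ VS G)
    (h : ∀ w, G.Adj v w → w = a ∨ w = b ∨ w = c ∨ w = d) :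
    c ≠ d ∧ ∀ w, G.Adj v w ↔ w = a ∨ w = b ∨ w = c ∨ w = d := by
  have hsub : nbs G v ⊆ {a, b, c, d} := by
    intro w hw
    have := h w (mem_nbs.1 hw)
    simpa using this
  have h4 := hG.1.le_nbs hv
  have hcard : ({a, b, c, d} : Finset α).card ≤ 4 := card_le_four
  have heq : nbs G v = {a, b, c, d} := eq_of_subset_of_card_le hsub (hcard.trans h4)
  refine ⟨?_, fun w => ?_⟩
  · rintro rfl
    have h3 : ({a, b, c, c} : Finset α).card ≤ 3 := by
      have : ({a, b, c, c} : Finset α) = {a, b, c} := by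
        ext w
        simp
      rw [this]
      exact card_le_three
    rw [heq] at h4
    omega
  · rw [← mem_nbs, heq]
    simp

/-- a cut `{x, y, c, d}` with its sides -/
structure CC (G : SimpleGraph α) (x y c d : α) (T A B : Finset α) : Prop where
  sep : Sep G T A B
  mT : ∀ w, w ∈ T ↔ w = x ∨ w = y ∨ w = c ∨ w = d
  xy : x ≠ y
  xc : x ≠ c
  xd : x ≠ d
  yc : y ≠ c
  yd : y ≠ d
  cd : c ≠ d

theorem CC.swap {x y c d : α} {T A B : Finset α} (h : CC G x y c d T A B) :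
    CC G x y d c T A B where
  sep := h.sep
  mT := fun w => by rw [h.mT w]; tauto
  xy := h.xy
  xc := h.xd
  xd := h.xc
  yc := h.yd
  yd := h.yc
  cd := h.cd.symm

theorem CC.symm {x y c d : α} {T A B : Finset α} (h : CC G x y c d T A B) :
    CC G x y c d T B A where
  sep := h.sep.symm
  mT := h.mT
  xy := h.xy
  xc := h.xc
  xd := h.xd
  yc := h.yc
  yd := h.yd
  cd := h.cd

theorem CC.notMemP {x y c d : α} {T A B : Finset α} (h : CC G x y c d T A B) {w : α}
    (hw : w ∈ A) : w ≠ x ∧ w ≠ y ∧ w ≠ c ∧ w ≠ d := by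
  have h1 : w ∉ T := Finset.disjoint_right.1 h.sep.2.1 hw
  rw [h.mT w] at h1
  tauto

theorem of_nodup {x y c d : α} {A B : Finset α} (hn : [x, y, c, d].Nodup)
    (hs : Sep G {x, y, c, d} A B) : CC G x y c d {x, y, c, d} A B := by
  simp only [List.nodup_cons, List.mem_cons, List.not_mem_nil, or_false, not_or,
    List.nodup_nil, and_true, not_false_eq_true] at hn
  exact ⟨hs, fun w => by simp, hn.1.1, hn.1.2.1, hn.1.2.2, hn.2.1.1, hn.2.1.2, hn.2.2⟩

/-- **the corner lemma** -/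
theorem corner (hNBF : SpecNBF) (hG : K48 G) {x y : α} {s : Fin 4 → α} (h : DP G x y s)
    {c d c' d' : α} {T P Q T' P' Q' : Finset α} (h1 : CC G x y c d T P Q)
    (h2 : CC G x y c' d' T' P' Q') (i : Fin 4) (hi : s i ∈ P) (hi' : s i ∈ P')
    (honly : ∀ j, s j ∈ P → s j ∈ P' → j = i) (u v : α) (hux : u ≠ x) (hvx : v ≠ x)
    (hc : c ∉ Q' → c = u ∨ c = v) (hd : d ∉ Q' → d = u ∨ d = v) (hc' : c' ∈ P → c' = u ∨ c' = v)
    (hd' : d' ∈ P → d' = u ∨ d' = v) :
    u ≠ v ∧ (∀ w, G.Adj (s i) w ↔ w = x ∨ w = y ∨ w = u ∨ w = v) ∧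
      ∀ w ∈ P, w ∈ P' → w = s i := by
  -- neighbours of the corner
  have hnb : ∀ a ∈ P, a ∈ P' → ∀ w, G.Adj a w → (w ∈ P ∧ w ∈ P') ∨ w = x ∨ w = y ∨ w = u ∨
      w = v := by
    intro a ha ha' w haw
    have hwV := right_mem_VS haw
    have hwQ : w ∉ Q := fun hw => h1.sep.2.2.2.2 a ha w hw haw
    have hwQ' : w ∉ Q' := fun hw => h2.sep.2.2.2.2 a ha' w hw haw
    rcases h1.sep.mem_or hwV with hw | hw | hw
    · rcases (h1.mT w).1 hw with rfl | rfl | rfl | rfl
      · exact Or.inr (Or.inl rfl)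
      · exact Or.inr (Or.inr (Or.inl rfl))
      · exact Or.inr (Or.inr (Or.inr (hc hwQ')))
      · exact Or.inr (Or.inr (Or.inr (hd hwQ')))
    · rcases h2.sep.mem_or hwV with hw' | hw' | hw'
      · rcases (h2.mT w).1 hw' with rfl | rfl | rfl | rfl
        · exact Or.inr (Or.inl rfl)
        · exact Or.inr (Or.inr (Or.inl rfl))
        · exact Or.inr (Or.inr (Or.inr (hc' hw)))
        · exact Or.inr (Or.inr (Or.inr (hd' hw)))
      · exact Or.inl ⟨hw, hw'⟩
      · exact absurd hw' hwQ'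
    · exact absurd hw hwQ
  have hxV : x ∈ VS G := left_mem_VS (h.ax 0)
  have hxP : x ∉ P := fun hx => (h1.notMemP hx).1 rfl
  have hyP : y ∉ P := fun hy => (h1.notMemP hy).2.1 rfl
  have honly' : ∀ w ∈ P, w ∈ P' → w = s i := by
    intro w hw hw'
    by_contra hne
    have hsub : NB G ((P ∩ P').erase (s i)) ⊆ {s i, u, v} := by
      intro z hz
      obtain ⟨hz1, a, ha, haz⟩ := mem_NB.1 hz
      rw [mem_erase, mem_inter] at ha
      have hax : ¬ G.Adj a x := by
        intro hax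
        rcases h.nx a hax.symm with h3 | ⟨j, h3⟩
        · exact hyP (h3 ▸ ha.2.1)
        · rw [h3] at ha
          exact ha.1 (by rw [honly j ha.2.1 ha.2.2])
      have hay : ¬ G.Adj a y := by
        intro hay
        rcases h.ny a hay.symm with h3 | ⟨j, h3⟩
        · exact hxP (h3 ▸ ha.2.1)
        · rw [h3] at ha
          exact ha.1 (by rw [honly j ha.2.1 ha.2.2])
      rw [mem_insert, mem_insert, mem_singleton]
      rcases hnb a ha.2.1 ha.2.2 z haz with h3 | rfl | rfl | h3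
      · by_contra hcon
        push Not at hcon
        exact hz1 (mem_erase.2 ⟨hcon.1, mem_inter.2 h3⟩)
      · exact absurd haz hax
      · exact absurd haz hay
      · exact Or.inr h3
    have hV := hNBF.nb hG.1 (((erase_subset _ _).trans inter_subset_left).trans h1.sep.subP)
      ⟨w, mem_erase.2 ⟨hne, mem_inter.2 ⟨hw, hw'⟩⟩⟩
      (lt_of_le_of_lt ((card_le_card hsub).trans card_le_three) (by norm_num)) hxV
    rw [mem_union] at hV
    rcases hV with hV | hV
    · exact hxP (mem_inter.1 (mem_of_mem_erase hV)).1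
    · have := hsub hV
      rw [mem_insert, mem_insert, mem_singleton] at this
      rcases this with h3 | h3 | h3
      · exact (h.sx i).1 h3.symm
      · exact hux h3.symm
      · exact hvx h3.symm
  have hadj : ∀ w, G.Adj (s i) w → w = x ∨ w = y ∨ w = u ∨ w = v := by
    intro w hw
    rcases hnb _ hi hi' w hw with h3 | h3
    · have := honly' w h3.1 h3.2
      rw [this] at hw
      exact absurd rfl hw.ne
    · exact h3
  have := eq4 hG (h1.sep.subP hi) hadj
  exact ⟨this.1, this.2, honly'⟩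

/-- all the data -/
structure DD (G : SimpleGraph α) (x y : α) (s : Fin 4 → α) (c d c' d' : α)
    (T A B T' A' B' : Finset α) : Prop where
  h1 : CC G x y c d T A B
  h2 : CC G x y c' d' T' A' B'
  a0 : s 0 ∈ A
  a1 : s 1 ∈ A
  b2 : s 2 ∈ B
  b3 : s 3 ∈ B
  a0' : s 0 ∈ A'
  a2' : s 2 ∈ A'
  b1' : s 1 ∈ B'
  b3' : s 3 ∈ B'

theorem CC.disj {x y c d : α} {T A B : Finset α} (h : CC G x y c d T A B) {w : α} (hw : w ∈ A)
    (hw' : w ∈ B) : False := Finset.disjoint_left.1 h.sep.2.2.2.1 hw hw'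

variable {x y : α} {s : Fin 4 → α} {c d c' d' : α} {T A B T' A' B' : Finset α}

theorem DD.swap1 (D : DD G x y s c d c' d' T A B T' A' B') :
    DD G x y s d c c' d' T A B T' A' B' :=
  ⟨D.h1.swap, D.h2, D.a0, D.a1, D.b2, D.b3, D.a0', D.a2', D.b1', D.b3'⟩

theorem DD.swap2 (D : DD G x y s c d c' d' T A B T' A' B') :
    DD G x y s c d d' c' T A B T' A' B' :=
  ⟨D.h1, D.h2.swap, D.a0, D.a1, D.b2, D.b3, D.a0', D.a2', D.b1', D.b3'⟩

omit [Fintype α] [DecidableEq α] in
theorem aa4 {x y c d : α} (n1 : ¬ G.Adj x c) (n2 : ¬ G.Adj x d) (n3 : ¬ G.Adj y c)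
    (n4 : ¬ G.Adj y d) (n5 : ¬ G.Adj c x) (n6 : ¬ G.Adj d x) (n7 : ¬ G.Adj c y)
    (n8 : ¬ G.Adj d y) (i j : Fin 4) (hij : G.Adj (![x, y, c, d] i) (![x, y, c, d] j)) :
    (i = 0 ∧ j = 1) ∨ (i = 1 ∧ j = 0) ∨ (i = 2 ∧ j = 3) ∨ (i = 3 ∧ j = 2) := by
  fin_cases i <;> fin_cases j <;> first
    | exact absurd rfl hij.ne
    | exact absurd hij n1
    | exact absurd hij n2
    | exact absurd hij n3
    | exact absurd hij n4
    | exact absurd hij n5
    | exact absurd hij n6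
    | exact absurd hij n7
    | exact absurd hij n8
    | simp

theorem inj4 {x y c d : α} {T A B : Finset α} (h : CC G x y c d T A B) :
    Function.Injective ![x, y, c, d] := by
  have hxy := h.xy
  have hxc := h.xc
  have hxd := h.xd
  have hyc := h.yc
  have hyd := h.yd
  have hcd := h.cd
  clear h
  intro i j hij
  fin_cases i <;> fin_cases j <;> first
    | rfl
    | exact absurd hij hxy
    | exact absurd hij hxc
    | exact absurd hij hxd
    | exact absurd hij hyc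
    | exact absurd hij hyd
    | exact absurd hij hcd
    | exact absurd hij.symm hxy
    | exact absurd hij.symm hxc
    | exact absurd hij.symm hxd
    | exact absurd hij.symm hyc
    | exact absurd hij.symm hyd
    | exact absurd hij.symm hcd

section corners

variable (hNBF : SpecNBF) (hG : K48 G) (h : DP G x y s) (D : DD G x y s c d c' d' T A B T' A' B')

include hNBF hG h D

theorem c00 (u v : α) (hux : u ≠ x) (hvx : v ≠ x)
    (hc : c ∉ B' → c = u ∨ c = v) (hd : d ∉ B' → d = u ∨ d = v) (hc' : c' ∈ A → c' = u ∨ c' = v)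
    (hd' : d' ∈ A → d' = u ∨ d' = v) :
    u ≠ v ∧ (∀ w, G.Adj (s 0) w ↔ w = x ∨ w = y ∨ w = u ∨ w = v) ∧
      ∀ w ∈ A, w ∈ A' → w = s 0 :=
  corner hNBF hG h D.h1 D.h2 0 D.a0 D.a0' (fun j hj hj' => by
    fin_cases j
    · rfl
    · exact absurd hj' (fun h' => D.h2.disj h' D.b1')
    · exact absurd hj (fun h' => D.h1.disj h' D.b2)
    · exact absurd hj (fun h' => D.h1.disj h' D.b3)) u v hux hvx hc hd hc' hd'

theorem c01 (u v : α) (hux : u ≠ x) (hvx : v ≠ x)
    (hc : c ∉ A' → c = u ∨ c = v) (hd : d ∉ A' → d = u ∨ d = v) (hc' : c' ∈ A → c' = u ∨ c' = v)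
    (hd' : d' ∈ A → d' = u ∨ d' = v) :
    u ≠ v ∧ (∀ w, G.Adj (s 1) w ↔ w = x ∨ w = y ∨ w = u ∨ w = v) ∧
      ∀ w ∈ A, w ∈ B' → w = s 1 :=
  corner hNBF hG h D.h1 D.h2.symm 1 D.a1 D.b1' (fun j hj hj' => by
    fin_cases j
    · exact absurd hj' (fun h' => D.h2.disj D.a0' h')
    · rfl
    · exact absurd hj (fun h' => D.h1.disj h' D.b2)
    · exact absurd hj (fun h' => D.h1.disj h' D.b3)) u v hux hvx hc hd hc' hd'

theorem c10 (u v : α) (hux : u ≠ x) (hvx : v ≠ x)
    (hc : c ∉ B' → c = u ∨ c = v) (hd : d ∉ B' → d = u ∨ d = v) (hc' : c' ∈ B → c' = u ∨ c' = v)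
    (hd' : d' ∈ B → d' = u ∨ d' = v) :
    u ≠ v ∧ (∀ w, G.Adj (s 2) w ↔ w = x ∨ w = y ∨ w = u ∨ w = v) ∧
      ∀ w ∈ B, w ∈ A' → w = s 2 :=
  corner hNBF hG h D.h1.symm D.h2 2 D.b2 D.a2' (fun j hj hj' => by
    fin_cases j
    · exact absurd hj (fun h' => D.h1.disj D.a0 h')
    · exact absurd hj (fun h' => D.h1.disj D.a1 h')
    · rfl
    · exact absurd hj' (fun h' => D.h2.disj h' D.b3')) u v hux hvx hc hd hc' hd'

theorem c11 (u v : α) (hux : u ≠ x) (hvx : v ≠ x)
    (hc : c ∉ A' → c = u ∨ c = v) (hd : d ∉ A' → d = u ∨ d = v) (hc' : c' ∈ B → c' = u ∨ c' = v)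
    (hd' : d' ∈ B → d' = u ∨ d' = v) :
    u ≠ v ∧ (∀ w, G.Adj (s 3) w ↔ w = x ∨ w = y ∨ w = u ∨ w = v) ∧
      ∀ w ∈ B, w ∈ B' → w = s 3 :=
  corner hNBF hG h D.h1.symm D.h2.symm 3 D.b3 D.b3' (fun j hj hj' => by
    fin_cases j
    · exact absurd hj (fun h' => D.h1.disj D.a0 h')
    · exact absurd hj (fun h' => D.h1.disj D.a1 h')
    · exact absurd hj' (fun h' => D.h2.disj D.a2' h')
    · rfl) u v hux hvx hc hd hc' hd'

/-- equal cuts -/
theorem same (hc : ∀ w, w ∈ T' ↔ w ∈ T) : K4E G ![x, y, c, d] s := by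
  have hcA : ∀ w, w = c ∨ w = d → w ∉ A' ∧ w ∉ B' := by
    intro w hw
    have h1 : w ∈ T := (D.h1.mT w).2 (Or.inr (Or.inr hw))
    have h2 : w ∈ T' := (hc w).2 h1
    exact ⟨fun h3 => Finset.disjoint_left.1 D.h2.sep.2.1 h2 h3,
      fun h3 => Finset.disjoint_left.1 D.h2.sep.2.2.1 h2 h3⟩
  have hc'A : ∀ w, w = c' ∨ w = d' → w ∉ A ∧ w ∉ B := by
    intro w hw
    have h1 : w ∈ T' := (D.h2.mT w).2 (Or.inr (Or.inr hw))
    have h2 : w ∈ T := (hc w).1 h1
    exact ⟨fun h3 => Finset.disjoint_left.1 D.h1.sep.2.1 h2 h3,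
      fun h3 => Finset.disjoint_left.1 D.h1.sep.2.2.1 h2 h3⟩
  have e0 := c00 hNBF hG h D c d D.h1.xc.symm D.h1.xd.symm (fun _ => Or.inl rfl)
    (fun _ => Or.inr rfl) (fun h' => absurd h' (hc'A _ (Or.inl rfl)).1)
    (fun h' => absurd h' (hc'A _ (Or.inr rfl)).1)
  have e1 := c01 hNBF hG h D c d D.h1.xc.symm D.h1.xd.symm (fun _ => Or.inl rfl)
    (fun _ => Or.inr rfl) (fun h' => absurd h' (hc'A _ (Or.inl rfl)).1)
    (fun h' => absurd h' (hc'A _ (Or.inr rfl)).1)
  have e2 := c10 hNBF hG h D c d D.h1.xc.symm D.h1.xd.symm (fun _ => Or.inl rfl)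
    (fun _ => Or.inr rfl) (fun h' => absurd h' (hc'A _ (Or.inl rfl)).2)
    (fun h' => absurd h' (hc'A _ (Or.inr rfl)).2)
  have e3 := c11 hNBF hG h D c d D.h1.xc.symm D.h1.xd.symm (fun _ => Or.inl rfl)
    (fun _ => Or.inr rfl) (fun h' => absurd h' (hc'A _ (Or.inl rfl)).2)
    (fun h' => absurd h' (hc'A _ (Or.inr rfl)).2)
  have hsT : ∀ j, s j ∉ T := by
    intro j
    fin_cases j
    · exact Finset.disjoint_right.1 D.h1.sep.2.1 D.a0
    · exact Finset.disjoint_right.1 D.h1.sep.2.1 D.a1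
    · exact Finset.disjoint_right.1 D.h1.sep.2.2.1 D.b2
    · exact Finset.disjoint_right.1 D.h1.sep.2.2.1 D.b3
  have hcs : ∀ j, c ≠ s j := fun j hj => hsT j (hj ▸ (D.h1.mT c).2 (Or.inr (Or.inr (Or.inl rfl))))
  have hds : ∀ j, d ≠ s j := fun j hj => hsT j (hj ▸ (D.h1.mT d).2 (Or.inr (Or.inr (Or.inr rfl))))
  have hxw : ∀ w, w = c ∨ w = d → ¬ G.Adj x w := by
    rintro w hw hxw
    rcases h.nx w hxw with h3 | ⟨j, h3⟩
    · rcases hw with rfl | rfl
      · exact D.h1.yc h3.symm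
      · exact D.h1.yd h3.symm
    · rcases hw with rfl | rfl
      · exact hcs j h3
      · exact hds j h3
  have hyw : ∀ w, w = c ∨ w = d → ¬ G.Adj y w := by
    rintro w hw hyw
    rcases h.ny w hyw with h3 | ⟨j, h3⟩
    · rcases hw with rfl | rfl
      · exact D.h1.xc h3.symm
      · exact D.h1.xd h3.symm
    · rcases hw with rfl | rfl
      · exact hcs j h3
      · exact hds j h3
  refine ⟨?_, h.inj, ?_, ?_, ?_, ?_⟩
  · exact inj4 D.h1
  · intro i j
    fin_cases i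
    · exact (h.sx j).1.symm
    · exact (h.sx j).2.symm
    · exact hcs j
    · exact hds j
  · intro v hv
    rcases D.h1.sep.mem_or hv with h1 | h1 | h1
    · left
      rcases (D.h1.mT v).1 h1 with rfl | rfl | rfl | rfl
      · exact ⟨0, rfl⟩
      · exact ⟨1, rfl⟩
      · exact ⟨2, rfl⟩
      · exact ⟨3, rfl⟩
    · right
      rcases D.h2.sep.mem_or hv with h2 | h2 | h2
      · exact absurd h1 (Finset.disjoint_left.1 D.h1.sep.2.1 ((hc v).1 h2))
      · exact ⟨0, e0.2.2 v h1 h2⟩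
      · exact ⟨1, e1.2.2 v h1 h2⟩
    · right
      rcases D.h2.sep.mem_or hv with h2 | h2 | h2
      · exact absurd h1 (Finset.disjoint_left.1 D.h1.sep.2.2.1 ((hc v).1 h2))
      · exact ⟨2, e2.2.2 v h1 h2⟩
      · exact ⟨3, e3.2.2 v h1 h2⟩
  · intro i w
    have key : ∀ w, (w = x ∨ w = y ∨ w = c ∨ w = d) ↔ ∃ j : Fin 4, w = ![x, y, c, d] j := by
      intro w
      simp [Fin.exists_fin_succ]
    rw [← key]
    fin_cases i
    · exact e0.2.1 w
    · exact e1.2.1 w
    · exact e2.2.1 w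
    · exact e3.2.1 w
  · intro i j hij
    have n1 := hxw c (Or.inl rfl)
    have n2 := hxw d (Or.inr rfl)
    have n3 := hyw c (Or.inl rfl)
    have n4 := hyw d (Or.inr rfl)
    have n5 : ¬ G.Adj c x := fun h' => n1 h'.symm
    have n6 : ¬ G.Adj d x := fun h' => n2 h'.symm
    have n7 : ¬ G.Adj c y := fun h' => n3 h'.symm
    have n8 : ¬ G.Adj d y := fun h' => n4 h'.symm
    exact aa4 n1 n2 n3 n4 n5 n6 n7 n8 i j hij

/-- cuts with exactly three common vertices do not exist -/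
theorem three (hcc : c = c') (hdd : d ≠ d') (hdc : d ≠ c') (hcd : c ≠ d') : False := by
  subst hcc
  have hdT : d ∉ T' := by
    rw [D.h2.mT]
    have := D.h1.xd
    have := D.h1.yd
    tauto
  have hd'T : d' ∉ T := by
    rw [D.h1.mT]
    have := D.h2.xd
    have := D.h2.yd
    tauto
  have hdV : d ∈ VS G := D.h1.sep.subS ((D.h1.mT d).2 (Or.inr (Or.inr (Or.inr rfl))))
  have hd'V : d' ∈ VS G := D.h2.sep.subS ((D.h2.mT d').2 (Or.inr (Or.inr (Or.inr rfl))))
  have hcx := D.h1.xc.symm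
  rcases D.h2.sep.mem_or hdV with h1 | h1 | h1
  · exact hdT h1
  · rcases D.h1.sep.mem_or hd'V with h2 | h2 | h2
    · exact hd'T h2
    · exact (c11 hNBF hG h D c c hcx hcx (fun _ => Or.inl rfl) (fun h' => absurd h1 h')
        (fun _ => Or.inl rfl) (fun h' => (D.h1.disj h2 h').elim)).1 rfl
    · exact (c01 hNBF hG h D c c hcx hcx (fun _ => Or.inl rfl) (fun h' => absurd h1 h')
        (fun _ => Or.inl rfl) (fun h' => (D.h1.disj h' h2).elim)).1 rfl
  · rcases D.h1.sep.mem_or hd'V with h2 | h2 | h2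
    · exact hd'T h2
    · exact (c10 hNBF hG h D c c hcx hcx (fun _ => Or.inl rfl) (fun h' => absurd h1 h')
        (fun _ => Or.inl rfl) (fun h' => (D.h1.disj h2 h').elim)).1 rfl
    · exact (c00 hNBF hG h D c c hcx hcx (fun _ => Or.inl rfl) (fun h' => absurd h1 h')
        (fun _ => Or.inl rfl) (fun h' => (D.h1.disj h' h2).elim)).1 rfl

/-- disjoint cuts, the ring -/
theorem ring (h1 : c ∈ A') (h2 : d ∈ B') (h3 : c' ∈ A) (h4 : d' ∈ B) :
    RNG G x y s c d c' d' := by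
  have n1 : c ∉ B' := fun h' => D.h2.disj h1 h'
  have n2 : d ∉ A' := fun h' => D.h2.disj h' h2
  have n3 : c' ∉ B := fun h' => D.h1.disj h3 h'
  have n4 : d' ∉ A := fun h' => D.h1.disj h' h4
  have hcx := D.h1.xc.symm
  have hdx := D.h1.xd.symm
  have hc'x := D.h2.xc.symm
  have hd'x := D.h2.xd.symm
  have e0 := c00 hNBF hG h D c c' hcx hc'x (fun _ => Or.inl rfl) (fun h' => absurd h2 h')
    (fun _ => Or.inr rfl) (fun h' => absurd h' n4)
  have e1 := c01 hNBF hG h D d c' hdx hc'x (fun h' => absurd h1 h') (fun _ => Or.inl rfl)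
    (fun _ => Or.inr rfl) (fun h' => absurd h' n4)
  have e2 := c10 hNBF hG h D c d' hcx hd'x (fun _ => Or.inl rfl) (fun h' => absurd h2 h')
    (fun h' => absurd h' n3) (fun _ => Or.inr rfl)
  have e3 := c11 hNBF hG h D d d' hdx hd'x (fun h' => absurd h1 h') (fun _ => Or.inl rfl)
    (fun h' => absurd h' n3) (fun _ => Or.inr rfl)
  have hcV : c ∈ VS G := D.h1.sep.subS ((D.h1.mT c).2 (Or.inr (Or.inr (Or.inl rfl))))
  have hdV : d ∈ VS G := D.h1.sep.subS ((D.h1.mT d).2 (Or.inr (Or.inr (Or.inr rfl))))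
  have hc'V : c' ∈ VS G := D.h2.sep.subS ((D.h2.mT c').2 (Or.inr (Or.inr (Or.inl rfl))))
  have hd'V : d' ∈ VS G := D.h2.sep.subS ((D.h2.mT d').2 (Or.inr (Or.inr (Or.inr rfl))))
  have hsT : ∀ j, s j ∉ T := by
    intro j
    fin_cases j
    · exact Finset.disjoint_right.1 D.h1.sep.2.1 D.a0
    · exact Finset.disjoint_right.1 D.h1.sep.2.1 D.a1
    · exact Finset.disjoint_right.1 D.h1.sep.2.2.1 D.b2
    · exact Finset.disjoint_right.1 D.h1.sep.2.2.1 D.b3
  have hsT' : ∀ j, s j ∉ T' := by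
    intro j
    fin_cases j
    · exact Finset.disjoint_right.1 D.h2.sep.2.1 D.a0'
    · exact Finset.disjoint_right.1 D.h2.sep.2.2.1 D.b1'
    · exact Finset.disjoint_right.1 D.h2.sep.2.1 D.a2'
    · exact Finset.disjoint_right.1 D.h2.sep.2.2.1 D.b3'
  have hcs : ∀ j, c ≠ s j := fun j hj => hsT j (hj ▸ (D.h1.mT c).2 (Or.inr (Or.inr (Or.inl rfl))))
  have hds : ∀ j, d ≠ s j := fun j hj => hsT j (hj ▸ (D.h1.mT d).2 (Or.inr (Or.inr (Or.inr rfl))))
  have hc's : ∀ j, c' ≠ s j := fun j hj => hsT' j (hj ▸ (D.h2.mT c').2 (Or.inr (Or.inr (Or.inl rfl))))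
  have hd's : ∀ j, d' ≠ s j := fun j hj => hsT' j (hj ▸ (D.h2.mT d').2 (Or.inr (Or.inr (Or.inr rfl))))
  -- `x`, `y` are not adjacent to the four vertices
  have hxn : ∀ w, w ≠ y → (∀ j, w ≠ s j) → ¬ G.Adj w x := by
    intro w hwy hws hwx
    rcases h.nx w hwx.symm with h5 | ⟨j, h5⟩
    · exact hwy h5
    · exact hws j h5
  have hyn : ∀ w, w ≠ x → (∀ j, w ≠ s j) → ¬ G.Adj w y := by
    intro w hwx hws hwy
    rcases h.ny w hwy.symm with h5 | ⟨j, h5⟩
    · exact hwx h5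
    · exact hws j h5
  have hinA : ∀ v ∈ VS G, v ∈ A → v = s 0 ∨ v = s 1 ∨ v = c' := by
    intro v hv hA
    rcases D.h2.sep.mem_or hv with h5 | h5 | h5
    · rcases (D.h2.mT v).1 h5 with rfl | rfl | rfl | rfl
      · exact absurd rfl (D.h1.notMemP hA).1
      · exact absurd rfl (D.h1.notMemP hA).2.1
      · exact Or.inr (Or.inr rfl)
      · exact absurd hA n4
    · exact Or.inl (e0.2.2 v hA h5)
    · exact Or.inr (Or.inl (e1.2.2 v hA h5))
  have hinB : ∀ v ∈ VS G, v ∈ B → v = s 2 ∨ v = s 3 ∨ v = d' := by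
    intro v hv hB
    rcases D.h2.sep.mem_or hv with h5 | h5 | h5
    · rcases (D.h2.mT v).1 h5 with rfl | rfl | rfl | rfl
      · exact absurd rfl (D.h1.symm.notMemP hB).1
      · exact absurd rfl (D.h1.symm.notMemP hB).2.1
      · exact absurd hB n3
      · exact Or.inr (Or.inr rfl)
    · exact Or.inl (e2.2.2 v hB h5)
    · exact Or.inr (Or.inl (e3.2.2 v hB h5))
  have hinA' : ∀ v ∈ VS G, v ∈ A' → v = s 0 ∨ v = s 2 ∨ v = c := by
    intro v hv hA
    rcases D.h1.sep.mem_or hv with h5 | h5 | h5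
    · rcases (D.h1.mT v).1 h5 with rfl | rfl | rfl | rfl
      · exact absurd rfl (D.h2.notMemP hA).1
      · exact absurd rfl (D.h2.notMemP hA).2.1
      · exact Or.inr (Or.inr rfl)
      · exact absurd hA n2
    · exact Or.inl (e0.2.2 v h5 hA)
    · exact Or.inr (Or.inl (e2.2.2 v h5 hA))
  have hinB' : ∀ v ∈ VS G, v ∈ B' → v = s 1 ∨ v = s 3 ∨ v = d := by
    intro v hv hB
    rcases D.h1.sep.mem_or hv with h5 | h5 | h5
    · rcases (D.h1.mT v).1 h5 with rfl | rfl | rfl | rfl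
      · exact absurd rfl (D.h2.symm.notMemP hB).1
      · exact absurd rfl (D.h2.symm.notMemP hB).2.1
      · exact absurd hB n1
      · exact Or.inr (Or.inr rfl)
    · exact Or.inl (e1.2.2 v h5 hB)
    · exact Or.inr (Or.inl (e3.2.2 v h5 hB))
  have fc := eq4 hG (a := s 0) (b := s 2) (c := c') (d := d') hcV (by
    intro w hw
    have hwV := right_mem_VS hw
    rcases D.h2.sep.mem_or hwV with h5 | h5 | h5
    · rcases (D.h2.mT w).1 h5 with rfl | rfl | rfl | rfl
      · exact absurd hw (hxn c D.h1.yc.symm hcs)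
      · exact absurd hw (hyn c hcx hcs)
      · exact Or.inr (Or.inr (Or.inl rfl))
      · exact Or.inr (Or.inr (Or.inr rfl))
    · rcases hinA' w hwV h5 with rfl | rfl | rfl
      · exact Or.inl rfl
      · exact Or.inr (Or.inl rfl)
      · exact absurd rfl hw.ne
    · exact absurd hw (D.h2.sep.2.2.2.2 c h1 w h5))
  have fd := eq4 hG (a := s 1) (b := s 3) (c := c') (d := d') hdV (by
    intro w hw
    have hwV := right_mem_VS hw
    rcases D.h2.sep.mem_or hwV with h5 | h5 | h5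
    · rcases (D.h2.mT w).1 h5 with rfl | rfl | rfl | rfl
      · exact absurd hw (hxn d D.h1.yd.symm hds)
      · exact absurd hw (hyn d hdx hds)
      · exact Or.inr (Or.inr (Or.inl rfl))
      · exact Or.inr (Or.inr (Or.inr rfl))
    · exact absurd hw.symm (D.h2.sep.2.2.2.2 w h5 d h2)
    · rcases hinB' w hwV h5 with rfl | rfl | rfl
      · exact Or.inl rfl
      · exact Or.inr (Or.inl rfl)
      · exact absurd rfl hw.ne)
  have fc' := eq4 hG (a := s 0) (b := s 1) (c := c) (d := d) hc'V (by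
    intro w hw
    have hwV := right_mem_VS hw
    rcases D.h1.sep.mem_or hwV with h5 | h5 | h5
    · rcases (D.h1.mT w).1 h5 with rfl | rfl | rfl | rfl
      · exact absurd hw (hxn c' D.h2.yc.symm hc's)
      · exact absurd hw (hyn c' hc'x hc's)
      · exact Or.inr (Or.inr (Or.inl rfl))
      · exact Or.inr (Or.inr (Or.inr rfl))
    · rcases hinA w hwV h5 with rfl | rfl | rfl
      · exact Or.inl rfl
      · exact Or.inr (Or.inl rfl)
      · exact absurd rfl hw.ne
    · exact absurd hw (D.h1.sep.2.2.2.2 c' h3 w h5))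
  have fd' := eq4 hG (a := s 2) (b := s 3) (c := c) (d := d) hd'V (by
    intro w hw
    have hwV := right_mem_VS hw
    rcases D.h1.sep.mem_or hwV with h5 | h5 | h5
    · rcases (D.h1.mT w).1 h5 with rfl | rfl | rfl | rfl
      · exact absurd hw (hxn d' D.h2.yd.symm hd's)
      · exact absurd hw (hyn d' hd'x hd's)
      · exact Or.inr (Or.inr (Or.inl rfl))
      · exact Or.inr (Or.inr (Or.inr rfl))
    · exact absurd hw.symm (D.h1.sep.2.2.2.2 w h5 d' h4)
    · rcases hinB w hwV h5 with rfl | rfl | rfl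
      · exact Or.inl rfl
      · exact Or.inr (Or.inl rfl)
      · exact absurd rfl hw.ne)
  refine ⟨?_, ?_, e0.2.1, e1.2.1, e2.2.1, e3.2.1, fc.2, fd.2, fc'.2, fd'.2⟩
  · have hne : ∀ i j : Fin 4, i ≠ j → s i ≠ s j := fun i j hij he => hij (h.inj he)
    have i01 := hne 0 1 (by decide)
    have i02 := hne 0 2 (by decide)
    have i03 := hne 0 3 (by decide)
    have i12 := hne 1 2 (by decide)
    have i13 := hne 1 3 (by decide)
    have i23 := hne 2 3 (by decide)
    have p0 := h.sx 0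
    have p1 := h.sx 1
    have p2 := h.sx 2
    have p3 := h.sx 3
    have ncc : c ≠ c' := fun h' => (D.h1.notMemP h3).2.2.1 h'.symm
    have ndc : d ≠ c' := fun h' => (D.h1.notMemP h3).2.2.2 h'.symm
    have ncd : c ≠ d' := fun h' => (D.h1.symm.notMemP h4).2.2.1 h'.symm
    have ndd : d ≠ d' := fun h' => (D.h1.symm.notMemP h4).2.2.2 h'.symm
    simp only [List.nodup_cons, List.mem_cons, List.not_mem_nil, or_false, not_or,
      List.nodup_nil, and_true, not_false_eq_true]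
    exact ⟨⟨h.xy, p0.1.symm, p1.1.symm, p2.1.symm, p3.1.symm, D.h1.xc, D.h1.xd, D.h2.xc,
      D.h2.xd⟩, ⟨p0.2.symm, p1.2.symm, p2.2.symm, p3.2.symm, D.h1.yc, D.h1.yd, D.h2.yc,
      D.h2.yd⟩, ⟨i01, i02, i03, (hcs 0).symm, (hds 0).symm, (hc's 0).symm, (hd's 0).symm⟩,
      ⟨i12, i13, (hcs 1).symm, (hds 1).symm, (hc's 1).symm, (hd's 1).symm⟩,
      ⟨i23, (hcs 2).symm, (hds 2).symm, (hc's 2).symm, (hd's 2).symm⟩,
      ⟨(hcs 3).symm, (hds 3).symm, (hc's 3).symm, (hd's 3).symm⟩, ⟨D.h1.cd, ncc, ncd⟩,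
      ⟨ndc, ndd⟩, D.h2.cd⟩
  · intro v hv
    simp only [List.mem_cons, List.not_mem_nil, or_false]
    rcases D.h1.sep.mem_or hv with h5 | h5 | h5
    · rcases (D.h1.mT v).1 h5 with rfl | rfl | rfl | rfl <;> simp
    · rcases hinA v hv h5 with rfl | rfl | rfl <;> simp
    · rcases hinB v hv h5 with rfl | rfl | rfl <;> simp

/-- disjoint cuts, `c` and `d` on the same side `A'` -/
theorem noAA (h1 : c ∈ A') (h2 : d ∈ A') (h3 : c' ∈ A ∨ c' ∈ B) (h4 : d' ∈ A ∨ d' ∈ B) :
    False := by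
  have hc'x := D.h2.xc.symm
  have hd'x := D.h2.xd.symm
  rcases h3 with h3 | h3
  · exact (c11 hNBF hG h D d' d' hd'x hd'x (fun h' => absurd h1 h') (fun h' => absurd h2 h')
      (fun h' => (D.h1.disj h3 h').elim) (fun _ => Or.inl rfl)).1 rfl
  · rcases h4 with h4 | h4
    · exact (c11 hNBF hG h D c' c' hc'x hc'x (fun h' => absurd h1 h') (fun h' => absurd h2 h')
        (fun _ => Or.inl rfl) (fun h' => (D.h1.disj h4 h').elim)).1 rfl
    · exact (c01 hNBF hG h D c' c' hc'x hc'x (fun h' => absurd h1 h') (fun h' => absurd h2 h')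
        (fun _ => Or.inl rfl) (fun h' => (D.h1.disj h' h4).elim)).1 rfl

/-- disjoint cuts, `c` and `d` on the same side `B'` -/
theorem noBB (h1 : c ∈ B') (h2 : d ∈ B') (h3 : c' ∈ A ∨ c' ∈ B) (h4 : d' ∈ A ∨ d' ∈ B) :
    False := by
  have hc'x := D.h2.xc.symm
  have hd'x := D.h2.xd.symm
  rcases h3 with h3 | h3
  · rcases h4 with h4 | h4
    · exact (c10 hNBF hG h D c' c' hc'x hc'x (fun h' => absurd h1 h') (fun h' => absurd h2 h')
        (fun _ => Or.inl rfl) (fun h' => (D.h1.disj h4 h').elim)).1 rfl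
    · exact (c00 hNBF hG h D c' c' hc'x hc'x (fun h' => absurd h1 h') (fun h' => absurd h2 h')
        (fun _ => Or.inl rfl) (fun h' => (D.h1.disj h' h4).elim)).1 rfl
  · exact (c00 hNBF hG h D d' d' hd'x hd'x (fun h' => absurd h1 h') (fun h' => absurd h2 h')
      (fun h' => (D.h1.disj h' h3).elim) (fun _ => Or.inl rfl)).1 rfl

/-- disjoint cuts, `c` and `d` on different sides -/
theorem ring' (h1 : c ∈ A') (h2 : d ∈ B') (h3 : c' ∈ A ∨ c' ∈ B) (h4 : d' ∈ A ∨ d' ∈ B) :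
    RNG G x y s c d c' d' ∨ RNG G x y s c d d' c' := by
  have hcx := D.h1.xc.symm
  rcases h3 with h3 | h3
  · rcases h4 with h4 | h4
    · exact absurd rfl (c10 hNBF hG h D c c hcx hcx (fun _ => Or.inl rfl)
        (fun h' => absurd h2 h') (fun h' => (D.h1.disj h3 h').elim)
        (fun h' => (D.h1.disj h4 h').elim)).1
    · exact Or.inl (ring hNBF hG h D h1 h2 h3 h4)
  · rcases h4 with h4 | h4
    · exact Or.inr (ring hNBF hG h D.swap2 h1 h2 h4 h3)
    · exact absurd rfl (c00 hNBF hG h D c c hcx hcx (fun _ => Or.inl rfl)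
        (fun h' => absurd h2 h') (fun h' => (D.h1.disj h' h3).elim)
        (fun h' => (D.h1.disj h' h4).elim)).1

end corners

end E4SM

open E4SM in
/-- **E4S** -/
theorem specE4S (hNBF : SpecNBF) : SpecE4S := by
  intro α _ _ G x y s hG h hS hS'
  obtain ⟨c, d, A, B, hn, hs, a0, a1, b2, b3⟩ := hS
  obtain ⟨c', d', A', B', hn', hs', a0', a2', b1', b3'⟩ := hS'
  have D : DD G x y s c d c' d' {x, y, c, d} A B {x, y, c', d'} A' B' :=
    ⟨of_nodup hn hs, of_nodup hn' hs', a0, a1, b2, b3, a0', a2', b1', b3'⟩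
  have hcd := D.h1.cd
  have hcd' := D.h2.cd
  by_cases h1 : c = c'
  · by_cases h2 : d = d'
    · subst h1; subst h2
      exact Or.inl ⟨c, d, same hNBF hG h D (fun w => Iff.rfl)⟩
    · exact (three hNBF hG h D h1 h2 (fun h' => hcd (h1.trans h'.symm))
        (fun h' => hcd' (h1.symm.trans h'))).elim
  by_cases h1' : c = d'
  · by_cases h2 : d = c'
    · subst h1'; subst h2
      refine Or.inl ⟨c, d, same hNBF hG h D (fun w => ?_)⟩
      simp only [mem_insert, mem_singleton]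
      tauto
    · exact (three hNBF hG h D.swap2 h1' h2 (fun h' => hcd (h1'.trans h'.symm))
        (fun h' => hcd' (h'.symm.trans h1'))).elim
  by_cases h2 : d = d'
  · exact (three hNBF hG h D.swap1.swap2 h2 h1 h1' (fun h' => hcd' (h'.symm.trans h2))).elim
  by_cases h2' : d = c'
  · exact (three hNBF hG h D.swap1 h2' h1' h1 (fun h' => hcd' (h2'.symm.trans h'))).elim
  have hcV : c ∈ VS G := D.h1.sep.subS ((D.h1.mT c).2 (Or.inr (Or.inr (Or.inl rfl))))
  have hdV : d ∈ VS G := D.h1.sep.subS ((D.h1.mT d).2 (Or.inr (Or.inr (Or.inr rfl))))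
  have hc'V : c' ∈ VS G := D.h2.sep.subS ((D.h2.mT c').2 (Or.inr (Or.inr (Or.inl rfl))))
  have hd'V : d' ∈ VS G := D.h2.sep.subS ((D.h2.mT d').2 (Or.inr (Or.inr (Or.inr rfl))))
  have hc : c ∈ A' ∨ c ∈ B' := by
    rcases D.h2.sep.mem_or hcV with h3 | h3
    · have := (D.h2.mT c).1 h3
      have := D.h1.xc
      have := D.h1.yc
      tauto
    · exact h3
  have hd : d ∈ A' ∨ d ∈ B' := by
    rcases D.h2.sep.mem_or hdV with h3 | h3
    · have := (D.h2.mT d).1 h3
      have := D.h1.xd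
      have := D.h1.yd
      tauto
    · exact h3
  have hc' : c' ∈ A ∨ c' ∈ B := by
    rcases D.h1.sep.mem_or hc'V with h3 | h3
    · have := (D.h1.mT c').1 h3
      have := D.h2.xc
      have := D.h2.yc
      tauto
    · exact h3
  have hd' : d' ∈ A ∨ d' ∈ B := by
    rcases D.h1.sep.mem_or hd'V with h3 | h3
    · have := (D.h1.mT d').1 h3
      have := D.h2.xd
      have := D.h2.yd
      tauto
    · exact h3
  right
  rcases hc with hc | hc
  · rcases hd with hd | hd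
    · exact (noAA hNBF hG h D hc hd hc' hd').elim
    · rcases ring' hNBF hG h D hc hd hc' hd' with h3 | h3
      · exact ⟨_, _, _, _, h3⟩
      · exact ⟨_, _, _, _, h3⟩
  · rcases hd with hd | hd
    · rcases ring' hNBF hG h D.swap1 hd hc hc' hd' with h3 | h3
      · exact ⟨_, _, _, _, h3⟩
      · exact ⟨_, _, _, _, h3⟩
    · exact (noBB hNBF hG h D hc hd hc' hd').elim

end DL
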