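import Pool.Agent.DL.E.E5Q

/-!
# Module E5B: no bad cut in the presence of a split
-/

set_option autoImplicit false

open SimpleGraph Finset

namespace DL

namespace E5BM

open E3SM E5QM

variable {α : Type} [Fintype α] [DecidableEq α] {G : SimpleGraph α}

/-- a split and a bad cut -/
structure Sq (G : SimpleGraph α) (x y s₀ s₁ s₂ s₃ q c d : α) (T A B T' P Q : Finset α) : Prop where
  b : Bc G x y s₀ s₁ s₂ s₃ q T' P Q
  h : Sep G T A B
  hT : ∀ w, w ∈ T ↔ w = x ∨ w = y ∨ w = c ∨ w = d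
  T4 : T.card ≤ 4
  xc : x ≠ c
  xd : x ≠ d
  yc : y ≠ c
  yd : y ≠ d
  cd : c ≠ d
  a0 : s₀ ∈ A
  a2 : s₂ ∈ A
  b1 : s₁ ∈ B
  b3 : s₃ ∈ B

section
variable {x y s₀ s₁ s₂ s₃ q c d : α} {T A B T' P Q : Finset α}

theorem Sq.flip (h : Sq G x y s₀ s₁ s₂ s₃ q c d T A B T' P Q) :
    Sq G x y s₂ s₃ s₀ s₁ q c d T A B T' Q P :=
  ⟨h.b.rot, h.h, h.hT, h.T4, h.xc, h.xd, h.yc, h.yd, h.cd, h.a2, h.a0, h.b3, h.b1⟩

theorem Sq.swp (h : Sq G x y s₀ s₁ s₂ s₃ q c d T A B T' P Q) :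
    Sq G x y s₀ s₁ s₂ s₃ q d c T A B T' P Q :=
  ⟨h.b, h.h, fun w => by rw [h.hT]; tauto, h.T4, h.xd, h.xc, h.yd, h.yc, h.cd.symm, h.a0, h.a2,
    h.b1, h.b3⟩

theorem Sq.xT (h : Sq G x y s₀ s₁ s₂ s₃ q c d T A B T' P Q) : x ∈ T := (h.hT x).2 (Or.inl rfl)

theorem Sq.yT (h : Sq G x y s₀ s₁ s₂ s₃ q c d T A B T' P Q) : y ∈ T :=
  (h.hT y).2 (Or.inr (Or.inl rfl))

theorem Sq.cT (h : Sq G x y s₀ s₁ s₂ s₃ q c d T A B T' P Q) : c ∈ T :=
  (h.hT c).2 (Or.inr (Or.inr (Or.inl rfl)))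

theorem Sq.dT (h : Sq G x y s₀ s₁ s₂ s₃ q c d T A B T' P Q) : d ∈ T := h.swp.cT

/-- `c` is not in `T'`, except if `c = q` -/
theorem Sq.cT' (h : Sq G x y s₀ s₁ s₂ s₃ q c d T A B T' P Q) (hc : c ∈ T') : c = q := by
  rcases (h.b.hT' c).1 hc with e | e | e | e | e
  · exact absurd e.symm h.xc
  · exact absurd e.symm h.yc
  · exact absurd (e ▸ h.b1) (TB h.h h.cT)
  · exact absurd (e ▸ h.b3) (TB h.h h.cT)
  · exact e

theorem Sq.cQ (hG : K48 G) (h : Sq G x y s₀ s₁ s₂ s₃ q c d T A B T' P Q) (hq : q ∉ A) :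
    c ∉ Q := by
  intro hc
  have h1 : 4 ≤ ({x, y, d} : Finset α).card := by
    refine corner hG.1 h.h h.b.h' h.a0 h.b.p0 h.b1 ?_
    rintro w hw -
    simp only [mem_insert, mem_singleton]
    rw [mem_W] at hw
    rcases hw with ⟨h1, h2⟩ | ⟨h1, h2⟩ | ⟨h1, h2⟩
    · rcases (h.hT w).1 h1 with e | e | e | e
      · tauto
      · tauto
      · exact absurd (e ▸ hc) (AB h.b.h' h2)
      · tauto
    · rcases (h.b.hT' w).1 h1 with e | e | e | e | e
      · tauto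
      · tauto
      · exact absurd (e ▸ h.b1) (AB h.h h2)
      · exact absurd (e ▸ h.b3) (AB h.h h2)
      · exact absurd (e ▸ h2) hq
    · rcases (h.hT w).1 h1 with e | e | e | e
      · tauto
      · tauto
      · exact absurd (e ▸ h2) (fun h3 => TB h.b.h' h3 hc)
      · tauto
  have := h1.trans card_le_three
  omega

theorem Sq.qA (hG : K48 G) (h : Sq G x y s₀ s₁ s₂ s₃ q c d T A B T' P Q) : q ∈ A := by
  by_contra hq
  have hc : c = q := by
    rcases h.b.h'.mem_or (h.h.subS h.cT) with h1 | h1 | h1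
    · exact h.cT' h1
    · exact absurd h1 (h.flip.cQ hG hq)
    · exact absurd h1 (h.cQ hG hq)
  have hd : d = q := by
    rcases h.b.h'.mem_or (h.h.subS h.dT) with h1 | h1 | h1
    · exact h.swp.cT' h1
    · exact absurd h1 (h.swp.flip.cQ hG hq)
    · exact absurd h1 (h.swp.cQ hG hq)
  exact h.cd (hc.trans hd.symm)

theorem Sq.cnT' (hG : K48 G) (h : Sq G x y s₀ s₁ s₂ s₃ q c d T A B T' P Q) : c ∉ T' :=
  fun h1 => TA h.h h.cT (h.cT' h1 ▸ h.qA hG)

/-- not both of `c`, `d` are in `Q` -/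
theorem Sq.notQ (hG : K48 G) (h : Sq G x y s₀ s₁ s₂ s₃ q c d T A B T' P Q) (hc : c ∈ Q)
    (hd : d ∈ Q) : False := by
  have h1 : 4 ≤ ({x, y, q} : Finset α).card := by
    refine corner hG.1 h.h h.b.h' h.a0 h.b.p0 h.b1 ?_
    rintro w hw -
    simp only [mem_insert, mem_singleton]
    rw [mem_W] at hw
    rcases hw with ⟨h1, h2⟩ | ⟨h1, h2⟩ | ⟨h1, h2⟩
    · rcases (h.hT w).1 h1 with e | e | e | e
      · tauto
      · tauto
      · exact absurd (e ▸ hc) (AB h.b.h' h2)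
      · exact absurd (e ▸ hd) (AB h.b.h' h2)
    · rcases (h.b.hT' w).1 h1 with e | e | e | e | e
      · tauto
      · tauto
      · exact absurd (e ▸ h.b1) (AB h.h h2)
      · exact absurd (e ▸ h.b3) (AB h.h h2)
      · tauto
    · rcases (h.hT w).1 h1 with e | e | e | e
      · tauto
      · tauto
      · exact absurd (e ▸ h2) (h.cnT' hG)
      · exact absurd (e ▸ h2) (h.swp.cnT' hG)
  have := h1.trans card_le_three
  omega

/-- we may assume `c ∈ P`, `d ∈ Q` -/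
theorem Sq.cases (hG : K48 G) (h : Sq G x y s₀ s₁ s₂ s₃ q c d T A B T' P Q) :
    (c ∈ P ∧ d ∈ Q) ∨ (d ∈ P ∧ c ∈ Q) := by
  have h1 := (h.b.h'.mem_or (h.h.subS h.cT)).resolve_left (h.cnT' hG)
  have h2 := (h.b.h'.mem_or (h.h.subS h.dT)).resolve_left (h.swp.cnT' hG)
  rcases h1 with h1 | h1
  · rcases h2 with h2 | h2
    · exact (h.flip.notQ hG h1 h2).elim
    · exact Or.inl ⟨h1, h2⟩
  · rcases h2 with h2 | h2
    · exact Or.inr ⟨h2, h1⟩
    · exact (h.notQ hG h1 h2).elim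

theorem Sq.WAP (hG : K48 G) (h : Sq G x y s₀ s₁ s₂ s₃ q c d T A B T' P Q) (_hc : c ∈ P)
    (hd : d ∈ Q) {w : α} (hw : w ∈ W T A T' P) : w = x ∨ w = y ∨ w = q ∨ w = c := by
  rw [mem_W] at hw
  rcases hw with ⟨h1, h2⟩ | ⟨h1, h2⟩ | ⟨h1, h2⟩
  · rcases (h.hT w).1 h1 with e | e | e | e
    · tauto
    · tauto
    · tauto
    · exact absurd (e ▸ hd) (AB h.b.h' h2)
  · rcases (h.b.hT' w).1 h1 with e | e | e | e | e
    · tauto
    · tauto
    · exact absurd (e ▸ h.b1) (AB h.h h2)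
    · exact absurd (e ▸ h.b3) (AB h.h h2)
    · tauto
  · rcases (h.hT w).1 h1 with e | e | e | e
    · tauto
    · tauto
    · tauto
    · exact absurd (e ▸ h2) (h.swp.cnT' hG)

theorem Sq.AP (hG : K48 G) (h : Sq G x y s₀ s₁ s₂ s₃ q c d T A B T' P Q) (hc : c ∈ P)
    (hd : d ∈ Q) : ∀ v, v ∈ A → v ∈ P → v = s₀ := by
  refine corner_one hG.1 h.h h.b.h' (X := {q, c}) h.b1 ?_ card_le_two
  rintro w hw ⟨u, hu, hu', hne, huw⟩
  simp only [mem_insert, mem_singleton]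
  have hux : w = x ∨ w = y → False := fun e => hne (h.b.inP hu' huw e)
  have := h.WAP hG hc hd hw
  tauto

theorem Sq.n0 (hG : K48 G) (h : Sq G x y s₀ s₁ s₂ s₃ q c d T A B T' P Q) (hc : c ∈ P)
    (hd : d ∈ Q) : ∀ w, G.Adj s₀ w ↔ w = x ∨ w = y ∨ w = q ∨ w = c := by
  refine deg4 hG.1 (h.h.subP h.a0) fun w hw => ?_
  rcases nbr h.h h.b.h' h.a0 h.b.p0 hw with h1 | h1
  · exact absurd (h.AP hG hc hd w h1.1 h1.2) hw.ne'
  · exact h.WAP hG hc hd h1

theorem Sq.BP (hG : K48 G) (h : Sq G x y s₀ s₁ s₂ s₃ q c d T A B T' P Q) (_hc : c ∈ P)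
    (hd : d ∈ Q) {v : α} (hv : v ∈ B) : v ∉ P := by
  intro hv'
  have hqA := h.qA hG
  have h1 : 4 ≤ ({c, s₁, s₃} : Finset α).card := by
    refine corner hG.1 h.h.symm h.b.h' hv hv' h.a0 ?_
    rintro w hw ⟨u, hu, hu', huw⟩
    simp only [mem_insert, mem_singleton]
    have hux : w = x ∨ w = y → False := fun e =>
      AB h.h h.a0 (h.b.inP hu' huw e ▸ hu)
    rw [mem_W] at hw
    rcases hw with ⟨h1, h2⟩ | ⟨h1, h2⟩ | ⟨h1, h2⟩
    · rcases (h.hT w).1 h1 with e | e | e | e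
      · tauto
      · tauto
      · tauto
      · exact absurd (e ▸ hd) (AB h.b.h' h2)
    · rcases (h.b.hT' w).1 h1 with e | e | e | e | e
      · tauto
      · tauto
      · tauto
      · tauto
      · exact absurd (e ▸ h2) (AB h.h hqA)
    · rcases (h.hT w).1 h1 with e | e | e | e
      · tauto
      · tauto
      · tauto
      · exact absurd (e ▸ h2) (h.swp.cnT' hG)
  have := h1.trans card_le_three
  omega

theorem Sq.inA (hG : K48 G) (h : Sq G x y s₀ s₁ s₂ s₃ q c d T A B T' P Q) (hc : c ∈ P)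
    (hd : d ∈ Q) {v : α} (hv : v ∈ A) : v = s₀ ∨ v = s₂ ∨ v = q := by
  rcases h.b.h'.mem_or (h.h.subP hv) with h3 | h3 | h3
  · rcases (h.b.hT' v).1 h3 with e | e | e | e | e
    · exact absurd hv (TA h.h (e ▸ h.xT))
    · exact absurd hv (TA h.h (e ▸ h.yT))
    · exact absurd (e ▸ h.b1) (AB h.h hv)
    · exact absurd (e ▸ h.b3) (AB h.h hv)
    · tauto
  · exact Or.inl (h.AP hG hc hd v hv h3)
  · exact Or.inr (Or.inl (h.flip.swp.AP hG hd hc v hv h3))

theorem Sq.inB (hG : K48 G) (h : Sq G x y s₀ s₁ s₂ s₃ q c d T A B T' P Q) (hc : c ∈ P)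
    (hd : d ∈ Q) {v : α} (hv : v ∈ B) : v = s₁ ∨ v = s₃ := by
  rcases h.b.h'.mem_or (h.h.subQ hv) with h3 | h3 | h3
  · rcases (h.b.hT' v).1 h3 with e | e | e | e | e
    · exact absurd hv (TB h.h (e ▸ h.xT))
    · exact absurd hv (TB h.h (e ▸ h.yT))
    · tauto
    · tauto
    · exact absurd (e ▸ hv) (AB h.h (h.qA hG))
  · exact absurd h3 (h.BP hG hc hd hv)
  · exact absurd h3 (h.flip.swp.BP hG hd hc hv)

/-- distinct vertices -/
theorem Sq.ne (hG : K48 G) (h : Sq G x y s₀ s₁ s₂ s₃ q c d T A B T' P Q) :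
    c ≠ s₀ ∧ c ≠ s₁ ∧ c ≠ s₂ ∧ c ≠ s₃ ∧ c ≠ q :=
  ⟨fun e => TA h.h h.cT (e ▸ h.a0), fun e => TB h.h h.cT (e ▸ h.b1),
    fun e => TA h.h h.cT (e ▸ h.a2), fun e => TB h.h h.cT (e ▸ h.b3),
    fun e => TA h.h h.cT (e ▸ h.qA hG)⟩

theorem Sq.neq (hG : K48 G) (h : Sq G x y s₀ s₁ s₂ s₃ q c d T A B T' P Q) :
    q ≠ x ∧ q ≠ y ∧ q ≠ s₀ ∧ q ≠ s₁ ∧ q ≠ s₂ ∧ q ≠ s₃ := by
  have hq := h.qA hG
  exact ⟨fun e => TA h.h h.xT (e ▸ hq), fun e => TA h.h h.yT (e ▸ hq),
    fun e => TA h.b.h' h.b.qT (e ▸ h.b.p0), fun e => AB h.h hq (e ▸ h.b1),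
    fun e => TB h.b.h' h.b.qT (e ▸ h.b.q2), fun e => AB h.h hq (e ▸ h.b3)⟩

/-- a vertex of the cut is adjacent to `s₁` or `s₃` -/
theorem Sq.adjc (hG : K48 G) (h : Sq G x y s₀ s₁ s₂ s₃ q c d T A B T' P Q)
    (hB : ∀ v ∈ B, v = s₁ ∨ v = s₃) : G.Adj s₁ c ∨ G.Adj s₃ c := by
  obtain ⟨p, hp, hcp⟩ := hG.1.exists_adj_of_sep h.h.symm ⟨s₁, h.b1⟩ h.T4 h.cT
  rcases hB p hp with e | e
  · exact Or.inl (e ▸ hcp.symm)
  · exact Or.inr (e ▸ hcp.symm)

/-- neighbours of `s₁` -/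
theorem Sq.nb1 (h : Sq G x y s₀ s₁ s₂ s₃ q c d T A B T' P Q)
    (hB : ∀ v ∈ B, v = s₁ ∨ v = s₃) {w : α} (hw : G.Adj s₁ w) :
    w = x ∨ w = y ∨ w = s₃ ∨ w = c ∨ w = d := by
  rcases h.h.mem_or (right_mem_VS hw) with h1 | h1 | h1
  · rcases (h.hT w).1 h1 with e | e | e | e <;> tauto
  · exact absurd hw.symm (h.h.2.2.2.2 w h1 s₁ h.b1)
  · rcases hB w h1 with e | e
    · exact absurd e hw.ne'
    · tauto

/-- `s₁` and `s₃` are not adjacent: the case in which `s₁` is not adjacent to `c` -/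
theorem Sq.ex1 (hG : K48 G) (h33 : No33 G) (h34 : No34 G)
    (h : Sq G x y s₀ s₁ s₂ s₃ q c d T A B T' P Q) (hB : ∀ v ∈ B, v = s₁ ∨ v = s₃)
    (h1c : ¬ G.Adj s₁ c) : False := by
  have ht := h.b.t
  have hc := h.ne hG
  have hd := h.swp.ne hG
  have hB' : ∀ v ∈ B, v = s₃ ∨ v = s₁ := fun v hv => (hB v hv).symm
  refine excl h33 h34 (x := x) (y := y) (u := s₁) (v := s₃) (c := c) (d := d) ?_
    (deg4 hG.1 (h.h.subQ h.b1) fun w hw => ?_) (fun w hw => ?_) ?_ ?_ ?_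
  · simp only [List.nodup_cons, List.mem_cons, List.not_mem_nil, or_false, not_or,
      List.nodup_nil, and_true, not_false_eq_true]
    exact ⟨⟨ht.nxy, ht.x1, ht.x3, h.xc, h.xd⟩, ⟨ht.y1, ht.y3, h.yc, h.yd⟩,
      ⟨ht.n13, Ne.symm hc.2.1, Ne.symm hd.2.1⟩, ⟨Ne.symm hc.2.2.2.1, Ne.symm hd.2.2.2.1⟩, h.cd⟩
  · rcases h.nb1 hB hw with e | e | e | e | e
    · tauto
    · tauto
    · tauto
    · exact absurd (e ▸ hw) h1c
    · tauto
  · exact h.flip.nb1 hB' hw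
  · exact ((ht.nx s₃).2 (by tauto)).symm
  · exact ((ht.ny s₃).2 (by tauto)).symm
  · exact (h.adjc hG hB).resolve_left h1c

theorem Sq.n13 (hG : K48 G) (h33 : No33 G) (h34 : No34 G) (h44 : No44 G)
    (h : Sq G x y s₀ s₁ s₂ s₃ q c d T A B T' P Q) (hB : ∀ v ∈ B, v = s₁ ∨ v = s₃) :
    ¬ G.Adj s₁ s₃ := by
  intro h13
  have ht := h.b.t
  have hc := h.ne hG
  have hd := h.swp.ne hG
  have hB' : ∀ v ∈ B, v = s₃ ∨ v = s₁ := fun v hv => (hB v hv).symm
  have a1 : G.Adj s₁ c := by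
    by_contra h1; exact h.ex1 hG h33 h34 hB h1
  have a2 : G.Adj s₁ d := by
    by_contra h1; exact h.swp.ex1 hG h33 h34 hB h1
  have a3 : G.Adj s₃ c := by
    by_contra h1; exact h.flip.ex1 hG h33 h34 hB' h1
  have a4 : G.Adj s₃ d := by
    by_contra h1; exact h.flip.swp.ex1 hG h33 h34 hB' h1
  have b1 : G.Adj s₁ x := ((ht.nx s₁).2 (by tauto)).symm
  have b2 : G.Adj s₁ y := ((ht.ny s₁).2 (by tauto)).symm
  have b3 : G.Adj s₃ x := ((ht.nx s₃).2 (by tauto)).symm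
  have b4 : G.Adj s₃ y := ((ht.ny s₃).2 (by tauto)).symm
  have hex : ∀ w, (∃ i, w = (![x, y, c, d] : Fin 4 → α) i) ↔ w = x ∨ w = y ∨ w = c ∨ w = d := by
    intro w
    constructor
    · rintro ⟨i, rfl⟩
      fin_cases i <;> simp
    · rintro (h | h | h | h)
      exacts [⟨0, h⟩, ⟨1, h⟩, ⟨2, h⟩, ⟨3, h⟩]
  refine h44 s₁ s₃ ![x, y, c, d] ⟨?_, ht.n13, ?_, fun w => ?_, fun w => ?_⟩
  · intro i j hij
    have e1 := ht.nxy
    have e2 := h.xc
    have e3 := h.xd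
    have e4 := h.yc
    have e5 := h.yd
    have e6 := h.cd
    fin_cases i <;> fin_cases j <;> first | rfl | (exfalso; simp_all)
  · intro i
    fin_cases i
    · exact ⟨ht.x1, ht.x3⟩
    · exact ⟨ht.y1, ht.y3⟩
    · exact ⟨hc.2.1, hc.2.2.2.1⟩
    · exact ⟨hd.2.1, hd.2.2.2.1⟩
  · rw [hex]
    constructor
    · intro hw
      have := h.nb1 hB hw
      tauto
    · rintro (rfl | rfl | rfl | rfl | rfl) <;> assumption
  · rw [hex]
    constructor
    · intro hw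
      have := h.flip.nb1 hB' hw
      tauto
    · rintro (rfl | rfl | rfl | rfl | rfl)
      · exact h13.symm
      all_goals assumption

/-! ## The final graph -/

/-- the graph with 9 vertices -/
structure Nine (G : SimpleGraph α) (x y s₀ s₁ s₂ s₃ q c d : α) : Prop where
  t : Tw4 G x y s₀ s₁ s₂ s₃
  qc : c ≠ q
  qd : d ≠ q
  qx : q ≠ x
  qy : q ≠ y
  q0 : q ≠ s₀
  q1 : q ≠ s₁
  q2 : q ≠ s₂
  q3 : q ≠ s₃
  xc : x ≠ c
  yc : y ≠ c
  xd : x ≠ d
  yd : y ≠ d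
  c0 : c ≠ s₀
  c1 : c ≠ s₁
  c3 : c ≠ s₃
  cd : c ≠ d
  vs : ∀ v ∈ VS G, v = x ∨ v = y ∨ v = s₀ ∨ v = s₁ ∨ v = s₂ ∨ v = s₃ ∨ v = q ∨ v = c ∨ v = d
  c0' : G.Adj s₀ c
  c1' : G.Adj s₁ c
  c3' : G.Adj s₃ c
  d1' : G.Adj s₁ d
  d2' : G.Adj s₂ d
  d3' : G.Adj s₃ d

theorem Nine.np (hNPM : SpecNPM) (h : Nine G x y s₀ s₁ s₂ s₃ q c d) : NP (del G {q}) := by
  have ht := h.t
  have hcs : ∀ v, CSet (del G {q}) {v} := by
    intro v
    refine ⟨singleton_nonempty v, fun u hu w hw => ?_⟩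
    rw [mem_singleton] at hu hw
    rw [hu, hw]
  have hadj : ∀ u v, G.Adj u v → u ≠ q → v ≠ q → (del G {q}).Adj u v := by
    intro u v huv hu hv
    exact ⟨huv, fun h' => hu (mem_singleton.1 h'), fun h' => hv (mem_singleton.1 h')⟩
  have hd : ∀ u v : α, u ≠ v → Disjoint ({u} : Finset α) {v} := fun u v huv =>
    disjoint_singleton.2 huv
  have a0 : ∀ w, w = s₀ ∨ w = s₁ ∨ w = s₃ → G.Adj x w ∧ G.Adj y w ∧ G.Adj c w := by
    intro w hw
    refine ⟨(ht.nx w).2 (by tauto), (ht.ny w).2 (by tauto), ?_⟩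
    rcases hw with e | e | e
    · exact e ▸ h.c0'.symm
    · exact e ▸ h.c1'.symm
    · exact e ▸ h.c3'.symm
  refine hNPM.k33 ![{x}, {y}, {c}] ![{s₀}, {s₁}, {s₃}] ?_ ?_ ?_ ?_ ?_ ?_
  · intro i; fin_cases i <;> exact hcs _
  · intro i; fin_cases i <;> exact hcs _
  · intro i j hij
    fin_cases i <;> fin_cases j <;> first | exact absurd rfl hij | skip
    exacts [hd _ _ ht.nxy, hd _ _ h.xc, hd _ _ ht.nxy.symm, hd _ _ h.yc, hd _ _ h.xc.symm,
      hd _ _ h.yc.symm]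
  · intro i j hij
    fin_cases i <;> fin_cases j <;> first | exact absurd rfl hij | skip
    exacts [hd _ _ ht.n01, hd _ _ ht.n03, hd _ _ ht.n01.symm, hd _ _ ht.n13, hd _ _ ht.n03.symm,
      hd _ _ ht.n13.symm]
  · intro i j
    fin_cases i <;> fin_cases j
    exacts [hd _ _ ht.x0, hd _ _ ht.x1, hd _ _ ht.x3, hd _ _ ht.y0, hd _ _ ht.y1, hd _ _ ht.y3,
      hd _ _ h.c0, hd _ _ h.c1, hd _ _ h.c3]
  · have key : ∀ u v, G.Adj u v → u ≠ q → v ≠ q →
        ∃ a ∈ ({u} : Finset α), ∃ b ∈ ({v} : Finset α), (del G {q}).Adj a b := by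
      intro u v huv hu hv
      exact ⟨u, mem_singleton_self u, v, mem_singleton_self v, hadj u v huv hu hv⟩
    intro i j
    fin_cases i <;> fin_cases j
    · exact key _ _ (a0 s₀ (by tauto)).1 h.qx.symm h.q0.symm
    · exact key _ _ (a0 s₁ (by tauto)).1 h.qx.symm h.q1.symm
    · exact key _ _ (a0 s₃ (by tauto)).1 h.qx.symm h.q3.symm
    · exact key _ _ (a0 s₀ (by tauto)).2.1 h.qy.symm h.q0.symm
    · exact key _ _ (a0 s₁ (by tauto)).2.1 h.qy.symm h.q1.symm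
    · exact key _ _ (a0 s₃ (by tauto)).2.1 h.qy.symm h.q3.symm
    · exact key _ _ (a0 s₀ (by tauto)).2.2 h.qc h.q0.symm
    · exact key _ _ (a0 s₁ (by tauto)).2.2 h.qc h.q1.symm
    · exact key _ _ (a0 s₃ (by tauto)).2.2 h.qc h.q3.symm

/-- the cut contains `x` and `y` -/
theorem Nine.rigA {S X Y : Finset α} (h : Nine G x y s₀ s₁ s₂ s₃ q c d)
    (hs : Sep G S X Y) (h4 : S.card = 4) (hq : q ∈ S) (hx : x ∈ S) (hy : y ∈ S)
    (hX : 2 ≤ X.card) (hY : 2 ≤ Y.card) : False := by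
  have ht := h.t
  -- at most one further vertex
  have hone : ∀ t t', t ∈ S → t' ∈ S → t ≠ x → t ≠ y → t ≠ q → t' ≠ x → t' ≠ y → t' ≠ q →
      t = t' := by
    intro t t' h1 h2 h3 h5 h6 h7 h8 h9
    by_contra hne
    have h10 : ({x, y, q} ∪ {t, t'} : Finset α) ⊆ S := by
      intro w hw
      simp only [mem_union, mem_insert, mem_singleton] at hw
      rcases hw with (rfl | rfl | rfl) | rfl | rfl <;> assumption
    have h11 := card_le_card h10
    rw [card_union_of_disjoint, card_pair hne,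
      card_eq_three.2 ⟨x, y, q, ht.nxy, h.qx.symm, h.qy.symm, rfl⟩, h4] at h11
    · omega
    · rw [Finset.disjoint_left]
      intro w hw hw'
      simp only [mem_insert, mem_singleton] at hw hw'
      rcases hw' with rfl | rfl
      · rcases hw with e | e | e
        · exact h3 e
        · exact h5 e
        · exact h6 e
      · rcases hw with e | e | e
        · exact h7 e
        · exact h8 e
        · exact h9 e
  -- `d ∈ X`
  have key : ∀ X Y : Finset α, Sep G S X Y → 2 ≤ Y.card → d ∉ X := by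
    intro X Y hs hY hd
    have h1 : Y ⊆ {s₀} := by
      intro v hv
      rw [mem_singleton]
      rcases h.vs v (hs.subQ hv) with e | e | e | e | e | e | e | e | e
      · exact absurd (e ▸ hv) (TB hs hx)
      · exact absurd (e ▸ hv) (TB hs hy)
      · exact e
      · exact absurd h.d1'.symm (hs.2.2.2.2 d hd s₁ (e ▸ hv))
      · exact absurd h.d2'.symm (hs.2.2.2.2 d hd s₂ (e ▸ hv))
      · exact absurd h.d3'.symm (hs.2.2.2.2 d hd s₃ (e ▸ hv))
      · exact absurd (e ▸ hv) (TB hs hq)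
      · exfalso
        have hc : c ∈ Y := e ▸ hv
        have h1S : s₁ ∈ S := by
          rcases hs.mem_or (left_mem_VS h.c1') with h1 | h1 | h1
          · exact h1
          · exact absurd h.c1' (hs.2.2.2.2 s₁ h1 c hc)
          · exact absurd h.d1'.symm (hs.2.2.2.2 d hd s₁ h1)
        have h3S : s₃ ∈ S := by
          rcases hs.mem_or (left_mem_VS h.c3') with h1 | h1 | h1
          · exact h1
          · exact absurd h.c3' (hs.2.2.2.2 s₃ h1 c hc)
          · exact absurd h.d3'.symm (hs.2.2.2.2 d hd s₃ h1)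
        exact ht.n13 (hone s₁ s₃ h1S h3S ht.x1.symm ht.y1.symm h.q1.symm ht.x3.symm ht.y3.symm
          h.q3.symm)
      · exact absurd (e ▸ hv) (AB hs hd)
    have h2 := card_le_card h1
    rw [card_singleton] at h2
    omega
  have key2 : ∀ X Y : Finset α, Sep G S X Y → 2 ≤ Y.card → d ∈ S → c ∉ X := by
    intro X Y hs hY hd hc
    have h1 : Y ⊆ {s₂} := by
      intro v hv
      rw [mem_singleton]
      rcases h.vs v (hs.subQ hv) with e | e | e | e | e | e | e | e | e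
      · exact absurd (e ▸ hv) (TB hs hx)
      · exact absurd (e ▸ hv) (TB hs hy)
      · exact absurd h.c0'.symm (hs.2.2.2.2 c hc s₀ (e ▸ hv))
      · exact absurd h.c1'.symm (hs.2.2.2.2 c hc s₁ (e ▸ hv))
      · exact e
      · exact absurd h.c3'.symm (hs.2.2.2.2 c hc s₃ (e ▸ hv))
      · exact absurd (e ▸ hv) (TB hs hq)
      · exact absurd (e ▸ hv) (AB hs hc)
      · exact absurd (e ▸ hv) (TB hs hd)
    have h2 := card_le_card h1
    rw [card_singleton] at h2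
    omega
  rcases hs.mem_or (right_mem_VS h.d1') with hd | hd | hd
  · rcases hs.mem_or (right_mem_VS h.c1') with hc | hc | hc
    · exact h.cd (hone c d hc hd h.xc.symm h.yc.symm h.qc h.xd.symm h.yd.symm h.qd)
    · exact key2 X Y hs hY hd hc
    · exact key2 Y X hs.symm hX hd hc
  · exact key X Y hs hY hd
  · exact key Y X hs.symm hX hd

/-- exchange of `x` and `y` -/
theorem Nine.sxy (h : Nine G x y s₀ s₁ s₂ s₃ q c d) : Nine G y x s₀ s₁ s₂ s₃ q c d :=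
  { t :=
      { nxy := h.t.nxy.symm
        x0 := h.t.y0
        x1 := h.t.y1
        x2 := h.t.y2
        x3 := h.t.y3
        y0 := h.t.x0
        y1 := h.t.x1
        y2 := h.t.x2
        y3 := h.t.x3
        n01 := h.t.n01
        n02 := h.t.n02
        n03 := h.t.n03
        n12 := h.t.n12
        n13 := h.t.n13
        n23 := h.t.n23
        nx := h.t.ny
        ny := h.t.nx }
    qc := h.qc
    qd := h.qd
    qx := h.qy
    qy := h.qx
    q0 := h.q0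
    q1 := h.q1
    q2 := h.q2
    q3 := h.q3
    xc := h.yc
    yc := h.xc
    xd := h.yd
    yd := h.xd
    c0 := h.c0
    c1 := h.c1
    c3 := h.c3
    cd := h.cd
    vs := fun v hv => by have := h.vs v hv; tauto
    c0' := h.c0'
    c1' := h.c1'
    c3' := h.c3'
    d1' := h.d1'
    d2' := h.d2'
    d3' := h.d3' }

/-- the cut contains `x`: then it contains `y` -/
theorem Nine.yS {S X Y : Finset α} (hG : K48 G) (h : Nine G x y s₀ s₁ s₂ s₃ q c d)
    (hs : Sep G S X Y) (h4 : S.card = 4) (hx : x ∈ S) (hY : Y.Nonempty) : y ∉ X := by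
  intro hy
  obtain ⟨p, hp, hxp⟩ := hG.1.exists_adj_of_sep hs.symm hY h4.le hx
  have h1 := (h.t.nx p).1 hxp
  exact hs.2.2.2.2 y hy p hp ((h.t.ny p).2 h1)

/-- five vertices are not in the cut -/
theorem Nine.not5 {S : Finset α} (h : Nine G x y s₀ s₁ s₂ s₃ q c d) (h4 : S.card = 4)
    (hq : q ∈ S) (h0 : s₀ ∈ S) (h1 : s₁ ∈ S) (h2 : s₂ ∈ S) (h3 : s₃ ∈ S) : False := by
  have ht := h.t
  have h5 : (insert q {s₀, s₁, s₂, s₃} : Finset α) ⊆ S := by
    intro w hw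
    simp only [mem_insert, mem_singleton] at hw
    rcases hw with rfl | rfl | rfl | rfl | rfl <;> assumption
  have h6 := card_le_card h5
  rw [card_insert_of_notMem, card_four, h4] at h6
  · omega
  · simp only [List.nodup_cons, List.mem_cons, List.not_mem_nil, or_false, not_or,
      List.nodup_nil, and_true, not_false_eq_true]
    exact ⟨⟨ht.n01, ht.n02, ht.n03⟩, ⟨ht.n12, ht.n13⟩, ht.n23⟩
  · simp only [mem_insert, mem_singleton, not_or]
    exact ⟨h.q0, h.q1, h.q2, h.q3⟩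

/-- `x` and `y` are not in different sides -/
theorem Nine.opp {S X Y : Finset α} (h : Nine G x y s₀ s₁ s₂ s₃ q c d)
    (hs : Sep G S X Y) (h4 : S.card = 4) (hq : q ∈ S) (hx : x ∈ X) : y ∉ Y := by
  intro hy
  have ht := h.t
  have key : ∀ w, w = s₀ ∨ w = s₁ ∨ w = s₂ ∨ w = s₃ → w ∈ S := by
    intro w hw
    have h1 := (ht.nx w).2 hw
    have h2 := (ht.ny w).2 hw
    rcases hs.mem_or (right_mem_VS h1) with h3 | h3 | h3
    · exact h3
    · exact absurd h2.symm (hs.2.2.2.2 w h3 y hy)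
    · exact absurd h1 (hs.2.2.2.2 x hx w h3)
  exact h.not5 h4 hq (key _ (by tauto)) (key _ (by tauto)) (key _ (by tauto)) (key _ (by tauto))

/-- `x` and `y` are not in the same side -/
theorem Nine.same {S X Y : Finset α} (h : Nine G x y s₀ s₁ s₂ s₃ q c d)
    (hs : Sep G S X Y) (h4 : S.card = 4) (hq : q ∈ S) (hx : x ∈ X) (hy : y ∈ X)
    (hY : 2 ≤ Y.card) : False := by
  have ht := h.t
  have hsY : ∀ w, w = s₀ ∨ w = s₁ ∨ w = s₂ ∨ w = s₃ → w ∉ Y := fun w hw h3 =>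
    hs.2.2.2.2 x hx w h3 ((ht.nx w).2 hw)
  have h1 : Y ⊆ {c, d} := by
    intro v hv
    rw [mem_insert, mem_singleton]
    rcases h.vs v (hs.subQ hv) with e | e | e | e | e | e | e | e | e
    · exact absurd (e ▸ hv) (AB hs hx)
    · exact absurd (e ▸ hv) (AB hs hy)
    · exact absurd hv (hsY v (by tauto))
    · exact absurd hv (hsY v (by tauto))
    · exact absurd hv (hsY v (by tauto))
    · exact absurd hv (hsY v (by tauto))
    · exact absurd (e ▸ hv) (TB hs hq)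
    · tauto
    · tauto
  have h2 : Y = {c, d} := eq_of_subset_of_card_le h1 (card_le_two.trans hY)
  have hc : c ∈ Y := by rw [h2]; simp
  have hd : d ∈ Y := by rw [h2]; simp
  have key : ∀ w, (w = s₀ ∨ w = s₁ ∨ w = s₂ ∨ w = s₃) → (G.Adj w c ∨ G.Adj w d) → w ∈ S := by
    intro w hw h3
    rcases hs.mem_or (right_mem_VS ((ht.nx w).2 hw)) with h5 | h5 | h5
    · exact h5
    · rcases h3 with h3 | h3
      · exact absurd h3 (hs.2.2.2.2 w h5 c hc)
      · exact absurd h3 (hs.2.2.2.2 w h5 d hd)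
    · exact absurd h5 (hsY w hw)
  exact h.not5 h4 hq (key _ (by tauto) (Or.inl h.c0')) (key _ (by tauto) (Or.inl h.c1'))
    (key _ (by tauto) (Or.inr h.d2')) (key _ (by tauto) (Or.inr h.d3'))

theorem Nine.rig (hG : K48 G) (h : Nine G x y s₀ s₁ s₂ s₃ q c d) : Rig G q := by
  intro S X Y hs h4 hq
  by_contra hcon
  push Not at hcon
  obtain ⟨hX, hY⟩ := hcon
  have hX : 2 ≤ X.card := hX
  have hY : 2 ≤ Y.card := hY
  have hXn : X.Nonempty := card_pos.1 (by omega)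
  have hYn : Y.Nonempty := card_pos.1 (by omega)
  have hxV : x ∈ VS G := left_mem_VS ((h.t.nx s₀).2 (by tauto))
  have hyV : y ∈ VS G := left_mem_VS ((h.t.ny s₀).2 (by tauto))
  rcases hs.mem_or hxV with hx | hx | hx
  · rcases hs.mem_or hyV with hy | hy | hy
    · exact h.rigA hs h4 hq hx hy hX hY
    · exact h.yS hG hs h4 hx hYn hy
    · exact h.yS hG hs.symm h4 hx hXn hy
  · rcases hs.mem_or hyV with hy | hy | hy
    · exact h.sxy.yS hG hs h4 hy hYn hx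
    · exact h.same hs h4 hq hx hy hY
    · exact h.opp hs h4 hq hx hy
  · rcases hs.mem_or hyV with hy | hy | hy
    · exact h.sxy.yS hG hs.symm h4 hy hXn hx
    · exact h.opp hs.symm h4 hq hx hy
    · exact h.same hs.symm h4 hq hx hy hX

theorem Sq.nine (hG : K48 G) (h33 : No33 G) (h34 : No34 G) (h44 : No44 G)
    (h : Sq G x y s₀ s₁ s₂ s₃ q c d T A B T' P Q) (hc : c ∈ P) (hd : d ∈ Q) :
    Nine G x y s₀ s₁ s₂ s₃ q c d := by
  have ht := h.b.t
  have hcn := h.ne hG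
  have hdn := h.swp.ne hG
  have hqn := h.neq hG
  have hB : ∀ v ∈ B, v = s₁ ∨ v = s₃ := fun v hv => h.inB hG hc hd hv
  have hB' : ∀ v ∈ B, v = s₃ ∨ v = s₁ := fun v hv => (hB v hv).symm
  have h13 := h.n13 hG h33 h34 h44 hB
  have m1 : ∀ w, G.Adj s₁ w ↔ w = x ∨ w = y ∨ w = c ∨ w = d := by
    refine deg4 hG.1 (h.h.subQ h.b1) fun w hw => ?_
    rcases h.nb1 hB hw with e | e | e | e | e
    · tauto
    · tauto
    · exact absurd (e ▸ hw) h13
    · tauto
    · tauto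
  have m3 : ∀ w, G.Adj s₃ w ↔ w = x ∨ w = y ∨ w = c ∨ w = d := by
    refine deg4 hG.1 (h.h.subQ h.b3) fun w hw => ?_
    rcases h.flip.nb1 hB' hw with e | e | e | e | e
    · tauto
    · tauto
    · exact absurd (e ▸ hw).symm h13
    · tauto
    · tauto
  have m0 := h.n0 hG hc hd
  have m2 := h.flip.swp.n0 hG hd hc
  exact
    { t := ht
      qc := hcn.2.2.2.2
      qd := hdn.2.2.2.2
      qx := hqn.1
      qy := hqn.2.1
      q0 := hqn.2.2.1
      q1 := hqn.2.2.2.1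
      q2 := hqn.2.2.2.2.1
      q3 := hqn.2.2.2.2.2
      xc := h.xc
      yc := h.yc
      xd := h.xd
      yd := h.yd
      c0 := hcn.1
      c1 := hcn.2.1
      c3 := hcn.2.2.2.1
      cd := h.cd
      vs := fun v hv => by
        rcases h.h.mem_or hv with h1 | h1 | h1
        · have := (h.hT v).1 h1
          tauto
        · have := h.inA hG hc hd h1
          tauto
        · have := hB v h1
          tauto
      c0' := (m0 c).2 (by tauto)
      c1' := (m1 c).2 (by tauto)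
      c3' := (m3 c).2 (by tauto)
      d1' := (m1 d).2 (by tauto)
      d2' := (m2 d).2 (by tauto)
      d3' := (m3 d).2 (by tauto) }

end

end E5BM

open E5QM E3SM E5BM in
theorem specE5B (hNPM : SpecNPM) : SpecE5B := by
  intro α _ _ G x y s hSH h33 h34 h44 ht hs q P Q hb
  have hG := hSH.k48
  have hB := bc hG.1 ht hb
  obtain ⟨c, d, A, B, hnd, h, h0, h2, h1, h3⟩ := hs
  have hc4 := card_four hnd
  simp only [List.nodup_cons, List.mem_cons, List.not_mem_nil, or_false, not_or,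
    List.nodup_nil, and_true, not_false_eq_true] at hnd
  obtain ⟨⟨-, xc, xd⟩, ⟨yc, yd⟩, cd⟩ := hnd
  have st : Sq G x y (s 0) (s 1) (s 2) (s 3) q c d {x, y, c, d} A B
      ({x, y} ∪ {s 1, s 3, q}) P Q :=
    ⟨hB, h, fun w => by simp only [mem_insert, mem_singleton], hc4.le, xc, xd, yc, yd, cd,
      h0, h2, h1, h3⟩
  have key : ∀ {c d : α}, Nine G x y (s 0) (s 1) (s 2) (s 3) q c d → False := by
    intro c d hn
    exact (hSH.rig q (hB.h'.subS hB.qT) (hn.rig hG)).2 (hn.np hNPM)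
  rcases st.cases hG with ⟨hc, hd⟩ | ⟨hd, hc⟩
  · exact key (st.nine hG h33 h34 h44 hc hd)
  · exact key (st.swp.nine hG h33 h34 h44 hd hc)

end DL
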