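import Pool.Agent.DL.E.TWR
import Pool.Agent.DL.K.KY3

/-!
# E5M: D-pair graphs are nonplanar if `J = G - x` is planar
-/

open SimpleGraph Finset

namespace DL.E5MM

open DL TWRM

variable {α : Type} [Fintype α] [DecidableEq α] {G : SimpleGraph α}

/-- a vertex set with at most three neighbours -/
theorem nob (h4 : KConn 4 G) {D S : Finset α} {v : α} (hS : S.card < 4) (hDV : D ⊆ VS G)
    (hcl : ∀ u ∈ D, ∀ w, G.Adj u w → w ∈ D ∨ w ∈ S) (hDS : ∀ u ∈ D, u ∉ S) (hv : v ∈ VS G)
    (hvD : v ∉ D) (hvS : v ∉ S) : D = ∅ := by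
  rw [Finset.eq_empty_iff_forall_notMem]
  intro u hu
  have hr := h4.reach hS (hDV hu) hv (hDS u hu) hvS
  refine hvD (mem_of_reachable (X := {w | w ∈ D}) hr hu ?_)
  intro a b hab ha
  rcases hcl a ha b hab.1 with h | h
  · exact h
  · exact absurd h hab.2.2

theorem deg4 (h4 : KConn 4 G) {v p q r s : α} (hv : v ∈ VS G) (h : ∀ w, G.Adj v w →
    w = p ∨ w = q ∨ w = r ∨ w = s) : [p, q, r, s].Nodup ∧
    ∀ w, G.Adj v w ↔ w = p ∨ w = q ∨ w = r ∨ w = s := by
  have hsub : nbs G v ⊆ {p, q, r, s} := by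
    intro w hw
    rw [mem_nbs] at hw
    simpa using h w hw
  have h1 := h4.le_nbs hv
  have h2 := card_le_card hsub
  have h3 : ({p, q, r, s} : Finset α).card = 4 := le_antisymm card_le_four (h1.trans h2)
  have heq := Finset.eq_of_subset_of_card_le hsub (by omega)
  refine ⟨?_, fun w => ?_⟩
  · have h7 : (([p, q, r, s] : List α) : Multiset α).toFinset.card =
        Multiset.card (([p, q, r, s] : List α) : Multiset α) := by
      have h8 : (([p, q, r, s] : List α) : Multiset α).toFinset = {p, q, r, s} := by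
        ext z; simp
      rw [h8, h3]
      rfl
    exact Multiset.coe_nodup.1 (Multiset.toFinset_card_eq_card_iff_nodup.1 h7)
  · rw [← mem_nbs, heq]
    simp

theorem deg3 (h4 : KConn 4 G) {v p q r : α} (hv : v ∈ VS G) : ¬ (∀ w, G.Adj v w →
    w = p ∨ w = q ∨ w = r) := by
  intro h
  have hsub : nbs G v ⊆ {p, q, r} := by
    intro w hw
    rw [mem_nbs] at hw
    simpa using h w hw
  have h1 := h4.le_nbs hv
  have h2 := card_le_card hsub
  have h3 : ({p, q, r} : Finset α).card ≤ 3 := card_le_three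
  omega

/-! ## `μ = ν₁ + ν₃` -/

theorem conn5 (h4 : KConn 4 G) {x y a b c d : α} (q : Q4 G x y a b c d) :
    ConnOff (del G {x, y, a}) {b, d} := by
  have nd := q.nd
  simp only [List.nodup_cons, List.mem_cons, List.not_mem_nil, or_false, not_or,
    not_false_eq_true, List.nodup_nil, and_true] at nd
  obtain ⟨⟨hxy, hxa, hxb, hxc, hxd⟩, ⟨hya, hyb, hyc, hyd⟩, ⟨hab, hac, had⟩, ⟨hbc, hbd⟩, hcd⟩ := nd
  have key : ∀ u ∈ VS G, u ∉ ({x, y, a, b, d} : Finset α) →
      (del G {x, y, a, b, d}).Reachable u c := by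
    classical
    intro u hu hu'
    by_contra hr
    set D := (VS G).filter fun v => (del G {x, y, a, b, d}).Reachable u v with hD
    have hnotS : ∀ v ∈ D, v ∉ ({x, y, a, b, d} : Finset α) := by
      intro v hv
      exact reachable_del_notMem_right (mem_filter.1 hv).2 hu'
    have hc : ∀ v ∈ D, v ≠ c := by
      rintro v hv rfl
      exact hr (mem_filter.1 hv).2
    have := nob h4 (D := D) (S := {a, b, d}) (v := x)
      (lt_of_le_of_lt card_le_three (by norm_num)) (filter_subset _ _) ?_ ?_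
      (left_mem_VS ((q.nx a).2 (by simp))) ?_ ?_
    · have hmem : u ∈ D := mem_filter.2 ⟨hu, Reachable.refl _⟩
      rw [this] at hmem
      simp at hmem
    · intro v hv w hvw
      by_cases hw : w ∈ ({x, y, a, b, d} : Finset α)
      · right
        have hvS := hnotS v hv
        have hvc := hc v hv
        simp only [mem_insert, mem_singleton, not_or] at hw hvS ⊢
        rcases hw with rfl | rfl | hw
        · rcases (q.nx v).1 hvw.symm with h | h | h | h
          · exact absurd h hvS.2.2.1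
          · exact absurd h hvS.2.2.2.1
          · exact absurd h hvc
          · exact absurd h hvS.2.2.2.2
        · rcases (q.ny v).1 hvw.symm with h | h | h | h
          · exact absurd h hvS.2.2.1
          · exact absurd h hvS.2.2.2.1
          · exact absurd h hvc
          · exact absurd h hvS.2.2.2.2
        · exact hw
      · left
        exact mem_filter.2 ⟨right_mem_VS hvw, (mem_filter.1 hv).2.trans
          (Adj.reachable ⟨hvw, hnotS v hv, hw⟩)⟩
    · intro v hv
      have hvS := hnotS v hv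
      simp only [mem_insert, mem_singleton, not_or] at hvS ⊢
      exact hvS.2.2
    · intro hx
      have := hnotS x hx
      simp at this
    · simp only [mem_insert, mem_singleton, not_or]
      exact ⟨hxa, hxb, hxd⟩
  intro u hu v hv huS hvS
  rw [del_del]
  have e : ({x, y, a} ∪ {b, d} : Finset α) = {x, y, a, b, d} := by
    ext z; simp only [mem_union, mem_insert, mem_singleton]; tauto
  rw [e]
  have h1 := mem_sdiff.1 (VS_del_subset _ hu)
  have h2 := mem_sdiff.1 (VS_del_subset _ hv)
  have hu' : u ∉ ({x, y, a, b, d} : Finset α) := by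
    rw [← e, mem_union, not_or]; exact ⟨h1.2, huS⟩
  have hv' : v ∉ ({x, y, a, b, d} : Finset α) := by
    rw [← e, mem_union, not_or]; exact ⟨h2.2, hvS⟩
  exact (key u h1.1 hu').trans (key v h2.1 hv').symm

theorem spl (hSTA : SpecSTA) (h4 : KConn 4 G) {x y a b c d : α} (q : Q4 G x y a b c d)
    {μ : Chain α} (hμ : μ ∈ Z1 (del G {x, y, a})) (h0 : μ s(b, d) = 0) :
    ∃ ν₁ ∈ Z1 (del (del G {x, y, a}) {b}), ∃ ν₃ ∈ Z1 (del (del G {x, y, a}) {d}),
      μ = ν₁ + ν₃ := by
  have nd := q.nd
  simp only [List.nodup_cons, List.mem_cons, List.not_mem_nil, or_false, not_or,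
    not_false_eq_true, List.nodup_nil, and_true] at nd
  obtain ⟨⟨hxy, hxa, hxb, hxc, hxd⟩, ⟨hya, hyb, hyc, hyd⟩, ⟨hab, hac, had⟩, ⟨hbc, hbd⟩, hcd⟩ := nd
  by_contra hno
  set V : Submodule (ZMod 2) (Chain α) := Z1 (del (del G {x, y, a}) {b}) ⊔
    Z1 (del (del G {x, y, a}) {d}) with hV
  have hcV : μ ∉ V := by
    intro h
    rw [hV, Submodule.mem_sup] at h
    obtain ⟨ν₁, h1, ν₃, h3, h⟩ := h
    exact hno ⟨ν₁, h1, ν₃, h3, h.symm⟩
  obtain ⟨φ, hφc, hφV⟩ := Submodule.exists_le_ker_of_notMem hcV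
  obtain ⟨f, hf⟩ := SM3M.functional φ
  obtain ⟨κ, hκ, hκZ⟩ := hSTA (del G {x, y, a}) b d hbd (conn5 h4 q) f
    (fun Z hZ => by
      rw [← hf]
      exact hφV (Submodule.mem_sup_left hZ))
    (fun Z hZ => by
      rw [← hf]
      exact hφV (Submodule.mem_sup_right hZ))
  apply hφc
  rw [hf, hκZ μ hμ, h0, mul_zero]

/-! ## A cycle through `s₁s₃` -/

/-- the set of the vertices connected to `b` -/
theorem side {x y a b c d : α} (q : Q4 G x y a b c d) {L : SimpleGraph α}
    (hL : L ≤ del G {x, y, a}) (hr : ¬ L.Reachable b d) :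
    ∃ X : Finset α, b ∈ X ∧ d ∉ X ∧ X ⊆ VS G ∧ (∀ u ∈ X, u ≠ x ∧ u ≠ y ∧ u ≠ a) ∧
      (∀ u ∈ X, ∀ w, L.Adj u w → w ∈ X) := by
  classical
  have nd := q.nd
  simp only [List.nodup_cons, List.mem_cons, List.not_mem_nil, or_false, not_or,
    not_false_eq_true, List.nodup_nil, and_true] at nd
  obtain ⟨⟨hxy, hxa, hxb, hxc, hxd⟩, ⟨hya, hyb, hyc, hyd⟩, ⟨hab, hac, had⟩, ⟨hbc, hbd⟩, hcd⟩ := nd
  refine ⟨(VS G).filter fun v => L.Reachable b v, ?_, ?_, filter_subset _ _, ?_, ?_⟩
  · exact mem_filter.2 ⟨right_mem_VS ((q.nx b).2 (by simp)), Reachable.refl _⟩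
  · exact fun h => hr (mem_filter.1 h).2
  · intro u hu
    have h1 : b ∉ ({x, y, a} : Finset α) := by
      simp only [mem_insert, mem_singleton, not_or]
      exact ⟨Ne.symm hxb, Ne.symm hyb, Ne.symm hab⟩
    have h2 := reachable_del_notMem_right ((mem_filter.1 hu).2.mono hL) h1
    simpa only [mem_insert, mem_singleton, not_or] using h2
  · intro u hu w huw
    exact mem_filter.2 ⟨right_mem_VS (hL huw).1, (mem_filter.1 hu).2.trans (Adj.reachable huw)⟩

theorem cyc_b (hK : K48 G) {x y a b c d : α} (q : Q4 G x y a b c d) (hab' : ¬ G.Adj a b) :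
    (delE (del G {x, y, a}) b d).Reachable b d := by
  by_contra hr
  have h4 := hK.1
  have nd := q.nd
  simp only [List.nodup_cons, List.mem_cons, List.not_mem_nil, or_false, not_or,
    not_false_eq_true, List.nodup_nil, and_true] at nd
  obtain ⟨⟨hxy, hxa, hxb, hxc, hxd⟩, ⟨hya, hyb, hyc, hyd⟩, ⟨hab, hac, had⟩, ⟨hbc, hbd⟩, hcd⟩ := nd
  have hVx : x ∈ VS G := left_mem_VS ((q.nx a).2 (by simp))
  have hVb : b ∈ VS G := right_mem_VS ((q.nx b).2 (by simp))
  obtain ⟨X, hbX, hdX, hXV, hXn, hXc⟩ := side q (delE_le _ _ _) hr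
  -- edges leaving `X`
  have hout : ∀ u ∈ X, ∀ w, G.Adj u w → w ∈ X ∨ w = x ∨ w = y ∨ w = a ∨ (u = b ∧ w = d) := by
    intro u hu w huw
    by_cases hw : w = x ∨ w = y ∨ w = a
    · tauto
    · rw [not_or, not_or] at hw
      by_cases he : s(u, w) = s(b, d)
      · rw [Sym2.eq_iff] at he
        rcases he with ⟨e1, e2⟩ | ⟨e1, e2⟩
        · exact Or.inr (Or.inr (Or.inr (Or.inr ⟨e1, e2⟩)))
        · exact absurd (e1 ▸ hu) hdX
      · left
        refine hXc u hu w (delE_adj.2 ⟨⟨huw, ?_, ?_⟩, he⟩)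
        · simpa only [mem_insert, mem_singleton, not_or] using hXn u hu
        · simpa only [mem_insert, mem_singleton, not_or] using hw
  have hxS : ∀ u, G.Adj x u → u = a ∨ u = b ∨ u = c ∨ u = d := fun u h => (q.nx u).1 h
  have hyS : ∀ u, G.Adj y u → u = a ∨ u = b ∨ u = c ∨ u = d := fun u h => (q.ny u).1 h
  by_cases hcX : c ∈ X
  · -- `Q = {d}` and `X = {b, c}`
    set Y := VS G \ (X ∪ {x, y, a}) with hY
    have hYm : ∀ u, u ∈ Y ↔ u ∈ VS G ∧ u ∉ X ∧ u ≠ x ∧ u ≠ y ∧ u ≠ a := by
      intro u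
      rw [hY, mem_sdiff, mem_union]
      simp only [mem_insert, mem_singleton, not_or]
    have hYd : ∀ u ∈ Y, u = d := by
      have : Y.erase d = ∅ := by
        refine nob h4 (S := {a, d}) (v := x) (lt_of_le_of_lt card_le_two (by norm_num))
          ((erase_subset _ _).trans sdiff_subset) ?_ ?_ hVx ?_ ?_
        · intro u hu w huw
          rw [mem_erase, hYm] at hu
          rw [mem_erase, hYm, mem_insert, mem_singleton]
          by_cases hwd : w = d
          · exact Or.inr (Or.inr hwd)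
          by_cases hwa : w = a
          · exact Or.inr (Or.inl hwa)
          left
          refine ⟨hwd, right_mem_VS huw, ?_, ?_, ?_, hwa⟩
          · intro hw
            rcases hout w hw u huw.symm with h | h | h | h | h
            · exact hu.2.2.1 h
            · exact hu.2.2.2.1 h
            · exact hu.2.2.2.2.1 h
            · exact hu.2.2.2.2.2 h
            · exact hu.1 h.2
          · rintro rfl
            rcases hxS u huw.symm with h | h | h | h
            · exact hu.2.2.2.2.2 h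
            · exact hu.2.2.1 (h ▸ hbX)
            · exact hu.2.2.1 (h ▸ hcX)
            · exact hu.1 h
          · rintro rfl
            rcases hyS u huw.symm with h | h | h | h
            · exact hu.2.2.2.2.2 h
            · exact hu.2.2.1 (h ▸ hbX)
            · exact hu.2.2.1 (h ▸ hcX)
            · exact hu.1 h
        · intro u hu
          rw [mem_erase, hYm] at hu
          rw [mem_insert, mem_singleton, not_or]
          exact ⟨hu.2.2.2.2.2, hu.1⟩
        · rw [mem_erase, hYm]
          tauto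
        · rw [mem_insert, mem_singleton, not_or]
          exact ⟨hxa, hxd⟩
      intro u hu
      by_contra hne
      have : u ∈ Y.erase d := mem_erase.2 ⟨hne, hu⟩
      simp_all
    have hXbc : ∀ u ∈ X, u = b ∨ u = c := by
      have : (X.erase b).erase c = ∅ := by
        refine nob h4 (S := {a, b, c}) (v := x) (lt_of_le_of_lt card_le_three (by norm_num))
          (((erase_subset _ _).trans (erase_subset _ _)).trans hXV) ?_ ?_ hVx ?_ ?_
        · intro u hu w huw
          rw [mem_erase, mem_erase] at hu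
          simp only [mem_erase, mem_insert, mem_singleton]
          rcases hout u hu.2.2 w huw with h | h | h | h | h
          · tauto
          · rw [h] at huw
            rcases hxS u huw.symm with h' | h' | h' | h'
            · exact absurd h' (hXn u hu.2.2).2.2
            · exact absurd h' hu.2.1
            · exact absurd h' hu.1
            · exact absurd (h' ▸ hu.2.2) hdX
          · rw [h] at huw
            rcases hyS u huw.symm with h' | h' | h' | h'
            · exact absurd h' (hXn u hu.2.2).2.2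
            · exact absurd h' hu.2.1
            · exact absurd h' hu.1
            · exact absurd (h' ▸ hu.2.2) hdX
          · tauto
          · exact absurd h.1 hu.2.1
        · intro u hu
          rw [mem_erase, mem_erase] at hu
          simp only [mem_insert, mem_singleton, not_or]
          exact ⟨(hXn u hu.2.2).2.2, hu.2.1, hu.1⟩
        · rw [mem_erase, mem_erase]
          intro h
          exact (hXn x h.2.2).1 rfl
        · simp only [mem_insert, mem_singleton, not_or]
          exact ⟨hxa, hxb, hxc⟩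
      intro u hu
      by_contra hne
      rw [not_or] at hne
      have : u ∈ (X.erase b).erase c := mem_erase.2 ⟨hne.2, mem_erase.2 ⟨hne.1, hu⟩⟩
      simp_all
    have hV : VS G ⊆ {x, y, a, b, c, d} := by
      intro u hu
      simp only [mem_insert, mem_singleton]
      by_cases hX : u ∈ X
      · have := hXbc u hX
        tauto
      · by_cases h1 : u = x ∨ u = y ∨ u = a
        · tauto
        · rw [not_or, not_or] at h1
          have := hYd u ((hYm u).2 ⟨hu, hX, h1⟩)
          tauto
    have h6 : ({x, y, a, b, c, d} : Finset α).card ≤ 6 := card_le_six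
    have := card_le_card hV
    have := hK.2
    omega
  · -- `X = {b}`
    have hXb : ∀ u ∈ X, u = b := by
      have : X.erase b = ∅ := by
        refine nob h4 (S := {a, b}) (v := x) (lt_of_le_of_lt card_le_two (by norm_num))
          ((erase_subset _ _).trans hXV) ?_ ?_ hVx ?_ ?_
        · intro u hu w huw
          rw [mem_erase] at hu
          simp only [mem_erase, mem_insert, mem_singleton]
          rcases hout u hu.2 w huw with h | h | h | h | h
          · tauto
          · rw [h] at huw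
            rcases hxS u huw.symm with h' | h' | h' | h'
            · exact absurd h' (hXn u hu.2).2.2
            · exact absurd h' hu.1
            · exact absurd (h' ▸ hu.2) hcX
            · exact absurd (h' ▸ hu.2) hdX
          · rw [h] at huw
            rcases hyS u huw.symm with h' | h' | h' | h'
            · exact absurd h' (hXn u hu.2).2.2
            · exact absurd h' hu.1
            · exact absurd (h' ▸ hu.2) hcX
            · exact absurd (h' ▸ hu.2) hdX
          · tauto
          · exact absurd h.1 hu.1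
        · intro u hu
          rw [mem_erase] at hu
          simp only [mem_insert, mem_singleton, not_or]
          exact ⟨(hXn u hu.2).2.2, hu.1⟩
        · rw [mem_erase]
          intro h
          exact (hXn x h.2).1 rfl
        · simp only [mem_insert, mem_singleton, not_or]
          exact ⟨hxa, hxb⟩
      intro u hu
      by_contra hne
      have : u ∈ X.erase b := mem_erase.2 ⟨hne, hu⟩
      simp_all
    apply deg3 h4 hVb (p := x) (q := y) (r := d)
    intro w hbw
    rcases hout b hbX w hbw with h | h | h | h | h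
    · exact absurd (hXb w h).symm hbw.ne
    · exact Or.inl h
    · exact Or.inr (Or.inl h)
    · exact absurd (h ▸ hbw).symm hab'
    · exact Or.inr (Or.inr h.2)

/-! ## (c) -/

theorem s3s_c (h4 : KConn 4 G) {x y a b c d : α} (q : Q4 G x y a b c d) :
    S3S (delE (del G {x}) y a) ∨ ∃ p r, (∀ w, G.Adj a w ↔ w = x ∨ w = y ∨ w = p ∨ w = r) ∧
      [x, y, p, r].Nodup ∧ G.Adj p r := by
  have nd := q.nd
  simp only [List.nodup_cons, List.mem_cons, List.not_mem_nil, or_false, not_or,
    not_false_eq_true, List.nodup_nil, and_true] at nd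
  obtain ⟨⟨hxy, hxa, hxb, hxc, hxd⟩, ⟨hya, hyb, hyc, hyd⟩, ⟨hab, hac, had⟩, ⟨hbc, hbd⟩, hcd⟩ := nd
  by_cases hex : ∃ p r, (∀ w, G.Adj a w ↔ w = x ∨ w = y ∨ w = p ∨ w = r) ∧
      [x, y, p, r].Nodup ∧ G.Adj p r
  · exact Or.inr hex
  left
  set N := delE (del G {x}) y a with hN
  have hNa : ∀ u w, N.Adj u w ↔ G.Adj u w ∧ u ≠ x ∧ w ≠ x ∧ s(u, w) ≠ s(y, a) := by
    intro u w
    rw [hN, delE_adj, del_adj, mem_singleton, mem_singleton]
    tauto
  have hNle : N ≤ G := fun u w h => ((hNa u w).1 h).1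
  have hJ3 : KConn 3 (del G {x}) := h4.del_vertex (by norm_num) x
  have hVJ : VS (del G {x}) = VS G \ {x} := h4.VS_del (by simp)
  have hVN : VS N = VS G \ {x} := by
    rw [hN, VS_delE fun v hv => le_trans (by norm_num) (hJ3.le_nbs hv), hVJ]
  have hVN' : ∀ v, v ∈ VS N ↔ v ∈ VS G ∧ v ≠ x := fun v => by
    rw [hVN, mem_sdiff, mem_singleton]
  have nyb : N.Adj y b := (hNa _ _).2 ⟨(q.ny b).2 (by simp), Ne.symm hxy, Ne.symm hxb,
    sn (by grind)⟩
  have nyc : N.Adj y c := (hNa _ _).2 ⟨(q.ny c).2 (by simp), Ne.symm hxy, Ne.symm hxc,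
    sn (by grind)⟩
  have nyd : N.Adj y d := (hNa _ _).2 ⟨(q.ny d).2 (by simp), Ne.symm hxy, Ne.symm hxd,
    sn (by grind)⟩
  refine ⟨hJ3.delE (by norm_num) y a, ⟨y, b, c, d, hbc, hbd, hcd, nyb, nyc, nyd⟩, ?_⟩
  intro p r hpr
  by_cases hc : ConnOff N {p, r}
  · exact Or.inl hc
  right
  -- the separation, `y ∈ P`, `a ∈ Q`
  obtain ⟨P, Q, hsep, hyP, haQ⟩ : ∃ P Q, Sep N ({p, r} ∩ VS N) P Q ∧ y ∈ P ∧ a ∈ Q := by
    unfold ConnOff at hc
    push Not at hc
    obtain ⟨u, hu, v, hv, huS, hvS, hr⟩ := hc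
    obtain ⟨P, Q, h1, h2, h3, _⟩ := exists_sep_of_not_reachable hu hv huS hvS hr
    by_contra hcon
    apply hr
    have hr' := hJ3.reach (S := {p, r}) (lt_of_le_of_lt card_le_two (by norm_num)) (a := u)
      (b := v) (by rw [hVJ, ← hVN]; exact hu) (by rw [hVJ, ← hVN]; exact hv) huS hvS
    exfalso
    have : v ∈ P := by
      refine mem_of_reachable (X := {w | w ∈ P}) hr' h2 ?_
      rintro u w ⟨huw, hu1, hw1⟩ huP
      have hwV : w ∈ VS N := by rw [hVN, ← hVJ]; exact right_mem_VS huw
      rcases h1.mem_or hwV with h | h | h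
      · exact absurd (mem_inter.1 h).1 hw1
      · exact h
      · exfalso
        by_cases he : s(u, w) = s(y, a)
        · rw [Sym2.eq_iff] at he
          rcases he with ⟨e1, e2⟩ | ⟨e1, e2⟩
          · exact hcon ⟨P, Q, h1, e1 ▸ huP, e2 ▸ h⟩
          · exact hcon ⟨Q, P, h1.symm, e2 ▸ h, e1 ▸ huP⟩
        · exact h1.2.2.2.2 u huP w h (delE_adj.2 ⟨huw, he⟩)
    exact Finset.disjoint_left.1 h1.2.2.2.1 this h3
  have hdP : ∀ v, v ∈ P → v ∉ Q := fun v hv => Finset.disjoint_left.1 hsep.2.2.2.1 hv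
  have hdS : ∀ v, v ∈ P → v ≠ p ∧ v ≠ r := by
    intro v hv
    have h1 := Finset.disjoint_right.1 hsep.2.1 hv
    rw [mem_inter, mem_insert, mem_singleton] at h1
    have h2 := hsep.subP hv
    tauto
  have hdSQ : ∀ v, v ∈ Q → v ≠ p ∧ v ≠ r := by
    intro v hv
    have h1 := Finset.disjoint_right.1 hsep.2.2.1 hv
    rw [mem_inter, mem_insert, mem_singleton] at h1
    have h2 := hsep.subQ hv
    tauto
  have hmem : ∀ v ∈ VS G, v ≠ x → (v = p ∨ v = r) ∨ v ∈ P ∨ v ∈ Q := by
    intro v hv hvx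
    rcases hsep.mem_or (v := v) ((hVN' v).2 ⟨hv, hvx⟩) with h | h | h
    · rw [mem_inter, mem_insert, mem_singleton] at h
      exact Or.inl h.1
    · exact Or.inr (Or.inl h)
    · exact Or.inr (Or.inr h)
  have hP : ∀ u v, u ∈ P → N.Adj u v → (v = p ∨ v = r) ∨ v ∈ P := by
    intro u v hu huv
    rcases hmem v (right_mem_VS (hNle huv)) ((hNa _ _).1 huv).2.2.1 with h | h | h
    · exact Or.inl h
    · exact Or.inr h
    · exact absurd huv (hsep.2.2.2.2 u hu v h)
  have hQ : ∀ u v, u ∈ Q → N.Adj u v → (v = p ∨ v = r) ∨ v ∈ Q := by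
    intro u v hu huv
    rcases hmem v (right_mem_VS (hNle huv)) ((hNa _ _).1 huv).2.2.1 with h | h | h
    · exact Or.inl h
    · exact absurd huv.symm (hsep.2.2.2.2 v h u hu)
    · exact Or.inr h
  have hPn : ∀ v, ((v = p ∨ v = r) ∨ v ∈ P) → v ∉ Q := by
    rintro v (h | h) hQ'
    · rcases h with h | h
      · exact (hdSQ v hQ').1 h
      · exact (hdSQ v hQ').2 h
    · exact hdP v h hQ'
  have hbQ := hPn b (hP y b hyP nyb)
  have hcQ := hPn c (hP y c hyP nyc)
  have hdQ := hPn d (hP y d hyP nyd)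
  have hQa : ∀ u ∈ Q, u = a := by
    have : Q.erase a = ∅ := by
      refine nob h4 (S := {a, p, r}) (v := y) (lt_of_le_of_lt card_le_three (by norm_num))
        (((erase_subset _ _).trans hsep.subQ).trans (VS_mono hNle)) ?_ ?_
        (VS_mono hNle (hsep.subP hyP)) ?_ ?_
      · intro u hu w huw
        rw [mem_erase] at hu
        simp only [mem_erase, mem_insert, mem_singleton]
        have hux : u ≠ x := ((hVN' u).1 (hsep.subQ hu.2)).2
        have hwx : w ≠ x := by
          rintro rfl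
          rcases (q.nx u).1 huw.symm with h | h | h | h
          · exact hu.1 h
          · exact hbQ (h ▸ hu.2)
          · exact hcQ (h ▸ hu.2)
          · exact hdQ (h ▸ hu.2)
        have huw' : N.Adj u w := by
          refine (hNa _ _).2 ⟨huw, hux, hwx, ?_⟩
          intro e
          rw [Sym2.eq_iff] at e
          rcases e with ⟨e, _⟩ | ⟨e, _⟩
          · exact hdP y hyP (e ▸ hu.2)
          · exact hu.1 e
        rcases hQ u w hu.2 huw' with h | h
        · exact Or.inr (Or.inr h)
        · by_cases hwa : w = a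
          · exact Or.inr (Or.inl hwa)
          · exact Or.inl ⟨hwa, h⟩
      · intro u hu
        rw [mem_erase] at hu
        simp only [mem_insert, mem_singleton, not_or]
        exact ⟨hu.1, hdSQ u hu.2⟩
      · rw [mem_erase]
        exact fun h => hdP y hyP h.2
      · simp only [mem_insert, mem_singleton, not_or]
        exact ⟨hya, hdS y hyP⟩
    intro u hu
    by_contra hne
    have : u ∈ Q.erase a := mem_erase.2 ⟨hne, hu⟩
    simp_all
  have hna : ∀ w, G.Adj a w → w = x ∨ w = y ∨ w = p ∨ w = r := by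
    intro w hw
    by_cases hwx : w = x
    · exact Or.inl hwx
    by_cases hwy : w = y
    · exact Or.inr (Or.inl hwy)
    have : N.Adj a w := (hNa _ _).2 ⟨hw, Ne.symm hxa, hwx, sn (by grind)⟩
    rcases hQ a w haQ this with h | h
    · exact Or.inr (Or.inr h)
    · exact absurd (hQa w h).symm hw.ne
  obtain ⟨nd', hna'⟩ := deg4 h4 (right_mem_VS ((q.nx a).2 (by simp))) hna
  have hpr' : ¬ G.Adj p r := fun h => hex ⟨p, r, hna', nd', h⟩
  have nd2 := nd'
  simp only [List.nodup_cons, List.mem_cons, List.not_mem_nil, or_false, not_or,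
    not_false_eq_true, List.nodup_nil, and_true] at nd2
  obtain ⟨⟨-, hxp, hxr⟩, ⟨hyp, hyr⟩, -⟩ := nd2
  refine ⟨a, ?_, fun h => hpr' (hNle h), ?_⟩
  · intro w
    rw [hNa, hna']
    constructor
    · rintro ⟨h1, h2, h3, h4⟩
      rcases h1 with h | h | h | h
      · exact absurd h h3
      · exact absurd (by rw [h]; exact Sym2.eq_swap) h4
      · exact Or.inl h
      · exact Or.inr h
    · rintro (rfl | rfl)
      · exact ⟨by simp, Ne.symm hxa, Ne.symm hxp, sn ⟨Or.inl (Ne.symm hya), Or.inr (Ne.symm hyp)⟩⟩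
      · exact ⟨by simp, Ne.symm hxa, Ne.symm hxr, sn ⟨Or.inl (Ne.symm hya), Or.inr (Ne.symm hyr)⟩⟩
  · intro u hu v hv huS hvS
    simp only [mem_insert, mem_singleton, not_or] at huS hvS
    have hr' := hJ3.reach (S := {p, r}) (lt_of_le_of_lt card_le_two (by norm_num)) (a := u)
      (b := v) (by rw [hVJ, ← hVN]; exact hu) (by rw [hVJ, ← hVN]; exact hv)
      (by rw [mem_insert, mem_singleton, not_or]; exact ⟨huS.1, huS.2.1⟩)
      (by rw [mem_insert, mem_singleton, not_or]; exact ⟨hvS.1, hvS.2.1⟩)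
    have hay : ∀ w, (del (del G {x}) {p, r}).Adj a w → w = y := by
      intro w hw
      obtain ⟨⟨h1, h2, h3⟩, h5, h6⟩ := hw
      rw [mem_singleton] at h3
      rw [mem_insert, mem_singleton, not_or] at h6
      rcases (hna' w).1 h1 with h | h | h | h
      · exact absurd h h3
      · exact h
      · exact absurd h h6.1
      · exact absurd h h6.2
    have : (v = a ∧ (del N {p, r, a}).Reachable u y) ∨
        (v ≠ a ∧ (del N {p, r, a}).Reachable u v) := by
      refine mem_of_reachable (X := {v | (v = a ∧ (del N {p, r, a}).Reachable u y) ∨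
        (v ≠ a ∧ (del N {p, r, a}).Reachable u v)}) hr' (Or.inr ⟨huS.2.2, Reachable.refl _⟩) ?_
      rintro z w hzw (⟨hz, hz'⟩ | ⟨hz, hz'⟩)
      · rw [hz] at hzw
        have := hay w hzw
        rw [this]
        exact Or.inr ⟨hya, hz'⟩
      · by_cases hwa : w = a
        · rw [hwa] at hzw
          have := hay z hzw.symm
          rw [this] at hz'
          exact Or.inl ⟨hwa, hz'⟩
        · refine Or.inr ⟨hwa, hz'.trans (Adj.reachable ?_)⟩
          obtain ⟨⟨h1, h2, h3⟩, h5, h6⟩ := hzw
          rw [mem_singleton] at h2 h3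
          rw [mem_insert, mem_singleton, not_or] at h5 h6
          refine ⟨(hNa _ _).2 ⟨h1, h2, h3, sn ⟨Or.inr hwa, Or.inl hz⟩⟩, ?_, ?_⟩
          · simp only [mem_insert, mem_singleton, not_or]
            exact ⟨h5.1, h5.2, hz⟩
          · simp only [mem_insert, mem_singleton, not_or]
            exact ⟨h6.1, h6.2, hwa⟩
    rcases this with h | h
    · exact absurd h.1 hvS.2.2
    · exact h.2

/-! ## (d) -/

/-- a 3-connected graph with one edge subdivided -/
theorem sub_s3s {K N : SimpleGraph α} {u p r : α} (hK : KConn 3 K) (hpr : K.Adj p r)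
    (hu : u ∉ VS K) (hN : ∀ v w, N.Adj v w ↔ (K.Adj v w ∧ s(v, w) ≠ s(p, r)) ∨
      s(v, w) = s(u, p) ∨ s(v, w) = s(u, r)) : S3S N := by
  have hpV := left_mem_VS hpr
  have hrV := right_mem_VS hpr
  have hup : u ≠ p := fun e => hu (e ▸ hpV)
  have hur : u ≠ r := fun e => hu (e ▸ hrV)
  have hKN : delE K p r ≤ N := by
    intro v w h
    rw [delE_adj] at h
    exact (hN _ _).2 (Or.inl h)
  have hVd : VS (delE K p r) = VS K :=
    VS_delE fun v hv => le_trans (by norm_num) (hK.le_nbs hv)
  have nup : N.Adj u p := (hN _ _).2 (Or.inr (Or.inl rfl))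
  have nur : N.Adj u r := (hN _ _).2 (Or.inr (Or.inr rfl))
  have hVN : ∀ v, v ∈ VS N → v ≠ u → v ∈ VS K := by
    intro v hv hvu
    obtain ⟨w, hw⟩ := mem_VS.1 hv
    rcases (hN _ _).1 hw with h | h | h
    · exact left_mem_VS h.1
    · rw [Sym2.eq_iff] at h
      rcases h with ⟨h, _⟩ | ⟨h, _⟩
      · exact absurd h hvu
      · exact h ▸ hpV
    · rw [Sym2.eq_iff] at h
      rcases h with ⟨h, _⟩ | ⟨h, _⟩
      · exact absurd h hvu
      · exact h ▸ hrV
  have hd2 : KConn 2 (delE K p r) := hK.delE (by norm_num) p r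
  -- `u ∉ S`
  have hA : ∀ S : Finset α, u ∉ S → ∀ v w, (del K S).Reachable v w →
      (del N S).Reachable v w := by
    intro S huS v w hvw
    refine mem_of_reachable (X := {w | (del N S).Reachable v w}) hvw (Reachable.refl _) ?_
    rintro c d ⟨hcd, hc, hd⟩ hvc
    refine Reachable.trans hvc ?_
    by_cases he : s(c, d) = s(p, r)
    · have hcu : N.Adj c u ∧ N.Adj u d := by
        rw [Sym2.eq_iff] at he
        rcases he with ⟨rfl, rfl⟩ | ⟨rfl, rfl⟩
        · exact ⟨nup.symm, nur⟩
        · exact ⟨nur.symm, nup⟩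
      exact (Adj.reachable (G := del N S) ⟨hcu.1, hc, huS⟩).trans
        (Adj.reachable (G := del N S) ⟨hcu.2, huS, hd⟩)
    · exact Adj.reachable ⟨(hN _ _).2 (Or.inl ⟨hcd, he⟩), hc, hd⟩
  have hB : ∀ S : Finset α, S.card < 3 → u ∉ S → ¬ (p ∈ S ∧ r ∈ S) → ConnOff N S := by
    intro S hS huS hpr'
    have huz : ∃ z ∈ VS K, z ∉ S ∧ (del N S).Reachable u z := by
      by_cases hpS : p ∈ S
      · have hrS : r ∉ S := fun h => hpr' ⟨hpS, h⟩
        exact ⟨r, hrV, hrS, Adj.reachable ⟨nur, huS, hrS⟩⟩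
      · exact ⟨p, hpV, hpS, Adj.reachable ⟨nup, huS, hpS⟩⟩
    have hK' : ∀ v ∈ VS K, ∀ w ∈ VS K, v ∉ S → w ∉ S → (del N S).Reachable v w :=
      fun v hv w hw hvS hwS => hA S huS v w (hK.reach hS hv hw hvS hwS)
    intro v hv w hw hvS hwS
    obtain ⟨z, hz, hzS, huz⟩ := huz
    by_cases hvu : v = u <;> by_cases hwu : w = u
    · rw [hvu, hwu]
    · rw [hvu]
      exact huz.trans (hK' z hz w (hVN w hw hwu) hzS hwS)
    · rw [hwu]
      exact (hK' v (hVN v hv hvu) z hz hvS hzS).trans huz.symm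
    · exact hK' v (hVN v hv hvu) w (hVN w hw hwu) hvS hwS
  have hC : ∀ S : Finset α, (S.erase u).card < 2 → u ∈ S → ConnOff N S := by
    intro S hS huS v hv w hw hvS hwS
    have h1 := hd2.reach hS (a := v) (b := w)
      (by rw [hVd]; exact hVN v hv fun e => hvS (e ▸ huS))
      (by rw [hVd]; exact hVN w hw fun e => hwS (e ▸ huS))
      (fun h => hvS (mem_of_mem_erase h)) (fun h => hwS (mem_of_mem_erase h))
    refine h1.mono ?_
    rintro c d ⟨hcd, hc, hd⟩
    have hcu : c ≠ u := by
      rintro rfl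
      exact hu (left_mem_VS (delE_adj.1 hcd).1)
    have hdu : d ≠ u := by
      rintro rfl
      exact hu (right_mem_VS (delE_adj.1 hcd).1)
    exact ⟨hKN hcd, fun h => hc (mem_erase.2 ⟨hcu, h⟩), fun h => hd (mem_erase.2 ⟨hdu, h⟩)⟩
  refine ⟨⟨?_, ?_⟩, ?_, ?_⟩
  · have h1 := card_le_card (VS_mono hKN)
    rw [hVd] at h1
    have := hK.1
    omega
  · intro S hS
    by_cases huS : u ∈ S
    · refine hC S ?_ huS
      exact lt_of_le_of_lt (card_le_card (erase_subset _ _)) hS
    · refine hB S (by omega) huS ?_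
      rintro ⟨h1, h2⟩
      have : 2 ≤ S.card := by
        calc 2 = ({p, r} : Finset α).card := (card_pair hpr.ne).symm
          _ ≤ _ := card_le_card (by
            intro z hz
            rw [mem_insert, mem_singleton] at hz
            rcases hz with rfl | rfl
            · exact h1
            · exact h2)
      omega
  · obtain ⟨v, hv, hvS⟩ := hK.exists_notMem (S := {p, r}) (card_le_two.trans (by norm_num))
    rw [mem_insert, mem_singleton, not_or] at hvS
    obtain ⟨a, ha, b, hb, c, hc, hab, hac, hbc⟩ := Finset.two_lt_card.1 (hK.le_nbs hv)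
    rw [mem_nbs] at ha hb hc
    have : ∀ w, K.Adj v w → N.Adj v w := fun w h =>
      (hN _ _).2 (Or.inl ⟨h, sn ⟨Or.inl hvS.1, Or.inl hvS.2⟩⟩)
    exact ⟨v, a, b, c, hab, hac, hbc, this a ha, this b hb, this c hc⟩
  · intro a b hab
    by_cases huS : u ∈ ({a, b} : Finset α)
    · left
      refine hC _ ?_ huS
      rw [card_erase_of_mem huS, card_pair hab]
      norm_num
    · by_cases hprS : p ∈ ({a, b} : Finset α) ∧ r ∈ ({a, b} : Finset α)
      · right
        have hset : (a = p ∧ b = r) ∨ (a = r ∧ b = p) := by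
          obtain ⟨h1, h2⟩ := hprS
          rw [mem_insert, mem_singleton] at h1 h2
          have := hpr.ne
          rcases h1 with h1 | h1 <;> rcases h2 with h2 | h2
          · exact absurd (h1.trans h2.symm) this
          · exact Or.inl ⟨h1.symm, h2.symm⟩
          · exact Or.inr ⟨h2.symm, h1.symm⟩
          · exact absurd (h1.trans h2.symm) this
        have hnp : ¬ N.Adj p r := by
          intro h
          rcases (hN _ _).1 h with h | h | h
          · exact h.2 rfl
          · rw [Sym2.eq_iff] at h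
            rcases h with ⟨h, _⟩ | ⟨_, h⟩
            · exact hup h.symm
            · exact hur h.symm
          · rw [Sym2.eq_iff] at h
            rcases h with ⟨h, _⟩ | ⟨_, h⟩
            · exact hup h.symm
            · exact hur h.symm
        have hnu : ∀ w, N.Adj u w ↔ w = p ∨ w = r := by
          intro w
          constructor
          · intro h
            rcases (hN _ _).1 h with h | h | h
            · exact absurd (left_mem_VS h.1) hu
            · rw [Sym2.eq_iff] at h
              rcases h with ⟨_, h⟩ | ⟨h, _⟩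
              · exact Or.inl h
              · exact absurd h hup
            · rw [Sym2.eq_iff] at h
              rcases h with ⟨_, h⟩ | ⟨h, _⟩
              · exact Or.inr h
              · exact absurd h hur
          · rintro (rfl | rfl)
            · exact nup
            · exact nur
        refine ⟨u, ?_, ?_, ?_⟩
        · intro w
          rw [hnu w]
          rcases hset with ⟨rfl, rfl⟩ | ⟨rfl, rfl⟩
          · rfl
          · exact or_comm
        · rcases hset with ⟨rfl, rfl⟩ | ⟨rfl, rfl⟩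
          · exact hnp
          · exact fun h => hnp h.symm
        · intro v hv w hw hvS hwS
          simp only [mem_insert, mem_singleton, not_or] at hvS hwS
          have h1 := hK.reach (S := {a, b}) (lt_of_le_of_lt card_le_two (by norm_num))
            (hVN v hv hvS.2.2) (hVN w hw hwS.2.2)
            (by rw [mem_insert, mem_singleton, not_or]; exact ⟨hvS.1, hvS.2.1⟩)
            (by rw [mem_insert, mem_singleton, not_or]; exact ⟨hwS.1, hwS.2.1⟩)
          refine h1.mono ?_
          rintro c d ⟨hcd, hc, hd⟩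
          have hcu : c ≠ u := by
            rintro rfl
            exact hu (left_mem_VS hcd)
          have hdu : d ≠ u := by
            rintro rfl
            exact hu (right_mem_VS hcd)
          rw [mem_insert, mem_singleton, not_or] at hc hd
          refine ⟨(hN _ _).2 (Or.inl ⟨hcd, ?_⟩), ?_, ?_⟩
          · rcases hset with ⟨rfl, rfl⟩ | ⟨rfl, rfl⟩
            · exact sn ⟨Or.inl hc.1, Or.inl hc.2⟩
            · exact sn ⟨Or.inl hc.2, Or.inl hc.1⟩
          · simp only [mem_insert, mem_singleton, not_or]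
            exact ⟨hc.1, hc.2, hcu⟩
          · simp only [mem_insert, mem_singleton, not_or]
            exact ⟨hd.1, hd.2, hdu⟩
      · left
        exact hB _ (lt_of_le_of_lt card_le_two (by norm_num)) huS hprS

/-- `G - x - s₀` is 3-connected if `s₀` has degree 4 and its two other neighbours are adjacent -/
theorem jd_aux (h4 : KConn 4 G) {x y a b c d p r : α} (q : Q4 G x y a b c d)
    (hna : ∀ w, G.Adj a w ↔ w = x ∨ w = y ∨ w = p ∨ w = r) {T P Q : Finset α}
    (hsep : Sep G (T ∩ VS G) P Q) (hxT : x ∈ T) (haT : a ∈ T) (hT : T.card ≤ 4)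
    (hpP : p ∉ P) (hrP : r ∉ P) (hP : P.Nonempty) (hQ : Q.Nonempty) : False := by
  have nd := q.nd
  simp only [List.nodup_cons, List.mem_cons, List.not_mem_nil, or_false, not_or,
    not_false_eq_true, List.nodup_nil, and_true] at nd
  obtain ⟨⟨hxy, hxa, hxb, hxc, hxd⟩, ⟨hya, hyb, hyc, hyd⟩, ⟨hab, hac, had⟩, ⟨hbc, hbd⟩, hcd⟩ := nd
  have hVx : x ∈ VS G := left_mem_VS ((q.nx a).2 (by simp))
  have hVa : a ∈ VS G := right_mem_VS ((q.nx a).2 (by simp))
  have hdP : ∀ v, v ∈ P → v ∉ Q := fun v hv => Finset.disjoint_left.1 hsep.2.2.2.1 hv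
  have hPT : ∀ v ∈ P, v ∉ T := by
    intro v hv hvT
    exact Finset.disjoint_left.1 hsep.2.1 (mem_inter.2 ⟨hvT, hsep.subP hv⟩) hv
  have hQT : ∀ v ∈ Q, v ∉ T := by
    intro v hv hvT
    exact Finset.disjoint_left.1 hsep.2.2.1 (mem_inter.2 ⟨hvT, hsep.subQ hv⟩) hv
  have hmem : ∀ v ∈ VS G, v ∈ T ∨ v ∈ P ∨ v ∈ Q := by
    intro v hv
    rcases hsep.mem_or hv with h | h | h
    · exact Or.inl (mem_inter.1 h).1
    · exact Or.inr (Or.inl h)
    · exact Or.inr (Or.inr h)
  obtain ⟨u₀, hu₀⟩ := hP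
  obtain ⟨w₀, hw₀⟩ := hQ
  have hyP : y ∈ P := by
    by_contra hyP
    have : P = ∅ := by
      refine nob h4 (S := T.erase a) (v := w₀) ?_ hsep.subP ?_ ?_ (hsep.subQ hw₀)
        (fun h => hdP w₀ h hw₀) (fun h => hQT w₀ hw₀ (mem_of_mem_erase h))
      · have := card_erase_lt_of_mem haT
        omega
      · intro u hu w huw
        rcases hmem w (right_mem_VS huw) with h | h | h
        · right
          rw [mem_erase]
          refine ⟨?_, h⟩
          rintro rfl
          rcases (hna u).1 huw.symm with h' | h' | h' | h'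
          · exact hPT u hu (h' ▸ hxT)
          · exact hyP (h' ▸ hu)
          · exact hpP (h' ▸ hu)
          · exact hrP (h' ▸ hu)
        · exact Or.inl h
        · exact absurd huw (hsep.2.2.2.2 u hu w h)
      · intro u hu h
        exact hPT u hu (mem_of_mem_erase h)
    rw [this] at hu₀
    simp at hu₀
  have hnQ : ∀ w, G.Adj y w → w ∉ Q := fun w hw hwQ => hsep.2.2.2.2 y hyP w hwQ hw
  have : Q = ∅ := by
    refine nob h4 (S := T.erase x) (v := u₀) ?_ hsep.subQ ?_ ?_ (hsep.subP hu₀)
      (hdP u₀ hu₀) (fun h => hPT u₀ hu₀ (mem_of_mem_erase h))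
    · have := card_erase_lt_of_mem hxT
      omega
    · intro u hu w huw
      rcases hmem w (right_mem_VS huw) with h | h | h
      · right
        rw [mem_erase]
        refine ⟨?_, h⟩
        rintro rfl
        exact hnQ u ((q.ny u).2 ((q.nx u).1 huw.symm)) hu
      · exact absurd huw.symm (hsep.2.2.2.2 w h u hu)
      · exact Or.inl h
    · intro u hu h
      exact hQT u hu (mem_of_mem_erase h)
  rw [this] at hw₀
  simp at hw₀

theorem jd (hK : K48 G) {x y a b c d p r : α} (q : Q4 G x y a b c d)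
    (hna : ∀ w, G.Adj a w ↔ w = x ∨ w = y ∨ w = p ∨ w = r) (hpr : G.Adj p r) :
    KConn 3 (del G {x, a}) := by
  have h4 := hK.1
  have hV : VS (del G {x, a}) = VS G \ {x, a} :=
    h4.VS_del (lt_of_le_of_lt card_le_two (by norm_num))
  constructor
  · rw [hV]
    have h1 := le_card_sdiff {x, a} (VS G)
    have h2 : ({x, a} : Finset α).card ≤ 2 := card_le_two
    have h3 := hK.2
    omega
  · intro S hS u hu v hv huS hvS
    rw [hV, mem_sdiff] at hu hv
    rw [del_del]
    by_contra hr
    have huT : u ∉ ({x, a} ∪ S : Finset α) := by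
      rw [mem_union, not_or]; exact ⟨hu.2, huS⟩
    have hvT : v ∉ ({x, a} ∪ S : Finset α) := by
      rw [mem_union, not_or]; exact ⟨hv.2, hvS⟩
    obtain ⟨P, Q, h1, h2, h3, _⟩ := exists_sep_of_not_reachable hu.1 hv.1 huT hvT hr
    have hcard : ({x, a} ∪ S : Finset α).card ≤ 4 := by
      have h5 := card_union_le {x, a} S
      have h6 : ({x, a} : Finset α).card ≤ 2 := card_le_two
      omega
    have hxT : x ∈ ({x, a} ∪ S : Finset α) := mem_union_left _ (by simp)
    have haT : a ∈ ({x, a} ∪ S : Finset α) := mem_union_left _ (by simp)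
    by_cases hP : p ∈ P ∨ r ∈ P
    · -- none of `p`, `r` is in `Q`
      have hpQ : p ∉ Q := by
        intro h
        rcases hP with h' | h'
        · exact Finset.disjoint_left.1 h1.2.2.2.1 h' h
        · exact h1.2.2.2.2 r h' p h hpr.symm
      have hrQ : r ∉ Q := by
        intro h
        rcases hP with h' | h'
        · exact h1.2.2.2.2 p h' r h hpr
        · exact Finset.disjoint_left.1 h1.2.2.2.1 h' h
      exact jd_aux h4 q hna h1.symm hxT haT hcard hpQ hrQ ⟨v, h3⟩ ⟨u, h2⟩
    · rw [not_or] at hP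
      exact jd_aux h4 q hna h1 hxT haT hcard hP.1 hP.2 ⟨u, h2⟩ ⟨v, h3⟩

theorem cyc_d_aux (hK : K48 G) (hNo : No34 G) {x y a b c d p r : α} (q : Q4 G x y a b c d)
    (hab' : ¬ G.Adj a b) (hbd' : G.Adj b d)
    (hna : ∀ w, G.Adj a w ↔ w = x ∨ w = y ∨ w = p ∨ w = r) (ndp : [x, y, p, r].Nodup)
    (hpr : G.Adj p r) {X : Finset α} (hbX : b ∈ X) (hdX : d ∉ X) (hXV : X ⊆ VS G)
    (hXn : ∀ u ∈ X, u ≠ x ∧ u ≠ y ∧ u ≠ a)
    (hXc : ∀ u ∈ X, ∀ w, (delE (delE (del G {x, y, a}) p r) b d).Adj u w → w ∈ X)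
    (hpX : p ∈ X) (hrX : r ∉ X) : False := by
  have h4 := hK.1
  have nd := q.nd
  simp only [List.nodup_cons, List.mem_cons, List.not_mem_nil, or_false, not_or,
    not_false_eq_true, List.nodup_nil, and_true] at nd ndp
  obtain ⟨⟨hxy, hxa, hxb, hxc, hxd⟩, ⟨hya, hyb, hyc, hyd⟩, ⟨hab, hac, had⟩, ⟨hbc, hbd⟩, hcd⟩ := nd
  obtain ⟨⟨-, hxp, hxr⟩, ⟨hyp, hyr⟩, -⟩ := ndp
  have hVx : x ∈ VS G := left_mem_VS ((q.nx a).2 (by simp))
  have hap : G.Adj a p := (hna p).2 (by simp)
  have har : G.Adj a r := (hna r).2 (by simp)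
  have hxS : ∀ u, G.Adj x u → u = a ∨ u = b ∨ u = c ∨ u = d := fun u h => (q.nx u).1 h
  have hyS : ∀ u, G.Adj y u → u = a ∨ u = b ∨ u = c ∨ u = d := fun u h => (q.ny u).1 h
  -- edges leaving `X`
  have hout : ∀ u ∈ X, ∀ w, G.Adj u w → w ∈ X ∨ w = x ∨ w = y ∨ w = a ∨ (u = b ∧ w = d) ∨
      (u = p ∧ w = r) := by
    intro u hu w huw
    by_cases hw : w = x ∨ w = y ∨ w = a
    · tauto
    · rw [not_or, not_or] at hw
      by_cases he : s(u, w) = s(b, d)
      · rw [Sym2.eq_iff] at he
        rcases he with ⟨e1, e2⟩ | ⟨e1, e2⟩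
        · exact Or.inr (Or.inr (Or.inr (Or.inr (Or.inl ⟨e1, e2⟩))))
        · exact absurd (e1 ▸ hu) hdX
      · by_cases he' : s(u, w) = s(p, r)
        · rw [Sym2.eq_iff] at he'
          rcases he' with ⟨e1, e2⟩ | ⟨e1, e2⟩
          · exact Or.inr (Or.inr (Or.inr (Or.inr (Or.inr ⟨e1, e2⟩))))
          · exact absurd (e1 ▸ hu) hrX
        · left
          refine hXc u hu w (delE_adj.2 ⟨delE_adj.2 ⟨⟨huw, ?_, ?_⟩, he'⟩, he⟩)
          · simpa only [mem_insert, mem_singleton, not_or] using hXn u hu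
          · simpa only [mem_insert, mem_singleton, not_or] using hw
  by_cases hcX : c ∈ X
  · set Y := VS G \ (X ∪ {x, y, a}) with hY
    have hYm : ∀ u, u ∈ Y ↔ u ∈ VS G ∧ u ∉ X ∧ u ≠ x ∧ u ≠ y ∧ u ≠ a := by
      intro u
      rw [hY, mem_sdiff, mem_union]
      simp only [mem_insert, mem_singleton, not_or]
    -- a neighbour of an element of `Y` different from `d`, `r`
    have hYo : ∀ u ∈ Y, u ≠ d → ∀ w, G.Adj u w → w ∈ Y ∨ (u = r ∧ (w = p ∨ w = a)) := by
      intro u hu hud w huw
      rw [hYm] at hu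
      rw [hYm]
      have hwx : w ≠ x := by
        rintro rfl
        rcases hxS u huw.symm with h | h | h | h
        · exact hu.2.2.2.2 h
        · exact hu.2.1 (h ▸ hbX)
        · exact hu.2.1 (h ▸ hcX)
        · exact hud h
      have hwy : w ≠ y := by
        rintro rfl
        rcases hyS u huw.symm with h | h | h | h
        · exact hu.2.2.2.2 h
        · exact hu.2.1 (h ▸ hbX)
        · exact hu.2.1 (h ▸ hcX)
        · exact hud h
      by_cases hwa : w = a
      · right
        refine ⟨?_, Or.inr hwa⟩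
        rw [hwa] at huw
        rcases (hna u).1 huw.symm with h | h | h | h
        · exact absurd h hu.2.2.1
        · exact absurd h hu.2.2.2.1
        · exact absurd (h ▸ hpX) hu.2.1
        · exact h
      · by_cases hwX : w ∈ X
        · rcases hout w hwX u huw.symm with h | h | h | h | h | h
          · exact absurd h hu.2.1
          · exact absurd h hu.2.2.1
          · exact absurd h hu.2.2.2.1
          · exact absurd h hu.2.2.2.2
          · exact absurd h.2 hud
          · exact Or.inr ⟨h.2, Or.inl h.1⟩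
        · exact Or.inl ⟨right_mem_VS huw, hwX, hwx, hwy, hwa⟩
    have hYd : ∀ u ∈ Y, u = d ∨ u = r := by
      have : (Y.erase d).erase r = ∅ := by
        refine nob h4 (S := {d, r}) (v := x) (lt_of_le_of_lt card_le_two (by norm_num))
          (((erase_subset _ _).trans (erase_subset _ _)).trans sdiff_subset) ?_ ?_ hVx ?_ ?_
        · intro u hu w huw
          rw [mem_erase, mem_erase] at hu
          rw [mem_erase, mem_erase, mem_insert, mem_singleton]
          rcases hYo u hu.2.2 hu.2.1 w huw with h | h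
          · tauto
          · exact absurd h.1 hu.1
        · intro u hu
          rw [mem_erase, mem_erase] at hu
          rw [mem_insert, mem_singleton, not_or]
          exact ⟨hu.2.1, hu.1⟩
        · rw [mem_erase, mem_erase, hYm]
          tauto
        · rw [mem_insert, mem_singleton, not_or]
          exact ⟨hxd, hxr⟩
      intro u hu
      by_contra hne
      rw [not_or] at hne
      have : u ∈ (Y.erase d).erase r := mem_erase.2 ⟨hne.2, mem_erase.2 ⟨hne.1, hu⟩⟩
      simp_all
    have hrY : r ∈ Y := (hYm r).2 ⟨right_mem_VS hpr, hrX, Ne.symm hxr, Ne.symm hyr, har.ne.symm⟩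
    by_cases hrd : r = d
    · -- a (3,4)-pair
      subst hrd
      apply hNo a r b x y p
      refine ⟨?_, ?_, ?_⟩
      · simp only [List.nodup_cons, List.mem_cons, List.not_mem_nil, or_false, not_or,
          not_false_eq_true, List.nodup_nil, and_true]
        have hbp : b ≠ p := by
          rintro rfl
          exact hab' hap
        exact ⟨⟨had, hab, Ne.symm hxa, Ne.symm hya, hap.ne⟩, ⟨Ne.symm hbd, Ne.symm hxr,
          Ne.symm hyr, hpr.ne.symm⟩, ⟨Ne.symm hxb, Ne.symm hyb, hbp⟩, ⟨hxy, hxp⟩, hyp⟩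
      · intro w
        rw [hna w]
        tauto
      · intro w
        constructor
        · intro hrw
          by_cases hwx : w = x
          · tauto
          by_cases hwy : w = y
          · tauto
          by_cases hwa : w = a
          · tauto
          by_cases hwX : w ∈ X
          · rcases hout w hwX r hrw.symm with h | h | h | h | h | h
            · exact absurd h hrX
            · exact absurd h.symm hxr
            · exact absurd h.symm hyr
            · exact absurd h har.ne.symm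
            · tauto
            · tauto
          · have : w ∈ Y := (hYm w).2 ⟨right_mem_VS hrw, hwX, hwx, hwy, hwa⟩
            have := hYd w this
            rw [or_self] at this
            exact absurd this.symm hrw.ne
        · rintro (rfl | rfl | rfl | rfl | rfl)
          · exact har.symm
          · exact hbd'.symm
          · exact ((q.nx r).2 (by simp)).symm
          · exact ((q.ny r).2 (by simp)).symm
          · exact hpr.symm
    · apply deg3 h4 (right_mem_VS hpr) (p := d) (q := p) (r := a)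
      intro w hrw
      rcases hYo r hrY hrd w hrw with h | h
      · rcases hYd w h with h' | h'
        · exact Or.inl h'
        · exact absurd h'.symm hrw.ne
      · exact Or.inr h.2
  · -- `X = {b, p}`
    have hbp : p ≠ b := by
      rintro rfl
      exact hab' hap
    have hXo : ∀ u ∈ X, u ≠ b → ∀ w, G.Adj u w → w ∈ X ∨ (u = p ∧ (w = r ∨ w = a)) := by
      intro u hu hub w huw
      have hwx : w ≠ x := by
        rintro rfl
        rcases hxS u huw.symm with h | h | h | h
        · exact (hXn u hu).2.2 h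
        · exact hub h
        · exact hcX (h ▸ hu)
        · exact hdX (h ▸ hu)
      have hwy : w ≠ y := by
        rintro rfl
        rcases hyS u huw.symm with h | h | h | h
        · exact (hXn u hu).2.2 h
        · exact hub h
        · exact hcX (h ▸ hu)
        · exact hdX (h ▸ hu)
      rcases hout u hu w huw with h | h | h | h | h | h
      · exact Or.inl h
      · exact absurd h hwx
      · exact absurd h hwy
      · right
        refine ⟨?_, Or.inr h⟩
        rw [h] at huw
        rcases (hna u).1 huw.symm with h' | h' | h' | h'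
        · exact absurd h' (hXn u hu).1
        · exact absurd h' (hXn u hu).2.1
        · exact h'
        · exact absurd (h' ▸ hu) hrX
      · exact absurd h.1 hub
      · exact Or.inr ⟨h.1, Or.inl h.2⟩
    have hXb : ∀ u ∈ X, u = b ∨ u = p := by
      have : (X.erase b).erase p = ∅ := by
        refine nob h4 (S := {b, p}) (v := x) (lt_of_le_of_lt card_le_two (by norm_num))
          (((erase_subset _ _).trans (erase_subset _ _)).trans hXV) ?_ ?_ hVx ?_ ?_
        · intro u hu w huw
          rw [mem_erase, mem_erase] at hu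
          rw [mem_erase, mem_erase, mem_insert, mem_singleton]
          rcases hXo u hu.2.2 hu.2.1 w huw with h | h
          · tauto
          · exact absurd h.1 hu.1
        · intro u hu
          rw [mem_erase, mem_erase] at hu
          rw [mem_insert, mem_singleton, not_or]
          exact ⟨hu.2.1, hu.1⟩
        · rw [mem_erase, mem_erase]
          intro h
          exact (hXn x h.2.2).1 rfl
        · rw [mem_insert, mem_singleton, not_or]
          exact ⟨hxb, hxp⟩
      intro u hu
      by_contra hne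
      rw [not_or] at hne
      have : u ∈ (X.erase b).erase p := mem_erase.2 ⟨hne.2, mem_erase.2 ⟨hne.1, hu⟩⟩
      simp_all
    apply deg3 h4 (left_mem_VS hpr) (p := b) (q := r) (r := a)
    intro w hpw
    rcases hXo p hpX hbp w hpw with h | h
    · rcases hXb w h with h' | h'
      · exact Or.inl h'
      · exact absurd h'.symm hpw.ne
    · exact Or.inr h.2

theorem cyc_d (hK : K48 G) (hNo : No34 G) {x y a b c d p r : α} (q : Q4 G x y a b c d)
    (hab' : ¬ G.Adj a b) (hbd' : G.Adj b d)
    (hna : ∀ w, G.Adj a w ↔ w = x ∨ w = y ∨ w = p ∨ w = r) (ndp : [x, y, p, r].Nodup)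
    (hpr : G.Adj p r) : (delE (delE (del G {x, y, a}) p r) b d).Reachable b d := by
  by_contra hr
  have hle : delE (delE (del G {x, y, a}) p r) b d ≤ del G {x, y, a} :=
    (delE_le _ _ _).trans (delE_le _ _ _)
  obtain ⟨X, hbX, hdX, hXV, hXn, hXc⟩ := side q hle hr
  have h1 : ¬ (p ∈ X ↔ r ∈ X) := by
    intro hpr'
    have := cyc_b hK q hab'
    apply hdX
    refine mem_of_reachable (X := {w | w ∈ X}) this hbX ?_
    intro u w huw hu
    rw [delE_adj] at huw
    by_cases he : s(u, w) = s(p, r)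
    · rw [Sym2.eq_iff] at he
      rcases he with ⟨rfl, rfl⟩ | ⟨rfl, rfl⟩
      · exact hpr'.1 hu
      · exact hpr'.2 hu
    · exact hXc u hu w (delE_adj.2 ⟨delE_adj.2 ⟨huw.1, he⟩, huw.2⟩)
  by_cases hpX : p ∈ X
  · have hrX : r ∉ X := fun h => h1 ⟨fun _ => h, fun _ => hpX⟩
    exact cyc_d_aux hK hNo q hab' hbd' hna ndp hpr hbX hdX hXV hXn hXc hpX hrX
  · have hrX : r ∈ X := by
      by_contra h
      exact h1 ⟨fun h' => absurd h' hpX, fun h' => absurd h' h⟩
    rw [delE_comm _ p r] at hXc
    refine cyc_d_aux hK hNo q hab' hbd' (fun w => by rw [hna w]; tauto) ?_ hpr.symm hbX hdX hXV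
      hXn hXc hrX hpX
    simp only [List.nodup_cons, List.mem_cons, List.not_mem_nil, or_false, not_or,
      not_false_eq_true, List.nodup_nil, and_true] at ndp ⊢
    obtain ⟨⟨h1, h2, h3⟩, ⟨h4, h5⟩, h6⟩ := ndp
    exact ⟨⟨h1, h3, h2⟩, ⟨h5, h4⟩, Ne.symm h6⟩

/-! ## The 2-cycle `z'` -/

theorem exz (hLPE : SpecLPE) (hKUR : SpecKUR) (hK : K48 G) (hNo : No34 G) {x y a b c d : α}
    (q : Q4 G x y a b c d) (hab' : ¬ G.Adj a b) (hbd' : G.Adj b d) :
    ∃ z', IsZ2 (del G {x}) z' ∧ z' s(y, a) s(b, d) = 1 := by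
  have h4 := hK.1
  have nd := q.nd
  simp only [List.nodup_cons, List.mem_cons, List.not_mem_nil, or_false, not_or,
    not_false_eq_true, List.nodup_nil, and_true] at nd
  obtain ⟨⟨hxy, hxa, hxb, hxc, hxd⟩, ⟨hya, hyb, hyc, hyd⟩, ⟨hab, hac, had⟩, ⟨hbc, hbd⟩, hcd⟩ := nd
  have hset : ({x} ∪ {y, a} : Finset α) = {x, y, a} := rfl
  have hya' : G.Adj y a := (q.ny a).2 (by simp)
  have hKbd : (del G {x, y, a}).Adj b d := by
    refine ⟨hbd', ?_, ?_⟩
    · simp only [mem_insert, mem_singleton, not_or]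
      exact ⟨Ne.symm hxb, Ne.symm hyb, Ne.symm hab⟩
    · simp only [mem_insert, mem_singleton, not_or]
      exact ⟨Ne.symm hxd, Ne.symm hyd, Ne.symm had⟩
  have hJya : (del G {x}).Adj y a := ⟨hya', by simpa using Ne.symm hxy, by simpa using Ne.symm hxa⟩
  rcases s3s_c h4 q with hS | ⟨p, r, hna, ndp, hpr⟩
  · -- `J - ys₀` is S3S
    obtain ⟨P, hP⟩ := exists_isPth (cyc_b hK q hab')
    rw [isPth_delE] at hP
    have hC := hP.1.isCyc hKbd hP.2
    have hV : ∀ v, (∃ w, G.Adj v w ∧ v ≠ x ∧ w ≠ x ∧ s(v, w) ≠ s(y, a)) →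
        v ∈ VS (delE (del G {x}) y a) := by
      rintro v ⟨w, h1, h2, h3, h4⟩
      exact mem_VS.2 ⟨w, delE_adj.2 ⟨⟨h1, by simpa using h2, by simpa using h3⟩, h4⟩⟩
    have hVa : a ∈ VS (delE (del G {x}) y a) := by
      have hJ3 : KConn 3 (del G {x}) := h4.del_vertex (by norm_num) x
      rw [VS_delE fun v hv => le_trans (by norm_num) (hJ3.le_nbs hv)]
      exact right_mem_VS hJya
    obtain ⟨z', hz', hz''⟩ := hLPE.edge hJya hS
      (hV y ⟨b, (q.ny b).2 (by simp), Ne.symm hxy, Ne.symm hxb, sn (by grind)⟩) hVa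
      (chi (insert s(b, d) P)) (by
        rw [del_del, hset]
        exact hC.chi_mem)
    exact ⟨z', hz', by rw [hz'', chi_of_mem (mem_insert_self _ _)]⟩
  · -- `s₀` has degree 4
    obtain ⟨P, hP⟩ := exists_isPth (cyc_d hK hNo q hab' hbd' hna ndp hpr)
    rw [isPth_delE] at hP
    have hap : G.Adj a p := (hna p).2 (by simp)
    have har : G.Adj a r := (hna r).2 (by simp)
    have nd2 := ndp
    simp only [List.nodup_cons, List.mem_cons, List.not_mem_nil, or_false, not_or,
      not_false_eq_true, List.nodup_nil, and_true] at nd2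
    obtain ⟨⟨-, hxp, hxr⟩, ⟨hyp, hyr⟩, -⟩ := nd2
    have hbp : b ≠ p := by
      rintro rfl
      exact hab' hap
    have hbr : b ≠ r := by
      rintro rfl
      exact hab' har
    have hC : IsCyc (delE (del G {x, y, a}) p r) (insert s(b, d) P) :=
      hP.1.isCyc (delE_adj.2 ⟨hKbd, sn ⟨Or.inl hbp, Or.inl hbr⟩⟩) hP.2
    have hna1 : s(y, a) ≠ s(p, r) := sn ⟨Or.inl hyp, Or.inl hyr⟩
    have hJ' : (delE (del G {x}) p r).Adj y a := delE_adj.2 ⟨hJya, hna1⟩
    have hKx : KConn 3 (del G {x, a}) := jd hK q hna hpr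
    have hKpr : (del G {x, a}).Adj p r := by
      refine ⟨hpr, ?_, ?_⟩
      · rw [mem_insert, mem_singleton, not_or]; exact ⟨Ne.symm hxp, hap.ne.symm⟩
      · rw [mem_insert, mem_singleton, not_or]; exact ⟨Ne.symm hxr, har.ne.symm⟩
    have haV : a ∉ VS (del G {x, a}) := by
      intro h
      have := mem_sdiff.1 (VS_del_subset _ h)
      simp at this
    have hadj : ∀ v w, (delE (delE (del G {x}) p r) y a).Adj v w ↔
        ((del G {x, a}).Adj v w ∧ s(v, w) ≠ s(p, r)) ∨ s(v, w) = s(a, p) ∨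
          s(v, w) = s(a, r) := by
      intro v w
      rw [delE_adj, delE_adj, del_adj, del_adj]
      simp only [mem_insert, mem_singleton, not_or]
      constructor
      · rintro ⟨⟨⟨h1, h2, h3⟩, h5⟩, h6⟩
        by_cases hva : v = a
        · rw [hva] at h1 h6 ⊢
          rcases (hna w).1 h1 with h | h | h | h
          · exact absurd h h3
          · exact absurd (by rw [h]; exact Sym2.eq_swap) h6
          · exact Or.inr (Or.inl (by rw [h]))
          · exact Or.inr (Or.inr (by rw [h]))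
        · by_cases hwa : w = a
          · rw [hwa] at h1 h6 ⊢
            rcases (hna v).1 h1.symm with h | h | h | h
            · exact absurd h h2
            · exact absurd (by rw [h]) h6
            · exact Or.inr (Or.inl (by rw [h]; exact Sym2.eq_swap))
            · exact Or.inr (Or.inr (by rw [h]; exact Sym2.eq_swap))
          · exact Or.inl ⟨⟨h1, ⟨h2, hva⟩, h3, hwa⟩, h5⟩
      · rintro (⟨⟨h1, ⟨h2, h3⟩, h5, h6⟩, h7⟩ | h | h)
        · exact ⟨⟨⟨h1, h2, h5⟩, h7⟩, sn ⟨Or.inr h6, Or.inl h3⟩⟩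
        · have h1 : G.Adj v w := by
            have : s(v, w) ∈ G.edgeSet := by rw [h]; exact hap
            exact this
          have h2 : v ≠ x ∧ w ≠ x := by
            rw [Sym2.eq_iff] at h
            rcases h with ⟨rfl, rfl⟩ | ⟨rfl, rfl⟩
            · exact ⟨Ne.symm hxa, Ne.symm hxp⟩
            · exact ⟨Ne.symm hxp, Ne.symm hxa⟩
          refine ⟨⟨⟨h1, h2⟩, ?_⟩, ?_⟩
          · rw [h]; exact sn ⟨Or.inl hap.ne, Or.inl har.ne⟩
          · rw [h]; exact sn ⟨Or.inl (Ne.symm hya), Or.inr (Ne.symm hyp)⟩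
        · have h1 : G.Adj v w := by
            have : s(v, w) ∈ G.edgeSet := by rw [h]; exact har
            exact this
          have h2 : v ≠ x ∧ w ≠ x := by
            rw [Sym2.eq_iff] at h
            rcases h with ⟨rfl, rfl⟩ | ⟨rfl, rfl⟩
            · exact ⟨Ne.symm hxa, Ne.symm hxr⟩
            · exact ⟨Ne.symm hxr, Ne.symm hxa⟩
          refine ⟨⟨⟨h1, h2⟩, ?_⟩, ?_⟩
          · rw [h]; exact sn ⟨Or.inl hap.ne, Or.inl har.ne⟩
          · rw [h]; exact sn ⟨Or.inl (Ne.symm hya), Or.inr (Ne.symm hyr)⟩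
    have hS : S3S (delE (delE (del G {x}) p r) y a) := sub_s3s hKx hKpr haV hadj
    have hVa : a ∈ VS (delE (delE (del G {x}) p r) y a) :=
      left_mem_VS ((hadj a p).2 (Or.inr (Or.inl rfl)))
    have hVy : y ∈ VS (delE (delE (del G {x}) p r) y a) := by
      refine left_mem_VS (b := b) (delE_adj.2 ⟨delE_adj.2 ⟨⟨(q.ny b).2 (by simp), ?_, ?_⟩, ?_⟩, ?_⟩)
      · simpa using Ne.symm hxy
      · simpa using Ne.symm hxb
      · exact sn ⟨Or.inl hyp, Or.inl hyr⟩
      · exact sn ⟨Or.inr (Ne.symm hab), Or.inl hya⟩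
    obtain ⟨z', hz', hz''⟩ := hLPE.edge hJ' hS hVy hVa (chi (insert s(b, d) P)) (by
      have e : del (delE (del G {x}) p r) {y, a} = delE (del G {x, y, a}) p r := by
        ext v w
        rw [del_adj, delE_adj, del_adj, delE_adj, del_adj]
        simp only [mem_insert, mem_singleton, not_or]
        tauto
      rw [e]
      exact hC.chi_mem)
    exact ⟨z', hKUR.zmono (delE_le _ _ _) hz', by rw [hz'', chi_of_mem (mem_insert_self _ _)]⟩

/-! ## The tori -/

theorem cyc4 {x y a b c d : α} (q : Q4 G x y a b c d) {e : α} (he : e = b ∨ e = d) :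
    IsCyc G {s(x, a), s(x, e), s(e, y), s(y, a)} := by
  have nd := q.nd
  simp only [List.nodup_cons, List.mem_cons, List.not_mem_nil, or_false, not_or,
    not_false_eq_true, List.nodup_nil, and_true] at nd
  obtain ⟨⟨hxy, hxa, hxb, hxc, hxd⟩, ⟨hya, hyb, hyc, hyd⟩, ⟨hab, hac, had⟩, ⟨hbc, hbd⟩, hcd⟩ := nd
  have hxe : x ≠ e := by rcases he with rfl | rfl <;> assumption
  have hye : y ≠ e := by rcases he with rfl | rfl <;> assumption
  have hae : a ≠ e := by rcases he with rfl | rfl <;> assumption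
  have axe : G.Adj x e := (q.nx e).2 (by tauto)
  have aye : G.Adj y e := (q.ny e).2 (by tauto)
  have axa : G.Adj x a := (q.nx a).2 (by simp)
  have aya : G.Adj y a := (q.ny a).2 (by simp)
  have h1 : IsPth G y a {s(y, a)} := IsPth.edge aya
  have h2 : IsPth G e a (insert s(e, y) {s(y, a)}) := h1.cons aye.symm (by
    rw [vs_singleton, mem_insert, mem_singleton, not_or]
    exact ⟨Ne.symm hye, Ne.symm hae⟩)
  have h3 : IsPth G x a (insert s(x, e) (insert s(e, y) {s(y, a)})) := h2.cons axe (by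
    rw [vs_insert, vs_singleton]
    simp only [mem_union, mem_insert, mem_singleton, not_or]
    exact ⟨⟨hxe, hxy⟩, hxy, hxa⟩)
  have h4 := h3.isCyc axa (by
    simp only [mem_insert, mem_singleton, not_or]
    exact ⟨sn ⟨Or.inr hae, Or.inl hxe⟩, sn ⟨Or.inl hxe, Or.inl hxy⟩, sn ⟨Or.inl hxy, Or.inl hxa⟩⟩)
  exact h4

/-- support of an element of `Z1 (del (del G {x, y, a}) {e})` -/
theorem supp {x y a e : α} {ν : Chain α} (hν : ν ∈ Z1 (del (del G {x, y, a}) {e})) :
    ∀ f v, ν f ≠ 0 → v ∈ f → v ∈ (univ \ {x, y, a, e} : Finset α) := by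
  intro f v hf hv
  have h1 := hν.1 f hf
  induction f using Sym2.ind with
  | _ u w =>
    obtain ⟨⟨h2, h3, h4⟩, h5, h6⟩ := h1
    rw [mem_sdiff]
    refine ⟨mem_univ _, ?_⟩
    rw [Sym2.mem_iff] at hv
    simp only [mem_insert, mem_singleton, not_or] at h3 h4 h5 h6 ⊢
    rcases hv with rfl | rfl
    · exact ⟨h3.1, h3.2.1, h3.2.2, h5⟩
    · exact ⟨h4.1, h4.2.1, h4.2.2, h6⟩

/-- one torus -/
theorem torus (hKUR : SpecKUR) (hVKA : SpecVKA) {x y a b c d : α} (q : Q4 G x y a b c d) {e : α}
    (he : e = b ∨ e = d) {ν : Chain α} (hν : ν ∈ Z1 (del (del G {x, y, a}) {e})) {r : α → ℕ}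
    (hr : Function.Injective r) : ∃ t, IsZ2 G t ∧ vk r t = 0 ∧ (∀ f, t s(y, a) f = ν f) ∧
      ∀ f, t s(x, c) f = 0 := by
  have nd := q.nd
  simp only [List.nodup_cons, List.mem_cons, List.not_mem_nil, or_false, not_or,
    not_false_eq_true, List.nodup_nil, and_true] at nd
  obtain ⟨⟨hxy, hxa, hxb, hxc, hxd⟩, ⟨hya, hyb, hyc, hyd⟩, ⟨hab, hac, had⟩, ⟨hbc, hbd⟩, hcd⟩ := nd
  have hxe : x ≠ e := by rcases he with rfl | rfl <;> assumption
  have hce : c ≠ e := by rcases he with rfl | rfl <;> [exact Ne.symm hbc; exact hcd]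
  have hC := cyc4 q he
  have hs := supp hν
  have hνG : ν ∈ Z1 G := Z1_mono ((del_le _ _).trans (del_le _ _)) hν
  have hP : ∀ f v, chi ({s(x, a), s(x, e), s(e, y), s(y, a)} : Finset (Sym2 α)) f ≠ 0 → v ∈ f →
      v ∈ ({x, y, a, e} : Finset α) := by
    intro f v hf hv
    rw [chi_ne_zero] at hf
    simp only [mem_insert, mem_singleton] at hf ⊢
    rcases hf with rfl | rfl | rfl | rfl <;> rw [Sym2.mem_iff] at hv <;> tauto
  have hD : Disjoint ({x, y, a, e} : Finset α) (univ \ {x, y, a, e}) := disjoint_sdiff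
  refine ⟨tor (chi {s(x, a), s(x, e), s(e, y), s(y, a)}) ν,
    hKUR.tor _ _ hC.chi_mem hνG hP hs hD, hVKA.tor _ _ hr hC.chi_mem hνG hP hs hD, ?_, ?_⟩
  · intro f
    have h1 : ν s(y, a) = 0 := by
      by_contra h
      have := hs _ y h (Sym2.mem_mk_left _ _)
      simp at this
    rw [tor, h1, zero_mul, add_zero, chi_of_mem (by simp), one_mul]
  · intro f
    have h1 : ν s(x, c) = 0 := by
      by_contra h
      have := hs _ x h (Sym2.mem_mk_left _ _)
      simp at this
    rw [tor, h1, zero_mul, add_zero, chi_of_notMem, zero_mul]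
    simp only [mem_insert, mem_singleton, not_or]
    exact ⟨sn ⟨Or.inr (Ne.symm hac), Or.inl hxa⟩, sn ⟨Or.inr hce, Or.inl hxe⟩,
      sn ⟨Or.inl hxe, Or.inl hxy⟩, sn ⟨Or.inl hxy, Or.inl hxa⟩⟩

end DL.E5MM

namespace DL

open TWRM E5MM

/-- **E5M.** -/
theorem specE5M (hVKA : SpecVKA) (hNCN : SpecNCN) (hKUR : SpecKUR) (hSTA : SpecSTA)
    (hLPE : SpecLPE) : SpecE5M := by
  intro α _ _ G x y s Z hK hNo hTW hnp hGam
  have q := q4 hTW
  have hab' := hNCN.nadj hnp hGam
  obtain ⟨_, _, _, hZ, r, z₀, hr, hz₀, hvk, hza, hzb, hz0⟩ := hGam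
  have nd := q.nd
  simp only [List.nodup_cons, List.mem_cons, List.not_mem_nil, or_false, not_or,
    not_false_eq_true, List.nodup_nil, and_true] at nd
  generalize s 0 = a at *
  generalize s 1 = b at *
  generalize s 2 = c at *
  generalize s 3 = d at *
  obtain ⟨⟨hxy, hxa, hxb, hxc, hxd⟩, ⟨hya, hyb, hyc, hyd⟩, ⟨hab, hac, had⟩, ⟨hbc, hbd⟩, hcd⟩ := nd
  have hset : ({x} ∪ {y, a} : Finset α) = {x, y, a} := rfl
  have hZya : Z s(y, a) = 0 := by
    by_contra h
    have := (hZ.1 _ h).2.2
    simp at this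
  -- `μ₀`
  have hμ₀ : z₀ s(y, a) ∈ Z1 (del G {x, y, a}) := by
    have h1 := hKUR.row y a hz₀
    refine ⟨fun e he => ?_, h1.2⟩
    have h2 := h1.1 e he
    induction e using Sym2.ind with
    | _ u w =>
      have hx0 : ∀ v, z₀ s(y, a) s(x, v) = 0 := by
        intro v
        rw [hz₀.1]
        by_cases hva : v = a
        · rw [hva, hza, hZya]
        · by_cases hvb : v = b
          · rw [hvb, hzb, hZya]
          · rw [hz0 v hva hvb]
            rfl
      have hux : u ≠ x := by
        rintro rfl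
        exact he (hx0 w)
      have hwx : w ≠ x := by
        rintro rfl
        exact he (by rw [Sym2.eq_swap (a := u)]; exact hx0 u)
      obtain ⟨h3, h4, h5⟩ := h2
      refine ⟨h3, ?_, ?_⟩ <;> simp only [mem_insert, mem_singleton, not_or] at h4 h5 ⊢
      · exact ⟨hux, h4⟩
      · exact ⟨hwx, h5⟩
  -- `z'`
  obtain ⟨z', hz', hz'0⟩ : ∃ z', IsZ2 (del G {x}) z' ∧
      (z₀ s(y, a) + z' s(y, a)) s(b, d) = 0 := by
    by_cases h : z₀ s(y, a) s(b, d) = 0
    · refine ⟨fun _ _ => 0, ⟨fun _ _ => rfl, fun _ _ h => absurd rfl h, fun _ _ _ => by simp⟩, ?_⟩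
      rw [Pi.add_apply, h, add_zero]
    · have hbd' : G.Adj b d := (hμ₀.1 _ h).1
      obtain ⟨z', h1, h2⟩ := exz hLPE hKUR hK hNo q hab' hbd'
      refine ⟨z', h1, ?_⟩
      rw [Pi.add_apply, zmod2_ne_zero.1 h, h2]
      decide
  have hμ' : z' s(y, a) ∈ Z1 (del G {x, y, a}) := by
    have := hKUR.row y a hz'
    rwa [del_del, hset] at this
  obtain ⟨ν₁, h1, ν₃, h3, hν⟩ := spl hSTA hK.1 q ((Z1 _).add_mem hμ₀ hμ') hz'0
  obtain ⟨t₁, ht₁, htv₁, hta₁, htc₁⟩ := torus hKUR hVKA q (Or.inl rfl) h1 hr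
  obtain ⟨t₃, ht₃, htv₃, hta₃, htc₃⟩ := torus hKUR hVKA q (Or.inr rfl) h3 hr
  have hz'G : IsZ2 G z' := hKUR.zmono (del_le _ _) hz'
  have hz'v : vk r z' = 0 := by
    by_contra h
    exact hnp ⟨r, hr, z', hz', h⟩
  have hz'x : ∀ f, z' s(x, c) f = 0 := by
    intro f
    by_contra h
    have := (hz'.2.1 _ _ h).1
    have := this.2.1
    simp at this
  have hzz := hKUR.zadd (hKUR.zadd (hKUR.zadd hz₀ hz'G) ht₁) ht₃
  have hvv : vk r (fun e f => (z₀ e f + z' e f + t₁ e f) + t₃ e f) = vk r z₀ := by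
    rw [hVKA.add r (fun e f => z₀ e f + z' e f + t₁ e f) t₃,
      hVKA.add r (fun e f => z₀ e f + z' e f) t₁, hVKA.add r z₀ z', hz'v, htv₁, htv₃, add_zero,
      add_zero, add_zero]
  have hrow : ∀ f, (z₀ s(x, c) f + z' s(x, c) f + t₁ s(x, c) f) + t₃ s(x, c) f = 0 := by
    intro f
    rw [htc₁, htc₃, hz'x, hz0 c (Ne.symm hac) (Ne.symm hbc)]
    simp
  have hrow' : ∀ f, (z₀ s(y, a) f + z' s(y, a) f + t₁ s(y, a) f) + t₃ s(y, a) f = 0 := by
    intro f
    have : z₀ s(y, a) f + z' s(y, a) f = ν₁ f + ν₃ f := congrFun hν f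
    rw [hta₁, hta₃, this, add_assoc]
    exact zmod2_add_self _
  have h5 := hKUR.del hzz hrow
  have h6 := hKUR.del h5 hrow'
  exact ⟨r, hr, _, h6, by rw [hvv]; exact hvk⟩

end DL
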