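import Pool.Agent.DL.E.Spec5
import Pool.Agent.DL.NP.PAI

/-!
# Module E5N (helper72): D-pair graphs of twins are nonplanar if `G - x` is
-/

open SimpleGraph Finset

namespace DL

namespace E5NM

variable {α : Type} [Fintype α] [DecidableEq α] {G : SimpleGraph α} {x y : α} {s : Fin 4 → α}

theorem few3 {D : Finset α} {a b c r : α} (hG : KConn 4 G) (hD : D ⊆ VS G) (h0 : D.Nonempty)
    (h : ∀ v ∈ D, ∀ w, G.Adj v w → w ∈ D ∨ w = a ∨ w = b ∨ w = c) (hr : r ∈ VS G) (hrD : r ∉ D)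
    (ha : r ≠ a) (hb : r ≠ b) (hc : r ≠ c) : False := by
  have hsub : NB G D ⊆ {a, b, c} := by
    intro w hw
    obtain ⟨h1, v, hv, hvw⟩ := NBFM.mem_NB.1 hw
    simp only [mem_insert, mem_singleton]
    exact (h v hv w hvw).resolve_left h1
  have hcard : (NB G D).card < 4 :=
    lt_of_le_of_lt (card_le_card hsub) (lt_of_le_of_lt card_le_three (by norm_num))
  have h1 := NBFM.nb hG hD h0 hcard hr
  rw [mem_union] at h1
  rcases h1 with h1 | h1
  · exact hrD h1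
  · have := hsub h1
    simp only [mem_insert, mem_singleton] at this
    tauto

/-- all vertices of `G - {x, y, s₀, s₁, s₃}` are connected with `s₂` -/
theorem reach (hG : K48 G) (ht : TW G x y s) {a : α} (ha : a ∈ VS G)
    (haT : a ∉ ({x, y, s 0, s 1, s 3} : Finset α)) :
    (del G {x, y, s 0, s 1, s 3}).Reachable a (s 2) := by
  classical
  by_contra hr
  set T : Finset α := {x, y, s 0, s 1, s 3} with hT
  have hnot : ∀ v, (del G T).Reachable a v → v ∉ T := by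
    intro v hv
    exact reachable_del_notMem_left hv.symm haT
  set C : Finset α := (VS G).filter fun v => (del G T).Reachable a v with hC
  have hmem : ∀ v, v ∈ C ↔ v ∈ VS G ∧ (del G T).Reachable a v := fun v => by
    rw [hC, mem_filter]
  have hxT : x ∈ T := by rw [hT]; simp
  have hx : x ∈ VS G := left_mem_VS ((ht.nx _).2 ⟨0, rfl⟩)
  refine few3 (D := C) (a := s 0) (b := s 1) (c := s 3) (r := x) hG.1
    (fun v hv => ((hmem v).1 hv).1) ⟨a, (hmem a).2 ⟨ha, Reachable.refl _⟩⟩ ?_ hx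
    (fun h => hnot x ((hmem x).1 h).2 hxT) (ht.sx 0).1.symm (ht.sx 1).1.symm (ht.sx 3).1.symm
  intro v hv w hvw
  have hv' := (hmem v).1 hv
  have hvT := hnot v hv'.2
  have hvs : ∀ i, v ≠ s i := by
    intro i hi
    fin_cases i
    · exact hvT (by rw [hi, hT]; simp)
    · exact hvT (by rw [hi, hT]; simp)
    · exact hr (hi ▸ hv'.2)
    · exact hvT (by rw [hi, hT]; simp)
  have hwx : w ≠ x := by
    rintro rfl
    obtain ⟨i, hi⟩ := (ht.nx v).1 hvw.symm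
    exact hvs i hi
  have hwy : w ≠ y := by
    rintro rfl
    obtain ⟨i, hi⟩ := (ht.ny v).1 hvw.symm
    exact hvs i hi
  by_cases hwT : w ∈ T
  · rw [hT] at hwT
    simp only [mem_insert, mem_singleton] at hwT
    tauto
  · left
    exact (hmem w).2 ⟨right_mem_VS hvw, hv'.2.trans (Adj.reachable ⟨hvw, hvT, hwT⟩)⟩

theorem conn (hG : K48 G) (ht : TW G x y s) :
    ConnOff (del (del G {x}) {y, s 0}) {s 1, s 3} := by
  have e : del (del (del G {x}) {y, s 0}) {s 1, s 3} = del G {x, y, s 0, s 1, s 3} := by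
    rw [del_del, del_del]
    congr 1
    ext v
    simp only [mem_union, mem_insert, mem_singleton]
    tauto
  have key : ∀ v ∈ VS (del (del G {x}) {y, s 0}), v ∉ ({s 1, s 3} : Finset α) →
      (del G {x, y, s 0, s 1, s 3}).Reachable v (s 2) := by
    intro v hv hv'
    obtain ⟨w, hw⟩ := mem_VS.1 hv
    refine reach hG ht (left_mem_VS hw.1.1) ?_
    have h1 := hw.2.1
    have h2 := hw.1.2.1
    simp only [mem_insert, mem_singleton, not_or] at h1 h2 hv' ⊢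
    exact ⟨h2, h1.1, h1.2, hv'.1, hv'.2⟩
  intro a ha b hb haS hbS
  rw [e]
  exact (key a ha haS).trans (key b hb hbS).symm

/-- every linear functional on chains is given by coefficients -/
lemma functional (φ : Chain α →ₗ[ZMod 2] ZMod 2) :
    ∃ a : Chain α, ∀ Z : Chain α, φ Z = ∑ e, a e * Z e := by
  classical
  refine ⟨fun e => φ (Pi.single e 1), fun Z => ?_⟩
  have h : Z = ∑ e, Z e • (Pi.single e (1 : ZMod 2) : Chain α) := by
    funext e'
    rw [Finset.sum_apply, Finset.sum_eq_single e']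
    · simp
    · intro e _ hne
      simp [Ne.symm hne]
    · intro h
      exact absurd (mem_univ _) h
  conv_lhs => rw [h]
  rw [map_sum]
  refine sum_congr rfl fun e _ => ?_
  rw [map_smul, smul_eq_mul, mul_comm]

theorem split (hSTA : SpecSTA) {J : SimpleGraph α} {l m : α} (hlm : l ≠ m)
    (hc : ConnOff J {l, m}) (hn : ¬ J.Adj l m) {μ : Chain α} (hμ : μ ∈ Z1 J) :
    ∃ ν₁ ∈ Z1 (del J {l}), ∃ ν₂ ∈ Z1 (del J {m}), μ = ν₁ + ν₂ := by
  by_contra hno
  have hcV : μ ∉ Z1 (del J {l}) ⊔ Z1 (del J {m}) := by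
    intro h
    rw [Submodule.mem_sup] at h
    obtain ⟨ν₁, h1, ν₂, h2, e⟩ := h
    exact hno ⟨ν₁, h1, ν₂, h2, e.symm⟩
  obtain ⟨φ, hφc, hφV⟩ := Submodule.exists_le_ker_of_notMem hcV
  obtain ⟨a, ha⟩ := functional φ
  obtain ⟨κ, hκ, hκZ⟩ := hSTA J l m hlm hc a
    (fun Z hZ => by rw [← ha]; exact hφV (Submodule.mem_sup_left hZ))
    (fun Z hZ => by rw [← ha]; exact hφV (Submodule.mem_sup_right hZ))
  have hκ0 : κ = 0 := by
    by_contra h
    exact hn (hκ h)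
  apply hφc
  rw [ha, hκZ μ hμ, hκ0, zero_mul]

/-- the 4-cycle `x s_i y s_j` -/
noncomputable def tt (x y a b : α) : Chain α :=
  chi {s(x, a), s(a, y)} + chi {s(x, b), s(b, y)}

theorem path2 {a b c : α} (h : G.Adj a b) (h' : G.Adj b c) (hac : a ≠ c) :
    IsPth G a c {s(a, b), s(b, c)} := by
  refine (IsPth.edge h').cons h ?_
  rw [vs_singleton, mem_insert, mem_singleton, not_or]
  exact ⟨h.ne, hac⟩

theorem tt_mem {a b : α} (hxy : x ≠ y) (h1 : G.Adj x a) (h2 : G.Adj y a) (h3 : G.Adj x b)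
    (h4 : G.Adj y b) : tt x y a b ∈ Z1 G :=
  (path2 h1 h2.symm hxy).chi_add_mem (path2 h3 h4.symm hxy)

theorem tt_ne {a b : α} {e : Sym2 α} (h : tt x y a b e ≠ 0) :
    e = s(x, a) ∨ e = s(a, y) ∨ e = s(x, b) ∨ e = s(b, y) := by
  by_contra hc
  apply h
  rw [tt, Pi.add_apply, chi_of_notMem, chi_of_notMem, add_zero]
  · rw [mem_insert, mem_singleton]
    tauto
  · rw [mem_insert, mem_singleton]
    tauto

theorem tt_supp {a b : α} : ∀ (e : Sym2 α) (v : α), tt x y a b e ≠ 0 → v ∈ e →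
    v ∈ ({x, y, a, b} : Finset α) := by
  intro e v h hv
  simp only [mem_insert, mem_singleton]
  rcases tt_ne h with rfl | rfl | rfl | rfl <;> rw [Sym2.mem_iff] at hv <;> tauto

theorem tt_one {a b : α} (hya : y ≠ a) (hab : a ≠ b) (hxy : x ≠ y) (hxa : x ≠ a) :
    tt x y a b s(y, a) = 1 := by
  rw [tt, Pi.add_apply, chi_of_mem, chi_of_notMem, add_zero]
  · rw [mem_insert, mem_singleton, Sym2.eq_iff, Sym2.eq_iff]
    rintro ((⟨h, _⟩ | ⟨_, h⟩) | (⟨_, h⟩ | ⟨_, h⟩))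
    · exact hxy h.symm
    · exact hxa h.symm
    · exact hya h.symm
    · exact hab h
  · rw [mem_insert, mem_singleton]
    right
    exact Sym2.eq_swap

theorem tt_zero {a b c : α} (hca : c ≠ a) (hcb : c ≠ b) (hxy : x ≠ y) (hxa : x ≠ a)
    (hxb : x ≠ b) : tt x y a b s(x, c) = 0 := by
  by_contra h
  rcases tt_ne h with h | h | h | h <;> rw [Sym2.eq_iff] at h
  · rcases h with ⟨_, h⟩ | ⟨h, _⟩
    · exact hca h
    · exact hxa h
  · rcases h with ⟨h, _⟩ | ⟨h, _⟩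
    · exact hxa h
    · exact hxy h
  · rcases h with ⟨_, h⟩ | ⟨h, _⟩
    · exact hcb h
    · exact hxb h
  · rcases h with ⟨h, _⟩ | ⟨h, _⟩
    · exact hxb h
    · exact hxy h

theorem del_mem {S : Finset α} {Z : Chain α} (hZ : Z ∈ Z1 (del G S)) {e : Sym2 α} {v : α}
    (he : Z e ≠ 0) (hv : v ∈ e) : v ∉ S := by
  have h1 := hZ.1 e he
  obtain ⟨w, rfl⟩ := Sym2.mem_iff_exists.1 hv
  exact h1.2.1

theorem del_zero {S : Finset α} {Z : Chain α} (hZ : Z ∈ Z1 (del G S)) {e : Sym2 α} {v : α}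
    (hv : v ∈ e) (hS : v ∈ S) : Z e = 0 := by
  by_contra he
  exact del_mem hZ he hv hS

end E5NM

open E5NM in
theorem specE5N (hVKA : SpecVKA) (hKUR : SpecKUR) (hSTA : SpecSTA) : SpecE5N := by
  intro α _ _ G x y s hG ht hNP h13
  obtain ⟨r, hr, z, hz, hvk⟩ := hNP
  have hxs : ∀ i, G.Adj x (s i) := fun i => (ht.nx _).2 ⟨i, rfl⟩
  have hys : ∀ i, G.Adj y (s i) := fun i => (ht.ny _).2 ⟨i, rfl⟩
  have hne : ∀ {i j : Fin 4}, i ≠ j → s i ≠ s j := fun h e => h (ht.inj e)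
  have hμ := hKUR.row y (s 0) hz
  obtain ⟨ν₁, hν₁, ν₃, hν₃, hsum⟩ := split hSTA (l := s 1) (m := s 3) (hne (by decide))
    (conn hG ht) (fun h => h13 h.1.1) hμ
  rw [del_del, del_del] at hν₁ hν₃
  -- the two tori
  set t₁ := tt x y (s 0) (s 1) with ht₁
  set t₃ := tt x y (s 0) (s 3) with ht₃
  have m1 : t₁ ∈ Z1 G := tt_mem ht.xy (hxs 0) (hys 0) (hxs 1) (hys 1)
  have m3 : t₃ ∈ Z1 G := tt_mem ht.xy (hxs 0) (hys 0) (hxs 3) (hys 3)
  have n1 : ν₁ ∈ Z1 G := Z1_mono (del_le _ _) hν₁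
  have n3 : ν₃ ∈ Z1 G := Z1_mono (del_le _ _) hν₃
  have q1 : ∀ (e : Sym2 α) (v : α), ν₁ e ≠ 0 → v ∈ e → v ∈ univ \ ({x, y, s 0, s 1} : Finset α) := by
    intro e v he hv
    have h1 := del_mem hν₁ he hv
    simp only [mem_union, mem_insert, mem_singleton, mem_sdiff, mem_univ, true_and] at h1 ⊢
    tauto
  have q3 : ∀ (e : Sym2 α) (v : α), ν₃ e ≠ 0 → v ∈ e → v ∈ univ \ ({x, y, s 0, s 3} : Finset α) := by
    intro e v he hv
    have h1 := del_mem hν₃ he hv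
    simp only [mem_union, mem_insert, mem_singleton, mem_sdiff, mem_univ, true_and] at h1 ⊢
    tauto
  have z1 := hKUR.tor _ _ m1 n1 tt_supp q1 disjoint_sdiff
  have z3 := hKUR.tor _ _ m3 n3 tt_supp q3 disjoint_sdiff
  have v1 : vk r (tor t₁ ν₁) = 0 := hVKA.tor _ _ hr m1 n1 tt_supp q1 disjoint_sdiff
  have v3 : vk r (tor t₃ ν₃) = 0 := hVKA.tor _ _ hr m3 n3 tt_supp q3 disjoint_sdiff
  have hzG := hKUR.zmono (del_le G {x}) hz
  have hZ := hKUR.zadd (hKUR.zadd hzG z1) z3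
  have hvk' : vk r (fun e f => (fun e f => z e f + (fun e f => t₁ e * ν₁ f + ν₁ e * t₁ f) e f) e f +
      (fun e f => t₃ e * ν₃ f + ν₃ e * t₃ f) e f) = vk r z := by
    rw [hVKA.add, hVKA.add]
    have e1 : vk r (fun e f => t₁ e * ν₁ f + ν₁ e * t₁ f) = 0 := v1
    have e3 : vk r (fun e f => t₃ e * ν₃ f + ν₃ e * t₃ f) = 0 := v3
    rw [e1, e3, add_zero, add_zero]
  have a1 : t₁ s(y, s 0) = 1 := tt_one (ht.sx 0).2.symm (hne (by decide)) ht.xy (ht.sx 0).1.symm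
  have a3 : t₃ s(y, s 0) = 1 := tt_one (ht.sx 0).2.symm (hne (by decide)) ht.xy (ht.sx 0).1.symm
  have b1 : t₁ s(x, s 2) = 0 := tt_zero (hne (by decide)) (hne (by decide)) ht.xy
    (ht.sx 0).1.symm (ht.sx 1).1.symm
  have b3 : t₃ s(x, s 2) = 0 := tt_zero (hne (by decide)) (hne (by decide)) ht.xy
    (ht.sx 0).1.symm (ht.sx 3).1.symm
  have c1 : ν₁ s(y, s 0) = 0 := del_zero hν₁ (v := y) (by simp) (by simp)
  have c3 : ν₃ s(y, s 0) = 0 := del_zero hν₃ (v := y) (by simp) (by simp)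
  have d1 : ν₁ s(x, s 2) = 0 := del_zero hν₁ (v := x) (by simp) (by simp)
  have d3 : ν₃ s(x, s 2) = 0 := del_zero hν₃ (v := x) (by simp) (by simp)
  have hx2 : ∀ f, z s(x, s 2) f = 0 := by
    intro f
    by_contra h
    have h1 : (del G {x}).Adj x (s 2) := (hz.2.1 _ _ h).1
    exact h1.2.1 (by simp)
  have hZ1 := hKUR.del (a := x) (b := s 2) hZ (fun f => by
    show z s(x, s 2) f + (t₁ s(x, s 2) * ν₁ f + ν₁ s(x, s 2) * t₁ f) +
      (t₃ s(x, s 2) * ν₃ f + ν₃ s(x, s 2) * t₃ f) = 0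
    rw [hx2, b1, b3, d1, d3]
    ring)
  have hZ2 := hKUR.del (a := y) (b := s 0) hZ1 (fun f => by
    show z s(y, s 0) f + (t₁ s(y, s 0) * ν₁ f + ν₁ s(y, s 0) * t₁ f) +
      (t₃ s(y, s 0) * ν₃ f + ν₃ s(y, s 0) * t₃ f) = 0
    rw [a1, a3, c1, c3, hsum, Pi.add_apply]
    have e : ν₁ f + ν₃ f + (1 * ν₁ f + 0 * t₁ f) + (1 * ν₃ f + 0 * t₃ f) =
        (ν₁ f + ν₁ f) + (ν₃ f + ν₃ f) := by ring
    rw [e, zmod2_add_self, zmod2_add_self, add_zero])
  exact ⟨r, hr, _, hZ2, by rw [hvk']; exact hvk⟩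

end DL
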