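import Pool.Agent.DL.E.Spec0
import Pool.Agent.DL.E.Spec5
import Pool.Agent.DL.G4.C20
import Pool.Agent.DL.E.E4S

section
/-!
# MP_3ff0f8_gt, EXIST section 5, module E5K (helper45)

`K_{4,4}` with at most the edges `a₀a₁`, `a₂a₃`.
-/
set_option autoImplicit false

open SimpleGraph Finset

namespace DL

namespace E5KM

variable {α : Type} [Fintype α] [DecidableEq α] {G : SimpleGraph α}

omit [Fintype α] [DecidableEq α] in
theorem dd_adj {x y n m a b : α} : (DD G x n y m).Adj a b ↔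
    G.Adj a b ∧ s(a, b) ≠ s(x, n) ∧ s(a, b) ≠ s(y, m) := by
  simp only [DD, DL.delE, deleteEdges_adj, Set.mem_singleton_iff]
  tauto

omit [Fintype α] [DecidableEq α] in
theorem dd_le {x y n m : α} : DD G x n y m ≤ G := fun _ _ h => (dd_adj.1 h).1

omit [Fintype α] [DecidableEq α] in
theorem dd_ne {x y n m : α} (h : G.Adj x n) : DD G x n y m ≠ G := by
  intro he
  rw [← he, dd_adj] at h
  exact h.2.1 rfl

theorem jp_adj {x a b u v : α} : (JP G x a b).Adj u v ↔
    (G.Adj u v ∧ u ≠ x ∧ v ≠ x) ∨ (s(u, v) = s(a, b) ∧ u ≠ v) := by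
  rw [JP, sup_adj, fromEdgeSet_adj, Set.mem_singleton_iff]
  constructor
  · rintro (h | h)
    · exact Or.inl ⟨h.1, fun h' => h.2.1 (by rw [h']; exact mem_singleton_self _),
        fun h' => h.2.2 (by rw [h']; exact mem_singleton_self _)⟩
    · exact Or.inr h
  · rintro (h | h)
    · exact Or.inl ⟨h.1, by rw [mem_singleton]; exact h.2.1, by rw [mem_singleton]; exact h.2.2⟩
    · exact Or.inr h

/-- the size of `G - x + ab` -/
theorem sz_jp {x a b u v : α} (hxu : G.Adj x u) (hxv : G.Adj x v) (huv : u ≠ v)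
    (ha : a ∈ VS G) (hb : b ∈ VS G) (hax : a ≠ x) (hbx : b ≠ x) : sz (JP G x a b) < sz G := by
  classical
  have h1 : VS (JP G x a b) ⊆ (VS G).erase x := by
    intro w hw
    obtain ⟨z, hz⟩ := mem_VS.1 hw
    rw [jp_adj] at hz
    rcases hz with hz | hz
    · exact mem_erase.2 ⟨hz.2.1, left_mem_VS hz.1⟩
    · rw [Sym2.eq_iff] at hz
      rcases hz.1 with h | h
      · rw [h.1]; exact mem_erase.2 ⟨hax, ha⟩
      · rw [h.1]; exact mem_erase.2 ⟨hbx, hb⟩
  have h2 : (VS (JP G x a b)).card < (VS G).card :=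
    lt_of_le_of_lt (card_le_card h1) (card_erase_lt_of_mem (left_mem_VS hxu))
  have h3 : (JP G x a b).edgeSet ⊆ insert s(a, b) (G.edgeSet \ {s(x, u), s(x, v)}) := by
    intro e
    induction e with
    | _ p q =>
      intro he
      rw [mem_edgeSet, jp_adj] at he
      rcases he with he | he
      · refine Or.inr ⟨he.1, ?_⟩
        simp only [Set.mem_insert_iff, Set.mem_singleton_iff, Sym2.eq_iff]
        rintro ((h | h) | (h | h))
        · exact he.2.1 h.1
        · exact he.2.2 h.2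
        · exact he.2.1 h.1
        · exact he.2.2 h.2
      · exact Or.inl he.1
  have hfin : G.edgeSet.Finite := Set.toFinite _
  have h4 : ({s(x, u), s(x, v)} : Set (Sym2 α)) ⊆ G.edgeSet := by
    intro e he
    rcases he with rfl | rfl
    · exact hxu
    · exact hxv
  have hne : s(x, u) ≠ s(x, v) := by
    intro h
    rw [Sym2.eq_iff] at h
    rcases h with h | h
    · exact huv h.2
    · exact huv (h.2.trans h.1)
  have h5 : (G.edgeSet \ {s(x, u), s(x, v)}).ncard + 2 = G.edgeSet.ncard := by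
    rw [← Set.ncard_pair hne]
    exact Set.ncard_sdiff_add_ncard_of_subset h4
  have h6 : (JP G x a b).edgeSet.ncard ≤ (G.edgeSet \ {s(x, u), s(x, v)}).ncard + 1 :=
    (Set.ncard_le_ncard h3 (Set.toFinite _)).trans (Set.ncard_insert_le _ _)
  unfold sz
  omega

variable {a b : Fin 4 → α}

/-- the twins `b 0`, `b 1` -/
theorem tw (h : K4E G a b) {f : Fin 4 → Fin 4} (hf : Function.Bijective f) {s : Fin 4 → α}
    (hs : ∀ i, s i = a (f i)) : TW G (b 0) (b 1) s where
  inj := fun i j hij => hf.1 (h.ia (by rw [← hs, ← hs]; exact hij))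
  xy := fun he => absurd (h.ib he) (by decide)
  sx := fun i => by rw [hs]; exact ⟨h.ab _ _, h.ab _ _⟩
  nx := fun w => by
    rw [h.nb]
    constructor
    · rintro ⟨j, hj⟩
      obtain ⟨i, hi⟩ := hf.2 j
      exact ⟨i, by rw [hj, ← hi, hs]⟩
    · rintro ⟨i, hi⟩
      exact ⟨f i, by rw [hi, hs]⟩
  ny := fun w => by
    rw [h.nb]
    constructor
    · rintro ⟨j, hj⟩
      obtain ⟨i, hi⟩ := hf.2 j
      exact ⟨i, by rw [hj, ← hi, hs]⟩
    · rintro ⟨i, hi⟩
      exact ⟨f i, by rw [hi, hs]⟩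

theorem adj (h : K4E G a b) (i j : Fin 4) : G.Adj (b i) (a j) := (h.nb i _).2 ⟨j, rfl⟩

/-- a model of `K₃₃` with six vertices -/
theorem k33 (hNPM : SpecNPM) {H : SimpleGraph α} {p q : Fin 3 → α} (hp : Function.Injective p)
    (hq : Function.Injective q) (hpq : ∀ i j, p i ≠ q j) (hadj : ∀ i j, H.Adj (p i) (q j)) :
    NP H := by
  refine hNPM.k33 (fun i => {p i}) (fun i => {q i}) (fun i => N62M.cset_single _)
    (fun i => N62M.cset_single _) (fun i j hij => ?_) (fun i j hij => ?_) (fun i j => ?_)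
    (fun i j => ?_)
  · exact disjoint_singleton.2 fun he => hij (hp he)
  · exact disjoint_singleton.2 fun he => hij (hq he)
  · exact disjoint_singleton.2 (hpq i j)
  · exact ⟨p i, mem_singleton_self _, q j, mem_singleton_self _, hadj i j⟩

/-- no bad cut -/
theorem nobad (h : K4E G a b) {f : Fin 4 → Fin 4} {s : Fin 4 → α}
    (hs : ∀ i, s i = a (f i)) (q : α) (P Q : Finset α) : ¬ BC G (b 0) (b 1) s q P Q := by
  intro hBC
  obtain ⟨-, -, hsep, h0, h2⟩ := hBC
  have key : ∀ k : Fin 4, k ≠ 0 → k ≠ 1 → b k ≠ q → False := by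
    intro k hk0 hk1 hkq
    have hkx : b k ≠ b 0 := fun he => hk0 (h.ib he)
    have hky : b k ≠ b 1 := fun he => hk1 (h.ib he)
    have hadj : ∀ j, (del G {b 0, b 1}).Adj (b k) (s j) := by
      intro j
      rw [hs]
      refine ⟨adj h k _, ?_, ?_⟩
      · rw [mem_insert, mem_singleton, not_or]; exact ⟨hkx, hky⟩
      · rw [mem_insert, mem_singleton, not_or]; exact ⟨h.ab _ _, h.ab _ _⟩
    rcases hsep.mem_or (left_mem_VS (hadj 0)) with h5 | h5 | h5
    · rw [mem_insert, mem_insert, mem_singleton, hs, hs] at h5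
      rcases h5 with h5 | h5 | h5
      · exact h.ab _ _ h5.symm
      · exact h.ab _ _ h5.symm
      · exact hkq h5
    · exact hsep.2.2.2.2 _ h5 _ h2 (hadj _)
    · exact hsep.2.2.2.2 _ h0 _ h5 (hadj _).symm
  by_cases hq : b 2 = q
  · exact key 3 (by decide) (by decide) (fun he => absurd (h.ib (hq.trans he.symm)) (by decide))
  · exact key 2 (by decide) (by decide) hq

/-- D-pair graphs are nonplanar -/
theorem np_dd (hNPM : SpecNPM) (h : K4E G a b) {f : Fin 4 → Fin 4} (hf : Function.Bijective f)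
    {s : Fin 4 → α} (hs : ∀ i, s i = a (f i)) : NP (DD G (b 0) (s 2) (b 1) (s 0)) := by
  obtain ⟨g, hg⟩ : ∃ g : Fin 3 → Fin 4, g = ![0, 2, 3] := ⟨_, rfl⟩
  obtain ⟨k, hk⟩ : ∃ k : Fin 3 → Fin 4, k = ![0, 1, 3] := ⟨_, rfl⟩
  have hginj : Function.Injective g := by rw [hg]; decide
  have hkinj : Function.Injective k := by rw [hk]; decide
  have hg1 : ∀ i, g i ≠ 1 := by rw [hg]; decide
  have hk2 : ∀ i, k i ≠ 2 := by rw [hk]; decide
  have hsinj : Function.Injective s := (tw h hf hs).inj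
  refine k33 hNPM (p := fun i => b (g i)) (q := fun i => s (k i)) (fun i j hij => hginj (h.ib hij))
    (fun i j hij => hkinj (hsinj hij)) (fun i j he => ?_) ?_
  · rw [hs] at he
    exact h.ab _ _ he.symm
  intro i j
  rw [dd_adj]
  refine ⟨by rw [hs]; exact adj h _ _, fun he => ?_, fun he => ?_⟩
  · rw [Sym2.eq_iff] at he
    rcases he with he | he
    · exact hk2 j (hsinj he.2)
    · rw [hs] at he
      exact h.ab _ _ he.1.symm
  · rw [Sym2.eq_iff] at he
    rcases he with he | he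
    · exact hg1 i (h.ib he.1)
    · rw [hs] at he
      exact h.ab _ _ he.1.symm

/-- the D-pair graphs -/
theorem dd (hNPM : SpecNPM) (hDST : SpecDST) (hE5D : SpecE5D) (hG : K48 G) (hIH : IH G)
    (h : K4E G a b) {f : Fin 4 → Fin 4} (hf : Function.Bijective f) {s : Fin 4 → α}
    (hs : ∀ i, s i = a (f i)) : KZ (DD G (b 0) (s 2) (b 1) (s 0)) := by
  have hTW := tw h hf hs
  have hC1 : C1 (DD G (b 0) (s 2) (b 1) (s 0)) :=
    hE5D.c1 (s := s) hG hTW (nobad h hs)
  have h1 : G.Adj (b 0) (s 2) := by rw [hs]; exact adj h _ _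
  exact (hIH _ (hDST.sz1 dd_le (dd_ne h1)) hC1 (np_dd hNPM h hf hs)).2

/-- the case without edges between the `a i` -/
theorem k34e (h : K4E G a b) (hna : ∀ i j, ¬ G.Adj (a i) (a j)) {f : Fin 4 → Fin 4}
    {g : Fin 3 → Fin 4} {a' : Fin 4 → α} {b' : Fin 3 → α} (ha : ∀ i, a' i = a (f i))
    (hb : ∀ i, b' i = b (g i)) (hf : Function.Bijective f) (hg : Function.Injective g)
    (hg0 : ∀ i, g i ≠ 0) (hg1 : ∀ i, i ≠ 0 → ∃ j, g j = i) (hf0 : ∀ i, f i = 0 ↔ i = 0)
    (hf2 : ∀ i, f i = 2 ↔ i = 1) : K34E (JP G (b 0) (a 0) (a 2)) a' b' where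
  ia := fun i j hij => hf.1 (h.ia (by rw [← ha, ← ha]; exact hij))
  ib := fun i j hij => hg (h.ib (by rw [← hb, ← hb]; exact hij))
  ab := fun i j => by rw [ha, hb]; exact h.ab _ _
  vs := by
    intro v hv
    have haV : ∀ j, a j ∈ VS G := fun j => right_mem_VS (adj h 0 j)
    have key : v ∈ VS G ∧ v ≠ b 0 := by
      obtain ⟨w, hw⟩ := mem_VS.1 hv
      rw [jp_adj] at hw
      rcases hw with hw | hw
      · exact ⟨left_mem_VS hw.1, hw.2.1⟩
      · rw [Sym2.eq_iff] at hw
        rcases hw.1 with h1 | h1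
        · rw [h1.1]; exact ⟨haV 0, h.ab _ _⟩
        · rw [h1.1]; exact ⟨haV 2, h.ab _ _⟩
    rcases h.vs v key.1 with ⟨i, hi⟩ | ⟨i, hi⟩
    · obtain ⟨j, hj⟩ := hf.2 i
      exact Or.inl ⟨j, by rw [hi, ← hj, ha]⟩
    · obtain ⟨j, hj⟩ := hg1 i (fun h1 => key.2 (by rw [hi, h1]))
      exact Or.inr ⟨j, by rw [hi, ← hj, hb]⟩
  nb := by
    intro i w
    rw [jp_adj, hb]
    constructor
    · rintro (h1 | h1)
      · obtain ⟨j, hj⟩ := (h.nb _ _).1 h1.1
        obtain ⟨k, hk⟩ := hf.2 j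
        exact ⟨k, by rw [hj, ← hk, ha]⟩
      · rw [Sym2.eq_iff] at h1
        rcases h1.1 with h2 | h2
        · exact absurd h2.1.symm (h.ab _ _)
        · exact absurd h2.1.symm (h.ab _ _)
    · rintro ⟨j, rfl⟩
      rw [ha]
      exact Or.inl ⟨adj h _ _, fun h1 => hg0 i (h.ib h1), h.ab _ _⟩
  aa := by
    intro i j
    rw [jp_adj, ha, ha]
    constructor
    · rintro (h1 | h1)
      · exact absurd h1.1 (hna _ _)
      · rw [Sym2.eq_iff] at h1
        rcases h1.1 with h2 | h2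
        · exact Or.inl ⟨(hf0 i).1 (h.ia h2.1), (hf2 j).1 (h.ia h2.2)⟩
        · exact Or.inr ⟨(hf2 i).1 (h.ia h2.1), (hf0 j).1 (h.ia h2.2)⟩
    · rintro (⟨h1, h2⟩ | ⟨h1, h2⟩)
      · rw [(hf0 i).2 h1, (hf2 j).2 h2]
        exact Or.inr ⟨rfl, fun he => absurd (h.ia he) (by decide)⟩
      · rw [(hf2 i).2 h1, (hf0 j).2 h2]
        exact Or.inr ⟨Sym2.eq_swap, fun he => absurd (h.ia he) (by decide)⟩

/-- nonplanarity of `G - b₀ + a₀a₂` -/
theorem np_jp (hNPM : SpecNPM) (h : K4E G a b) : NP (JP G (b 0) (a 0) (a 2)) := by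
  obtain ⟨g, hg⟩ : ∃ g : Fin 3 → Fin 4, g = ![1, 2, 3] := ⟨_, rfl⟩
  obtain ⟨k, hk⟩ : ∃ k : Fin 3 → Fin 4, k = ![0, 1, 2] := ⟨_, rfl⟩
  have hginj : Function.Injective g := by rw [hg]; decide
  have hkinj : Function.Injective k := by rw [hk]; decide
  have hg0 : ∀ i, g i ≠ 0 := by rw [hg]; decide
  refine k33 hNPM (p := fun i => b (g i)) (q := fun i => a (k i)) (fun i j hij => hginj (h.ib hij))
    (fun i j hij => hkinj (h.ia hij)) (fun i j he => h.ab _ _ he.symm) ?_
  intro i j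
  rw [jp_adj]
  exact Or.inl ⟨adj h _ _, fun he => hg0 i (h.ib he), h.ab _ _⟩

end E5KM

open E5KM in
/-- **E5K** -/
theorem specE5K (hTWR : SpecTWR) (hE5D : SpecE5D) (hE5J : SpecE5J) (hK34 : SpecK34)
    (hNPM : SpecNPM) (hDST : SpecDST) : SpecE5K := by
  intro α _ _ G a b hG hIH h
  obtain ⟨f, hfd⟩ : ∃ f : Fin 4 → Fin 4, f = ![0, 2, 1, 3] := ⟨_, rfl⟩
  obtain ⟨g, hgd⟩ : ∃ g : Fin 3 → Fin 4, g = ![1, 2, 3] := ⟨_, rfl⟩
  have hf : Function.Bijective f := by rw [hfd]; decide
  have hg : Function.Injective g := by rw [hgd]; decide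
  obtain ⟨s, hs⟩ : ∃ s : Fin 4 → α, ∀ i, s i = a (f i) := ⟨fun i => a (f i), fun _ => rfl⟩
  obtain ⟨b', hb⟩ : ∃ b' : Fin 3 → α, ∀ i, b' i = b (g i) := ⟨fun i => b (g i), fun _ => rfl⟩
  have e0 : s 0 = a 0 := by rw [hs, hfd]; rfl
  have e1 : s 1 = a 2 := by rw [hs, hfd]; rfl
  have e2 : s 2 = a 1 := by rw [hs, hfd]; rfl
  have e3 : s 3 = a 3 := by rw [hs, hfd]; rfl
  have hTW := tw h hf hs
  have hane : ∀ i j, i ≠ j → a i ≠ a j := fun i j hij he => hij (h.ia he)
  have haV : ∀ j, a j ∈ VS G := fun j => right_mem_VS (adj h 0 j)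
  have hsz : sz (JP G (b 0) (a 0) (a 2)) < sz G :=
    sz_jp (adj h 0 0) (adj h 0 1) (hane 0 1 (by decide)) (haV 0) (haV 2) (h.ab _ _) (h.ab _ _)
  have hJP : KZ (JP G (b 0) (a 0) (a 2)) := by
    by_cases he : G.Adj (a 0) (a 1) ∨ G.Adj (a 2) (a 3)
    · have hC1 : C1 (JP G (b 0) (s 0) (s 1)) := by
        refine hE5J (s := s) hG hTW ?_
        rintro ⟨c, d, A, B, -, hsep, h0, h1, h2, h3⟩
        rw [e0] at h0
        rw [e1] at h1
        rw [e2] at h2
        rw [e3] at h3
        rcases he with he | he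
        · exact hsep.2.2.2.2 _ h0 _ h2 he
        · exact hsep.2.2.2.2 _ h1 _ h3 he
      rw [e0, e1] at hC1
      exact (hIH _ hsz hC1 (np_jp hNPM h)).2
    · push Not at he
      have hna : ∀ i j, ¬ G.Adj (a i) (a j) := by
        intro i j hij
        rcases h.aa i j hij with ⟨h1, h2⟩ | ⟨h1, h2⟩ | ⟨h1, h2⟩ | ⟨h1, h2⟩
        · rw [h1, h2] at hij; exact he.1 hij
        · rw [h1, h2] at hij; exact he.1 hij.symm
        · rw [h1, h2] at hij; exact he.2 hij
        · rw [h1, h2] at hij; exact he.2 hij.symm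
      exact hK34 (fun H hH => hIH H (hH.trans hsz)) (k34e h hna hs hb hf hg
        (by rw [hgd]; decide) (by rw [hgd]; decide) (by rw [hfd]; decide) (by rw [hfd]; decide))
  have hn02 : ¬ G.Adj (a 0) (a 2) := by
    intro h1
    rcases h.aa 0 2 h1 with h2 | h2 | h2 | h2
    · exact absurd h2.2 (by decide)
    · exact absurd h2.1 (by decide)
    · exact absurd h2.1 (by decide)
    · exact absurd h2.1 (by decide)
  -- the D-pair graphs
  have hdd : ∀ (f' : Fin 4 → Fin 4), Function.Bijective f' →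
      KZ (DD G (b 0) (a (f' 2)) (b 1) (a (f' 0))) := by
    intro f' hf'
    obtain ⟨s', hs'⟩ : ∃ s' : Fin 4 → α, ∀ i, s' i = a (f' i) := ⟨fun i => a (f' i), fun _ => rfl⟩
    have := dd hNPM hDST hE5D hG hIH h hf' hs'
    rw [hs' 2, hs' 0] at this
    exact this
  have d1 : KZ (DD G (b 0) (a 1) (b 1) (a 0)) := hdd ![0, 2, 1, 3] (by decide)
  have d2 : KZ (DD G (b 0) (a 1) (b 1) (a 2)) := hdd ![2, 0, 1, 3] (by decide)
  have d3 : KZ (DD G (b 0) (a 3) (b 1) (a 0)) := hdd ![0, 1, 3, 2] (by decide)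
  have d4 : KZ (DD G (b 0) (a 3) (b 1) (a 2)) := hdd ![2, 0, 3, 1] (by decide)
  rw [← e0, ← e1] at hn02 hJP
  rw [← e2, ← e0] at d1
  rw [← e2, ← e1] at d2
  rw [← e3, ← e0] at d3
  rw [← e3, ← e1] at d4
  exact hTWR (s := s) hG hIH hTW hn02 hJP d1 d2 d3 d4

end DL
end

section
/-!
# MP_3ff0f8_gt, EXIST section 5, module E5O (helper45)

The D-pair graph of a split is nonplanar.
-/
set_option autoImplicit false

open SimpleGraph Finset

namespace DL

namespace E5OM

open E4NM

variable {α : Type} [Fintype α] [DecidableEq α] {G : SimpleGraph α}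

omit [Fintype α] [DecidableEq α] in
theorem dp {x y : α} {s : Fin 4 → α} (h : TW G x y s) : DP G x y s where
  inj := h.inj
  xy := h.xy
  sx := h.sx
  nx := fun w hw => Or.inr ((h.nx w).1 hw)
  ny := fun w hw => Or.inr ((h.ny w).1 hw)
  ax := fun i => (h.nx _).2 ⟨i, rfl⟩
  ay := fun i => (h.ny _).2 ⟨i, rfl⟩

omit [Fintype α] [DecidableEq α] in
theorem dd_adj {x y n m a b : α} : (DD G x n y m).Adj a b ↔
    G.Adj a b ∧ s(a, b) ≠ s(x, n) ∧ s(a, b) ≠ s(y, m) := by
  simp only [DD, DL.delE, deleteEdges_adj, Set.mem_singleton_iff]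
  tauto

omit [Fintype α] [DecidableEq α] in
theorem dd_of_ne {x y n m a b : α} (h : G.Adj a b) (h1 : a ≠ x) (h2 : b ≠ x) (h3 : a ≠ y)
    (h4 : b ≠ y) : (DD G x n y m).Adj a b := by
  rw [dd_adj]
  refine ⟨h, fun he => ?_, fun he => ?_⟩
  · rw [Sym2.eq_iff] at he
    rcases he with he | he
    · exact h1 he.1
    · exact h2 he.2
  · rw [Sym2.eq_iff] at he
    rcases he with he | he
    · exact h3 he.1
    · exact h4 he.2

theorem cset_dd {X : Finset α} {x y n m : α} (hX : CSet G X) (hx : x ∉ X) (hy : y ∉ X) :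
    CSet (DD G x n y m) X := by
  refine ⟨hX.1, fun u hu v hv => (hX.2 u hu v hv).mono ?_⟩
  intro a b hab
  have ha : a ∈ X := by simpa using hab.2.1
  have hb : b ∈ X := by simpa using hab.2.2
  exact ⟨dd_of_ne hab.1 (fun h => hx (h ▸ ha)) (fun h => hx (h ▸ hb)) (fun h => hy (h ▸ ha))
    (fun h => hy (h ▸ hb)), hab.2.1, hab.2.2⟩

section split

variable {x y c d : α} {s : Fin 4 → α} {T A B : Finset α}

/-- a side with exactly the two vertices `p`, `q` -/
theorem two_side (hG : K48 G) (h33 : No33 G) (h34 : No34 G) (h44 : No44 G)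
    (hC : E4SM.CC G x y c d T A B) {p q : α} (hp : p ∈ B) (hq : q ∈ B) (hpq : p ≠ q)
    (hB : ∀ w ∈ B, w = p ∨ w = q) (hxp : G.Adj x p) (hyp : G.Adj y p) (hxq : G.Adj x q)
    (hyq : G.Adj y q) :
    G.Adj c p ∧ G.Adj c q ∧ G.Adj d p ∧ G.Adj d q := by
  have hs := hC.sep
  have hpn := hC.symm.notMemP hp
  have hqn := hC.symm.notMemP hq
  have hNp : ∀ w, G.Adj p w → w = x ∨ w = y ∨ w = q ∨ w = c ∨ w = d := by
    intro w hw
    rcases hs.mem_or (right_mem_VS hw) with h1 | h1 | h1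
    · rcases (hC.mT w).1 h1 with h2 | h2 | h2 | h2
      · exact Or.inl h2
      · exact Or.inr (Or.inl h2)
      · exact Or.inr (Or.inr (Or.inr (Or.inl h2)))
      · exact Or.inr (Or.inr (Or.inr (Or.inr h2)))
    · exact absurd hw.symm (hs.2.2.2.2 w h1 p hp)
    · rcases hB w h1 with h2 | h2
      · rw [h2] at hw
        exact absurd rfl hw.ne
      · exact Or.inr (Or.inr (Or.inl h2))
  have hNq : ∀ w, G.Adj q w → w = x ∨ w = y ∨ w = p ∨ w = c ∨ w = d := by
    intro w hw
    rcases hs.mem_or (right_mem_VS hw) with h1 | h1 | h1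
    · rcases (hC.mT w).1 h1 with h2 | h2 | h2 | h2
      · exact Or.inl h2
      · exact Or.inr (Or.inl h2)
      · exact Or.inr (Or.inr (Or.inr (Or.inl h2)))
      · exact Or.inr (Or.inr (Or.inr (Or.inr h2)))
    · exact absurd hw.symm (hs.2.2.2.2 w h1 q hq)
    · rcases hB w h1 with h2 | h2
      · exact Or.inr (Or.inr (Or.inl h2))
      · rw [h2] at hw
        exact absurd rfl hw.ne
  have hpV := hs.subQ hp
  have hqV := hs.subQ hq
  by_cases hadj : G.Adj p q
  · -- the adjacent case is excluded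
    exfalso
    have c4 : T.card ≤ 4 := by
      have : T ⊆ {x, y, c, d} := fun w hw => by
        have := (hC.mT w).1 hw
        simpa using this
      exact (card_le_card this).trans card_le_four
    have hcT : c ∈ T := (hC.mT c).2 (Or.inr (Or.inr (Or.inl rfl)))
    have hdT : d ∈ T := (hC.mT d).2 (Or.inr (Or.inr (Or.inr rfl)))
    have hBn : B.Nonempty := ⟨p, hp⟩
    have hcB : G.Adj c p ∨ G.Adj c q := by
      obtain ⟨w, hw, hcw⟩ := hG.1.exists_adj_of_sep hs.symm hBn c4 hcT
      rcases hB w hw with h1 | h1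
      · exact Or.inl (h1 ▸ hcw)
      · exact Or.inr (h1 ▸ hcw)
    have hdB : G.Adj d p ∨ G.Adj d q := by
      obtain ⟨w, hw, hdw⟩ := hG.1.exists_adj_of_sep hs.symm hBn c4 hdT
      rcases hB w hw with h1 | h1
      · exact Or.inl (h1 ▸ hdw)
      · exact Or.inr (h1 ▸ hdw)
    have hdegp : G.Adj c p ∨ G.Adj d p := by
      by_contra hcon
      push Not at hcon
      have hsub : nbs G p ⊆ {x, y, q} := by
        intro w hw
        rw [mem_nbs] at hw
        simp only [mem_insert, mem_singleton]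
        rcases hNp w hw with h1 | h1 | h1 | h1 | h1
        · exact Or.inl h1
        · exact Or.inr (Or.inl h1)
        · exact Or.inr (Or.inr h1)
        · exact absurd (h1 ▸ hw.symm) hcon.1
        · exact absurd (h1 ▸ hw.symm) hcon.2
      have h4 := hG.1.le_nbs hpV
      have := (card_le_card hsub).trans card_le_three
      omega
    have hdegq : G.Adj c q ∨ G.Adj d q := by
      by_contra hcon
      push Not at hcon
      have hsub : nbs G q ⊆ {x, y, p} := by
        intro w hw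
        rw [mem_nbs] at hw
        simp only [mem_insert, mem_singleton]
        rcases hNq w hw with h1 | h1 | h1 | h1 | h1
        · exact Or.inl h1
        · exact Or.inr (Or.inl h1)
        · exact Or.inr (Or.inr h1)
        · exact absurd (h1 ▸ hw.symm) hcon.1
        · exact absurd (h1 ▸ hw.symm) hcon.2
      have h4 := hG.1.le_nbs hqV
      have := (card_le_card hsub).trans card_le_three
      omega
    -- the neighbourhoods
    have ePp : ∀ w, G.Adj p w ↔ w = x ∨ w = y ∨ w = q ∨ (w = c ∧ G.Adj c p) ∨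
        (w = d ∧ G.Adj d p) := by
      intro w
      constructor
      · intro hw
        rcases hNp w hw with h1 | h1 | h1 | h1 | h1
        · exact Or.inl h1
        · exact Or.inr (Or.inl h1)
        · exact Or.inr (Or.inr (Or.inl h1))
        · exact Or.inr (Or.inr (Or.inr (Or.inl ⟨h1, h1 ▸ hw.symm⟩)))
        · exact Or.inr (Or.inr (Or.inr (Or.inr ⟨h1, h1 ▸ hw.symm⟩)))
      · rintro (rfl | rfl | rfl | ⟨rfl, h1⟩ | ⟨rfl, h1⟩)
        · exact hxp.symm
        · exact hyp.symm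
        · exact hadj
        · exact h1.symm
        · exact h1.symm
    have eQq : ∀ w, G.Adj q w ↔ w = x ∨ w = y ∨ w = p ∨ (w = c ∧ G.Adj c q) ∨
        (w = d ∧ G.Adj d q) := by
      intro w
      constructor
      · intro hw
        rcases hNq w hw with h1 | h1 | h1 | h1 | h1
        · exact Or.inl h1
        · exact Or.inr (Or.inl h1)
        · exact Or.inr (Or.inr (Or.inl h1))
        · exact Or.inr (Or.inr (Or.inr (Or.inl ⟨h1, h1 ▸ hw.symm⟩)))
        · exact Or.inr (Or.inr (Or.inr (Or.inr ⟨h1, h1 ▸ hw.symm⟩)))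
      · rintro (rfl | rfl | rfl | ⟨rfl, h1⟩ | ⟨rfl, h1⟩)
        · exact hxq.symm
        · exact hyq.symm
        · exact hadj.symm
        · exact h1.symm
        · exact h1.symm
    have hxy := hC.xy
    have hxc := hC.xc
    have hxd := hC.xd
    have hyc := hC.yc
    have hyd := hC.yd
    have hcd := hC.cd
    by_cases cp : G.Adj c p <;> by_cases cq : G.Adj c q <;> by_cases dp : G.Adj d p <;>
      by_cases dq : G.Adj d q
    · refine h44 p q ![x, y, c, d] ⟨E4SM.inj4 hC, hpq, ?_, ?_, ?_⟩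
      · intro i
        fin_cases i
        · exact ⟨hpn.1.symm, hqn.1.symm⟩
        · exact ⟨hpn.2.1.symm, hqn.2.1.symm⟩
        · exact ⟨hpn.2.2.1.symm, hqn.2.2.1.symm⟩
        · exact ⟨hpn.2.2.2.symm, hqn.2.2.2.symm⟩
      · intro w
        rw [ePp w, Fin.exists_fin_succ, Fin.exists_fin_succ, Fin.exists_fin_succ]
        simp [cp, dp]
        clear * -
        tauto
      · intro w
        rw [eQq w, Fin.exists_fin_succ, Fin.exists_fin_succ, Fin.exists_fin_succ]
        simp [cq, dq]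
        clear * -
        tauto
    · refine h34 q p d x y c ⟨?_, ?_, ?_⟩
      · simp only [List.nodup_cons, List.mem_cons, List.not_mem_nil, or_false, not_or,
          List.nodup_nil, and_true, not_false_eq_true]
        exact ⟨⟨hpq.symm, hqn.2.2.2, hqn.1, hqn.2.1, hqn.2.2.1⟩, ⟨hpn.2.2.2, hpn.1, hpn.2.1,
          hpn.2.2.1⟩, ⟨hxd.symm, hyd.symm, hcd.symm⟩, ⟨hxy, hxc⟩, hyc⟩
      · intro w
        rw [eQq w]
        simp only [cq, dq, and_true, and_false, or_false]
        clear * -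
        tauto
      · intro w
        rw [ePp w]
        simp only [cp, dp, and_true]
        clear * -
        tauto
    · refine h34 p q d x y c ⟨?_, ?_, ?_⟩
      · simp only [List.nodup_cons, List.mem_cons, List.not_mem_nil, or_false, not_or,
          List.nodup_nil, and_true, not_false_eq_true]
        exact ⟨⟨hpq, hpn.2.2.2, hpn.1, hpn.2.1, hpn.2.2.1⟩, ⟨hqn.2.2.2, hqn.1, hqn.2.1,
          hqn.2.2.1⟩, ⟨hxd.symm, hyd.symm, hcd.symm⟩, ⟨hxy, hxc⟩, hyc⟩
      · intro w
        rw [ePp w]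
        simp only [cp, dp, and_true, and_false, or_false]
        clear * -
        tauto
      · intro w
        rw [eQq w]
        simp only [cq, dq, and_true]
        clear * -
        tauto
    · exact (hdB.elim dp dq).elim
    · refine h34 q p c x y d ⟨?_, ?_, ?_⟩
      · simp only [List.nodup_cons, List.mem_cons, List.not_mem_nil, or_false, not_or,
          List.nodup_nil, and_true, not_false_eq_true]
        exact ⟨⟨hpq.symm, hqn.2.2.1, hqn.1, hqn.2.1, hqn.2.2.2⟩, ⟨hpn.2.2.1, hpn.1, hpn.2.1,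
          hpn.2.2.2⟩, ⟨hxc.symm, hyc.symm, hcd⟩, ⟨hxy, hxd⟩, hyd⟩
      · intro w
        rw [eQq w]
        simp only [cq, dq, and_true, and_false, false_or]
        clear * -
        tauto
      · intro w
        rw [ePp w]
        simp only [cp, dp, and_true]
        clear * -
        tauto
    · exact (hdegq.elim cq dq).elim
    · refine h33 p q d c x y ⟨?_, ?_, ?_⟩
      · simp only [List.nodup_cons, List.mem_cons, List.not_mem_nil, or_false, not_or,
          List.nodup_nil, and_true, not_false_eq_true]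
        exact ⟨⟨hpq, hpn.2.2.2, hpn.2.2.1, hpn.1, hpn.2.1⟩, ⟨hqn.2.2.2, hqn.2.2.1, hqn.1,
          hqn.2.1⟩, ⟨hcd.symm, hxd.symm, hyd.symm⟩, ⟨hxc.symm, hyc.symm⟩, hxy⟩
      · intro w
        rw [ePp w]
        simp only [cp, dp, and_true, and_false, or_false]
        clear * -
        tauto
      · intro w
        rw [eQq w]
        simp only [cq, dq, and_true, and_false, false_or]
        clear * -
        tauto
    · exact (hdB.elim dp dq).elim
    · refine h34 p q c x y d ⟨?_, ?_, ?_⟩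
      · simp only [List.nodup_cons, List.mem_cons, List.not_mem_nil, or_false, not_or,
          List.nodup_nil, and_true, not_false_eq_true]
        exact ⟨⟨hpq, hpn.2.2.1, hpn.1, hpn.2.1, hpn.2.2.2⟩, ⟨hqn.2.2.1, hqn.1, hqn.2.1,
          hqn.2.2.2⟩, ⟨hxc.symm, hyc.symm, hcd⟩, ⟨hxy, hxd⟩, hyd⟩
      · intro w
        rw [ePp w]
        simp only [cp, dp, and_true, and_false, false_or]
        clear * -
        tauto
      · intro w
        rw [eQq w]
        simp only [cq, dq, and_true]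
        clear * -
        tauto
    · refine h33 p q c d x y ⟨?_, ?_, ?_⟩
      · simp only [List.nodup_cons, List.mem_cons, List.not_mem_nil, or_false, not_or,
          List.nodup_nil, and_true, not_false_eq_true]
        exact ⟨⟨hpq, hpn.2.2.1, hpn.2.2.2, hpn.1, hpn.2.1⟩, ⟨hqn.2.2.1, hqn.2.2.2, hqn.1,
          hqn.2.1⟩, ⟨hcd, hxc.symm, hyc.symm⟩, ⟨hxd.symm, hyd.symm⟩, hxy⟩
      · intro w
        rw [ePp w]
        simp only [cp, dp, and_true, and_false, false_or]
        clear * -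
        tauto
      · intro w
        rw [eQq w]
        simp only [cq, dq, and_true, and_false, or_false]
        clear * -
        tauto
    · exact (hdegp.elim cp dp).elim
    · exact (hdB.elim dp dq).elim
    · exact (hcB.elim cp cq).elim
    · exact (hcB.elim cp cq).elim
    · exact (hcB.elim cp cq).elim
    · exact (hcB.elim cp cq).elim
  · have hp4 := E4SM.eq4 hG (a := x) (b := y) (c := c) (d := d) hpV (fun w hw => by
      rcases hNp w hw with h1 | h1 | h1 | h1 | h1
      · exact Or.inl h1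
      · exact Or.inr (Or.inl h1)
      · exact absurd (h1 ▸ hw) hadj
      · exact Or.inr (Or.inr (Or.inl h1))
      · exact Or.inr (Or.inr (Or.inr h1)))
    have hq4 := E4SM.eq4 hG (a := x) (b := y) (c := c) (d := d) hqV (fun w hw => by
      rcases hNq w hw with h1 | h1 | h1 | h1 | h1
      · exact Or.inl h1
      · exact Or.inr (Or.inl h1)
      · exact absurd (h1 ▸ hw.symm) hadj
      · exact Or.inr (Or.inr (Or.inl h1))
      · exact Or.inr (Or.inr (Or.inr h1)))
    exact ⟨((hp4.2 c).2 (Or.inr (Or.inr (Or.inl rfl)))).symm,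
      ((hq4.2 c).2 (Or.inr (Or.inr (Or.inl rfl)))).symm,
      ((hp4.2 d).2 (Or.inr (Or.inr (Or.inr rfl)))).symm,
      ((hq4.2 d).2 (Or.inr (Or.inr (Or.inr rfl)))).symm⟩

/-- a set with at most 4 neighbours, none of them `v` -/
theorem nb_eq (hNBF : SpecNBF) (hG : K48 G) {L S : Finset α} {v : α} (hL : L ⊆ VS G)
    (hne : L.Nonempty) (hS : NB G L ⊆ S) (h4 : S.card ≤ 4) (hv : v ∈ VS G) (hvL : v ∉ L)
    (hvS : v ∉ S) : NB G L = S := by
  refine eq_of_subset_of_card_le hS (h4.trans ?_)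
  by_contra hcon
  rw [not_le] at hcon
  have := hNBF.nb hG.1 hL hne hcon hv
  rw [mem_union] at this
  rcases this with h1 | h1
  · exact hvL h1
  · exact hvS (hS h1)

/-- the part `K` -/
theorem exists_L (hNBF : SpecNBF) (hG : K48 G) (h33 : No33 G) (h34 : No34 G) (h44 : No44 G)
    (h : DP G x y s) (hny : ¬ G.Adj x y) (hC : E4SM.CC G x y c d T A B) (h0 : s 0 ∈ A)
    (h2 : s 2 ∈ A) (h1 : s 1 ∈ B) (h3 : s 3 ∈ B) :
    ∃ L : Finset α, L ⊆ B ∧ s 1 ∉ L ∧ s 3 ∉ L ∧ ∀ e, e = c ∨ e = d →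
      CSet G ({e} ∪ L) ∧ (∃ k ∈ {e} ∪ L, G.Adj k (s 1)) ∧ ∃ k ∈ {e} ∪ L, G.Adj k (s 3) := by
  classical
  have hs := hC.sep
  have hne13 : s 1 ≠ s 3 := fun he => absurd (h.inj he) (by decide)
  by_cases hB : ∀ w ∈ B, w = s 1 ∨ w = s 3
  · obtain ⟨a1, a2, a3, a4⟩ := two_side hG h33 h34 h44 hC h1 h3 hne13 hB (h.ax 1) (h.ay 1)
      (h.ax 3) (h.ay 3)
    refine ⟨∅, empty_subset _, notMem_empty _, notMem_empty _, ?_⟩
    intro e he
    rw [union_empty]
    rcases he with rfl | rfl
    · exact ⟨N62M.cset_single _, ⟨_, mem_singleton_self _, a1⟩, ⟨_, mem_singleton_self _, a2⟩⟩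
    · exact ⟨N62M.cset_single _, ⟨_, mem_singleton_self _, a3⟩, ⟨_, mem_singleton_self _, a4⟩⟩
  · push Not at hB
    obtain ⟨k, hkB, hk1, hk3⟩ := hB
    have hkY : k ∈ B \ {s 1, s 3} := by
      rw [mem_sdiff, mem_insert, mem_singleton]
      exact ⟨hkB, fun h' => h'.elim hk1 hk3⟩
    set L := N62M.comp G (B \ {s 1, s 3}) k with hLdef
    have hLsub : L ⊆ B \ {s 1, s 3} := N62M.comp_subset hkY
    have hLB : L ⊆ B := hLsub.trans sdiff_subset
    have hxB : x ∉ B := fun h' => (hC.symm.notMemP h').1 rfl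
    have hyB : y ∉ B := fun h' => (hC.symm.notMemP h').2.1 rfl
    have hLs : ∀ j, s j ∉ L := by
      intro j hj
      have hj' := hLsub hj
      rw [mem_sdiff, mem_insert, mem_singleton, not_or] at hj'
      fin_cases j
      · exact hC.disj h0 hj'.1
      · exact hj'.2.1 rfl
      · exact hC.disj h2 hj'.1
      · exact hj'.2.2 rfl
    have hNB : NB G L = {s 1, s 3, c, d} := by
      refine nb_eq hNBF hG (hLB.trans hs.subQ) ⟨k, N62M.self_mem_comp _ _⟩ ?_ card_le_four
        (left_mem_VS (h.ax 0)) (fun h' => hxB (hLB h')) ?_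
      · intro w hw
        obtain ⟨hw1, a, ha, haw⟩ := mem_NB.1 hw
        simp only [mem_insert, mem_singleton]
        rcases hs.mem_or (right_mem_VS haw) with h5 | h5 | h5
        · rcases (hC.mT w).1 h5 with rfl | rfl | rfl | rfl
          · rcases h.nx a haw.symm with h6 | ⟨j, h6⟩
            · exact absurd (h6 ▸ haw.symm) hny
            · exact absurd (h6 ▸ ha) (hLs j)
          · rcases h.ny a haw.symm with h6 | ⟨j, h6⟩
            · exact absurd (h6 ▸ haw) hny
            · exact absurd (h6 ▸ ha) (hLs j)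
          · exact Or.inr (Or.inr (Or.inl rfl))
          · exact Or.inr (Or.inr (Or.inr rfl))
        · exact absurd haw.symm (hs.2.2.2.2 w h5 a (hLB ha))
        · by_contra hcon
          push Not at hcon
          exact hw1 (N62M.comp_closed hkY ha (by
            rw [mem_sdiff, mem_insert, mem_singleton]
            exact ⟨h5, fun h' => h'.elim hcon.1 hcon.2.1⟩) haw)
      · simp only [mem_insert, mem_singleton, not_or]
        exact ⟨(h.sx 1).1.symm, (h.sx 3).1.symm, hC.xc, hC.xd⟩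
    have hadj : ∀ w ∈ ({s 1, s 3, c, d} : Finset α), ∃ a ∈ L, G.Adj a w := by
      intro w hw
      rw [← hNB] at hw
      exact (mem_NB.1 hw).2
    refine ⟨L, hLB, hLs 1, hLs 3, ?_⟩
    intro e he
    obtain ⟨a, ha, hae⟩ := hadj e (by
      simp only [mem_insert, mem_singleton]
      exact Or.inr (Or.inr he))
    obtain ⟨a1, ha1, hae1⟩ := hadj (s 1) (by simp)
    obtain ⟨a3, ha3, hae3⟩ := hadj (s 3) (by simp)
    exact ⟨N62M.cset_union (N62M.cset_single e) (N62M.cset_comp hkY) (mem_singleton_self e) ha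
      hae.symm, ⟨a1, mem_union_right _ ha1, hae1⟩, ⟨a3, mem_union_right _ ha3, hae3⟩⟩

/-- the part `D` -/
theorem exists_D (hNBF : SpecNBF) (hG : K48 G) (h : DP G x y s)
    (hC : E4SM.CC G x y c d T A B) (h0 : s 0 ∈ A) (h2 : s 2 ∈ A) (h1 : s 1 ∈ B) (h3 : s 3 ∈ B) :
    ∃ (D : Finset α) (e : α), (e = c ∨ e = d) ∧ CSet G D ∧ s 0 ∈ D ∧ s 2 ∈ D ∧ e ∉ D ∧
      (∀ w ∈ D, w ∈ A ∨ w = c ∨ w = d) ∧ ∃ v ∈ D, G.Adj e v := by
  classical
  have hs := hC.sep
  have c4 : T.card ≤ 4 := by
    have : T ⊆ {x, y, c, d} := fun w hw => by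
      have := (hC.mT w).1 hw
      simpa using this
    exact (card_le_card this).trans card_le_four
  have hcT : c ∈ T := (hC.mT c).2 (Or.inr (Or.inr (Or.inl rfl)))
  have hdT : d ∈ T := (hC.mT d).2 (Or.inr (Or.inr (Or.inr rfl)))
  have hcA : c ∉ A := fun h' => (hC.notMemP h').2.2.1 rfl
  have hdA : d ∉ A := fun h' => (hC.notMemP h').2.2.2 rfl
  have hNB : ∀ p ∈ A, NB G (N62M.comp G A p) = T := by
    intro p hp
    have hsub := N62M.comp_subset (G := G) hp
    refine nb_eq hNBF hG (v := s 1) (hsub.trans hs.subP) ⟨p, N62M.self_mem_comp _ _⟩ ?_ c4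
      (hs.subQ h1) (fun h' => hC.disj (hsub h') h1)
      (Finset.disjoint_right.1 hs.2.2.1 h1)
    intro w hw
    obtain ⟨hw1, a, ha, haw⟩ := mem_NB.1 hw
    rcases hs.mem_or (right_mem_VS haw) with h5 | h5 | h5
    · exact h5
    · exact absurd (N62M.comp_closed hp ha h5 haw) hw1
    · exact absurd haw (hs.2.2.2.2 a (hsub ha) w h5)
  by_cases hcon : s 2 ∈ N62M.comp G A (s 0)
  · have hsub := N62M.comp_subset (G := G) h0
    obtain ⟨-, a, ha, hac⟩ := mem_NB.1 ((hNB _ h0).symm ▸ hcT)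
    exact ⟨N62M.comp G A (s 0), c, Or.inl rfl, N62M.cset_comp h0, N62M.self_mem_comp _ _, hcon,
      fun h' => hcA (hsub h'), fun w hw => Or.inl (hsub hw), a, ha, hac.symm⟩
  · -- the components are single vertices
    have hT4 : T.card = 4 := by
      refine le_antisymm c4 (hG.1.le_of_sep hs ⟨_, h0⟩ ⟨_, h1⟩)
    have hone : ∀ i j : Fin 4, s i ∈ A → s j ∉ N62M.comp G A (s i) →
        (∀ k, k = i ∨ k = j ∨ s k ∈ B) → N62M.comp G A (s i) = {s i} := by
      intro i j hi hj hk
      have hsub := N62M.comp_subset (G := G) hi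
      have hsep : Sep G T (N62M.comp G A (s i)) ((A \ N62M.comp G A (s i)) ∪ B) := by
        refine ⟨?_, disjoint_of_subset_right hsub hs.2.1, ?_, ?_, ?_⟩
        · rw [← hs.1]
          ext w
          simp only [mem_union, mem_sdiff]
          constructor
          · rintro ((h' | h') | (h' | h'))
            · exact Or.inl (Or.inl h')
            · exact Or.inl (Or.inr (hsub h'))
            · exact Or.inl (Or.inr h'.1)
            · exact Or.inr h'
          · rintro ((h' | h') | h')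
            · exact Or.inl (Or.inl h')
            · by_cases h6 : w ∈ N62M.comp G A (s i)
              · exact Or.inl (Or.inr h6)
              · exact Or.inr (Or.inl ⟨h', h6⟩)
            · exact Or.inr (Or.inr h')
        · rw [disjoint_union_right]
          exact ⟨disjoint_of_subset_right sdiff_subset hs.2.1, hs.2.2.1⟩
        · rw [disjoint_union_right]
          exact ⟨disjoint_sdiff, disjoint_of_subset_left hsub hs.2.2.2.1⟩
        · intro a ha b hb hab
          rcases mem_union.1 hb with hb | hb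
          · exact (mem_sdiff.1 hb).2 (N62M.comp_closed hi ha (mem_sdiff.1 hb).1 hab)
          · exact hs.2.2.2.2 a (hsub ha) b hb hab
      have hxT : x ∈ T := (hC.mT x).2 (Or.inl rfl)
      have hyT : y ∈ T := (hC.mT y).2 (Or.inr (Or.inl rfl))
      have hle := small hNBF hG h hsep hT4 hxT hyT i (fun k hkm => by
        rcases hk k with h' | h' | h'
        · exact h'
        · exact absurd (h' ▸ hkm) hj
        · exact (hC.disj (hsub hkm) h').elim)
      have hmem := N62M.self_mem_comp (G := G) A (s i)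
      ext w
      rw [mem_singleton]
      exact ⟨fun hw => card_le_one.1 hle w hw _ hmem, fun hw => hw ▸ hmem⟩
    have hcon' : s 0 ∉ N62M.comp G A (s 2) := by
      intro h'
      exact hcon (N62M.mem_comp.2 (N62M.mem_comp.1 h').symm)
    have e0 := hone 0 2 h0 hcon (by
      intro k
      fin_cases k
      · exact Or.inl rfl
      · exact Or.inr (Or.inr h1)
      · exact Or.inr (Or.inl rfl)
      · exact Or.inr (Or.inr h3))
    have e2 := hone 2 0 h2 hcon' (by
      intro k
      fin_cases k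
      · exact Or.inr (Or.inl rfl)
      · exact Or.inr (Or.inr h1)
      · exact Or.inl rfl
      · exact Or.inr (Or.inr h3))
    have hadj : ∀ i, s i ∈ A → N62M.comp G A (s i) = {s i} → ∀ w ∈ T, G.Adj (s i) w := by
      intro i hi he w hw
      rw [← hNB _ hi, he] at hw
      obtain ⟨-, a, ha, haw⟩ := mem_NB.1 hw
      rw [mem_singleton] at ha
      exact ha ▸ haw
    have a0c := hadj 0 h0 e0 c hcT
    have a0d := hadj 0 h0 e0 d hdT
    have a2c := hadj 2 h2 e2 c hcT
    refine ⟨{s 0, c, s 2}, d, Or.inr rfl, N6AM.cset_triple a0c a2c.symm, by simp, by simp, ?_,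
      ?_, s 0, by simp, a0d.symm⟩
    · simp only [mem_insert, mem_singleton, not_or]
      exact ⟨fun h' => hdA (h' ▸ h0), hC.cd.symm, fun h' => hdA (h' ▸ h2)⟩
    · intro w hw
      simp only [mem_insert, mem_singleton] at hw
      rcases hw with rfl | rfl | rfl
      · exact Or.inl h0
      · exact Or.inr (Or.inl rfl)
      · exact Or.inl h2

end split

end E5OM

open E4NM E5OM in
/-- **E5O** -/
theorem specE5O (hNPM : SpecNPM) (hNBF : SpecNBF) : SpecE5O := by
  classical
  intro α _ _ G x y s hG h33 h34 h44 hTW hS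
  obtain ⟨c, d, A, B, hn, hs, h0, h2, h1, h3⟩ := hS
  have h := dp hTW
  have hny : ¬ G.Adj x y := by
    intro hxy
    obtain ⟨i, hi⟩ := (hTW.nx y).1 hxy
    exact (hTW.sx i).2 hi.symm
  have hC := E4SM.of_nodup hn hs
  obtain ⟨L, hLB, hL1, hL3, hL⟩ := exists_L hNBF hG h33 h34 h44 h hny hC h0 h2 h1 h3
  obtain ⟨D, e, he, cD, d0, d2, heD, hD, v, hv, hev⟩ := exists_D hNBF hG h hC h0 h2 h1 h3
  obtain ⟨cK, ⟨k1, hk1, hk1'⟩, ⟨k3, hk3, hk3'⟩⟩ := hL e he
  have hxA : x ∉ A := fun h' => (hC.notMemP h').1 rfl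
  have hyA : y ∉ A := fun h' => (hC.notMemP h').2.1 rfl
  have hxB : x ∉ B := fun h' => (hC.symm.notMemP h').1 rfl
  have hyB : y ∉ B := fun h' => (hC.symm.notMemP h').2.1 rfl
  have hcB : c ∉ B := fun h' => (hC.symm.notMemP h').2.2.1 rfl
  have hdB : d ∉ B := fun h' => (hC.symm.notMemP h').2.2.2 rfl
  have hex : e ≠ x := by
    rcases he with rfl | rfl
    · exact hC.xc.symm
    · exact hC.xd.symm
  have hey : e ≠ y := by
    rcases he with rfl | rfl
    · exact hC.yc.symm
    · exact hC.yd.symm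
  have heB : e ∉ B := by
    rcases he with rfl | rfl
    · exact hcB
    · exact hdB
  have hxD : x ∉ D := fun h' => by
    rcases hD x h' with h5 | h5 | h5
    · exact hxA h5
    · exact hC.xc h5
    · exact hC.xd h5
  have hyD : y ∉ D := fun h' => by
    rcases hD y h' with h5 | h5 | h5
    · exact hyA h5
    · exact hC.yc h5
    · exact hC.yd h5
  have hBD : ∀ w ∈ B, w ∉ D := fun w hw h' => by
    rcases hD w h' with h5 | h5 | h5
    · exact hC.disj h5 hw
    · exact hcB (h5 ▸ hw)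
    · exact hdB (h5 ▸ hw)
  have hK : ∀ w, w ∈ {e} ∪ L → w = e ∨ w ∈ L := fun w hw => by
    simpa using hw
  have hxK : x ∉ {e} ∪ L := fun h' => by
    rcases hK x h' with h5 | h5
    · exact hex h5.symm
    · exact hxB (hLB h5)
  have hyK : y ∉ {e} ∪ L := fun h' => by
    rcases hK y h' with h5 | h5
    · exact hey h5.symm
    · exact hyB (hLB h5)
  have h1K : s 1 ∉ {e} ∪ L := fun h' => by
    rcases hK _ h' with h5 | h5
    · exact heB (h5 ▸ h1)
    · exact hL1 h5
  have h3K : s 3 ∉ {e} ∪ L := fun h' => by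
    rcases hK _ h' with h5 | h5
    · exact heB (h5 ▸ h3)
    · exact hL3 h5
  have hKD : Disjoint ({e} ∪ L) D := by
    rw [Finset.disjoint_left]
    intro w hw hw'
    rcases hK w hw with h5 | h5
    · exact heD (h5 ▸ hw')
    · exact hBD w (hLB h5) hw'
  have hne : ∀ i j : Fin 4, i ≠ j → s i ≠ s j := fun i j hij he => hij (h.inj he)
  have ndx : ∀ (i : Fin 4), i ≠ 2 → (DD G x (s 2) y (s 0)).Adj x (s i) := by
    intro i hi
    rw [dd_adj]
    refine ⟨h.ax i, fun h' => ?_, fun h' => ?_⟩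
    · rw [Sym2.eq_iff] at h'
      rcases h' with h' | h'
      · exact hne i 2 hi h'.2
      · exact (h.sx 2).1 h'.1.symm
    · rw [Sym2.eq_iff] at h'
      rcases h' with h' | h'
      · exact h.xy h'.1
      · exact (h.sx i).2 h'.2
  have ndy : ∀ (i : Fin 4), i ≠ 0 → (DD G x (s 2) y (s 0)).Adj y (s i) := by
    intro i hi
    rw [dd_adj]
    refine ⟨h.ay i, fun h' => ?_, fun h' => ?_⟩
    · rw [Sym2.eq_iff] at h'
      rcases h' with h' | h'
      · exact h.xy h'.1.symm
      · exact (h.sx i).1 h'.2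
    · rw [Sym2.eq_iff] at h'
      rcases h' with h' | h'
      · exact hne i 0 hi h'.2
      · exact (h.sx 0).2 h'.1.symm
  have nk : ∀ k ∈ {e} ∪ L, ∀ w, w ≠ x → w ≠ y → G.Adj k w → (DD G x (s 2) y (s 0)).Adj k w := by
    intro k hk w hwx hwy hkw
    exact dd_of_ne hkw (fun h' => hxK (h' ▸ hk)) hwx (fun h' => hyK (h' ▸ hk)) hwy
  refine N6AM.k33_of hNPM (A₀ := {x}) (A₁ := {y}) (A₂ := {e} ∪ L) (B₀ := {s 1}) (B₁ := {s 3})
    (B₂ := D) (N62M.cset_single x) (N62M.cset_single y) (cset_dd cK hxK hyK)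
    (N62M.cset_single _) (N62M.cset_single _) (cset_dd cD hxD hyD)
    (disjoint_singleton.2 h.xy) (disjoint_singleton_left.2 hxK) (disjoint_singleton_left.2 hyK)
    (disjoint_singleton.2 (hne 1 3 (by decide))) (disjoint_singleton_left.2 (hBD _ h1))
    (disjoint_singleton_left.2 (hBD _ h3)) ?_ ?_ ?_ ?_ ?_ ?_
  · rw [disjoint_singleton_left, mem_union, mem_union, mem_singleton, mem_singleton, not_or,
      not_or]
    exact ⟨⟨(h.sx 1).1.symm, (h.sx 3).1.symm⟩, hxD⟩
  · rw [disjoint_singleton_left, mem_union, mem_union, mem_singleton, mem_singleton, not_or,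
      not_or]
    exact ⟨⟨(h.sx 1).2.symm, (h.sx 3).2.symm⟩, hyD⟩
  · rw [disjoint_union_right, disjoint_union_right, disjoint_singleton_right,
      disjoint_singleton_right]
    exact ⟨⟨h1K, h3K⟩, hKD⟩
  · exact ⟨⟨x, mem_singleton_self x, s 1, mem_singleton_self _, ndx 1 (by decide)⟩,
      ⟨x, mem_singleton_self x, s 3, mem_singleton_self _, ndx 3 (by decide)⟩,
      ⟨x, mem_singleton_self x, s 0, d0, ndx 0 (by decide)⟩⟩
  · exact ⟨⟨y, mem_singleton_self y, s 1, mem_singleton_self _, ndy 1 (by decide)⟩,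
      ⟨y, mem_singleton_self y, s 3, mem_singleton_self _, ndy 3 (by decide)⟩,
      ⟨y, mem_singleton_self y, s 2, d2, ndy 2 (by decide)⟩⟩
  · exact ⟨⟨k1, hk1, s 1, mem_singleton_self _, nk k1 hk1 _ (h.sx 1).1 (h.sx 1).2 hk1'⟩,
      ⟨k3, hk3, s 3, mem_singleton_self _, nk k3 hk3 _ (h.sx 3).1 (h.sx 3).2 hk3'⟩,
      ⟨e, mem_union_left _ (mem_singleton_self e), v, hv,
        nk e (mem_union_left _ (mem_singleton_self e)) v (fun h' => hxD (h' ▸ hv))
          (fun h' => hyD (h' ▸ hv)) hev⟩⟩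

end DL
end
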