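import Pool.Agent.DL.E.Spec5
import Pool.Agent.DL.E.E3S

/-!
# Module E5Q: bad cuts of D-pair graphs
-/

set_option autoImplicit false

open SimpleGraph Finset

namespace DL

namespace E5QM

open E3SM

variable {α : Type} [Fintype α] [DecidableEq α] {G : SimpleGraph α}

/-- twins, with names -/
structure Tw4 (G : SimpleGraph α) (x y s₀ s₁ s₂ s₃ : α) : Prop where
  nxy : x ≠ y
  x0 : x ≠ s₀
  x1 : x ≠ s₁
  x2 : x ≠ s₂
  x3 : x ≠ s₃
  y0 : y ≠ s₀
  y1 : y ≠ s₁
  y2 : y ≠ s₂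
  y3 : y ≠ s₃
  n01 : s₀ ≠ s₁
  n02 : s₀ ≠ s₂
  n03 : s₀ ≠ s₃
  n12 : s₁ ≠ s₂
  n13 : s₁ ≠ s₃
  n23 : s₂ ≠ s₃
  nx : ∀ w, G.Adj x w ↔ w = s₀ ∨ w = s₁ ∨ w = s₂ ∨ w = s₃
  ny : ∀ w, G.Adj y w ↔ w = s₀ ∨ w = s₁ ∨ w = s₂ ∨ w = s₃

theorem tw4 {x y : α} {s : Fin 4 → α} (h : TW G x y s) :
    Tw4 G x y (s 0) (s 1) (s 2) (s 3) := by
  have hs : ∀ i j, i ≠ j → s i ≠ s j := fun i j hij e => hij (h.inj e)
  have hex : ∀ w, (∃ i, w = s i) ↔ w = s 0 ∨ w = s 1 ∨ w = s 2 ∨ w = s 3 := by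
    intro w
    constructor
    · rintro ⟨i, rfl⟩
      fin_cases i
      · exact Or.inl rfl
      · exact Or.inr (Or.inl rfl)
      · exact Or.inr (Or.inr (Or.inl rfl))
      · exact Or.inr (Or.inr (Or.inr rfl))
    · rintro (h | h | h | h)
      exacts [⟨0, h⟩, ⟨1, h⟩, ⟨2, h⟩, ⟨3, h⟩]
  exact
    { nxy := h.xy
      x0 := Ne.symm (h.sx 0).1
      x1 := Ne.symm (h.sx 1).1
      x2 := Ne.symm (h.sx 2).1
      x3 := Ne.symm (h.sx 3).1
      y0 := Ne.symm (h.sx 0).2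
      y1 := Ne.symm (h.sx 1).2
      y2 := Ne.symm (h.sx 2).2
      y3 := Ne.symm (h.sx 3).2
      n01 := hs 0 1 (by decide)
      n02 := hs 0 2 (by decide)
      n03 := hs 0 3 (by decide)
      n12 := hs 1 2 (by decide)
      n13 := hs 1 3 (by decide)
      n23 := hs 2 3 (by decide)
      nx := fun w => (h.nx w).trans (hex w)
      ny := fun w => (h.ny w).trans (hex w) }

/-- the rotation by two -/
theorem Tw4.rot {x y s₀ s₁ s₂ s₃ : α} (h : Tw4 G x y s₀ s₁ s₂ s₃) : Tw4 G x y s₂ s₃ s₀ s₁ :=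
  { nxy := h.nxy
    x0 := h.x2
    x1 := h.x3
    x2 := h.x0
    x3 := h.x1
    y0 := h.y2
    y1 := h.y3
    y2 := h.y0
    y3 := h.y1
    n01 := h.n23
    n02 := h.n02.symm
    n03 := h.n12.symm
    n12 := h.n03.symm
    n13 := h.n13.symm
    n23 := h.n01
    nx := fun w => by rw [h.nx]; tauto
    ny := fun w => by rw [h.ny]; tauto }

/-- the situation of a bad cut -/
structure Bc (G : SimpleGraph α) (x y s₀ s₁ s₂ s₃ q : α) (T' P Q : Finset α) : Prop where
  t : Tw4 G x y s₀ s₁ s₂ s₃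
  h' : Sep G T' P Q
  hT' : ∀ w, w ∈ T' ↔ w = x ∨ w = y ∨ w = s₁ ∨ w = s₃ ∨ w = q
  p0 : s₀ ∈ P
  q2 : s₂ ∈ Q

theorem bc {x y q : α} {s : Fin 4 → α} {P Q : Finset α} (hG : KConn 4 G) (ht : TW G x y s)
    (h : BC G x y s q P Q) :
    Bc G x y (s 0) (s 1) (s 2) (s 3) q ({x, y} ∪ {s 1, s 3, q}) P Q := by
  obtain ⟨-, -, ⟨h1, h2, h3, h4, h5⟩, h6, h7⟩ := h
  have hV : VS (del G {x, y}) = VS G \ {x, y} :=
    hG.VS_del (lt_of_le_of_lt card_le_two (by norm_num))
  have hx : x ∈ VS G := left_mem_VS ((ht.nx (s 0)).2 ⟨0, rfl⟩)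
  have hy : y ∈ VS G := left_mem_VS ((ht.ny (s 0)).2 ⟨0, rfl⟩)
  have hP : ∀ v ∈ P, v ∉ ({x, y} : Finset α) := by
    intro v hv
    have : v ∈ VS (del G {x, y}) := by
      rw [← h1]; exact mem_union_left _ (mem_union_right _ hv)
    rw [hV, mem_sdiff] at this
    exact this.2
  have hQ : ∀ v ∈ Q, v ∉ ({x, y} : Finset α) := by
    intro v hv
    have : v ∈ VS (del G {x, y}) := by
      rw [← h1]; exact mem_union_right _ hv
    rw [hV, mem_sdiff] at this
    exact this.2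
  have hxy : ({x, y} : Finset α) ⊆ VS G := by
    intro v hv
    rw [mem_insert, mem_singleton] at hv
    rcases hv with rfl | rfl
    · exact hx
    · exact hy
  refine ⟨tw4 ht, ⟨?_, ?_, ?_, h4, ?_⟩, ?_, h6, h7⟩
  · have e : ({x, y} ∪ {s 1, s 3, q} ∪ P ∪ Q : Finset α) = {x, y} ∪ ({s 1, s 3, q} ∪ P ∪ Q) := by
      rw [union_assoc, union_assoc, union_assoc]
    rw [e, h1, hV, union_sdiff_of_subset hxy]
  · rw [disjoint_union_left]
    exact ⟨Finset.disjoint_right.2 hP, h2⟩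
  · rw [disjoint_union_left]
    exact ⟨Finset.disjoint_right.2 hQ, h3⟩
  · intro a ha b hb hab
    exact h5 a ha b hb ⟨hab, hP a ha, hQ b hb⟩
  · intro w
    simp only [mem_union, mem_insert, mem_singleton, or_assoc]

theorem Bc.rot {x y s₀ s₁ s₂ s₃ q : α} {T' P Q : Finset α} (h : Bc G x y s₀ s₁ s₂ s₃ q T' P Q) :
    Bc G x y s₂ s₃ s₀ s₁ q T' Q P :=
  { t := h.t.rot
    h' := h.h'.symm
    hT' := fun w => by rw [h.hT']; tauto
    p0 := h.q2
    q2 := h.p0 }

section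
variable {x y s₀ s₁ s₂ s₃ q : α} {T' P Q : Finset α}

theorem Bc.xT (h : Bc G x y s₀ s₁ s₂ s₃ q T' P Q) : x ∈ T' := (h.hT' x).2 (Or.inl rfl)

theorem Bc.yT (h : Bc G x y s₀ s₁ s₂ s₃ q T' P Q) : y ∈ T' := (h.hT' y).2 (Or.inr (Or.inl rfl))

theorem Bc.s1T (h : Bc G x y s₀ s₁ s₂ s₃ q T' P Q) : s₁ ∈ T' :=
  (h.hT' s₁).2 (Or.inr (Or.inr (Or.inl rfl)))

theorem Bc.s3T (h : Bc G x y s₀ s₁ s₂ s₃ q T' P Q) : s₃ ∈ T' :=
  (h.hT' s₃).2 (Or.inr (Or.inr (Or.inr (Or.inl rfl))))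

theorem Bc.qT (h : Bc G x y s₀ s₁ s₂ s₃ q T' P Q) : q ∈ T' :=
  (h.hT' q).2 (Or.inr (Or.inr (Or.inr (Or.inr rfl))))

/-- `x` and `y` have in `P` only the neighbour `s₀` -/
theorem Bc.inP (h : Bc G x y s₀ s₁ s₂ s₃ q T' P Q) {v w : α} (hv : v ∈ P) (hvw : G.Adj v w)
    (hw : w = x ∨ w = y) : v = s₀ := by
  have h1 : v = s₀ ∨ v = s₁ ∨ v = s₂ ∨ v = s₃ := by
    rcases hw with rfl | rfl
    · exact (h.t.nx v).1 hvw.symm
    · exact (h.t.ny v).1 hvw.symm
  rcases h1 with h1 | h1 | h1 | h1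
  · exact h1
  · exact absurd hv (TA h.h' (h1 ▸ h.s1T))
  · exact absurd (h1 ▸ h.q2) (AB h.h' hv)
  · exact absurd hv (TA h.h' (h1 ▸ h.s3T))

theorem Bc.inQ (h : Bc G x y s₀ s₁ s₂ s₃ q T' P Q) {v w : α} (hv : v ∈ Q) (hvw : G.Adj v w)
    (hw : w = x ∨ w = y) : v = s₂ := h.rot.inP hv hvw hw

/-- excluded neighbourhoods -/
theorem excl {x y u v c d : α} (h33 : No33 G) (h34 : No34 G) (nd : [x, y, u, v, c, d].Nodup)
    (hu : ∀ w, G.Adj u w ↔ w = x ∨ w = y ∨ w = v ∨ w = d)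
    (hv : ∀ w, G.Adj v w → w = x ∨ w = y ∨ w = u ∨ w = c ∨ w = d) (hvx : G.Adj v x)
    (hvy : G.Adj v y) (hvc : G.Adj v c) : False := by
  simp only [List.nodup_cons, List.mem_cons, List.not_mem_nil, or_false, not_or,
    List.nodup_nil, and_true, not_false_eq_true] at nd
  obtain ⟨⟨a1, a2, a3, a4, a5⟩, ⟨b1, b2, b3, b4⟩, ⟨c1, c2, c3⟩, ⟨d1, d2⟩, e1⟩ := nd
  have hvu : G.Adj v u := ((hu v).2 (by tauto)).symm
  by_cases hvd : G.Adj v d
  · refine h34 u v c x y d ⟨?_, fun w => ?_, fun w => ?_⟩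
    · simp only [List.nodup_cons, List.mem_cons, List.not_mem_nil, or_false, not_or,
        List.nodup_nil, and_true, not_false_eq_true]
      exact ⟨⟨c1, c2, Ne.symm a2, Ne.symm b1, c3⟩, ⟨d1, Ne.symm a3, Ne.symm b2, d2⟩,
        ⟨Ne.symm a4, Ne.symm b3, e1⟩, ⟨a1, a5⟩, b4⟩
    · rw [hu]; tauto
    · constructor
      · intro hw
        have := hv w hw
        tauto
      · rintro (rfl | rfl | rfl | rfl | rfl) <;> assumption
  · refine h33 u v c d x y ⟨?_, fun w => ?_, fun w => ?_⟩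
    · simp only [List.nodup_cons, List.mem_cons, List.not_mem_nil, or_false, not_or,
        List.nodup_nil, and_true, not_false_eq_true]
      exact ⟨⟨c1, c2, c3, Ne.symm a2, Ne.symm b1⟩, ⟨d1, d2, Ne.symm a3, Ne.symm b2⟩,
        ⟨e1, Ne.symm a4, Ne.symm b3⟩, ⟨Ne.symm a5, Ne.symm b4⟩, a1⟩
    · rw [hu]; tauto
    · constructor
      · intro hw
        rcases hv w hw with h1 | h1 | h1 | h1 | h1
        · tauto
        · tauto
        · tauto
        · tauto
        · exact absurd (h1 ▸ hw) hvd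
      · rintro (rfl | rfl | rfl | rfl) <;> assumption

end

/-! ## The first part -/

/-- a split and a bad cut -/
structure St (G : SimpleGraph α) (x y s₀ s₁ s₂ s₃ q c d : α) (T A B T' P Q : Finset α) : Prop where
  b : Bc G x y s₀ s₁ s₂ s₃ q T' P Q
  h : Sep G T A B
  hT : ∀ w, w ∈ T ↔ w = x ∨ w = y ∨ w = c ∨ w = d
  T4 : T.card ≤ 4
  xc : x ≠ c
  xd : x ≠ d
  yc : y ≠ c
  yd : y ≠ d
  cd : c ≠ d
  a0 : s₀ ∈ A
  a3 : s₃ ∈ A
  b1 : s₁ ∈ B
  b2 : s₂ ∈ B

section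
variable {x y s₀ s₁ s₂ s₃ q c d : α} {T A B T' P Q : Finset α}

theorem St.flip (h : St G x y s₀ s₁ s₂ s₃ q c d T A B T' P Q) :
    St G x y s₂ s₃ s₀ s₁ q c d T B A T' Q P :=
  ⟨h.b.rot, h.h.symm, h.hT, h.T4, h.xc, h.xd, h.yc, h.yd, h.cd, h.b2, h.b1, h.a3, h.a0⟩

theorem St.swp (h : St G x y s₀ s₁ s₂ s₃ q c d T A B T' P Q) :
    St G x y s₀ s₁ s₂ s₃ q d c T A B T' P Q :=
  ⟨h.b, h.h, fun w => by rw [h.hT]; tauto, h.T4, h.xd, h.xc, h.yd, h.yc, h.cd.symm, h.a0, h.a3,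
    h.b1, h.b2⟩

theorem St.xT (h : St G x y s₀ s₁ s₂ s₃ q c d T A B T' P Q) : x ∈ T := (h.hT x).2 (Or.inl rfl)

theorem St.yT (h : St G x y s₀ s₁ s₂ s₃ q c d T A B T' P Q) : y ∈ T :=
  (h.hT y).2 (Or.inr (Or.inl rfl))

theorem St.cT (h : St G x y s₀ s₁ s₂ s₃ q c d T A B T' P Q) : c ∈ T :=
  (h.hT c).2 (Or.inr (Or.inr (Or.inl rfl)))

theorem St.dT (h : St G x y s₀ s₁ s₂ s₃ q c d T A B T' P Q) : d ∈ T := h.swp.cT

/-- `c` is not in `T'` -/
theorem St.cT' (h : St G x y s₀ s₁ s₂ s₃ q c d T A B T' P Q) (hq : c ≠ q) : c ∉ T' := by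
  intro hc
  rcases (h.b.hT' c).1 hc with e | e | e | e | e
  · exact h.xc e.symm
  · exact h.yc e.symm
  · exact TB h.h h.cT (e ▸ h.b1)
  · exact TA h.h h.cT (e ▸ h.a3)
  · exact hq e

theorem St.PQ (h : St G x y s₀ s₁ s₂ s₃ q c d T A B T' P Q) (hq : c ≠ q) : c ∈ P ∨ c ∈ Q :=
  (h.b.h'.mem_or (h.h.subS h.cT)).resolve_left (h.cT' hq)

/-- `B ∩ P` is empty (`q ∈ A` or `q = c`) -/
theorem St.BP (hG : K48 G) (h : St G x y s₀ s₁ s₂ s₃ q c d T A B T' P Q) (hq : q ∉ B) {v : α}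
    (hv : v ∈ B) : v ∉ P := by
  intro hv'
  have h1 : 4 ≤ ({s₁, c, d} : Finset α).card := by
    refine corner hG.1 h.h.symm h.b.h' hv hv' h.a0 ?_
    rintro w hw ⟨u, hu, hu', huw⟩
    simp only [mem_insert, mem_singleton]
    have hux : w = x ∨ w = y → False := fun e =>
      AB h.h (h.a0) (h.b.inP hu' huw e ▸ hu)
    rw [mem_W] at hw
    rcases hw with ⟨h1, h2⟩ | ⟨h1, h2⟩ | ⟨h1, h2⟩
    · rcases (h.hT w).1 h1 with e | e | e | e <;> tauto
    · rcases (h.b.hT' w).1 h1 with e | e | e | e | e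
      · tauto
      · tauto
      · tauto
      · exact absurd h2 (AB h.h (e ▸ h.a3))
      · exact absurd (e ▸ h2) hq
    · rcases (h.hT w).1 h1 with e | e | e | e <;> tauto
  have := h1.trans card_le_three
  omega

theorem St.AQ (hG : K48 G) (h : St G x y s₀ s₁ s₂ s₃ q c d T A B T' P Q) (hq : q ∉ A) {v : α}
    (hv : v ∈ A) : v ∉ Q := h.flip.BP hG hq hv

/-- neighbours of `s₀` -/
theorem St.n0 (h : St G x y s₀ s₁ s₂ s₃ q c d T A B T' P Q) {w : α} (hw : G.Adj s₀ w) :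
    (w ∈ A ∧ w ∈ P) ∨ w ∈ W T A T' P := nbr h.h h.b.h' h.a0 h.b.p0 hw

/-- a vertex `c` of the cut which is not adjacent to `s₀` is adjacent to `s₃` if `A ⊆ {s₀, s₃}` -/
theorem St.adjc (hG : K48 G) (h : St G x y s₀ s₁ s₂ s₃ q c d T A B T' P Q)
    (hA : ∀ v ∈ A, v = s₀ ∨ v = s₃) (hc : ¬ G.Adj s₀ c) : G.Adj s₃ c := by
  obtain ⟨p, hp, hcp⟩ := hG.1.exists_adj_of_sep h.h ⟨s₀, h.a0⟩ h.T4 h.cT
  rcases hA p hp with e | e
  · exact absurd (e ▸ hcp.symm) hc
  · exact e ▸ hcp.symm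

/-- two adjacent special vertices: excluded -/
theorem St.fin (hG : K48 G) (h33 : No33 G) (h34 : No34 G)
    (h : St G x y s₀ s₁ s₂ s₃ q c d T A B T' P Q) (hA : ∀ v ∈ A, v = s₀ ∨ v = s₃)
    (h0 : ∀ w, G.Adj s₀ w ↔ w = x ∨ w = y ∨ w = s₃ ∨ w = d) : False := by
  have ht := h.b.t
  have hc0 : c ≠ s₀ := fun e => TA h.h h.cT (e ▸ h.a0)
  have hd0 : d ≠ s₀ := fun e => TA h.h h.dT (e ▸ h.a0)
  have hc3 : c ≠ s₃ := fun e => TA h.h h.cT (e ▸ h.a3)
  have hd3 : d ≠ s₃ := fun e => TA h.h h.dT (e ▸ h.a3)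
  refine excl h33 h34 (x := x) (y := y) (u := s₀) (v := s₃) (c := c) (d := d) ?_ h0 ?_ ?_ ?_ ?_
  · simp only [List.nodup_cons, List.mem_cons, List.not_mem_nil, or_false, not_or,
      List.nodup_nil, and_true, not_false_eq_true]
    exact ⟨⟨ht.nxy, ht.x0, ht.x3, h.xc, h.xd⟩, ⟨ht.y0, ht.y3, h.yc, h.yd⟩,
      ⟨ht.n03, Ne.symm hc0, Ne.symm hd0⟩, ⟨Ne.symm hc3, Ne.symm hd3⟩, h.cd⟩
  · intro w hw
    rcases h.h.mem_or (right_mem_VS hw) with h1 | h1 | h1
    · rcases (h.hT w).1 h1 with e | e | e | e <;> tauto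
    · rcases hA w h1 with e | e
      · tauto
      · exact absurd e hw.ne'
    · exact absurd hw (h.h.2.2.2.2 s₃ h.a3 w h1)
  · exact ((ht.nx s₃).2 (by tauto)).symm
  · exact ((ht.ny s₃).2 (by tauto)).symm
  · refine h.adjc hG hA ?_
    intro h1
    rcases (h0 c).1 h1 with e | e | e | e
    · exact h.xc e.symm
    · exact h.yc e.symm
    · exact hc3 e
    · exact h.cd e

/-- the case `q ∈ A`, `c ∈ P`, `d ∈ Q` is impossible -/
theorem St.bad1 (hG : K48 G) (h33 : No33 G) (h34 : No34 G)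
    (h : St G x y s₀ s₁ s₂ s₃ q c d T A B T' P Q) (hq : q ∈ A) (hc : c ∈ P) (_hd : d ∈ Q) :
    False := by
  have hqB : q ∉ B := AB h.h hq
  have hcq : c ≠ q := fun e => TA h.h h.cT (e ▸ hq)
  have hdq : d ≠ q := fun e => TA h.h h.dT (e ▸ hq)
  -- `B ∩ Q = {s₂}`
  have h2 : ∀ v, v ∈ B → v ∈ Q → v = s₂ := by
    refine corner_one hG.1 h.h.symm h.b.h'.symm (X := {s₁, d}) h.a0 ?_ card_le_two
    rintro w hw ⟨u, hu, hu', hne, huw⟩
    simp only [mem_insert, mem_singleton]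
    have hux : w = x ∨ w = y → False := fun e => hne (h.b.inQ hu' huw e)
    rw [mem_W] at hw
    rcases hw with ⟨h1, h2⟩ | ⟨h1, h2⟩ | ⟨h1, h2⟩
    · rcases (h.hT w).1 h1 with e | e | e | e
      · tauto
      · tauto
      · exact absurd (e ▸ h2) (AB h.b.h' hc)
      · tauto
    · rcases (h.b.hT' w).1 h1 with e | e | e | e | e
      · tauto
      · tauto
      · tauto
      · exact absurd h2 (AB h.h (e ▸ h.a3))
      · exact absurd (e ▸ h2) hqB
    · rcases (h.hT w).1 h1 with e | e | e | e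
      · tauto
      · tauto
      · exact absurd (e ▸ h2) (h.cT' hcq)
      · exact absurd (e ▸ h2) (h.swp.cT' hdq)
  have hB : ∀ v ∈ B, v = s₂ ∨ v = s₁ := by
    intro v hv
    rcases h.b.h'.mem_or (h.h.subQ hv) with h3 | h3 | h3
    · rcases (h.b.hT' v).1 h3 with e | e | e | e | e
      · exact absurd hv (TB h.h (e ▸ h.xT))
      · exact absurd hv (TB h.h (e ▸ h.yT))
      · exact Or.inr e
      · exact absurd hv (AB h.h (e ▸ h.a3))
      · exact absurd (e ▸ hv) hqB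
    · exact absurd h3 (h.BP hG hqB hv)
    · exact Or.inl (h2 v hv h3)
  refine h.flip.fin hG h33 h34 hB (deg4 hG.1 (h.h.subQ h.b2) fun w hw => ?_)
  rcases h.flip.n0 hw with h3 | h3
  · exact absurd (h2 w h3.1 h3.2) hw.ne'
  · rw [mem_W] at h3
    rcases h3 with ⟨h1, h3⟩ | ⟨h1, h3⟩ | ⟨h1, h3⟩
    · rcases (h.hT w).1 h1 with e | e | e | e
      · tauto
      · tauto
      · exact absurd (e ▸ h3) (AB h.b.h' hc)
      · tauto
    · rcases (h.b.hT' w).1 h1 with e | e | e | e | e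
      · tauto
      · tauto
      · tauto
      · exact absurd h3 (AB h.h (e ▸ h.a3))
      · exact absurd (e ▸ h3) hqB
    · rcases (h.hT w).1 h1 with e | e | e | e
      · tauto
      · tauto
      · exact absurd (e ▸ h3) (h.cT' hcq)
      · exact absurd (e ▸ h3) (h.swp.cT' hdq)

/-- the case `q ∈ A`, `c, d ∈ P` is impossible -/
theorem St.bad2 (hG : K48 G) (h : St G x y s₀ s₁ s₂ s₃ q c d T A B T' P Q) (hq : q ∈ A)
    (hc : c ∈ P) (hd : d ∈ P) : False := by
  have hqB : q ∉ B := AB h.h hq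
  have hcq : c ≠ q := fun e => TA h.h h.cT (e ▸ hq)
  have hdq : d ≠ q := fun e => TA h.h h.dT (e ▸ hq)
  have h1 : 4 ≤ ({x, y, s₁} : Finset α).card := by
    refine corner hG.1 h.h.symm h.b.h'.symm h.b2 h.b.q2 h.a0 ?_
    rintro w hw -
    simp only [mem_insert, mem_singleton]
    rw [mem_W] at hw
    rcases hw with ⟨h1, h2⟩ | ⟨h1, h2⟩ | ⟨h1, h2⟩
    · rcases (h.hT w).1 h1 with e | e | e | e
      · tauto
      · tauto
      · exact absurd (e ▸ h2) (AB h.b.h' hc)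
      · exact absurd (e ▸ h2) (AB h.b.h' hd)
    · rcases (h.b.hT' w).1 h1 with e | e | e | e | e
      · tauto
      · tauto
      · tauto
      · exact absurd h2 (AB h.h (e ▸ h.a3))
      · exact absurd (e ▸ h2) hqB
    · rcases (h.hT w).1 h1 with e | e | e | e
      · tauto
      · tauto
      · exact absurd (e ▸ h2) (h.cT' hcq)
      · exact absurd (e ▸ h2) (h.swp.cT' hdq)
  have := h1.trans card_le_three
  omega

/-- the case `q ∈ A` -/
theorem St.caseA (hG : K48 G) (h33 : No33 G) (h34 : No34 G)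
    (h : St G x y s₀ s₁ s₂ s₃ q c d T A B T' P Q) (hq : q ∈ A) :
    P = {s₀} ∧ (∀ w, G.Adj s₀ w ↔ w = x ∨ w = y ∨ w = s₃ ∨ w = q) ∧ ¬ G.Adj s₁ q := by
  have hqB : q ∉ B := AB h.h hq
  have hcq : c ≠ q := fun e => TA h.h h.cT (e ▸ hq)
  have hdq : d ≠ q := fun e => TA h.h h.dT (e ▸ hq)
  have hcd : c ∈ Q ∧ d ∈ Q := by
    rcases h.PQ hcq with hc | hc
    · rcases h.swp.PQ hdq with hd | hd
      · exact (h.bad2 hG hq hc hd).elim
      · exact (h.bad1 hG h33 h34 hq hc hd).elim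
    · rcases h.swp.PQ hdq with hd | hd
      · exact (h.swp.bad1 hG h33 h34 hq hd hc).elim
      · exact ⟨hc, hd⟩
  obtain ⟨hc, hd⟩ := hcd
  have hW : ∀ w, w ∈ W T A T' P → w = x ∨ w = y ∨ w = s₃ ∨ w = q := by
    intro w hw
    rw [mem_W] at hw
    rcases hw with ⟨h1, h2⟩ | ⟨h1, h2⟩ | ⟨h1, h2⟩
    · rcases (h.hT w).1 h1 with e | e | e | e
      · tauto
      · tauto
      · exact absurd (e ▸ hc) (AB h.b.h' h2)
      · exact absurd (e ▸ hd) (AB h.b.h' h2)
    · rcases (h.b.hT' w).1 h1 with e | e | e | e | e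
      · tauto
      · tauto
      · exact absurd (e ▸ h.b1) (AB h.h h2)
      · tauto
      · tauto
    · rcases (h.hT w).1 h1 with e | e | e | e
      · tauto
      · tauto
      · exact absurd (e ▸ h2) (h.cT' hcq)
      · exact absurd (e ▸ h2) (h.swp.cT' hdq)
  have h2 : ∀ v, v ∈ A → v ∈ P → v = s₀ := by
    refine corner_one hG.1 h.h h.b.h' (X := {s₃, q}) h.b1 ?_ card_le_two
    rintro w hw ⟨u, hu, hu', hne, huw⟩
    simp only [mem_insert, mem_singleton]
    have hux : w = x ∨ w = y → False := fun e => hne (h.b.inP hu' huw e)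
    have := hW w hw
    tauto
  refine ⟨?_, deg4 hG.1 (h.h.subP h.a0) fun w hw => ?_, ?_⟩
  · ext v
    rw [mem_singleton]
    refine ⟨fun hv => ?_, fun hv => hv ▸ h.b.p0⟩
    rcases h.h.mem_or (h.b.h'.subP hv) with h3 | h3 | h3
    · rcases (h.hT v).1 h3 with e | e | e | e
      · exact absurd hv (TA h.b.h' (e ▸ h.b.xT))
      · exact absurd hv (TA h.b.h' (e ▸ h.b.yT))
      · exact absurd (e ▸ hc) (AB h.b.h' hv)
      · exact absurd (e ▸ hd) (AB h.b.h' hv)
    · exact h2 v h3 hv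
    · exact absurd hv (h.BP hG hqB h3)
  · rcases h.n0 hw with h3 | h3
    · exact absurd (h2 w h3.1 h3.2) hw.ne'
    · exact hW w h3
  · exact fun e => h.h.2.2.2.2 q hq s₁ h.b1 e.symm

/-- the case `q = c`, `d ∈ Q` is impossible -/
theorem St.caseT (hG : K48 G) (h33 : No33 G) (h34 : No34 G)
    (h : St G x y s₀ s₁ s₂ s₃ q c d T A B T' P Q) (hq : q = c) (hd : d ∈ Q) : False := by
  have hqA : q ∉ A := by rw [hq]; exact TA h.h h.cT
  have hqT : q ∈ T := by rw [hq]; exact h.cT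
  have hdq : d ≠ q := fun e => h.cd (hq ▸ e.symm)
  have hW : ∀ w, w ∈ W T A T' P → w = x ∨ w = y ∨ w = s₃ ∨ w = c := by
    intro w hw
    rw [mem_W] at hw
    rcases hw with ⟨h1, h2⟩ | ⟨h1, h2⟩ | ⟨h1, h2⟩
    · rcases (h.hT w).1 h1 with e | e | e | e
      · tauto
      · tauto
      · tauto
      · exact absurd (e ▸ hd) (AB h.b.h' h2)
    · rcases (h.b.hT' w).1 h1 with e | e | e | e | e
      · tauto
      · tauto
      · exact absurd (e ▸ h.b1) (AB h.h h2)
      · tauto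
      · exact absurd (e ▸ h2) hqA
    · rcases (h.hT w).1 h1 with e | e | e | e
      · tauto
      · tauto
      · tauto
      · exact absurd (e ▸ h2) (h.swp.cT' hdq)
  have h2 : ∀ v, v ∈ A → v ∈ P → v = s₀ := by
    refine corner_one hG.1 h.h h.b.h' (X := {s₃, c}) h.b1 ?_ card_le_two
    rintro w hw ⟨u, hu, hu', hne, huw⟩
    simp only [mem_insert, mem_singleton]
    have hux : w = x ∨ w = y → False := fun e => hne (h.b.inP hu' huw e)
    have := hW w hw
    tauto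
  have hA : ∀ v ∈ A, v = s₀ ∨ v = s₃ := by
    intro v hv
    rcases h.b.h'.mem_or (h.h.subP hv) with h3 | h3 | h3
    · rcases (h.b.hT' v).1 h3 with e | e | e | e | e
      · exact absurd hv (TA h.h (e ▸ h.xT))
      · exact absurd hv (TA h.h (e ▸ h.yT))
      · exact absurd (e ▸ h.b1) (AB h.h hv)
      · exact Or.inr e
      · exact absurd (e ▸ hv) hqA
    · exact Or.inl (h2 v hv h3)
    · exact absurd h3 (h.AQ hG hqA hv)
  refine h.swp.fin hG h33 h34 hA (deg4 hG.1 (h.h.subP h.a0) fun w hw => ?_)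
  rcases h.n0 hw with h3 | h3
  · exact absurd (h2 w h3.1 h3.2) hw.ne'
  · exact hW w h3

theorem St.caseC (hG : K48 G) (h33 : No33 G) (h34 : No34 G)
    (h : St G x y s₀ s₁ s₂ s₃ q c d T A B T' P Q) (hq : q = c) : False := by
  have hdq : d ≠ q := fun e => h.cd (hq ▸ e.symm)
  rcases h.swp.PQ hdq with hd | hd
  · exact h.flip.caseT hG h33 h34 hq hd
  · exact h.caseT hG h33 h34 hq hd

end

/-! ## The second part -/

section
variable {x y s₀ s₁ s₂ s₃ q : α} {T' P Q : Finset α}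

/-- no disjoint paths, by reachability -/
def Nd (G : SimpleGraph α) (x y s₀ s₁ s₂ s₃ : α) : Prop :=
  ∀ X Y : Finset α, x ∉ X → y ∉ X → x ∉ Y → y ∉ Y → Disjoint X Y →
    (del G (univ \ X)).Reachable s₀ s₁ → (del G (univ \ Y)).Reachable s₂ s₃ → False

theorem nd_of {s : Fin 4 → α} (h : ND G x y s) : Nd G x y (s 0) (s 1) (s 2) (s 3) := by
  intro X Y hx1 hy1 hx2 hy2 hXY h1 h2
  obtain ⟨P, hP⟩ := exists_isPth h1
  obtain ⟨Q, hQ⟩ := exists_isPth h2
  have key : ∀ X : Finset α, x ∉ X → y ∉ X → del G (univ \ X) ≤ del G {x, y} := by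
    intro X hx hy a b hab
    have ha : a ∈ X := by
      by_contra hc; exact hab.2.1 (mem_sdiff.2 ⟨mem_univ _, hc⟩)
    have hb : b ∈ X := by
      by_contra hc; exact hab.2.2 (mem_sdiff.2 ⟨mem_univ _, hc⟩)
    refine ⟨hab.1, ?_, ?_⟩
    · rw [mem_insert, mem_singleton]
      rintro (rfl | rfl)
      · exact hx ha
      · exact hy ha
    · rw [mem_insert, mem_singleton]
      rintro (rfl | rfl)
      · exact hx hb
      · exact hy hb
  have hvs : ∀ (X : Finset α) {a b : α} {R : Finset (Sym2 α)},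
      IsPth (del G (univ \ X)) a b R → vs R ⊆ X := by
    intro X a b R hR v hv
    have := (mem_sdiff.1 (VS_del_subset _ (hR.vs_subset hv))).2
    by_contra hc
    exact this (mem_sdiff.2 ⟨mem_univ _, hc⟩)
  exact h P Q (hP.mono (key X hx1 hy1)) (hQ.mono (key Y hx2 hy2))
    (Disjoint.mono (hvs X hP) (hvs Y hQ) hXY)

theorem Nd.rot (h : Nd G x y s₀ s₁ s₂ s₃) : Nd G x y s₂ s₃ s₀ s₁ :=
  fun X Y h1 h2 h3 h4 h5 h6 h7 => h Y X h3 h4 h1 h2 h5.symm h7 h6

/-- `P` is connected -/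
theorem Bc.conn (hG : K48 G) (h : Bc G x y s₀ s₁ s₂ s₃ q T' P Q) {v : α} (hv : v ∈ P) :
    (del G (univ \ P)).Reachable s₀ v := by
  classical
  by_contra hcon
  have hmem : ∀ {u : α}, u ∈ P → u ∉ univ \ P := fun hu h' => (mem_sdiff.1 h').2 hu
  have h1 : 4 ≤ ({s₁, s₃, q} : Finset α).card := by
    refine four_le hG.1 (D := P.filter fun v => ¬ (del G (univ \ P)).Reachable s₀ v)
      ((filter_subset _ _).trans h.h'.subP) ⟨v, mem_filter.2 ⟨hv, hcon⟩⟩ (h.h'.subQ h.q2)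
      (fun h2 => AB h.h' (mem_filter.1 h2).1 h.q2)
      (fun v hv => h.h'.2.2.2.2 v (mem_filter.1 hv).1 s₂ h.q2) fun u hu w huw => ?_
    rw [mem_filter] at hu
    rcases h.h'.mem_or (right_mem_VS huw) with h2 | h2 | h2
    · right
      simp only [mem_insert, mem_singleton]
      rcases (h.hT' w).1 h2 with e | e | e | e | e
      · exact absurd (h.inP hu.1 huw (Or.inl e) ▸ Reachable.refl _) hu.2
      · exact absurd (h.inP hu.1 huw (Or.inr e) ▸ Reachable.refl _) hu.2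
      all_goals tauto
    · left
      rw [mem_filter]
      refine ⟨h2, fun h3 => hu.2 (h3.trans (Adj.reachable ⟨huw.symm, hmem h2, hmem hu.1⟩))⟩
    · exact absurd huw (h.h'.2.2.2.2 u hu.1 w h2)
  have := h1.trans card_le_three
  omega

/-- a path from `s₀` to `s₁` in `P ∪ {s₁}` -/
theorem Bc.pth (hG : K48 G) (h : Bc G x y s₀ s₁ s₂ s₃ q T' P Q) {u p : α} (hp : p ∈ P)
    (hup : G.Adj u p) : (del G (univ \ insert u P)).Reachable s₀ u := by
  have h1 := (h.conn hG hp).mono (del_anti (G := G) (S := univ \ insert u P) (T := univ \ P)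
    (sdiff_subset_sdiff (Subset.refl _) (subset_insert _ _)))
  refine h1.trans (Adj.reachable ⟨hup.symm, ?_, ?_⟩)
  · exact fun h' => (mem_sdiff.1 h').2 (mem_insert_of_mem hp)
  · exact fun h' => (mem_sdiff.1 h').2 (mem_insert_self _ _)

theorem Bc.main1 (hG : K48 G) (h : Bc G x y s₀ s₁ s₂ s₃ q T' P Q) (hN : Nd G x y s₀ s₁ s₂ s₃) :
    (∀ p ∈ P, ¬ G.Adj s₁ p) ∨ ∀ p ∈ Q, ¬ G.Adj s₃ p := by
  by_contra hcon
  push Not at hcon
  obtain ⟨⟨p, hp, h1⟩, r, hr, h2⟩ := hcon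
  have hxP := TA h.h' h.xT
  have hyP := TA h.h' h.yT
  have hxQ := TB h.h' h.xT
  have hyQ := TB h.h' h.yT
  refine hN (insert s₁ P) (insert s₃ Q) ?_ ?_ ?_ ?_ ?_ (h.pth hG hp h1) (h.rot.pth hG hr h2)
  · rw [mem_insert, not_or]; exact ⟨h.t.x1, hxP⟩
  · rw [mem_insert, not_or]; exact ⟨h.t.y1, hyP⟩
  · rw [mem_insert, not_or]; exact ⟨h.t.x3, hxQ⟩
  · rw [mem_insert, not_or]; exact ⟨h.t.y3, hyQ⟩
  · rw [Finset.disjoint_left]
    intro v hv hv'
    rw [mem_insert] at hv hv'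
    rcases hv with hv | hv
    · rcases hv' with hv' | hv'
      · exact h.t.n13 (hv.symm.trans hv')
      · exact TB h.h' h.s1T (hv ▸ hv')
    · rcases hv' with hv' | hv'
      · exact TA h.h' h.s3T (hv' ▸ hv)
      · exact AB h.h' hv hv'

theorem Bc.main2 (hG : K48 G) (h : Bc G x y s₀ s₁ s₂ s₃ q T' P Q) (hN : Nd G x y s₀ s₁ s₂ s₃)
    (h1P : ∀ p ∈ P, ¬ G.Adj s₁ p) :
    P = {s₀} ∧ (∀ w, G.Adj s₀ w ↔ w = x ∨ w = y ∨ w = s₃ ∨ w = q) ∧ ¬ G.Adj s₁ q := by
  classical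
  have hP : P = {s₀} := by
    ext v
    rw [mem_singleton]
    refine ⟨fun hv => ?_, fun hv => hv ▸ h.p0⟩
    by_contra hne
    have h1 : 4 ≤ ({s₀, s₃, q} : Finset α).card := by
      refine four_le hG.1 (D := P.erase s₀) ((erase_subset _ _).trans h.h'.subP)
        ⟨v, mem_erase.2 ⟨hne, hv⟩⟩ (h.h'.subQ h.q2)
        (fun h2 => AB h.h' (mem_erase.1 h2).2 h.q2)
        (fun v hv => h.h'.2.2.2.2 v (mem_erase.1 hv).2 s₂ h.q2) fun u hu w huw => ?_
      rw [mem_erase] at hu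
      by_cases hw0 : w = s₀
      · right; simp only [mem_insert, mem_singleton]; tauto
      rcases h.h'.mem_or (right_mem_VS huw) with h2 | h2 | h2
      · right
        simp only [mem_insert, mem_singleton]
        rcases (h.hT' w).1 h2 with e | e | e | e | e
        · exact absurd (h.inP hu.2 huw (Or.inl e)) hu.1
        · exact absurd (h.inP hu.2 huw (Or.inr e)) hu.1
        · exact absurd (e ▸ huw.symm) (h1P u hu.2)
        · tauto
        · tauto
      · exact Or.inl (mem_erase.2 ⟨hw0, h2⟩)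
      · exact absurd huw (h.h'.2.2.2.2 u hu.2 w h2)
    have := h1.trans card_le_three
    omega
  have h0 : ∀ w, G.Adj s₀ w ↔ w = x ∨ w = y ∨ w = s₃ ∨ w = q := by
    refine deg4 hG.1 (h.h'.subP h.p0) fun w hw => ?_
    rcases h.h'.mem_or (right_mem_VS hw) with h2 | h2 | h2
    · rcases (h.hT' w).1 h2 with e | e | e | e | e
      · tauto
      · tauto
      · exact absurd (e ▸ hw.symm) (h1P s₀ h.p0)
      · tauto
      · tauto
    · rw [hP, mem_singleton] at h2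
      exact absurd h2 hw.ne'
    · exact absurd hw (h.h'.2.2.2.2 s₀ h.p0 w h2)
  refine ⟨hP, h0, fun h1q => ?_⟩
  have ht := h.t
  have hq0 : q ≠ s₀ := fun e => TA h.h' h.qT (e ▸ h.p0)
  have hq2 : q ≠ s₂ := fun e => TB h.h' h.qT (e ▸ h.q2)
  have hqx : G.Adj s₁ x := ((ht.nx s₁).2 (by tauto)).symm
  -- the vertices connected with `s₂`
  let Z : Finset α := {x, y, s₀, q, s₁}
  have hZ : ∀ w, w ∈ Z ↔ w = x ∨ w = y ∨ w = s₀ ∨ w = q ∨ w = s₁ := by
    intro w; simp only [Z, mem_insert, mem_singleton]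
  have h3 : ¬ (del G Z).Reachable s₂ s₃ := by
    intro h4
    have h0q : G.Adj s₀ q := (h0 q).2 (by tauto)
    have hqx' : x ≠ q := by
      rintro rfl
      have := (ht.nx s₀).2 (by tauto)
      have h5 : VS G ⊆ P ∪ NB G P := by
        refine NBFM.nb hG.1 h.h'.subP ⟨s₀, h.p0⟩ ?_
        have h6 : NB G P ⊆ {x, y, s₃} := by
          intro w hw
          obtain ⟨_, v, hv, h7⟩ := NBFM.mem_NB.1 hw
          rw [hP, mem_singleton] at hv
          subst hv
          simp only [mem_insert, mem_singleton]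
          have := (h0 w).1 h7
          tauto
        exact lt_of_le_of_lt (card_le_card h6) (lt_of_le_of_lt card_le_three (by norm_num))
      have h8 := h5 (h.h'.subQ h.q2)
      rw [mem_union] at h8
      rcases h8 with h8 | h8
      · exact AB h.h' h8 h.q2
      · obtain ⟨_, v, hv, h7⟩ := NBFM.mem_NB.1 h8
        exact h.h'.2.2.2.2 v hv s₂ h.q2 h7
    have hqy' : y ≠ q := by
      rintro rfl
      have h5 : VS G ⊆ P ∪ NB G P := by
        refine NBFM.nb hG.1 h.h'.subP ⟨s₀, h.p0⟩ ?_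
        have h6 : NB G P ⊆ {x, y, s₃} := by
          intro w hw
          obtain ⟨_, v, hv, h7⟩ := NBFM.mem_NB.1 hw
          rw [hP, mem_singleton] at hv
          subst hv
          simp only [mem_insert, mem_singleton]
          have := (h0 w).1 h7
          tauto
        exact lt_of_le_of_lt (card_le_card h6) (lt_of_le_of_lt card_le_three (by norm_num))
      have h8 := h5 (h.h'.subQ h.q2)
      rw [mem_union] at h8
      rcases h8 with h8 | h8
      · exact AB h.h' h8 h.q2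
      · obtain ⟨_, v, hv, h7⟩ := NBFM.mem_NB.1 h8
        exact h.h'.2.2.2.2 v hv s₂ h.q2 h7
    refine hN {s₀, q, s₁} (univ \ Z) ?_ ?_ ?_ ?_ ?_ ?_ ?_
    · simp only [mem_insert, mem_singleton, not_or]; exact ⟨ht.x0, hqx', ht.x1⟩
    · simp only [mem_insert, mem_singleton, not_or]; exact ⟨ht.y0, hqy', ht.y1⟩
    · exact fun h' => (mem_sdiff.1 h').2 ((hZ x).2 (by tauto))
    · exact fun h' => (mem_sdiff.1 h').2 ((hZ y).2 (by tauto))
    · rw [Finset.disjoint_left]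
      intro v hv hv'
      simp only [mem_insert, mem_singleton] at hv
      exact (mem_sdiff.1 hv').2 ((hZ v).2 (by tauto))
    · have key : ∀ v, v = s₀ ∨ v = q ∨ v = s₁ → v ∉ univ \ ({s₀, q, s₁} : Finset α) := by
        intro v hv h'
        apply (mem_sdiff.1 h').2
        simp only [mem_insert, mem_singleton]
        exact hv
      exact (Adj.reachable ⟨h0q, key _ (by tauto), key _ (by tauto)⟩ :
        (del G (univ \ {s₀, q, s₁})).Reachable s₀ q).trans
        (Adj.reachable ⟨h1q.symm, key _ (by tauto), key _ (by tauto)⟩)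
    · have e : univ \ (univ \ Z) = Z := by
        ext v; simp only [mem_sdiff, mem_univ, true_and, not_not]
      rw [e]
      exact h4
  have h2Z : s₂ ∉ Z := by
    rw [hZ]
    push Not
    exact ⟨ht.x2.symm, ht.y2.symm, ht.n02.symm, hq2.symm, ht.n12.symm⟩
  -- all neighbours of `s₂` are in `Z`
  have hout : ∀ v, (del G Z).Reachable s₂ v → v ∈ VS G → v ∉ Z := by
    intro v hv _
    exact reachable_del_notMem_right hv h2Z
  have hD : ∀ v, (del G Z).Reachable s₂ v → v = s₂ := by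
    intro v hv
    by_contra hne
    have hvV : v ∈ VS G := by
      obtain ⟨u, hu⟩ := exists_adj_of_reachable hv.symm hne
      exact left_mem_VS hu.1
    have h1 : 4 ≤ ({s₂, q, s₁} : Finset α).card := by
      refine four_le hG.1 (D := (VS G).filter fun v => (del G Z).Reachable s₂ v ∧ v ≠ s₂)
        (filter_subset _ _) ⟨v, mem_filter.2 ⟨hvV, hv, hne⟩⟩ (z := x) (left_mem_VS hqx.symm)
        ?_ ?_ fun u hu w huw => ?_
      · intro h4
        exact hout x (mem_filter.1 h4).2.1 (left_mem_VS hqx.symm) ((hZ x).2 (by tauto))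
      · intro u hu hux
        rw [mem_filter] at hu
        have hu' := hout u hu.2.1 hu.1
        rw [hZ] at hu'
        rcases (ht.nx u).1 hux.symm with e | e | e | e
        · tauto
        · tauto
        · exact hu.2.2 e
        · exact h3 (e ▸ hu.2.1)
      · rw [mem_filter] at hu
        have hu' := hout u hu.2.1 hu.1
        have hu'' := hu'
        rw [hZ] at hu''
        by_cases hwZ : w ∈ Z
        · right
          simp only [mem_insert, mem_singleton]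
          rcases (hZ w).1 hwZ with e | e | e | e | e
          · exfalso
            rcases (ht.nx u).1 (e ▸ huw.symm) with e | e | e | e
            · tauto
            · tauto
            · exact hu.2.2 e
            · exact h3 (e ▸ hu.2.1)
          · exfalso
            rcases (ht.ny u).1 (e ▸ huw.symm) with e | e | e | e
            · tauto
            · tauto
            · exact hu.2.2 e
            · exact h3 (e ▸ hu.2.1)
          · exfalso
            have h5 := (h0 u).1 (e ▸ huw.symm)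
            rcases h5 with e | e | e | e
            · tauto
            · tauto
            · exact h3 (e ▸ hu.2.1)
            · tauto
          · tauto
          · tauto
        · by_cases hw2 : w = s₂
          · right; simp only [mem_insert, mem_singleton]; tauto
          · left
            rw [mem_filter]
            exact ⟨right_mem_VS huw, hu.2.1.trans (Adj.reachable ⟨huw, hu', hwZ⟩), hw2⟩
    have := h1.trans card_le_three
    omega
  have hn2 : ∀ w, G.Adj s₂ w → w ∈ Z := by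
    intro w hw
    by_contra hwZ
    exact hw.ne' (hD w (Adj.reachable ⟨hw, h2Z, hwZ⟩))
  -- the remaining vertices
  have hR : (VS G \ {x, y, q, s₀, s₁, s₂, s₃}).Nonempty := by
    rw [← card_pos]
    have h4 := le_card_sdiff ({x, y, q, s₀, s₁, s₂, s₃} : Finset α) (VS G)
    have h5 : ({x, y, q, s₀, s₁, s₂, s₃} : Finset α).card ≤ 7 := by
      refine (card_insert_le _ _).trans ?_
      refine Nat.succ_le_succ ((card_insert_le _ _).trans ?_)
      refine Nat.succ_le_succ ((card_insert_le _ _).trans ?_)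
      exact Nat.succ_le_succ card_le_four
    have := hG.2
    omega
  have hmR : ∀ v, v ∈ VS G \ {x, y, q, s₀, s₁, s₂, s₃} ↔ v ∈ VS G ∧ v ≠ x ∧ v ≠ y ∧ v ≠ q ∧
      v ≠ s₀ ∧ v ≠ s₁ ∧ v ≠ s₂ ∧ v ≠ s₃ := by
    intro v
    simp only [mem_sdiff, mem_insert, mem_singleton, not_or, ne_eq]
  have h1 : 4 ≤ ({s₁, s₃, q} : Finset α).card := by
    refine four_le hG.1 (D := VS G \ {x, y, q, s₀, s₁, s₂, s₃}) sdiff_subset hR (z := x)
      (left_mem_VS hqx.symm) ?_ ?_ fun u hu w huw => ?_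
    · intro h4
      exact ((hmR x).1 h4).2.1 rfl
    · intro u hu hux
      have h5 := (hmR u).1 hu
      have h6 := (ht.nx u).1 hux.symm
      tauto
    · have h5 := (hmR u).1 hu
      by_cases hw : w ∈ VS G \ {x, y, q, s₀, s₁, s₂, s₃}
      · exact Or.inl hw
      right
      simp only [mem_insert, mem_singleton]
      rw [hmR] at hw
      have hwV := right_mem_VS huw
      have h6 : w = x ∨ w = y ∨ w = q ∨ w = s₀ ∨ w = s₁ ∨ w = s₂ ∨ w = s₃ := by tauto
      rcases h6 with e | e | e | e | e | e | e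
      · have h6 := (ht.nx u).1 (e ▸ huw.symm)
        tauto
      · have h6 := (ht.ny u).1 (e ▸ huw.symm)
        tauto
      · tauto
      · have h6 := (h0 u).1 (e ▸ huw.symm)
        tauto
      · tauto
      · have h6 := (hZ u).1 (hn2 u (e ▸ huw.symm))
        tauto
      · tauto
  have := h1.trans card_le_three
  omega

end

end E5QM

open E5QM E3SM in
theorem specE5Q : SpecE5Q := by
  refine ⟨?_, ?_⟩
  · intro α _ _ G x y q s P Q hG h33 h34 ht hs hb
    have hB := bc hG.1 ht hb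
    obtain ⟨c, d, A, B, hnd, h, h0, h3, h1, h2⟩ := hs
    have hc4 := card_four hnd
    simp only [List.nodup_cons, List.mem_cons, List.not_mem_nil, or_false, not_or,
      List.nodup_nil, and_true, not_false_eq_true] at hnd
    obtain ⟨⟨-, xc, xd⟩, ⟨yc, yd⟩, cd⟩ := hnd
    have st : St G x y (s 0) (s 1) (s 2) (s 3) q c d {x, y, c, d} A B
        ({x, y} ∪ {s 1, s 3, q}) P Q :=
      ⟨hB, h, fun w => by simp only [mem_insert, mem_singleton], hc4.le, xc, xd, yc, yd, cd,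
        h0, h3, h1, h2⟩
    rcases h.mem_or (hB.h'.subS hB.qT) with hq | hq | hq
    · exfalso
      have hqV : q ∈ VS (del G {x, y}) := by
        obtain ⟨-, -, h5, -, -⟩ := hb
        exact h5.subS (by simp)
      have hq2 := (mem_sdiff.1 (VS_del_subset _ hqV)).2
      simp only [mem_insert, mem_singleton, not_or] at hq hq2
      rcases hq with e | e | e | e
      · exact hq2.1 e
      · exact hq2.2 e
      · exact st.caseC hG h33 h34 e
      · exact st.swp.caseC hG h33 h34 e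
    · exact Or.inl (st.caseA hG h33 h34 hq)
    · exact Or.inr (st.flip.caseA hG h33 h34 hq)
  · intro α _ _ G x y q s P Q hG ht hN hb
    have hB := bc hG.1 ht hb
    rcases hB.main1 hG (nd_of hN) with h | h
    · exact Or.inl (hB.main2 hG (nd_of hN) h)
    · exact Or.inr (hB.rot.main2 hG (nd_of hN).rot h)

end DL
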