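import Pool.Agent.DL.E.Spec5
import Pool.Agent.DL.E.Spec0
import Pool.Agent.DL.E.E4N
import Pool.Agent.DL.E.E5T
import Pool.Agent.DL.KC

/-!
# E5U: both `s₀` and `s₂` special
-/

open SimpleGraph Finset

namespace DL

namespace E5UM

variable {α : Type} [Fintype α] [DecidableEq α] {G : SimpleGraph α}

/-! ## general lemmas -/

theorem bdy_eq_single {c : Chain α} {v : α} {e : Sym2 α} (he : v ∈ e)
    (h : ∀ f, v ∈ f → f ≠ e → c f = 0) : bdy c v = c e := by
  classical
  rw [bdy_eq]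
  apply sum_eq_single_of_mem e
  · simpa using he
  · intro f hf hne
    exact h f (by simpa using hf) hne

/-- a row of a 2-cycle vanishes at the last edge at a vertex -/
theorem row_zero {z : Sym2 α → Sym2 α → ZMod 2} (hz : IsZ2 G z) {e f : Sym2 α} {v : α}
    (hv : v ∉ e) (hvf : v ∈ f) (h : ∀ f', v ∈ f' → f' ≠ f → z e f' = 0) : z e f = 0 := by
  have h1 := hz.2.2 e v hv
  have h2 : bdy (z e) v = z e f := bdy_eq_single hvf h
  rw [bdy_eq] at h2
  rw [← h2]
  convert h1

/-- NP for a triangle with two cubic vertices -/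
theorem np_tri (hNPC : SpecNPC) {A : SimpleGraph α} {a b c p q : α} (hbp : b ≠ p) (hbq : b ≠ q)
    (hac : a ≠ c) (hbc : b ≠ c) (hab : a ≠ b) (hqa : q ≠ a) (hqc : q ≠ c) (hpc : p ≠ c)
    (hpa : p ≠ a) (na : ∀ w, A.Adj a w ↔ w = b ∨ w = c ∨ w = p)
    (nb : ∀ w, A.Adj b w ↔ w = a ∨ w = c ∨ w = q) (h : NP A) :
    NP (contr (delE A a c) b a) := by
  obtain ⟨r, hr, z, hz, hv⟩ := h
  have h1 : ∀ f, b ∈ f → z s(a, c) f = 0 := by
    -- edges at `b` disjoint from `ac`
    have key : ∀ f, b ∈ f → f ≠ s(b, q) → z s(a, c) f = 0 := by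
      intro f hf hne
      by_contra h0
      obtain ⟨_, h2, h3⟩ := hz.2.1 _ _ h0
      obtain ⟨w, rfl⟩ := Sym2.mem_iff_exists.1 hf
      rcases (nb w).1 h2 with rfl | rfl | rfl
      · exact h3 w ⟨by simp, by simp⟩
      · exact h3 w ⟨by simp, by simp⟩
      · exact hne rfl
    intro f hf
    by_cases e : f = s(b, q)
    · subst e
      exact row_zero hz (v := b) (by simp [hab.symm, hbc]) (by simp) key
    · exact key f hf e
  have h2 : NP (delE A a c) := hNPC.tdel hr hz hv ((na c).2 (by tauto)) ((na b).2 (by tauto))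
    ((nb c).2 (by tauto)).symm h1
  obtain ⟨r', hr', z', hz', hv'⟩ := h2
  have hD : ∀ w, (delE A a c).Adj a w → w = b ∨ w = p := by
    intro w hw
    have hw' := delE_adj.1 hw
    rcases (na w).1 hw'.1 with h3 | h3 | h3
    · exact Or.inl h3
    · exact absurd (by rw [h3]) hw'.2
    · exact Or.inr h3
  refine (hNPC.down hr' hz' hv' (delE_adj.2 ⟨(nb a).2 (Or.inl rfl), ?_⟩) ?_).1
  · intro e
    rw [Sym2.eq_iff] at e
    rcases e with ⟨e, _⟩ | ⟨e, _⟩
    · exact hab e.symm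
    · exact hbc e
  · intro e f hb ha he hf
    have hae : a ∉ e := by
      intro h
      apply he
      obtain ⟨w, rfl⟩ := Sym2.mem_iff_exists.1 hb
      rw [Sym2.mem_iff] at h
      rcases h with h | h
      · exact absurd h hab
      · rw [h]
    have key : ∀ f', a ∈ f' → f' ≠ s(a, p) → z' e f' = 0 := by
      intro f' hf' hne
      by_contra h0
      obtain ⟨_, h3, h4⟩ := hz'.2.1 _ _ h0
      obtain ⟨w, rfl⟩ := Sym2.mem_iff_exists.1 hf'
      rcases hD w h3 with rfl | rfl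
      · exact h4 w ⟨hb, by simp⟩
      · exact hne rfl
    by_cases e' : f = s(a, p)
    · subst e'
      exact row_zero hz' hae (by simp) key
    · exact key f ha e'

/-- vertices outside `A` and the set `T` of its outer neighbours: `A` is large -/
theorem few {k : ℕ} (hG : KConn k G) {A T : Finset α} (hA : A ⊆ VS G) (hne : A.Nonempty)
    (hT : ∀ a ∈ A, ∀ v, v ∉ A → G.Adj a v → v ∈ T) (hk : T.card < k) {r : α} (hr : r ∈ VS G)
    (hrA : r ∉ A) (hrT : r ∉ T) (hAT : Disjoint A T) : False := by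
  obtain ⟨a, ha⟩ := hne
  have h1 := hG.reach hk (hA ha) hr (Finset.disjoint_left.1 hAT ha) hrT
  refine hrA (DL.mem_of_reachable (X := {x | x ∈ A}) h1 ha fun u v huv hu => ?_)
  by_contra hv
  exact huv.2.2 (hT u hu v hv huv.1)

/-- a separation from a closed set -/
theorem sep_of {A T : Finset α} (hA : A ⊆ VS G) (hTV : T ⊆ VS G)
    (hT : ∀ a ∈ A, ∀ v, v ∉ A → G.Adj a v → v ∈ T) (hAT : Disjoint A T) :
    Sep G T A (VS G \ (A ∪ T)) := by
  refine ⟨?_, hAT.symm, ?_, ?_, ?_⟩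
  · ext x
    simp only [mem_union, mem_sdiff]
    constructor
    · rintro ((h | h) | h)
      · exact hTV h
      · exact hA h
      · exact h.1
    · intro h
      by_cases h1 : x ∈ A
      · exact Or.inl (Or.inr h1)
      · by_cases h2 : x ∈ T
        · exact Or.inl (Or.inl h2)
        · exact Or.inr ⟨h, by tauto⟩
  · rw [Finset.disjoint_left]
    intro x hx hx'
    exact (mem_sdiff.1 hx').2 (mem_union_right _ hx)
  · rw [Finset.disjoint_left]
    intro x hx hx'
    exact (mem_sdiff.1 hx').2 (mem_union_left _ hx)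
  · intro a ha b hb hab
    have h1 := (mem_sdiff.1 hb).2
    rw [mem_union, not_or] at h1
    exact h1.2 (hT a ha b h1.1 hab)

/-- `S - bc` for a cubic vertex `b` -/
theorem s3s_del {S : SimpleGraph α} {b c p q : α} (hS : KConn 3 S) (hpq : p ≠ q) (hpc : p ≠ c)
    (hqc : q ≠ c) (nb : ∀ w, S.Adj b w ↔ w = c ∨ w = p ∨ w = q) (hn : ¬ S.Adj p q)
    (hdeg : 4 ≤ (nbs S c).card)
    (hbig : ∀ W P Q, Sep (delE S b c) W P Q → W.card = 2 → b ∈ P → c ∈ Q →
      (P.erase b).card ≤ 1 ∨ Q.card ≤ 1) : S3S (delE S b c) := by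
  have hbc : S.Adj b c := (nb c).2 (Or.inl rfl)
  have hbp : S.Adj b p := (nb p).2 (by tauto)
  have hbq : S.Adj b q := (nb q).2 (by tauto)
  set J := delE S b c with hJ
  have hJS : J ≤ S := delE_le _ _ _
  have hVS : VS J = VS S := VS_delE fun v hv => le_trans (by omega) (hS.le_nbs hv)
  have hJ2 : KConn 2 J := KConn.delE (by omega) hS b c
  have hJb : ∀ w, J.Adj b w ↔ w = p ∨ w = q := by
    intro w
    rw [hJ, delE_adj, nb]
    constructor
    · rintro ⟨h1 | h1, h2⟩
      · exact absurd (by rw [h1]) h2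
      · exact h1
    · intro h1
      refine ⟨Or.inr h1, fun e => ?_⟩
      rw [Sym2.eq_iff] at e
      rcases e with ⟨_, e⟩ | ⟨e, _⟩
      · rcases h1 with h1 | h1
        · exact hpc (h1.symm.trans e)
        · exact hqc (h1.symm.trans e)
      · exact hbc.ne e
  -- three neighbours of `c`
  have hc3 : 3 ≤ ((nbs S c).erase b).card := by
    rw [card_erase_of_mem (mem_nbs.2 hbc.symm)]
    omega
  have hcJ : ∀ w ∈ (nbs S c).erase b, J.Adj c w := by
    intro w hw
    rw [mem_erase, mem_nbs] at hw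
    refine delE_adj.2 ⟨hw.2, fun e => ?_⟩
    rw [Sym2.eq_iff] at e
    rcases e with ⟨e, _⟩ | ⟨_, e⟩
    · exact hbc.ne e.symm
    · exact hw.1 e
  refine ⟨hJ2, ?_, ?_⟩
  · obtain ⟨u, v, w, hu, hv, hw, h1, h2, h3⟩ := two_lt_card_iff.1 (lt_of_lt_of_le (by omega) hc3)
    exact ⟨c, u, v, w, h1, h2, h3, hcJ u hu, hcJ v hv, hcJ w hw⟩
  intro p' q' hpq'
  by_cases hcon : ConnOff J {p', q'}
  · exact Or.inl hcon
  right
  -- a separation
  have hsep : ∃ P Q, Sep J {p', q'} P Q ∧ P.Nonempty ∧ Q.Nonempty := by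
    unfold ConnOff at hcon
    push Not at hcon
    obtain ⟨x, hx, y, hy, hxS, hyS, hr⟩ := hcon
    obtain ⟨P, Q, h1, h2, h3, -⟩ := exists_sep_of_not_reachable hx hy hxS hyS hr
    have h4 := hJ2.le_of_sep h1 ⟨x, h2⟩ ⟨y, h3⟩
    have h5 : ({p', q'} ∩ VS J : Finset α) = {p', q'} := by
      apply eq_of_subset_of_card_le inter_subset_left
      rw [card_pair hpq']
      exact h4
    rw [h5] at h1
    exact ⟨P, Q, h1, ⟨x, h2⟩, ⟨y, h3⟩⟩
  obtain ⟨P₀, Q₀, hs₀, hP₀, hQ₀⟩ := hsep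
  have hW2 : ({p', q'} : Finset α).card = 2 := card_pair hpq'
  -- `b` and `c` are on different sides
  have hside : ∃ P Q, Sep J {p', q'} P Q ∧ b ∈ P ∧ c ∈ Q := by
    by_contra hcon2
    push Not at hcon2
    have hsS : Sep S {p', q'} P₀ Q₀ := by
      refine ⟨by rw [hs₀.1, hVS], hs₀.2.1, hs₀.2.2.1, hs₀.2.2.2.1, fun x hx y hy hxy => ?_⟩
      by_cases e : s(x, y) = s(b, c)
      · rw [Sym2.eq_iff] at e
        rcases e with ⟨rfl, rfl⟩ | ⟨rfl, rfl⟩
        · exact hcon2 P₀ Q₀ hs₀ hx hy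
        · exact hcon2 Q₀ P₀ hs₀.symm hy hx
      · exact hs₀.2.2.2.2 x hx y hy (delE_adj.2 ⟨hxy, e⟩)
    have := hS.le_of_sep hsS hP₀ hQ₀
    omega
  obtain ⟨P, Q, hs, hbP, hcQ⟩ := hside
  have hmem : ∀ {x y}, x ∈ P → J.Adj x y → y ∈ P ∨ y = p' ∨ y = q' := by
    intro x y hx hxy
    rcases hs.mem_or (right_mem_VS hxy) with h1 | h1 | h1
    · right
      simpa using h1
    · exact Or.inl h1
    · exact absurd hxy (hs.2.2.2.2 x hx y h1)
  have hmemQ : ∀ {x y}, x ∈ Q → J.Adj x y → y ∈ Q ∨ y = p' ∨ y = q' := by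
    intro x y hx hxy
    rcases hs.mem_or (right_mem_VS hxy) with h1 | h1 | h1
    · right
      simpa using h1
    · exact absurd hxy.symm (hs.2.2.2.2 y h1 x hx)
    · exact Or.inl h1
  have hbQ : b ∉ Q := Finset.disjoint_left.1 hs.2.2.2.1 hbP
  have hcP : c ∉ P := Finset.disjoint_right.1 hs.2.2.2.1 hcQ
  have hQ1 : ¬ Q.card ≤ 1 := by
    intro h1
    have h2 : (nbs S c).erase b ⊆ {p', q'} := by
      intro w hw
      have h3 := hcJ w hw
      rcases hmemQ hcQ h3 with h4 | h4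
      · exact absurd (Finset.card_le_one.1 h1 w h4 c hcQ) h3.ne.symm
      · simpa using h4
    have h3 := card_le_card h2
    omega
  have hP1 : (P.erase b).card ≤ 1 := (hbig _ P Q hs hW2 hbP hcQ).resolve_right hQ1
  -- `P = {b}`
  have hPb : P.erase b = ∅ := by
    by_contra hne
    obtain ⟨v, hv⟩ := nonempty_iff_ne_empty.2 hne
    have hv' := mem_erase.1 hv
    have huniq : ∀ w ∈ P, w = b ∨ w = v := by
      intro w hw
      by_cases hwb : w = b
      · exact Or.inl hwb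
      · exact Or.inr (Finset.card_le_one.1 hP1 w (mem_erase.2 ⟨hwb, hw⟩) v hv)
    have hvc : v ≠ c := fun e => hcP (e ▸ hv'.2)
    have hvJ : ∀ w, S.Adj v w → J.Adj v w := by
      intro w hw
      refine delE_adj.2 ⟨hw, fun e => ?_⟩
      rw [Sym2.eq_iff] at e
      rcases e with ⟨e, _⟩ | ⟨e, _⟩
      · exact hv'.1 e
      · exact hvc e
    have hsub : nbs S v ⊆ {b, p', q'} := by
      intro w hw
      rw [mem_nbs] at hw
      have h1 := hvJ w hw
      simp only [mem_insert, mem_singleton]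
      rcases hmem hv'.2 h1 with h2 | h2
      · rcases huniq w h2 with h3 | h3
        · exact Or.inl h3
        · exact absurd h3.symm h1.ne
      · exact Or.inr h2
    have hvV : v ∈ VS S := hVS ▸ hs.subP hv'.2
    have heq : nbs S v = {b, p', q'} := eq_of_subset_of_card_le hsub
      (card_le_three.trans (hS.le_nbs hvV))
    have hvb : S.Adj v b := by
      rw [← mem_nbs, heq]
      simp
    have hv1 : S.Adj v p' ∧ S.Adj v q' := by
      rw [← mem_nbs, ← mem_nbs, heq]
      simp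
    have key : ∀ {p q : α}, v = p → p ≠ q → J.Adj b q → S.Adj p q := by
      rintro p q rfl hpq hbq
      rcases hmem hbP hbq with h2 | h2 | h2
      · rcases huniq q h2 with h3 | h3
        · exact absurd h3.symm hbq.ne
        · exact absurd h3.symm hpq
      · rw [h2]
        exact hv1.1
      · rw [h2]
        exact hv1.2
    rcases (nb v).1 hvb.symm with h1 | h1 | h1
    · exact hvc h1
    · exact hn (key h1 hpq ((hJb q).2 (by tauto)))
    · exact hn (key h1 hpq.symm ((hJb p).2 (by tauto))).symm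
  have hPeq : ∀ w ∈ P, w = b := by
    intro w hw
    by_contra hwb
    have : w ∈ P.erase b := mem_erase.2 ⟨hwb, hw⟩
    rw [hPb] at this
    simp at this
  have hset : ({p, q} : Finset α) = {p', q'} := by
    apply eq_of_subset_of_card_le
    · intro w hw
      have hw' : w = p ∨ w = q := by simpa using hw
      have h1 := (hJb w).2 hw'
      rcases hmem hbP h1 with h2 | h2
      · exact absurd (hPeq w h2).symm h1.ne
      · simpa using h2
    · rw [hW2, card_pair hpq]
  have hiff : ∀ w, (w = p ∨ w = q) ↔ (w = p' ∨ w = q') := by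
    intro w
    have := congrArg (fun T : Finset α => w ∈ T) hset
    simpa using this
  refine ⟨b, fun w => by rw [hJb, hiff], ?_, ?_⟩
  · intro h1
    have h2 : p' = p ∨ p' = q := (hiff p').2 (Or.inl rfl)
    have h3 : q' = p ∨ q' = q := (hiff q').2 (Or.inr rfl)
    have h4 := hJS h1
    rcases h2 with h2 | h2 <;> rcases h3 with h3 | h3
    · exact hpq' (h2.trans h3.symm)
    · rw [h2, h3] at h4
      exact hn h4
    · rw [h2, h3] at h4
      exact hn h4.symm
    · exact hpq' (h2.trans h3.symm)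
  · intro x hx y hy hxT hyT
    have hT : ({p', q', b} : Finset α) = insert b {p', q'} := by
      ext v
      simp only [mem_insert, mem_singleton]
      tauto
    rw [hT, mem_insert, not_or] at hxT hyT
    have h1 := hS.reach (S := {p', q'}) (by omega) (hVS ▸ hx) (hVS ▸ hy) hxT.2 hyT.2
    -- the projection `b ↦ c`
    have hcT : c ∉ ({p', q', b} : Finset α) := by
      rw [hT, mem_insert, not_or]
      exact ⟨hbc.ne.symm, Finset.disjoint_right.1 hs.2.2.1 hcQ⟩
    have h2 := DL.mem_of_reachable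
      (X := {v | (del J {p', q', b}).Reachable x (if v = b then c else v)}) h1
      (by
        show (del J {p', q', b}).Reachable x (if x = b then c else x)
        rw [if_neg hxT.1])
      (by
        intro u v huv hu
        have hu' : (del J {p', q', b}).Reachable x (if u = b then c else u) := hu
        show (del J {p', q', b}).Reachable x (if v = b then c else v)
        by_cases hub : u = b
        · rw [if_pos hub] at hu'
          by_cases hvb : v = b
          · rw [if_pos hvb]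
            exact hu'
          · rw [if_neg hvb]
            have h3 : S.Adj b v := hub ▸ huv.1
            rcases (nb v).1 h3 with h4 | h4
            · rw [h4]
              exact hu'
            · exfalso
              apply huv.2.2
              rw [← hset]
              simpa using h4
        · rw [if_neg hub] at hu'
          by_cases hvb : v = b
          · rw [if_pos hvb]
            have h3 : S.Adj b u := by
              rw [← hvb]
              exact huv.1.symm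
            rcases (nb u).1 h3 with h4 | h4
            · rw [← h4]
              exact hu'
            · exfalso
              apply huv.2.1
              rw [← hset]
              simpa using h4
          · rw [if_neg hvb]
            refine hu'.trans (Adj.reachable ⟨delE_adj.2 ⟨huv.1, fun e => ?_⟩, ?_, ?_⟩)
            · rw [Sym2.eq_iff] at e
              rcases e with ⟨e, _⟩ | ⟨_, e⟩
              · exact hub e
              · exact hvb e
            · rw [hT, mem_insert, not_or]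
              exact ⟨hub, huv.2.1⟩
            · rw [hT, mem_insert, not_or]
              exact ⟨hvb, huv.2.2⟩)
    have h3 : (del J {p', q', b}).Reachable x (if y = b then c else y) := h2
    rwa [if_neg hyT.1] at h3

/-- the situation -/
structure Cf (G : SimpleGraph α) (x y a b c d q q' : α) : Prop where
  g : K48 G
  xy : x ≠ y
  nx : ∀ w, G.Adj x w ↔ w = a ∨ w = b ∨ w = c ∨ w = d
  ny : ∀ w, G.Adj y w ↔ w = a ∨ w = b ∨ w = c ∨ w = d
  na : ∀ w, G.Adj a w ↔ w = x ∨ w = y ∨ w = d ∨ w = q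
  nc : ∀ w, G.Adj c w ↔ w = x ∨ w = y ∨ w = b ∨ w = q'
  ab : a ≠ b
  ac : a ≠ c
  ad : a ≠ d
  bc : b ≠ c
  bd : b ≠ d
  cd : c ≠ d
  qb : q ≠ b
  qc : q ≠ c
  qa' : q' ≠ a
  qd' : q' ≠ d
  nbq : ¬ G.Adj b q
  ndq : ¬ G.Adj d q'
  cut : ∀ q'' P Q, q'' ≠ b → q'' ≠ d → Sep (del G {x, y}) {b, d, q''} P Q → a ∈ P → c ∈ Q →
    P = {a} ∨ Q = {c}
  n33 : No33 G

omit [Fintype α] in
theorem pair_comm3 {b d q : α} : ({d, b, q} : Finset α) = {b, d, q} := by
  ext v
  simp only [mem_insert, mem_singleton]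
  tauto

theorem Cf.swap {x y a b c d q q' : α} (h : Cf G x y a b c d q q') :
    Cf G y x c d a b q' q where
  g := h.g
  xy := h.xy.symm
  nx w := by rw [h.ny]; tauto
  ny w := by rw [h.nx]; tauto
  na w := by rw [h.nc]; tauto
  nc w := by rw [h.na]; tauto
  ab := h.cd
  ac := h.ac.symm
  ad := h.bc.symm
  bc := h.ad.symm
  bd := h.bd.symm
  cd := h.ab
  qb := h.qd'
  qc := h.qa'
  qa' := h.qc
  qd' := h.qb
  nbq := h.ndq
  ndq := h.nbq
  cut := by
    intro q'' P Q h1 h2 hs hP hQ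
    rw [pair_comm y x, pair_comm3] at hs
    exact (h.cut q'' Q P h2 h1 hs.symm hQ hP).symm
  n33 := h.n33

/-- the four neighbours of a vertex are different -/
theorem four_ne (hG : KConn 4 G) {v p₁ p₂ p₃ p₄ : α} (hv : v ∈ VS G)
    (h : ∀ w, G.Adj v w ↔ w = p₁ ∨ w = p₂ ∨ w = p₃ ∨ w = p₄) :
    [p₁, p₂, p₃, p₄].Nodup := by
  have h1 := hG.le_nbs hv
  have h2 : nbs G v ⊆ [p₁, p₂, p₃, p₄].toFinset := by
    intro w hw
    rw [mem_nbs, h] at hw
    simpa using hw
  have h3 := card_le_card h2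
  rw [← List.dedup_eq_self]
  have h4 : [p₁, p₂, p₃, p₄].toFinset.card = [p₁, p₂, p₃, p₄].dedup.length := List.card_toFinset _
  have h5 : [p₁, p₂, p₃, p₄].dedup.length ≤ [p₁, p₂, p₃, p₄].length :=
    (List.dedup_sublist _).length_le
  apply (List.dedup_sublist _).eq_of_length
  apply le_antisymm h5
  rw [← h4]
  exact h1.trans h3

theorem Cf.q_ne {x y a b c d q q' : α} (h : Cf G x y a b c d q q') :
    q ≠ x ∧ q ≠ y ∧ q ≠ a ∧ q ≠ b ∧ q ≠ c ∧ q ≠ d := by
  have hxa : G.Adj x a := (h.nx a).2 (Or.inl rfl)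
  have h1 := four_ne h.g.1 (right_mem_VS hxa) h.na
  have haq : G.Adj a q := (h.na q).2 (by tauto)
  simp only [List.nodup_cons, List.mem_cons, List.not_mem_nil, or_false, not_or,
    List.nodup_nil, and_true, not_false_eq_true] at h1
  exact ⟨Ne.symm h1.1.2.2, Ne.symm h1.2.1.2, haq.ne.symm, h.qb, h.qc, Ne.symm h1.2.2⟩

theorem Cf.s_ne {x y a b c d q q' : α} (h : Cf G x y a b c d q q') :
    (x ≠ a ∧ x ≠ b ∧ x ≠ c ∧ x ≠ d) ∧ (y ≠ a ∧ y ≠ b ∧ y ≠ c ∧ y ≠ d) := by
  have h1 := fun w hw => ((h.nx w).2 hw).ne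
  have h2 := fun w hw => ((h.ny w).2 hw).ne
  exact ⟨⟨h1 a (by tauto), h1 b (by tauto), h1 c (by tauto), h1 d (by tauto)⟩,
    h2 a (by tauto), h2 b (by tauto), h2 c (by tauto), h2 d (by tauto)⟩

/-- the graph `S₁` -/
def T1 (G : SimpleGraph α) (x a c q : α) : SimpleGraph α where
  Adj u v := u ≠ v ∧ ((G.Adj u v ∧ u ≠ a ∧ v ≠ a ∧ ¬ (u = x ∧ v = c) ∧ ¬ (u = c ∧ v = x)) ∨
    (u = x ∧ v = q) ∨ (u = q ∧ v = x))
  symm := ⟨fun u v h => ⟨h.1.symm, by
    rcases h.2 with h | h | h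
    · exact Or.inl ⟨h.1.symm, h.2.2.1, h.2.1, fun e => h.2.2.2.2 ⟨e.2, e.1⟩,
        fun e => h.2.2.2.1 ⟨e.2, e.1⟩⟩
    · exact Or.inr (Or.inr ⟨h.2, h.1⟩)
    · exact Or.inr (Or.inl ⟨h.2, h.1⟩)⟩⟩
  loopless := ⟨fun _ h => h.1 rfl⟩

/-- the graph `S₂` -/
def T2 (G : SimpleGraph α) (x y a c q q' : α) : SimpleGraph α where
  Adj u v := u ≠ v ∧ ((G.Adj u v ∧ u ≠ a ∧ v ≠ a ∧ u ≠ c ∧ v ≠ c) ∨
    (u = x ∧ v = q) ∨ (u = q ∧ v = x) ∨ (u = y ∧ v = q') ∨ (u = q' ∧ v = y))
  symm := ⟨fun u v h => ⟨h.1.symm, by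
    rcases h.2 with h | h | h | h | h
    · exact Or.inl ⟨h.1.symm, h.2.2.1, h.2.1, h.2.2.2.2, h.2.2.2.1⟩
    · exact Or.inr (Or.inr (Or.inl ⟨h.2, h.1⟩))
    · exact Or.inr (Or.inl ⟨h.2, h.1⟩)
    · exact Or.inr (Or.inr (Or.inr (Or.inr ⟨h.2, h.1⟩)))
    · exact Or.inr (Or.inr (Or.inr (Or.inl ⟨h.2, h.1⟩)))⟩⟩
  loopless := ⟨fun _ h => h.1 rfl⟩

omit [Fintype α] [DecidableEq α] in
theorem T1_adj {x a c q u v : α} : (T1 G x a c q).Adj u v ↔ u ≠ v ∧
    ((G.Adj u v ∧ u ≠ a ∧ v ≠ a ∧ ¬ (u = x ∧ v = c) ∧ ¬ (u = c ∧ v = x)) ∨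
      (u = x ∧ v = q) ∨ (u = q ∧ v = x)) := Iff.rfl

omit [Fintype α] [DecidableEq α] in
theorem T2_adj {x y a c q q' u v : α} : (T2 G x y a c q q').Adj u v ↔ u ≠ v ∧
    ((G.Adj u v ∧ u ≠ a ∧ v ≠ a ∧ u ≠ c ∧ v ≠ c) ∨
    (u = x ∧ v = q) ∨ (u = q ∧ v = x) ∨ (u = y ∧ v = q') ∨ (u = q' ∧ v = y)) := Iff.rfl

theorem Cf.eq1 {x y a b c d q q' : α} (h : Cf G x y a b c d q q') :
    contr (delE (DD G x c y a) a d) x a = T1 G x a c q := by
  have h1 := h.q_ne
  have h2 := h.s_ne
  have nx := h.nx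
  have ny := h.ny
  have na := h.na
  have ab := h.ab
  have ac := h.ac
  have ad := h.ad
  have xy := h.xy
  have hs := fun u v => G.adj_comm u v
  ext u v
  simp only [contr_adj, DD, delE_adj, T1_adj, Sym2.eq_iff, ne_eq, not_or, not_and]
  grind

theorem Cf.eq2 {x y a b c d q q' : α} (h : Cf G x y a b c d q q') :
    contr (delE (T1 G x a c q) c b) y c = T2 G x y a c q q' := by
  have h1 := h.q_ne
  have h1' := h.swap.q_ne
  have h2 := h.s_ne
  have nx := h.nx
  have ny := h.ny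
  have nc := h.nc
  have ac := h.ac
  have bc := h.bc
  have cd := h.cd
  have xy := h.xy
  have hs := fun u v => G.adj_comm u v
  ext u v
  simp only [contr_adj, delE_adj, T1_adj, T2_adj, Sym2.eq_iff, ne_eq, not_or, not_and]
  grind


theorem exists_nbr (hG : KConn 4 G) {v : α} (hv : v ∈ VS G) {F : Finset α} (hF : F.card ≤ 3) :
    ∃ w, G.Adj v w ∧ w ∉ F := by
  have h1 := hG.le_nbs hv
  obtain ⟨w, hw, hwF⟩ := exists_mem_notMem_of_card_lt_card (lt_of_le_of_lt hF (by omega : 3 < (nbs G v).card))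
  exact ⟨w, mem_nbs.1 hw, hwF⟩

theorem Cf.mem_VS_all {x y a b c d q q' : α} (h : Cf G x y a b c d q q') :
    x ∈ VS G ∧ y ∈ VS G ∧ a ∈ VS G ∧ b ∈ VS G ∧ c ∈ VS G ∧ d ∈ VS G ∧ q ∈ VS G ∧ q' ∈ VS G := by
  have h1 := fun w hw => right_mem_VS ((h.nx w).2 hw)
  have h2 := left_mem_VS ((h.nx a).2 (Or.inl rfl))
  have h3 := left_mem_VS ((h.ny a).2 (Or.inl rfl))
  exact ⟨h2, h3, h1 a (by tauto), h1 b (by tauto), h1 c (by tauto), h1 d (by tauto),
    right_mem_VS ((h.na q).2 (by tauto)), right_mem_VS ((h.nc q').2 (by tauto))⟩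

theorem Cf.vs1 {x y a b c d q q' : α} (h : Cf G x y a b c d q q') {v : α} :
    v ∈ VS (T1 G x a c q) ↔ v ∈ VS G ∧ v ≠ a := by
  have hV := h.mem_VS_all
  have h1 := h.q_ne
  have h2 := h.s_ne
  constructor
  · intro hv
    obtain ⟨w, hw⟩ := mem_VS.1 hv
    rw [T1_adj] at hw
    rcases hw with ⟨_, hw | hw | hw⟩
    · exact ⟨left_mem_VS hw.1, hw.2.1⟩
    · rw [hw.1]
      exact ⟨hV.1, h2.1.1⟩
    · rw [hw.1]
      exact ⟨hV.2.2.2.2.2.2.1, h1.2.2.1⟩
  · rintro ⟨hv, hva⟩
    obtain ⟨w, hw, hwF⟩ := exists_nbr h.g.1 hv (F := {a, x, c}) card_le_three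
    simp only [mem_insert, mem_singleton, not_or] at hwF
    exact mem_VS.2 ⟨w, hw.ne, Or.inl ⟨hw, hva, hwF.1, fun e => hwF.2.2 e.2, fun e => hwF.2.1 e.2⟩⟩

theorem Cf.vs2 {x y a b c d q q' : α} (h : Cf G x y a b c d q q') {v : α} :
    v ∈ VS (T2 G x y a c q q') ↔ v ∈ VS G ∧ v ≠ a ∧ v ≠ c := by
  have hV := h.mem_VS_all
  have h1 := h.q_ne
  have h1' := h.swap.q_ne
  have h2 := h.s_ne
  constructor
  · intro hv
    obtain ⟨w, hw⟩ := mem_VS.1 hv
    rw [T2_adj] at hw
    rcases hw with ⟨_, hw | hw | hw | hw | hw⟩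
    · exact ⟨left_mem_VS hw.1, hw.2.1, hw.2.2.2.1⟩
    · rw [hw.1]
      exact ⟨hV.1, h2.1.1, h2.1.2.2.1⟩
    · rw [hw.1]
      exact ⟨hV.2.2.2.2.2.2.1, h1.2.2.1, h1.2.2.2.2.1⟩
    · rw [hw.1]
      exact ⟨hV.2.1, h2.2.1, h2.2.2.2.1⟩
    · rw [hw.1]
      exact ⟨hV.2.2.2.2.2.2.2, h1'.2.2.2.2.1, h1'.2.2.1⟩
  · rintro ⟨hv, hva, hvc⟩
    obtain ⟨w, hw, hwF⟩ := exists_nbr h.g.1 hv (F := {a, c, c}) card_le_three
    simp only [mem_insert, mem_singleton, not_or] at hwF
    exact mem_VS.2 ⟨w, hw.ne, Or.inl ⟨hw, hva, hwF.1, hvc, hwF.2.1⟩⟩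

theorem Cf.swap2 {x y a b c d q q' : α} (h : Cf G x y a b c d q q') :
    T2 G y x c a q' q = T2 G x y a c q q' := by
  have hxy := h.xy
  ext u v
  simp only [T2_adj]
  grind


/-! ## cuts of `G` through `x` -/

theorem Cf.dp {x y a b c d q q' : α} (h : Cf G x y a b c d q q') : DP G x y ![a, b, c, d] := by
  have h2 := h.s_ne
  have e : ∀ w : α, (∃ i, w = (![a, b, c, d] : Fin 4 → α) i) ↔ w = a ∨ w = b ∨ w = c ∨ w = d := by
    intro w
    rw [Fin.exists_fin_succ, Fin.exists_fin_succ, Fin.exists_fin_succ, Fin.exists_fin_succ]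
    simp
  refine ⟨?_, h.xy, ?_, ?_, ?_, ?_, ?_⟩
  · have h1 := h.ab
    have h2 := h.ac
    have h3 := h.ad
    have h4 := h.bc
    have h5 := h.bd
    have h6 := h.cd
    intro i j hij
    fin_cases i <;> fin_cases j <;> simp_all
  · intro i
    fin_cases i
    · exact ⟨h2.1.1.symm, h2.2.1.symm⟩
    · exact ⟨h2.1.2.1.symm, h2.2.2.1.symm⟩
    · exact ⟨h2.1.2.2.1.symm, h2.2.2.2.1.symm⟩
    · exact ⟨h2.1.2.2.2.symm, h2.2.2.2.2.symm⟩
  · intro w hw
    exact Or.inr ((e w).2 ((h.nx w).1 hw))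
  · intro w hw
    exact Or.inr ((e w).2 ((h.ny w).1 hw))
  · intro i
    exact (h.nx _).2 ((e _).1 ⟨i, rfl⟩)
  · intro i
    exact (h.ny _).2 ((e _).1 ⟨i, rfl⟩)

theorem comb : ∀ i j k l m : Fin 4, j ≠ i → l ≠ k → i ≠ k → i ≠ l → j ≠ k → j ≠ l →
    m = i ∨ m = j ∨ m = k ∨ m = l := by
  decide

/-- (X): a nontrivial cut through `x` contains no neighbour of `x` -/
theorem Cf.cutX (hNBF : SpecNBF) {x y a b c d q q' : α} (h : Cf G x y a b c d q q')
    {T P Q : Finset α} (hs : Sep G T P Q) (h4 : T.card = 4) (hx : x ∈ T) (hP : 2 ≤ P.card)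
    (hQ : 2 ≤ Q.card) : a ∉ T ∧ b ∉ T ∧ c ∉ T ∧ d ∉ T := by
  have hD := h.dp
  set s : Fin 4 → α := ![a, b, c, d] with hsd
  have hPn : P.Nonempty := card_pos.1 (by omega)
  have hQn : Q.Nonempty := card_pos.1 (by omega)
  have hy := E4NM.mem_cut h.g hD hs h4 hx hPn hQn
  obtain ⟨i, hi⟩ := E4NM.exists_mem h.g hD hs h4 hx hy hPn
  obtain ⟨k, hk⟩ := E4NM.exists_mem h.g hD hs.symm h4 hx hy hQn
  have key : ∀ P Q : Finset α, Sep G T P Q → 2 ≤ P.card → ∀ i, s i ∈ P → ∃ j, s j ∈ P ∧ j ≠ i := by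
    intro P Q hs hP i hi
    by_contra hcon
    push Not at hcon
    have := E4NM.small hNBF h.g hD hs h4 hx hy i hcon
    omega
  obtain ⟨j, hj, hji⟩ := key P Q hs hP i hi
  obtain ⟨l, hl, hlk⟩ := key Q P hs.symm hQ k hk
  have hne : ∀ i k : Fin 4, s i ∈ P → s k ∈ Q → i ≠ k := by
    rintro i k h1 h2 rfl
    exact Finset.disjoint_left.1 hs.2.2.2.1 h1 h2
  have all : ∀ m, s m ∉ T := by
    intro m hm
    rcases comb i j k l m hji hlk (hne i k hi hk) (hne i l hi hl) (hne j k hj hk)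
      (hne j l hj hl) with rfl | rfl | rfl | rfl
    · exact Finset.disjoint_left.1 hs.2.1 hm hi
    · exact Finset.disjoint_left.1 hs.2.1 hm hj
    · exact Finset.disjoint_left.1 hs.2.2.1 hm hk
    · exact Finset.disjoint_left.1 hs.2.2.1 hm hl
  exact ⟨all 0, all 1, all 2, all 3⟩

/-- closed sets with at most four outer neighbours, among them `x` and a neighbour of `x` -/
theorem Cf.cut4 (hNBF : SpecNBF) {x y a b c d q q' : α} (h : Cf G x y a b c d q q')
    {A T : Finset α} (hA : A ⊆ VS G) (hTV : T ⊆ VS G)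
    (hT : ∀ p ∈ A, ∀ v, v ∉ A → G.Adj p v → v ∈ T) (hAT : Disjoint A T) (h4 : T.card ≤ 4)
    (hx : x ∈ T) (hm : a ∈ T ∨ b ∈ T ∨ c ∈ T ∨ d ∈ T) (hA2 : 2 ≤ A.card) {r r' : α}
    (hr : r ∈ VS G ∧ r ∉ A ∧ r ∉ T) (hr' : r' ∈ VS G ∧ r' ∉ A ∧ r' ∉ T) (hrr : r ≠ r') :
    False := by
  rcases Nat.lt_or_ge T.card 4 with h3 | h3
  · exact few h.g.1 hA (card_pos.1 (by omega)) hT h3 hr.1 hr.2.1 hr.2.2 hAT
  · have hs := sep_of hA hTV hT hAT
    have hQ : 2 ≤ (VS G \ (A ∪ T)).card := by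
      rw [← card_pair hrr]
      apply card_le_card
      intro w hw
      rw [mem_insert, mem_singleton] at hw
      rw [mem_sdiff, mem_union, not_or]
      rcases hw with rfl | rfl
      · exact hr
      · exact hr'
    have h5 := h.cutX hNBF hs (le_antisymm h4 h3) hx hA2 hQ
    tauto

/-! ## separations of `S₂` -/

theorem Cf.step {x y a b c d q q' : α} (h : Cf G x y a b c d q q') {W P Q : Finset α}
    (hs : Sep (T2 G x y a c q q') W P Q) {p v : α} (hp : p ∈ P) (hv : v ∉ P) (hpv : G.Adj p v) :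
    (v = a ∧ (p = x ∨ p = y ∨ p = d ∨ p = q)) ∨ (v = c ∧ (p = x ∨ p = y ∨ p = b ∨ p = q')) ∨
      v ∈ W := by
  by_cases hva : v = a
  · subst hva
    exact Or.inl ⟨rfl, (h.na p).1 hpv.symm⟩
  by_cases hvc : v = c
  · subst hvc
    exact Or.inr (Or.inl ⟨rfl, (h.nc p).1 hpv.symm⟩)
  have hp' := h.vs2.1 (hs.subP hp)
  have h1 : (T2 G x y a c q q').Adj p v := ⟨hpv.ne, Or.inl ⟨hpv, hp'.2.1, hva, hp'.2.2, hvc⟩⟩
  rcases hs.mem_or (right_mem_VS h1) with h2 | h2 | h2
  · exact Or.inr (Or.inr h2)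
  · exact absurd h2 hv
  · exact absurd h1 (hs.2.2.2.2 p hp v h2)

/-- facts used all the time -/
theorem Cf.facts {x y a b c d q q' : α} (h : Cf G x y a b c d q q') {W P Q : Finset α}
    (hs : Sep (T2 G x y a c q q') W P Q) :
    (∀ v ∈ P, v ∈ VS G ∧ v ≠ a ∧ v ≠ c) ∧ (∀ v ∈ Q, v ∈ VS G ∧ v ≠ a ∧ v ≠ c) ∧
    (∀ v ∈ W, v ∈ VS G ∧ v ≠ a ∧ v ≠ c) ∧
    (∀ v ∈ P, v ∉ Q ∧ v ∉ W) ∧ (∀ v ∈ Q, v ∉ W) ∧
    (∀ v, v ∈ VS G → v ≠ a → v ≠ c → v ∈ W ∨ v ∈ P ∨ v ∈ Q) :=
  ⟨fun _ hv => h.vs2.1 (hs.subP hv), fun _ hv => h.vs2.1 (hs.subQ hv),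
    fun _ hv => h.vs2.1 (hs.subS hv), fun _ hv => ⟨Finset.disjoint_left.1 hs.2.2.2.1 hv,
      Finset.disjoint_right.1 hs.2.1 hv⟩, fun _ hv => Finset.disjoint_right.1 hs.2.2.1 hv,
    fun _ h1 h2 h3 => hs.mem_or (h.vs2.2 ⟨h1, h2, h3⟩)⟩

/-- the new edges do not cross -/
theorem Cf.cross {x y a b c d q q' : α} (h : Cf G x y a b c d q q') {W P Q : Finset α}
    (hs : Sep (T2 G x y a c q q') W P Q) :
    (x ∈ P → b ∉ Q ∧ d ∉ Q ∧ q ∉ Q) ∧ (y ∈ P → b ∉ Q ∧ d ∉ Q ∧ q' ∉ Q) := by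
  have h1 := h.q_ne
  have h1' := h.swap.q_ne
  have h2 := h.s_ne
  have hxb : (T2 G x y a c q q').Adj x b :=
    ⟨h2.1.2.1, Or.inl ⟨(h.nx b).2 (by tauto), h2.1.1, h.ab.symm, h2.1.2.2.1, h.bc⟩⟩
  have hxd : (T2 G x y a c q q').Adj x d :=
    ⟨h2.1.2.2.2, Or.inl ⟨(h.nx d).2 (by tauto), h2.1.1, h.ad.symm, h2.1.2.2.1, h.cd.symm⟩⟩
  have hxq : (T2 G x y a c q q').Adj x q := ⟨h1.1.symm, Or.inr (Or.inl ⟨rfl, rfl⟩)⟩
  have hyb : (T2 G x y a c q q').Adj y b :=
    ⟨h2.2.2.1, Or.inl ⟨(h.ny b).2 (by tauto), h2.2.1, h.ab.symm, h2.2.2.2.1, h.bc⟩⟩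
  have hyd : (T2 G x y a c q q').Adj y d :=
    ⟨h2.2.2.2.2, Or.inl ⟨(h.ny d).2 (by tauto), h2.2.1, h.ad.symm, h2.2.2.2.1, h.cd.symm⟩⟩
  have hyq : (T2 G x y a c q q').Adj y q' :=
    ⟨h1'.1.symm, Or.inr (Or.inr (Or.inr (Or.inl ⟨rfl, rfl⟩)))⟩
  exact ⟨fun hx => ⟨fun h3 => hs.2.2.2.2 x hx b h3 hxb, fun h3 => hs.2.2.2.2 x hx d h3 hxd,
    fun h3 => hs.2.2.2.2 x hx q h3 hxq⟩, fun hy => ⟨fun h3 => hs.2.2.2.2 y hy b h3 hyb,
    fun h3 => hs.2.2.2.2 y hy d h3 hyd, fun h3 => hs.2.2.2.2 y hy q' h3 hyq⟩⟩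

theorem Cf.m1 {x y a b c d q q' : α} (h : Cf G x y a b c d q q') {W P Q : Finset α}
    (hs : Sep (T2 G x y a c q q') W P Q) (hW : W.card ≤ 3) (hx : x ∈ P) (hy : y ∈ P)
    (hQ : Q.Nonempty) : False := by
  have hf := h.facts hs
  have hc := h.cross hs
  have hV := h.mem_VS_all
  refine few h.g.1 (A := Q) (T := W) (r := x) (fun v hv => (hf.2.1 v hv).1) hQ ?_ (by omega)
    hV.1 (by grind) (by grind) hs.2.2.1.symm
  intro p hp v hv hpv
  have h1 := h.step hs.symm hp hv hpv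
  grind

omit [Fintype α] in
theorem card_ins (a : α) {W : Finset α} {k : ℕ} (h : W.card ≤ k) : (insert a W).card ≤ k + 1 :=
  (card_insert_le _ _).trans (Nat.add_le_add_right h 1)

/-- `x` in the cut, `y` on the other side -/
theorem Cf.m3 (hNBF : SpecNBF) {x y a b c d q q' : α} (h : Cf G x y a b c d q q')
    {W P Q : Finset α} (hs : Sep (T2 G x y a c q q') W P Q) (hW : W.card ≤ 3) (hx : x ∈ W)
    (hy : y ∈ Q) (hP : P.Nonempty) : W.card = 3 ∧ P.card ≤ 1 := by
  have hf := h.facts hs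
  have hc := h.cross hs.symm
  have hV := h.mem_VS_all
  have hs2 := h.s_ne
  have hac := h.ac
  have hT : ∀ p ∈ P, ∀ v, v ∉ P → G.Adj p v → v ∈ insert a W := by
    intro p hp v hv hpv
    have h1 := h.step hs hp hv hpv
    rw [mem_insert]
    grind
  have hAT : Disjoint P (insert a W) := by
    rw [disjoint_insert_right]
    exact ⟨fun ha => (hf.1 a ha).2.1 rfl, hs.2.1.symm⟩
  have hy1 : y ∉ insert a W := by
    rw [mem_insert]
    grind
  have hc1 : c ∉ insert a W := by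
    rw [mem_insert]
    grind
  constructor
  · by_contra hne
    exact few h.g.1 (A := P) (T := insert a W) (r := y) (fun v hv => (hf.1 v hv).1) hP hT
      (lt_of_le_of_lt (card_ins a (by omega : W.card ≤ 2)) (by omega)) hV.2.1 (by grind) hy1 hAT
  · by_contra hne
    refine h.cut4 hNBF (A := P) (T := insert a W) (r := y) (r' := c) (fun v hv => (hf.1 v hv).1)
      ?_ hT hAT (card_ins a hW) (mem_insert_of_mem hx) (Or.inl (mem_insert_self _ _)) (by omega)
      ⟨hV.2.1, by grind, hy1⟩ ⟨hV.2.2.2.2.1, by grind, hc1⟩ (by grind)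
    intro v hv
    rw [mem_insert] at hv
    grind

/-- `x`, `y` in the cut, no neighbour of `a` on one side -/
theorem Cf.m4a (hNBF : SpecNBF) {x y a b c d q q' : α} (h : Cf G x y a b c d q q')
    {W P Q : Finset α} (hs : Sep (T2 G x y a c q q') W P Q) (hW : W.card ≤ 3) (hx : x ∈ W)
    (hy : y ∈ W) (hP : P.Nonempty) (hQ : Q.Nonempty) (hd : d ∉ P) (hq : q ∉ P) :
    W.card = 3 ∧ P.card ≤ 1 := by
  have hf := h.facts hs
  have hV := h.mem_VS_all
  have hs2 := h.s_ne
  have hac := h.ac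
  have hT : ∀ p ∈ P, ∀ v, v ∉ P → G.Adj p v → v ∈ insert c W := by
    intro p hp v hv hpv
    have h1 := h.step hs hp hv hpv
    rw [mem_insert]
    grind
  have hAT : Disjoint P (insert c W) := by
    rw [disjoint_insert_right]
    exact ⟨fun ha => (hf.1 c ha).2.2 rfl, hs.2.1.symm⟩
  have ha1 : a ∉ insert c W := by
    rw [mem_insert]
    grind
  constructor
  · by_contra hne
    exact few h.g.1 (A := P) (T := insert c W) (r := a) (fun v hv => (hf.1 v hv).1) hP hT
      (lt_of_le_of_lt (card_ins c (by omega : W.card ≤ 2)) (by omega)) hV.2.2.1 (by grind) ha1 hAT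
  · by_contra hne
    obtain ⟨r, hr⟩ := hQ
    have hr1 : r ∉ insert c W := by
      rw [mem_insert]
      grind
    refine h.cut4 hNBF (A := P) (T := insert c W) (r := a) (r' := r)
      (fun v hv => (hf.1 v hv).1) ?_ hT hAT (card_ins c hW) (mem_insert_of_mem hx)
      (Or.inr (Or.inr (Or.inl (mem_insert_self _ _)))) (by omega)
      ⟨hV.2.2.1, by grind, ha1⟩ ⟨(hf.2.1 r hr).1, by grind, hr1⟩ (by grind)
    intro v hv
    rw [mem_insert] at hv
    grind

omit [Fintype α] in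
theorem card_two_le {x y : α} (hxy : x ≠ y) {W : Finset α} (hW : W.card ≤ 3) (hx : x ∈ W)
    (hy : y ∈ W) (a c : α) : (insert a (insert c ((W.erase x).erase y))).card < 4 := by
  have h1 : ((W.erase x).erase y).card ≤ 1 := by
    rw [card_erase_of_mem (mem_erase.2 ⟨hxy.symm, hy⟩), card_erase_of_mem hx]
    omega
  have h2 := card_ins a (card_ins c h1)
  omega

theorem Cf.m4c {x y a b c d q q' : α} (h : Cf G x y a b c d q q')
    {W P Q : Finset α} (hs : Sep (T2 G x y a c q q') W P Q) (hW : W.card ≤ 3) (hx : x ∈ W)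
    (hy : y ∈ W) (hd : d ∈ P) (hq : q ∈ Q) (hb : b ∈ P) : False := by
  have hf := h.facts hs
  have hV := h.mem_VS_all
  have hs2 := h.s_ne
  have hac := h.ac
  have hnx := h.nx
  have hny := h.ny
  have hcomm := fun u v => G.adj_comm u v
  refine few h.g.1 (A := Q) (T := insert a (insert c ((W.erase x).erase y))) (r := x)
    (fun v hv => (hf.2.1 v hv).1) ⟨q, hq⟩ ?_ (card_two_le h.xy hW hx hy a c) hV.1 (by grind) ?_ ?_
  · intro p hp v hv hpv
    have h1 := h.step hs.symm hp hv hpv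
    simp only [mem_insert, mem_erase]
    grind
  · simp only [mem_insert, mem_erase]
    grind
  · rw [disjoint_insert_right, disjoint_insert_right]
    refine ⟨fun ha => (hf.2.1 a ha).2.1 rfl, fun ha => (hf.2.1 c ha).2.2 rfl, ?_⟩
    exact disjoint_of_subset_right ((erase_subset _ _).trans (erase_subset _ _)) hs.2.2.1.symm

theorem Cf.m4d {x y a b c d q q' : α} (h : Cf G x y a b c d q q')
    {W P Q : Finset α} (hs : Sep (T2 G x y a c q q') W P Q) (hW : W.card ≤ 3) (hx : x ∈ W)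
    (hy : y ∈ W) (hd : d ∈ P) (hq : q ∈ Q) (hb : b ∈ Q) (hq' : q' ∈ P) : False := by
  have hf := h.facts hs
  have hV := h.mem_VS_all
  have hs2 := h.s_ne
  have hac := h.ac
  have had := h.ad
  have hcd := h.cd
  have hqd := h.qd'
  have hnx := h.nx
  have hny := h.ny
  have hcomm := fun u v => G.adj_comm u v
  refine few h.g.1 (A := P.erase d) (T := insert d (insert c ((W.erase x).erase y))) (r := a)
    (fun v hv => (hf.1 v (mem_of_mem_erase hv)).1) ⟨q', mem_erase.2 ⟨hqd, hq'⟩⟩ ?_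
    (card_two_le h.xy hW hx hy d c) hV.2.2.1 ?_ ?_ ?_
  · intro p hp v hv hpv
    rw [mem_erase] at hp hv
    simp only [mem_insert, mem_erase]
    by_cases hvd : v = d
    · exact Or.inl hvd
    · have h1 := h.step hs hp.2 (fun hvP => hv ⟨hvd, hvP⟩) hpv
      grind
  · rw [mem_erase]
    grind
  · simp only [mem_insert, mem_erase]
    grind
  · rw [disjoint_insert_right, disjoint_insert_right]
    refine ⟨notMem_erase _ _, fun ha => (hf.1 c (mem_of_mem_erase ha)).2.2 rfl, ?_⟩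
    exact disjoint_of_subset_left (erase_subset _ _)
      (disjoint_of_subset_right ((erase_subset _ _).trans (erase_subset _ _)) hs.2.1.symm)

/-- `x`, `y` in the cut -/
theorem Cf.m4 (hNBF : SpecNBF) {x y a b c d q q' : α} (h : Cf G x y a b c d q q')
    {W P Q : Finset α} (hs : Sep (T2 G x y a c q q') W P Q) (hW : W.card ≤ 3) (hx : x ∈ W)
    (hy : y ∈ W) (hP : P.Nonempty) (hQ : Q.Nonempty) :
    W.card = 3 ∧ (P.card ≤ 1 ∨ Q.card ≤ 1) := by
  have hdis : ∀ v, v ∈ P → v ∉ Q := fun v hv => Finset.disjoint_left.1 hs.2.2.2.1 hv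
  by_cases h1 : d ∉ P ∧ q ∉ P
  · have := h.m4a hNBF hs hW hx hy hP hQ h1.1 h1.2
    exact ⟨this.1, Or.inl this.2⟩
  by_cases h2 : d ∉ Q ∧ q ∉ Q
  · have := h.m4a hNBF hs.symm hW hx hy hQ hP h2.1 h2.2
    exact ⟨this.1, Or.inr this.2⟩
  have hs' := hs
  rw [← h.swap2] at hs'
  by_cases h3 : b ∉ P ∧ q' ∉ P
  · have := h.swap.m4a hNBF hs' hW hy hx hP hQ h3.1 h3.2
    exact ⟨this.1, Or.inl this.2⟩
  by_cases h4 : b ∉ Q ∧ q' ∉ Q
  · have := h.swap.m4a hNBF hs'.symm hW hy hx hQ hP h4.1 h4.2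
    exact ⟨this.1, Or.inr this.2⟩
  exfalso
  by_cases hd : d ∈ P
  · have hq : q ∈ Q := by
      have := hdis d hd
      tauto
    by_cases hb : b ∈ P
    · exact h.m4c hs hW hx hy hd hq hb
    · have hb' : b ∈ Q ∧ q' ∈ P := by
        have := hdis q'
        tauto
      exact h.m4d hs hW hx hy hd hq hb'.1 hb'.2
  · have hq : q ∈ P ∧ d ∈ Q := by
      have := hdis q
      tauto
    by_cases hb : b ∈ P
    · have hb' : q' ∈ Q := by
        have := hdis b hb
        tauto
      exact h.m4d hs.symm hW hx hy hq.2 hq.1 hb hb'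
    · have hb' : b ∈ Q := by
        have := hdis q'
        tauto
      exact h.m4c hs.symm hW hx hy hq.2 hq.1 hb'


/-- `x` and `y` on different sides -/
theorem Cf.m2 {x y a b c d q q' : α} (h : Cf G x y a b c d q q')
    {W P Q : Finset α} (hs : Sep (T2 G x y a c q q') W P Q) (hW : W.card ≤ 3) (hx : x ∈ P)
    (hy : y ∈ Q) : W.card = 3 ∧ (P.card ≤ 1 ∨ Q.card ≤ 1) := by
  have hf := h.facts hs
  have hc := h.cross hs
  have hc' := h.cross hs.symm
  have hV := h.mem_VS_all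
  have hs2 := h.s_ne
  have hqn := h.q_ne
  have hqn' := h.swap.q_ne
  have hab := h.ab
  have hac := h.ac
  have had := h.ad
  have hbc := h.bc
  have hbd := h.bd
  have hcd := h.cd
  have hxy := h.xy
  have hnx := h.nx
  have hny := h.ny
  have hna := h.na
  have hnc := h.nc
  have hcomm := fun u v => G.adj_comm u v
  have hb : b ∈ W := by grind
  have hd : d ∈ W := by grind
  have hW3 : W.card = 3 := by
    by_contra hne
    have hq : q ∉ W := by
      intro hq
      have h1 : ({b, d, q} : Finset α) ⊆ W := by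
        intro v hv
        simp only [mem_insert, mem_singleton] at hv
        rcases hv with rfl | rfl | rfl <;> assumption
      have h2 := card_le_card h1
      rw [card_eq_three.2 ⟨b, d, q, hbd, hqn.2.2.2.1.symm, hqn.2.2.2.2.2.symm, rfl⟩] at h2
      omega
    have hqP : q ∈ P := by grind
    refine few h.g.1 (A := P.erase x) (T := insert a W) (r := y)
      (fun v hv => (hf.1 v (mem_of_mem_erase hv)).1) ⟨q, mem_erase.2 ⟨hqn.1, hqP⟩⟩ ?_
      (lt_of_le_of_lt (card_ins a (by omega : W.card ≤ 2)) (by omega)) hV.2.1 ?_ ?_ ?_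
    · intro p hp v hv hpv
      rw [mem_erase] at hp hv
      rw [mem_insert]
      by_cases hvx : v = x
      · grind
      · have h1 := h.step hs hp.2 (fun hvP => hv ⟨hvx, hvP⟩) hpv
        grind
    · rw [mem_erase]
      grind
    · rw [mem_insert]
      grind
    · rw [disjoint_insert_right]
      exact ⟨fun ha => (hf.1 a (mem_of_mem_erase ha)).2.1 rfl,
        disjoint_of_subset_left (erase_subset _ _) hs.2.1.symm⟩
  refine ⟨hW3, ?_⟩
  have h1 : ((W.erase b).erase d).card = 1 := by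
    rw [card_erase_of_mem (mem_erase.2 ⟨hbd.symm, hd⟩), card_erase_of_mem hb, hW3]
  obtain ⟨q'', hq''⟩ := card_eq_one.1 h1
  have hmem : q'' ∈ (W.erase b).erase d := by rw [hq'']; simp
  rw [mem_erase, mem_erase] at hmem
  have hWe : W = {b, d, q''} := by
    rw [← insert_erase hb, ← insert_erase (mem_erase.2 ⟨hbd.symm, hd⟩), hq'']
  have hVS := h.g.1.VS_del (S := {x, y}) (by
    have : ({x, y} : Finset α).card ≤ 2 := card_le_two
    omega)
  have hsep : Sep (del G {x, y}) {b, d, q''} (insert a (P.erase x)) (insert c (Q.erase y)) := by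
    rw [← hWe]
    refine ⟨?_, ?_, ?_, ?_, ?_⟩
    · rw [hVS]
      ext v
      have e1 := hf.1 v
      have e2 := hf.2.1 v
      have e3 := hf.2.2.1 v
      have e4 := hf.2.2.2.2.2 v
      have e5 := hf.2.2.2.1 v
      have e6 := hf.2.2.2.2.1 v
      have e7 := hf.2.2.2.1 x hx
      have e8 := hf.2.2.2.2.1 y hy
      have e9 := hf.2.2.2.1 y
      simp only [mem_union, mem_insert, mem_erase, mem_sdiff, mem_singleton]
      grind
    · rw [disjoint_insert_right]
      exact ⟨fun ha => (hf.2.2.1 a ha).2.1 rfl,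
        disjoint_of_subset_right (erase_subset _ _) hs.2.1⟩
    · rw [disjoint_insert_right]
      exact ⟨fun ha => (hf.2.2.1 c ha).2.2 rfl,
        disjoint_of_subset_right (erase_subset _ _) hs.2.2.1⟩
    · rw [disjoint_insert_left, disjoint_insert_right, mem_insert, mem_erase]
      refine ⟨?_, ?_, ?_⟩
      · rintro (h2 | h2)
        · exact hac h2
        · exact (hf.2.1 a h2.2).2.1 rfl
      · intro h2
        exact (hf.1 c (mem_of_mem_erase h2)).2.2 rfl
      · exact disjoint_of_subset_left (erase_subset _ _)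
          (disjoint_of_subset_right (erase_subset _ _) hs.2.2.2.1)
    · intro p hp v hv hpv
      have hpv' := hpv.1
      rw [mem_insert, mem_erase] at hp hv
      by_cases hpa : p = a
      · subst hpa
        have := (hna v).1 hpv'
        grind
      · have hpP : p ≠ x ∧ p ∈ P := hp.resolve_left hpa
        by_cases hvc : v = c
        · subst hvc
          have := (hnc p).1 hpv'.symm
          grind
        · have hvQ : v ≠ y ∧ v ∈ Q := hv.resolve_left hvc
          have h2 := h.step hs hpP.2 (fun h3 => (hf.2.2.2.1 v h3).1 hvQ.2) hpv'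
          have h3 := hf.2.1 v hvQ.2
          have h4 := hf.2.2.2.2.1 v hvQ.2
          grind
  rcases h.cut q'' _ _ hmem.2.1 hmem.1 hsep (mem_insert_self _ _) (mem_insert_self _ _) with h2 | h2
  · left
    have h3 : P.erase x = ∅ := by
      rw [eq_empty_iff_forall_notMem]
      intro v hv
      have h4 : v ∈ insert a (P.erase x) := mem_insert_of_mem hv
      rw [h2, mem_singleton] at h4
      exact (hf.1 v (mem_of_mem_erase hv)).2.1 h4
    have h4 := card_erase_of_mem hx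
    rw [h3, card_empty] at h4
    omega
  · right
    have h3 : Q.erase y = ∅ := by
      rw [eq_empty_iff_forall_notMem]
      intro v hv
      have h4 : v ∈ insert c (Q.erase y) := mem_insert_of_mem hv
      rw [h2, mem_singleton] at h4
      exact (hf.2.1 v (mem_of_mem_erase hv)).2.2 h4
    have h4 := card_erase_of_mem hy
    rw [h3, card_empty] at h4
    omega

/-- the main lemma on the separations of `S₂` -/
theorem Cf.mm (hNBF : SpecNBF) {x y a b c d q q' : α} (h : Cf G x y a b c d q q')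
    {W P Q : Finset α} (hs : Sep (T2 G x y a c q q') W P Q) (hW : W.card ≤ 3)
    (hP : P.Nonempty) (hQ : Q.Nonempty) : W.card = 3 ∧ (P.card ≤ 1 ∨ Q.card ≤ 1) := by
  have hV := h.mem_VS_all
  have hs2 := h.s_ne
  have hs' := hs
  rw [← h.swap2] at hs'
  rcases hs.mem_or (h.vs2.2 ⟨hV.1, hs2.1.1, hs2.1.2.2.1⟩) with hx | hx | hx <;>
    rcases hs.mem_or (h.vs2.2 ⟨hV.2.1, hs2.2.1, hs2.2.2.2.1⟩) with hy | hy | hy
  · exact h.m4 hNBF hs hW hx hy hP hQ
  · have := h.m3 hNBF hs.symm hW hx hy hQ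
    exact ⟨this.1, Or.inr this.2⟩
  · have := h.m3 hNBF hs hW hx hy hP
    exact ⟨this.1, Or.inl this.2⟩
  · have := h.swap.m3 hNBF hs'.symm hW hy hx hQ
    exact ⟨this.1, Or.inr this.2⟩
  · exact (h.m1 hs hW hx hy hQ).elim
  · exact h.m2 hs hW hx hy
  · have := h.swap.m3 hNBF hs' hW hy hx hP
    exact ⟨this.1, Or.inl this.2⟩
  · have := h.m2 hs.symm hW hx hy
    exact ⟨this.1, this.2.symm⟩
  · exact (h.m1 hs.symm hW hx hy hP).elim

theorem Cf.c1 (hNBF : SpecNBF) {x y a b c d q q' : α} (h : Cf G x y a b c d q q') :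
    C1 (T2 G x y a c q q') := by
  have hVeq : VS (T2 G x y a c q q') = VS G \ {a, c} := by
    ext v
    rw [h.vs2, mem_sdiff, mem_insert, mem_singleton, not_or]
  constructor
  · rw [kconn_iff_sep]
    constructor
    · rw [hVeq]
      have h1 := le_card_sdiff {a, c} (VS G)
      have h2 : ({a, c} : Finset α).card ≤ 2 := card_le_two
      have h3 := h.g.2
      omega
    · intro S P Q hs hS
      by_contra hcon
      rw [not_or, ← ne_eq, ← ne_eq, ← nonempty_iff_ne_empty, ← nonempty_iff_ne_empty] at hcon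
      have := (h.mm hNBF hs (by omega) hcon.1 hcon.2).1
      omega
  · intro S P Q hs hS
    rcases P.eq_empty_or_nonempty with hP | hP
    · left
      rw [hP, card_empty]
      omega
    rcases Q.eq_empty_or_nonempty with hQ | hQ
    · right
      rw [hQ, card_empty]
      omega
    exact (h.mm hNBF hs (by omega) hP hQ).2


/-! ## `S₁` is 3-connected -/

theorem DD_adj {x c y a u v : α} : (DD G x c y a).Adj u v ↔
    G.Adj u v ∧ s(u, v) ≠ s(x, c) ∧ s(u, v) ≠ s(y, a) := by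
  unfold DD
  rw [delE_adj, delE_adj]
  tauto

theorem Cf.vsA {x y a b c d q q' : α} (h : Cf G x y a b c d q q') {v : α} :
    v ∈ VS (DD G x c y a) ↔ v ∈ VS G := by
  have hs2 := h.s_ne
  constructor
  · intro hv
    obtain ⟨w, hw⟩ := mem_VS.1 hv
    exact left_mem_VS (DD_adj.1 hw).1
  · intro hv
    obtain ⟨w, hw, hwF⟩ := exists_nbr h.g.1 hv
      (F := {if v = x then c else x, if v = y then a else y}) (card_le_two.trans (by omega))
    simp only [mem_insert, mem_singleton, not_or] at hwF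
    refine mem_VS.2 ⟨w, DD_adj.2 ⟨hw, ?_, ?_⟩⟩
    · rw [ne_eq, Sym2.eq_iff]
      grind
    · rw [ne_eq, Sym2.eq_iff]
      grind

theorem Cf.step1 {x y a b c d q q' : α} (h : Cf G x y a b c d q q') {W P Q : Finset α}
    (hs : Sep (T1 G x a c q) W P Q) {p v : α} (hp : p ∈ P) (hv : v ∉ P) (hpv : G.Adj p v) :
    (v = a ∧ (p = x ∨ p = y ∨ p = d ∨ p = q)) ∨ (p = x ∧ v = c) ∨ (p = c ∧ v = x) ∨ v ∈ W := by
  by_cases hva : v = a
  · subst hva
    exact Or.inl ⟨rfl, (h.na p).1 hpv.symm⟩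
  by_cases h1 : p = x ∧ v = c
  · exact Or.inr (Or.inl h1)
  by_cases h2 : p = c ∧ v = x
  · exact Or.inr (Or.inr (Or.inl h2))
  have hp' := h.vs1.1 (hs.subP hp)
  have h3 : (T1 G x a c q).Adj p v := ⟨hpv.ne, Or.inl ⟨hpv, hp'.2, hva, h1, h2⟩⟩
  rcases hs.mem_or (right_mem_VS h3) with h4 | h4 | h4
  · exact Or.inr (Or.inr (Or.inr h4))
  · exact absurd h4 hv
  · exact absurd h3 (hs.2.2.2.2 p hp v h4)

theorem Cf.t1x {x y a b c d q q' : α} (h : Cf G x y a b c d q q') (w : α) :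
    (T1 G x a c q).Adj x w ↔ w = d ∨ w = b ∨ w = q := by
  have h1 := h.q_ne
  have h2 := h.s_ne
  have nx := h.nx
  have hab := h.ab
  have hac := h.ac
  have had := h.ad
  have hbc := h.bc
  have hcd := h.cd
  rw [T1_adj]
  grind

theorem Cf.k1 {x y a b c d q q' : α} (h : Cf G x y a b c d q q')
    (hA : KConn 3 (DD G x c y a)) : KConn 3 (T1 G x a c q) := by
  have hV := h.mem_VS_all
  have hs2 := h.s_ne
  have hqn := h.q_ne
  have hna := h.na
  have hcomm := fun u v => G.adj_comm u v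
  have hVeq : VS (T1 G x a c q) = (VS G).erase a := by
    ext v
    rw [h.vs1, mem_erase, and_comm]
  have k1 : ∀ W P Q, Sep (T1 G x a c q) W P Q → W.card < 3 → P.Nonempty → Q.Nonempty →
      x ∉ W := by
    rintro W P Q hs hW hP ⟨r, hr⟩ hx
    have e1 : ∀ v ∈ P, v ∈ VS G ∧ v ≠ a := fun v hv => h.vs1.1 (hs.subP hv)
    have e2 := h.vs1.1 (hs.subQ hr)
    refine few h.g.1 (A := P) (T := insert a W) (r := r) (fun v hv => (e1 v hv).1) hP ?_
      (lt_of_le_of_lt (card_ins a (by omega : W.card ≤ 2)) (by omega)) e2.1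
      (Finset.disjoint_right.1 hs.2.2.2.1 hr) ?_ ?_
    · intro p hp v hv hpv
      have h1 := h.step1 hs hp hv hpv
      have h2 := Finset.disjoint_left.1 hs.2.1 hx
      rw [mem_insert]
      grind
    · rw [mem_insert, not_or]
      exact ⟨e2.2, Finset.disjoint_right.1 hs.2.2.1 hr⟩
    · rw [disjoint_insert_right]
      exact ⟨fun ha => (e1 a ha).2 rfl, hs.2.1.symm⟩
  have k2 : ∀ W P Q, Sep (T1 G x a c q) W P Q → W.card < 3 → Q.Nonempty → x ∉ P := by
    intro W P Q hs hW hQ hx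
    have e2 : ∀ v ∈ Q, v ∈ VS G ∧ v ≠ a := fun v hv => h.vs1.1 (hs.subQ hv)
    have hdQ : d ∉ Q := fun hd => hs.2.2.2.2 x hx d hd ((h.t1x d).2 (by tauto))
    have hqQ : q ∉ Q := fun hd => hs.2.2.2.2 x hx q hd ((h.t1x q).2 (by tauto))
    have hxQ : x ∉ Q := Finset.disjoint_left.1 hs.2.2.2.1 hx
    refine few hA (A := Q) (T := W) (r := x) (fun v hv => h.vsA.2 (e2 v hv).1) hQ ?_ hW
      (h.vsA.2 hV.1) hxQ (Finset.disjoint_right.1 hs.2.1 hx) hs.2.2.1.symm
    intro p hp v hv hpv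
    rw [DD_adj] at hpv
    have h1 := h.step1 hs.symm hp hv hpv.1
    have h2 := hpv.2
    rw [ne_eq, ne_eq, Sym2.eq_iff, Sym2.eq_iff] at h2
    grind
  rw [kconn_iff_sep]
  constructor
  · rw [hVeq, card_erase_of_mem hV.2.2.1]
    have h3 := h.g.2
    omega
  · intro S P Q hs hS
    by_contra hcon
    rw [not_or, ← ne_eq, ← ne_eq, ← nonempty_iff_ne_empty, ← nonempty_iff_ne_empty] at hcon
    rcases hs.mem_or (h.vs1.2 ⟨hV.1, hs2.1.1⟩) with hx | hx | hx
    · exact k1 S P Q hs hS hcon.1 hcon.2 hx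
    · exact k2 S P Q hs hS hcon.2 hx
    · exact k2 S Q P hs.symm hS hcon.1 hx

/-! ## degrees -/

theorem Cf.deg_d {x y a b c d q q' : α} (h : Cf G x y a b c d q q') : 5 ≤ (nbs G d).card := by
  by_contra hcon
  have hV := h.mem_VS_all
  have hs2 := h.s_ne
  have hqn := h.q_ne
  have hna := h.na
  have hcomm := fun u v => G.adj_comm u v
  have hdx : G.Adj d x := ((h.nx d).2 (by tauto)).symm
  have hdy : G.Adj d y := ((h.ny d).2 (by tauto)).symm
  have hda : G.Adj d a := ((h.na d).2 (by tauto)).symm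
  have h4 : (nbs G d).card = 4 := le_antisymm (by omega) (h.g.1.le_nbs hV.2.2.2.2.2.1)
  have h1 : ((((nbs G d).erase x).erase y).erase a).card = 1 := by
    rw [card_erase_of_mem, card_erase_of_mem, card_erase_of_mem, h4]
    · exact mem_nbs.2 hdx
    · exact mem_erase.2 ⟨h.xy.symm, mem_nbs.2 hdy⟩
    · exact mem_erase.2 ⟨hs2.2.1.symm, mem_erase.2 ⟨hs2.1.1.symm, mem_nbs.2 hda⟩⟩
  obtain ⟨w, hw⟩ := card_eq_one.1 h1
  have hw' : w ∈ (((nbs G d).erase x).erase y).erase a := by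
    rw [hw]
    simp
  rw [mem_erase, mem_erase, mem_erase, mem_nbs] at hw'
  have nd : ∀ v, G.Adj d v ↔ v = a ∨ v = w ∨ v = x ∨ v = y := by
    intro v
    constructor
    · intro hv
      by_contra hne
      simp only [not_or] at hne
      have : v ∈ (((nbs G d).erase x).erase y).erase a := by
        rw [mem_erase, mem_erase, mem_erase, mem_nbs]
        exact ⟨hne.1, hne.2.2.2, hne.2.2.1, hv⟩
      rw [hw, mem_singleton] at this
      exact hne.2.1 this
    · rintro (rfl | rfl | rfl | rfl)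
      · exact hda
      · exact hw'.2.2.2
      · exact hdx
      · exact hdy
  by_cases hwq : w = q
  · refine few h.g.1 (A := {a, d}) (T := {x, y, q}) (r := b) ?_ ⟨a, by simp⟩ ?_
      (lt_of_le_of_lt card_le_three (by omega)) hV.2.2.2.1 ?_ ?_ ?_
    · intro v hv
      rw [mem_insert, mem_singleton] at hv
      rcases hv with rfl | rfl
      · exact hV.2.2.1
      · exact hV.2.2.2.2.2.1
    · intro p hp v hv hpv
      simp only [mem_insert, mem_singleton] at hp hv ⊢
      rcases hp with rfl | rfl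
      · have := (h.na v).1 hpv
        grind
      · have := (nd v).1 hpv
        grind
    · have := h.ab
      have := h.bd
      simp only [mem_insert, mem_singleton]
      grind
    · simp only [mem_insert, mem_singleton]
      grind
    · have := h.ad
      rw [Finset.disjoint_left]
      intro v hv
      simp only [mem_insert, mem_singleton] at hv ⊢
      grind
  · apply h.n33 a d w q x y
    refine ⟨?_, ?_, ?_⟩
    · have had := h.ad
      have hxy := h.xy
      have hdw := hw'.2.2.2.ne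
      simp only [List.nodup_cons, List.mem_cons, List.not_mem_nil, or_false, not_or,
        List.nodup_nil, and_true, not_false_eq_true]
      grind
    · intro v
      rw [h.na]
      tauto
    · exact nd

theorem Cf.deg1 {x y a b c d q q' : α} (h : Cf G x y a b c d q q') :
    4 ≤ (nbs (T1 G x a c q) d).card := by
  have hs2 := h.s_ne
  have hqn := h.q_ne
  have hcd := h.cd
  have had := h.ad
  have h1 : (nbs G d).erase a ⊆ nbs (T1 G x a c q) d := by
    intro w hw
    rw [mem_erase, mem_nbs] at hw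
    rw [mem_nbs, T1_adj]
    have := hw.2.ne
    grind
  have h2 := card_le_card h1
  have h3 := h.deg_d
  have h4 := pred_card_le_card_erase (s := nbs G d) (a := a)
  omega

theorem Cf.deg2 {x y a b c d q q' : α} (h : Cf G x y a b c d q q') :
    4 ≤ (nbs (T2 G x y a c q q') b).card := by
  have hs2 := h.s_ne
  have hqn := h.q_ne
  have hbc := h.bc
  have hab := h.ab
  have hbd := h.bd
  have hna := h.na
  have hcomm := fun u v => G.adj_comm u v
  have h1 : (nbs G b).erase c ⊆ nbs (T2 G x y a c q q') b := by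
    intro w hw
    rw [mem_erase, mem_nbs] at hw
    rw [mem_nbs, T2_adj]
    have := hw.2.ne
    have := hna b
    grind
  have h2 := card_le_card h1
  have h3 := h.swap.deg_d
  have h4 := pred_card_le_card_erase (s := nbs G b) (a := c)
  omega

/-! ## S3S -/

theorem Cf.s2 (hNBF : SpecNBF) {x y a b c d q q' : α} (h : Cf G x y a b c d q q') :
    S3S (delE (T2 G x y a c q q') y b) := by
  have hs2 := h.s_ne
  have hqn := h.q_ne
  have hqn' := h.swap.q_ne
  have hab := h.ab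
  have had := h.ad
  have hbc := h.bc
  have hbd := h.bd
  have hcd := h.cd
  have hxy := h.xy
  have hny := h.ny
  have hndq := h.ndq
  have hC := h.c1 hNBF
  have hyb : (T2 G x y a c q q').Adj y b := by
    rw [T2_adj]
    grind
  refine s3s_del hC.1 (p := d) (q := q') (by grind) (by grind) (by grind) ?_ ?_ h.deg2 ?_
  · intro w
    rw [T2_adj]
    grind
  · rw [T2_adj]
    grind
  · intro W P Q hs hW hy hb
    have hVS : VS (delE (T2 G x y a c q q') y b) = VS (T2 G x y a c q q') :=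
      VS_delE fun v hv => le_trans (by omega) (hC.1.le_nbs hv)
    have hyW : y ∉ W := Finset.disjoint_right.1 hs.2.1 hy
    have hsep : Sep (T2 G x y a c q q') (insert y W) (P.erase y) Q := by
      refine ⟨?_, ?_, ?_, ?_, ?_⟩
      · rw [← hVS, ← hs.1]
        ext v
        simp only [mem_union, mem_insert, mem_erase]
        grind
      · rw [disjoint_insert_left]
        exact ⟨notMem_erase _ _, disjoint_of_subset_right (erase_subset _ _) hs.2.1⟩
      · rw [disjoint_insert_left]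
        exact ⟨Finset.disjoint_left.1 hs.2.2.2.1 hy, hs.2.2.1⟩
      · exact disjoint_of_subset_left (erase_subset _ _) hs.2.2.2.1
      · intro p hp v hv hpv
        rw [mem_erase] at hp
        refine hs.2.2.2.2 p hp.2 v hv (delE_adj.2 ⟨hpv, fun e => ?_⟩)
        rw [Sym2.eq_iff] at e
        rcases e with ⟨e, _⟩ | ⟨_, e⟩
        · exact hp.1 e
        · exact Finset.disjoint_left.1 hs.2.2.2.1 hy (e ▸ hv)
    exact hC.2 _ _ _ hsep (by rw [card_insert_of_notMem hyW, hW])

theorem Cf.s1 (hNBF : SpecNBF) {x y a b c d q q' : α} (h : Cf G x y a b c d q q')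
    (hA : KConn 3 (DD G x c y a)) : S3S (delE (T1 G x a c q) x d) := by
  have hV := h.mem_VS_all
  have hs2 := h.s_ne
  have hqn := h.q_ne
  have hab := h.ab
  have had := h.ad
  have hbc := h.bc
  have hbd := h.bd
  have hcd := h.cd
  have hnbq := h.nbq
  have hK := h.k1 hA
  refine s3s_del hK (p := b) (q := q) (by grind) (by grind) (by grind) h.t1x ?_ h.deg1 ?_
  · rw [T1_adj]
    grind
  · intro W P Q hs hW hx hd
    by_contra hcon
    simp only [not_or, not_le] at hcon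
    have hVS : VS (delE (T1 G x a c q) x d) = VS (T1 G x a c q) :=
      VS_delE fun v hv => le_trans (by omega) (hK.le_nbs hv)
    have e1 : ∀ v ∈ P, v ∈ VS G ∧ v ≠ a := fun v hv => h.vs1.1 (hVS ▸ hs.subP hv)
    have e2 : ∀ v ∈ Q, v ∈ VS G ∧ v ≠ a := fun v hv => h.vs1.1 (hVS ▸ hs.subQ hv)
    have e3 : ∀ v ∈ W, v ∈ VS G ∧ v ≠ a := fun v hv => h.vs1.1 (hVS ▸ hs.subS hv)
    obtain ⟨r, hr, r', hr', hrr⟩ := one_lt_card.1 hcon.2
    have hxQ : x ∉ Q := Finset.disjoint_left.1 hs.2.2.2.1 hx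
    have key : ∀ r ∈ Q, r ∈ VS G ∧ r ∉ P.erase x ∧ r ∉ insert x (insert a W) := by
      intro r hr
      refine ⟨(e2 r hr).1, fun h1 => Finset.disjoint_right.1 hs.2.2.2.1 hr
        (mem_of_mem_erase h1), ?_⟩
      rw [mem_insert, mem_insert, not_or, not_or]
      exact ⟨fun e => hxQ (e ▸ hr), (e2 r hr).2, Finset.disjoint_right.1 hs.2.2.1 hr⟩
    refine h.cut4 hNBF (A := P.erase x) (T := insert x (insert a W)) (r := r) (r' := r')
      (fun v hv => (e1 v (mem_of_mem_erase hv)).1) ?_ ?_ ?_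
      (card_ins x (card_ins a (by omega : W.card ≤ 2))) (mem_insert_self _ _) (Or.inl (by simp))
      hcon.1 (key r hr) (key r' hr') hrr
    · intro v hv
      rw [mem_insert, mem_insert] at hv
      rcases hv with rfl | rfl | hv
      · exact hV.1
      · exact hV.2.2.1
      · exact (e3 v hv).1
    · intro p hp v hv hpv
      rw [mem_erase] at hp hv
      rw [mem_insert, mem_insert]
      by_cases hvx : v = x
      · exact Or.inl hvx
      by_cases hva : v = a
      · exact Or.inr (Or.inl hva)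
      have h1 : (T1 G x a c q).Adj p v :=
        ⟨hpv.ne, Or.inl ⟨hpv, (e1 p hp.2).2, hva, fun e => hp.1 e.1, fun e => hvx e.2⟩⟩
      have h2 : (delE (T1 G x a c q) x d).Adj p v := by
        refine delE_adj.2 ⟨h1, fun e => ?_⟩
        rw [Sym2.eq_iff] at e
        rcases e with ⟨e, _⟩ | ⟨_, e⟩
        · exact hp.1 e
        · exact hvx e
      rcases hs.mem_or (right_mem_VS h2) with h3 | h3 | h3
      · exact Or.inr (Or.inr h3)
      · exact absurd ⟨hvx, h3⟩ hv
      · exact absurd h2 (hs.2.2.2.2 p hp.2 v h3)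
    · rw [disjoint_insert_right, disjoint_insert_right]
      exact ⟨notMem_erase _ _, fun ha => (e1 a (mem_of_mem_erase ha)).2 rfl,
        disjoint_of_subset_left (erase_subset _ _) hs.2.1.symm⟩


/-! ## sizes -/

theorem Cf.size (hDST : SpecDST) {x y a b c d q q' : α} (h : Cf G x y a b c d q q') :
    sz (T2 G x y a c q q') < sz G := by
  have hs2 := h.s_ne
  have hqn := h.q_ne
  have had := h.ad
  have hac := h.ac
  have hbc := h.bc
  have hxy := h.xy
  have hxc : G.Adj x c := (h.nx c).2 (by tauto)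
  have hxa : G.Adj x a := (h.nx a).2 (by tauto)
  have hyc : G.Adj y c := (h.ny c).2 (by tauto)
  have hcb : G.Adj c b := (h.nc b).2 (by tauto)
  have e1 : sz (delE (DD G x c y a) a d) < sz G := by
    refine hDST.sz1 (fun u v huv => (DD_adj.1 (delE_adj.1 huv).1).1) fun e => ?_
    rw [← e] at hxc
    exact (DD_adj.1 (delE_adj.1 hxc).1).2.1 rfl
  have e2 : sz (T1 G x a c q) < sz (delE (DD G x c y a) a d) := by
    rw [← h.eq1]
    refine hDST.sz2 (delE_adj.2 ⟨DD_adj.2 ⟨hxa, ?_, ?_⟩, ?_⟩)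
    · rw [ne_eq, Sym2.eq_iff]
      grind
    · rw [ne_eq, Sym2.eq_iff]
      grind
    · rw [ne_eq, Sym2.eq_iff]
      grind
  have hcb1 : (T1 G x a c q).Adj c b := by
    rw [T1_adj]
    have hab := h.ab
    grind
  have e3 : sz (delE (T1 G x a c q) c b) < sz (T1 G x a c q) := by
    refine hDST.sz1 (delE_le _ _ _) fun e => ?_
    rw [← e] at hcb1
    exact (delE_adj.1 hcb1).2 rfl
  have e4 : sz (T2 G x y a c q q') < sz (delE (T1 G x a c q) c b) := by
    rw [← h.eq2]
    refine hDST.sz2 (delE_adj.2 ⟨?_, ?_⟩)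
    · rw [T1_adj]
      grind
    · rw [ne_eq, Sym2.eq_iff]
      grind
  omega

theorem Cf.main (hNBF : SpecNBF) (hNPC : SpecNPC) (hDST : SpecDST) (hTRI : SpecTRI)
    {x y a b c d q q' : α} (h : Cf G x y a b c d q q') (hI : IH G)
    (hA : KConn 3 (DD G x c y a)) (hNP : NP (DD G x c y a)) : KZ (DD G x c y a) := by
  have hs2 := h.s_ne
  have hqn := h.q_ne
  have hqn' := h.swap.q_ne
  have hab := h.ab
  have hac := h.ac
  have had := h.ad
  have hbc := h.bc
  have hbd := h.bd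
  have hcd := h.cd
  have hxy := h.xy
  have hnx := h.nx
  have hny := h.ny
  have hna := h.na
  have hnc := h.nc
  have hcomm := fun u v => G.adj_comm u v
  have nAa : ∀ w, (DD G x c y a).Adj a w ↔ w = x ∨ w = d ∨ w = q := by
    intro w
    rw [DD_adj, ne_eq, ne_eq, Sym2.eq_iff, Sym2.eq_iff]
    grind
  have nAx : ∀ w, (DD G x c y a).Adj x w ↔ w = a ∨ w = d ∨ w = b := by
    intro w
    rw [DD_adj, ne_eq, ne_eq, Sym2.eq_iff, Sym2.eq_iff]
    grind
  have n1c : ∀ w, (T1 G x a c q).Adj c w ↔ w = y ∨ w = b ∨ w = q' := by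
    intro w
    rw [T1_adj]
    grind
  have n1y : ∀ w, (T1 G x a c q).Adj y w ↔ w = c ∨ w = b ∨ w = d := by
    intro w
    rw [T1_adj]
    grind
  have hN1 : NP (T1 G x a c q) := by
    rw [← h.eq1]
    exact np_tri hNPC (b := x) (p := q) (q := b) (by grind) (by grind) (by grind) (by grind)
      (by grind) (by grind) (by grind) (by grind) (by grind) nAa nAx hNP
  have hN2 : NP (T2 G x y a c q q') := by
    rw [← h.eq2]
    exact np_tri hNPC (b := y) (p := q') (q := d) (by grind) (by grind) (by grind) (by grind)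
      (by grind) (by grind) (by grind) (by grind) (by grind) n1c n1y hN1
  have hC2 := h.c1 hNBF
  have hZ2 : KZ (T2 G x y a c q q') := (hI _ (h.size hDST) hC2 hN2).2
  have hK1 := h.k1 hA
  have hZ1 : KZ (T1 G x a c q) := by
    have e := h.eq2
    refine hTRI (a := c) (b := y) (c := b) (p := q') (q := d) ?_ n1c n1y ?_ ?_ ?_
    · simp only [List.nodup_cons, List.mem_cons, List.not_mem_nil, or_false, not_or,
        List.nodup_nil, and_true, not_false_eq_true]
      grind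
    · rw [e]
      exact hZ2
    · rw [e]
      exact h.s2 hNBF
    · rw [e, VS_delE fun v hv => le_trans (by omega) (hC2.1.le_nbs hv), h.vs2]
      exact ⟨h.mem_VS_all.2.2.2.1, hab.symm, hbc⟩
  have e := h.eq1
  refine hTRI (a := a) (b := x) (c := d) (p := q) (q := b) ?_ nAa nAx ?_ ?_ ?_
  · simp only [List.nodup_cons, List.mem_cons, List.not_mem_nil, or_false, not_or,
      List.nodup_nil, and_true, not_false_eq_true]
    grind
  · rw [e]
    exact hZ1
  · rw [e]
    exact h.s1 hNBF hA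
  · rw [e, VS_delE fun v hv => le_trans (by omega) (hK1.le_nbs hv), h.vs1]
    exact ⟨h.mem_VS_all.2.2.2.2.2.1, had.symm⟩

end E5UM

open E5UM in
/-- **E5U** -/
theorem specE5U (hE5D : SpecE5D) (hNBF : SpecNBF) (hNPC : SpecNPC) (hDST : SpecDST)
    (hTRI : SpecTRI) : SpecE5U := by
  intro α _ _ G x y q q' s hG hI h33 hT hq1 hq2 hq0 hq3 n0 n2 h1 h3 hB hNP
  have h4 : ∀ w, (∃ i, w = s i) ↔ w = s 0 ∨ w = s 1 ∨ w = s 2 ∨ w = s 3 := by
    intro w
    rw [Fin.exists_fin_succ, Fin.exists_fin_succ, Fin.exists_fin_succ, Fin.exists_fin_succ]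
    simp
  have hinj : ∀ i j : Fin 4, i ≠ j → s i ≠ s j := fun i j hij e => hij (hT.inj e)
  have hC : Cf G x y (s 0) (s 1) (s 2) (s 3) q q' :=
    { g := hG
      xy := hT.xy
      nx := fun w => by rw [hT.nx, h4]
      ny := fun w => by rw [hT.ny, h4]
      na := n0
      nc := n2
      ab := hinj 0 1 (by decide)
      ac := hinj 0 2 (by decide)
      ad := hinj 0 3 (by decide)
      bc := hinj 1 2 (by decide)
      bd := hinj 1 3 (by decide)
      cd := hinj 2 3 (by decide)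
      qb := hq1
      qc := hq2
      qa' := hq0
      qd' := hq3
      nbq := h1
      ndq := h3
      cut := fun q'' P Q e1 e2 hs h0 h2 => hB q'' P Q ⟨e1, e2, hs, h0, h2⟩
      n33 := h33 }
  exact hC.main hNBF hNPC hDST hTRI hI (hE5D.k3 hG hT) hNP

end DL
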