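import Pool.Agent.DL.E.E5X

/-!
# MP_3ff0f8_gt, row 180, module E5Y (helper39)
-/

open SimpleGraph Finset

namespace DL

namespace E5YM

open E5XM

theorem JP_adj {α : Type} [Fintype α] [DecidableEq α] {G : SimpleGraph α} {x a b u v : α} :
    (JP G x a b).Adj u v ↔ (G.Adj u v ∧ u ≠ x ∧ v ≠ x) ∨ (s(u, v) = s(a, b) ∧ u ≠ v) := by
  rw [JP, SimpleGraph.sup_adj, SimpleGraph.fromEdgeSet_adj, del_adj]
  simp only [mem_singleton, Set.mem_singleton_iff]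

/-- the graph `JP` is smaller than `G` -/
theorem sz_JP {α : Type} [Fintype α] [DecidableEq α] {G : SimpleGraph α} {x a b : α}
    (ha : G.Adj x a) (hb : G.Adj x b) : sz (JP G x a b) < sz G := by
  unfold sz
  have h1 : VS (JP G x a b) ⊆ (VS G).erase x := by
    intro v hv
    obtain ⟨w, hw⟩ := mem_VS.1 hv
    rw [JP_adj] at hw
    rcases hw with ⟨h, h1, -⟩ | ⟨h, -⟩
    · exact mem_erase.2 ⟨h1, left_mem_VS h⟩
    · rw [Sym2.eq_iff] at h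
      rcases h with ⟨rfl, -⟩ | ⟨rfl, -⟩
      · exact mem_erase.2 ⟨ha.ne.symm, right_mem_VS ha⟩
      · exact mem_erase.2 ⟨hb.ne.symm, right_mem_VS hb⟩
  have h2 : (VS (JP G x a b)).card < (VS G).card :=
    lt_of_le_of_lt (card_le_card h1) (card_erase_lt_of_mem (left_mem_VS ha))
  have h3 : (JP G x a b).edgeSet ⊆ insert s(a, b) (G.edgeSet \ {s(x, a)}) := by
    intro e he
    induction e with
    | _ u v =>
      rw [SimpleGraph.mem_edgeSet, JP_adj] at he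
      rcases he with ⟨h, h1, h1'⟩ | ⟨h, -⟩
      · refine Or.inr ⟨h, fun h' => ?_⟩
        rw [Set.mem_singleton_iff, Sym2.eq_iff] at h'
        rcases h' with ⟨h', -⟩ | ⟨-, h'⟩
        · exact h1 h'
        · exact h1' h'
      · exact Or.inl h
  have h4 : (JP G x a b).edgeSet.ncard ≤ (G.edgeSet \ {s(x, a)}).ncard + 1 :=
    (Set.ncard_le_ncard h3 (Set.toFinite _)).trans (Set.ncard_insert_le _ _)
  have h5 : (G.edgeSet \ {s(x, a)}).ncard < G.edgeSet.ncard :=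
    Set.ncard_sdiff_singleton_lt_of_mem ha (Set.toFinite _)
  omega

theorem spl_swap {α : Type} [Fintype α] [DecidableEq α] {G : SimpleGraph α} {x y i j k l : α}
    (h : SPL G x y i j k l) : SPL G x y k l i j := by
  obtain ⟨c, d, A, B, h1, h2, h3, h4, h5, h6⟩ := h
  exact ⟨c, d, B, A, h1, h2.symm, h5, h6, h3, h4⟩

theorem spl_left {α : Type} [Fintype α] [DecidableEq α] {G : SimpleGraph α} {x y i j k l : α}
    (h : SPL G x y i j k l) : SPL G x y j i k l := by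
  obtain ⟨c, d, A, B, h1, h2, h3, h4, h5, h6⟩ := h
  exact ⟨c, d, A, B, h1, h2, h4, h3, h5, h6⟩

theorem spl_right {α : Type} [Fintype α] [DecidableEq α] {G : SimpleGraph α} {x y i j k l : α}
    (h : SPL G x y i j k l) : SPL G x y i j l k := by
  obtain ⟨c, d, A, B, h1, h2, h3, h4, h5, h6⟩ := h
  exact ⟨c, d, A, B, h1, h2, h3, h4, h6, h5⟩

theorem spl_nadj {α : Type} [Fintype α] [DecidableEq α] {G : SimpleGraph α} {x y i j k l : α}
    (h : SPL G x y i j k l) : ¬ G.Adj i k ∧ ¬ G.Adj j k ∧ ¬ G.Adj i l ∧ ¬ G.Adj j l := by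
  obtain ⟨c, d, A, B, h1, h2, h3, h4, h5, h6⟩ := h
  have h7 := h2.2.2.2.2
  exact ⟨h7 _ h3 _ h5, h7 _ h4 _ h5, h7 _ h3 _ h6, h7 _ h4 _ h6⟩

/-- D-pair graph with a split `{s₀ s₃ | s₁ s₂}`, `s₂` not special -/
theorem kz1 (hE5D : SpecE5D) (hE5N : SpecE5N) (hE5Q : SpecE5Q) (hE5T : SpecE5T)
    {α : Type} [Fintype α] [DecidableEq α] {G : SimpleGraph α} {x y : α} {s : Fin 4 → α}
    (hS : SH G) (h33 : No33 G) (h34 : No34 G) (hT : TW G x y s) (hJ : NP (del G {x}))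
    (hsp : SPL G x y (s 0) (s 3) (s 1) (s 2))
    (h2 : ¬ ∃ q, ∀ w, G.Adj (s 2) w ↔ w = x ∨ w = y ∨ w = s 1 ∨ w = q) :
    KZ (DD G x (s 2) y (s 0)) := by
  have hx2 : G.Adj x (s 2) := (hT.nx _).2 ⟨2, rfl⟩
  have hn13 : ¬ G.Adj (s 1) (s 3) := fun h => (spl_nadj hsp).2.1 h.symm
  have hNP : NP (DD G x (s 2) y (s 0)) := hE5N hS.k48 hT hJ hn13
  by_cases hb : ∃ q P Q, BC G x y s q P Q
  · obtain ⟨q, P, Q, hb⟩ := hb
    have key : ∀ q P Q, BC G x y s q P Q → P = {s 0} ∧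
        (∀ w, G.Adj (s 0) w ↔ w = x ∨ w = y ∨ w = s 3 ∨ w = q) ∧ ¬ G.Adj (s 1) q := by
      intro q P Q hb
      rcases hE5Q.spl hS.k48 h33 h34 hT hsp hb with h | h
      · exact h
      · exact absurd ⟨q, h.2.1⟩ h2
    obtain ⟨-, hn, hq⟩ := key q P Q hb
    exact hE5T hS.k48 hS.ih h33 hT hb.1 (fun e => (bc_sep hb).2 (e ▸ hb.2.2.2.2)) hn hq
      (fun q' P' Q' hb' => (key q' P' Q' hb').1) hNP
  · have hno : ∀ q P Q, ¬ BC G x y s q P Q := fun q P Q h => hb ⟨q, P, Q, h⟩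
    exact (hS.ih _ (sz_DD hx2) (hE5D.c1 hS.k48 hT hno) hNP).2

/-- D-pair graph with a split `{s₀ s₂ | s₁ s₃}` -/
theorem kz2 (hE5D : SpecE5D) (hE5O : SpecE5O) (hE5B : SpecE5B)
    {α : Type} [Fintype α] [DecidableEq α] {G : SimpleGraph α} {x y : α} {s : Fin 4 → α}
    (hS : SH G) (h33 : No33 G) (h34 : No34 G) (h44 : No44 G) (hT : TW G x y s)
    (hsp : SPL G x y (s 0) (s 2) (s 1) (s 3)) :
    KZ (DD G x (s 2) y (s 0)) := by
  have hx2 : G.Adj x (s 2) := (hT.nx _).2 ⟨2, rfl⟩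
  have hNP : NP (DD G x (s 2) y (s 0)) := hE5O hS.k48 h33 h34 h44 hT hsp
  have hno : ∀ q P Q, ¬ BC G x y s q P Q := hE5B hS h33 h34 h44 hT hsp
  exact (hS.ih _ (sz_DD hx2) (hE5D.c1 hS.k48 hT hno) hNP).2

end E5YM

open E5XM E5YM

theorem specE5Y (hTWR : SpecTWR) (hE5D : SpecE5D) (hE5J : SpecE5J) (hE5N : SpecE5N)
    (hE5O : SpecE5O) (hE5B : SpecE5B) (hE5Q : SpecE5Q) (hE5T : SpecE5T) (hNPC : SpecNPC) :
    SpecE5Y := by
  intro α _ _ G x y s hS h33 h34 h44 hT hJ hsp hnsp h2 h3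
  have hx0 : G.Adj x (s 0) := (hT.nx _).2 ⟨0, rfl⟩
  have hx1 : G.Adj x (s 1) := (hT.nx _).2 ⟨1, rfl⟩
  have hn01 : ¬ G.Adj (s 0) (s 1) := (spl_nadj hsp).1
  have hJP : KZ (JP G x (s 0) (s 1)) := by
    refine (hS.ih _ (sz_JP hx0 hx1) (hE5J hS.k48 hT hnsp) (hNPC.mono ?_ hJ)).2
    exact le_sup_left
  have k20 : KZ (DD G x (s 2) y (s 0)) := kz1 hE5D hE5N hE5Q hE5T hS h33 h34 hT hJ hsp h2
  have k31 : KZ (DD G x (s 3) y (s 1)) :=
    kz1 (s := ![s 1, s 0, s 3, s 2]) hE5D hE5N hE5Q hE5T hS h33 h34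
      (tw_vec hT 1 0 3 2 (by decide)) hJ (spl_swap hsp) h3
  have k30 : KZ (DD G x (s 3) y (s 0)) :=
    kz2 (s := ![s 0, s 1, s 3, s 2]) hE5D hE5O hE5B hS h33 h34 h44
      (tw_vec hT 0 1 3 2 (by decide)) hsp
  have k21 : KZ (DD G x (s 2) y (s 1)) :=
    kz2 (s := ![s 1, s 0, s 2, s 3]) hE5D hE5O hE5B hS h33 h34 h44
      (tw_vec hT 1 0 2 3 (by decide)) (spl_swap hsp)
  exact hTWR hS.k48 hS.ih hT hn01 hJP k20 k21 k30 k31

end DL
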