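import Pool.Agent.DL.E.E5Y
import Pool.Agent.DL.E.E5U

/-!
# E5Z: twins
-/

open SimpleGraph Finset

namespace DL

namespace E5ZM

open E5XM E5YM

variable {α : Type} [Fintype α] [DecidableEq α] {G : SimpleGraph α} {x y : α} {s : Fin 4 → α}

omit [Fintype α] [DecidableEq α] in
theorem dp (h : TW G x y s) : DP G x y s :=
  ⟨h.inj, h.xy, h.sx, fun w hw => Or.inr ((h.nx w).1 hw), fun w hw => Or.inr ((h.ny w).1 hw),
    fun i => (h.nx _).2 ⟨i, rfl⟩, fun i => (h.ny _).2 ⟨i, rfl⟩⟩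

/-! ## `J` planar -/

theorem planar (hTWR : SpecTWR) (hE5J : SpecE5J) (hE5X : SpecE5X) (hEDB : SpecEDB)
    (hEDL : SpecEDL) (hNCN : SpecNCN) (hNCX : SpecNCX) (hG : K48 G) (hI : IH G) (h33 : No33 G)
    (h34 : No34 G) (hT : TW G x y s) (hJ : ¬ NP (del G {x})) {Z Z' : Chain α}
    (h1 : Gam G x (s 0) (s 1) Z) (h2 : Gam G x (s 2) (s 3) Z') : OK G := by
  have hnd : ND G x y s := fun P Q hP hQ => hEDB.dis hG (dp hT) hJ h2 hP hQ
  have hx : ∀ i, G.Adj x (s i) := fun i => (hT.nx _).2 ⟨i, rfl⟩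
  have hspl : ¬ SPL G x y (s 0) (s 1) (s 2) (s 3) := by
    intro h
    obtain ⟨P, Q, hP, hQ, hd⟩ := hEDL hG (dp hT) h
    exact hnd P Q hP hQ hd
  have hJP : KZ (JP G x (s 0) (s 1)) :=
    (hI _ (sz_JP (hx 0) (hx 1)) (hE5J hG hT hspl) (hNCN.np h1).1).2
  have k1 := hE5X hG hI h33 h34 hT hJ h1 hnd
  have k2 := hE5X hG hI h33 h34 (tw_vec hT 1 0 2 3 (by decide)) hJ (hNCX.symm h1)
    (fun P Q hP hQ => hnd P Q hP.symm hQ)
  have k3 := hE5X hG hI h33 h34 (tw_vec hT 0 1 3 2 (by decide)) hJ h1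
    (fun P Q hP hQ => hnd P Q hP hQ.symm)
  have k4 := hE5X hG hI h33 h34 (tw_vec hT 1 0 3 2 (by decide)) hJ (hNCX.symm h1)
    (fun P Q hP hQ => hnd P Q hP.symm hQ.symm)
  exact hTWR hG hI hT (hNCN.nadj hJ h1) hJP k1 k2 k3 k4

/-! ## `J` nonplanar -/

theorem two (hE5G : SpecE5G) (hE5K : SpecE5K) (hE4S : SpecE4S) (hG : K48 G) (hI : IH G)
    (hT : TW G x y s) (hJ : NP (del G {x})) (h1 : SPL G x y (s 0) (s 1) (s 2) (s 3))
    (h2 : SPL G x y (s 0) (s 2) (s 1) (s 3)) : OK G := by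
  rcases hE4S hG (dp hT) h1 h2 with ⟨c, d, h⟩ | ⟨c, d, c', d', h⟩
  · exact hE5K hG hI h
  · exact hE5G hG hI hT hJ h

/-- `N(s i) = {x, y, s j, q}` for some `q` -/
def Spc (G : SimpleGraph α) (x y : α) (a b : α) : Prop :=
  ∃ q, ∀ w, G.Adj a w ↔ w = x ∨ w = y ∨ w = b ∨ w = q

/-- not both are special -/
theorem not_both (hG : K48 G) (h33 : No33 G) (hT : TW G x y s) {i j : Fin 4} (hij : i ≠ j)
    (h1 : Spc G x y (s i) (s j)) (h2 : Spc G x y (s j) (s i)) : False := by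
  obtain ⟨q, hq⟩ := h1
  obtain ⟨q', hq'⟩ := h2
  have hxi : G.Adj x (s i) := (hT.nx _).2 ⟨i, rfl⟩
  have hxj : G.Adj x (s j) := (hT.nx _).2 ⟨j, rfl⟩
  have hyi : G.Adj y (s i) := (hT.ny _).2 ⟨i, rfl⟩
  have hyj : G.Adj y (s j) := (hT.ny _).2 ⟨j, rfl⟩
  have n1 := E5UM.four_ne hG.1 (right_mem_VS hxi) hq
  have n2 := E5UM.four_ne hG.1 (right_mem_VS hxj) hq'
  have hiq : G.Adj (s i) q := (hq q).2 (by tauto)
  have hjq : G.Adj (s j) q' := (hq' q').2 (by tauto)
  have hsij : s i ≠ s j := fun e => hij (hT.inj e)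
  simp only [List.nodup_cons, List.mem_cons, List.not_mem_nil, or_false, not_or,
    List.nodup_nil, and_true, not_false_eq_true] at n1 n2
  by_cases e : q = q'
  · subst e
    -- a vertex outside the five
    have h5 : ({s i, s j, x, y, q} : Finset α).card < (VS G).card := by
      refine lt_of_le_of_lt card_le_five ?_
      have := hG.2
      omega
    obtain ⟨r, hrV, hr⟩ := exists_mem_notMem_of_card_lt_card h5
    simp only [mem_insert, mem_singleton, not_or] at hr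
    refine E5UM.few hG.1 (A := {s i, s j}) (T := {x, y, q}) (r := r) ?_ ⟨s i, by simp⟩ ?_
      (lt_of_le_of_lt card_le_three (by omega)) hrV ?_ ?_ ?_
    · intro v hv
      rw [mem_insert, mem_singleton] at hv
      rcases hv with rfl | rfl
      · exact right_mem_VS hxi
      · exact right_mem_VS hxj
    · intro p hp v hv hpv
      simp only [mem_insert, mem_singleton, not_or] at hp hv ⊢
      rcases hp with rfl | rfl
      · have := (hq v).1 hpv
        tauto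
      · have := (hq' v).1 hpv
        tauto
    · simp only [mem_insert, mem_singleton, not_or]
      exact ⟨hr.1, hr.2.1⟩
    · simp only [mem_insert, mem_singleton, not_or]
      exact hr.2.2
    · rw [Finset.disjoint_left]
      intro v hv
      have e1 := hxi.ne
      have e2 := hxj.ne
      have e3 := hyi.ne
      have e4 := hyj.ne
      have e5 := hiq.ne
      have e6 := hjq.ne
      simp only [mem_insert, mem_singleton] at hv ⊢
      grind
  · apply h33 (s i) (s j) q' q x y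
    have e1 := hxi.ne
    have e2 := hxj.ne
    have e3 := hyi.ne
    have e4 := hyj.ne
    have e5 := hiq.ne
    have e6 := hjq.ne
    have e7 := hT.xy
    refine ⟨?_, ?_, ?_⟩
    · simp only [List.nodup_cons, List.mem_cons, List.not_mem_nil, or_false, not_or,
        List.nodup_nil, and_true, not_false_eq_true]
      grind
    · intro w
      rw [hq]
      tauto
    · intro w
      rw [hq']
      tauto

theorem one (hE5Y : SpecE5Y) (hS : SH G) (h33 : No33 G) (h34 : No34 G) (h44 : No44 G)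
    (hT : TW G x y s) (hJ : NP (del G {x})) (h1 : SPL G x y (s 0) (s 3) (s 1) (s 2))
    (h2 : ¬ SPL G x y (s 0) (s 1) (s 2) (s 3)) (h3 : ¬ SPL G x y (s 0) (s 2) (s 1) (s 3)) :
    OK G := by
  by_cases a3 : Spc G x y (s 3) (s 0)
  · have a0 : ¬ Spc G x y (s 0) (s 3) := fun a0 =>
      not_both hS.k48 h33 hT (by decide : (3 : Fin 4) ≠ 0) a3 a0
    by_cases a2 : Spc G x y (s 2) (s 1)
    · have a1 : ¬ Spc G x y (s 1) (s 2) := fun a1 =>
        not_both hS.k48 h33 hT (by decide : (2 : Fin 4) ≠ 1) a2 a1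
      exact hE5Y hS h33 h34 h44 (tw_vec hT 3 2 1 0 (by decide)) hJ (spl_left (spl_right h1))
        (fun h => h2 (spl_swap (spl_left (spl_right h)))) a1 a0
    · exact hE5Y hS h33 h34 h44 (tw_vec hT 3 1 2 0 (by decide)) hJ (spl_left h1)
        (fun h => h3 (spl_swap (spl_left (spl_right h)))) a2 a0
  · by_cases a2 : Spc G x y (s 2) (s 1)
    · have a1 : ¬ Spc G x y (s 1) (s 2) := fun a1 =>
        not_both hS.k48 h33 hT (by decide : (2 : Fin 4) ≠ 1) a2 a1
      exact hE5Y hS h33 h34 h44 (tw_vec hT 0 2 1 3 (by decide)) hJ (spl_right h1) h3 a1 a3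
    · exact hE5Y hS h33 h34 h44 hT hJ h1 h2 a2 a3

theorem nonplanar (hE5Y : SpecE5Y) (hE5G : SpecE5G) (hE5K : SpecE5K) (hE4S : SpecE4S)
    (hE4N : SpecE4N) (hS : SH G) (h33 : No33 G) (h34 : No34 G) (h44 : No44 G)
    (hT : TW G x y s) (hJ : NP (del G {x})) : OK G := by
  have hxV : x ∈ VS G := left_mem_VS ((hT.nx (s 0)).2 ⟨0, rfl⟩)
  have hr : ¬ Rig G x := fun h => (hS.rig x hxV h).2 hJ
  have h0 := hE4N hS.k48 (dp hT) hxV hr
  by_cases hA : SPL G x y (s 0) (s 1) (s 2) (s 3)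
  · by_cases hB : SPL G x y (s 0) (s 2) (s 1) (s 3)
    · exact two hE5G hE5K hE4S hS.k48 hS.ih hT hJ hA hB
    · by_cases hC : SPL G x y (s 0) (s 3) (s 1) (s 2)
      · exact two hE5G hE5K hE4S hS.k48 hS.ih (tw_vec hT 0 1 3 2 (by decide)) hJ (spl_right hA) hC
      · exact one hE5Y hS h33 h34 h44 (tw_vec hT 0 2 3 1 (by decide)) hJ hA
          (fun h => hB (spl_right h)) (fun h => hC (spl_right h))
  · by_cases hB : SPL G x y (s 0) (s 2) (s 1) (s 3)
    · by_cases hC : SPL G x y (s 0) (s 3) (s 1) (s 2)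
      · exact two hE5G hE5K hE4S hS.k48 hS.ih (tw_vec hT 0 2 3 1 (by decide)) hJ (spl_right hB)
          (spl_right hC)
      · exact one hE5Y hS h33 h34 h44 (tw_vec hT 0 1 3 2 (by decide)) hJ hB
          (fun h => hA (spl_right h)) hC
    · have hC : SPL G x y (s 0) (s 3) (s 1) (s 2) := by tauto
      exact one hE5Y hS h33 h34 h44 hT hJ hC hA hB

end E5ZM

open E5ZM E5XM in
/-- **E5Z** -/
theorem specE5Z (hTWR : SpecTWR) (hE5J : SpecE5J) (hE5X : SpecE5X) (hE5Y : SpecE5Y)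
    (hE5G : SpecE5G) (hE5K : SpecE5K) (hEDG : SpecEDG) (hEDB : SpecEDB) (hEDL : SpecEDL)
    (hE4N : SpecE4N) (hE4S : SpecE4S) (hNCN : SpecNCN) (hNCX : SpecNCX) : SpecE5Z := by
  intro α _ _ G x y s hS h33 h34 h44 hT
  by_cases hJ : NP (del G {x})
  · exact nonplanar hE5Y hE5G hE5K hE4S hE4N hS h33 h34 h44 hT hJ
  · obtain ⟨σ, ⟨Z, hZ⟩, Z', hZ'⟩ := hEDG.two hS.k48 (dp hT) hJ
    exact planar hTWR hE5J hE5X hEDB hEDL hNCN hNCX hS.k48 hS.ih h33 h34 (tw_perm hT σ) hJ hZ hZ'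

end DL
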