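import Pool.Agent.DL.E.Spec3
import Pool.Agent.DL.E.Spec0
import Pool.Agent.DL.KC
import Pool.Agent.DL.PC2

section
/-!
# Module CRX: the criterion for deleting edges at a vertex
-/
open SimpleGraph Finset

namespace DL

namespace CRXM

variable {α : Type} [Fintype α] [DecidableEq α] {G : SimpleGraph α} {u : α} {P : Finset α}

theorem mem_NB1 {w : α} : w ∈ NB G {u} ↔ G.Adj u w := by
  simp only [NB, mem_filter, mem_univ, true_and, mem_singleton, exists_eq_left]
  exact ⟨fun h => h.2, fun h => ⟨h.ne', h⟩⟩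

theorem NB1_eq : NB G {u} = nbs G u := by
  ext w
  rw [mem_NB1, mem_nbs]

theorem dst_le (G : SimpleGraph α) (u : α) (P : Finset α) : dst G u P ≤ G :=
  deleteEdges_le _

theorem dst_adj {a b : α} : (dst G u P).Adj a b ↔ G.Adj a b ∧ ¬ ∃ p ∈ P, s(a, b) = s(u, p) := by
  rw [dst, deleteEdges_adj]
  rfl

/-- edges not at `u` stay -/
theorem dst_adj_of_ne {a b : α} (h : G.Adj a b) (ha : a ≠ u) (hb : b ≠ u) : (dst G u P).Adj a b := by
  rw [dst_adj]
  refine ⟨h, ?_⟩
  rintro ⟨p, _, e⟩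
  rw [Sym2.eq_iff] at e
  rcases e with ⟨e, _⟩ | ⟨_, e⟩
  · exact ha e
  · exact hb e

/-- edges from `u` to vertices outside `P` stay -/
theorem dst_adj_self {w : α} (h : G.Adj u w) (hw : w ∉ P) : (dst G u P).Adj u w := by
  rw [dst_adj]
  refine ⟨h, ?_⟩
  rintro ⟨p, hp, e⟩
  rw [Sym2.eq_iff] at e
  rcases e with ⟨_, e⟩ | ⟨e, _⟩
  · exact hw (e ▸ hp)
  · subst e
    rename_i e'
    exact h.ne e'.symm

theorem VS_dst (hG : KConn 4 G) (hu : u ∈ VS G) (h3 : 3 ≤ (NB G {u} \ P).card) :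
    VS (dst G u P) = VS G := by
  apply Subset.antisymm (VS_mono (dst_le G u P))
  intro v hv
  rw [mem_VS]
  by_cases hvu : v = u
  · subst hvu
    have : (NB G {v} \ P).Nonempty := by
      rw [← card_pos]
      omega
    obtain ⟨w, hw⟩ := this
    rw [mem_sdiff, mem_NB1] at hw
    exact ⟨w, dst_adj_self hw.1 hw.2⟩
  · have h4 := hG.le_nbs hv
    have : (nbs G v \ {u}).Nonempty := by
      rw [← card_pos]
      have := le_card_sdiff {u} (nbs G v)
      rw [card_singleton] at this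
      omega
    obtain ⟨w, hw⟩ := this
    rw [mem_sdiff, mem_nbs, mem_singleton] at hw
    exact ⟨w, dst_adj_of_ne hw.1 hvu hw.2⟩

/-- `dst G u P` is 3-connected -/
theorem kconn_dst (hG : KConn 4 G) (hu : u ∈ VS G) (h3 : 3 ≤ (NB G {u} \ P).card) :
    KConn 3 (dst G u P) := by
  have hVS := VS_dst hG hu h3
  refine ⟨by rw [hVS]; exact lt_trans (by omega) hG.1, ?_⟩
  intro S hS a ha b hb haS hbS
  rw [hVS] at ha hb
  by_cases huS : u ∈ S
  · refine (hG.reach (lt_trans hS (by omega)) ha hb haS hbS).mono fun x y hxy => ?_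
    exact ⟨dst_adj_of_ne hxy.1 (fun h => hxy.2.1 (h ▸ huS)) (fun h => hxy.2.2 (h ▸ huS)), hxy.2⟩
  · have hcard : (insert u S).card < 4 := lt_of_le_of_lt (card_insert_le _ _) (by omega)
    have hle : del G (insert u S) ≤ del (dst G u P) S := fun x y hxy => by
      have h1 := hxy.2.1
      have h2 := hxy.2.2
      rw [mem_insert, not_or] at h1 h2
      exact ⟨dst_adj_of_ne hxy.1 h1.1 h2.1, h1.2, h2.2⟩
    have key : ∀ x y, x ∈ VS G → y ∈ VS G → x ∉ S → y ∉ S → x ≠ u → y ≠ u →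
        (del (dst G u P) S).Reachable x y := by
      intro x y hx hy hxS hyS hxu hyu
      refine (hG.reach hcard hx hy ?_ ?_).mono hle
      · rw [mem_insert, not_or]; exact ⟨hxu, hxS⟩
      · rw [mem_insert, not_or]; exact ⟨hyu, hyS⟩
    have : ((NB G {u} \ P) \ S).Nonempty := by
      rw [← card_pos]
      have := le_card_sdiff S (NB G {u} \ P)
      omega
    obtain ⟨w, hw⟩ := this
    rw [mem_sdiff, mem_sdiff, mem_NB1] at hw
    have huw : (del (dst G u P) S).Reachable u w :=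
      Adj.reachable ⟨dst_adj_self hw.1.1 hw.1.2, huS, hw.2⟩
    have hwV : w ∈ VS G := right_mem_VS hw.1.1
    have hwu : w ≠ u := hw.1.1.ne'
    by_cases hau : a = u
    · by_cases hbu : b = u
      · rw [hau, hbu]
      · rw [hau]
        exact huw.trans (key w b hwV hb hw.2 hbS hwu hbu)
    · by_cases hbu : b = u
      · rw [hbu]
        exact (key a w ha hwV haS hw.2 hau hwu).trans huw.symm
      · exact key a b ha hb haS hbS hau hbu

/-- the case `u` in a side -/
theorem side {W P' Q' : Finset α} (hVS : VS (dst G u P) = VS G) (hs : Sep (dst G u P) W P' Q')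
    (hW : W.card = 3) (hP : 2 ≤ P'.card) (hQ : 2 ≤ Q'.card) (huP : u ∈ P') :
    ∃ T A B, Sep G T A B ∧ T.card = 4 ∧ u ∈ T ∧ A.Nonempty ∧ 2 ≤ B.card ∧
      ∀ w ∈ B, G.Adj u w → w ∈ P := by
  have huW : u ∉ W := Finset.disjoint_right.1 hs.2.1 huP
  have huQ : u ∉ Q' := Finset.disjoint_left.1 hs.2.2.2.1 huP
  refine ⟨insert u W, P'.erase u, Q', ⟨?_, ?_, ?_, ?_, ?_⟩, ?_, mem_insert_self _ _, ?_, hQ, ?_⟩
  · rw [← hVS, ← hs.1]
    ext x
    simp only [mem_union, mem_insert, mem_erase]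
    by_cases hx : x = u
    · subst hx; simp [huP]
    · simp [hx]
  · rw [disjoint_insert_left]
    exact ⟨notMem_erase _ _, disjoint_of_subset_right (erase_subset _ _) hs.2.1⟩
  · rw [disjoint_insert_left]
    exact ⟨huQ, hs.2.2.1⟩
  · exact disjoint_of_subset_left (erase_subset _ _) hs.2.2.2.1
  · intro a ha b hb hab
    rw [mem_erase] at ha
    exact hs.2.2.2.2 a ha.2 b hb (dst_adj_of_ne hab ha.1 (fun h => huQ (h ▸ hb)))
  · rw [card_insert_of_notMem huW, hW]
  · rw [← card_pos, card_erase_of_mem huP]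
    omega
  · intro w hw huw
    by_contra hwP
    exact hs.2.2.2.2 u huP w hw (dst_adj_self huw hwP)

end CRXM

open CRXM in
theorem specCRX : SpecCRX := by
  intro α _ _ G u P hG hu _ h3
  by_contra hcon
  rw [not_or] at hcon
  apply hcon.1
  have hVS := VS_dst hG.1 hu h3
  refine ⟨kconn_dst hG.1 hu h3, ?_⟩
  intro W P' Q' hs hW
  by_contra hc
  rw [not_or, not_le, not_le] at hc
  have huV : u ∈ VS (dst G u P) := by rw [hVS]; exact hu
  rcases hs.mem_or huV with h | h | h
  · have hsG : Sep G W P' Q' := by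
      refine ⟨by rw [hs.1, hVS], hs.2.1, hs.2.2.1, hs.2.2.2.1, ?_⟩
      intro a ha b hb hab
      exact hs.2.2.2.2 a ha b hb (dst_adj_of_ne hab
        (fun e => Finset.disjoint_right.1 hs.2.1 ha (e ▸ h))
        (fun e => Finset.disjoint_right.1 hs.2.2.1 hb (e ▸ h)))
    have := hG.1.le_of_sep hsG (card_pos.1 (by omega)) (card_pos.1 (by omega))
    omega
  · exact hcon.2 (side hVS hs hW hc.1 hc.2 h)
  · exact hcon.2 (side hVS hs.symm hW hc.2 hc.1 h)

end DL
end

section
/-!
# MP_3ff0f8_gt, ALGEBRA HALF: module DFV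
-/
open SimpleGraph Finset

namespace DL

namespace DFVM

variable {α : Type} [Fintype α] [DecidableEq α] {G : SimpleGraph α}

omit [Fintype α] in
theorem pair_swap (a b : α) : ({a, b} : Finset α) = {b, a} := by
  ext x
  simp only [mem_insert, mem_singleton]
  tauto

/-- from `N_ab` to `N_a` -/
theorem single (hCRL : SpecCRL) (hDST : SpecDST) (hNPC : SpecNPC) {u a b c : α} (hK : KConn 3 G)
    (hb : G.Adj u b) (hc : G.Adj u c) (hab : a ≠ b) (hca : c ≠ a) (hcb : c ≠ b)
    (h1 : C1 (dst G u {a, b})) (h2 : NP (dst G u {a, b})) :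
    C1 (dst G u {a}) ∧ NP (dst G u {a}) := by
  refine ⟨?_, hNPC.mono (hDST.mono u le_rfl (by simp)) h2⟩
  have hvs := hDST.vs (P := {a, b}) hK ⟨c, hc, by simp [hca, hcb]⟩
  have h3 := (hCRL.add (a := u) (b := b) h1 (by rw [hvs]; exact left_mem_VS hb)
    (by rw [hvs]; exact right_mem_VS hb)).1
  have h4 : dst G u {a, b} ⊔ fromEdgeSet {s(u, b)} = dst G u {a} := by
    ext x y
    rw [sup_adj, hDST.adj, hDST.adj, fromEdgeSet_adj]
    simp only [mem_insert, mem_singleton, Set.mem_singleton_iff, Sym2.eq_iff]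
    constructor
    · rintro (⟨h, h', h''⟩ | ⟨⟨rfl, rfl⟩ | ⟨rfl, rfl⟩, h'⟩)
      · refine ⟨h, ?_, ?_⟩ <;> tauto
      · refine ⟨hb, ?_, ?_⟩
        · rintro ⟨-, h⟩
          exact hab h.symm
        · rintro ⟨h, -⟩
          exact h' h.symm
      · refine ⟨hb.symm, ?_, ?_⟩
        · rintro ⟨h, -⟩
          exact h' h
        · rintro ⟨-, h⟩
          exact hab h.symm
    · rintro ⟨h, h', h''⟩
      by_cases h5 : x = u ∧ y = b ∨ x = b ∧ y = u
      · exact Or.inr ⟨h5, h.ne⟩
      · refine Or.inl ⟨h, ?_, ?_⟩ <;> tauto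
  rwa [h4] at h3

end DFVM

open DFVM

theorem specDFV (hDL5 : SpecDL5) (hCRL : SpecCRL) (hDST : SpecDST) (hNPC : SpecNPC) : SpecDFV := by
  classical
  intro α _ _ G u a b c r s hK hIH hnd hN hrs c1 c2 c3 n1 n2 n3
  simp only [List.nodup_cons, List.mem_cons, List.not_mem_nil, or_false, not_or, not_false_eq_true,
    List.nodup_nil, and_true] at hnd
  obtain ⟨-, ⟨hab, hac, har, has⟩, ⟨hbc, hbr, hbs⟩, ⟨hcr, hcs⟩, hrs'⟩ := hnd
  have ha : G.Adj u a := (hN a).2 (by simp)
  have hb : G.Adj u b := (hN b).2 (by simp)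
  have hc : G.Adj u c := (hN c).2 (by simp)
  have hr : G.Adj u r := (hN r).2 (by simp)
  have hs : G.Adj u s := (hN s).2 (by simp)
  have hK3 : KConn 3 G := hK.1.mono (by norm_num)
  refine hDL5 (u := u) (a := a) (b := b) (c := c) (r := r) (s := s) hK hIH ?_ ?_ (Or.inl hrs) ?_ ?_
  · simp only [List.nodup_cons, List.mem_cons, List.not_mem_nil, or_false, not_or, not_false_eq_true,
      List.nodup_nil, and_true]
    exact ⟨⟨hab, hac, har, has⟩, ⟨hbc, hbr, hbs⟩, ⟨hcr, hcs⟩, hrs'⟩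
  · intro x hx
    simp only [mem_insert, mem_singleton] at hx
    rcases hx with rfl | rfl | rfl | rfl | rfl <;> assumption
  · rintro P (rfl | rfl | rfl | rfl | rfl)
    · exact single hCRL hDST hNPC hK3 hb hr hab (Ne.symm har) (Ne.symm hbr) c1 n1
    · exact single hCRL hDST hNPC hK3 ha hr (Ne.symm hab) (Ne.symm hbr) (Ne.symm har)
        (pair_swap a b ▸ c1) (pair_swap a b ▸ n1)
    · exact single hCRL hDST hNPC hK3 ha hr (Ne.symm hac) (Ne.symm hcr) (Ne.symm har)
        (pair_swap a c ▸ c2) (pair_swap a c ▸ n2)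
    · exact ⟨c1, n1⟩
    · exact ⟨c2, n2⟩
  · exact (hIH _ (hDST.sz4 hb (by simp)) c3 n3).2

end DL
end

section
/-!
# MP_3ff0f8_gt, EXIST section 0, module DL3: LEMMA DEL3 (helper86)
-/
open SimpleGraph Finset

namespace DL

namespace DL3M

theorem add_eq {x y z : ZMod 2} (h : x + y = z) : x = y + z := by
  rw [← h]
  have := zmod2_add_self y
  linear_combination (-1 : ZMod 2) * this

theorem notMem_of_isCyc_dst {α : Type} [Fintype α] [DecidableEq α] (hDST : SpecDST) {G : SimpleGraph α}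
    {u a : α} {P : Finset α} {C : Finset (Sym2 α)} (ha : a ∈ P) (h : IsCyc (dst G u P) C) : s(u, a) ∉ C := by
  intro hC
  have h1 := h.adj_of_mem hC
  rw [hDST.adj] at h1
  exact h1.2.1 ⟨rfl, ha⟩

theorem isCyc_dst {α : Type} [Fintype α] [DecidableEq α] (hDST : SpecDST) {G : SimpleGraph α}
    {u a : α} {C : Finset (Sym2 α)} (h : IsCyc G C) (ha : s(u, a) ∉ C) : IsCyc (dst G u {a}) C := by
  refine hDST.cyc h ?_
  intro p hp
  rw [mem_singleton] at hp
  rwa [hp]

theorem two {α : Type} [Fintype α] [DecidableEq α] (hGLU : SpecGLU) (hDST : SpecDST)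
    {G : SimpleGraph α} {u a b : α}
    (Ua : U (dst G u {a})) (Ub : U (dst G u {b})) (hS : S3S (dst G u {a, b})) (hK : KZ (dst G u {a, b}))
    (f : Finset (Sym2 α) → ZMod 2) (hf : D4even G f) :
    ∃ φ : Finset (Sym2 α) → ZMod 2, (∀ G' : SimpleGraph α, InF G' φ) ∧
      (∀ C, IsCyc G C → s(u, a) ∉ C ∨ s(u, b) ∉ C → f C = φ C) := by
  obtain ⟨φ₁, h1F, h1⟩ := hGLU.u Ua (hDST.le G u {a}) hf
  have hf1 : D4even G (fun C => f C + φ₁ C) := hGLU.dadd hf (h1F G)
  obtain ⟨φ₂, h2F, h2⟩ := hGLU.u Ub (hDST.le G u {b}) hf1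
  have hins : dst G u {a, b} = delE (dst G u {b}) u a := hDST.ins G u a {b}
  have hz : ∀ C, IsCyc (delE (dst G u {b}) u a) C → φ₂ C = 0 := by
    intro C hC
    rw [← hins] at hC
    have hCb : IsCyc (dst G u {b}) C := hC.mono (hDST.mono u le_rfl (by simp))
    have hCa : IsCyc (dst G u {a}) C := hC.mono (hDST.mono u le_rfl (by simp))
    rw [← h2 C hCb]
    change f C + φ₁ C = 0
    rw [h1 C hCa, zmod2_add_self]
  obtain ⟨ψ, hψF, hψ0, hψ⟩ := hGLU.ex1 (N' := dst G u {b}) (u := u) (a := a) (hins ▸ hS) (hins ▸ hK) φ₂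
    (h2F _) hz
  refine ⟨fun C => φ₁ C + ψ C, fun G' => hGLU.add (h1F G') (hψF G'), ?_⟩
  intro C hC hor
  rcases hor with h | h
  · have hCa := isCyc_dst hDST hC h
    change f C = φ₁ C + ψ C
    rw [h1 C hCa, hψ0 C h, add_zero]
  · have hCb := isCyc_dst hDST hC h
    have e1 := h2 C hCb
    rw [hψ C hCb] at e1
    exact add_eq e1

end DL3M

open DL3M in
/-- **DL3**. -/
theorem specDL3 (hGLU : SpecGLU) (hLMB : SpecLMB) (hDST : SpecDST) : SpecDL3 := by
  refine ⟨?_, ?_⟩
  · intro α _ _ G u a b hua hub hab Ua Ub hS hK f hf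
    exact two hGLU hDST Ua Ub hS hK f hf
  · intro α _ _ G u a b c hua hub huc hab hac hbc Ua Ub Uc hSab hKab hSac hKac hKbc hZbc hSabc hu ha f hf
    obtain ⟨φ, hφF, hφ⟩ := two hGLU hDST Ua Ub hSab hKab f hf
    have hf2 : D4even G (fun C => f C + φ C) := hGLU.dadd hf (hφF G)
    have hf20 : ∀ C, IsCyc G C → s(u, a) ∉ C ∨ s(u, b) ∉ C → f C + φ C = 0 := by
      intro C hC h
      rw [hφ C hC h, zmod2_add_self]
    obtain ⟨φ₃, h3F, h3⟩ := hGLU.u Uc (hDST.le G u {c}) hf2
    have e1 : dst G u {a, c} = delE (dst G u {c}) u a := hDST.ins G u a {c}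
    have e2 : dst G u {b, c} = delE (dst G u {c}) u b := hDST.ins G u b {c}
    have e3 : dst G u {a, b, c} = delE (delE (dst G u {c}) u b) u a := by
      rw [← e2]; exact hDST.ins G u a {b, c}
    have hadj : ∀ x, G.Adj u x → x ≠ c → (dst G u {c}).Adj u x := by
      intro x hx hxc
      rw [hDST.adj]
      refine ⟨hx, ?_, ?_⟩
      · rintro ⟨-, h⟩
        exact hxc (mem_singleton.1 h)
      · rintro ⟨h, -⟩
        exact hx.ne h.symm
    have hz : ∀ x, (x = a ∨ x = b) → ∀ C, IsCyc (delE (dst G u {c}) u x) C → φ₃ C = 0 := by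
      intro x hx C hC
      have hCc : IsCyc (dst G u {c}) C := (isCyc_delE.1 hC).1
      have hxC : s(u, x) ∉ C := (isCyc_delE.1 hC).2
      rw [← h3 C hCc]
      refine hf20 C (hCc.mono (hDST.le G u {c})) ?_
      rcases hx with rfl | rfl
      · exact Or.inl hxC
      · exact Or.inr hxC
    obtain ⟨w0, w, hw⟩ := hLMB.b (G' := dst G u {c}) (u := u) (a := a) (b := b) (hadj a hua hac)
      (hadj b hub hbc) hab (e1 ▸ hSac) (e1 ▸ hKac) (e2 ▸ hKbc) (e2 ▸ hZbc) (e3 ▸ hSabc) (e3 ▸ hu) (e3 ▸ ha)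
      φ₃ (h3F _) (hz a (Or.inl rfl)) (hz b (Or.inr rfl))
    have key : ∀ C, IsCyc G C → f C = φ C + chi C s(u, a) * chi C s(u, b) * (w0 + ∑ h ∈ C, w h) := by
      intro C hC
      apply add_eq
      by_cases hc : s(u, c) ∈ C
      · by_cases h1 : s(u, a) ∈ C
        · by_cases h2 : s(u, b) ∈ C
          · exfalso
            rcases hC.eq_or_eq h1 h2 hab hc with h | h
            · exact hac h.symm
            · exact hbc h.symm
          · rw [hf20 C hC (Or.inr h2), chi_of_notMem h2, mul_zero, zero_mul]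
        · rw [hf20 C hC (Or.inl h1), chi_of_notMem h1, zero_mul, zero_mul]
      · have hCc := isCyc_dst hDST hC hc
        rw [← hw C hCc, ← h3 C hCc]
    exact hGLU.congr key (hGLU.add (hφF G) (hGLU.quad G s(u, a) s(u, b) w0 w))

end DL
end

section
set_option autoImplicit false
set_option linter.unusedSectionVars false

/-!
# DL5: the three deletions lemma in the form used everywhere
-/

open SimpleGraph Finset

namespace DL

theorem specDL5 (hDL3 : SpecDL3) (hKST : SpecKST) (hCRL : SpecCRL) (hDST : SpecDST)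
    (hS3F : SpecS3F) : SpecDL5 := by
  intro α _ _ G u a b c r s hG hIH hnd hadj hrs hP hKbc
  simp only [List.nodup_cons, List.mem_cons, List.not_mem_nil, or_false, not_or,
    not_false_eq_true, List.nodup_nil, and_true] at hnd
  obtain ⟨⟨hab, hac, har, has⟩, ⟨hbc, hbr, hbs⟩, ⟨hcr, hcs⟩, hrs'⟩ := hnd
  have hua : G.Adj u a := hadj a (by simp)
  have hub : G.Adj u b := hadj b (by simp)
  have huc : G.Adj u c := hadj c (by simp)
  have hur : G.Adj u r := hadj r (by simp)
  have hus : G.Adj u s := hadj s (by simp)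
  have hJ : KConn 3 (del G {u}) := hG.1.del_vertex (by norm_num) u
  have hVJ : VS (del G {u}) = VS G \ {u} := hG.1.VS_del (by simp)
  have memJ : ∀ w, G.Adj u w → w ∈ VS (del G {u}) := by
    intro w hw
    rw [hVJ, mem_sdiff, mem_singleton]
    exact ⟨right_mem_VS hw, hw.ne.symm⟩
  have h3G : KConn 3 G := hG.1.mono (by norm_num)
  have ok : ∀ P : Finset α, P = {a} ∨ P = {b} ∨ P = {c} ∨ P = {a, b} ∨ P = {a, c} →
      OK (dst G u P) := by
    intro P hP'
    obtain ⟨h1, h2⟩ := hP P hP'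
    refine hIH _ ?_ h1 h2
    rcases hP' with rfl | rfl | rfl | rfl | rfl
    · exact hDST.sz4 hua (by simp)
    · exact hDST.sz4 hub (by simp)
    · exact hDST.sz4 huc (by simp)
    · exact hDST.sz4 hua (by simp)
    · exact hDST.sz4 hua (by simp)
  have c1 : ∀ P : Finset α, P = {a} ∨ P = {b} ∨ P = {c} ∨ P = {a, b} ∨ P = {a, c} →
      S3S (dst G u P) := fun P hP' => hS3F.k3 (hP P hP').1.1
  have hbc3 : KConn 3 (dst G u {b, c}) := by
    refine hCRL.k3 (x := a) (y := r) (z := s) hJ har has hrs' ?_ fun w hw _ => memJ w hw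
    rintro w (rfl | rfl | rfl)
    · exact ⟨hua, by simp [hab, hac]⟩
    · exact ⟨hur, by simp [Ne.symm hbr, Ne.symm hcr]⟩
    · exact ⟨hus, by simp [Ne.symm hbs, Ne.symm hcs]⟩
  have habc : S3S (dst G u {a, b, c}) := by
    refine hCRL.ks hG.1 hrs' hur hus (by simp [Ne.symm har, Ne.symm hbr, Ne.symm hcr])
      (by simp [Ne.symm has, Ne.symm hbs, Ne.symm hcs]) ?_
    rcases hrs with h | ⟨t, ht, ht'⟩
    · exact Or.inl h
    · simp only [mem_insert, mem_singleton, not_or] at ht'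
      exact Or.inr ⟨t, ht, by simp [ht'.1, ht'.2.1, ht'.2.2.1], ht'.2.2.2.1, ht'.2.2.2.2⟩
  have hVabc : VS (dst G u {a, b, c}) = VS G :=
    hDST.vs h3G ⟨r, hur, by simp [Ne.symm har, Ne.symm hbr, Ne.symm hcr]⟩
  constructor
  · refine hDL3.three hua hub huc hab hac hbc (ok _ (by simp)).1 (ok _ (by simp)).1
      (ok _ (by simp)).1 (c1 _ (by simp)) (ok _ (by simp)).2 (c1 _ (by simp)) (ok _ (by simp)).2
      hbc3 hKbc habc ?_ ?_
    · rw [hVabc]
      exact left_mem_VS hua
    · rw [hVabc]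
      exact right_mem_VS hua
  · refine hKST hJ ![a, b, c, r, s] ?_ ?_ ?_ ?_
    · intro i j hij
      fin_cases i <;> fin_cases j <;> simp_all [Ne.symm, eq_comm]
    · intro i
      fin_cases i
      · exact ⟨hua, memJ _ hua⟩
      · exact ⟨hub, memJ _ hub⟩
      · exact ⟨huc, memJ _ huc⟩
      · exact ⟨hur, memJ _ hur⟩
      · exact ⟨hus, memJ _ hus⟩
    · change KZ (delE G u a)
      rw [← hDST.one]
      exact (ok _ (by simp)).2
    · change KZ (delE G u b)
      rw [← hDST.one]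
      exact (ok _ (by simp)).2

end DL
end

section
/-!
# MP_3ff0f8_gt, EXIST section 3: (3,4)-pairs, assembly (helper96)
-/
open SimpleGraph Finset

namespace DL

namespace E34M

set_option linter.unusedSectionVars false

variable {α : Type} [Fintype α] [DecidableEq α] {G : SimpleGraph α}

theorem p34_swap23 {x y s₁ s₂ s₃ s₄ : α} (h : P34 G x y s₁ s₂ s₃ s₄) : P34 G x y s₁ s₃ s₂ s₄ := by
  obtain ⟨h1, h2, h3⟩ := h
  refine ⟨?_, fun w => ?_, fun w => ?_⟩
  · simp only [List.nodup_cons, List.mem_cons, List.not_mem_nil, or_false, not_or, List.nodup_nil, and_true,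
      not_false_eq_true] at h1 ⊢
    tauto
  · rw [h2]; tauto
  · rw [h3]; tauto

theorem p34_swap34 {x y s₁ s₂ s₃ s₄ : α} (h : P34 G x y s₁ s₂ s₃ s₄) : P34 G x y s₁ s₂ s₄ s₃ := by
  obtain ⟨h1, h2, h3⟩ := h
  refine ⟨?_, fun w => ?_, fun w => ?_⟩
  · simp only [List.nodup_cons, List.mem_cons, List.not_mem_nil, or_false, not_or, List.nodup_nil, and_true,
      not_false_eq_true] at h1 ⊢
    tauto
  · rw [h2]; tauto
  · rw [h3]; tauto

theorem spl_left {x y i j k l : α} (h : SPL G x y i j k l) : SPL G x y j i k l := by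
  obtain ⟨c, d, A, B, h1, h2, h3, h4, h5, h6⟩ := h
  exact ⟨c, d, A, B, h1, h2, h4, h3, h5, h6⟩

theorem pair_comm' (a b : α) : ({a, b} : Finset α) = {b, a} := Finset.pair_comm a b

theorem dg_five {x y s₁ s₂ s₃ s₄ : α} (h : P34 G x y s₁ s₂ s₃ s₄) : dg G y = 5 := by
  obtain ⟨h1, h2, h3⟩ := h
  have : NB G {y} = {x, s₁, s₂, s₃, s₄} := by
    ext w
    simp only [NB, mem_filter, mem_univ, true_and, mem_singleton, exists_eq_left, mem_insert]
    rw [h3]
    constructor
    · exact fun h => h.2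
    · intro h
      refine ⟨?_, h⟩
      rintro rfl
      simp only [List.nodup_cons, List.mem_cons, List.not_mem_nil, or_false, not_or, List.nodup_nil, and_true,
        not_false_eq_true] at h1
      rcases h with rfl | rfl | rfl | rfl | rfl <;> simp_all
  rw [dg, this]
  simp only [List.nodup_cons, List.mem_cons, List.not_mem_nil, or_false, not_or, List.nodup_nil, and_true,
    not_false_eq_true] at h1
  obtain ⟨⟨_, a2, a3, a4, a5⟩, _, ⟨c1, c2, c3⟩, ⟨d1, d2⟩, e1⟩ := h1
  rw [card_insert_of_notMem, card_insert_of_notMem, card_insert_of_notMem, card_insert_of_notMem,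
    card_singleton]
  · simpa using e1
  · simp [d1, d2]
  · simp [c1, c2, c3]
  · simp [a2, a3, a4, a5]

theorem mem_VS_y {x y s₁ s₂ s₃ s₄ : α} (h : P34 G x y s₁ s₂ s₃ s₄) : y ∈ VS G :=
  left_mem_VS ((h.ny x).2 (Or.inl rfl))

theorem np_dst {y : α} (hNPC : SpecNPC) (h : NP (del G {y})) (P : Finset α) : NP (dst G y P) := by
  refine hNPC.mono (fun a b hab => ?_) h
  simp only [del_adj, mem_singleton] at hab
  rw [dst, deleteEdges_adj]
  refine ⟨hab.1, ?_⟩
  rintro ⟨p, _, he⟩
  rw [Sym2.eq_iff] at he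
  rcases he with ⟨h1, _⟩ | ⟨_, h1⟩
  · exact hab.2.1 h1
  · exact hab.2.2 h1

theorem gam_dst {y r s : α} {Z : Chain α} (hNCX : SpecNCX) (h : Gam G y r s Z) (P : Finset α) (hr : r ∉ P)
    (hs : s ∉ P) : NP (dst G y P) := by
  refine hNCX.sup h (fun e he hy => ?_) ?_ ?_
  · rw [dst, edgeSet_deleteEdges]
    refine ⟨he, ?_⟩
    rintro ⟨p, _, rfl⟩
    exact hy (Sym2.mem_mk_left _ _)
  · rw [dst, deleteEdges_adj]
    refine ⟨h.1, ?_⟩
    rintro ⟨p, hp, he⟩
    rw [Sym2.eq_iff] at he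
    rcases he with ⟨_, h1⟩ | ⟨h1, h2⟩
    · exact hr (h1 ▸ hp)
    · exact h.1.ne h2.symm
  · rw [dst, deleteEdges_adj]
    refine ⟨h.2.1, ?_⟩
    rintro ⟨p, hp, he⟩
    rw [Sym2.eq_iff] at he
    rcases he with ⟨_, h1⟩ | ⟨h1, h2⟩
    · exact hs (h1 ▸ hp)
    · exact h.2.1.ne h2.symm

/-- DFV with the complement `k`, `s₁` -/
theorem use1 (hDFV : SpecDFV) {x y s₁ i j k : α} (hK : K48 G) (hI : IH G) (hnd : [x, y, s₁, i, j, k].Nodup)
    (hy : ∀ w, G.Adj y w ↔ w = x ∨ w = s₁ ∨ w = i ∨ w = j ∨ w = k) (hk : ¬ G.Adj k s₁)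
    (h1 : C1 (dst G y {x, i})) (h2 : C1 (dst G y {x, j})) (h3 : C1 (dst G y {i, j}))
    (hn : ∀ P : Finset α, k ∉ P → s₁ ∉ P → NP (dst G y P)) : OK G := by
  simp only [List.nodup_cons, List.mem_cons, List.not_mem_nil, or_false, not_or, List.nodup_nil, and_true,
    not_false_eq_true] at hnd
  refine hDFV (u := y) (a := x) (b := i) (c := j) (r := k) (s := s₁) hK hI ?_ ?_ hk h1 h2 h3 ?_ ?_ ?_
  · simp only [List.nodup_cons, List.mem_cons, List.not_mem_nil, or_false, not_or, List.nodup_nil, and_true,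
      not_false_eq_true]
    obtain ⟨⟨a1, a2, a3, a4, a5⟩, ⟨b1, b2, b3, b4⟩, ⟨c1, c2, c3⟩, ⟨d1, d2⟩, e1⟩ := hnd
    refine ⟨⟨Ne.symm a1, b2, b3, b4, b1⟩, ⟨a3, a4, a5, a2⟩, ⟨d1, d2, Ne.symm c1⟩, ⟨e1, Ne.symm c2⟩, Ne.symm c3⟩
  · intro w; rw [hy]; tauto
  · apply hn
    · simp only [mem_insert, mem_singleton, not_or]
      exact ⟨fun h => hnd.1.2.2.2.2 h.symm, fun h => hnd.2.2.2.1.2 h.symm⟩
    · simp only [mem_insert, mem_singleton, not_or]
      exact ⟨fun h => hnd.1.2.1 h.symm, fun h => hnd.2.2.1.1 h⟩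
  · apply hn
    · simp only [mem_insert, mem_singleton, not_or]
      exact ⟨fun h => hnd.1.2.2.2.2 h.symm, fun h => hnd.2.2.2.2 h.symm⟩
    · simp only [mem_insert, mem_singleton, not_or]
      exact ⟨fun h => hnd.1.2.1 h.symm, fun h => hnd.2.2.1.2.1 h⟩
  · apply hn
    · simp only [mem_insert, mem_singleton, not_or]
      exact ⟨fun h => hnd.2.2.2.1.2 h.symm, fun h => hnd.2.2.2.2 h.symm⟩
    · simp only [mem_insert, mem_singleton, not_or]
      exact ⟨fun h => hnd.2.2.1.1 h, fun h => hnd.2.2.1.2.1 h⟩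

/-- DFV with the complement `x`, `s₁` -/
theorem use2 (hDFV : SpecDFV) {x y s₁ s₂ s₃ s₄ : α} (hK : K48 G) (hI : IH G) (hP : P34 G x y s₁ s₂ s₃ s₄)
    (h1 : C1 (dst G y {s₂, s₃})) (h2 : C1 (dst G y {s₂, s₄})) (h3 : C1 (dst G y {s₃, s₄}))
    (hn : ∀ P : Finset α, x ∉ P → s₁ ∉ P → NP (dst G y P)) : OK G := by
  have hnd := hP.nd
  simp only [List.nodup_cons, List.mem_cons, List.not_mem_nil, or_false, not_or, List.nodup_nil, and_true,
    not_false_eq_true] at hnd
  obtain ⟨⟨a1, a2, a3, a4, a5⟩, ⟨b1, b2, b3, b4⟩, ⟨c1, c2, c3⟩, ⟨d1, d2⟩, e1⟩ := hnd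
  have hx : ¬ G.Adj x s₁ := by
    rw [hP.nx]
    rintro (h | h | h | h)
    · exact b1 h.symm
    · exact c1 h
    · exact c2 h
    · exact c3 h
  refine hDFV (u := y) (a := s₂) (b := s₃) (c := s₄) (r := x) (s := s₁) hK hI ?_ ?_ hx h1 h2 h3 ?_ ?_ ?_
  · simp only [List.nodup_cons, List.mem_cons, List.not_mem_nil, or_false, not_or, List.nodup_nil, and_true,
      not_false_eq_true]
    exact ⟨⟨b2, b3, b4, Ne.symm a1, b1⟩, ⟨d1, d2, Ne.symm a3, Ne.symm c1⟩, ⟨e1, Ne.symm a4, Ne.symm c2⟩,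
      ⟨Ne.symm a5, Ne.symm c3⟩, a2⟩
  · intro w; rw [hP.ny]; tauto
  · exact hn _ (by simp [a3, a4]) (by simp [c1, c2])
  · exact hn _ (by simp [a3, a5]) (by simp [c1, c3])
  · exact hn _ (by simp [a4, a5]) (by simp [c2, c3])

theorem nd_rot {x y s₁ s₂ s₃ s₄ : α} (h : [x, y, s₁, s₂, s₃, s₄].Nodup) :
    [x, y, s₁, s₂, s₄, s₃].Nodup ∧ [x, y, s₁, s₃, s₄, s₂].Nodup := by
  simp only [List.nodup_cons, List.mem_cons, List.not_mem_nil, or_false, not_or, List.nodup_nil, and_true,
    not_false_eq_true] at h ⊢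
  obtain ⟨⟨a1, a2, a3, a4, a5⟩, ⟨b1, b2, b3, b4⟩, ⟨c1, c2, c3⟩, ⟨d1, d2⟩, e1⟩ := h
  exact ⟨⟨⟨a1, a2, a3, a5, a4⟩, ⟨b1, b2, b4, b3⟩, ⟨c1, c3, c2⟩, ⟨d2, d1⟩, Ne.symm e1⟩,
    ⟨⟨a1, a2, a4, a5, a3⟩, ⟨b1, b3, b4, b2⟩, ⟨c2, c3, c1⟩, ⟨e1, Ne.symm d1⟩, Ne.symm d2⟩⟩

/-- a split `{s₂ s₃ | s₄ s₁}` -/
theorem split (hDFV : SpecDFV) (hE3S : SpecE3S) (hE3F : SpecE3F) (hNCX : SpecNCX) (hNPC : SpecNPC)
    {x y s₁ s₂ s₃ s₄ : α} (hG : SH G) (h33 : No33 G) (hP : P34 G x y s₁ s₂ s₃ s₄)
    (hs : SPL G x y s₂ s₃ s₄ s₁) : OK G := by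
  obtain ⟨c1, c2, c3, c4, c5, n2, n3⟩ := hE3S hG.k48 h33 hP hs
  have hnd := nd_rot hP.nd
  -- complement s₃, s₁: triple x, s₂, s₄
  have t3 : (∀ P : Finset α, s₃ ∉ P → s₁ ∉ P → NP (dst G y P)) → OK G := fun hn =>
    use1 hDFV (x := x) (y := y) (s₁ := s₁) (i := s₂) (j := s₄) (k := s₃) hG.k48 hG.ih hnd.1
      (fun w => by rw [hP.ny]; tauto) n3 c1 c3 c4 hn
  have t2 : (∀ P : Finset α, s₂ ∉ P → s₁ ∉ P → NP (dst G y P)) → OK G := fun hn =>
    use1 hDFV (x := x) (y := y) (s₁ := s₁) (i := s₃) (j := s₄) (k := s₂) hG.k48 hG.ih hnd.2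
      (fun w => by rw [hP.ny]; tauto) n2 c2 c3 c5 hn
  by_cases hy : NP (del G {y})
  · exact t3 fun P _ _ => np_dst hNPC hy P
  · rcases hE3F hG.k48 h33 hP hy hs with ⟨Z, hZ⟩ | ⟨Z, hZ⟩
    · exact t2 fun P h1 h2 => gam_dst hNCX hZ P h1 h2
    · exact t3 fun P h1 h2 => gam_dst hNCX hZ P h1 h2

/-- no split, planar, `Gam G y s₄ s₁` -/
theorem last (hDFV : SpecDFV) (hE3C : SpecE3C) (hE3D : SpecE3D) (hNCX : SpecNCX) (hNCN : SpecNCN)
    {x y s₁ s₂ s₃ s₄ : α} {Z : Chain α} (hG : SH G) (h33 : No33 G) (hP : P34 G x y s₁ s₂ s₃ s₄)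
    (h23 : ¬ SPL G x y s₂ s₃ s₄ s₁) (hy : ¬ NP (del G {y})) (hx : ∀ W, ¬ Gam G y x s₁ W)
    (hZ : Gam G y s₄ s₁ Z) : OK G := by
  have h41 : ¬ G.Adj s₄ s₁ := hNCN.nadj hy hZ
  refine use1 hDFV (x := x) (y := y) (s₁ := s₁) (i := s₂) (j := s₃) (k := s₄) hG.k48 hG.ih hP.nd hP.ny h41
    ?_ ?_ ?_ fun P h1 h2 => gam_dst hNCX hZ P h1 h2
  · rcases hE3C.edge hG.k48 hP with h | h
    · exact h
    · exact absurd h (hE3D.cut hG.k48 h33 hP hy hx hZ)
  · rcases hE3C.edge hG.k48 (p34_swap23 hP) with h | h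
    · exact h
    · exact absurd h (hE3D.cut hG.k48 h33 (p34_swap23 hP) hy hx hZ)
  · rcases hE3C.pair hG.k48 hP with h | ⟨w, h⟩ | h
    · exact h
    · exact absurd ((h s₁).2 (by tauto)) h41
    · exact absurd h h23

end E34M

open E34M

theorem specE34 (hDFV : SpecDFV) (hE3C : SpecE3C) (hE3S : SpecE3S) (hE3T : SpecE3T) (hE3D : SpecE3D)
    (hE3G : SpecE3G) (hE3F : SpecE3F) (hNCX : SpecNCX) (hNCN : SpecNCN) (hNPC : SpecNPC) : SpecE34 := by
  intro α _ _ G x y s₁ s₂ s₃ s₄ hG h33 hP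
  have hrig : ¬ Rig G y := by
    intro h
    have := (hG.rig y (mem_VS_y hP) h).1
    rw [dg_five hP] at this
    omega
  have hP34 := p34_swap34 hP
  have hP24 := p34_swap34 (p34_swap23 hP)
  have hnd := nd_rot hP.nd
  by_cases h1 : SPL G x y s₂ s₃ s₄ s₁
  · exact split hDFV hE3S hE3F hNCX hNPC hG h33 hP h1
  by_cases h2 : SPL G x y s₂ s₄ s₃ s₁
  · exact split hDFV hE3S hE3F hNCX hNPC hG h33 hP34 h2
  by_cases h3 : SPL G x y s₃ s₄ s₂ s₁
  · exact split hDFV hE3S hE3F hNCX hNPC hG h33 hP24 h3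
  by_cases hy : NP (del G {y})
  · have hn : ∀ P : Finset α, NP (dst G y P) := fun P => np_dst hNPC hy P
    rcases hE3T hG.k48 h33 hP hrig h1 h2 h3 with ⟨a, b, c⟩ | ⟨a, b, c, d⟩ | ⟨a, b, c, d⟩ | ⟨a, b, c, d⟩
    · exact use2 hDFV hG.k48 hG.ih hP a b c fun P _ _ => hn P
    · exact use1 hDFV hG.k48 hG.ih hP.nd hP.ny d a b c fun P _ _ => hn P
    · exact use1 hDFV hG.k48 hG.ih hnd.1 (fun w => by rw [hP.ny]; tauto) d a b c fun P _ _ => hn P
    · exact use1 hDFV hG.k48 hG.ih hnd.2 (fun w => by rw [hP.ny]; tauto) d a b c fun P _ _ => hn P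
  · by_cases hx : ∃ Z, Gam G y x s₁ Z
    · obtain ⟨Z, hZ⟩ := hx
      refine use2 hDFV hG.k48 hG.ih hP ?_ ?_ ?_ fun P h1 h2 => gam_dst hNCX hZ P h1 h2
      · rcases hE3C.pair hG.k48 hP with h | h | h
        · exact h
        · exact absurd h (hE3D.leaf hG.k48 hP hy hZ)
        · exact absurd h h1
      · rcases hE3C.pair hG.k48 hP34 with h | h | h
        · exact h
        · exact absurd h (hE3D.leaf hG.k48 hP34 hy hZ)
        · exact absurd h h2
      · rcases hE3C.pair hG.k48 hP24 with h | h | h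
        · exact h
        · exact absurd h (hE3D.leaf hG.k48 hP24 hy hZ)
        · exact absurd h h3
    · have hx' : ∀ W, ¬ Gam G y x s₁ W := fun W hW => hx ⟨W, hW⟩
      rcases hE3G hG.k48 hP hy with ⟨Z, hZ⟩ | ⟨Z, hZ⟩ | ⟨Z, hZ⟩
      · exact last hDFV hE3C hE3D hNCX hNCN hG h33 hP24 h3 hy hx' hZ
      · exact last hDFV hE3C hE3D hNCX hNCN hG h33 hP34 h2 hy hx' hZ
      · exact last hDFV hE3C hE3D hNCX hNCN hG h33 hP h1 hy hx' hZ

end DL
end

section
/-!
# Module E3C: two edges at `y` deleted, `(3,4)`-pair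
-/
open SimpleGraph Finset

namespace DL

namespace E3CM

variable {α : Type} [Fintype α] [DecidableEq α] {G : SimpleGraph α}

theorem mem_NB {A : Finset α} {w : α} : w ∈ NB G A ↔ w ∉ A ∧ ∃ a ∈ A, G.Adj a w := by
  simp [NB]

theorem mem_NB1 {w : α} : w ∈ NB G {w} ↔ False := by
  rw [mem_NB]
  simp

theorem mem_NBu {u w : α} : w ∈ NB G {u} ↔ G.Adj u w := by
  simp only [NB, mem_filter, mem_univ, true_and, mem_singleton, exists_eq_left]
  exact ⟨fun h => h.2, fun h => ⟨h.ne', h⟩⟩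

/-- rule (*): a nonempty vertex set with at most three outer neighbours and a further vertex -/
theorem rule (hNBF : SpecNBF) (hG : KConn 4 G) {D F : Finset α} {v : α} (hD : D ⊆ VS G)
    (hne : D.Nonempty) (hF : F.card ≤ 3) (hN : ∀ d ∈ D, ∀ w, G.Adj d w → w ∈ D ∨ w ∈ F)
    (hv : v ∈ VS G) (hvD : v ∉ D) (hvF : v ∉ F) : False := by
  have hsub : NB G D ⊆ F := by
    intro w hw
    obtain ⟨h1, d, hd, h2⟩ := mem_NB.1 hw
    exact (hN d hd w h2).resolve_left h1
  have hlt : (NB G D).card < 4 := lt_of_le_of_lt ((card_le_card hsub).trans hF) (by omega)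
  have := hNBF.nb hG hD hne hlt hv
  rw [mem_union] at this
  rcases this with h | h
  · exact hvD h
  · exact hvF (hsub h)

theorem sep_nb {T A B : Finset α} (hs : Sep G T A B) {a w : α} (ha : a ∈ A) (h : G.Adj a w) :
    w ∈ T ∨ w ∈ A := by
  rcases hs.mem_or (right_mem_VS h) with h' | h' | h'
  · exact Or.inl h'
  · exact Or.inr h'
  · exact absurd h (hs.2.2.2.2 a ha w h')

/-- a 4-set with two given elements -/
theorem four_two {T : Finset α} {x y : α} (h4 : T.card = 4) (hx : x ∈ T) (hy : y ∈ T) (hxy : x ≠ y) :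
    ∃ c d, T = {x, y, c, d} ∧ [x, y, c, d].Nodup := by
  have h1 : (T.erase x).card = 3 := by rw [card_erase_of_mem hx, h4]
  have hy1 : y ∈ T.erase x := mem_erase.2 ⟨hxy.symm, hy⟩
  have h2 : ((T.erase x).erase y).card = 2 := by rw [card_erase_of_mem hy1, h1]
  obtain ⟨c, d, hcd, he⟩ := card_eq_two.1 h2
  have hc : c ∈ (T.erase x).erase y := by rw [he]; simp
  have hd : d ∈ (T.erase x).erase y := by rw [he]; simp
  rw [mem_erase, mem_erase] at hc hd
  refine ⟨c, d, ?_, ?_⟩
  · rw [← insert_erase hx, ← insert_erase hy1, he]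
  · simp only [List.nodup_cons, List.mem_cons, List.not_mem_nil, or_false, not_or,
      not_false_eq_true, List.nodup_nil, and_true]
    exact ⟨⟨hxy, hc.2.1.symm, hd.2.1.symm⟩, ⟨hc.1.symm, hd.1.symm⟩, hcd⟩

/-- a 4-set with three given elements -/
theorem four_three {T : Finset α} {x y z : α} (h4 : T.card = 4) (hx : x ∈ T) (hy : y ∈ T)
    (hz : z ∈ T) (hxy : x ≠ y) (hxz : x ≠ z) (hyz : y ≠ z) :
    ∃ c, T = {x, y, z, c} ∧ [x, y, z, c].Nodup := by
  obtain ⟨c, d, he, hn⟩ := four_two h4 hx hy hxy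
  have hz' : z = c ∨ z = d := by
    rw [he] at hz
    simp only [mem_insert, mem_singleton] at hz
    tauto
  simp only [List.nodup_cons, List.mem_cons, List.not_mem_nil, or_false, not_or,
      not_false_eq_true, List.nodup_nil, and_true] at hn
  rcases hz' with rfl | rfl
  · refine ⟨d, he, ?_⟩
    simp only [List.nodup_cons, List.mem_cons, List.not_mem_nil, or_false, not_or,
      not_false_eq_true, List.nodup_nil, and_true]
    exact hn
  · refine ⟨c, ?_, ?_⟩
    · rw [he, pair_comm c z]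
    · simp only [List.nodup_cons, List.mem_cons, List.not_mem_nil, or_false, not_or,
        not_false_eq_true, List.nodup_nil, and_true]
      exact ⟨⟨hn.1.1, hn.1.2.2, hn.1.2.1⟩, ⟨hn.2.1.2, hn.2.1.1⟩, fun e => hn.2.2 e.symm⟩

/-- the side `B` of the cut `{x, y, c, d}`: if `x` and `y` have in `B` only the neighbour `s` then `B = {s}` -/
theorem single (hNBF : SpecNBF) (hG : KConn 4 G) {A B : Finset α} {x y c d s : α}
    (hn : [x, y, c, d].Nodup) (hs : Sep G {x, y, c, d} A B) (hsB : s ∈ B)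
    (hx : ∀ w ∈ B, G.Adj x w → w = s) (hy : ∀ w ∈ B, G.Adj y w → w = s) : B.card ≤ 1 := by
  by_contra hc
  rw [not_le] at hc
  simp only [List.nodup_cons, List.mem_cons, List.not_mem_nil, or_false, not_or,
      not_false_eq_true, List.nodup_nil, and_true] at hn
  have hyT : y ∈ ({x, y, c, d} : Finset α) := by simp
  have hyB : y ∉ B := Finset.disjoint_left.1 hs.2.2.1 hyT
  refine rule hNBF hG (D := B.erase s) (F := {s, c, d}) (v := y) ?_ ?_ ?_ ?_ (hs.subS hyT) ?_ ?_
  · exact (erase_subset _ _).trans hs.subQ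
  · rw [← card_pos, card_erase_of_mem hsB]
    omega
  · exact (card_insert_le _ _).trans (Nat.succ_le_succ card_le_two)
  · intro w hw v hwv
    rw [mem_erase] at hw
    rcases sep_nb hs.symm hw.2 hwv with h | h
    · right
      simp only [mem_insert, mem_singleton] at h ⊢
      rcases h with rfl | rfl | rfl | rfl
      · exact absurd (hx w hw.2 hwv.symm) hw.1
      · exact absurd (hy w hw.2 hwv.symm) hw.1
      · exact Or.inr (Or.inl rfl)
      · exact Or.inr (Or.inr rfl)
    · by_cases he : v = s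
      · right; simp [he]
      · left; exact mem_erase.2 ⟨he, h⟩
  · exact fun h => hyB (mem_erase.1 h).2
  · simp only [mem_insert, mem_singleton, not_or]
    exact ⟨fun e => hyB (e ▸ hsB), hn.2.1⟩

end E3CM

open E3CM in
theorem specE3C (hCRX : SpecCRX) (hNBF : SpecNBF) : SpecE3C where
  pair := by
    intro α _ _ G x y s₁ s₂ s₃ s₄ hG hP
    have hnd := hP.nd
    simp only [List.nodup_cons, List.mem_cons, List.not_mem_nil, or_false, not_or,
      not_false_eq_true, List.nodup_nil, and_true] at hnd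
    obtain ⟨⟨hxy, hx1, hx2, hx3, hx4⟩, ⟨hy1, hy2, hy3, hy4⟩, ⟨h12, h13, h14⟩, ⟨h23, h24⟩, h34⟩ := hnd
    have ayx : G.Adj y x := (hP.ny x).2 (Or.inl rfl)
    have ay1 : G.Adj y s₁ := (hP.ny _).2 (by tauto)
    have ay4 : G.Adj y s₄ := (hP.ny _).2 (by tauto)
    have ax2 : G.Adj x s₂ := (hP.nx _).2 (by tauto)
    have ax3 : G.Adj x s₃ := (hP.nx _).2 (by tauto)
    have ax4 : G.Adj x s₄ := (hP.nx _).2 (by tauto)
    have hyV : y ∈ VS G := left_mem_VS ayx
    have hsubP : ({s₂, s₃} : Finset α) ⊆ NB G {y} := by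
      intro w hw
      rw [mem_NBu, hP.ny]
      simp only [mem_insert, mem_singleton] at hw
      tauto
    have hcard : 3 ≤ (NB G {y} \ {s₂, s₃}).card := by
      have h1 : ({x, s₁, s₄} : Finset α) ⊆ NB G {y} \ {s₂, s₃} := by
        intro w hw
        rw [mem_sdiff, mem_NBu, hP.ny]
        simp only [mem_insert, mem_singleton, not_or] at hw ⊢
        rcases hw with rfl | rfl | rfl
        · exact ⟨Or.inl rfl, hx2, hx3⟩
        · exact ⟨Or.inr (Or.inl rfl), h12, h13⟩
        · exact ⟨by tauto, fun e => h24 e.symm, fun e => h34 e.symm⟩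
      have h2 : ({x, s₁, s₄} : Finset α).card = 3 := by
        rw [card_insert_of_notMem, card_pair h14]
        simp only [mem_insert, mem_singleton, not_or]
        exact ⟨hx1, hx4⟩
      rw [← h2]
      exact card_le_card h1
    rcases hCRX hG hyV hsubP hcard with h | ⟨T, A, B, hs, h4, hyT, hA, hB, hyB⟩
    · exact Or.inl h
    right
    have hBne : B.Nonempty := card_pos.1 (by omega)
    have hyB' : ∀ w ∈ B, G.Adj y w → w = s₂ ∨ w = s₃ := by
      intro w hw h
      have := hyB w hw h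
      simpa only [mem_insert, mem_singleton] using this
    have hxB : x ∉ B := fun h => by
      rcases hyB' x h ayx with e | e
      · exact hx2 e
      · exact hx3 e
    have h1B : s₁ ∉ B := fun h => by
      rcases hyB' s₁ h ay1 with e | e
      · exact h12 e
      · exact h13 e
    have h4B : s₄ ∉ B := fun h => by
      rcases hyB' s₄ h ay4 with e | e
      · exact h24 e.symm
      · exact h34 e.symm
    have hTA : Disjoint T A := hs.2.1
    have hTB : Disjoint T B := hs.2.2.1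
    have hAB : Disjoint A B := hs.2.2.2.1
    have hno := hs.2.2.2.2
    obtain ⟨b, hb, hyb⟩ := hG.1.exists_adj_of_sep hs.symm hBne h4.le hyT
    have hxA : x ∉ A := by
      intro hxA
      rcases hyB' b hb hyb with rfl | rfl
      · exact hno x hxA b hb ax2
      · exact hno x hxA b hb ax3
    have hxT : x ∈ T := by
      rcases hs.mem_or (right_mem_VS ayx) with h | h | h
      · exact h
      · exact absurd h hxA
      · exact absurd h hxB
    obtain ⟨c, d, hT, hn⟩ := four_two h4 hxT hyT hxy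
    rw [hT] at hs
    have hxB' : ∀ w ∈ B, G.Adj x w → w = s₂ ∨ w = s₃ := by
      intro w hw h
      rcases (hP.nx w).1 h with rfl | h | h | rfl
      · exact absurd hw (Finset.disjoint_left.1 hTB hyT)
      · exact Or.inl h
      · exact Or.inr h
      · exact absurd hw h4B
    have h2B : s₂ ∈ B := by
      by_contra h2
      have h3 : s₃ ∈ B := by
        rcases hyB' b hb hyb with rfl | rfl
        · exact absurd hb h2
        · exact hb
      have := single hNBF hG.1 hn hs h3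
        (fun w hw h => (hxB' w hw h).resolve_left (fun e => h2 (e ▸ hw)))
        (fun w hw h => (hyB' w hw h).resolve_left (fun e => h2 (e ▸ hw)))
      omega
    have h3B : s₃ ∈ B := by
      by_contra h3
      have := single hNBF hG.1 hn hs h2B
        (fun w hw h => (hxB' w hw h).resolve_right (fun e => h3 (e ▸ hw)))
        (fun w hw h => (hyB' w hw h).resolve_right (fun e => h3 (e ▸ hw)))
      omega
    have h2A : s₂ ∉ A := Finset.disjoint_right.1 hAB h2B
    have h3A : s₃ ∉ A := Finset.disjoint_right.1 hAB h3B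
    have hyA : y ∉ A := Finset.disjoint_left.1 hTA hyT
    rw [← hT] at hs
    obtain ⟨a, ha, hxa⟩ := hG.1.exists_adj_of_sep hs hA h4.le hxT
    have h4A : s₄ ∈ A := by
      rcases (hP.nx a).1 hxa with rfl | rfl | rfl | rfl
      · exact absurd ha hyA
      · exact absurd ha h2A
      · exact absurd ha h3A
      · exact ha
    have h1V : s₁ ∈ VS G := right_mem_VS ay1
    rcases hs.mem_or h1V with h1T | h1A | h1B'
    · left
      obtain ⟨w, hTw, hnw⟩ := four_three h4 hxT hyT h1T hxy hx1 hy1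
      simp only [List.nodup_cons, List.mem_cons, List.not_mem_nil, or_false, not_or,
        not_false_eq_true, List.nodup_nil, and_true] at hnw
      have hA1 : A.erase s₄ = ∅ := by
        by_contra hne
        refine rule hNBF hG.1 (D := A.erase s₄) (F := {s₄, s₁, w}) (v := y) ?_
          (nonempty_iff_ne_empty.2 hne) ?_ ?_ hyV ?_ ?_
        · exact (erase_subset _ _).trans hs.subP
        · exact (card_insert_le _ _).trans (Nat.succ_le_succ card_le_two)
        · intro a ha v hav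
          rw [mem_erase] at ha
          rcases sep_nb hs ha.2 hav with h | h
          · right
            rw [hTw] at h
            simp only [mem_insert, mem_singleton] at h ⊢
            rcases h with rfl | rfl | rfl | rfl
            · exfalso
              rcases (hP.nx a).1 hav.symm with rfl | rfl | rfl | rfl
              · exact hyA ha.2
              · exact h2A ha.2
              · exact h3A ha.2
              · exact ha.1 rfl
            · exfalso
              rcases (hP.ny a).1 hav.symm with rfl | rfl | rfl | rfl | rfl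
              · exact hxA ha.2
              · exact Finset.disjoint_left.1 hTA h1T ha.2
              · exact h2A ha.2
              · exact h3A ha.2
              · exact ha.1 rfl
            · exact Or.inr (Or.inl rfl)
            · exact Or.inr (Or.inr rfl)
          · by_cases he : v = s₄
            · right; simp [he]
            · left; exact mem_erase.2 ⟨he, h⟩
        · exact fun h => hyA (mem_erase.1 h).2
        · simp only [mem_insert, mem_singleton, not_or]
          exact ⟨hy4, hnw.2.1⟩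
      have hAs : A = {s₄} := by
        rw [← insert_erase h4A, hA1]
        rfl
      have hsub : nbs G s₄ ⊆ T := by
        intro v hv
        rw [mem_nbs] at hv
        rcases sep_nb hs h4A hv with h | h
        · exact h
        · rw [hAs, mem_singleton] at h
          exact absurd h.symm hv.ne
      have heq : nbs G s₄ = T :=
        eq_of_subset_of_card_le hsub (by rw [h4]; exact hG.1.le_nbs (right_mem_VS ay4))
      refine ⟨w, fun v => ?_⟩
      rw [← mem_nbs, heq, hTw]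
      simp only [mem_insert, mem_singleton]
    · right
      exact ⟨c, d, B, A, hn, hT ▸ hs.symm, h2B, h3B, h4A, h1A⟩
    · exact absurd h1B' h1B
  edge := by
    intro α _ _ G x y s₁ s₂ s₃ s₄ hG hP
    have hnd := hP.nd
    simp only [List.nodup_cons, List.mem_cons, List.not_mem_nil, or_false, not_or,
      not_false_eq_true, List.nodup_nil, and_true] at hnd
    obtain ⟨⟨hxy, hx1, hx2, hx3, hx4⟩, ⟨hy1, hy2, hy3, hy4⟩, ⟨h12, h13, h14⟩, ⟨h23, h24⟩, h34⟩ := hnd
    have ayx : G.Adj y x := (hP.ny x).2 (Or.inl rfl)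
    have ay1 : G.Adj y s₁ := (hP.ny _).2 (by tauto)
    have ay2 : G.Adj y s₂ := (hP.ny _).2 (by tauto)
    have ay3 : G.Adj y s₃ := (hP.ny _).2 (by tauto)
    have ay4 : G.Adj y s₄ := (hP.ny _).2 (by tauto)
    have ax2 : G.Adj x s₂ := (hP.nx _).2 (by tauto)
    have ax3 : G.Adj x s₃ := (hP.nx _).2 (by tauto)
    have ax4 : G.Adj x s₄ := (hP.nx _).2 (by tauto)
    have hyV : y ∈ VS G := left_mem_VS ayx
    have hsubP : ({x, s₂} : Finset α) ⊆ NB G {y} := by
      intro w hw
      rw [mem_NBu, hP.ny]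
      simp only [mem_insert, mem_singleton] at hw
      tauto
    have hcard : 3 ≤ (NB G {y} \ {x, s₂}).card := by
      have h1 : ({s₁, s₃, s₄} : Finset α) ⊆ NB G {y} \ {x, s₂} := by
        intro w hw
        rw [mem_sdiff, mem_NBu, hP.ny]
        simp only [mem_insert, mem_singleton, not_or] at hw ⊢
        rcases hw with rfl | rfl | rfl
        · exact ⟨Or.inr (Or.inl rfl), fun e => hx1 e.symm, h12⟩
        · exact ⟨by tauto, fun e => hx3 e.symm, fun e => h23 e.symm⟩
        · exact ⟨by tauto, fun e => hx4 e.symm, fun e => h24 e.symm⟩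
      have h2 : ({s₁, s₃, s₄} : Finset α).card = 3 := by
        rw [card_insert_of_notMem, card_pair h34]
        simp only [mem_insert, mem_singleton, not_or]
        exact ⟨h13, h14⟩
      rw [← h2]
      exact card_le_card h1
    rcases hCRX hG hyV hsubP hcard with h | ⟨T, A, B, hs, h4, hyT, hA, hB, hyB⟩
    · exact Or.inl h
    right
    have hBne : B.Nonempty := card_pos.1 (by omega)
    have hyB' : ∀ w ∈ B, G.Adj y w → w = x ∨ w = s₂ := by
      intro w hw h
      have := hyB w hw h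
      simpa only [mem_insert, mem_singleton] using this
    have h3B : s₃ ∉ B := fun h => by
      rcases hyB' s₃ h ay3 with e | e
      · exact hx3 e.symm
      · exact h23 e.symm
    have h4B : s₄ ∉ B := fun h => by
      rcases hyB' s₄ h ay4 with e | e
      · exact hx4 e.symm
      · exact h24 e.symm
    have hTA : Disjoint T A := hs.2.1
    have hTB : Disjoint T B := hs.2.2.1
    have hAB : Disjoint A B := hs.2.2.2.1
    have hno := hs.2.2.2.2
    have hyA : y ∉ A := Finset.disjoint_left.1 hTA hyT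
    have hyB0 : y ∉ B := Finset.disjoint_left.1 hTB hyT
    obtain ⟨b, hb, hyb⟩ := hG.1.exists_adj_of_sep hs.symm hBne h4.le hyT
    obtain ⟨a, ha, hya⟩ := hG.1.exists_adj_of_sep hs hA h4.le hyT
    have hxA : x ∉ A := by
      intro hxA
      rcases hyB' b hb hyb with rfl | rfl
      · exact Finset.disjoint_left.1 hAB hxA hb
      · exact hno x hxA b hb ax2
    have hxT : x ∉ T := by
      intro hxT
      have hxB : x ∉ B := Finset.disjoint_left.1 hTB hxT
      obtain ⟨c, d, hT, hn⟩ := four_two h4 hxT hyT hxy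
      rw [hT] at hs
      have h2B : s₂ ∈ B := by
        rcases hyB' b hb hyb with rfl | rfl
        · exact absurd hb hxB
        · exact hb
      have := single hNBF hG.1 hn hs h2B
        (fun w hw h => by
          rcases (hP.nx w).1 h with rfl | h | rfl | rfl
          · exact absurd hw hyB0
          · exact h
          · exact absurd hw h3B
          · exact absurd hw h4B)
        (fun w hw h => (hyB' w hw h).resolve_left (fun e => hxB (e ▸ hw)))
      omega
    have hxB : x ∈ B := by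
      rcases hs.mem_or (right_mem_VS ayx) with h | h | h
      · exact absurd h hxT
      · exact absurd h hxA
      · exact h
    have h3T : s₃ ∈ T := by
      rcases hs.mem_or (right_mem_VS ay3) with h | h | h
      · exact h
      · exact absurd ax3.symm (hno _ h x hxB)
      · exact absurd h h3B
    have h4T : s₄ ∈ T := by
      rcases hs.mem_or (right_mem_VS ay4) with h | h | h
      · exact h
      · exact absurd ax4.symm (hno _ h x hxB)
      · exact absurd h h4B
    have h2A : s₂ ∉ A := fun h => hno _ h x hxB ax2.symm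
    have h1A : s₁ ∈ A := by
      rcases (hP.ny a).1 hya with rfl | rfl | rfl | rfl | rfl
      · exact absurd ha hxA
      · exact ha
      · exact absurd ha h2A
      · exact absurd ha (Finset.disjoint_left.1 hTA h3T)
      · exact absurd ha (Finset.disjoint_left.1 hTA h4T)
    obtain ⟨c, hT, hn⟩ := four_three h4 hyT h3T h4T hy3 hy4 h34
    have h2T : s₂ ∉ T := by
      intro h2T
      refine rule hNBF hG.1 (D := B.erase x) (F := {s₂, s₃, s₄}) (v := y) ?_ ?_ ?_ ?_ hyV ?_ ?_
      · exact (erase_subset _ _).trans hs.subQ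
      · rw [← card_pos, card_erase_of_mem hxB]
        omega
      · exact (card_insert_le _ _).trans (Nat.succ_le_succ card_le_two)
      · intro b hb v hbv
        rw [mem_erase] at hb
        rcases sep_nb hs.symm hb.2 hbv with h | h
        · right
          have hc : c = s₂ := by
            have h2 := h2T
            rw [hT] at h2
            simp only [mem_insert, mem_singleton] at h2
            rcases h2 with h | h | h | h
            · exact absurd h.symm hy2
            · exact absurd h h23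
            · exact absurd h h24
            · exact h.symm
          rw [hT, hc] at h
          simp only [mem_insert, mem_singleton] at h ⊢
          rcases h with rfl | h | h | h
          · exfalso
            rcases hyB' b hb.2 hbv.symm with rfl | rfl
            · exact hb.1 rfl
            · exact Finset.disjoint_left.1 hTB h2T hb.2
          · exact Or.inr (Or.inl h)
          · exact Or.inr (Or.inr h)
          · exact Or.inl h
        · by_cases he : v = x
          · exfalso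
            subst he
            rcases (hP.nx b).1 hbv.symm with rfl | rfl | rfl | rfl
            · exact hyB0 hb.2
            · exact Finset.disjoint_left.1 hTB h2T hb.2
            · exact h3B hb.2
            · exact h4B hb.2
          · left; exact mem_erase.2 ⟨he, h⟩
      · exact fun h => hyB0 (mem_erase.1 h).2
      · simp only [mem_insert, mem_singleton, not_or]
        exact ⟨hy2, hy3, hy4⟩
    have h2B : s₂ ∈ B := by
      rcases hs.mem_or (right_mem_VS ay2) with h | h | h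
      · exact absurd h h2T
      · exact absurd h h2A
      · exact h
    exact ⟨c, B, A, hn, hT ▸ hs.symm, hxB, h2B, h1A⟩

end DL
end

section
/-!
# MP_3ff0f8_gt, EXIST section 3: (3,4)-pairs with a split, `G - y` planar (helper96)
-/
set_option autoImplicit false

open SimpleGraph Finset

namespace DL

namespace E3FM

set_option linter.unusedSectionVars false
set_option linter.unusedVariables false

variable {α : Type} [Fintype α] [DecidableEq α] {G : SimpleGraph α}

omit [DecidableEq α] in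
theorem mem_NB {A : Finset α} {w : α} : w ∈ NB G A ↔ w ∉ A ∧ ∃ a ∈ A, G.Adj a w := by
  simp [NB]

/-- no nonempty set with few neighbours -/
theorem few (hNBF : SpecNBF) (hG : KConn 4 G) {D W : Finset α} {r : α} (hD : ∀ v ∈ D, v ∈ VS G)
    {v : α} (hv : v ∈ D) (hN : ∀ a ∈ D, ∀ w, G.Adj a w → w ∈ D ∨ w ∈ W) (hW : W.card ≤ 3)
    (hr : r ∈ VS G) (hrD : r ∉ D) (hrW : r ∉ W) : False := by
  have hsub : NB G D ⊆ W := by
    intro w hw
    obtain ⟨h1, a, ha, haw⟩ := mem_NB.1 hw
    exact (hN a ha w haw).resolve_left h1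
  have h1 := hNBF.nb hG (fun v hv => hD v hv) ⟨v, hv⟩ (lt_of_le_of_lt (card_le_card hsub) (by omega)) hr
  rw [mem_union] at h1
  exact h1.elim hrD fun h => hrW (hsub h)

/-- walks from a side stay in the side -/
theorem reach_side {T A B : Finset α} (h : Sep G T A B) {a b : α} (ha : a ∈ B)
    (hr : (del G T).Reachable a b) : (del G (T ∪ A)).Reachable a b := by
  obtain ⟨w⟩ := hr
  induction w with
  | nil => exact Reachable.refl _
  | @cons u v t huv p ih =>
    have hv : v ∈ B := h.symm.mem_of_reachable ha huv.reachable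
    refine Reachable.trans (Adj.reachable ?_) (ih hv)
    refine ⟨huv.1, ?_, ?_⟩
    · rw [mem_union, not_or]
      exact ⟨huv.2.1, fun hA => Finset.disjoint_left.1 h.2.2.2.1 hA ha⟩
    · rw [mem_union, not_or]
      exact ⟨huv.2.2, fun hA => Finset.disjoint_left.1 h.2.2.2.1 hA hv⟩

theorem reach_anti {S T : Finset α} (h : S ⊆ T) {a b : α} (hr : (del G T).Reachable a b) :
    (del G S).Reachable a b := hr.mono (del_anti h)

/-- the component of `u` in `G - T` has a neighbour at every `t ∈ T` -/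
theorem comp_nb (hG : KConn 4 G) {T A B : Finset α} (h : Sep G T A B) (h4 : T.card ≤ 4) (hA : A.Nonempty)
    {u t : α} (hu : u ∈ B) (ht : t ∈ T) : ∃ k ∈ B, (del G T).Reachable u k ∧ G.Adj t k := by
  classical
  set K : Finset α := univ.filter fun v => (del G T).Reachable u v with hKdef
  have hmem : ∀ v, v ∈ K ↔ (del G T).Reachable u v := fun v => by simp [hKdef]
  have hKB : ∀ v ∈ K, v ∈ B := fun v hv => h.symm.mem_of_reachable hu ((hmem v).1 hv)
  have hdB : ∀ v ∈ B, v ∉ T := fun v hv hT => Finset.disjoint_left.1 h.2.2.1 hT hv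
  have hs : Sep G T K ((A ∪ B) \ K) := by
    refine ⟨?_, ?_, ?_, ?_, ?_⟩
    · rw [← h.1]
      ext v
      simp only [mem_union, mem_sdiff]
      constructor
      · rintro ((h1 | h1) | ⟨h1 | h1, _⟩)
        · exact Or.inl (Or.inl h1)
        · exact Or.inr (hKB v h1)
        · exact Or.inl (Or.inr h1)
        · exact Or.inr h1
      · by_cases hv : v ∈ K
        · tauto
        · tauto
    · exact Finset.disjoint_left.2 fun v h1 h2 => hdB v (hKB v h2) h1
    · refine Finset.disjoint_left.2 fun v h1 h2 => ?_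
      rw [mem_sdiff, mem_union] at h2
      rcases h2.1 with h3 | h3
      · exact Finset.disjoint_left.1 h.2.1 h1 h3
      · exact hdB v h3 h1
    · exact Finset.disjoint_left.2 fun v h1 h2 => (mem_sdiff.1 h2).2 h1
    · intro a ha b hb hab
      rw [mem_sdiff, mem_union] at hb
      rcases hb.1 with h3 | h3
      · exact h.2.2.2.2 b h3 a (hKB a ha) hab.symm
      · apply hb.2
        rw [hmem] at ha ⊢
        exact ha.trans (Adj.reachable ⟨hab, hdB a (hKB a ((hmem a).2 ha)), hdB b h3⟩)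
  obtain ⟨p, hp, htp⟩ := hG.exists_adj_of_sep hs ⟨u, (hmem u).2 (Reachable.refl _)⟩ h4 ht
  exact ⟨p, hKB p hp, (hmem p).1 hp, htp⟩

theorem nd4 {x y c d : α} (h : [x, y, c, d].Nodup) :
    x ≠ y ∧ x ≠ c ∧ x ≠ d ∧ y ≠ c ∧ y ≠ d ∧ c ≠ d := by
  simp only [List.nodup_cons, List.mem_cons, List.not_mem_nil, or_false, not_or, List.nodup_nil, and_true,
    not_false_eq_true] at h
  tauto

theorem nd6 {x y s₁ s₂ s₃ s₄ : α} (h : [x, y, s₁, s₂, s₃, s₄].Nodup) :
    (x ≠ y ∧ x ≠ s₁ ∧ x ≠ s₂ ∧ x ≠ s₃ ∧ x ≠ s₄) ∧ (y ≠ s₁ ∧ y ≠ s₂ ∧ y ≠ s₃ ∧ y ≠ s₄) ∧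
      (s₁ ≠ s₂ ∧ s₁ ≠ s₃ ∧ s₁ ≠ s₄) ∧ (s₂ ≠ s₃ ∧ s₂ ≠ s₄) ∧ s₃ ≠ s₄ := by
  simp only [List.nodup_cons, List.mem_cons, List.not_mem_nil, or_false, not_or, List.nodup_nil, and_true,
    not_false_eq_true] at h
  tauto

theorem card4_le {x y c d : α} : ({x, y, c, d} : Finset α).card ≤ 4 := by
  refine (card_insert_le _ _).trans ?_
  have := card_insert_le y ({c, d} : Finset α)
  have := card_le_two (a := c) (b := d)
  omega

/-- the situation -/
structure Sit (G : SimpleGraph α) (x y s₁ s₂ s₃ s₄ c d : α) (A B : Finset α) : Prop where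
  hK : K48 G
  hP : P34 G x y s₁ s₂ s₃ s₄
  nd : [x, y, c, d].Nodup
  sp : Sep G {x, y, c, d} A B
  h2 : s₂ ∈ A
  h3 : s₃ ∈ A
  h4 : s₄ ∈ B
  h1 : s₁ ∈ B

variable {x y s₁ s₂ s₃ s₄ c d : α} {A B : Finset α}

theorem Sit.notA (h : Sit G x y s₁ s₂ s₃ s₄ c d A B) {t : α} (ht : t ∈ ({x, y, c, d} : Finset α)) : t ∉ A :=
  fun hA => Finset.disjoint_left.1 h.sp.2.1 ht hA

theorem Sit.notB (h : Sit G x y s₁ s₂ s₃ s₄ c d A B) {t : α} (ht : t ∈ ({x, y, c, d} : Finset α)) : t ∉ B :=
  fun hA => Finset.disjoint_left.1 h.sp.2.2.1 ht hA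

theorem Sit.AB (h : Sit G x y s₁ s₂ s₃ s₄ c d A B) {t : α} (ht : t ∈ A) : t ∉ B :=
  fun hA => Finset.disjoint_left.1 h.sp.2.2.2.1 ht hA

/-- neighbours of a vertex of `A` other than `s₂`, `s₃` -/
theorem Sit.nbA (h : Sit G x y s₁ s₂ s₃ s₄ c d A B) {v w : α} (hv : v ∈ A) (h2 : v ≠ s₂) (h3 : v ≠ s₃)
    (hvw : G.Adj v w) : w ∈ A ∨ w = c ∨ w = d := by
  have hx : w ≠ x := by
    rintro rfl
    rcases (h.hP.nx v).1 hvw.symm with rfl | rfl | rfl | rfl
    · exact h.notA (by simp) hv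
    · exact h2 rfl
    · exact h3 rfl
    · exact h.AB hv h.h4
  have hy : w ≠ y := by
    rintro rfl
    rcases (h.hP.ny v).1 hvw.symm with rfl | rfl | rfl | rfl | rfl
    · exact h.notA (by simp) hv
    · exact h.AB hv h.h1
    · exact h2 rfl
    · exact h3 rfl
    · exact h.AB hv h.h4
  rcases h.sp.mem_or (right_mem_VS hvw) with h5 | h5 | h5
  · simp only [mem_insert, mem_singleton, hx, hy, false_or] at h5
    exact Or.inr h5
  · exact Or.inl h5
  · exact absurd hvw (h.sp.2.2.2.2 v hv w h5)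

/-- `B` is connected -/
theorem Sit.conB (h : Sit G x y s₁ s₂ s₃ s₄ c d A B) {u : α} (hu : u ∈ B) :
    (del G ({x, y, c, d} : Finset α)).Reachable u s₄ := by
  obtain ⟨k, hkB, hk, hxk⟩ := comp_nb h.hK.1 h.sp card4_le ⟨s₂, h.h2⟩ hu
    (t := x) (by simp)
  rcases (h.hP.nx k).1 hxk with rfl | rfl | rfl | rfl
  · exact absurd hkB (h.notB (by simp))
  · exact absurd hkB (h.AB h.h2)
  · exact absurd hkB (h.AB h.h3)
  · exact hk

theorem Sit.con41 (h : Sit G x y s₁ s₂ s₃ s₄ c d A B) :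
    (del G (({x, y, c, d} : Finset α) ∪ A)).Reachable s₄ s₁ :=
  reach_side h.sp h.h4 (h.conB h.h1).symm

/-- degree -/
theorem Sit.deg (h : Sit G x y s₁ s₂ s₃ s₄ c d A B) {v : α} {S : Finset α} (hv : v ∈ VS G)
    (hS : ∀ w, G.Adj v w → w ∈ S) (hc : S.card ≤ 4) : ∀ w ∈ S, G.Adj v w := by
  have h1 : nbs G v ⊆ S := fun w hw => hS w (mem_nbs.1 hw)
  have h2 := h.hK.1.le_nbs hv
  have h3 : nbs G v = S := eq_of_subset_of_card_le h1 (by omega)
  intro w hw
  rw [← h3] at hw
  exact mem_nbs.1 hw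

/-- in case 1: if `s₂`, `s₃` are not connected in `A` then `s₂ ~ c` -/
theorem Sit.adj_c (hNBF : SpecNBF) (h : Sit G x y s₁ s₂ s₃ s₄ c d A B)
    (hr : ¬ (del G ({x, y, c, d} : Finset α)).Reachable s₂ s₃) : G.Adj s₂ c := by
  classical
  set D : Finset α := univ.filter fun v => (del G ({x, y, c, d} : Finset α)).Reachable s₂ v ∧ v ≠ s₂ with hD
  have hmem : ∀ v, v ∈ D ↔ (del G ({x, y, c, d} : Finset α)).Reachable s₂ v ∧ v ≠ s₂ := fun v => by simp [hD]
  have hDA : ∀ v, (del G ({x, y, c, d} : Finset α)).Reachable s₂ v → v ∈ A := fun v hv =>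
    h.sp.mem_of_reachable h.h2 hv
  have hnd := nd6 h.hP.nd
  have hemp : ∀ v, v ∉ D := by
    intro v hv
    refine few hNBF h.hK.1 (D := D) (W := {s₂, c, d}) (r := s₄) (fun v hv => h.sp.subP (hDA v ((hmem v).1 hv).1))
      hv ?_ card_le_three (h.sp.subQ h.h4) (fun h4 => h.AB (hDA _ ((hmem _).1 h4).1) h.h4) ?_
    · intro a ha w haw
      obtain ⟨ha1, ha2⟩ := (hmem a).1 ha
      have haA := hDA a ha1
      have ha3 : a ≠ s₃ := by rintro rfl; exact hr ha1
      rcases h.nbA haA ha2 ha3 haw with h5 | h5 | h5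
      · by_cases hw : w = s₂
        · exact Or.inr (by simp [hw])
        · refine Or.inl ((hmem w).2 ⟨ha1.trans (Adj.reachable ⟨haw, fun h6 => h.notA h6 haA,
            fun h6 => h.notA h6 h5⟩), hw⟩)
      · exact Or.inr (by simp [h5])
      · exact Or.inr (by simp [h5])
    · simp only [mem_insert, mem_singleton, not_or]
      refine ⟨hnd.2.2.2.1.2.symm, ?_, ?_⟩
      · intro h5; exact h.notB (t := s₄) (by simp [h5]) h.h4
      · intro h5; exact h.notB (t := s₄) (by simp [h5]) h.h4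
  have hS : ∀ w, G.Adj s₂ w → w ∈ ({x, y, c, d} : Finset α) := by
    intro w hw
    by_contra hT
    rcases h.sp.mem_or (right_mem_VS hw) with h5 | h5 | h5
    · exact hT h5
    · exact hemp w ((hmem w).2 ⟨Adj.reachable ⟨hw, fun h6 => h.notA h6 h.h2, hT⟩, hw.ne'⟩)
    · exact h.sp.2.2.2.2 s₂ h.h2 w h5 hw
  exact h.deg (h.sp.subP h.h2) hS card4_le c (by simp)

theorem Sit.swap (h : Sit G x y s₁ s₂ s₃ s₄ c d A B) : Sit G x y s₁ s₃ s₂ s₄ c d A B := by
  refine ⟨h.hK, ⟨?_, fun w => ?_, fun w => ?_⟩, h.nd, h.sp, h.h3, h.h2, h.h4, h.h1⟩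
  · have := nd6 h.hP.nd
    simp only [List.nodup_cons, List.mem_cons, List.not_mem_nil, or_false, not_or, List.nodup_nil, and_true,
      not_false_eq_true]
    tauto
  · rw [h.hP.nx]; tauto
  · rw [h.hP.ny]; tauto

/-- case 1: a path from `s₂` to `s₃` in `A ∪ {c}` -/
theorem Sit.pth1 (hNBF : SpecNBF) (h : Sit G x y s₁ s₂ s₃ s₄ c d A B) :
    (del G (({x, y, d} : Finset α) ∪ B)).Reachable s₂ s₃ := by
  by_cases hr : (del G ({x, y, c, d} : Finset α)).Reachable s₂ s₃
  · refine reach_anti ?_ (reach_side h.sp.symm h.h2 hr)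
    intro v
    simp only [mem_union, mem_insert, mem_singleton]
    tauto
  · have h5 := h.adj_c hNBF hr
    have h6 := h.swap.adj_c hNBF fun h7 => hr h7.symm
    have hnd := nd4 h.nd
    have n2 : s₂ ∉ (({x, y, d} : Finset α) ∪ B) := by
      simp only [mem_union, mem_insert, mem_singleton, not_or]
      refine ⟨⟨?_, ?_, ?_⟩, h.AB h.h2⟩
      · intro h7; exact h.notA (t := s₂) (by simp [h7]) h.h2
      · intro h7; exact h.notA (t := s₂) (by simp [h7]) h.h2
      · intro h7; exact h.notA (t := s₂) (by simp [h7]) h.h2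
    have n3 : s₃ ∉ (({x, y, d} : Finset α) ∪ B) := by
      simp only [mem_union, mem_insert, mem_singleton, not_or]
      refine ⟨⟨?_, ?_, ?_⟩, h.AB h.h3⟩
      · intro h7; exact h.notA (t := s₃) (by simp [h7]) h.h3
      · intro h7; exact h.notA (t := s₃) (by simp [h7]) h.h3
      · intro h7; exact h.notA (t := s₃) (by simp [h7]) h.h3
    have nc : c ∉ (({x, y, d} : Finset α) ∪ B) := by
      simp only [mem_union, mem_insert, mem_singleton, not_or]
      exact ⟨⟨hnd.2.1.symm, hnd.2.2.2.1.symm, hnd.2.2.2.2.2⟩, h.notB (by simp)⟩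
    exact (Adj.reachable ⟨h5, n2, nc⟩ : (del G (({x, y, d} : Finset α) ∪ B)).Reachable s₂ c).trans
      (Adj.reachable ⟨h6.symm, nc, n3⟩)

/-- a cycle in `A ∪ {x, c, d}` does not separate `s₄` from `s₁` -/
theorem Sit.con41' (h : Sit G x y s₁ s₂ s₃ s₄ c d A B) {C : Finset (Sym2 α)}
    (hC : ∀ v ∈ vs C, v ∈ A ∨ v = x ∨ v = c ∨ v = d) : (del G (insert y (vs C))).Reachable s₄ s₁ := by
  refine reach_anti ?_ h.con41
  intro v hv
  rw [mem_insert] at hv
  simp only [mem_union, mem_insert, mem_singleton]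
  rcases hv with rfl | hv
  · tauto
  · rcases hC v hv with h1 | h1 | h1 | h1 <;> tauto

/-- case 1 -/
theorem Sit.case1 (hNBF : SpecNBF) (hE3D : SpecE3D) (hNCN : SpecNCN) (h : Sit G x y s₁ s₂ s₃ s₄ c d A B)
    (hy : ¬ NP (del G {y})) (hx : ∀ W, ¬ Gam G y x s₁ W) {Z : Chain α} (hZ : Gam G y s₄ s₁ Z) : False := by
  obtain ⟨P, hP⟩ := exists_isPth (h.pth1 hNBF)
  obtain ⟨hP1, hP2⟩ := isPth_del.1 hP
  have hnd := nd6 h.hP.nd
  have hxP : x ∉ vs P := fun h5 => Finset.disjoint_left.1 hP2 h5 (by simp)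
  have hx2 : G.Adj x s₂ := (h.hP.nx _).2 (by tauto)
  have hx3 : G.Adj x s₃ := (h.hP.nx _).2 (by tauto)
  have h5 : IsPth G x s₃ (insert s(x, s₂) P) := hP1.cons hx2 hxP
  have h6 : s(x, s₃) ∉ insert s(x, s₂) P := by
    rw [mem_insert, not_or]
    refine ⟨fun h7 => ?_, fun h7 => hxP (left_mem_vs h7)⟩
    rw [Sym2.eq_iff] at h7
    rcases h7 with ⟨_, h7⟩ | ⟨h7, _⟩
    · exact hnd.2.2.2.1.1 h7.symm
    · exact hnd.1.2.2.1 h7
  have hC := h5.isCyc hx3 h6
  set C := insert s(x, s₃) (insert s(x, s₂) P) with hCdef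
  have hvs : ∀ v ∈ vs C, v = x ∨ v = s₂ ∨ v = s₃ ∨ v ∈ vs P := by
    intro v hv
    rw [hCdef, vs_insert, vs_insert] at hv
    simp only [mem_union, mem_insert, mem_singleton] at hv
    tauto
  have hvsP : ∀ v ∈ vs P, v ∈ A ∨ v = c := by
    intro v hv
    have h7 : v ∉ (({x, y, d} : Finset α) ∪ B) := fun h8 => Finset.disjoint_left.1 hP2 hv h8
    simp only [mem_union, mem_insert, mem_singleton, not_or] at h7
    rcases h.sp.mem_or (hP1.vs_subset hv) with h8 | h8 | h8
    · simp only [mem_insert, mem_singleton] at h8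
      tauto
    · exact Or.inl h8
    · exact absurd h8 h7.2
  have hCA : ∀ v ∈ vs C, v ∈ A ∨ v = x ∨ v = c ∨ v = d := by
    intro v hv
    rcases hvs v hv with rfl | rfl | rfl | h7
    · tauto
    · exact Or.inl h.h2
    · exact Or.inl h.h3
    · rcases hvsP v h7 with h8 | h8 <;> tauto
  have hTn : ∀ v, v ∈ B ∨ v = y → v ∉ vs C := by
    intro v hv h7
    rcases hCA v h7 with h8 | rfl | rfl | rfl
    · rcases hv with hv | rfl
      · exact h.AB h8 hv
      · exact h.notA (by simp) h8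
    · rcases hv with hv | h9
      · exact h.notB (by simp) hv
      · exact hnd.1.1 h9
    · rcases hv with hv | h9
      · exact h.notB (by simp) hv
      · exact (nd4 h.nd).2.2.2.1 h9.symm
    · rcases hv with hv | h9
      · exact h.notB (by simp) hv
      · exact (nd4 h.nd).2.2.2.2.1 h9.symm
  have hCd : IsCyc (del G {y, s₄, s₁}) C := by
    refine isCyc_del.2 ⟨hC, Finset.disjoint_left.2 fun v hv h7 => ?_⟩
    simp only [mem_insert, mem_singleton] at h7
    rcases h7 with rfl | rfl | rfl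
    · exact hTn _ (Or.inr rfl) hv
    · exact hTn _ (Or.inl h.h4) hv
    · exact hTn _ (Or.inl h.h1) hv
  have hZC : chi C ∈ Z1 (del G {y, s₄, s₁}) := hCd.chi_mem
  have h8 := hE3D.all h.hK h.hP hy hx hZ hZC (chi_of_mem (by simp [hCdef]))
  exact hNCN.sep hy hC h8 (h.con41' hCA)

/-- `G - {y, x, s₁, s₂, s₃}` is connected -/
theorem Sit.con5 (hNBF : SpecNBF) (h : Sit G x y s₁ s₂ s₃ s₄ c d A B) :
    ConnOff (del G {y, x, s₁}) {s₂, s₃} := by
  classical
  rw [ConnOff]
  have hnd := nd6 h.hP.nd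
  have key : ∀ u ∈ VS G, u ∉ ({y, x, s₁} ∪ {s₂, s₃} : Finset α) →
      (del G ({y, x, s₁} ∪ {s₂, s₃} : Finset α)).Reachable u s₄ := by
    intro u hu hu'
    by_contra hr
    set D : Finset α := univ.filter fun v => (del G ({y, x, s₁} ∪ {s₂, s₃} : Finset α)).Reachable u v with hD
    have hmem : ∀ v, v ∈ D ↔ (del G ({y, x, s₁} ∪ {s₂, s₃} : Finset α)).Reachable u v := fun v => by simp [hD]
    have hDn : ∀ v ∈ D, v ∉ ({y, x, s₁} ∪ {s₂, s₃} : Finset α) := fun v hv =>
      reachable_del_notMem_right ((hmem v).1 hv) hu'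
    have hDV : ∀ v ∈ D, v ∈ VS G := by
      intro v hv
      by_cases huv : v = u
      · exact huv ▸ hu
      · obtain ⟨w, hw⟩ := exists_adj_of_reachable ((hmem v).1 hv).symm huv
        exact left_mem_VS hw.1
    have hx : x ∈ VS G := left_mem_VS ((h.hP.nx y).2 (Or.inl rfl))
    refine few hNBF h.hK.1 (D := D) (W := {s₁, s₂, s₃}) (r := x) hDV ((hmem u).2 (Reachable.refl _))
      ?_ card_le_three hx (fun h5 => hDn x h5 (by simp)) ?_
    · intro a ha w haw
      have haD := hDn a ha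
      simp only [mem_union, mem_insert, mem_singleton, not_or] at haD
      have ha4 : a ≠ s₄ := by rintro rfl; exact hr ((hmem _).1 ha)
      by_cases hw : w ∈ ({y, x, s₁} ∪ {s₂, s₃} : Finset α)
      · simp only [mem_union, mem_insert, mem_singleton] at hw
        right
        rcases hw with (rfl | rfl | rfl) | rfl | rfl
        · rcases (h.hP.ny a).1 haw.symm with h5 | h5 | h5 | h5 | h5
          · exact absurd h5 haD.1.2.1
          · exact absurd h5 haD.1.2.2
          · exact absurd h5 haD.2.1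
          · exact absurd h5 haD.2.2
          · exact absurd h5 ha4
        · rcases (h.hP.nx a).1 haw.symm with h5 | h5 | h5 | h5
          · exact absurd h5 haD.1.1
          · exact absurd h5 haD.2.1
          · exact absurd h5 haD.2.2
          · exact absurd h5 ha4
        · simp
        · simp
        · simp
      · exact Or.inl ((hmem w).2 (((hmem a).1 ha).trans (Adj.reachable ⟨haw, hDn a ha, hw⟩)))
    · simp only [mem_insert, mem_singleton, not_or]
      exact ⟨hnd.1.2.1, hnd.1.2.2.1, hnd.1.2.2.2.1⟩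
  intro a ha b hb ha' hb'
  have ha2 := VS_del_subset _ ha
  have hb2 := VS_del_subset _ hb
  rw [mem_sdiff] at ha2 hb2
  rw [del_del]
  refine (key a ha2.1 ?_).trans (key b hb2.1 ?_).symm
  · rw [mem_union, not_or]; exact ⟨ha2.2, ha'⟩
  · rw [mem_union, not_or]; exact ⟨hb2.2, hb'⟩

/-- the vertices connected to `s₂` in `A ∪ {c, d}` without the edge `s₂ s₃` -/
def RR (G : SimpleGraph α) (x y s₂ s₃ : α) (B : Finset α) (u v : α) : Prop :=
  (delE (del G (({x, y} : Finset α) ∪ B)) s₂ s₃).Reachable u v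

/-- case 2: no cycle through `s₂s₃`: `s₂` is the only vertex of its side in `A` -/
theorem Sit.only (hNBF : SpecNBF) (h : Sit G x y s₁ s₂ s₃ s₄ c d A B)
    (hr : ¬ RR G x y s₂ s₃ B s₂ s₃) {v : α} (hv : v ∈ A) (hv2 : RR G x y s₂ s₃ B s₂ v) : v = s₂ := by
  classical
  by_contra hne
  have hnd := nd6 h.hP.nd
  set D : Finset α := univ.filter fun v => v ∈ A ∧ RR G x y s₂ s₃ B s₂ v ∧ v ≠ s₂ with hD
  have hmem : ∀ v, v ∈ D ↔ v ∈ A ∧ RR G x y s₂ s₃ B s₂ v ∧ v ≠ s₂ := fun v => by simp [hD]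
  refine few hNBF h.hK.1 (D := D) (W := {s₂, c, d}) (r := s₄) (fun v hv => h.sp.subP ((hmem v).1 hv).1)
    ((hmem v).2 ⟨hv, hv2, hne⟩) ?_ card_le_three (h.sp.subQ h.h4) (fun h4 => h.AB ((hmem _).1 h4).1 h.h4) ?_
  · intro a ha w haw
    obtain ⟨haA, ha1, ha2⟩ := (hmem a).1 ha
    have ha3 : a ≠ s₃ := by rintro rfl; exact hr ha1
    rcases h.nbA haA ha2 ha3 haw with h5 | h5 | h5
    · by_cases hw : w = s₂
      · exact Or.inr (by simp [hw])
      · refine Or.inl ((hmem w).2 ⟨h5, Reachable.trans ha1 (Adj.reachable ?_), hw⟩)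
        rw [delE_adj]
        refine ⟨⟨haw, ?_, ?_⟩, ?_⟩
        · simp only [mem_union, mem_insert, mem_singleton, not_or]
          exact ⟨⟨fun h6 => h.notA (t := a) (by simp [h6]) haA, fun h6 => h.notA (t := a) (by simp [h6]) haA⟩,
            h.AB haA⟩
        · simp only [mem_union, mem_insert, mem_singleton, not_or]
          exact ⟨⟨fun h6 => h.notA (t := w) (by simp [h6]) h5, fun h6 => h.notA (t := w) (by simp [h6]) h5⟩,
            h.AB h5⟩
        · intro he
          rw [Sym2.eq_iff] at he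
          rcases he with ⟨h6, _⟩ | ⟨h6, _⟩
          · exact ha2 h6
          · exact ha3 h6
    · exact Or.inr (by simp [h5])
    · exact Or.inr (by simp [h5])
  · simp only [mem_insert, mem_singleton, not_or]
    refine ⟨hnd.2.2.2.1.2.symm, ?_, ?_⟩
    · intro h5; exact h.notB (t := s₄) (by simp [h5]) h.h4
    · intro h5; exact h.notB (t := s₄) (by simp [h5]) h.h4

/-- edges of `RR` -/
theorem Sit.rr_adj (h : Sit G x y s₁ s₂ s₃ s₄ c d A B) {u v : α} (hu : u ∈ A ∨ u = c ∨ u = d)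
    (hv : v ∈ A ∨ v = c ∨ v = d) (huv : G.Adj u v) (hne : s(u, v) ≠ s(s₂, s₃)) :
    (delE (del G (({x, y} : Finset α) ∪ B)) s₂ s₃).Adj u v := by
  have hnd := nd4 h.nd
  have key : ∀ u, (u ∈ A ∨ u = c ∨ u = d) → u ∉ (({x, y} : Finset α) ∪ B) := by
    intro u hu
    simp only [mem_union, mem_insert, mem_singleton, not_or]
    rcases hu with hu | rfl | rfl
    · exact ⟨⟨fun h6 => h.notA (t := u) (by simp [h6]) hu, fun h6 => h.notA (t := u) (by simp [h6]) hu⟩,
        h.AB hu⟩
    · exact ⟨⟨hnd.2.1.symm, hnd.2.2.2.1.symm⟩, h.notB (by simp)⟩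
    · exact ⟨⟨hnd.2.2.1.symm, hnd.2.2.2.2.1.symm⟩, h.notB (by simp)⟩
  exact delE_adj.2 ⟨⟨huv, key u hu, key v hv⟩, hne⟩

theorem rr_swap {u v : α} : RR G x y s₂ s₃ B u v ↔ RR G x y s₃ s₂ B u v := by
  rw [RR, RR, delE_comm]

/-- case 2: `A = {s₂, s₃}` -/
theorem Sit.A_eq (hNBF : SpecNBF) (h : Sit G x y s₁ s₂ s₃ s₄ c d A B)
    (hr : ¬ RR G x y s₂ s₃ B s₂ s₃) {v : α} (hv : v ∈ A) : v = s₂ ∨ v = s₃ := by
  classical
  by_contra hne
  rw [not_or] at hne
  have hnd := nd6 h.hP.nd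
  have hr' : ¬ RR G x y s₃ s₂ B s₃ s₂ := fun h5 => hr (rr_swap.2 (Reachable.symm h5))
  -- the component of `v` in `A - s₂ - s₃`
  set S : Finset α := ({x, y, c, d} : Finset α) ∪ {s₂, s₃} with hS
  set D : Finset α := univ.filter fun w => (del G S).Reachable v w with hD
  have hmem : ∀ w, w ∈ D ↔ (del G S).Reachable v w := fun w => by simp [hD]
  have hvS : v ∉ S := by
    rw [hS, mem_union, not_or]
    exact ⟨fun h5 => h.notA h5 hv, by simp [hne.1, hne.2]⟩
  have hDA : ∀ w ∈ D, w ∈ A := fun w hw =>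
    h.sp.mem_of_reachable hv (reach_anti subset_union_left ((hmem w).1 hw))
  have hDS : ∀ w ∈ D, w ∉ S := fun w hw => reachable_del_notMem_right ((hmem w).1 hw) hvS
  have key : ∃ k ∈ D, G.Adj k s₂ := by
    by_contra hno
    refine few hNBF h.hK.1 (D := D) (W := {s₃, c, d}) (r := s₄) (fun w hw => h.sp.subP (hDA w hw))
      ((hmem v).2 (Reachable.refl _)) ?_ card_le_three (h.sp.subQ h.h4) (fun h4 => h.AB (hDA _ h4) h.h4) ?_
    · intro a ha w haw
      have haS := hDS a ha
      rw [hS, mem_union, not_or] at haS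
      simp only [mem_insert, mem_singleton, not_or] at haS
      rcases h.nbA (hDA a ha) haS.2.1 haS.2.2 haw with h5 | h5 | h5
      · by_cases hw2 : w = s₂
        · exact absurd ⟨a, ha, hw2 ▸ haw⟩ hno
        by_cases hw3 : w = s₃
        · exact Or.inr (by simp [hw3])
        refine Or.inl ((hmem w).2 (((hmem a).1 ha).trans (Adj.reachable ⟨haw, hDS a ha, ?_⟩)))
        rw [hS, mem_union, not_or]
        exact ⟨fun h6 => h.notA h6 h5, by simp [hw2, hw3]⟩
      · exact Or.inr (by simp [h5])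
      · exact Or.inr (by simp [h5])
    · simp only [mem_insert, mem_singleton, not_or]
      refine ⟨hnd.2.2.2.2.symm, ?_, ?_⟩
      · intro h5; exact h.notB (t := s₄) (by simp [h5]) h.h4
      · intro h5; exact h.notB (t := s₄) (by simp [h5]) h.h4
  obtain ⟨k, hk, hks⟩ := key
  have hkS := hDS k hk
  rw [hS, mem_union, not_or] at hkS
  simp only [mem_insert, mem_singleton, not_or] at hkS
  refine hkS.2.1 (h.only hNBF hr (hDA k hk) (Adj.reachable ?_))
  refine h.rr_adj (Or.inl h.h2) (Or.inl (hDA k hk)) hks.symm ?_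
  intro he
  rw [Sym2.eq_iff] at he
  rcases he with ⟨_, h6⟩ | ⟨h6, _⟩
  · exact hkS.2.2 h6
  · exact hnd.2.2.2.1.1 h6

/-- case 2: the excluded (3,3)-pair -/
theorem Sit.no33 (h33 : No33 G) (h : Sit G x y s₁ s₂ s₃ s₄ c d A B) {e : α}
    (he : e = c ∨ e = d) (hN : ∀ w, G.Adj s₂ w → w = x ∨ w = y ∨ w = s₃ ∨ w = e) : False := by
  have hnd := nd6 h.hP.nd
  have hnd4 := nd4 h.nd
  have hcard : ({x, y, s₃, e} : Finset α).card ≤ 4 := card4_le
  have hN' := h.deg (h.sp.subP h.h2) (S := {x, y, s₃, e}) (fun w hw => by simpa using hN w hw) hcard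
  have heT : e ∈ ({x, y, c, d} : Finset α) := by rcases he with rfl | rfl <;> simp
  have hex : e ≠ x := by rcases he with rfl | rfl; exacts [hnd4.2.1.symm, hnd4.2.2.1.symm]
  have hey : e ≠ y := by rcases he with rfl | rfl; exacts [hnd4.2.2.2.1.symm, hnd4.2.2.2.2.1.symm]
  have he2 : e ≠ s₂ := by rintro rfl; exact h.notA heT h.h2
  have he3 : e ≠ s₃ := by rintro rfl; exact h.notA heT h.h3
  have he4 : e ≠ s₄ := by rintro rfl; exact h.notB heT h.h4
  refine h33 x s₂ e s₄ y s₃ ⟨?_, fun w => ?_, fun w => ?_⟩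
  · simp only [List.nodup_cons, List.mem_cons, List.not_mem_nil, or_false, not_or, List.nodup_nil, and_true,
      not_false_eq_true]
    exact ⟨⟨hnd.1.2.2.1, hex.symm, hnd.1.2.2.2.2, hnd.1.1, hnd.1.2.2.2.1⟩,
      ⟨he2.symm, hnd.2.2.2.1.2, hnd.2.1.2.1.symm, hnd.2.2.2.1.1⟩, ⟨he4, hey, he3⟩,
      ⟨hnd.2.1.2.2.2.symm, hnd.2.2.2.2.symm⟩, hnd.2.1.2.2.1⟩
  · rw [h.hP.nx]; tauto
  · constructor
    · intro hw
      have := hN w hw
      tauto
    · intro hw
      exact hN' w (by simp; tauto)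

/-- case 2: a cycle through `s₂s₃` in `A ∪ {c, d}` -/
theorem Sit.cyc2 (hNBF : SpecNBF) (h33 : No33 G) (h : Sit G x y s₁ s₂ s₃ s₄ c d A B) (h23 : G.Adj s₂ s₃) :
    ∃ C, IsCyc G C ∧ s(s₂, s₃) ∈ C ∧ ∀ v ∈ vs C, v ∈ A ∨ v = c ∨ v = d := by
  have hnd := nd6 h.hP.nd
  by_cases hr : RR G x y s₂ s₃ B s₂ s₃
  · obtain ⟨P, hP⟩ := exists_isPth hr
    rw [isPth_delE, isPth_del] at hP
    refine ⟨insert s(s₂, s₃) P, hP.1.1.isCyc h23 hP.2, by simp, fun v hv => ?_⟩
    rw [vs_insert] at hv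
    simp only [mem_union, mem_insert, mem_singleton] at hv
    rcases hv with (rfl | rfl) | hv
    · exact Or.inl h.h2
    · exact Or.inl h.h3
    · have h7 : v ∉ (({x, y} : Finset α) ∪ B) := fun h8 => Finset.disjoint_left.1 hP.1.2 hv h8
      simp only [mem_union, mem_insert, mem_singleton, not_or] at h7
      rcases h.sp.mem_or (hP.1.1.vs_subset hv) with h8 | h8 | h8
      · simp only [mem_insert, mem_singleton] at h8
        tauto
      · exact Or.inl h8
      · exact absurd h8 h7.2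
  · exfalso
    have hA : ∀ v ∈ A, v = s₂ ∨ v = s₃ := fun v hv => h.A_eq hNBF hr hv
    have hN2 : ∀ w, G.Adj s₂ w → w = x ∨ w = y ∨ w = s₃ ∨ w = c ∨ w = d := by
      intro w hw
      rcases h.sp.mem_or (right_mem_VS hw) with h5 | h5 | h5
      · simp only [mem_insert, mem_singleton] at h5; tauto
      · rcases hA w h5 with h6 | h6
        · exact absurd h6 hw.ne'
        · tauto
      · exact absurd hw (h.sp.2.2.2.2 s₂ h.h2 w h5)
    have hN3 : ∀ w, G.Adj s₃ w → w = x ∨ w = y ∨ w = s₂ ∨ w = c ∨ w = d := by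
      intro w hw
      rcases h.sp.mem_or (right_mem_VS hw) with h5 | h5 | h5
      · simp only [mem_insert, mem_singleton] at h5; tauto
      · rcases hA w h5 with h6 | h6
        · tauto
        · exact absurd h6 hw.ne'
      · exact absurd hw (h.sp.2.2.2.2 s₃ h.h3 w h5)
    -- no common neighbour `c` or `d`
    have hcom : ∀ e, e = c ∨ e = d → G.Adj s₂ e → ¬ G.Adj s₃ e := by
      intro e he h2 h3
      have heT : e ∈ ({x, y, c, d} : Finset α) := by rcases he with rfl | rfl <;> simp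
      have he2 : e ≠ s₂ := by rintro rfl; exact h.notA heT h.h2
      have he3 : e ≠ s₃ := by rintro rfl; exact h.notA heT h.h3
      refine hr (Reachable.trans (Adj.reachable (h.rr_adj (Or.inl h.h2) (Or.inr he) h2 ?_))
        (Adj.reachable (h.rr_adj (Or.inr he) (Or.inl h.h3) h3.symm ?_)))
      · intro h5
        rw [Sym2.eq_iff] at h5
        rcases h5 with ⟨_, h5⟩ | ⟨h5, _⟩
        · exact he3 h5
        · exact hnd.2.2.2.1.1 h5
      · intro h5
        rw [Sym2.eq_iff] at h5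
        rcases h5 with ⟨h5, _⟩ | ⟨h5, _⟩
        · exact he2 h5
        · exact he3 h5
    by_cases hc : G.Adj s₂ c
    · by_cases hd : G.Adj s₂ d
      · -- then `s₃` has at most three neighbours
        have hc3 := hcom c (Or.inl rfl) hc
        have hd3 := hcom d (Or.inr rfl) hd
        have h5 : nbs G s₃ ⊆ {x, y, s₂} := by
          intro w hw
          have hw' := mem_nbs.1 hw
          simp only [mem_insert, mem_singleton]
          rcases hN3 w hw' with h6 | h6 | h6 | h6 | h6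
          · tauto
          · tauto
          · tauto
          · exact absurd (h6 ▸ hw') hc3
          · exact absurd (h6 ▸ hw') hd3
        have h6 := h.hK.1.le_nbs (h.sp.subP h.h3)
        have h7 := card_le_card h5
        have h8 := card_le_three (a := x) (b := y) (c := s₂)
        omega
      · refine h.no33 h33 (Or.inl rfl) fun w hw => ?_
        rcases hN2 w hw with h6 | h6 | h6 | h6 | h6
        · tauto
        · tauto
        · tauto
        · tauto
        · exact absurd (h6 ▸ hw) hd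
    · refine h.no33 h33 (Or.inr rfl) fun w hw => ?_
      rcases hN2 w hw with h6 | h6 | h6 | h6 | h6
      · tauto
      · tauto
      · tauto
      · exact absurd (h6 ▸ hw) hc
      · tauto

/-- case 2 -/
theorem Sit.case2 (hNBF : SpecNBF) (hSTA : SpecSTA) (hNCX : SpecNCX) (hNCN : SpecNCN)
    (h33 : No33 G) (h : Sit G x y s₁ s₂ s₃ s₄ c d A B) (hy : ¬ NP (del G {y}))
    (n2 : ∀ Z, ¬ Gam G y s₂ s₁ Z) (n3 : ∀ Z, ¬ Gam G y s₃ s₁ Z) {Z₀ : Chain α}
    (hZ : Gam G y x s₁ Z₀) : False := by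
  have hnd := nd6 h.hP.nd
  have hyx : G.Adj y x := hZ.1
  have hy1 : G.Adj y s₁ := hZ.2.1
  have hy2 : G.Adj y s₂ := (h.hP.ny _).2 (by tauto)
  have hy3 : G.Adj y s₃ := (h.hP.ny _).2 (by tauto)
  have hx2 : G.Adj x s₂ := (h.hP.nx _).2 (by tauto)
  have hx3 : G.Adj x s₃ := (h.hP.nx _).2 (by tauto)
  have hx4 : G.Adj x s₄ := (h.hP.nx _).2 (by tauto)
  obtain ⟨a, ha⟩ := hNCX.func h.hK.1 hy hyx hy1 hnd.1.2.1
  have van : ∀ v, G.Adj y v → G.Adj x v → v ≠ s₁ → (∀ Z, ¬ Gam G y v s₁ Z) →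
      ∀ Z ∈ Z1 (del (del G {y, x, s₁}) {v}), ∑ e, a e * Z e = 0 := by
    intro v hyv hxv hv1 hn Z hZv
    by_contra hne
    rw [del_del] at hZv
    have hZ1 : Z ∈ Z1 (del G {y, x, s₁}) := by
      rw [mem_Z1] at hZv ⊢
      refine ⟨fun e he => ?_, hZv.2⟩
      have := hZv.1 e he
      induction e using Sym2.ind with
      | _ p q =>
        rw [mem_edgeSet, del_adj, mem_union, mem_union, not_or, not_or] at this
        exact ⟨this.1, this.2.1.1, this.2.2.1⟩
    have hg := (ha Z hZ1).2 hne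
    have h5 : ({y, x, s₁} ∪ {v} : Finset α) = {y, x, s₁, v} := by
      ext w; simp only [mem_union, mem_insert, mem_singleton]; tauto
    rw [h5] at hZv
    rcases hNCX.tri h.hK.1 hg hyv hxv.ne' hv1 hZv with h6 | h6
    · exact hNCN.nadj hy h6 hxv
    · exact hn Z (hNCX.symm h6)
  obtain ⟨k, hk1, hk2⟩ := hSTA (del G {y, x, s₁}) s₂ s₃ hnd.2.2.2.1.1 (h.con5 hNBF) a
    (van s₂ hy2 hx2 hnd.2.2.1.1.symm n2) (van s₃ hy3 hx3 hnd.2.2.1.2.1.symm n3)
  have hk0 : k ≠ 0 := by
    rintro rfl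
    have h5 := (ha Z₀ hZ.2.2.2.1).1 hZ
    exact h5 (by rw [pr, hk2 Z₀ hZ.2.2.2.1, zero_mul])
  have h23 : G.Adj s₂ s₃ := (hk1 hk0).1
  obtain ⟨C, hC1, hC2, hC3⟩ := h.cyc2 hNBF h33 h23
  have hnC : ∀ v, v ∈ B ∨ v = y ∨ v = x → v ∉ vs C := by
    intro v hv h7
    have hnd4 := nd4 h.nd
    rcases hC3 v h7 with h8 | rfl | rfl
    · rcases hv with hv | rfl | rfl
      · exact h.AB h8 hv
      · exact h.notA (by simp) h8
      · exact h.notA (by simp) h8
    · rcases hv with hv | h9 | h9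
      · exact h.notB (by simp) hv
      · exact hnd4.2.2.2.1 h9.symm
      · exact hnd4.2.1 h9.symm
    · rcases hv with hv | h9 | h9
      · exact h.notB (by simp) hv
      · exact hnd4.2.2.2.2.1 h9.symm
      · exact hnd4.2.2.1 h9.symm
  have hCd : IsCyc (del G {y, x, s₁}) C := by
    refine isCyc_del.2 ⟨hC1, Finset.disjoint_left.2 fun v hv h7 => ?_⟩
    simp only [mem_insert, mem_singleton] at h7
    rcases h7 with rfl | rfl | rfl
    · exact hnC _ (Or.inr (Or.inl rfl)) hv
    · exact hnC _ (Or.inr (Or.inr rfl)) hv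
    · exact hnC _ (Or.inl h.h1) hv
  have hg : Gam G y x s₁ (chi C) := by
    refine (ha _ hCd.chi_mem).2 ?_
    rw [pr, hk2 _ hCd.chi_mem, chi_of_mem hC2, mul_one]
    exact hk0
  refine hNCN.sep hy hC1 hg (Reachable.trans (Adj.reachable (v := s₄) ⟨hx4, ?_, ?_⟩) (h.con41' ?_))
  · rw [mem_insert, not_or]
    exact ⟨hnd.1.1, hnC _ (by tauto)⟩
  · rw [mem_insert, not_or]
    exact ⟨hnd.2.1.2.2.2.symm, hnC _ (Or.inl h.h4)⟩
  · intro v hv
    rcases hC3 v hv with h8 | h8 | h8 <;> tauto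

end E3FM

open E3FM

theorem specE3F (hE3G : SpecE3G) (hE3D : SpecE3D) (hNCX : SpecNCX) (hNCN : SpecNCN) (hSTA : SpecSTA)
    (hNBF : SpecNBF) : SpecE3F := by
  intro α _ _ G x y s₁ s₂ s₃ s₄ hK h33 hP hy hs
  by_contra hcon
  rw [not_or] at hcon
  have n2 : ∀ Z, ¬ Gam G y s₂ s₁ Z := fun Z hZ => hcon.1 ⟨Z, hZ⟩
  have n3 : ∀ Z, ¬ Gam G y s₃ s₁ Z := fun Z hZ => hcon.2 ⟨Z, hZ⟩
  obtain ⟨c, d, A, B, h1, h2, h3, h4, h5, h6⟩ := hs
  have h : Sit G x y s₁ s₂ s₃ s₄ c d A B := ⟨hK, hP, h1, h2, h3, h4, h5, h6⟩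
  by_cases hx : ∃ W, Gam G y x s₁ W
  · obtain ⟨W, hW⟩ := hx
    exact h.case2 hNBF hSTA hNCX hNCN h33 hy n2 n3 hW
  · rcases hE3G hK hP hy with ⟨Z, hZ⟩ | ⟨Z, hZ⟩ | ⟨Z, hZ⟩
    · exact n2 Z hZ
    · exact n3 Z hZ
    · exact h.case1 hNBF hE3D hNCN hy (fun W hW => hx ⟨W, hW⟩) hZ

end DL
end

section
/-!
# Module EDB: two vertices adjacent to the same four vertices, `Gam` at one of them
-/
open SimpleGraph Finset

namespace DL

namespace EDBM

variable {α : Type} [Fintype α] [DecidableEq α] {G : SimpleGraph α} {x y : α} {s : Fin 4 → α}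

/-- the neighbours of `y` in `G - {x, s 2, s 3}` -/
theorem adj_y (h : DP G x y s) {w : α} (hw : (del G {x, s 2, s 3}).Adj y w) : w = s 0 ∨ w = s 1 := by
  obtain ⟨h1, _, h3⟩ := hw
  simp only [mem_insert, mem_singleton, not_or] at h3
  rcases h.ny w h1 with e | ⟨i, e⟩
  · exact absurd e h3.1
  · fin_cases i
    · exact Or.inl e
    · exact Or.inr e
    · exact absurd e h3.2.1
    · exact absurd e h3.2.2

theorem bdy_y (h : DP G x y s) {Z : Chain α} (hZ : Z ∈ Z1 (del G {x, s 2, s 3})) :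
    Z s(y, s 0) + Z s(y, s 1) = 0 := by
  have h1 := (mem_Z1.1 hZ).2 y
  rw [bdy_eq] at h1
  have hne : s(y, s 0) ≠ s(y, s 1) := by
    intro e
    rw [Sym2.eq_iff] at e
    rcases e with ⟨_, e⟩ | ⟨e, e'⟩
    · exact absurd (h.inj e) (by decide)
    · exact (h.sx 1).2 e.symm
  rw [← sum_pair hne, ← h1]
  apply sum_subset
  · intro e he
    rw [mem_insert, mem_singleton] at he
    rw [mem_filter]
    refine ⟨mem_univ _, ?_⟩
    rcases he with rfl | rfl
    · exact Sym2.mem_mk_left _ _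
    · exact Sym2.mem_mk_left _ _
  · intro e he hne'
    rw [mem_filter] at he
    by_contra hz
    obtain ⟨w, rfl⟩ := Sym2.mem_iff_exists.1 he.2
    have h2 : (del G {x, s 2, s 3}).Adj y w := (mem_Z1.1 hZ).1 _ hz
    apply hne'
    rw [mem_insert, mem_singleton]
    rcases adj_y h h2 with rfl | rfl
    · exact Or.inl rfl
    · exact Or.inr rfl

theorem mem_Z1_del (h : DP G x y s) {Z : Chain α} (hZ : Z ∈ Z1 (del G {x, s 2, s 3}))
    (h0 : Z s(y, s 0) = 0) : Z ∈ Z1 (del G {x, y, s 2, s 3}) := by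
  have h1 : Z s(y, s 1) = 0 := by
    have := bdy_y h hZ
    rwa [h0, zero_add] at this
  have hy : ∀ w, Z s(y, w) = 0 := by
    intro w
    by_contra hz
    have h2 : (del G {x, s 2, s 3}).Adj y w := (mem_Z1.1 hZ).1 _ hz
    rcases adj_y h h2 with rfl | rfl
    · exact hz h0
    · exact hz h1
  refine mem_Z1.2 ⟨fun e he => ?_, (mem_Z1.1 hZ).2⟩
  have h3 := (mem_Z1.1 hZ).1 e he
  induction e using Sym2.ind with
  | _ a b =>
    have h4 : (del G {x, s 2, s 3}).Adj a b := h3
    obtain ⟨h5, h6, h7⟩ := h4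
    simp only [mem_insert, mem_singleton, not_or] at h6 h7
    have ha : a ≠ y := fun e => he (by rw [e]; exact hy b)
    have hb : b ≠ y := fun e => he (by rw [e, Sym2.eq_swap]; exact hy a)
    refine ⟨h5, ?_, ?_⟩
    · simp only [mem_insert, mem_singleton, not_or]
      exact ⟨h6.1, ha, h6.2⟩
    · simp only [mem_insert, mem_singleton, not_or]
      exact ⟨h7.1, hb, h7.2⟩

/-- the path `s₂ y s₃` -/
theorem not_gam (hNCX : SpecNCX) (h : DP G x y s) (hnp : ¬ NP (del G {x})) {W : Chain α}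
    (hW : W ∈ Z1 (del G {x, y, s 2, s 3})) : ¬ Gam G x (s 2) (s 3) W := by
  intro hg
  have := hNCX.sepc (Q := univ \ {x, y, s 2, s 3}) hnp hg ?_ (by simp) (by simp)
  · apply this
    have hy2 : G.Adj y (s 2) := h.ay 2
    have hy3 : G.Adj y (s 3) := h.ay 3
    have hyx : y ≠ x := h.xy.symm
    have n : ∀ w, (w = y ∨ w = s 2 ∨ w = s 3) → w ∉ insert x (univ \ {x, y, s 2, s 3}) := by
      intro w hw
      simp only [mem_insert, mem_sdiff, mem_univ, true_and, mem_singleton, not_or, not_and, not_not]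
      rcases hw with rfl | rfl | rfl
      · exact ⟨hyx, by tauto⟩
      · exact ⟨(h.sx 2).1, by tauto⟩
      · exact ⟨(h.sx 3).1, by tauto⟩
    have e1 : (del G (insert x (univ \ {x, y, s 2, s 3}))).Adj (s 2) y :=
      ⟨hy2.symm, n _ (Or.inr (Or.inl rfl)), n _ (Or.inl rfl)⟩
    have e2 : (del G (insert x (univ \ {x, y, s 2, s 3}))).Adj y (s 3) :=
      ⟨hy3, n _ (Or.inl rfl), n _ (Or.inr (Or.inr rfl))⟩
    exact e1.reachable.trans e2.reachable
  · intro e v he hv
    have h3 := (mem_Z1.1 hW).1 e he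
    rw [mem_sdiff]
    refine ⟨mem_univ _, ?_⟩
    induction e using Sym2.ind with
    | _ a b =>
      have h4 : (del G {x, y, s 2, s 3}).Adj a b := h3
      rw [Sym2.mem_iff] at hv
      rcases hv with rfl | rfl
      · exact h4.2.1
      · exact h4.2.2

theorem all (hNCX : SpecNCX) (hNCN : SpecNCN) {Z Z' : Chain α} (hG : K48 G) (h : DP G x y s)
    (hnp : ¬ NP (del G {x})) (hg : Gam G x (s 2) (s 3) Z) (hZ' : Z' ∈ Z1 (del G {x, s 2, s 3}))
    (h1 : Z' s(y, s 0) = 1) : Gam G x (s 2) (s 3) Z' := by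
  have hZ : Z ∈ Z1 (del G {x, s 2, s 3}) := hg.2.2.2.1
  have h2 : Z s(y, s 0) = 1 := by
    rcases zmod2_cases (Z s(y, s 0)) with h0 | h0
    · exact absurd hg (not_gam hNCX h hnp (mem_Z1_del h hZ h0))
    · exact h0
  rcases hNCN.lin hG.1 hnp hg hZ' with h3 | h3
  · exact h3
  · exfalso
    refine not_gam hNCX h hnp (mem_Z1_del h (Submodule.add_mem _ hZ hZ') ?_) h3
    rw [Pi.add_apply, h1, h2]
    exact zmod2_add_self 1

end EDBM

open EDBM in
theorem specEDB (hNCX : SpecNCX) (hNCN : SpecNCN) : SpecEDB where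
  all := fun hG h hnp hg hZ' h1 => all hNCX hNCN hG h hnp hg hZ' h1
  dis := by
    intro α _ _ G x y s Z P Q hG h hnp hg hP hQ hdis
    have n01 : s 0 ≠ s 1 := fun e => absurd (h.inj e) (by decide)
    have n23 : s 2 ≠ s 3 := fun e => absurd (h.inj e) (by decide)
    have hP' := isPth_del.1 hP
    have hQ' := isPth_del.1 hQ
    have m0 : s 0 ∈ vs P := hP.left_mem n01
    have m1 : s 1 ∈ vs P := hP.right_mem n01
    have m2 : s 2 ∈ vs Q := hQ.left_mem n23
    have m3 : s 3 ∈ vs Q := hQ.right_mem n23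
    have k2 : s 2 ∉ vs P := Finset.disjoint_right.1 hdis m2
    have k3 : s 3 ∉ vs P := Finset.disjoint_right.1 hdis m3
    have kx : x ∉ vs P := Finset.disjoint_right.1 hP'.2 (by simp)
    have ky : y ∉ vs P := Finset.disjoint_right.1 hP'.2 (by simp)
    have qx : x ∉ vs Q := Finset.disjoint_right.1 hQ'.2 (by simp)
    have qy : y ∉ vs Q := Finset.disjoint_right.1 hQ'.2 (by simp)
    have inT : ∀ w, (w = y ∨ w ∈ vs P) → w ∉ ({x, s 2, s 3} : Finset α) := by
      intro w hw
      simp only [mem_insert, mem_singleton, not_or]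
      rcases hw with rfl | hw
      · exact ⟨h.xy.symm, fun e => (h.sx 2).2 e.symm, fun e => (h.sx 3).2 e.symm⟩
      · exact ⟨fun e => kx (e ▸ hw), fun e => k2 (e ▸ hw), fun e => k3 (e ▸ hw)⟩
    have c1 : IsPth (del (del G {x, s 2, s 3}) {y}) (s 0) (s 1) P := by
      rw [isPth_del, isPth_del]
      refine ⟨⟨hP'.1, ?_⟩, ?_⟩
      · rw [Finset.disjoint_left]
        exact fun w hw => inT w (Or.inr hw)
      · rw [disjoint_singleton_right]
        exact ky
    have a0 : (del G {x, s 2, s 3}).Adj y (s 0) :=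
      ⟨h.ay 0, inT _ (Or.inl rfl), inT _ (Or.inr m0)⟩
    have a1 : (del G {x, s 2, s 3}).Adj y (s 1) :=
      ⟨h.ay 1, inT _ (Or.inl rfl), inT _ (Or.inr m1)⟩
    have hC := isCyc_of_isPth_del a0 a1 n01 c1
    have hgC := all hNCX hNCN hG h hnp hg hC.chi_mem (chi_of_mem (mem_insert_self _ _))
    refine hNCN.sep hnp (hC.mono (del_le _ _)) hgC ?_
    have hQ2 : IsPth (del G (insert x (vs (insert s(y, s 0) (insert s(y, s 1) P))))) (s 2) (s 3) Q := by
      rw [isPth_del]
      refine ⟨hQ'.1, ?_⟩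
      rw [Finset.disjoint_left]
      intro w hw hw'
      rw [mem_insert, vs_insert, vs_insert, mem_union, mem_union] at hw'
      simp only [mem_insert, mem_singleton] at hw'
      rcases hw' with rfl | (rfl | rfl) | (rfl | rfl) | hw'
      · exact qx hw
      · exact qy hw
      · exact Finset.disjoint_left.1 hdis m0 hw
      · exact qy hw
      · exact Finset.disjoint_left.1 hdis m1 hw
      · exact Finset.disjoint_left.1 hdis hw' hw
    exact hQ2.reachable

end DL
end

section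
/-!
# MP_3ff0f8_gt, EXIST section 4, module EDG: `Gam` pairs of a double pair with planar `G - x`
-/
set_option autoImplicit false

open SimpleGraph Finset

namespace DL

namespace EDGM

variable {α : Type} [Fintype α] [DecidableEq α] {G : SimpleGraph α}

omit [DecidableEq α] in
theorem mem_NB {A : Finset α} {w : α} : w ∈ NB G A ↔ w ∉ A ∧ ∃ a ∈ A, G.Adj a w := by
  simp [NB]

omit [Fintype α] [DecidableEq α] in
theorem relabel {x y : α} {s : Fin 4 → α} (h : DP G x y s) (σ : Equiv.Perm (Fin 4)) :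
    DP G x y (fun i => s (σ i)) where
  inj := h.inj.comp σ.injective
  xy := h.xy
  sx i := h.sx (σ i)
  nx w hw := by
    rcases h.nx w hw with h1 | ⟨i, h1⟩
    · exact Or.inl h1
    · exact Or.inr ⟨σ.symm i, by simpa using h1⟩
  ny w hw := by
    rcases h.ny w hw with h1 | ⟨i, h1⟩
    · exact Or.inl h1
    · exact Or.inr ⟨σ.symm i, by simpa using h1⟩
  ax i := h.ax (σ i)
  ay i := h.ay (σ i)

/-- a component of `G - {x, y} - S` -/
theorem exists_comp (hNBF : SpecNBF) (hG : K48 G) {x y : α} {s : Fin 4 → α} (h : DP G x y s) :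
    ∃ K : Finset α, CSet G K ∧ x ∉ K ∧ y ∉ K ∧ (∀ i, s i ∉ K) ∧ ∀ i, ∃ k ∈ K, G.Adj (s i) k := by
  classical
  obtain ⟨T, hT⟩ : ∃ T : Finset α, T = insert x (insert y (univ.image s)) := ⟨_, rfl⟩
  have hTm : ∀ v, v ∈ T ↔ v = x ∨ v = y ∨ ∃ i, s i = v := by
    intro v
    rw [hT]
    simp
  have hcS : (univ.image s).card ≤ 4 := by
    refine card_image_le.trans ?_
    simp
  have hTc : T.card < (VS G).card := by
    have h1 : T.card ≤ 6 := by
      rw [hT]
      exact (card_insert_le _ _).trans (Nat.succ_le_succ ((card_insert_le _ _).trans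
        (Nat.succ_le_succ hcS)))
    have := hG.2
    omega
  obtain ⟨c, hcV, hcT⟩ := exists_mem_notMem_of_card_lt_card hTc
  obtain ⟨K, hK⟩ : ∃ K : Finset α, K = univ.filter fun v => (del G T).Reachable c v := ⟨_, rfl⟩
  have hKm : ∀ v, v ∈ K ↔ (del G T).Reachable c v := by
    intro v
    rw [hK]
    simp
  have hKT : ∀ v ∈ K, v ∉ T := fun v hv =>
    mem_of_reachable (X := {v | v ∉ T}) ((hKm v).1 hv) hcT fun _ _ hab _ => hab.2.2
  have hKV : K ⊆ VS G := fun v hv =>
    mem_of_reachable (X := {v | v ∈ VS G}) ((hKm v).1 hv) hcV fun _ _ hab _ => right_mem_VS hab.1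
  have hcK : c ∈ K := (hKm c).2 (Reachable.refl c)
  have hcs : ∀ v ∈ K, (del G (univ \ K)).Reachable c v := by
    intro v hv
    have := mem_of_reachable (X := {v | v ∈ K ∧ (del G (univ \ K)).Reachable c v}) ((hKm v).1 hv)
      ⟨hcK, Reachable.refl c⟩ (by
        rintro a b hab ⟨ha1, ha2⟩
        have hb : b ∈ K := (hKm b).2 (((hKm a).1 ha1).trans (Adj.reachable hab))
        exact ⟨hb, ha2.trans (Adj.reachable ⟨hab.1, by simp [ha1], by simp [hb]⟩)⟩)
    exact this.2
  have hxK : x ∉ K := fun hx => hKT x hx ((hTm x).2 (Or.inl rfl))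
  have hyK : y ∉ K := fun hy => hKT y hy ((hTm y).2 (Or.inr (Or.inl rfl)))
  have hsK : ∀ i, s i ∉ K := fun i hi => hKT _ hi ((hTm _).2 (Or.inr (Or.inr ⟨i, rfl⟩)))
  have hsub : NB G K ⊆ univ.image s := by
    intro w hw
    obtain ⟨hw1, a, ha, haw⟩ := mem_NB.1 hw
    have haT := hKT a ha
    have hwT : w ∈ T := by
      by_contra hwT
      exact hw1 ((hKm w).2 (((hKm a).1 ha).trans (Adj.reachable ⟨haw, haT, hwT⟩)))
    rcases (hTm w).1 hwT with rfl | rfl | ⟨i, rfl⟩
    · exfalso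
      rcases h.nx a haw.symm with rfl | ⟨i, rfl⟩
      · exact hyK ha
      · exact hsK i ha
    · exfalso
      rcases h.ny a haw.symm with rfl | ⟨i, rfl⟩
      · exact hxK ha
      · exact hsK i ha
    · exact mem_image_of_mem s (mem_univ i)
  have hcard : 4 ≤ (NB G K).card := by
    by_contra hcon
    have h1 := hNBF.nb hG.1 hKV ⟨c, hcK⟩ (by omega)
    have h2 := h1 (left_mem_VS (h.ax 0))
    rw [mem_union] at h2
    rcases h2 with h2 | h2
    · exact hxK h2
    · obtain ⟨i, -, hi⟩ := mem_image.1 (hsub h2)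
      exact (h.sx i).1 hi
  have heq : NB G K = univ.image s := eq_of_subset_of_card_le hsub (hcS.trans hcard)
  refine ⟨K, ⟨⟨c, hcK⟩, fun u hu v hv => (hcs u hu).symm.trans (hcs v hv)⟩, hxK, hyK, hsK, ?_⟩
  intro i
  have h1 : s i ∈ NB G K := by
    rw [heq]
    exact mem_image_of_mem s (mem_univ i)
  obtain ⟨-, a, ha, haw⟩ := mem_NB.1 h1
  exact ⟨a, ha, haw.symm⟩

theorem one (hGK3 : SpecGK3) (hNBF : SpecNBF) (hG : K48 G) {x y : α} {s : Fin 4 → α}
    (h : DP G x y s) (hpl : ¬ NP (del G {x})) (m : Fin 4) :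
    ∃ i, i ≠ m ∧ ∃ Z, Gam G x (s i) (s m) Z := by
  obtain ⟨K, hK, hxK, hyK, hsK, hKn⟩ := exists_comp hNBF hG h
  obtain ⟨i, Z, hZ⟩ := hGK3 (u := x) (x := y) (b := s m) (a := fun i => s (m.succAbove i)) (K := K)
    hG.1 hpl (h.inj.comp Fin.succAbove_right_injective) (fun i => h.ax _) (fun i => h.ay _) (h.ax m)
    h.xy.symm (h.sx m).2.symm (fun i hi => Fin.succAbove_ne m i (h.inj hi)) hK hxK hyK (hsK m)
    (fun i => hsK _) (fun i => hKn _)
  exact ⟨m.succAbove i, Fin.succAbove_ne m i, Z, hZ⟩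

/-- disjoint paths forbid `Gam` -/
theorem nogam (hEDB : SpecEDB) (hG : K48 G) {x y : α} {s : Fin 4 → α} (h : DP G x y s)
    (hpl : ¬ NP (del G {x})) {a b c d : Fin 4} (hinj : [a, b, c, d].Nodup)
    {P Q : Finset (Sym2 α)} (hP : IsPth (del G {x, y}) (s a) (s b) P)
    (hQ : IsPth (del G {x, y}) (s c) (s d) Q) (hd : Disjoint (vs P) (vs Q)) (Z : Chain α) :
    ¬ Gam G x (s c) (s d) Z := by
  have hf : Function.Injective ![a, b, c, d] := by
    clear hP hQ
    revert hinj
    revert a b c d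
    decide
  obtain ⟨σ, hσ⟩ : ∃ σ : Equiv.Perm (Fin 4), ∀ i, σ i = ![a, b, c, d] i :=
    ⟨Equiv.ofBijective _ (Finite.injective_iff_bijective.1 hf), fun i => rfl⟩
  intro hgam
  have h0 : σ 0 = a := hσ 0
  have h1 : σ 1 = b := hσ 1
  have h2 : σ 2 = c := hσ 2
  have h3 : σ 3 = d := hσ 3
  refine hEDB.dis (s := fun i => s (σ i)) (P := P) (Q := Q) (Z := Z) hG (relabel h σ) hpl ?_ ?_ ?_ hd
  · show Gam G x (s (σ 2)) (s (σ 3)) Z
    rw [h2, h3]
    exact hgam
  · show IsPth (del G {x, y}) (s (σ 0)) (s (σ 1)) P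
    rw [h0, h1]
    exact hP
  · show IsPth (del G {x, y}) (s (σ 2)) (s (σ 3)) Q
    rw [h2, h3]
    exact hQ

end EDGM

open EDGM

theorem specEDG (hGK3 : SpecGK3) (hPAI : SpecPAI) (hEDB : SpecEDB) (hNBF : SpecNBF) : SpecEDG where
  one := by
    intro α _ _ G x y s hG h hpl m
    exact EDGM.one hGK3 hNBF hG h hpl m
  two := by
    intro α _ _ G x y s hG h hpl
    classical
    have hH : KConn 2 (del G {x, y}) := hG.1.del_pair (by norm_num) x y
    have hVS : VS (del G {x, y}) = VS G \ {x, y} := hG.1.VS_del (by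
      have := card_le_two (a := x) (b := y)
      omega)
    obtain ⟨i₁, i₂, h12, h10, h20, hp⟩ := hPAI (del G {x, y}) s hH h.inj (by
      intro i
      rw [hVS, mem_sdiff, mem_insert, mem_singleton, not_or]
      exact ⟨right_mem_VS (h.ax i), h.sx i⟩)
    obtain ⟨i₃, h30, h31, h32⟩ : ∃ i₃ : Fin 4, i₃ ≠ 0 ∧ i₃ ≠ i₁ ∧ i₃ ≠ i₂ := by
      clear hp
      revert i₁ i₂
      decide
    have hall : ∀ i : Fin 4, i = 0 ∨ i = i₁ ∨ i = i₂ ∨ i = i₃ := by
      clear hp
      revert i₁ i₂ i₃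
      decide
    -- no `Gam` for the pairings of `i₁`, `i₂`
    have hA1 : ∀ Z, ¬ Gam G x (s i₁) (s 0) Z := by
      intro Z
      obtain ⟨P, Q, hP, hQ, hd⟩ := hp i₁ (Or.inl rfl) i₂ i₃ h32.symm h20 h30 h12.symm h31
      exact nogam hEDB hG h hpl (a := i₂) (b := i₃) (c := i₁) (d := 0)
        (by simp [h32.symm, h12.symm, h20, h30, h31, h10]) hQ hP.symm hd.symm Z
    have hA2 : ∀ Z, ¬ Gam G x (s i₂) (s 0) Z := by
      intro Z
      obtain ⟨P, Q, hP, hQ, hd⟩ := hp i₂ (Or.inr rfl) i₁ i₃ h31.symm h10 h30 h12 h32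
      exact nogam hEDB hG h hpl (a := i₁) (b := i₃) (c := i₂) (d := 0)
        (by simp [h31.symm, h12, h20, h30, h32, h10]) hQ hP.symm hd.symm Z
    have hA3 : ∀ Z, ¬ Gam G x (s 0) (s i₁) Z := by
      intro Z
      obtain ⟨P, Q, hP, hQ, hd⟩ := hp i₁ (Or.inl rfl) i₂ i₃ h32.symm h20 h30 h12.symm h31
      exact nogam hEDB hG h hpl (a := i₂) (b := i₃) (c := 0) (d := i₁)
        (by simp [h32.symm, h12.symm, h20, h30, h31, h10.symm]) hQ hP hd.symm Z
    have hA4 : ∀ Z, ¬ Gam G x (s i₃) (s i₁) Z := by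
      intro Z
      obtain ⟨P, Q, hP, hQ, hd⟩ := hp i₂ (Or.inr rfl) i₃ i₁ h31 h30 h10 h32 h12
      exact nogam hEDB hG h hpl (a := 0) (b := i₂) (c := i₃) (d := i₁)
        (by simp [h20.symm, h30.symm, h10.symm, h32.symm, h12.symm, h31]) hP hQ hd Z
    obtain ⟨i, hi, Z, hZ⟩ := EDGM.one hGK3 hNBF hG h hpl 0
    obtain ⟨j, hj, Z', hZ'⟩ := EDGM.one hGK3 hNBF hG h hpl i₁
    have hi3 : i = i₃ := by
      rcases hall i with rfl | rfl | rfl | rfl
      · exact absurd rfl hi
      · exact absurd hZ (hA1 Z)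
      · exact absurd hZ (hA2 Z)
      · rfl
    have hj2 : j = i₂ := by
      rcases hall j with rfl | rfl | rfl | rfl
      · exact absurd hZ' (hA3 Z')
      · exact absurd rfl hj
      · rfl
      · exact absurd hZ' (hA4 Z')
    subst hi3
    subst hj2
    have hf : Function.Injective ![i, 0, j, i₁] := by
      clear hp hA1 hA2 hA3 hA4 hZ hZ' hall
      revert i₁ i j
      decide
    obtain ⟨σ, hσ⟩ : ∃ σ : Equiv.Perm (Fin 4), ∀ k, σ k = ![i, 0, j, i₁] k :=
      ⟨Equiv.ofBijective _ (Finite.injective_iff_bijective.1 hf), fun i => rfl⟩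
    have h0 : σ 0 = i := hσ 0
    have h1 : σ 1 = 0 := hσ 1
    have h2 : σ 2 = j := hσ 2
    have h3 : σ 3 = i₁ := hσ 3
    refine ⟨σ, ⟨Z, ?_⟩, Z', ?_⟩
    · rw [h0, h1]; exact hZ
    · rw [h2, h3]; exact hZ'

end DL
end

section
/-!
# Module EDL: a split gives two disjoint paths
-/
open SimpleGraph Finset

namespace DL

namespace EDLM

variable {α : Type} [Fintype α] [DecidableEq α] {G : SimpleGraph α}

theorem mem_NB {A : Finset α} {w : α} : w ∈ NB G A ↔ w ∉ A ∧ ∃ a ∈ A, G.Adj a w := by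
  simp [NB]

/-- if `p` is not connected with `q` in the side `A` then `p` is adjacent to the whole cut -/
theorem iso (hNBF : SpecNBF) (hG : KConn 4 G) {A B : Finset α} {x y c d p q : α}
    (hn : [x, y, c, d].Nodup) (hs : Sep G {x, y, c, d} A B) (hp : p ∈ A)
    (hx : ∀ w ∈ A, G.Adj x w → w = p ∨ w = q) (hy : ∀ w ∈ A, G.Adj y w → w = p ∨ w = q)
    (hpq : ¬ (del G (univ \ A)).Reachable p q) : G.Adj p c ∧ G.Adj p d := by
  classical
  simp only [List.nodup_cons, List.mem_cons, List.not_mem_nil, or_false, not_or,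
      not_false_eq_true, List.nodup_nil, and_true] at hn
  obtain ⟨⟨nxy, nxc, nxd⟩, ⟨nyc, nyd⟩, ncd⟩ := hn
  have hTA : Disjoint ({x, y, c, d} : Finset α) A := hs.2.1
  have hyT : y ∈ ({x, y, c, d} : Finset α) := by simp
  have hyA : y ∉ A := Finset.disjoint_left.1 hTA hyT
  have hq : ∀ w, (del G (univ \ A)).Reachable p w → w ≠ q := fun w hw e => hpq (e ▸ hw)
  -- neighbours in the side
  have step : ∀ w ∈ A, (del G (univ \ A)).Reachable p w → ∀ v, G.Adj w v → v ∈ A →
      (del G (univ \ A)).Reachable p v := by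
    intro w hw hr v hv hvA
    refine hr.trans (Adj.reachable ⟨hv, ?_, ?_⟩)
    · simpa using hw
    · simpa using hvA
  let D : Finset α := A.filter fun w => w ≠ p ∧ (del G (univ \ A)).Reachable p w
  have hD : D = ∅ := by
    by_contra hne
    have hlt : (NB G D).card < 4 := by
      have hsub : NB G D ⊆ {p, c, d} := by
        intro v hv
        obtain ⟨h1, w, hw, h2⟩ := mem_NB.1 hv
        obtain ⟨hwA, hwp, hwr⟩ := mem_filter.1 hw
        rcases hs.mem_or (right_mem_VS h2) with h | h | h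
        · simp only [mem_insert, mem_singleton] at h ⊢
          rcases h with rfl | rfl | h | h
          · rcases hx w hwA h2.symm with e | e
            · exact absurd e hwp
            · exact absurd e (hq w hwr)
          · rcases hy w hwA h2.symm with e | e
            · exact absurd e hwp
            · exact absurd e (hq w hwr)
          · exact Or.inr (Or.inl h)
          · exact Or.inr (Or.inr h)
        · by_cases hvp : v = p
          · simp [hvp]
          · exact absurd (mem_filter.2 ⟨h, hvp, step w hwA hwr v h2 h⟩) h1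
        · exact absurd h2 (hs.2.2.2.2 w hwA v h)
      exact lt_of_le_of_lt ((card_le_card hsub).trans
        ((card_insert_le _ _).trans (Nat.succ_le_succ card_le_two))) (by omega)
    have h3 := hNBF.nb hG ((filter_subset _ _).trans hs.subP) (nonempty_iff_ne_empty.2 hne) hlt
      (hs.subS hyT)
    rw [mem_union] at h3
    rcases h3 with h3 | h3
    · exact hyA (mem_filter.1 h3).1
    · obtain ⟨h1, w, hw, h2⟩ := mem_NB.1 h3
      obtain ⟨hwA, hwp, hwr⟩ := mem_filter.1 hw
      rcases hy w hwA h2.symm with e | e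
      · exact absurd e hwp
      · exact absurd e (hq w hwr)
  have hsub : nbs G p ⊆ {x, y, c, d} := by
    intro v hv
    rw [mem_nbs] at hv
    rcases hs.mem_or (right_mem_VS hv) with h | h | h
    · exact h
    · have : v ∈ D := mem_filter.2 ⟨h, hv.ne', step p hp (Reachable.refl _) v hv h⟩
      rw [hD] at this
      exact absurd this (notMem_empty _)
    · exact absurd hv (hs.2.2.2.2 p hp v h)
  have h4 : ({x, y, c, d} : Finset α).card ≤ 4 :=
    (card_insert_le _ _).trans (Nat.succ_le_succ ((card_insert_le _ _).trans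
      (Nat.succ_le_succ card_le_two)))
  have heq : nbs G p = {x, y, c, d} :=
    eq_of_subset_of_card_le hsub (h4.trans (hG.le_nbs (hs.subP hp)))
  constructor
  · rw [← mem_nbs, heq]; simp
  · rw [← mem_nbs, heq]; simp

/-- a path from `p` to `q` in a side and one vertex `e` of the cut -/
theorem side (hNBF : SpecNBF) (hG : KConn 4 G) {A B : Finset α} {x y c d p q e : α}
    (hn : [x, y, c, d].Nodup) (hs : Sep G {x, y, c, d} A B) (hp : p ∈ A) (hq : q ∈ A) (hpq : p ≠ q)
    (hx : ∀ w ∈ A, G.Adj x w → w = p ∨ w = q) (hy : ∀ w ∈ A, G.Adj y w → w = p ∨ w = q)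
    (he : e = c ∨ e = d) : ∃ P, IsPth (del G {x, y}) p q P ∧ vs P ⊆ insert e A := by
  have hn' := hn
  simp only [List.nodup_cons, List.mem_cons, List.not_mem_nil, or_false, not_or,
      not_false_eq_true, List.nodup_nil, and_true] at hn'
  obtain ⟨⟨nxy, nxc, nxd⟩, ⟨nyc, nyd⟩, ncd⟩ := hn'
  have hTA : Disjoint ({x, y, c, d} : Finset α) A := hs.2.1
  have hxA : x ∉ A := Finset.disjoint_left.1 hTA (by simp)
  have hyA : y ∉ A := Finset.disjoint_left.1 hTA (by simp)
  have fin : ∀ P, IsPth G p q P → vs P ⊆ insert e A →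
      ∃ P, IsPth (del G {x, y}) p q P ∧ vs P ⊆ insert e A := by
    intro P hP hsub
    refine ⟨P, isPth_del.2 ⟨hP, ?_⟩, hsub⟩
    rw [Finset.disjoint_left]
    intro v hv hv'
    rw [mem_insert, mem_singleton] at hv'
    have := hsub hv
    rw [mem_insert] at this
    rcases hv' with rfl | rfl
    · rcases this with h | h
      · rcases he with rfl | rfl
        · exact nxc h
        · exact nxd h
      · exact hxA h
    · rcases this with h | h
      · rcases he with rfl | rfl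
        · exact nyc h
        · exact nyd h
      · exact hyA h
  by_cases hr : (del G (univ \ A)).Reachable p q
  · obtain ⟨P, hP⟩ := exists_isPth hr
    rw [isPth_del] at hP
    refine fin P hP.1 fun v hv => mem_insert_of_mem ?_
    have := Finset.disjoint_left.1 hP.2 hv
    simpa using this
  · have h1 := iso hNBF hG hn hs hp hx hy hr
    have h2 := iso hNBF hG (p := q) (q := p) hn hs hq (fun w hw h => (hx w hw h).symm)
      (fun w hw h => (hy w hw h).symm) (fun h => hr h.symm)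
    have hpe : G.Adj p e := by
      rcases he with rfl | rfl
      · exact h1.1
      · exact h1.2
    have hqe : G.Adj q e := by
      rcases he with rfl | rfl
      · exact h2.1
      · exact h2.2
    have h3 : IsPth G p q (insert s(p, e) {s(e, q)}) := by
      refine (IsPth.edge hqe.symm).cons hpe ?_
      rw [vs_singleton, mem_insert, mem_singleton, not_or]
      exact ⟨hpe.ne, hpq⟩
    refine fin _ h3 fun v hv => ?_
    rw [vs_insert, vs_singleton] at hv
    simp only [mem_union, mem_insert, mem_singleton] at hv ⊢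
    rcases hv with (rfl | rfl) | rfl | rfl
    · exact Or.inr hp
    · exact Or.inl rfl
    · exact Or.inl rfl
    · exact Or.inr hq

end EDLM

open EDLM in
theorem specEDL (hNBF : SpecNBF) : SpecEDL := by
  intro α _ _ G x y s hG h ⟨c, d, A, B, hn, hs, h0, h1, h2, h3⟩
  have n01 : s 0 ≠ s 1 := fun e => absurd (h.inj e) (by decide)
  have n23 : s 2 ≠ s 3 := fun e => absurd (h.inj e) (by decide)
  have hn' := hn
  simp only [List.nodup_cons, List.mem_cons, List.not_mem_nil, or_false, not_or,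
      not_false_eq_true, List.nodup_nil, and_true] at hn'
  obtain ⟨⟨nxy, nxc, nxd⟩, ⟨nyc, nyd⟩, ncd⟩ := hn'
  have hTA : Disjoint ({x, y, c, d} : Finset α) A := hs.2.1
  have hTB : Disjoint ({x, y, c, d} : Finset α) B := hs.2.2.1
  have hAB : Disjoint A B := hs.2.2.2.1
  have hxA : x ∉ A := Finset.disjoint_left.1 hTA (by simp)
  have hyA : y ∉ A := Finset.disjoint_left.1 hTA (by simp)
  have hcA : c ∉ A := Finset.disjoint_left.1 hTA (by simp)
  have hdA : d ∉ A := Finset.disjoint_left.1 hTA (by simp)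
  have hxB : x ∉ B := Finset.disjoint_left.1 hTB (by simp)
  have hyB : y ∉ B := Finset.disjoint_left.1 hTB (by simp)
  have hcB : c ∉ B := Finset.disjoint_left.1 hTB (by simp)
  have nA : ∀ z, (z = x ∨ z = y) → ∀ w ∈ A, G.Adj z w → w = s 0 ∨ w = s 1 := by
    intro z hz w hw hzw
    have key : ∃ i, w = s i := by
      rcases hz with rfl | rfl
      · rcases h.nx w hzw with e | e
        · exact absurd (e ▸ hw) hyA
        · exact e
      · rcases h.ny w hzw with e | e
        · exact absurd (e ▸ hw) hxA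
        · exact e
    obtain ⟨i, rfl⟩ := key
    fin_cases i
    · exact Or.inl rfl
    · exact Or.inr rfl
    · exact absurd h2 (Finset.disjoint_left.1 hAB hw)
    · exact absurd h3 (Finset.disjoint_left.1 hAB hw)
  have nB : ∀ z, (z = x ∨ z = y) → ∀ w ∈ B, G.Adj z w → w = s 2 ∨ w = s 3 := by
    intro z hz w hw hzw
    have key : ∃ i, w = s i := by
      rcases hz with rfl | rfl
      · rcases h.nx w hzw with e | e
        · exact absurd (e ▸ hw) hyB
        · exact e
      · rcases h.ny w hzw with e | e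
        · exact absurd (e ▸ hw) hxB
        · exact e
    obtain ⟨i, rfl⟩ := key
    fin_cases i
    · exact absurd h0 (Finset.disjoint_right.1 hAB hw)
    · exact absurd h1 (Finset.disjoint_right.1 hAB hw)
    · exact Or.inl rfl
    · exact Or.inr rfl
  obtain ⟨P, hP, hPs⟩ := side hNBF hG.1 hn hs h0 h1 n01 (nA x (Or.inl rfl)) (nA y (Or.inr rfl))
    (e := c) (Or.inl rfl)
  obtain ⟨Q, hQ, hQs⟩ := side hNBF hG.1 hn hs.symm h2 h3 n23 (nB x (Or.inl rfl))
    (nB y (Or.inr rfl)) (e := d) (Or.inr rfl)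
  refine ⟨P, Q, hP, hQ, ?_⟩
  rw [Finset.disjoint_left]
  intro v hv hv'
  have e1 := hPs hv
  have e2 := hQs hv'
  rw [mem_insert] at e1 e2
  rcases e1 with e1 | e1 <;> rcases e2 with e2 | e2
  · exact ncd (e1.symm.trans e2)
  · exact hcB (e1 ▸ e2)
  · exact hdA (e2 ▸ e1)
  · exact Finset.disjoint_left.1 hAB e1 e2

end DL
end
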