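import Pool.Agent.DL.E.Spec0

set_option autoImplicit false
set_option linter.unusedSectionVars false

/-!
# GLU: gluing of functions of `F(G)`
-/

open SimpleGraph Finset

namespace DL

namespace GLUM

variable {α : Type} [Fintype α] [DecidableEq α]

lemma coord (hPOL : SpecPOL) (e : Sym2 α) : DegLE 1 (fun c : Chain α => c e) :=
  hPOL.ofAdd fun _ _ => rfl

lemma zero (hPOL : SpecPOL) (G : SimpleGraph α) : InF G (fun _ => 0) :=
  ⟨fun _ => 0, hPOL.zero 3, rfl, fun _ _ _ _ => 0, fun C _ => by simp⟩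

lemma pol (G : SimpleGraph α) (p : Chain α → ZMod 2) (l : α → α → α → α → ZMod 2)
    (hp : DegLE 3 p) (hp0 : p 0 = 0) : InF G (fun C => p (chi C) + cohs l C) :=
  ⟨p, hp, hp0, l, fun _ _ => rfl⟩

lemma lin_sum (w : Chain α) (C : Finset (Sym2 α)) : ∑ h, w h * chi C h = ∑ h ∈ C, w h := by
  simp [chi_apply]

lemma quad (hPOL : SpecPOL) (G : SimpleGraph α) (e f : Sym2 α) (w0 : ZMod 2) (w : Chain α) :
    InF G (fun C => chi C e * chi C f * (w0 + ∑ h ∈ C, w h)) := by
  refine ⟨fun c => c e * c f * (w0 + ∑ h, w h * c h), ?_, by simp, fun _ _ _ _ => 0, fun C _ => ?_⟩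
  · refine hPOL.mul (hPOL.mul (coord hPOL e) (coord hPOL f)) (hPOL.add (hPOL.const 1 w0) ?_)
    refine hPOL.sum univ _ fun h _ => ?_
    have h2 := hPOL.mul (hPOL.const 0 (w h)) (coord hPOL h)
    rw [zero_add] at h2
    exact h2
  · simp only [lin_sum]
    simp

lemma coh1 (hPOL : SpecPOL) (G : SimpleGraph α) (x : ZMod 2) (a b c d : α) :
    InF G (fun C => x * coh a b c d C) := by
  refine ⟨fun _ => 0, hPOL.zero 3, rfl,
    fun a' b' c' d' => if a' = a then if b' = b then if c' = c then if d' = d then x else 0 else 0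
      else 0 else 0, fun C _ => ?_⟩
  simp [ite_mul]

lemma add (hPOL : SpecPOL) {G : SimpleGraph α} {f g : Finset (Sym2 α) → ZMod 2} (hf : InF G f)
    (hg : InF G g) : InF G (fun C => f C + g C) := by
  obtain ⟨p, hp, hp0, l, hl⟩ := hf
  obtain ⟨p', hp', hp0', l', hl'⟩ := hg
  refine ⟨fun c => p c + p' c, hPOL.add hp hp', by simp only [hp0, hp0', add_zero],
    fun a b c d => l a b c d + l' a b c d, fun C hC => ?_⟩
  have h1 := hl C hC
  have h2 := hl' C hC
  simp only [h1, h2, add_mul, sum_add_distrib]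
  ring

lemma sum (hPOL : SpecPOL) {ι : Type} {G : SimpleGraph α} (s : Finset ι)
    (f : ι → Finset (Sym2 α) → ZMod 2) (h : ∀ i ∈ s, InF G (f i)) :
    InF G (fun C => ∑ i ∈ s, f i C) := by
  classical
  induction s using Finset.induction_on with
  | empty => simpa using zero hPOL G
  | insert i s hi ih =>
    simp only [Finset.sum_insert hi]
    exact add hPOL (h i (Finset.mem_insert_self _ _)) (ih fun j hj => h j (Finset.mem_insert_of_mem hj))

lemma mono {G H : SimpleGraph α} {f : Finset (Sym2 α) → ZMod 2} (hle : H ≤ G) (hf : InF G f) :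
    InF H f := by
  obtain ⟨p, hp, hp0, l, hl⟩ := hf
  exact ⟨p, hp, hp0, l, fun C hC => hl C (hC.mono hle)⟩

lemma congr {G : SimpleGraph α} {f g : Finset (Sym2 α) → ZMod 2} (h : ∀ C, IsCyc G C → f C = g C)
    (hg : InF G g) : InF G f := by
  obtain ⟨p, hp, hp0, l, hl⟩ := hg
  exact ⟨p, hp, hp0, l, fun C hC => (h C hC).trans (hl C hC)⟩

/-- a `D_4` minor of a subgraph -/
def up {G H : SimpleGraph α} (hle : H ≤ G) (D : D4M H) : D4M G where
  X := D.X
  disj := D.disj
  T := D.T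
  sub := fun i => (D.sub i).trans hle
  inX := D.inX
  conn := D.conn
  acyc := D.acyc
  p := D.p
  q := D.q
  pX := D.pX
  qX := D.qX
  adj := fun i b => hle (D.adj i b)
  ne := D.ne

lemma dmono {G H : SimpleGraph α} {f : Finset (Sym2 α) → ZMod 2} (hle : H ≤ G) (hf : D4even G f) :
    D4even H f := fun D => hf (up hle D)

lemma dadd (hFEV : SpecFEV) {G : SimpleGraph α} {f g : Finset (Sym2 α) → ZMod 2} (hf : D4even G f)
    (hg : InF G g) : D4even G (fun C => f C + g C) := by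
  intro D
  rw [sum_add_distrib, hf D, hFEV G g hg D, add_zero]

lemma u {G N : SimpleGraph α} {f : Finset (Sym2 α) → ZMod 2} (hU : U N) (hle : N ≤ G)
    (hf : D4even G f) : ∃ φ : Finset (Sym2 α) → ZMod 2, (∀ G' : SimpleGraph α, InF G' φ) ∧
      ∀ C, IsCyc N C → f C = φ C := by
  obtain ⟨p, hp, hp0, l, hl⟩ := hU f (dmono hle hf)
  exact ⟨fun C => p (chi C) + cohs l C, fun G' => pol G' p l hp hp0, fun C hC => hl C hC⟩

/-- coefficients supported on the edge `ua`: the combination vanishes on sets without `ua` -/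
lemma cohs_zero {u a : α} {μ : α → α → α → α → ZMod 2}
    (hμ : ∀ a' b' c d, μ a' b' c d ≠ 0 → s(a', b') = s(u, a)) {C : Finset (Sym2 α)}
    (hC : s(u, a) ∉ C) : cohs μ C = 0 := by
  unfold cohs
  refine sum_eq_zero fun a' _ => sum_eq_zero fun b' _ => sum_eq_zero fun c _ =>
    sum_eq_zero fun d _ => ?_
  by_cases h : μ a' b' c d = 0
  · rw [h, zero_mul]
  · rw [coh_eq_zero_left (by rw [hμ a' b' c d h]; exact hC), mul_zero]

/-- EXD for one edge -/
lemma exd1 (hEXD : SpecEXD) {N' : SimpleGraph α} {u a : α} (hS : S3S (delE N' u a))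
    (hK : KZ (delE N' u a)) (φ : Finset (Sym2 α) → ZMod 2) (hφ : InF N' φ)
    (h0 : ∀ C, IsCyc (delE N' u a) C → φ C = 0) :
    ∃ (q : Chain α → ZMod 2) (μ : α → α → α → α → ZMod 2), DegLE 2 q ∧
      (∀ a' b' c d, μ a' b' c d ≠ 0 → s(a', b') = s(u, a) ∧ Dj4 a' b' c d) ∧
      ∀ C, IsCyc N' C → φ C = chi C s(u, a) * q (chi C) + cohs μ C := by
  have hle : delE N' u a ≤ N' := deleteEdges_le _
  obtain ⟨q, μ, hq, hq0, hμ, hC⟩ := hEXD (delE N' u a) N' hle hS hK φ hφ h0
  have hE : ∀ e, e ∈ N'.edgeSet \ (delE N' u a).edgeSet → e = s(u, a) := by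
    intro e he
    rw [delE, edgeSet_deleteEdges] at he
    by_contra hne
    exact he.2 ⟨he.1, hne⟩
  refine ⟨q s(u, a), μ, hq _, fun a' b' c d h => ⟨hE _ (hμ a' b' c d h).1, (hμ a' b' c d h).2⟩,
    fun C hCc => ?_⟩
  rw [hC C hCc]
  congr 1
  refine sum_eq_single _ (fun e _ he => ?_) (fun h => (h (mem_univ _)).elim)
  rw [hq0 e fun h => he (hE e h)]
  simp

lemma ex1 (hPOL : SpecPOL) (hEXD : SpecEXD) {N' : SimpleGraph α} {u a : α}
    (hS : S3S (delE N' u a)) (hK : KZ (delE N' u a)) (φ : Finset (Sym2 α) → ZMod 2)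
    (hφ : InF N' φ) (h0 : ∀ C, IsCyc (delE N' u a) C → φ C = 0) :
    ∃ ψ : Finset (Sym2 α) → ZMod 2, (∀ G' : SimpleGraph α, InF G' ψ) ∧
      (∀ C, s(u, a) ∉ C → ψ C = 0) ∧ ∀ C, IsCyc N' C → φ C = ψ C := by
  obtain ⟨q, μ, hq, hμ, hC⟩ := exd1 hEXD hS hK φ hφ h0
  refine ⟨fun C => chi C s(u, a) * q (chi C) + cohs μ C, fun G' => ?_, fun C hC' => ?_, hC⟩
  · refine pol G' (fun c => c s(u, a) * q c) μ ?_ (by simp)
    exact hPOL.mul (d := 1) (e := 2) (coord hPOL _) hq
  · simp only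
    rw [chi_of_notMem hC', cohs_zero (fun a' b' c d h => (hμ a' b' c d h).1) hC', zero_mul,
      add_zero]

end GLUM

open GLUM in
theorem specGLU (hPOL : SpecPOL) (hFEV : SpecFEV) (hEXD : SpecEXD) : SpecGLU where
  zero := fun G => GLUM.zero hPOL G
  pol := fun G p l hp hp0 => GLUM.pol G p l hp hp0
  quad := fun G e f w0 w => GLUM.quad hPOL G e f w0 w
  coh1 := fun G x a b c d => GLUM.coh1 hPOL G x a b c d
  add := fun hf hg => GLUM.add hPOL hf hg
  sum := fun s f h => GLUM.sum hPOL s f h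
  mono := fun hle hf => GLUM.mono hle hf
  congr := fun h hg => GLUM.congr h hg
  dmono := fun hle hf => GLUM.dmono hle hf
  dadd := fun hf hg => GLUM.dadd hFEV hf hg
  u := fun hU hle hf => GLUM.u hU hle hf
  ex1 := fun hS hK φ hφ h0 => GLUM.ex1 hPOL hEXD hS hK φ hφ h0

end DL
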