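import Pool.Agent.DL.E.Spec5
import Pool.Agent.DL.NP.NTW
import Pool.Agent.DL.EX.VRS

/-!
# K34 (row 180, section 5): `K_{3,4}` with one additional edge
-/

open SimpleGraph Finset

namespace DL

namespace K34M

set_option linter.unusedSectionVars false

variable {α : Type} [Fintype α] [DecidableEq α]

/-! ## `K_{3,3}` -/

/-- `K_{3,3}` -/
def kk (x y : Fin 3 → α) : SimpleGraph α where
  Adj u v := u ≠ v ∧ ((∃ i j, u = x i ∧ v = y j) ∨ ∃ i j, u = y j ∧ v = x i)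
  symm := ⟨fun _ _ h => ⟨h.1.symm, h.2.symm.imp (fun ⟨i, j, h1, h2⟩ => ⟨i, j, h2, h1⟩)
    (fun ⟨i, j, h1, h2⟩ => ⟨i, j, h2, h1⟩)⟩⟩
  loopless := ⟨fun _ h => h.1 rfl⟩

section

variable {x y : Fin 3 → α}

lemma kk_xy (hxy : ∀ i j, x i ≠ y j) (i j : Fin 3) : (kk x y).Adj (x i) (y j) :=
  ⟨hxy i j, Or.inl ⟨i, j, rfl, rfl⟩⟩

lemma kk_yx (hxy : ∀ i j, x i ≠ y j) (i j : Fin 3) : (kk x y).Adj (y j) (x i) :=
  (kk_xy hxy i j).symm

lemma mem_kk (hxy : ∀ i j, x i ≠ y j) {v : α} :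
    v ∈ VS (kk x y) ↔ (∃ i, v = x i) ∨ ∃ j, v = y j := by
  rw [mem_VS]
  constructor
  · rintro ⟨w, -, ⟨i, j, h, -⟩ | ⟨i, j, h, -⟩⟩
    · exact Or.inl ⟨i, h⟩
    · exact Or.inr ⟨j, h⟩
  · rintro (⟨i, rfl⟩ | ⟨j, rfl⟩)
    · exact ⟨y 0, kk_xy hxy i 0⟩
    · exact ⟨x 0, kk_yx hxy 0 j⟩

lemma VS_kk (hxy : ∀ i j, x i ≠ y j) : VS (kk x y) = univ.image x ∪ univ.image y := by
  ext v
  rw [mem_kk hxy]
  simp only [mem_union, mem_image, mem_univ, true_and, eq_comm]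

lemma card_kk (hx : Function.Injective x) (hy : Function.Injective y) (hxy : ∀ i j, x i ≠ y j) :
    (VS (kk x y)).card = 6 := by
  rw [VS_kk hxy, card_union_of_disjoint, card_image_of_injective _ hx,
    card_image_of_injective _ hy]
  · simp
  · rw [Finset.disjoint_left]
    intro v h1 h2
    obtain ⟨i, -, rfl⟩ := mem_image.1 h1
    obtain ⟨j, -, h⟩ := mem_image.1 h2
    exact hxy i j h.symm

lemma exists_out {x : Fin 3 → α} (hx : Function.Injective x) {S : Finset α} (hS : S.card < 3) :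
    ∃ i, x i ∉ S := by
  by_contra h
  push Not at h
  have h1 : univ.image x ⊆ S := by
    intro v hv
    obtain ⟨i, -, rfl⟩ := mem_image.1 hv
    exact h i
  have h2 := card_le_card h1
  rw [card_image_of_injective _ hx, card_univ, Fintype.card_fin] at h2
  omega

lemma c1_kk (hx : Function.Injective x) (hy : Function.Injective y) (hxy : ∀ i j, x i ≠ y j) :
    C1 (kk x y) := by
  refine ⟨⟨by rw [card_kk hx hy hxy]; norm_num, fun S hS => ?_⟩, ?_⟩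
  · obtain ⟨i0, hi0⟩ := exists_out hx hS
    obtain ⟨j0, hj0⟩ := exists_out hy hS
    have key : ∀ a ∈ VS (kk x y), a ∉ S → (del (kk x y) S).Reachable a (x i0) := by
      intro a ha haS
      rcases (mem_kk hxy).1 ha with ⟨i, rfl⟩ | ⟨j, rfl⟩
      · have h1 : (del (kk x y) S).Adj (x i) (y j0) := ⟨kk_xy hxy i j0, haS, hj0⟩
        have h2 : (del (kk x y) S).Adj (y j0) (x i0) := ⟨kk_yx hxy i0 j0, hj0, hi0⟩
        exact h1.reachable.trans h2.reachable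
      · have h1 : (del (kk x y) S).Adj (y j) (x i0) := ⟨kk_yx hxy i0 j, haS, hi0⟩
        exact h1.reachable
    intro a ha b hb haS hbS
    exact (key a ha haS).trans (key b hb hbS).symm
  · intro S P Q h hS
    have h1 : (S ∪ P ∪ Q).card = 6 := by rw [h.1]; exact card_kk hx hy hxy
    rw [card_union_of_disjoint (disjoint_union_left.2 ⟨h.2.2.1, h.2.2.2.1⟩),
      card_union_of_disjoint h.2.1] at h1
    omega

lemma np_kk (hx : Function.Injective x) (hy : Function.Injective y) (hxy : ∀ i j, x i ≠ y j) :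
    NP (kk x y) := by
  refine NPMM.np_k33 _ (Fin.append x y : Fin (3 + 3) → α) ?_ ?_
  · rw [Fin.append_injective_iff]
    exact ⟨hx, hy, fun i j => hxy i j⟩
  · intro i j
    refine Fin.addCases (m := 3) (n := 3) (fun i => ?_) (fun i => ?_) i <;>
      refine Fin.addCases (m := 3) (n := 3) (fun j => ?_) (fun j => ?_) j <;> intro hij
    · exfalso
      revert hij
      revert i j
      decide
    · rw [Fin.append_left, Fin.append_right]
      exact kk_xy hxy i j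
    · rw [Fin.append_left, Fin.append_right]
      exact kk_yx hxy j i
    · exfalso
      revert hij
      revert i j
      decide

/-- `KZ` of a `K_{3,3}` in a larger graph, by the hypothesis of induction -/
lemma kz_kk {G : SimpleGraph α} (hG : IH G) (hx : Function.Injective x) (hy : Function.Injective y)
    (hxy : ∀ i j, x i ≠ y j) (hle : ∀ i j, G.Adj (x i) (y j)) {v : α} (hv : v ∈ VS G)
    (hvx : ∀ i, v ≠ x i) (hvy : ∀ j, v ≠ y j) : KZ (kk x y) := by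
  have h1 : kk x y ≤ G := by
    rintro u w ⟨-, ⟨i, j, rfl, rfl⟩ | ⟨i, j, rfl, rfl⟩⟩
    · exact hle i j
    · exact (hle i j).symm
  refine (hG _ ?_ (c1_kk hx hy hxy) (np_kk hx hy hxy)).2
  unfold sz
  have h2 : (VS (kk x y)).card < (VS G).card := by
    refine card_lt_card ((ssubset_iff_of_subset (VS_mono h1)).2 ⟨v, hv, fun h => ?_⟩)
    rcases (mem_kk hxy).1 h with ⟨i, h⟩ | ⟨j, h⟩
    · exact hvx i h
    · exact hvy j h
  have h3 : (kk x y).edgeSet.ncard ≤ G.edgeSet.ncard :=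
    Set.ncard_le_ncard (edgeSet_subset_edgeSet.2 h1) (Set.toFinite _)
  omega

end

/-! ## Two-cycles given by a pattern -/

/-- the function given by a set of pairs of pairs -/
noncomputable def zp {n : ℕ} (P : Fin n → Fin n → Fin n → Fin n → Bool) (φ : Fin n → α)
    (e f : Sym2 α) : ZMod 2 := by
  classical exact
  if ∃ i j k l, P i j k l = true ∧ e = s(φ i, φ j) ∧ f = s(φ k, φ l) then 1 else 0

/-- the conditions on the pattern -/
structure Pat {n : ℕ} (K : Fin n → Fin n → Bool) (P : Fin n → Fin n → Fin n → Fin n → Bool) :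
    Prop where
  s1 : ∀ i j k l, P i j k l = P j i k l
  s2 : ∀ i j k l, P i j k l = P i j l k
  s3 : ∀ i j k l, P i j k l = P k l i j
  sup : ∀ i j k l, P i j k l = true → K i j = true ∧ K k l = true ∧ i ≠ k ∧ i ≠ l ∧ j ≠ k ∧ j ≠ l
  row : ∀ i j m, m ≠ i → m ≠ j → ∑ l, (if P i j m l = true then (1 : ZMod 2) else 0) = 0

section

variable {n : ℕ} {K : Fin n → Fin n → Bool} {P : Fin n → Fin n → Fin n → Fin n → Bool}
  {φ : Fin n → α}

lemma zp_ne {e f : Sym2 α} (h : zp P φ e f ≠ 0) :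
    ∃ i j k l, P i j k l = true ∧ e = s(φ i, φ j) ∧ f = s(φ k, φ l) := by
  unfold zp at h
  by_contra h1
  exact h (if_neg h1)

lemma zp_apply (hP : Pat K P) (hφ : Function.Injective φ) (i j k l : Fin n) :
    zp P φ s(φ i, φ j) s(φ k, φ l) = if P i j k l = true then 1 else 0 := by
  unfold zp
  congr 1
  rw [eq_iff_iff]
  constructor
  · rintro ⟨i', j', k', l', h, h1, h2⟩
    rw [Sym2.eq_iff] at h1 h2
    rcases h1 with ⟨h1, h3⟩ | ⟨h1, h3⟩ <;> rcases h2 with ⟨h2, h4⟩ | ⟨h2, h4⟩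
    · rw [hφ h1, hφ h3, hφ h2, hφ h4]; exact h
    · rw [hφ h1, hφ h3, hφ h2, hφ h4, hP.s2]; exact h
    · rw [hφ h1, hφ h3, hφ h2, hφ h4, hP.s1]; exact h
    · rw [hφ h1, hφ h3, hφ h2, hφ h4, hP.s1, hP.s2]; exact h
  · intro h
    exact ⟨i, j, k, l, h, rfl, rfl⟩

lemma zp_isZ2 (hP : Pat K P) (hφ : Function.Injective φ) {G : SimpleGraph α}
    (hG : ∀ i j, K i j = true → G.Adj (φ i) (φ j)) : IsZ2 G (zp P φ) := by
  classical
  refine ⟨fun e f => ?_, fun e f hef => ?_, fun e v hv => ?_⟩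
  · unfold zp
    congr 1
    rw [eq_iff_iff]
    constructor
    · rintro ⟨i, j, k, l, h, h1, h2⟩
      exact ⟨k, l, i, j, by rw [hP.s3]; exact h, h2, h1⟩
    · rintro ⟨i, j, k, l, h, h1, h2⟩
      exact ⟨k, l, i, j, by rw [hP.s3]; exact h, h2, h1⟩
  · obtain ⟨i, j, k, l, h, rfl, rfl⟩ := zp_ne hef
    obtain ⟨h1, h2, h3, h4, h5, h6⟩ := hP.sup _ _ _ _ h
    refine ⟨hG _ _ h1, hG _ _ h2, ?_⟩
    rintro v ⟨hv1, hv2⟩
    rw [Sym2.mem_iff] at hv1 hv2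
    rcases hv1 with rfl | rfl <;> rcases hv2 with hv2 | hv2
    · exact h3 (hφ hv2)
    · exact h4 (hφ hv2)
    · exact h5 (hφ hv2)
    · exact h6 (hφ hv2)
  · -- the row of `e` at `v`
    by_cases h0 : ∀ f, v ∈ f → zp P φ e f = 0
    · exact sum_eq_zero fun f hf => h0 f (mem_filter.1 hf).2
    push Not at h0
    obtain ⟨f0, hf0, hf1⟩ := h0
    obtain ⟨i, j, k, l, h, rfl, rfl⟩ := zp_ne hf1
    obtain ⟨m, rfl⟩ : ∃ m, v = φ m := by
      rw [Sym2.mem_iff] at hf0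
      rcases hf0 with h | h
      · exact ⟨_, h⟩
      · exact ⟨_, h⟩
    rw [Sym2.mem_iff, not_or] at hv
    have hmi : m ≠ i := fun h => hv.1 (by rw [h])
    have hmj : m ≠ j := fun h => hv.2 (by rw [h])
    rw [← hP.row i j m hmi hmj]
    symm
    refine Finset.sum_of_injOn (fun l => s(φ m, φ l)) ?_ ?_ ?_ ?_
    · intro x _ y _ hxy
      have hxy' : s(φ m, φ x) = s(φ m, φ y) := hxy
      rw [Sym2.congr_right] at hxy'
      exact hφ hxy'
    · intro x _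
      simp
    · intro f hf hf2
      by_contra hne
      obtain ⟨i', j', k', l', h', h1', rfl⟩ := zp_ne hne
      apply hf2
      have hf3 := (mem_filter.1 hf).2
      rw [Sym2.mem_iff] at hf3
      rcases hf3 with h3 | h3
      · exact ⟨l', by simp, by simp only; rw [h3]⟩
      · exact ⟨k', by simp, by simp only; rw [h3, Sym2.eq_swap]⟩
    · intro x _
      rw [zp_apply hP hφ]

end

/-! ## The patterns -/

/-- the graph: `a i` is `i`, `b j` is `4 + j` -/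
def KG (i j : Fin 7) : Bool :=
  decide ((i < 4 ∧ 4 ≤ j) ∨ (j < 4 ∧ 4 ≤ i) ∨ (i = 0 ∧ j = 1) ∨ (i = 1 ∧ j = 0))

/-- `K_{3,4}` without the vertex `o` -/
def KX (o i j : Fin 7) : Bool :=
  decide (((i < 4 ∧ 4 ≤ j) ∨ (j < 4 ∧ 4 ≤ i)) ∧ i ≠ o ∧ j ≠ o)

/-- its two-cycle -/
def PX (o i j k l : Fin 7) : Bool :=
  KX o i j && KX o k l && decide (i ≠ k ∧ i ≠ l ∧ j ≠ k ∧ j ≠ l)

/-- the subdivision of the `K_{3,3}` on `0, 2, 3`, `4, 5, 6`: the edge `0 c` is replaced by `0 1 c` -/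
def KH (c i j : Fin 7) : Bool :=
  decide (((i = 2 ∨ i = 3) ∧ 4 ≤ j) ∨ ((j = 2 ∨ j = 3) ∧ 4 ≤ i) ∨ (i = 0 ∧ 4 ≤ j ∧ j ≠ c) ∨
    (j = 0 ∧ 4 ≤ i ∧ i ≠ c) ∨ (i = 0 ∧ j = 1) ∨ (i = 1 ∧ j = 0) ∨ (i = 1 ∧ j = c) ∨ (i = c ∧ j = 1))

/-- the edge of `K_{3,3}` below an edge -/
def base (c i j : Fin 7) : Fin 7 × Fin 7 :=
  if i = 1 ∨ j = 1 then (0, c) else if i < 4 then (i, j) else (j, i)

/-- its two-cycle -/
def PH (c i j k l : Fin 7) : Bool :=
  KH c i j && KH c k l &&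
    decide ((base c i j).1 ≠ (base c k l).1 ∧ (base c i j).2 ≠ (base c k l).2)

lemma patX0 : Pat KG (PX 0) where
  s1 := by decide +kernel
  s2 := by decide +kernel
  s3 := by decide +kernel
  sup := by decide +kernel
  row := by decide +kernel

lemma patX1 : Pat KG (PX 1) where
  s1 := by decide +kernel
  s2 := by decide +kernel
  s3 := by decide +kernel
  sup := by decide +kernel
  row := by decide +kernel

lemma patH4 : Pat (KH 4) (PH 4) where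
  s1 := by decide +kernel
  s2 := by decide +kernel
  s3 := by decide +kernel
  sup := by decide +kernel
  row := by decide +kernel

lemma patH5 : Pat (KH 5) (PH 5) where
  s1 := by decide +kernel
  s2 := by decide +kernel
  s3 := by decide +kernel
  sup := by decide +kernel
  row := by decide +kernel

/-! ## The graph of a pattern -/

/-- the graph of a pattern -/
def gp (K : Fin 7 → Fin 7 → Bool) (φ : Fin 7 → α) : SimpleGraph α where
  Adj u v := u ≠ v ∧ ∃ i j, K i j = true ∧ K j i = true ∧ u = φ i ∧ v = φ j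
  symm := ⟨fun _ _ h => ⟨h.1.symm, h.2.elim fun i h => h.elim fun j h =>
    ⟨j, i, h.2.1, h.1, h.2.2.2, h.2.2.1⟩⟩⟩
  loopless := ⟨fun _ h => h.1 rfl⟩

/-- the three vertices `0, 2, 3` -/
def X3 : Fin 3 → Fin 7 := ![0, 2, 3]

/-- the three vertices `4, 5, 6` -/
def Y3 : Fin 3 → Fin 7 := ![4, 5, 6]

lemma gp_adj {K : Fin 7 → Fin 7 → Bool} {φ : Fin 7 → α} (hφ : Function.Injective φ)
    (hK : ∀ i j, K i j = K j i) (hK0 : ∀ i, K i i = false) {i j : Fin 7} :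
    (gp K φ).Adj (φ i) (φ j) ↔ K i j = true := by
  constructor
  · rintro ⟨-, i', j', h, -, h1, h2⟩
    rw [hφ h1, hφ h2]
    exact h
  · intro h
    refine ⟨fun h1 => ?_, i, j, h, by rw [hK]; exact h, rfl, rfl⟩
    rw [hφ h1, hK0] at h
    exact absurd h (by decide)

section

variable {φ : Fin 7 → α} {c : Fin 7}

lemma KH_symm (hc : c = 4 ∨ c = 5) : ∀ i j, KH c i j = KH c j i := by
  rcases hc with rfl | rfl <;> decide

lemma KH_irr (hc : c = 4 ∨ c = 5) : ∀ i, KH c i i = false := by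
  rcases hc with rfl | rfl <;> decide

lemma contr_eq (hc : c = 4 ∨ c = 5) (hφ : Function.Injective φ) :
    contr (gp (KH c) φ) (φ 0) (φ 1) = kk (fun i => φ (X3 i)) (fun j => φ (Y3 j)) := by
  have hA := fun i j => gp_adj (K := KH c) hφ (KH_symm hc) (KH_irr hc) (i := i) (j := j)
  have f1 : ∀ i j : Fin 7, (KH c i j = true ∧ i ≠ 1 ∧ j ≠ 1) →
      (∃ k l, i = X3 k ∧ j = Y3 l) ∨ ∃ k l, i = Y3 l ∧ j = X3 k := by
    rcases hc with rfl | rfl <;> decide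
  have f2 : ∀ j : Fin 7, KH c 1 j = true → j ≠ 0 → ∃ l, j = Y3 l := by
    rcases hc with rfl | rfl <;> decide
  have f3 : ∀ k l, KH c (X3 k) (Y3 l) = true ∨ (X3 k = 0 ∧ KH c 1 (Y3 l) = true) := by
    rcases hc with rfl | rfl <;> decide
  have f4 : ∀ k, X3 k ≠ 1 ∧ Y3 k ≠ 1 := by decide
  have f5 : ∀ k l, X3 k ≠ Y3 l := by decide
  ext u w
  constructor
  · rintro ⟨h1, h2, h3, ⟨-, i, j, h, -, rfl, rfl⟩ | ⟨rfl, h⟩ | ⟨rfl, h⟩⟩
    · refine ⟨h3, (f1 i j ⟨h, fun e => h1 (by rw [e]), fun e => h2 (by rw [e])⟩).imp ?_ ?_⟩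
      · rintro ⟨k, l, rfl, rfl⟩
        exact ⟨k, l, rfl, rfl⟩
      · rintro ⟨k, l, rfl, rfl⟩
        exact ⟨k, l, rfl, rfl⟩
    · obtain ⟨-, i, j, h, -, h4, rfl⟩ := h
      rw [← hφ h4] at h
      obtain ⟨l, rfl⟩ := f2 j h (fun e => h3 (by rw [e]))
      exact ⟨h3, Or.inl ⟨0, l, rfl, rfl⟩⟩
    · obtain ⟨-, i, j, -, h, rfl, h4⟩ := h
      rw [← hφ h4] at h
      obtain ⟨l, rfl⟩ := f2 i h (fun e => h3 (by rw [e]))
      exact ⟨h3, Or.inr ⟨0, l, rfl, rfl⟩⟩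
  · rintro ⟨h3, ⟨k, l, rfl, rfl⟩ | ⟨k, l, rfl, rfl⟩⟩
    · refine ⟨fun e => (f4 k).1 (hφ e), fun e => (f4 l).2 (hφ e), h3, ?_⟩
      rcases f3 k l with h | ⟨h, h'⟩
      · exact Or.inl ((hA _ _).2 h)
      · exact Or.inr (Or.inl ⟨congrArg φ h, (hA _ _).2 h'⟩)
    · refine ⟨fun e => (f4 l).2 (hφ e), fun e => (f4 k).1 (hφ e), h3, ?_⟩
      rcases f3 k l with h | ⟨h, h'⟩
      · exact Or.inl ((hA _ _).2 h).symm
      · exact Or.inr (Or.inr ⟨congrArg φ h, ((hA _ _).2 h').symm⟩)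

lemma kz_H (hKSU : SpecKSU) (hc : c = 4 ∨ c = 5) (hφ : Function.Injective φ)
    (h : KZ (kk (fun i => φ (X3 i)) (fun j => φ (Y3 j)))) : KZ (gp (KH c) φ) := by
  have hA := fun i j => gp_adj (K := KH c) hφ (KH_symm hc) (KH_irr hc) (i := i) (j := j)
  have f1 : ∀ j : Fin 7, KH c 1 j = true ↔ j = 0 ∨ j = c := by
    rcases hc with rfl | rfl <;> decide
  have f2 : KH c 0 c ≠ true := by
    rcases hc with rfl | rfl <;> decide
  have f3 : (0 : Fin 7) ≠ c := by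
    rcases hc with rfl | rfl <;> decide
  refine hKSU (v := φ 1) (p := φ 0) (q := φ c) (fun e => f3 (hφ e)) (fun w => ?_)
    (fun e => f2 ((hA _ _).1 e)) (by rw [contr_eq hc hφ]; exact h)
  constructor
  · intro hw
    obtain ⟨-, i, j, -, -, -, rfl⟩ := id hw
    exact ((f1 j).1 ((hA _ _).1 hw)).imp (fun e => by rw [e]) (fun e => by rw [e])
  · rintro (rfl | rfl)
    · exact (hA _ _).2 ((f1 _).2 (Or.inl rfl))
    · exact (hA _ _).2 ((f1 _).2 (Or.inr rfl))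

end

/-! ## The argument -/

lemma kur_smul {G : SimpleGraph α} {z : Sym2 α → Sym2 α → ZMod 2} (h : Kur G z) (r : ZMod 2) :
    Kur G (fun e f => r * z e f) := by
  intro l hl
  have h1 := h l hl
  have h2 : pair2 l (fun e f => r * z e f) = r * pair2 l z := by
    simp only [pair2, mul_sum]
    refine sum_congr rfl fun _ _ => sum_congr rfl fun _ _ => sum_congr rfl fun _ _ =>
      sum_congr rfl fun _ _ => by ring
  rw [h2, h1, mul_zero]

lemma z2_smul {G : SimpleGraph α} {z : Sym2 α → Sym2 α → ZMod 2} (h : IsZ2 G z) (r : ZMod 2) :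
    IsZ2 G (fun e f => r * z e f) := by
  refine ⟨fun e f => congrArg (r * ·) (h.1 e f), fun e f hef => h.2.1 e f (right_ne_zero_of_mul hef),
    fun e v hv => ?_⟩
  rw [← mul_sum, h.2.2 e v hv, mul_zero]

section main

variable {G : SimpleGraph α} {φ : Fin 7 → α} {z : Sym2 α → Sym2 α → ZMod 2}

lemma W_zero (hz : IsZ2 G z)
    (hG : ∀ i j, G.Adj (φ i) (φ j) ↔ KG i j = true) {i j k l : Fin 7}
    (h : ¬ (KG i j = true ∧ KG k l = true ∧ i ≠ k ∧ i ≠ l ∧ j ≠ k ∧ j ≠ l)) :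
    z s(φ i, φ j) s(φ k, φ l) = 0 := by
  by_contra h0
  obtain ⟨h1, h2, h3⟩ := hz.2.1 _ _ h0
  refine h ⟨(hG _ _).1 h1, (hG _ _).1 h2, ?_, ?_, ?_, ?_⟩
  · rintro rfl
    exact h3 (φ i) ⟨Sym2.mem_mk_left _ _, Sym2.mem_mk_left _ _⟩
  · rintro rfl
    exact h3 (φ i) ⟨Sym2.mem_mk_left _ _, Sym2.mem_mk_right _ _⟩
  · rintro rfl
    exact h3 (φ j) ⟨Sym2.mem_mk_right _ _, Sym2.mem_mk_left _ _⟩
  · rintro rfl
    exact h3 (φ j) ⟨Sym2.mem_mk_right _ _, Sym2.mem_mk_right _ _⟩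

lemma W_row (hz : IsZ2 G z) (hφ : Function.Injective φ)
    (hG' : ∀ u v, G.Adj u v → ∃ i j, u = φ i ∧ v = φ j) {i j m : Fin 7} (hi : m ≠ i) (hj : m ≠ j) :
    ∑ l, z s(φ i, φ j) s(φ m, φ l) = 0 := by
  have hv : φ m ∉ s(φ i, φ j) := by
    rw [Sym2.mem_iff, not_or]
    exact ⟨fun h => hi (hφ h), fun h => hj (hφ h)⟩
  have h1 : bdy (z s(φ i, φ j)) (φ m) = 0 := hz.2.2 _ _ hv
  rw [CTAM.bdy_eq_nbr] at h1
  rw [← h1, ← sum_image (s := univ) (g := φ) (f := fun x => z s(φ i, φ j) s(φ m, x))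
    (fun a _ b _ h => hφ h)]
  refine sum_subset (subset_univ _) fun x _ hx => ?_
  by_contra h0
  obtain ⟨-, h2, -⟩ := hz.2.1 _ _ h0
  obtain ⟨-, j', -, rfl⟩ := hG' _ _ h2
  exact hx (mem_image_of_mem _ (mem_univ _))

/-- after the three steps a two-cycle is in `Z_2` of the `K_{3,3}` on `0, 1, 2`, `4, 5, 6` -/
lemma fin (hz : IsZ2 G z) (hG' : ∀ u v, G.Adj u v → ∃ i j, KG i j = true ∧ u = φ i ∧ v = φ j)
    (h01 : ∀ f, z s(φ 0, φ 1) f = 0) (h34 : ∀ f, z s(φ 3, φ 4) f = 0)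
    (h35 : ∀ f, z s(φ 3, φ 5) f = 0) (h36 : ∀ f, z s(φ 3, φ 6) f = 0) :
    IsZ2 (kk (fun i : Fin 3 => φ (![0, 1, 2] i)) (fun j => φ (Y3 j))) z := by
  have key : ∀ e, (∃ f, z e f ≠ 0) → e ∈ G.edgeSet →
      e ∈ (kk (fun i : Fin 3 => φ (![0, 1, 2] i)) (fun j => φ (Y3 j))).edgeSet := by
    intro e
    induction e using Sym2.ind with
    | _ u v =>
      rintro ⟨f, hf⟩ he
      have he' : G.Adj u v := he
      obtain ⟨i, j, h, rfl, rfl⟩ := hG' u v he'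
      have c1 : ∀ i j : Fin 7, KG i j = true → (∃ k l, i = ![0, 1, 2] k ∧ j = Y3 l) ∨
          (∃ k l, i = Y3 l ∧ j = ![0, 1, 2] k) ∨ (i = 0 ∧ j = 1) ∨ (i = 1 ∧ j = 0) ∨
          (i = 3 ∧ (j = 4 ∨ j = 5 ∨ j = 6)) ∨ (j = 3 ∧ (i = 4 ∨ i = 5 ∨ i = 6)) := by
        decide
      refine ⟨he'.ne, ?_⟩
      rcases c1 i j h with ⟨k, l, rfl, rfl⟩ | ⟨k, l, rfl, rfl⟩ | ⟨rfl, rfl⟩ | ⟨rfl, rfl⟩ |
        ⟨rfl, rfl | rfl | rfl⟩ | ⟨rfl, rfl | rfl | rfl⟩
      · exact Or.inl ⟨k, l, rfl, rfl⟩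
      · exact Or.inr ⟨k, l, rfl, rfl⟩
      · exact absurd (h01 f) hf
      · rw [Sym2.eq_swap] at hf; exact absurd (h01 f) hf
      · exact absurd (h34 f) hf
      · exact absurd (h35 f) hf
      · exact absurd (h36 f) hf
      · rw [Sym2.eq_swap] at hf; exact absurd (h34 f) hf
      · rw [Sym2.eq_swap] at hf; exact absurd (h35 f) hf
      · rw [Sym2.eq_swap] at hf; exact absurd (h36 f) hf
  refine ⟨hz.1, fun e f h => ⟨key e ⟨f, h⟩ (hz.2.1 e f h).1, ?_, (hz.2.1 e f h).2.2⟩, hz.2.2⟩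
  exact key f ⟨e, by rw [hz.1]; exact h⟩ (hz.2.1 e f h).2.1

/-- to show that a row vanishes it is enough to look at the edges of the pattern -/
lemma row_zero (hz : IsZ2 G z) (hG' : ∀ u v, G.Adj u v → ∃ i j, KG i j = true ∧ u = φ i ∧ v = φ j)
    {e : Sym2 α} (h : ∀ k l : Fin 7, (k < 4 ∧ 4 ≤ l) ∨ (k = 0 ∧ l = 1) → z e s(φ k, φ l) = 0)
    (f : Sym2 α) : z e f = 0 := by
  by_contra h0
  obtain ⟨-, h2, -⟩ := hz.2.1 _ _ h0
  induction f using Sym2.ind with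
  | _ u v =>
    obtain ⟨i, j, h3, rfl, rfl⟩ := hG' u v h2
    have c1 : ∀ i j : Fin 7, KG i j = true → ((i < 4 ∧ 4 ≤ j) ∨ (i = 0 ∧ j = 1)) ∨
        ((j < 4 ∧ 4 ≤ i) ∨ (j = 0 ∧ i = 1)) := by decide
    rcases c1 i j h3 with h4 | h4
    · exact h0 (h i j h4)
    · rw [Sym2.eq_swap] at h0
      exact h0 (h j i h4)

/-- step A: the row of the additional edge is made zero -/
lemma stepA (hKUR : SpecKUR) (hz : IsZ2 G z) (hφ : Function.Injective φ)
    (hG : ∀ i j, G.Adj (φ i) (φ j) ↔ KG i j = true)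
    (hG' : ∀ u v, G.Adj u v → ∃ i j, KG i j = true ∧ u = φ i ∧ v = φ j)
    (h4 : KZ (gp (KH 4) φ)) (h5 : KZ (gp (KH 5) φ)) :
    ∃ z', IsZ2 G z' ∧ (Kur G z' → Kur G z) ∧ ∀ f, z' s(φ 0, φ 1) f = 0 := by
  have hle : ∀ c : Fin 7, c = 4 ∨ c = 5 → gp (KH c) φ ≤ G := by
    rintro c hc u v ⟨-, i, j, h, -, rfl, rfl⟩
    refine (hG _ _).2 ?_
    revert h
    revert i j
    rcases hc with rfl | rfl <;> decide
  have hz4 : IsZ2 (gp (KH 4) φ) (zp (PH 4) φ) := zp_isZ2 patH4 hφ fun i j h =>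
    (gp_adj hφ (KH_symm (Or.inl rfl)) (KH_irr (Or.inl rfl))).2 h
  have hz5 : IsZ2 (gp (KH 5) φ) (zp (PH 5) φ) := zp_isZ2 patH5 hφ fun i j h =>
    (gp_adj hφ (KH_symm (Or.inr rfl)) (KH_irr (Or.inr rfl))).2 h
  have k4 : Kur G (zp (PH 4) φ) := hKUR.mono (hle 4 (Or.inl rfl)) ((hKUR.kz _).1 h4 _ hz4)
  have k5 : Kur G (zp (PH 5) φ) := hKUR.mono (hle 5 (Or.inr rfl)) ((hKUR.kz _).1 h5 _ hz5)
  have z4 : IsZ2 G (zp (PH 4) φ) := hKUR.zmono (hle 4 (Or.inl rfl)) hz4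
  have z5 : IsZ2 G (zp (PH 5) φ) := hKUR.zmono (hle 5 (Or.inr rfl)) hz5
  set x0 := z s(φ 0, φ 1) s(φ 2, φ 4) with hx0
  set x1 := z s(φ 0, φ 1) s(φ 2, φ 5) with hx1
  have hza := hKUR.zadd (z2_smul z4 x1) (z2_smul z5 x0)
  have hka := hKUR.add (kur_smul k4 x1) (kur_smul k5 x0)
  have hzz := hKUR.zadd hz hza
  refine ⟨_, hzz, fun hk => ?_, row_zero hzz hG' ?_⟩
  · have h1 := hKUR.add hk hka
    have h2 : (fun e f => z e f + (x1 * zp (PH 4) φ e f + x0 * zp (PH 5) φ e f) +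
        (x1 * zp (PH 4) φ e f + x0 * zp (PH 5) φ e f)) = z := by
      funext e f
      rw [add_assoc, CharTwo.add_self_eq_zero, add_zero]
    rwa [h2] at h1
  · have r := fun m (hm : m ≠ 0 ∧ m ≠ 1) =>
      W_row (i := 0) (j := 1) (m := m) hz hφ (fun u v h => by
        obtain ⟨i, j, -, h1, h2⟩ := hG' u v h
        exact ⟨i, j, h1, h2⟩) hm.1 hm.2
    have w0 := fun k l (h : ¬ (KG 0 1 = true ∧ KG k l = true ∧ (0 : Fin 7) ≠ k ∧ (0 : Fin 7) ≠ l ∧
      (1 : Fin 7) ≠ k ∧ (1 : Fin 7) ≠ l)) => W_zero (i := 0) (j := 1) (k := k) (l := l) hz hG h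
    have sw : ∀ k l, z s(φ 0, φ 1) s(φ k, φ l) = z s(φ 0, φ 1) s(φ l, φ k) := fun k l => by
      rw [Sym2.eq_swap (a := φ k)]
    have r2 := r 2 (by decide)
    have r4 := r 4 (by decide)
    have r5 := r 5 (by decide)
    have r6 := r 6 (by decide)
    rw [Fin.sum_univ_seven] at r2 r4 r5 r6
    rw [w0 2 0 (by decide), w0 2 1 (by decide), w0 2 2 (by decide), w0 2 3 (by decide)] at r2
    rw [w0 4 0 (by decide), w0 4 1 (by decide), w0 4 4 (by decide), w0 4 5 (by decide),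
      w0 4 6 (by decide), sw 4 2, sw 4 3] at r4
    rw [w0 5 0 (by decide), w0 5 1 (by decide), w0 5 4 (by decide), w0 5 5 (by decide),
      w0 5 6 (by decide), sw 5 2, sw 5 3] at r5
    rw [w0 6 0 (by decide), w0 6 1 (by decide), w0 6 4 (by decide), w0 6 5 (by decide),
      w0 6 6 (by decide), sw 6 2, sw 6 3] at r6
    have key : ∀ w24 w25 w26 w34 w35 w36 : ZMod 2, 0 + 0 + 0 + 0 + w24 + w25 + w26 = 0 →
        0 + 0 + w24 + w34 + 0 + 0 + 0 = 0 → 0 + 0 + w25 + w35 + 0 + 0 + 0 = 0 →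
        0 + 0 + w26 + w36 + 0 + 0 + 0 = 0 →
        w26 = w24 + w25 ∧ w34 = w24 ∧ w35 = w25 ∧ w36 = w24 + w25 := by decide
    obtain ⟨e1, e2, e3, e4⟩ := key _ _ _ _ _ _ r2 r4 r5 r6
    intro k l hkl
    simp only [zp_apply patH4 hφ, zp_apply patH5 hφ]
    have c1 : ∀ k l : Fin 7, ((k < 4 ∧ 4 ≤ l) ∨ (k = 0 ∧ l = 1)) →
        (¬ (KG 0 1 = true ∧ KG k l = true ∧ (0 : Fin 7) ≠ k ∧ (0 : Fin 7) ≠ l ∧
          (1 : Fin 7) ≠ k ∧ (1 : Fin 7) ≠ l) ∧ PH 4 0 1 k l = false ∧ PH 5 0 1 k l = false) ∨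
        ((k = 2 ∨ k = 3) ∧ (l = 4 ∨ l = 5 ∨ l = 6)) := by decide
    rcases c1 k l hkl with ⟨h1, h2, h3⟩ | ⟨rfl | rfl, rfl | rfl | rfl⟩
    · rw [w0 k l h1, h2, h3]
      simp
    · rw [← hx0, show PH 4 0 1 2 4 = false by decide, show PH 5 0 1 2 4 = true by decide]
      simp [CharTwo.add_self_eq_zero]
    · rw [← hx1, show PH 4 0 1 2 5 = true by decide, show PH 5 0 1 2 5 = false by decide]
      simp [CharTwo.add_self_eq_zero]
    · rw [e1, show PH 4 0 1 2 6 = true by decide, show PH 5 0 1 2 6 = true by decide]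
      simp only [if_true, mul_one]
      rw [add_comm x1 x0, CharTwo.add_self_eq_zero]
    · rw [e2, ← hx0, show PH 4 0 1 3 4 = false by decide, show PH 5 0 1 3 4 = true by decide]
      simp [CharTwo.add_self_eq_zero]
    · rw [e3, ← hx1, show PH 4 0 1 3 5 = true by decide, show PH 5 0 1 3 5 = false by decide]
      simp [CharTwo.add_self_eq_zero]
    · rw [e4, show PH 4 0 1 3 6 = true by decide, show PH 5 0 1 3 6 = true by decide]
      simp only [if_true, mul_one]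
      rw [add_comm x1 x0, CharTwo.add_self_eq_zero]

/-- step B: the row of `3 4` is made zero -/
lemma stepB (hKUR : SpecKUR) (hz : IsZ2 G z) (hφ : Function.Injective φ)
    (hG : ∀ i j, G.Adj (φ i) (φ j) ↔ KG i j = true)
    (hG' : ∀ u v, G.Adj u v → ∃ i j, KG i j = true ∧ u = φ i ∧ v = φ j)
    (k0 : Kur G (zp (PX 0) φ)) (k1 : Kur G (zp (PX 1) φ))
    (h01 : ∀ f, z s(φ 0, φ 1) f = 0) :
    ∃ z', IsZ2 G z' ∧ (Kur G z' → Kur G z) ∧ (∀ f, z' s(φ 0, φ 1) f = 0) ∧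
      ∀ f, z' s(φ 3, φ 4) f = 0 := by
  have z0 : IsZ2 G (zp (PX 0) φ) := zp_isZ2 patX0 hφ fun i j h => (hG _ _).2 h
  have z1 : IsZ2 G (zp (PX 1) φ) := zp_isZ2 patX1 hφ fun i j h => (hG _ _).2 h
  -- the coefficients of the cycles through `0`, `2` and through `1`, `2`
  set y0 := z s(φ 3, φ 4) s(φ 0, φ 5) with hy0
  set y1 := z s(φ 3, φ 4) s(φ 1, φ 5) with hy1
  have hza := hKUR.zadd (z2_smul z1 y0) (z2_smul z0 y1)
  have hka := hKUR.add (kur_smul k1 y0) (kur_smul k0 y1)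
  have hzz := hKUR.zadd hz hza
  refine ⟨_, hzz, fun hk => ?_, row_zero hzz hG' ?_, row_zero hzz hG' ?_⟩
  · have h1 := hKUR.add hk hka
    have h2 : (fun e f => z e f + (y0 * zp (PX 1) φ e f + y1 * zp (PX 0) φ e f) +
        (y0 * zp (PX 1) φ e f + y1 * zp (PX 0) φ e f)) = z := by
      funext e f
      rw [add_assoc, CharTwo.add_self_eq_zero, add_zero]
    rwa [h2] at h1
  · intro k l _
    simp only [zp_apply patX0 hφ, zp_apply patX1 hφ, h01]
    have c1 : ∀ k l : Fin 7, PX 0 0 1 k l = false ∧ PX 1 0 1 k l = false := by decide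
    rw [(c1 k l).1, (c1 k l).2]
    simp
  · have r := fun m (hm : m ≠ 3 ∧ m ≠ 4) =>
      W_row (i := 3) (j := 4) (m := m) hz hφ (fun u v h => by
        obtain ⟨i, j, -, h1, h2⟩ := hG' u v h
        exact ⟨i, j, h1, h2⟩) hm.1 hm.2
    have w0 := fun k l (h : ¬ (KG 3 4 = true ∧ KG k l = true ∧ (3 : Fin 7) ≠ k ∧ (3 : Fin 7) ≠ l ∧
      (4 : Fin 7) ≠ k ∧ (4 : Fin 7) ≠ l)) => W_zero (i := 3) (j := 4) (k := k) (l := l) hz hG h
    have sw : ∀ k l, z s(φ 3, φ 4) s(φ k, φ l) = z s(φ 3, φ 4) s(φ l, φ k) := fun k l => by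
      rw [Sym2.eq_swap (a := φ k)]
    have h01' : z s(φ 3, φ 4) s(φ 0, φ 1) = 0 := by rw [hz.1]; exact h01 _
    have r0 := r 0 (by decide)
    have r1 := r 1 (by decide)
    have r2 := r 2 (by decide)
    have r5 := r 5 (by decide)
    rw [Fin.sum_univ_seven] at r0 r1 r2 r5
    rw [w0 0 0 (by decide), h01', w0 0 2 (by decide), w0 0 3 (by decide),
      w0 0 4 (by decide)] at r0
    rw [sw 1 0, h01', w0 1 1 (by decide), w0 1 2 (by decide), w0 1 3 (by decide),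
      w0 1 4 (by decide)] at r1
    rw [w0 2 0 (by decide), w0 2 1 (by decide), w0 2 2 (by decide), w0 2 3 (by decide),
      w0 2 4 (by decide)] at r2
    rw [w0 5 3 (by decide), w0 5 4 (by decide), w0 5 5 (by decide),
      w0 5 6 (by decide), sw 5 0, sw 5 1, sw 5 2] at r5
    have key : ∀ w05 w06 w15 w16 w25 w26 : ZMod 2, 0 + 0 + 0 + 0 + 0 + w05 + w06 = 0 →
        0 + 0 + 0 + 0 + 0 + w15 + w16 = 0 → 0 + 0 + 0 + 0 + 0 + w25 + w26 = 0 →
        w05 + w15 + w25 + 0 + 0 + 0 + 0 = 0 →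
        w06 = w05 ∧ w16 = w15 ∧ w25 = w05 + w15 ∧ w26 = w05 + w15 := by decide
    obtain ⟨e1, e2, e3, e4⟩ := key _ _ _ _ _ _ r0 r1 r2 r5
    intro k l hkl
    simp only [zp_apply patX0 hφ, zp_apply patX1 hφ]
    have c1 : ∀ k l : Fin 7, ((k < 4 ∧ 4 ≤ l) ∨ (k = 0 ∧ l = 1)) →
        (¬ (KG 3 4 = true ∧ KG k l = true ∧ (3 : Fin 7) ≠ k ∧ (3 : Fin 7) ≠ l ∧
          (4 : Fin 7) ≠ k ∧ (4 : Fin 7) ≠ l) ∧ PX 0 3 4 k l = false ∧ PX 1 3 4 k l = false) ∨
        ((k = 0 ∨ k = 1 ∨ k = 2) ∧ (l = 5 ∨ l = 6)) ∨ (k = 0 ∧ l = 1) := by decide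
    rcases c1 k l hkl with ⟨h1, h2, h3⟩ | ⟨rfl | rfl | rfl, rfl | rfl⟩ | ⟨rfl, rfl⟩
    · rw [w0 k l h1, h2, h3]
      simp
    · rw [← hy0, show PX 1 3 4 0 5 = true by decide, show PX 0 3 4 0 5 = false by decide]
      simp [CharTwo.add_self_eq_zero]
    · rw [e1, ← hy0, show PX 1 3 4 0 6 = true by decide, show PX 0 3 4 0 6 = false by decide]
      simp [CharTwo.add_self_eq_zero]
    · rw [← hy1, show PX 1 3 4 1 5 = false by decide, show PX 0 3 4 1 5 = true by decide]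
      simp [CharTwo.add_self_eq_zero]
    · rw [e2, ← hy1, show PX 1 3 4 1 6 = false by decide, show PX 0 3 4 1 6 = true by decide]
      simp [CharTwo.add_self_eq_zero]
    · rw [e3, ← hy0, ← hy1, show PX 1 3 4 2 5 = true by decide, show PX 0 3 4 2 5 = true by decide]
      simp only [if_true, mul_one]
      rw [CharTwo.add_self_eq_zero]
    · rw [e4, ← hy0, ← hy1, show PX 1 3 4 2 6 = true by decide, show PX 0 3 4 2 6 = true by decide]
      simp only [if_true, mul_one]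
      rw [CharTwo.add_self_eq_zero]
    · rw [h01', show PX 1 3 4 0 1 = false by decide, show PX 0 3 4 0 1 = false by decide]
      simp

/-- step C: then the rows of `3 5` and `3 6` vanish -/
lemma stepC (hz : IsZ2 G z) (hφ : Function.Injective φ)
    (hG : ∀ i j, G.Adj (φ i) (φ j) ↔ KG i j = true)
    (hG' : ∀ u v, G.Adj u v → ∃ i j, KG i j = true ∧ u = φ i ∧ v = φ j)
    (h01 : ∀ f, z s(φ 0, φ 1) f = 0) (h34 : ∀ f, z s(φ 3, φ 4) f = 0) {p q : Fin 7}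
    (hpq : (p = 5 ∧ q = 6) ∨ (p = 6 ∧ q = 5)) : ∀ f, z s(φ 3, φ p) f = 0 := by
  have hr : ∀ u v, G.Adj u v → ∃ i j, u = φ i ∧ v = φ j := fun u v h => by
    obtain ⟨i, j, -, h1, h2⟩ := hG' u v h
    exact ⟨i, j, h1, h2⟩
  have w0 := fun i j k l (h : ¬ (KG i j = true ∧ KG k l = true ∧ i ≠ k ∧ i ≠ l ∧
      j ≠ k ∧ j ≠ l)) => W_zero (i := i) (j := j) (k := k) (l := l) hz hG h
  -- the entries with an edge at `q`
  have h1 : ∀ i : Fin 7, (i = 0 ∨ i = 1 ∨ i = 2) → z s(φ 3, φ p) s(φ i, φ q) = 0 := by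
    intro i hi
    have r := W_row (i := i) (j := q) (m := 3) hz hφ hr
      (by rcases hi with rfl | rfl | rfl <;> decide) (by rcases hpq with ⟨-, rfl⟩ | ⟨-, rfl⟩ <;> decide)
    rw [Fin.sum_univ_seven, w0 i q 3 0 (fun h => absurd h.2.1 (by decide)),
      w0 i q 3 1 (fun h => absurd h.2.1 (by decide)), w0 i q 3 2 (fun h => absurd h.2.1 (by decide)),
      w0 i q 3 3 (fun h => absurd h.2.1 (by decide)), hz.1 s(φ i, φ q) s(φ 3, φ 4), h34] at r
    rw [hz.1]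
    rcases hpq with ⟨rfl, rfl⟩ | ⟨rfl, rfl⟩
    · rw [w0 i 6 3 6 (fun h => h.2.2.2.2.2 rfl)] at r
      simpa using r
    · rw [w0 i 5 3 5 (fun h => h.2.2.2.2.2 rfl)] at r
      simpa using r
  have h2 : ∀ i : Fin 7, (i = 0 ∨ i = 1 ∨ i = 2) → z s(φ 3, φ p) s(φ i, φ 4) = 0 := by
    intro i hi
    have h3 := h1 i hi
    have r := W_row (i := 3) (j := p) (m := i) hz hφ hr
      (by rcases hi with rfl | rfl | rfl <;> decide)
      (by rcases hpq with ⟨rfl, -⟩ | ⟨rfl, -⟩ <;> rcases hi with rfl | rfl | rfl <;> decide)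
    have h01' : z s(φ 3, φ p) s(φ 0, φ 1) = 0 := by rw [hz.1]; exact h01 _
    have h10' : z s(φ 3, φ p) s(φ 1, φ 0) = 0 := by rw [Sym2.eq_swap (a := φ 1)]; exact h01'
    rw [Fin.sum_univ_seven] at r
    rcases hi with rfl | rfl | rfl <;> rcases hpq with ⟨rfl, rfl⟩ | ⟨rfl, rfl⟩
    · rw [w0 3 5 0 0 (by decide), h01', w0 3 5 0 2 (by decide), w0 3 5 0 3 (by decide),
        w0 3 5 0 5 (by decide), h3] at r
      simpa using r
    · rw [w0 3 6 0 0 (by decide), h01', w0 3 6 0 2 (by decide), w0 3 6 0 3 (by decide),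
        w0 3 6 0 6 (by decide), h3] at r
      simpa using r
    · rw [h10', w0 3 5 1 1 (by decide), w0 3 5 1 2 (by decide), w0 3 5 1 3 (by decide),
        w0 3 5 1 5 (by decide), h3] at r
      simpa using r
    · rw [h10', w0 3 6 1 1 (by decide), w0 3 6 1 2 (by decide), w0 3 6 1 3 (by decide),
        w0 3 6 1 6 (by decide), h3] at r
      simpa using r
    · rw [w0 3 5 2 0 (by decide), w0 3 5 2 1 (by decide), w0 3 5 2 2 (by decide),
        w0 3 5 2 3 (by decide), w0 3 5 2 5 (by decide), h3] at r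
      simpa using r
    · rw [w0 3 6 2 0 (by decide), w0 3 6 2 1 (by decide), w0 3 6 2 2 (by decide),
        w0 3 6 2 3 (by decide), w0 3 6 2 6 (by decide), h3] at r
      simpa using r
  refine row_zero hz hG' fun k l hkl => ?_
  by_cases h5 : KG 3 p = true ∧ KG k l = true ∧ (3 : Fin 7) ≠ k ∧ (3 : Fin 7) ≠ l ∧ p ≠ k ∧ p ≠ l
  · have c1 : ∀ k l p q : Fin 7, ((p = 5 ∧ q = 6) ∨ (p = 6 ∧ q = 5)) ∧
        ((k < 4 ∧ 4 ≤ l) ∨ (k = 0 ∧ l = 1)) ∧ (3 : Fin 7) ≠ k ∧ p ≠ l →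
        ((k = 0 ∨ k = 1 ∨ k = 2) ∧ (l = 4 ∨ l = q)) ∨ (k = 0 ∧ l = 1) := by decide
    rcases c1 k l p q ⟨hpq, hkl, h5.2.2.1, h5.2.2.2.2.2⟩ with ⟨h6, rfl | rfl⟩ | ⟨rfl, rfl⟩
    · exact h2 k h6
    · exact h1 k h6
    · rw [hz.1]; exact h01 _
  · exact w0 _ _ _ _ h5

end main

end K34M

theorem specK34 (hKUR : SpecKUR) (hKSU : SpecKSU) : SpecK34 := by
  intro α _ _ G a b hIH h
  let φ : Fin 7 → α := (Fin.append a b : Fin (4 + 3) → α)
  have hφ : Function.Injective φ := Fin.append_injective_iff.2 ⟨h.ia, h.ib, h.ab⟩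
  have ea : ∀ i : Fin 4, φ (Fin.castAdd 3 i) = a i := fun i => Fin.append_left _ _ _
  have eb : ∀ i : Fin 3, φ (Fin.natAdd 4 i) = b i := fun i => Fin.append_right _ _ _
  have hG : ∀ i j, G.Adj (φ i) (φ j) ↔ K34M.KG i j = true := by
    intro i j
    refine Fin.addCases (m := 4) (n := 3) (fun i => ?_) (fun i => ?_) i <;>
      refine Fin.addCases (m := 4) (n := 3) (fun j => ?_) (fun j => ?_) j
    · rw [ea, ea, h.aa]
      revert i j
      decide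
    · rw [ea, eb]
      refine iff_of_true ((h.nb j (a i)).2 ⟨i, rfl⟩).symm ?_
      revert i j
      decide
    · rw [ea, eb]
      refine iff_of_true ((h.nb i (a j)).2 ⟨j, rfl⟩) ?_
      revert i j
      decide
    · rw [eb, eb]
      refine iff_of_false (fun hh => ?_) ?_
      · obtain ⟨k, hk⟩ := (h.nb _ _).1 hh
        exact h.ab k j hk.symm
      · revert i j
        decide
  have hG' : ∀ u v, G.Adj u v → ∃ i j, K34M.KG i j = true ∧ u = φ i ∧ v = φ j := by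
    intro u v huv
    have key : ∀ w ∈ VS G, ∃ i, w = φ i := by
      intro w hw
      rcases h.vs w hw with ⟨i, rfl⟩ | ⟨i, rfl⟩
      · exact ⟨_, (ea i).symm⟩
      · exact ⟨_, (eb i).symm⟩
    obtain ⟨i, rfl⟩ := key u (left_mem_VS huv)
    obtain ⟨j, rfl⟩ := key v (right_mem_VS huv)
    exact ⟨i, j, (hG i j).1 huv, rfl, rfl⟩
  have hmem : ∀ i, φ i ∈ VS G := by
    have c : ∀ i : Fin 7, ∃ j, K34M.KG i j = true := by decide
    intro i
    obtain ⟨j, hj⟩ := c i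
    exact left_mem_VS ((hG i j).2 hj)
  -- the copies of `K_{3,3}`
  have kz : ∀ (x : Fin 3 → Fin 7) (o : Fin 7), Function.Injective x → (∀ k, x k < 4) →
      (∀ k, o ≠ x k) → o < 4 → KZ (K34M.kk (fun i => φ (x i)) (fun j => φ (K34M.Y3 j))) := by
    intro x o hx hx4 ho ho4
    have y4 : ∀ k, 4 ≤ K34M.Y3 k := by decide
    have yi : Function.Injective K34M.Y3 := by decide
    refine K34M.kz_kk hIH (fun i j e => hx (hφ e)) (fun i j e => yi (hφ e))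
      (fun i j e => ?_) (fun i j => (hG _ _).2 ?_) (hmem o) (fun i e => ho i (hφ e))
      (fun j e => ?_)
    · have := hφ e
      have h1 := hx4 i
      have h2 := y4 j
      rw [this] at h1
      exact absurd h1 (not_lt.2 h2)
    · unfold K34M.KG
      exact decide_eq_true (Or.inl ⟨hx4 i, y4 j⟩)
    · have := hφ e
      rw [this] at ho4
      exact absurd ho4 (not_lt.2 (y4 j))
  have k023 := kz K34M.X3 1 (by decide) (by decide) (by decide) (by decide)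
  have k123 := kz ![1, 2, 3] 0 (by decide) (by decide) (by decide) (by decide)
  have k012 := kz ![0, 1, 2] 3 (by decide) (by decide) (by decide) (by decide)
  -- the two-cycles of the copies
  have kp : ∀ (x : Fin 3 → Fin 7) (o : Fin 7), K34M.Pat K34M.KG (K34M.PX o) →
      (∀ k, x k < 4) → (∀ i j, (K34M.KX o i j = true → (∃ k l, i = x k ∧ j = K34M.Y3 l) ∨
        ∃ k l, i = K34M.Y3 l ∧ j = x k)) →
      KZ (K34M.kk (fun i => φ (x i)) (fun j => φ (K34M.Y3 j))) → Kur G (K34M.zp (K34M.PX o) φ) := by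
    intro x o hp hx4 hK hkz
    have y4 : ∀ k, 4 ≤ K34M.Y3 k := by decide
    have hle : K34M.kk (fun i => φ (x i)) (fun j => φ (K34M.Y3 j)) ≤ G := by
      rintro u w ⟨-, ⟨i, j, rfl, rfl⟩ | ⟨i, j, rfl, rfl⟩⟩
      · exact (hG _ _).2 (decide_eq_true (Or.inl ⟨hx4 i, y4 j⟩))
      · exact (hG _ _).2 (decide_eq_true (Or.inr (Or.inl ⟨hx4 i, y4 j⟩)))
    refine hKUR.mono hle ((hKUR.kz _).1 hkz _ (K34M.zp_isZ2 (K := K34M.KX o)
      ⟨hp.s1, hp.s2, hp.s3, fun i j k l hh => ?_, hp.row⟩ hφ fun i j hij => ?_))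
    · unfold K34M.PX at hh
      rw [Bool.and_eq_true, Bool.and_eq_true, decide_eq_true_eq] at hh
      exact ⟨hh.1.1, hh.1.2, hh.2⟩
    · have hne : φ i ≠ φ j := by
        intro e
        have e' := hφ e
        subst e'
        unfold K34M.KX at hij
        have hij' := of_decide_eq_true hij
        rcases hij'.1 with h1 | h1
        · exact absurd h1.1 (not_lt.2 h1.2)
        · exact absurd h1.1 (not_lt.2 h1.2)
      refine ⟨hne, (hK i j hij).imp ?_ ?_⟩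
      · rintro ⟨k, l, rfl, rfl⟩
        exact ⟨k, l, rfl, rfl⟩
      · rintro ⟨k, l, rfl, rfl⟩
        exact ⟨k, l, rfl, rfl⟩
  have p0 := kp ![1, 2, 3] 0 K34M.patX0 (by decide) (by decide) k123
  have p1 := kp K34M.X3 1 K34M.patX1 (by decide) (by decide) k023
  rw [hKUR.kz]
  intro z hz
  obtain ⟨z1, hz1, hk1, h1a⟩ := K34M.stepA hKUR hz hφ hG hG'
    (K34M.kz_H hKSU (Or.inl rfl) hφ k023) (K34M.kz_H hKSU (Or.inr rfl) hφ k023)
  obtain ⟨z2, hz2, hk2, h2a, h2b⟩ := K34M.stepB hKUR hz1 hφ hG hG' p0 p1 h1a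
  have h3a := K34M.stepC hz2 hφ hG hG' h2a h2b (Or.inl ⟨rfl, rfl⟩)
  have h3b := K34M.stepC hz2 hφ hG hG' h2a h2b (Or.inr ⟨rfl, rfl⟩)
  have hfin := K34M.fin hz2 hG' h2a h2b h3a h3b
  refine hk1 (hk2 (hKUR.mono ?_ ((hKUR.kz _).1 k012 _ hfin)))
  have y4 : ∀ k, 4 ≤ K34M.Y3 k := by decide
  have x4 : ∀ k : Fin 3, (![0, 1, 2] : Fin 3 → Fin 7) k < 4 := by decide
  rintro u w ⟨-, ⟨i, j, rfl, rfl⟩ | ⟨i, j, rfl, rfl⟩⟩
  · exact (hG _ _).2 (decide_eq_true (Or.inl ⟨x4 i, y4 j⟩))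
  · exact (hG _ _).2 (decide_eq_true (Or.inr (Or.inl ⟨x4 i, y4 j⟩)))

end DL
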