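import Pool.Agent.DL.E.GLU
import Pool.Agent.DL.EX.PMB
import Pool.Agent.DL.EX.INJ

set_option autoImplicit false
set_option linter.unusedSectionVars false

/-!
# LMA: LEMMA B, first part
-/

open SimpleGraph Finset

namespace DL

namespace LMAM

variable {α : Type} [Fintype α] [DecidableEq α]

/-- the coefficients at the edge `ua`, both orientations -/
def MM (u a : α) (μ : α → α → α → α → ZMod 2) (c d : α) : ZMod 2 := μ u a c d + μ a u c d

lemma sum2 {u a : α} (hua : u ≠ a) (g : α → α → ZMod 2)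
    (hg : ∀ x y, s(x, y) ≠ s(u, a) → g x y = 0) : ∑ x, ∑ y, g x y = g u a + g a u := by
  rw [← INJM.sum_sym g hua]
  refine sum_congr rfl fun x _ => sum_congr rfl fun y _ => ?_
  split_ifs with h
  · rfl
  · exact hg x y h

lemma pair_ua {u a : α} (hua : u ≠ a) {μ : α → α → α → α → ZMod 2}
    (hμ : ∀ a' b' c d, μ a' b' c d ≠ 0 → s(a', b') = s(u, a)) (z : Sym2 α → Sym2 α → ZMod 2) :
    pair2 μ z = ∑ c, ∑ d, MM u a μ c d * z s(u, a) s(c, d) := by
  unfold pair2 MM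
  rw [sum2 hua (fun x y => ∑ c, ∑ d, μ x y c d * z s(x, y) s(c, d))]
  · simp only [add_mul, sum_add_distrib, Sym2.eq_swap (a := a) (b := u)]
  · intro x y h
    exact sum_eq_zero fun c _ => sum_eq_zero fun d _ => by
      rw [show μ x y c d = 0 from by_contra fun h' => h (hμ x y c d h'), zero_mul]

/-- if `μ` (supported at the edge `ua`) kills enough 2-cycles then it is a coboundary -/
lemma slice {N K : SimpleGraph α} {u a : α} (hua : u ≠ a) {μ : α → α → α → α → ZMod 2}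
    (hμ : ∀ a' b' c d, μ a' b' c d ≠ 0 → s(a', b') = s(u, a))
    (hz : ∀ z, IsZ2 N z → pair2 μ z = 0)
    (hL : ∀ Z ∈ Z1 (del K {u, a}), ∃ z, IsZ2 N z ∧ ∀ f, z s(u, a) f = Z f) :
    ∃ s : α → ZMod 2, ∀ c d, (del K {u, a}).Adj c d →
      MM u a μ c d + MM u a μ d c = s c + s d := by
  obtain ⟨s, hs⟩ := cut (G := del K {u, a})
    (a := fun e => ∑ c, ∑ d, if s(c, d) = e then MM u a μ c d else 0) (by
      intro Z hZ
      obtain ⟨z, hz1, hz2⟩ := hL Z hZ
      have h3 := hz z hz1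
      rw [pair_ua hua hμ] at h3
      have h4 := INJM.sum_pair (MM u a μ) Z
      rw [sum_congr rfl fun e _ => mul_comm _ _, ← h4, ← h3]
      refine sum_congr rfl fun c _ => sum_congr rfl fun d _ => ?_
      rw [hz2, mul_comm])
  refine ⟨s, fun c d hcd => ?_⟩
  rw [← hs c d hcd, INJM.sum_sym _ hcd.ne]

lemma s8A {G' : SimpleGraph α} {u a : α} {μ : α → α → α → α → ZMod 2}
    (hμ : ∀ a' b' c d, μ a' b' c d ≠ 0 → s(a', b') = s(u, a) ∧ Dj4 a' b' c d) {s : α → ZMod 2}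
    (hs : ∀ c d, (del G' {u, a}).Adj c d → MM u a μ c d + MM u a μ d c = s c + s d)
    {a' b' c' d' : α} (hd : Dj4 a' b' c' d') (h : s(a', b') = s(u, a)) (hcd : G'.Adj c' d') :
    sym8 μ a' b' c' d' = s c' + s d' ∧ s(c', d') ≠ s(u, a) ∧ c' ≠ u ∧ c' ≠ a ∧ d' ≠ u ∧ d' ≠ a := by
  obtain ⟨h1, h2, h3, h4, h5, h6⟩ := hd
  have hc : c' ≠ u ∧ c' ≠ a ∧ d' ≠ u ∧ d' ≠ a := by
    rcases Sym2.eq_iff.1 h with ⟨rfl, rfl⟩ | ⟨rfl, rfl⟩
    · exact ⟨h3.symm, h5.symm, h4.symm, h6.symm⟩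
    · exact ⟨h5.symm, h3.symm, h6.symm, h4.symm⟩
  have hne : s(c', d') ≠ s(u, a) := by
    intro e
    rcases Sym2.eq_iff.1 e with ⟨e, _⟩ | ⟨e, _⟩
    · exact hc.1 e
    · exact hc.2.1 e
  have hne' : s(d', c') ≠ s(u, a) := by rwa [Sym2.eq_swap]
  have hz : ∀ x y, μ c' d' x y = 0 := fun x y => by_contra fun h' => hne (hμ _ _ _ _ h').1
  have hz' : ∀ x y, μ d' c' x y = 0 := fun x y => by_contra fun h' => hne' (hμ _ _ _ _ h').1
  refine ⟨?_, hne, hc⟩
  have h7 := hs c' d' ⟨hcd, by simp [hc.1, hc.2.1], by simp [hc.2.2.1, hc.2.2.2]⟩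
  unfold MM at h7
  unfold sym8
  rw [hz, hz', hz, hz']
  rcases Sym2.eq_iff.1 h with ⟨rfl, rfl⟩ | ⟨rfl, rfl⟩
  · linear_combination h7
  · linear_combination h7

/-- division: a function which is cubic up to a coboundary at `ua` and vanishes on the cycles of
`G' - ua` is a multiple of the coordinate `ua` -/
lemma core (hPOL : SpecPOL) (hNOR : SpecNOR) (hVRS : SpecVRS) (hI3S : SpecI3S) (hDVS : SpecDVS)
    {G' : SimpleGraph α} {u a : α} (hS : S3S (delE G' u a))
    {φ : Finset (Sym2 α) → ZMod 2} {p : Chain α → ZMod 2} (hp : DegLE 3 p) (hp0 : p 0 = 0)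
    {μ : α → α → α → α → ZMod 2}
    (hμ : ∀ a' b' c d, μ a' b' c d ≠ 0 → s(a', b') = s(u, a) ∧ Dj4 a' b' c d)
    (hφ : ∀ C, IsCyc G' C → φ C = p (chi C) + cohs μ C)
    (h0 : ∀ C, IsCyc (delE G' u a) C → φ C = 0) {s : α → ZMod 2}
    (hs : ∀ c d, (del G' {u, a}).Adj c d → MM u a μ c d + MM u a μ d c = s c + s d) :
    ∃ q : Chain α → ZMod 2, DegLE 2 q ∧ ∀ C, IsCyc G' C → φ C = chi C s(u, a) * q (chi C) := by
  classical
  have hle : delE G' u a ≤ G' := deleteEdges_le _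
  obtain ⟨l', hl', p1, hp13, hp10, hp1⟩ :=
    hVRS (fun w e => if e = s(u, a) ∧ w ≠ u ∧ w ≠ a then s w else 0)
  obtain ⟨p2, hp23, hp20, hp2⟩ := hNOR G' (fun a b c d => μ a b c d + l' a b c d) (by
    intro a' b' c' d' hab hcd hd
    rw [EXDM.sym8_add, hl' _ _ _ _ hd]
    by_cases h1 : s(a', b') = s(u, a)
    · obtain ⟨e1, e2, e3, e4, e5, e6⟩ := s8A hμ hs hd h1 hcd
      rw [e1, if_neg fun h => e2 h.1, if_neg fun h => e2 h.1, if_pos ⟨h1, e3, e4⟩,
        if_pos ⟨h1, e5, e6⟩, zero_add, zero_add]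
      exact zmod2_add_self _
    · by_cases h2 : s(c', d') = s(u, a)
      · have hd' := MUEM.dj_comm hd
        obtain ⟨e1, e2, e3, e4, e5, e6⟩ := s8A hμ hs hd' h2 hab
        rw [← MUEM.sym8_comm, e1, if_pos ⟨h2, e3, e4⟩, if_pos ⟨h2, e5, e6⟩,
          if_neg fun h => e2 h.1, if_neg fun h => e2 h.1, add_zero, add_zero]
        exact zmod2_add_self _
      · rw [if_neg fun h => h2 h.1, if_neg fun h => h2 h.1, if_neg fun h => h1 h.1,
          if_neg fun h => h1 h.1]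
        have h1' : s(b', a') ≠ s(u, a) := by rwa [Sym2.eq_swap]
        have h2' : s(d', c') ≠ s(u, a) := by rwa [Sym2.eq_swap]
        have z1 : ∀ x y, μ a' b' x y = 0 := fun x y => by_contra fun h => h1 (hμ _ _ _ _ h).1
        have z2 : ∀ x y, μ b' a' x y = 0 := fun x y => by_contra fun h => h1' (hμ _ _ _ _ h).1
        have z3 : ∀ x y, μ c' d' x y = 0 := fun x y => by_contra fun h => h2 (hμ _ _ _ _ h).1
        have z4 : ∀ x y, μ d' c' x y = 0 := fun x y => by_contra fun h => h2' (hμ _ _ _ _ h).1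
        unfold sym8
        simp only [z1, z2, z3, z4, add_zero])
  have hcohs : ∀ C, IsCyc G' C → cohs μ C = p2 (chi C) + p1 (chi C) := by
    intro C hC
    have h1 := hp2 C hC
    rw [EXDM.cohs_add, hp1 G' C hC] at h1
    have h2 := zmod2_add_self (p1 (chi C))
    linear_combination h1 - h2
  set P : Chain α → ZMod 2 := fun c => p c + (p2 c + p1 c) with hP
  have hP3 : DegLE 3 P := hPOL.add hp (hPOL.add (hPOL.mono (by norm_num) hp23) hp13)
  have hP0 : P 0 = 0 := by simp only [hP, hp0, hp20, hp10, add_zero]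
  have hφP : ∀ C, IsCyc G' C → φ C = P (chi C) := by
    intro C hC
    rw [hφ C hC, hcohs C hC]
  obtain ⟨r, hr1, hr2⟩ := hI3S (delE G' u a) hS P hP3 hP0 (fun C hC => by
    rw [← hφP C (hC.mono hle)]
    exact h0 C hC)
  obtain ⟨q, hq1, hq2⟩ := hDVS (Z1 G') {s(u, a)} 2 (fun c => P c + ∑ v, r v c)
    (hPOL.add hP3 (hPOL.sum univ _ fun v _ => EXDM.tr_deg hPOL (hr1 v))) (by
    intro c hc hcS
    have hcG : c ∈ Z1 (delE G' u a) := by
      refine ⟨fun e he => ?_, hc.2⟩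
      rw [delE, edgeSet_deleteEdges]
      exact ⟨hc.1 e he, fun h => he (hcS e (by simpa using h))⟩
    simp only [hr2 c hcG]
    exact zmod2_add_self _)
  refine ⟨q s(u, a), hq1 _, fun C hC => ?_⟩
  rw [hφP C hC]
  have h1 := hq2 (chi C) hC.chi_mem
  beta_reduce at h1
  rw [sum_eq_zero fun v _ => EXDM.rv_cyc (hr1 v) hC, add_zero, sum_singleton] at h1
  exact h1

/-- the coefficients at `ua` kill the 2-cycles of `G' - ub` -/
lemma kill (hPOL : SpecPOL) {G' : SimpleGraph α} {u a b : α} (hK2 : KZ (delE G' u b))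
    {φ : Finset (Sym2 α) → ZMod 2} {q : Chain α → ZMod 2} {μ : α → α → α → α → ZMod 2}
    (hq : DegLE 2 q) (hφ : ∀ C, IsCyc G' C → φ C = chi C s(u, a) * q (chi C) + cohs μ C)
    (h0 : ∀ C, IsCyc (delE G' u b) C → φ C = 0) : ∀ z, IsZ2 (delE G' u b) z → pair2 μ z = 0 := by
  have hle : delE G' u b ≤ G' := deleteEdges_le _
  refine hK2 μ ⟨fun c => c s(u, a) * q c, hPOL.mul (d := 1) (e := 2) (GLUM.coord hPOL _) hq,
    by simp, fun C hC => ?_⟩
  have h1 := hφ C (hC.mono hle)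
  rw [h0 C hC] at h1
  have key : ∀ x y : ZMod 2, 0 = y + x → x = y := by decide
  exact key _ _ h1

lemma delE_adj {G' : SimpleGraph α} {u b c d : α} (h : G'.Adj c d) (hne : s(c, d) ≠ s(u, b)) :
    (delE G' u b).Adj c d := by
  rw [delE, deleteEdges_adj]
  exact ⟨h, by simpa using hne⟩

lemma b (hEXD : SpecEXD) (hLPE : SpecLPE) (hVRS : SpecVRS) (hNOR : SpecNOR) (hI3S : SpecI3S)
    (hDVS : SpecDVS) (hPOL : SpecPOL) {G' : SimpleGraph α} {u a b : α} (hua : G'.Adj u a)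
    (hab : a ≠ b) (hS1 : S3S (delE G' u a)) (hK1 : KZ (delE G' u a)) (hK2 : KZ (delE G' u b))
    (hS : S3S (delE (delE G' u b) u a)) (hu : u ∈ VS (delE (delE G' u b) u a))
    (ha : a ∈ VS (delE (delE G' u b) u a)) (φ : Finset (Sym2 α) → ZMod 2) (hφ : InF G' φ)
    (h1 : ∀ C, IsCyc (delE G' u a) C → φ C = 0) (h2 : ∀ C, IsCyc (delE G' u b) C → φ C = 0) :
    ∃ q : Chain α → ZMod 2, DegLE 2 q ∧ ∀ C, IsCyc G' C → φ C = chi C s(u, a) * q (chi C) := by
  obtain ⟨q, μ, hq, hμ, hC⟩ := GLUM.exd1 hEXD hS1 hK1 φ hφ h1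
  have hz := kill hPOL hK2 hq hC h2
  have hadj : (delE G' u b).Adj u a := delE_adj hua (by
    intro e
    rcases Sym2.eq_iff.1 e with ⟨_, e⟩ | ⟨_, e⟩
    · exact hab e
    · exact hua.ne e.symm)
  obtain ⟨s, hs⟩ := slice (K := delE G' u b) hua.ne (fun a' b' c d h => (hμ a' b' c d h).1) hz
    (fun Z hZ => hLPE.edge hadj hS hu ha Z hZ)
  refine core hPOL hNOR hVRS hI3S hDVS hS1 (p := fun c => c s(u, a) * q c)
    (hPOL.mul (d := 1) (e := 2) (GLUM.coord hPOL _) hq) (by simp) hμ hC h1 (s := s)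
    (fun c d hcd => hs c d ?_)
  obtain ⟨h3, h4, h5⟩ := hcd
  refine ⟨delE_adj h3 fun e => ?_, h4, h5⟩
  rcases Sym2.eq_iff.1 e with ⟨e, _⟩ | ⟨_, e⟩
  · exact h4 (by simp [e])
  · exact h5 (by simp [e])

lemma cohs_one (ε : ZMod 2) (a u r s : α) (C : Finset (Sym2 α)) :
    cohs (fun a' b' c d => if a' = a then if b' = u then if c = r then if d = s then ε else 0 else 0
      else 0 else 0) C = ε * coh a u r s C := by
  unfold cohs
  simp [ite_mul]

lemma b' (hEXD : SpecEXD) (hLPE : SpecLPE) (hKUR : SpecKUR) (hVRS : SpecVRS) (hNOR : SpecNOR)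
    (hI3S : SpecI3S) (hDVS : SpecDVS) (hPOL : SpecPOL) {G' : SimpleGraph α} {u a b r s : α}
    (hua : G'.Adj u a) (hab : a ≠ b) (hrs : G'.Adj r s) (hru : r ≠ u) (hra : r ≠ a) (hsu : s ≠ u)
    (hsa : s ≠ a) (hS1 : S3S (delE G' u a)) (hK1 : KZ (delE G' u a)) (hK2 : KZ (delE G' u b))
    (hS : S3S (delE (delE (delE G' u b) u a) r s))
    (hu : u ∈ VS (delE (delE (delE G' u b) u a) r s))
    (ha : a ∈ VS (delE (delE (delE G' u b) u a) r s)) (φ : Finset (Sym2 α) → ZMod 2)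
    (hφ : InF G' φ) (h1 : ∀ C, IsCyc (delE G' u a) C → φ C = 0)
    (h2 : ∀ C, IsCyc (delE G' u b) C → φ C = 0) :
    ∃ (q : Chain α → ZMod 2) (ε : ZMod 2), DegLE 2 q ∧
      ∀ C, IsCyc G' C → φ C = chi C s(u, a) * q (chi C) + ε * coh a u r s C := by
  classical
  obtain ⟨q, μ, hq, hμ, hC⟩ := GLUM.exd1 hEXD hS1 hK1 φ hφ h1
  have hz := kill hPOL hK2 hq hC h2
  have hadj : (delE G' u b).Adj u a := delE_adj hua (by
    intro e
    rcases Sym2.eq_iff.1 e with ⟨_, e⟩ | ⟨_, e⟩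
    · exact hab e
    · exact hua.ne e.symm)
  have hrsua : s(r, s) ≠ s(u, a) := by
    intro e
    rcases Sym2.eq_iff.1 e with ⟨e, _⟩ | ⟨e, _⟩
    · exact hru e
    · exact hra e
  have hadj' : (delE (delE G' u b) r s).Adj u a := delE_adj hadj hrsua.symm
  have hcomm : delE (delE (delE G' u b) r s) u a = delE (delE (delE G' u b) u a) r s := by
    simp only [delE, deleteEdges_deleteEdges]
    congr 1
    ext e
    simp only [Set.mem_union, Set.mem_singleton_iff]
    tauto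
  obtain ⟨t, ht⟩ := slice (K := delE (delE G' u b) r s) hua.ne
    (fun a' b' c d h => (hμ a' b' c d h).1) hz
    (fun Z hZ => by
      rw [← hcomm] at hS hu ha
      obtain ⟨z, hz1, hz2⟩ := hLPE.edge hadj' hS hu ha Z hZ
      exact ⟨z, hKUR.zmono (deleteEdges_le _) hz1, hz2⟩)
  set ε : ZMod 2 := MM u a μ r s + MM u a μ s r + (t r + t s) with hε
  set ν : α → α → α → α → ZMod 2 := fun a' b' c d =>
    if a' = a then if b' = u then if c = r then if d = s then ε else 0 else 0 else 0 else 0 with hν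
  set μ' : α → α → α → α → ZMod 2 := fun a' b' c d => μ a' b' c d + ν a' b' c d with hμ'
  have hν0 : ∀ a' b' c d, ν a' b' c d ≠ 0 → a' = a ∧ b' = u ∧ c = r ∧ d = s := by
    intro a' b' c d h
    simp only [hν] at h
    split_ifs at h with e1 e2 e3 e4
    · exact ⟨e1, e2, e3, e4⟩
    all_goals exact absurd rfl h
  have hνa : ∀ c d, ν u a c d = 0 := fun c d => by
    by_contra h
    exact hua.ne (hν0 _ _ _ _ h).1
  have hνu : ∀ c d, ν a u c d = if c = r then if d = s then ε else 0 else 0 := fun c d => by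
    simp only [hν, if_true]
  have hMM : ∀ c d, MM u a μ' c d = MM u a μ c d + (if c = r then if d = s then ε else 0 else 0) := by
    intro c d
    unfold MM
    simp only [hμ', hνa, hνu]
    ring
  have hcoh' : ∀ C, cohs μ' C = cohs μ C + ε * coh a u r s C := by
    intro C
    rw [hμ', EXDM.cohs_add, hν, cohs_one]
  obtain ⟨q', hq', hC'⟩ := core hPOL hNOR hVRS hI3S hDVS hS1
    (φ := fun C => φ C + ε * coh a u r s C) (p := fun c => c s(u, a) * q c)
    (hPOL.mul (d := 1) (e := 2) (GLUM.coord hPOL _) hq) (by simp) (μ := μ')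
    (by
      intro a' b' c d h
      by_cases h3 : μ a' b' c d = 0
      · have h4 : ν a' b' c d ≠ 0 := by
          intro h4
          exact h (by simp only [hμ', h3, h4, add_zero])
        obtain ⟨rfl, rfl, rfl, rfl⟩ := hν0 _ _ _ _ h4
        exact ⟨Sym2.eq_swap, hua.ne.symm, hrs.ne, hra.symm, hsa.symm, hru.symm, hsu.symm⟩
      · exact hμ a' b' c d h3)
    (by
      intro C hCc
      rw [hcoh', hC C hCc, add_assoc])
    (by
      intro C hCc
      have h3 : s(u, a) ∉ C := (isCyc_delE.1 hCc).2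
      rw [h1 C hCc, coh_eq_zero_left (by rwa [Sym2.eq_swap]), mul_zero, add_zero])
    (s := t)
    (by
      intro c d hcd
      rw [hMM, hMM]
      obtain ⟨h3, h4, h5⟩ := hcd
      have hd2 := zmod2_add_self (MM u a μ r s)
      have hd3 := zmod2_add_self (MM u a μ s r)
      by_cases hc : s(c, d) = s(r, s)
      · rcases Sym2.eq_iff.1 hc with ⟨rfl, rfl⟩ | ⟨rfl, rfl⟩
        · simp only [if_true, hrs.ne, hrs.ne.symm, if_false, add_zero, hε]
          linear_combination hd2 + hd3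
        · simp only [if_true, hrs.ne, hrs.ne.symm, if_false, add_zero, hε]
          linear_combination hd2 + hd3
      · have e1 : (if c = r then if d = s then ε else 0 else 0) = 0 := by
          split_ifs with e2 e3
          · exact absurd (by rw [e2, e3]) hc
          · rfl
          · rfl
        have e1' : (if d = r then if c = s then ε else 0 else 0) = 0 := by
          split_ifs with e2 e3
          · exact absurd (by rw [e2, e3, Sym2.eq_swap]) hc
          · rfl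
          · rfl
        rw [e1, e1', add_zero, add_zero]
        refine ht c d ⟨delE_adj (delE_adj h3 fun e => ?_) hc, h4, h5⟩
        rcases Sym2.eq_iff.1 e with ⟨e, _⟩ | ⟨_, e⟩
        · exact h4 (by simp [e])
        · exact h5 (by simp [e]))
  refine ⟨q', ε, hq', fun C hCc => ?_⟩
  have h3 := hC' C hCc
  beta_reduce at h3
  have h4 := zmod2_add_self (ε * coh a u r s C)
  linear_combination h3 - h4

end LMAM

open LMAM in
theorem specLMA (hEXD : SpecEXD) (hLPE : SpecLPE) (hKUR : SpecKUR) (hVRS : SpecVRS)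
    (hNOR : SpecNOR) (hI3S : SpecI3S) (hDVS : SpecDVS) (hPOL : SpecPOL) : SpecLMA where
  b := fun hua _ hab hS1 hK1 hK2 hS hu ha φ hφ h1 h2 =>
    LMAM.b hEXD hLPE hVRS hNOR hI3S hDVS hPOL hua hab hS1 hK1 hK2 hS hu ha φ hφ h1 h2
  b' := fun hua _ hab hrs hru hra hsu hsa hS1 hK1 hK2 hS hu ha φ hφ h1 h2 =>
    LMAM.b' hEXD hLPE hKUR hVRS hNOR hI3S hDVS hPOL hua hab hrs hru hra hsu hsa hS1 hK1 hK2 hS hu
      ha φ hφ h1 h2

end DL
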