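import Pool.Agent.DL.E.Spec0
import Pool.Agent.DL.EX.SEF
import Pool.Agent.DL.PC2

section
/-!
# MP_3ff0f8_gt, ALGEBRA HALF, EXIST section 0: module LMB (helper19)

LEMMA B and LEMMA B': a function of `F(G')` which vanishes on the cycles of `G' - ua` and of `G' - ub` is
`x_{ua} x_{ub} (w0 + Σ w h)` (plus a multiple of `coh a u r s`).
-/
open SimpleGraph Finset

namespace DL

namespace LMBM

/-- product of two coordinates -/
theorem deg2 {α : Type} [Fintype α] [DecidableEq α] {q : Chain α → ZMod 2} (hq : DegLE 2 q) (ε : ZMod 2)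
    (e f : Sym2 α) : DegLE 2 (fun c : Chain α => q c + ε * (c e * c f)) := by
  have h1 : ∀ e : Sym2 α, DegLE 1 (fun c : Chain α => c e) := fun e => specPOL.ofAdd fun _ _ => rfl
  have h2 : DegLE 2 (fun c : Chain α => c e * c f) := specPOL.mul (h1 e) (h1 f)
  have h3 : DegLE 2 (fun c : Chain α => ε * (c e * c f)) := by
    have := specPOL.mul (specPOL.const (A := Chain α) 0 ε) h2
    simpa using this
  exact specPOL.add hq h3

/-- on a cycle avoiding `ub`, where `u` has only the neighbours `a`, `b`, `r`, `s`, the coherence of `au` and `rs` is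
`x_{ua} x_{ur} x_{rs}` -/
theorem coh_eq {α : Type} [Fintype α] [DecidableEq α] {G : SimpleGraph α} {u a b r s : α}
    (hnd : [u, a, b, r, s].Nodup) (hN : ∀ w, G.Adj u w ↔ w = a ∨ w = b ∨ w = r ∨ w = s) {C : Finset (Sym2 α)}
    (hC : IsCyc G C) (hub : s(u, b) ∉ C) :
    coh a u r s C = chi C s(u, a) * (chi C s(u, r) * chi C s(r, s)) := by
  simp only [List.nodup_cons, List.mem_cons, List.not_mem_nil, or_false, not_or, List.nodup_nil,
    and_true, not_false_eq_true] at hnd
  obtain ⟨⟨hua, hub', hur, hus⟩, ⟨hab, har, has⟩, ⟨hbr, hbs⟩, hrs⟩ := hnd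
  by_cases h1 : s(u, a) ∈ C
  swap
  · rw [chi_of_notMem h1, zero_mul, coh_eq_zero_left (by rwa [Sym2.eq_swap])]
  by_cases h2 : s(r, s) ∈ C
  swap
  · rw [chi_of_notMem h2, mul_zero, mul_zero, coh_eq_zero_right h2]
  rw [chi_of_mem h1, chi_of_mem h2, one_mul, mul_one]
  obtain ⟨j, hja, hj⟩ := hC.exists_other h1
  rcases (hN j).1 (hC.adj_of_mem hj) with rfl | rfl | rfl | rfl
  · exact absurd rfl hja
  · exact absurd hj hub
  · rw [chi_of_mem hj]
    have : coh a u j s C ≠ 0 := by
      rw [coh_ne_zero]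
      refine ⟨by rwa [Sym2.eq_swap], h2, Rch.of_mem ?_⟩
      rw [mem_sdiff, mem_insert, mem_singleton, not_or]
      refine ⟨hj, ?_, ?_⟩
      · intro h
        rw [Sym2.eq_iff] at h
        rcases h with ⟨h, _⟩ | ⟨_, h⟩
        · exact hua h
        · exact hja h
      · intro h
        rw [Sym2.eq_iff] at h
        rcases h with ⟨h, _⟩ | ⟨h, _⟩
        · exact hur h
        · exact hus h
    exact zmod2_ne_zero.1 this
  · have hur' : s(u, r) ∉ C := fun h => by
      rcases hC.eq_or_eq h1 hj (Ne.symm hja) h with h | h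
      · exact har h.symm
      · exact hrs h
    rw [chi_of_notMem hur']
    by_contra hne
    rw [← ne_eq, coh_ne_zero] at hne
    obtain ⟨-, -, h3⟩ := hne
    have hmem : r ∈ ({u, j} : Set α) := by
      refine h3.mem_of_closed ?_ (Set.mem_insert _ _)
      intro x y hxy hx
      rw [mem_sdiff, mem_insert, mem_singleton, not_or] at hxy
      obtain ⟨hxy, hn1, hn2⟩ := hxy
      rcases hx with rfl | hx
      · rcases hC.eq_or_eq h1 hj (Ne.symm hja) hxy with rfl | rfl
        · exact absurd Sym2.eq_swap hn1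
        · exact Set.mem_insert_of_mem _ rfl
      · rw [Set.mem_singleton_iff] at hx
        subst hx
        have h4 : s(x, u) ∈ C := by rwa [Sym2.eq_swap]
        have h5 : s(x, r) ∈ C := by rwa [Sym2.eq_swap]
        rcases hC.eq_or_eq h4 h5 hur hxy with rfl | rfl
        · exact Set.mem_insert _ _
        · exact absurd Sym2.eq_swap hn2
    rcases hmem with h | h
    · exact hur h.symm
    · exact hrs h

end LMBM

open LMBM in
theorem specLMB (hLMA : SpecLMA) (hLMC : SpecLMC) : SpecLMB where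
  b := by
    intro α _ _ G' u a b hua hub hab hS1 hK1 hC2 hK2 hS12 hu ha φ hφ h1 h2
    obtain ⟨q, hq, hφq⟩ := hLMA.b hua hub hab hS1 hK1 hK2 hS12 hu ha φ hφ h1 h2
    obtain ⟨w0, w, hw⟩ := hLMC hua hub hab hC2 q hq (fun C hC => by
      rw [← hφq C (isCyc_delE.1 hC).1, h2 C hC])
    refine ⟨w0, w, fun C hC => ?_⟩
    by_cases hb : s(u, b) ∈ C
    · rw [hφq C hC, chi_of_mem hb, mul_one]
      by_cases ha' : s(u, a) ∈ C
      · rw [hw C hC ha' hb]
      · rw [chi_of_notMem ha', zero_mul, zero_mul]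
    · rw [h2 C (isCyc_delE.2 ⟨hC, hb⟩), chi_of_notMem hb, mul_zero, zero_mul]
  b' := by
    intro α _ _ G' u a b r s hnd hN hrs hS1 hK1 hC2 hK2 hS12 hu ha φ hφ h1 h2
    have hnd' := hnd
    simp only [List.nodup_cons, List.mem_cons, List.not_mem_nil, or_false, not_or, List.nodup_nil,
      and_true, not_false_eq_true] at hnd'
    obtain ⟨⟨hua, hub, hur, hus⟩, ⟨hab, har, has⟩, ⟨hbr, hbs⟩, hrs'⟩ := hnd'
    have hadja : G'.Adj u a := (hN a).2 (Or.inl rfl)
    have hadjb : G'.Adj u b := (hN b).2 (Or.inr (Or.inl rfl))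
    obtain ⟨q, ε, hq, hφq⟩ := hLMA.b' hadja hadjb hab hrs (Ne.symm hur) (Ne.symm har) (Ne.symm hus)
      (Ne.symm has) hS1 hK1 hK2 hS12 hu ha φ hφ h1 h2
    obtain ⟨w0, w, hw⟩ := hLMC hadja hadjb hab hC2 _ (deg2 hq ε s(u, r) s(r, s)) (fun C hC => by
      have e1 := hφq C (isCyc_delE.1 hC).1
      rw [h2 C hC, coh_eq hnd hN (isCyc_delE.1 hC).1 (isCyc_delE.1 hC).2] at e1
      rw [mul_add, e1]
      ring)
    refine ⟨w0, ε, w, fun C hC => ?_⟩
    by_cases hb : s(u, b) ∈ C
    · rw [hφq C hC, chi_of_mem hb, mul_one]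
      by_cases ha' : s(u, a) ∈ C
      · have e2 := hw C hC ha' hb
        have hr' : s(u, r) ∉ C := fun h => by
          rcases hC.eq_or_eq ha' hb hab h with h | h
          · exact har h.symm
          · exact hbr h.symm
        rw [chi_of_notMem hr', zero_mul, mul_zero, add_zero] at e2
        rw [e2, chi_of_mem ha', one_mul, one_mul]
      · rw [chi_of_notMem ha', zero_mul, zero_mul, coh_eq_zero_left (by rwa [Sym2.eq_swap]), mul_zero,
          add_zero]
    · rw [h2 C (isCyc_delE.2 ⟨hC, hb⟩), chi_of_notMem hb, mul_zero, zero_mul]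

end DL
end

section
/-!
# MP_3ff0f8_gt, EXIST section 0, module LMC (helper86)
-/
open SimpleGraph Finset

namespace DL

namespace LMCM

set_option linter.unusedSectionVars false

variable {α : Type} [Fintype α] [DecidableEq α]

theorem zmul {x y : ZMod 2} (h : x * y = 0) (hx : x = 1) : y = 0 := by
  rw [hx, one_mul] at h; exact h

/-- a function of degree at most one is affine on chains of edge sets -/
theorem affine (hPOL : SpecPOL) {g : Chain α → ZMod 2} (hg : DegLE 1 g) (C : Finset (Sym2 α)) :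
    g (chi C) = g 0 + ∑ h ∈ C, (g (chi {h}) + g 0) := by
  classical
  have h1 : DegLE 1 (fun c : Chain α => g c + g 0) := hPOL.add hg (hPOL.const 1 (g 0))
  have h2 := hPOL.lin h1 (zmod2_add_self (g 0))
  induction C using Finset.induction_on with
  | empty => rw [chi_empty, sum_empty, add_zero]
  | insert e C he ih =>
    rw [sum_insert he]
    have e1 : chi (insert e C) = chi {e} + chi C := by
      rw [← chi_union (disjoint_singleton_left.2 he)]; rfl
    have e2 : g (chi {e} + chi C) + g 0 = (g (chi {e}) + g 0) + (g (chi C) + g 0) := h2 (chi {e}) (chi C)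
    rw [← e1, ih] at e2
    linear_combination e2

/-- erase the coordinate `e` -/
def ers (e : Sym2 α) (c : Chain α) : Chain α := fun f => if f = e then 0 else c f

theorem ers_self (e : Sym2 α) (c : Chain α) : ers e c e = 0 := if_pos rfl

theorem ers_ne {e f : Sym2 α} (c : Chain α) (h : f ≠ e) : ers e c f = c f := if_neg h

theorem mem_delE {G : SimpleGraph α} {a b : α} {e : Sym2 α} :
    e ∈ (delE G a b).edgeSet ↔ e ∈ G.edgeSet ∧ e ≠ s(a, b) := by
  rw [delE, edgeSet_deleteEdges]
  exact Iff.rfl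

theorem bdy_ers {e : Sym2 α} {c : Chain α} {v : α} (hv : v ∉ e) : bdy (ers e c) v = bdy c v := by
  rw [bdy_eq, bdy_eq]
  apply sum_congr rfl
  intro f hf
  apply ers_ne
  rintro rfl
  exact hv (mem_filter.1 hf).2

/-- main step: off `u`, `a` the local functions vanish -/
theorem step (hI3K : SpecI3K) (hDIR : SpecDIR) (hS3F : SpecS3F) (hTRA : SpecTRA) (hPOL : SpecPOL)
    {N : SimpleGraph α} {u a : α} (hua : u ≠ a) (hN : KConn 3 N) (q : Chain α → ZMod 2) (hq : DegLE 2 q)
    (hz : ∀ C, IsCyc N C → chi C s(u, a) * q (chi C) = 0) :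
    ∃ r : α → Chain α → ZMod 2, (∀ v, r v ∈ RV N v) ∧
      ∀ c ∈ Z1 N, c s(u, a) = 1 → q c = r u c + r a c := by
  classical
  set p : Chain α → ZMod 2 := fun c => c s(u, a) * q c with hp
  have hp3 : DegLE 3 p := by
    have h1 : DegLE 1 (fun c : Chain α => c s(u, a)) := hPOL.ofAdd fun x y => rfl
    exact hPOL.mul h1 hq
  have hp0 : p 0 = 0 := by simp [hp]
  obtain ⟨r, hr, hpr⟩ := hI3K N hN p hp3 hp0 hz
  refine ⟨r, hr, ?_⟩
  have hres : ∀ v, ∃ r' ∈ TR (star N v \ {s(u, a)}), ∀ c : Chain α,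
      (∀ e ∈ star N v ∩ {s(u, a)}, c e = 0) → r v c = r' c := fun v => hTRA.res {s(u, a)} (hr v)
  choose r' hr' hrr' using hres
  have hst : ∀ v, star N v \ {s(u, a)} = star (delE N u a) v := by
    intro v
    ext e
    simp only [star, Set.mem_sdiff, Set.mem_ofPred_eq, Set.mem_singleton_iff, mem_delE]
    tauto
  have hrv : ∀ v, r' v ∈ RV (delE N u a) v := by
    intro v
    have := hr' v
    rwa [hst v] at this
  have hsame : ∀ v (c : Chain α), c s(u, a) = 0 → r v c = r' v c := by
    intro v c hc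
    apply hrr'
    rintro e ⟨-, he⟩
    rw [Set.mem_singleton_iff.1 he]; exact hc
  have hsum : ∀ c ∈ Z1 (delE N u a), ∑ v, r' v c = 0 := by
    intro c hc
    have hca : c s(u, a) = 0 := by
      by_contra h
      exact (mem_delE.1 (hc.1 _ h)).2 rfl
    have hcN : c ∈ Z1 N := Z1_mono (delE_le _ _ _) hc
    have e1 := hpr c hcN
    rw [show p c = 0 by rw [hp]; simp only; rw [hca, zero_mul]] at e1
    rw [e1]
    exact sum_congr rfl fun v _ => (hsame v c hca).symm
  have hdir := hDIR (delE N u a) (hS3F.dhE u a hN) r' hrv hsum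
  intro c hc hc1
  have hoff : ∀ v, v ≠ u → v ≠ a → r v c = 0 := by
    intro v hvu hva
    have hvs : v ∉ s(u, a) := by
      rw [Sym2.mem_iff]; rintro (h | h)
      · exact hvu h
      · exact hva h
    have e1 : r v c = r v (ers s(u, a) c) := by
      refine hTRA.loc (hr v) _ _ ?_
      rintro e ⟨-, he⟩
      symm
      apply ers_ne
      rintro rfl
      exact hvs he
    rw [e1, hsame v _ (ers_self _ _)]
    apply hdir
    · intro e he
      by_cases h : e = s(u, a)
      · rw [h] at he; exact absurd (ers_self _ _) he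
      · rw [ers_ne c h] at he
        exact mem_delE.2 ⟨hc.1 e he, h⟩
    · rw [bdy_ers hvs, hc.2 v]
  have e1 := hpr c hc
  have e2 : p c = q c := by
    rw [hp]; simp only; rw [hc1, one_mul]
  rw [← e2, e1]
  rw [← Finset.sum_subset (subset_univ ({u, a} : Finset α)), sum_pair hua]
  intro v _ hv
  rw [mem_insert, mem_singleton, not_or] at hv
  exact hoff v hv.1 hv.2

end LMCM

open LMCM in
/-- **LMC**. -/
theorem specLMC (hI3K : SpecI3K) (hDIR : SpecDIR) (hS3F : SpecS3F) (hTRA : SpecTRA) (hPOL : SpecPOL) :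
    SpecLMC := by
  classical
  intro α _ _ G u a b hua hub hab hN q hq hz
  by_cases hex : ∃ C, IsCyc G C ∧ s(u, a) ∈ C ∧ s(u, b) ∈ C
  swap
  · refine ⟨0, 0, fun C hC h1 h2 => (hex ⟨C, hC, h1, h2⟩).elim⟩
  obtain ⟨C0, hC0, hC0a, hC0b⟩ := hex
  obtain ⟨r, hr, hqr⟩ := step hI3K hDIR hS3F hTRA hPOL hua.ne hN q hq hz
  -- vertices
  have haN : (delE G u b).Adj u a := by
    rw [← mem_edgeSet, mem_delE]
    refine ⟨hua, fun h => hab ?_⟩
    rw [Sym2.eq_iff] at h
    rcases h with h | h
    · exact h.2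
    · exact absurd h.1 hub.ne
  have huV : u ∈ VS (delE G u b) := left_mem_VS haN
  have hbV : b ∈ VS (delE G u b) := by
    obtain ⟨k, hk, hkC⟩ := hC0.exists_other (v := b) (i := u) (by rw [Sym2.eq_swap]; exact hC0b)
    have : (delE G u b).Adj b k := by
      rw [← mem_edgeSet, mem_delE]
      refine ⟨hC0.adj_of_mem hkC, fun h => ?_⟩
      rw [Sym2.eq_iff] at h
      rcases h with h | h
      · exact hub.ne h.1.symm
      · exact hk h.2
    exact left_mem_VS this
  obtain ⟨R, hR⟩ := exists_isPth (hN.reach (S := {a}) (by simp) huV hbV (by simpa using hua.ne)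
    (by simpa using hab.symm))
  rw [isPth_del] at hR
  obtain ⟨hR, hRa⟩ := hR
  have hRa' : a ∉ vs R := by
    rw [disjoint_singleton_right] at hRa; exact hRa
  have hRG : IsPth G u b R := (isPth_delE.1 hR).1
  have hubR : s(u, b) ∉ R := (isPth_delE.1 hR).2
  have hD : IsCyc G (insert s(u, b) R) := hRG.isCyc hub hubR
  set D : Finset (Sym2 α) := insert s(u, b) R with hDdef
  have hubD : s(u, b) ∈ D := mem_insert_self _ _
  have haD : ∀ e ∈ D, a ∉ e := by
    intro e he hae
    rw [hDdef, mem_insert] at he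
    rcases he with rfl | he
    · rw [Sym2.mem_iff] at hae
      rcases hae with h | h
      · exact hua.ne h.symm
      · exact hab h
    · exact hRa' (mem_vs.2 ⟨e, he, hae⟩)
  obtain ⟨k, hkb, hkD⟩ := hD.exists_other hubD
  -- the affine function
  have hg : DegLE 1 (fun c : Chain α => q (c + chi D) + q c) := hPOL.dif (d := 1) (chi D) hq
  refine ⟨q (0 + chi D) + q 0, fun h => (q (chi {h} + chi D) + q (chi {h})) + (q (0 + chi D) + q 0), ?_⟩
  intro C hC hCa hCb
  have key : q (chi C + chi D) = 0 := by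
    set c : Chain α := chi C + chi D with hc
    have hcub : c s(u, b) = 0 := by
      rw [hc, Pi.add_apply, chi_of_mem hCb, chi_of_mem hubD]
      exact zmod2_add_self 1
    have hcZ : c ∈ Z1 (delE G u b) := by
      have h1 : c ∈ Z1 G := (Z1 G).add_mem hC.chi_mem hD.chi_mem
      refine ⟨fun e he => mem_delE.2 ⟨h1.1 e he, ?_⟩, h1.2⟩
      rintro rfl
      exact he hcub
    have hca : c s(u, a) = 1 := by
      rw [hc, Pi.add_apply, chi_of_mem hCa, chi_of_notMem, add_zero]
      intro h
      exact haD _ h (Sym2.mem_mk_right _ _)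
    rw [hqr c hcZ hca]
    have hau : s(a, u) ∈ C := by rw [Sym2.eq_swap]; exact hCa
    obtain ⟨j, hju, hjC⟩ := hC.exists_other hau
    have h1 : r a c = 0 := by
      refine hTRA.two (hr a) c s(a, u) s(a, j) ?_
      rintro e ⟨-, hae⟩ hce
      have heD : e ∉ D := fun h => haD e h hae
      have heC : e ∈ C := by
        by_contra h
        apply hce
        rw [hc, Pi.add_apply, chi_of_notMem h, chi_of_notMem heD, add_zero]
      obtain ⟨x, rfl⟩ := Sym2.mem_iff_exists.1 hae
      rcases hC.eq_or_eq hau hjC (Ne.symm hju) heC with rfl | rfl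
      · exact Or.inl rfl
      · exact Or.inr rfl
    have h2 : r u c = 0 := by
      refine hTRA.two (hr u) c s(u, a) s(u, k) ?_
      rintro e ⟨heN, hue⟩ hce
      obtain ⟨x, rfl⟩ := Sym2.mem_iff_exists.1 hue
      have hxb : x ≠ b := by
        rintro rfl
        exact (mem_delE.1 heN).2 rfl
      by_cases heC : s(u, x) ∈ C
      · rcases hC.eq_or_eq hCa hCb hab heC with rfl | rfl
        · exact Or.inl rfl
        · exact absurd rfl hxb
      · have heD : s(u, x) ∈ D := by
          by_contra h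
          apply hce
          rw [hc, Pi.add_apply, chi_of_notMem heC, chi_of_notMem h, add_zero]
        rcases hD.eq_or_eq hubD hkD (Ne.symm hkb) heD with rfl | rfl
        · exact absurd rfl hxb
        · exact Or.inr rfl
    rw [h1, h2, add_zero]
  have haff := affine hPOL hg C
  rw [key, zero_add] at haff
  exact haff

end DL
end
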