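import Pool.Agent.DL.E.Spec2c
import Pool.Agent.DL.BASE.K33

/-!
# MP_3ff0f8_gt, EXIST section 2: module M9 (helper19)

`KZ` of the graph `M9`, from the certificate in `DL/BASE/M9.lean`.
-/

open SimpleGraph Finset

namespace DL

theorem specM9 : SpecM9 := by
  intro α _ _ M x y t a b c d hl hM
  refine M9M.kz hl fun u v => ?_
  rw [hM]
  simp only [Finset.mem_insert, Finset.mem_singleton, List.mem_cons, List.not_mem_nil, or_false]
  tauto

end DL
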