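import Pool.Agent.DL.E.Spec3
import Pool.Agent.DL.NP.TRC
import Pool.Agent.DL.G4.C20

section
/-!
MP_3ff0f8_gt, ALGEBRA HALF, E block section 3, module GK3 (helper20)
-/
open SimpleGraph Finset

namespace DL

namespace GK3M

set_option linter.unusedSectionVars false

variable {α : Type} [Fintype α] [DecidableEq α]

/-- `G` without `b` and without the edges at `u` other than the `u a_i` -/
def GP (G : SimpleGraph α) (u b : α) (a : Fin 3 → α) : SimpleGraph α where
  Adj p q := G.Adj p q ∧ p ≠ b ∧ q ≠ b ∧ (p = u → ∃ i, q = a i) ∧ (q = u → ∃ i, p = a i)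
  symm := ⟨fun _ _ h => ⟨h.1.symm, h.2.2.1, h.2.1, h.2.2.2.2, h.2.2.2.1⟩⟩
  loopless := ⟨fun _ h => h.1.ne rfl⟩

theorem sum_star (F : Sym2 α → ZMod 2) (v : α) :
    ∑ e ∈ univ.filter (fun e => v ∈ e), F e = ∑ w, F s(v, w) := by
  symm
  refine Finset.sum_nbij (fun w => s(v, w)) (fun w _ => ?_) (fun x _ y _ h => ?_)
    (fun e he => ?_) (fun _ _ => rfl)
  · simp
  · exact Sym2.congr_right.1 h
  · have hv : v ∈ e := (mem_filter.1 he).2
    obtain ⟨w, rfl⟩ := Sym2.mem_iff_exists.1 hv
    exact ⟨w, mem_coe.2 (mem_univ _), rfl⟩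

/-- a 2-cycle on the model, supported on `GP` -/
theorem npGP (hNPM : SpecNPM) {G : SimpleGraph α} {u x b : α} {a : Fin 3 → α} {K : Finset α}
    (ha : Function.Injective a) (hua : ∀ i, G.Adj u (a i)) (hxa : ∀ i, G.Adj x (a i))
    (hub : G.Adj u b) (hxu : x ≠ u) (hxb : x ≠ b) (hab : ∀ i, a i ≠ b)
    (hK : CSet G K) (huK : u ∉ K) (hxK : x ∉ K) (hbK : b ∉ K) (haK : ∀ i, a i ∉ K)
    (hadj : ∀ i, ∃ k ∈ K, G.Adj (a i) k) : NP (GP G u b a) := by
  have hsing : ∀ v : α, CSet (GP G u b a) {v} := by
    intro v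
    refine ⟨singleton_nonempty v, ?_⟩
    intro p hp q hq
    rw [mem_singleton] at hp hq
    subst hp
    subst hq
    exact SimpleGraph.Reachable.refl _
  have hKc : CSet (GP G u b a) K := by
    refine ⟨hK.1, ?_⟩
    intro p hp q hq
    refine (hK.2 p hp q hq).mono ?_
    intro s t hst
    have hs : s ∈ K := by
      by_contra h
      exact hst.2.1 (mem_sdiff.2 ⟨mem_univ _, h⟩)
    have ht : t ∈ K := by
      by_contra h
      exact hst.2.2 (mem_sdiff.2 ⟨mem_univ _, h⟩)
    exact ⟨⟨hst.1, fun h => hbK (h ▸ hs), fun h => hbK (h ▸ ht), fun h => absurd (h ▸ hs) huK,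
      fun h => absurd (h ▸ ht) huK⟩, hst.2⟩
  refine hNPM.k33 ![{u}, {x}, K] (fun i => {a i}) ?_ (fun i => hsing _) ?_ ?_ ?_ ?_
  · intro i
    fin_cases i
    · exact hsing u
    · exact hsing x
    · exact hKc
  · intro i j hij
    fin_cases i <;> fin_cases j <;>
      simp_all [Matrix.cons_val_zero, Matrix.cons_val_one, Ne.symm]
  · intro i j hij
    rw [disjoint_singleton]
    exact fun h => hij (ha h)
  · intro i j
    have h1 := (hua j).ne
    have h2 := (hxa j).ne
    have h3 := haK j
    fin_cases i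
    · exact disjoint_singleton.2 h1
    · exact disjoint_singleton.2 h2
    · exact disjoint_singleton_right.2 h3
  · intro i j
    have h1 := (hua j).ne
    have h2 := (hxa j).ne
    have h3 := hab j
    fin_cases i
    · exact ⟨u, mem_singleton_self _, a j, mem_singleton_self _, hua j, hub.ne, h3,
        fun _ => ⟨j, rfl⟩, fun h => absurd h h1.symm⟩
    · exact ⟨x, mem_singleton_self _, a j, mem_singleton_self _, hxa j, hxb, h3,
        fun h => absurd h hxu, fun h => absurd h h1.symm⟩
    · obtain ⟨k, hk, hak⟩ := hadj j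
      exact ⟨k, hk, a j, mem_singleton_self _, hak.symm, fun h => hbK (h ▸ hk), h3,
        fun h => absurd (h ▸ hk) huK, fun h => absurd h h1.symm⟩

end GK3M

open GK3M

theorem specGK3 (hVKA : SpecVKA) (hNPM : SpecNPM) (hKUR : SpecKUR) (hLPE : SpecLPE)
    (hS3F : SpecS3F) : SpecGK3 := by
  intro α _ _ G u x b a K hG hnp ha hua hxa hub hxu hxb hab hK huK hxK hbK haK hadj
  obtain ⟨r, hr, z, hz, hvk⟩ := npGP hNPM ha hua hxa hub hxu hxb hab hK huK hxK hbK haK hadj
  have hle : GP G u b a ≤ G := fun _ _ h => h.1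
  have hzG := hKUR.zmono hle hz
  have hJ : KConn 3 (del G {u}) := hG.del_vertex (by norm_num) u
  have hJV : ∀ w, G.Adj u w → w ∈ VS (del G {u}) := by
    intro w hw
    rw [hG.VS_del (by simp), mem_sdiff, mem_singleton]
    exact ⟨right_mem_VS hw, hw.ne.symm⟩
  -- rows at `u`
  have hrow0 : ∀ v, (∀ i, v ≠ a i) → ∀ f, z s(u, v) f = 0 := by
    intro v hv f
    by_contra h
    have h1 : (GP G u b a).Adj u v := (hz.2.1 _ _ h).1
    obtain ⟨i, hi⟩ := h1.2.2.2.1 rfl
    exact hv i hi
  have hmem : ∀ i, z s(u, a i) ∈ Z1 (del G {u, a i, b}) := by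
    intro i
    refine Z1_mono ?_ (hKUR.row u (a i) hz)
    intro p q h
    refine ⟨h.1.1, ?_, ?_⟩
    · have := h.2.1
      simp only [mem_insert, mem_singleton, not_or] at this ⊢
      exact ⟨this.1, this.2, h.1.2.1⟩
    · have := h.2.2
      simp only [mem_insert, mem_singleton, not_or] at this ⊢
      exact ⟨this.1, this.2, h.1.2.2.1⟩
  have hsum : ∀ f, ∑ i, z s(u, a i) f = 0 := by
    intro f
    by_cases huf : u ∈ f
    · refine sum_eq_zero fun i _ => ?_
      by_contra h
      exact (hz.2.1 _ _ h).2.2 u ⟨Sym2.mem_mk_left _ _, huf⟩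
    · have h1 := hz.2.2 f u huf
      rw [sum_star] at h1
      rw [← h1]
      rw [← sum_image (s := univ) (g := a) (f := fun v => z s(u, v) f) (fun i _ j _ h => ha h)]
      rw [← sum_subset (subset_univ (univ.image a))]
      · exact sum_congr rfl fun v _ => hz.1 _ _
      · intro v _ hv
        rw [hz.1]
        refine hrow0 v (fun i hi => hv ?_) f
        rw [hi]
        exact mem_image_of_mem _ (mem_univ _)
  -- the 2-cycles `z_i`
  have hex : ∀ i, ∃ z', IsZ2 G z' ∧ z' s(u, a i) = z s(u, a i) ∧ z' s(u, b) = z s(u, a i) ∧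
      ∀ v, v ≠ a i → v ≠ b → z' s(u, v) = 0 := by
    intro i
    have g1 : ∀ w, (fun w => if w = a i ∨ w = b then z s(u, a i) else 0 : α → Chain α) w ∈
        Z1 (del G {u, w}) := by
      intro w
      by_cases hw : w = a i ∨ w = b
      · simp only [if_pos hw]
        refine Z1_mono (del_anti ?_) (hmem i)
        rcases hw with rfl | rfl <;> intro q hq <;> simp only [mem_insert, mem_singleton] at hq ⊢ <;>
          tauto
      · simp only [if_neg hw]
        exact Submodule.zero_mem _
    have g2 : ∀ w, (fun w => if w = a i ∨ w = b then z s(u, a i) else 0 : α → Chain α) w ≠ 0 →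
        G.Adj u w ∧ w ∈ VS (del G {u}) := by
      intro w hw
      by_cases hw' : w = a i ∨ w = b
      · rcases hw' with rfl | rfl
        · exact ⟨hua i, hJV _ (hua i)⟩
        · exact ⟨hub, hJV _ hub⟩
      · simp only [if_neg hw'] at hw
        exact absurd rfl hw
    have g3 : ∑ w, (fun w => if w = a i ∨ w = b then z s(u, a i) else 0 : α → Chain α) w = 0 := by
      rw [← sum_filter]
      have : (univ.filter fun w => w = a i ∨ w = b) = {a i, b} := by
        ext w
        simp
      rw [this, sum_pair (hab i)]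
      funext f
      exact zmod2_add_self _
    obtain ⟨z', h1, h2⟩ := hLPE.star (G := G) (u := u) (hS3F.k3 hJ) _ g1 g2 g3
    refine ⟨z', h1, ?_, ?_, ?_⟩
    · funext f
      rw [h2 _ f (hua i)]
      simp
    · funext f
      rw [h2 _ f hub]
      simp
    · intro v hv hvb
      funext f
      by_cases huv : G.Adj u v
      · rw [h2 _ f huv]
        simp [hv, hvb]
      · by_contra h
        exact huv (h1.2.1 _ _ h).1
  choose y hy1 hy2 hy3 hy4 using hex
  have hsame : vk r z = vk r (fun e f => (y 0 e f + y 1 e f) + y 2 e f) := by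
    refine NCNM.same hVKA hKUR hnp hr hzG (hKUR.zadd (hKUR.zadd (hy1 0) (hy1 1)) (hy1 2)) ?_
    intro v f
    have hs := hsum f
    rw [Fin.sum_univ_three] at hs
    have h01 : a 0 ≠ a 1 := fun h => by simpa using ha h
    have h02 : a 0 ≠ a 2 := fun h => by simpa using ha h
    have h12 : a 1 ≠ a 2 := fun h => by simpa using ha h
    by_cases hvb : v = b
    · subst hvb
      rw [hy3 0, hy3 1, hy3 2, hs]
      exact hrow0 v (fun i => (hab i).symm) f
    · by_cases hv0 : v = a 0
      · subst hv0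
        rw [hy2 0, hy4 1 _ h01 hvb, hy4 2 _ h02 hvb]
        simp
      · by_cases hv1 : v = a 1
        · subst hv1
          rw [hy2 1, hy4 0 _ h01.symm hvb, hy4 2 _ h12 hvb]
          simp
        · by_cases hv2 : v = a 2
          · subst hv2
            rw [hy2 2, hy4 0 _ h02.symm hvb, hy4 1 _ h12.symm hvb]
            simp
          · rw [hy4 0 _ hv0 hvb, hy4 1 _ hv1 hvb, hy4 2 _ hv2 hvb]
            rw [hrow0 v ?_ f]
            · simp
            · intro i
              fin_cases i
              · exact hv0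
              · exact hv1
              · exact hv2
  rw [hVKA.add, hVKA.add] at hsame
  have hex : ∃ i, vk r (y i) ≠ 0 := by
    by_contra hcon
    push Not at hcon
    rw [hcon 0, hcon 1, hcon 2] at hsame
    exact hvk (by rw [hsame]; simp)
  obtain ⟨i, hi⟩ := hex
  exact ⟨i, z s(u, a i), hua i, hub, hab i, hmem i, r, y i, hr, hy1 i, hi, hy2 i, hy3 i, hy4 i⟩

end DL
end

section
/-!
# MP_3ff0f8_gt, E block, module NCX (helper19): more consequences of `Gam`
-/
open SimpleGraph Finset

namespace DL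

namespace NCXM

set_option linter.unusedSectionVars false

variable {α : Type} [Fintype α] [DecidableEq α] {G : SimpleGraph α} {u w w' : α}

/-- a 2-cycle with the rows `Z`, `Z` at `uw`, `uw'` -/
theorem star2 (hLPE : SpecLPE) (hS3F : SpecS3F) (hG4 : KConn 4 G) (huw : G.Adj u w) (huw' : G.Adj u w')
    (hne : w ≠ w') {Z : Chain α} (hZ : Z ∈ Z1 (del G {u, w, w'})) :
    ∃ z, IsZ2 G z ∧ z s(u, w) = Z ∧ z s(u, w') = Z ∧ ∀ v, v ≠ w → v ≠ w' → z s(u, v) = 0 := by
  have h3 : KConn 3 (del G {u}) := hG4.del_vertex (by norm_num) u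
  have hVS : VS (del G {u}) = VS G \ {u} := hG4.VS_del (by simp)
  have hS : S3S (del G {u}) := hS3F.k3 h3
  set la : α → Chain α := fun v => if v = w ∨ v = w' then Z else 0 with hla
  obtain ⟨z', hz', hrow⟩ := hLPE.star (G := G) (u := u) hS la (by
    intro v
    rw [hla]
    by_cases h : v = w ∨ v = w'
    · simp only [if_pos h]
      refine Z1_mono (del_anti ?_) hZ
      rcases h with rfl | rfl
      · intro x hx
        simp only [mem_insert, mem_singleton] at hx ⊢
        tauto
      · intro x hx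
        simp only [mem_insert, mem_singleton] at hx ⊢
        tauto
    · simp only [if_neg h]
      exact (Z1 _).zero_mem) (by
    intro v hv
    have h : v = w ∨ v = w' := by
      by_contra h
      exact hv (if_neg h)
    rw [hVS, mem_sdiff, mem_singleton]
    rcases h with rfl | rfl
    · exact ⟨huw, right_mem_VS huw, huw.ne.symm⟩
    · exact ⟨huw', right_mem_VS huw', huw'.ne.symm⟩) (by
    rw [hla]
    rw [← sum_filter]
    have : (univ.filter fun v => v = w ∨ v = w') = {w, w'} := by
      ext v; simp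
    rw [this, sum_pair hne, chain_add_self])
  refine ⟨z', hz', ?_, ?_, ?_⟩
  · funext f; rw [hrow w f huw, hla]; simp
  · funext f; rw [hrow w' f huw', hla]; simp
  · intro v h1 h2
    funext f
    by_cases h : G.Adj u v
    · rw [hrow v f h, hla]; simp [h1, h2]
    · by_contra h4
      exact h (hz'.2.1 _ f h4).1

theorem pr_add (a b c : Chain α) : pr (a + b) c = pr a c + pr b c := by
  unfold pr
  rw [← sum_add_distrib]
  exact sum_congr rfl fun e _ => by rw [Pi.add_apply, add_mul]

/-- the sum over the rows at `u` -/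
theorem sum_rows (al : α → Chain α) {z : Sym2 α → Sym2 α → ZMod 2} {Z : Chain α} (hne : w ≠ w')
    (hw : z s(u, w) = Z) (hw' : z s(u, w') = Z) (hv : ∀ v, v ≠ w → v ≠ w' → z s(u, v) = 0) :
    ∑ v, pr (al v) (z s(u, v)) = pr (al w + al w') Z := by
  rw [← sum_subset (subset_univ ({w, w'} : Finset α)), sum_pair hne, hw, hw', pr_add]
  intro v _ h
  rw [mem_insert, mem_singleton, not_or] at h
  rw [hv v h.1 h.2]
  unfold pr
  exact sum_eq_zero fun e _ => by rw [Pi.zero_apply, mul_zero]

/-- linear functional -/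
theorem func (hFRM : SpecFRM) (hLPE : SpecLPE) (hS3F : SpecS3F) (hG4 : KConn 4 G) (hn : ¬ NP (del G {u}))
    (huw : G.Adj u w) (huw' : G.Adj u w') (hne : w ≠ w') :
    ∃ a : Chain α, ∀ Z ∈ Z1 (del G {u, w, w'}), (Gam G u w w' Z ↔ pr a Z ≠ 0) := by
  obtain ⟨al, hal⟩ := hFRM.vtx hn
  refine ⟨al w + al w', fun Z hZ => ?_⟩
  constructor
  · rintro ⟨_, _, _, _, r, z, hr, hz, hvk, hw, hw', hv⟩
    rw [hal r hr z hz, sum_rows al hne hw hw' hv] at hvk
    exact hvk
  · intro h
    obtain ⟨z, hz, hw, hw', hv⟩ := star2 hLPE hS3F hG4 huw huw' hne hZ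
    obtain ⟨r, hr⟩ := FRMM.exists_order (α := α)
    refine ⟨huw, huw', hne, hZ, r, z, hr, hz, ?_, hw, hw', hv⟩
    rw [hal r hr z hz, sum_rows al hne hw hw' hv]
    exact h

end NCXM

open NCXM in
theorem specNCX (hVKA : SpecVKA) (hKUR : SpecKUR) (hLPE : SpecLPE) (hS3F : SpecS3F) (hFRM : SpecFRM) :
    SpecNCX where
  symm := by
    rintro α _ _ G u w w' Z ⟨h1, h2, h3, h4, r, z, hr, hz, hvk, hw, hw', hv⟩
    refine ⟨h2, h1, h3.symm, ?_, r, z, hr, hz, hvk, hw', hw, fun v hv1 hv2 => hv v hv2 hv1⟩
    refine Z1_mono (del_anti ?_) h4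
    intro x hx
    simp only [mem_insert, mem_singleton] at hx ⊢
    tauto
  tri := by
    rintro α _ _ G u w w' v Z hG4 ⟨h1, h2, h3, h4, r, z, hr, hz, hvk, hw, hw', hv⟩ huv hvw hvw' hZ
    obtain ⟨z', hz', g1, g2, g3⟩ := star2 hLPE hS3F hG4 h1 huv (Ne.symm hvw) (Z := Z)
      (Z1_mono (del_anti (by
        intro x hx
        simp only [mem_insert, mem_singleton] at hx ⊢
        tauto)) hZ)
    by_cases h0 : vk r z' = 0
    · right
      refine ⟨h2, huv, Ne.symm hvw', Z1_mono (del_anti (by
        intro x hx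
        simp only [mem_insert, mem_singleton] at hx ⊢
        tauto)) hZ, r, fun e f => z e f + z' e f, hr, hKUR.zadd hz hz', ?_, ?_, ?_, ?_⟩
      · rw [hVKA.add, h0, add_zero]
        exact hvk
      · funext f
        change z s(u, w') f + z' s(u, w') f = Z f
        rw [hw', g3 w' (Ne.symm h3) (Ne.symm hvw')]
        simp
      · funext f
        change z s(u, v) f + z' s(u, v) f = Z f
        rw [hv v hvw hvw', g2]
        simp
      · intro x hx1 hx2
        funext f
        change z s(u, x) f + z' s(u, x) f = 0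
        by_cases hxw : x = w
        · rw [hxw, hw, g1]
          exact zmod2_add_self _
        · rw [hv x hxw hx1, g3 x hxw hx2]
          simp
    · left
      exact ⟨h1, huv, Ne.symm hvw, Z1_mono (del_anti (by
        intro x hx
        simp only [mem_insert, mem_singleton] at hx ⊢
        tauto)) hZ, r, z', hr, hz', h0, g1, g2, g3⟩
  sup := by
    rintro α _ _ G H u w w' Z ⟨h1, h2, h3, h4, r, z, hr, hz, hvk, hw, hw', hv⟩ hH hHw hHw'
    refine ⟨r, hr, z, ⟨hz.1, ?_, hz.2.2⟩, hvk⟩
    have key : ∀ e f, z e f ≠ 0 → e ∈ H.edgeSet := by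
      intro e f hef
      by_cases hue : u ∈ e
      · obtain ⟨v, rfl⟩ := Sym2.mem_iff_exists.1 hue
        by_cases hv1 : v = w
        · rw [hv1]; exact hHw
        · by_cases hv2 : v = w'
          · rw [hv2]; exact hHw'
          · rw [hv v hv1 hv2] at hef
            exact absurd rfl hef
      · exact hH e (hz.2.1 e f hef).1 hue
    intro e f hef
    refine ⟨key e f hef, key f e ?_, (hz.2.1 e f hef).2.2⟩
    rw [hz.1]
    exact hef
  cyc := by
    intro α _ _ G u w w' Z hG4 hn hG
    obtain ⟨a, ha⟩ := func hFRM hLPE hS3F hG4 hn hG.1 hG.2.1 hG.2.2.1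
    have hZ := hG.2.2.2.1
    have h1 := (ha Z hZ).1 hG
    by_contra hc
    push Not at hc
    apply h1
    have h2 : ∀ C, IsCyc (del G {u, w, w'}) C → pr a (chi C) = 0 := by
      intro C hC
      by_contra h3
      exact hc C hC ((ha _ hC.chi_mem).2 h3)
    have h3 : Z ∈ Submodule.span (ZMod 2) {c | ∃ C, IsCyc (del G {u, w, w'}) C ∧ chi C = c} := by
      rw [← Z1_eq_span]
      exact hZ
    refine Submodule.span_induction (p := fun Z _ => pr a Z = 0) ?_ ?_ ?_ ?_ h3
    · rintro _ ⟨C, hC, rfl⟩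
      exact h2 C hC
    · unfold pr
      simp
    · intro x y _ _ hx hy
      unfold pr at *
      simp only [Pi.add_apply, mul_add, sum_add_distrib, hx, hy, add_zero]
    · intro c x _ hx
      unfold pr at *
      have : ∀ e, a e * (c • x) e = c * (a e * x e) := by
        intro e
        rw [Pi.smul_apply, smul_eq_mul]
        ring
      simp only [this, ← mul_sum, hx, mul_zero]
  sepc := by
    intro α _ _ G u w w' Z Q hn hG hQ hwQ hwQ' hreach
    have hG' := hG
    obtain ⟨huw, huw', hne, hZ, _⟩ := hG'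
    obtain ⟨P, hP⟩ := exists_isPth hreach
    have hPv := vs_of_isPth_del hP
    have hP1 : IsPth (del G {u}) w w' P := hP.mono (del_anti (by simp))
    have hc := isCyc_of_isPth_del huw huw' hne hP1
    have huP : u ∉ vs P := fun h => Finset.disjoint_left.1 hPv h (by simp)
    refine NCNM.torus hVKA hKUR hn (t := chi (insert s(u, w) (insert s(u, w') P))) (Z := Z)
      (univ \ Q.erase u) (Q.erase u) hc.chi_mem (Z1_mono (del_le _ _) hZ) ?_ ?_ disjoint_sdiff_self_left ?_
      (chi_of_mem (by simp)) (chi_of_mem (by simp)) ?_ hG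
    · intro e v he hv
      rw [mem_sdiff, mem_erase, not_and]
      refine ⟨mem_univ _, fun hvu hvC => ?_⟩
      rw [chi_ne_zero] at he
      simp only [mem_insert] at he
      rcases he with rfl | rfl | he
      · rw [Sym2.mem_iff] at hv
        rcases hv with rfl | rfl
        · exact hvu rfl
        · exact hwQ hvC
      · rw [Sym2.mem_iff] at hv
        rcases hv with rfl | rfl
        · exact hvu rfl
        · exact hwQ' hvC
      · exact Finset.disjoint_left.1 hPv (mem_vs.2 ⟨e, he, hv⟩) (mem_insert_of_mem hvC)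
    · intro e v he hv
      rw [mem_erase]
      refine ⟨?_, hQ e v he hv⟩
      rintro rfl
      exact NCNM.notMem_of_del hZ he hv (by simp)
    · rw [mem_sdiff]
      exact ⟨mem_univ _, fun h => (mem_erase.1 h).1 rfl⟩
    · intro v hv1 hv2
      apply chi_of_notMem
      simp only [mem_insert, Sym2.eq_iff, not_or, not_and]
      exact ⟨⟨fun _ => hv1, fun h => absurd h huw.ne⟩, ⟨fun _ => hv2, fun h => absurd h huw'.ne⟩,
        fun h => huP (left_mem_vs h)⟩
  func := by
    intro α _ _ G u w w' hG4 hn h1 h2 h3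
    exact func hFRM hLPE hS3F hG4 hn h1 h2 h3

end DL
end
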