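import Pool.Agent.DL.E.Spec2e

/-!
# MP_3ff0f8_gt, ALGEBRA HALF, EXIST section 2.3: direct proof of `R3B` (helper15)

No `R1A`, no LEMMA N.  Module `XXX` = file `DL/E/XXX.lean`, theorem `specXXX (hYYY : SpecYYY) … : SpecXXX`; the hypotheses may be any other Specs
named in the docstring (also of DL/EX, DL/K, DL/NP, DL/G4, DL/E); own lemmas in the namespace `DL.XXXM`.  The docstrings contain complete proofs; all facts are checked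
by program (all 4-connected nonplanar graphs with `n ≤ 10`, random ones with `n = 12`).  CUT = every vertex of a 4-cut of the 4-connected graph `G` has neighbours in
every side (`KConn.exists_adj_of_sep`).  FEW = FRG.few.  `A24 = dst G s₃ {s₁, y}`.
-/

open SimpleGraph Finset

namespace DL

/-- the first configuration of XF4 (without `D`), `x` and `y` rigid -/
structure B1 {α : Type} [Fintype α] [DecidableEq α] (G : SimpleGraph α) (x y s₁ s₂ s₃ s₄ c d d' : α) : Prop where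
  k48 : K48 G
  p33 : P33 G x y s₁ s₂ s₃ s₄
  nd : [x, y, s₁, s₂, s₃, s₄, c, d, d'].Nodup
  n3 : ∀ w, G.Adj s₃ w ↔ w = x ∨ w = y ∨ w = s₁ ∨ w = s₂ ∨ w = c
  n2 : ∀ w, G.Adj s₂ w ↔ w = x ∨ w = s₃ ∨ w = c ∨ w = d'
  n1 : ∀ w, G.Adj s₁ w ↔ w = y ∨ w = s₃ ∨ w = c ∨ w = d
  rx : Rig G x
  ry : Rig G y

theorem B1.sym {α : Type} [Fintype α] [DecidableEq α] {G : SimpleGraph α} {x y s₁ s₂ s₃ s₄ c d d' : α}
    (h : B1 G x y s₁ s₂ s₃ s₄ c d d') : B1 G y x s₂ s₁ s₃ s₄ c d' d where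
  k48 := h.k48
  p33 := h.p33.sym1
  nd := by
    have := h.nd
    simp only [List.nodup_cons, List.mem_cons, List.not_mem_nil, or_false, not_or, List.nodup_nil, and_true,
      not_false_eq_true] at this ⊢
    grind
  n3 w := by rw [h.n3]; tauto
  n2 := h.n1
  n1 := h.n2
  rx := h.ry
  ry := h.rx

theorem B1.t3 {α : Type} [Fintype α] [DecidableEq α] {G : SimpleGraph α} {x y s₁ s₂ s₃ s₄ c d d' : α}
    (h : B1 G x y s₁ s₂ s₃ s₄ c d d') : T3 G x y s₁ s₂ s₃ s₄ :=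
  ⟨h.k48, h.p33, (h.n1 _).2 (Or.inr (Or.inl rfl)), (h.n2 _).2 (Or.inr (Or.inl rfl))⟩

theorem XB2.sym {α : Type} [Fintype α] [DecidableEq α] {G : SimpleGraph α} {x y s₁ s₂ s₃ s₄ c d : α}
    (h : XB2 G x y s₁ s₂ s₃ s₄ c d) : XB2 G y x s₂ s₁ s₃ s₄ c d where
  nd := by
    have := h.nd
    simp only [List.nodup_cons, List.mem_cons, List.not_mem_nil, or_false, not_or, List.nodup_nil, and_true,
      not_false_eq_true] at this ⊢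
    grind
  n1 := h.n2
  n2 := h.n1
  n4 w := by rw [h.n4]; tauto
  n3 w hw := by have := h.n3 w hw; tauto

theorem XB2.swap {α : Type} [Fintype α] [DecidableEq α] {G : SimpleGraph α} {x y s₁ s₂ s₃ s₄ c d : α}
    (h : XB2 G x y s₁ s₂ s₃ s₄ c d) : XB2 G x y s₁ s₂ s₃ s₄ d c where
  nd := by
    have := h.nd
    simp only [List.nodup_cons, List.mem_cons, List.not_mem_nil, or_false, not_or, List.nodup_nil, and_true,
      not_false_eq_true] at this ⊢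
    grind
  n1 w := by rw [h.n1]; tauto
  n2 w := by rw [h.n2]; tauto
  n4 w := by rw [h.n4]; tauto
  n3 w hw := by have := h.n3 w hw; tauto

/-- `(G - s₃) + xc` -/
def RR {α : Type} [DecidableEq α] (G : SimpleGraph α) (x s₃ c : α) : SimpleGraph α := del G {s₃} ⊔ fromEdgeSet {s(x, c)}

/-! ## A. The first configuration -/

/-- **R3Y** (from XF5, FRG, KC; 150 lines).  `s₄ ≁ s₁, s₂` by `n1`, `n2`.  `Rig G x`: XF5.b1.  `Rig G y`: the proof of XF5.b1 for `P33.sym1` (it uses of `XB1` only `n3`, `s₁ ~ c`, `s₂ ~ c`, `s₁ ≁ s₄`; XF5M.partI and XF5M.partII are general).  Otherwise (FRG.nrig) `(T, X, Y)`, `y ∈ T`, `|X|, |Y| ≥ 2`; XF5M.partI: `x ∉ T`, say `x ∈ X`; XF5M.partII: `s₁ ∈ Y`, `s₂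
∉ Y`, `s₃ ∈ T`, `s₄ ∉ Y`, and `s₃` has a neighbour `≠ s₁` in `Y`: it is `c`.  `s₂ ~ x, c`: `s₂ ∈ T`.  `T = {y, s₃, s₂, q}`; `NB G (X - x - s₄) ⊆ {s₄, s₂, q}`: `X = {x, s₄}` (FEW) and `N(s₄) ⊆ {x, y, q}` (`s₄ ≁ s₂, s₃`): degree `≥ 4`. -/
def SpecR3Y : Prop := ∀ {α : Type} [Fintype α] [DecidableEq α] {G : SimpleGraph α} {x y s₁ s₂ s₃ s₄ c d d' : α} {D : Finset α},
  K48 G → P33 G x y s₁ s₂ s₃ s₄ → XB1 G x y s₁ s₂ s₃ s₄ c d d' D → B1 G x y s₁ s₂ s₃ s₄ c d d'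

/-- **R3N** (from XF1, XCC, NPC, FRG, KC; 300 lines).  `cn`: let `K ∌ s₄` be (the vertex set of) a component of `G - {x, y, s₁, s₂, s₃, c}`: `x`, `y` have outside only the neighbour `s₄`, `s₃` has none, so `NB G K ⊆ {s₁, s₂, c}`: FEW (`r = s₄`).  `a24`: XF1 with `Q = {s₁c, cs₃}` and `P = s₂ d' … s₄`, where `d' … s₄` is a path of `G - {x, y, s₁, s₂, s₃, c}` (`cn`);
`NP (delE G s₁ s₃)`: XCC.np for `P33.sym1`.  `g3`: let `z ∈ Z_2(A24)`, `vk z ≠ 0`; in `A24` `N(s₃) = {x, s₂, c}`, `N(s₂) = {x, s₃, c, d'}`.  Boundary at `s₃` of the row `s₂c`: `z (s₂c) (s₃x) = 0` (`s₃s₂`, `s₃c` meet `s₂c`); of the row `s₂x`: `z (s₂x) (s₃c) = 0`; boundary at `s₂` of the row `s₃x`: `z (s₃x) (s₂d') = z (s₃x) (s₂c) = 0`; of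
the row `s₃c`: `z (s₃c) (s₂d') = z (s₃c) (s₂x) = 0`.  So `Zab s₂ s₃ z`; NPC.down, and `contr A24 s₂ s₃ ≤ G - s₃` (`s₂ ~ x, c`): NPC.mono.  `g3d`: `c ~ d`, `z ∈ Z_2(G - s₃)`, `vk z ≠ 0`: the row `z (cd) ·` has boundary `0` at `s₁`, and `s₁` has in `G - s₃` the neighbours `y, c, d` only: `z (cd) (s₁y) = 0`, so the row has no edge at `s₁`: NPC.tdel
(`a = c`, `b = d`, `c = s₁`). -/
structure SpecR3N : Prop where
  cn : ∀ {α : Type} [Fintype α] [DecidableEq α] {G : SimpleGraph α} {x y s₁ s₂ s₃ s₄ c d d' : α},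
    B1 G x y s₁ s₂ s₃ s₄ c d d' → ConnOff G {x, y, s₁, s₂, s₃, c}
  a24 : ∀ {α : Type} [Fintype α] [DecidableEq α] {G : SimpleGraph α} {x y s₁ s₂ s₃ s₄ c d d' : α},
    B1 G x y s₁ s₂ s₃ s₄ c d d' → NP G → NP (dst G s₃ {s₁, y})
  g3 : ∀ {α : Type} [Fintype α] [DecidableEq α] {G : SimpleGraph α} {x y s₁ s₂ s₃ s₄ c d d' : α},
    B1 G x y s₁ s₂ s₃ s₄ c d d' → NP G → NP (del G {s₃})
  g3d : ∀ {α : Type} [Fintype α] [DecidableEq α] {G : SimpleGraph α} {x y s₁ s₂ s₃ s₄ c d d' : α},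
    B1 G x y s₁ s₂ s₃ s₄ c d d' → NP G → G.Adj c d → NP (delE (del G {s₃}) c d)

/-- **R3C** (from C1L, S3F, CRL, FRG, KC; 300 lines).  `R = RR G x s₃ c = (G - s₃) + xc`.  In `A24` `N(s₃) = {x, s₂, c}` and `s₂ ~ x, c`: `eq1`, `eq2`.  `c1`: `G - s₃` is 3-connected (S3F.del), `VS = VS G - s₃`, and so is `R`.  Let `(T, P, Q)` be a separation of `R`, `|T| = 3`, `|P|, |Q| ≥ 2`: `(insert s₃ T, P, Q)` is a separation of `G` of order 4; `x`, `y` are rigid, so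
`x, y ∉ T`; say `x ∈ P`, so `y ∈ P` (`x ~ y`), and `s₁, s₂, s₄, c ∈ P ∪ T` (`c ~ x` in `R`).  So `s₃` has no neighbour in `Q`: CUT.  `e1`: C1L for the edge `xs₂` of `R` (`n - 1 ≥ 8` vertices): `x` has in `R` the neighbours `y, s₂, s₄, c` (four), `s₂` has `x, c, d'`, and `c ≁ d'`.  `e2`: C1L for the edge `cs₂`: `c` has in `R` the neighbours `x, s₁, s₂`
and another one (its degree in `G` is `≥ 4`, `s₃` is lost and `x` is new); `s₂` has `x, c, d'`, and `x ≁ d'` in `R`. -/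
structure SpecR3C : Prop where
  eq1 : ∀ {α : Type} [Fintype α] [DecidableEq α] {G : SimpleGraph α} {x y s₁ s₂ s₃ s₄ c d d' : α},
    B1 G x y s₁ s₂ s₃ s₄ c d d' → contr (dst G s₃ {s₁, y}) x s₃ = RR G x s₃ c
  eq2 : ∀ {α : Type} [Fintype α] [DecidableEq α] {G : SimpleGraph α} {x y s₁ s₂ s₃ s₄ c d d' : α},
    B1 G x y s₁ s₂ s₃ s₄ c d d' → contr (dst G s₃ {s₁, y}) c s₃ = RR G x s₃ c
  c1 : ∀ {α : Type} [Fintype α] [DecidableEq α] {G : SimpleGraph α} {x y s₁ s₂ s₃ s₄ c d d' : α},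
    B1 G x y s₁ s₂ s₃ s₄ c d d' → C1 (RR G x s₃ c) ∧ VS (RR G x s₃ c) = (VS G).erase s₃
  e1 : ∀ {α : Type} [Fintype α] [DecidableEq α] {G : SimpleGraph α} {x y s₁ s₂ s₃ s₄ c d d' : α},
    B1 G x y s₁ s₂ s₃ s₄ c d d' → ¬ G.Adj c d' → S3S (delE (RR G x s₃ c) x s₂)
  e2 : ∀ {α : Type} [Fintype α] [DecidableEq α] {G : SimpleGraph α} {x y s₁ s₂ s₃ s₄ c d d' : α},
    B1 G x y s₁ s₂ s₃ s₄ c d d' → ¬ G.Adj c d' → S3S (delE (RR G x s₃ c) c s₂)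

/-- **R3K** (from R3C, R3N, K2G, KUR, NPC, DST; 250 lines).  `A = A24`; `KZ R` by IH, `R = RR G x s₃ c` (R3C.c1; NP from R3N.g3 by NPC.mono; size: `R = contr A x s₃` (R3C.eq1), DST.sz2, DST.sz4).  In `A` `x` and `s₃` have exactly the common neighbour `s₂`, and `c` and `s₃` exactly the common neighbour `s₂`: by K2G for `(a, b) = (x, s₃)` and for `(a, b) = (c, s₃)` (`contr A a b =
R`, 3-connected, `KZ R`, R3C.e1 resp. R3C.e2) every 2-cycle of `A` which vanishes on (edges at `a`) × (edges at `b`) (`ab` excepted) is Kur.  `T₀ := tor (tri x y s₄) (tri s₃ s₂ c)` is in `Z_2(A)` (KUR.tor) and vanishes on (edges at `c`) × (edges at `s₃`): Kur.  Let `z ∈ Z_2(A)`, `δ := z (xy) (s₃c)`; `z' := z` if `δ = 0`, `z' := z + T₀` if `δ = 1`: `z' (xy) (s₃c)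
= 0`.  `z'` vanishes on (edges at `x`) × (edges at `s₃`): `z' (xs₂) (s₃s₂) = 0`, boundary at `s₃` of the row `xs₂`: `z' (xs₂) (s₃c) = 0`; of the row `xy`: `z' (xy) (s₃s₂) = z' (xy) (s₃c) = 0`; boundary at `x` of the row `s₃c`: `z' (xs₄) (s₃c) = 0`; boundary at `s₃` of the row `xs₄`: `z' (xs₄) (s₃s₂) = 0`.  So `z'` is Kur, and `z` (KUR.add). -/
def SpecR3K : Prop := ∀ {α : Type} [Fintype α] [DecidableEq α] {G : SimpleGraph α} {x y s₁ s₂ s₃ s₄ c d d' : α},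
  B1 G x y s₁ s₂ s₃ s₄ c d d' → NP G → IH G → ¬ G.Adj c d' → KZ (dst G s₃ {s₁, y})

/-- **R3P** (from FRG; import DL/BASE/PLC.lean; 150 lines).  Otherwise `NB G {x, y, s₁, s₂, s₃, c} ⊆ {s₄, d, d'}`: by FEW `G` has exactly the nine vertices, and (`n1`, `n2`, `n3`, P33) its edges are among `xy xs₂ xs₃ xs₄ ys₁ ys₃ ys₄ s₁s₃ s₁c s₁d s₂s₃ s₂c s₂d' s₃c s₄d s₄d' cd cd' dd'`.  This graph is planar: PLCM.not_np_list' with the order `x, y, s₁, s₂, s₃, s₄, c, d, d'` = `0, …, 8`,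
`E = [(0,1),(0,3),(0,4),(0,5),(1,2),(1,4),(1,5),(2,4),(2,6),(2,7),(3,4),(3,6),(3,8),(4,6),(5,7),(5,8),(6,7),(6,8),(7,8)]`, `L = [(0,(1,5)), (0,(2,7)), (1,(2,7)), (3,(0,4)), (3,(1,4)), (3,(2,4)), (3,(2,6)), (4,(2,6)), (5,(2,6)), (5,(3,6)), (5,(3,8)), (5,(4,6)), (8,(2,7)), (8,(5,7))]`. -/
def SpecR3P : Prop := ∀ {α : Type} [Fintype α] [DecidableEq α] {G : SimpleGraph α} {x y s₁ s₂ s₃ s₄ c d d' : α},
  B1 G x y s₁ s₂ s₃ s₄ c d d' → NP G → ∃ h, G.Adj c h ∧ h ∉ ({s₁, s₂, s₃, d, d'} : Finset α)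

/-- **R3D** (from R3N, CRL, NPC, DST, FRG, KC; 300 lines).  `c1`: CRL.c1 with the outside neighbours `s₃, d', h`.  Let `(T, A, B)` be a 4-separation, `c ∈ T`, `|A| ≥ 2`, `|B| ≥ 1`, all neighbours of `c` in `A` in `P`; so `s₃, d', h ∉ A`.  `|B| ≥ 2`: `x`, `y` are rigid, so `x, y ∉ T`, in the same side.  (i) `x, y ∈ A`: `s₃ ∈ T` (`s₃ ∉ A`, `s₃ ~ x`), `s₁, s₂ ∉ B`; `s₃` has no neighbour in `B`:
CUT.  (ii) `x, y ∈ B`: `s₁, s₂, s₃ ∉ A`; `c` has a neighbour in `A` (CUT): it is `d`, the only one; `s₁ ~ d, y`: `s₁ ∈ T`; the only neighbour of `s₁` in `A` is `d` (`y, s₃ ∉ A`).  `NB G (A - d) ⊆ {d} ∪ (T - c - s₁)`, `A - d ≠ ∅`: FEW (`r = x`).  `|B| = 1`, `B = {b}`: `N(b) = T` (degree `≥ 4`), so `b ~ c`; `b ≠ s₃` (degree 5); `s₃ ∈ T = N(b)`: `b ∈ {x, y, s₁, s₂}` and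
`b ~ c`: `b ∈ {s₁, s₂}`; `h ∈ T = N(b)` or `h = b`: `h ∈ {y, x, s₃, c, d, d', s₁, s₂}`: no (`c ≁ x, y`).  `np`: `contr (dst G c P) c s₃ ≥ (G - s₃) - cd` (the edges `cs₁`, `cs₂` come back from `s₃s₁`, `s₃s₂`): R3N.g3d, NPC.mono, NPC.up. -/
structure SpecR3D : Prop where
  c1 : ∀ {α : Type} [Fintype α] [DecidableEq α] {G : SimpleGraph α} {x y s₁ s₂ s₃ s₄ c d d' h : α} {P : Finset α},
    B1 G x y s₁ s₂ s₃ s₄ c d d' → G.Adj c d → G.Adj c d' → G.Adj c h → h ∉ ({s₁, s₂, s₃, d, d'} : Finset α) →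
    P ⊆ {d, s₁, s₂} → C1 (dst G c P)
  np : ∀ {α : Type} [Fintype α] [DecidableEq α] {G : SimpleGraph α} {x y s₁ s₂ s₃ s₄ c d d' : α} {P : Finset α},
    B1 G x y s₁ s₂ s₃ s₄ c d d' → NP G → G.Adj c d → P ⊆ {d, s₁, s₂} → NP (dst G c P)

/-! ## B. The second configuration: 8 vertices -/

/-- **R3E** (from XF5, XCB, CRL, DL5, NPM, NPC, DST, FRG, KC; 400 lines).  `NB G {x, y, s₁, s₂, s₃, s₄} ⊆ {c, d}`: by FEW `VS G = {x, y, s₁, s₂, s₃, s₄, c, d}`.  `x`, `y` are rigid (XF5.b2 for `h` and for `XB2.sym`).  XCB.s3: `s₃ ~ c` or `s₃ ~ d`.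
(A) `s₃ ~ c, d`.  DL5 with `u = s₃`, `(a, b, c) = (s₁, s₂, c)`, `(r, s) = (x, d)`, `x ≁ d`.  Let `P ⊆ {s₁, s₂, c}`.  `C1 (dst G s₃ P)`: CRL.c1, outside neighbours `x, y, d`.  Let `(T, A, B)` be a 4-separation, `s₃ ∈ T`, `|A| ≥ 2`, `|B| ≥ 1`; suppose `x, y, d ∉ A`.  `|B| ≥ 2`: `x, y ∉ T` (rigid), so `x, y ∈ B`, the `s_i` are not in `A`: `A ⊆ {c, d}`, `d ∈ A`: no.
`B = {b}`: `N(b) = T ∋ s₃`, so `b ~ s₃`; `x`, `y`, `d` are in `{b} ∪ N(b)`; `d ≁ x, y`, so `b ∉ {x, y, d}` and `b ~ x, y, d`: `b ∈ {s₃, s₄}`, and `s₄ ≁ s₃`: no.  NP: `del G {s₃} ≤ dst G s₃ P` (DST.dle), model `{s₁}, {s₂}, {s₄} | {c}, {d}, {x, y}` in `del G {s₃}`.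
(B) `s₃ ~ c`, `s₃ ≁ d` (or the same for `XB2.swap`).  `N(d) ⊆ {s₁, s₂, s₄, c}`: `d ~ c` (degree `≥ 4`).  DL5 with `u = c`, `(a, b, c) = (s₁, s₂, d)`, `(r, s) = (s₃, s₄)`, `s₃ ≁ s₄`.  Let `P ⊆ {s₁, s₂, d}`, `|P| ≤ 2`.  CRL.c1, outside neighbours `s₃`, `s₄` and an element of `{s₁, s₂, d}` not in `P`.  Let `(T, A, B)` be a 4-separation, `c ∈ T`, `|A| ≥ 2`, `|B| ≥ 1`; suppose `s₃, s₄ ∉
A`.  `|B| ≥ 2`: `x, y ∉ T`; if `x, y ∈ A` then the `s_i` are not in `B`, `B ⊆ {d}`: no; if `x, y ∈ B` then `A ⊆ {d}`: no.  `B = {b}`: `b ~ c`, `s₃, s₄ ∈ {b} ∪ N(b)`; `s₃ ≁ s₄`: `b ∉ {s₃, s₄}`, `b ~ s₃, s₄`: `b ∈ {x, y, c}`, `b ≠ c` and `x, y ≁ c`: no.  NP: model `{s₁}, {s₂}, {s₄} | {s₃, c}, {d}, {x, y}` in `dst G c {s₁, s₂, d} ≤ dst G c P` (DST.mono). -/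
def SpecR3E : Prop := ∀ {α : Type} [Fintype α] [DecidableEq α] {G : SimpleGraph α} {x y s₁ s₂ s₃ s₄ c d : α},
  T3 G x y s₁ s₂ s₃ s₄ → IH G → XB2 G x y s₁ s₂ s₃ s₄ c d → OK G

/-! ## C. Assembly

**R3B** (`SpecR3B` in `DL/E/Spec2e.lean`; file `DL/E/R3B.lean`; from R3Y, R3K, R3P, R3D, R3E, X35, DL5, DST; 80 lines).  XB2: R3E.  XB1: R3Y gives `B1`.  `c ≁ d'`: R3K and X35 (`H4 G x y s₁ s₄` because `s₁ ≁ s₄`).  `c ≁ d`: the same for `B1.sym` and `T3.sym1`.  `c ~ d, d'`: `h` from R3P; DL5 with `u = c`, `(a, b, c) = (s₂, s₁, d)`, `(r, s) = (s₃, d')`, not adjacent (`n3`); C1 and NP of all `dst G c P` from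
R3D, `KZ (dst G c {s₁, d})` by IH (DST.sz4). -/

end DL
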