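import Pool.Agent.DL.E.Spec2d
import Pool.Agent.DL.G4.C20
import Pool.Agent.DL.E.SpecR3
import Pool.Agent.DL.BASE.PLC

section
/-!
# Module XF5 (helper72): `x` is rigid after two bad cuts
-/
open SimpleGraph Finset

namespace DL

namespace XF5M

variable {α : Type} [Fintype α] [DecidableEq α] {G : SimpleGraph α} {x y s₁ s₂ s₃ s₄ : α}
  {T X Y : Finset α}

theorem few' {D W : Finset α} {r : α} (hG : KConn 4 G) (hD : D ⊆ VS G) (h0 : D.Nonempty)
    (hW : ∀ a ∈ D, ∀ w, G.Adj a w → w ∈ D ∨ w ∈ W) (hc : W.card ≤ 3) (hr : r ∈ VS G)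
    (hrD : r ∉ D) (hrW : r ∉ W) : False := by
  refine FRGM.few hG hD h0 (fun w hw => ?_) hc hr hrD hrW
  obtain ⟨h1, a, ha, haw⟩ := FRGM.mem_NB.1 hw
  exact (hW a ha w haw).resolve_left h1

theorem side (hs : Sep G T X Y) {a w : α} (ha : a ∈ X) (h : G.Adj a w) : w ∈ X ∨ w ∈ T := by
  rcases hs.mem_or (right_mem_VS h) with h1 | h1 | h1
  · exact Or.inr h1
  · exact Or.inl h1
  · exact absurd h (hs.2.2.2.2 a ha w h1)

theorem two (hG : K48 G) (hp : P33 G x y s₁ s₂ s₃ s₄) (hs : Sep G T X Y) (hT : T.card = 4)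
    (hx : x ∈ T) (hy : y ∈ T) (hX : 2 ≤ X.card) (hY : 2 ≤ Y.card) :
    2 ≤ (X ∩ {s₁, s₂, s₃, s₄}).card := by
  by_contra hc
  have hc1 : (X ∩ {s₁, s₂, s₃, s₄}).card ≤ 1 := by omega
  have hnd := hp.nd
  simp only [List.nodup_cons, List.mem_cons, List.not_mem_nil, or_false, not_or, List.nodup_nil,
    and_true, not_false_eq_true] at hnd
  have hTX : ∀ v, v ∈ T → v ∉ X := fun _ h => Finset.disjoint_left.1 hs.2.1 h
  have hTY : ∀ v, v ∈ T → v ∉ Y := fun _ h => Finset.disjoint_left.1 hs.2.2.1 h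
  have hXY : ∀ v, v ∈ X → v ∉ Y := fun _ h => Finset.disjoint_left.1 hs.2.2.2.1 h
  obtain ⟨v, hv, hv2⟩ : ∃ v ∈ X, ∀ j ∈ ({s₁, s₂, s₃, s₄} : Finset α), j ∈ X → j = v := by
    by_cases h : (X ∩ {s₁, s₂, s₃, s₄}).Nonempty
    · obtain ⟨v, hv⟩ := h
      exact ⟨v, (mem_inter.1 hv).1, fun j hj hjX =>
        card_le_one.1 hc1 j (mem_inter.2 ⟨hjX, hj⟩) v hv⟩
    · obtain ⟨v, hv⟩ := card_pos.1 (show 0 < X.card by omega)
      exact ⟨v, hv, fun j hj hjX => absurd ⟨j, mem_inter.2 ⟨hjX, hj⟩⟩ h⟩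
  simp only [mem_insert, mem_singleton, forall_eq_or_imp, forall_eq] at hv2
  obtain ⟨r, hr⟩ := card_pos.1 (show 0 < Y.card by omega)
  refine few' (D := X.erase v) (W := insert v ((T.erase x).erase y)) (r := r) hG.1
    ((erase_subset _ _).trans hs.subP) ?_ ?_ ?_ (hs.subQ hr) ?_ ?_
  · exact card_pos.1 (by rw [card_erase_of_mem hv]; omega)
  · intro a ha w haw
    rw [mem_erase] at ha
    rw [mem_erase, mem_insert, mem_erase, mem_erase]
    by_cases hwv : w = v
    · exact Or.inr (Or.inl hwv)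
    · rcases side hs ha.2 haw with h1 | h1
      · exact Or.inl ⟨hwv, h1⟩
      · refine Or.inr (Or.inr ⟨?_, ?_, h1⟩)
        · rintro rfl
          rcases (hp.ny a).1 haw.symm with rfl | rfl | rfl | rfl
          · exact hTX _ hx ha.2
          · exact ha.1 (hv2.1 ha.2)
          · exact ha.1 (hv2.2.2.1 ha.2)
          · exact ha.1 (hv2.2.2.2 ha.2)
        · rintro rfl
          rcases (hp.nx a).1 haw.symm with rfl | rfl | rfl | rfl
          · exact hTX _ hy ha.2
          · exact ha.1 (hv2.2.1 ha.2)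
          · exact ha.1 (hv2.2.2.1 ha.2)
          · exact ha.1 (hv2.2.2.2 ha.2)
  · have h1 := card_insert_le v ((T.erase x).erase y)
    have h2 : ((T.erase x).erase y).card = 2 := by
      rw [card_erase_of_mem (mem_erase.2 ⟨fun h => hnd.1.1 h.symm, hy⟩), card_erase_of_mem hx, hT]
    omega
  · intro h
    exact hXY _ (mem_of_mem_erase h) hr
  · rw [mem_insert, mem_erase, mem_erase]
    rintro (rfl | h)
    · exact hXY _ hv hr
    · exact hTY _ h.2.2 hr

/-- (I) -/
theorem partI (hG : K48 G) (hp : P33 G x y s₁ s₂ s₃ s₄) (h13 : G.Adj s₁ s₃) (h23 : G.Adj s₂ s₃)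
    (hs : Sep G T X Y) (hT : T.card = 4)
    (hx : x ∈ T) (hX : 2 ≤ X.card) (hY : 2 ≤ Y.card) : y ∉ T := by
  intro hy
  have hTX : ∀ v, v ∈ T → v ∉ X := fun _ h => Finset.disjoint_left.1 hs.2.1 h
  have hTY : ∀ v, v ∈ T → v ∉ Y := fun _ h => Finset.disjoint_left.1 hs.2.2.1 h
  have hXY : ∀ v, v ∈ X → v ∉ Y := fun _ h => Finset.disjoint_left.1 hs.2.2.2.1 h
  have e1 := two hG hp hs hT hx hy hX hY
  have e2 := two hG hp hs.symm hT hx hy hY hX
  have key : ∀ {A B : Finset α}, Sep G T A B → s₃ ∈ A → (B ∩ {s₁, s₂, s₃, s₄}).card ≤ 1 := by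
    intro A B h hA
    have hsub : B ∩ {s₁, s₂, s₃, s₄} ⊆ {s₄} := by
      intro w hw
      simp only [mem_inter, mem_insert, mem_singleton] at hw ⊢
      rcases hw with ⟨h1, rfl | rfl | rfl | rfl⟩
      · exact absurd h13.symm (h.2.2.2.2 _ hA _ h1)
      · exact absurd h23.symm (h.2.2.2.2 _ hA _ h1)
      · exact absurd h1 (Finset.disjoint_left.1 h.2.2.2.1 hA)
      · rfl
    exact (card_le_card hsub).trans (by simp)
  have hv3 : s₃ ∈ VS G := right_mem_VS h13
  rcases hs.mem_or hv3 with h1 | h1 | h1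
  · have hd : Disjoint (X ∩ {s₁, s₂, s₃, s₄}) (Y ∩ {s₁, s₂, s₃, s₄}) :=
      hs.2.2.2.1.mono inter_subset_left inter_subset_left
    have hsub : (X ∩ {s₁, s₂, s₃, s₄}) ∪ (Y ∩ {s₁, s₂, s₃, s₄}) ⊆ {s₁, s₂, s₄} := by
      intro w hw
      simp only [mem_union, mem_inter, mem_insert, mem_singleton] at hw ⊢
      have h3 : w ≠ s₃ := by
        rintro rfl
        rcases hw with hw | hw
        · exact hTX _ h1 hw.1
        · exact hTY _ h1 hw.1
      tauto
    have h2 := card_le_card hsub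
    rw [card_union_of_disjoint hd] at h2
    have h3 : ({s₁, s₂, s₄} : Finset α).card ≤ 3 := card_le_three
    omega
  · have := key hs h1
    omega
  · have := key hs.symm h1
    omega

/-- (II), the common part -/
theorem partII (hG : K48 G) (hp : P33 G x y s₁ s₂ s₃ s₄) (h23 : G.Adj s₂ s₃)
    (hs : Sep G T X Y) (hT : T.card = 4) (hx : x ∈ T) (hy : y ∈ X) (hX : 2 ≤ X.card)
    (hY : 2 ≤ Y.card) : s₂ ∈ Y ∧ s₁ ∉ Y ∧ s₃ ∈ T ∧ s₄ ∉ Y ∧ ∃ v ∈ Y, v ≠ s₂ ∧ G.Adj s₃ v := by
  have hTX : ∀ v, v ∈ T → v ∉ X := fun _ h => Finset.disjoint_left.1 hs.2.1 h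
  have hTY : ∀ v, v ∈ T → v ∉ Y := fun _ h => Finset.disjoint_left.1 hs.2.2.1 h
  have hXY : ∀ v, v ∈ X → v ∉ Y := fun _ h => Finset.disjoint_left.1 hs.2.2.2.1 h
  have hnd := hp.nd
  simp only [List.nodup_cons, List.mem_cons, List.not_mem_nil, or_false, not_or, List.nodup_nil,
    and_true, not_false_eq_true] at hnd
  have hnY : ∀ w, G.Adj y w → w ∉ Y := fun w h1 h2 => hs.2.2.2.2 y hy w h2 h1
  have h1Y : s₁ ∉ Y := hnY _ ((hp.ny _).2 (by tauto))
  have h3Y : s₃ ∉ Y := hnY _ ((hp.ny _).2 (by tauto))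
  have h4Y : s₄ ∉ Y := hnY _ ((hp.ny _).2 (by tauto))
  have hY0 : Y.Nonempty := card_pos.1 (by omega)
  have hxN : x ∈ NB G Y := by
    rw [FRGM.NB_of_sep hG.1 hs.symm hT hY0]
    exact hx
  obtain ⟨_, a, haY, hax⟩ := FRGM.mem_NB.1 hxN
  have h2Y : s₂ ∈ Y := by
    rcases (hp.nx a).1 hax.symm with rfl | rfl | rfl | rfl
    · exact absurd haY (hXY _ hy)
    · exact haY
    · exact absurd haY h3Y
    · exact absurd haY h4Y
  have h3T : s₃ ∈ T := by
    rcases side hs.symm h2Y h23 with h | h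
    · exact absurd h h3Y
    · exact h
  refine ⟨h2Y, h1Y, h3T, h4Y, ?_⟩
  by_contra hc
  push Not at hc
  refine few' (D := Y.erase s₂) (W := insert s₂ ((T.erase x).erase s₃)) (r := y) hG.1
    ((erase_subset _ _).trans hs.subQ) ?_ ?_ ?_ (hs.subP hy) ?_ ?_
  · exact card_pos.1 (by rw [card_erase_of_mem h2Y]; omega)
  · intro a ha w haw
    rw [mem_erase] at ha
    rw [mem_erase, mem_insert, mem_erase, mem_erase]
    by_cases hwv : w = s₂
    · exact Or.inr (Or.inl hwv)
    · rcases side hs.symm ha.2 haw with h1 | h1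
      · exact Or.inl ⟨hwv, h1⟩
      · refine Or.inr (Or.inr ⟨?_, ?_, h1⟩)
        · rintro rfl
          exact hc a ha.2 ha.1 haw.symm
        · rintro rfl
          rcases (hp.nx a).1 haw.symm with rfl | rfl | rfl | rfl
          · exact hXY _ hy ha.2
          · exact ha.1 rfl
          · exact h3Y ha.2
          · exact h4Y ha.2
  · have h1 := card_insert_le s₂ ((T.erase x).erase s₃)
    have h2 : ((T.erase x).erase s₃).card = 2 := by
      rw [card_erase_of_mem (mem_erase.2 ⟨fun h => hnd.1.2.2.2.1 h.symm, h3T⟩),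
        card_erase_of_mem hx, hT]
    omega
  · intro h
    exact hXY _ hy (mem_of_mem_erase h)
  · rw [mem_insert, mem_erase, mem_erase]
    rintro (rfl | h)
    · exact hXY _ hy h2Y
    · exact hTX _ h.2.2 hy

theorem mem_T (hs : Sep G T X Y) {a b c : α} (ha : a ∈ X) (hb : b ∈ Y) (hac : G.Adj c a)
    (hbc : G.Adj c b) : c ∈ T := by
  rcases side hs ha hac.symm with h1 | h1
  · exact absurd hbc (hs.2.2.2.2 c h1 b hb)
  · exact h1

theorem b1 {c d d' : α} {D : Finset α} (hG : K48 G) (hp : P33 G x y s₁ s₂ s₃ s₄)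
    (hB : XB1 G x y s₁ s₂ s₃ s₄ c d d' D)
    (hs : Sep G T X Y) (hT : T.card = 4) (hx : x ∈ T) (hy : y ∈ X) (hX : 2 ≤ X.card)
    (hY : 2 ≤ Y.card) : False := by
  have hTX : ∀ v, v ∈ T → v ∉ X := fun _ h => Finset.disjoint_left.1 hs.2.1 h
  have hTY : ∀ v, v ∈ T → v ∉ Y := fun _ h => Finset.disjoint_left.1 hs.2.2.1 h
  have hXY : ∀ v, v ∈ X → v ∉ Y := fun _ h => Finset.disjoint_left.1 hs.2.2.2.1 h
  have hnd := hB.nd
  simp only [List.nodup_cons, List.mem_cons, List.not_mem_nil, or_false, not_or, List.nodup_nil,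
    and_true, not_false_eq_true] at hnd
  obtain ⟨n1, n2, n3, n4, n5, n6, n7, n8⟩ := hnd
  have h23 : G.Adj s₂ s₃ := (hB.n2 _).2 (by tauto)
  obtain ⟨h2Y, h1Y, h3T, h4Y, v, hvY, hv2, hv3⟩ := partII hG hp h23 hs hT hx hy hX hY
  have hcY : c ∈ Y := by
    rcases (hB.n3 v).1 hv3 with rfl | rfl | rfl | rfl | rfl
    · exact absurd hvY (hTY _ hx)
    · exact absurd hvY (hXY _ hy)
    · exact absurd hvY h1Y
    · exact absurd rfl hv2
    · exact hvY
  have h1T : s₁ ∈ T := mem_T hs hy hcY ((hB.n1 _).2 (by tauto)) ((hB.n1 _).2 (by tauto))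
  -- `X ⊆ {y, s₄}`
  have hD : ((X.erase y).erase s₄) = ∅ := by
    by_contra hne
    refine few' (D := (X.erase y).erase s₄) (W := insert s₄ ((T.erase x).erase s₃)) (r := s₂) hG.1
      (((erase_subset _ _).trans (erase_subset _ _)).trans hs.subP) (nonempty_iff_ne_empty.2 hne)
      ?_ ?_ (hs.subQ h2Y) ?_ ?_
    · intro a ha w haw
      rw [mem_erase, mem_erase] at ha
      rw [mem_erase, mem_erase, mem_insert, mem_erase, mem_erase]
      obtain ⟨ha4, hay, haX⟩ := ha
      by_cases hw4 : w = s₄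
      · exact Or.inr (Or.inl hw4)
      · rcases side hs haX haw with h1 | h1
        · refine Or.inl ⟨hw4, ?_, h1⟩
          rintro rfl
          rcases (hp.ny a).1 haw.symm with rfl | rfl | rfl | rfl
          · exact hTX _ hx haX
          · exact hTX _ h1T haX
          · exact hTX _ h3T haX
          · exact ha4 rfl
        · refine Or.inr (Or.inr ⟨?_, ?_, h1⟩)
          · rintro rfl
            rcases (hB.n3 a).1 haw.symm with rfl | rfl | rfl | rfl | rfl
            · exact hTX _ hx haX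
            · exact hay rfl
            · exact hTX _ h1T haX
            · exact hXY _ haX h2Y
            · exact hXY _ haX hcY
          · rintro rfl
            rcases (hp.nx a).1 haw.symm with rfl | rfl | rfl | rfl
            · exact hay rfl
            · exact hXY _ haX h2Y
            · exact hTX _ h3T haX
            · exact ha4 rfl
    · have h1 := card_insert_le s₄ ((T.erase x).erase s₃)
      have h2 : ((T.erase x).erase s₃).card = 2 := by
        rw [card_erase_of_mem (mem_erase.2 ⟨fun h => n1.2.2.2.1 h.symm, h3T⟩),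
          card_erase_of_mem hx, hT]
      omega
    · intro h
      exact hXY _ (mem_of_mem_erase (mem_of_mem_erase h)) h2Y
    · rw [mem_insert, mem_erase, mem_erase]
      rintro (h | h)
      · exact n4.2.1 h
      · exact hTY _ h.2.2 h2Y
  have h4X : s₄ ∈ X := by
    by_contra h4
    have h5 : s₄ ∉ X.erase y := fun h => h4 (mem_of_mem_erase h)
    rw [erase_eq_of_notMem h5] at hD
    have h6 := card_erase_of_mem hy
    rw [hD, card_empty] at h6
    omega
  have hXs : ∀ w ∈ X, w = y ∨ w = s₄ := by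
    intro w hw
    by_contra hc
    rw [not_or] at hc
    have : w ∈ (X.erase y).erase s₄ := mem_erase.2 ⟨hc.2, mem_erase.2 ⟨hc.1, hw⟩⟩
    rw [hD] at this
    simp at this
  refine few' (D := {s₄}) (W := insert y ((T.erase s₃).erase s₁)) (r := s₃) hG.1
    (singleton_subset_iff.2 (hs.subP h4X)) (singleton_nonempty _) ?_ ?_ (hs.subS h3T) ?_ ?_
  · intro a ha w haw
    rw [mem_singleton] at ha
    subst ha
    rw [mem_singleton, mem_insert, mem_erase, mem_erase]
    rcases side hs h4X haw with h1 | h1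
    · rcases hXs w h1 with h2 | h2
      · exact Or.inr (Or.inl h2)
      · exact Or.inl h2
    · refine Or.inr (Or.inr ⟨?_, ?_, h1⟩)
      · rintro rfl
        rcases (hB.n1 a).1 haw.symm with h | h | h | h <;> tauto
      · rintro rfl
        rcases (hB.n3 a).1 haw.symm with h | h | h | h | h <;> tauto
  · have h1 := card_insert_le y ((T.erase s₃).erase s₁)
    have h2 : ((T.erase s₃).erase s₁).card = 2 := by
      rw [card_erase_of_mem (mem_erase.2 ⟨n3.2.1, h1T⟩),
        card_erase_of_mem h3T, hT]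
    omega
  · rw [mem_singleton]
    exact n5.1
  · rw [mem_insert, mem_erase, mem_erase]
    rintro (h | h)
    · exact n2.2.2.1 h.symm
    · exact h.2.1 rfl

theorem b2 {c d : α} (hG : K48 G) (hp : P33 G x y s₁ s₂ s₃ s₄) (h23 : G.Adj s₂ s₃)
    (hB : XB2 G x y s₁ s₂ s₃ s₄ c d)
    (hs : Sep G T X Y) (hT : T.card = 4) (hx : x ∈ T) (hy : y ∈ X) (hX : 2 ≤ X.card)
    (hY : 2 ≤ Y.card) : False := by
  have hTX : ∀ v, v ∈ T → v ∉ X := fun _ h => Finset.disjoint_left.1 hs.2.1 h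
  have hTY : ∀ v, v ∈ T → v ∉ Y := fun _ h => Finset.disjoint_left.1 hs.2.2.1 h
  have hXY : ∀ v, v ∈ X → v ∉ Y := fun _ h => Finset.disjoint_left.1 hs.2.2.2.1 h
  obtain ⟨h2Y, h1Y, h3T, h4Y, v, hvY, hv2, hv3⟩ := partII hG hp h23 hs hT hx hy hX hY
  have hcd : v = c ∨ v = d := by
    rcases hB.n3 v hv3 with rfl | rfl | rfl | rfl | h | h
    · exact absurd hvY (hTY _ hx)
    · exact absurd hvY (hXY _ hy)
    · exact absurd hvY h1Y
    · exact absurd rfl hv2
    · exact Or.inl h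
    · exact Or.inr h
  have h1T : s₁ ∈ T := mem_T hs hy hvY ((hB.n1 _).2 (by tauto)) ((hB.n1 _).2 (by tauto))
  have h4T : s₄ ∈ T := mem_T hs hy hvY ((hB.n4 _).2 (by tauto)) ((hB.n4 _).2 (by tauto))
  refine few' (D := X.erase y) (W := T.erase x) (r := s₂) hG.1
      ((erase_subset _ _).trans hs.subP) ?_ ?_ ?_ (hs.subQ h2Y) ?_ ?_
  · exact card_pos.1 (by rw [card_erase_of_mem hy]; omega)
  · intro a ha w haw
    rw [mem_erase] at ha
    rw [mem_erase, mem_erase]
    rcases side hs ha.2 haw with h1 | h1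
    · refine Or.inl ⟨?_, h1⟩
      rintro rfl
      rcases (hp.ny a).1 haw.symm with rfl | rfl | rfl | rfl
      · exact hTX _ hx ha.2
      · exact hTX _ h1T ha.2
      · exact hTX _ h3T ha.2
      · exact hTX _ h4T ha.2
    · refine Or.inr ⟨?_, h1⟩
      rintro rfl
      rcases (hp.nx a).1 haw.symm with rfl | rfl | rfl | rfl
      · exact ha.1 rfl
      · exact hXY _ ha.2 h2Y
      · exact hTX _ h3T ha.2
      · exact hTX _ h4T ha.2
  · rw [card_erase_of_mem hx, hT]
  · intro h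
    exact hXY _ (mem_of_mem_erase h) h2Y
  · rw [mem_erase]
    intro h
    exact hTY _ h.2 h2Y

end XF5M

theorem specXF5 : SpecXF5 where
  b1 := by
    intro α _ _ G x y s₁ s₂ s₃ s₄ c d d' D hG hp _ hB
    by_contra hc
    obtain ⟨T, X, Y, hs, hT, hx, hX, hY⟩ := FRGM.nrig.1 hc
    have h13 : G.Adj s₁ s₃ := (hB.n1 _).2 (by tauto)
    have h23 : G.Adj s₂ s₃ := (hB.n2 _).2 (by tauto)
    have hy := XF5M.partI hG hp h13 h23 hs hT hx hX hY
    have hyV : y ∈ VS G := right_mem_VS ((hp.nx y).2 (Or.inl rfl))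
    rcases hs.mem_or hyV with h | h | h
    · exact hy h
    · exact XF5M.b1 hG hp hB hs hT hx h hX hY
    · exact XF5M.b1 hG hp hB hs.symm hT hx h hY hX
  b2 := by
    intro α _ _ G x y s₁ s₂ s₃ s₄ c d hG hp h13 h23 hB
    by_contra hc
    obtain ⟨T, X, Y, hs, hT, hx, hX, hY⟩ := FRGM.nrig.1 hc
    have hy := XF5M.partI hG hp h13 h23 hs hT hx hX hY
    have hyV : y ∈ VS G := right_mem_VS ((hp.nx y).2 (Or.inl rfl))
    rcases hs.mem_or hyV with h | h | h
    · exact hy h
    · exact XF5M.b2 hG hp h23 hB hs hT hx h hX hY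
    · exact XF5M.b2 hG hp h23 hB hs.symm hT hx h hY hX

end DL
end

section
/-!
# MP_3ff0f8_gt, algebra half, E block, module R3D (helper84): `C1` and nonplanarity of `dst G c P` in the first configuration
-/
set_option autoImplicit false

open SimpleGraph Finset

namespace DL

namespace R3DM

variable {α : Type} [Fintype α] [DecidableEq α] {G : SimpleGraph α} {x y s₁ s₂ s₃ s₄ c d d' h : α}
  {P T A B : Finset α}

/-- `|B| ≥ 2` : the vertices `x`, `y` are in the same side -/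
theorem side (hB1 : B1 G x y s₁ s₂ s₃ s₄ c d d') (hs : Sep G T A B) (hT : T.card = 4)
    (hA : 2 ≤ A.card) (hB : 2 ≤ B.card) : (x ∈ A ∧ y ∈ A) ∨ (x ∈ B ∧ y ∈ B) := by
  have hxT : x ∉ T := fun hx => by
    have := hB1.rx T A B hs hT hx
    omega
  have hyT : y ∉ T := fun hy => by
    have := hB1.ry T A B hs hT hy
    omega
  have hxy : G.Adj x y := (hB1.p33.nx y).2 (Or.inl rfl)
  rcases hs.mem_or (left_mem_VS hxy) with h1 | h1 | h1
  · exact absurd h1 hxT
  · rcases hs.mem_or (right_mem_VS hxy) with h2 | h2 | h2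
    · exact absurd h2 hyT
    · exact Or.inl ⟨h1, h2⟩
    · exact absurd hxy (hs.2.2.2.2 x h1 y h2)
  · rcases hs.mem_or (right_mem_VS hxy) with h2 | h2 | h2
    · exact absurd h2 hyT
    · exact absurd hxy.symm (hs.2.2.2.2 y h2 x h1)
    · exact Or.inr ⟨h1, h2⟩

/-- `|B| ≥ 2` -/
theorem big (hB1 : B1 G x y s₁ s₂ s₃ s₄ c d d') (hcd : G.Adj c d) (hP : P ⊆ {d, s₁, s₂})
    (hs : Sep G T A B) (hT : T.card = 4) (hcT : c ∈ T) (hA : 2 ≤ A.card) (hB : 2 ≤ B.card)
    (hAP : ∀ w ∈ A, G.Adj c w → w ∈ P) : False := by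
  have hTA : ∀ v, v ∈ T → v ∉ A := fun _ h => Finset.disjoint_left.1 hs.2.1 h
  have hTB : ∀ v, v ∈ T → v ∉ B := fun _ h => Finset.disjoint_left.1 hs.2.2.1 h
  have hAB : ∀ v, v ∈ A → v ∉ B := fun _ h => Finset.disjoint_left.1 hs.2.2.2.1 h
  have hnd := hB1.nd
  simp only [List.nodup_cons, List.mem_cons, List.not_mem_nil, or_false, not_or, List.nodup_nil,
    and_true, not_false_eq_true] at hnd
  obtain ⟨n1, n2, n3, n4, n5, n6, n7, n8⟩ := hnd
  have hc3 : G.Adj c s₃ := ((hB1.n3 c).2 (by tauto)).symm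
  have h3A : s₃ ∉ A := fun h3 => by
    have h4 := hP (hAP _ h3 hc3)
    simp only [mem_insert, mem_singleton] at h4
    grind
  have hx3 : G.Adj x s₃ := (hB1.p33.nx _).2 (by tauto)
  have hx2 : G.Adj x s₂ := (hB1.p33.nx _).2 (by tauto)
  have hy1 : G.Adj y s₁ := (hB1.p33.ny _).2 (by tauto)
  have hA0 : A.Nonempty := card_pos.1 (by omega)
  have hB0 : B.Nonempty := card_pos.1 (by omega)
  rcases side hB1 hs hT hA hB with ⟨hx, hy⟩ | ⟨hx, hy⟩
  · -- `x, y ∈ A`
    have h3T : s₃ ∈ T := by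
      rcases hs.mem_or (right_mem_VS hx3) with h1 | h1 | h1
      · exact h1
      · exact absurd h1 h3A
      · exact absurd hx3 (hs.2.2.2.2 x hx s₃ h1)
    obtain ⟨w, hw, h3w⟩ := hB1.k48.1.exists_adj_of_sep hs.symm hB0 hT.le h3T
    rcases (hB1.n3 w).1 h3w with rfl | rfl | rfl | rfl | rfl
    · exact hAB _ hx hw
    · exact hAB _ hy hw
    · exact hs.2.2.2.2 _ hy _ hw hy1
    · exact hs.2.2.2.2 _ hx _ hw hx2
    · exact hTB _ hcT hw
  · -- `x, y ∈ B`
    have h1A : s₁ ∉ A := fun h1 => hs.2.2.2.2 _ h1 _ hy hy1.symm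
    have h2A : s₂ ∉ A := fun h1 => hs.2.2.2.2 _ h1 _ hx hx2.symm
    have hcA : ∀ w ∈ A, G.Adj c w → w = d := by
      intro w hw hcw
      have h4 := hP (hAP _ hw hcw)
      simp only [mem_insert, mem_singleton] at h4
      rcases h4 with h4 | h4 | h4
      · exact h4
      · exact absurd (h4 ▸ hw) h1A
      · exact absurd (h4 ▸ hw) h2A
    obtain ⟨w, hw, hcw⟩ := hB1.k48.1.exists_adj_of_sep hs hA0 hT.le hcT
    have hdA : d ∈ A := (hcA w hw hcw) ▸ hw
    have h1d : G.Adj s₁ d := (hB1.n1 _).2 (by tauto)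
    have h1T : s₁ ∈ T := by
      rcases hs.mem_or (left_mem_VS h1d) with h1 | h1 | h1
      · exact h1
      · exact absurd h1 h1A
      · exact absurd h1d.symm (hs.2.2.2.2 d hdA s₁ h1)
    have h1only : ∀ w ∈ A, G.Adj s₁ w → w = d := by
      intro w hw h1w
      rcases (hB1.n1 w).1 h1w with rfl | rfl | rfl | rfl
      · exact absurd hy (hAB _ hw)
      · exact absurd hw h3A
      · exact absurd hw (hTA _ hcT)
      · rfl
    refine XF5M.few' (D := A.erase d) (W := insert d ((T.erase c).erase s₁)) (r := x) hB1.k48.1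
      ((erase_subset _ _).trans hs.subP) ?_ ?_ ?_ (hs.subQ hx) ?_ ?_
    · exact card_pos.1 (by rw [card_erase_of_mem hdA]; omega)
    · intro a ha w haw
      rw [mem_erase] at ha
      rw [mem_erase, mem_insert, mem_erase, mem_erase]
      by_cases hwd : w = d
      · exact Or.inr (Or.inl hwd)
      · rcases XF5M.side hs ha.2 haw with h1 | h1
        · exact Or.inl ⟨hwd, h1⟩
        · refine Or.inr (Or.inr ⟨?_, ?_, h1⟩)
          · rintro rfl
            exact ha.1 (h1only a ha.2 haw.symm)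
          · rintro rfl
            exact ha.1 (hcA a ha.2 haw.symm)
    · have h1 := card_insert_le d ((T.erase c).erase s₁)
      have h2 : ((T.erase c).erase s₁).card = 2 := by
        rw [card_erase_of_mem (mem_erase.2 ⟨n3.2.2.2.1, h1T⟩), card_erase_of_mem hcT, hT]
      omega
    · intro h1
      exact hAB _ (mem_of_mem_erase h1) hx
    · rw [mem_insert, mem_erase, mem_erase]
      rintro (h1 | h1)
      · exact hAB _ (h1 ▸ hdA) hx
      · exact hTB _ h1.2.2 hx

/-- `|B| = 1` -/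
theorem small (hB1 : B1 G x y s₁ s₂ s₃ s₄ c d d') (hch : G.Adj c h)
    (hh : h ∉ ({s₁, s₂, s₃, d, d'} : Finset α)) (hP : P ⊆ {d, s₁, s₂})
    (hs : Sep G T A B) (hT : T.card = 4) (hcT : c ∈ T) (hB : B.card = 1)
    (hAP : ∀ w ∈ A, G.Adj c w → w ∈ P) : False := by
  have hTA : ∀ v, v ∈ T → v ∉ A := fun _ h => Finset.disjoint_left.1 hs.2.1 h
  have hTB : ∀ v, v ∈ T → v ∉ B := fun _ h => Finset.disjoint_left.1 hs.2.2.1 h
  have hAB : ∀ v, v ∈ A → v ∉ B := fun _ h => Finset.disjoint_left.1 hs.2.2.2.1 h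
  have hnd := hB1.nd
  simp only [List.nodup_cons, List.mem_cons, List.not_mem_nil, or_false, not_or, List.nodup_nil,
    and_true, not_false_eq_true] at hnd
  obtain ⟨n1, n2, n3, n4, n5, n6, n7, n8⟩ := hnd
  simp only [mem_insert, mem_singleton, not_or] at hh
  obtain ⟨b, rfl⟩ := card_eq_one.1 hB
  have hB0 : ({b} : Finset α).Nonempty := singleton_nonempty b
  have hTb : ∀ v ∈ T, G.Adj v b := by
    intro v hv
    obtain ⟨w, hw, hvw⟩ := hB1.k48.1.exists_adj_of_sep hs.symm hB0 hT.le hv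
    rw [mem_singleton] at hw
    exact hw ▸ hvw
  have hbT : ∀ w, G.Adj b w → w ∈ T := by
    intro w hw
    rcases XF5M.side hs.symm (mem_singleton_self b) hw with h1 | h1
    · rw [mem_singleton] at h1
      exact absurd h1.symm hw.ne
    · exact h1
  have hc3 : G.Adj c s₃ := ((hB1.n3 c).2 (by tauto)).symm
  have h3A : s₃ ∉ A := fun h3 => by
    have h4 := hP (hAP _ h3 hc3)
    simp only [mem_insert, mem_singleton] at h4
    grind
  have hhA : h ∉ A := fun h3 => by
    have h4 := hP (hAP _ h3 hch)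
    simp only [mem_insert, mem_singleton] at h4
    tauto
  have hcb : G.Adj c b := hTb c hcT
  -- `b ≠ s₃`
  have hb3 : b ≠ s₃ := by
    rintro rfl
    have hsub : ({x, y, s₁, s₂, c} : Finset α) ⊆ T := by
      intro w hw
      simp only [mem_insert, mem_singleton] at hw
      exact hbT w ((hB1.n3 w).2 hw)
    have h5 : ({x, y, s₁, s₂, c} : Finset α).card = 5 := by
      rw [card_insert_of_notMem, card_insert_of_notMem, card_insert_of_notMem,
        card_insert_of_notMem, card_singleton]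
      · simp only [mem_singleton]
        tauto
      · simp only [mem_insert, mem_singleton]
        tauto
      · simp only [mem_insert, mem_singleton]
        tauto
      · simp only [mem_insert, mem_singleton]
        tauto
    have := card_le_card hsub
    omega
  have h3T : s₃ ∈ T := by
    rcases hs.mem_or (right_mem_VS hc3) with h1 | h1 | h1
    · exact h1
    · exact absurd h1 h3A
    · rw [mem_singleton] at h1
      exact absurd h1.symm hb3
  have hncx : ¬ G.Adj x c := by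
    rw [hB1.p33.nx]
    grind
  have hncy : ¬ G.Adj y c := by
    rw [hB1.p33.ny]
    grind
  have hhor : h = b ∨ G.Adj b h := by
    rcases hs.mem_or (right_mem_VS hch) with h1 | h1 | h1
    · exact Or.inr (hTb h h1).symm
    · exact absurd h1 hhA
    · rw [mem_singleton] at h1
      exact Or.inl h1
  rcases (hB1.n3 b).1 (hTb s₃ h3T) with rfl | rfl | rfl | rfl | rfl
  · exact hncx hcb.symm
  · exact hncy hcb.symm
  · rcases hhor with h1 | h1
    · exact hh.1 h1
    · rcases (hB1.n1 h).1 h1 with rfl | rfl | rfl | rfl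
      · exact hncy hch.symm
      · exact hh.2.2.1 rfl
      · exact hch.ne rfl
      · exact hh.2.2.2.1 rfl
  · rcases hhor with h1 | h1
    · exact hh.2.1 h1
    · rcases (hB1.n2 h).1 h1 with rfl | rfl | rfl | rfl
      · exact hncx hch.symm
      · exact hh.2.2.1 rfl
      · exact hch.ne rfl
      · exact hh.2.2.2.2 rfl
  · exact hcb.ne rfl

theorem c1 (hCRL : SpecCRL) (hB1 : B1 G x y s₁ s₂ s₃ s₄ c d d') (hcd : G.Adj c d)
    (hcd' : G.Adj c d') (hch : G.Adj c h) (hh : h ∉ ({s₁, s₂, s₃, d, d'} : Finset α))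
    (hP : P ⊆ {d, s₁, s₂}) : C1 (dst G c P) := by
  have hnd := hB1.nd
  simp only [List.nodup_cons, List.mem_cons, List.not_mem_nil, or_false, not_or, List.nodup_nil,
    and_true, not_false_eq_true] at hnd
  obtain ⟨n1, n2, n3, n4, n5, n6, n7, n8⟩ := hnd
  have hh' := hh
  simp only [mem_insert, mem_singleton, not_or] at hh'
  have hc3 : G.Adj c s₃ := ((hB1.n3 c).2 (by tauto)).symm
  have hnP : ∀ w, w ≠ d → w ≠ s₁ → w ≠ s₂ → w ∉ P := by
    intro w h1 h2 h3 h4
    have := hP h4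
    simp only [mem_insert, mem_singleton] at this
    tauto
  refine hCRL.c1 (x := s₃) (y := d') (z := h) hB1.k48.1 (fun h1 => n5.2.2.2 h1)
    (fun h1 => hh'.2.2.1 h1.symm) (fun h1 => hh'.2.2.2.2 h1.symm) ?_ ?_
  · rintro w (rfl | rfl | rfl)
    · exact ⟨hc3, hnP _ (by grind) (by grind) (by grind)⟩
    · exact ⟨hcd', hnP _ (by grind) (by grind) (by grind)⟩
    · exact ⟨hch, hnP _ hh'.2.2.2.1 hh'.1 hh'.2.1⟩
  · intro T A B hs hT hcT hA hB
    by_contra hc
    push Not at hc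
    by_cases h2 : 2 ≤ B.card
    · exact big hB1 hcd hP hs hT hcT hA h2 hc
    · exact small hB1 hch hh hP hs hT hcT (by omega) hc

theorem np (hR3N : SpecR3N) (hNPC : SpecNPC) (hDST : SpecDST)
    (hB1 : B1 G x y s₁ s₂ s₃ s₄ c d d') (hNP : NP G) (hcd : G.Adj c d)
    (hP : P ⊆ {d, s₁, s₂}) : NP (dst G c P) := by
  have hnd := hB1.nd
  simp only [List.nodup_cons, List.mem_cons, List.not_mem_nil, or_false, not_or, List.nodup_nil,
    and_true, not_false_eq_true] at hnd
  obtain ⟨n1, n2, n3, n4, n5, n6, n7, n8⟩ := hnd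
  have hc3 : G.Adj c s₃ := ((hB1.n3 c).2 (by tauto)).symm
  have h3P : s₃ ∉ P := fun h1 => by
    have := hP h1
    simp only [mem_insert, mem_singleton] at this
    grind
  have hc3' : (dst G c P).Adj c s₃ := by
    rw [hDST.adj]
    exact ⟨hc3, fun h1 => h3P h1.2, fun h1 => hc3.ne h1.1.symm⟩
  refine hNPC.up hc3' (hNPC.mono ?_ (hR3N.g3d hB1 hNP hcd))
  have key : ∀ v, G.Adj c v → v ≠ s₃ → v ≠ d → (contr (dst G c P) c s₃).Adj c v := by
    intro v hcv hv3 hvd
    rw [contr_adj]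
    refine ⟨hc3.ne, hv3, hcv.ne, ?_⟩
    by_cases hvP : v ∈ P
    · have h1 := hP hvP
      simp only [mem_insert, mem_singleton] at h1
      refine Or.inr (Or.inl ⟨rfl, ?_⟩)
      rw [hDST.adj]
      refine ⟨(hB1.n3 v).2 ?_, fun h2 => hc3.ne h2.1.symm, fun h2 => hcv.ne h2.1.symm⟩
      tauto
    · refine Or.inl ?_
      rw [hDST.adj]
      exact ⟨hcv, fun h2 => hvP h2.2, fun h2 => hcv.ne h2.1.symm⟩
  intro u v huv
  have huv' : G.Adj u v ∧ u ≠ s₃ ∧ v ≠ s₃ ∧ s(u, v) ≠ s(c, d) := by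
    have h1 := huv
    simp only [delE, SimpleGraph.deleteEdges_adj, Set.mem_singleton_iff] at h1
    obtain ⟨⟨h2, h3, h4⟩, h5⟩ := h1
    exact ⟨h2, by simpa using h3, by simpa using h4, h5⟩
  obtain ⟨h1, h2, h3, h4⟩ := huv'
  by_cases hu : u = c
  · subst hu
    exact key v h1 h3 (fun h5 => h4 (by rw [h5]))
  · by_cases hv : v = c
    · subst hv
      exact (key u h1.symm h2 (fun h5 => h4 (by rw [h5, Sym2.eq_swap]))).symm
    · rw [contr_adj]
      refine ⟨h2, h3, h1.ne, Or.inl ?_⟩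
      rw [hDST.adj]
      exact ⟨h1, fun h5 => hu h5.1, fun h5 => hv h5.1⟩

end R3DM

/-- **R3D.** -/
theorem specR3D (hR3N : SpecR3N) (hCRL : SpecCRL) (hNPC : SpecNPC) (hDST : SpecDST) : SpecR3D where
  c1 := fun hB1 hcd hcd' hch hh hP => R3DM.c1 hCRL hB1 hcd hcd' hch hh hP
  np := fun hB1 hNP hcd hP => R3DM.np hR3N hNPC hDST hB1 hNP hcd hP

end DL
end

section
/-!
# MP_3ff0f8_gt, algebra half, E block, module R3P (helper57): a further neighbour of `c`
-/
set_option autoImplicit false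

open SimpleGraph Finset

namespace DL

namespace R3PM

theorem chk9 : PLCM.chk [(0,1),(0,3),(0,4),(0,5),(1,2),(1,4),(1,5),(2,4),(2,6),(2,7),(3,4),(3,6),
    (3,8),(4,6),(5,7),(5,8),(6,7),(6,8),(7,8)]
    [(0,(1,5)), (0,(2,7)), (1,(2,7)), (3,(0,4)), (3,(1,4)), (3,(2,4)), (3,(2,6)), (4,(2,6)),
      (5,(2,6)), (5,(3,6)), (5,(3,8)), (5,(4,6)), (8,(2,7)), (8,(5,7))] = true := by
  decide +kernel

end R3PM

/-- **R3P.** -/
theorem specR3P : SpecR3P := by
  intro α _ _ G x y s₁ s₂ s₃ s₄ c d d' hB hNP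
  by_contra hcon
  push Not at hcon
  have hnd := hB.nd
  have hcN : ∀ w, G.Adj c w → w = s₁ ∨ w = s₂ ∨ w = s₃ ∨ w = d ∨ w = d' := by
    intro w hw
    have := hcon w hw
    simpa only [mem_insert, mem_singleton] using this
  have hk := hB.k48
  have hx : x ∈ VS G := left_mem_VS ((hB.p33.nx y).2 (Or.inl rfl))
  have hy : y ∈ VS G := right_mem_VS ((hB.p33.nx y).2 (Or.inl rfl))
  have h1 : s₁ ∈ VS G := left_mem_VS ((hB.n1 s₃).2 (Or.inr (Or.inl rfl)))
  have h3 : s₃ ∈ VS G := right_mem_VS ((hB.n1 s₃).2 (Or.inr (Or.inl rfl)))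
  have h2 : s₂ ∈ VS G := left_mem_VS ((hB.n2 s₃).2 (Or.inr (Or.inl rfl)))
  have hc : c ∈ VS G := right_mem_VS ((hB.n2 c).2 (Or.inr (Or.inr (Or.inl rfl))))
  -- the neighbours of the six vertices
  have hN : ∀ a ∈ ({x, y, s₁, s₂, s₃, c} : Finset α), ∀ w, G.Adj a w →
      w ∈ ({x, y, s₁, s₂, s₃, c} : Finset α) ∨ w ∈ ({s₄, d, d'} : Finset α) := by
    intro a ha w haw
    simp only [mem_insert, mem_singleton] at ha ⊢
    rcases ha with rfl | rfl | rfl | rfl | rfl | rfl
    · have := (hB.p33.nx w).1 haw; tauto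
    · have := (hB.p33.ny w).1 haw; tauto
    · have := (hB.n1 w).1 haw; tauto
    · have := (hB.n2 w).1 haw; tauto
    · have := (hB.n3 w).1 haw; tauto
    · have := hcN w haw; tauto
  have hV : ∀ r ∈ VS G, r ∈ ({x, y, s₁, s₂, s₃, c} : Finset α) ∨ r ∈ ({s₄, d, d'} : Finset α) := by
    intro r hr
    by_contra h
    rw [not_or] at h
    refine XF5M.few' (D := {x, y, s₁, s₂, s₃, c}) (W := {s₄, d, d'}) (r := r) hk.1 ?_
      ⟨x, mem_insert_self _ _⟩ hN card_le_three hr h.1 h.2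
    intro a ha
    simp only [mem_insert, mem_singleton] at ha
    rcases ha with rfl | rfl | rfl | rfl | rfl | rfl <;> assumption
  have hlist : ∀ a b, G.Adj a b → a ∈ ({x, y, s₁, s₂, s₃, c} : Finset α) →
      s(a, b) ∈ [s(x, y), s(x, s₂), s(x, s₃), s(x, s₄), s(y, s₁), s(y, s₃), s(y, s₄), s(s₁, s₃),
        s(s₁, c), s(s₁, d), s(s₂, s₃), s(s₂, c), s(s₂, d'), s(s₃, c), s(s₄, d), s(s₄, d'),
        s(c, d), s(c, d'), s(d, d')] := by
    intro a b hab ha
    simp only [mem_insert, mem_singleton] at ha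
    rcases ha with rfl | rfl | rfl | rfl | rfl | rfl
    · rcases (hB.p33.nx b).1 hab with rfl | rfl | rfl | rfl <;> simp
    · rcases (hB.p33.ny b).1 hab with rfl | rfl | rfl | rfl <;> simp
    · rcases (hB.n1 b).1 hab with rfl | rfl | rfl | rfl <;> simp
    · rcases (hB.n2 b).1 hab with rfl | rfl | rfl | rfl <;> simp
    · rcases (hB.n3 b).1 hab with rfl | rfl | rfl | rfl | rfl <;> simp
    · rcases hcN b hab with rfl | rfl | rfl | rfl | rfl <;> simp
  refine PLCM.not_np_list' (l := [x, y, s₁, s₂, s₃, s₄, c, d, d']) hnd R3PM.chk9 9 rfl (by decide)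
    x ?_ hNP
  intro a b hab
  have goal : s(a, b) ∈ [s(x, y), s(x, s₂), s(x, s₃), s(x, s₄), s(y, s₁), s(y, s₃), s(y, s₄),
      s(s₁, s₃), s(s₁, c), s(s₁, d), s(s₂, s₃), s(s₂, c), s(s₂, d'), s(s₃, c), s(s₄, d),
      s(s₄, d'), s(c, d), s(c, d'), s(d, d')] := by
    rcases hV a (left_mem_VS hab) with ha | ha
    · exact hlist a b hab ha
    · rcases hV b (right_mem_VS hab) with hb | hb
      · rw [Sym2.eq_swap (a := a) (b := b)]
        exact hlist b a hab.symm hb
      · simp only [mem_insert, mem_singleton] at ha hb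
        have hne := hab.ne
        rcases ha with rfl | rfl | rfl <;> rcases hb with rfl | rfl | rfl <;>
          first
            | exact absurd rfl hne
            | simp
  have hL : ([(0,1),(0,3),(0,4),(0,5),(1,2),(1,4),(1,5),(2,4),(2,6),(2,7),(3,4),(3,6),
    (3,8),(4,6),(5,7),(5,8),(6,7),(6,8),(7,8)] : List (ℕ × ℕ)).map (fun e =>
      s([x, y, s₁, s₂, s₃, s₄, c, d, d'].getD e.1 x, [x, y, s₁, s₂, s₃, s₄, c, d, d'].getD e.2 x)) =
      [s(x, y), s(x, s₂), s(x, s₃), s(x, s₄), s(y, s₁), s(y, s₃), s(y, s₄),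
      s(s₁, s₃), s(s₁, c), s(s₁, d), s(s₂, s₃), s(s₂, c), s(s₂, d'), s(s₃, c), s(s₄, d),
      s(s₄, d'), s(c, d), s(c, d'), s(d, d')] := by
    simp
  rw [hL]
  exact goal

end DL
end

section
/-!
# MP_3ff0f8_gt, algebra half, E block, module R3Y (helper57): `x` and `y` are rigid in the first configuration
-/
set_option autoImplicit false

open SimpleGraph Finset

namespace DL

namespace R3YM

variable {α : Type} [Fintype α] [DecidableEq α] {G : SimpleGraph α} {x y s₁ s₂ s₃ s₄ : α}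
  {T X Y : Finset α}

/-- XF5.b1 without the corner `D` -/
theorem b1 {c d d' : α} (hG : K48 G) (hp : P33 G x y s₁ s₂ s₃ s₄)
    (hnd : [x, y, s₁, s₂, s₃, s₄, c, d, d'].Nodup)
    (hn3 : ∀ w, G.Adj s₃ w ↔ w = x ∨ w = y ∨ w = s₁ ∨ w = s₂ ∨ w = c)
    (hn2 : ∀ w, G.Adj s₂ w ↔ w = x ∨ w = s₃ ∨ w = c ∨ w = d')
    (hn1 : ∀ w, G.Adj s₁ w ↔ w = y ∨ w = s₃ ∨ w = c ∨ w = d)
    (hs : Sep G T X Y) (hT : T.card = 4) (hx : x ∈ T) (hy : y ∈ X) (hX : 2 ≤ X.card)
    (hY : 2 ≤ Y.card) : False := by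
  have hTX : ∀ v, v ∈ T → v ∉ X := fun _ h => Finset.disjoint_left.1 hs.2.1 h
  have hTY : ∀ v, v ∈ T → v ∉ Y := fun _ h => Finset.disjoint_left.1 hs.2.2.1 h
  have hXY : ∀ v, v ∈ X → v ∉ Y := fun _ h => Finset.disjoint_left.1 hs.2.2.2.1 h
  simp only [List.nodup_cons, List.mem_cons, List.not_mem_nil, or_false, not_or, List.nodup_nil,
    and_true, not_false_eq_true] at hnd
  obtain ⟨n1, n2, n3, n4, n5, n6, n7, n8⟩ := hnd
  have h23 : G.Adj s₂ s₃ := (hn2 _).2 (by tauto)
  obtain ⟨h2Y, h1Y, h3T, h4Y, v, hvY, hv2, hv3⟩ := XF5M.partII hG hp h23 hs hT hx hy hX hY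
  have hcY : c ∈ Y := by
    rcases (hn3 v).1 hv3 with rfl | rfl | rfl | rfl | rfl
    · exact absurd hvY (hTY _ hx)
    · exact absurd hvY (hXY _ hy)
    · exact absurd hvY h1Y
    · exact absurd rfl hv2
    · exact hvY
  have h1T : s₁ ∈ T := XF5M.mem_T hs hy hcY ((hn1 _).2 (by tauto)) ((hn1 _).2 (by tauto))
  -- `X ⊆ {y, s₄}`
  have hD : ((X.erase y).erase s₄) = ∅ := by
    by_contra hne
    refine XF5M.few' (D := (X.erase y).erase s₄) (W := insert s₄ ((T.erase x).erase s₃)) (r := s₂) hG.1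
      (((erase_subset _ _).trans (erase_subset _ _)).trans hs.subP) (nonempty_iff_ne_empty.2 hne)
      ?_ ?_ (hs.subQ h2Y) ?_ ?_
    · intro a ha w haw
      rw [mem_erase, mem_erase] at ha
      rw [mem_erase, mem_erase, mem_insert, mem_erase, mem_erase]
      obtain ⟨ha4, hay, haX⟩ := ha
      by_cases hw4 : w = s₄
      · exact Or.inr (Or.inl hw4)
      · rcases XF5M.side hs haX haw with h1 | h1
        · refine Or.inl ⟨hw4, ?_, h1⟩
          rintro rfl
          rcases (hp.ny a).1 haw.symm with rfl | rfl | rfl | rfl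
          · exact hTX _ hx haX
          · exact hTX _ h1T haX
          · exact hTX _ h3T haX
          · exact ha4 rfl
        · refine Or.inr (Or.inr ⟨?_, ?_, h1⟩)
          · rintro rfl
            rcases (hn3 a).1 haw.symm with rfl | rfl | rfl | rfl | rfl
            · exact hTX _ hx haX
            · exact hay rfl
            · exact hTX _ h1T haX
            · exact hXY _ haX h2Y
            · exact hXY _ haX hcY
          · rintro rfl
            rcases (hp.nx a).1 haw.symm with rfl | rfl | rfl | rfl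
            · exact hay rfl
            · exact hXY _ haX h2Y
            · exact hTX _ h3T haX
            · exact ha4 rfl
    · have h1 := card_insert_le s₄ ((T.erase x).erase s₃)
      have h2 : ((T.erase x).erase s₃).card = 2 := by
        rw [card_erase_of_mem (mem_erase.2 ⟨fun h => n1.2.2.2.1 h.symm, h3T⟩),
          card_erase_of_mem hx, hT]
      omega
    · intro h
      exact hXY _ (mem_of_mem_erase (mem_of_mem_erase h)) h2Y
    · rw [mem_insert, mem_erase, mem_erase]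
      rintro (h | h)
      · exact n4.2.1 h
      · exact hTY _ h.2.2 h2Y
  have h4X : s₄ ∈ X := by
    by_contra h4
    have h5 : s₄ ∉ X.erase y := fun h => h4 (mem_of_mem_erase h)
    rw [erase_eq_of_notMem h5] at hD
    have h6 := card_erase_of_mem hy
    rw [hD, card_empty] at h6
    omega
  have hXs : ∀ w ∈ X, w = y ∨ w = s₄ := by
    intro w hw
    by_contra hc
    rw [not_or] at hc
    have : w ∈ (X.erase y).erase s₄ := mem_erase.2 ⟨hc.2, mem_erase.2 ⟨hc.1, hw⟩⟩
    rw [hD] at this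
    simp at this
  refine XF5M.few' (D := {s₄}) (W := insert y ((T.erase s₃).erase s₁)) (r := s₃) hG.1
    (singleton_subset_iff.2 (hs.subP h4X)) (singleton_nonempty _) ?_ ?_ (hs.subS h3T) ?_ ?_
  · intro a ha w haw
    rw [mem_singleton] at ha
    subst ha
    rw [mem_singleton, mem_insert, mem_erase, mem_erase]
    rcases XF5M.side hs h4X haw with h1 | h1
    · rcases hXs w h1 with h2 | h2
      · exact Or.inr (Or.inl h2)
      · exact Or.inl h2
    · refine Or.inr (Or.inr ⟨?_, ?_, h1⟩)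
      · rintro rfl
        rcases (hn1 a).1 haw.symm with h | h | h | h <;> tauto
      · rintro rfl
        rcases (hn3 a).1 haw.symm with h | h | h | h | h <;> tauto
  · have h1 := card_insert_le y ((T.erase s₃).erase s₁)
    have h2 : ((T.erase s₃).erase s₁).card = 2 := by
      rw [card_erase_of_mem (mem_erase.2 ⟨n3.2.1, h1T⟩),
        card_erase_of_mem h3T, hT]
    omega
  · rw [mem_singleton]
    exact n5.1
  · rw [mem_insert, mem_erase, mem_erase]
    rintro (h | h)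
    · exact n2.2.2.1 h.symm
    · exact h.2.1 rfl

theorem rig {c d d' : α} (hG : K48 G) (hp : P33 G x y s₁ s₂ s₃ s₄)
    (hnd : [x, y, s₁, s₂, s₃, s₄, c, d, d'].Nodup)
    (hn3 : ∀ w, G.Adj s₃ w ↔ w = x ∨ w = y ∨ w = s₁ ∨ w = s₂ ∨ w = c)
    (hn2 : ∀ w, G.Adj s₂ w ↔ w = x ∨ w = s₃ ∨ w = c ∨ w = d')
    (hn1 : ∀ w, G.Adj s₁ w ↔ w = y ∨ w = s₃ ∨ w = c ∨ w = d) : Rig G x := by
  by_contra hc
  obtain ⟨T, X, Y, hs, hT, hx, hX, hY⟩ := FRGM.nrig.1 hc
  have h13 : G.Adj s₁ s₃ := (hn1 _).2 (by tauto)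
  have h23 : G.Adj s₂ s₃ := (hn2 _).2 (by tauto)
  have hy := XF5M.partI hG hp h13 h23 hs hT hx hX hY
  have hyV : y ∈ VS G := right_mem_VS ((hp.nx y).2 (Or.inl rfl))
  rcases hs.mem_or hyV with h | h | h
  · exact hy h
  · exact b1 hG hp hnd hn3 hn2 hn1 hs hT hx h hX hY
  · exact b1 hG hp hnd hn3 hn2 hn1 hs.symm hT hx h hY hX

end R3YM

/-- **R3Y.** -/
theorem specR3Y : SpecR3Y := by
  intro α _ _ G x y s₁ s₂ s₃ s₄ c d d' D hG hp hB
  refine ⟨hG, hp, hB.nd, hB.n3, hB.n2, hB.n1, R3YM.rig hG hp hB.nd hB.n3 hB.n2 hB.n1, ?_⟩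
  refine R3YM.rig hG hp.sym1 (c := c) (d := d') (d' := d) ?_ ?_ hB.n1 hB.n2
  · have := hB.nd
    simp only [List.nodup_cons, List.mem_cons, List.not_mem_nil, or_false, not_or,
      List.nodup_nil, and_true, not_false_eq_true] at this ⊢
    grind
  · intro w
    rw [hB.n3]
    tauto

end DL
end
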