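import Pool.Agent.DL.E.Spec2d
import Pool.Agent.DL.G4.C20
import Pool.Agent.DL.E.SpecR3
import Pool.Agent.DL.E.R3Y

section
set_option autoImplicit false

/-!
MP_3ff0f8_gt, ALGEBRA HALF, E block section 2, module XF6 (helper60)
-/

open SimpleGraph Finset

namespace DL

namespace XF6M

theorem cset_pair {α : Type} [Fintype α] [DecidableEq α] {G : SimpleGraph α} {a b : α}
    (h : G.Adj a b) : CSet G {a, b} := by
  have hab : (DL.del G (univ \ {a, b})).Reachable a b := Adj.reachable ⟨h, by simp, by simp⟩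
  have key : ∀ v ∈ ({a, b} : Finset α), (DL.del G (univ \ {a, b})).Reachable a v := by
    intro v hv
    simp only [mem_insert, mem_singleton] at hv
    rcases hv with rfl | rfl
    · exact Reachable.refl _
    · exact hab
  exact ⟨⟨a, by simp⟩, fun u hu v hv => (key u hu).symm.trans (key v hv)⟩

end XF6M

open N6AM XF6M in
theorem specXF6 (hNPM : SpecNPM) : SpecXF6 := by
  intro α _ _ G x y s₁ s₂ s₃ s₄ c d hp h23 hB
  have hnd := hB.nd
  simp only [List.nodup_cons, List.mem_cons, List.not_mem_nil, or_false, not_or, List.nodup_nil,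
    and_true] at hnd
  obtain ⟨⟨xy, x1, x2, x3, x4, xc, xd⟩, ⟨y1, y2, y3, y4, yc, yd⟩, ⟨s12, s13, s14, s1c, s1d⟩,
    ⟨s23, s24, s2c, s2d⟩, ⟨s34, s3c, s3d⟩, ⟨s4c, s4d⟩, cd, -⟩ := hnd
  have dadj : ∀ {u v : α}, G.Adj u v → u ≠ x → v ≠ x → (del G {x}).Adj u v := fun h hu hv =>
    ⟨h, by simpa using hu, by simpa using hv⟩
  refine k33_of hNPM (A₀ := {s₁}) (A₁ := {s₂, s₃}) (A₂ := {s₄}) (B₀ := {c}) (B₁ := {d}) (B₂ := {y})
    (cset_singleton _) (cset_pair (dadj h23 (Ne.symm x2) (Ne.symm x3))) (cset_singleton _)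
    (cset_singleton _) (cset_singleton _) (cset_singleton _) ?_ ?_ ?_ ?_ ?_ ?_ ?_ ?_ ?_
    ⟨⟨s₁, by simp, c, by simp, ?_⟩, ⟨s₁, by simp, d, by simp, ?_⟩, ⟨s₁, by simp, y, by simp, ?_⟩⟩
    ⟨⟨s₂, by simp, c, by simp, ?_⟩, ⟨s₂, by simp, d, by simp, ?_⟩, ⟨s₃, by simp, y, by simp, ?_⟩⟩
    ⟨⟨s₄, by simp, c, by simp, ?_⟩, ⟨s₄, by simp, d, by simp, ?_⟩, ⟨s₄, by simp, y, by simp, ?_⟩⟩
  · simp [s12, s13]
  · simp [s14]
  · simp [Ne.symm s24, Ne.symm s34, s24, s34]
  · simp [cd]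
  · simp [Ne.symm yc]
  · simp [Ne.symm yd]
  · simp only [disjoint_singleton_left, mem_union, mem_singleton, not_or]
    exact ⟨⟨s1c, s1d⟩, Ne.symm y1⟩
  · simp only [disjoint_insert_left, disjoint_singleton_left, mem_union, mem_singleton, not_or]
    exact ⟨⟨⟨s2c, s2d⟩, Ne.symm y2⟩, ⟨s3c, s3d⟩, Ne.symm y3⟩
  · simp only [disjoint_singleton_left, mem_union, mem_singleton, not_or]
    exact ⟨⟨s4c, s4d⟩, Ne.symm y4⟩
  · exact dadj ((hB.n1 c).2 (by tauto)) (Ne.symm x1) (Ne.symm xc)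
  · exact dadj ((hB.n1 d).2 (by tauto)) (Ne.symm x1) (Ne.symm xd)
  · exact dadj ((hB.n1 y).2 (by tauto)) (Ne.symm x1) (Ne.symm xy)
  · exact dadj ((hB.n2 c).2 (by tauto)) (Ne.symm x2) (Ne.symm xc)
  · exact dadj ((hB.n2 d).2 (by tauto)) (Ne.symm x2) (Ne.symm xd)
  · exact dadj ((hp.ny s₃).2 (by tauto)).symm (Ne.symm x3) (Ne.symm xy)
  · exact dadj ((hB.n4 c).2 (by tauto)) (Ne.symm x4) (Ne.symm xc)
  · exact dadj ((hB.n4 d).2 (by tauto)) (Ne.symm x4) (Ne.symm xd)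
  · exact dadj ((hB.n4 y).2 (by tauto)) (Ne.symm x4) (Ne.symm xy)

end DL
end

section
set_option autoImplicit false

/-!
MP_3ff0f8_gt, ALGEBRA HALF, EXIST section 2.3, module R3E (helper9): the second configuration, 8 vertices
-/

open SimpleGraph Finset

namespace DL

namespace R3EM

/-- the second configuration with both rigid vertices and the list of the vertices -/
structure Dat {α : Type} [Fintype α] [DecidableEq α] (G : SimpleGraph α) (x y s₁ s₂ s₃ s₄ c d : α) : Prop where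
  k48 : K48 G
  p33 : P33 G x y s₁ s₂ s₃ s₄
  a1 : G.Adj s₁ s₃
  a2 : G.Adj s₂ s₃
  b : XB2 G x y s₁ s₂ s₃ s₄ c d
  rx : Rig G x
  ry : Rig G y
  vs : ∀ v ∈ VS G, v = x ∨ v = y ∨ v = s₁ ∨ v = s₂ ∨ v = s₃ ∨ v = s₄ ∨ v = c ∨ v = d

variable {α : Type} [Fintype α] [DecidableEq α] {G : SimpleGraph α} {x y s₁ s₂ s₃ s₄ c d : α}

theorem Dat.swap (h : Dat G x y s₁ s₂ s₃ s₄ c d) : Dat G x y s₁ s₂ s₃ s₄ d c :=
  ⟨h.k48, h.p33, h.a1, h.a2, h.b.swap, h.rx, h.ry, fun v hv => by have := h.vs v hv; tauto⟩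

theorem vs8 (hG : K48 G) (hp : P33 G x y s₁ s₂ s₃ s₄) (hB : XB2 G x y s₁ s₂ s₃ s₄ c d) :
    ∀ v ∈ VS G, v = x ∨ v = y ∨ v = s₁ ∨ v = s₂ ∨ v = s₃ ∨ v = s₄ ∨ v = c ∨ v = d := by
  intro v hv
  by_contra hc
  push Not at hc
  obtain ⟨h1, h2, h3, h4, h5, h6, h7, h8⟩ := hc
  refine XF5M.few' (D := {x, y, s₁, s₂, s₃, s₄}) (W := {c, d}) (r := v) hG.1 ?_ ⟨x, by simp⟩ ?_ ?_ hv ?_ ?_
  · intro w hw
    simp only [mem_insert, mem_singleton] at hw
    rcases hw with rfl | rfl | rfl | rfl | rfl | rfl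
    · exact left_mem_VS ((hp.nx y).2 (Or.inl rfl))
    · exact right_mem_VS ((hp.nx _).2 (Or.inl rfl))
    · exact right_mem_VS ((hp.ny _).2 (Or.inr (Or.inl rfl)))
    · exact right_mem_VS ((hp.nx _).2 (Or.inr (Or.inl rfl)))
    · exact right_mem_VS ((hp.nx _).2 (Or.inr (Or.inr (Or.inl rfl))))
    · exact right_mem_VS ((hp.nx _).2 (Or.inr (Or.inr (Or.inr rfl))))
  · intro a ha w haw
    simp only [mem_insert, mem_singleton] at ha ⊢
    rcases ha with rfl | rfl | rfl | rfl | rfl | rfl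
    · have := (hp.nx w).1 haw
      tauto
    · have := (hp.ny w).1 haw
      tauto
    · have := (hB.n1 w).1 haw
      tauto
    · have := (hB.n2 w).1 haw
      tauto
    · have := hB.n3 w haw
      tauto
    · have := (hB.n4 w).1 haw
      tauto
  · exact (card_insert_le _ _).trans (by simp)
  · simp [h1, h2, h3, h4, h5, h6]
  · simp [h7, h8]

theorem mk (hXF5 : SpecXF5) (h : T3 G x y s₁ s₂ s₃ s₄) (hB : XB2 G x y s₁ s₂ s₃ s₄ c d) :
    Dat G x y s₁ s₂ s₃ s₄ c d :=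
  ⟨h.k48, h.p33, h.a1, h.a2, hB, hXF5.b2 h.k48 h.p33 h.a1 h.a2 hB,
    hXF5.b2 h.k48 h.p33.sym1 h.a2 h.a1 hB.sym, vs8 h.k48 h.p33 hB⟩

/-- a 4-separation with a single vertex `b` on one side -/
theorem one_side {T A : Finset α} {b : α} (hG : K48 G) (hs : Sep G T A {b}) (hT : T.card = 4) :
    (∀ t ∈ T, G.Adj b t) ∧ ∀ v ∈ VS G, v ∉ A → v = b ∨ G.Adj b v := by
  have key : ∀ t ∈ T, G.Adj b t := by
    intro t ht
    obtain ⟨p, hp, htp⟩ := hG.1.exists_adj_of_sep hs.symm ⟨b, mem_singleton_self b⟩ hT.le ht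
    rw [mem_singleton] at hp
    subst hp
    exact htp.symm
  refine ⟨key, fun v hv hvA => ?_⟩
  rcases hs.mem_or hv with h1 | h1 | h1
  · exact Or.inr (key v h1)
  · exact absurd h1 hvA
  · exact Or.inl (mem_singleton.1 h1)

theorem sepA (h : Dat G x y s₁ s₂ s₃ s₄ c d) {T A B : Finset α}
    (hs : Sep G T A B) (hT : T.card = 4) (h3 : s₃ ∈ T) (hA : 2 ≤ A.card) (hB : 1 ≤ B.card) :
    x ∈ A ∨ y ∈ A ∨ d ∈ A := by
  have hnd := h.b.nd
  simp only [List.nodup_cons, List.mem_cons, List.not_mem_nil, or_false, not_or, List.nodup_nil,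
    and_true] at hnd
  obtain ⟨⟨xy, x1, x2, x3, x4, xc, xd⟩, ⟨y1, y2, y3, y4, yc, yd⟩, ⟨s12, s13, s14, s1c, s1d⟩,
    ⟨s23, s24, s2c, s2d⟩, ⟨s34, s3c, s3d⟩, ⟨s4c, s4d⟩, cd, -⟩ := hnd
  by_contra hc
  push Not at hc
  obtain ⟨hx, hy, hd⟩ := hc
  have hxV : x ∈ VS G := left_mem_VS ((h.p33.nx y).2 (Or.inl rfl))
  have hyV : y ∈ VS G := right_mem_VS ((h.p33.nx y).2 (Or.inl rfl))
  have hdV : d ∈ VS G := right_mem_VS ((h.b.n1 d).2 (Or.inr (Or.inr (Or.inr rfl))))
  have hTA : ∀ v, v ∈ T → v ∉ A := fun _ h => Finset.disjoint_left.1 hs.2.1 h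
  rcases Nat.lt_or_ge 1 B.card with hB2 | hB1
  · have hxT : x ∉ T := fun h' => by
      rcases h.rx T A B hs hT h' with h1 | h1 <;> omega
    have hyT : y ∉ T := fun h' => by
      rcases h.ry T A B hs hT h' with h1 | h1 <;> omega
    have hxB : x ∈ B := ((hs.mem_or hxV).resolve_left hxT).resolve_left hx
    have hyB : y ∈ B := ((hs.mem_or hyV).resolve_left hyT).resolve_left hy
    have hnx : ∀ w, G.Adj x w → w ∉ A := fun w hw hwA => hs.2.2.2.2 w hwA x hxB hw.symm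
    have hny : ∀ w, G.Adj y w → w ∉ A := fun w hw hwA => hs.2.2.2.2 w hwA y hyB hw.symm
    have hA1 : ∀ w ∈ A, w = c := by
      intro w hw
      rcases h.vs w (hs.subP hw) with rfl | rfl | rfl | rfl | rfl | rfl | rfl | rfl
      · exact absurd hw hx
      · exact absurd hw hy
      · exact absurd hw (hny _ ((h.p33.ny _).2 (Or.inr (Or.inl rfl))))
      · exact absurd hw (hnx _ ((h.p33.nx _).2 (Or.inr (Or.inl rfl))))
      · exact absurd hw (hTA _ h3)
      · exact absurd hw (hnx _ ((h.p33.nx _).2 (Or.inr (Or.inr (Or.inr rfl)))))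
      · rfl
      · exact absurd hw hd
    have := card_le_one.2 (fun a ha b hb => (hA1 a ha).trans (hA1 b hb).symm)
    omega
  · obtain ⟨b, rfl⟩ := card_eq_one.1 (le_antisymm hB1 hB)
    obtain ⟨k1, k2⟩ := one_side h.k48 hs hT
    have hb3 := k1 _ h3
    rcases k2 x hxV hx with e | hbx
    · subst e
      rcases k2 d hdV hd with e | e
      · exact xd e.symm
      · rcases (h.p33.nx d).1 e with e | e | e | e
        · exact yd e.symm
        · exact s2d e.symm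
        · exact s3d e.symm
        · exact s4d e.symm
    · rcases (h.p33.nx b).1 hbx.symm with e | e | e | e
      · subst e
        rcases k2 d hdV hd with e | e
        · exact yd e.symm
        · rcases (h.p33.ny d).1 e with e | e | e | e
          · exact xd e.symm
          · exact s1d e.symm
          · exact s3d e.symm
          · exact s4d e.symm
      · subst e
        rcases k2 y hyV hy with e | e
        · exact y2 e
        · rcases (h.b.n2 y).1 e with e | e | e | e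
          · exact xy e.symm
          · exact y3 e
          · exact yc e
          · exact yd e
      · subst e
        exact hb3.ne rfl
      · subst e
        rcases (h.b.n4 s₃).1 hb3 with e | e | e | e
        · exact x3 e.symm
        · exact y3 e.symm
        · exact s3c e
        · exact s3d e

theorem sepB (h : Dat G x y s₁ s₂ s₃ s₄ c d) (h3d : ¬ G.Adj s₃ d) {T A B : Finset α}
    (hs : Sep G T A B) (hT : T.card = 4) (hcT : c ∈ T) (hA : 2 ≤ A.card) (hB : 1 ≤ B.card) :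
    s₃ ∈ A ∨ s₄ ∈ A := by
  have hnd := h.b.nd
  simp only [List.nodup_cons, List.mem_cons, List.not_mem_nil, or_false, not_or, List.nodup_nil,
    and_true] at hnd
  obtain ⟨⟨xy, x1, x2, x3, x4, xc, xd⟩, ⟨y1, y2, y3, y4, yc, yd⟩, ⟨s12, s13, s14, s1c, s1d⟩,
    ⟨s23, s24, s2c, s2d⟩, ⟨s34, s3c, s3d⟩, ⟨s4c, s4d⟩, cd, -⟩ := hnd
  by_contra hc
  push Not at hc
  obtain ⟨h3A, h4A⟩ := hc
  have hxV : x ∈ VS G := left_mem_VS ((h.p33.nx y).2 (Or.inl rfl))
  have hyV : y ∈ VS G := right_mem_VS ((h.p33.nx y).2 (Or.inl rfl))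
  have h3V : s₃ ∈ VS G := right_mem_VS h.a1
  have h4V : s₄ ∈ VS G := right_mem_VS ((h.p33.nx s₄).2 (Or.inr (Or.inr (Or.inr rfl))))
  have hTA : ∀ v, v ∈ T → v ∉ A := fun _ h => Finset.disjoint_left.1 hs.2.1 h
  have hTB : ∀ v, v ∈ T → v ∉ B := fun _ h => Finset.disjoint_left.1 hs.2.2.1 h
  have hAB : ∀ v, v ∈ A → v ∉ B := fun _ h => Finset.disjoint_left.1 hs.2.2.2.1 h
  rcases Nat.lt_or_ge 1 B.card with hB2 | hB1
  · have hxT : x ∉ T := fun h' => by
      rcases h.rx T A B hs hT h' with h1 | h1 <;> omega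
    have hyT : y ∉ T := fun h' => by
      rcases h.ry T A B hs hT h' with h1 | h1 <;> omega
    have key : ∀ {P Q : Finset α}, Sep G T P Q → x ∈ P → 2 ≤ Q.card → False := by
      intro P Q hs' hxP hQ
      have hTQ : ∀ v, v ∈ T → v ∉ Q := fun _ h => Finset.disjoint_left.1 hs'.2.2.1 h
      have hnx : ∀ w, G.Adj x w → w ∉ Q := fun w hw hwQ => hs'.2.2.2.2 x hxP w hwQ hw
      have hyQ : y ∉ Q := hnx _ ((h.p33.nx _).2 (Or.inl rfl))
      have hyP : y ∈ P := by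
        rcases hs'.mem_or hyV with h1 | h1 | h1
        · exact absurd h1 hyT
        · exact h1
        · exact absurd h1 hyQ
      have hny : ∀ w, G.Adj y w → w ∉ Q := fun w hw hwQ => hs'.2.2.2.2 y hyP w hwQ hw
      have hQ1 : ∀ w ∈ Q, w = d := by
        intro w hw
        rcases h.vs w (hs'.subQ hw) with rfl | rfl | rfl | rfl | rfl | rfl | rfl | rfl
        · exact absurd hw (Finset.disjoint_left.1 hs'.2.2.2.1 hxP)
        · exact absurd hw hyQ
        · exact absurd hw (hny _ ((h.p33.ny _).2 (Or.inr (Or.inl rfl))))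
        · exact absurd hw (hnx _ ((h.p33.nx _).2 (Or.inr (Or.inl rfl))))
        · exact absurd hw (hnx _ ((h.p33.nx _).2 (Or.inr (Or.inr (Or.inl rfl)))))
        · exact absurd hw (hnx _ ((h.p33.nx _).2 (Or.inr (Or.inr (Or.inr rfl)))))
        · exact absurd hw (hTQ _ hcT)
        · rfl
      have := card_le_one.2 (fun a ha b hb => (hQ1 a ha).trans (hQ1 b hb).symm)
      omega
    rcases hs.mem_or hxV with h1 | h1 | h1
    · exact hxT h1
    · exact key hs h1 hB2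
    · exact key hs.symm h1 hA
  · obtain ⟨b, rfl⟩ := card_eq_one.1 (le_antisymm hB1 hB)
    obtain ⟨k1, k2⟩ := one_side h.k48 hs hT
    have hbc := k1 _ hcT
    have n34 : ¬ G.Adj s₄ s₃ := fun e => by
      rcases (h.b.n4 s₃).1 e with e | e | e | e
      · exact x3 e.symm
      · exact y3 e.symm
      · exact s3c e
      · exact s3d e
    rcases k2 s₃ h3V h3A with e | hb3
    · subst e
      rcases k2 s₄ h4V h4A with e | e
      · exact s34 e.symm
      · exact n34 e.symm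
    · rcases k2 s₄ h4V h4A with e | e
      · subst e
        exact n34 hb3
      · rcases (h.b.n4 b).1 e.symm with e | e | e | e
        · subst e
          rcases (h.p33.nx c).1 hbc with e | e | e | e
          · exact yc e.symm
          · exact s2c e.symm
          · exact s3c e.symm
          · exact s4c e.symm
        · subst e
          rcases (h.p33.ny c).1 hbc with e | e | e | e
          · exact xc e.symm
          · exact s1c e.symm
          · exact s3c e.symm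
          · exact s4c e.symm
        · subst e
          exact hbc.ne rfl
        · subst e
          exact h3d hb3.symm

theorem c1A (hCRL : SpecCRL) (h : Dat G x y s₁ s₂ s₃ s₄ c d) (h3d : G.Adj s₃ d) {P : Finset α}
    (hP : P ⊆ {s₁, s₂, c}) : C1 (dst G s₃ P) := by
  have hnd := h.b.nd
  simp only [List.nodup_cons, List.mem_cons, List.not_mem_nil, or_false, not_or, List.nodup_nil,
    and_true] at hnd
  obtain ⟨⟨xy, x1, x2, x3, x4, xc, xd⟩, ⟨y1, y2, y3, y4, yc, yd⟩, ⟨s12, s13, s14, s1c, s1d⟩,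
    ⟨s23, s24, s2c, s2d⟩, ⟨s34, s3c, s3d⟩, ⟨s4c, s4d⟩, cd, -⟩ := hnd
  have hx : x ∉ P := fun h' => by
    have := hP h'
    simp only [mem_insert, mem_singleton] at this
    tauto
  have hy : y ∉ P := fun h' => by
    have := hP h'
    simp only [mem_insert, mem_singleton] at this
    tauto
  have hd : d ∉ P := fun h' => by
    have := hP h'
    simp only [mem_insert, mem_singleton] at this
    rcases this with e | e | e
    · exact s1d e.symm
    · exact s2d e.symm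
    · exact cd e.symm
  have e1 : G.Adj s₃ x := ((h.p33.nx s₃).2 (Or.inr (Or.inr (Or.inl rfl)))).symm
  have e2 : G.Adj s₃ y := ((h.p33.ny s₃).2 (Or.inr (Or.inr (Or.inl rfl)))).symm
  refine hCRL.c1 (x := x) (y := y) (z := d) h.k48.1 xy xd yd ?_ ?_
  · rintro w (rfl | rfl | rfl)
    · exact ⟨e1, hx⟩
    · exact ⟨e2, hy⟩
    · exact ⟨h3d, hd⟩
  · intro T A B hs hT h3 hA hB
    rcases sepA h hs hT h3 hA hB with h' | h' | h'
    · exact ⟨x, h', e1, hx⟩
    · exact ⟨y, h', e2, hy⟩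
    · exact ⟨d, h', h3d, hd⟩

theorem c1B (hCRL : SpecCRL) (h : Dat G x y s₁ s₂ s₃ s₄ c d) (h3c : G.Adj s₃ c) (h3d : ¬ G.Adj s₃ d)
    {P : Finset α} (hP : P ⊆ {s₁, s₂, d}) {z : α} (hz : z ∈ ({s₁, s₂, d} : Finset α)) (hzP : z ∉ P)
    (hcz : G.Adj c z) : C1 (dst G c P) := by
  have hnd := h.b.nd
  simp only [List.nodup_cons, List.mem_cons, List.not_mem_nil, or_false, not_or, List.nodup_nil,
    and_true] at hnd
  obtain ⟨⟨xy, x1, x2, x3, x4, xc, xd⟩, ⟨y1, y2, y3, y4, yc, yd⟩, ⟨s12, s13, s14, s1c, s1d⟩,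
    ⟨s23, s24, s2c, s2d⟩, ⟨s34, s3c, s3d⟩, ⟨s4c, s4d⟩, cd, -⟩ := hnd
  simp only [mem_insert, mem_singleton] at hz
  have h3 : s₃ ∉ P := fun h' => by
    have := hP h'
    simp only [mem_insert, mem_singleton] at this
    rcases this with e | e | e
    · exact s13 e.symm
    · exact s23 e.symm
    · exact s3d e
  have h4 : s₄ ∉ P := fun h' => by
    have := hP h'
    simp only [mem_insert, mem_singleton] at this
    rcases this with e | e | e
    · exact s14 e.symm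
    · exact s24 e.symm
    · exact s4d e
  have e4 : G.Adj c s₄ := ((h.b.n4 c).2 (by tauto)).symm
  refine hCRL.c1 (x := s₃) (y := s₄) (z := z) h.k48.1 s34 ?_ ?_ ?_ ?_
  · rintro rfl
    rcases hz with e | e | e
    · exact s13 e.symm
    · exact s23 e.symm
    · exact s3d e
  · rintro rfl
    rcases hz with e | e | e
    · exact s14 e.symm
    · exact s24 e.symm
    · exact s4d e
  · rintro w (rfl | rfl | rfl)
    · exact ⟨h3c.symm, h3⟩
    · exact ⟨e4, h4⟩
    · exact ⟨hcz, hzP⟩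
  · intro T A B hs hT hc hA hB
    rcases sepB h h3d hs hT hc hA hB with h' | h'
    · exact ⟨s₃, h', h3c.symm, h3⟩
    · exact ⟨s₄, h', e4, h4⟩

open N6AM XF6M in
theorem npA (hNPM : SpecNPM) (h : Dat G x y s₁ s₂ s₃ s₄ c d) : NP (del G {s₃}) := by
  have hnd := h.b.nd
  simp only [List.nodup_cons, List.mem_cons, List.not_mem_nil, or_false, not_or, List.nodup_nil,
    and_true] at hnd
  obtain ⟨⟨xy, x1, x2, x3, x4, xc, xd⟩, ⟨y1, y2, y3, y4, yc, yd⟩, ⟨s12, s13, s14, s1c, s1d⟩,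
    ⟨s23, s24, s2c, s2d⟩, ⟨s34, s3c, s3d⟩, ⟨s4c, s4d⟩, cd, -⟩ := hnd
  have dadj : ∀ {u v : α}, G.Adj u v → u ≠ s₃ → v ≠ s₃ → (del G {s₃}).Adj u v := fun h hu hv =>
    ⟨h, by simpa using hu, by simpa using hv⟩
  refine k33_of hNPM (A₀ := {s₁}) (A₁ := {s₂}) (A₂ := {s₄}) (B₀ := {c}) (B₁ := {d}) (B₂ := {x, y})
    (cset_singleton _) (cset_singleton _) (cset_singleton _)
    (cset_singleton _) (cset_singleton _) (cset_pair (dadj ((h.p33.nx y).2 (Or.inl rfl)) x3 y3))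
    ?_ ?_ ?_ ?_ ?_ ?_ ?_ ?_ ?_
    ⟨⟨s₁, by simp, c, by simp, ?_⟩, ⟨s₁, by simp, d, by simp, ?_⟩, ⟨s₁, by simp, y, by simp, ?_⟩⟩
    ⟨⟨s₂, by simp, c, by simp, ?_⟩, ⟨s₂, by simp, d, by simp, ?_⟩, ⟨s₂, by simp, x, by simp, ?_⟩⟩
    ⟨⟨s₄, by simp, c, by simp, ?_⟩, ⟨s₄, by simp, d, by simp, ?_⟩, ⟨s₄, by simp, x, by simp, ?_⟩⟩
  · simp [s12]
  · simp [s14]
  · simp [s24]
  · simp [cd]
  · simp [Ne.symm xc, Ne.symm yc]
  · simp [Ne.symm xd, Ne.symm yd]
  · simp only [disjoint_singleton_left, mem_union, mem_insert, mem_singleton, not_or]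
    exact ⟨⟨s1c, s1d⟩, Ne.symm x1, Ne.symm y1⟩
  · simp only [disjoint_singleton_left, mem_union, mem_insert, mem_singleton, not_or]
    exact ⟨⟨s2c, s2d⟩, Ne.symm x2, Ne.symm y2⟩
  · simp only [disjoint_singleton_left, mem_union, mem_insert, mem_singleton, not_or]
    exact ⟨⟨s4c, s4d⟩, Ne.symm x4, Ne.symm y4⟩
  · exact dadj ((h.b.n1 c).2 (by tauto)) s13 (Ne.symm s3c)
  · exact dadj ((h.b.n1 d).2 (by tauto)) s13 (Ne.symm s3d)
  · exact dadj ((h.b.n1 y).2 (by tauto)) s13 y3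
  · exact dadj ((h.b.n2 c).2 (by tauto)) s23 (Ne.symm s3c)
  · exact dadj ((h.b.n2 d).2 (by tauto)) s23 (Ne.symm s3d)
  · exact dadj ((h.b.n2 x).2 (by tauto)) s23 x3
  · exact dadj ((h.b.n4 c).2 (by tauto)) (Ne.symm s34) (Ne.symm s3c)
  · exact dadj ((h.b.n4 d).2 (by tauto)) (Ne.symm s34) (Ne.symm s3d)
  · exact dadj ((h.b.n4 x).2 (by tauto)) (Ne.symm s34) x3

open N6AM XF6M in
theorem npB (hNPM : SpecNPM) (hDST : SpecDST) (h : Dat G x y s₁ s₂ s₃ s₄ c d) (h3c : G.Adj s₃ c) :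
    NP (dst G c {s₁, s₂, d}) := by
  have hnd := h.b.nd
  simp only [List.nodup_cons, List.mem_cons, List.not_mem_nil, or_false, not_or, List.nodup_nil,
    and_true] at hnd
  obtain ⟨⟨xy, x1, x2, x3, x4, xc, xd⟩, ⟨y1, y2, y3, y4, yc, yd⟩, ⟨s12, s13, s14, s1c, s1d⟩,
    ⟨s23, s24, s2c, s2d⟩, ⟨s34, s3c, s3d⟩, ⟨s4c, s4d⟩, cd, -⟩ := hnd
  have dadj : ∀ {u v : α}, G.Adj u v → u ≠ c → v ≠ c → (dst G c {s₁, s₂, d}).Adj u v :=
    fun h hu hv => (hDST.adj _ _ _ _ _).2 ⟨h, fun e => hu e.1, fun e => hv e.1⟩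
  have dadj' : ∀ {u : α}, G.Adj u c → u ∉ ({s₁, s₂, d} : Finset α) → (dst G c {s₁, s₂, d}).Adj u c :=
    fun h hu => (hDST.adj _ _ _ _ _).2 ⟨h, fun e => h.ne e.1, fun e => hu e.2⟩
  refine k33_of hNPM (A₀ := {s₁}) (A₁ := {s₂}) (A₂ := {s₄}) (B₀ := {s₃, c}) (B₁ := {d}) (B₂ := {x, y})
    (cset_singleton _) (cset_singleton _) (cset_singleton _)
    (cset_pair (dadj' h3c (by simp [Ne.symm s13, Ne.symm s23, s3d])))
    (cset_singleton _) (cset_pair (dadj ((h.p33.nx y).2 (Or.inl rfl)) xc yc))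
    ?_ ?_ ?_ ?_ ?_ ?_ ?_ ?_ ?_
    ⟨⟨s₁, by simp, s₃, by simp, ?_⟩, ⟨s₁, by simp, d, by simp, ?_⟩, ⟨s₁, by simp, y, by simp, ?_⟩⟩
    ⟨⟨s₂, by simp, s₃, by simp, ?_⟩, ⟨s₂, by simp, d, by simp, ?_⟩, ⟨s₂, by simp, x, by simp, ?_⟩⟩
    ⟨⟨s₄, by simp, c, by simp, ?_⟩, ⟨s₄, by simp, d, by simp, ?_⟩, ⟨s₄, by simp, x, by simp, ?_⟩⟩
  · simp [s12]
  · simp [s14]
  · simp [s24]
  · simp only [disjoint_singleton_right, mem_insert, mem_singleton, not_or]
    exact ⟨Ne.symm s3d, Ne.symm cd⟩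
  · simp only [disjoint_insert_left, disjoint_singleton_left, mem_insert, mem_singleton, not_or]
    exact ⟨⟨Ne.symm x3, Ne.symm y3⟩, Ne.symm xc, Ne.symm yc⟩
  · simp [Ne.symm xd, Ne.symm yd]
  · simp only [disjoint_singleton_left, mem_union, mem_insert, mem_singleton, not_or]
    exact ⟨⟨⟨s13, s1c⟩, s1d⟩, Ne.symm x1, Ne.symm y1⟩
  · simp only [disjoint_singleton_left, mem_union, mem_insert, mem_singleton, not_or]
    exact ⟨⟨⟨s23, s2c⟩, s2d⟩, Ne.symm x2, Ne.symm y2⟩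
  · simp only [disjoint_singleton_left, mem_union, mem_insert, mem_singleton, not_or]
    exact ⟨⟨⟨Ne.symm s34, s4c⟩, s4d⟩, Ne.symm x4, Ne.symm y4⟩
  · exact dadj h.a1 s1c s3c
  · exact dadj ((h.b.n1 d).2 (by tauto)) s1c (Ne.symm cd)
  · exact dadj ((h.b.n1 y).2 (by tauto)) s1c yc
  · exact dadj h.a2 s2c s3c
  · exact dadj ((h.b.n2 d).2 (by tauto)) s2c (Ne.symm cd)
  · exact dadj ((h.b.n2 x).2 (by tauto)) s2c xc
  · exact dadj' ((h.b.n4 c).2 (by tauto)) (by simp [Ne.symm s14, Ne.symm s24, s4d])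
  · exact dadj ((h.b.n4 d).2 (by tauto)) s4c (Ne.symm cd)
  · exact dadj ((h.b.n4 x).2 (by tauto)) s4c xc

theorem caseA (hCRL : SpecCRL) (hDL5 : SpecDL5) (hNPM : SpecNPM) (hNPC : SpecNPC) (hDST : SpecDST)
    (h : Dat G x y s₁ s₂ s₃ s₄ c d) (hIH : IH G) (h3c : G.Adj s₃ c) (h3d : G.Adj s₃ d) : OK G := by
  have hnd := h.b.nd
  simp only [List.nodup_cons, List.mem_cons, List.not_mem_nil, or_false, not_or, List.nodup_nil,
    and_true] at hnd
  obtain ⟨⟨xy, x1, x2, x3, x4, xc, xd⟩, ⟨y1, y2, y3, y4, yc, yd⟩, ⟨s12, s13, s14, s1c, s1d⟩,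
    ⟨s23, s24, s2c, s2d⟩, ⟨s34, s3c, s3d⟩, ⟨s4c, s4d⟩, cd, -⟩ := hnd
  have key : ∀ P : Finset α, P ⊆ {s₁, s₂, c} → C1 (dst G s₃ P) ∧ NP (dst G s₃ P) := fun P hP =>
    ⟨c1A hCRL h h3d hP, hNPC.mono (hDST.dle G s₃ P) (npA hNPM h)⟩
  refine hDL5 (u := s₃) (a := s₁) (b := s₂) (c := c) (r := x) (s := d) h.k48 hIH ?_ ?_ (Or.inl ?_) ?_ ?_
  · simp only [List.nodup_cons, List.mem_cons, List.not_mem_nil, or_false, not_or, List.nodup_nil,
      and_true, not_false_eq_true]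
    exact ⟨⟨s12, s1c, Ne.symm x1, s1d⟩, ⟨s2c, Ne.symm x2, s2d⟩, ⟨Ne.symm xc, cd⟩, xd⟩
  · intro w hw
    simp only [mem_insert, mem_singleton] at hw
    rcases hw with rfl | rfl | rfl | rfl | rfl
    · exact h.a1.symm
    · exact h.a2.symm
    · exact h3c
    · exact ((h.p33.nx s₃).2 (Or.inr (Or.inr (Or.inl rfl)))).symm
    · exact h3d
  · intro e
    rcases (h.p33.nx d).1 e with e | e | e | e
    · exact yd e.symm
    · exact s2d e.symm
    · exact s3d e.symm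
    · exact s4d e.symm
  · rintro P (rfl | rfl | rfl | rfl | rfl) <;> apply key <;> intro w <;>
      simp only [mem_insert, mem_singleton] <;> tauto
  · obtain ⟨k1, k2⟩ := key {s₂, c} (by intro w; simp only [mem_insert, mem_singleton]; tauto)
    exact (hIH _ (hDST.sz4 (a := c) h3c (by simp)) k1 k2).2

theorem caseB (hCRL : SpecCRL) (hDL5 : SpecDL5) (hNPM : SpecNPM) (hNPC : SpecNPC) (hDST : SpecDST)
    (h : Dat G x y s₁ s₂ s₃ s₄ c d) (hIH : IH G) (h3c : G.Adj s₃ c) (h3d : ¬ G.Adj s₃ d) : OK G := by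
  have hnd := h.b.nd
  simp only [List.nodup_cons, List.mem_cons, List.not_mem_nil, or_false, not_or, List.nodup_nil,
    and_true] at hnd
  obtain ⟨⟨xy, x1, x2, x3, x4, xc, xd⟩, ⟨y1, y2, y3, y4, yc, yd⟩, ⟨s12, s13, s14, s1c, s1d⟩,
    ⟨s23, s24, s2c, s2d⟩, ⟨s34, s3c, s3d⟩, ⟨s4c, s4d⟩, cd, -⟩ := hnd
  have hc1 : G.Adj c s₁ := ((h.b.n1 c).2 (by tauto)).symm
  have hc2 : G.Adj c s₂ := ((h.b.n2 c).2 (by tauto)).symm
  have hc4 : G.Adj c s₄ := ((h.b.n4 c).2 (by tauto)).symm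
  have hcd : G.Adj c d := by
    by_contra hc
    have hdV : d ∈ VS G := right_mem_VS ((h.b.n1 d).2 (Or.inr (Or.inr (Or.inr rfl))))
    have h4 := h.k48.1.le_nbs hdV
    have hsub : nbs G d ⊆ {s₁, s₂, s₄} := by
      intro w hw
      have hdw := mem_nbs.1 hw
      simp only [mem_insert, mem_singleton]
      rcases h.vs w (right_mem_VS hdw) with rfl | rfl | rfl | rfl | rfl | rfl | rfl | rfl
      · rcases (h.p33.nx d).1 hdw.symm with e | e | e | e
        · exact absurd e.symm yd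
        · exact absurd e.symm s2d
        · exact absurd e.symm s3d
        · exact absurd e.symm s4d
      · rcases (h.p33.ny d).1 hdw.symm with e | e | e | e
        · exact absurd e.symm xd
        · exact absurd e.symm s1d
        · exact absurd e.symm s3d
        · exact absurd e.symm s4d
      · exact Or.inl rfl
      · exact Or.inr (Or.inl rfl)
      · exact absurd hdw.symm h3d
      · exact Or.inr (Or.inr rfl)
      · exact absurd hdw.symm hc
      · exact absurd rfl hdw.ne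
    have h5 := (card_le_card hsub).trans card_le_three
    omega
  have key : ∀ P : Finset α, P ⊆ {s₁, s₂, d} → (∃ z ∈ ({s₁, s₂, d} : Finset α), z ∉ P) →
      C1 (dst G c P) ∧ NP (dst G c P) := by
    rintro P hP ⟨z, hz, hzP⟩
    refine ⟨c1B hCRL h h3c h3d hP hz hzP ?_, hNPC.mono (hDST.mono c le_rfl hP) (npB hNPM hDST h h3c)⟩
    simp only [mem_insert, mem_singleton] at hz
    rcases hz with rfl | rfl | rfl
    · exact hc1
    · exact hc2
    · exact hcd
  refine hDL5 (u := c) (a := s₁) (b := s₂) (c := d) (r := s₃) (s := s₄) h.k48 hIH ?_ ?_ (Or.inl ?_) ?_ ?_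
  · simp only [List.nodup_cons, List.mem_cons, List.not_mem_nil, or_false, not_or, List.nodup_nil,
      and_true, not_false_eq_true]
    exact ⟨⟨s12, s1d, s13, s14⟩, ⟨s2d, s23, s24⟩, ⟨Ne.symm s3d, Ne.symm s4d⟩, s34⟩
  · intro w hw
    simp only [mem_insert, mem_singleton] at hw
    rcases hw with rfl | rfl | rfl | rfl | rfl
    · exact hc1
    · exact hc2
    · exact hcd
    · exact h3c.symm
    · exact hc4
  · intro e
    rcases (h.b.n4 s₃).1 e.symm with e | e | e | e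
    · exact x3 e.symm
    · exact y3 e.symm
    · exact s3c e
    · exact s3d e
  · rintro P (rfl | rfl | rfl | rfl | rfl)
    · exact key _ (by intro w; simp only [mem_insert, mem_singleton]; tauto)
        ⟨s₂, by simp, by simp [Ne.symm s12]⟩
    · exact key _ (by intro w; simp only [mem_insert, mem_singleton]; tauto)
        ⟨s₁, by simp, by simp [s12]⟩
    · exact key _ (by intro w; simp only [mem_insert, mem_singleton]; tauto)
        ⟨s₁, by simp, by simp [s1d]⟩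
    · exact key _ (by intro w; simp only [mem_insert, mem_singleton]; tauto)
        ⟨d, by simp, by simp [Ne.symm s1d, Ne.symm s2d]⟩
    · exact key _ (by intro w; simp only [mem_insert, mem_singleton]; tauto)
        ⟨s₂, by simp, by simp [Ne.symm s12, s2d]⟩
  · obtain ⟨k1, k2⟩ := key {s₂, d} (by intro w; simp only [mem_insert, mem_singleton]; tauto)
        ⟨s₁, by simp, by simp [s12, s1d]⟩
    exact (hIH _ (hDST.sz4 (a := d) hcd (by simp)) k1 k2).2

end R3EM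

theorem specR3E (hXF5 : SpecXF5) (hXCB : SpecXCB) (hCRL : SpecCRL) (hDL5 : SpecDL5) (hNPM : SpecNPM)
    (hNPC : SpecNPC) (hDST : SpecDST) : SpecR3E := by
  intro α _ _ G x y s₁ s₂ s₃ s₄ c d hT hIH hB
  have h := R3EM.mk hXF5 hT hB
  obtain ⟨w, hw, hwn⟩ := hXCB.s3 hT.k48 hT.p33
  simp only [mem_insert, mem_singleton, not_or] at hwn
  have hor : G.Adj s₃ c ∨ G.Adj s₃ d := by
    rcases hB.n3 w hw with rfl | rfl | rfl | rfl | rfl | rfl
    · exact absurd rfl hwn.1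
    · exact absurd rfl hwn.2.1
    · exact absurd rfl hwn.2.2.1
    · exact absurd rfl hwn.2.2.2.1
    · exact Or.inl hw
    · exact Or.inr hw
  by_cases hc : G.Adj s₃ c
  · by_cases hd : G.Adj s₃ d
    · exact R3EM.caseA hCRL hDL5 hNPM hNPC hDST h hIH hc hd
    · exact R3EM.caseB hCRL hDL5 hNPM hNPC hDST h hIH hc hd
  · exact R3EM.caseB hCRL hDL5 hNPM hNPC hDST h.swap hIH (hor.resolve_left hc) hc

end DL
end
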