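import Pool.Agent.DL.E.Spec2e
import Pool.Agent.DL.Y.SpecYR
import Pool.Agent.DL.Y.YRJ
import Pool.Agent.DL.R1A.TPD
import Pool.Agent.DL.G4.Spec2
import Pool.Agent.DL.K.Spec
import Pool.Agent.DL.KC

/-!
# MP_3ff0f8_gt, ALGEBRA HALF: module RNE: rigid vertices of degree 4 which are no apices, all (3,3)-pairs with E4 (helper61)
-/

open SimpleGraph Finset

namespace DL

namespace RNEM

variable {α : Type} [Fintype α] [DecidableEq α] {G : SimpleGraph α} {u : α}

omit [DecidableEq α] in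
theorem ncard_sup_le (J : SimpleGraph α) (a b : α) :
    (J ⊔ fromEdgeSet {s(a, b)}).edgeSet.ncard ≤ J.edgeSet.ncard + 1 := by
  have h : (J ⊔ fromEdgeSet {s(a, b)}).edgeSet ⊆ insert s(a, b) J.edgeSet := by
    intro e he
    rw [edgeSet_sup, Set.mem_union] at he
    rcases he with he | he
    · exact Or.inr he
    · rw [edgeSet_fromEdgeSet] at he
      exact Or.inl he.1
  exact (Set.ncard_le_ncard h (Set.toFinite _)).trans (Set.ncard_insert_le _ _)

/-- the four neighbours -/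
theorem exists_w (h : dg G u = 4) : ∃ w : Fin 4 → α, Function.Injective w ∧ ∀ x, G.Adj u x ↔ ∃ i, x = w i := by
  have e := (NB G {u}).equivFinOfCardEq (n := 4) h
  refine ⟨fun i => (e.symm i : α), fun i j hij => e.symm.injective (Subtype.ext hij), fun x => ?_⟩
  have hx : G.Adj u x ↔ x ∈ NB G {u} := by
    simp only [NB, mem_filter, mem_univ, true_and, mem_singleton, exists_eq_left]
    exact ⟨fun h => ⟨h.ne', h⟩, fun h => h.2⟩
  rw [hx]
  constructor
  · intro h
    exact ⟨e ⟨x, h⟩, by simp⟩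
  · rintro ⟨i, rfl⟩
    exact (e.symm i).2

end RNEM

theorem specRNE (hR1B : SpecR1B) (hYR : SpecYR) (hRKZ : SpecRKZ) (hKS4 : SpecKS4) (hCJ1 : SpecCJ1)
    (hDST : SpecDST) (hI33 : SpecI33) : RNAE := by
  classical
  intro α _ _ G u hK hNP hIH hA hu hR hdg hJN
  by_cases h33 : Is33 G
  · exact hI33 h33
  obtain ⟨w, hw, hN⟩ := RNEM.exists_w hdg
  have hR1 : R1 G u w := ⟨hK, hR, hw, hN, hJN, h33⟩
  obtain ⟨hK3, hC1, hVS, hwV, hadd⟩ := hCJ1 hR1
  have hJ : OK (del G {u}) := hIH _ (hDST.sz3 hu) hC1 hJN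
  have hadj : ∀ i, G.Adj u (w i) := fun i => (hN _).2 ⟨i, rfl⟩
  -- size of `J + w_i w_j`
  have hsz : ∀ a b, VS (del G {u} ⊔ fromEdgeSet {s(a, b)}) = (VS G).erase u →
      sz (del G {u} ⊔ fromEdgeSet {s(a, b)}) < sz G := by
    intro a b h
    have h1 : sz (dst G u {w 0}) < sz G := hDST.sz4 (hadj 0) (mem_singleton_self _)
    have hu' : u ∈ VS (dst G u {w 0}) := by
      refine mem_VS.2 ⟨w 1, (hDST.adj _ _ _ _ _).2 ⟨hadj 1, fun h => ?_, fun h => ?_⟩⟩
      · exact absurd (hw (mem_singleton.1 h.2)) (by decide)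
      · exact (hadj 1).ne' h.1
    have h2 : sz (del (dst G u {w 0}) {u}) < sz (dst G u {w 0}) := hDST.sz3 hu'
    rw [hDST.dld] at h2
    have h3 := RNEM.ncard_sup_le (del G {u}) a b
    have h4 : (VS (del G {u} ⊔ fromEdgeSet {s(a, b)})).card = (VS (del G {u})).card := by rw [h, hVS]
    unfold sz at h1 h2 ⊢
    omega
  refine ⟨hR1B hR1 hJ.1 hJ.2 (fun i j hij hn => ?_) (fun f hf p => ?_), ?_⟩
  · obtain ⟨h1, h2, h3⟩ := hadd i j hij hn
    exact (hIH _ (hsz _ _ h3) h1 h2).2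
  · exact hYR hK hIH hA hR hdg hJN (hadj p) f (R1AM.dmono (deleteEdges_le _) hf)
  · refine hKS4 hK3 w hw hN hwV ?_ fun i => hRKZ hK hIH hA hR hdg hJN (hadj i)
    have hcard : (insert u (univ.image w)).card ≤ 5 := by
      refine (card_insert_le _ _).trans ?_
      have := card_image_le (s := (univ : Finset (Fin 4))) (f := w)
      simp only [card_univ, Fintype.card_fin] at this
      omega
    have h8 : 8 ≤ (VS G).card := hK.2
    obtain ⟨r, hr, hr'⟩ := exists_mem_notMem_of_card_lt_card (s := insert u (univ.image w)) (t := VS G)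
      (by omega)
    rw [mem_insert, mem_image, not_or] at hr'
    exact ⟨r, hr, hr'.1, fun i h => hr'.2 ⟨i, mem_univ _, h.symm⟩⟩

end DL
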