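import Pool.Agent.DL.E.Spec1
import Pool.Agent.DL.K.KY3
import Pool.Agent.DL.KC

section
/-!
# MP_3ff0f8_gt, ALGEBRA HALF, EXIST section 1: module S1F (helper31)
-/
open SimpleGraph Finset

namespace DL

namespace S1FM

variable {α : Type} [Fintype α] [DecidableEq α] {G : SimpleGraph α} {u : α}

omit [DecidableEq α] in
theorem mem_NB1 {v w : α} : w ∈ NB G {v} ↔ G.Adj v w := by
  simp only [NB, mem_filter, mem_univ, true_and, mem_singleton, exists_eq_left]
  exact ⟨fun h => h.2, fun h => ⟨h.ne', h⟩⟩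

/-- every neighbour of degree 4 of `u` misses a neighbour of `u` outside `P` -/
def Gd (G : SimpleGraph α) (u : α) (P : Finset α) : Prop :=
  ∀ v, G.Adj u v → dg G v = 4 → ∃ w, G.Adj u w ∧ w ≠ v ∧ ¬ G.Adj v w ∧ w ∉ P

theorem gd_mono {P Q : Finset α} (hQ : Q ⊆ P) (hP : Gd G u P) : Gd G u Q := fun v h1 h2 => by
  obtain ⟨w, h3, h4, h5, h6⟩ := hP v h1 h2
  exact ⟨w, h3, h4, h5, fun h => h6 (hQ h)⟩

/-- the deletion of `P` -/
theorem del_ok (hCRL : SpecCRL) (hDST : SpecDST) (hNPC : SpecNPC) (h48 : K48 G)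
    (hR : Rig G u) (hNP : NP (del G {u})) {x y z : α} {P : Finset α} (hxy : x ≠ y) (hxz : x ≠ z)
    (hyz : y ≠ z) (hx : G.Adj u x ∧ x ∉ P) (hy : G.Adj u y ∧ y ∉ P) (hz : G.Adj u z ∧ z ∉ P)
    (hP : Gd G u P) : C1 (dst G u P) ∧ NP (dst G u P) := by
  refine ⟨hCRL.rig h48 hR hxy hxz hyz ?_ hP, hNPC.mono (hDST.dle G u P) hNP⟩
  rintro w (rfl | rfl | rfl)
  · exact hx
  · exact hy
  · exact hz

/-- DL5 for good pairs -/
theorem ok_of (hCRL : SpecCRL) (hDL5 : SpecDL5) (hDST : SpecDST) (hNPC : SpecNPC) (h48 : K48 G)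
    (hIH : IH G) (hR : Rig G u) (hNP : NP (del G {u})) {a b c r s : α}
    (hnd : [a, b, c, r, s].Nodup) (hW : ∀ x ∈ ({a, b, c, r, s} : Finset α), G.Adj u x)
    (hrs : ¬ G.Adj r s ∨ ∃ t, G.Adj u t ∧ t ∉ ({a, b, c, r, s} : Finset α))
    (h1 : Gd G u {a, b}) (h2 : Gd G u {a, c}) (h3 : Gd G u {b, c}) : OK G := by
  have hnd' := hnd
  simp only [List.nodup_cons, List.mem_cons, List.not_mem_nil, or_false, not_or,
    List.nodup_nil, and_true] at hnd'
  obtain ⟨⟨hab, hac, har, has⟩, ⟨hbc, hbr, hbs⟩, ⟨hcr, hcs⟩, hrs'⟩ := hnd'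
  have ha : G.Adj u a := hW a (by simp)
  have hb : G.Adj u b := hW b (by simp)
  have hc : G.Adj u c := hW c (by simp)
  have hr : G.Adj u r := hW r (by simp)
  have hs : G.Adj u s := hW s (by simp)
  have key : ∀ {t : α} {P : Finset α}, G.Adj u t → t ∉ P → t ≠ r → t ≠ s → r ∉ P → s ∉ P →
      Gd G u P → C1 (dst G u P) ∧ NP (dst G u P) := fun {t P} ht htP htr hts hrP hsP hP =>
    del_ok hCRL hDST hNPC h48 hR hNP htr hts hrs'.1 ⟨ht, htP⟩ ⟨hr, hrP⟩ ⟨hs, hsP⟩ hP
  have n1 : ∀ {x y : α}, x ≠ y → x ∉ ({y} : Finset α) := fun h => by simpa using h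
  have n2 : ∀ {x y z : α}, x ≠ y → x ≠ z → x ∉ ({y, z} : Finset α) := fun h h' => by
    simp [h, h']
  refine hDL5 h48 hIH hnd hW hrs ?_ ?_
  · rintro P (rfl | rfl | rfl | rfl | rfl)
    · exact key hb (n1 (Ne.symm hab)) hbr hbs (n1 (Ne.symm har)) (n1 (Ne.symm has))
        (gd_mono (by simp) h1)
    · exact key ha (n1 hab) har has (n1 (Ne.symm hbr)) (n1 (Ne.symm hbs))
        (gd_mono (by simp) h1)
    · exact key ha (n1 hac) har has (n1 (Ne.symm hcr)) (n1 (Ne.symm hcs))
        (gd_mono (by simp) h2)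
    · exact key hc (n2 (Ne.symm hac) (Ne.symm hbc)) hcr hcs (n2 (Ne.symm har) (Ne.symm hbr))
        (n2 (Ne.symm has) (Ne.symm hbs)) h1
    · exact key hb (n2 (Ne.symm hab) hbc) hbr hbs (n2 (Ne.symm har) (Ne.symm hcr))
        (n2 (Ne.symm has) (Ne.symm hcs)) h2
  · have h := key (P := {b, c}) ha (n2 hab hac) har has (n2 (Ne.symm hbr) (Ne.symm hcr))
      (n2 (Ne.symm hbs) (Ne.symm hcs)) h3
    exact (hIH _ (hDST.sz4 hb (by simp)) h.1 h.2).2

/-- five different neighbours are all the neighbours -/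
theorem all_five (hd : dg G u = 5) {a b c r s : α} (hnd : [a, b, c, r, s].Nodup)
    (hW : ∀ x ∈ ({a, b, c, r, s} : Finset α), G.Adj u x) :
    ∀ x, G.Adj u x ↔ x = a ∨ x = b ∨ x = c ∨ x = r ∨ x = s := by
  have hsub : ({a, b, c, r, s} : Finset α) ⊆ NB G {u} := fun x hx => mem_NB1.2 (hW x hx)
  have hcard : ({a, b, c, r, s} : Finset α).card = 5 := by
    have := List.toFinset_card_of_nodup hnd
    simpa using this
  have heq : ({a, b, c, r, s} : Finset α) = NB G {u} :=
    Finset.eq_of_subset_of_card_le hsub (by rw [hcard]; exact hd.le)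
  intro x
  rw [← mem_NB1, ← heq]
  simp

/-- the claim: a nonadjacent pair of neighbours `r`, `s` is the trace of a third neighbour -/
theorem claim (hCRL : SpecCRL) (hDL5 : SpecDL5) (hDST : SpecDST) (hNPC : SpecNPC) (h48 : K48 G)
    (hIH : IH G) (hR : Rig G u) (hd : dg G u = 5) (hNP : NP (del G {u}))
    (hs : ∀ v, G.Adj u v → dg G v = 4 → ¬ ∀ w, G.Adj v w → w = u ∨ G.Adj u w) (hnot : ¬ OK G)
    {r s : α} (hr : G.Adj u r) (hs' : G.Adj u s) (hrs : r ≠ s) (hna : ¬ G.Adj r s) :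
    ∃ z, G.Adj u z ∧ dg G z = 4 ∧ z ≠ r ∧ z ≠ s ∧ G.Adj z r ∧ G.Adj z s ∧
      ∀ x, G.Adj u x → G.Adj z x → x = r ∨ x = s := by
  -- a pair `x`, `y` which is not good
  have key : ∀ x y z : α, [x, y, z, r, s].Nodup → (∀ t, G.Adj u t ↔ t = x ∨ t = y ∨ t = z ∨
      t = r ∨ t = s) → ¬ Gd G u {x, y} → ∃ z, G.Adj u z ∧ dg G z = 4 ∧ z ≠ r ∧ z ≠ s ∧
      G.Adj z r ∧ G.Adj z s ∧ ∀ x, G.Adj u x → G.Adj z x → x = r ∨ x = s := by
    intro x y z hnd hall hg
    simp only [List.nodup_cons, List.mem_cons, List.not_mem_nil, or_false, not_or,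
      List.nodup_nil, and_true] at hnd
    obtain ⟨⟨hxy, hxz, hxr, hxs⟩, ⟨hyz, hyr, hys⟩, ⟨hzr, hzs⟩, hrs'⟩ := hnd
    unfold Gd at hg
    push Not at hg
    obtain ⟨v, huv, hv4, hv⟩ := hg
    have hv' : ∀ w, G.Adj u w → w ≠ v → w ≠ x → w ≠ y → G.Adj v w := fun w h1 h2 h3 h4 => by
      by_contra h5
      have := hv w h1 h2 h5
      simp only [mem_insert, mem_singleton] at this
      rcases this with h | h
      · exact h3 h
      · exact h4 h
    obtain ⟨t, hvt, htu, htW⟩ : ∃ t, G.Adj v t ∧ t ≠ u ∧ ¬ G.Adj u t := by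
      have := hs v huv hv4
      push Not at this
      exact this
    -- at most two neighbours of `v` among the neighbours of `u`
    have hle : ∀ p q w : α, G.Adj u p → G.Adj u q → G.Adj u w → p ≠ q → p ≠ w → q ≠ w →
        G.Adj v p → G.Adj v q → G.Adj v w → False := by
      intro p q w hp hq hw hpq hpw hqw h1 h2 h3
      have hsub : ({u, t, p, q, w} : Finset α) ⊆ NB G {v} := by
        intro e he
        simp only [mem_insert, mem_singleton] at he
        rw [mem_NB1]
        rcases he with rfl | rfl | rfl | rfl | rfl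
        · exact huv.symm
        · exact hvt
        · exact h1
        · exact h2
        · exact h3
      have htp : ∀ {e}, G.Adj u e → t ≠ e := fun h h' => htW (h' ▸ h)
      have hcard : ({u, t, p, q, w} : Finset α).card = 5 := by
        have h5 : [u, t, p, q, w].Nodup := by
          simp only [List.nodup_cons, List.mem_cons, List.not_mem_nil, or_false, not_or,
            List.nodup_nil, and_true]
          exact ⟨⟨Ne.symm htu, hp.ne, hq.ne, hw.ne⟩, ⟨htp hp, htp hq, htp hw⟩, ⟨hpq, hpw⟩, hqw,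
            not_false⟩
        have := List.toFinset_card_of_nodup h5
        simpa using this
      have := Finset.card_le_card hsub
      rw [hcard] at this
      have h4 : (NB G {v}).card = 4 := hv4
      omega
    have hz : G.Adj u z := (hall z).2 (by simp)
    have hvW := (hall v).1 huv
    -- `v = z`
    have hvx : v ≠ x := by
      rintro rfl
      exact hle z r s hz hr hs' hzr hzs hrs
        (hv' z hz (Ne.symm hxz) (Ne.symm hxz) (Ne.symm hyz))
        (hv' r hr (Ne.symm hxr) (Ne.symm hxr) (Ne.symm hyr))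
        (hv' s hs' (Ne.symm hxs) (Ne.symm hxs) (Ne.symm hys))
    have hvy : v ≠ y := by
      rintro rfl
      exact hle z r s hz hr hs' hzr hzs hrs
        (hv' z hz (Ne.symm hyz) (Ne.symm hxz) (Ne.symm hyz))
        (hv' r hr (Ne.symm hyr) (Ne.symm hxr) (Ne.symm hyr))
        (hv' s hs' (Ne.symm hys) (Ne.symm hxs) (Ne.symm hys))
    have hvr : v ≠ r := by
      rintro rfl
      exact hna (hv' s hs' (Ne.symm hrs) (Ne.symm hxs) (Ne.symm hys))
    have hvs : v ≠ s := by
      rintro rfl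
      exact hna (hv' r hr hrs (Ne.symm hxr) (Ne.symm hyr)).symm
    have hvz : v = z := by
      rcases hvW with h | h | h | h | h
      · exact (hvx h).elim
      · exact (hvy h).elim
      · exact h
      · exact (hvr h).elim
      · exact (hvs h).elim
    have h1 : G.Adj v r := hv' r hr (Ne.symm hvr) (Ne.symm hxr) (Ne.symm hyr)
    have h2 : G.Adj v s := hv' s hs' (Ne.symm hvs) (Ne.symm hxs) (Ne.symm hys)
    refine ⟨v, huv, hv4, hvr, hvs, h1, h2, fun e he hve => ?_⟩
    by_contra h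
    rw [not_or] at h
    exact hle r s e hr hs' he hrs (Ne.symm h.1) (Ne.symm h.2) h1 h2 hve
  -- the three other neighbours
  have h3 : (NB G {u} \ {r, s}).card = 3 := by
    have hsub : ({r, s} : Finset α) ⊆ NB G {u} := by
      intro e he
      simp only [mem_insert, mem_singleton] at he
      rw [mem_NB1]
      rcases he with rfl | rfl
      · exact hr
      · exact hs'
    have h5 : (NB G {u}).card = 5 := hd
    rw [Finset.card_sdiff_of_subset hsub, h5, Finset.card_pair hrs]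
  obtain ⟨a, b, c, hab, hac, hbc, habc⟩ := Finset.card_eq_three.1 h3
  have hmem : ∀ x, (G.Adj u x ∧ x ≠ r ∧ x ≠ s) ↔ x = a ∨ x = b ∨ x = c := fun x => by
    have : x ∈ NB G {u} \ {r, s} ↔ x ∈ ({a, b, c} : Finset α) := by rw [habc]
    simpa only [mem_sdiff, mem_NB1, mem_insert, mem_singleton, not_or] using this
  have ha := (hmem a).2 (by simp)
  have hb := (hmem b).2 (by simp)
  have hc := (hmem c).2 (by simp)
  have hnd : [a, b, c, r, s].Nodup := by
    simp only [List.nodup_cons, List.mem_cons, List.not_mem_nil, or_false, not_or,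
      List.nodup_nil, and_true]
    exact ⟨⟨hab, hac, ha.2.1, ha.2.2⟩, ⟨hbc, hb.2.1, hb.2.2⟩, ⟨hc.2.1, hc.2.2⟩, hrs, not_false⟩
  have hnd1 : [a, c, b, r, s].Nodup := by
    simp only [List.nodup_cons, List.mem_cons, List.not_mem_nil, or_false, not_or,
      List.nodup_nil, and_true]
    exact ⟨⟨hac, hab, ha.2.1, ha.2.2⟩, ⟨Ne.symm hbc, hc.2.1, hc.2.2⟩, ⟨hb.2.1, hb.2.2⟩, hrs,
      not_false⟩
  have hnd2 : [b, c, a, r, s].Nodup := by
    simp only [List.nodup_cons, List.mem_cons, List.not_mem_nil, or_false, not_or,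
      List.nodup_nil, and_true]
    exact ⟨⟨hbc, Ne.symm hab, hb.2.1, hb.2.2⟩, ⟨Ne.symm hac, hc.2.1, hc.2.2⟩,
      ⟨ha.2.1, ha.2.2⟩, hrs, not_false⟩
  have hW : ∀ x ∈ ({a, b, c, r, s} : Finset α), G.Adj u x := by
    intro e he
    simp only [mem_insert, mem_singleton] at he
    rcases he with rfl | rfl | rfl | rfl | rfl
    · exact ha.1
    · exact hb.1
    · exact hc.1
    · exact hr
    · exact hs'
  have hall := all_five hd hnd hW
  by_cases g1 : Gd G u {a, b}
  · by_cases g2 : Gd G u {a, c}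
    · by_cases g3 : Gd G u {b, c}
      · exact (hnot (ok_of hCRL hDL5 hDST hNPC h48 hIH hR hNP hnd hW (Or.inl hna) g1 g2 g3)).elim
      · exact key b c a hnd2 (fun t => by rw [hall t]; tauto) g3
    · exact key a c b hnd1 (fun t => by rw [hall t]; tauto) g2
  · exact key a b c hnd hall g1

/-- `z` is a neighbour of degree 4 with trace `{r, s}` -/
structure Tr (G : SimpleGraph α) (u z r s : α) : Prop where
  uz : G.Adj u z
  d4 : dg G z = 4
  zr : G.Adj z r
  zs : G.Adj z s
  tr : ∀ x, G.Adj u x → G.Adj z x → x = r ∨ x = s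

theorem Tr.symm {z r s : α} (h : Tr G u z r s) : Tr G u z s r :=
  ⟨h.uz, h.d4, h.zs, h.zr, fun x h1 h2 => (h.tr x h1 h2).symm⟩

/-- the fourth neighbour -/
theorem fourth {v p q : α} (hd4 : dg G v = 4) (hu : G.Adj v u) (hp : G.Adj v p) (hq : G.Adj v q)
    (hup : u ≠ p) (huq : u ≠ q) (hpq : p ≠ q) :
    ∃ w, w ≠ u ∧ w ≠ p ∧ w ≠ q ∧ ∀ x, G.Adj v x ↔ x = u ∨ x = p ∨ x = q ∨ x = w := by
  have hsub : ({u, p, q} : Finset α) ⊆ NB G {v} := by
    intro e he
    simp only [mem_insert, mem_singleton] at he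
    rw [mem_NB1]
    rcases he with rfl | rfl | rfl
    · exact hu
    · exact hp
    · exact hq
  have h3 : ({u, p, q} : Finset α).card = 3 := Finset.card_eq_three.2 ⟨u, p, q, hup, huq, hpq, rfl⟩
  have h4 : (NB G {v}).card = 4 := hd4
  have h1 : (NB G {v} \ {u, p, q}).card = 1 := by
    rw [Finset.card_sdiff_of_subset hsub, h4, h3]
  obtain ⟨w, hw⟩ := Finset.card_eq_one.1 h1
  have hmem : ∀ x, (G.Adj v x ∧ x ≠ u ∧ x ≠ p ∧ x ≠ q) ↔ x = w := fun x => by
    have : x ∈ NB G {v} \ {u, p, q} ↔ x ∈ ({w} : Finset α) := by rw [hw]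
    simpa only [mem_sdiff, mem_NB1, mem_insert, mem_singleton, not_or] using this
  have h := (hmem w).2 rfl
  refine ⟨w, h.2.1, h.2.2.1, h.2.2.2, fun x => ⟨fun hx => ?_, ?_⟩⟩
  · by_contra hn
    rw [not_or, not_or, not_or] at hn
    exact hn.2.2.2 ((hmem x).1 ⟨hx, hn.1, hn.2.1, hn.2.2.1⟩)
  · rintro (rfl | rfl | rfl | rfl)
    · exact hu
    · exact hp
    · exact hq
    · exact h.1

/-- the 5-cycle -/
theorem cyc_of (hcl : ∀ r s, G.Adj u r → G.Adj u s → r ≠ s → ¬ G.Adj r s →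
      ∃ z, z ≠ r ∧ z ≠ s ∧ Tr G u z r s) {z r s x y : α}
    (hnd : [z, r, s, x, y].Nodup)
    (hall : ∀ t, G.Adj u t ↔ t = z ∨ t = r ∨ t = s ∨ t = x ∨ t = y)
    (T1 : Tr G u z r s) (T2 : Tr G u r z x) :
    ∃ c : Fin 5 → α, Function.Injective c ∧ (∀ x, G.Adj u x ↔ ∃ i, x = c i) ∧
      ∃ w : Fin 5 → α, (∀ i, w i ≠ u ∧ ∀ j, w i ≠ c j) ∧
        ∀ i x, G.Adj (c i) x ↔ x = u ∨ x = c (i + 1) ∨ x = c (i - 1) ∨ x = w i := by
  have hnd' := hnd
  simp only [List.nodup_cons, List.mem_cons, List.not_mem_nil, or_false, not_or,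
    List.nodup_nil, and_true] at hnd'
  obtain ⟨⟨hzr, hzs, hzx, hzy⟩, ⟨hrs, hrx, hry⟩, ⟨hsx, hsy⟩, hxy, -⟩ := hnd'
  have hz : G.Adj u z := (hall z).2 (by simp)
  have hr : G.Adj u r := (hall r).2 (by simp)
  have hs : G.Adj u s := (hall s).2 (by simp)
  have hx : G.Adj u x := (hall x).2 (by simp)
  have hy : G.Adj u y := (hall y).2 (by simp)
  -- the vertex with trace `z`, `y`
  have T3 : Tr G u s z y := by
    have hna : ¬ G.Adj z y := fun h => by
      rcases T1.tr y hy h with h | h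
      · exact hry h.symm
      · exact hsy h.symm
    obtain ⟨t, htz, hty, T⟩ := hcl z y hz hy hzy hna
    rcases T1.tr t T.uz T.zr.symm with rfl | rfl
    · rcases T2.tr y hy T.zs with h | h
      · exact (hzy h.symm).elim
      · exact (hxy h.symm).elim
    · exact T
  -- the vertex with trace `r`, `y`
  have T4 : Tr G u x r y := by
    have hna : ¬ G.Adj r y := fun h => by
      rcases T2.tr y hy h with h | h
      · exact hzy h.symm
      · exact hxy h.symm
    obtain ⟨t, htr, hty, T⟩ := hcl r y hr hy hry hna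
    rcases T2.tr t T.uz T.zr.symm with rfl | rfl
    · rcases T1.tr y hy T.zs with h | h
      · exact (hry h.symm).elim
      · exact (hsy h.symm).elim
    · exact T
  -- the vertex with trace `x`, `s`
  have T5 : Tr G u y x s := by
    have hna : ¬ G.Adj s x := fun h => by
      rcases T3.tr x hx h with h | h
      · exact hzx h.symm
      · exact hxy h
    obtain ⟨t, hts, htx, T⟩ := hcl s x hs hx hsx hna
    rcases T3.tr t T.uz T.zr.symm with rfl | rfl
    · rcases T1.tr x hx T.zs with h | h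
      · exact (hrx h.symm).elim
      · exact (hsx h.symm).elim
    · exact T.symm
  let c : Fin 5 → α := ![z, r, x, y, s]
  have hinj : Function.Injective c := by
    have : List.Nodup (List.ofFn c) := by
      simp only [c, List.ofFn_succ, List.ofFn_zero, Matrix.cons_val_zero, Matrix.cons_val_succ,
        List.nodup_cons, List.mem_cons, List.not_mem_nil, or_false, not_or, List.nodup_nil,
        and_true]
      exact ⟨⟨hzr, hzx, hzy, hzs⟩, ⟨hrx, hry, hrs⟩, ⟨hxy, Ne.symm hsx⟩, Ne.symm hsy, not_false⟩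
    exact List.nodup_ofFn.1 this
  have hT : ∀ i, Tr G u (c i) (c (i + 1)) (c (i - 1)) := by
    intro i
    fin_cases i
    · exact T1
    · exact T2.symm
    · exact T4.symm
    · exact T5.symm
    · exact T3
  have hne : ∀ i : Fin 5, i + 1 ≠ i - 1 := by decide
  have hf : ∀ i, ∃ w, w ≠ u ∧ w ≠ c (i + 1) ∧ w ≠ c (i - 1) ∧
      ∀ x, G.Adj (c i) x ↔ x = u ∨ x = c (i + 1) ∨ x = c (i - 1) ∨ x = w := fun i =>
    fourth (hT i).d4 (hT i).uz.symm (hT i).zr (hT i).zs (hT (i + 1)).uz.ne (hT (i - 1)).uz.ne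
      (fun h => hne i (hinj h))
  choose w hw1 hw2 hw3 hw4 using hf
  refine ⟨c, hinj, fun t => ?_, w, fun i => ⟨hw1 i, fun j hj => ?_⟩, hw4⟩
  · rw [hall t]
    constructor
    · rintro (h | h | h | h | h)
      · exact ⟨0, h⟩
      · exact ⟨1, h⟩
      · exact ⟨4, h⟩
      · exact ⟨2, h⟩
      · exact ⟨3, h⟩
    · rintro ⟨i, rfl⟩
      fin_cases i
      · exact Or.inl rfl
      · exact Or.inr (Or.inl rfl)
      · exact Or.inr (Or.inr (Or.inr (Or.inl rfl)))
      · exact Or.inr (Or.inr (Or.inr (Or.inr rfl)))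
      · exact Or.inr (Or.inr (Or.inl rfl))
  · have h1 : G.Adj (c i) (w i) := (hw4 i _).2 (by simp)
    have h2 : G.Adj u (w i) := hj ▸ (hT j).uz
    rcases (hT i).tr _ h2 h1 with h | h
    · exact hw2 i h
    · exact hw3 i h

end S1FM

theorem specS1F (hCRL : SpecCRL) (hDL5 : SpecDL5) (hDST : SpecDST) (hNPC : SpecNPC) : SpecS1F := by
  intro α _ _ G u h48 hIH hu hR hd hNP hs
  by_cases hOK : OK G
  · exact Or.inl hOK
  right
  have hcl : ∀ r s, G.Adj u r → G.Adj u s → r ≠ s → ¬ G.Adj r s →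
      ∃ z, z ≠ r ∧ z ≠ s ∧ S1FM.Tr G u z r s := fun r s h1 h2 h3 h4 => by
    obtain ⟨z, a1, a2, a3, a4, a5, a6, a7⟩ :=
      S1FM.claim hCRL hDL5 hDST hNPC h48 hIH hR hd hNP hs hOK h1 h2 h3 h4
    exact ⟨z, a3, a4, a1, a2, a5, a6, a7⟩
  have h5 : (NB G {u}).card = 5 := hd
  by_cases hclq : ∀ r s, G.Adj u r → G.Adj u s → r ≠ s → G.Adj r s
  · obtain ⟨e⟩ : Nonempty (Fin 5 ≃ {x // x ∈ NB G {u}}) := by
      have : Fintype.card (Fin 5) = Fintype.card {x // x ∈ NB G {u}} := by
        rw [Fintype.card_fin, Fintype.card_coe, h5]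
      exact Fintype.card_eq.1 this
    refine ⟨fun i => (e i).1, fun i j h => e.injective (Subtype.ext h), fun x => ?_, Or.inl ?_⟩
    · rw [← S1FM.mem_NB1]
      constructor
      · intro hx
        exact ⟨e.symm ⟨x, hx⟩, by simp⟩
      · rintro ⟨i, rfl⟩
        exact (e i).2
    · intro i j hij
      exact hclq _ _ (S1FM.mem_NB1.1 (e i).2) (S1FM.mem_NB1.1 (e j).2)
        (fun h => hij (e.injective (Subtype.ext h)))
  · push Not at hclq
    obtain ⟨r, s, hr, hs', hrs, hna⟩ := hclq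
    obtain ⟨z, hzr, hzs, T⟩ := hcl r s hr hs' hrs hna
    have hsub : ({z, r, s} : Finset α) ⊆ NB G {u} := by
      intro e he
      simp only [mem_insert, mem_singleton] at he
      rw [S1FM.mem_NB1]
      rcases he with rfl | rfl | rfl
      · exact T.uz
      · exact hr
      · exact hs'
    have h3 : ({z, r, s} : Finset α).card = 3 :=
      Finset.card_eq_three.2 ⟨z, r, s, hzr, hzs, hrs, rfl⟩
    have h2 : (NB G {u} \ {z, r, s}).card = 2 := by
      rw [Finset.card_sdiff_of_subset hsub, h5, h3]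
    obtain ⟨x, y, hxy, hxy'⟩ := Finset.card_eq_two.1 h2
    have hmem : ∀ t, (G.Adj u t ∧ t ≠ z ∧ t ≠ r ∧ t ≠ s) ↔ t = x ∨ t = y := fun t => by
      have : t ∈ NB G {u} \ {z, r, s} ↔ t ∈ ({x, y} : Finset α) := by rw [hxy']
      simpa only [mem_sdiff, S1FM.mem_NB1, mem_insert, mem_singleton, not_or] using this
    have hx := (hmem x).2 (Or.inl rfl)
    have hy := (hmem y).2 (Or.inr rfl)
    have hall : ∀ t, G.Adj u t ↔ t = z ∨ t = r ∨ t = s ∨ t = x ∨ t = y := by
      intro t
      constructor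
      · intro ht
        by_contra hn
        rw [not_or, not_or, not_or] at hn
        exact hn.2.2.2 ((hmem t).1 ⟨ht, hn.1, hn.2.1, hn.2.2.1⟩)
      · rintro (rfl | rfl | rfl | rfl | rfl)
        · exact T.uz
        · exact hr
        · exact hs'
        · exact hx.1
        · exact hy.1
    have hnd : [z, r, s, x, y].Nodup := by
      simp only [List.nodup_cons, List.mem_cons, List.not_mem_nil, or_false, not_or,
        List.nodup_nil, and_true]
      exact ⟨⟨hzr, hzs, Ne.symm hx.2.1, Ne.symm hy.2.1⟩, ⟨hrs, Ne.symm hx.2.2.1,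
        Ne.symm hy.2.2.1⟩, ⟨Ne.symm hx.2.2.2, Ne.symm hy.2.2.2⟩, hxy, not_false⟩
    have hnd1 : [z, s, r, x, y].Nodup := by
      simp only [List.nodup_cons, List.mem_cons, List.not_mem_nil, or_false, not_or,
        List.nodup_nil, and_true]
      exact ⟨⟨hzs, hzr, Ne.symm hx.2.1, Ne.symm hy.2.1⟩, ⟨Ne.symm hrs, Ne.symm hx.2.2.2,
        Ne.symm hy.2.2.2⟩, ⟨Ne.symm hx.2.2.1, Ne.symm hy.2.2.1⟩, hxy, not_false⟩
    have hzx : ¬ G.Adj z x := fun h => by
      rcases T.tr x hx.1 h with h | h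
      · exact hx.2.2.1 h
      · exact hx.2.2.2 h
    obtain ⟨t, htz, htx, T'⟩ := hcl z x T.uz hx.1 (Ne.symm hx.2.1) hzx
    rcases T.tr t T'.uz T'.zr.symm with rfl | rfl
    · obtain ⟨c, h1, h2, h3⟩ := S1FM.cyc_of hcl hnd hall T T'
      exact ⟨c, h1, h2, Or.inr h3⟩
    · obtain ⟨c, h1, h2, h3⟩ := S1FM.cyc_of hcl hnd1 (fun t => by rw [hall t]; tauto) T.symm T'
      exact ⟨c, h1, h2, Or.inr h3⟩

end DL
end

section
/-!
# MP_3ff0f8_gt, ALGEBRA HALF, EXIST section 1: module S1C (helper31)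
-/
open SimpleGraph Finset

namespace DL

namespace S1CM

open S1FM (mem_NB1 Gd gd_mono del_ok)

variable {α : Type} [Fintype α] [DecidableEq α] {G : SimpleGraph α} {u : α}

theorem f1 : ∀ i k : Fin 5, i + 1 + k = i + k + 1 := by decide

theorem f2 : ∀ i k : Fin 5, i - 1 + k = i + k - 1 := by decide

theorem f3 : ∀ i : Fin 5, -(i + 1) = -i - 1 := by decide

theorem f4 : ∀ i : Fin 5, -(i - 1) = -i + 1 := by decide

theorem f5 : ∀ i : Fin 5, i + 1 ≠ i - 1 := by decide

theorem f6 : ∀ i : Fin 5, (0 = i + 1 ∨ 0 = i - 1) → (1 = i + 1 ∨ 1 = i - 1) →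
    (4 = i + 1 ∨ 4 = i - 1) → False := by decide

/-- the 5-cycle of the neighbours of `u` -/
structure C5 (G : SimpleGraph α) (u : α) (c w : Fin 5 → α) : Prop where
  inj : Function.Injective c
  hu : ∀ x, G.Adj u x ↔ ∃ i, x = c i
  hw : ∀ i, w i ≠ u ∧ ∀ j, w i ≠ c j
  hc : ∀ i x, G.Adj (c i) x ↔ x = u ∨ x = c (i + 1) ∨ x = c (i - 1) ∨ x = w i

variable {c w : Fin 5 → α}

omit [Fintype α] [DecidableEq α] in
theorem C5.rot (h : C5 G u c w) (k : Fin 5) : C5 G u (fun i => c (i + k)) (fun i => w (i + k)) where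
  inj i j hij := add_right_cancel (h.inj hij)
  hu x := by
    rw [h.hu]
    constructor
    · rintro ⟨i, rfl⟩
      exact ⟨i - k, by simp⟩
    · rintro ⟨i, rfl⟩
      exact ⟨_, rfl⟩
  hw i := ⟨(h.hw _).1, fun j => (h.hw _).2 _⟩
  hc i x := by
    rw [h.hc, f1, f2]

omit [Fintype α] [DecidableEq α] in
theorem C5.refl (h : C5 G u c w) : C5 G u (fun i => c (-i)) (fun i => w (-i)) where
  inj i j hij := neg_injective (h.inj hij)
  hu x := by
    rw [h.hu]
    constructor
    · rintro ⟨i, rfl⟩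
      exact ⟨-i, by simp⟩
    · rintro ⟨i, rfl⟩
      exact ⟨_, rfl⟩
  hw i := ⟨(h.hw _).1, fun j => (h.hw _).2 _⟩
  hc i x := by
    rw [h.hc, f3, f4]
    tauto

omit [Fintype α] [DecidableEq α] in
theorem C5.uc (h : C5 G u c w) (i : Fin 5) : G.Adj u (c i) := (h.hu _).2 ⟨i, rfl⟩

omit [Fintype α] [DecidableEq α] in
theorem C5.cu (h : C5 G u c w) (i : Fin 5) : c i ≠ u := (h.uc i).ne'

omit [Fintype α] [DecidableEq α] in
theorem C5.adj_iff (h : C5 G u c w) (i j : Fin 5) : G.Adj (c i) (c j) ↔ j = i + 1 ∨ j = i - 1 := by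
  rw [h.hc]
  constructor
  · rintro (h1 | h1 | h1 | h1)
    · exact (h.cu j h1).elim
    · exact Or.inl (h.inj h1)
    · exact Or.inr (h.inj h1)
    · exact ((h.hw i).2 j h1.symm).elim
  · rintro (rfl | rfl)
    · exact Or.inr (Or.inl rfl)
    · exact Or.inr (Or.inr (Or.inl rfl))

omit [Fintype α] [DecidableEq α] in
/-- `c (i+1)` is adjacent to `w j` only if `w j = w (i+1)` -/
theorem C5.adj_w (h : C5 G u c w) (i j : Fin 5) : G.Adj (c i) (w j) ↔ w j = w i := by
  rw [h.hc]
  constructor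
  · rintro (h1 | h1 | h1 | h1)
    · exact ((h.hw j).1 h1).elim
    · exact ((h.hw j).2 _ h1).elim
    · exact ((h.hw j).2 _ h1).elim
    · exact h1
  · intro h1
    exact Or.inr (Or.inr (Or.inr h1))

theorem C5.d4 (h : C5 G u c w) (i : Fin 5) : dg G (c i) = 4 := by
  have h1 : NB G {c i} = {u, c (i + 1), c (i - 1), w i} := by
    ext x
    rw [mem_NB1, h.hc]
    simp
  have hne := f5 i
  have hnd : [u, c (i + 1), c (i - 1), w i].Nodup := by
    simp only [List.nodup_cons, List.mem_cons, List.not_mem_nil, or_false, not_or,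
      List.nodup_nil, and_true]
    exact ⟨⟨(h.cu _).symm, (h.cu _).symm, (h.hw i).1.symm⟩,
      ⟨fun e => hne (h.inj e), ((h.hw i).2 _).symm⟩, ((h.hw i).2 _).symm, not_false⟩
  have := List.toFinset_card_of_nodup hnd
  unfold dg
  rw [h1]
  simpa using this

/-- (1) -/
theorem C5.w01 (h : C5 G u c w) (hNBF : SpecNBF) (h48 : K48 G) (hR : Rig G u) : w 0 ≠ w 1 := by
  intro hw
  have hA : NB G {c 0, c 1} = {u, c 4, c 2, w 0} := by
    ext x
    simp only [NB, mem_filter, mem_univ, true_and, mem_insert, mem_singleton, exists_eq_or_imp,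
      exists_eq_left, not_or]
    have e0 := h.hc 0 x
    have e1 := h.hc 1 x
    rw [show (0 : Fin 5) + 1 = 1 from rfl, show (0 : Fin 5) - 1 = 4 from rfl] at e0
    rw [show (1 : Fin 5) + 1 = 2 from rfl, show (1 : Fin 5) - 1 = 0 from rfl, ← hw] at e1
    rw [e0, e1]
    constructor
    · rintro ⟨⟨h1, h2⟩, h3 | h3⟩
      · rcases h3 with h3 | h3 | h3 | h3
        · exact Or.inl h3
        · exact (h2 h3).elim
        · exact Or.inr (Or.inl h3)
        · exact Or.inr (Or.inr (Or.inr h3))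
      · rcases h3 with h3 | h3 | h3 | h3
        · exact Or.inl h3
        · exact Or.inr (Or.inr (Or.inl h3))
        · exact (h1 h3).elim
        · exact Or.inr (Or.inr (Or.inr h3))
    · have hne : ∀ {i j : Fin 5}, i ≠ j → c i ≠ c j := fun hij e => hij (h.inj e)
      rintro (rfl | rfl | rfl | rfl)
      · exact ⟨⟨(h.cu 0).symm, (h.cu 1).symm⟩, Or.inl (Or.inl rfl)⟩
      · exact ⟨⟨hne (by decide), hne (by decide)⟩, Or.inl (Or.inr (Or.inr (Or.inl rfl)))⟩
      · exact ⟨⟨hne (by decide), hne (by decide)⟩, Or.inr (Or.inr (Or.inl rfl))⟩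
      · exact ⟨⟨(h.hw 0).2 _, (h.hw 0).2 _⟩, Or.inl (Or.inr (Or.inr (Or.inr rfl)))⟩
  have hne : ∀ {i j : Fin 5}, i ≠ j → c i ≠ c j := fun hij e => hij (h.inj e)
  have hnd : [u, c 4, c 2, w 0].Nodup := by
    simp only [List.nodup_cons, List.mem_cons, List.not_mem_nil, or_false, not_or,
      List.nodup_nil, and_true]
    exact ⟨⟨(h.cu _).symm, (h.cu _).symm, (h.hw 0).1.symm⟩,
      ⟨hne (by decide), ((h.hw 0).2 _).symm⟩, ((h.hw 0).2 _).symm, not_false⟩
  have hcard : (NB G {c 0, c 1}).card = 4 := by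
    have := List.toFinset_card_of_nodup hnd
    rw [hA]
    simpa using this
  have h2 : ({c 0, c 1} : Finset α).card = 2 := Finset.card_pair (hne (by decide))
  have hsub : ({c 0, c 1} : Finset α) ⊆ VS G := by
    intro x hx
    simp only [mem_insert, mem_singleton] at hx
    rcases hx with rfl | rfl
    · exact right_mem_VS (h.uc 0)
    · exact right_mem_VS (h.uc 1)
  have h3 := hNBF.rig (A := {c 0, c 1}) hR hsub (by rw [hA]; simp) hcard h2.ge
  have h4 := h48.2
  have h5 : (VS G).card ≤ (VS G \ ({c 0, c 1} ∪ NB G {c 0, c 1})).card +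
      ({c 0, c 1} ∪ NB G {c 0, c 1}).card := by
    refine (Finset.card_le_card (fun x hx => ?_)).trans (Finset.card_union_le _ _)
    by_cases hx' : x ∈ ({c 0, c 1} : Finset α) ∪ NB G {c 0, c 1}
    · exact mem_union_right _ hx'
    · exact mem_union_left _ (mem_sdiff.2 ⟨hx, hx'⟩)
  have h6 := Finset.card_union_le ({c 0, c 1} : Finset α) (NB G {c 0, c 1})
  omega

theorem C5.w_ne (h : C5 G u c w) (hNBF : SpecNBF) (h48 : K48 G) (hR : Rig G u) (i : Fin 5) :
    w i ≠ w (i + 1) := by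
  have := (h.rot i).w01 hNBF h48 hR
  rw [show (0 : Fin 5) + i = i from zero_add i, show (1 : Fin 5) + i = i + 1 from add_comm _ _] at this
  exact this

/-- (2) -/
theorem C5.s3s (h : C5 G u c w) (hS1J : SpecS1J) (hNBF : SpecNBF) (hC1L : SpecC1L) (h48 : K48 G)
    (hR : Rig G u) (hu : u ∈ VS G) : S3S (delE (del G {u}) (c 0) (c 1)) := by
  obtain ⟨hJ1, hJ2, -⟩ := hS1J h48 hR hu
  have hne : ∀ {i j : Fin 5}, i ≠ j → c i ≠ c j := fun hij e => hij (h.inj e)
  have hJ : ∀ x y, (del G {u}).Adj x y ↔ G.Adj x y ∧ x ≠ u ∧ y ≠ u := fun x y => by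
    rw [del_adj, mem_singleton, mem_singleton]
  refine hC1L (del G {u}) (c 0) (c 1) hJ1 hJ2 ((hJ _ _).2 ⟨(h.adj_iff 0 1).2 (Or.inl rfl), h.cu 0,
    h.cu 1⟩) ?_ ?_
  · intro p q hpq hadj
    have h4 : c 4 = p ∨ c 4 = q := by
      have := (hpq (c 4)).1 ((hJ _ _).2 ⟨(h.adj_iff 0 4).2 (Or.inr rfl), h.cu 0, h.cu 4⟩)
      rcases this with h1 | h1 | h1
      · exact Or.inl h1
      · exact Or.inr h1
      · exact (hne (by decide) h1).elim
    have hw0 : w 0 = p ∨ w 0 = q := by
      have := (hpq (w 0)).1 ((hJ _ _).2 ⟨(h.adj_w 0 0).2 rfl, h.cu 0, (h.hw 0).1⟩)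
      rcases this with h1 | h1 | h1
      · exact Or.inl h1
      · exact Or.inr h1
      · exact ((h.hw 0).2 _ h1).elim
    have hn : ¬ G.Adj (c 4) (w 0) := fun h1 => h.w_ne hNBF h48 hR 4 ((h.adj_w 4 0).1 h1).symm
    have hadj' := ((hJ _ _).1 hadj).1
    rcases h4 with rfl | rfl <;> rcases hw0 with h5 | h5
    · exact (h.hw 0).2 _ h5
    · exact hn (h5 ▸ hadj')
    · exact hn (h5 ▸ hadj'.symm)
    · exact (h.hw 0).2 _ h5
  · intro p q hpq hadj
    have h4 : c 2 = p ∨ c 2 = q := by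
      have := (hpq (c 2)).1 ((hJ _ _).2 ⟨(h.adj_iff 1 2).2 (Or.inl rfl), h.cu 1, h.cu 2⟩)
      rcases this with h1 | h1 | h1
      · exact Or.inl h1
      · exact Or.inr h1
      · exact (hne (by decide) h1).elim
    have hw0 : w 1 = p ∨ w 1 = q := by
      have := (hpq (w 1)).1 ((hJ _ _).2 ⟨(h.adj_w 1 1).2 rfl, h.cu 1, (h.hw 1).1⟩)
      rcases this with h1 | h1 | h1
      · exact Or.inl h1
      · exact Or.inr h1
      · exact ((h.hw 1).2 _ h1).elim
    have hn : ¬ G.Adj (c 2) (w 1) := fun h1 => h.w_ne hNBF h48 hR 1 ((h.adj_w 2 1).1 h1)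
    have hadj' := ((hJ _ _).1 hadj).1
    rcases h4 with rfl | rfl <;> rcases hw0 with h5 | h5
    · exact (h.hw 1).2 _ h5
    · exact hn (h5 ▸ hadj')
    · exact hn (h5 ▸ hadj'.symm)
    · exact (h.hw 1).2 _ h5

/-- (3) -/
theorem C5.conn (h : C5 G u c w) (hNBF : SpecNBF) (h48 : K48 G) (hR : Rig G u) (hu : u ∈ VS G) :
    ConnOff (del G {u, c 0}) {c 1, c 4} := by
  have hne : ∀ {i j : Fin 5}, i ≠ j → c i ≠ c j := fun hij e => hij (h.inj e)
  have key : ConnOff G {u, c 0, c 1, c 4} := by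
    by_contra hn
    have hnd : [u, c 0, c 1, c 4].Nodup := by
      simp only [List.nodup_cons, List.mem_cons, List.not_mem_nil, or_false, not_or,
        List.nodup_nil, and_true]
      exact ⟨⟨(h.cu _).symm, (h.cu _).symm, (h.cu _).symm⟩, ⟨hne (by decide), hne (by decide)⟩,
        hne (by decide), not_false⟩
    obtain ⟨z, -, hz, -⟩ := hNBF.one h48 hR hu (right_mem_VS (h.uc 0)) (right_mem_VS (h.uc 1))
      (right_mem_VS (h.uc 4)) hnd hn
    obtain ⟨i, rfl⟩ := (h.hu z).1 ((hz u).2 (Or.inl rfl)).symm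
    have h0 := (h.adj_iff i 0).1 ((hz (c 0)).2 (by simp))
    have h1 := (h.adj_iff i 1).1 ((hz (c 1)).2 (by simp))
    have h4 := (h.adj_iff i 4).1 ((hz (c 4)).2 (by simp))
    exact f6 i h0 h1 h4
  intro a ha b hb ha' hb'
  have hsub : ∀ x, x ∈ VS (del G {u, c 0}) → x ∈ VS G ∧ x ∉ ({u, c 0} : Finset α) := fun x hx =>
    mem_sdiff.1 (VS_del_subset _ hx)
  have e : ({u, c 0} : Finset α) ∪ {c 1, c 4} = {u, c 0, c 1, c 4} := by
    ext x
    simp only [mem_union, mem_insert, mem_singleton]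
    tauto
  rw [del_del, e]
  have hmem : ∀ x, x ∉ ({u, c 0} : Finset α) → x ∉ ({c 1, c 4} : Finset α) →
      x ∉ ({u, c 0, c 1, c 4} : Finset α) := fun x h1 h2 h3 => by
    rw [← e, mem_union] at h3
    rcases h3 with h3 | h3
    · exact h1 h3
    · exact h2 h3
  exact key a (hsub a ha).1 b (hsub b hb).1 (hmem a (hsub a ha).2 ha') (hmem b (hsub b hb).2 hb')

/-! ## contraction at a vertex with two neighbours -/

omit [Fintype α] [DecidableEq α] in
theorem contr_two {H : SimpleGraph α} {p q : α} (hp : p ≠ u) (hq : q ≠ u) (hpq : p ≠ q)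
    (hH : ∀ x, H.Adj u x ↔ x = p ∨ x = q) (x y : α) :
    (contr H p u).Adj x y ↔ (x ≠ u ∧ y ≠ u ∧ H.Adj x y) ∨ s(x, y) = s(p, q) := by
  constructor
  · rintro ⟨h1, h2, h3, h4⟩
    rcases h4 with h4 | ⟨h5, h4⟩ | ⟨h5, h4⟩
    · exact Or.inl ⟨h1, h2, h4⟩
    · rcases (hH y).1 h4 with h6 | h6
      · exact (h3 (h5.trans h6.symm)).elim
      · rw [h5, h6]
        exact Or.inr rfl
    · rcases (hH x).1 h4.symm with h6 | h6
      · exact (h3 (h6.trans h5.symm)).elim
      · rw [h5, h6]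
        exact Or.inr Sym2.eq_swap
  · rintro (⟨h1, h2, h3⟩ | h1)
    · exact ⟨h1, h2, h3.ne, Or.inl h3⟩
    · rcases Sym2.eq_iff.1 h1 with ⟨h2, h3⟩ | ⟨h2, h3⟩
      · rw [h2, h3]
        exact ⟨hp, hq, hpq, Or.inr (Or.inl ⟨rfl, (hH q).2 (Or.inr rfl)⟩)⟩
      · rw [h2, h3]
        exact ⟨hq, hp, hpq.symm, Or.inr (Or.inr ⟨rfl, ((hH q).2 (Or.inr rfl)).symm⟩)⟩

/-- a 2-cycle with a given row at an edge of a vertex with two neighbours -/
theorem row_gen (hKSU : SpecKSU) (hLPE : SpecLPE) (hCTZ : SpecCTZ) (hKUR : SpecKUR)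
    {H : SimpleGraph α} {p q : α} (hpq : p ≠ q) (hH : ∀ x, H.Adj u x ↔ x = p ∨ x = q)
    (hn : ¬ H.Adj p q) (hK : KZ (contr H p u)) (hS : S3S (delE (contr H p u) p q))
    (hpS : p ∈ VS (delE (contr H p u) p q)) (hqS : q ∈ VS (delE (contr H p u) p q))
    (Z : Chain α) (hZ : Z ∈ Z1 (del (contr H p u) {p, q})) :
    ∃ z, IsZ2 H z ∧ Kur H z ∧ ∀ f, z s(u, p) f = Z f := by
  have hup : H.Adj u p := (hH p).2 (Or.inl rfl)
  have huq : H.Adj u q := (hH q).2 (Or.inr rfl)
  have hc := contr_two hup.ne' huq.ne' hpq hH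
  obtain ⟨y, hy, hrow⟩ := hLPE.edge ((hc p q).2 (Or.inr rfl)) hS hpS hqS Z hZ
  have hNo : NoCN H p u := fun x hx => by
    rcases (hH x).1 hx.2 with h1 | h1
    · exact hx.1.ne h1.symm
    · exact hn (h1 ▸ hx.1)
  obtain ⟨z, hz, hzz⟩ := hCTZ.up hup.symm hNo y hy
  -- `Z` has no edge at `u` and no edge outside `H`
  have hZe : ∀ f, Z f ≠ 0 → f ∈ H.edgeSet ∧ u ∉ f := by
    intro f hf
    have h1 := hZ.1 f hf
    induction f using Sym2.ind with
    | _ a b =>
      rw [mem_edgeSet, del_adj] at h1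
      simp only [mem_insert, mem_singleton, not_or] at h1
      obtain ⟨h2, ⟨h3, h4⟩, h5, h6⟩ := h1
      rcases (hc a b).1 h2 with ⟨h7, h8, h9⟩ | h7
      · refine ⟨h9, fun h10 => ?_⟩
        rcases Sym2.mem_iff.1 h10 with h11 | h11
        · exact h7 h11.symm
        · exact h8 h11.symm
      · rcases Sym2.eq_iff.1 h7 with ⟨h8, -⟩ | ⟨h8, -⟩
        · exact (h3 h8).elim
        · exact (h4 h8).elim
  have hZ0 : ∀ f, ¬ (f ∈ H.edgeSet ∧ u ∉ f) → Z f = 0 := fun f hf => by
    by_contra h1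
    exact hf (hZe f h1)
  have hz0 : ∀ x f, ¬ (f ∈ H.edgeSet ∧ u ∉ f) → z s(u, x) f = 0 := fun x f hf => by
    by_contra h1
    have h2 := hz.2.1 _ _ h1
    exact hf ⟨h2.2.1, fun h3 => h2.2.2 u ⟨Sym2.mem_mk_left _ _, h3⟩⟩
  have hq' : ∀ f, z s(u, q) f = Z f := by
    intro f
    by_cases hf : f ∈ H.edgeSet ∧ u ∉ f
    · have h1 := hzz s(u, q) huq f hf.1 (fun h2 => by
          rcases Sym2.eq_iff.1 h2 with ⟨h3, -⟩ | ⟨-, h3⟩
          · exact hup.ne h3
          · exact hpq h3.symm) (fun h2 => hf.2 (h2 ▸ Sym2.mem_mk_right _ _))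
      have h2 : (s(u, q) : Sym2 α).map (mrg p u) = s(p, q) := by
        rw [Sym2.map_mk]
        unfold mrg
        rw [if_pos rfl, if_neg huq.ne']
      have h3 : f.map (mrg p u) = f := by
        have h4 := hf.2
        clear h1 hf
        induction f using Sym2.ind with
        | _ a b =>
          rw [Sym2.mem_iff, not_or] at h4
          rw [Sym2.map_mk]
          unfold mrg
          rw [if_neg (Ne.symm h4.1), if_neg (Ne.symm h4.2)]
      rw [h1, h2, h3, hrow]
    · rw [hz0 _ _ hf, hZ0 _ hf]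
  refine ⟨z, hz, (hKUR.kz H).1 (hKSU hpq hH hn hK) z hz, fun f => ?_⟩
  by_cases hf : f ∈ H.edgeSet ∧ u ∉ f
  · have h1 := hz.2.2 f u hf.2
    rw [Finset.sum_eq_add s(u, p) s(u, q)] at h1
    · rw [hz.1 f, hz.1 f, hq'] at h1
      have h2 := zmod2_add_self (Z f)
      exact add_right_cancel (h1.trans h2.symm)
    · intro h2
      rcases Sym2.eq_iff.1 h2 with ⟨-, h3⟩ | ⟨h3, -⟩
      · exact hpq h3
      · exact huq.ne h3
    · intro e he hne
      rw [mem_filter] at he
      by_contra h2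
      have h3 := (hz.2.1 _ _ h2).2.1
      obtain ⟨x, rfl⟩ := Sym2.mem_iff_exists.1 he.2
      rcases (hH x).1 h3 with h4 | h4
      · exact hne.1 (by rw [h4])
      · exact hne.2 (by rw [h4])
    · intro h2
      exact (h2 (mem_filter.2 ⟨mem_univ _, Sym2.mem_mk_left _ _⟩)).elim
    · intro h2
      exact (h2 (mem_filter.2 ⟨mem_univ _, Sym2.mem_mk_left _ _⟩)).elim
  · rw [hz0 _ _ hf, hZ0 _ hf]

/-! ## the graphs `dst G u P` -/

theorem f7 : ∀ i : Fin 5, i = 0 ∨ i = 1 ∨ i = 2 ∨ i = 3 ∨ i = 4 := by decide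

omit [Fintype α] [DecidableEq α] in
theorem dst_u (hDST : SpecDST) {P : Finset α} (x : α) :
    (dst G u P).Adj u x ↔ G.Adj u x ∧ x ∉ P := by
  rw [hDST.adj]
  constructor
  · rintro ⟨h1, h2, h3⟩
    exact ⟨h1, fun h4 => h2 ⟨rfl, h4⟩⟩
  · rintro ⟨h1, h2⟩
    exact ⟨h1, fun h3 => h2 h3.2, fun h3 => h1.ne h3.1.symm⟩

omit [Fintype α] [DecidableEq α] in
theorem dst_off (hDST : SpecDST) {P : Finset α} {x y : α} (hx : x ≠ u) (hy : y ≠ u) :
    (dst G u P).Adj x y ↔ G.Adj x y := by
  rw [hDST.adj]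
  constructor
  · exact fun h => h.1
  · exact fun h => ⟨h, fun h1 => hx h1.1, fun h1 => hy h1.1⟩

omit [Fintype α] [DecidableEq α] in
theorem C5.ne (h : C5 G u c w) {i j : Fin 5} (hij : i ≠ j) : c i ≠ c j := fun e => hij (h.inj e)

/-- (5), (6) -/
theorem C5.row (h : C5 G u c w) (hS1J : SpecS1J) (hNBF : SpecNBF) (hC1L : SpecC1L)
    (hKSU : SpecKSU) (hLPE : SpecLPE) (hCTZ : SpecCTZ) (hKUR : SpecKUR) (hDST : SpecDST)
    (h48 : K48 G) (hR : Rig G u) (hu : u ∈ VS G) (hK : KZ (del G {u})) (Z : Chain α)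
    (hZ : Z ∈ Z1 (del (del G {u}) {c 0, c 1})) :
    ∃ z, IsZ2 (dst G u {c 2, c 3}) z ∧ Kur (dst G u {c 2, c 3}) z ∧ ∀ f, z s(u, c 0) f = Z f := by
  have h01 : (0 : Fin 5) ≠ 1 := by decide
  -- the graph `A - c₀c₁ - uc₄`
  have hHu : ∀ x, (delE (dst G u {c 2, c 3, c 4}) (c 0) (c 1)).Adj u x ↔ x = c 0 ∨ x = c 1 := by
    intro x
    rw [delE_adj, dst_u hDST]
    simp only [mem_insert, mem_singleton, not_or]
    constructor
    · rintro ⟨⟨h1, h2, h3, h4⟩, -⟩
      obtain ⟨i, rfl⟩ := (h.hu x).1 h1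
      rcases f7 i with rfl | rfl | rfl | rfl | rfl
      · exact Or.inl rfl
      · exact Or.inr rfl
      · exact (h2 rfl).elim
      · exact (h3 rfl).elim
      · exact (h4 rfl).elim
    · have key : ∀ i : Fin 5, i ≠ 2 → i ≠ 3 → i ≠ 4 → (G.Adj u (c i) ∧ c i ≠ c 2 ∧ c i ≠ c 3 ∧
          c i ≠ c 4) ∧ s(u, c i) ≠ s(c 0, c 1) := fun i h2 h3 h4 => by
        refine ⟨⟨h.uc i, h.ne h2, h.ne h3, h.ne h4⟩, fun h5 => ?_⟩
        rcases Sym2.eq_iff.1 h5 with ⟨h6, -⟩ | ⟨h6, -⟩
        · exact h.cu _ h6.symm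
        · exact h.cu _ h6.symm
      rintro (rfl | rfl)
      · exact key 0 (by decide) (by decide) (by decide)
      · exact key 1 (by decide) (by decide) (by decide)
  have hHn : ¬ (delE (dst G u {c 2, c 3, c 4}) (c 0) (c 1)).Adj (c 0) (c 1) := fun h1 =>
    (delE_adj.1 h1).2 rfl
  have hJ01 : (del G {u}).Adj (c 0) (c 1) := by
    rw [del_adj, mem_singleton, mem_singleton]
    exact ⟨(h.adj_iff 0 1).2 (Or.inl rfl), h.cu 0, h.cu 1⟩
  have hcon : contr (delE (dst G u {c 2, c 3, c 4}) (c 0) (c 1)) (c 0) u = del G {u} := by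
    ext x y
    rw [contr_two (h.cu 0) (h.cu 1) (h.ne h01) hHu, delE_adj, del_adj, mem_singleton,
      mem_singleton]
    constructor
    · rintro (⟨h1, h2, h3, -⟩ | h1)
      · exact ⟨(dst_off hDST h1 h2).1 h3, h1, h2⟩
      · have h2 : s(x, y) ∈ (del G {u}).edgeSet := by
          rw [h1]
          exact hJ01
        rwa [mem_edgeSet, del_adj, mem_singleton, mem_singleton] at h2
    · rintro ⟨h1, h2, h3⟩
      by_cases h4 : s(x, y) = s(c 0, c 1)
      · exact Or.inr h4
      · exact Or.inl ⟨h2, h3, (dst_off hDST h2 h3).2 h1, h4⟩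
  have hle : delE (dst G u {c 2, c 3, c 4}) (c 0) (c 1) ≤ dst G u {c 2, c 3} :=
    (delE_le _ _ _).trans (hDST.mono u le_rfl (by
      intro x hx
      simp only [mem_insert, mem_singleton] at hx ⊢
      tauto))
  have hv0 : c 0 ∈ VS (delE (del G {u}) (c 0) (c 1)) := by
    refine mem_VS.2 ⟨c 4, delE_adj.2 ⟨?_, fun h1 => ?_⟩⟩
    · rw [del_adj, mem_singleton, mem_singleton]
      exact ⟨(h.adj_iff 0 4).2 (Or.inr rfl), h.cu 0, h.cu 4⟩
    · rcases Sym2.eq_iff.1 h1 with ⟨-, h2⟩ | ⟨h2, -⟩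
      · exact h.ne (by decide) h2
      · exact h.ne h01 h2
  have hv1 : c 1 ∈ VS (delE (del G {u}) (c 0) (c 1)) := by
    refine mem_VS.2 ⟨c 2, delE_adj.2 ⟨?_, fun h1 => ?_⟩⟩
    · rw [del_adj, mem_singleton, mem_singleton]
      exact ⟨(h.adj_iff 1 2).2 (Or.inl rfl), h.cu 1, h.cu 2⟩
    · rcases Sym2.eq_iff.1 h1 with ⟨h2, -⟩ | ⟨-, h2⟩
      · exact h.ne (by decide) h2
      · exact h.ne (by decide) h2
  have hS := h.s3s hS1J hNBF hC1L h48 hR hu
  obtain ⟨z, hz1, hz2, hz3⟩ := row_gen hKSU hLPE hCTZ hKUR (h.ne h01) hHu hHn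
    (by rw [hcon]; exact hK) (by rw [hcon]; exact hS) (by rw [hcon]; exact hv0)
    (by rw [hcon]; exact hv1) Z (by rw [hcon]; exact hZ)
  exact ⟨z, hKUR.zmono hle hz1, hKUR.mono hle hz2, hz3⟩

/-- (4) -/
theorem C5.kz0 (h : C5 G u c w) (hS1J : SpecS1J) (hCRL : SpecCRL) (hKSU : SpecKSU)
    (hDST : SpecDST) (hNPC : SpecNPC) (h48 : K48 G) (hIH : IH G) (hR : Rig G u) (hu : u ∈ VS G)
    (hNP : NP (del G {u})) : KZ (dst G u {c 0, c 2, c 3}) := by
  obtain ⟨hJ1, -, -⟩ := hS1J h48 hR hu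
  have hHu : ∀ x, (dst G u {c 0, c 2, c 3}).Adj u x ↔ x = c 1 ∨ x = c 4 := by
    intro x
    rw [dst_u hDST]
    simp only [mem_insert, mem_singleton, not_or]
    constructor
    · rintro ⟨h1, h2, h3, h4⟩
      obtain ⟨i, rfl⟩ := (h.hu x).1 h1
      rcases f7 i with rfl | rfl | rfl | rfl | rfl
      · exact (h2 rfl).elim
      · exact Or.inl rfl
      · exact (h3 rfl).elim
      · exact (h4 rfl).elim
      · exact Or.inr rfl
    · rintro (rfl | rfl)
      · exact ⟨h.uc 1, h.ne (by decide), h.ne (by decide), h.ne (by decide)⟩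
      · exact ⟨h.uc 4, h.ne (by decide), h.ne (by decide), h.ne (by decide)⟩
  have h14 : ¬ G.Adj (c 1) (c 4) := fun h1 => by
    rcases (h.adj_iff 1 4).1 h1 with h2 | h2
    · exact absurd h2 (by decide)
    · exact absurd h2 (by decide)
  have hHn : ¬ (dst G u {c 0, c 2, c 3}).Adj (c 1) (c 4) := fun h1 => h14 (hDST.le _ _ _ h1)
  have hne : c 1 ≠ c 4 := h.ne (by decide)
  refine hKSU hne hHu hHn ?_
  have hcon : contr (dst G u {c 0, c 2, c 3}) (c 1) u =
      del G {u} ⊔ fromEdgeSet {s(c 1, c 4)} := by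
    ext x y
    rw [contr_two (h.cu 1) (h.cu 4) hne hHu, sup_adj, fromEdgeSet_adj, del_adj, mem_singleton,
      mem_singleton, Set.mem_singleton_iff]
    constructor
    · rintro (⟨h1, h2, h3⟩ | h1)
      · exact Or.inl ⟨(dst_off hDST h1 h2).1 h3, h1, h2⟩
      · refine Or.inr ⟨h1, fun h2 => ?_⟩
        subst h2
        rcases Sym2.eq_iff.1 h1 with ⟨h3, h4⟩ | ⟨h3, h4⟩
        · exact hne (h3.symm.trans h4)
        · exact hne (h4.symm.trans h3)
    · rintro (⟨h1, h2, h3⟩ | ⟨h1, -⟩)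
      · exact Or.inl ⟨h2, h3, (dst_off hDST h2 h3).2 h1⟩
      · exact Or.inr h1
  have hadj : (dst G u {c 0, c 2, c 3}).Adj (c 1) u := ((hHu _).2 (Or.inl rfl)).symm
  have hsz : sz (contr (dst G u {c 0, c 2, c 3}) (c 1) u) < sz G :=
    (hDST.sz2 hadj).trans (hDST.sz4 (h.uc 0) (by simp))
  have hv : ∀ i j : Fin 5, j = i + 1 ∨ j = i - 1 → c i ∈ VS (del G {u}) := fun i j hij => by
    refine mem_VS.2 ⟨c j, ?_⟩
    rw [del_adj, mem_singleton, mem_singleton]
    exact ⟨(h.adj_iff i j).2 hij, h.cu i, h.cu j⟩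
  refine (hIH _ hsz ?_ ?_).2
  · rw [hcon]
    exact (hCRL.add hJ1 (hv 1 2 (Or.inl rfl)) (hv 4 0 (Or.inl rfl))).1
  · rw [hcon]
    exact hNPC.mono le_sup_left hNP

/-- (7), the decomposition -/
theorem C5.dec (h : C5 G u c w) (hNBF : SpecNBF) (hSTA : SpecSTA) (h48 : K48 G) (hR : Rig G u)
    (hu : u ∈ VS G) (Z : Chain α) (hZ : Z ∈ Z1 (del G {u, c 0})) :
    ∃ x ∈ Z1 (del (del G {u}) {c 0, c 1}), ∃ y ∈ Z1 (del (del G {u}) {c 0, c 4}), x + y = Z := by
  have e : ∀ v : α, del (del G {u}) {c 0, v} = del (del G {u, c 0}) {v} := fun v => by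
    rw [del_del, del_del]
    apply congrArg
    ext x
    simp only [mem_union, mem_insert, mem_singleton]
    tauto
  rw [e, e]
  have hmem : Z ∈ Z1 (del (del G {u, c 0}) {c 1}) ⊔ Z1 (del (del G {u, c 0}) {c 4}) := by
    by_contra hno
    obtain ⟨φ, hφZ, hφ⟩ := Submodule.exists_le_ker_of_notMem hno
    obtain ⟨a, ha⟩ := SM3M.functional φ
    obtain ⟨κ, hκ, hκZ⟩ := hSTA (del G {u, c 0}) (c 1) (c 4) (h.ne (by decide))
      (h.conn hNBF h48 hR hu) a (fun W hW => by
        rw [← ha]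
        exact hφ (Submodule.mem_sup_left hW)) (fun W hW => by
        rw [← ha]
        exact hφ (Submodule.mem_sup_right hW))
    have hκ0 : κ ≠ 0 := by
      rintro rfl
      apply hφZ
      rw [ha, hκZ Z hZ, zero_mul]
    rcases (h.adj_iff 1 4).1 (hκ hκ0).1 with h2 | h2
    · exact absurd h2 (by decide)
    · exact absurd h2 (by decide)
  exact Submodule.mem_sup.1 hmem

/-- `KZ A` -/
theorem C5.kzA (h : C5 G u c w) (hS1J : SpecS1J) (hCRL : SpecCRL) (hDST : SpecDST)
    (hNBF : SpecNBF) (hC1L : SpecC1L) (hKSU : SpecKSU) (hSTA : SpecSTA) (hLPE : SpecLPE)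
    (hCTZ : SpecCTZ) (hKUR : SpecKUR) (hNPC : SpecNPC) (h48 : K48 G) (hIH : IH G) (hR : Rig G u)
    (hu : u ∈ VS G) (hNP : NP (del G {u})) : KZ (dst G u {c 2, c 3}) := by
  obtain ⟨hJ1, -, hJ3⟩ := hS1J h48 hR hu
  have hK : KZ (del G {u}) := (hIH _ hJ3 hJ1 hNP).2
  have hK0 := h.kz0 hS1J hCRL hKSU hDST hNPC h48 hIH hR hu hNP
  rw [hDST.ins] at hK0
  rw [hKUR.kz] at hK0 ⊢
  intro z hz
  have hrow : z s(u, c 0) ∈ Z1 (del G {u, c 0}) :=
    Z1_mono (del_mono_graph (hDST.le _ _ _) _) (hKUR.row u (c 0) hz)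
  obtain ⟨x, hx, y, hy, hxy⟩ := h.dec hNBF hSTA h48 hR hu _ hrow
  obtain ⟨z1, h1, h2, h3⟩ := h.row hS1J hNBF hC1L hKSU hLPE hCTZ hKUR hDST h48 hR hu hK x hx
  obtain ⟨z2, h4, h5, h6⟩ := h.refl.row hS1J hNBF hC1L hKSU hLPE hCTZ hKUR hDST h48 hR hu hK y hy
  have e23 : ({c (-2), c (-3)} : Finset α) = {c 2, c 3} := by
    rw [show (-2 : Fin 5) = 3 from rfl, show (-3 : Fin 5) = 2 from rfl, pair_comm]
  have h4' : IsZ2 (dst G u {c 2, c 3}) z2 := by
    rw [← e23]
    exact h4
  have h5' : Kur (dst G u {c 2, c 3}) z2 := by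
    rw [← e23]
    exact h5
  have h6' : ∀ f, z2 s(u, c 0) f = y f := h6
  have hs := hKUR.zadd (hKUR.zadd hz h1) h4'
  have hdel := hKUR.del (a := u) (b := c 0) hs (fun f => by
    show z s(u, c 0) f + z1 s(u, c 0) f + z2 s(u, c 0) f = 0
    rw [h3, h6', ← hxy, add_assoc]
    exact zmod2_add_self (x f + y f))
  have hk := hKUR.mono (delE_le _ _ _) (hK0 _ hdel)
  have hk2 := hKUR.add (hKUR.add hk h5') h2
  have he : (fun e f => (fun e f => (fun e f => (fun e f => z e f + z1 e f) e f + z2 e f) e f +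
      z2 e f) e f + z1 e f) = z := by
    funext e f
    show z e f + z1 e f + z2 e f + z2 e f + z1 e f = z e f
    rw [add_assoc (z e f + z1 e f), zmod2_add_self, add_zero, add_assoc, zmod2_add_self, add_zero]
  rw [he] at hk2
  exact hk2

theorem f8 : ∀ i : Fin 5, ∃ j : Fin 5, j ≠ i ∧ j ≠ i + 1 ∧ j ≠ i - 1 ∧ j ≠ 0 ∧ j ≠ 2 := by decide

theorem f9 : ∀ i : Fin 5, ∃ j : Fin 5, j ≠ i ∧ j ≠ i + 1 ∧ j ≠ i - 1 ∧ j ≠ 0 ∧ j ≠ 3 := by decide

theorem C5.gd (h : C5 G u c w) {k : Fin 5}
    (hk : ∀ i : Fin 5, ∃ j : Fin 5, j ≠ i ∧ j ≠ i + 1 ∧ j ≠ i - 1 ∧ j ≠ 0 ∧ j ≠ k) :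
    Gd G u {c 0, c k} := by
  intro v hv _
  obtain ⟨i, rfl⟩ := (h.hu v).1 hv
  obtain ⟨j, h1, h2, h3, h4, h5⟩ := hk i
  refine ⟨c j, h.uc j, h.ne h1, fun h6 => ?_, ?_⟩
  · rcases (h.adj_iff i j).1 h6 with h7 | h7
    · exact h2 h7
    · exact h3 h7
  · simp only [mem_insert, mem_singleton, not_or]
    exact ⟨h.ne h4, h.ne h5⟩

end S1CM

open S1CM in
/-- **S1C** -/
theorem specS1C (hS1J : SpecS1J) (hCRL : SpecCRL) (hDL5 : SpecDL5) (hDST : SpecDST)
    (hNBF : SpecNBF) (hC1L : SpecC1L) (hKSU : SpecKSU) (hSTA : SpecSTA) (hLPE : SpecLPE)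
    (hCTZ : SpecCTZ) (hKUR : SpecKUR) (hNPC : SpecNPC) : SpecS1C := by
  intro α _ _ G u c w h48 hIH hu hR hNP hinj hcu hw hc
  have h : C5 G u c w := ⟨hinj, hcu, hw, hc⟩
  have hnd : [c 0, c 2, c 3, c 1, c 4].Nodup := by
    simp only [List.nodup_cons, List.mem_cons, List.not_mem_nil, or_false, not_or,
      List.nodup_nil, and_true]
    exact ⟨⟨h.ne (by decide), h.ne (by decide), h.ne (by decide), h.ne (by decide)⟩,
      ⟨h.ne (by decide), h.ne (by decide), h.ne (by decide)⟩,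
      ⟨h.ne (by decide), h.ne (by decide)⟩, h.ne (by decide), not_false⟩
  have h14 : ¬ G.Adj (c 1) (c 4) := fun h1 => by
    rcases (h.adj_iff 1 4).1 h1 with h2 | h2
    · exact absurd h2 (by decide)
    · exact absurd h2 (by decide)
  have g2 := h.gd f8
  have g3 := h.gd f9
  have key : ∀ (i : Fin 5) {P : Finset α}, i ≠ 1 → i ≠ 4 → c i ∉ P → c 1 ∉ P → c 4 ∉ P →
      S1FM.Gd G u P → C1 (dst G u P) ∧ NP (dst G u P) := fun i P hi1 hi4 h1 h2 h3 hP =>
    S1FM.del_ok hCRL hDST hNPC h48 hR hNP (h.ne hi1) (h.ne hi4) (h.ne (by decide)) ⟨h.uc i, h1⟩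
      ⟨h.uc 1, h2⟩ ⟨h.uc 4, h3⟩ hP
  have n1 : ∀ {i j : Fin 5}, i ≠ j → c i ∉ ({c j} : Finset α) := fun hij => by
    rw [mem_singleton]
    exact h.ne hij
  have n2 : ∀ {i j k : Fin 5}, i ≠ j → i ≠ k → c i ∉ ({c j, c k} : Finset α) := fun hij hik => by
    rw [mem_insert, mem_singleton, not_or]
    exact ⟨h.ne hij, h.ne hik⟩
  refine hDL5 h48 hIH hnd ?_ (Or.inl h14) ?_
    (h.kzA hS1J hCRL hDST hNBF hC1L hKSU hSTA hLPE hCTZ hKUR hNPC h48 hIH hR hu hNP)
  · intro x hx
    simp only [mem_insert, mem_singleton] at hx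
    rcases hx with rfl | rfl | rfl | rfl | rfl
    all_goals exact h.uc _
  · rintro P (rfl | rfl | rfl | rfl | rfl)
    · exact key 2 (by decide) (by decide) (n1 (by decide)) (n1 (by decide)) (n1 (by decide))
        (S1FM.gd_mono (by simp) g2)
    · exact key 0 (by decide) (by decide) (n1 (by decide)) (n1 (by decide)) (n1 (by decide))
        (S1FM.gd_mono (by simp) g2)
    · exact key 0 (by decide) (by decide) (n1 (by decide)) (n1 (by decide)) (n1 (by decide))
        (S1FM.gd_mono (by simp) g3)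
    · exact key 3 (by decide) (by decide) (n2 (by decide) (by decide)) (n2 (by decide) (by decide))
        (n2 (by decide) (by decide)) g2
    · exact key 2 (by decide) (by decide) (n2 (by decide) (by decide)) (n2 (by decide) (by decide))
        (n2 (by decide) (by decide)) g3

end DL
end

section
/-!
# MP_3ff0f8_gt, ALGEBRA HALF: module S1G
-/
open SimpleGraph Finset

namespace DL

namespace S1GM

section comb

variable {α : Type} [DecidableEq α]

/-- a graph with at most 5 edges on 6 vertices has an independent triple -/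
theorem triple {W : Finset α} {E : Finset (Finset α)} (hW : 6 ≤ W.card) (hE : E.card ≤ 5)
    (hE2 : ∀ e ∈ E, e.card ≤ 2) :
    ∃ a ∈ W, ∃ b ∈ W, ∃ c ∈ W, a ≠ b ∧ a ≠ c ∧ b ≠ c ∧ {a, b} ∉ E ∧ {a, c} ∉ E ∧ {b, c} ∉ E := by
  obtain ⟨W', hW', h6⟩ := exists_subset_card_eq hW
  -- a vertex of degree at most one
  have hx : ∃ x ∈ W', (E.filter fun e => x ∈ e).card ≤ 1 := by
    by_contra hcon
    push Not at hcon
    have h1 : ∑ x ∈ W', (E.filter fun e => x ∈ e).card = ∑ e ∈ E, (W'.filter fun x => x ∈ e).card := by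
      simp only [card_filter]
      exact sum_comm
    have h2 : 12 ≤ ∑ x ∈ W', (E.filter fun e => x ∈ e).card := by
      have h3 := card_nsmul_le_sum W' (fun x => (E.filter fun e => x ∈ e).card) 2
        (fun x hx => hcon x hx)
      rw [h6] at h3
      simpa using h3
    have h4 : ∑ e ∈ E, (W'.filter fun x => x ∈ e).card ≤ 10 := by
      have h5 := sum_le_card_nsmul E (fun e => (W'.filter fun x => x ∈ e).card) 2 (by
        intro e he
        refine le_trans (card_le_card ?_) (hE2 e he)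
        intro x hx
        exact (mem_filter.1 hx).2)
      refine h5.trans ?_
      simp only [smul_eq_mul]
      omega
    omega
  obtain ⟨x, hxW, hx1⟩ := hx
  set Y := (W'.erase x).filter fun y => ({x, y} : Finset α) ∉ E with hY
  have hY4 : 4 ≤ Y.card := by
    have h1 : ((W'.erase x).filter fun y => ({x, y} : Finset α) ∈ E).card ≤
        (E.filter fun e => x ∈ e).card := by
      apply card_le_card_of_injOn (fun y => ({x, y} : Finset α))
      · intro y hy
        simp only [coe_filter, Set.mem_ofPred_eq] at hy ⊢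
        exact ⟨hy.2, by simp⟩
      · intro y hy z hz h
        simp only [coe_filter, Set.mem_ofPred_eq, mem_erase] at hy hz h
        have h2 : y ∈ ({x, z} : Finset α) := by rw [← h]; simp
        simp only [mem_insert, mem_singleton] at h2
        rcases h2 with h2 | h2
        · exact absurd h2 hy.1.1
        · exact h2
    have h2 := card_filter_add_card_filter_not (s := W'.erase x) (fun y => ({x, y} : Finset α) ∈ E)
    rw [card_erase_of_mem hxW, h6] at h2
    have h3 : Y.card = ((W'.erase x).filter fun y => ¬ ({x, y} : Finset α) ∈ E).card := rfl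
    omega
  have hex : ∃ e ∈ Y.powersetCard 2, e ∉ E := by
    by_contra hcon
    push Not at hcon
    have h1 := card_le_card (fun e he => hcon e he : Y.powersetCard 2 ⊆ E)
    rw [card_powersetCard] at h1
    have h2 := Nat.choose_le_choose 2 hY4
    have h3 : Nat.choose 4 2 = 6 := by decide
    omega
  obtain ⟨e, he, heE⟩ := hex
  rw [mem_powersetCard] at he
  obtain ⟨y, z, hyz, rfl⟩ := card_eq_two.1 he.2
  have hy : y ∈ Y := he.1 (by simp)
  have hz : z ∈ Y := he.1 (by simp)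
  rw [hY, mem_filter, mem_erase] at hy hz
  exact ⟨x, hW' hxW, y, hW' hy.1.2, z, hW' hz.1.2, hy.1.1.symm, hz.1.1.symm, hyz, hy.2, hz.2, heE⟩

end comb

variable {α : Type} [Fintype α] [DecidableEq α] {G : SimpleGraph α}

theorem mem_NB1 {u w : α} : w ∈ NB G {u} ↔ G.Adj u w := by
  classical
  simp only [NB, mem_filter, mem_univ, true_and, mem_singleton, exists_eq_left, and_iff_right_iff_imp]
  rintro h rfl
  exact h.ne rfl

omit [DecidableEq α] in
theorem mem_NB {A : Finset α} {w : α} : w ∈ NB G A ↔ w ∉ A ∧ ∃ a ∈ A, G.Adj a w := by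
  simp [NB]

/-- the neighbours of `u` different from `v` and not adjacent to `v` -/
noncomputable def bet (G : SimpleGraph α) (u v : α) : Finset α := by
  classical exact (NB G {u}).filter fun w => w ≠ v ∧ ¬ G.Adj v w

theorem mem_bet {u v w : α} : w ∈ bet G u v ↔ G.Adj u w ∧ w ≠ v ∧ ¬ G.Adj v w := by
  simp [bet, mem_NB1]

/-- `|β v| ≥ d - 4`, and `≥ d - 3` if `v` has a neighbour outside -/
theorem card_bet {u v : α} (huv : G.Adj u v) (h4 : dg G v = 4) :
    dg G u ≤ (bet G u v).card + 4 ∧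
      ((∃ w, G.Adj v w ∧ w ≠ u ∧ ¬ G.Adj u w) → dg G u ≤ (bet G u v).card + 3) := by
  classical
  have h1 : NB G {u} ⊆ bet G u v ∪ insert v ((NB G {v}).filter fun w => G.Adj u w) := by
    intro w hw
    rw [mem_NB1] at hw
    rw [mem_union, mem_bet, mem_insert, mem_filter, mem_NB1]
    by_cases h2 : w = v
    · exact Or.inr (Or.inl h2)
    · by_cases h3 : G.Adj v w
      · exact Or.inr (Or.inr ⟨h3, hw⟩)
      · exact Or.inl ⟨hw, h2, h3⟩
  have h2 := (card_le_card h1).trans (card_union_le _ _)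
  have h3 := card_insert_le v ((NB G {v}).filter fun w => G.Adj u w)
  unfold dg at h4 ⊢
  have h5 : u ∈ NB G {v} := mem_NB1.2 huv.symm
  have h6 : (NB G {v}).filter (fun w => G.Adj u w) ⊆ (NB G {v}).erase u := by
    intro w hw
    rw [mem_filter] at hw
    rw [mem_erase]
    refine ⟨?_, hw.1⟩
    rintro rfl
    exact hw.2.ne rfl
  constructor
  · have h7 := card_le_card h6
    rw [card_erase_of_mem h5, h4] at h7
    omega
  · rintro ⟨w, hvw, hwu, huw⟩
    have h7 : (NB G {v}).filter (fun w => G.Adj u w) ⊆ ((NB G {v}).erase u).erase w := by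
      intro y hy
      rw [mem_erase]
      refine ⟨?_, h6 hy⟩
      rintro rfl
      exact huw (mem_filter.1 hy).2
    have h8 := card_le_card h7
    have h9 : w ∈ (NB G {v}).erase u := mem_erase.2 ⟨hwu, mem_NB1.2 hvw⟩
    rw [card_erase_of_mem h9, card_erase_of_mem h5, h4] at h8
    omega

end S1GM

open S1GM

theorem specS1G (hCRL : SpecCRL) (hDL5 : SpecDL5) (hDST : SpecDST) (hNPC : SpecNPC) (hNBF : SpecNBF) :
    SpecS1G := by
  classical
  intro α _ _ G u hK hIH hu hR h6 hNP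
  have hdg : (NB G {u}).card = dg G u := rfl
  -- a triple which is good
  have hgood : ∃ a, G.Adj u a ∧ ∃ b, G.Adj u b ∧ ∃ c, G.Adj u c ∧ a ≠ b ∧ a ≠ c ∧ b ≠ c ∧
      ∀ v, G.Adj u v → dg G v = 4 → ¬ bet G u v ⊆ {a, b} ∧ ¬ bet G u v ⊆ {a, c} ∧
        ¬ bet G u v ⊆ {b, c} := by
    obtain ⟨E, hE5, hE2, hE⟩ : ∃ E : Finset (Finset α), E.card ≤ 5 ∧ (∀ e ∈ E, e.card ≤ 2) ∧
        ∀ v, G.Adj u v → dg G v = 4 → (bet G u v).card ≤ 2 → bet G u v ∈ E := by
      by_cases h7 : 7 ≤ dg G u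
      · refine ⟨∅, by simp, by simp, ?_⟩
        intro v huv hv h2
        have := (card_bet huv hv).1
        omega
      · -- a neighbour with a neighbour outside
        have hv0 : ∃ v₀, G.Adj u v₀ ∧ ∃ w, G.Adj v₀ w ∧ w ≠ u ∧ ¬ G.Adj u w := by
          by_contra hcon
          push Not at hcon
          have h8 : NB G (insert u (NB G {u})) = ∅ := by
            rw [eq_empty_iff_forall_notMem]
            intro w hw
            obtain ⟨hw1, a, ha, haw⟩ := mem_NB.1 hw
            apply hw1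
            rw [mem_insert]
            by_cases hwu : w = u
            · exact Or.inl hwu
            right
            rw [mem_NB1]
            rcases mem_insert.1 ha with rfl | ha
            · exact haw
            · exact hcon a (mem_NB1.1 ha) w haw hwu
          have h11 : insert u (NB G {u}) ⊆ VS G := by
            intro x hx
            rcases mem_insert.1 hx with rfl | hx
            · exact hu
            · exact right_mem_VS (mem_NB1.1 hx)
          have h12 := hNBF.nb hK.1 h11 (insert_nonempty _ _) (by rw [h8]; simp)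
          rw [h8, union_empty] at h12
          have h13 := (card_le_card h12).trans (card_insert_le _ _)
          have := hK.2
          omega
        obtain ⟨v₀, huv₀, hv₀⟩ := hv0
        refine ⟨(((NB G {u}).erase v₀).image (bet G u)).filter (fun e => e.card ≤ 2), ?_, ?_, ?_⟩
        · refine (card_filter_le _ _).trans (card_image_le.trans ?_)
          rw [card_erase_of_mem (mem_NB1.2 huv₀)]
          omega
        · intro e he
          exact (mem_filter.1 he).2
        · intro v huv hv h2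
          rw [mem_filter]
          refine ⟨mem_image_of_mem _ ?_, h2⟩
          rw [mem_erase]
          refine ⟨?_, mem_NB1.2 huv⟩
          rintro rfl
          have := (card_bet huv hv).2 hv₀
          omega
    obtain ⟨a, ha, b, hb, c, hc, hab, hac, hbc, h1, h2, h3⟩ := triple (hdg ▸ h6) hE5 hE2
    refine ⟨a, mem_NB1.1 ha, b, mem_NB1.1 hb, c, mem_NB1.1 hc, hab, hac, hbc, ?_⟩
    have hpair : ∀ x y, x ≠ y → ({x, y} : Finset α) ∉ E → ∀ v, G.Adj u v → dg G v = 4 →
        ¬ bet G u v ⊆ {x, y} := by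
      intro x y hxy hE' v huv hv hsub
      have h4 := card_le_card hsub
      rw [card_pair hxy] at h4
      have h5 := (card_bet huv hv).1
      have h7 : bet G u v = {x, y} := by
        apply eq_of_subset_of_card_le hsub
        rw [card_pair hxy]
        omega
      exact hE' (h7 ▸ hE v huv hv h4)
    intro v huv hv
    exact ⟨hpair a b hab h1 v huv hv, hpair a c hac h2 v huv hv, hpair b c hbc h3 v huv hv⟩
  obtain ⟨a, ha, b, hb, c, hc, hab, hac, hbc, hgood⟩ := hgood
  -- three further neighbours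
  have hcard : 3 ≤ (NB G {u} \ {a, b, c}).card := by
    have h1 : ({a, b, c} : Finset α) ⊆ NB G {u} := by
      intro x hx
      simp only [mem_insert, mem_singleton] at hx
      rw [mem_NB1]
      rcases hx with rfl | rfl | rfl <;> assumption
    have h2 : ({a, b, c} : Finset α).card = 3 := by
      rw [card_insert_of_notMem (by simp [hab, hac]), card_pair hbc]
    rw [card_sdiff_of_subset h1, h2]
    omega
  obtain ⟨T, hT, hT3⟩ := exists_subset_card_eq hcard
  obtain ⟨r, s, t, hrs, hrt, hst, rfl⟩ := card_eq_three.1 hT3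
  have hmem : ∀ x, x = r ∨ x = s ∨ x = t → G.Adj u x ∧ x ≠ a ∧ x ≠ b ∧ x ≠ c := by
    intro x hx
    have h1 := hT (by simpa using hx : x ∈ ({r, s, t} : Finset α))
    rw [mem_sdiff, mem_NB1] at h1
    simp only [mem_insert, mem_singleton, not_or] at h1
    exact ⟨h1.1, h1.2.1, h1.2.2.1, h1.2.2.2⟩
  obtain ⟨hr, hra, hrb, hrc⟩ := hmem r (Or.inl rfl)
  obtain ⟨hs, hsa, hsb, hsc⟩ := hmem s (Or.inr (Or.inl rfl))
  obtain ⟨ht, hta, htb, htc⟩ := hmem t (Or.inr (Or.inr rfl))
  have key : ∀ P : Finset α, (P ⊆ {a, b} ∨ P ⊆ {a, c} ∨ P ⊆ {b, c}) →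
      C1 (dst G u P) ∧ NP (dst G u P) := by
    intro P hP
    have hP3 : ∀ p ∈ P, p = a ∨ p = b ∨ p = c := by
      intro p hp
      rcases hP with h | h | h
      · have := h hp
        simp only [mem_insert, mem_singleton] at this
        tauto
      · have := h hp
        simp only [mem_insert, mem_singleton] at this
        tauto
      · have := h hp
        simp only [mem_insert, mem_singleton] at this
        tauto
    refine ⟨hCRL.rig hK hR hrs hrt hst ?_ ?_, hNPC.mono (hDST.dle G u P) hNP⟩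
    · intro w hw
      obtain ⟨h1, h2, h3, h4⟩ := hmem w hw
      refine ⟨h1, fun h => ?_⟩
      rcases hP3 w h with h | h | h
      · exact h2 h
      · exact h3 h
      · exact h4 h
    · intro v huv hv
      obtain ⟨h1, h2, h3⟩ := hgood v huv hv
      have h4 : ¬ bet G u v ⊆ P := by
        intro h
        rcases hP with h' | h' | h'
        · exact h1 (h.trans h')
        · exact h2 (h.trans h')
        · exact h3 (h.trans h')
      rw [not_subset] at h4
      obtain ⟨w, hw, hwP⟩ := h4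
      rw [mem_bet] at hw
      exact ⟨w, hw.1, hw.2.1, hw.2.2, hwP⟩
  refine hDL5 (u := u) (a := a) (b := b) (c := c) (r := r) (s := s) hK hIH ?_ ?_ (Or.inr ⟨t, ht, ?_⟩) ?_ ?_
  · simp only [List.nodup_cons, List.mem_cons, List.not_mem_nil, or_false, not_or, not_false_eq_true,
      List.nodup_nil, and_true]
    exact ⟨⟨hab, hac, hra.symm, hsa.symm⟩, ⟨hbc, hrb.symm, hsb.symm⟩, ⟨hrc.symm, hsc.symm⟩, hrs⟩
  · intro x hx
    simp only [mem_insert, mem_singleton] at hx
    rcases hx with rfl | rfl | rfl | rfl | rfl <;> assumption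
  · simp only [mem_insert, mem_singleton, not_or]
    exact ⟨hta, htb, htc, hrt.symm, hst.symm⟩
  · rintro P (rfl | rfl | rfl | rfl | rfl)
    · exact key _ (Or.inl (by simp))
    · exact key _ (Or.inl (by simp))
    · exact key _ (Or.inr (Or.inl (by simp)))
    · exact key _ (Or.inl subset_rfl)
    · exact key _ (Or.inr (Or.inl subset_rfl))
  · obtain ⟨h1, h2⟩ := key {b, c} (Or.inr (Or.inr subset_rfl))
    exact (hIH _ (hDST.sz4 hb (by simp)) h1 h2).2

end DL
end

section
/-!
# MP_3ff0f8_gt, ALGEBRA HALF: module S1J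
-/
open SimpleGraph Finset

namespace DL

theorem specS1J (hS3F : SpecS3F) : SpecS1J := by
  classical
  intro α _ _ G u hK hR hu
  obtain ⟨hk3, hvs⟩ := hS3F.del (k := 3) u (by norm_num) hK.1
  have hcard : (VS (del G {u})).card + 1 = (VS G).card := by
    rw [hvs, card_erase_add_one hu]
  refine ⟨⟨hk3, ?_⟩, by have := hK.2; omega, ?_⟩
  · intro S P Q hs hS
    have hu' : ∀ x, x ∈ S ∪ P ∪ Q → x ≠ u ∧ x ∈ VS G := by
      intro x hx
      rw [hs.1, hvs, mem_erase] at hx
      exact hx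
    have huS : u ∉ S := fun h => (hu' u (by simp [h])).1 rfl
    have huP : u ∉ P := fun h => (hu' u (by simp [h])).1 rfl
    have huQ : u ∉ Q := fun h => (hu' u (by simp [h])).1 rfl
    refine hR (insert u S) P Q ⟨?_, ?_, ?_, hs.2.2.2.1, ?_⟩ (by rw [card_insert_of_notMem huS, hS])
      (mem_insert_self _ _)
    · rw [insert_union, insert_union, hs.1, hvs, insert_erase hu]
    · rw [disjoint_insert_left]
      exact ⟨huP, hs.2.1⟩
    · rw [disjoint_insert_left]
      exact ⟨huQ, hs.2.2.1⟩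
    · intro a ha b hb hab
      refine hs.2.2.2.2 a ha b hb ⟨hab, ?_, ?_⟩
      · rw [mem_singleton]
        rintro rfl
        exact huP ha
      · rw [mem_singleton]
        rintro rfl
        exact huQ hb
  · unfold sz
    have h1 : (del G {u}).edgeSet ⊆ G.edgeSet := by
      apply edgeSet_mono
      intro a b h
      exact h.1
    have h2 := Set.ncard_le_ncard h1 (Set.toFinite _)
    omega

end DL
end

section
/-!
# MP_3ff0f8_gt, ALGEBRA HALF, EXIST section 1: SBD (helper70): subdivision of an edge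
-/
open SimpleGraph Finset

namespace DL

namespace SBDM

set_option linter.unusedSectionVars false

variable {α : Type} [Fintype α] [DecidableEq α] {G : SimpleGraph α}

theorem reach_lift {K L : SimpleGraph α} (h : ∀ x y, K.Adj x y → L.Reachable x y) {a b : α}
    (hab : K.Reachable a b) : L.Reachable a b := by
  obtain ⟨w⟩ := hab
  induction w with
  | nil => exact Reachable.refl _
  | cons h' p ih => exact (h _ _ h').trans ih

theorem connOff_of_hub {S : Finset α} (t : α)
    (h : ∀ a ∈ VS G, a ∉ S → (del G S).Reachable a t) : ConnOff G S :=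
  fun a ha b hb haS hbS => (h a ha haS).trans (h b hb hbS).symm

end SBDM

open SBDM in
theorem specSBD : SpecSBD := by
  intro α _ _ G u r s hJ hu hrs
  have hur : G.Adj u r := (hu r).2 (Or.inl rfl)
  have hus : G.Adj u s := (hu s).2 (Or.inr rfl)
  have hru : r ≠ u := hur.ne'
  have hsu : s ≠ u := hus.ne'
  have hrsne : r ≠ s := hrs.ne
  set J := del G {u} with hJdef
  set H := delE G r s with hHdef
  have hJrs : J.Adj r s := ⟨hrs, by simpa using hru, by simpa using hsu⟩
  have hrJ : r ∈ VS J := left_mem_VS hJrs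
  have hsJ : s ∈ VS J := right_mem_VS hJrs
  -- adjacency
  have hHur : H.Adj u r := delE_adj.2 ⟨hur, by
    intro h
    rcases Sym2.eq_iff.1 h with ⟨h1, _⟩ | ⟨h1, _⟩
    · exact hru h1.symm
    · exact hsu h1.symm⟩
  have hHus : H.Adj u s := delE_adj.2 ⟨hus, by
    intro h
    rcases Sym2.eq_iff.1 h with ⟨h1, _⟩ | ⟨h1, _⟩
    · exact hru h1.symm
    · exact hsu h1.symm⟩
  have hNu : ∀ w, H.Adj u w ↔ w = r ∨ w = s := by
    intro w
    constructor
    · intro h
      exact (hu w).1 (delE_adj.1 h).1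
    · rintro (rfl | rfl)
      · exact hHur
      · exact hHus
  have hJ'H : ∀ x y, (delE J r s).Adj x y → H.Adj x y := by
    intro x y h
    rw [delE_adj] at h
    exact delE_adj.2 ⟨h.1.1, h.2⟩
  have hJ2 : KConn 2 (delE J r s) := hJ.delE (by norm_num) r s
  have hVSJ' : VS (delE J r s) = VS J := VS_delE fun v hv => by
    have := hJ.le_nbs hv
    omega
  have hVSH : ∀ a, a ∈ VS H ↔ a = u ∨ a ∈ VS J := by
    intro a
    constructor
    · intro h
      by_cases hau : a = u
      · exact Or.inl hau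
      · right
        obtain ⟨w, hw⟩ := mem_VS.1 h
        have hw' := (delE_adj.1 hw).1
        by_cases hwu : w = u
        · subst hwu
          rcases (hu a).1 hw'.symm with rfl | rfl
          · exact hrJ
          · exact hsJ
        · exact mem_VS.2 ⟨w, hw', by simpa using hau, by simpa using hwu⟩
    · rintro (rfl | h)
      · exact left_mem_VS hHur
      · rw [← hVSJ'] at h
        obtain ⟨w, hw⟩ := mem_VS.1 h
        exact mem_VS.2 ⟨w, hJ'H _ _ hw⟩
  have hVSG : VS H = VS G := by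
    apply Subset.antisymm (VS_mono (delE_le _ _ _))
    intro a ha
    rw [hVSH]
    by_cases hau : a = u
    · exact Or.inl hau
    · right
      obtain ⟨w, hw⟩ := mem_VS.1 ha
      by_cases hwu : w = u
      · subst hwu
        rcases (hu a).1 hw.symm with rfl | rfl
        · exact hrJ
        · exact hsJ
      · exact mem_VS.2 ⟨w, hw, by simpa using hau, by simpa using hwu⟩
  -- reachability in `J - rs` gives reachability in `H`
  have hle : ∀ S : Finset α, ∀ x y, (del (delE J r s) S).Adj x y →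
      (del H S).Adj x y := fun S x y h => ⟨hJ'H _ _ h.1, h.2⟩
  refine ⟨⟨⟨?_, ?_⟩, ?_, ?_⟩, hVSG⟩
  · -- number of vertices
    have h1 : VS J ⊆ VS H := fun a ha => (hVSH a).2 (Or.inr ha)
    have h2 := card_le_card h1
    have h3 := hJ.1
    omega
  · intro S hS
    obtain ⟨t, ht, htS⟩ : ∃ t, (t = r ∨ t = s) ∧ t ∉ S := by
      by_contra hcon
      push Not at hcon
      have h1 : ({r, s} : Finset α) ⊆ S := by
        intro x hx
        rw [mem_insert, mem_singleton] at hx
        exact hcon x hx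
      have h2 := card_le_card h1
      rw [card_pair hrsne] at h2
      omega
    have htJ : t ∈ VS J := by rcases ht with rfl | rfl <;> assumption
    refine connOff_of_hub t fun a ha haS => ?_
    rcases (hVSH a).1 ha with rfl | haJ
    · exact Adj.reachable ⟨(hNu t).2 ht, haS, htS⟩
    · exact reach_lift (fun x y h => (hle S x y h).reachable)
        (hJ2.reach hS (by rw [hVSJ']; exact haJ) (by rw [hVSJ']; exact htJ) haS htS)
  · -- a vertex of degree three
    have h1 := hJ.le_nbs hrJ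
    have h2 : 1 < ((nbs J r).erase s).card := by
      rw [card_erase_of_mem (mem_nbs.2 hJrs)]
      omega
    obtain ⟨x, hx, y, hy, hxy⟩ := one_lt_card.1 h2
    rw [mem_erase, mem_nbs] at hx hy
    have hadj : ∀ z, z ≠ s ∧ J.Adj r z → H.Adj r z := by
      intro z hz
      refine delE_adj.2 ⟨hz.2.1, fun h => ?_⟩
      rcases Sym2.eq_iff.1 h with ⟨_, h1⟩ | ⟨h1, _⟩
      · exact hz.1 h1
      · exact hrsne h1
    refine ⟨r, x, y, u, hxy, ?_, ?_, hadj x hx, hadj y hy, hHur.symm⟩
    · rintro rfl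
      exact hx.2.2.2 (mem_singleton_self _)
    · rintro rfl
      exact hy.2.2.2 (mem_singleton_self _)
  · intro p q hpq
    by_cases hcase : ({p, q} : Finset α) = {r, s}
    · -- the two neighbours of `u`
      right
      refine ⟨u, ?_, ?_, ?_⟩
      · intro w
        rw [hNu]
        have : w ∈ ({p, q} : Finset α) ↔ w ∈ ({r, s} : Finset α) := by rw [hcase]
        simpa [mem_insert, mem_singleton] using this.symm
      · intro h
        have h1 := (delE_adj.1 h).2
        apply h1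
        have hp : p ∈ ({r, s} : Finset α) := by rw [← hcase]; simp
        have hq : q ∈ ({r, s} : Finset α) := by rw [← hcase]; simp
        rw [mem_insert, mem_singleton] at hp hq
        rcases hp with rfl | rfl <;> rcases hq with rfl | rfl
        · exact absurd rfl hpq
        · rfl
        · exact Sym2.eq_swap
        · exact absurd rfl hpq
      · intro a ha b hb haS hbS
        have e1 : ({p, q, u} : Finset α) = {r, s, u} := by
          ext w
          have : w ∈ ({p, q} : Finset α) ↔ w ∈ ({r, s} : Finset α) := by rw [hcase]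
          simp only [mem_insert, mem_singleton] at this ⊢
          tauto
        rw [e1] at haS hbS ⊢
        simp only [mem_insert, mem_singleton, not_or] at haS hbS
        have haJ : a ∈ VS J := ((hVSH a).1 ha).resolve_left haS.2.2
        have hbJ : b ∈ VS J := ((hVSH b).1 hb).resolve_left hbS.2.2
        have hr := hJ.reach (S := {r, s}) (by rw [card_pair hrsne]; norm_num) haJ hbJ
          (by simp [haS.1, haS.2.1]) (by simp [hbS.1, hbS.2.1])
        refine reach_lift (fun x y h => ?_) hr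
        obtain ⟨⟨h1, h2, h3⟩, h4, h5⟩ := h
        simp only [mem_insert, mem_singleton, not_or] at h2 h3 h4 h5
        refine Adj.reachable ⟨delE_adj.2 ⟨h1, fun h => ?_⟩, by simp [h2, h4.1, h4.2],
          by simp [h3, h5.1, h5.2]⟩
        rcases Sym2.eq_iff.1 h with ⟨h6, _⟩ | ⟨h6, _⟩
        · exact h4.1 h6
        · exact h4.2 h6
    · left
      by_cases hup : u = p ∨ u = q
      · -- `u` is deleted
        obtain ⟨z, hz⟩ : ∃ z, ({p, q} : Finset α) = {u, z} := by
          rcases hup with rfl | rfl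
          · exact ⟨q, rfl⟩
          · exact ⟨p, pair_comm _ _⟩
        rw [hz]
        intro a ha b hb haS hbS
        simp only [mem_insert, mem_singleton, not_or] at haS hbS
        have haJ : a ∈ VS J := ((hVSH a).1 ha).resolve_left haS.1
        have hbJ : b ∈ VS J := ((hVSH b).1 hb).resolve_left hbS.1
        have hr := hJ2.reach (S := {z}) (by simp) (by rw [hVSJ']; exact haJ)
          (by rw [hVSJ']; exact hbJ) (by simp [haS.2]) (by simp [hbS.2])
        refine reach_lift (fun x y h => ?_) hr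
        obtain ⟨h1, h4, h5⟩ := h
        have h2 := (delE_adj.1 h1).1.2
        simp only [mem_singleton] at h2 h4 h5
        exact Adj.reachable ⟨hJ'H _ _ h1, by simp [h2.1, h4], by simp [h2.2, h5]⟩
      · push Not at hup
        have huS : u ∉ ({p, q} : Finset α) := by simp [hup.1, hup.2]
        obtain ⟨t, ht, htS⟩ : ∃ t, (t = r ∨ t = s) ∧ t ∉ ({p, q} : Finset α) := by
          by_contra hcon
          push Not at hcon
          apply hcase
          symm
          apply Finset.eq_of_subset_of_card_le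
          · intro x hx
            rw [mem_insert, mem_singleton] at hx
            exact hcon x hx
          · rw [card_pair hrsne]; exact card_le_two
        have htJ : t ∈ VS J := by rcases ht with rfl | rfl <;> assumption
        refine connOff_of_hub t fun a ha haS => ?_
        rcases (hVSH a).1 ha with rfl | haJ
        · exact Adj.reachable ⟨(hNu t).2 ht, haS, htS⟩
        · have hr := hJ.reach (S := {p, q}) (by rw [card_pair hpq]; norm_num) haJ htJ haS htS
          refine reach_lift (fun x y h => ?_) hr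
          obtain ⟨⟨h1, _, _⟩, h4, h5⟩ := h
          by_cases hxy : s(x, y) = s(r, s)
          · rcases Sym2.eq_iff.1 hxy with ⟨rfl, rfl⟩ | ⟨rfl, rfl⟩
            · have e1 : (del H {p, q}).Adj u x := ⟨hHur, huS, h4⟩
              have e2 : (del H {p, q}).Adj u y := ⟨hHus, huS, h5⟩
              exact e1.symm.reachable.trans e2.reachable
            · have e1 : (del H {p, q}).Adj u x := ⟨hHus, huS, h4⟩
              have e2 : (del H {p, q}).Adj u y := ⟨hHur, huS, h5⟩
              exact e1.symm.reachable.trans e2.reachable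
          · exact Adj.reachable ⟨delE_adj.2 ⟨h1, hxy⟩, h4, h5⟩

end DL
end

section
/-!
# MP_3ff0f8_gt, ALGEBRA HALF, EXIST section 1: S1K (helper70): the neighbours of `u` form a clique
-/
open SimpleGraph Finset

namespace DL

namespace S1KM

set_option linter.unusedSectionVars false

variable {α : Type} [Fintype α] [DecidableEq α] {G : SimpleGraph α}

/-! ### Short paths and the cycles `u a P b u` -/

theorem pth2 {a b x : α} (h1 : G.Adj a x) (h2 : G.Adj x b) (hab : a ≠ b) :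
    IsPth G a b {s(a, x), s(x, b)} := by
  refine IsPth.cons h1 (IsPth.edge h2) ?_
  rw [vs_singleton, mem_insert, mem_singleton, not_or]
  exact ⟨h1.ne, hab⟩

theorem pth3 {a b x y : α} (h1 : G.Adj a x) (h2 : G.Adj x y) (h3 : G.Adj y b) (hab : a ≠ b)
    (hay : a ≠ y) (hxb : x ≠ b) : IsPth G a b {s(a, x), s(x, y), s(y, b)} := by
  refine IsPth.cons h1 (pth2 h2 h3 hxb) ?_
  rw [vs_insert, vs_singleton]
  simp only [mem_union, mem_insert, mem_singleton, not_or]
  exact ⟨⟨h1.ne, hay⟩, hay, hab⟩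

theorem sum2 {a b x : α} (hab : a ≠ b) (hax : a ≠ x) (w : Chain α) :
    ∑ h ∈ ({s(a, x), s(x, b)} : Finset (Sym2 α)), w h = w s(a, x) + w s(x, b) := by
  refine sum_pair fun h => ?_
  rcases Sym2.eq_iff.1 h with ⟨h1, _⟩ | ⟨h1, _⟩
  · exact hax h1
  · exact hab h1

theorem sum3 {a b x y : α} (hab : a ≠ b) (hax : a ≠ x) (hay : a ≠ y) (hxy : x ≠ y) (hxb : x ≠ b)
    (w : Chain α) :
    ∑ h ∈ ({s(a, x), s(x, y), s(y, b)} : Finset (Sym2 α)), w h =
      w s(a, x) + (w s(x, y) + w s(y, b)) := by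
  rw [sum_insert, sum2 hxb hxy]
  rw [mem_insert, mem_singleton, not_or]
  constructor
  · intro h
    rcases Sym2.eq_iff.1 h with ⟨h1, _⟩ | ⟨h1, _⟩
    · exact hax h1
    · exact hay h1
  · intro h
    rcases Sym2.eq_iff.1 h with ⟨h1, _⟩ | ⟨h1, _⟩
    · exact hay h1
    · exact hab h1

/-- the cycle `u a P b u` -/
def cy (u a b : α) (P : Finset (Sym2 α)) : Finset (Sym2 α) := insert s(u, a) (insert s(u, b) P)

theorem sum_cy {u a b : α} {P : Finset (Sym2 α)} (hab : a ≠ b) (hu : u ∉ vs P) (w : Chain α) :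
    ∑ h ∈ cy u a b P, w h = w s(u, a) + (w s(u, b) + ∑ h ∈ P, w h) := by
  unfold cy
  rw [sum_insert, sum_insert]
  · exact fun h => hu (left_mem_vs h)
  · rw [mem_insert, not_or]
    refine ⟨fun h => ?_, fun h => hu (left_mem_vs h)⟩
    rcases Sym2.eq_iff.1 h with ⟨_, h1⟩ | ⟨h1, h2⟩
    · exact hab h1
    · exact hab (h2.trans h1)

theorem chi_cy_left (u a b : α) (P : Finset (Sym2 α)) : chi (cy u a b P) s(u, a) = 1 :=
  chi_of_mem (mem_insert_self _ _)

theorem chi_cy_right (u a b : α) (P : Finset (Sym2 α)) : chi (cy u a b P) s(u, b) = 1 :=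
  chi_of_mem (mem_insert_of_mem (mem_insert_self _ _))

theorem notMem_cy {u a b x : α} {P : Finset (Sym2 α)} (hu : u ∉ vs P) (hxa : x ≠ a) (hxb : x ≠ b) :
    s(u, x) ∉ cy u a b P := by
  unfold cy
  rw [mem_insert, mem_insert, not_or, not_or]
  refine ⟨fun h => ?_, fun h => ?_, fun h => hu (left_mem_vs h)⟩
  · rcases Sym2.eq_iff.1 h with ⟨_, h1⟩ | ⟨h1, h2⟩
    · exact hxa h1
    · exact hxa (h2.trans h1)
  · rcases Sym2.eq_iff.1 h with ⟨_, h1⟩ | ⟨h1, h2⟩
    · exact hxb h1
    · exact hxb (h2.trans h1)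

/-- **the four cycles**: two formulas for the same function; the coefficient of the coherence
function of an edge `rs` of the cycles is zero, if the second formula has none -/
theorem eps_zero {u a b r s p q : α} {F : Finset (Sym2 α) → ZMod 2} {w0 ε w0' ε' : ZMod 2}
    {w w' : Chain α} (hnd : [u, a, b, r, s].Nodup) (hub : G.Adj u b)
    (har : G.Adj a r) (has : G.Adj a s) (hrb : G.Adj r b) (hsb : G.Adj s b) (hrs : G.Adj r s)
    (hpu : p ≠ u) (hqu : q ≠ u) (hpa : p ≠ a) (hpb : p ≠ b) (hpr : p ≠ r) (hps : p ≠ s)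
    (h1 : ∀ P, IsPth (del G {u}) a b P →
      F (cy u a b P) = w0 + ∑ h ∈ cy u a b P, w h + ε * coh a u r s (cy u a b P))
    (h2 : ∀ P, IsPth (del G {u}) a b P →
      F (cy u a b P) = w0' + ∑ h ∈ cy u a b P, w' h + ε' * coh a u p q (cy u a b P)) : ε = 0 := by
  simp only [List.nodup_cons, List.mem_cons, List.not_mem_nil, or_false, not_or,
    List.nodup_nil, and_true, not_false_eq_true] at hnd
  obtain ⟨⟨nua, nub, nur, nus⟩, ⟨nab, nar, nas⟩, ⟨nbr, nbs⟩, nrs⟩ := hnd
  have hd : ∀ x y, G.Adj x y → u ≠ x → u ≠ y → (del G {u}).Adj x y := fun x y h h3 h4 =>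
    ⟨h, by simpa using h3.symm, by simpa using h4.symm⟩
  have p1 : IsPth (del G {u}) a b {s(a, r), s(r, b)} :=
    pth2 (hd _ _ har nua nur) (hd _ _ hrb nur nub) nab
  have p2 : IsPth (del G {u}) a b {s(a, s), s(s, b)} :=
    pth2 (hd _ _ has nua nus) (hd _ _ hsb nus nub) nab
  have p3 : IsPth (del G {u}) a b {s(a, r), s(r, s), s(s, b)} :=
    pth3 (hd _ _ har nua nur) (hd _ _ hrs nur nus) (hd _ _ hsb nus nub) nab nas (Ne.symm nbr)
  have p4 : IsPth (del G {u}) a b {s(a, s), s(s, r), s(r, b)} :=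
    pth3 (hd _ _ has nua nus) (hd _ _ hrs.symm nus nur) (hd _ _ hrb nur nub) nab nar (Ne.symm nbs)
  have hu : ∀ P, IsPth (del G {u}) a b P → u ∉ vs P := fun P hP => by
    have := (DL.isPth_del.1 hP).2
    rwa [disjoint_singleton_right] at this
  -- the sum of the linear parts vanishes
  have hlin : ∀ (z : ZMod 2) (v : Chain α),
      (z + ∑ h ∈ cy u a b {s(a, r), s(r, b)}, v h) + (z + ∑ h ∈ cy u a b {s(a, s), s(s, b)}, v h) +
      (z + ∑ h ∈ cy u a b {s(a, r), s(r, s), s(s, b)}, v h) +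
      (z + ∑ h ∈ cy u a b {s(a, s), s(s, r), s(r, b)}, v h) = 0 := by
    intro z v
    rw [sum_cy nab (hu _ p1), sum_cy nab (hu _ p2), sum_cy nab (hu _ p3), sum_cy nab (hu _ p4),
      sum2 nab nar, sum2 nab nas, sum3 nab nar nas nrs (Ne.symm nbr),
      sum3 nab nas nar (Ne.symm nrs) (Ne.symm nbs), Sym2.eq_swap (a := s) (b := r)]
    have e2 : (2 : ZMod 2) = 0 := rfl
    linear_combination (2 * z + 2 * v s(u, a) + 2 * v s(u, b) + v s(a, r) + v s(r, b) +
      v s(a, s) + v s(s, b) + v s(r, s)) * e2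
  -- the values of the coherence functions
  have hne1 : s(r, s) ≠ s(u, a) := fun h => by
    rcases Sym2.eq_iff.1 h with ⟨h3, _⟩ | ⟨h3, _⟩
    · exact nur h3.symm
    · exact nar h3.symm
  have hne2 : s(r, s) ≠ s(u, b) := fun h => by
    rcases Sym2.eq_iff.1 h with ⟨h3, _⟩ | ⟨h3, _⟩
    · exact nur h3.symm
    · exact nbr h3.symm
  have hcoh : ∀ P, IsPth (del G {u}) a b P → coh a u r s (cy u a b P) = dirn b r s P :=
    fun P hP => coh_two' hP hub nab hne1 hne2
  have c1 : coh a u r s (cy u a b {s(a, r), s(r, b)}) = 0 := by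
    rw [hcoh _ p1]
    refine dirn_eq_zero_of_notMem ?_
    rw [mem_insert, mem_singleton, not_or]
    constructor
    · intro h
      rcases Sym2.eq_iff.1 h with ⟨h3, _⟩ | ⟨_, h3⟩
      · exact nar h3.symm
      · exact nas h3.symm
    · intro h
      rcases Sym2.eq_iff.1 h with ⟨_, h3⟩ | ⟨_, h3⟩
      · exact nbs h3.symm
      · exact nrs h3.symm
  have c2 : coh a u r s (cy u a b {s(a, s), s(s, b)}) = 0 := by
    rw [hcoh _ p2]
    refine dirn_eq_zero_of_notMem ?_
    rw [mem_insert, mem_singleton, not_or]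
    constructor
    · intro h
      rcases Sym2.eq_iff.1 h with ⟨h3, _⟩ | ⟨h3, _⟩
      · exact nar h3.symm
      · exact nrs h3
    · intro h
      rcases Sym2.eq_iff.1 h with ⟨h3, _⟩ | ⟨h3, _⟩
      · exact nrs h3
      · exact nbr h3.symm
  have c3 : coh a u r s (cy u a b {s(a, r), s(r, s), s(s, b)}) = 0 := by
    rw [hcoh _ p3]
    have h3 := p3.symm.dirn_add_swap r s
    rw [chi_of_mem (by simp : s(r, s) ∈ ({s(a, r), s(r, s), s(s, b)} : Finset (Sym2 α)))] at h3
    have h4 : dirn b s r {s(a, r), s(r, s), s(s, b)} = 1 := by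
      refine dirn_eq_one (by simp [Sym2.eq_swap]) (Rch.of_mem ?_)
      rw [mem_sdiff, mem_singleton]
      refine ⟨by simp [Sym2.eq_swap], fun h => ?_⟩
      rcases Sym2.eq_iff.1 h with ⟨h5, _⟩ | ⟨h5, _⟩
      · exact nbs h5
      · exact nbr h5
    rw [h4] at h3
    exact add_eq_right.1 h3
  have c4 : coh a u r s (cy u a b {s(a, s), s(s, r), s(r, b)}) = 1 := by
    rw [hcoh _ p4]
    refine dirn_eq_one (by simp [Sym2.eq_swap]) (Rch.of_mem ?_)
    rw [mem_sdiff, mem_singleton]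
    refine ⟨by simp [Sym2.eq_swap], fun h => ?_⟩
    rcases Sym2.eq_iff.1 h with ⟨h5, _⟩ | ⟨h5, _⟩
    · exact nbr h5
    · exact nbs h5
  have hz : ∀ P, IsPth (del G {u}) a b P → P ⊆ {s(a, r), s(r, b), s(a, s), s(s, b), s(r, s)} →
      coh a u p q (cy u a b P) = 0 := by
    intro P hP hsub
    refine coh_eq_zero_right ?_
    unfold cy
    rw [mem_insert, mem_insert, not_or, not_or]
    refine ⟨fun h => ?_, fun h => ?_, fun h => ?_⟩
    · rcases Sym2.eq_iff.1 h with ⟨h3, _⟩ | ⟨_, h3⟩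
      · exact hpu h3
      · exact hqu h3
    · rcases Sym2.eq_iff.1 h with ⟨h3, _⟩ | ⟨_, h3⟩
      · exact hpu h3
      · exact hqu h3
    · have h3 := hsub h
      rw [mem_insert, mem_insert, mem_insert, mem_insert, mem_singleton] at h3
      rcases h3 with h3 | h3 | h3 | h3 | h3 <;>
        rcases Sym2.eq_iff.1 h3 with ⟨h4, _⟩ | ⟨h4, _⟩ <;>
          first
            | exact hpa h4
            | exact hpb h4
            | exact hpr h4
            | exact hps h4
  have z1 := hz _ p1 (by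
    intro x hx
    rw [mem_insert, mem_singleton] at hx
    rcases hx with rfl | rfl <;> simp)
  have z2 := hz _ p2 (by
    intro x hx
    rw [mem_insert, mem_singleton] at hx
    rcases hx with rfl | rfl <;> simp)
  have z3 := hz _ p3 (by
    intro x hx
    rw [mem_insert, mem_insert, mem_singleton] at hx
    rcases hx with rfl | rfl | rfl <;> simp)
  have z4 := hz _ p4 (by
    intro x hx
    rw [Sym2.eq_swap (a := s) (b := r), mem_insert, mem_insert, mem_singleton] at hx
    rcases hx with rfl | rfl | rfl <;> simp)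
  have f1 := h1 _ p1
  have f2 := h1 _ p2
  have f3 := h1 _ p3
  have f4 := h1 _ p4
  have g1 := h2 _ p1
  have g2 := h2 _ p2
  have g3 := h2 _ p3
  have g4 := h2 _ p4
  rw [c1, mul_zero, add_zero] at f1
  rw [c2, mul_zero, add_zero] at f2
  rw [c3, mul_zero, add_zero] at f3
  rw [c4, mul_one] at f4
  rw [z1, mul_zero, add_zero] at g1
  rw [z2, mul_zero, add_zero] at g2
  rw [z3, mul_zero, add_zero] at g3
  rw [z4, mul_zero, add_zero] at g4
  have l1 := hlin w0 w
  have l2 := hlin w0' w'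
  rw [← g1, ← g2, ← g3, ← g4, f1, f2, f3, f4] at l2
  linear_combination l2 - l1

/-- one of the two formulas -/
theorem form (hLMB : SpecLMB) (hSBD : SpecSBD) (hDST : SpecDST) (hGLU : SpecGLU)
    (hS3F : SpecS3F) {u : α} {c : Fin 5 → α} (hG : KConn 4 G) (huV : u ∈ VS G)
    (hc : Function.Injective c) (hN : ∀ x, G.Adj u x ↔ ∃ i, x = c i)
    (hcl : ∀ i j, i ≠ j → G.Adj (c i) (c j))
    (hOK : ∀ P : Finset α, P.Nonempty → P.card ≤ 2 → (∀ p ∈ P, G.Adj u p) →
      KConn 3 (dst G u P) ∧ OK (dst G u P))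
    {g : Finset (Sym2 α) → ZMod 2} (hg : D4even G g)
    (h0 : ∀ C, IsCyc G C → s(u, c 0) ∉ C ∨ s(u, c 1) ∉ C → g C = 0)
    (k r s : Fin 5) (hnd : [0, 1, k, r, s].Nodup) (hall : ∀ i : Fin 5, i = 0 ∨ i = 1 ∨ i = k ∨ i = r ∨ i = s) :
    ∃ (w0 ε : ZMod 2) (w : Chain α), ∀ C, IsCyc (dst G u {c k}) C →
      g C = chi C s(u, c 0) * chi C s(u, c 1) *
        (w0 + ∑ h ∈ C, w h + ε * coh (c 0) u (c r) (c s) C) := by
  simp only [List.nodup_cons, List.mem_cons, List.not_mem_nil, or_false, not_or,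
    List.nodup_nil, and_true, not_false_eq_true] at hnd
  obtain ⟨⟨_, n0k, n0r, n0s⟩, ⟨n1k, n1r, n1s⟩, ⟨nkr, nks⟩, nrs⟩ := hnd
  have n01 : (0 : Fin 5) ≠ 1 := by decide
  have huc : ∀ i, G.Adj u (c i) := fun i => (hN _).2 ⟨i, rfl⟩
  have hune : ∀ i, u ≠ c i := fun i => (huc i).ne
  have hJ : KConn 3 (del G {u}) := hG.del_vertex (by norm_num) u
  -- adjacency at `u` in the graphs `dst G u P`
  have hadj : ∀ (P : Finset α) w, (dst G u P).Adj u w ↔ G.Adj u w ∧ w ∉ P := by
    intro P w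
    rw [hDST.adj]
    constructor
    · rintro ⟨h1, h2, _⟩
      exact ⟨h1, fun h => h2 ⟨rfl, h⟩⟩
    · rintro ⟨h1, h2⟩
      exact ⟨h1, fun h => h2 h.2, fun h => h1.ne' h.1⟩
  have hadj' : ∀ (P : Finset α) i j, i ≠ j → (dst G u P).Adj (c i) (c j) := by
    intro P i j hij
    rw [hDST.adj]
    exact ⟨hcl i j hij, fun h => hune i h.1.symm, fun h => hune j h.1.symm⟩
  obtain ⟨_, hUk, _⟩ := hOK {c k} (by simp) (by simp) (by simpa using huc k)
  obtain ⟨φ, hφ, hgφ⟩ := hGLU.u hUk (hDST.le G u {c k}) hg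
  have e0 : delE (dst G u {c k}) u (c 0) = dst G u {c 0, c k} := (hDST.ins G u (c 0) {c k}).symm
  have e1 : delE (dst G u {c k}) u (c 1) = dst G u {c 1, c k} := (hDST.ins G u (c 1) {c k}).symm
  have e01 : delE (dst G u {c 1, c k}) u (c 0) = dst G u {c 0, c 1, c k} :=
    (hDST.ins G u (c 0) {c 1, c k}).symm
  obtain ⟨k30, hOK0⟩ := hOK {c 0, c k} (by simp) card_le_two
    (by intro p hp; rw [mem_insert, mem_singleton] at hp; rcases hp with rfl | rfl <;> exact huc _)
  obtain ⟨k31, hOK1⟩ := hOK {c 1, c k} (by simp) card_le_two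
    (by intro p hp; rw [mem_insert, mem_singleton] at hp; rcases hp with rfl | rfl <;> exact huc _)
  have hsbd := hSBD (G := dst G u {c 0, c 1, c k}) (u := u) (r := c r) (s := c s)
    (by rw [hDST.dld]; exact hJ)
    (by
      intro w
      rw [hadj, hN]
      simp only [mem_insert, mem_singleton, not_or]
      constructor
      · rintro ⟨⟨i, rfl⟩, h1, h2, h3⟩
        rcases hall i with rfl | rfl | rfl | rfl | rfl
        · exact absurd rfl h1
        · exact absurd rfl h2
        · exact absurd rfl h3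
        · exact Or.inl rfl
        · exact Or.inr rfl
      · rintro (rfl | rfl)
        · exact ⟨⟨r, rfl⟩, fun h => n0r (hc h).symm, fun h => n1r (hc h).symm,
            fun h => nkr (hc h).symm⟩
        · exact ⟨⟨s, rfl⟩, fun h => n0s (hc h).symm, fun h => n1s (hc h).symm,
            fun h => nks (hc h).symm⟩)
    (hadj' _ _ _ nrs)
  have hVS : VS (dst G u {c 0, c 1, c k}) = VS G := hDST.vs (hG.mono (by norm_num))
    ⟨c r, huc r, by
      simp only [mem_insert, mem_singleton, not_or]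
      exact ⟨fun h => n0r (hc h).symm, fun h => n1r (hc h).symm, fun h => nkr (hc h).symm⟩⟩
  have hVS' := hsbd.2.trans hVS
  obtain ⟨w0, ε, w, hw⟩ := hLMB.b' (G' := dst G u {c k}) (u := u) (a := c 0) (b := c 1) (r := c r)
    (s := c s)
    (by
      simp only [List.nodup_cons, List.mem_cons, List.not_mem_nil, or_false, not_or,
        List.nodup_nil, and_true, not_false_eq_true]
      exact ⟨⟨hune _, hune _, hune _, hune _⟩, ⟨fun h => n01 (hc h), fun h => n0r (hc h),
        fun h => n0s (hc h)⟩, ⟨fun h => n1r (hc h), fun h => n1s (hc h)⟩, fun h => nrs (hc h)⟩)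
    (by
      intro w
      rw [hadj, hN, mem_singleton]
      constructor
      · rintro ⟨⟨i, rfl⟩, h1⟩
        rcases hall i with rfl | rfl | rfl | rfl | rfl
        · exact Or.inl rfl
        · exact Or.inr (Or.inl rfl)
        · exact absurd rfl h1
        · exact Or.inr (Or.inr (Or.inl rfl))
        · exact Or.inr (Or.inr (Or.inr rfl))
      · rintro (rfl | rfl | rfl | rfl)
        · exact ⟨⟨0, rfl⟩, fun h => n0k (hc h)⟩
        · exact ⟨⟨1, rfl⟩, fun h => n1k (hc h)⟩
        · exact ⟨⟨r, rfl⟩, fun h => nkr (hc h).symm⟩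
        · exact ⟨⟨s, rfl⟩, fun h => nks (hc h).symm⟩)
    (hadj' _ _ _ nrs)
    (by rw [e0]; exact hS3F.k3 k30)
    (by rw [e0]; exact hOK0.2)
    (by rw [e1]; exact k31)
    (by rw [e1]; exact hOK1.2)
    (by rw [e1, e01]; exact hsbd.1)
    (by rw [e1, e01, hVS']; exact huV)
    (by rw [e1, e01, hVS']; exact right_mem_VS (huc 0))
    φ (hφ _)
    (by
      intro C hC
      rw [isCyc_delE] at hC
      rw [← hgφ C hC.1]
      exact h0 C (hC.1.mono (hDST.le _ _ _)) (Or.inl hC.2))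
    (by
      intro C hC
      rw [isCyc_delE] at hC
      rw [← hgφ C hC.1]
      exact h0 C (hC.1.mono (hDST.le _ _ _)) (Or.inr hC.2))
  exact ⟨w0, ε, w, fun C hC => (hgφ C hC).trans (hw C hC)⟩

end S1KM

open S1KM in
theorem specS1K (hCRL : SpecCRL) (hDL3 : SpecDL3) (hLMB : SpecLMB) (hSBD : SpecSBD)
    (hKST : SpecKST) (hDST : SpecDST) (hGLU : SpecGLU) (hNPC : SpecNPC) (hS3F : SpecS3F) :
    SpecS1K := by
  intro α _ _ G u c hK hIH huV hrig hNP hc hN hcl
  have hG : KConn 4 G := hK.1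
  have huc : ∀ i, G.Adj u (c i) := fun i => (hN _).2 ⟨i, rfl⟩
  have hJ : KConn 3 (del G {u}) := hG.del_vertex (by norm_num) u
  -- no neighbour of `u` has degree 4
  have hdeg : ∀ v, G.Adj u v → dg G v ≠ 4 := by
    intro v hv h4
    obtain ⟨i, rfl⟩ := (hN v).1 hv
    have hsub : insert u ((univ.image c).erase (c i)) ⊆ NB G {c i} := by
      intro x hx
      rw [mem_insert, mem_erase, mem_image] at hx
      simp only [NB, mem_filter, mem_univ, true_and, mem_singleton, exists_eq_left]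
      rcases hx with rfl | ⟨hx, j, _, rfl⟩
      · exact ⟨(huc i).ne, (huc i).symm⟩
      · exact ⟨hx, hcl i j fun h => hx (by rw [h])⟩
    have hcard := card_le_card hsub
    have h5 : (insert u ((univ.image c).erase (c i))).card = 5 := by
      rw [card_insert_of_notMem, card_erase_of_mem (mem_image_of_mem c (mem_univ i)),
        card_image_of_injective _ hc, card_univ, Fintype.card_fin]
      intro h
      rw [mem_erase, mem_image] at h
      obtain ⟨_, j, _, hj⟩ := h
      exact (huc j).ne hj.symm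
    unfold dg at h4
    omega
  -- the graphs `dst G u P`
  have hOK : ∀ P : Finset α, P.Nonempty → P.card ≤ 2 → (∀ p ∈ P, G.Adj u p) →
      KConn 3 (dst G u P) ∧ OK (dst G u P) := by
    intro P hPne hPc hPadj
    obtain ⟨p, hp⟩ := hPne
    have h3 : 2 < ((univ.image c) \ P).card := by
      have h5 : (univ.image c).card = 5 := by
        rw [card_image_of_injective _ hc, card_univ, Fintype.card_fin]
      have := le_card_sdiff P (univ.image c)
      omega
    obtain ⟨x, hx, y, hy, z, hz, hxy, hxz, hyz⟩ := two_lt_card.1 h3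
    have hmem : ∀ t, t ∈ (univ.image c) \ P → G.Adj u t ∧ t ∉ P := by
      intro t ht
      rw [mem_sdiff, mem_image] at ht
      obtain ⟨⟨j, _, rfl⟩, ht2⟩ := ht
      exact ⟨huc j, ht2⟩
    have hC1 : C1 (dst G u P) := hCRL.rig hK hrig hxy hxz hyz
      (by
        rintro w (rfl | rfl | rfl)
        · exact hmem _ hx
        · exact hmem _ hy
        · exact hmem _ hz)
      (fun v hv h4 => absurd h4 (hdeg v hv))
    exact ⟨hC1.1, hIH _ (hDST.sz4 (hPadj p hp) hp) hC1 (hNPC.mono (hDST.dle G u P) hNP)⟩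
  have n01 : c 0 ≠ c 1 := fun h => absurd (hc h) (by decide)
  obtain ⟨_, hU0, hKZ0⟩ := hOK {c 0} (by simp) (by simp) (by simpa using huc 0)
  obtain ⟨_, hU1, hKZ1⟩ := hOK {c 1} (by simp) (by simp) (by simpa using huc 1)
  obtain ⟨k01, _, hKZ01⟩ := hOK {c 0, c 1} (by simp) card_le_two
    (by intro p hp; rw [mem_insert, mem_singleton] at hp; rcases hp with rfl | rfl <;> exact huc _)
  refine ⟨?_, ?_⟩
  · -- `U G`
    intro f hf
    obtain ⟨φ, hφ, hfφ⟩ := hDL3.two (huc 0) (huc 1) n01 hU0 hU1 (hS3F.k3 k01) hKZ01 f hf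
    set g : Finset (Sym2 α) → ZMod 2 := fun C => f C + φ C with hgdef
    have hg : D4even G g := hGLU.dadd hf (hφ G)
    have h0 : ∀ C, IsCyc G C → s(u, c 0) ∉ C ∨ s(u, c 1) ∉ C → g C = 0 := by
      intro C hC h
      rw [hgdef]
      simp only
      rw [hfφ C hC h]
      exact zmod2_add_self _
    obtain ⟨w0, ε, w, hw⟩ := form hLMB hSBD hDST hGLU hS3F hG huV hc hN hcl hOK hg h0 2 3 4
      (by decide) (by decide)
    obtain ⟨w0', ε', w', hw'⟩ := form hLMB hSBD hDST hGLU hS3F hG huV hc hN hcl hOK hg h0 3 2 4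
      (by decide) (by decide)
    have hcne : ∀ {i j : Fin 5}, i ≠ j → c i ≠ c j := fun hij h => hij (hc h)
    have huv : ∀ P, IsPth (del G {u}) (c 0) (c 1) P → u ∉ vs P := fun P hP => by
      have := (DL.isPth_del.1 hP).2
      rwa [disjoint_singleton_right] at this
    have hcyc : ∀ (k : Fin 5), k ≠ 0 → k ≠ 1 → ∀ P, IsPth (del G {u}) (c 0) (c 1) P →
        IsCyc (dst G u {c k}) (cy u (c 0) (c 1) P) := by
      intro k hk0 hk1 P hP
      refine hDST.cyc (isCyc_of_isPth_del (huc 0) (huc 1) n01 hP) fun p hp => ?_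
      rw [mem_singleton] at hp
      subst hp
      exact notMem_cy (huv P hP) (hcne hk0) (hcne hk1)
    have hε : ε = 0 := by
      refine eps_zero (G := G) (u := u) (a := c 0) (b := c 1) (r := c 3) (s := c 4) (p := c 2)
        (q := c 4) (F := g) (w0 := w0) (w0' := w0') (ε' := ε') (w := w) (w' := w') ?_ (huc 1)
        (hcl _ _ (by decide)) (hcl _ _ (by decide)) (hcl _ _ (by decide)) (hcl _ _ (by decide))
        (hcl _ _ (by decide)) (huc 2).ne' (huc 4).ne' (hcne (by decide)) (hcne (by decide))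
        (hcne (by decide)) (hcne (by decide)) ?_ ?_
      · simp only [List.nodup_cons, List.mem_cons, List.not_mem_nil, or_false, not_or,
          List.nodup_nil, and_true, not_false_eq_true]
        exact ⟨⟨(huc 0).ne, (huc 1).ne, (huc 3).ne, (huc 4).ne⟩, ⟨n01, hcne (by decide),
          hcne (by decide)⟩, ⟨hcne (by decide), hcne (by decide)⟩, hcne (by decide)⟩
      · intro P hP
        rw [hw _ (hcyc 2 (by decide) (by decide) P hP), chi_cy_left, chi_cy_right, one_mul,
          one_mul]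
      · intro P hP
        rw [hw' _ (hcyc 3 (by decide) (by decide) P hP), chi_cy_left, chi_cy_right, one_mul,
          one_mul]
    have hfin : ∀ C, IsCyc G C →
        f C = chi C s(u, c 0) * chi C s(u, c 1) * (w0 + ∑ h ∈ C, w h) + φ C := by
      intro C hC
      have h1 : g C = chi C s(u, c 0) * chi C s(u, c 1) * (w0 + ∑ h ∈ C, w h) := by
        by_cases hC0 : s(u, c 0) ∈ C
        · by_cases hC1 : s(u, c 1) ∈ C
          · have hC2 : s(u, c 2) ∉ C := by
              intro h2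
              rcases hC.eq_or_eq hC0 hC1 n01 h2 with h | h
              · exact hcne (by decide) h
              · exact hcne (by decide) h
            rw [hw C (hDST.cyc hC (by simpa using hC2)), hε, zero_mul, add_zero]
          · rw [h0 C hC (Or.inr hC1), chi_of_notMem hC1, mul_zero, zero_mul]
        · rw [h0 C hC (Or.inl hC0), chi_of_notMem hC0, zero_mul, zero_mul]
      rw [← h1, hgdef]
      simp only
      rw [add_assoc, zmod2_add_self, add_zero]
    exact hGLU.congr hfin (hGLU.add (hGLU.quad G _ _ w0 w) (hφ G))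
  · -- `KZ G`
    have hVSJ : VS (del G {u}) = VS G \ {u} := hG.VS_del (by simp)
    refine hKST hJ c hc (fun i => ⟨huc i, ?_⟩) ?_ ?_
    · rw [hVSJ, mem_sdiff, mem_singleton]
      exact ⟨right_mem_VS (huc i), (huc i).ne'⟩
    · rw [← hDST.one]; exact hKZ0
    · rw [← hDST.one]; exact hKZ1

end DL
end

section
/-!
# MP_3ff0f8_gt, ALGEBRA HALF: module S1M (assembly of EXIST section 1)
-/
open SimpleGraph Finset

namespace DL

theorem specS1M (hS1P : SpecS1P) (hS1N : SpecS1N) (hS1G : SpecS1G) (hS1F : SpecS1F) (hS1C : SpecS1C)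
    (hS1K : SpecS1K) : SpecS1M := by
  classical
  intro hRNA α _ _ G hK hNP hIH
  by_cases hcon : ∀ u ∈ VS G, Rig G u → dg G u = 4 ∧ ¬ NP (del G {u})
  · exact Or.inl ⟨hK, hNP, hIH, hcon⟩
  right
  push Not at hcon
  obtain ⟨u, hu, hR, h⟩ := hcon
  have hdeg : 4 ≤ dg G u := by
    refine (hK.1.le_nbs hu).trans (card_le_card ?_)
    intro w hw
    rw [mem_nbs] at hw
    simp only [NB, mem_filter, mem_univ, true_and, mem_singleton, exists_eq_left]
    exact ⟨hw.ne', hw⟩
  rcases Nat.eq_or_lt_of_le hdeg with h4 | h5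
  · exact hRNA hK hNP hIH hu hR h4.symm (h h4.symm)
  by_cases hpl : NP (del G {u})
  swap
  · exact hS1N hK hNP hIH hu hR h5 hpl
  rcases Nat.eq_or_lt_of_le h5 with h5' | h6
  swap
  · exact hS1G hK hIH hu hR h6 hpl
  by_cases hv : ∃ v, G.Adj u v ∧ dg G v = 4 ∧ ∀ w, G.Adj v w → w = u ∨ G.Adj u w
  · obtain ⟨v, huv, hv4, hvN⟩ := hv
    obtain ⟨h1, h2, h3⟩ := hS1P hK hR hu hpl huv hvN
    exact hRNA hK hNP hIH h1 h2 hv4 h3
  · have hv' : ∀ v, G.Adj u v → dg G v = 4 → ¬ ∀ w, G.Adj v w → w = u ∨ G.Adj u w :=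
      fun v h1 h2 h3 => hv ⟨v, h1, h2, h3⟩
    rcases hS1F hK hIH hu hR h5'.symm hpl hv' with h1 | ⟨c, hc, hcN, h1 | ⟨w, hw, h1⟩⟩
    · exact h1
    · exact hS1K c hK hIH hu hR hpl hc hcN h1
    · exact hS1C c w hK hIH hu hR hpl hc hcN hw h1

end DL
end

section
/-!
# MP_3ff0f8_gt, ALGEBRA HALF: module S1N
-/
open SimpleGraph Finset

namespace DL

namespace S1NM

variable {α : Type} [Fintype α] [DecidableEq α] {G : SimpleGraph α}

theorem mem_NB1 {u w : α} : w ∈ NB G {u} ↔ G.Adj u w := by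
  classical
  simp only [NB, mem_filter, mem_univ, true_and, mem_singleton, exists_eq_left, and_iff_right_iff_imp]
  rintro h rfl
  exact h.ne rfl

/-- a vertex of degree 4 with three given neighbours -/
theorem fourth {v a b c : α} (h4 : dg G v = 4) (hab : a ≠ b) (hac : a ≠ c) (hbc : b ≠ c)
    (ha : G.Adj v a) (hb : G.Adj v b) (hc : G.Adj v c) :
    ∃ z, ∀ x, G.Adj v x → x = a ∨ x = b ∨ x = c ∨ x = z := by
  classical
  have h1 : ({a, b, c} : Finset α) ⊆ NB G {v} := by
    intro x hx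
    simp only [mem_insert, mem_singleton] at hx
    rw [mem_NB1]
    rcases hx with rfl | rfl | rfl <;> assumption
  have h2 : ({a, b, c} : Finset α).card = 3 := by
    rw [card_insert_of_notMem (by simp [hab, hac]), card_pair hbc]
  have h3 : (NB G {v} \ {a, b, c}).card = 1 := by
    rw [card_sdiff_of_subset h1, h2]
    unfold dg at h4
    rw [h4]
  obtain ⟨z, hz⟩ := card_eq_one.1 h3
  refine ⟨z, fun x hx => ?_⟩
  by_contra hcon
  push Not at hcon
  have h4 : x ∈ NB G {v} \ {a, b, c} := by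
    rw [mem_sdiff, mem_NB1]
    refine ⟨hx, ?_⟩
    simp only [mem_insert, mem_singleton]
    tauto
  rw [hz, mem_singleton] at h4
  exact hcon.2.2.2 h4

end S1NM

open S1NM

theorem specS1N (hNCG : SpecNCG) (hNCN : SpecNCN) (hGMC : SpecGMC) (hCRL : SpecCRL) (hDL5 : SpecDL5)
    (hDST : SpecDST) : SpecS1N := by
  classical
  intro α _ _ G u hK hNP hIH hu hR h5 hpl
  obtain ⟨w, w', Z, hG⟩ := hNCG hK hR hu hNP hpl
  have hnadj : ¬ G.Adj w w' := hNCN.nadj hpl hG
  obtain ⟨huw, huw', hww', -⟩ := id hG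
  have hcard : 3 ≤ (NB G {u} \ {w, w'}).card := by
    have h1 : ({w, w'} : Finset α) ⊆ NB G {u} := by
      intro x hx
      simp only [mem_insert, mem_singleton] at hx
      rw [mem_NB1]
      rcases hx with rfl | rfl <;> assumption
    rw [card_sdiff_of_subset h1, card_pair hww']
    unfold dg at h5
    omega
  obtain ⟨T, hT, hT3⟩ := exists_subset_card_eq hcard
  obtain ⟨a, b, c, hab, hac, hbc, rfl⟩ := card_eq_three.1 hT3
  have hmem : ∀ x, x = a ∨ x = b ∨ x = c → G.Adj u x ∧ x ≠ w ∧ x ≠ w' := by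
    intro x hx
    have h1 := hT (by simpa using hx : x ∈ ({a, b, c} : Finset α))
    rw [mem_sdiff, mem_NB1] at h1
    simp only [mem_insert, mem_singleton, not_or] at h1
    exact ⟨h1.1, h1.2.1, h1.2.2⟩
  obtain ⟨ha, haw, haw'⟩ := hmem a (Or.inl rfl)
  obtain ⟨hb, hbw, hbw'⟩ := hmem b (Or.inr (Or.inl rfl))
  obtain ⟨hc, hcw, hcw'⟩ := hmem c (Or.inr (Or.inr rfl))
  have key : ∀ (P : Finset α) (z : α), (∀ p ∈ P, p = a ∨ p = b ∨ p = c) → z ∉ P →
      (z = a ∨ z = b ∨ z = c) → C1 (dst G u P) ∧ NP (dst G u P) := by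
    intro P z hP hzP hz
    obtain ⟨hz1, hz2, hz3⟩ := hmem z hz
    have hwP : w ∉ P := fun h => (hmem w (hP w h)).2.1 rfl
    have hwP' : w' ∉ P := fun h => (hmem w' (hP w' h)).2.2 rfl
    refine ⟨hCRL.rig hK hR hww' (Ne.symm hz2) (Ne.symm hz3) ?_ ?_, hGMC.dst hG hwP hwP'⟩
    · rintro x (rfl | rfl | rfl)
      · exact ⟨huw, hwP⟩
      · exact ⟨huw', hwP'⟩
      · exact ⟨hz1, hzP⟩
    · intro v huv hv4
      by_cases h1 : w ≠ v ∧ ¬ G.Adj v w
      · exact ⟨w, huw, h1.1, h1.2, hwP⟩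
      by_cases h2 : w' ≠ v ∧ ¬ G.Adj v w'
      · exact ⟨w', huw', h2.1, h2.2, hwP'⟩
      exfalso
      rw [not_and_or, not_not, not_not] at h1 h2
      have h3 : G.Adj v w := by
        rcases h1 with rfl | h1
        · rcases h2 with h2 | h2
          · exact absurd h2.symm hww'
          · exact absurd h2 hnadj
        · exact h1
      have h4 : G.Adj v w' := by
        rcases h2 with rfl | h2
        · exact absurd h3.symm hnadj
        · exact h2
      obtain ⟨x, hx⟩ := fourth hv4 huw.ne huw'.ne hww' huv.symm h3 h4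
      exact hGMC.deg hpl hG huv.ne' h3.symm h4.symm hx
  refine hDL5 (u := u) (a := a) (b := b) (c := c) (r := w) (s := w') hK hIH ?_ ?_ (Or.inl hnadj) ?_ ?_
  · simp only [List.nodup_cons, List.mem_cons, List.not_mem_nil, or_false, not_or, not_false_eq_true,
      List.nodup_nil, and_true]
    exact ⟨⟨hab, hac, haw, haw'⟩, ⟨hbc, hbw, hbw'⟩, ⟨hcw, hcw'⟩, hww'⟩
  · intro x hx
    simp only [mem_insert, mem_singleton] at hx
    rcases hx with rfl | rfl | rfl | rfl | rfl <;> assumption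
  · rintro P (rfl | rfl | rfl | rfl | rfl)
    · exact key {a} b (by simp) (by simp [hab.symm]) (by simp)
    · exact key {b} a (by simp) (by simp [hab]) (by simp)
    · exact key {c} a (by simp) (by simp [hac]) (by simp)
    · exact key {a, b} c (by simp) (by simp [hac.symm, hbc.symm]) (by simp)
    · exact key {a, c} b (by simp) (by simp [hab.symm, hbc]) (by simp)
  · obtain ⟨h1, h2⟩ := key {b, c} a (by simp) (by simp [hab, hac]) (by simp)
    exact (hIH _ (hDST.sz4 hb (by simp)) h1 h2).2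

end DL
end

section
/-!
# MP_3ff0f8_gt, ALGEBRA HALF: module S1P
-/
open SimpleGraph Finset

namespace DL

theorem specS1P (hNPC : SpecNPC) (hISO : SpecISO) : SpecS1P := by
  classical
  intro α _ _ G u v hK hR hu hNP huv hN
  refine ⟨right_mem_VS huv, ?_, ?_⟩
  · intro S P Q hs hS hv
    by_contra hcon
    push Not at hcon
    obtain ⟨hP, hQ⟩ := hcon
    have hPne : P.Nonempty := card_pos.1 (by omega)
    have hQne : Q.Nonempty := card_pos.1 (by omega)
    obtain ⟨p, hp, hvp⟩ := hK.1.exists_adj_of_sep hs hPne hS.le hv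
    obtain ⟨q, hq, hvq⟩ := hK.1.exists_adj_of_sep hs.symm hQne hS.le hv
    have hno := hs.2.2.2.2
    have huP : u ∉ P := by
      intro h
      rcases hN q hvq with h1 | h1
      · subst h1
        exact disjoint_left.1 hs.2.2.2.1 h hq
      · exact hno u h q hq h1
    have huQ : u ∉ Q := by
      intro h
      rcases hN p hvp with h1 | h1
      · subst h1
        exact disjoint_left.1 hs.2.2.2.1 hp h
      · exact hno p hp u h h1.symm
    have huS : u ∈ S := by
      have h1 : u ∈ S ∪ P ∪ Q := by rw [hs.1]; exact hu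
      rw [mem_union, mem_union] at h1
      tauto
    have := hR S P Q hs hS huS
    omega
  · have h1 := hISO.np (Equiv.swap u v).toEmbedding (del G {u}) hNP
    refine hNPC.mono ?_ h1
    intro x y hxy
    have h2 : (del G {u}).Adj (Equiv.swap u v x) (Equiv.swap u v y) := by
      have h3 := (map_equiv_adj (Equiv.swap u v) (del G {u}) x y).1 hxy
      rwa [Equiv.symm_swap] at h3
    obtain ⟨h3, h4, h5⟩ := h2
    rw [mem_singleton] at h4 h5
    have hxv : x ≠ v := by
      rintro rfl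
      exact h4 (Equiv.swap_apply_right _ _)
    have hyv : y ≠ v := by
      rintro rfl
      exact h5 (Equiv.swap_apply_right _ _)
    refine ⟨?_, by rwa [mem_singleton], by rwa [mem_singleton]⟩
    by_cases hx : x = u
    · subst hx
      have hy : y ≠ x := by
        rintro rfl
        exact h3.ne rfl
      rw [Equiv.swap_apply_left, Equiv.swap_apply_of_ne_of_ne hy hyv] at h3
      rcases hN y h3 with h6 | h6
      · exact absurd h6 hy
      · exact h6
    · rw [Equiv.swap_apply_of_ne_of_ne hx hxv] at h3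
      by_cases hy : y = u
      · subst hy
        rw [Equiv.swap_apply_left] at h3
        rcases hN x h3.symm with h6 | h6
        · exact absurd h6 hx
        · exact h6.symm
      · rwa [Equiv.swap_apply_of_ne_of_ne hy hyv] at h3

end DL
end
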