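import Pool.Agent.DL.E.Spec0
import Pool.Agent.DL.E.E5T
import Pool.Agent.DL.G4.Spec

/-!
# MP_3ff0f8_gt, ALGEBRA HALF, EXIST section 2, part A (helper61): (3,3)-pairs, facts, cases 2.2 and 2.4

Module `XXX` = file `DL/E/XXX.lean`, theorem `specXXX (hYYY : SpecYYY) … : SpecXXX`; the hypotheses may be any other Specs
named in the docstring (also of DL/EX, DL/K, DL/NP, DL/G4, DL/E); own lemmas in the namespace `DL.XXXM`.
Setting: `K48 G`, `P33 G x y s₁ s₂ s₃ s₄`: `N(x) = {y, s₂, s₃, s₄}`, `N(y) = {x, s₁, s₃, s₄}`, `H = del G {x, y}`.  SYMMETRIES: `P33.sym1` (exchange `x, y` and `s₁, s₂`),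
`P33.sym2` (exchange `s₃, s₄`): every Spec may be used in the symmetric forms.  SpecC20: `G` minus `{x, y, s_i, s_j}`, minus `{x, y, s₁, s₂, s_i}`, `{x, y, s₁, s₃, s₄}`,
`{x, y, s₂, s₃, s₄}` is connected; `contr G x s₂`, `contr G y s₁ ∈ C1`; they are nonplanar (F1N).  FEW = FRG.few (a nonempty set `D` of vertices with at most three
neighbours and with a vertex outside `D ∪ N(D)` does not exist).
-/

open SimpleGraph Finset

namespace DL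

theorem P33.sym1 {α : Type} {G : SimpleGraph α} {x y s₁ s₂ s₃ s₄ : α} (h : P33 G x y s₁ s₂ s₃ s₄) :
    P33 G y x s₂ s₁ s₃ s₄ where
  nd := by
    have := h.nd
    simp only [List.nodup_cons, List.mem_cons, List.not_mem_nil, or_false, not_or, List.nodup_nil, and_true,
      not_false_eq_true] at this ⊢
    grind
  nx := h.ny
  ny := h.nx

theorem P33.sym2 {α : Type} {G : SimpleGraph α} {x y s₁ s₂ s₃ s₄ : α} (h : P33 G x y s₁ s₂ s₃ s₄) :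
    P33 G x y s₁ s₂ s₄ s₃ where
  nd := by
    have := h.nd
    simp only [List.nodup_cons, List.mem_cons, List.not_mem_nil, or_false, not_or, List.nodup_nil, and_true,
      not_false_eq_true] at this ⊢
    grind
  nx w := by rw [h.nx]; tauto
  ny w := by rw [h.ny]; tauto

/-! ## A. Facts -/

/-- **XCB** (from FRG; 80 lines).  A neighbour outside.  If `N(s₃) ⊆ {x, y, s₁, s₂, s₄}` then `NB G {x, y, s₃} ⊆ {s₁, s₂, s₄}`: FEW (`n ≥ 8`).  If `N(s₂) ⊆ {x, s₁, s₃, s₄}` (`y ≁ s₂`) then `NB G {x, y, s₂} ⊆ {s₁, s₃, s₄}`: FEW. -/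
structure SpecXCB : Prop where
  s3 : ∀ {α : Type} [Fintype α] [DecidableEq α] {G : SimpleGraph α} {x y s₁ s₂ s₃ s₄ : α}, K48 G →
    P33 G x y s₁ s₂ s₃ s₄ → ∃ w, G.Adj s₃ w ∧ w ∉ ({x, y, s₁, s₂, s₄} : Finset α)
  s2 : ∀ {α : Type} [Fintype α] [DecidableEq α] {G : SimpleGraph α} {x y s₁ s₂ s₃ s₄ : α}, K48 G →
    P33 G x y s₁ s₂ s₃ s₄ → ∃ w, G.Adj s₂ w ∧ w ∉ ({x, y, s₁, s₃, s₄} : Finset α)

/-- **XCC** (from F1N, NPC, FRG, KC; 200 lines).  `h = s₂s₃` an edge.  `np`: `contr (delE G s₂ s₃) x s₂ = contr G x s₂` (because `x ~ s₃`); F1N, NPC.up.  `c1`: `delE G s₂ s₃` is 3-connected (an edge of a 4-connected graph; KC).  Let `(W, P, Q)` be a separation of it, `|W| = 3`, `|P|, |Q| ≥ 2`.  It is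
no separation of `G`, so (names of the sides) `s₂ ∈ P`, `s₃ ∈ Q`.  `x ~ s₂, s₃`: `x ∈ W`.  `y ~ s₃`: `y ∉ P`.  `y ∈ Q`: `s₄ ∉ P`, so `x` and `y` have in `P` at most the neighbour `s₂`: `NB G (P - s₂) ⊆ {s₂} ∪ (W - x)`: `P = {s₂}` by FEW.  `y ∈ W = {x, y, q}`: if `s₄ ∉ P`: `NB G (P - s₂) ⊆ {s₂, y, q}`: `P = {s₂}`.  If `s₄ ∈ P`: `x`
has in `Q` only `s₃`: `NB G (Q - s₃) ⊆ {s₃, y, q}`: `Q = {s₃}`. -/
structure SpecXCC : Prop where
  c1 : ∀ {α : Type} [Fintype α] [DecidableEq α] {G : SimpleGraph α} {x y s₁ s₂ s₃ s₄ : α}, K48 G →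
    P33 G x y s₁ s₂ s₃ s₄ → G.Adj s₂ s₃ → C1 (delE G s₂ s₃)
  np : ∀ {α : Type} [Fintype α] [DecidableEq α] {G : SimpleGraph α} {x y s₁ s₂ s₃ s₄ : α}, K48 G →
    P33 G x y s₁ s₂ s₃ s₄ → G.Adj s₂ s₃ → NP G → NP (delE G s₂ s₃)

/-- **XC3** (from KC; 200 lines).  Contraction of an edge of a graph `R ∈ C1` (not necessarily 4-connected).  `VS (contr R a b) = VS R - b` (degrees `≥ 3`).  A separation `(S, P, Q)` of `contr R a b` with `P`, `Q` nonempty and `|S| ≤ 2`, or with `|S| = 3`, `|P|, |Q| ≥ 2`: if `a ∉ S`, say `a ∈ P`, then `(S, insert b P, Q)` is a separation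
of `R`: no (3-connected; C1).  If `a ∈ S` then `(insert b S, P, Q)` is a separation of `R` of order `≤ 2`: no; 3: `h3`; 4: `h4`.  `cm`: commutation; `cc` as well. -/
structure SpecXC3 : Prop where
  c1 : ∀ {α : Type} [Fintype α] [DecidableEq α] {R : SimpleGraph α} {a b : α}, C1 R → 6 ≤ (VS R).card → R.Adj a b →
    (∀ T P Q, Sep R T P Q → T.card = 3 → a ∈ T → b ∈ T → P = ∅ ∨ Q = ∅) →
    (∀ T P Q, Sep R T P Q → T.card = 4 → a ∈ T → b ∈ T → P.card ≤ 1 ∨ Q.card ≤ 1) → C1 (contr R a b)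
  vs : ∀ {α : Type} [Fintype α] [DecidableEq α] {R : SimpleGraph α} {a b : α}, KConn 3 R → R.Adj a b →
    VS (contr R a b) = (VS R).erase b
  cm : ∀ {α : Type} [DecidableEq α] {G : SimpleGraph α} {a b c d : α}, a ≠ c → a ≠ d → b ≠ c → b ≠ d →
    contr (delE G c d) a b = delE (contr G a b) c d
  cc : ∀ {α : Type} [DecidableEq α] {G : SimpleGraph α} {a b c d : α}, a ≠ c → a ≠ d → b ≠ c → b ≠ d → c ≠ d → a ≠ b →
    contr (contr G a b) c d = contr (contr G c d) a b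

/-- **XCD** (from XC3, XCB, XCC, C20, FRG, KC; 200 lines).  `R = delE G s₂ s₃`, `contr R y s₁ ∈ C1`.  `R ∈ C1` (XCC).  Let `(T, P, Q)` be a separation of `R`, `y, s₁ ∈ T`, `P`, `Q` nonempty.  (4) `|T| = 4`, `|P|, |Q| ≥ 2`: if it is a separation of `G` it is a nontrivial 4-cut containing `y` and `s₁`: `(T - s₁, P, Q)` is a separation of `contr G y s₁` with two sides
`≥ 2`, contradiction to C20.c1.  Otherwise `s₂ ∈ P`, `s₃ ∈ Q` (names), `x ~ s₂, s₃`: `x ∈ T = {y, s₁, x, q}`.  If `s₄ ∉ P`: `x`, `y` have in `P` at most `s₂`: `NB G (P - s₂) ⊆ {s₂, s₁, q}`: `P = {s₂}`.  If `s₄ ∈ P`: `x`, `y` have in `Q` only `s₃`: `NB G (Q - s₃) ⊆ {s₃, s₁, q}`: `Q = {s₃}`.  (3) `|T| = 3`: no separation of `G` (4-connected), so `s₂ ∈ P`, `s₃ ∈ Q`, `T =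
{y, s₁, x}`; `R ∈ C1`: `P = {s₂}`: `N(s₂) ⊆ {s₁, x, s₃}`: no; `Q = {s₃}`: `N(s₃) ⊆ {x, y, s₁, s₂}`: XCB. -/
def SpecXCD : Prop := ∀ {α : Type} [Fintype α] [DecidableEq α] {G : SimpleGraph α} {x y s₁ s₂ s₃ s₄ : α}, K48 G →
  P33 G x y s₁ s₂ s₃ s₄ → G.Adj s₂ s₃ → C1 (contr (delE G s₂ s₃) y s₁)

/-- **XCE** (from XCC, VKA, NPC, KUR, TRC, C20, FRG, KC; 250 lines).  `contr R y s₁` is nonplanar, `R = delE G s₂ s₃`.  `R` is nonplanar (XCC.np): `z ∈ Z_2(R)`, `vk z ≠ 0`.  For `k = 3, 4` the trace of the row `ys_k` at `s₁` is even and has no edge at `x`, `y`, `s_k`; `R - {x, y, s_k, s₁}` is connected [`k = 3`: C20.two; `k = 4`: C20.two, and if `s₂s₃` were a bridge of `G - {x, y, s₁, s₄}`, sides `P ∋ s₂`, `Q ∋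
s₃`: `NB G (P - s₂) ⊆ {s₂, s₁, s₄}`, `P = {s₂}`, `N(s₂) ⊆ {x, s₁, s₃, s₄}`, then `NB G {x, y, s₂} ⊆ {s₁, s₃, s₄}`: FEW].  TRC gives `Z_k ∈ Z1 (R - {x, y, s_k})` with this trace; add the tori `tor (tri x y s_k) Z_k` (as in F1N).  Now the rows `ys₃`, `ys₄` are `0` at `s₁`, and by the boundary at `y` of the row of an edge at `s₁` the row `yx` too: `Zab
y s₁`; NPC.down. -/
def SpecXCE : Prop := ∀ {α : Type} [Fintype α] [DecidableEq α] {G : SimpleGraph α} {x y s₁ s₂ s₃ s₄ : α}, K48 G →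
  P33 G x y s₁ s₂ s₃ s₄ → G.Adj s₂ s₃ → NP G → NP (contr (delE G s₂ s₃) y s₁)

/-! ## B. Gluing with a contraction -/

/-- **XE2** (from EXM, TRA, GLU, POL, PC; 200 lines).  EXM gives `φ C = Σ ν u v (x_{au} x_{bv} + coh u a b v) + ρ + cnp` on the cycles of `R`; `ψ` := the right-hand side.  It is in `F` of every graph.  On a cycle `C` which contains `ab` if it passes through `a` and `b`: if `au, bv ∈ C` then `ab ∈ C`, `coh u a b v C = 1` (`u ≠ b`, `v ≠ a`); otherwise both terms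
are `0`.  `C` has at most two edges in `sab R a b`: `ρ = 0` (TRA.two).  If `aw, bw ∈ C` then `ab ∈ C` and `C` is the triangle, all its edges are at `a` or `b`: `cnp = 0`. -/
def SpecXE2 : Prop := ∀ {α : Type} [Fintype α] [DecidableEq α] {R : SimpleGraph α} {a b : α}, R.Adj a b →
  KConn 3 (contr R a b) → KZ (contr R a b) → (∀ w, R.Adj a w → R.Adj b w → S3S (delE (contr R a b) a w)) →
  ∀ φ : Finset (Sym2 α) → ZMod 2, InF R φ → (∀ C, CycM R a b C → φ C = 0) →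
  ∃ ψ : Finset (Sym2 α) → ZMod 2, (∀ G' : SimpleGraph α, InF G' ψ) ∧
    (∀ (G' : SimpleGraph α) (C : Finset (Sym2 α)), CycM G' a b C → ψ C = 0) ∧ ∀ C, IsCyc R C → φ C = ψ C

/-- what is known after gluing in 2.2, 2.4 -/
structure KF {α : Type} [Fintype α] [DecidableEq α] (G : SimpleGraph α) (x y s₁ s₂ s₃ s₄ : α)
    (f : Finset (Sym2 α) → ZMod 2) : Prop where
  k48 : K48 G
  p33 : P33 G x y s₁ s₂ s₃ s₄
  h : G.Adj s₂ s₃
  ev : D4even G f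
  zh : ∀ C, IsCyc G C → s(s₂, s₃) ∉ C → f C = 0
  ze : ∀ C, CycM G y s₁ C → f C = 0

/-- `A` a path from `p` to `s₁`, `B` a path from `s₁` to `s₄`, disjoint except for `s₁`, without `x`, `y`, `t` -/
structure PP {α : Type} [Fintype α] [DecidableEq α] (G : SimpleGraph α) (x y t p s₁ s₄ : α)
    (A B : Finset (Sym2 α)) : Prop where
  a : IsPth (del G {x, y, t}) p s₁ A
  b : IsPth (del G {x, y, t}) s₁ s₄ B
  d : vs A ∩ vs B ⊆ {s₁}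

/-- `s₄ x y s₃ s₂ A s₁ B s₄` -/
def cy1 {α : Type} [DecidableEq α] (x y s₂ s₃ s₄ : α) (A B : Finset (Sym2 α)) : Finset (Sym2 α) :=
  {s(s₄, x), s(x, y), s(y, s₃), s(s₃, s₂)} ∪ A ∪ B

/-- `s₄ y x s₃ s₂ A s₁ B s₄` -/
def cy2 {α : Type} [DecidableEq α] (x y s₂ s₃ s₄ : α) (A B : Finset (Sym2 α)) : Finset (Sym2 α) :=
  {s(s₄, y), s(y, x), s(x, s₃), s(s₃, s₂)} ∪ A ∪ B

/-- `s₄ y s₃ s₂ A s₁ B s₄` -/
def cy3 {α : Type} [DecidableEq α] (y s₂ s₃ s₄ : α) (A B : Finset (Sym2 α)) : Finset (Sym2 α) :=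
  {s(s₄, y), s(y, s₃), s(s₃, s₂)} ∪ A ∪ B

/-- **XLC** (from PC, PC2; 250 lines).  Classification of the remaining cycles.  `C` contains `h = s₂s₃`, `y`, `s₁`, not `ys₁`.  `y` has two of the edges `yx, ys₃, ys₄`.  (I) `xy ∈ C`: `C` contains `s_j y x s_k`, `j ∈ {3, 4}`, `k ∈ {2, 3, 4}`; `j = k`: `C` is a triangle without `h`; `(3, 2)`: `C` is the 4-cycle `s₃ y x s₂`, without `s₁`; `(3, 4)`: the
second edge of `C` at `s₃` is `h`, the rest is a path from `s₂` to `s₄` without `x, y, s₃`, through `s₁`: `cy1`; `(4, 3)`: `cy2`; `(4, 2)`: the second edge at `s₂` is `h`, the rest is a path from `s₃` to `s₄` without `x, y, s₂`: last alternative (`cy2` with `s₂`, `s₃` exchanged).  (II) `xy ∉ C`: `ys₃, ys₄ ∈ C`; if `x ∈ C` its edges are `xs₂`, `xs₄` (`s₃` has the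
edges `ys₃`, `h`): `C` is the 5-cycle `s₄ y s₃ s₂ x` without `s₁`; so `x ∉ C`: `cy3`. -/
def SpecXLC : Prop := ∀ {α : Type} [Fintype α] [DecidableEq α] {G : SimpleGraph α} {x y s₁ s₂ s₃ s₄ : α}
  {C : Finset (Sym2 α)}, P33 G x y s₁ s₂ s₃ s₄ → IsCyc G C → s(s₂, s₃) ∈ C → y ∈ vs C → s₁ ∈ vs C → s(y, s₁) ∉ C →
  (∃ A B, PP G x y s₃ s₂ s₁ s₄ A B ∧ (C = cy1 x y s₂ s₃ s₄ A B ∨ C = cy2 x y s₂ s₃ s₄ A B ∨ C = cy3 y s₂ s₃ s₄ A B)) ∨
    ∃ A B, PP G x y s₂ s₃ s₁ s₄ A B ∧ C = cy2 x y s₃ s₂ s₄ A B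

/-- **XL1** (from C20, TRE, DCB, MENG, PC2; 400 lines).  (K1), (K1').  `a`: `B` is not the edge `s₁s₄`, so it has an inner vertex.  `G - {x, y, s₁, s₃, s₄}` is connected (C20.three): a path from an inner vertex of `B` to `s₂`; take its last vertex `p` among the inner vertices of `B` and then the first vertex `q ∈ insert s₂ (vs A)`, `q ≠ s₁`: `r` from `p` to `q`, no inner
vertex on `A` or `B`.  `A = A₁ A₂` (`s₂ → q → s₁`), `B = B₁ B₂` (`s₁ → p → s₄`); `r'`, `a'`, `b'` = neighbours of `q` on `r`, of `q` on `A₂`, of `p` on `B₂` (they may be `p`, `s₁`, `s₄`).  `D_4` minor, all four trees are paths: `X 0 = {x, s₃}` with the edge `xs₃`; `X 1 =` the path `A₁`; `X 2 =` the path `r' … p … s₁ … a'` (`r`, `B₁`, `A₂` without the edges at `q`); `X 3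
=` the path `y s₄ … b'`.  Beads: `xs₂ | s₃s₂`; `qr' | qa'`; `pb' | s₁y`; `yx | s₄x`.  The 16 cycles: with `xs₂`: no edge `s₂s₃` (`zh`); with `s₁y`: in CycM (`ze`); with `qr'` and `pb'`: not through `s₁` (`ze`); with `s₄x` and `pb'`: not through `y` (`ze`).  Left: `s₃s₂, qa', pb', yx`: it is `cy2 … A B`.  `b`: the same with `s₂`, `s₃` exchanged (`X 0 =
{x, s₂}`, beads `xs₃ | s₂s₃`; `G - {x, y, s₁, s₂, s₄}` connected). -/
structure SpecXL1 : Prop where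
  a : ∀ {α : Type} [Fintype α] [DecidableEq α] {G : SimpleGraph α} {x y s₁ s₂ s₃ s₄ : α}
    {f : Finset (Sym2 α) → ZMod 2} {A B : Finset (Sym2 α)}, KF G x y s₁ s₂ s₃ s₄ f → PP G x y s₃ s₂ s₁ s₄ A B →
    B ≠ {s(s₁, s₄)} → f (cy2 x y s₂ s₃ s₄ A B) = 0
  b : ∀ {α : Type} [Fintype α] [DecidableEq α] {G : SimpleGraph α} {x y s₁ s₂ s₃ s₄ : α}
    {f : Finset (Sym2 α) → ZMod 2} {A B : Finset (Sym2 α)}, KF G x y s₁ s₂ s₃ s₄ f → PP G x y s₂ s₃ s₁ s₄ A B →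
    B ≠ {s(s₁, s₄)} → f (cy2 x y s₃ s₂ s₄ A B) = 0

/-- **XL2** (from C20, TRE, DCB, MENG, PC2; 300 lines).  (K2).  `G - {x, y, s₁, s₃}` is connected (C20.two): an ear `r` from `p ∈ vs B`, `p ≠ s₁` (perhaps `p = s₄`) to `q ∈ insert s₂ (vs A)`, `q ≠ s₁`, no inner vertex on `A`, `B`.  `A = A₁ A₂` (`s₂ → q → s₁`), `a'` = neighbour of `q` on `A₂`, `r'` = neighbour of `p` on `r` (perhaps `q`).  `D_4` minor, all trees are paths: `X 0 = {y}`; `X 1 = {x, s₃}` with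
the edge `xs₃`; `X 2 =` the path `r' … q … s₂` (`r` without its first edge, `A₁`); `X 3 =` the path `s₄ … s₁ … a'` (`B`, `A₂` without the edge `qa'`).  Beads: `yx | ys₃`; `xs₂ | s₃s₂`; `qa' | r'p`; `s₄y | s₁y`.  The 16 cycles: with `s₁y`: `ze`; with `r'p` and `s₄y`: not through `s₁` (`ze`); with `xs₂`: `zh`.  Left (`s₃s₂, qa', s₄y`): with `yx`: `cy2`; with `ys₃`: `cy3`. -/
def SpecXL2 : Prop := ∀ {α : Type} [Fintype α] [DecidableEq α] {G : SimpleGraph α} {x y s₁ s₂ s₃ s₄ : α}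
  {f : Finset (Sym2 α) → ZMod 2} {A B : Finset (Sym2 α)}, KF G x y s₁ s₂ s₃ s₄ f → PP G x y s₃ s₂ s₁ s₄ A B →
  f (cy2 x y s₂ s₃ s₄ A B) = f (cy3 y s₂ s₃ s₄ A B)

/-- **XTE** (from KC, MENG, PC; 150 lines).  The cycles through an edge `st` of a 2-connected graph span `Z1`.  A cycle `C` which does not contain `st`: two disjoint paths from `{s, t}` to `vs C` (one or both may be trivial; KConn.two_paths), ending in `c ≠ c'`; with the two arcs of `C` and the edge `st` they form two cycles through `st` with sum `chi C`.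
`Z1` is spanned by cycles (PC exists_decomp). -/
def SpecXTE : Prop := ∀ {α : Type} [Fintype α] [DecidableEq α] {N : SimpleGraph α} {s t : α}, KConn 2 N → N.Adj s t →
  ∀ a : Chain α, (∀ C, IsCyc N C → s(s, t) ∈ C → ∑ e ∈ C, a e = 0) → ∀ Z ∈ Z1 N, pr a Z = 0

/-- **XL3** (from D4C, RT1, XTE, C20, FRG, KC; 300 lines).  (K3).  For an `s₃`-`s₄` path `P` of `H` let `F P` be the sum of `f` over the four cycles `P ∪ {s₃x, xs₄}`, `P ∪ {s₃y, ys₄}`, `P ∪ {s₃x, xy, ys₄}`, `P ∪ {s₃y, yx, xs₄}`.  By D4C (`a = x`, `b = y`, the common neighbours `s₃`, `s₄`) the sum of `F` over the four paths of a chain of `H` is `0`: RT1: `F P = w0 + Σ_{h ∈ P} w h`.  `F P = 0` if `s(s₂,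
s₃) ∉ P` (`zh`) or `s₁ ∉ vs P` (`ze`).  Let `a := w` except `a (s₃s₄) := w0`, `N := delE H s₂ s₃ ⊔ fromEdgeSet {s(s₃, s₄)}`: for `P ≠ {s(s₃, s₄)}` `F P = Σ_{e ∈ insert s(s₃, s₄) P} a e`.  `N` is 2-connected: `H - z` is connected (`z` any vertex; `G` is 4-connected); if `N - z` is not, `s₂s₃` is a bridge of `H - z`, sides `P' ∋ s₂`, `Q' ∋ s₃`, `s₄ ∉ P'`, `NB G (P' - s₂) ⊆ {s₂, z, y}`: `P' =
{s₂}` (FEW), `N(s₂) ⊆ {z, s₃, x}`: no.  XTE: `a = 0` on `Z1 N`.  Let `P₀` be `s₃s₂` and a path from `s₂` to `s₄` in the connected graph `H - s₁ - s₃` (C20.two): `F P₀ = 0` (`ze`).  For `P = {s₃s₂} ∪ A ∪ B`: `chi P + chi P₀ ∈ Z1 N` (no edge `s₂s₃`), so `F P = F P₀ = 0`.  The first of the four cycles misses `y`: `0`; the others are `cy3`, `cy2`, `cy1`. -/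
def SpecXL3 : Prop := ∀ {α : Type} [Fintype α] [DecidableEq α] {G : SimpleGraph α} {x y s₁ s₂ s₃ s₄ : α}
  {f : Finset (Sym2 α) → ZMod 2} {A B : Finset (Sym2 α)}, KF G x y s₁ s₂ s₃ s₄ f → PP G x y s₃ s₂ s₁ s₄ A B →
  f (cy1 x y s₂ s₃ s₄ A B) = f (cy2 x y s₂ s₃ s₄ A B) + f (cy3 y s₂ s₃ s₄ A B)

/-- **XL4** (from C20, XCB, TRE, DCB, PC2; 400 lines).  (K4), `s₁ ~ s₄`.  (1) `f (cy2 … A {s₁s₄})` is the same for all paths `A` from `s₂` to `s₁` in `G - {x, y, s₃, s₄}`: `bead_moves`; one move: `A = A₁ ∪ R ∪ A₂`, `A* = A₁ ∪ R* ∪ A₂`, `A₁` from `s₂` to `b`, `R`, `R*` from `b` to `a`, `A₂` from `a` to `s₁`.  `r` = neighbour of `b` on `R`, `r*` = neighbour of `a` on `R*`.  `D_4` minor, trees = paths: `X 0 = {x, s₃}` (edge `xs₃`);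
`X 1 =` path `s₂ … b … r*` (`A₁`, `R*` without its last edge); `X 2 =` path `r … a … s₁` (`R` without its first edge, `A₂`); `X 3 = {y, s₄}` (edge `ys₄`).  Beads: `xs₂ | s₃s₂`; `br | r*a`; `s₁s₄ | s₁y`; `yx | s₄x`.  With `s₁y`: `ze`; with `s₁s₄`, `s₄x`: not through `y`; with `xs₂`: `zh`; left: `s₃s₂, s₁s₄, yx` with `br`, `r*a`: `cy2 … A`, `cy2 … A*`.
(2) In the same way `f (cy2 x y s₃ s₂ s₄ A {s₁s₄})` is constant for the paths `A` from `s₃` to `s₁` in `G - {x, y, s₂, s₄}` (`X 0 = {x, s₂}`, beads `xs₃ | s₂s₃`).  (3) The constants are equal: `K = G - {x, y, s₂, s₃, s₄}` is connected (C20.three) and contains `s₁`, a neighbour `k` of `s₂` and a neighbour `k'` of `s₃` (XCB).  Let `T` be a spanning tree of `K`.  `D_4` minor: `X 0 = {x}`;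
`X 1 = {s₂, s₃}` (edge `s₂s₃`); `X 2 = K` (tree `T`); `X 3 = {y, s₄}` (edge `ys₄`).  Beads: `xs₂ | xs₃`; `s₂k | s₃k'`; `s₁s₄ | s₁y`; `yx | s₄x`.  With `s₁y`: `ze`; with `s₁s₄`, `s₄x`: not through `y`; with `xs₂, s₂k` or `xs₃, s₃k'`: no edge `s₂s₃` (`zh`); left: `xs₃, s₂k` (a cycle of (1)) and `xs₂, s₃k'` (a cycle of (2)). -/
def SpecXL4 : Prop := ∀ {α : Type} [Fintype α] [DecidableEq α] {G : SimpleGraph α} {x y s₁ s₂ s₃ s₄ : α}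
  {f : Finset (Sym2 α) → ZMod 2}, KF G x y s₁ s₂ s₃ s₄ f → G.Adj s₁ s₄ →
  ∃ m : ZMod 2, (∀ A, IsPth (del G {x, y, s₃, s₄}) s₂ s₁ A → f (cy2 x y s₂ s₃ s₄ A {s(s₁, s₄)}) = m) ∧
    ∀ A, IsPth (del G {x, y, s₂, s₄}) s₃ s₁ A → f (cy2 x y s₃ s₂ s₄ A {s(s₁, s₄)}) = m

/-- **XLL** (from XLC, XL1, XL2, XL3, XL4; 200 lines).  Assembly.  If `s₁ ≁ s₄` put `m := 0`, otherwise XL4.  If `h = s₂s₃ ∉ C` both sides are `0`.  If `C ∈ CycM G y s₁`: `f C = 0`; if `ys₄, s₁s₄ ∈ C` then `ys₁ ∈ C`, `C` is the triangle, without `h`.  Otherwise XLC.  `cy2` (both kinds): if `B ≠ {s₁s₄}` then `f = 0` (XL1) and `s₁s₄ ∉ C` (a path from `s₁` to `s₄` which contains the edge `s₁s₄` is this edge);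
if `B = {s₁s₄}` then `s₄ ∉ vs A`: XL4.  `cy3`: XL2, contains `ys₄` and `h`.  `cy1`: XL3, XL2: `f = 0`; `ys₄ ∉ C`. -/
def SpecXLL : Prop := ∀ {α : Type} [Fintype α] [DecidableEq α] {G : SimpleGraph α} {x y s₁ s₂ s₃ s₄ : α}
  {f : Finset (Sym2 α) → ZMod 2}, KF G x y s₁ s₂ s₃ s₄ f →
  ∃ m : ZMod 2, ∀ C, IsCyc G C → f C = m * (chi C s(y, s₄) * chi C s(s₁, s₄) * chi C s(s₂, s₃))

/-! ## C. Cases 2.2 and 2.4 -/

/-- **XU2** (from ME, GLU, XE2, XLL, C20, F1N, XCC, XCD, XCE, XC3, DST; 200 lines).  `U G`.  `a = y`, `b = s₁`; the only possible common neighbour is `s₄` (`s₁ ≁ s₃`).  `f` `D_4`-even.  `contr G y s₁` is in C1 (C20), nonplanar (F1N for `P33.sym1`), smaller (DST.sz2): `U` by IH.  ME: `f = φ₁ ∈ F(G)` on the cycles of `CycM G y s₁`; `f₁ = f + φ₁`.  `R = delE G s₂ s₃`: C1, NP, `U R`: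
GLU.u: `f₁ = φ₂` on the cycles of `R`, `φ₂ ∈ F`; `φ₂ = 0` on `CycM R y s₁` (⊆ `CycM G y s₁`); XE2 for `R` (`contr R y s₁` in C1, NP: XCD, XCE, smaller): `ψ`.  `f₂ = f₁ + ψ` satisfies KF; XLL; the product of three coordinates is in `F(G)` (GLU.pol). -/
def SpecXU2 : Prop := ∀ {α : Type} [Fintype α] [DecidableEq α] {G : SimpleGraph α} {x y s₁ s₂ s₃ s₄ : α}, K48 G →
  NP G → IH G → P33 G x y s₁ s₂ s₃ s₄ → G.Adj s₂ s₃ → ¬ G.Adj s₁ s₃ →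
  (G.Adj s₁ s₄ → S3S (delE (contr G y s₁) y s₄) ∧ KZ (delE (contr G y s₁) y s₄) ∧
    S3S (delE (contr (delE G s₂ s₃) y s₁) y s₄)) → U G

/-- **XK2** (from KCD, C20, F1N, XCC, XCD, XC3, S3F, DST; 120 lines).  `KZ G`: KCD with `a = y`, `b = s₁`, `c = s₂`, `d = s₃`.  `KZ (contr G y s₁)`, `KZ (delE G s₂ s₃)` by IH; `delE (contr G y s₁) s₂ s₃ = contr (delE G s₂ s₃) y s₁` (XC3.cm) is 3-connected (XCD), so S3S; the common neighbour can only be `s₄`; `Z = tri x s₂ s₃ ∈ Z1 (G - {y, s₁, s₄})`. -/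
def SpecXK2 : Prop := ∀ {α : Type} [Fintype α] [DecidableEq α] {G : SimpleGraph α} {x y s₁ s₂ s₃ s₄ : α}, K48 G →
  NP G → IH G → P33 G x y s₁ s₂ s₃ s₄ → G.Adj s₂ s₃ → ¬ G.Adj s₁ s₃ →
  (G.Adj s₁ s₄ → S3S (delE (contr G y s₁) y s₄)) → KZ G

/-- **XC4** (from C1L, C20, XCB, XCD, XC3, KC; 200 lines).  2.4: `s₂ ~ s₃`, `s₁ ~ s₄`, `s₁ ≁ s₃`, `s₂ ≁ s₄`.  `S = contr G y s₁` and `S' = contr (delE G s₂ s₃) y s₁` are in C1 and have `n - 1 ≥ 7` vertices: C1L for the edge `ys₄`.  The vertex `y` has in both at least the neighbours `x, s₃, s₄` and two neighbours of `s₁` not in `{y, s₄, x, s₃}` (`s₁` has degree `≥ 4`, `s₁ ≁ x, s₃`), so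
the condition on `y` is vacuous.  `s₄`: neighbours `{p, q, y}` in `S` (or `S'`): `x` and a vertex `r ∉ {x, y, s₁, s₂, s₃}` (XCB for `P33.sym2`) are among them, so `{p, q} = {x, r}`; `x ≁ r`. -/
def SpecXC4 : Prop := ∀ {α : Type} [Fintype α] [DecidableEq α] {G : SimpleGraph α} {x y s₁ s₂ s₃ s₄ : α}, K48 G →
  P33 G x y s₁ s₂ s₃ s₄ → G.Adj s₂ s₃ → G.Adj s₁ s₄ → ¬ G.Adj s₁ s₃ → ¬ G.Adj s₂ s₄ →
  S3S (delE (contr G y s₁) y s₄) ∧ S3S (delE (contr (delE G s₂ s₃) y s₁) y s₄)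

/-- **XS4** (from C20, XCB, XC3, FRG, KC; 350 lines).  `N = delE S y s₄`, `S = contr G y s₁ ∈ C1`.  CLAIM: let `(W, P, Q)` be a separation of `N`, `P`, `Q` nonempty, `|W| ≤ 2`, or `|W| = 3` and `|P|, |Q| ≥ 2`.  Then (up to exchange of `P` and `Q`) `|W| ≤ 2`, `Q = {s₄}`.  Proof: it is no separation of `S`, so `y ∈ P`, `s₄ ∈ Q` (names); `x ~ y, s₄`: `x ∈ W`.  In `G` the only edges between
`P ∪ {s₁}` and `Q` are `ys₄`, `s₁s₄`.  If `x` has in `Q` no neighbour except `s₄`: `NB G (Q - s₄) ⊆ {s₄} ∪ (W - x)`: `Q = {s₄}` by FEW; this includes `|W| ≤ 2` (`NB G (Q - s₄) ⊆ {s₄} ∪ W`).  Otherwise `|W| = 3`; `s₃ ~ y` (in `N`), so `s₃ ∉ Q` and `s₂ ∈ Q`; `s₃ ~ s₂`: `s₃ ∈ W = {x, s₃, d}`; `NB G (P - y) ⊆ {s₁, s₃, d}` (`x`, `y` have no neighbours in `P - y`):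
`P = {y}`, contradiction.  So `|W| = 3` is impossible [`Q = {s₄}` has one element].  `c1`: if `s₄` has in `G` five neighbours then `Q = {s₄}`, `|W| ≤ 2` is impossible (`N(s₄) ⊆ W ∪ {y, s₁}`): `N ∈ C1`.  `sup`: `N(s₄) = {x, y, s₁, r}`: in `N` `s₄` has the neighbours `x`, `r` (not adjacent, `r ∉ {s₂, s₃}` by XCB).  `N⁰ = contr N x s₄ ∈ C1`: let `(W, P, Q)` be a separation of `N⁰` with `|W| ≤
2`, or `|W| = 3`, `|P|, |Q| ≥ 2`; `x ~ r` in `N⁰`, so (names) `x, r ∈ Q ∪ W`; `(W, P, insert s₄ Q)` is a separation of `N`.  By the CLAIM `|W| ≤ 2` and one of the sides is `{s₄}`: no (`Q`, `P` are not empty and do not contain `s₄`). -/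
structure SpecXS4 : Prop where
  c1 : ∀ {α : Type} [Fintype α] [DecidableEq α] {G : SimpleGraph α} {x y s₁ s₂ s₃ s₄ r r' : α}, K48 G →
    P33 G x y s₁ s₂ s₃ s₄ → G.Adj s₂ s₃ → G.Adj s₁ s₄ → ¬ G.Adj s₁ s₃ → ¬ G.Adj s₂ s₄ →
    G.Adj s₄ r → G.Adj s₄ r' → r ≠ r' → r ∉ ({x, y, s₁} : Finset α) → r' ∉ ({x, y, s₁} : Finset α) →
    C1 (delE (contr G y s₁) y s₄)
  sup : ∀ {α : Type} [Fintype α] [DecidableEq α] {G : SimpleGraph α} {x y s₁ s₂ s₃ s₄ r : α}, K48 G →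
    P33 G x y s₁ s₂ s₃ s₄ → G.Adj s₂ s₃ → G.Adj s₁ s₄ → ¬ G.Adj s₁ s₃ → ¬ G.Adj s₂ s₄ →
    (∀ w, G.Adj s₄ w ↔ w = x ∨ w = y ∨ w = s₁ ∨ w = r) →
    (∀ w, (delE (contr G y s₁) y s₄).Adj s₄ w ↔ w = x ∨ w = r) ∧ x ≠ r ∧ ¬ (delE (contr G y s₁) y s₄).Adj x r ∧
      C1 (contr (delE (contr G y s₁) y s₄) x s₄)

/-- **XN4** (from XCC, VKA, NPC, KUR, TRC, XCB, C20, FRG, XC3, KC; 350 lines).  `N = delE (contr G y s₁) y s₄` is nonplanar.  `R = delE G s₁ s₄` is nonplanar (XCC.np for a symmetric form: `s₁ ~ s₄`).  `z ∈ Z_2(R)`, `vk z ≠ 0`, `Z = z (ys₄) ·` in `Z1 (R - y - s₄)`; there `x` has the neighbours `s₂`, `s₃`, and `s₂ ~ s₃`.  If `Z (xs₂) = 1` add the torus of a cycle `y s₁ … s₄ y` of `R - {x, s₂, s₃}` and `tri x s₂ s₃` [`s₁`, `s₄` are connected in `R -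
{x, y, s₂, s₃}`: `G - {x, y, s₂, s₃}` is connected (C20.two); if `s₁s₄` is a bridge of it, the side `B ∋ s₄` has `NB G (B - s₄) ⊆ {s₄, s₂, s₃}`: `B = {s₄}` (FEW), `N(s₄) ⊆ {x, y, s₁, s₂, s₃}`: XCB for `P33.sym2`].  Now `Z` has no edge at `x`: add `tor (tri x y s₄) Z`: the row `ys₄` is `0`: `R₂ = delE R y s₄` is nonplanar (NPC.del), `z ∈ Z_2(R₂)`.  `y` has in `R₂` the neighbours `x,
s₁, s₃`, and `s₁ ≁ s₄`.  The trace of the row `ys₃` at `s₁` is even without edges at `x`, `y`, `s₃`; `R₂ - {x, y, s₃, s₁}` is connected (C20.two; the edges `s₁s₄`, `ys₄` are not in it): TRC, torus `tor (tri x y s₃) Z'`: the row `ys₃` is `0` at `s₁`, and the row `yx` too (boundary at `y`): `Zab y s₁`, NPC.down: `contr R₂ y s₁` is nonplanar.  It is contained in `N`. -/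
def SpecXN4 : Prop := ∀ {α : Type} [Fintype α] [DecidableEq α] {G : SimpleGraph α} {x y s₁ s₂ s₃ s₄ : α}, K48 G →
  P33 G x y s₁ s₂ s₃ s₄ → G.Adj s₂ s₃ → G.Adj s₁ s₄ → ¬ G.Adj s₁ s₃ → ¬ G.Adj s₂ s₄ → NP G →
  NP (delE (contr G y s₁) y s₄)

/-- **XZ4** (from XS4, XN4, XCB, NPC, KSU, DST; 120 lines).  `KZ N`, `N = delE (contr G y s₁) y s₄`.  `s₄` has the neighbours `x, y, s₁` and `r ∉ {x, y, s₁, s₂, s₃}` (XCB).  If there is a further one: `N ∈ C1`, nonplanar, smaller than `G`: IH.  Otherwise `N(s₄) = {x, y, s₁, r}`: all 2-cycles of `N` satisfy `Zab x s₄` (boundary at `s₄`), so `contr N x s₄` is nonplanar (NPC.down), in C1, smaller: `KZ` by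
IH; KSU (`v = s₄`, `p = x`, `q = r`). -/
def SpecXZ4 : Prop := ∀ {α : Type} [Fintype α] [DecidableEq α] {G : SimpleGraph α} {x y s₁ s₂ s₃ s₄ : α}, K48 G →
  NP G → IH G → P33 G x y s₁ s₂ s₃ s₄ → G.Adj s₂ s₃ → G.Adj s₁ s₄ → ¬ G.Adj s₁ s₃ → ¬ G.Adj s₂ s₄ →
  KZ (delE (contr G y s₁) y s₄)

/-- **XQ2** (from XU2, XK2, XC4, XZ4; 40 lines).  Cases 2.2 and 2.4: `s₂ ~ s₃` and no `s_i` (`i = 3, 4`) is adjacent to both `s₁` and `s₂`.  `s₁ ≁ s₃`; if `s₁ ~ s₄` then `s₂ ≁ s₄`. -/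
def SpecXQ2 : Prop := ∀ {α : Type} [Fintype α] [DecidableEq α] {G : SimpleGraph α} {x y s₁ s₂ s₃ s₄ : α}, K48 G →
  NP G → IH G → P33 G x y s₁ s₂ s₃ s₄ → G.Adj s₂ s₃ → ¬ G.Adj s₁ s₃ → ¬ (G.Adj s₁ s₄ ∧ G.Adj s₂ s₄) → OK G

end DL
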