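import Pool.Agent.DL.E.Spec2

/-!
# MP_3ff0f8_gt, ALGEBRA HALF, EXIST section 2, part B (helper61): case 2.3 (`s₃` is adjacent to `s₁` and `s₂`)

Conventions as in `DL/E/Spec2.lean`.  Deletion of three edges at `s₃` (DL5).  `A24 = dst G s₃ {s₁, y}`, `A13 = dst G s₃ {s₂, x}` (symmetric under `P33.sym1`).
CUT = every vertex of a 4-cut of the 4-connected graph `G` has neighbours in every side.
-/

open SimpleGraph Finset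

namespace DL

/-- the hypotheses of 2.3 -/
structure T3 {α : Type} [Fintype α] [DecidableEq α] (G : SimpleGraph α) (x y s₁ s₂ s₃ s₄ : α) : Prop where
  k48 : K48 G
  p33 : P33 G x y s₁ s₂ s₃ s₄
  a1 : G.Adj s₁ s₃
  a2 : G.Adj s₂ s₃

theorem T3.sym1 {α : Type} [Fintype α] [DecidableEq α] {G : SimpleGraph α} {x y s₁ s₂ s₃ s₄ : α}
    (h : T3 G x y s₁ s₂ s₃ s₄) : T3 G y x s₂ s₁ s₃ s₄ := ⟨h.k48, h.p33.sym1, h.a2, h.a1⟩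

/-- `N(s₄)` is not of the form `{x, y, s₁, z}` -/
def H4 {α : Type} (G : SimpleGraph α) (x y s₁ s₄ : α) : Prop :=
  ∀ z, ¬ ∀ w, G.Adj s₄ w ↔ w = x ∨ w = y ∨ w = s₁ ∨ w = z

/-- **XA3** (from CRL, XCB, FRG, KC; 350 lines).  `s₃` has at least five neighbours `x, y, s₁, s₂, w` (XCB).  `sep`: `(T, A, B)` a 4-separation, `s₃ ∈ T`, all neighbours of `s₃` in `A` are in `{s₁, y}`; so `x, s₂ ∉ A`.  Case `y ∉ A`: `s₁ ∈ A` (CUT), `y ~ s₁`: `y ∈ T`.  If `s₄ ∉ A`: `NB G (A - s₁) ⊆ {s₁} ∪ (T - s₃ - y)`: FEW, `A = {s₁}`.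
If `s₄ ∈ A`: `x ∈ T` and `y` has no neighbour in `B`: CUT.  Case `y ∈ A`: `x ∈ T`, `s₁, s₄ ∈ A ∪ T`; `x` has a neighbour in `B`: `s₂ ∈ B`.  (i) `s₁ ∈ T`: if `s₄ ∈ T`: `NB G (A - y) ⊆ {s₁, s₄}`: `A = {y}`; if `s₄ ∈ A`, `T = {s₃, x, s₁, z}`: `NB G (A - y - s₄) ⊆ {s₄, s₁, z}`: `A = {y, s₄}`, `s₃ ≁ s₄`, `N(s₄) = {x, y, s₁, z}`: contradiction to
H4.  (ii) `s₁ ∈ A`, `s₄ ∈ T = {s₃, x, s₄, d}`: `NB G (A - y - s₁) ⊆ {s₁, s₄, d}`: `A = {y, s₁}`, `N(s₁) = {y, s₃, s₄, d}`.  (iii) `s₁, s₄ ∈ A`: last alternative.  `y0`, `y2`: CRL.c1 and `sep` (`y0`: `s₁ ∉ A` excludes both).  `y1`: CRL.c1: let all neighbours of `s₃` in `A` be in `{s₂, y}`; `s₁, x ∉ A`.  `y ∈ A`: `x, s₁ ∈ T`, `s₄ ∈ A ∪ T`, so (neighbour of `x` in `B`) `s₂ ∈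
B`: then all neighbours of `s₃` in `A` are `y`: `y0`.  `y ∉ A`: `s₂ ∈ A`, `x ∈ T`; `s₄ ∉ A`: `NB G (A - s₂) ⊆ {s₂} ∪ (T - s₃ - x)`: `A = {s₂}`; `s₄ ∈ A`: `y ∈ T`, `x` has no neighbour in `B`.  `s12`: `x, y ∉ A`.  `s₁ ∈ A`, `s₂ ∉ A`: `y ∈ T`; `s₄ ∉ A`: `NB G (A - s₁) ⊆ {s₁} ∪ (T - s₃ - y)`; `s₄ ∈ A`: `x ∈ T`, `y` has no neighbour in `B`.  `s₂ ∈ A`, `s₁ ∉ A`:
symmetric.  Both in `A`: `x, y ∈ T = {s₃, x, y, z}`; `y` has a neighbour in `B`: `s₄ ∈ B`; `NB G (B - s₄) ⊆ {s₄, s₃, z}`: `B = {s₄}`; `NB G (A - s₁ - s₂) ⊆ {s₁, s₂, z}`: `A = {s₁, s₂}`, `n = 7`. -/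
structure SpecXA3 : Prop where
  sep : ∀ {α : Type} [Fintype α] [DecidableEq α] {G : SimpleGraph α} {x y s₁ s₂ s₃ s₄ : α}, T3 G x y s₁ s₂ s₃ s₄ →
    H4 G x y s₁ s₄ → ∀ T A B, Sep G T A B → T.card = 4 → s₃ ∈ T → 2 ≤ A.card → 1 ≤ B.card →
    (∀ w ∈ A, G.Adj s₃ w → w = s₁ ∨ w = y) →
    (A = {y, s₁} ∧ ∃ d, T = {s₃, x, s₄, d} ∧ ∀ w, G.Adj s₁ w ↔ w = y ∨ w = s₃ ∨ w = s₄ ∨ w = d) ∨
      ∃ c d, [s₃, x, c, d].Nodup ∧ T = {s₃, x, c, d} ∧ y ∈ A ∧ s₁ ∈ A ∧ s₄ ∈ A ∧ s₂ ∈ B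
  y0 : ∀ {α : Type} [Fintype α] [DecidableEq α] {G : SimpleGraph α} {x y s₁ s₂ s₃ s₄ : α}, T3 G x y s₁ s₂ s₃ s₄ →
    H4 G x y s₁ s₄ → C1 (dst G s₃ {y})
  y1 : ∀ {α : Type} [Fintype α] [DecidableEq α] {G : SimpleGraph α} {x y s₁ s₂ s₃ s₄ : α}, T3 G x y s₁ s₂ s₃ s₄ →
    H4 G x y s₁ s₄ → C1 (dst G s₃ {s₂, y})
  s12 : ∀ {α : Type} [Fintype α] [DecidableEq α] {G : SimpleGraph α} {x y s₁ s₂ s₃ s₄ : α}, T3 G x y s₁ s₂ s₃ s₄ →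
    C1 (dst G s₃ {s₁, s₂})
  y2 : ∀ {α : Type} [Fintype α] [DecidableEq α] {G : SimpleGraph α} {x y s₁ s₂ s₃ s₄ : α}, T3 G x y s₁ s₂ s₃ s₄ →
    H4 G x y s₁ s₄ → C1 (dst G s₃ {s₁, y}) ∨ (∃ d, ∀ w, G.Adj s₁ w ↔ w = y ∨ w = s₃ ∨ w = s₄ ∨ w = d) ∨
      ∃ c d A B, [s₃, x, c, d].Nodup ∧ Sep G {s₃, x, c, d} A B ∧ y ∈ A ∧ s₁ ∈ A ∧ s₄ ∈ A ∧ s₂ ∈ B ∧
        ∀ w ∈ A, G.Adj s₃ w → w = s₁ ∨ w = y

/-- **XN3** (from XCC, XCE, F1N, NPC, DST; 150 lines).  Nonplanar.  `{s₂}`, `{s₁}`: XCC.np.  `{x}`: `K = dst G s₃ {x}`, `contr K x s₂` contains `contr G x s₂` (the edge `xs₃` comes back from `s₂s₃`): F1N, NPC.mono, NPC.up.  `{y}`: symmetric.  `{s₁, s₂}`: `contr K x s₂` contains `contr (delE G s₁ s₃) x s₂` (nonplanar: XCE for `P33.sym1`), because `x ~ s₃`.  `{s₁, x}`: `contr K x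
s₂` contains the same graph (`s₂ ~ s₃`).  `{s₂, y}`: `contr K y s₁` contains `contr (delE G s₂ s₃) y s₁` (XCE), because `s₁ ~ s₃`. -/
def SpecXN3 : Prop := ∀ {α : Type} [Fintype α] [DecidableEq α] {G : SimpleGraph α} {x y s₁ s₂ s₃ s₄ : α},
  T3 G x y s₁ s₂ s₃ s₄ → NP G → ∀ P : Finset α, P = {s₁} ∨ P = {s₂} ∨ P = {x} ∨ P = {y} ∨ P = {s₁, s₂} ∨
    P = {s₁, x} ∨ P = {s₂, y} → NP (dst G s₃ P)

/-- **XPY** (from XCC, VKA, NPC, KUR, XCB, C20, FRG, KC; 250 lines).  `s₂ ~ s₄`: `A24` is nonplanar.  `R = delE G s₁ s₃` is nonplanar (XCC.np, `P33.sym1`): `z ∈ Z_2(R)`, `vk z ≠ 0`, `Z = z (ys₃) · ∈ Z1 (R - y - s₃)`; there `x` has the neighbours `s₂`, `s₄`.  If `Z (xs₂) = 1`: add the torus of a cycle `y s₁ … s₃ y` of `R - {x, s₂, s₄}` and `tri x s₂ s₄` [`s₁`, `s₃` are connected in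
`R - {x, y, s₂, s₄}`: `G - {x, y, s₂, s₄}` is connected (C20.two), and if `s₁s₃` is a bridge of it, the side `B ∋ s₃` has `NB G (B - s₃) ⊆ {s₃, s₂, s₄}`: `B = {s₃}`, `N(s₃) ⊆ {x, y, s₁, s₂, s₄}`: XCB].  Now `Z` has no edge at `x`; add `tor (tri x y s₃) Z`: the row `ys₃` is `0`: NPC.del. -/
def SpecXPY : Prop := ∀ {α : Type} [Fintype α] [DecidableEq α] {G : SimpleGraph α} {x y s₁ s₂ s₃ s₄ : α},
  T3 G x y s₁ s₂ s₃ s₄ → NP G → G.Adj s₂ s₄ → NP (dst G s₃ {s₁, y})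

/-- **X35** (from XA3, XN3, XCB, XCC, DL5, DST; 80 lines).  DL5 with `u = s₃`, `(a, b, c) = (s₂, s₁, y)`, `(r, s) = (x, w)`, `w` from XCB (`x ≁ w`).  C1: `{s₂}`, `{s₁}`: XCC.c1 (DST.one), `{y}`: XA3.y0, `{s₂, s₁}`: XA3.s12, `{s₂, y}`: XA3.y1. -/
def SpecX35 : Prop := ∀ {α : Type} [Fintype α] [DecidableEq α] {G : SimpleGraph α} {x y s₁ s₂ s₃ s₄ : α},
  T3 G x y s₁ s₂ s₃ s₄ → NP G → IH G → H4 G x y s₁ s₄ → KZ (dst G s₃ {s₁, y}) → OK G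

/-- **XTC** (from XA3, CRL, DST, KC; 200 lines).  `N(s₁) = {y, s₃, s₄, d}`, `s₂ ~ s₄`.  `A = A24`: `y` has the neighbours `x, s₁, s₄`, `s₁` has the neighbours `y, s₄, d`.  `S = contr (delE A y s₄) s₁ y` is `A - y` with the edge `s₁x`; `x, s₁, s₄` is a triangle of `S`.  `S ∈ C1`: let `(W, P, Q)` be a separation of `S`, `P`, `Q` nonempty, `|W| ≤ 2`, or `|W| = 3`, `|P|, |Q| ≥ 2`.  The
triangle is in `Q ∪ W` (names), so `(W, P, insert y Q)` is a separation of `A`; `A` is 3-connected (CRL.k3, outside neighbours `x, s₂, w`), so `|W| = 3`, `|P| ≥ 2`, `|insert y Q| ≥ 3`.  `s₃ ∈ W`: it is a separation of `G`: no.  `s₃ ∈ P`: XA3.sep for `(insert s₃ W, insert y Q, P - s₃)`: the first alternative has `|A| = 2`, in the second one `s₂ ~ s₄` join the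
sides.  `s₃ ∈ Q`: XA3.sep for `(insert s₃ W, P, insert y Q - s₃)`: in both alternatives `y ∈ P`: no. -/
def SpecXTC : Prop := ∀ {α : Type} [Fintype α] [DecidableEq α] {G : SimpleGraph α} {x y s₁ s₂ s₃ s₄ d : α},
  T3 G x y s₁ s₂ s₃ s₄ → H4 G x y s₁ s₄ → G.Adj s₂ s₄ → (∀ w, G.Adj s₁ w ↔ w = y ∨ w = s₃ ∨ w = s₄ ∨ w = d) →
  C1 (contr (delE (dst G s₃ {s₁, y}) y s₄) s₁ y)

/-- **XTN** (from XPY, VKA, NPC, KUR, STA, C20, DST; 250 lines).  `S` is nonplanar.  `A = A24` is nonplanar (XPY): `z ∈ Z_2(A)`, `vk z ≠ 0`, `Z = z (ys₄) · ∈ Z1 (A - y - s₄)`.  `Z = Z' + Z''`, `Z' ∈ Z1 (A - y - s₄ - x)`, `Z'' ∈ Z1 (A - y - s₄ - s₁)`: otherwise a functional vanishes on both spaces and not on `Z1 (A - y - s₄)`: STA for `A - y - s₄` and `x`, `s₁` (not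
adjacent; `A - {y, s₄, x, s₁} = G - {x, y, s₁, s₄}` is connected: C20.two).  Add `tor (tri x y s₄) Z'` and `tor (tri s₁ y s₄) Z''`: the row `ys₄` is `0`: `A' = delE A y s₄` is nonplanar (NPC.del).  In `A'` `y` has the neighbours `x`, `s₁`, so (boundary at `y`) every 2-cycle satisfies `Zab s₁ y`: NPC.down. -/
def SpecXTN : Prop := ∀ {α : Type} [Fintype α] [DecidableEq α] {G : SimpleGraph α} {x y s₁ s₂ s₃ s₄ d : α},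
  T3 G x y s₁ s₂ s₃ s₄ → NP G → G.Adj s₂ s₄ → (∀ w, G.Adj s₁ w ↔ w = y ∨ w = s₃ ∨ w = s₄ ∨ w = d) →
  NP (contr (delE (dst G s₃ {s₁, y}) y s₄) s₁ y)

/-- **XT3** (from XTC, XTN, TRI, C1L, XCB, FRG, DST; 200 lines; import `DL/E/TRI.lean`).  `KZ A24`.  `d ≠ s₂` (otherwise `NB G {x, y, s₁} ⊆ {s₂, s₃, s₄}`: FEW).  TRI with `a = y`, `b = s₁`, `c = s₄`, `p = x`, `q = d`; `KZ S` by IH (C1, NP, smaller).  `S3S (delE S s₁ s₄)`: C1L (`n - 1 ≥ 7` vertices): `N_S(s₁) = {x, s₄, d}`, and `x ≁ d` in `S` (`N_S(x) = {s₁, s₂, s₃, s₄}`); `s₄` has in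
`S` at least four neighbours `x, s₁, s₂, w'` (XCB for `P33.sym2`). -/
def SpecXT3 : Prop := ∀ {α : Type} [Fintype α] [DecidableEq α] {G : SimpleGraph α} {x y s₁ s₂ s₃ s₄ d : α},
  T3 G x y s₁ s₂ s₃ s₄ → NP G → IH G → H4 G x y s₁ s₄ → G.Adj s₂ s₄ →
  (∀ w, G.Adj s₁ w ↔ w = y ∨ w = s₃ ∨ w = s₄ ∨ w = d) → KZ (dst G s₃ {s₁, y})

/-- **XI1** (from XA3, XPY, XT3, X35, DST; 60 lines).  `s₂ ~ s₄`, H4.  If `N(s₁) = {y, s₃, s₄, d}`: XT3.  Otherwise XA3.y2: `A24 ∈ C1` (in the last alternative `s₂ ~ s₄` join the sides), NP by XPY, `KZ` by IH.  X35. -/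
def SpecXI1 : Prop := ∀ {α : Type} [Fintype α] [DecidableEq α] {G : SimpleGraph α} {x y s₁ s₂ s₃ s₄ : α},
  T3 G x y s₁ s₂ s₃ s₄ → NP G → IH G → H4 G x y s₁ s₄ → G.Adj s₂ s₄ → OK G

/-- **XI3** (helper25, `DL/E/Spec2d.lean`): the case `s₄ ≁ s₁, s₂` -/
def SpecXI3 : Prop := ∀ {α : Type} [Fintype α] [DecidableEq α] {G : SimpleGraph α} {x y s₁ s₂ s₃ s₄ : α}, SH G →
  T3 G x y s₁ s₂ s₃ s₄ → ¬ G.Adj s₁ s₄ → ¬ G.Adj s₂ s₄ →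
  (C1 (dst G s₃ {s₁, y}) ∧ NP (dst G s₃ {s₁, y})) ∨ (C1 (dst G s₃ {s₂, x}) ∧ NP (dst G s₃ {s₂, x}))

/-- **XZ3** (from XI1, XI3, X35, XCB, DST; 80 lines).  Case 2.3.  `s₁, s₂ ~ s₄`: H4 (otherwise `N(s₄) = {x, y, s₁, s₂}`: XCB for `P33.sym2`): XI1.  `s₂ ~ s₄`, `s₁ ≁ s₄`: H4 is clear: XI1.  `s₁ ~ s₄`, `s₂ ≁ s₄`: XI1 for `T3.sym1`.  Neither: XI3; H4 is clear; `KZ` by IH, X35 (or X35 for `T3.sym1`). -/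
def SpecXZ3 : Prop := ∀ {α : Type} [Fintype α] [DecidableEq α] {G : SimpleGraph α} {x y s₁ s₂ s₃ s₄ : α}, SH G →
  P33 G x y s₁ s₂ s₃ s₄ → G.Adj s₁ s₃ → G.Adj s₂ s₃ → OK G

end DL
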