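import Pool.Agent.DL.E.Spec2b

/-!
# MP_3ff0f8_gt, ALGEBRA HALF, EXIST section 2, part C (helper61): case 2.1 (no edge from `s₁, s₂` to `s₃, s₄`) and assembly

Conventions as in `DL/E/Spec2.lean`.  `M = contr (contr G x s₂) y s₁ = contr (contr G y s₁) x s₂` (XC3.cc).  `x`, `s₂` have no common neighbour, `y`, `s₁` neither (E4).
-/

open SimpleGraph Finset

namespace DL

/-! ## A. The graph `M` -/

/-- the exceptional graph with 9 vertices -/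
structure Gr9 {α : Type} [Fintype α] [DecidableEq α] (G : SimpleGraph α) (x y s₁ s₂ s₃ s₄ t c d : α) : Prop where
  nd : [x, y, s₁, s₂, s₃, s₄, t, c, d].Nodup
  vs : VS G = {x, y, s₁, s₂, s₃, s₄, t, c, d}
  nx : ∀ w, G.Adj x w ↔ w = y ∨ w = s₂ ∨ w = s₃ ∨ w = s₄
  ny : ∀ w, G.Adj y w ↔ w = x ∨ w = s₁ ∨ w = s₃ ∨ w = s₄
  n1 : ∀ w, G.Adj s₁ w ↔ w = y ∨ w = s₂ ∨ w = c ∨ w = d
  n2 : ∀ w, G.Adj s₂ w ↔ w = x ∨ w = s₁ ∨ w = c ∨ w = d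
  n3 : ∀ w, G.Adj s₃ w ↔ w = x ∨ w = y ∨ w = t ∨ w = c
  n4 : ∀ w, G.Adj s₄ w ↔ w = x ∨ w = y ∨ w = t ∨ w = d
  mt : ∀ w, G.Adj t w ↔ w = s₃ ∨ w = s₄ ∨ w = c ∨ w = d
  mc : ∀ w, G.Adj c w ↔ w = s₁ ∨ w = s₂ ∨ w = s₃ ∨ w = t
  md : ∀ w, G.Adj d w ↔ w = s₁ ∨ w = s₂ ∨ w = s₄ ∨ w = t

/-- a bad cut of `M` (as in MCT) -/
structure BCut {α : Type} [Fintype α] [DecidableEq α] (G : SimpleGraph α) (x y s₁ s₂ s₃ s₄ t : α) (A B : Finset α) :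
    Prop where
  k48 : K48 G
  p33 : P33 G x y s₁ s₂ s₃ s₄
  e4 : E4 G s₁ s₂ s₃ s₄
  tn : t ∉ ({x, y, s₁, s₂} : Finset α)
  sp : Sep G {x, y, s₁, s₂, t} A B
  ca : 2 ≤ A.card
  cb : 2 ≤ B.card
  a3 : s₃ ∈ A
  b4 : s₄ ∈ B
  cna : CSet G A
  cnb : CSet G B

/-- **XMA** (from FRG, KC; 350 lines).  A bad cut and a nontrivial 4-separation `(T, X, Y)` with `x, y ∈ T = {x, y, c, d}`: then `G` is `Gr9`.  (Z) `NB G (A - s₃) ⊆ {s₃, s₁, s₂, t}` (`x`, `y` have in `A` only the neighbour `s₃`), so by FEW `s₁`, `s₂`, `t` have neighbours in `A - s₃`, and in `B - s₄` as well.  Each of `X`, `Y` contains exactly two of the `s_i`, and `c, d` are no `s_i`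
(`NB G (X - s) ⊆ {s, c, d}` if `s` is the only one in `X`).  (1) `s₁, s₂ ∈ X`, `s₃, s₄ ∈ Y` (names).  `NB G (A ∩ Y)` is contained in `{x, y} ∪ ({t} ∩ (Y ∪ T)) ∪ ({c, d} ∩ A)`, `NB G (B ∩ Y)` in `{x, y} ∪ ({t} ∩ (Y ∪ T)) ∪ ({c, d} ∩ B)`; both have at least 4 elements: if `t ∈ X` or `t ∈ {c, d}` this is impossible; so `t ∈ Y` and (names) `c ∈ A`, `d ∈ B`.  `NB G (A ∩ Y - s₃) ⊆ {s₃, t,
c}`: `A ∩ Y = {s₃}`; `B ∩ Y = {s₄}`.  `NB G (A ∩ X) ⊆ {s₁, s₂, c}`: `A ∩ X = ∅`; `B ∩ X = ∅`.  So `A = {s₃, c}`, `B = {s₄, d}`, `X = {s₁, s₂}`, `Y = {s₃, s₄, t}`; the neighbourhoods follow from the two separations and degree `≥ 4`.  (2) `s₁, s₃ ∈ X`, `s₂, s₄ ∈ Y`: impossible.  `A ∩ T ≠ ∅`: otherwise the connected set `A ∋ s₃` is contained in `X` and has no neighbour `s₂ ∈ Y`; in the same way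
`B ∩ T ≠ ∅` (`B ∋ s₄`, `s₁ ∈ X`).  So `c ∈ A`, `d ∈ B`, `t ∉ T`.  `t ∈ X`: `NB G (B ∩ Y - s₄) ⊆ {s₄, s₂, d}`: `B ∩ Y = {s₄}`, `N(s₄) ⊆ {x, y, s₂, d}`: `s₄ ~ s₂`: E4.  `t ∈ Y`: `NB G (A ∩ X - s₃) ⊆ {s₃, s₁, c}`: `A ∩ X = {s₃}`, `N(s₃) ⊆ {x, y, s₁, c}`: E4.  (3) `s₁, s₄ ∈ X`, `s₂, s₃ ∈ Y`: (2) with `s₃, s₄` and `A, B` exchanged. -/
def SpecXMA : Prop := ∀ {α : Type} [Fintype α] [DecidableEq α] {G : SimpleGraph α} {x y s₁ s₂ s₃ s₄ t : α}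
  {A B T X Y : Finset α}, BCut G x y s₁ s₂ s₃ s₄ t A B → Sep G T X Y → T.card = 4 → x ∈ T → y ∈ T → 2 ≤ X.card →
  2 ≤ Y.card → ∃ c d, Gr9 G x y s₁ s₂ s₃ s₄ t c d

/-- **XMB** (from FRG, KC; 300 lines).  A bad cut and a nontrivial 4-separation `(T, X, Y)` with `x ∈ T`, `y ∈ X`: impossible.  `x` has a neighbour in `Y` (CUT); `s₃, s₄, s₁ ~ y`, so `s₃, s₄, s₁ ∈ X ∪ T` and `s₂ ∈ Y`, it is the only neighbour of `x` in `Y`.  (Z) as in XMA.  `A ∩ T ≠ ∅` (otherwise the connected set `A ∋ s₃` is in `X`, but it has the neighbour `s₂ ∈ Y`), `B ∩ T ≠ ∅`.  `a, b ≥ 1` the numbers of elements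
of `A ∩ T`, `B ∩ T`, `z` = number of `s₁, t` in `T`: `a + b + z = 3`.  `NB G (A ∩ Y) ⊆ (A ∩ T) ∪ ({s₁, t} ∩ T) ∪ {s₂} ∪ ({t} ∩ Y)`.  `z = 0`, `a = 2`, `b = 1` (the other case symmetric): `NB G (B ∩ Y)` has `≤ 1 + 1 + 1` elements: `B ∩ Y = ∅`.  `t ∉ Y`: `NB G (A ∩ Y)` has `≤ 3` elements, `A ∩ Y = ∅`, `Y = {s₂}`: no.  So `t ∈ Y`; `B ∩ T = {v}`; `NB G (B ∩ X - s₄) ⊆ {s₄, v, s₁}`, so `B ∩ X ⊆
{s₄}`; `s₄ ∈ X`: `N(s₄) ⊆ {x, y, v, s₁}`: E4; `s₄ = v`: `B = {s₄}`: no.  `z = 1`: `a = b = 1`.  `t ∈ X`, or `t ∈ T` and `s₁ ∈ X`: `NB G (A ∩ Y)` has `≤ 1 + 1 + 1` elements, `B ∩ Y` as well: both empty, `Y = {s₂}`: no.  `s₁ ∈ T`, `t ∈ Y`: `A ∩ T = {v}`; `NB G (A ∩ X - s₃) ⊆ {s₃, v, s₁}`, so `A ∩ X ⊆ {s₃}`, `s₃ ∈ X` gives `N(s₃) ⊆ {x, y, v, s₁}`: E4; so `A ∩ X = ∅`, in the same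
way `B ∩ X = ∅`, `X = {y}`: no.  `z = 2`: `a + b = 1`: no. -/
def SpecXMB : Prop := ∀ {α : Type} [Fintype α] [DecidableEq α] {G : SimpleGraph α} {x y s₁ s₂ s₃ s₄ t : α}
  {A B T X Y : Finset α}, BCut G x y s₁ s₂ s₃ s₄ t A B → Sep G T X Y → T.card = 4 → x ∈ T → y ∈ X → 2 ≤ X.card →
  2 ≤ Y.card → False

/-- **XMC** (from MCT, MC1, XMA, XMB, XC3, FRG; 100 lines).  MCT: `M ∈ C1` or there is a bad cut.  If `x` and `y` are rigid they are apices (SH.rig): MC1.  If `x` is not rigid: FRG.nrig and XMA, XMB.  If `y` is not rigid: the same for `P33.sym1` (`M` is the same graph, XC3.cc; `Gr9 G y x s₂ s₁ s₃ s₄ t c d` is `Gr9 G x y s₁ s₂ s₃ s₄ t c d`). -/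
def SpecXMC : Prop := ∀ {α : Type} [Fintype α] [DecidableEq α] {G : SimpleGraph α} {x y s₁ s₂ s₃ s₄ : α}, SH G →
  P33 G x y s₁ s₂ s₃ s₄ → E4 G s₁ s₂ s₃ s₄ →
  C1 (contr (contr G x s₂) y s₁) ∨ ∃ t c d, Gr9 G x y s₁ s₂ s₃ s₄ t c d

/-- **M9** (helper19): `K_{3,4}` with hubs `x, y, t`, leaves `a, b, c, d`, and the edges `xy`, `ab`, `cd` -/
def SpecM9 : Prop := ∀ {α : Type} [Fintype α] [DecidableEq α] {M : SimpleGraph α} {x y t a b c d : α},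
  [x, y, t, a, b, c, d].Nodup → (∀ u v, M.Adj u v ↔ s(u, v) ∈ ({s(x, y), s(a, b), s(c, d), s(x, a), s(x, b), s(x, c),
    s(x, d), s(y, a), s(y, b), s(y, c), s(y, d), s(t, a), s(t, b), s(t, c), s(t, d)} : Finset (Sym2 α))) → KZ M

/-- **XM3** (from MCT, C20, XC3, XCB, FRG, KC; 200 lines).  `m`: `M` is 3-connected: a separation `(S, P, Q)` of `M`, `|S| ≤ 2`, `P`, `Q` nonempty: if `y ∉ S` it lifts to a separation of `contr G x s₂` of the same order, if `x ∉ S` to one of `contr G y s₁` (both 3-connected, C20.c1); `S = {x, y}`: `({x, y, s₁, s₂}, P, Q)` is a separation of `G`: C20.two.  `d`: `s₁ ~ s₂`, E4: `delE M x y` is 3-connected: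
otherwise `xy` joins the two sides `P ∋ x`, `Q ∋ y` of a separation `(S, P, Q)`, `|S| ≤ 2`; `s₃, s₄` are adjacent to both: `S = {s₃, s₄}`; `NB G (P - x) ⊆ {s₂, s₃, s₄}` (`s₁`, `y` are not adjacent to `P - x`): `P = {x}` by FEW; but `s₂` has a neighbour `w ∉ {x, y, s₁, s₃, s₄}` (XCB), `w ~ x` in `M`.  `k`: `Gr9`: `KZ M` by M9 (hubs `x, y, t`, leaves `s₃, c, s₄, d`). -/
structure SpecXM3 : Prop where
  m : ∀ {α : Type} [Fintype α] [DecidableEq α] {G : SimpleGraph α} {x y s₁ s₂ s₃ s₄ : α}, K48 G →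
    P33 G x y s₁ s₂ s₃ s₄ → KConn 3 (contr (contr G x s₂) y s₁)
  d : ∀ {α : Type} [Fintype α] [DecidableEq α] {G : SimpleGraph α} {x y s₁ s₂ s₃ s₄ : α}, K48 G →
    P33 G x y s₁ s₂ s₃ s₄ → E4 G s₁ s₂ s₃ s₄ → G.Adj s₁ s₂ → KConn 3 (delE (contr (contr G x s₂) y s₁) x y)
  k : ∀ {α : Type} [Fintype α] [DecidableEq α] {G : SimpleGraph α} {x y s₁ s₂ s₃ s₄ t c d : α},
    Gr9 G x y s₁ s₂ s₃ s₄ t c d → KZ (contr (contr G x s₂) y s₁)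

/-! ## B. Gluing of the two contractions -/

/-- **XLF** (from ME, EXM, CTA, CTB, CTF, TRA, XM3, XC3, C20, GLU, POL; 400 lines).  `NoCN G x s₂`, `NoCN G y s₁`.  ME for `xs₂`: `f = φ₁ ∈ F(G)` on `CycM G x s₂`.  ME for `ys₁`: `f + φ₁ = φ₂ ∈ F(G)` on `CycM G y s₁`.  `G₂ = contr G y s₁`; for a cycle `D` of `G₂` let `φ₂' D := φ₂ C`, `C ∈ CycM G y s₁` the corresponding cycle (CTA.cl): `φ₂' ∈ F(G₂)` (CTF.down), and `φ₂' = 0` on `CycM G₂ x s₂`: if `D` is in it then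
`C ∈ CycM G x s₂` (vertices and edges correspond), `φ₂ C = f C + φ₁ C = 0`.  EXM for `G₂`, `a = x`, `b = s₂` (`contr G₂ x s₂ = M`, 3-connected; the only possible common neighbour is `y`, if `s₁ ~ s₂`, and `delE M x y` is 3-connected: XM3): `φ₂' D = Σ ν u v (x_{xu} x_{s₂v} + coh u x s₂ v) + ρ + x_{xy} x_{s₂y} Σ l e x_e` (`l` is `0` at `x`, `s₂`).  LIFT to `G`: the edges of `G₂` at `x` are edges of `G`; the edge `s₂y` of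
`G₂` comes from `s₂s₁`, the other edges at `s₂` are edges of `G`.  `v' := s₁` if `v = y`, else `v`.  `ψ C := Σ ν u v (x_{xu} x_{s₂v'} + coh u x s₂ v') + ρ' (chi C)`, `ρ' ∈ TR (sab G x s₂)` from TRA.map; `ψ` is in `F(G)`, it is `0` on all cycles of `CycM G x s₂` (as in XE2), and equal to the first two parts for corresponding `C`, `D` (CTB).  If `xy, s₂y ∈ D` then `D` has no other edge at `y`, and the other edges are the same in `C`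
and `D`: so the last part is `x_{xy} x_{s₁s₂} Σ_{e ∈ C} l' e`, `l' e := l e` for `e` without `x, y, s₁, s₂`, `0` otherwise.  `φ := φ₁ + ψ`. -/
def SpecXLF : Prop := ∀ {α : Type} [Fintype α] [DecidableEq α] {G : SimpleGraph α} {x y s₁ s₂ s₃ s₄ : α}, K48 G →
  P33 G x y s₁ s₂ s₃ s₄ → E4 G s₁ s₂ s₃ s₄ → U (contr G x s₂) → U (contr G y s₁) →
  KZ (contr (contr G x s₂) y s₁) → ∀ f : Finset (Sym2 α) → ZMod 2, D4even G f →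
  ∃ (φ : Finset (Sym2 α) → ZMod 2) (l : Chain α), InF G φ ∧
    (∀ e, x ∈ e ∨ y ∈ e ∨ s₁ ∈ e ∨ s₂ ∈ e → l e = 0) ∧ (∀ C, CycM G x s₂ C → f C = φ C) ∧
    ∀ C, CycM G y s₁ C → f C = φ C + chi C s(x, y) * chi C s(s₁, s₂) * ∑ e ∈ C, l e

/-- three disjoint paths from the cycle `Z` to `s₁`, `s₂`, `s` -/
structure TPth {α : Type} [Fintype α] [DecidableEq α] (G : SimpleGraph α) (x y s₁ s₂ s z₁ z₂ z₃ : α)
    (Z L₁ L₂ L₃ : Finset (Sym2 α)) : Prop where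
  z : IsCyc (del G {x, y, s₁, s₂}) Z
  z1 : z₁ ∈ vs Z
  z2 : z₂ ∈ vs Z
  z3 : z₃ ∈ vs Z
  p1 : IsPth (del G {x, y}) z₁ s₁ L₁
  p2 : IsPth (del G {x, y}) z₂ s₂ L₂
  p3 : IsPth (del G {x, y}) z₃ s L₃
  d12 : Disjoint (insert z₁ (vs L₁)) (insert z₂ (vs L₂))
  d13 : Disjoint (insert z₁ (vs L₁)) (insert z₃ (vs L₃))
  d23 : Disjoint (insert z₂ (vs L₂)) (insert z₃ (vs L₃))
  m1 : vs L₁ ∩ vs Z ⊆ {z₁}
  m2 : vs L₂ ∩ vs Z ⊆ {z₂}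
  m3 : vs L₃ ∩ vs Z ⊆ {z₃}

/-- **XDM** (from MENG, FRG, KC; 300 lines).  For every cycle `Z` of `G - {x, y, s₁, s₂}` there are three disjoint paths in `H` from `vs Z` to `s₁, s₂, s₃` or to `s₁, s₂, s₄`.  Menger in `H`: if there are no three disjoint paths from `vs Z` to `{s₁, s₂, s₃}` there is a set `{p, q}` (at most two vertices) which separates them.  Let `K` be the set of the vertices of `H - {p, q}` connected to `vs Z - {p, q}` (not empty, `|vs Z| ≥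
3`); it contains none of `s₁, s₂, s₃`.  If `s₄ ∉ K`: `NB G K ⊆ {p, q}`: FEW.  `s₄ ∈ K`: `NB G (K - s₄) ⊆ {s₄, p, q}`: `K = {s₄}`, so `vs Z = {s₄, p, q}`, `N(s₄) = {x, y, p, q}`.  Then take `z₃ = s₄ = s`, `L₃ = ∅`, and two disjoint paths from `{p, q}` to `{s₁, s₂}` in `H - s₄`: otherwise one vertex `r` separates them there; let `p ≠ r` (names), `K'` = vertices connected to `p` in `H - {s₄, r}`, without `s₁, s₂`; if `s₃ ∉ K'`: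
`NB G K' ⊆ {s₄, r}`: FEW; otherwise `NB G (K' - s₃) ⊆ {s₃, s₄, r}`: `K' = {s₃}`, `p = s₃`, `q ~ p`, `q ≠ s₄`, so `q = r`, and `NB G {x, y, s₃, s₄} ⊆ {s₁, s₂, q}`: FEW. -/
def SpecXDM : Prop := ∀ {α : Type} [Fintype α] [DecidableEq α] {G : SimpleGraph α} {x y s₁ s₂ s₃ s₄ : α}, K48 G →
  P33 G x y s₁ s₂ s₃ s₄ → ∀ Z, IsCyc (del G {x, y, s₁, s₂}) Z →
  ∃ s z₁ z₂ z₃ L₁ L₂ L₃, (s = s₃ ∨ s = s₄) ∧ TPth G x y s₁ s₂ s z₁ z₂ z₃ Z L₁ L₂ L₃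

/-- **XDD** (from TRE, DCB, PC, PC2; 350 lines).  (D-l).  `s ∈ {s₃, s₄}`.  Let `v, v'` be the neighbours of `z₃` on `Z`, `b₁`, `b₂` the neighbours of `s₁` on `L₁`, of `s₂` on `L₂`.  `D_4` minor: `X 0 = {x, y}` (edge `xy`); `X 1 = {s₁, s₂}` (edge `s₁s₂`); `X 2 =` the tree `Z - z₃` (path from `v` to `v'`), `L₁ - s₁`, `L₂ - s₂`; `X 3 =` the path `L₃`.  Beads: `ys₁ | xs₂`; `s₁b₁ | s₂b₂`; `vz₃ | v'z₃`; `sx | sy`.  With `xs₂`: in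
`CycM G x s₂`: `g = 0`.  With `ys₁`, `sy`: not through `x`: `0`.  With `ys₁`, `sx`, `s₁b₁`: not through `s₂`: `0`.  Left: `ys₁, sx, s₂b₂` with `vz₃` or `v'z₃`: two cycles `C`, `C'` of `CycM G y s₁` through `xy`, `s₁s₂`: `g C = Σ_{e ∈ C} l e`, `chi C + chi C' = chi Z`. -/
def SpecXDD : Prop := ∀ {α : Type} [Fintype α] [DecidableEq α] {G : SimpleGraph α} {x y s₁ s₂ s₃ s₄ s z₁ z₂ z₃ : α}
  {Z L₁ L₂ L₃ : Finset (Sym2 α)} {g : Finset (Sym2 α) → ZMod 2} {l : Chain α}, P33 G x y s₁ s₂ s₃ s₄ →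
  G.Adj s₁ s₂ → (s = s₃ ∨ s = s₄) → TPth G x y s₁ s₂ s z₁ z₂ z₃ Z L₁ L₂ L₃ → D4even G g →
  (∀ C, CycM G x s₂ C → g C = 0) →
  (∀ C, CycM G y s₁ C → g C = chi C s(x, y) * chi C s(s₁, s₂) * ∑ e ∈ C, l e) → ∑ e ∈ Z, l e = 0

/-- **XDR** (from XDM, XDD, POL, GLU, PC2; 200 lines).  If `s₁ ≁ s₂` take `φ = 0`.  Otherwise `l` vanishes on all cycles of `N = G - {x, y, s₁, s₂}`, so (PC2.cut) there is `σ` with `l (uv) = σ u + σ v` on the edges of `N`.  A cycle of `CycM G y s₁` through `xy` and `s₁s₂` contains `ys₁`; it consists of `x y s₁ s₂`, an edge `s₂v`, a path of `N` from `v` to `u`, an edge `ux`: `Σ l = σ v + σ u`.  So `g C = φ C := x_{xy} x_{s₁s₂} (Σ_{v ∉ {x, y, s₁}}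
σ v x_{s₂v} + Σ_{u ∉ {y, s₂}} σ u x_{xu})` (sums over the vertices of `N`).  `φ` is cubic; on `CycM G x s₂`: a cycle through `xy`, `s₁s₂` contains `xs₂`, so no other edge at `x` or `s₂`: `φ = 0`. -/
def SpecXDR : Prop := ∀ {α : Type} [Fintype α] [DecidableEq α] {G : SimpleGraph α} {x y s₁ s₂ s₃ s₄ : α}
  {g : Finset (Sym2 α) → ZMod 2} {l : Chain α}, K48 G → P33 G x y s₁ s₂ s₃ s₄ → D4even G g →
  (∀ e, x ∈ e ∨ y ∈ e ∨ s₁ ∈ e ∨ s₂ ∈ e → l e = 0) → (∀ C, CycM G x s₂ C → g C = 0) →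
  (∀ C, CycM G y s₁ C → g C = chi C s(x, y) * chi C s(s₁, s₂) * ∑ e ∈ C, l e) →
  ∃ φ : Finset (Sym2 α) → ZMod 2, InF G φ ∧ (∀ C, CycM G x s₂ C → φ C = 0) ∧ ∀ C, CycM G y s₁ C → g C = φ C

/-! ## C. The remaining cycles -/

/-- what is known after gluing in 2.1 -/
structure KG {α : Type} [Fintype α] [DecidableEq α] (G : SimpleGraph α) (x y s₁ s₂ s₃ s₄ : α)
    (f : Finset (Sym2 α) → ZMod 2) : Prop where
  k48 : K48 G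
  p33 : P33 G x y s₁ s₂ s₃ s₄
  e4 : E4 G s₁ s₂ s₃ s₄
  ev : D4even G f
  z1 : ∀ C, CycM G x s₂ C → f C = 0
  z2 : ∀ C, CycM G y s₁ C → f C = 0

theorem KG.sym2 {α : Type} [Fintype α] [DecidableEq α] {G : SimpleGraph α} {x y s₁ s₂ s₃ s₄ : α}
    {f : Finset (Sym2 α) → ZMod 2} (h : KG G x y s₁ s₂ s₃ s₄ f) : KG G x y s₁ s₂ s₄ s₃ f :=
  ⟨h.k48, h.p33.sym2, ⟨h.e4.2.1, h.e4.1, h.e4.2.2.2, h.e4.2.2.1⟩, h.ev, h.z1, h.z2⟩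

/-- **XRA** (from D4C, RT1, XTE, STA, C20, FRG, KC; 300 lines).  (A).  For an `s₃`-`s₄` path `P` of `H` let `F P` be the sum of `f` over the four cycles `P ∪ {s₃x, xs₄}`, `P ∪ {s₃y, ys₄}`, `P ∪ {s₃x, xy, ys₄}`, `P ∪ {s₃y, yx, xs₄}`; the first one misses `y`, the second one `x`: `f = 0`.  D4C (`a = x`, `b = y`), RT1: `F P = w0 + Σ_{h ∈ P} w h`.  `F P = 0` if `s₁ ∉ vs P` or `s₂ ∉ vs P`.  `a := w` except `a (s₃s₄) :=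
w0`, `N = H ⊔ {s₃s₄}`.  `del N {s₁}` is 2-connected: every component `K` of `G - {x, y, s₁, p}` contains `s₃` or `s₄` (otherwise `NB G K ⊆ {s₁, p, x}`: FEW); in the same way `del N {s₂}` (`NB G K ⊆ {s₂, p, y}`).  XTE: `a = 0` on `Z1 (N - s₁)`, `Z1 (N - s₂)`; STA (`N - s₁ - s₂` is connected, C20.two): `pr a Z = c Z (s₁s₂)` on `Z1 N`. -/
def SpecXRA : Prop := ∀ {α : Type} [Fintype α] [DecidableEq α] {G : SimpleGraph α} {x y s₁ s₂ s₃ s₄ : α}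
  {f : Finset (Sym2 α) → ZMod 2}, KG G x y s₁ s₂ s₃ s₄ f →
  ∃ c : ZMod 2, ∀ P, IsPth (del G {x, y}) s₃ s₄ P →
    f ({s(s₃, x), s(x, y), s(y, s₄)} ∪ P) + f ({s(s₃, y), s(y, x), s(x, s₄)} ∪ P) = c * chi P s(s₁, s₂)

/-- **XRB** (from C20, TRE, DCB, MENG, PC2; 500 lines).  (B).  `P = P₁ P₂ P₃`, `s₄ → s₁ → s₂ → s₃`.  `G - {x, y, s₁, s₃}` is connected (C20.two): an ear `r` from `p ∈ vs P₁`, `p ≠ s₁` (perhaps `p = s₄`) to `q ∈ vs P₂ ∪ vs P₃`, `q ≠ s₁, s₃`, no inner vertex on `P`.  `r'` = neighbour of `p` on `r` (perhaps `q`).  Case `q ∈ vs P₂`: `a'` = neighbour of `q` on the part of `P₂` from `s₁` to `q`, `b'` = neighbour of `s₂` on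
`P₃`.  Trees = paths: `X 0 = {y}`; `X 1 = x s₃ … b'`; `X 2 = r' … q … s₂`; `X 3 = s₄ … s₁ … a'`.  Beads: `yx | ys₃`; `xs₂ | b's₂`; `qa' | r'p`; `s₄y | s₁y`.  With `s₁y`: `z2`; with `s₄y`, `r'p`: not through `s₁` (`z2`); with `xs₂`: `z1`; with `b's₂`, `ys₃`: not through `x` (`z1`); left: the cycle `P ∪ {s₃x, xy, ys₄}`.  Case `q ∉ vs P₂` (`q` an inner vertex of `P₃`): `b'` = the vertex before `p` on the path `y s₄ … p`, `a'` =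
neighbour of `s₂` on `P₂`, `c'` = neighbour of `q` on the part of `P₃` from `q` to `s₃`.  Trees = paths: `X 0 = y … b'`; `X 1 = p … s₁ … a'`; `X 2 = r' … q … s₂`; `X 3 = x s₃ … c'`.  Beads: `b'p | ys₁`; `a's₂ | pr'`; `qc' | s₂x`; `xy | s₃y`.  With `ys₁`: `z2`; with `b'p`, `pr'`: not through `s₁` (`z2`); with `s₂x`: `z1`; with `qc'`, `s₃y`: not through `x` (`z1`); left: the same cycle. -/
def SpecXRB : Prop := ∀ {α : Type} [Fintype α] [DecidableEq α] {G : SimpleGraph α} {x y s₁ s₂ s₃ s₄ : α}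
  {f : Finset (Sym2 α) → ZMod 2} {P₁ P₂ P₃ : Finset (Sym2 α)}, KG G x y s₁ s₂ s₃ s₄ f →
  IsPth (del G {x, y}) s₄ s₁ P₁ → IsPth (del G {x, y}) s₁ s₂ P₂ → IsPth (del G {x, y}) s₂ s₃ P₃ →
  vs P₁ ∩ vs P₂ ⊆ {s₁} → vs P₂ ∩ vs P₃ ⊆ {s₂} → Disjoint (vs P₁) (vs P₃) →
  f ({s(s₃, x), s(x, y), s(y, s₄)} ∪ (P₁ ∪ P₂ ∪ P₃)) = 0

/-- **XRC** (from PC, PC2; 200 lines).  Classification.  `C` passes through `x, s₂, y, s₁` and contains neither `xs₂` nor `ys₁`.  `x` has two of the edges `xy, xs₃, xs₄`, `y` two of `yx, ys₃, ys₄`.  `xy ∉ C`: `C` is the 4-cycle `x s₃ y s₄`: no.  So `xy ∈ C`, `xs_i`, `ys_j ∈ C`, `i ≠ j` (no triangle); the rest is a path of `H` from `s₃` to `s₄` through `s₁` and `s₂`: `s₁` is before or after `s₂`. -/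
def SpecXRC : Prop := ∀ {α : Type} [Fintype α] [DecidableEq α] {G : SimpleGraph α} {x y s₁ s₂ s₃ s₄ : α}
  {C : Finset (Sym2 α)}, P33 G x y s₁ s₂ s₃ s₄ → IsCyc G C → x ∈ vs C → s₂ ∈ vs C → y ∈ vs C → s₁ ∈ vs C →
  s(x, s₂) ∉ C → s(y, s₁) ∉ C →
  ∃ P, IsPth (del G {x, y}) s₃ s₄ P ∧
    (C = {s(s₃, x), s(x, y), s(y, s₄)} ∪ P ∨ C = {s(s₃, y), s(y, x), s(x, s₄)} ∪ P) ∧
    ∃ P₁ P₂ P₃, P = P₁ ∪ P₂ ∪ P₃ ∧ vs P₁ ∩ vs P₂ ⊆ {s₁, s₂} ∧ vs P₂ ∩ vs P₃ ⊆ {s₁, s₂} ∧ Disjoint (vs P₁) (vs P₃) ∧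
      IsPth (del G {x, y}) s₁ s₂ P₂ ∧
      ((IsPth (del G {x, y}) s₄ s₁ P₁ ∧ IsPth (del G {x, y}) s₂ s₃ P₃) ∨
        (IsPth (del G {x, y}) s₃ s₁ P₁ ∧ IsPth (del G {x, y}) s₂ s₄ P₃))

/-- **XRD** (from XRA, XRB, XRC, PC2; 250 lines).  `f = c coh x y s₂ s₁`, `c` from XRA.  On `CycM G x s₂`: if `xy, s₁s₂ ∈ C` then `xs₂ ∈ C`, and `y` is not connected to `s₂` in `C - {xy, s₁s₂}`: `coh = 0`; on `CycM G y s₁` as well (`y` is connected to `s₁`).  Otherwise XRC.  Let `φ = f` of the first form, `ψ = f` of the second form of the cycle for the same `P`; `φ + ψ = c [s₁s₂ ∈ P]` (XRA).  Order `s₄, s₁, s₂, s₃`: `φ = 0`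
(XRB), so `ψ = c [s₁s₂ ∈ P]`; order `s₃, s₁, s₂, s₄`: `ψ = 0` (XRB for `KG.sym2`), `φ = c [s₁s₂ ∈ P]`.  If `s₁s₂ ∈ P` (then `P₂ = {s₁s₂}`): `coh x y s₂ s₁` is `1` iff `y` is connected to `s₂` without `xy`, `s₁s₂`: first form: `y s₄ …`: iff the order is `s₃, s₁, s₂, s₄`; second form: `y s₃ …`: iff the order is `s₄, s₁, s₂, s₃`. -/
def SpecXRD : Prop := ∀ {α : Type} [Fintype α] [DecidableEq α] {G : SimpleGraph α} {x y s₁ s₂ s₃ s₄ : α}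
  {f : Finset (Sym2 α) → ZMod 2}, KG G x y s₁ s₂ s₃ s₄ f →
  ∃ c : ZMod 2, ∀ C, IsCyc G C → f C = c * coh x y s₂ s₁ C

/-! ## D. `U G`, `KZ G` -/

/-- **XU1** (from XLF, XDR, XRD, GLU; 80 lines).  XLF: `φ`, `l`; `g = f + φ`; XDR: `φ'`; `g + φ'` satisfies KG; XRD; GLU.coh1. -/
def SpecXU1 : Prop := ∀ {α : Type} [Fintype α] [DecidableEq α] {G : SimpleGraph α} {x y s₁ s₂ s₃ s₄ : α}, K48 G →
  P33 G x y s₁ s₂ s₃ s₄ → E4 G s₁ s₂ s₃ s₄ → U (contr G x s₂) → U (contr G y s₁) →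
  KZ (contr (contr G x s₂) y s₁) → U G

/-- **XKA** (from FRG, KC; 200 lines).  `s₁ ~ s₂`, E4.  Both graphs are 3-connected; let `(W, P, Q)` be a separation, `|W| = 3`, `|P|, |Q| ≥ 2`; it is no separation of `G`.  `xy`: `x ∈ P`, `y ∈ Q` (names); `s₃, s₄ ∈ W = {s₃, s₄, w}`; `s₁ ~ s₂`, `s₂ ~ x`, `s₁ ~ y`: `w = s₂` or `w = s₁`; `w = s₂`: `NB G (P - x) ⊆ W`: `P = {x}`; `w = s₁`: `NB G (Q - y) ⊆ W`: `Q = {y}`.  `x3`: `x ∈ P`, `s₃ ∈ Q`, `y ∈ W`, `s₄, s₂ ∈ P ∪ W`.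
`s₄ ∈ W = {y, s₄, q}`: `s₁ ∉ P`: `NB G (P - x) ⊆ {x, s₄, q}`: `P = {x}`; `s₁ ∈ P`: `NB G (Q - s₃) ⊆ {s₃, s₄, q}`: `Q = {s₃}`.  `s₄ ∈ P`: `s₁ ∉ Q`: `NB G (Q - s₃) ⊆ {s₃} ∪ (W - y)`: `Q = {s₃}`; `s₁ ∈ Q`: `s₂ ∈ W = {y, s₂, q}`, `NB G (P - x - s₄) ⊆ {s₄, s₂, q}`: `P = {x, s₄}`, `N(s₄) ⊆ {x, y, s₂, q}`: E4. -/
structure SpecXKA : Prop where
  xy : ∀ {α : Type} [Fintype α] [DecidableEq α] {G : SimpleGraph α} {x y s₁ s₂ s₃ s₄ : α}, K48 G →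
    P33 G x y s₁ s₂ s₃ s₄ → G.Adj s₁ s₂ → C1 (delE G x y)
  x3 : ∀ {α : Type} [Fintype α] [DecidableEq α] {G : SimpleGraph α} {x y s₁ s₂ s₃ s₄ : α}, K48 G →
    P33 G x y s₁ s₂ s₃ s₄ → E4 G s₁ s₂ s₃ s₄ → G.Adj s₁ s₂ → C1 (delE G x s₃)

/-- **XK1** (from KC0, KDD, XKA, F1N, F2N, F4N, C20, XC3, CRL, S3F, DST, KC; 250 lines).  `KZ G`.  `KZ (contr G x s₂)`, `KZ (contr G y s₁)` by IH (C20.c1, F1N).  `s₁ ≁ s₂`: KC0 with `a = x`, `b = s₂`, `c = y`, `d = s₁`.  `G₂ = contr G y s₁` is 4-connected: it is in C1, and every vertex has at least four neighbours (`y`, `s₁` have no common neighbour; `y` has in `G₂` the neighbours `x, s₃, s₄` and the other neighbours of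
`s₁`), so no 3-cut isolates a vertex.  So `del G₂ {x}` is 3-connected and `G₂` minus three vertices is connected.  `s₁ ~ s₂`: KDD with `a = x`, `b = y`, `c = s₃` or `s₄`: `KZ (delE G x y)` (XKA.xy, F2N, IH); F4N.or: `delE G x s₃` or `delE G x s₄` is nonplanar: `KZ` by XKA.x3 (resp. for `P33.sym2`), IH; `dst G x {y, s₃}` is S3S: CRL.s3s (outside neighbours `s₂`, `s₄`, not adjacent). -/
def SpecXK1 : Prop := ∀ {α : Type} [Fintype α] [DecidableEq α] {G : SimpleGraph α} {x y s₁ s₂ s₃ s₄ : α}, K48 G →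
  NP G → IH G → P33 G x y s₁ s₂ s₃ s₄ → E4 G s₁ s₂ s₃ s₄ → KZ G

/-- **XQ1** (from XMC, XM3, MNP, XU1, XK1, C20, F1N, DST; 80 lines).  Case 2.1.  `U (contr G x s₂)`, `U (contr G y s₁)` by IH.  `KZ M`: XMC: `M ∈ C1`: nonplanar (MNP, SH.rig), smaller than `G`: IH; or `Gr9`: XM3.k. -/
def SpecXQ1 : Prop := ∀ {α : Type} [Fintype α] [DecidableEq α] {G : SimpleGraph α} {x y s₁ s₂ s₃ s₄ : α}, SH G →
  P33 G x y s₁ s₂ s₃ s₄ → E4 G s₁ s₂ s₃ s₄ → OK G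

/-- **X33** (from XQ1, XQ2, XZ3; 80 lines).  All (3,3)-pairs.  E4: XQ1.  `s_i` (`i = 3` or `4`) adjacent to `s₁` and `s₂`: XZ3.  Otherwise, after `P33.sym1`, `P33.sym2`, `s₂ ~ s₃`, then `s₁ ≁ s₃` and not `s₁, s₂ ~ s₄`: XQ2. -/
def SpecX33 : Prop := ∀ {α : Type} [Fintype α] [DecidableEq α] {G : SimpleGraph α} {x y s₁ s₂ s₃ s₄ : α}, SH G →
  P33 G x y s₁ s₂ s₃ s₄ → OK G

end DL
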