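import Pool.Agent.DL.E.Defs

/-!
# MP_3ff0f8_gt, EXIST sections 3 and 4 (helper25): (3,4)-pairs and (4,4)-pairs

Text: /team-store/MP_3ff0f8_gt_EXIST_h61.md sections 3, 4, MP_3ff0f8_gt_VKE_h97.md; the docstrings here are self-contained.  Module `XXX` = file
`DL/E/XXX.lean`, theorem `specXXX (hYYY : SpecYYY) … : SpecXXX`; the hypotheses may be any other Specs (DL/EX, DL/K, DL/NP, this file); own
lemmas in the namespace `DL.XXXM`.

CONVENTIONS.  `G` 4-connected, `n ≥ 8` (`K48`).  A cut `T` (`Sep G T A B`, `A`, `B` nonempty, `|T| = 4`): every vertex of `T` has a neighbour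
in every component of `G - T` (KC: `KConn.exists_adj_of_sep`, NBF.nb).  RULE (*): a vertex set `D ≠ ∅` with `|N(D)| ≤ 3` has `D ∪ N(D) = V`
(NBF.nb), so it does not exist if there is another vertex.  Neighbours of a vertex in `A` are in `A ∪ T`.  `(3,4)-pair` `P34 G x y s₁ s₂ s₃ s₄`:
`N(x) = {y, s₂, s₃, s₄}`, `N(y) = {x, s₁, s₂, s₃, s₄}`; everything is symmetric in `s₂, s₃, s₄`.
-/

open SimpleGraph Finset

namespace DL

/-- the cut `{x, y, c, d}` separates `i, j` from `k, l` (a split) -/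
def SPL {α : Type} [Fintype α] [DecidableEq α] (G : SimpleGraph α) (x y i j k l : α) : Prop :=
  ∃ c d A B, [x, y, c, d].Nodup ∧ Sep G {x, y, c, d} A B ∧ i ∈ A ∧ j ∈ A ∧ k ∈ B ∧ l ∈ B

/-- `x`, `y` are both adjacent to the four vertices `s i` and have no other neighbours, except perhaps each other: (4,4)-pair or twins -/
structure DP {α : Type} (G : SimpleGraph α) (x y : α) (s : Fin 4 → α) : Prop where
  inj : Function.Injective s
  xy : x ≠ y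
  sx : ∀ i, s i ≠ x ∧ s i ≠ y
  nx : ∀ w, G.Adj x w → w = y ∨ ∃ i, w = s i
  ny : ∀ w, G.Adj y w → w = x ∨ ∃ i, w = s i
  ax : ∀ i, G.Adj x (s i)
  ay : ∀ i, G.Adj y (s i)

/-! ## A. Common tools -/

/-- **CRX** (from KC, NBF; 120 lines).  CRITERION.  `N = dst G u P`.  `N` is 3-connected: for `|S| ≤ 2` with `u ∉ S` the graph `G - u - S` is connected and `u`
still has a neighbour outside `S`; with `u ∈ S` `N - S = G - S`.  Let `Sep N W P' Q'`, `|W| = 3`, `|P'|, |Q'| ≥ 2`.  `u ∈ W`: it is a separation of `G`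
(the deleted edges are at `u`), impossible.  Otherwise `u ∈ P'` (or `Q'`): `T = W ∪ {u}`, `A = P' - u`, `B = Q'`; an edge of `G` from
`A` to `B` is an edge of `N`; a neighbour of `u` in `B` is in `P` (otherwise it would be an edge of `N` from `P'` to `Q'`). -/
def SpecCRX : Prop := ∀ {α : Type} [Fintype α] [DecidableEq α] {G : SimpleGraph α} {u : α} {P : Finset α},
  K48 G → u ∈ VS G → P ⊆ NB G {u} → 3 ≤ (NB G {u} \ P).card →
  C1 (dst G u P) ∨ ∃ T A B, Sep G T A B ∧ T.card = 4 ∧ u ∈ T ∧ A.Nonempty ∧ 2 ≤ B.card ∧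
    ∀ w ∈ B, G.Adj u w → w ∈ P

/-- **NCX** (from VKA, VKA.tor, NPC, KUR, LPE, S3F, NCN, PC; 250 lines).  More consequences of `Gam`.  `symm`: exchange.  `tri`: let `z` be the 2-cycle in `Gam G u w w' Z`; LPE.star gives `z'` with rows
`Z` at `uw`, `uv` (`G - u` is 3-connected); `z + z'` has the rows `Z` at `uw'`, `uv`; one of `vk z'`, `vk (z + z')` is not zero.  `sup`: `z` has no other rows at `u`, so it is in `Z_2(H)`.
`cyc`: `Z` is a sum of cycles of `G - u - w - w'` (PC: `Z1` is spanned by the `chi C`); NCN.lin.  `sepc` (torus rule for chains): `P` a path from `w` to `w'` avoiding `u` and `Q`; the torus of the cycle `uw + P +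
w'u` and `Z` has the rows `Z` at `uw`, `uw'`, `vk = 0` (VKA.tor), and two 2-cycles of `G` with the same rows at `u` differ by an element of `Z_2(G - u)`, where `vk = 0`.  `func`: `Z ↦ vk` of a 2-cycle with rows `Z`, `Z`, is
linear on `Z1 (G - u - w - w')` (NCN.lin), extended to all chains (every functional of the chains is `pr a`). -/
structure SpecNCX : Prop where
  symm : ∀ {α : Type} [Fintype α] [DecidableEq α] {G : SimpleGraph α} {u w w' : α} {Z : Chain α},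
    Gam G u w w' Z → Gam G u w' w Z
  tri : ∀ {α : Type} [Fintype α] [DecidableEq α] {G : SimpleGraph α} {u w w' v : α} {Z : Chain α},
    KConn 4 G → Gam G u w w' Z → G.Adj u v → v ≠ w → v ≠ w' → Z ∈ Z1 (del G {u, w, w', v}) →
    Gam G u w v Z ∨ Gam G u w' v Z
  sup : ∀ {α : Type} [Fintype α] [DecidableEq α] {G H : SimpleGraph α} {u w w' : α} {Z : Chain α},
    Gam G u w w' Z → (∀ e ∈ G.edgeSet, u ∉ e → e ∈ H.edgeSet) → H.Adj u w → H.Adj u w' → NP H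
  cyc : ∀ {α : Type} [Fintype α] [DecidableEq α] {G : SimpleGraph α} {u w w' : α} {Z : Chain α},
    KConn 4 G → ¬ NP (del G {u}) → Gam G u w w' Z →
    ∃ C, IsCyc (del G {u, w, w'}) C ∧ Gam G u w w' (chi C)
  sepc : ∀ {α : Type} [Fintype α] [DecidableEq α] {G : SimpleGraph α} {u w w' : α} {Z : Chain α} {Q : Finset α},
    ¬ NP (del G {u}) → Gam G u w w' Z → (∀ e v, Z e ≠ 0 → v ∈ e → v ∈ Q) → w ∉ Q → w' ∉ Q →
    ¬ (del G (insert u Q)).Reachable w w'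
  func : ∀ {α : Type} [Fintype α] [DecidableEq α] {G : SimpleGraph α} {u w w' : α},
    KConn 4 G → ¬ NP (del G {u}) → G.Adj u w → G.Adj u w' → w ≠ w' →
    ∃ a : Chain α, ∀ Z ∈ Z1 (del G {u, w, w'}), (Gam G u w w' Z ↔ pr a Z ≠ 0)

/-- **GK3** (from VKA, NPM, KUR, LPE, S3F, KC; 250 lines).  `G' = ` the graph `G` without the vertex `b` and without the edges at `u` other than the `u a_i`: it contains the model of `K_{3,3}`
with branch sets `{u}, {x}, K` and `{a_0}, {a_1}, {a_2}`, so (NPM.k33) there is `z ∈ Z_2(G')`, `vk z ≠ 0`.  Its rows at `u` are `λ_i := z (u a_i) ·`, `λ_i ∈ Z1 (G - {u, a_i, b})`, `Σ λ_i = 0` (boundary at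
`u`, `a_i ∉` the edges of `λ_i`).  LPE.star (`G - u` is 3-connected): `z_i ∈ Z_2(G)` with the rows `λ_i` at `u a_i` and `ub`, zero at the other edges at `u`.  `z + z_0 + z_1 + z_2` has zero rows at `u`, so it is in `Z_2(G - u)`, `vk = 0`: some
`vk z_i ≠ 0`, `Gam G u a_i b λ_i`. -/
def SpecGK3 : Prop := ∀ {α : Type} [Fintype α] [DecidableEq α] {G : SimpleGraph α} {u x b : α}
  {a : Fin 3 → α} {K : Finset α}, KConn 4 G → ¬ NP (del G {u}) → Function.Injective a →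
  (∀ i, G.Adj u (a i)) → (∀ i, G.Adj x (a i)) → G.Adj u b → x ≠ u → x ≠ b → (∀ i, a i ≠ b) →
  CSet G K → u ∉ K → x ∉ K → b ∉ K → (∀ i, a i ∉ K) → (∀ i, ∃ k ∈ K, G.Adj (a i) k) →
  ∃ i Z, Gam G u (a i) b Z

/-- **DFV** (from DL5 of E/Spec0 (helper61): at once; or from DL3, KST, KUR, S3F, NPC.mono; 150 lines).  A vertex `u` of degree 5, neighbours `a, b, c, r, s`, `r`, `s` not adjacent.  `N_P = dst G u P`.  `N_ab, N_ac, N_bc` are nonplanar graphs of class `C1`, so are `N_a, N_b, N_c` (adding an edge between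
two vertices of the graph preserves `C1` and, NPC.mono, NP), all are smaller than `G`: `OK` by `IH`; 3-connected graphs are S3S.  `N_abc`: `u` has exactly the neighbours `r`, `s`, not adjacent, `G - u` is 3-connected: S3S [a 2-cut
`{p, q}` of `N_abc` (`u ∉ {p, q}` since `G - u - q` is connected … ) : `G - u - p - q` is connected, so `{p, q} = {r, s}` isolates `u`].  DEL3: `U G`.  KST (`w = a, b, c, r, s`): `KZ G`. -/
def SpecDFV : Prop := ∀ {α : Type} [Fintype α] [DecidableEq α] {G : SimpleGraph α} {u a b c r s : α},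
  K48 G → IH G → [u, a, b, c, r, s].Nodup →
  (∀ w, G.Adj u w ↔ w = a ∨ w = b ∨ w = c ∨ w = r ∨ w = s) → ¬ G.Adj r s →
  C1 (dst G u {a, b}) → C1 (dst G u {a, c}) → C1 (dst G u {b, c}) →
  NP (dst G u {a, b}) → NP (dst G u {a, c}) → NP (dst G u {b, c}) → OK G

/-! ## B. (3,4)-pairs -/

/-- **E3C** (from CRX, NBF, KC; 200 lines).  Two edges at `y` deleted.  CRX at `u = y`: `Sep G T A B`, `y ∈ T`, `A ≠ ∅`, `|B| ≥ 2`, `N(y) ∩ B ⊆ P`; `y` has a neighbour in `A` and in `B`.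
`pair`, `P = {s₂, s₃}`: `x ∉ B`.  `x ∈ A`: `s₂, s₃, s₄ ∉ B`, no neighbour of `y` in `B`: no.  So `x ∈ T = {x, y, c, d}`; `s₁, s₄ ∉ B`.  If only one of `s₂, s₃` is in `B`, say `s`: `N(B - s) ⊆ {s, c, d}`, (*): `B = {s}`: no.  So `s₂, s₃ ∈ B`, and the neighbour of `x` in `A` is `s₄`.  `s₁
∈ A`: the split (sides exchanged).  `s₁ ∈ T`: `N(A - s₄) ⊆ {s₄} ∪ (T - x - y)`: `A = {s₄}`, `N(s₄) ⊆ T = {x, y, s₁, w}`, degree ≥ 4.
`edge`, `P = {x, s₂}`: `x ∈ T`: `x` and `y` have in `B` only the neighbour `s₂`: `B = {s₂}`: no.  `x ∈ A`: `s₂ ∉ B`, no neighbour of `y` in `B`: no.  `x ∈ B`: `s₃, s₄ ∉ B` (not in `P`), `∉ A` (adjacent to `x`): `T = {y, s₃, s₄, c}`; `s₂ ∉ A`, so the neighbour of `y` in `A` is `s₁`.  `s₂ ∈ T`: `N(B - x) ⊆ {s₂, s₃,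
s₄}`, `B = {x}`: no.  So `s₂ ∈ B`. -/
structure SpecE3C : Prop where
  pair : ∀ {α : Type} [Fintype α] [DecidableEq α] {G : SimpleGraph α} {x y s₁ s₂ s₃ s₄ : α},
    K48 G → P34 G x y s₁ s₂ s₃ s₄ → C1 (dst G y {s₂, s₃}) ∨
      (∃ w, ∀ v, G.Adj s₄ v ↔ v = x ∨ v = y ∨ v = s₁ ∨ v = w) ∨ SPL G x y s₂ s₃ s₄ s₁
  edge : ∀ {α : Type} [Fintype α] [DecidableEq α] {G : SimpleGraph α} {x y s₁ s₂ s₃ s₄ : α},
    K48 G → P34 G x y s₁ s₂ s₃ s₄ → C1 (dst G y {x, s₂}) ∨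
      ∃ c A B, [y, s₃, s₄, c].Nodup ∧ Sep G {y, s₃, s₄, c} A B ∧ x ∈ A ∧ s₂ ∈ A ∧ s₁ ∈ B

/-- **E3S** (from E3C, NBF, KC; 350 lines).  A split `{s₂ s₃ | s₄ s₁}`: cut `T = {x, y, c, d}`, `s₂, s₃ ∈ A`, `s₄, s₁ ∈ B`.  CORNERS: for another cut `T'` with sides `A'`, `B'` the neighbours of `A ∩ A'` are in `(T ∩ A') ∪ (T' ∩ A) ∪ (T ∩ T')`; a nonempty corner has at least 4 neighbours.  Each of the following `C1`
statements is E3C; the alternatives are impossible: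
(1) `{x, s₄}` (E3C.edge): `T' = {y, s₂, s₃, e}`, `x, s₄ ∈ A'`, `s₁ ∈ B'`.  `t := |{c, d} ∩ T'|`, `a := |{c, d} ∩ A'|`, `b := |{c, d} ∩ B'|`, `a + b + t = 2`, `v := [e ∈ B]`, `t + v ≤ 1`.  `B ∩ A' ∋ s₄`: `≤ 2 + a + t + v` neighbours (`x, y`, no `s₂, s₃ ∈ A`); `B ∩ B' ∋ s₁`: `≤ 1 + b + t + v` (`x ∈ A'` does not count).  Both `≥ 4`: impossible.
(2) `{x, s₂}` (E3C.edge): `T' = {y, s₃, s₄, e}`, `x, s₂ ∈ A'`, `s₁ ∈ B'`.  `A ∩ A' ∋ s₂`: neighbours in `{x, y, s₃} ∪ ({c, d} ∩ (A' ∪ T')) ∪ ({e} ∩ A)`; `B ∩ B' ∋ s₁`: in `{y, s₄} ∪ ({c, d} ∩ (B' ∪ T')) ∪ ({e} ∩ B)`.  The sum of the sizes of the two sets is at most 8, so both have exactly 4 elements, `N(A ∩ A') = {x, y, s₃, e'}`; `N(A ∩ A' - s₂) ⊆ {s₂, s₃, e'}` (`x`,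
`y` have in `A ∩ A'` only the neighbour `s₂`): `A ∩ A' = {s₂}`, `N(s₂) = {x, y, s₃, e'}`, `e' ≠ s₄` (`s₄ ∈ B`): `P33 G x s₂ e' s₄ y s₃`: excluded.  (3) `{x, s₃}`: the same.
(4) `{s₂, s₄}` (E3C.pair): `N(s₃) = {x, y, s₁, w}` impossible (`s₃ ∈ A`, `s₁ ∈ B`); a split `{s₂ s₄ | s₃ s₁}`, cut `{x, y, c', d'}`, `s₂, s₄ ∈ A'`, `s₃, s₁ ∈ B'`: `A ∩ A' ∋ s₂` has at most `2 + p` neighbours, `B ∩ B' ∋ s₁` at most `1 + q` (`x` has no neighbour in `B ∩ B'`), `p + q ≤ 4` (each of `c, d, c', d'` counts for one of the two corners, common elements for both but there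
are fewer elements): `p ≥ 2`, `q ≥ 3`: no.  (5) `{s₃, s₄}`: the same. -/
def SpecE3S : Prop := ∀ {α : Type} [Fintype α] [DecidableEq α] {G : SimpleGraph α} {x y s₁ s₂ s₃ s₄ : α},
  K48 G → No33 G → P34 G x y s₁ s₂ s₃ s₄ → SPL G x y s₂ s₃ s₄ s₁ →
  C1 (dst G y {x, s₂}) ∧ C1 (dst G y {x, s₃}) ∧ C1 (dst G y {x, s₄}) ∧ C1 (dst G y {s₂, s₄}) ∧
    C1 (dst G y {s₃, s₄}) ∧ ¬ G.Adj s₂ s₁ ∧ ¬ G.Adj s₃ s₁

/-- a good triple `{x, i, j}` at `y` with complement `{k, s}` -/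
def GT3 {α : Type} [Fintype α] [DecidableEq α] (G : SimpleGraph α) (x y s i j k : α) : Prop :=
  C1 (dst G y {x, i}) ∧ C1 (dst G y {x, j}) ∧ C1 (dst G y {i, j}) ∧ ¬ G.Adj k s

/-- **E3T** (from E3C, NBF, KC; 350 lines).  No split.  By E3C.pair `{s_i, s_j}` is good unless `N(s_k) = {x, y, s₁, w}`.  If this never happens: first alternative.  Let (names) `N(s₄) = {x, y, s₁, w}` (the other two cases by symmetry).  (i) `{x, s₄}` is good: otherwise E3C.edge gives sides `A ∋ s₄`, `B ∋ s₁`, but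
`s₄ ~ s₁`.  (ii) `s₂ ~ s₁` and `s₃ ~ s₁` is impossible: `y` nonrigid, cut `T ∋ y`, sides `P`, `Q` with at least 2 vertices.  `x ∈ T = {x, y, c, d}`: if only one of `s₁, …, s₄` is in `P`, say `s`, then `N(P - s) ⊆ {s, c, d}`, `P = {s}`: no (none: no neighbour of `y`); same for `Q`; so two are in `P`, two in `Q`: a split: no.  `x ∈ P`: `s₂, s₃,
s₄ ∈ P ∪ T`, the neighbour of `y` in `Q` is `s₁`, so `T = {y, s₂, s₃, s₄}`, `N(P - x) ⊆ {s₂, s₃, s₄}`, `P = {x}`: no.  (iii) `s₂ ~ s₁`, `s₃ ≁ s₁`: `GT3 … s₂ s₄ s₃`: `{x, s₂}` is good (E3C.edge: `s₂ ∈ A`, `s₁ ∈ B`), `{s₂, s₄}` is good (`s₃ ≁ s₁`).  (iv) `s₃ ~ s₁`, `s₂ ≁ s₁`: the same.  (v) both not adjacent to `s₁`: `GT3 … s₂ s₄ s₃` unless there is a cut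
`T = {y, s₃, s₄, c}`, `x, s₂ ∈ A`, `s₁ ∈ B`; `GT3 … s₃ s₄ s₂` unless there is a cut `T' = {y, s₂, s₄, c'}`, `x, s₃ ∈ A'`, `s₁ ∈ B'`.  Suppose both.  The neighbours of `B ∩ B' ∋ s₁` are in `{y, s₄, c, c'}`, so they are these four, `c ∈ B'`, `c' ∈ B`.  `N(A ∩ A' - x) ⊆ {s₂, s₃, s₄}` (`y` has no neighbour there, nor has `x`): `A ∩ A' = {x}`.  `N(A ∩ B') ⊆ {s₂, s₄, c}`:
empty.  So `A = {x, s₂}`, `A' = {x, s₃}`, `N(s₂) ⊆ {x, y, s₃, s₄, c}`, `N(s₃) ⊆ {x, y, s₂, s₄, c'}`.  `s₄` is adjacent to at most one of `s₂, s₃` (`w`).  `s₂ ≁ s₄`: `N(s₂) = {x, y, s₃, c}`: `P33 G x s₂ c s₄ y s₃`; `s₃ ≁ s₄`: `P33 G x s₃ c' s₄ y s₂`: excluded. -/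
def SpecE3T : Prop := ∀ {α : Type} [Fintype α] [DecidableEq α] {G : SimpleGraph α} {x y s₁ s₂ s₃ s₄ : α},
  K48 G → No33 G → P34 G x y s₁ s₂ s₃ s₄ → ¬ Rig G y → ¬ SPL G x y s₂ s₃ s₄ s₁ →
  ¬ SPL G x y s₂ s₄ s₃ s₁ → ¬ SPL G x y s₃ s₄ s₂ s₁ →
  (C1 (dst G y {s₂, s₃}) ∧ C1 (dst G y {s₂, s₄}) ∧ C1 (dst G y {s₃, s₄})) ∨
    GT3 G x y s₁ s₂ s₃ s₄ ∨ GT3 G x y s₁ s₂ s₄ s₃ ∨ GT3 G x y s₁ s₃ s₄ s₂

/-- **E3D** (from NCX, NCN, NBF, KC; 250 lines).  `J = G - y` planar.  `leaf`: `Z ∈ Z1 (G - {y, x, s₁})`; there `s₄` has at most the neighbour `w`, so `Z` avoids `s₄`; path `x s₄ s₁`: NCX.sepc.  `all`: for `W ∈ Z1 (G - {y, x, s₄, s₁})` not `Gam G y s₄ s₁ W` (NCX.tri with `v = x`: `Gam` for `s₄, x`: NCN.nadj; for `s₁, x`: hypothesis).  So `Z (x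
s₂) = 1` (in `G - {y, s₄, s₁}` `x` has exactly the neighbours `s₂, s₃`, so `Z (xs₂) = Z (xs₃)`), `Z + Z' ∈ Z1 (G - {y, x, s₄, s₁})`, NCN.lin.  `cut`: let `T = {y, s₃, s₄, c}`, `x, s₂ ∈ A`, `s₁ ∈ B`.  A component of `A - x` without `s₂` would have its neighbours in `{s₃, s₄, c}`: `A - x` is connected.  `B` is connected (every component contains a neighbour of `y`, i.e. `s₁`).  If `s₃`
has a neighbour in `A - x`: cycle `x s₂ … s₃ x` in `A ∪ {s₃}`, `Gam` by `all`, and a path from `s₄` to `s₁` in `B ∪ {s₄}`: contradiction to NCN.sep.  So `N(A - x - s₂) ⊆ {s₂, s₄, c}`: `A = {x, s₂}`, `N(s₂) = {x, y, s₄, c}`: `P33 G x s₂ c s₃ y s₄`: excluded. -/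
structure SpecE3D : Prop where
  leaf : ∀ {α : Type} [Fintype α] [DecidableEq α] {G : SimpleGraph α} {x y s₁ s₂ s₃ s₄ : α} {Z : Chain α},
    K48 G → P34 G x y s₁ s₂ s₃ s₄ → ¬ NP (del G {y}) → Gam G y x s₁ Z →
    ¬ ∃ w, ∀ v, G.Adj s₄ v ↔ v = x ∨ v = y ∨ v = s₁ ∨ v = w
  all : ∀ {α : Type} [Fintype α] [DecidableEq α] {G : SimpleGraph α} {x y s₁ s₂ s₃ s₄ : α} {Z Z' : Chain α},
    K48 G → P34 G x y s₁ s₂ s₃ s₄ → ¬ NP (del G {y}) → (∀ W, ¬ Gam G y x s₁ W) → Gam G y s₄ s₁ Z →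
    Z' ∈ Z1 (del G {y, s₄, s₁}) → Z' s(x, s₂) = 1 → Gam G y s₄ s₁ Z'
  cut : ∀ {α : Type} [Fintype α] [DecidableEq α] {G : SimpleGraph α} {x y s₁ s₂ s₃ s₄ : α} {Z : Chain α},
    K48 G → No33 G → P34 G x y s₁ s₂ s₃ s₄ → ¬ NP (del G {y}) → (∀ W, ¬ Gam G y x s₁ W) →
    Gam G y s₄ s₁ Z →
    ¬ ∃ c A B, [y, s₃, s₄, c].Nodup ∧ Sep G {y, s₃, s₄, c} A B ∧ x ∈ A ∧ s₂ ∈ A ∧ s₁ ∈ B

/-- **E3G** (from GK3, NBF; 80 lines).  `J = G - y` planar: some `Gam G y s_i s₁`, `i = 2, 3, 4`.  GK3 with `u = y`, `a = s₂, s₃, s₄`, `b = s₁`, `K` = a component of `G - {x, y, s₁, …, s₄}` (not empty as `n ≥ 8`): `N(K) ⊆ {s₁, …, s₄}`, so it is equal. -/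
def SpecE3G : Prop := ∀ {α : Type} [Fintype α] [DecidableEq α] {G : SimpleGraph α} {x y s₁ s₂ s₃ s₄ : α},
  K48 G → P34 G x y s₁ s₂ s₃ s₄ → ¬ NP (del G {y}) →
  (∃ Z, Gam G y s₂ s₁ Z) ∨ (∃ Z, Gam G y s₃ s₁ Z) ∨ ∃ Z, Gam G y s₄ s₁ Z

/-- **E3F** (from E3G, E3D, NCX, NCN, STA, NBF, KC; 350 lines).  `J = G - y` planar, split `{s₂ s₃ | s₄ s₁}`, cut `{x, y, c, d}`, `s₂, s₃ ∈ A`, `s₄, s₁ ∈ B`.  Suppose neither `Gam G y s₂ s₁` nor `Gam G y s₃ s₁` ever holds; E3G: `Gam G y s₄ s₁ Z`.  `B` is connected (every component contains a neighbour of `x`, i.e. `s₄`).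
Case 1: `Gam G y x s₁` never holds.  `s₂`, `s₃` connected in `A`: `ν` = cycle `x s₂ … s₃ x` in `A ∪ {x}`; otherwise the component of `s₂` in `A` is `{s₂}` (its other vertices would have their neighbours in `{s₂, c, d}`), `s₂ ~ c`, the same for `s₃`: `ν = x s₂ c s₃ x`.  E3D.all: `Gam G y s₄ s₁ (chi ν)`; a path from `s₄` to `s₁` in `B` avoids `ν`: NCN.sep.
Case 2: `Gam G y x s₁ Z₀`.  NCX.func: `a` with `Gam G y x s₁ Z ↔ pr a Z ≠ 0` on `Z1 (G - {y, x, s₁})`.  `pr a` vanishes on `Z1 (G - {y, x, s₁, s₂})` (NCX.tri with `v = s₂`: `Gam` for `x, s₂`: NCN.nadj; for `s₁, s₂`: excluded) and on `Z1 (G - {y, x, s₁, s₃})`.  STA (`J = G - {x, y, s₁}`, `l = s₂`, `m = s₃`; `G - {x, y, s₁, s₂, s₃}` is connected: a component without `s₄` has its neighbours in `{s₁, s₂, s₃}`): `pr a Z = Z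
(s₂s₃)`, `s₂ ~ s₃`.  There is a cycle `C` through `s₂s₃` in `A ∪ {c, d}`: let `D₂`, `D₃` be the sets of vertices connected to `s₂`, `s₃` in `G[A ∪ {c, d}] - s₂s₃`; if `s₃ ∉ D₂` then `N(D₂ ∩ A - s₂) ⊆ {s₂} ∪ ({c, d} ∩ D₂)`, so `D₂ ∩ A = {s₂}`, `D₃ ∩ A = {s₃}`, `A = {s₂, s₃}` (a component of `A - s₂ - s₃` is adjacent to `s₂`), and both have degree at least 4, so `N(s₂) = {x, y, s₃, c}`
(names): `P33 G x s₂ c s₄ y s₃`: excluded.  So `Gam G y x s₁ (chi C)`, but the path `x s₄ … s₁` in `{x} ∪ B` avoids `C`: NCN.sep. -/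
def SpecE3F : Prop := ∀ {α : Type} [Fintype α] [DecidableEq α] {G : SimpleGraph α} {x y s₁ s₂ s₃ s₄ : α},
  K48 G → No33 G → P34 G x y s₁ s₂ s₃ s₄ → ¬ NP (del G {y}) → SPL G x y s₂ s₃ s₄ s₁ →
  (∃ Z, Gam G y s₂ s₁ Z) ∨ ∃ Z, Gam G y s₃ s₁ Z

/-- **E34** (from DFV, E3C, E3S, E3T, E3D, E3G, E3F, NCX, NCN, NPC; 250 lines).  (3,4)-pairs.  `y` has degree 5, so it is not rigid (`SH.rig`).  DFV at `u = y`.  NONPLANAR CONDITIONS: if `NP (del G {y})` then all `dst G y P` are nonplanar (NPC.mono); if `Gam G y r s Z` then `NP (dst G y P)` for all `P` with `r, s ∉ P` (NCX.sup).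
`NP (del G {y})`: a split, say (symmetry) `{s₂ s₃ | s₄ s₁}`: E3S: triple `x, s₂, s₄`, complement `s₃, s₁`.  No split: E3T (first alternative: triple `s₂, s₃, s₄`, complement `x, s₁`, not adjacent).
`¬ NP (del G {y})`: split `{s₂ s₃ | s₄ s₁}`: E3F; `Gam G y s₃ s₁`: triple `x, s₂, s₄`; `Gam G y s₂ s₁`: triple `x, s₃, s₄` (E3S).  No split: if some `Gam G y x s₁ Z`: triple `s₂, s₃, s₄`, good by E3C.pair and E3D.leaf.  Otherwise E3G: `Gam G y s_k s₁ Z`, say `k = 4`: `s₄ ≁ s₁` (NCN.nadj), triple `x, s₂, s₃`: `{s₂, s₃}` good by E3C.pair (`s₄ ≁ s₁`, no split), `{x, s₂}`, `{x, s₃}` good by E3C.edge and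
E3D.cut (for `s₂`, and with `s₂`, `s₃` exchanged). -/
def SpecE34 : Prop := ∀ {α : Type} [Fintype α] [DecidableEq α] {G : SimpleGraph α} {x y s₁ s₂ s₃ s₄ : α},
  SH G → No33 G → P34 G x y s₁ s₂ s₃ s₄ → OK G

/-! ## C. Two vertices adjacent to the same four vertices -/

/-- **EDB** (from NCX, NCN, KC; 150 lines).  `J = G - x` planar.  `all`: for `W ∈ Z1 (G - {x, y, s 2, s 3})` the path `s₂ y s₃` shows that not `Gam G x (s 2) (s 3) W` (NCX.sepc).  In `G - {x, s 2, s 3}` `y` has exactly the neighbours `s 0`, `s 1`, so `Z (y s₀) = Z (y s₁)`, and it is `1` for `Gam … Z`; `Z + Z'` avoids `y`; NCN.lin.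
`dis`: otherwise the cycle `y s₀ P s₁ y` is `Gam` by `all` and `Q` is disjoint from it: NCN.sep. -/
structure SpecEDB : Prop where
  all : ∀ {α : Type} [Fintype α] [DecidableEq α] {G : SimpleGraph α} {x y : α} {s : Fin 4 → α} {Z Z' : Chain α},
    K48 G → DP G x y s → ¬ NP (del G {x}) → Gam G x (s 2) (s 3) Z → Z' ∈ Z1 (del G {x, s 2, s 3}) →
    Z' s(y, s 0) = 1 → Gam G x (s 2) (s 3) Z'
  dis : ∀ {α : Type} [Fintype α] [DecidableEq α] {G : SimpleGraph α} {x y : α} {s : Fin 4 → α} {Z : Chain α}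
    {P Q : Finset (Sym2 α)}, K48 G → DP G x y s → ¬ NP (del G {x}) → Gam G x (s 2) (s 3) Z →
    IsPth (del G {x, y}) (s 0) (s 1) P → IsPth (del G {x, y}) (s 2) (s 3) Q → ¬ Disjoint (vs P) (vs Q)

/-- **EDL** (from NBF, KC; 150 lines).  A split gives disjoint paths.  Cut `{x, y, c, d}`, `s₀, s₁ ∈ A`, `s₂, s₃ ∈ B`.  If `s₀`, `s₁` are connected in `A` take such a path; otherwise the component of `s₀` in `A` is `{s₀}` (the rest of it would have its neighbours in `{s₀, c, d}`), so `s₀ ~ c`, the same for `s₁`: path `s₀ c s₁`.  From `s₂` to `s₃` a path in `B` or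
`s₂ d s₃`. -/
def SpecEDL : Prop := ∀ {α : Type} [Fintype α] [DecidableEq α] {G : SimpleGraph α} {x y : α} {s : Fin 4 → α},
  K48 G → DP G x y s → SPL G x y (s 0) (s 1) (s 2) (s 3) →
  ∃ P Q, IsPth (del G {x, y}) (s 0) (s 1) P ∧ IsPth (del G {x, y}) (s 2) (s 3) Q ∧ Disjoint (vs P) (vs Q)

/-- **EDG** (from GK3, PAI, EDB, NCX, NBF, KC; 200 lines).  `J = G - x` planar.  `one`: GK3 with `u = x`, `x := y`, `b = s m`, `K` = a component of `G - {x, y} - S` (`n ≥ 8`; its neighbours are all of `S`).  `two`: `H = G - x - y` is 2-connected; PAI: two of the three pairings of `S` have disjoint paths; for them there is no `Gam` (EDB.dis, for a relabelling of `s`).  So by `one` for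
`m = 0` the partner of `s 0` in the third pairing is a `Gam` partner, and by `one` for another `m` the other pair is `Gam`, too. -/
structure SpecEDG : Prop where
  one : ∀ {α : Type} [Fintype α] [DecidableEq α] {G : SimpleGraph α} {x y : α} {s : Fin 4 → α},
    K48 G → DP G x y s → ¬ NP (del G {x}) → ∀ m : Fin 4, ∃ i, i ≠ m ∧ ∃ Z, Gam G x (s i) (s m) Z
  two : ∀ {α : Type} [Fintype α] [DecidableEq α] {G : SimpleGraph α} {x y : α} {s : Fin 4 → α},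
    K48 G → DP G x y s → ¬ NP (del G {x}) → ∃ σ : Equiv.Perm (Fin 4),
      (∃ Z, Gam G x (s (σ 0)) (s (σ 1)) Z) ∧ ∃ Z, Gam G x (s (σ 2)) (s (σ 3)) Z

/-- **E4N** (from NBF, KC; 150 lines).  `x` nonrigid: cut `T ∋ x`, sides `P`, `Q` with at least two vertices.  `y ∈ P`: `S ∩ Q = ∅`, `x` has no neighbour in `Q`: no.  So `T = {x, y, c, d}`; if `P` contains only one element `s` of `S` then `N(P - s) ⊆ {s, c, d}`, `P = {s}`: no (none: no neighbour of `x`); the same for `Q`.  So two are in `P` and two in `Q`. -/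
def SpecE4N : Prop := ∀ {α : Type} [Fintype α] [DecidableEq α] {G : SimpleGraph α} {x y : α} {s : Fin 4 → α},
  K48 G → DP G x y s → x ∈ VS G → ¬ Rig G x → SPL G x y (s 0) (s 1) (s 2) (s 3) ∨
    SPL G x y (s 0) (s 2) (s 1) (s 3) ∨ SPL G x y (s 0) (s 3) (s 1) (s 2)

/-- `G` is `K_{4,4}` with parts `{a i}`, `{b i}` and perhaps the edges `a₀a₁`, `a₂a₃` -/
structure K4E {α : Type} [Fintype α] [DecidableEq α] (G : SimpleGraph α) (a b : Fin 4 → α) : Prop where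
  ia : Function.Injective a
  ib : Function.Injective b
  ab : ∀ i j, a i ≠ b j
  vs : ∀ v ∈ VS G, (∃ i, v = a i) ∨ ∃ i, v = b i
  nb : ∀ i w, G.Adj (b i) w ↔ ∃ j, w = a j
  aa : ∀ i j, G.Adj (a i) (a j) → (i = 0 ∧ j = 1) ∨ (i = 1 ∧ j = 0) ∨ (i = 2 ∧ j = 3) ∨ (i = 3 ∧ j = 2)

/-- the ring: `n = 10`, 4-cycle `c c' d d'`, `s₀` between `c` and `c'`, `s₁` between `c'` and `d`, `s₃` between `d` and `d'`, `s₂` between `d'` and `c` -/
structure RNG {α : Type} [Fintype α] [DecidableEq α] (G : SimpleGraph α) (x y : α) (s : Fin 4 → α)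
    (c d c' d' : α) : Prop where
  nd : [x, y, s 0, s 1, s 2, s 3, c, d, c', d'].Nodup
  vs : ∀ v ∈ VS G, v ∈ [x, y, s 0, s 1, s 2, s 3, c, d, c', d']
  n0 : ∀ w, G.Adj (s 0) w ↔ w = x ∨ w = y ∨ w = c ∨ w = c'
  n1 : ∀ w, G.Adj (s 1) w ↔ w = x ∨ w = y ∨ w = d ∨ w = c'
  n2 : ∀ w, G.Adj (s 2) w ↔ w = x ∨ w = y ∨ w = c ∨ w = d'
  n3 : ∀ w, G.Adj (s 3) w ↔ w = x ∨ w = y ∨ w = d ∨ w = d'
  nc : ∀ w, G.Adj c w ↔ w = s 0 ∨ w = s 2 ∨ w = c' ∨ w = d'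
  nd' : ∀ w, G.Adj d w ↔ w = s 1 ∨ w = s 3 ∨ w = c' ∨ w = d'
  ncp : ∀ w, G.Adj c' w ↔ w = s 0 ∨ w = s 1 ∨ w = c ∨ w = d
  ndp : ∀ w, G.Adj d' w ↔ w = s 2 ∨ w = s 3 ∨ w = c ∨ w = d

/-- **E4S** (from NBF, KC; 350 lines).  Two different splits: cut `T = {x, y, c, d}`, `s₀, s₁ ∈ A`, `s₂, s₃ ∈ B`; cut `T' = {x, y, c', d'}`, `s₀, s₂ ∈ A'`, `s₁, s₃ ∈ B'`.  The corner `A ∩ A'` contains `s₀`; its neighbours are `x`, `y` and at most `p₀₀ := |{c, d} ∩ (A' ∪ T')| + |{c', d'} ∩ A|` others, `p₀₀ ≥ 2`; same for the other three corners, `p₀₀ + p₁₁ ≤ 4`, `p₀₁ + p₁₀ ≤ 4`: all are 2, and a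
corner minus its `s_i` has at most 3 neighbours (`s_i` and two others): each corner is `{s_i}`.  If `{c, d} ∩ {c', d'}` has one element, `c = c'` say: `p₀₀ = 1 + [d ∈ A'] + [d' ∈ A]`, `p₁₁ = 1 + [d ∈ B'] + [d' ∈ B]`, `p₀₁ = 1 + [d ∈ B'] + [d' ∈ A]`, `p₁₀ = 1 + [d ∈ A'] + [d' ∈ B]` cannot all be 2.  Equal cuts: all vertices are `x, y, c, d, s_i`, `N(s_i) = {x, y, c, d}`; `x`, `y` are not adjacent to `c`, `d`
(DP): `K4E G ![x, y, c, d] s`.  Disjoint: `|{c, d} ∩ A'| = 1 = |{c, d} ∩ B'|`, …; names: `c ∈ A'`, `d ∈ B'`, `c' ∈ A`, `d' ∈ B`: `N(s₀) = {x, y, c, c'}` etc., `N(c) ⊆ A' ∪ T'`, not `x, y`: `{s₀, s₂, c', d'}`, `N(d) = {s₁, s₃, c', d'}`, `N(c') = {s₀, s₁, c, d}`, `N(d') = {s₂, s₃, c, d}`. -/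
def SpecE4S : Prop := ∀ {α : Type} [Fintype α] [DecidableEq α] {G : SimpleGraph α} {x y : α} {s : Fin 4 → α},
  K48 G → DP G x y s → SPL G x y (s 0) (s 1) (s 2) (s 3) → SPL G x y (s 0) (s 2) (s 1) (s 3) →
  (∃ c d, K4E G ![x, y, c, d] s) ∨ ∃ c d c' d', RNG G x y s c d c' d'

/-- **E4C** (from CRX, NBF, KC; 200 lines).  (4,4)-pair, two edges at `x` deleted.  CRX at `u = x`: `Sep G T A B`, `x ∈ T`, `A ≠ ∅`, `|B| ≥ 2`, `N(x) ∩ B ⊆ P`.
`edge`, `P = {y, s 0}`: `y ∈ B`: no element of `S` in `A`, no neighbour of `x` in `A`: no; `y ∈ A`: no neighbour of `x` in `B`: no; `y ∈ T`: `x` and `y` have in `B` only the neighbour `s 0`: `N(B - s₀) ⊆ {s₀} ∪ (T - x - y)`, `B = {s₀}`: no.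
`pair`, `P = {s 0, s 1}`: `y ∈ T` as before; if only one of them is in `B` then `|B| = 1`: no; so `s₀, s₁ ∈ B`, `s₂, s₃ ∉ B`, one of them, say `s₂`, in `A`.  `s₃ ∈ T`: `A = {s₂}`, `N(s₂) = T ∋ s₃`: excluded.  `s₃ ∈ A`: a split. -/
structure SpecE4C : Prop where
  edge : ∀ {α : Type} [Fintype α] [DecidableEq α] {G : SimpleGraph α} {x y : α} {s : Fin 4 → α},
    K48 G → P44 G x y s → C1 (dst G x {y, s 0})
  pair : ∀ {α : Type} [Fintype α] [DecidableEq α] {G : SimpleGraph α} {x y : α} {s : Fin 4 → α},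
    K48 G → P44 G x y s → ¬ G.Adj (s 2) (s 3) → ¬ SPL G x y (s 0) (s 1) (s 2) (s 3) →
    C1 (dst G x {s 0, s 1})

/-- **E44** (from DFV, E4C, E4N, E4S, EDB, EDL, EDG, NCX, NCN, NPC, E5K (Spec5); 250 lines).  (4,4)-pairs.  `x` has degree 5, so it is not rigid.  `P44` gives `DP`; both are invariant under relabelling of `s`.
`NP (del G {x})`: all `dst G x P` are nonplanar.  E4N: relabel: a split `{s₀ s₁ | s₂ s₃}`; so `s₀, s₁` are not adjacent to `s₂, s₃`.  Triple `y, s₀, s₂` with complement `s₁, s₃` (E4C) unless `{s₀ s₂ | s₁ s₃}` is a split; triple `y, s₀, s₃` unless `{s₀ s₃ | s₁ s₂}` is.  If all three are splits: E4S.  `K4E`: E5K.  `RNG`: a cut `{x, y, e, f}`, `s₀, s₃ ∈ A`, `s₁, s₂ ∈ B`: `c ~ s₀, s₂`, `c' ~ s₀, s₁`, `d ~ s₁, s₃` are in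
`{e, f}`: no.
`¬ NP (del G {x})`: EDG.one, relabel: `Gam G x (s 2) (s 3) Z`: not adjacent (NCN.nadj), `{s₀ s₁ | s₂ s₃}` is no split (EDL, EDB.dis): triple `y, s₀, s₁` with complement `s₂, s₃` (E4C), nonplanar by NCX.sup. -/
def SpecE44 : Prop := ∀ {α : Type} [Fintype α] [DecidableEq α] {G : SimpleGraph α} {x y : α} {s : Fin 4 → α},
  SH G → P44 G x y s → OK G

end DL
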