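import Pool.Agent.DL.E.Spec2b
import Pool.Agent.DL.E.SpecR3
import Pool.Agent.DL.KC
import Pool.Agent.DL.NP.TRC
import Pool.Agent.DL.K.KY3
import Pool.Agent.DL.E.E5T

section
/-!
# MP_3ff0f8_gt, row 186, module X35 (helper39)
-/
open SimpleGraph Finset

namespace DL

namespace X35M

theorem nd {α : Type} {G : SimpleGraph α} {x y s₁ s₂ s₃ s₄ : α} (h : P33 G x y s₁ s₂ s₃ s₄) :
    x ≠ y ∧ x ≠ s₁ ∧ x ≠ s₂ ∧ x ≠ s₃ ∧ x ≠ s₄ ∧ y ≠ s₁ ∧ y ≠ s₂ ∧ y ≠ s₃ ∧ y ≠ s₄ ∧ s₁ ≠ s₂ ∧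
      s₁ ≠ s₃ ∧ s₁ ≠ s₄ ∧ s₂ ≠ s₃ ∧ s₂ ≠ s₄ ∧ s₃ ≠ s₄ := by
  have := h.nd
  simp only [List.nodup_cons, List.mem_cons, List.not_mem_nil, or_false, not_or,
    List.nodup_nil, and_true, not_false_eq_true] at this
  tauto

end X35M

open X35M

theorem specX35 (hXA3 : SpecXA3) (hXN3 : SpecXN3) (hXCB : SpecXCB) (hXCC : SpecXCC)
    (hDL5 : SpecDL5) (hDST : SpecDST) : SpecX35 := by
  intro α _ _ G x y s₁ s₂ s₃ s₄ hT hNP hIH hH hKZ
  obtain ⟨w, hw, hwn⟩ := hXCB.s3 hT.k48 hT.p33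
  simp only [mem_insert, mem_singleton, not_or] at hwn
  obtain ⟨hwx, hwy, hw1, hw2, hw4⟩ := hwn
  obtain ⟨hxy, hx1, hx2, hx3, hx4, hy1, hy2, hy3, hy4, h12, h13, h14, h23, h24, h34⟩ := nd hT.p33
  have e2 : dst G s₃ {s₂} = delE G s₂ s₃ := by rw [hDST.one, delE_comm]
  have e1 : dst G s₃ {s₁} = delE G s₁ s₃ := by rw [hDST.one, delE_comm]
  have c2 : C1 (dst G s₃ {s₂}) := by rw [e2]; exact hXCC.c1 hT.k48 hT.p33 hT.a2
  have c1 : C1 (dst G s₃ {s₁}) := by rw [e1]; exact hXCC.c1 hT.k48 hT.p33.sym1 hT.a1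
  have cy : C1 (dst G s₃ {y}) := hXA3.y0 hT hH
  have c21 : C1 (dst G s₃ {s₂, s₁}) := by
    rw [Finset.pair_comm]; exact hXA3.s12 hT
  have c2y : C1 (dst G s₃ {s₂, y}) := hXA3.y1 hT hH
  have hN := hXN3 hT hNP
  refine hDL5 (u := s₃) (a := s₂) (b := s₁) (c := y) (r := x) (s := w) hT.k48 hIH ?_ ?_ ?_ ?_ hKZ
  · simp only [List.nodup_cons, List.mem_cons, List.not_mem_nil, or_false, not_or,
      List.nodup_nil, and_true, not_false_eq_true]
    exact ⟨⟨h12.symm, hy2.symm, hx2.symm, Ne.symm hw2⟩, ⟨hy1.symm, hx1.symm, Ne.symm hw1⟩,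
      ⟨hxy.symm, Ne.symm hwy⟩, Ne.symm hwx⟩
  · intro z hz
    simp only [mem_insert, mem_singleton] at hz
    rcases hz with rfl | rfl | rfl | rfl | rfl
    · exact hT.a2.symm
    · exact hT.a1.symm
    · exact ((hT.p33.ny _).2 (by tauto)).symm
    · exact ((hT.p33.nx _).2 (by tauto)).symm
    · exact hw
  · left
    intro hxw
    rcases (hT.p33.nx _).1 hxw with h | h | h | h
    · exact hwy h
    · exact hw2 h
    · exact hw.ne h.symm
    · exact hw4 h
  · rintro P (rfl | rfl | rfl | rfl | rfl)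
    · exact ⟨c2, hN _ (by tauto)⟩
    · exact ⟨c1, hN _ (by tauto)⟩
    · exact ⟨cy, hN _ (by tauto)⟩
    · exact ⟨c21, hN _ (by
        have : ({s₂, s₁} : Finset α) = {s₁, s₂} := Finset.pair_comm _ _
        tauto)⟩
    · exact ⟨c2y, hN _ (by tauto)⟩

end DL
end

section
/-!
# MP_3ff0f8_gt, ALGEBRA HALF, EXIST section 2.3: R3B, assembly (helper15)
-/
open SimpleGraph Finset

namespace DL

namespace R3BM

variable {α : Type} [Fintype α] [DecidableEq α] {G : SimpleGraph α} {x y s₁ s₂ s₃ s₄ c d d' : α}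

omit [Fintype α] [DecidableEq α] in
theorem h4 (h : ¬ G.Adj s₁ s₄) : H4 G x y s₁ s₄ := fun _ hz => h ((hz s₁).2 (by tauto)).symm

theorem b1 (hR3K : SpecR3K) (hR3P : SpecR3P) (hR3D : SpecR3D) (hX35 : SpecX35) (hDL5 : SpecDL5) (hDST : SpecDST)
    (hB : B1 G x y s₁ s₂ s₃ s₄ c d d') (hNP : NP G) (hIH : IH G) (h14 : ¬ G.Adj s₁ s₄) (h24 : ¬ G.Adj s₂ s₄) :
    OK G := by
  by_cases hcd' : G.Adj c d'
  swap
  · exact hX35 hB.t3 hNP hIH (h4 h14) (hR3K hB hNP hIH hcd')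
  by_cases hcd : G.Adj c d
  swap
  · exact hX35 hB.sym.t3 hNP hIH (h4 h24) (hR3K hB.sym hNP hIH hcd)
  obtain ⟨h, hch, hn⟩ := hR3P hB hNP
  have hC : ∀ P : Finset α, P ⊆ {d, s₁, s₂} → P.card ≤ 2 → C1 (dst G c P) ∧ NP (dst G c P) := fun P hP _ =>
    ⟨hR3D.c1 hB hcd hcd' hch hn hP, hR3D.np hB hNP hcd hP⟩
  have hnd := hB.nd
  simp only [List.nodup_cons, List.mem_cons, List.not_mem_nil, or_false, not_or, List.nodup_nil, and_true,
    not_false_eq_true] at hnd
  obtain ⟨⟨xy, x1, x2, x3, x4, xc, xd, xd'⟩, ⟨y1, y2, y3, y4, yc, yd, yd'⟩, ⟨a12, a13, a14, a1c, a1d, a1d'⟩,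
    ⟨a23, a24, a2c, a2d, a2d'⟩, ⟨a34, a3c, a3d, a3d'⟩, ⟨a4c, a4d, a4d'⟩, ⟨cd, cd'⟩, dd'⟩ := hnd
  have hc1 : G.Adj c s₁ := ((hB.n1 c).2 (by tauto)).symm
  have hc2 : G.Adj c s₂ := ((hB.n2 c).2 (by tauto)).symm
  have hc3 : G.Adj c s₃ := ((hB.n3 c).2 (by tauto)).symm
  refine hDL5 (u := c) (a := s₂) (b := s₁) (c := d) (r := s₃) (s := d') hB.k48 hIH ?_ ?_ ?_ ?_ ?_
  · simp only [List.nodup_cons, List.mem_cons, List.not_mem_nil, or_false, not_or, List.nodup_nil, and_true,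
      not_false_eq_true]
    exact ⟨⟨Ne.symm a12, a2d, a23, a2d'⟩, ⟨a1d, a13, a1d'⟩, ⟨Ne.symm a3d, dd'⟩, a3d'⟩
  · intro w hw
    simp only [mem_insert, mem_singleton] at hw
    rcases hw with rfl | rfl | rfl | rfl | rfl
    · exact hc2
    · exact hc1
    · exact hcd
    · exact hc3
    · exact hcd'
  · left
    intro h3
    rcases (hB.n3 d').1 h3 with h | h | h | h | h
    · exact xd' h.symm
    · exact yd' h.symm
    · exact a1d' h.symm
    · exact a2d' h.symm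
    · exact cd' h.symm
  · intro P hP
    refine hC P ?_ ?_
    · rcases hP with rfl | rfl | rfl | rfl | rfl <;> intro w hw <;> simp only [mem_insert, mem_singleton] at hw ⊢ <;>
        tauto
    · rcases hP with rfl | rfl | rfl | rfl | rfl
      · simp
      · simp
      · simp
      · exact card_le_two
      · exact card_le_two
  · have h1 : ({s₁, d} : Finset α) ⊆ {d, s₁, s₂} := by
      intro w hw; simp only [mem_insert, mem_singleton] at hw ⊢; tauto
    have h2 := hC _ h1 card_le_two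
    exact (hIH _ (hDST.sz4 hc1 (by simp)) h2.1 h2.2).2

end R3BM

theorem specR3B (hR3Y : SpecR3Y) (hR3K : SpecR3K) (hR3P : SpecR3P) (hR3D : SpecR3D) (hR3E : SpecR3E)
    (hX35 : SpecX35) (hDL5 : SpecDL5) (hDST : SpecDST) : SpecR3B := by
  intro α _ _ G x y s₁ s₂ s₃ s₄ hT hNP hIH h14 h24 _ _ h
  rcases h with ⟨c, d, d', D, h⟩ | ⟨c, d, h⟩
  · exact R3BM.b1 hR3K hR3P hR3D hX35 hDL5 hDST (hR3Y hT.k48 hT.p33 h) hNP hIH h14 h24
  · exact hR3E hT hIH h

end DL
end

section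
/-!
# MP_3ff0f8_gt, ALGEBRA HALF: module R3C, the graph `R = (G - s₃) + xc`
-/
open SimpleGraph Finset

namespace DL

namespace R3CM

variable {α : Type} [Fintype α] [DecidableEq α] {G H : SimpleGraph α}

omit [Fintype α] in
theorem rr_adj {x s₃ c u w : α} : (RR G x s₃ c).Adj u w ↔
    (G.Adj u w ∧ u ≠ s₃ ∧ w ≠ s₃) ∨ (((u = x ∧ w = c) ∨ (u = c ∧ w = x)) ∧ u ≠ w) := by
  unfold RR
  rw [SimpleGraph.sup_adj, fromEdgeSet_adj, Set.mem_singleton_iff, Sym2.eq_iff]
  simp only [del, mem_singleton]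

/-- a supergraph with the same vertices -/
theorem kconn_mono {k : ℕ} (h : G ≤ H) (hV : VS H = VS G) (hG : KConn k G) : KConn k H := by
  refine ⟨by rw [hV]; exact hG.1, fun S hS a ha b hb haS hbS => ?_⟩
  rw [hV] at ha hb
  have h1 : del G S ≤ del H S := fun u w huw => ⟨h huw.1, huw.2.1, huw.2.2⟩
  exact (hG.2 S hS a ha b hb haS hbS).mono h1

variable {x y s₁ s₂ s₃ s₄ c d d' : α}

/-- all the inequalities between the nine vertices -/
theorem nine (h : B1 G x y s₁ s₂ s₃ s₄ c d d') : 9 ≤ (VS G).card := by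
  have hsub : ({x, y, s₁, s₂, s₃, s₄, c, d, d'} : Finset α) ⊆ VS G := by
    intro v hv
    simp only [mem_insert, mem_singleton] at hv
    rcases hv with rfl | rfl | rfl | rfl | rfl | rfl | rfl | rfl | rfl
    · exact left_mem_VS ((h.p33.nx _).2 (Or.inl rfl))
    · exact left_mem_VS ((h.p33.ny _).2 (Or.inl rfl))
    · exact right_mem_VS ((h.p33.ny _).2 (by tauto))
    · exact right_mem_VS ((h.p33.nx _).2 (by tauto))
    · exact right_mem_VS ((h.p33.nx _).2 (by tauto))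
    · exact right_mem_VS ((h.p33.nx _).2 (by tauto))
    · exact right_mem_VS ((h.n1 _).2 (by tauto))
    · exact right_mem_VS ((h.n1 _).2 (by tauto))
    · exact right_mem_VS ((h.n2 _).2 (by tauto))
  have hcard : ({x, y, s₁, s₂, s₃, s₄, c, d, d'} : Finset α).card = 9 := by
    have h1 := List.toFinset_card_of_nodup h.nd
    simpa using h1
  rw [← hcard]
  exact card_le_card hsub

theorem vs_rr (h : B1 G x y s₁ s₂ s₃ s₄ c d d') :
    VS (RR G x s₃ c) = (VS G).erase s₃ ∧ KConn 3 (RR G x s₃ c) := by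
  have hnd := h.nd
  simp only [List.nodup_cons, List.mem_cons, List.not_mem_nil, or_false, not_or, List.nodup_nil,
    and_true, not_false_eq_true] at hnd
  have h1 : VS (del G {s₃}) = (VS G).erase s₃ := by
    rw [h.k48.1.VS_del (by simp), sdiff_singleton_eq_erase]
  have hx : x ∈ VS (del G {s₃}) := by
    rw [h1, mem_erase]
    exact ⟨by grind, left_mem_VS ((h.p33.nx _).2 (Or.inl rfl))⟩
  have hc : c ∈ VS (del G {s₃}) := by
    rw [h1, mem_erase]
    exact ⟨by grind, right_mem_VS ((h.n1 _).2 (by tauto))⟩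
  have hle : del G {s₃} ≤ RR G x s₃ c := le_sup_left
  have hV : VS (RR G x s₃ c) = VS (del G {s₃}) := by
    apply Subset.antisymm
    · intro v hv
      obtain ⟨w, hw⟩ := mem_VS.1 hv
      rw [rr_adj] at hw
      rcases hw with hw | ⟨⟨rfl, -⟩ | ⟨rfl, -⟩, -⟩
      · exact mem_VS.2 ⟨w, hw.1, by simpa using hw.2.1, by simpa using hw.2.2⟩
      · exact hx
      · exact hc
    · exact VS_mono hle
  exact ⟨hV.trans h1, kconn_mono hle hV (h.k48.1.del_vertex (by norm_num) s₃)⟩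

theorem c1_aux (h : B1 G x y s₁ s₂ s₃ s₄ c d d') {T P Q : Finset α} (hs : Sep (RR G x s₃ c) T P Q)
    (hs' : Sep G (insert s₃ T) P Q) (hcard : (insert s₃ T).card = 4) (hP : 2 ≤ P.card)
    (hQ : 2 ≤ Q.card) (hx : x ∈ P) : False := by
  have hnd := h.nd
  simp only [List.nodup_cons, List.mem_cons, List.not_mem_nil, or_false, not_or, List.nodup_nil,
    and_true, not_false_eq_true] at hnd
  have hyT : y ∉ insert s₃ T := by
    intro hy
    rcases h.ry _ _ _ hs' hcard hy with h1 | h1 <;> omega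
  -- neighbours in `R` of elements of `P` are not in `Q`
  have key : ∀ u ∈ P, ∀ w, (RR G x s₃ c).Adj u w → w ∉ Q := fun u hu w huw hw =>
    hs.2.2.2.2 u hu w hw huw
  have hyP : y ∈ P := by
    have h1 : (RR G x s₃ c).Adj x y := rr_adj.2 (Or.inl ⟨(h.p33.nx _).2 (Or.inl rfl), by grind,
      by grind⟩)
    rcases hs.mem_or (right_mem_VS h1) with h2 | h2 | h2
    · exact absurd (mem_insert_of_mem h2) hyT
    · exact h2
    · exact absurd h2 (key x hx y h1)
  have hne : Q.Nonempty := by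
    rw [← card_pos]
    omega
  obtain ⟨q, hq, hadj⟩ := h.k48.1.exists_adj_of_sep hs'.symm hne (by omega) (mem_insert_self s₃ T)
  rw [h.n3] at hadj
  rcases hadj with rfl | rfl | rfl | rfl | rfl
  · exact Finset.disjoint_left.1 hs.2.2.2.1 hx hq
  · exact Finset.disjoint_left.1 hs.2.2.2.1 hyP hq
  · exact key y hyP _ (rr_adj.2 (Or.inl ⟨(h.p33.ny _).2 (by tauto), by grind, by grind⟩)) hq
  · exact key x hx _ (rr_adj.2 (Or.inl ⟨(h.p33.nx _).2 (by tauto), by grind, by grind⟩)) hq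
  · exact key x hx _ (rr_adj.2 (Or.inr ⟨Or.inl ⟨rfl, rfl⟩, by grind⟩)) hq

theorem c1 (h : B1 G x y s₁ s₂ s₃ s₄ c d d') :
    C1 (RR G x s₃ c) ∧ VS (RR G x s₃ c) = (VS G).erase s₃ := by
  obtain ⟨hV, hK⟩ := vs_rr h
  refine ⟨⟨hK, fun T P Q hs hT => ?_⟩, hV⟩
  by_contra hc
  rw [not_or, not_le, not_le] at hc
  have hnd := h.nd
  simp only [List.nodup_cons, List.mem_cons, List.not_mem_nil, or_false, not_or, List.nodup_nil,
    and_true, not_false_eq_true] at hnd
  have hs3 : s₃ ∉ VS (RR G x s₃ c) := by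
    rw [hV]
    exact notMem_erase _ _
  have h3T : s₃ ∉ T := fun h' => hs3 (hs.subS h')
  have h3P : s₃ ∉ P := fun h' => hs3 (hs.subP h')
  have h3Q : s₃ ∉ Q := fun h' => hs3 (hs.subQ h')
  have hcard : (insert s₃ T).card = 4 := by
    rw [card_insert_of_notMem h3T, hT]
  have hs' : Sep G (insert s₃ T) P Q := by
    obtain ⟨h1, h2, h3, h4, h5⟩ := hs
    refine ⟨?_, ?_, ?_, h4, ?_⟩
    · rw [insert_union, insert_union, h1, hV]
      exact insert_erase (right_mem_VS ((h.p33.nx _).2 (by tauto)))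
    · rw [disjoint_insert_left]
      exact ⟨h3P, h2⟩
    · rw [disjoint_insert_left]
      exact ⟨h3Q, h3⟩
    · intro a ha b hb hab
      exact h5 a ha b hb (rr_adj.2 (Or.inl ⟨hab, fun e => h3P (e ▸ ha), fun e => h3Q (e ▸ hb)⟩))
  have hxT : x ∉ insert s₃ T := by
    intro hx
    rcases h.rx _ _ _ hs' hcard hx with h1 | h1 <;> omega
  have hxV : x ∈ VS (RR G x s₃ c) := by
    rw [hV, mem_erase]
    exact ⟨by grind, left_mem_VS ((h.p33.nx _).2 (Or.inl rfl))⟩
  rcases hs.mem_or hxV with h2 | h2 | h2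
  · exact hxT (mem_insert_of_mem h2)
  · exact c1_aux h hs hs' hcard (by omega) (by omega) h2
  · exact c1_aux h hs.symm hs'.symm hcard (by omega) (by omega) h2

omit [Fintype α] [DecidableEq α] in
theorem dst_adj' {a b u : α} {P : Finset α} :
    (dst G u P).Adj a b ↔ G.Adj a b ∧ ¬ ∃ p ∈ P, s(a, b) = s(u, p) := by
  unfold dst
  rw [deleteEdges_adj]
  rfl

theorem a3 (h : B1 G x y s₁ s₂ s₃ s₄ c d d') (w : α) :
    (dst G s₃ {s₁, y}).Adj s₃ w ↔ w = x ∨ w = s₂ ∨ w = c := by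
  have hnd := h.nd
  simp only [List.nodup_cons, List.mem_cons, List.not_mem_nil, or_false, not_or, List.nodup_nil,
    and_true, not_false_eq_true] at hnd
  rw [dst_adj', h.n3]
  constructor
  · rintro ⟨h1, h2⟩
    rcases h1 with rfl | rfl | rfl | rfl | rfl
    · tauto
    · exact absurd ⟨_, by simp, rfl⟩ h2
    · exact absurd ⟨_, by simp, rfl⟩ h2
    · tauto
    · tauto
  · intro h1
    refine ⟨by tauto, ?_⟩
    rintro ⟨p, hp, e⟩
    have e' := Sym2.congr_right.1 e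
    subst e'
    simp only [mem_insert, mem_singleton] at hp
    grind

omit [Fintype α] in
theorem a_ne (u w : α) (hu : u ≠ s₃) (hw : w ≠ s₃) :
    (dst G s₃ {s₁, y}).Adj u w ↔ G.Adj u w := by
  rw [dst_adj']
  constructor
  · exact fun h => h.1
  · refine fun h => ⟨h, ?_⟩
    rintro ⟨p, -, e⟩
    rw [Sym2.eq_iff] at e
    rcases e with ⟨e, -⟩ | ⟨-, e⟩
    · exact hu e
    · exact hw e

theorem eq1 (h : B1 G x y s₁ s₂ s₃ s₄ c d d') :
    contr (dst G s₃ {s₁, y}) x s₃ = RR G x s₃ c := by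
  have hnd := h.nd
  simp only [List.nodup_cons, List.mem_cons, List.not_mem_nil, or_false, not_or, List.nodup_nil,
    and_true, not_false_eq_true] at hnd
  have hxs : G.Adj x s₂ := (h.p33.nx _).2 (by tauto)
  ext u w
  rw [contr_adj, rr_adj]
  constructor
  · rintro ⟨hu, hw, hne, h1 | ⟨rfl, h1⟩ | ⟨rfl, h1⟩⟩
    · exact Or.inl ⟨(a_ne u w hu hw).1 h1, hu, hw⟩
    · rw [a3 h] at h1
      rcases h1 with rfl | rfl | rfl
      · exact absurd rfl hne
      · exact Or.inl ⟨hxs, hu, hw⟩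
      · exact Or.inr ⟨Or.inl ⟨rfl, rfl⟩, hne⟩
    · have h1 := (a3 h u).1 h1.symm
      rcases h1 with rfl | rfl | rfl
      · exact absurd rfl hne
      · exact Or.inl ⟨hxs.symm, hu, hw⟩
      · exact Or.inr ⟨Or.inr ⟨rfl, rfl⟩, hne⟩
  · rintro (⟨h1, hu, hw⟩ | ⟨⟨rfl, rfl⟩ | ⟨rfl, rfl⟩, hne⟩)
    · exact ⟨hu, hw, h1.ne, Or.inl ((a_ne u w hu hw).2 h1)⟩
    · exact ⟨by grind, by grind, hne, Or.inr (Or.inl ⟨rfl, (a3 h _).2 (by tauto)⟩)⟩
    · exact ⟨by grind, by grind, hne, Or.inr (Or.inr ⟨rfl, ((a3 h _).2 (by tauto)).symm⟩)⟩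

theorem eq2 (h : B1 G x y s₁ s₂ s₃ s₄ c d d') :
    contr (dst G s₃ {s₁, y}) c s₃ = RR G x s₃ c := by
  have hnd := h.nd
  simp only [List.nodup_cons, List.mem_cons, List.not_mem_nil, or_false, not_or, List.nodup_nil,
    and_true, not_false_eq_true] at hnd
  have hcs : G.Adj c s₂ := ((h.n2 _).2 (by tauto)).symm
  ext u w
  rw [contr_adj, rr_adj]
  constructor
  · rintro ⟨hu, hw, hne, h1 | ⟨rfl, h1⟩ | ⟨rfl, h1⟩⟩
    · exact Or.inl ⟨(a_ne u w hu hw).1 h1, hu, hw⟩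
    · rw [a3 h] at h1
      rcases h1 with rfl | rfl | rfl
      · exact Or.inr ⟨Or.inr ⟨rfl, rfl⟩, hne⟩
      · exact Or.inl ⟨hcs, hu, hw⟩
      · exact absurd rfl hne
    · have h1 := (a3 h u).1 h1.symm
      rcases h1 with rfl | rfl | rfl
      · exact Or.inr ⟨Or.inl ⟨rfl, rfl⟩, hne⟩
      · exact Or.inl ⟨hcs.symm, hu, hw⟩
      · exact absurd rfl hne
  · rintro (⟨h1, hu, hw⟩ | ⟨⟨rfl, rfl⟩ | ⟨rfl, rfl⟩, hne⟩)
    · exact ⟨hu, hw, h1.ne, Or.inl ((a_ne u w hu hw).2 h1)⟩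
    · exact ⟨by grind, by grind, hne, Or.inr (Or.inr ⟨rfl, ((a3 h _).2 (by tauto)).symm⟩)⟩
    · exact ⟨by grind, by grind, hne, Or.inr (Or.inl ⟨rfl, (a3 h _).2 (by tauto)⟩)⟩

/-- the neighbours of `s₂` in `R` -/
theorem r2 (h : B1 G x y s₁ s₂ s₃ s₄ c d d') (w : α) :
    (RR G x s₃ c).Adj s₂ w ↔ w = x ∨ w = c ∨ w = d' := by
  have hnd := h.nd
  simp only [List.nodup_cons, List.mem_cons, List.not_mem_nil, or_false, not_or, List.nodup_nil,
    and_true, not_false_eq_true] at hnd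
  rw [rr_adj, h.n2]
  constructor
  · rintro (⟨h1, h2, h3⟩ | ⟨⟨h1, -⟩ | ⟨h1, -⟩, -⟩)
    · tauto
    · grind
    · grind
  · rintro (rfl | rfl | rfl)
    · exact Or.inl ⟨by tauto, by grind, by grind⟩
    · exact Or.inl ⟨by tauto, by grind, by grind⟩
    · exact Or.inl ⟨by tauto, by grind, by grind⟩

omit [Fintype α] [DecidableEq α] in
/-- a vertex with four neighbours -/
theorem four {R : SimpleGraph α} {v w p q a b e : α} (hp : ∀ z, R.Adj v z ↔ z = p ∨ z = q ∨ z = w)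
    (ha : R.Adj v a) (hb : R.Adj v b) (he : R.Adj v e) (haw : a ≠ w) (hbw : b ≠ w) (hew : e ≠ w)
    (hab : a ≠ b) (hae : a ≠ e) (hbe : b ≠ e) : False := by
  rw [hp] at ha hb he
  rcases ha with rfl | rfl | rfl
  · rcases hb with rfl | rfl | rfl
    · exact hab rfl
    · rcases he with rfl | rfl | rfl
      · exact hae rfl
      · exact hbe rfl
      · exact hew rfl
    · exact hbw rfl
  · rcases hb with rfl | rfl | rfl
    · rcases he with rfl | rfl | rfl
      · exact hbe rfl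
      · exact hae rfl
      · exact hew rfl
    · exact hab rfl
    · exact hbw rfl
  · exact haw rfl

omit [Fintype α] [DecidableEq α] in
/-- the other two neighbours of a vertex with three neighbours -/
theorem three {R : SimpleGraph α} {v w p q a b : α} (hp : ∀ z, R.Adj v z ↔ z = p ∨ z = q ∨ z = w)
    (hq : ∀ z, R.Adj v z ↔ z = w ∨ z = a ∨ z = b) (haw : a ≠ w) (hbw : b ≠ w) (hab : a ≠ b)
    (hno : ¬ R.Adj a b) : ¬ R.Adj p q := by
  have ha := (hp a).1 ((hq a).2 (by tauto))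
  have hb := (hp b).1 ((hq b).2 (by tauto))
  intro hpq
  rcases ha with rfl | rfl | rfl
  · rcases hb with rfl | rfl | rfl
    · exact hab rfl
    · exact hno hpq
    · exact hbw rfl
  · rcases hb with rfl | rfl | rfl
    · exact hno hpq.symm
    · exact hab rfl
    · exact hbw rfl
  · exact haw rfl

theorem e1 (hC1L : SpecC1L) (h : B1 G x y s₁ s₂ s₃ s₄ c d d') (hcd : ¬ G.Adj c d') :
    S3S (delE (RR G x s₃ c) x s₂) := by
  have hnd := h.nd
  simp only [List.nodup_cons, List.mem_cons, List.not_mem_nil, or_false, not_or, List.nodup_nil,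
    and_true, not_false_eq_true] at hnd
  obtain ⟨hC, hV⟩ := c1 h
  have h9 := nine h
  refine hC1L _ x s₂ hC ?_ ((r2 h x).2 (Or.inl rfl)).symm ?_ ?_
  · rw [hV, card_erase_of_mem (right_mem_VS ((h.p33.nx _).2 (by tauto)))]
    omega
  · intro p q hp
    have hy : (RR G x s₃ c).Adj x y :=
      rr_adj.2 (Or.inl ⟨(h.p33.nx _).2 (by tauto), by grind, by grind⟩)
    have h4 : (RR G x s₃ c).Adj x s₄ :=
      rr_adj.2 (Or.inl ⟨(h.p33.nx _).2 (by tauto), by grind, by grind⟩)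
    have hc : (RR G x s₃ c).Adj x c := rr_adj.2 (Or.inr ⟨Or.inl ⟨rfl, rfl⟩, by grind⟩)
    exact (four hp hy h4 hc (by grind) (by grind) (by grind) (by grind) (by grind)
      (by grind)).elim
  · intro p q hp
    refine three hp (r2 h) (by grind) (by grind) (by grind) ?_
    rw [rr_adj]
    rintro (⟨h1, -⟩ | ⟨⟨h1, h2⟩ | ⟨h1, h2⟩, -⟩)
    · exact hcd h1
    · grind
    · grind

theorem e2 (hC1L : SpecC1L) (h : B1 G x y s₁ s₂ s₃ s₄ c d d') :
    S3S (delE (RR G x s₃ c) c s₂) := by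
  have hnd := h.nd
  simp only [List.nodup_cons, List.mem_cons, List.not_mem_nil, or_false, not_or, List.nodup_nil,
    and_true, not_false_eq_true] at hnd
  obtain ⟨hC, hV⟩ := c1 h
  have h9 := nine h
  refine hC1L _ c s₂ hC ?_ ((r2 h c).2 (Or.inr (Or.inl rfl))).symm ?_ ?_
  · rw [hV, card_erase_of_mem (right_mem_VS ((h.p33.nx _).2 (by tauto)))]
    omega
  · intro p q hp
    have h1 : (RR G x s₃ c).Adj c s₁ :=
      rr_adj.2 (Or.inl ⟨((h.n1 _).2 (by tauto)).symm, by grind, by grind⟩)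
    have hx : (RR G x s₃ c).Adj c x := rr_adj.2 (Or.inr ⟨Or.inr ⟨rfl, rfl⟩, by grind⟩)
    -- another neighbour
    have hdeg : 4 ≤ (nbs G c).card := h.k48.1.le_nbs (right_mem_VS ((h.n1 c).2 (by tauto)))
    obtain ⟨z, hz, hz'⟩ := exists_mem_notMem_of_card_lt_card
      (s := ({s₁, s₂, s₃} : Finset α)) (t := nbs G c) (lt_of_le_of_lt card_le_three (by omega))
    simp only [mem_insert, mem_singleton, not_or] at hz'
    rw [mem_nbs] at hz
    have hzx : z ≠ x := by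
      rintro rfl
      have := (h.p33.nx c).1 hz.symm
      grind
    have hz2 : (RR G x s₃ c).Adj c z := rr_adj.2 (Or.inl ⟨hz, by grind, hz'.2.2⟩)
    exact (four hp h1 hx hz2 (by grind) (by grind) hz'.2.1 (by grind) (fun e => hz'.1 e.symm)
      (fun e => hzx e.symm)).elim
  · intro p q hp
    refine three hp (a := x) (b := d') (fun z => ?_) (by grind) (by grind) (by grind) ?_
    · rw [r2 h]
      tauto
    · rw [rr_adj]
      rintro (⟨h1, -⟩ | ⟨⟨h1, h2⟩ | ⟨h1, h2⟩, -⟩)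
      · have := (h.p33.nx _).1 h1
        grind
      · grind
      · grind

end R3CM

theorem specR3C (hC1L : SpecC1L) : SpecR3C where
  eq1 h := R3CM.eq1 h
  eq2 h := R3CM.eq2 h
  c1 h := R3CM.c1 h
  e1 h hcd := R3CM.e1 hC1L h hcd
  e2 h _ := R3CM.e2 hC1L h

end DL
end

section
/-!
# MP_3ff0f8_gt, ALGEBRA HALF, EXIST section 2.3: R3K (helper15)

`KZ (dst G s₃ {s₁, y})` if `c ≁ d'`: two contractions with the same result.
-/
open SimpleGraph Finset

namespace DL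

namespace R3KM

variable {α : Type} [Fintype α] [DecidableEq α] {A : SimpleGraph α} {z : Sym2 α → Sym2 α → ZMod 2}

theorem sum0 (hz : IsZ2 A z) (e : Sym2 α) (v : α) : ∑ w, z e s(v, w) = 0 := by
  rw [← K2GM.bdy_sum]
  exact KURM.row_bdy hz e v

/-- at most one nonzero entry at `v` -/
theorem one (hz : IsZ2 A z) {e : Sym2 α} {v a : α} (h : ∀ w, w ≠ a → z e s(v, w) = 0) : z e s(v, a) = 0 := by
  have h1 := sum0 hz e v
  rw [sum_eq_single a (fun w _ hw => h w hw) (fun h => absurd (mem_univ _) h)] at h1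
  exact h1

/-- at most two nonzero entries at `v` -/
theorem two (hz : IsZ2 A z) {e : Sym2 α} {v a b : α} (hab : a ≠ b) (h : ∀ w, w ≠ a → w ≠ b → z e s(v, w) = 0)
    (ha : z e s(v, a) = 0) : z e s(v, b) = 0 := by
  refine one hz fun w hw => ?_
  by_cases hwa : w = a
  · rw [hwa, ha]
  · exact h w hwa hw

theorem three (hz : IsZ2 A z) {e : Sym2 α} {v a b c : α} (h : ∀ w, w ≠ a → w ≠ b → w ≠ c → z e s(v, w) = 0)
    (ha : z e s(v, a) = 0) (hb : z e s(v, b) = 0) : z e s(v, c) = 0 := by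
  refine one hz fun w hw => ?_
  by_cases hwa : w = a
  · rw [hwa, ha]
  by_cases hwb : w = b
  · rw [hwb, hb]
  exact h w hwa hwb hw

theorem mm (hz : IsZ2 A z) {e f : Sym2 α} {v : α} (he : v ∈ e) (hf : v ∈ f) : z e f = 0 :=
  KURM.eq_zero_of_mem hz he hf

theorem na (hz : IsZ2 A z) {e : Sym2 α} {a b : α} (h : ¬ A.Adj a b) : z e s(a, b) = 0 := by
  by_contra hc
  exact h (hz.2.1 _ _ hc).2.1

theorem nal (hz : IsZ2 A z) {f : Sym2 α} {a b : α} (h : ¬ A.Adj a b) : z s(a, b) f = 0 := by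
  by_contra hc
  exact h (hz.2.1 _ _ hc).1

end R3KM

open R3KM

theorem specR3K (hR3C : SpecR3C) (hR3N : SpecR3N) (hK2G : SpecK2G) (hKUR : SpecKUR) (hNPC : SpecNPC)
    (hDST : SpecDST) : SpecR3K := by
  intro α _ _ G x y s₁ s₂ s₃ s₄ c d d' hB hNP hIH hcd'
  have hnd := hB.nd
  simp only [List.nodup_cons, List.mem_cons, List.not_mem_nil, or_false, not_or, List.nodup_nil, and_true,
    not_false_eq_true] at hnd
  obtain ⟨⟨xy, x1, x2, x3, x4, xc, xd, xd'⟩, ⟨y1, y2, y3, y4, yc, yd, yd'⟩, ⟨a12, a13, a14, a1c, a1d, a1d'⟩,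
    ⟨a23, a24, a2c, a2d, a2d'⟩, ⟨a34, a3c, a3d, a3d'⟩, ⟨a4c, a4d, a4d'⟩, ⟨cd, cd'⟩, dd'⟩ := hnd
  obtain ⟨A, hAdef⟩ : ∃ A, A = dst G s₃ {s₁, y} := ⟨_, rfl⟩
  have hA : ∀ a b, A.Adj a b ↔ G.Adj a b ∧ ¬ (a = s₃ ∧ (b = s₁ ∨ b = y)) ∧ ¬ (b = s₃ ∧ (a = s₁ ∨ a = y)) := by
    intro a b
    rw [hAdef, hDST.adj]
    simp only [mem_insert, mem_singleton]
  have nx : ∀ w, A.Adj x w ↔ w = y ∨ w = s₂ ∨ w = s₃ ∨ w = s₄ := by
    intro w
    rw [hA, hB.p33.nx]
    constructor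
    · tauto
    · intro h
      exact ⟨h, by tauto, by tauto⟩
  have n3 : ∀ w, A.Adj s₃ w ↔ w = x ∨ w = s₂ ∨ w = c := by
    intro w
    rw [hA, hB.n3]
    constructor
    · tauto
    · rintro (rfl | rfl | rfl)
      · exact ⟨by tauto, by tauto, by tauto⟩
      · exact ⟨by tauto, by tauto, by tauto⟩
      · exact ⟨by tauto, by tauto, by tauto⟩
  have n2 : ∀ w, A.Adj s₂ w ↔ w = x ∨ w = s₃ ∨ w = c ∨ w = d' := by
    intro w
    rw [hA, hB.n2]
    constructor
    · tauto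
    · intro h
      exact ⟨h, by tauto, by tauto⟩
  have e1 : contr A x s₃ = RR G x s₃ c := by rw [hAdef]; exact hR3C.eq1 hB
  have e2 : contr A c s₃ = RR G x s₃ c := by rw [hAdef]; exact hR3C.eq2 hB
  have hC1 := (hR3C.c1 hB).1
  have hNPR : NP (RR G x s₃ c) := hNPC.mono le_sup_left (hR3N.g3 hB hNP)
  have ax3 : A.Adj x s₃ := (nx _).2 (by tauto)
  have hsz : sz (RR G x s₃ c) < sz G := by
    rw [← e1]
    refine (hDST.sz2 ax3).trans ?_
    rw [hAdef]
    exact hDST.sz4 ((hB.n3 y).2 (by tauto)) (by simp)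
  have hKZ : KZ (RR G x s₃ c) := (hIH _ hsz hC1 hNPR).2
  have hK3 : KConn 3 (RR G x s₃ c) := hC1.1
  have ac3 : A.Adj c s₃ := ((n3 c).2 (by tauto)).symm
  -- the two contractions
  have kx : ∀ z, IsZ2 A z → (∀ e f, x ∈ e → s₃ ∈ f → e ≠ s(x, s₃) → f ≠ s(x, s₃) → z e f = 0) → Kur A z := by
    refine hK2G ax3 (Or.inr (by rw [e1]; exact hK3)) (by rw [e1]; exact hKZ) fun w hw1 hw2 => ?_
    have h2 : w = s₂ := by
      rcases (nx w).1 hw1 with h | h | h | h
      · rcases (n3 w).1 hw2 with h' | h' | h' <;> grind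
      · exact h
      · exact absurd hw2 (by rw [h]; exact A.loopless.irrefl _)
      · rcases (n3 w).1 hw2 with h' | h' | h' <;> grind
    rw [h2, e1]
    exact hR3C.e1 hB hcd'
  have kc : ∀ z, IsZ2 A z → (∀ e f, c ∈ e → s₃ ∈ f → e ≠ s(c, s₃) → f ≠ s(c, s₃) → z e f = 0) → Kur A z := by
    refine hK2G ac3 (Or.inr (by rw [e2]; exact hK3)) (by rw [e2]; exact hKZ) fun w hw1 hw2 => ?_
    have h2 : w = s₂ := by
      rcases (n3 w).1 hw2 with h | h | h
      · subst h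
        rcases (nx c).1 hw1.symm with h' | h' | h' | h' <;> tauto
      · exact h
      · exact absurd hw1 (by rw [h]; exact A.loopless.irrefl _)
    rw [h2, e2]
    exact hR3C.e2 hB hcd'
  have axy : A.Adj x y := (nx _).2 (by tauto)
  have ax4 : A.Adj x s₄ := (nx _).2 (by tauto)
  have ay4 : A.Adj y s₄ := (hA _ _).2 ⟨(hB.p33.ny _).2 (by tauto), by tauto, by tauto⟩
  have a32 : A.Adj s₃ s₂ := (n3 _).2 (by tauto)
  have a2c' : A.Adj s₂ c := (n2 _).2 (by tauto)
  have hT1 := F1NM.tri_mem axy ay4 ax4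
  have hT2 := F1NM.tri_mem a32 a2c' ac3.symm
  have hT0 : IsZ2 A (tor (tri x y s₄) (tri s₃ s₂ c)) := by
    refine hKUR.tor {x, y, s₄} {s₃, s₂, c} hT1 hT2 (fun e v => F1NM.tri_supp e v) (fun e v => F1NM.tri_supp e v) ?_
    rw [Finset.disjoint_left]
    intro v
    simp only [mem_insert, mem_singleton]
    rintro (rfl | rfl | rfl) (h | h | h) <;> tauto
  have hT0K : Kur A (tor (tri x y s₄) (tri s₃ s₂ c)) := by
    refine kc _ hT0 fun e f he hf _ _ => ?_
    have h1 : tri x y s₄ e = 0 := by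
      by_contra h
      have := F1NM.tri_supp e c h he
      simp only [mem_insert, mem_singleton] at this
      rcases this with h' | h' | h' <;> tauto
    have h2 : tri x y s₄ f = 0 := by
      by_contra h
      have := F1NM.tri_supp f s₃ h hf
      simp only [mem_insert, mem_singleton] at this
      rcases this with h' | h' | h' <;> tauto
    simp only [tor, h1, h2, zero_mul, mul_zero, add_zero]
  -- a 2-cycle with `z (xy) (s₃c) = 0` is killed
  have key : ∀ z, IsZ2 A z → z s(x, y) s(s₃, c) = 0 → Kur A z := by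
    intro z hz h0
    refine kx z hz ?_
    have z2c : z s(x, s₂) s(s₃, c) = 0 := by
      refine one hz fun w hw => ?_
      by_cases hadj : A.Adj s₃ w
      · rcases (n3 w).1 hadj with h | h | h
        · rw [h]; exact mm hz (v := x) (by simp) (by simp)
        · rw [h]; exact mm hz (v := s₂) (by simp) (by simp)
        · exact absurd h hw
      · exact na hz hadj
    have zy2 : z s(x, y) s(s₃, s₂) = 0 := by
      refine one hz fun w hw => ?_
      by_cases hadj : A.Adj s₃ w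
      · rcases (n3 w).1 hadj with h | h | h
        · rw [h]; exact mm hz (v := x) (by simp) (by simp)
        · exact absurd h hw
        · rw [h]; exact h0
      · exact na hz hadj
    have z4c : z s(x, s₄) s(s₃, c) = 0 := by
      rw [hz.1]
      refine one hz fun w hw => ?_
      by_cases hadj : A.Adj x w
      · rcases (nx w).1 hadj with h | h | h | h
        · rw [h, hz.1]; exact h0
        · rw [h, hz.1]; exact z2c
        · rw [h]; exact mm hz (v := s₃) (by simp) (by simp)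
        · exact absurd h hw
      · exact na hz hadj
    have z42 : z s(x, s₄) s(s₃, s₂) = 0 := by
      refine one hz fun w hw => ?_
      by_cases hadj : A.Adj s₃ w
      · rcases (n3 w).1 hadj with h | h | h
        · rw [h]; exact mm hz (v := x) (by simp) (by simp)
        · exact absurd h hw
        · rw [h]; exact z4c
      · exact na hz hadj
    intro e f he hf hne hnf
    obtain ⟨a, rfl⟩ := Sym2.mem_iff_exists.1 he
    obtain ⟨b, rfl⟩ := Sym2.mem_iff_exists.1 hf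
    by_cases ha : A.Adj x a
    swap
    · exact nal hz ha
    by_cases hb : A.Adj s₃ b
    swap
    · exact na hz hb
    rcases (nx a).1 ha with rfl | rfl | rfl | rfl
    · rcases (n3 b).1 hb with rfl | rfl | rfl
      · exact mm hz (v := b) (by simp) (by simp)
      · exact zy2
      · exact h0
    · rcases (n3 b).1 hb with rfl | rfl | rfl
      · exact mm hz (v := b) (by simp) (by simp)
      · exact mm hz (v := b) (by simp) (by simp)
      · exact z2c
    · exact absurd rfl hne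
    · rcases (n3 b).1 hb with rfl | rfl | rfl
      · exact mm hz (v := b) (by simp) (by simp)
      · exact z42
      · exact z4c
  rw [← hAdef, hKUR.kz]
  intro z hz
  rcases zmod2_cases (z s(x, y) s(s₃, c)) with h | h
  · exact key z hz h
  · have h1 : Kur A (fun e f => z e f + tor (tri x y s₄) (tri s₃ s₂ c) e f) := by
      refine key _ (hKUR.zadd hz hT0) ?_
      have e1 : tri x y s₄ s(x, y) = 1 := by unfold tri; rw [chi_of_mem]; simp
      have e2 : tri s₃ s₂ c s(s₃, c) = 1 := by unfold tri; rw [chi_of_mem]; simp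
      have e3 : tri x y s₄ s(s₃, c) = 0 := by
        by_contra h
        have := F1NM.tri_supp _ s₃ h (by simp)
        simp only [mem_insert, mem_singleton] at this
        rcases this with h' | h' | h' <;> tauto
      simp only [tor, h, e1, e2, e3, mul_one, mul_zero, add_zero]
      decide
    have h2 := hKUR.add h1 hT0K
    have h3 : (fun e f => (z e f + tor (tri x y s₄) (tri s₃ s₂ c) e f) + tor (tri x y s₄) (tri s₃ s₂ c) e f) = z := by
      funext e f
      rw [add_assoc, zmod2_add_self, add_zero]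
    rw [h3] at h2
    exact h2

end DL
end

section
/-!
# MP_3ff0f8_gt, row 186, module XI1 (helper39)
-/
open SimpleGraph Finset

namespace DL

theorem specXI1 (hXA3 : SpecXA3) (hXPY : SpecXPY) (hXT3 : SpecXT3) (hX35 : SpecX35)
    (hDST : SpecDST) : SpecXI1 := by
  intro α _ _ G x y s₁ s₂ s₃ s₄ hT hNP hIH hH h24
  refine hX35 hT hNP hIH hH ?_
  by_cases hd : ∃ d, ∀ w, G.Adj s₁ w ↔ w = y ∨ w = s₃ ∨ w = s₄ ∨ w = d
  · obtain ⟨d, hd⟩ := hd
    exact hXT3 hT hNP hIH hH h24 hd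
  · rcases hXA3.y2 hT hH with h | h | ⟨c, d, A, B, -, hS, -, -, h4, h2, -⟩
    · exact (hIH _ (hDST.sz4 hT.a1.symm (by simp)) h (hXPY hT hNP h24)).2
    · exact absurd h hd
    · exact absurd h24.symm (hS.2.2.2.2 _ h4 _ h2)

end DL
end

section
/-!
# MP_3ff0f8_gt, row 186, module XN3 (helper39)
-/
open SimpleGraph Finset

namespace DL

namespace XN3M

/-- the edges `ca` and `cb` have the same image in the contraction -/
theorem contr_mono {α : Type} [DecidableEq α] {R K : SimpleGraph α} {a b c : α} (hca : c ≠ a)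
    (hcb : c ≠ b) (hab : a ≠ b) (hK : K.Adj c a ∨ K.Adj c b)
    (h : ∀ u v, R.Adj u v → K.Adj u v ∨ s(u, v) = s(c, a) ∨ s(u, v) = s(c, b)) :
    contr R a b ≤ contr K a b := by
  have hc : (contr K a b).Adj c a := by
    rcases hK with h1 | h1
    · exact ⟨hcb, hab, hca, Or.inl h1⟩
    · exact ⟨hcb, hab, hca, Or.inr (Or.inr ⟨rfl, h1⟩)⟩
  intro u w huw
  obtain ⟨h1, h2, h3, h4⟩ := huw
  rcases h4 with h4 | ⟨h4, h5⟩ | ⟨h4, h5⟩
  · rcases h u w h4 with h6 | h6 | h6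
    · exact ⟨h1, h2, h3, Or.inl h6⟩
    · rw [Sym2.eq_iff] at h6
      rcases h6 with ⟨rfl, rfl⟩ | ⟨rfl, rfl⟩
      · exact hc
      · exact hc.symm
    · rw [Sym2.eq_iff] at h6
      rcases h6 with ⟨-, h6⟩ | ⟨h6, -⟩
      · exact absurd h6 h2
      · exact absurd h6 h1
  · subst h4
    rcases h b w h5 with h6 | h6 | h6
    · exact ⟨h1, h2, h3, Or.inr (Or.inl ⟨rfl, h6⟩)⟩
    · rw [Sym2.eq_iff] at h6
      rcases h6 with ⟨h6, -⟩ | ⟨h6, -⟩
      · exact absurd h6.symm hcb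
      · exact absurd h6.symm hab
    · rw [Sym2.eq_iff] at h6
      rcases h6 with ⟨h6, -⟩ | ⟨-, h6⟩
      · exact absurd h6.symm hcb
      · rw [h6]; exact hc.symm
  · subst h4
    rcases h u b h5 with h6 | h6 | h6
    · exact ⟨h1, h2, h3, Or.inr (Or.inr ⟨rfl, h6⟩)⟩
    · rw [Sym2.eq_iff] at h6
      rcases h6 with ⟨-, h6⟩ | ⟨-, h6⟩
      · exact absurd h6.symm hab
      · exact absurd h6.symm hcb
    · rw [Sym2.eq_iff] at h6
      rcases h6 with ⟨h6, -⟩ | ⟨h6, -⟩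
      · rw [h6]; exact hc
      · exact absurd h6 h1

/-- deletion of the edge `s₃x` -/
theorem npx {α : Type} [Fintype α] [DecidableEq α] {G : SimpleGraph α} {x y s₁ s₂ s₃ s₄ : α}
    (hF1N : SpecF1N) (hNPC : SpecNPC) (hDST : SpecDST) (hK : K48 G)
    (hP : P33 G x y s₁ s₂ s₃ s₄) (h23 : G.Adj s₂ s₃) (hNP : NP G) : NP (dst G s₃ {x}) := by
  obtain ⟨hxy, hx1, hx2, hx3, hx4, hy1, hy2, hy3, hy4, h12, h13, h14, h23', h24, h34⟩ := X35M.nd hP
  have hadj : (dst G s₃ {x}).Adj x s₂ := by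
    rw [hDST.adj]
    refine ⟨(hP.nx _).2 (by tauto), ?_, ?_⟩
    · rintro ⟨h, -⟩; exact hx3 h
    · rintro ⟨h, -⟩; exact h23' h
  refine hNPC.up hadj (hNPC.mono ?_ (hF1N hK hP hNP).1)
  refine contr_mono (c := s₃) hx3.symm h23'.symm hx2 (Or.inr ?_) ?_
  · rw [hDST.adj]
    refine ⟨h23.symm, ?_, ?_⟩
    · rintro ⟨-, h⟩; exact hx2.symm (mem_singleton.1 h)
    · rintro ⟨h, -⟩; exact h23' h
  · intro u v huv
    by_cases h : s(u, v) = s(s₃, x)
    · exact Or.inr (Or.inl h)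
    · left
      rw [hDST.adj]
      refine ⟨huv, ?_, ?_⟩
      · rintro ⟨h1, h2⟩; rw [mem_singleton] at h2; exact h (by rw [h1, h2])
      · rintro ⟨h1, h2⟩; rw [mem_singleton] at h2; exact h (by rw [h1, h2, Sym2.eq_swap])

/-- deletion of `s₃s₁` and of one of the edges `s₃x`, `s₃s₂` -/
theorem npc {α : Type} [Fintype α] [DecidableEq α] {G : SimpleGraph α} {x y s₁ s₂ s₃ s₄ : α}
    (hXCE : SpecXCE) (hNPC : SpecNPC) (hDST : SpecDST) (hK : K48 G)
    (hP : P33 G x y s₁ s₂ s₃ s₄) (h1 : G.Adj s₁ s₃) (h2 : G.Adj s₂ s₃) (hNP : NP G) (a : α)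
    (ha : a = x ∨ a = s₂) : NP (dst G s₃ {s₁, a}) := by
  obtain ⟨hxy, hx1, hx2, hx3, hx4, hy1, hy2, hy3, hy4, h12, h13, h14, h23', h24, h34⟩ := X35M.nd hP
  have ha3 : a ≠ s₃ := by rcases ha with rfl | rfl <;> assumption
  have hadj : (dst G s₃ {s₁, a}).Adj x s₂ := by
    rw [hDST.adj]
    refine ⟨(hP.nx _).2 (by tauto), ?_, ?_⟩
    · rintro ⟨h, -⟩; exact hx3 h
    · rintro ⟨h, -⟩; exact h23' h
  have hnp : NP (contr (delE G s₁ s₃) x s₂) := hXCE hK hP.sym1 h1 hNP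
  refine hNPC.up hadj (hNPC.mono ?_ hnp)
  refine contr_mono (c := s₃) hx3.symm h23'.symm hx2 ?_ ?_
  · rcases ha with rfl | rfl
    · right
      rw [hDST.adj]
      refine ⟨h2.symm, ?_, ?_⟩
      · rintro ⟨-, h⟩
        rw [mem_insert, mem_singleton] at h
        rcases h with h | h
        · exact h12 h.symm
        · exact hx2 h.symm
      · rintro ⟨h, -⟩; exact h23' h
    · left
      rw [hDST.adj]
      refine ⟨((hP.nx _).2 (by tauto)).symm, ?_, ?_⟩
      · rintro ⟨-, h⟩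
        rw [mem_insert, mem_singleton] at h
        rcases h with h | h
        · exact hx1 h
        · exact hx2 h
      · rintro ⟨h, -⟩; exact hx3 h
  · intro u v huv
    rw [delE_adj] at huv
    by_cases h : s(u, v) = s(s₃, a)
    · rcases ha with rfl | rfl
      · exact Or.inr (Or.inl h)
      · exact Or.inr (Or.inr h)
    · left
      rw [hDST.adj]
      refine ⟨huv.1, ?_, ?_⟩
      · rintro ⟨h1, h2⟩
        rw [mem_insert, mem_singleton] at h2
        rcases h2 with h2 | h2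
        · exact huv.2 (by rw [h1, h2, Sym2.eq_swap])
        · exact h (by rw [h1, h2])
      · rintro ⟨h1, h2⟩
        rw [mem_insert, mem_singleton] at h2
        rcases h2 with h2 | h2
        · exact huv.2 (by rw [h1, h2])
        · exact h (by rw [h1, h2, Sym2.eq_swap])

end XN3M

open XN3M

theorem specXN3 (hXCC : SpecXCC) (hXCE : SpecXCE) (hF1N : SpecF1N) (hNPC : SpecNPC)
    (hDST : SpecDST) : SpecXN3 := by
  intro α _ _ G x y s₁ s₂ s₃ s₄ hT hNP P hP
  rcases hP with rfl | rfl | rfl | rfl | rfl | rfl | rfl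
  · rw [hDST.one, delE_comm]; exact hXCC.np hT.k48 hT.p33.sym1 hT.a1 hNP
  · rw [hDST.one, delE_comm]; exact hXCC.np hT.k48 hT.p33 hT.a2 hNP
  · exact npx hF1N hNPC hDST hT.k48 hT.p33 hT.a2 hNP
  · exact npx hF1N hNPC hDST hT.k48 hT.p33.sym1 hT.a1 hNP
  · exact npc hXCE hNPC hDST hT.k48 hT.p33 hT.a1 hT.a2 hNP _ (Or.inr rfl)
  · exact npc hXCE hNPC hDST hT.k48 hT.p33 hT.a1 hT.a2 hNP _ (Or.inl rfl)
  · exact npc hXCE hNPC hDST hT.k48 hT.p33.sym1 hT.a2 hT.a1 hNP _ (Or.inl rfl)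

end DL
end

section
/-!
# MP_3ff0f8_gt, row 186, module XT3 (helper39)
-/
open SimpleGraph Finset

namespace DL

namespace XT3M

variable {α : Type} [Fintype α] [DecidableEq α] {G : SimpleGraph α} {x y s₁ s₂ s₃ s₄ d : α}

/-- a vertex outside a small set -/
theorem exists_out (hK : K48 G) (S : Finset α) (hS : S.card ≤ 7) : ∃ w ∈ VS G, w ∉ S := by
  have h : (VS G \ S).Nonempty := by
    rw [← card_pos]
    have := le_card_sdiff S (VS G)
    have := hK.2
    omega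
  obtain ⟨w, hw⟩ := h
  exact ⟨w, (mem_sdiff.1 hw).1, (mem_sdiff.1 hw).2⟩

/-- `d ∉ {y, s₃, s₄}` -/
theorem d_ne (hT : T3 G x y s₁ s₂ s₃ s₄)
    (hd : ∀ w, G.Adj s₁ w ↔ w = y ∨ w = s₃ ∨ w = s₄ ∨ w = d) :
    d ≠ y ∧ d ≠ s₃ ∧ d ≠ s₄ ∧ d ≠ s₁ ∧ d ≠ x := by
  have h1 : 4 ≤ (nbs G s₁).card := hT.k48.1.le_nbs (left_mem_VS hT.a1)
  have h2 : ∀ a b c : α, (∀ w, G.Adj s₁ w → w = a ∨ w = b ∨ w = c) → False := by
    intro a b c h
    have h3 : nbs G s₁ ⊆ {a, b, c} := by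
      intro w hw
      rw [mem_nbs] at hw
      simp only [mem_insert, mem_singleton]
      exact h w hw
    have h4 := card_le_card h3
    have h5 : ({a, b, c} : Finset α).card ≤ 3 := card_le_three
    omega
  refine ⟨?_, ?_, ?_, ?_, ?_⟩
  · rintro rfl
    exact h2 d s₃ s₄ fun w hw => by have := (hd w).1 hw; tauto
  · rintro rfl
    exact h2 y d s₄ fun w hw => by have := (hd w).1 hw; tauto
  · rintro rfl
    exact h2 y s₃ d fun w hw => by have := (hd w).1 hw; tauto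
  · rintro rfl
    exact ((hd d).2 (by tauto)).ne rfl
  · rintro rfl
    obtain ⟨hxy, hx1, hx2, hx3, hx4, hy1, hy2, hy3, hy4, h12, h13, h14, h23, h24, h34⟩ :=
      X35M.nd hT.p33
    have := (hT.p33.nx s₁).1 ((hd d).2 (by tauto)).symm
    tauto

theorem d_ne2 (hFRG : SpecFRG) (hT : T3 G x y s₁ s₂ s₃ s₄)
    (hd : ∀ w, G.Adj s₁ w ↔ w = y ∨ w = s₃ ∨ w = s₄ ∨ w = d) : d ≠ s₂ := by
  rintro rfl
  obtain ⟨r, hr, hrn⟩ := exists_out hT.k48 {x, y, s₁, d, s₃, s₄}
    ((card_le_six).trans (by norm_num))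
  simp only [mem_insert, mem_singleton, not_or] at hrn
  refine hFRG.few (G := G) (D := {x, y, s₁}) (W := {d, s₃, s₄}) (r := r) hT.k48.1 ?_ ?_ ?_
    card_le_three hr ?_ ?_
  · intro w hw
    simp only [mem_insert, mem_singleton] at hw
    rcases hw with rfl | rfl | rfl
    · exact left_mem_VS ((hT.p33.nx y).2 (by tauto))
    · exact right_mem_VS ((hT.p33.nx w).2 (by tauto))
    · exact left_mem_VS hT.a1
  · exact ⟨x, by simp⟩
  · intro w hw
    simp only [NB, mem_filter, mem_univ, true_and] at hw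
    obtain ⟨hw1, a, ha, haw⟩ := hw
    simp only [mem_insert, mem_singleton, not_or] at hw1 ha ⊢
    rcases ha with rfl | rfl | rfl
    · have := (hT.p33.nx w).1 haw; tauto
    · have := (hT.p33.ny w).1 haw; tauto
    · have := (hd w).1 haw; tauto
  · simp only [mem_insert, mem_singleton, not_or]; tauto
  · simp only [mem_insert, mem_singleton, not_or]; tauto

end XT3M

open XT3M

theorem specXT3 (hXTC : SpecXTC) (hXTN : SpecXTN) (hTRI : SpecTRI) (hC1L : SpecC1L)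
    (hXCB : SpecXCB) (hFRG : SpecFRG) (hDST : SpecDST) : SpecXT3 := by
  intro α _ _ G x y s₁ s₂ s₃ s₄ d hT hNP hIH hH h24 hd
  obtain ⟨hxy, hx1, hx2, hx3, hx4, hy1, hy2, hy3, hy4, h12, h13, h14, h23, h24', h34⟩ :=
    X35M.nd hT.p33
  obtain ⟨hdy, hd3, hd4, hd1, hdx⟩ := d_ne hT hd
  have hd2 : d ≠ s₂ := d_ne2 hFRG hT hd
  -- adjacency in `A`
  have hA : ∀ a b, (dst G s₃ {s₁, y}).Adj a b ↔
      G.Adj a b ∧ ¬ (a = s₃ ∧ (b = s₁ ∨ b = y)) ∧ ¬ (b = s₃ ∧ (a = s₁ ∨ a = y)) := by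
    intro a b
    rw [hDST.adj]
    simp only [mem_insert, mem_singleton]
  have nAy : ∀ w, (dst G s₃ {s₁, y}).Adj y w ↔ w = s₁ ∨ w = s₄ ∨ w = x := by
    intro w
    rw [hA, hT.p33.ny]
    constructor
    · rintro ⟨h1, h2, h3⟩
      rcases h1 with h | h | h | h <;> tauto
    · rintro (rfl | rfl | rfl)
      · exact ⟨by tauto, by tauto, by tauto⟩
      · exact ⟨by tauto, by tauto, by tauto⟩
      · exact ⟨by tauto, by tauto, by tauto⟩
  have nA1 : ∀ w, (dst G s₃ {s₁, y}).Adj s₁ w ↔ w = y ∨ w = s₄ ∨ w = d := by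
    intro w
    rw [hA, hd]
    constructor
    · rintro ⟨h1, h2, h3⟩
      rcases h1 with h | h | h | h <;> tauto
    · rintro (rfl | rfl | rfl)
      · exact ⟨by tauto, by tauto, by tauto⟩
      · exact ⟨by tauto, by tauto, by tauto⟩
      · exact ⟨by tauto, by tauto, by tauto⟩
  -- adjacency in `S`
  obtain ⟨S, hSdef⟩ : ∃ S, S = contr (delE (dst G s₃ {s₁, y}) y s₄) s₁ y := ⟨_, rfl⟩
  have hS : ∀ u w, S.Adj u w ↔ u ≠ y ∧ w ≠ y ∧ u ≠ w ∧
      ((dst G s₃ {s₁, y}).Adj u w ∨ (u = s₁ ∧ w = x) ∨ (w = s₁ ∧ u = x)) := by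
    intro u w
    have hy : ∀ v, (delE (dst G s₃ {s₁, y}) y s₄).Adj y v ↔ v = s₁ ∨ v = x := by
      intro v
      rw [delE_adj, nAy]
      constructor
      · rintro ⟨h1, h2⟩
        rcases h1 with h | h | h
        · exact Or.inl h
        · exact absurd (by rw [h]) h2
        · exact Or.inr h
      · rintro (rfl | rfl)
        · refine ⟨Or.inl rfl, fun e => ?_⟩
          rw [Sym2.eq_iff] at e
          rcases e with ⟨-, e⟩ | ⟨e, -⟩
          · exact h14 e
          · exact hy4 e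
        · refine ⟨Or.inr (Or.inr rfl), fun e => ?_⟩
          rw [Sym2.eq_iff] at e
          rcases e with ⟨-, e⟩ | ⟨e, -⟩
          · exact hx4 e
          · exact hy4 e
    rw [hSdef, contr_adj]
    constructor
    · rintro ⟨h1, h2, h3, h4⟩
      refine ⟨h1, h2, h3, ?_⟩
      rcases h4 with h4 | ⟨h4, h5⟩ | ⟨h4, h5⟩
      · exact Or.inl (delE_adj.1 h4).1
      · rcases (hy w).1 h5 with h6 | h6
        · exact absurd (h4.trans h6.symm) h3
        · exact Or.inr (Or.inl ⟨h4, h6⟩)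
      · rcases (hy u).1 h5.symm with h6 | h6
        · exact absurd (h6.trans h4.symm) h3
        · exact Or.inr (Or.inr ⟨h4, h6⟩)
    · rintro ⟨h1, h2, h3, h4⟩
      refine ⟨h1, h2, h3, ?_⟩
      rcases h4 with h4 | ⟨h4, h5⟩ | ⟨h4, h5⟩
      · refine Or.inl (delE_adj.2 ⟨h4, fun e => ?_⟩)
        rw [Sym2.eq_iff] at e
        rcases e with ⟨e, -⟩ | ⟨-, e⟩
        · exact h1 e
        · exact h2 e
      · exact Or.inr (Or.inl ⟨h4, (hy w).2 (Or.inr h5)⟩)
      · exact Or.inr (Or.inr ⟨h4, ((hy u).2 (Or.inr h5)).symm⟩)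
  have nS1 : ∀ w, S.Adj s₁ w ↔ w = s₄ ∨ w = d ∨ w = x := by
    intro w
    rw [hS, nA1]
    constructor
    · rintro ⟨h1, h2, h3, h4⟩
      rcases h4 with (h4 | h4 | h4) | h4 | h4 <;> tauto
    · rintro (rfl | rfl | rfl)
      · exact ⟨hy1.symm, hy4.symm, h14, by tauto⟩
      · exact ⟨hy1.symm, hdy, hd1.symm, by tauto⟩
      · exact ⟨hy1.symm, hxy, hx1.symm, by tauto⟩
  have nxd : ¬ S.Adj x d := by
    rw [hS]
    rintro ⟨-, -, -, h4⟩
    rcases h4 with h4 | h4 | h4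
    · have := (hT.p33.nx d).1 ((hA _ _).1 h4).1
      tauto
    · exact hx1 h4.1
    · exact hd1 h4.1
  obtain ⟨w', hw', hwn⟩ := hXCB.s3 hT.k48 hT.p33.sym2
  simp only [mem_insert, mem_singleton, not_or] at hwn
  obtain ⟨hwx, hwy, hw1, hw2, hw3⟩ := hwn
  have a4x : S.Adj s₄ x := by
    rw [hS]
    exact ⟨hy4.symm, hxy, hx4.symm, Or.inl ((hA _ _).2 ⟨((hT.p33.nx s₄).2 (by tauto)).symm,
      by tauto, by tauto⟩)⟩
  have a42 : S.Adj s₄ s₂ := by
    rw [hS]
    exact ⟨hy4.symm, hy2.symm, h24'.symm, Or.inl ((hA _ _).2 ⟨h24.symm, by tauto, by tauto⟩)⟩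
  have a4w : S.Adj s₄ w' := by
    rw [hS]
    exact ⟨hy4.symm, hwy, hw'.ne, Or.inl ((hA _ _).2 ⟨hw', by tauto, by tauto⟩)⟩
  have a14 : S.Adj s₁ s₄ := (nS1 _).2 (Or.inl rfl)
  -- the size of `S`
  have hvs : (VS G).erase y ⊆ VS S := by
    intro v hv
    rw [mem_erase] at hv
    by_cases hv1 : v = s₁
    · rw [hv1]; exact left_mem_VS a14
    by_cases hv3 : v = s₃
    · rw [hv3]
      refine left_mem_VS (G := S) (b := x) ?_
      rw [hS]
      exact ⟨hy3.symm, hxy, hx3.symm, Or.inl ((hA _ _).2 ⟨((hT.p33.nx s₃).2 (by tauto)).symm,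
        by tauto, by tauto⟩)⟩
    have h4 : 4 ≤ (nbs G v).card := hT.k48.1.le_nbs hv.2
    obtain ⟨w, hw, hwy'⟩ : ∃ w ∈ nbs G v, w ≠ y := by
      by_contra h
      push Not at h
      have h5 : nbs G v ⊆ {y} := fun w hw => mem_singleton.2 (h w hw)
      have h6 := card_le_card h5
      rw [card_singleton] at h6
      omega
    rw [mem_nbs] at hw
    refine left_mem_VS (G := S) (b := w) ?_
    rw [hS]
    exact ⟨hv.1, hwy', hw.ne, Or.inl ((hA _ _).2 ⟨hw, by tauto, by tauto⟩)⟩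
  have hy_mem : y ∈ VS G := left_mem_VS ((hT.p33.ny x).2 (Or.inl rfl))
  have h7 : 7 ≤ (VS S).card := by
    have h1 := card_le_card hvs
    rw [card_erase_of_mem hy_mem] at h1
    have := hT.k48.2
    omega
  have hC1 : C1 S := by rw [hSdef]; exact hXTC hT hH h24 hd
  have hNPS : NP S := by rw [hSdef]; exact hXTN hT hNP h24 hd
  have hsz : sz S < sz G := by
    have h1 : (delE (dst G s₃ {s₁, y}) y s₄).Adj s₁ y := by
      rw [delE_adj, nA1]
      refine ⟨Or.inl rfl, fun e => ?_⟩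
      rw [Sym2.eq_iff] at e
      rcases e with ⟨e, -⟩ | ⟨e, -⟩
      · exact hy1 e.symm
      · exact h14 e
    have h2 : sz S < sz (delE (dst G s₃ {s₁, y}) y s₄) := by rw [hSdef]; exact hDST.sz2 h1
    have h3 : sz (delE (dst G s₃ {s₁, y}) y s₄) < sz (dst G s₃ {s₁, y}) := by
      refine hDST.sz1 (delE_le _ _ _) fun e => ?_
      have h4 : (dst G s₃ {s₁, y}).Adj y s₄ := (nAy _).2 (by tauto)
      rw [← e, delE_adj] at h4
      exact h4.2 rfl
    have h4 : sz (dst G s₃ {s₁, y}) < sz G := hDST.sz4 hT.a1.symm (by simp)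
    omega
  have hKZ : KZ S := (hIH _ hsz hC1 hNPS).2
  refine hTRI (a := y) (b := s₁) (c := s₄) (p := x) (q := d) ?_ nAy nA1 ?_ ?_ ?_
  · simp only [List.nodup_cons, List.mem_cons, List.not_mem_nil, or_false, not_or,
      List.nodup_nil, and_true, not_false_eq_true]
    exact ⟨⟨hy1, hy4, hxy.symm, hdy.symm⟩, ⟨h14, hx1.symm, hd1.symm⟩, ⟨hx4.symm, hd4.symm⟩,
      hdx.symm⟩
  · rw [← hSdef]; exact hKZ
  · rw [← hSdef]
    refine hC1L S s₁ s₄ hC1 h7 a14 ?_ ?_
    · intro p q hpq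
      have h1 := (hpq x).1 ((nS1 x).2 (by tauto))
      have h2 := (hpq d).1 ((nS1 d).2 (by tauto))
      rcases h1 with h1 | h1 | h1
      · rcases h2 with h2 | h2 | h2
        · exact absurd (h2.trans h1.symm) hdx
        · rw [← h1, ← h2]; exact nxd
        · exact absurd h2 hd4
      · rcases h2 with h2 | h2 | h2
        · rw [← h1, ← h2]; exact fun h => nxd h.symm
        · exact absurd (h2.trans h1.symm) hdx
        · exact absurd h2 hd4
      · exact absurd h1 hx4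
    · intro p q hpq
      exfalso
      have h1 := (hpq x).1 a4x
      have h2 := (hpq s₂).1 a42
      have h3 := (hpq w').1 a4w
      rcases h1 with h1 | h1 | h1
      · rcases h2 with h2 | h2 | h2
        · exact hx2 (h1.trans h2.symm)
        · rcases h3 with h3 | h3 | h3
          · exact hwx (h3.trans h1.symm)
          · exact hw2 (h3.trans h2.symm)
          · exact hw1 h3
        · exact h12 h2.symm
      · rcases h2 with h2 | h2 | h2
        · rcases h3 with h3 | h3 | h3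
          · exact hw2 (h3.trans h2.symm)
          · exact hwx (h3.trans h1.symm)
          · exact hw1 h3
        · exact hx2 (h1.trans h2.symm)
        · exact h12 h2.symm
      · exact hx1 h1
  · rw [← hSdef]
    refine left_mem_VS (b := x) (delE_adj.2 ⟨a4x, fun e => ?_⟩)
    rw [Sym2.eq_iff] at e
    rcases e with ⟨e, -⟩ | ⟨-, e⟩
    · exact h14 e.symm
    · exact hx1 e

end DL
end

section
/-!
# MP_3ff0f8_gt, row 186, module XZ3 (helper39)
-/
open SimpleGraph Finset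

namespace DL

theorem specXZ3 (hXI1 : SpecXI1) (hXI3 : SpecXI3) (hX35 : SpecX35) (hXCB : SpecXCB)
    (hDST : SpecDST) : SpecXZ3 := by
  intro α _ _ G x y s₁ s₂ s₃ s₄ hS hP h13 h23
  have hT : T3 G x y s₁ s₂ s₃ s₄ := ⟨hS.k48, hP, h13, h23⟩
  obtain ⟨hxy, hx1, hx2, hx3, hx4, hy1, hy2, hy3, hy4, h12, h13', h14, h23', h24, h34⟩ :=
    X35M.nd hP
  by_cases a2 : G.Adj s₂ s₄
  · refine hXI1 hT hS.np hS.ih ?_ a2
    intro z hz
    by_cases a1 : G.Adj s₁ s₄
    · have hz2 : z = s₂ := by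
        rcases (hz s₂).1 a2.symm with h | h | h | h
        · exact absurd h.symm hx2
        · exact absurd h.symm hy2
        · exact absurd h.symm h12
        · exact h.symm
      subst hz2
      obtain ⟨w, hw, hwn⟩ := hXCB.s3 hS.k48 hP.sym2
      simp only [mem_insert, mem_singleton, not_or] at hwn
      have := (hz w).1 hw
      tauto
    · exact a1 (((hz s₁).2 (by tauto)).symm)
  · by_cases a1 : G.Adj s₁ s₄
    · refine hXI1 hT.sym1 hS.np hS.ih ?_ a1
      intro z hz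
      exact a2 (((hz s₂).2 (by tauto)).symm)
    · rcases hXI3 hS hT a1 a2 with ⟨h1, h2⟩ | ⟨h1, h2⟩
      · refine hX35 hT hS.np hS.ih ?_ (hS.ih _ (hDST.sz4 hT.a1.symm (by simp)) h1 h2).2
        intro z hz
        exact a1 (((hz s₁).2 (by tauto)).symm)
      · refine hX35 hT.sym1 hS.np hS.ih ?_ (hS.ih _ (hDST.sz4 hT.a2.symm (by simp)) h1 h2).2
        intro z hz
        exact a2 (((hz s₂).2 (by tauto)).symm)

end DL
end
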