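import Pool.Agent.DL.E.Spec2c
import Pool.Agent.DL.E.Spec2e
import Pool.Agent.DL.E.XZ3
import Pool.Agent.DL.G4.Spec
import Pool.Agent.DL.KC

section
/-!
# MP_3ff0f8_gt, row 186, module X33: all (3,3)-pairs
-/
open SimpleGraph Finset

namespace DL

theorem specX33 (hXQ1 : SpecXQ1) (hXQ2 : SpecXQ2) (hXZ3 : SpecXZ3) : SpecX33 := by
  intro α _ _ G x y s₁ s₂ s₃ s₄ hS hP
  by_cases h3 : G.Adj s₁ s₃ ∧ G.Adj s₂ s₃
  · exact hXZ3 hS hP h3.1 h3.2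
  by_cases h4 : G.Adj s₁ s₄ ∧ G.Adj s₂ s₄
  · exact hXZ3 hS hP.sym2 h4.1 h4.2
  by_cases h23 : G.Adj s₂ s₃
  · exact hXQ2 hS.k48 hS.np hS.ih hP h23 (fun h => h3 ⟨h, h23⟩) h4
  by_cases h24 : G.Adj s₂ s₄
  · exact hXQ2 hS.k48 hS.np hS.ih hP.sym2 h24 (fun h => h4 ⟨h, h24⟩) h3
  by_cases h13 : G.Adj s₁ s₃
  · exact hXQ2 hS.k48 hS.np hS.ih hP.sym1 h13 h23 fun h => h4 ⟨h.2, h.1⟩
  by_cases h14 : G.Adj s₁ s₄
  · exact hXQ2 hS.k48 hS.np hS.ih hP.sym1.sym2 h14 h24 fun h => h3 ⟨h.2, h.1⟩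
  exact hXQ1 hS hP ⟨h13, h14, h23, h24⟩

end DL
end

section
/-!
# MP_3ff0f8_gt, row 186, module XMC: the graph `M` is in C1, or `G` is exceptional
-/
open SimpleGraph Finset

namespace DL

namespace XMCM

variable {α : Type} [Fintype α] [DecidableEq α] {G : SimpleGraph α} {x y s₁ s₂ s₃ s₄ t c d : α}

theorem Gr9sym (h : Gr9 G y x s₂ s₁ s₃ s₄ t c d) : Gr9 G x y s₁ s₂ s₃ s₄ t c d where
  nd := by
    have := h.nd
    simp only [List.nodup_cons, List.mem_cons, List.not_mem_nil, or_false, not_or, List.nodup_nil, and_true,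
      not_false_eq_true] at this ⊢
    tauto
  vs := by
    rw [h.vs]
    ext w
    simp only [mem_insert, mem_singleton]
    tauto
  nx := h.ny
  ny := h.nx
  n1 := h.n2
  n2 := h.n1
  n3 w := by rw [h.n3]; tauto
  n4 w := by rw [h.n4]; tauto
  mt := h.mt
  mc w := by rw [h.mc]; tauto
  md w := by rw [h.md]; tauto

/-- a vertex `x` which is not rigid -/
theorem nrig (hXMA : SpecXMA) (hXMB : SpecXMB) (hFRG : SpecFRG) {A B : Finset α}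
    (hB : BCut G x y s₁ s₂ s₃ s₄ t A B) (hr : ¬ Rig G x) : ∃ c d, Gr9 G x y s₁ s₂ s₃ s₄ t c d := by
  obtain ⟨T, X, Y, hs, hT, hx, hX, hY⟩ := hFRG.nrig.1 hr
  have hy : y ∈ VS G := mem_VS.2 ⟨x, ((hB.p33.ny x).2 (Or.inl rfl))⟩
  rcases hs.mem_or hy with h | h | h
  · exact hXMA hB hs hT hx h hX hY
  · exact (hXMB hB hs hT hx h hX hY).elim
  · exact (hXMB hB hs.symm hT hx h hY hX).elim

end XMCM

theorem specXMC (hMCT : SpecMCT) (hMC1 : SpecMC1) (hXMA : SpecXMA) (hXMB : SpecXMB) (hFRG : SpecFRG) :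
    SpecXMC := by
  intro α _ _ G x y s₁ s₂ s₃ s₄ hS hP hE
  have hxy : G.Adj x y := (hP.nx y).2 (Or.inl rfl)
  have hx : x ∈ VS G := mem_VS.2 ⟨_, hxy⟩
  have hy : y ∈ VS G := mem_VS.2 ⟨_, hxy.symm⟩
  rcases hMCT hS.k48 hP with h | ⟨t, A, B, ht, hs, hA, hB, h3, h4, hcA, hcB⟩
  · exact Or.inl h
  have hb : BCut G x y s₁ s₂ s₃ s₄ t A B := ⟨hS.k48, hP, hE, ht, hs, hA, hB, h3, h4, hcA, hcB⟩
  by_cases hrx : Rig G x
  · by_cases hry : Rig G y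
    · exact Or.inl (hMC1 hS.k48 hP hE hrx (hS.rig x hx hrx).2 (hS.rig y hy hry).2 hS.np)
    · right
      have hset : ({y, x, s₂, s₁} : Finset α) = {x, y, s₁, s₂} := by
        ext w
        simp only [mem_insert, mem_singleton]
        tauto
      have hset2 : ({y, x, s₂, s₁, t} : Finset α) = {x, y, s₁, s₂, t} := by
        ext w
        simp only [mem_insert, mem_singleton]
        tauto
      have hb' : BCut G y x s₂ s₁ s₃ s₄ t A B := ⟨hS.k48, hP.sym1, ⟨hE.2.2.1, hE.2.2.2, hE.1, hE.2.1⟩,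
        by rw [hset]; exact ht, by rw [hset2]; exact hs, hA, hB, h3, h4, hcA, hcB⟩
      obtain ⟨c, d, h⟩ := XMCM.nrig hXMA hXMB hFRG hb' hry
      exact ⟨t, c, d, XMCM.Gr9sym h⟩
  · obtain ⟨c, d, h⟩ := XMCM.nrig hXMA hXMB hFRG hb hrx
    exact Or.inr ⟨t, c, d, h⟩

end DL
end

section
/-!
# MP_3ff0f8_gt, ALGEBRA HALF: modules XI3R, XZ3R, XQ1R, X33R, S1MR (assembly of section 2 and of section 1 without `SH`)

(copied from XI3 (helper28), XZ3 (helper39), XMC, XQ1, X33 (helper55), S1M)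
-/
open SimpleGraph Finset

namespace DL

theorem specXI3R (hXA3 : SpecXA3) (hXF2 : SpecXF2) (hXF3 : SpecXF3) (hXF4 : SpecXF4) (hXF5 : SpecXF5)
    (hXF6 : SpecXF6) (hXF7 : SpecXF7) : SpecXI3R := by
  intro α _ _ G x y s₁ s₂ s₃ s₄ ht hNP n14 n24
  have h4 : H4 G x y s₁ s₄ := fun z h => n14 ((h s₁).2 (by simp)).symm
  have h4' : H4 G y x s₂ s₄ := fun z h => n24 ((h s₂).2 (by simp)).symm
  have hK := ht.k48
  have hA : C1 (dst G s₃ {s₁, y}) ∨ MY G x y s₁ s₂ s₃ s₄ := by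
    rcases hXA3.y2 ht h4 with h | ⟨d, h⟩ | h
    · exact Or.inl h
    · exact absurd ((h s₄).2 (by simp)) n14
    · exact Or.inr h
  have hB : C1 (dst G s₃ {s₂, x}) ∨ MY G y x s₂ s₁ s₃ s₄ := by
    rcases hXA3.y2 ht.sym1 h4' with h | ⟨d, h⟩ | h
    · exact Or.inl h
    · exact absurd ((h s₄).2 (by simp)) n24
    · exact Or.inr h
  rcases hA with hA | hA
  · rcases hB with hB | hB
    · rcases hXF2 hK hNP ht.p33 ht.a1 ht.a2 n14 n24 with h | h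
      · exact Or.inl ⟨hA, h⟩
      · exact Or.inr (Or.inl ⟨hB, h⟩)
    · exact Or.inl ⟨hA, hXF3 hK hNP ht.p33 ht.a1 hB⟩
  · rcases hB with hB | hB
    · exact Or.inr (Or.inl ⟨hB, hXF3 hK hNP ht.p33.sym1 ht.a2 hA⟩)
    · refine Or.inr (Or.inr ?_)
      rcases hXF4 hK hNP ht.p33 ht.a1 ht.a2 n14 n24 hA hB with ⟨c, d, d', D, h⟩ | ⟨c, d, h⟩
      · have hR := hXF5.b1 hK ht.p33 n14 h
        exact ⟨hR, hXF7 hK hNP ht.p33 h hR, Or.inl ⟨c, d, d', D, h⟩⟩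
      · have hR := hXF5.b2 hK ht.p33 ht.a1 ht.a2 h
        exact ⟨hR, hXF6 ht.p33 ht.a2 h, Or.inr ⟨c, d, h⟩⟩

theorem specXZ3R (hXI1 : SpecXI1) (hXI3 : SpecXI3R) (hX35 : SpecX35) (hXCB : SpecXCB)
    (hDST : SpecDST) (hR3B : SpecR3B) : SpecXZ3R := by
  intro α _ _ G x y s₁ s₂ s₃ s₄ hT hnp hih
  obtain ⟨hxy, hx1, hx2, hx3, hx4, hy1, hy2, hy3, hy4, h12, h13', h14, h23', h24, h34⟩ :=
    X35M.nd hT.p33
  by_cases a2 : G.Adj s₂ s₄
  · refine hXI1 hT hnp hih ?_ a2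
    intro z hz
    by_cases a1 : G.Adj s₁ s₄
    · have hz2 : z = s₂ := by
        rcases (hz s₂).1 a2.symm with h | h | h | h
        · exact absurd h.symm hx2
        · exact absurd h.symm hy2
        · exact absurd h.symm h12
        · exact h.symm
      subst hz2
      obtain ⟨w, hw, hwn⟩ := hXCB.s3 hT.k48 hT.p33.sym2
      simp only [mem_insert, mem_singleton, not_or] at hwn
      have := (hz w).1 hw
      tauto
    · exact a1 (((hz s₁).2 (by tauto)).symm)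
  · by_cases a1 : G.Adj s₁ s₄
    · refine hXI1 hT.sym1 hnp hih ?_ a1
      intro z hz
      exact a2 (((hz s₂).2 (by tauto)).symm)
    · rcases hXI3 hT hnp a1 a2 with ⟨h1, h2⟩ | ⟨h1, h2⟩ | ⟨h1, h2, h3⟩
      · refine hX35 hT hnp hih ?_ (hih _ (hDST.sz4 hT.a1.symm (by simp)) h1 h2).2
        intro z hz
        exact a1 (((hz s₁).2 (by tauto)).symm)
      · refine hX35 hT.sym1 hnp hih ?_ (hih _ (hDST.sz4 hT.a2.symm (by simp)) h1 h2).2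
        intro z hz
        exact a2 (((hz s₂).2 (by tauto)).symm)
      · exact hR3B hT hnp hih a1 a2 h1 h2 h3

theorem specXQ1R (hXU1 : SpecXU1) (hXK1 : SpecXK1) (hC20 : SpecC20) (hF1N : SpecF1N) (hDST : SpecDST) :
    SpecXQ1R := by
  intro α _ _ G x y s₁ s₂ s₃ s₄ h48 hnp hih hP hE hK
  obtain ⟨c1, c2, -, -⟩ := hC20.c1 h48 hP
  have hxs : G.Adj x s₂ := (hP.nx s₂).2 (Or.inr (Or.inl rfl))
  have hys : G.Adj y s₁ := (hP.ny s₁).2 (Or.inr (Or.inl rfl))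
  have np1 := (hF1N h48 hP hnp).1
  have np2 := (hF1N h48 hP.sym1 hnp).1
  have ok1 := hih _ (hDST.sz2 hxs) c1 np1
  have ok2 := hih _ (hDST.sz2 hys) c2 np2
  exact ⟨hXU1 h48 hP hE ok1.1 ok2.1 hK, hXK1 h48 hnp hih hP hE⟩

theorem specX33R (hMCT : SpecMCT) (hMC1 : SpecMC1) (hXMA : SpecXMA) (hXMB : SpecXMB) (hFRG : SpecFRG)
    (hXM3 : SpecXM3) (hMNP : SpecMNP) (hXQ1 : SpecXQ1R) (hXQ2 : SpecXQ2) (hXZ3 : SpecXZ3R) (hR3A : SpecR3A)
    (hXC3 : SpecXC3) (hDST : SpecDST) : SpecX33R := by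
  intro α _ _ G x y s₁ s₂ s₃ s₄ h48 hnp hih hP
  by_cases h3 : G.Adj s₁ s₃ ∧ G.Adj s₂ s₃
  · exact hXZ3 ⟨h48, hP, h3.1, h3.2⟩ hnp hih
  by_cases h4 : G.Adj s₁ s₄ ∧ G.Adj s₂ s₄
  · exact hXZ3 ⟨h48, hP.sym2, h4.1, h4.2⟩ hnp hih
  by_cases h23 : G.Adj s₂ s₃
  · exact hXQ2 h48 hnp hih hP h23 (fun h => h3 ⟨h, h23⟩) h4
  by_cases h24 : G.Adj s₂ s₄
  · exact hXQ2 h48 hnp hih hP.sym2 h24 (fun h => h4 ⟨h, h24⟩) h3
  by_cases h13 : G.Adj s₁ s₃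
  · exact hXQ2 h48 hnp hih hP.sym1 h13 h23 fun h => h4 ⟨h.2, h.1⟩
  by_cases h14 : G.Adj s₁ s₄
  · exact hXQ2 h48 hnp hih hP.sym1.sym2 h14 h24 fun h => h3 ⟨h.2, h.1⟩
  have hE : E4 G s₁ s₂ s₃ s₄ := ⟨h13, h14, h23, h24⟩
  have hE' : E4 G s₂ s₁ s₃ s₄ := ⟨h23, h24, h13, h14⟩
  have hxs : G.Adj x s₂ := (hP.nx s₂).2 (Or.inr (Or.inl rfl))
  have hys : G.Adj y s₁ := (hP.ny s₁).2 (Or.inr (Or.inl rfl))
  have nd := hP.nd
  simp only [List.nodup_cons, List.mem_cons, List.not_mem_nil, or_false, not_or, List.nodup_nil, and_true,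
    not_false_eq_true] at nd
  have hadj : (contr G x s₂).Adj y s₁ := contr_adj_of_adj hys (by tauto) (by tauto)
  -- `M` in C1
  have hC : C1 (contr (contr G x s₂) y s₁) → OK G := by
    intro h
    by_cases hn : NP (contr (contr G x s₂) y s₁)
    · exact hXQ1 h48 hnp hih hP hE (hih _ ((hDST.sz2 hadj).trans (hDST.sz2 hxs)) h hn).2
    · have hx : Rig G x ∧ NP (del G {x}) := by
        by_contra hc
        exact hn (hMNP h48 hP hE hnp fun hr h' => hc ⟨hr, h'⟩)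
      have hy : Rig G y ∧ NP (del G {y}) := by
        by_contra hc
        have := hMNP h48 hP.sym1 hE' hnp fun hr h' => hc ⟨hr, h'⟩
        rw [hXC3.cc (a := y) (b := s₁) (c := x) (d := s₂) (by tauto) (by tauto) (by tauto) (by tauto) (by tauto)
          (by tauto)] at this
        exact hn this
      exact hR3A h48 hnp hih hP hE hx.1 hy.1 hx.2 (Or.inr hn)
  rcases hMCT h48 hP with h | ⟨t, A, B, ht, hs, hA, hB, ha, hb, hcA, hcB⟩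
  · exact hC h
  have hbc : BCut G x y s₁ s₂ s₃ s₄ t A B := ⟨h48, hP, hE, ht, hs, hA, hB, ha, hb, hcA, hcB⟩
  have hset : ({y, x, s₂, s₁} : Finset α) = {x, y, s₁, s₂} := by
    ext w
    simp only [mem_insert, mem_singleton]
    tauto
  have hset2 : ({y, x, s₂, s₁, t} : Finset α) = {x, y, s₁, s₂, t} := by
    ext w
    simp only [mem_insert, mem_singleton]
    tauto
  have hbc' : BCut G y x s₂ s₁ s₃ s₄ t A B := ⟨h48, hP.sym1, hE',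
    by rw [hset]; exact ht, by rw [hset2]; exact hs, hA, hB, ha, hb, hcA, hcB⟩
  by_cases hrx : Rig G x
  · by_cases hry : Rig G y
    · by_cases nx : NP (del G {x})
      · exact hR3A h48 hnp hih hP hE hrx hry nx (Or.inl ⟨t, A, B, hbc⟩)
      by_cases ny : NP (del G {y})
      · exact hR3A h48 hnp hih hP.sym1 hE' hry hrx ny (Or.inl ⟨t, A, B, hbc'⟩)
      exact hC (hMC1 h48 hP hE hrx nx ny hnp)
    · obtain ⟨c, d, h⟩ := XMCM.nrig hXMA hXMB hFRG hbc' hry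
      exact hXQ1 h48 hnp hih hP hE (hXM3.k (XMCM.Gr9sym h))
  · obtain ⟨c, d, h⟩ := XMCM.nrig hXMA hXMB hFRG hbc hrx
    exact hXQ1 h48 hnp hih hP hE (hXM3.k h)

theorem specS1MR (hS1P : SpecS1P) (hS1N : SpecS1N) (hS1G : SpecS1G) (hS1F : SpecS1F) (hS1C : SpecS1C)
    (hS1K : SpecS1K) : SpecS1MR := by
  classical
  intro hRNA α _ _ G hK hNP hIH h33
  by_cases hcon : ∀ u ∈ VS G, Rig G u → dg G u = 4 ∧ ¬ NP (del G {u})
  · exact Or.inl ⟨hK, hNP, hIH, hcon⟩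
  right
  push Not at hcon
  obtain ⟨u, hu, hR, h⟩ := hcon
  have hdeg : 4 ≤ dg G u := by
    refine (hK.1.le_nbs hu).trans (card_le_card ?_)
    intro w hw
    rw [mem_nbs] at hw
    simp only [NB, mem_filter, mem_univ, true_and, mem_singleton, exists_eq_left]
    exact ⟨hw.ne', hw⟩
  rcases Nat.eq_or_lt_of_le hdeg with h4 | h5
  · exact hRNA hK hNP hIH h33 hu hR h4.symm (h h4.symm)
  by_cases hpl : NP (del G {u})
  swap
  · exact hS1N hK hNP hIH hu hR h5 hpl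
  rcases Nat.eq_or_lt_of_le h5 with h5' | h6
  swap
  · exact hS1G hK hIH hu hR h6 hpl
  by_cases hv : ∃ v, G.Adj u v ∧ dg G v = 4 ∧ ∀ w, G.Adj v w → w = u ∨ G.Adj u w
  · obtain ⟨v, huv, hv4, hvN⟩ := hv
    obtain ⟨h1, h2, h3⟩ := hS1P hK hR hu hpl huv hvN
    exact hRNA hK hNP hIH h33 h1 h2 hv4 h3
  · have hv' : ∀ v, G.Adj u v → dg G v = 4 → ¬ ∀ w, G.Adj v w → w = u ∨ G.Adj u w :=
      fun v h1 h2 h3 => hv ⟨v, h1, h2, h3⟩
    rcases hS1F hK hIH hu hR h5'.symm hpl hv' with h1 | ⟨c, hc, hcN, h1 | ⟨w, hw, h1⟩⟩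
    · exact h1
    · exact hS1K c hK hIH hu hR hpl hc hcN h1
    · exact hS1C c w hK hIH hu hR hpl hc hcN hw h1

theorem specX33E (hXQ2 : SpecXQ2) (hXZ3 : SpecXZ3R) : SpecX33E := by
  intro α _ _ G x y s₁ s₂ s₃ s₄ h48 hnp hih hP hE
  by_cases h3 : G.Adj s₁ s₃ ∧ G.Adj s₂ s₃
  · exact hXZ3 ⟨h48, hP, h3.1, h3.2⟩ hnp hih
  by_cases h4 : G.Adj s₁ s₄ ∧ G.Adj s₂ s₄
  · exact hXZ3 ⟨h48, hP.sym2, h4.1, h4.2⟩ hnp hih
  by_cases h23 : G.Adj s₂ s₃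
  · exact hXQ2 h48 hnp hih hP h23 (fun h => h3 ⟨h, h23⟩) h4
  by_cases h24 : G.Adj s₂ s₄
  · exact hXQ2 h48 hnp hih hP.sym2 h24 (fun h => h4 ⟨h, h24⟩) h3
  by_cases h13 : G.Adj s₁ s₃
  · exact hXQ2 h48 hnp hih hP.sym1 h13 h23 fun h => h4 ⟨h.2, h.1⟩
  by_cases h14 : G.Adj s₁ s₄
  · exact hXQ2 h48 hnp hih hP.sym1.sym2 h14 h24 fun h => h3 ⟨h.2, h.1⟩
  exact absurd ⟨h13, h14, h23, h24⟩ hE

theorem specS1ME (hS1P : SpecS1P) (hS1N : SpecS1N) (hS1G : SpecS1G) (hS1F : SpecS1F) (hS1C : SpecS1C)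
    (hS1K : SpecS1K) : SpecS1ME := by
  classical
  intro hRNA α _ _ G hK hNP hIH h33
  by_cases hcon : ∀ u ∈ VS G, Rig G u → dg G u = 4 ∧ ¬ NP (del G {u})
  · exact Or.inl ⟨hK, hNP, hIH, hcon⟩
  right
  push Not at hcon
  obtain ⟨u, hu, hR, h⟩ := hcon
  have hdeg : 4 ≤ dg G u := by
    refine (hK.1.le_nbs hu).trans (card_le_card ?_)
    intro w hw
    rw [mem_nbs] at hw
    simp only [NB, mem_filter, mem_univ, true_and, mem_singleton, exists_eq_left]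
    exact ⟨hw.ne', hw⟩
  rcases Nat.eq_or_lt_of_le hdeg with h4 | h5
  · exact hRNA hK hNP hIH h33 hu hR h4.symm (h h4.symm)
  by_cases hpl : NP (del G {u})
  swap
  · exact hS1N hK hNP hIH hu hR h5 hpl
  rcases Nat.eq_or_lt_of_le h5 with h5' | h6
  swap
  · exact hS1G hK hIH hu hR h6 hpl
  by_cases hv : ∃ v, G.Adj u v ∧ dg G v = 4 ∧ ∀ w, G.Adj v w → w = u ∨ G.Adj u w
  · obtain ⟨v, huv, hv4, hvN⟩ := hv
    obtain ⟨h1, h2, h3⟩ := hS1P hK hR hu hpl huv hvN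
    exact hRNA hK hNP hIH h33 h1 h2 hv4 h3
  · have hv' : ∀ v, G.Adj u v → dg G v = 4 → ¬ ∀ w, G.Adj v w → w = u ∨ G.Adj u w :=
      fun v h1 h2 h3 => hv ⟨v, h1, h2, h3⟩
    rcases hS1F hK hIH hu hR h5'.symm hpl hv' with h1 | ⟨c, hc, hcN, h1 | ⟨w, hw, h1⟩⟩
    · exact h1
    · exact hS1K c hK hIH hu hR hpl hc hcN h1
    · exact hS1C c w hK hIH hu hR hpl hc hcN hw h1

end DL
end
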