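import Pool.Agent.DL.E.Spec2c
import Pool.Agent.DL.TREE

/-!
# MP_3ff0f8_gt, EXIST section 2, module XDD (helper67): (D-l)
-/

open SimpleGraph Finset

namespace DL.XDDM

set_option linter.unusedSectionVars false

variable {α : Type} [Fintype α] [DecidableEq α] {G : SimpleGraph α}

theorem un4 {β : Type} [DecidableEq β] (E : Fin 4 → β) (P : Fin 4 → Finset β) (x : β) :
    x ∈ univ.image E ∪ univ.biUnion P ↔ (x = E 0 ∨ x = E 1 ∨ x = E 2 ∨ x = E 3) ∨
      (x ∈ P 0 ∨ x ∈ P 1 ∨ x ∈ P 2 ∨ x ∈ P 3) := by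
  rw [mem_union, mem_image, mem_biUnion]
  constructor
  · rintro (⟨i, _, rfl⟩ | ⟨i, _, hi⟩)
    · fin_cases i <;> simp
    · fin_cases i <;> simp at hi <;> simp [hi]
  · rintro ((rfl | rfl | rfl | rfl) | (h | h | h | h))
    · exact Or.inl ⟨0, mem_univ _, rfl⟩
    · exact Or.inl ⟨1, mem_univ _, rfl⟩
    · exact Or.inl ⟨2, mem_univ _, rfl⟩
    · exact Or.inl ⟨3, mem_univ _, rfl⟩
    · exact Or.inr ⟨0, mem_univ _, h⟩
    · exact Or.inr ⟨1, mem_univ _, h⟩
    · exact Or.inr ⟨2, mem_univ _, h⟩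
    · exact Or.inr ⟨3, mem_univ _, h⟩

/-- the cube -/
def cube : Bool × Bool × Bool × Bool ≃ (Fin 4 → Bool) where
  toFun x := ![x.1, x.2.1, x.2.2.1, x.2.2.2]
  invFun e := (e 0, e 1, e 2, e 3)
  left_inv _ := rfl
  right_inv e := by
    funext i
    fin_cases i <;> rfl

theorem sum16 (H : (Fin 4 → Bool) → ZMod 2) :
    ∑ e : Fin 4 → Bool, H e = ∑ b0 : Bool, ∑ b1 : Bool, ∑ b2 : Bool, ∑ b3 : Bool, H ![b0, b1, b2, b3] := by
  rw [← cube.sum_comp H]
  simp only [Fintype.sum_prod_type]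
  rfl

/-- only two of the sixteen terms are not zero -/
theorem two_terms {H : (Fin 4 → Bool) → ZMod 2} (h0 : ∑ e : Fin 4 → Bool, H e = 0)
    (h1 : ∀ e, e 0 = false → H e = 0) (h2 : ∀ e, e 0 = true → e 3 = false → H e = 0)
    (h3 : ∀ e, e 0 = true → e 3 = true → e 1 = false → H e = 0) :
    H ![true, true, false, true] + H ![true, true, true, true] = 0 := by
  rw [sum16] at h0
  simp only [Fintype.sum_bool] at h0
  simp only [h1 ![false, _, _, _] rfl, h2 ![true, _, _, false] rfl rfl,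
    h3 ![true, false, _, true] rfl rfl rfl, add_zero] at h0
  rw [add_comm]
  exact h0

/-- the pieces of the minor -/
structure Cfg (G : SimpleGraph α) (x y s₁ s₂ s z₃ v v' b₁ b₂ : α) (Z : Finset (Sym2 α))
    (T2 T3 : SimpleGraph α) (X2 X3 : Finset α) : Prop where
  t2 : RTree X2 T2
  t3 : RTree X3 T3
  l2 : T2 ≤ G
  l3 : T3 ≤ G
  d23 : Disjoint X2 X3
  hb1 : b₁ ∈ X2
  hb2 : b₂ ∈ X2
  hv : v ∈ X2
  hv' : v' ∈ X2
  hz : z₃ ∈ X3
  hs : s ∈ X3
  a1 : G.Adj s₁ b₁
  a2 : G.Adj s₂ b₂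
  av : G.Adj v z₃
  av' : G.Adj v' z₃
  vv : v ≠ v'
  n2 : ∀ z ∈ X2, z ≠ x ∧ z ≠ y ∧ z ≠ s₁ ∧ z ≠ s₂
  n3 : ∀ z ∈ X3, z ≠ x ∧ z ≠ y ∧ z ≠ s₁ ∧ z ≠ s₂
  xy : G.Adj x y
  s12 : G.Adj s₁ s₂
  xs2 : G.Adj x s₂
  ys1 : G.Adj y s₁
  xs : G.Adj x s
  ys : G.Adj y s
  x1 : x ≠ s₁
  y2 : y ≠ s₂
  cZ : chi {s(v, z₃)} + chi {s(v', z₃)} + chi (tp T2 v v') = chi Z

variable {x y s₁ s₂ s z₃ v v' b₁ b₂ : α} {Z : Finset (Sym2 α)}
    {T2 T3 : SimpleGraph α} {X2 X3 : Finset α}

/-- the vertex sets -/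
def XX (x y s₁ s₂ : α) (X2 X3 : Finset α) : Fin 4 → Finset α := ![{x, y}, {s₁, s₂}, X2, X3]

/-- the trees -/
def TT (x y s₁ s₂ : α) (T2 T3 : SimpleGraph α) : Fin 4 → SimpleGraph α :=
  ![gr {s(x, y)}, gr {s(s₁, s₂)}, T2, T3]

/-- the starts of the beads -/
def pp (x y s₁ s₂ v v' s : α) : Fin 4 → Bool → α :=
  ![fun b => if b then y else x, fun b => if b then s₂ else s₁, fun b => if b then v' else v, fun _ => s]

/-- the ends of the beads -/
def qq (x y s₁ s₂ b₁ b₂ z₃ : α) : Fin 4 → Bool → α :=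
  ![fun b => if b then s₁ else s₂, fun b => if b then b₂ else b₁, fun _ => z₃, fun b => if b then x else y]

theorem edge_tree {a b : α} (h : G.Adj a b) : RTree {a, b} (gr {s(a, b)}) := by
  have h1 := (IsPth.edge h).treeOn
  rw [vs_singleton] at h1
  simpa using h1

namespace Cfg

variable (c : Cfg G x y s₁ s₂ s z₃ v v' b₁ b₂ Z T2 T3 X2 X3)
include c

theorem tree (i : Fin 4) : RTree (XX x y s₁ s₂ X2 X3 i) (TT x y s₁ s₂ T2 T3 i) := by
  fin_cases i
  · exact edge_tree c.xy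
  · exact edge_tree c.s12
  · exact c.t2
  · exact c.t3

theorem exists_minor : ∃ D : D4M G, D.X = XX x y s₁ s₂ X2 X3 ∧ D.T = TT x y s₁ s₂ T2 T3 ∧
    D.p = pp x y s₁ s₂ v v' s ∧ D.q = qq x y s₁ s₂ b₁ b₂ z₃ := by
  have hdis : ∀ i j, i < j → Disjoint (XX x y s₁ s₂ X2 X3 i) (XX x y s₁ s₂ X2 X3 j) := by
    intro i j hij
    rw [Finset.disjoint_left]
    intro z hz hz'
    fin_cases i <;> fin_cases j <;> first | exact absurd hij (by decide) | skip
    · change z ∈ ({x, y} : Finset α) at hz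
      change z ∈ ({s₁, s₂} : Finset α) at hz'
      simp only [mem_insert, mem_singleton] at hz hz'
      rcases hz with rfl | rfl <;> rcases hz' with rfl | rfl
      · exact c.x1 rfl
      · exact c.xs2.ne rfl
      · exact c.ys1.ne rfl
      · exact c.y2 rfl
    · change z ∈ ({x, y} : Finset α) at hz
      simp only [mem_insert, mem_singleton] at hz
      have := c.n2 z hz'
      tauto
    · change z ∈ ({x, y} : Finset α) at hz
      simp only [mem_insert, mem_singleton] at hz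
      have := c.n3 z hz'
      tauto
    · change z ∈ ({s₁, s₂} : Finset α) at hz
      simp only [mem_insert, mem_singleton] at hz
      have := c.n2 z hz'
      tauto
    · change z ∈ ({s₁, s₂} : Finset α) at hz
      simp only [mem_insert, mem_singleton] at hz
      have := c.n3 z hz'
      tauto
    · exact Finset.disjoint_left.1 c.d23 hz hz'
  refine ⟨{ X := XX x y s₁ s₂ X2 X3
            disj := fun i j hij => ?_
            T := TT x y s₁ s₂ T2 T3
            sub := ?_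
            inX := fun i => (c.tree i).inY
            conn := fun i => (c.tree i).conn
            acyc := fun i => (c.tree i).acyc
            p := pp x y s₁ s₂ v v' s
            q := qq x y s₁ s₂ b₁ b₂ z₃
            pX := ?_
            qX := ?_
            adj := ?_
            ne := ?_ }, rfl, rfl, rfl, rfl⟩
  · rcases lt_or_gt_of_ne hij with h | h
    · exact hdis i j h
    · exact (hdis j i h).symm
  · intro i
    fin_cases i
    · refine gr_le fun e he => ?_
      rw [mem_singleton] at he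
      rw [he]
      exact c.xy
    · refine gr_le fun e he => ?_
      rw [mem_singleton] at he
      rw [he]
      exact c.s12
    · exact c.l2
    · exact c.l3
  · intro i b
    fin_cases i
    · show (if b then y else x) ∈ ({x, y} : Finset α)
      cases b <;> simp
    · show (if b then s₂ else s₁) ∈ ({s₁, s₂} : Finset α)
      cases b <;> simp
    · show (if b then v' else v) ∈ X2
      cases b
      · exact c.hv
      · exact c.hv'
    · exact c.hs
  · intro i b
    fin_cases i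
    · show (if b then s₁ else s₂) ∈ ({s₁, s₂} : Finset α)
      cases b <;> simp
    · show (if b then b₂ else b₁) ∈ X2
      cases b
      · exact c.hb1
      · exact c.hb2
    · exact c.hz
    · show (if b then x else y) ∈ ({x, y} : Finset α)
      cases b <;> simp
  · intro i b
    fin_cases i
    · cases b
      · exact c.xs2
      · exact c.ys1
    · cases b
      · exact c.a1
      · exact c.a2
    · cases b
      · exact c.av
      · exact c.av'
    · cases b
      · exact c.ys.symm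
      · exact c.xs.symm
  · intro i
    fin_cases i
    · show s(x, s₂) ≠ s(y, s₁)
      intro h
      rw [Sym2.eq_iff] at h
      rcases h with h | h
      · exact c.xy.ne h.1
      · exact c.x1 h.1
    · show s(s₁, b₁) ≠ s(s₂, b₂)
      intro h
      rw [Sym2.eq_iff] at h
      rcases h with h | h
      · exact c.s12.ne h.1
      · exact (c.n2 _ c.hb2).2.2.1 h.1.symm
    · show s(v, z₃) ≠ s(v', z₃)
      intro h
      exact c.vv (Sym2.congr_left.1 h)
    · show s(s, y) ≠ s(s, x)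
      intro h
      exact c.xy.ne' (Sym2.congr_right.1 h)

end Cfg

theorem tp_edge_self (h : G.Adj x y) (a : α) : tp (gr {s(x, y)}) a a = ∅ :=
  tp_self (edge_tree h).acyc a

theorem tp_edge (h : G.Adj x y) : tp (gr {s(x, y)}) x y = {s(x, y)} :=
  (edge_tree h).tp_eq (IsPth.edge h) le_rfl

theorem main (hDCB : SpecDCB) (c : Cfg G x y s₁ s₂ s z₃ v v' b₁ b₂ Z T2 T3 X2 X3)
    {g : Finset (Sym2 α) → ZMod 2} {l : Chain α} (hg : D4even G g)
    (h1 : ∀ C, CycM G x s₂ C → g C = 0)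
    (h2 : ∀ C, CycM G y s₁ C → g C = chi C s(x, y) * chi C s(s₁, s₂) * ∑ e ∈ C, l e) :
    ∑ e ∈ Z, l e = 0 := by
  obtain ⟨D, hX, hT, hp, hq⟩ := c.exists_minor
  -- membership in the cycles
  have hcyc : ∀ (e : Fin 4 → Bool) (a : Sym2 α), a ∈ D.cyc e ↔
      (a = s(if e 0 then y else x, if e 0 then s₁ else s₂) ∨
        a = s(if e 1 then s₂ else s₁, if e 1 then b₂ else b₁) ∨
        a = s(if e 2 then v' else v, z₃) ∨ a = s(s, if e 3 then x else y)) ∨
      (a ∈ tp (gr {s(s₁, s₂)}) (if e 0 then s₁ else s₂) (if e 1 then s₂ else s₁) ∨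
        a ∈ tp T2 (if e 1 then b₂ else b₁) (if e 2 then v' else v) ∨
        a ∈ tp T3 z₃ s ∨
        a ∈ tp (gr {s(x, y)}) (if e 3 then x else y) (if e 0 then y else x)) := by
    intro e a
    have h1 : a ∈ D.cyc e ↔ _ := un4 (fun i => s(D.p i (e i), D.q i (e i)))
      (fun i => tp (D.T (i + 1)) (D.q i (e i)) (D.p (i + 1) (e (i + 1)))) a
    rw [h1, hT, hp, hq]
    rfl
  have hchi : ∀ (e : Fin 4 → Bool), chi (D.cyc e) =
      (chi {s(if e 0 then y else x, if e 0 then s₁ else s₂)} +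
        chi (tp (gr {s(s₁, s₂)}) (if e 0 then s₁ else s₂) (if e 1 then s₂ else s₁))) +
      (chi {s(if e 1 then s₂ else s₁, if e 1 then b₂ else b₁)} +
        chi (tp T2 (if e 1 then b₂ else b₁) (if e 2 then v' else v))) +
      (chi {s(if e 2 then v' else v, z₃)} + chi (tp T3 z₃ s)) +
      (chi {s(s, if e 3 then x else y)} +
        chi (tp (gr {s(x, y)}) (if e 3 then x else y) (if e 0 then y else x))) := by
    intro e
    rw [(hDCB.cyc D e).2, Fin.sum_univ_four, hT, hp, hq]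
    rfl
  have hC := fun e => (hDCB.cyc D e).1
  have hsum := hg D
  have f1 : ∀ e, e 0 = false → g (D.cyc e) = 0 := by
    intro e he
    refine h1 _ ⟨hC e, fun _ _ => ?_⟩
    rw [hcyc, he]
    simp
  have hcm : ∀ e, e 0 = true → CycM G y s₁ (D.cyc e) := by
    intro e he
    refine ⟨hC e, fun _ _ => ?_⟩
    rw [hcyc, he]
    simp
  have nX2 : ∀ {a b : α}, a ∈ X2 → b ∈ X2 → ∀ {u w : α}, s(u, w) ∈ tp T2 a b → u ∈ X2 ∧ w ∈ X2 := by
    intro a b ha hb u w h
    exact ⟨c.t2.vs_tp ha hb (left_mem_vs h), c.t2.vs_tp ha hb (right_mem_vs h)⟩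
  have nX3 : ∀ {a b : α}, a ∈ X3 → b ∈ X3 → ∀ {u w : α}, s(u, w) ∈ tp T3 a b → u ∈ X3 ∧ w ∈ X3 := by
    intro a b ha hb u w h
    exact ⟨c.t3.vs_tp ha hb (left_mem_vs h), c.t3.vs_tp ha hb (right_mem_vs h)⟩
  have nX0 : ∀ {a b : α}, a ∈ ({x, y} : Finset α) → b ∈ ({x, y} : Finset α) → ∀ {u w : α},
      s(u, w) ∈ tp (gr {s(x, y)}) a b → (u = x ∨ u = y) ∧ (w = x ∨ w = y) := by
    intro a b ha hb u w h
    have h1 := (edge_tree c.xy).vs_tp ha hb (left_mem_vs h)
    have h2 := (edge_tree c.xy).vs_tp ha hb (right_mem_vs h)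
    simpa using And.intro h1 h2
  have nX1 : ∀ {a b : α}, a ∈ ({s₁, s₂} : Finset α) → b ∈ ({s₁, s₂} : Finset α) → ∀ {u w : α},
      s(u, w) ∈ tp (gr {s(s₁, s₂)}) a b → (u = s₁ ∨ u = s₂) ∧ (w = s₁ ∨ w = s₂) := by
    intro a b ha hb u w h
    have h1 := (edge_tree c.s12).vs_tp ha hb (left_mem_vs h)
    have h2 := (edge_tree c.s12).vs_tp ha hb (right_mem_vs h)
    simpa using And.intro h1 h2
  have mb : ∀ b : Bool, (if b then b₂ else b₁) ∈ X2 := by
    intro b
    cases b
    · exact c.hb1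
    · exact c.hb2
  have mv : ∀ b : Bool, (if b then v' else v) ∈ X2 := by
    intro b
    cases b
    · exact c.hv
    · exact c.hv'
  have ms1 : ∀ b : Bool, (if b then s₂ else s₁) ∈ ({s₁, s₂} : Finset α) := by
    intro b
    cases b <;> simp
  have f2 : ∀ e, e 0 = true → e 3 = false → g (D.cyc e) = 0 := by
    intro e he he3
    rw [h2 _ (hcm e he), chi_of_notMem (e := s(x, y)), zero_mul, zero_mul]
    rw [hcyc, he, he3]
    simp only [if_true, Bool.false_eq_true, if_false]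
    rintro ((h | h | h | h) | (h | h | h | h))
    · rw [Sym2.eq_iff] at h
      rcases h with h | h
      · exact c.xy.ne h.1
      · exact c.x1 h.1
    · have hb := mb (e 1)
      have hs := ms1 (e 1)
      generalize (if e 1 = true then b₂ else b₁) = b at hb h
      generalize (if e 1 = true then s₂ else s₁) = t at hs h
      simp only [mem_insert, mem_singleton] at hs
      rw [Sym2.eq_iff] at h
      rcases h with ⟨h, h'⟩ | ⟨h, h'⟩
      · exact (c.n2 _ hb).2.1 h'.symm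
      · exact (c.n2 _ hb).1 h.symm
    · rw [Sym2.eq_iff] at h
      rcases h with ⟨h, h'⟩ | ⟨h, h'⟩
      · exact (c.n3 _ c.hz).2.1 h'.symm
      · exact (c.n3 _ c.hz).1 h.symm
    · rw [Sym2.eq_iff] at h
      rcases h with ⟨h, h'⟩ | ⟨h, h'⟩
      · exact (c.n3 _ c.hs).1 h.symm
      · exact c.xy.ne h
    · have := nX1 (by simp) (ms1 (e 1)) h
      rcases this.1 with h' | h'
      · exact c.x1 h'
      · exact c.xs2.ne h'
    · exact (c.n2 _ (nX2 (mb _) (mv _) h).1).1 rfl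
    · exact (c.n3 _ (nX3 c.hz c.hs h).1).1 rfl
    · rw [tp_edge_self c.xy] at h
      simp at h
  have f3 : ∀ e, e 0 = true → e 3 = true → e 1 = false → g (D.cyc e) = 0 := by
    intro e he he3 he1
    rw [h2 _ (hcm e he), chi_of_notMem (e := s(s₁, s₂)), mul_zero, zero_mul]
    rw [hcyc, he, he3, he1]
    simp only [if_true, Bool.false_eq_true, if_false]
    rintro ((h | h | h | h) | (h | h | h | h))
    · rw [Sym2.eq_iff] at h
      rcases h with h | h
      · exact c.ys1.ne h.1.symm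
      · exact c.y2 h.2.symm
    · rw [Sym2.eq_iff] at h
      rcases h with ⟨h, h'⟩ | ⟨h, h'⟩
      · exact (c.n2 _ c.hb1).2.2.2 h'.symm
      · exact c.s12.ne' h'
    · rw [Sym2.eq_iff] at h
      rcases h with ⟨h, h'⟩ | ⟨h, h'⟩
      · exact (c.n3 _ c.hz).2.2.2 h'.symm
      · exact (c.n3 _ c.hz).2.2.1 h.symm
    · rw [Sym2.eq_iff] at h
      rcases h with ⟨h, h'⟩ | ⟨h, h'⟩
      · exact (c.n3 _ c.hs).2.2.1 h.symm
      · exact c.x1 h.symm
    · rw [tp_edge_self c.s12] at h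
      simp at h
    · exact (c.n2 _ (nX2 c.hb1 (mv _) h).1).2.2.1 rfl
    · exact (c.n3 _ (nX3 c.hz c.hs h).1).2.2.1 rfl
    · have := nX0 (by simp) (by simp) h
      rcases this.1 with h' | h'
      · exact c.x1 h'.symm
      · exact c.ys1.ne h'.symm
  have key := two_terms (H := fun e => g (D.cyc e)) hsum f1 f2 f3
  have f4 : ∀ e, e 0 = true → e 3 = true → e 1 = true → g (D.cyc e) = ∑ a ∈ D.cyc e, l a := by
    intro e he he3 he1
    rw [h2 _ (hcm e he), chi_of_mem (e := s(s₁, s₂)), chi_of_mem (e := s(x, y)), one_mul, one_mul]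
    · rw [hcyc, he, he3]
      simp only [if_true]
      rw [tp_edge c.xy]
      simp
    · rw [hcyc, he, he1]
      simp only [if_true]
      rw [tp_edge c.s12]
      simp
  have k1 : g (D.cyc ![true, true, false, true]) + g (D.cyc ![true, true, true, true]) = 0 := key
  rw [f4 _ rfl rfl rfl, f4 _ rfl rfl rfl, ← sum_mul_chi l (D.cyc ![true, true, false, true]),
    ← sum_mul_chi l (D.cyc ![true, true, true, true]), ← sum_add_distrib] at k1
  have k2 : chi (D.cyc ![true, true, false, true]) + chi (D.cyc ![true, true, true, true]) = chi Z := by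
    have e1 := hchi ![true, true, false, true]
    have e2 := hchi ![true, true, true, true]
    have e1' : chi (D.cyc ![true, true, false, true]) =
      (chi {s(y, s₁)} + chi (tp (gr {s(s₁, s₂)}) s₁ s₂)) + (chi {s(s₂, b₂)} + chi (tp T2 b₂ v)) +
      (chi {s(v, z₃)} + chi (tp T3 z₃ s)) + (chi {s(s, x)} + chi (tp (gr {s(x, y)}) x y)) := e1
    have e2' : chi (D.cyc ![true, true, true, true]) =
      (chi {s(y, s₁)} + chi (tp (gr {s(s₁, s₂)}) s₁ s₂)) + (chi {s(s₂, b₂)} + chi (tp T2 b₂ v')) +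
      (chi {s(v', z₃)} + chi (tp T3 z₃ s)) + (chi {s(s, x)} + chi (tp (gr {s(x, y)}) x y)) := e2
    have e3 := c.t2.four c.hb2 c.hv c.hv c.hv'
    rw [tp_self c.t2.acyc] at e3
    rw [e1', e2', ← c.cZ]
    generalize chi (tp (gr {s(s₁, s₂)}) s₁ s₂) = a1
    generalize chi (tp (gr {s(x, y)}) x y) = a2
    generalize chi (tp T3 z₃ s) = a3
    generalize chi ({s(y, s₁)} : Finset (Sym2 α)) = a4
    generalize chi ({s(s₂, b₂)} : Finset (Sym2 α)) = a5
    generalize chi ({s(s, x)} : Finset (Sym2 α)) = a6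
    generalize chi (tp T2 b₂ v) = a7 at *
    generalize chi (tp T2 b₂ v') = a8 at *
    generalize chi (tp T2 v v') = a9 at *
    have q1 := chain_add_self a1
    have q2 := chain_add_self a2
    have q3 := chain_add_self a3
    have q4 := chain_add_self a4
    have q5 := chain_add_self a5
    have q6 := chain_add_self a6
    have q9 := chain_add_self a9
    rw [chi_empty] at e3
    linear_combination (exp := 1) q1 + q2 + q3 + q4 + q5 + q6 - q9 + e3
  rw [← sum_mul_chi l Z, ← k2, ← k1]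
  refine sum_congr rfl fun e _ => ?_
  rw [Pi.add_apply]
  ring

/-- the configuration from the three paths -/
theorem exists_cfg {s₃ s₄ z₁ z₂ : α} {L₁ L₂ L₃ : Finset (Sym2 α)} (h : P33 G x y s₁ s₂ s₃ s₄)
    (h12 : G.Adj s₁ s₂) (hs : s = s₃ ∨ s = s₄) (c : TPth G x y s₁ s₂ s z₁ z₂ z₃ Z L₁ L₂ L₃) :
    ∃ v v' b₁ b₂ T2 T3 X2 X3, Cfg G x y s₁ s₂ s z₃ v v' b₁ b₂ Z T2 T3 X2 X3 := by
  have hZ : IsCyc G Z := c.z.mono (fun _ _ h => h.1)
  have hZd : ∀ z ∈ vs Z, z ≠ x ∧ z ≠ y ∧ z ≠ s₁ ∧ z ≠ s₂ := by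
    intro z hz
    have := Finset.disjoint_left.1 (isCyc_del.1 c.z).2 hz
    simpa only [mem_insert, mem_singleton, not_or] using this
  have e1 : z₁ ≠ s₁ := (hZd _ c.z1).2.2.1
  have e2 : z₂ ≠ s₂ := (hZd _ c.z2).2.2.2
  have q1 : IsPth G z₁ s₁ L₁ := c.p1.mono (fun _ _ h => h.1)
  have q2 : IsPth G z₂ s₂ L₂ := c.p2.mono (fun _ _ h => h.1)
  have q3 : IsPth G z₃ s L₃ := c.p3.mono (fun _ _ h => h.1)
  have o1 : ∀ z ∈ vs L₁, z ≠ x ∧ z ≠ y := by
    intro z hz
    have := Finset.disjoint_left.1 (vs_of_isPth_del c.p1) hz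
    simpa only [mem_insert, mem_singleton, not_or] using this
  have o2 : ∀ z ∈ vs L₂, z ≠ x ∧ z ≠ y := by
    intro z hz
    have := Finset.disjoint_left.1 (vs_of_isPth_del c.p2) hz
    simpa only [mem_insert, mem_singleton, not_or] using this
  have o3 : ∀ z ∈ vs L₃, z ≠ x ∧ z ≠ y := by
    intro z hz
    have := Finset.disjoint_left.1 (vs_of_isPth_del c.p3) hz
    simpa only [mem_insert, mem_singleton, not_or] using this
  have D12 := Finset.disjoint_left.1 c.d12
  have D13 := Finset.disjoint_left.1 c.d13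
  have D23 := Finset.disjoint_left.1 c.d23
  have s1L : s₁ ∈ vs L₁ := q1.right_mem e1
  have s2L : s₂ ∈ vs L₂ := q2.right_mem e2
  have M1 : ∀ z ∈ vs L₁, z ∈ vs Z → z = z₁ := fun z h1 h2 => by
    simpa using c.m1 (mem_inter.2 ⟨h1, h2⟩)
  have M2 : ∀ z ∈ vs L₂, z ∈ vs Z → z = z₂ := fun z h1 h2 => by
    simpa using c.m2 (mem_inter.2 ⟨h1, h2⟩)
  have M3 : ∀ z ∈ vs L₃, z ∈ vs Z → z = z₃ := fun z h1 h2 => by
    simpa using c.m3 (mem_inter.2 ⟨h1, h2⟩)
  have n12 : z₁ ≠ z₂ := fun h => D12 (mem_insert_self _ _) (h ▸ mem_insert_self _ _)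
  have n13 : z₁ ≠ z₃ := fun h => D13 (mem_insert_self _ _) (h ▸ mem_insert_self _ _)
  have n23 : z₂ ≠ z₃ := fun h => D23 (mem_insert_self _ _) (h ▸ mem_insert_self _ _)
  obtain ⟨v, v', vv, hv, hv', -⟩ := hZ.two_edges c.z3
  have hP := hZ.isPth_del hv hv' vv
  set P := Z \ {s(z₃, v), s(z₃, v')} with hPdef
  have hPZ : P ⊆ Z := sdiff_subset
  have z3P : z₃ ∉ vs P := by
    have := Finset.disjoint_left.1 (vs_of_isPth_del hP)
    intro h'
    exact this h' (mem_singleton_self _)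
  have hPG : IsPth G v v' P := hP.mono (fun _ _ h => h.1)
  obtain ⟨b₁, a1, b1L, s1n, r1⟩ := q1.symm.uncons e1.symm
  obtain ⟨b₂, a2, b2L, s2n, r2⟩ := q2.symm.uncons e2.symm
  set K₁ := L₁ \ {s(s₁, b₁)} with hK1
  set K₂ := L₂ \ {s(s₂, b₂)} with hK2
  have k1 : vs K₁ ⊆ vs L₁ := vs_mono sdiff_subset
  have k2 : vs K₂ ⊆ vs L₂ := vs_mono sdiff_subset
  have vZ : v ∈ vs Z := right_mem_vs hv
  have vZ' : v' ∈ vs Z := right_mem_vs hv'
  have PZ : ∀ z ∈ insert v (vs P), z ∈ vs Z := by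
    intro z hz
    rw [mem_insert] at hz
    rcases hz with rfl | hz
    · exact vZ
    · exact vs_mono hPZ hz
  have v'm : v' ∈ insert v (vs P) := mem_insert_of_mem (hPG.right_mem vv)
  -- the vertices of the cycle other than `z₃`
  have ZP : ∀ z ∈ vs Z, z ≠ z₃ → z ∈ insert v (vs P) := by
    intro z hz hz3
    obtain ⟨e, he, hze⟩ := mem_vs.1 hz
    by_cases h1 : e = s(z₃, v)
    · rw [h1, Sym2.mem_iff] at hze
      rcases hze with h2 | h2
      · exact absurd h2 hz3
      · rw [h2]; exact mem_insert_self _ _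
    · by_cases h2 : e = s(z₃, v')
      · rw [h2, Sym2.mem_iff] at hze
        rcases hze with h2 | h2
        · exact absurd h2 hz3
        · rw [h2]; exact v'm
      · refine mem_insert_of_mem (mem_vs.2 ⟨e, ?_, hze⟩)
        rw [hPdef, mem_sdiff]
        refine ⟨he, ?_⟩
        simp only [mem_insert, mem_singleton, not_or]
        exact ⟨h1, h2⟩
  have t0 := hPG.treeOn
  have t1 := RTree.add_path r1.symm t0 (ZP _ c.z1 n13) (fun z hz hzP => M1 z (k1 hz) (PZ z hzP))
  have t2 := RTree.add_path r2.symm t1 (mem_union_left _ (ZP _ c.z2 n23)) (fun z hz hzP => by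
    rw [mem_union] at hzP
    rcases hzP with hzP | hzP
    · exact M2 z (k2 hz) (PZ z hzP)
    · exact (D12 (mem_insert_of_mem (k1 hzP)) (mem_insert_of_mem (k2 hz))).elim)
  have X2d : ∀ z ∈ insert v (vs P) ∪ vs K₁ ∪ vs K₂, (z ∈ vs Z ∧ z ≠ z₃) ∨ (z ∈ vs K₁ ∨ z ∈ vs K₂) := by
    intro z hz
    rw [mem_union, mem_union] at hz
    rcases hz with (hz | hz) | hz
    · refine Or.inl ⟨PZ z hz, ?_⟩
      rintro rfl
      rw [mem_insert] at hz
      rcases hz with hz | hz
      · exact (hZ.adj_of_mem hv).ne hz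
      · exact z3P hz
    · exact Or.inr (Or.inl hz)
    · exact Or.inr (Or.inr hz)
  have e3 : insert z₁ (vs K₁) ⊆ insert v (vs P) ∪ vs K₁ ∪ vs K₂ := by
    intro z hz
    rw [mem_insert] at hz
    rcases hz with rfl | hz
    · exact mem_union_left _ (mem_union_left _ (ZP _ c.z1 n13))
    · exact mem_union_left _ (mem_union_right _ hz)
  have e4 : insert z₂ (vs K₂) ⊆ insert v (vs P) ∪ vs K₁ ∪ vs K₂ := by
    intro z hz
    rw [mem_insert] at hz
    rcases hz with rfl | hz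
    · exact mem_union_left _ (mem_union_left _ (ZP _ c.z2 n23))
    · exact mem_union_right _ hz
  have nd := h.nd
  simp only [List.nodup_cons, List.mem_cons, List.not_mem_nil, or_false, not_or] at nd
  have hx1 : x ≠ s₁ := nd.1.2.1
  have hy2 : y ≠ s₂ := nd.2.1.2.1
  have xs : G.Adj x s := (h.nx s).2 (by rcases hs with h | h <;> simp [h])
  have ys : G.Adj y s := (h.ny s).2 (by rcases hs with h | h <;> simp [h])
  refine ⟨v, v', b₁, b₂, gr P ⊔ gr K₁ ⊔ gr K₂, gr L₃, insert v (vs P) ∪ vs K₁ ∪ vs K₂, insert z₃ (vs L₃),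
    { t2 := t2, t3 := q3.treeOn, l2 := ?_, l3 := ?_, d23 := ?_, hb1 := e3 r1.symm.end_mem,
      hb2 := e4 r2.symm.end_mem, hv := ?_, hv' := ?_, hz := mem_insert_self _ _, hs := q3.end_mem, a1 := a1,
      a2 := a2, av := (hZ.adj_of_mem hv).symm, av' := (hZ.adj_of_mem hv').symm, vv := vv, n2 := ?_, n3 := ?_,
      xy := (h.nx y).2 (Or.inl rfl), s12 := h12, xs2 := (h.nx s₂).2 (Or.inr (Or.inl rfl)),
      ys1 := (h.ny s₁).2 (Or.inr (Or.inl rfl)), xs := xs, ys := ys, x1 := hx1, y2 := hy2, cZ := ?_ }⟩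
  · refine sup_le (sup_le (gr_le hPG.subset) (gr_le r1.subset)) (gr_le r2.subset)
  · exact gr_le q3.subset
  · rw [Finset.disjoint_left]
    intro z hz hz3
    rcases X2d z hz with ⟨h1, h2⟩ | h1 | h1
    · rw [mem_insert] at hz3
      rcases hz3 with hz3 | hz3
      · exact h2 hz3
      · exact h2 (M3 z hz3 h1)
    · exact D13 (mem_insert_of_mem (k1 h1)) hz3
    · exact D23 (mem_insert_of_mem (k2 h1)) hz3
  · exact mem_union_left _ (mem_union_left _ (mem_insert_self _ _))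
  · exact mem_union_left _ (mem_union_left _ v'm)
  · intro z hz
    rcases X2d z hz with ⟨h1, h2⟩ | h1 | h1
    · exact hZd z h1
    · refine ⟨(o1 z (k1 h1)).1, (o1 z (k1 h1)).2, ?_, ?_⟩
      · rintro rfl
        exact s1n h1
      · rintro rfl
        exact D12 (mem_insert_of_mem (k1 h1)) (mem_insert_of_mem s2L)
    · refine ⟨(o2 z (k2 h1)).1, (o2 z (k2 h1)).2, ?_, ?_⟩
      · rintro rfl
        exact D12 (mem_insert_of_mem s1L) (mem_insert_of_mem (k2 h1))
      · rintro rfl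
        exact s2n h1
  · intro z hz
    have h1 : z ≠ x ∧ z ≠ y := by
      rw [mem_insert] at hz
      rcases hz with rfl | hz
      · exact ⟨(hZd _ c.z3).1, (hZd _ c.z3).2.1⟩
      · exact o3 z hz
    refine ⟨h1.1, h1.2, ?_, ?_⟩
    · rintro rfl
      exact D13 (mem_insert_of_mem s1L) hz
    · rintro rfl
      exact D23 (mem_insert_of_mem s2L) hz
  · have e5 : tp (gr P ⊔ gr K₁ ⊔ gr K₂) v v' = P :=
      t2.tp_eq hPG (le_trans le_sup_left le_sup_left)
    rw [e5]
    have e6 : Z = insert s(z₃, v) (insert s(z₃, v') P) := by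
      ext e
      rw [mem_insert, mem_insert, hPdef, mem_sdiff, mem_insert, mem_singleton]
      constructor
      · intro he
        by_cases h1 : e = s(z₃, v)
        · exact Or.inl h1
        · by_cases h2 : e = s(z₃, v')
          · exact Or.inr (Or.inl h2)
          · exact Or.inr (Or.inr ⟨he, by tauto⟩)
      · rintro (rfl | rfl | h)
        · exact hv
        · exact hv'
        · exact h.1
    have e7 : s(z₃, v) ∉ insert s(z₃, v') P := by
      rw [mem_insert]
      rintro (h | h)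
      · exact vv (Sym2.congr_right.1 h)
      · exact z3P (left_mem_vs h)
    have e8 : s(z₃, v') ∉ P := fun h => z3P (left_mem_vs h)
    rw [e6, chi_insert e7, chi_insert e8, Sym2.eq_swap (a := v), Sym2.eq_swap (a := v'), add_assoc]

end DL.XDDM

namespace DL

open XDDM in
theorem specXDD (hDCB : SpecDCB) : SpecXDD := by
  intro α _ _ G x y s₁ s₂ s₃ s₄ s z₁ z₂ z₃ Z L₁ L₂ L₃ g l h h12 hs c hg h1 h2
  obtain ⟨v, v', b₁, b₂, T2, T3, X2, X3, d⟩ := exists_cfg h h12 hs c
  exact main hDCB d hg h1 h2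

end DL
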