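import Pool.Agent.DL.E.Spec2c
import Pool.Agent.DL.PC2

/-!
# MP_3ff0f8_gt, EXIST section 2, module XDR (helper67)
-/

open SimpleGraph Finset

namespace DL.XDRM

set_option linter.unusedSectionVars false

variable {α : Type} [Fintype α] [DecidableEq α] {G : SimpleGraph α} {x y s₁ s₂ : α} {σ : α → ZMod 2}

/-- the weights of the edges at `s₂` and `x` -/
def wt (x y s₁ s₂ : α) (σ : α → ZMod 2) : Chain α := fun e =>
  ∑ v ∈ univ \ {x, y, s₁, s₂}, σ v * ((if e = s(s₂, v) then 1 else 0) + if e = s(x, v) then 1 else 0)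

theorem wt_zero {e : Sym2 α} (h : ∀ v, v ∉ ({x, y, s₁, s₂} : Finset α) → e ≠ s(s₂, v) ∧ e ≠ s(x, v)) :
    wt x y s₁ s₂ σ e = 0 := by
  refine sum_eq_zero fun v hv => ?_
  rw [mem_sdiff] at hv
  rw [if_neg (h v hv.2).1, if_neg (h v hv.2).2, add_zero, mul_zero]

theorem wt_s2 {v : α} (hv : v ∉ ({x, y, s₁, s₂} : Finset α)) (hx : x ≠ s₂) :
    wt x y s₁ s₂ σ s(s₂, v) = σ v := by
  rw [wt, sum_eq_single v]
  · rw [if_pos rfl, if_neg, add_zero, mul_one]
    intro h
    exact hx (Sym2.congr_left.1 h).symm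
  · intro w hw hwv
    rw [mem_sdiff] at hw
    have hw2 := hw.2
    simp only [mem_insert, mem_singleton, not_or] at hw2
    rw [if_neg, if_neg, add_zero, mul_zero]
    · intro h
      rw [Sym2.eq_iff] at h
      rcases h with h | h
      · exact hx h.1.symm
      · exact hw2.2.2.2 h.1.symm
    · intro h
      exact hwv (Sym2.congr_right.1 h).symm
  · intro h
    exact absurd (mem_sdiff.2 ⟨mem_univ _, hv⟩) h

theorem wt_x {v : α} (hv : v ∉ ({x, y, s₁, s₂} : Finset α)) (hx : x ≠ s₂) :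
    wt x y s₁ s₂ σ s(x, v) = σ v := by
  rw [wt, sum_eq_single v]
  · rw [if_pos rfl, if_neg, zero_add, mul_one]
    intro h
    exact hx (Sym2.congr_left.1 h)
  · intro w hw hwv
    rw [mem_sdiff] at hw
    have hw2 := hw.2
    simp only [mem_insert, mem_singleton, not_or] at hw2
    rw [if_neg, if_neg, add_zero, mul_zero]
    · intro h
      exact hwv (Sym2.congr_right.1 h).symm
    · intro h
      rw [Sym2.eq_iff] at h
      rcases h with h | h
      · exact hx h.1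
      · exact hw2.1 h.1.symm
  · intro h
    exact absurd (mem_sdiff.2 ⟨mem_univ _, hv⟩) h

/-- `σ` off the four vertices -/
def sg (x y s₁ s₂ : α) (σ : α → ZMod 2) : α → ZMod 2 := fun v =>
  if v ∈ ({x, y, s₁, s₂} : Finset α) then 0 else σ v

theorem key {l : Chain α} (h0 : ∀ e, x ∈ e ∨ y ∈ e ∨ s₁ ∈ e ∨ s₂ ∈ e → l e = 0)
    (hσ : ∀ u v, (del G {x, y, s₁, s₂}).Adj u v → l s(u, v) = σ u + σ v) (hx : x ≠ s₂)
    (hx1 : x ≠ s₁) (hy2 : y ≠ s₂) {C : Finset (Sym2 α)} (hC : IsCyc G C) (h1 : s(x, y) ∈ C) (h2 : s(y, s₁) ∈ C)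
    (h3 : s(s₁, s₂) ∈ C) : ∑ e ∈ C, l e = ∑ e ∈ C, wt x y s₁ s₂ σ e := by
  have hy : ∀ v, s(y, v) ∈ C → v = x ∨ v = s₁ := fun v hv =>
    hC.eq_or_eq (by rw [Sym2.eq_swap]; exact h1) h2 hx1 hv
  have h1' : ∀ v, s(s₁, v) ∈ C → v = y ∨ v = s₂ := fun v hv =>
    hC.eq_or_eq (by rw [Sym2.eq_swap]; exact h2) h3 hy2 hv
  have hout : ∀ a b : α, G.Adj a b → a ∉ ({x, y, s₁, s₂} : Finset α) → b ∉ ({x, y, s₁, s₂} : Finset α) →
      l s(a, b) + wt x y s₁ s₂ σ s(a, b) = sg x y s₁ s₂ σ a + sg x y s₁ s₂ σ b := by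
    intro a b hab ha hb
    rw [hσ a b ⟨hab, ha, hb⟩, sg, sg, if_neg ha, if_neg hb, wt_zero, add_zero]
    intro v _
    simp only [mem_insert, mem_singleton, not_or] at ha hb
    refine ⟨fun h => ?_, fun h => ?_⟩ <;> rw [Sym2.eq_iff] at h
    · rcases h with h | h
      · exact ha.2.2.2 h.1
      · exact hb.2.2.2 h.2
    · rcases h with h | h
      · exact ha.1 h.1
      · exact hb.1 h.2
  have hin : ∀ a b : α, s(a, b) ∈ C → a ∈ ({x, y, s₁, s₂} : Finset α) →
      l s(a, b) + wt x y s₁ s₂ σ s(a, b) = sg x y s₁ s₂ σ a + sg x y s₁ s₂ σ b := by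
    intro a b hab ha
    have hl : l s(a, b) = 0 := by
      refine h0 _ ?_
      simp only [mem_insert, mem_singleton] at ha
      simp only [Sym2.mem_iff]
      rcases ha with rfl | rfl | rfl | rfl <;> simp
    rw [hl, zero_add, sg, sg, if_pos ha, zero_add]
    by_cases hb : b ∈ ({x, y, s₁, s₂} : Finset α)
    · rw [if_pos hb]
      refine wt_zero fun v hv => ⟨fun h => ?_, fun h => ?_⟩ <;> rw [Sym2.eq_iff] at h <;>
        rcases h with h | h
      · exact hv (h.2 ▸ hb)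
      · exact hv (h.1 ▸ ha)
      · exact hv (h.2 ▸ hb)
      · exact hv (h.1 ▸ ha)
    · rw [if_neg hb]
      have ha' := ha
      simp only [mem_insert, mem_singleton] at ha'
      rcases ha' with rfl | rfl | rfl | rfl
      · exact wt_x hb hx
      · exfalso
        apply hb
        rcases hy b hab with rfl | rfl <;> simp
      · exfalso
        apply hb
        rcases h1' b hab with rfl | rfl <;> simp
      · exact wt_s2 hb hx
  have hall : ∀ e ∈ C, l e + wt x y s₁ s₂ σ e = cob (sg x y s₁ s₂ σ) e := by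
    intro e he
    induction e using Sym2.ind with
    | _ a b =>
      rw [cob_mk]
      by_cases ha : a ∈ ({x, y, s₁, s₂} : Finset α)
      · exact hin a b he ha
      · by_cases hb : b ∈ ({x, y, s₁, s₂} : Finset α)
        · have := hin b a (by rw [Sym2.eq_swap]; exact he) hb
          rw [Sym2.eq_swap, this, add_comm]
        · exact hout a b (hC.adj_of_mem he) ha hb
  have h4 : ∑ e ∈ C, (l e + wt x y s₁ s₂ σ e) = 0 := by
    rw [sum_congr rfl hall, ← sum_mul_chi]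
    exact cob_orth hC.chi_mem _
  rw [sum_add_distrib] at h4
  exact CharTwo.add_eq_zero.1 h4

end DL.XDRM

namespace DL

open XDRM in
theorem specXDR (hGLU : SpecGLU) (hXDM : SpecXDM) (hXDD : SpecXDD) : SpecXDR := by
  intro α _ _ G x y s₁ s₂ s₃ s₄ g l hK h hg h0 h1 h2
  have nd := h.nd
  simp only [List.nodup_cons, List.mem_cons, List.not_mem_nil, or_false, not_or] at nd
  by_cases h12 : G.Adj s₁ s₂
  · obtain ⟨σ, hσ⟩ : ∃ σ : α → ZMod 2, ∀ u v, (del G {x, y, s₁, s₂}).Adj u v → l s(u, v) = σ u + σ v := by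
      refine cut' fun Z hZ => ?_
      obtain ⟨s, z₁, z₂, z₃, L₁, L₂, L₃, hs, hT⟩ := hXDM hK h Z hZ
      exact hXDD h h12 hs hT hg h1 h2
    have hxy : x ≠ y := nd.1.1
    have hx2 : x ≠ s₂ := nd.1.2.2.1
    have hx1 : x ≠ s₁ := nd.1.2.1
    have hy2 : y ≠ s₂ := nd.2.1.2.1
    refine ⟨fun C => chi C s(x, y) * chi C s(s₁, s₂) * (0 + ∑ e ∈ C, wt x y s₁ s₂ σ e),
      hGLU.quad G _ _ _ _, fun C hC => ?_, fun C hC => ?_⟩
    · by_cases e1 : s(x, y) ∈ C
      · by_cases e2 : s(s₁, s₂) ∈ C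
        · have e3 : s(x, s₂) ∈ C := hC.2 (left_mem_vs e1) (right_mem_vs e2)
          have e4 : ∑ e ∈ C, wt x y s₁ s₂ σ e = 0 := by
            refine sum_eq_zero fun e he => wt_zero fun v hv => ⟨?_, ?_⟩
            · rintro rfl
              apply hv
              rcases hC.1.eq_or_eq (v := s₂) (i := x) (j := s₁) (by rw [Sym2.eq_swap]; exact e3)
                (by rw [Sym2.eq_swap]; exact e2) hx1 he with rfl | rfl <;> simp
            · rintro rfl
              apply hv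
              rcases hC.1.eq_or_eq (v := x) (i := y) (j := s₂) e1 e3 hy2 he with rfl | rfl <;> simp
          show chi C s(x, y) * chi C s(s₁, s₂) * (0 + ∑ e ∈ C, wt x y s₁ s₂ σ e) = 0
          rw [e4, add_zero, mul_zero]
        · show chi C s(x, y) * chi C s(s₁, s₂) * (0 + ∑ e ∈ C, wt x y s₁ s₂ σ e) = 0
          rw [chi_of_notMem e2, mul_zero, zero_mul]
      · show chi C s(x, y) * chi C s(s₁, s₂) * (0 + ∑ e ∈ C, wt x y s₁ s₂ σ e) = 0
        rw [chi_of_notMem e1, zero_mul, zero_mul]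
    · show g C = chi C s(x, y) * chi C s(s₁, s₂) * (0 + ∑ e ∈ C, wt x y s₁ s₂ σ e)
      rw [h2 C hC]
      by_cases e1 : s(x, y) ∈ C
      · by_cases e2 : s(s₁, s₂) ∈ C
        · have e3 : s(y, s₁) ∈ C := hC.2 (right_mem_vs e1) (left_mem_vs e2)
          rw [key h0 hσ hx2 hx1 hy2 hC.1 e1 e3 e2, zero_add]
        · rw [chi_of_notMem e2, mul_zero, zero_mul, zero_mul]
      · rw [chi_of_notMem e1, zero_mul, zero_mul, zero_mul]
  · refine ⟨fun _ => 0, hGLU.zero G, fun _ _ => rfl, fun C hC => ?_⟩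
    have e1 : s(s₁, s₂) ∉ C := fun h => h12 (hC.1.adj_of_mem h)
    rw [h2 C hC, chi_of_notMem e1, mul_zero, zero_mul]

end DL
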