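import Pool.Agent.DL.E.Spec2b
import Pool.Agent.DL.NP.TRC
import Pool.Agent.DL.E.SpecR3
import Pool.Agent.DL.G4.C20
import Pool.Agent.DL.E.Spec2d
import Pool.Agent.DL.E.TWR

section
/-!
MP_3ff0f8_gt, ALGEBRA HALF, E block section 2, module XPY (helper68)
-/
open SimpleGraph Finset

namespace DL

namespace XPYM

variable {α : Type} [Fintype α] [DecidableEq α]

/-- a vertex with only two neighbours -/
theorem two_nb {H : SimpleGraph α} {Z : Chain α} (hZ : Z ∈ Z1 H) {x p q : α} (hpq : p ≠ q)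
    (h : ∀ w, H.Adj x w → w = p ∨ w = q) : Z s(x, p) = Z s(x, q) := by
  have hb : ∑ e ∈ univ.filter (fun e => x ∈ e), Z e = 0 := hZ.2 x
  have hne : s(x, p) ≠ s(x, q) := fun h => hpq (Sym2.congr_right.1 h)
  rw [← add_sum_erase (univ.filter (fun e => x ∈ e)) _ (a := s(x, p))
      (mem_filter.2 ⟨mem_univ _, Sym2.mem_mk_left _ _⟩),
    ← add_sum_erase ((univ.filter (fun e => x ∈ e)).erase s(x, p)) _ (a := s(x, q))
      (mem_erase.2 ⟨hne.symm, mem_filter.2 ⟨mem_univ _, Sym2.mem_mk_left _ _⟩⟩),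
    sum_eq_zero (s := ((univ.filter (fun e => x ∈ e)).erase s(x, p)).erase s(x, q)) (fun e he => by
      rw [mem_erase, mem_erase, mem_filter] at he
      obtain ⟨h1, h2, -, h3⟩ := he
      by_contra h0
      obtain ⟨w, rfl⟩ := Sym2.mem_iff_exists.1 h3
      have hadj : H.Adj x w := hZ.1 _ h0
      rcases h w hadj with rfl | rfl
      · exact h2 rfl
      · exact h1 rfl), add_zero] at hb
  exact CharTwo.add_eq_zero.1 hb

/-- `s₁` and `s₃` are connected in `R - {x, y, s₂, s₄}` -/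
theorem reach (hXCB : SpecXCB) (hFRG : SpecFRG) {G : SimpleGraph α} {x y s₁ s₂ s₃ s₄ : α}
    (h : T3 G x y s₁ s₂ s₃ s₄) : (del (delE G s₁ s₃) {x, y, s₂, s₄}).Reachable s₁ s₃ := by
  classical
  by_contra hno
  have hnd := h.p33.nd
  simp only [List.nodup_cons, List.mem_cons, List.not_mem_nil, or_false, not_or, List.nodup_nil,
    and_true] at hnd
  obtain ⟨⟨hxy, hx1, hx2, hx3, hx4⟩, ⟨hy1, hy2, hy3, hy4⟩, ⟨h12, h13, h14⟩, ⟨h23, h24⟩, h34, -⟩ := hnd
  obtain ⟨w, hw, hwn⟩ := hXCB.s3 h.k48 h.p33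
  simp only [mem_insert, mem_singleton, not_or] at hwn
  obtain ⟨hwx, hwy, hw1, hw2, hw4⟩ := hwn
  set H := del (delE G s₁ s₃) {x, y, s₂, s₄} with hH
  have hHadj : ∀ {a b}, G.Adj a b → s(a, b) ≠ s(s₁, s₃) → a ∉ ({x, y, s₂, s₄} : Finset α) →
      b ∉ ({x, y, s₂, s₄} : Finset α) → H.Adj a b := by
    intro a b hab hne ha hb
    rw [hH, del_adj, delE_adj]
    exact ⟨⟨hab, hne⟩, ha, hb⟩
  have h3S : s₃ ∉ ({x, y, s₂, s₄} : Finset α) := by
    simp only [mem_insert, mem_singleton, not_or]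
    exact ⟨Ne.symm hx3, Ne.symm hy3, Ne.symm h23, h34⟩
  have hwS : w ∉ ({x, y, s₂, s₄} : Finset α) := by
    simp only [mem_insert, mem_singleton, not_or]
    exact ⟨hwx, hwy, hw2, hw4⟩
  set D := univ.filter (fun v => H.Reachable s₃ v ∧ v ≠ s₃) with hD
  have hmem : ∀ v, v ∈ D ↔ H.Reachable s₃ v ∧ v ≠ s₃ := by
    intro v
    simp [hD]
  have hwD : w ∈ D := by
    rw [hmem]
    refine ⟨(hHadj hw ?_ h3S hwS).reachable, hw.ne.symm⟩
    intro he
    rcases Sym2.eq_iff.1 he with ⟨e, _⟩ | ⟨_, e⟩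
    · exact h13 e.symm
    · exact hw1 e
  have hns : ∀ v ∈ D, v ∉ ({x, y, s₂, s₄} : Finset α) ∧ ∃ u, G.Adj u v := by
    intro v hv
    rw [hmem] at hv
    obtain ⟨p, hp⟩ := exists_isPth hv.1
    have := hp.right_mem hv.2.symm
    obtain ⟨e, he, hve⟩ := mem_vs.1 this
    obtain ⟨u, rfl⟩ := Sym2.mem_iff_exists.1 hve
    have hadj : H.Adj v u := hp.subset _ he
    rw [hH, del_adj, delE_adj] at hadj
    exact ⟨hadj.2.1, u, hadj.1.1.symm⟩
  refine hFRG.few (D := D) (W := {s₂, s₃, s₄}) (r := x) h.k48.1 ?_ ⟨w, hwD⟩ ?_ card_le_three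
    (left_mem_VS ((h.p33.nx y).2 (Or.inl rfl))) ?_ ?_
  · intro v hv
    obtain ⟨_, u, hu⟩ := hns v hv
    exact right_mem_VS hu
  · intro b hb
    obtain ⟨hbD, a, ha, hab⟩ : b ∉ D ∧ ∃ a ∈ D, G.Adj a b := by
      unfold NB at hb
      simpa using hb
    have ha' := (hmem a).1 ha
    have haS := (hns a ha).1
    simp only [mem_insert, mem_singleton]
    by_contra hbn
    rw [not_or, not_or] at hbn
    by_cases hbx : b = x
    · subst hbx
      rcases (h.p33.nx a).1 hab.symm with rfl | rfl | rfl | rfl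
      · exact haS (by simp)
      · exact haS (by simp)
      · exact ha'.2 rfl
      · exact haS (by simp)
    by_cases hby : b = y
    · subst hby
      rcases (h.p33.ny a).1 hab.symm with rfl | rfl | rfl | rfl
      · exact haS (by simp)
      · exact hno ha'.1.symm
      · exact ha'.2 rfl
      · exact haS (by simp)
    apply hbD
    rw [hmem]
    refine ⟨ha'.1.trans (hHadj hab ?_ haS ?_).reachable, hbn.2.1⟩
    · intro he
      rcases Sym2.eq_iff.1 he with ⟨_, e⟩ | ⟨e, _⟩
      · exact hbn.2.1 e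
      · exact ha'.2 e
    · simp only [mem_insert, mem_singleton, not_or]
      exact ⟨hbx, hby, hbn.1, hbn.2.2⟩
  · intro hxD
    exact (hns x hxD).1 (by simp)
  · simp only [mem_insert, mem_singleton, not_or]
    exact ⟨hx2, hx3, hx4⟩

end XPYM

open XPYM F1NM in
theorem specXPY (hXCC : SpecXCC) (hVKA : SpecVKA) (hNPC : SpecNPC) (hKUR : SpecKUR)
    (hXCB : SpecXCB) (hFRG : SpecFRG) : SpecXPY := by
  intro α _ _ G x y s₁ s₂ s₃ s₄ h hNP h24'
  have hnd := h.p33.nd
  simp only [List.nodup_cons, List.mem_cons, List.not_mem_nil, or_false, not_or, List.nodup_nil,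
    and_true] at hnd
  obtain ⟨⟨hxy, hx1, hx2, hx3, hx4⟩, ⟨hy1, hy2, hy3, hy4⟩, ⟨h12, h13, h14⟩, ⟨h23, h24⟩, h34, -⟩ := hnd
  have hR := hXCC.np h.k48 h.p33.sym1 h.a1 hNP
  set R := delE G s₁ s₃ with hRdef
  have hRadj : ∀ {a b}, R.Adj a b ↔ G.Adj a b ∧ s(a, b) ≠ s(s₁, s₃) := by
    intro a b
    rw [hRdef, delE_adj]
  have axy : R.Adj x y := hRadj.2 ⟨(h.p33.nx y).2 (Or.inl rfl), fun he => by
    rcases Sym2.eq_iff.1 he with ⟨e, _⟩ | ⟨e, _⟩
    · exact hx1 e
    · exact hx3 e⟩
  have ax : ∀ {b}, G.Adj x b → R.Adj x b := fun {b} hb => hRadj.2 ⟨hb, fun he => by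
    rcases Sym2.eq_iff.1 he with ⟨e, _⟩ | ⟨e, _⟩
    · exact hx1 e
    · exact hx3 e⟩
  have ay : ∀ {b}, G.Adj y b → R.Adj y b := fun {b} hb => hRadj.2 ⟨hb, fun he => by
    rcases Sym2.eq_iff.1 he with ⟨e, _⟩ | ⟨e, _⟩
    · exact hy1 e
    · exact hy3 e⟩
  have ax2 : R.Adj x s₂ := ax ((h.p33.nx s₂).2 (by tauto))
  have ax3 : R.Adj x s₃ := ax ((h.p33.nx s₃).2 (by tauto))
  have ax4 : R.Adj x s₄ := ax ((h.p33.nx s₄).2 (by tauto))
  have ay1 : R.Adj y s₁ := ay ((h.p33.ny s₁).2 (by tauto))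
  have ay3 : R.Adj y s₃ := ay ((h.p33.ny s₃).2 (by tauto))
  have a24 : R.Adj s₂ s₄ := hRadj.2 ⟨h24', fun he => by
    rcases Sym2.eq_iff.1 he with ⟨e, _⟩ | ⟨e, _⟩
    · exact h12 e.symm
    · exact h23 e⟩
  obtain ⟨r, hr, z, hz, hv⟩ := hR
  -- the row has no edge at `x`
  obtain ⟨z1, hz1, hv1, hrow1⟩ : ∃ z1, IsZ2 R z1 ∧ vk r z1 ≠ 0 ∧ ∀ w, z1 s(y, s₃) s(x, w) = 0 := by
    have hrow : z s(y, s₃) ∈ Z1 (del R {y, s₃}) := hKUR.row y s₃ hz
    have hxn : ∀ w, (del R {y, s₃}).Adj x w → w = s₂ ∨ w = s₄ := by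
      intro w hw
      rw [del_adj] at hw
      have h1 := hw.2.2
      simp only [mem_insert, mem_singleton, not_or] at h1
      rcases (h.p33.nx w).1 (hRadj.1 hw.1).1 with e | e | e | e
      · exact absurd e h1.1
      · exact Or.inl e
      · exact absurd e h1.2
      · exact Or.inr e
    have h2 := two_nb hrow h24 hxn
    rcases zmod2_cases (z s(y, s₃) s(x, s₂)) with h0 | h0
    · refine ⟨z, hz, hv, fun w => ?_⟩
      by_contra hc
      have hadj : (del R {y, s₃}).Adj x w := hrow.1 _ hc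
      rcases hxn w hadj with rfl | rfl
      · exact hc h0
      · exact hc (h2 ▸ h0)
    · -- the cycle
      have hreach := reach hXCB hFRG h
      have hle : del R {x, y, s₂, s₄} ≤ del (del R {x, s₂, s₄}) {y} := by
        intro a b hab
        rw [del_adj] at hab
        simp only [mem_insert, mem_singleton, not_or] at hab
        rw [del_adj, del_adj]
        simp only [mem_insert, mem_singleton, not_or]
        exact ⟨⟨hab.1, ⟨hab.2.1.1, hab.2.1.2.2⟩, ⟨hab.2.2.1, hab.2.2.2.2⟩⟩, hab.2.1.2.1,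
          hab.2.2.2.1⟩
      obtain ⟨P, hP⟩ := exists_isPth (hreach.mono hle)
      have dy1 : (del R {x, s₂, s₄}).Adj y s₁ := by
        rw [del_adj]
        simp only [mem_insert, mem_singleton, not_or]
        exact ⟨ay1, ⟨Ne.symm hxy, hy2, hy4⟩, ⟨Ne.symm hx1, h12, h14⟩⟩
      have dy3 : (del R {x, s₂, s₄}).Adj y s₃ := by
        rw [del_adj]
        simp only [mem_insert, mem_singleton, not_or]
        exact ⟨ay3, ⟨Ne.symm hxy, hy2, hy4⟩, ⟨Ne.symm hx3, Ne.symm h23, h34⟩⟩
      have hC := isCyc_of_isPth_del dy1 dy3 h13 hP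
      set C := insert s(y, s₁) (insert s(y, s₃) P) with hCdef
      obtain ⟨hz', hv'⟩ := addtor hVKA hKUR hr hz {x, s₂, s₄} (tri_mem ax2 a24 ax4)
        (fun e v he hv => tri_supp e v he hv) hC.chi_mem
      refine ⟨_, hz', by rw [hv']; exact hv, fun w => ?_⟩
      have hCy : chi C s(y, s₃) = 1 := chi_of_mem (by rw [hCdef]; simp)
      have ht : tri x s₂ s₄ s(y, s₃) = 0 := by
        by_contra hc
        have := tri_supp _ y hc (Sym2.mem_mk_left _ _)
        simp only [mem_insert, mem_singleton] at this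
        rcases this with e | e | e
        · exact hxy e.symm
        · exact hy2 e
        · exact hy4 e
      have hCx : chi C s(x, w) = 0 := by
        by_contra hc
        exact notMem_of_mem_del (hC.chi_mem.1 _ hc) (Sym2.mem_mk_left x w) (by simp)
      simp only [tor, hCy, ht, hCx]
      have ht2 : tri x s₂ s₄ s(x, s₂) = 1 := by
        unfold tri; rw [chi_of_mem]; simp
      have ht4 : tri x s₂ s₄ s(x, s₄) = 1 := by
        unfold tri; rw [chi_of_mem]; simp
      by_cases hw2 : w = s₂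
      · rw [hw2, h0, ht2]
        decide
      by_cases hw4 : w = s₄
      · rw [hw4, ← h2, h0, ht4]
        decide
      have hz0 : z s(y, s₃) s(x, w) = 0 := by
        by_contra hc
        have hadj : (del R {y, s₃}).Adj x w := hrow.1 _ hc
        rcases hxn w hadj with e | e
        · exact hw2 e
        · exact hw4 e
      have ht0 : tri x s₂ s₄ s(x, w) = 0 := by
        by_contra hc
        have h5 := tri_supp _ w hc (Sym2.mem_mk_right _ _)
        simp only [mem_insert, mem_singleton] at h5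
        rcases h5 with e | e | e
        · rw [e] at hc
          have h6 : R.Adj x x := (tri_mem ax2 a24 ax4).1 _ hc
          exact h6.ne rfl
        · exact hw2 e
        · exact hw4 e
      rw [hz0, ht0]
      decide
  -- remove the row
  have hrow : z1 s(y, s₃) ∈ Z1 (del R {y, s₃}) := hKUR.row y s₃ hz1
  have hrow' : z1 s(y, s₃) ∈ Z1 (del R {x, y, s₃}) := by
    refine ⟨fun e he => ?_, hrow.2⟩
    have h1 := hrow.1 e he
    induction e using Sym2.ind with
    | _ a b =>
      have h2 : (del R {y, s₃}).Adj a b := h1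
      have hax : a ≠ x := by
        rintro rfl
        exact he (hrow1 b)
      have hbx : b ≠ x := by
        rintro rfl
        rw [Sym2.eq_swap (a := a)] at he
        exact he (hrow1 a)
      rw [del_adj] at h2
      have h3 := h2.2.1
      have h4 := h2.2.2
      simp only [mem_insert, mem_singleton, not_or] at h3 h4
      show (del R {x, y, s₃}).Adj a b
      rw [del_adj]
      simp only [mem_insert, mem_singleton, not_or]
      exact ⟨h2.1, ⟨hax, h3.1, h3.2⟩, ⟨hbx, h4.1, h4.2⟩⟩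
  obtain ⟨hz2, hv2⟩ := addtor hVKA hKUR hr hz1 {x, y, s₃} (tri_mem axy ay3 ax3)
    (fun e v he hv => tri_supp e v he hv) hrow'
  have ht : tri x y s₃ s(y, s₃) = 1 := by
    unfold tri; rw [chi_of_mem]; simp
  have h0 : z1 s(y, s₃) s(y, s₃) = 0 := by
    by_contra hc
    exact notMem_of_mem_del (hrow.1 _ hc) (Sym2.mem_mk_left y s₃) (by simp)
  have hfin := hNPC.del (a := y) (b := s₃) hr hz2 (by rw [hv2]; exact hv1) (fun f => by
    simp only [tor, ht, h0]
    rw [one_mul, zero_mul, add_zero, zmod2_add_self])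
  refine hNPC.mono ?_ hfin
  intro a b hab
  rw [delE_adj, hRadj] at hab
  unfold dst
  rw [SimpleGraph.deleteEdges_adj]
  refine ⟨hab.1.1, ?_⟩
  rintro ⟨p, hp, he⟩
  simp only [mem_insert, mem_singleton] at hp
  rcases hp with rfl | rfl
  · exact hab.1.2 (by rw [he, Sym2.eq_swap])
  · exact hab.2 (by rw [he, Sym2.eq_swap])

end DL
end

section
set_option autoImplicit false

/-!
MP_3ff0f8_gt, ALGEBRA HALF, E block, module R3N (helper43): nonplanarity of the minors of the first configuration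
-/

open SimpleGraph Finset

namespace DL

namespace R3NM

variable {α : Type} [Fintype α] [DecidableEq α] {G : SimpleGraph α} {x y s₁ s₂ s₃ s₄ c d d' : α}

open Classical in
theorem cn (hB : B1 G x y s₁ s₂ s₃ s₄ c d d') : ConnOff G {x, y, s₁, s₂, s₃, c} := by
  have hnd := hB.nd
  simp only [List.nodup_cons, List.mem_cons, List.not_mem_nil, or_false, not_or, List.nodup_nil,
    and_true, not_false_eq_true] at hnd
  obtain ⟨n1, n2, n3, n4, n5, n6, n7, n8⟩ := hnd
  have key : ∀ a ∈ VS G, a ∉ ({x, y, s₁, s₂, s₃, c} : Finset α) →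
      (del G {x, y, s₁, s₂, s₃, c}).Reachable a s₄ := by
    intro a ha haS
    by_contra hcon
    set J := del G {x, y, s₁, s₂, s₃, c} with hJ
    have hm : ∀ v, v ∈ univ.filter (fun v => J.Reachable a v) ↔ J.Reachable a v := fun v => by simp
    have hout : ∀ v, J.Reachable a v → v ∉ ({x, y, s₁, s₂, s₃, c} : Finset α) := by
      intro v hv hvS
      by_cases hav : a = v
      · exact haS (hav ▸ hvS)
      · obtain ⟨w, hw⟩ := exists_adj_of_reachable hv.symm (Ne.symm hav)
        exact hw.2.1 hvS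
    refine C20M.few (D := univ.filter (fun v => J.Reachable a v)) (W := {s₁, s₂, c}) (r := s₄)
      hB.k48.1 ?_ ⟨a, (hm a).2 (Reachable.refl _)⟩ ?_ card_le_three
      (right_mem_VS ((hB.p33.nx s₄).2 (by tauto))) (fun h => hcon ((hm _).1 h)) ?_
    · intro v hv
      by_cases hav : a = v
      · exact hav ▸ ha
      · obtain ⟨w, hw⟩ := exists_adj_of_reachable ((hm v).1 hv).symm (Ne.symm hav)
        exact left_mem_VS hw.1
    · rintro w hw ⟨v, hv, hvw⟩
      have hv1 := (hm v).1 hv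
      have hvS := hout v hv1
      have hwS : w ∈ ({x, y, s₁, s₂, s₃, c} : Finset α) := by
        by_contra hc
        exact hw ((hm w).2 (hv1.trans (Adj.reachable (G := J) ⟨hvw, hvS, hc⟩)))
      have hv4 : v ≠ s₄ := fun e => hcon (e ▸ hv1)
      simp only [mem_insert, mem_singleton, not_or] at hvS hwS ⊢
      rcases hwS with rfl | rfl | rfl | rfl | rfl | rfl
      · exfalso
        have := (hB.p33.nx v).1 hvw.symm
        tauto
      · exfalso
        have := (hB.p33.ny v).1 hvw.symm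
        tauto
      · exact Or.inl rfl
      · exact Or.inr (Or.inl rfl)
      · exfalso
        have := (hB.n3 v).1 hvw.symm
        tauto
      · exact Or.inr (Or.inr rfl)
    · simp only [mem_insert, mem_singleton]
      rintro (h | h | h)
      · exact n3.2.2.1 h.symm
      · exact n4.2.1 h.symm
      · exact n6.1 h
  intro a ha b hb haS hbS
  exact (key a ha haS).trans (key b hb hbS).symm

theorem a24 (hXF1 : SpecXF1) (hXCC : SpecXCC) (hB : B1 G x y s₁ s₂ s₃ s₄ c d d') (hN : NP G) :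
    NP (dst G s₃ {s₁, y}) := by
  have hnd := hB.nd
  simp only [List.nodup_cons, List.mem_cons, List.not_mem_nil, or_false, not_or, List.nodup_nil,
    and_true, not_false_eq_true] at hnd
  obtain ⟨n1, n2, n3, n4, n5, n6, n7, n8⟩ := hnd
  have h13 : G.Adj s₁ s₃ := (hB.n1 _).2 (by tauto)
  have h1c : G.Adj s₁ c := (hB.n1 _).2 (by tauto)
  have h3c : G.Adj s₃ c := (hB.n3 _).2 (by tauto)
  have h2d : G.Adj s₂ d' := (hB.n2 _).2 (by tauto)
  have hreach := cn hB d' (right_mem_VS h2d) s₄ (right_mem_VS ((hB.p33.nx s₄).2 (by tauto)))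
    (by simp only [mem_insert, mem_singleton, not_or]; exact ⟨Ne.symm n1.2.2.2.2.2.2.2,
          Ne.symm n2.2.2.2.2.2.2, Ne.symm n3.2.2.2.2.2, Ne.symm n4.2.2.2.2, Ne.symm n5.2.2.2,
          Ne.symm n7.2⟩)
    (by simp only [mem_insert, mem_singleton, not_or]; exact ⟨Ne.symm n1.2.2.2.2.1,
          Ne.symm n2.2.2.2.1, Ne.symm n3.2.2.1, Ne.symm n4.2.1, Ne.symm n5.1, n6.1⟩)
  obtain ⟨P', hP'⟩ := exists_isPth hreach
  rw [isPth_del] at hP'
  have hP'S : ∀ v ∈ vs P', v ∉ ({x, y, s₁, s₂, s₃, c} : Finset α) :=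
    fun v hv => Finset.disjoint_left.1 hP'.2 hv
  simp only [mem_insert, mem_singleton, not_or] at hP'S
  have hvP : ∀ v ∈ vs (insert s(s₂, d') P'), v = s₂ ∨ (v ≠ x ∧ v ≠ y ∧ v ≠ s₁ ∧ v ≠ s₂ ∧ v ≠ s₃ ∧ v ≠ c) := by
    intro v hv
    rw [vs_insert] at hv
    simp only [mem_union, mem_insert, mem_singleton] at hv
    rcases hv with (rfl | rfl) | h
    · exact Or.inl rfl
    · right
      exact ⟨Ne.symm n1.2.2.2.2.2.2.2,
          Ne.symm n2.2.2.2.2.2.2, Ne.symm n3.2.2.2.2.2, Ne.symm n4.2.2.2.2, Ne.symm n5.2.2.2,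
          Ne.symm n7.2⟩
    · exact Or.inr (hP'S v h)
  refine hXF1 (P := insert s(s₂, d') P') (Q := {s(s₁, c), s(c, s₃)}) hB.p33
    (hXCC.np hB.k48 hB.p33.sym1 h13 hN) ?_ ?_ ?_
  · rw [isPth_del]
    refine ⟨IsPth.cons h2d hP'.1 (fun h => (hP'S _ h).2.2.2.1 rfl), ?_⟩
    rw [Finset.disjoint_left]
    intro v hv hv'
    simp only [mem_insert, mem_singleton] at hv'
    have := hvP v hv
    grind
  · rw [isPth_delE, isPth_del]
    refine ⟨⟨?_, ?_⟩, ?_⟩
    · refine IsPth.cons h1c (IsPth.edge h3c.symm) ?_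
      rw [vs_singleton]
      simp only [mem_insert, mem_singleton, not_or]
      exact ⟨h1c.ne, h13.ne⟩
    · rw [Finset.disjoint_left]
      intro v hv hv'
      rw [vs_insert, vs_singleton] at hv
      simp only [mem_union, mem_insert, mem_singleton] at hv hv'
      grind
    · simp only [mem_insert, mem_singleton, not_or]
      refine ⟨fun e => ?_, fun e => ?_⟩
      · exact h3c.ne (Sym2.congr_right.1 e)
      · rcases Sym2.eq_iff.1 e with ⟨e, _⟩ | ⟨e, _⟩
        · exact h1c.ne e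
        · exact h13.ne e
  · rw [Finset.disjoint_left]
    intro v hv hv'
    have h1 := hvP v hv
    rw [vs_insert, vs_singleton] at hv'
    simp only [mem_union, mem_insert, mem_singleton] at hv'
    grind

/-- one neighbour -/
theorem one_nb {H : SimpleGraph α} {Z : Chain α} (hZ : Z ∈ Z1 H) {u p q : α} (hpq : p ≠ q)
    (h : ∀ w, H.Adj u w → w = p) (hq : ¬ H.Adj u q) : Z s(u, p) = 0 := by
  rw [XPYM.two_nb hZ hpq (fun w hw => Or.inl (h w hw))]
  by_contra hc
  exact hq (hZ.1 _ hc)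

theorem g3 (hXF1 : SpecXF1) (hXCC : SpecXCC) (hNPC : SpecNPC) (hKUR : SpecKUR) (hDST : SpecDST)
    (hB : B1 G x y s₁ s₂ s₃ s₄ c d d') (hN : NP G) : NP (del G {s₃}) := by
  obtain ⟨r, hr, z, hz, hv⟩ := a24 hXF1 hXCC hB hN
  have hnd := hB.nd
  simp only [List.nodup_cons, List.mem_cons, List.not_mem_nil, or_false, not_or, List.nodup_nil,
    and_true, not_false_eq_true] at hnd
  obtain ⟨n1, n2, n3, n4, n5, n6, n7, n8⟩ := hnd
  set A := dst G s₃ {s₁, y} with hA
  have hAadj : ∀ a b, A.Adj a b ↔ G.Adj a b ∧ ¬ (a = s₃ ∧ (b = s₁ ∨ b = y)) ∧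
      ¬ (b = s₃ ∧ (a = s₁ ∨ a = y)) := by
    intro a b
    rw [hA, hDST.adj]
    simp only [mem_insert, mem_singleton]
  have m3 : ∀ w, A.Adj s₃ w ↔ w = x ∨ w = s₂ ∨ w = c := by
    intro w
    rw [hAadj, hB.n3]
    constructor
    · rintro ⟨h1, h2, h3⟩
      tauto
    · intro h
      refine ⟨by tauto, ?_, ?_⟩
      · rintro ⟨-, h1⟩
        grind
      · rintro ⟨h0, h1⟩
        grind
  have m2 : ∀ w, A.Adj s₂ w ↔ w = x ∨ w = s₃ ∨ w = c ∨ w = d' := by
    intro w
    rw [hAadj, hB.n2]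
    constructor
    · rintro ⟨h1, h2, h3⟩
      tauto
    · intro h
      refine ⟨h, ?_, ?_⟩
      · rintro ⟨h0, h1⟩
        exact n4.1 h0
      · rintro ⟨h0, h1⟩
        grind
  have hrow : ∀ a b, z s(a, b) ∈ Z1 (del A {a, b}) := fun a b => hKUR.row a b hz
  have hdj : ∀ {e f : Sym2 α} {v : α}, v ∈ e → v ∈ f → z e f = 0 := by
    intro e f v he hf
    by_contra hc
    exact (hz.2.1 _ _ hc).2.2 v ⟨he, hf⟩
  have n23 : s₂ ≠ s₃ := n4.1
  have nx2 : x ≠ s₂ := n1.2.2.1
  have nx3 : x ≠ s₃ := n1.2.2.2.1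
  have nxc : x ≠ c := n1.2.2.2.2.2.1
  have nxd : x ≠ d' := n1.2.2.2.2.2.2.2
  have n2c : s₂ ≠ c := n4.2.2.1
  have n2d : s₂ ≠ d' := n4.2.2.2.2
  have n3c : s₃ ≠ c := n5.2.1
  have n3d : s₃ ≠ d' := n5.2.2.2
  have ncd : c ≠ d' := n7.2
  -- row `s₂c`
  have q1 : z s(s₂, c) s(s₃, x) = 0 := by
    refine one_nb (hrow s₂ c) nx2 (fun w hw => ?_) (fun h => h.2.2 (by simp))
    rw [del_adj, m3] at hw
    simp only [mem_insert, mem_singleton, not_or] at hw
    tauto
  have q2 : z s(s₂, x) s(s₃, c) = 0 := by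
    refine one_nb (hrow s₂ x) n2c.symm (fun w hw => ?_) (fun h => h.2.2 (by simp))
    rw [del_adj, m3] at hw
    simp only [mem_insert, mem_singleton, not_or] at hw
    tauto
  have q3 : z s(s₃, x) s(s₂, d') = 0 := by
    rw [XPYM.two_nb (hrow s₃ x) (x := s₂) (p := d') (q := c) ncd.symm (fun w hw => ?_), hz.1]
    · exact q1
    · rw [del_adj, m2] at hw
      simp only [mem_insert, mem_singleton, not_or] at hw
      tauto
  have q4 : z s(s₃, c) s(s₂, d') = 0 := by
    rw [XPYM.two_nb (hrow s₃ c) (x := s₂) (p := d') (q := x) nxd.symm (fun w hw => ?_), hz.1]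
    · exact q2
    · rw [del_adj, m2] at hw
      simp only [mem_insert, mem_singleton, not_or] at hw
      tauto
  have hZab : Zab s₂ s₃ z := by
    intro e f he hf hne hnf
    by_contra hc
    obtain ⟨h1, h2, h3⟩ := hz.2.1 _ _ hc
    obtain ⟨u, rfl⟩ := Sym2.mem_iff_exists.1 he
    obtain ⟨v, rfl⟩ := Sym2.mem_iff_exists.1 hf
    rw [mem_edgeSet, m2] at h1
    rw [mem_edgeSet, m3] at h2
    rcases h1 with rfl | rfl | rfl | rfl
    · rcases h2 with rfl | rfl | rfl
      · exact hc (hdj (Sym2.mem_mk_right _ _) (Sym2.mem_mk_right _ _))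
      · exact hnf Sym2.eq_swap
      · exact hc q2
    · exact hne rfl
    · rcases h2 with rfl | rfl | rfl
      · exact hc q1
      · exact hnf Sym2.eq_swap
      · exact hc (hdj (Sym2.mem_mk_right _ _) (Sym2.mem_mk_right _ _))
    · rcases h2 with rfl | rfl | rfl
      · exact hc (by rw [hz.1]; exact q3)
      · exact hnf Sym2.eq_swap
      · exact hc (by rw [hz.1]; exact q4)
  refine hNPC.mono ?_ (hNPC.down hr hz hv ((m2 _).2 (by tauto)) hZab).1
  have e2x : G.Adj s₂ x := (hB.n2 _).2 (by tauto)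
  have e2c : G.Adj s₂ c := (hB.n2 _).2 (by tauto)
  intro u w huw
  obtain ⟨h1, h2, h3, h4⟩ := huw
  rw [del_adj]
  simp only [mem_singleton]
  refine ⟨?_, h1, h2⟩
  rcases h4 with h4 | ⟨h4, h5⟩ | ⟨h4, h5⟩
  · exact ((hAadj _ _).1 h4).1
  · rw [m3] at h5
    subst h4
    rcases h5 with rfl | rfl | rfl
    · exact e2x
    · exact absurd rfl h3
    · exact e2c
  · have h6 := (m3 _).1 h5.symm
    subst h4
    rcases h6 with rfl | rfl | rfl
    · exact e2x.symm
    · exact absurd rfl h3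
    · exact e2c.symm

theorem g3d (hXF1 : SpecXF1) (hXCC : SpecXCC) (hNPC : SpecNPC) (hKUR : SpecKUR) (hDST : SpecDST)
    (hB : B1 G x y s₁ s₂ s₃ s₄ c d d') (hN : NP G) (hcd : G.Adj c d) :
    NP (delE (del G {s₃}) c d) := by
  obtain ⟨r, hr, z, hz, hv⟩ := g3 hXF1 hXCC hNPC hKUR hDST hB hN
  have hnd := hB.nd
  simp only [List.nodup_cons, List.mem_cons, List.not_mem_nil, or_false, not_or, List.nodup_nil,
    and_true, not_false_eq_true] at hnd
  obtain ⟨n1, n2, n3, n4, n5, n6, n7, n8⟩ := hnd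
  have nc3 : c ≠ s₃ := fun e => n5.2.1 e.symm
  have nd3 : d ≠ s₃ := fun e => n5.2.2.1 e.symm
  have n13 : s₁ ≠ s₃ := n3.2.1
  have e1c : G.Adj s₁ c := (hB.n1 _).2 (by tauto)
  have e1d : G.Adj s₁ d := (hB.n1 _).2 (by tauto)
  refine hNPC.tdel hr hz hv (c := s₁) ?_ ?_ ?_ ?_
  · exact ⟨hcd, by simpa using nc3, by simpa using nd3⟩
  · exact ⟨e1c.symm, by simpa using nc3, by simpa using n13⟩
  · exact ⟨e1d.symm, by simpa using nd3, by simpa using n13⟩
  · intro f hf
    have hrow : z s(c, d) ∈ Z1 (del (del G {s₃}) {c, d}) := hKUR.row c d hz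
    have hnb : ∀ w, (del (del G {s₃}) {c, d}).Adj s₁ w → w = y := by
      intro w hw
      rw [del_adj, del_adj, hB.n1] at hw
      simp only [mem_insert, mem_singleton, not_or] at hw
      tauto
    have h0 : z s(c, d) s(s₁, y) = 0 :=
      one_nb hrow (q := c) n2.2.2.2.2.1 hnb (fun h => h.2.2 (by simp))
    by_contra hc
    obtain ⟨v, rfl⟩ := Sym2.mem_iff_exists.1 hf
    have hadj : (del (del G {s₃}) {c, d}).Adj s₁ v := hrow.1 _ hc
    rw [hnb v hadj] at hc
    exact hc h0

end R3NM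

/-- **R3N.** -/
theorem specR3N (hXF1 : SpecXF1) (hXCC : SpecXCC) (hNPC : SpecNPC) (hKUR : SpecKUR) (hDST : SpecDST) :
    SpecR3N where
  cn := fun hB => R3NM.cn hB
  a24 := fun hB hN => R3NM.a24 hXF1 hXCC hB hN
  g3 := fun hB hN => R3NM.g3 hXF1 hXCC hNPC hKUR hDST hB hN
  g3d := fun hB hN h => R3NM.g3d hXF1 hXCC hNPC hKUR hDST hB hN h

end DL
end

section
/-!
MP_3ff0f8_gt, ALGEBRA HALF, E block section 2, module XF7 (helper41)
-/
open SimpleGraph Finset

namespace DL

namespace XF7M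

variable {α : Type} [Fintype α] [DecidableEq α]

theorem zero_at {G : SimpleGraph α} {S : Finset α} {Z : Chain α} (hZ : Z ∈ Z1 (del G S)) {v : α}
    (hv : v ∈ S) {e : Sym2 α} (he : v ∈ e) : Z e = 0 := by
  by_contra h0
  exact (KURM.mem_del.1 (hZ.1 e h0)).2 v he hv

theorem gam_symm {G : SimpleGraph α} {u w w' : α} {Z : Chain α} (h : Gam G u w w' Z) :
    Gam G u w' w Z := by
  obtain ⟨h1, h2, h3, h4, r, z, h5, h6, h7, h8, h9, h10⟩ := h
  refine ⟨h2, h1, h3.symm, ?_, r, z, h5, h6, h7, h9, h8, fun v a b => h10 v b a⟩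
  have : ({u, w', w} : Finset α) = {u, w, w'} := by rw [Finset.pair_comm]
  rwa [this]

theorem tri_no (hNCN : SpecNCN) {G : SimpleGraph α} {u a b c w w' : α} (hpl : ¬ NP (del G {u}))
    (hab : G.Adj a b) (hbc : G.Adj b c) (hac : G.Adj a c)
    (hr : ∀ S : Finset α, (∀ v ∈ S, v = u ∨ v = a ∨ v = b ∨ v = c) → (del G S).Reachable w w') :
    ¬ Gam G u w w' (tri a b c) := by
  intro h
  have hC := F1NM.isCyc_tri hab hbc hac
  refine hNCN.sep hpl hC h (hr _ ?_)
  intro v hv
  rw [vs_insert, vs_insert, vs_singleton] at hv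
  simp only [mem_insert, mem_union, mem_singleton] at hv
  tauto

/-- from `s₂` to `s₄` through `D` -/
theorem reach {G : SimpleGraph α} {x y s₁ s₂ s₃ s₄ c d d' : α} {D : Finset α}
    (h : XB1 G x y s₁ s₂ s₃ s₄ c d d' D) {S : Finset α} (hS : ∀ v ∈ D, v ∉ S) (hd : d' ∉ S)
    (h2 : s₂ ∉ S) : (del G S).Reachable s₂ s₄ := by
  obtain ⟨v, hvD, hadj⟩ := h.ex
  have a1 : (del G S).Adj s₂ d' := ⟨(h.n2 d').2 (by simp), h2, hd⟩
  have a2 : (del G S).Adj d' v := ⟨hadj, hd, hS v hvD⟩
  have a3 : (del G S).Reachable v s₄ := by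
    refine (h.cD.2 v hvD s₄ h.s4).mono ?_
    intro p q hpq
    have hp : p ∈ D := by
      by_contra hp; exact hpq.2.1 (mem_sdiff.2 ⟨mem_univ _, hp⟩)
    have hq : q ∈ D := by
      by_contra hq; exact hpq.2.2 (mem_sdiff.2 ⟨mem_univ _, hq⟩)
    exact ⟨hpq.1, hS p hp, hS q hq⟩
  exact (a1.reachable.trans a2.reachable).trans a3

/-- an edge at `v` is zero if all edges to neighbours are zero -/
theorem zero_star {H : SimpleGraph α} {Z : Chain α} (hZ : Z ∈ Z1 H) {v : α}
    (h : ∀ w, H.Adj v w → Z s(v, w) = 0) : ∀ e, v ∈ e → Z e = 0 := by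
  intro e he
  obtain ⟨w, rfl⟩ := Sym2.mem_iff_exists.1 he
  by_contra h0
  exact h0 (h w (hZ.1 _ h0))

end XF7M

open XF7M in
theorem specXF7 (hNCG : SpecNCG) (hNCN : SpecNCN) (hGMC : SpecGMC) : SpecXF7 := by
  intro α _ _ G x y s₁ s₂ s₃ s₄ c d d' D hK hNP hP hB hrig
  by_contra hpl
  have hnd := hB.nd
  simp only [List.nodup_cons, List.mem_cons, List.not_mem_nil, or_false, not_or, List.nodup_nil,
    and_true] at hnd
  obtain ⟨⟨hxy, hx1, hx2, hx3, hx4, hxc, hxd, hxd'⟩, ⟨hy1, hy2, hy3, hy4, hyc, hyd, hyd'⟩,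
    ⟨h12, h13, h14, h1c, h1d, h1d'⟩, ⟨h23, h24, h2c, h2d, h2d'⟩, ⟨h34, h3c, h3d, h3d'⟩,
    ⟨h4c, h4d, h4d'⟩, ⟨hcd, hcd'⟩, hdd', -⟩ := hnd
  have xy : G.Adj x y := (hP.nx _).2 (by simp)
  have x2 : G.Adj x s₂ := (hP.nx _).2 (by simp)
  have x3 : G.Adj x s₃ := (hP.nx _).2 (by simp)
  have x4 : G.Adj x s₄ := (hP.nx _).2 (by simp)
  have y1 : G.Adj y s₁ := (hP.ny _).2 (by simp)
  have y3 : G.Adj y s₃ := (hP.ny _).2 (by simp)
  have y4 : G.Adj y s₄ := (hP.ny _).2 (by simp)
  have a32 : G.Adj s₃ s₂ := (hB.n3 _).2 (by simp)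
  have a31 : G.Adj s₃ s₁ := (hB.n3 _).2 (by simp)
  have a3c : G.Adj s₃ c := (hB.n3 _).2 (by simp)
  have a1c : G.Adj s₁ c := (hB.n1 _).2 (by simp)
  have hDn : ∀ w, w = x ∨ w = y ∨ w = s₁ ∨ w = s₂ ∨ w = s₃ ∨ w = c ∨ w = d ∨ w = d' → w ∉ D := by
    intro w hw
    apply hB.dj
    simpa using hw
  -- no chain `tri s₃ s₁ c` for the pairs `s₂, s₄` and `s₂, y`
  have hr24 : ∀ S : Finset α, (∀ v ∈ S, v = x ∨ v = s₃ ∨ v = s₁ ∨ v = c) →
      (del G S).Reachable s₂ s₄ := by
    intro S hS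
    apply reach hB
    · intro v hv hvS
      rcases hS v hvS with e | e | e | e <;> exact hDn v (by simp [e]) hv
    · intro h; rcases hS _ h with e | e | e | e
      · exact hxd' e.symm
      · exact h3d' e.symm
      · exact h1d' e.symm
      · exact hcd' e.symm
    · intro h; rcases hS _ h with e | e | e | e
      · exact hx2 e.symm
      · exact h23 e
      · exact h12 e.symm
      · exact h2c e
  have hr24' : ∀ S : Finset α, (∀ v ∈ S, v = x ∨ v = y ∨ v = s₁ ∨ v = s₃) →
      (del G S).Reachable s₂ s₄ := by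
    intro S hS
    apply reach hB
    · intro v hv hvS
      rcases hS v hvS with e | e | e | e <;> exact hDn v (by simp [e]) hv
    · intro h; rcases hS _ h with e | e | e | e
      · exact hxd' e.symm
      · exact hyd' e.symm
      · exact h1d' e.symm
      · exact h3d' e.symm
    · intro h; rcases hS _ h with e | e | e | e
      · exact hx2 e.symm
      · exact hy2 e.symm
      · exact h12 e.symm
      · exact h23 e
  have hry2 : ∀ S : Finset α, (∀ v ∈ S, v = x ∨ v = s₃ ∨ v = s₁ ∨ v = c) →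
      (del G S).Reachable y s₂ := by
    intro S hS
    refine Reachable.trans ?_ (hr24 S hS).symm
    refine (show (del G S).Adj y s₄ from ⟨y4, ?_, ?_⟩).reachable
    · intro h; rcases hS _ h with e | e | e | e
      · exact hxy e.symm
      · exact hy3 e
      · exact hy1 e
      · exact hyc e
    · intro h; rcases hS _ h with e | e | e | e
      · exact hx4 e.symm
      · exact h34 e.symm
      · exact h14 e.symm
      · exact h4c e
  -- the pair `s₃, s₄`
  have c34 : ∀ Z, ¬ Gam G x s₃ s₄ Z := by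
    intro Z h
    refine hGMC.deg (v := y) (z := s₁) hpl h (Ne.symm hxy) y3.symm y4.symm ?_
    intro w hw
    rcases (hP.ny w).1 hw with e | e | e | e <;> simp [e]
  -- the pair `y, s₂`
  have cy2 : ∀ Z, ¬ Gam G x y s₂ Z := by
    have key : ∀ Z, Gam G x y s₂ Z → Z s(s₃, c) = 0 → False := by
      intro Z h h0
      have hZ := h.2.2.2.1
      have hN : ∀ w, (del G {x, y, s₂}).Adj s₃ w → w = s₁ ∨ w = c := by
        intro w hw
        have h1 := hw.2.2
        simp only [mem_insert, mem_singleton, not_or] at h1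
        rcases (hB.n3 w).1 hw.1 with e | e | e | e | e
        · exact absurd e h1.1
        · exact absurd e h1.2.1
        · exact Or.inl e
        · exact absurd e h1.2.2
        · exact Or.inr e
      have h1 := XPYM.two_nb hZ h1c hN
      have hst := zero_star hZ (v := s₃) (by
        intro w hw
        rcases hN w hw with rfl | rfl
        · rw [h1, h0]
        · exact h0)
      have hPt : IsPth (del G {x}) y s₂ (insert s(y, s₃) {s(s₃, s₂)}) := by
        have h2 : IsPth (del G {x}) s₃ s₂ {s(s₃, s₂)} :=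
          IsPth.edge ⟨a32, by simpa using Ne.symm hx3, by simpa using Ne.symm hx2⟩
        refine h2.cons ⟨y3, by simpa using Ne.symm hxy, by simpa using Ne.symm hx3⟩ ?_
        rw [vs_singleton, mem_insert, mem_singleton, not_or]
        exact ⟨hy3, hy2⟩
      have hC := isCyc_of_isPth_del xy x2 hy2 hPt
      refine hGMC.cyc hpl h hC (mem_insert_self _ _) (mem_insert_of_mem (mem_insert_self _ _)) ?_
      intro e v hv hve
      rw [vs_insert, vs_insert, vs_insert, vs_singleton] at hv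
      simp only [mem_union, mem_insert, mem_singleton] at hv
      rcases hv with (rfl | rfl) | (rfl | rfl) | (rfl | rfl) | (rfl | rfl)
      · exact zero_at hZ (by simp) hve
      · exact zero_at hZ (by simp) hve
      · exact zero_at hZ (by simp) hve
      · exact zero_at hZ (by simp) hve
      · exact zero_at hZ (by simp) hve
      · exact hst _ hve
      · exact hst _ hve
      · exact zero_at hZ (by simp) hve
    intro Z h
    rcases zmod2_cases (Z s(s₃, c)) with h0 | h0
    · exact key Z h h0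
    · have hT : tri s₃ s₁ c ∈ Z1 (del G {x, y, s₂}) := by
        refine F1NM.tri_mem ⟨a31, ?_, ?_⟩ ⟨a1c, ?_, ?_⟩ ⟨a3c, ?_, ?_⟩ <;>
          simp only [mem_insert, mem_singleton, not_or]
        · exact ⟨Ne.symm hx3, Ne.symm hy3, Ne.symm h23⟩
        · exact ⟨Ne.symm hx1, Ne.symm hy1, h12⟩
        · exact ⟨Ne.symm hx1, Ne.symm hy1, h12⟩
        · exact ⟨Ne.symm hxc, Ne.symm hyc, Ne.symm h2c⟩
        · exact ⟨Ne.symm hx3, Ne.symm hy3, Ne.symm h23⟩
        · exact ⟨Ne.symm hxc, Ne.symm hyc, Ne.symm h2c⟩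
      rcases hNCN.lin hK.1 hpl h hT with h1 | h1
      · exact tri_no hNCN hpl a31 a1c a3c hry2 h1
      · refine key _ h1 ?_
        have : tri s₃ s₁ c s(s₃, c) = 1 := chi_of_mem (by simp)
        rw [Pi.add_apply, h0, this]
        decide
  -- the pair `s₂, s₄`
  have c24 : ∀ Z, ¬ Gam G x s₂ s₄ Z := by
    have hN3 : ∀ w, (del G {x, s₂, s₄}).Adj s₃ w → w = y ∨ w = s₁ ∨ w = c := by
      intro w hw
      have h1 := hw.2.2
      simp only [mem_insert, mem_singleton, not_or] at h1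
      rcases (hB.n3 w).1 hw.1 with e | e | e | e | e
      · exact absurd e h1.1
      · exact Or.inl e
      · exact Or.inr (Or.inl e)
      · exact absurd e h1.2.1
      · exact Or.inr (Or.inr e)
    have hNy : ∀ w, (del G {x, s₂, s₄}).Adj y w → w = s₁ ∨ w = s₃ := by
      intro w hw
      have h1 := hw.2.2
      simp only [mem_insert, mem_singleton, not_or] at h1
      rcases (hP.ny w).1 hw.1 with e | e | e | e
      · exact absurd e h1.1
      · exact Or.inl e
      · exact Or.inr e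
      · exact absurd e h1.2.2
    -- both edges vanish
    have key : ∀ Z, Gam G x s₂ s₄ Z → Z s(y, s₁) = 0 → Z s(s₃, c) = 0 → False := by
      intro Z h h0 h0'
      have hZ := h.2.2.2.1
      have h1 := XPYM.two_nb hZ h13 hNy
      have hy0 := zero_star hZ (v := y) (by
        intro w hw
        rcases hNy w hw with rfl | rfl
        · exact h0
        · rw [← h1, h0])
      -- the boundary at `s₃`
      have hst : ∀ e, s₃ ∈ e → Z e = 0 := by
        have hb : bdy Z s₃ = 0 := hZ.2 s₃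
        rw [bdy_eq_sum_ite, sum_eq_single s(s₃, s₁)] at hb
        · rw [if_pos (Sym2.mem_mk_left _ _)] at hb
          refine zero_star hZ ?_
          intro w hw
          rcases hN3 w hw with rfl | rfl | rfl
          · exact hy0 _ (Sym2.mem_mk_right _ _)
          · exact hb
          · exact h0'
        · intro e _ hne
          by_cases hve : s₃ ∈ e
          · rw [if_pos hve]
            obtain ⟨w, rfl⟩ := Sym2.mem_iff_exists.1 hve
            by_contra hz
            rcases hN3 w (hZ.1 _ hz) with rfl | rfl | rfl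
            · exact hz (hy0 _ (Sym2.mem_mk_right _ _))
            · exact hne rfl
            · exact hz h0'
          · rw [if_neg hve]
        · intro h2
          exact absurd (mem_univ _) h2
      have hPt : IsPth (del G {x}) s₂ s₄ (insert s(s₂, s₃) (insert s(s₃, y) {s(y, s₄)})) := by
        have h2 : IsPth (del G {x}) y s₄ {s(y, s₄)} :=
          IsPth.edge ⟨y4, by simpa using Ne.symm hxy, by simpa using Ne.symm hx4⟩
        have h3 : IsPth (del G {x}) s₃ s₄ (insert s(s₃, y) {s(y, s₄)}) := by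
          refine h2.cons ⟨y3.symm, by simpa using Ne.symm hx3, by simpa using Ne.symm hxy⟩ ?_
          rw [vs_singleton, mem_insert, mem_singleton, not_or]
          exact ⟨Ne.symm hy3, h34⟩
        refine h3.cons ⟨a32.symm, by simpa using Ne.symm hx2, by simpa using Ne.symm hx3⟩ ?_
        rw [vs_insert, vs_singleton]
        simp only [mem_union, mem_insert, mem_singleton, not_or]
        exact ⟨⟨h23, Ne.symm hy2⟩, Ne.symm hy2, h24⟩
      have hC := isCyc_of_isPth_del x2 x4 h24 hPt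
      refine hGMC.cyc hpl h hC (mem_insert_self _ _) (mem_insert_of_mem (mem_insert_self _ _)) ?_
      intro e v hv hve
      rw [vs_insert, vs_insert, vs_insert, vs_insert, vs_singleton] at hv
      simp only [mem_union, mem_insert, mem_singleton] at hv
      rcases hv with (rfl | rfl) | (rfl | rfl) | (rfl | rfl) | (rfl | rfl) | (rfl | rfl)
      · exact zero_at hZ (by simp) hve
      · exact zero_at hZ (by simp) hve
      · exact zero_at hZ (by simp) hve
      · exact zero_at hZ (by simp) hve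
      · exact zero_at hZ (by simp) hve
      · exact hst _ hve
      · exact hst _ hve
      · exact hy0 _ hve
      · exact hy0 _ hve
      · exact zero_at hZ (by simp) hve
    have key2 : ∀ Z, Gam G x s₂ s₄ Z → Z s(y, s₁) = 0 → False := by
      intro Z h h0
      rcases zmod2_cases (Z s(s₃, c)) with h0' | h0'
      · exact key Z h h0 h0'
      · have hT : tri s₃ s₁ c ∈ Z1 (del G {x, s₂, s₄}) := by
          refine F1NM.tri_mem ⟨a31, ?_, ?_⟩ ⟨a1c, ?_, ?_⟩ ⟨a3c, ?_, ?_⟩ <;>
            simp only [mem_insert, mem_singleton, not_or]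
          · exact ⟨Ne.symm hx3, Ne.symm h23, h34⟩
          · exact ⟨Ne.symm hx1, h12, h14⟩
          · exact ⟨Ne.symm hx1, h12, h14⟩
          · exact ⟨Ne.symm hxc, Ne.symm h2c, Ne.symm h4c⟩
          · exact ⟨Ne.symm hx3, Ne.symm h23, h34⟩
          · exact ⟨Ne.symm hxc, Ne.symm h2c, Ne.symm h4c⟩
        rcases hNCN.lin hK.1 hpl h hT with h1 | h1
        · exact tri_no hNCN hpl a31 a1c a3c hr24 h1
        · refine key _ h1 ?_ ?_
          · have : tri s₃ s₁ c s(y, s₁) = 0 := by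
              by_contra hne
              have hm := F1NM.tri_supp _ y hne (Sym2.mem_mk_left _ _)
              simp only [mem_insert, mem_singleton] at hm
              rcases hm with e | e | e
              · exact hy3 e
              · exact hy1 e
              · exact hyc e
            rw [Pi.add_apply, h0, this, add_zero]
          · have : tri s₃ s₁ c s(s₃, c) = 1 := chi_of_mem (by simp)
            rw [Pi.add_apply, h0', this]
            decide
    intro Z h
    rcases zmod2_cases (Z s(y, s₁)) with h0 | h0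
    · exact key2 Z h h0
    · have hT : tri y s₁ s₃ ∈ Z1 (del G {x, s₂, s₄}) := by
        refine F1NM.tri_mem ⟨y1, ?_, ?_⟩ ⟨a31.symm, ?_, ?_⟩ ⟨y3, ?_, ?_⟩ <;>
          simp only [mem_insert, mem_singleton, not_or]
        · exact ⟨Ne.symm hxy, hy2, hy4⟩
        · exact ⟨Ne.symm hx1, h12, h14⟩
        · exact ⟨Ne.symm hx1, h12, h14⟩
        · exact ⟨Ne.symm hx3, Ne.symm h23, h34⟩
        · exact ⟨Ne.symm hxy, hy2, hy4⟩
        · exact ⟨Ne.symm hx3, Ne.symm h23, h34⟩
      rcases hNCN.lin hK.1 hpl h hT with h1 | h1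
      · exact tri_no hNCN hpl y1 a31.symm y3 hr24' h1
      · refine key2 _ h1 ?_
        have : tri y s₁ s₃ s(y, s₁) = 1 := chi_of_mem (by simp)
        rw [Pi.add_apply, h0, this]
        decide
  obtain ⟨w, w', Z, h⟩ := hNCG hK hrig (left_mem_VS xy) hNP hpl
  have hna := hNCN.nadj hpl h
  have hne := h.2.2.1
  rcases (hP.nx w).1 h.1 with e | e | e | e <;> rcases (hP.nx w').1 h.2.1 with e' | e' | e' | e' <;>
    subst e <;> subst e'
  · exact hne rfl
  · exact cy2 _ h
  · exact hna y3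
  · exact hna y4
  · exact cy2 _ (gam_symm h)
  · exact hne rfl
  · exact hna a32.symm
  · exact c24 _ h
  · exact hna y3.symm
  · exact hna a32
  · exact hne rfl
  · exact c34 _ h
  · exact hna y4.symm
  · exact c24 _ (gam_symm h)
  · exact c34 _ (gam_symm h)
  · exact hne rfl

end DL
end
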