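import Pool.Agent.DL.E.Spec2d
import Pool.Agent.DL.E.XF7

set_option autoImplicit false

/-!
MP_3ff0f8_gt, ALGEBRA HALF, E block section 2, module XF1 (helper60): two disjoint paths
-/

open SimpleGraph Finset

namespace DL

namespace XF1M

variable {α : Type} [Fintype α] [DecidableEq α]

/-- the cycle `v a P b v` -/
def cyc (v a b : α) (P : Finset (Sym2 α)) : Finset (Sym2 α) := insert s(v, a) (insert s(v, b) P)

omit [Fintype α] in
lemma cyc_mem_left (v a b : α) (P : Finset (Sym2 α)) : s(v, a) ∈ cyc v a b P := by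
  unfold cyc; simp

omit [Fintype α] in
lemma cyc_mem_right (v a b : α) (P : Finset (Sym2 α)) : s(v, b) ∈ cyc v a b P := by
  unfold cyc; simp

lemma vs_cyc {G : SimpleGraph α} {v a b : α} {P : Finset (Sym2 α)} (hab : a ≠ b) (hP : IsPth G a b P) :
    vs (cyc v a b P) ⊆ insert v (vs P) := by
  unfold cyc
  rw [vs_insert, vs_insert]
  intro w hw
  simp only [mem_union, mem_insert, mem_singleton] at hw ⊢
  rcases hw with (h | h) | (h | h) | h
  · exact Or.inl h
  · exact Or.inr (h ▸ hP.left_mem hab)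
  · exact Or.inl h
  · exact Or.inr (h ▸ hP.right_mem hab)
  · exact Or.inr h

end XF1M

open XF1M XPYM F1NM in
theorem specXF1 (hVKA : SpecVKA) (hNPC : SpecNPC) (hKUR : SpecKUR) : SpecXF1 := by
  intro α _ _ G x y s₁ s₂ s₃ s₄ P Q h hR hP hQ hdis
  have hnd := h.nd
  simp only [List.nodup_cons, List.mem_cons, List.not_mem_nil, or_false, not_or, List.nodup_nil,
    and_true] at hnd
  obtain ⟨⟨hxy, hx1, hx2, hx3, hx4⟩, ⟨hy1, hy2, hy3, hy4⟩, ⟨h12, h13, h14⟩, ⟨h23, h24⟩, h34, -⟩ := hnd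
  set R := delE G s₁ s₃ with hRdef
  have hRadj : ∀ {a b}, R.Adj a b ↔ G.Adj a b ∧ s(a, b) ≠ s(s₁, s₃) := by
    intro a b
    rw [hRdef, delE_adj]
  have axy : R.Adj x y := hRadj.2 ⟨(h.nx y).2 (Or.inl rfl), fun he => by
    rcases Sym2.eq_iff.1 he with ⟨e, _⟩ | ⟨e, _⟩
    · exact hx1 e
    · exact hx3 e⟩
  have ax : ∀ {b}, G.Adj x b → R.Adj x b := fun {b} hb => hRadj.2 ⟨hb, fun he => by
    rcases Sym2.eq_iff.1 he with ⟨e, _⟩ | ⟨e, _⟩
    · exact hx1 e
    · exact hx3 e⟩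
  have ay : ∀ {b}, G.Adj y b → R.Adj y b := fun {b} hb => hRadj.2 ⟨hb, fun he => by
    rcases Sym2.eq_iff.1 he with ⟨e, _⟩ | ⟨e, _⟩
    · exact hy1 e
    · exact hy3 e⟩
  have ax2 : R.Adj x s₂ := ax ((h.nx s₂).2 (by tauto))
  have ax3 : R.Adj x s₃ := ax ((h.nx s₃).2 (by tauto))
  have ax4 : R.Adj x s₄ := ax ((h.nx s₄).2 (by tauto))
  have ay1 : R.Adj y s₁ := ay ((h.ny s₁).2 (by tauto))
  have ay3 : R.Adj y s₃ := ay ((h.ny s₃).2 (by tauto))
  -- the two cycles
  rw [isPth_del] at hP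
  rw [isPth_delE, isPth_del] at hQ
  obtain ⟨hP1, hP2⟩ := hP
  obtain ⟨⟨hQ1, hQ2⟩, hQ3⟩ := hQ
  have hxP : x ∉ vs P := fun hh => Finset.disjoint_left.1 hP2 hh (by simp)
  have hyP : y ∉ vs P := fun hh => Finset.disjoint_left.1 hP2 hh (by simp)
  have hxQ : x ∉ vs Q := fun hh => Finset.disjoint_left.1 hQ2 hh (by simp)
  have hyQ : y ∉ vs Q := fun hh => Finset.disjoint_left.1 hQ2 hh (by simp)
  have h3Q : s₃ ∈ vs Q := hQ1.right_mem h13
  have hP3 : s(s₁, s₃) ∉ P := fun hh => Finset.disjoint_left.1 hdis (right_mem_vs hh) h3Q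
  have hPR : IsPth R s₂ s₄ P := isPth_delE.2 ⟨hP1, hP3⟩
  have hQR : IsPth R s₁ s₃ Q := isPth_delE.2 ⟨hQ1, hQ3⟩
  have hC1 : IsCyc R (cyc x s₂ s₄ P) := isCyc_of_isPth_del ax2 ax4 h24
    (isPth_del.2 ⟨hPR, by rw [disjoint_singleton_right]; exact hxP⟩)
  have hC2 : IsCyc R (cyc y s₁ s₃ Q) := isCyc_of_isPth_del ay1 ay3 h13
    (isPth_del.2 ⟨hQR, by rw [disjoint_singleton_right]; exact hyQ⟩)
  have hd : Disjoint (vs (cyc y s₁ s₃ Q)) (vs (cyc x s₂ s₄ P)) := by
    rw [Finset.disjoint_left]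
    intro v hv hv'
    have e1 := vs_cyc h13 hQR hv
    have e2 := vs_cyc h24 hPR hv'
    rw [mem_insert] at e1 e2
    rcases e1 with rfl | e1
    · rcases e2 with e2 | e2
      · exact hxy e2.symm
      · exact hyP e2
    · rcases e2 with rfl | e2
      · exact hxQ e1
      · exact Finset.disjoint_left.1 hdis e2 e1
  obtain ⟨r, hr, z, hz, hv⟩ := hR
  -- the row has no edge at `x`
  obtain ⟨z1, hz1, hv1, hrow1⟩ : ∃ z1, IsZ2 R z1 ∧ vk r z1 ≠ 0 ∧ ∀ w, z1 s(y, s₃) s(x, w) = 0 := by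
    have hrow : z s(y, s₃) ∈ Z1 (del R {y, s₃}) := hKUR.row y s₃ hz
    have hxn : ∀ w, (del R {y, s₃}).Adj x w → w = s₂ ∨ w = s₄ := by
      intro w hw
      rw [del_adj] at hw
      have h1 := hw.2.2
      simp only [mem_insert, mem_singleton, not_or] at h1
      rcases (h.nx w).1 (hRadj.1 hw.1).1 with e | e | e | e
      · exact absurd e h1.1
      · exact Or.inl e
      · exact absurd e h1.2
      · exact Or.inr e
    have h2 := two_nb hrow h24 hxn
    rcases zmod2_cases (z s(y, s₃) s(x, s₂)) with h0 | h0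
    · refine ⟨z, hz, hv, fun w => ?_⟩
      by_contra hc
      have hadj : (del R {y, s₃}).Adj x w := hrow.1 _ hc
      rcases hxn w hadj with rfl | rfl
      · exact hc h0
      · exact hc (h2 ▸ h0)
    · obtain ⟨hz', hv'⟩ := addtor hVKA hKUR hr hz (vs (cyc x s₂ s₄ P)) hC1.chi_mem
        (fun e v he hv => mem_vs.2 ⟨e, chi_ne_zero.1 he, hv⟩)
        (isCyc_del.2 ⟨hC2, hd⟩).chi_mem
      refine ⟨_, hz', by rw [hv']; exact hv, fun w => ?_⟩
      have hCy : chi (cyc y s₁ s₃ Q) s(y, s₃) = 1 := chi_of_mem (cyc_mem_right _ _ _ _)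
      have ht : chi (cyc x s₂ s₄ P) s(y, s₃) = 0 := chi_of_notMem fun hc =>
        Finset.disjoint_left.1 hd (left_mem_vs (cyc_mem_right y s₁ s₃ Q)) (left_mem_vs hc)
      have hCx : chi (cyc y s₁ s₃ Q) s(x, w) = 0 := chi_of_notMem fun hc =>
        Finset.disjoint_left.1 hd (left_mem_vs hc) (left_mem_vs (cyc_mem_left x s₂ s₄ P))
      simp only [tor, hCy, ht, hCx]
      have ht2 : chi (cyc x s₂ s₄ P) s(x, s₂) = 1 := chi_of_mem (cyc_mem_left _ _ _ _)
      have ht4 : chi (cyc x s₂ s₄ P) s(x, s₄) = 1 := chi_of_mem (cyc_mem_right _ _ _ _)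
      by_cases hw2 : w = s₂
      · rw [hw2, h0, ht2]
        decide
      by_cases hw4 : w = s₄
      · rw [hw4, ← h2, h0, ht4]
        decide
      have hz0 : z s(y, s₃) s(x, w) = 0 := by
        by_contra hc
        have hadj : (del R {y, s₃}).Adj x w := hrow.1 _ hc
        rcases hxn w hadj with e | e
        · exact hw2 e
        · exact hw4 e
      have ht0 : chi (cyc x s₂ s₄ P) s(x, w) = 0 := by
        refine chi_of_notMem fun hc => ?_
        unfold cyc at hc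
        rw [mem_insert, mem_insert] at hc
        rcases hc with hc | hc | hc
        · exact hw2 (Sym2.congr_right.1 hc)
        · exact hw4 (Sym2.congr_right.1 hc)
        · exact hxP (left_mem_vs hc)
      rw [hz0, ht0]
      decide
  -- remove the row
  have hrow : z1 s(y, s₃) ∈ Z1 (del R {y, s₃}) := hKUR.row y s₃ hz1
  have hrow' : z1 s(y, s₃) ∈ Z1 (del R {x, y, s₃}) := by
    refine ⟨fun e he => ?_, hrow.2⟩
    have h1 := hrow.1 e he
    induction e using Sym2.ind with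
    | _ a b =>
      have h2 : (del R {y, s₃}).Adj a b := h1
      have hax : a ≠ x := by
        rintro rfl
        exact he (hrow1 b)
      have hbx : b ≠ x := by
        rintro rfl
        rw [Sym2.eq_swap (a := a)] at he
        exact he (hrow1 a)
      rw [del_adj] at h2
      have h3 := h2.2.1
      have h4 := h2.2.2
      simp only [mem_insert, mem_singleton, not_or] at h3 h4
      show (del R {x, y, s₃}).Adj a b
      rw [del_adj]
      simp only [mem_insert, mem_singleton, not_or]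
      exact ⟨h2.1, ⟨hax, h3.1, h3.2⟩, ⟨hbx, h4.1, h4.2⟩⟩
  obtain ⟨hz2, hv2⟩ := addtor hVKA hKUR hr hz1 {x, y, s₃} (tri_mem axy ay3 ax3)
    (fun e v he hv => tri_supp e v he hv) hrow'
  have ht : tri x y s₃ s(y, s₃) = 1 := by
    unfold tri; rw [chi_of_mem]; simp
  have h0 : z1 s(y, s₃) s(y, s₃) = 0 := by
    by_contra hc
    exact notMem_of_mem_del (hrow.1 _ hc) (Sym2.mem_mk_left y s₃) (by simp)
  have hfin := hNPC.del (a := y) (b := s₃) hr hz2 (by rw [hv2]; exact hv1) (fun f => by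
    simp only [tor, ht, h0]
    rw [one_mul, zero_mul, add_zero, zmod2_add_self])
  refine hNPC.mono ?_ hfin
  intro a b hab
  rw [delE_adj, hRadj] at hab
  unfold dst
  rw [SimpleGraph.deleteEdges_adj]
  refine ⟨hab.1.1, ?_⟩
  rintro ⟨p, hp, he⟩
  simp only [mem_insert, mem_singleton] at hp
  rcases hp with rfl | rfl
  · exact hab.1.2 (by rw [he, Sym2.eq_swap])
  · exact hab.2 (by rw [he, Sym2.eq_swap])

end DL
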