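import Pool.Agent.DL.E.Spec2d
import Pool.Agent.DL.BASE.PLC

/-!
# XF4: two bad cuts (case 2.3 (i))
-/

open SimpleGraph Finset

namespace DL

namespace XF4M

set_option linter.unusedSectionVars false
set_option linter.unusedVariables false

variable {α : Type} [Fintype α] [DecidableEq α] {G : SimpleGraph α} {x y s₁ s₂ s₃ s₄ : α}

/-- the bad cut (Mx) -/
structure Half (G : SimpleGraph α) (x y s₁ s₂ s₃ s₄ : α) (T P Q : Finset α) : Prop where
  part : ∀ v ∈ VS G, v ≠ x → v ≠ y → v ∈ P ∨ v ∈ T ∨ v ∈ Q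
  PT : ∀ v ∈ P, v ∉ T
  PQ : ∀ v ∈ P, v ∉ Q
  TQ : ∀ v ∈ T, v ∉ Q
  sub : ∀ v, v ∈ P ∨ v ∈ T ∨ v ∈ Q → v ∈ VS G ∧ v ≠ x ∧ v ≠ y
  adj : ∀ v ∈ P, ∀ w ∈ Q, G.Adj v w → v = s₂ ∧ w = s₃
  m4 : s₄ ∈ P
  m2 : s₂ ∈ P
  m1 : s₁ ∈ Q
  m3 : s₃ ∈ Q
  card : T.card = 2

theorem half_of_MY (h33 : P33 G x y s₁ s₂ s₃ s₄) (h : MY G y x s₂ s₁ s₃ s₄) :
    ∃ T P Q, Half G x y s₁ s₂ s₃ s₄ T P Q := by
  obtain ⟨c, d, A, B, hnd, hS, hxA, h2A, h4A, h1B, hadj⟩ := h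
  have h4x : s₄ ≠ x := by
    have hnd' := h33.nd
    simp only [List.nodup_cons, List.mem_cons, List.not_mem_nil, or_false, not_or, List.nodup_nil, and_true,
      not_false_eq_true] at hnd'
    exact fun e => hnd'.1.2.2.2.2 e.symm
  have h2x : s₂ ≠ x := by
    have hnd' := h33.nd
    simp only [List.nodup_cons, List.mem_cons, List.not_mem_nil, or_false, not_or, List.nodup_nil, and_true,
      not_false_eq_true] at hnd'
    exact fun e => hnd'.1.2.2.1 e.symm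
  simp only [List.nodup_cons, List.mem_cons, List.not_mem_nil, or_false, not_or, List.nodup_nil, and_true,
    not_false_eq_true] at hnd
  obtain ⟨⟨h3y, h3c, h3d⟩, ⟨hyc, hyd⟩, hcd⟩ := hnd
  obtain ⟨hU, hd1, hd2, hd3, hna⟩ := hS
  rw [Finset.disjoint_left] at hd1 hd2 hd3
  have hmem : ∀ v, v ∈ VS G ↔ (v = s₃ ∨ v = y ∨ v = c ∨ v = d) ∨ v ∈ A ∨ v ∈ B := by
    intro v
    rw [← hU]
    simp only [mem_union, mem_insert, mem_singleton]
    tauto
  have hcA : c ∉ A := hd1 (by simp)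
  have hcB : c ∉ B := hd2 (by simp)
  have hdA : d ∉ A := hd1 (by simp)
  have hdB : d ∉ B := hd2 (by simp)
  have hyA : y ∉ A := hd1 (by simp)
  have hyB : y ∉ B := hd2 (by simp)
  have h3A : s₃ ∉ A := hd1 (by simp)
  have h3B : s₃ ∉ B := hd2 (by simp)
  refine ⟨{c, d}, A.erase x, insert s₃ B, ?_, ?_, ?_, ?_, ?_, ?_, ?_, ?_, ?_, ?_, ?_⟩
  · intro v hv hvx hvy
    rw [hmem] at hv
    simp only [mem_insert, mem_singleton, mem_erase]
    rcases hv with (hv | hv | hv | hv) | hv | hv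
    · exact Or.inr (Or.inr (Or.inl hv))
    · exact absurd hv hvy
    · exact Or.inr (Or.inl (Or.inl hv))
    · exact Or.inr (Or.inl (Or.inr hv))
    · exact Or.inl ⟨hvx, hv⟩
    · exact Or.inr (Or.inr (Or.inr hv))
  · intro v hv
    rw [mem_erase] at hv
    simp only [mem_insert, mem_singleton, not_or]
    exact ⟨fun e => hcA (e ▸ hv.2), fun e => hdA (e ▸ hv.2)⟩
  · intro v hv
    rw [mem_erase] at hv
    simp only [mem_insert, not_or]
    exact ⟨fun e => h3A (e ▸ hv.2), hd3 hv.2⟩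
  · intro v hv
    simp only [mem_insert, mem_singleton] at hv
    simp only [mem_insert, not_or]
    rcases hv with rfl | rfl
    · exact ⟨fun e => h3c e.symm, hcB⟩
    · exact ⟨fun e => h3d e.symm, hdB⟩
  · intro v hv
    rw [hmem]
    simp only [mem_insert, mem_singleton, mem_erase] at hv
    have hxB : x ∉ B := hd3 hxA
    rcases hv with hv | (rfl | rfl) | rfl | hv
    · exact ⟨Or.inr (Or.inl hv.2), hv.1, fun e => hyA (e ▸ hv.2)⟩
    · exact ⟨Or.inl (Or.inr (Or.inr (Or.inl rfl))), fun e => hcA (e ▸ hxA), fun e => hyc e.symm⟩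
    · exact ⟨Or.inl (Or.inr (Or.inr (Or.inr rfl))), fun e => hdA (e ▸ hxA), fun e => hyd e.symm⟩
    · exact ⟨Or.inl (Or.inl rfl), fun e => h3A (e ▸ hxA), h3y⟩
    · exact ⟨Or.inr (Or.inr hv), fun e => hxB (e ▸ hv), fun e => hyB (e ▸ hv)⟩
  · intro v hv w hw ha
    rw [mem_erase] at hv
    rw [mem_insert] at hw
    rcases hw with rfl | hw
    · rcases hadj v hv.2 ha.symm with h | h
      · exact ⟨h, rfl⟩
      · exact absurd h hv.1
    · exact absurd ha (hna v hv.2 w hw)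
  · rw [mem_erase]; exact ⟨h4x, h4A⟩
  · rw [mem_erase]; exact ⟨h2x, h2A⟩
  · rw [mem_insert]; exact Or.inr h1B
  · rw [mem_insert]; exact Or.inl rfl
  · exact Finset.card_pair hcd

theorem Half.nP {T P Q : Finset α} (h : Half G x y s₁ s₂ s₃ s₄ T P Q) {v w : α} (hv : v ∈ P)
    (ha : G.Adj v w) : w = x ∨ w = y ∨ w ∈ P ∨ w ∈ T ∨ (v = s₂ ∧ w = s₃) := by
  by_cases hx : w = x
  · exact Or.inl hx
  by_cases hy : w = y
  · exact Or.inr (Or.inl hy)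
  rcases h.part w (right_mem_VS ha) hx hy with h1 | h1 | h1
  · tauto
  · tauto
  · have := h.adj v hv w h1 ha
    tauto

theorem Half.nQ {T P Q : Finset α} (h : Half G x y s₁ s₂ s₃ s₄ T P Q) {v w : α} (hv : v ∈ Q)
    (ha : G.Adj v w) : w = x ∨ w = y ∨ w ∈ Q ∨ w ∈ T ∨ (v = s₃ ∧ w = s₂) := by
  by_cases hx : w = x
  · exact Or.inl hx
  by_cases hy : w = y
  · exact Or.inr (Or.inl hy)
  rcases h.part w (right_mem_VS ha) hx hy with h1 | h1 | h1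
  · have := h.adj w h1 v hv ha.symm
    tauto
  · tauto
  · tauto

theorem split {T P Q T' P' Q' : Finset α} (h : Half G x y s₁ s₂ s₃ s₄ T P Q)
    (h' : Half G y x s₂ s₁ s₃ s₄ T' P' Q') :
    (T ∩ P').card + (T ∩ Q').card + (T ∩ T').card = 2 := by
  have h1 : T = ((T ∩ P') ∪ (T ∩ Q')) ∪ (T ∩ T') := by
    ext v
    simp only [mem_union, mem_inter]
    constructor
    · intro hv
      obtain ⟨a, b, c⟩ := h.sub v (by tauto)
      have := h'.part v a c b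
      tauto
    · tauto
  have h2 := h.card
  rw [h1, card_union_of_disjoint, card_union_of_disjoint] at h2
  · exact h2
  · rw [Finset.disjoint_left]
    intro v hv hv'
    simp only [mem_inter] at hv hv'
    exact h'.PQ v hv.2 hv'.2
  · rw [Finset.disjoint_left]
    intro v hv hv'
    simp only [mem_inter, mem_union] at hv hv'
    rcases hv with hv | hv
    · exact h'.PT v hv.2 hv'.2
    · exact h'.TQ v hv'.2 hv.2

theorem mem_NB {A : Finset α} {w : α} : w ∈ NB G A ↔ w ∉ A ∧ ∃ a ∈ A, G.Adj a w := by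
  classical
  simp [NB]

theorem single (hFRG : SpecFRG) (hG : KConn 4 G) {D W : Finset α} {s r : α} (hs : s ∈ D) (hD : D ⊆ VS G)
    (hN : ∀ v ∈ D, v ≠ s → ∀ w, G.Adj v w → w ∉ D → w ∈ W) (hW : W.card ≤ 2) (hr : r ∈ VS G)
    (hrD : r ∉ D) (hrW : r ∉ W) : D = {s} := by
  by_contra hne
  have hne' : (D.erase s).Nonempty := by
    rw [Finset.nonempty_iff_ne_empty]
    intro h0
    apply hne
    rw [← Finset.insert_erase hs, h0]
    rfl
  refine hFRG.few (D := D.erase s) (W := insert s W) (r := r) hG ((erase_subset _ _).trans hD) hne' ?_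
    ((card_insert_le _ _).trans (by omega)) hr (fun h => hrD (mem_of_mem_erase h)) ?_
  · intro w hw
    obtain ⟨hwD, v, hv, ha⟩ := mem_NB.1 hw
    rw [mem_erase] at hv
    rw [mem_insert]
    by_cases hws : w = s
    · exact Or.inl hws
    · right
      exact hN v hv.2 hv.1 w ha (fun h => hwD (mem_erase.2 ⟨hws, h⟩))
  · rw [mem_insert]
    rintro (rfl | h)
    · exact hrD hs
    · exact hrW h

/-- the neighbours of a vertex different from `x, y, s_i` -/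
theorem gen (h33 : P33 G x y s₁ s₂ s₃ s₄) {T P Q T' P' Q' : Finset α}
    (h : Half G x y s₁ s₂ s₃ s₄ T P Q) (h' : Half G y x s₂ s₁ s₃ s₄ T' P' Q') {v w : α}
    (hx : v ≠ x) (hy : v ≠ y) (h1 : v ≠ s₁) (h2 : v ≠ s₂) (h3 : v ≠ s₃) (h4 : v ≠ s₄) (ha : G.Adj v w) :
    w ≠ x ∧ w ≠ y ∧ (v ∈ P → w ∈ P ∨ w ∈ T) ∧ (v ∈ Q → w ∈ Q ∨ w ∈ T) ∧ (v ∈ P' → w ∈ P' ∨ w ∈ T') ∧
      (v ∈ Q' → w ∈ Q' ∨ w ∈ T') := by
  have hwx : w ≠ x := by
    rintro rfl
    rcases (h33.nx v).1 ha.symm with e | e | e | e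
    · exact hy e
    · exact h2 e
    · exact h3 e
    · exact h4 e
  have hwy : w ≠ y := by
    rintro rfl
    rcases (h33.ny v).1 ha.symm with e | e | e | e
    · exact hx e
    · exact h1 e
    · exact h3 e
    · exact h4 e
  refine ⟨hwx, hwy, ?_, ?_, ?_, ?_⟩
  · intro hv
    rcases h.nP hv ha with e | e | e | e | e
    · exact absurd e hwx
    · exact absurd e hwy
    · exact Or.inl e
    · exact Or.inr e
    · exact absurd e.1 h2
  · intro hv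
    rcases h.nQ hv ha with e | e | e | e | e
    · exact absurd e hwx
    · exact absurd e hwy
    · exact Or.inl e
    · exact Or.inr e
    · exact absurd e.1 h3
  · intro hv
    rcases h'.nP hv ha with e | e | e | e | e
    · exact absurd e hwy
    · exact absurd e hwx
    · exact Or.inl e
    · exact Or.inr e
    · exact absurd e.1 h1
  · intro hv
    rcases h'.nQ hv ha with e | e | e | e | e
    · exact absurd e hwy
    · exact absurd e hwx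
    · exact Or.inl e
    · exact Or.inr e
    · exact absurd e.1 h3

section two

variable {T P Q T' P' Q' : Finset α}

theorem nes (h33 : P33 G x y s₁ s₂ s₃ s₄) : x ≠ y ∧ x ≠ s₁ ∧ x ≠ s₂ ∧ x ≠ s₃ ∧ x ≠ s₄ ∧ y ≠ s₁ ∧ y ≠ s₂ ∧
    y ≠ s₃ ∧ y ≠ s₄ ∧ s₁ ≠ s₂ ∧ s₁ ≠ s₃ ∧ s₁ ≠ s₄ ∧ s₂ ≠ s₃ ∧ s₂ ≠ s₄ ∧ s₃ ≠ s₄ := by
  have hnd' := h33.nd
  simp only [List.nodup_cons, List.mem_cons, List.not_mem_nil, or_false, not_or, List.nodup_nil, and_true,
    not_false_eq_true] at hnd'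
  obtain ⟨⟨h1, h2, h3, h4, h5⟩, ⟨h6, h7, h8, h9⟩, ⟨h10, h11, h12⟩, ⟨h13, h14⟩, h15⟩ := hnd'
  exact ⟨h1, h2, h3, h4, h5, h6, h7, h8, h9, h10, h11, h12, h13, h14, h15⟩

/-- neighbours of `s₁` -/
theorem n1 (h33 : P33 G x y s₁ s₂ s₃ s₄) (h : Half G x y s₁ s₂ s₃ s₄ T P Q)
    (h' : Half G y x s₂ s₁ s₃ s₄ T' P' Q') {w : α} (ha : G.Adj s₁ w) :
    w = y ∨ w = s₃ ∨ ((w ∈ Q ∨ w ∈ T) ∧ (w ∈ P' ∨ w ∈ T')) := by
  obtain ⟨nxy, nx1, nx2, nx3, nx4, ny1, ny2, ny3, ny4, n12, n13, n14, n23, n24, n34⟩ := nes h33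
  have hwx : w ≠ x := by
    rintro rfl
    rcases (h33.nx s₁).1 ha.symm with e | e | e | e
    · exact ny1 e.symm
    · exact n12 e
    · exact n13 e
    · exact n14 e
  rcases h.nQ h.m1 ha with e | e | e | e | e
  · exact absurd e hwx
  · exact Or.inl e
  · rcases h'.nP h'.m2 ha with f | f | f | f | f
    · exact Or.inl f
    · exact absurd f hwx
    · exact Or.inr (Or.inr ⟨Or.inl e, Or.inl f⟩)
    · exact Or.inr (Or.inr ⟨Or.inl e, Or.inr f⟩)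
    · exact Or.inr (Or.inl f.2)
  · rcases h'.nP h'.m2 ha with f | f | f | f | f
    · exact Or.inl f
    · exact absurd f hwx
    · exact Or.inr (Or.inr ⟨Or.inr e, Or.inl f⟩)
    · exact Or.inr (Or.inr ⟨Or.inr e, Or.inr f⟩)
    · exact Or.inr (Or.inl f.2)
  · exact absurd e.1 n13

/-- neighbours of `s₃` -/
theorem n3 (h33 : P33 G x y s₁ s₂ s₃ s₄) (h : Half G x y s₁ s₂ s₃ s₄ T P Q)
    (h' : Half G y x s₂ s₁ s₃ s₄ T' P' Q') {w : α} (ha : G.Adj s₃ w) :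
    w = x ∨ w = y ∨ w = s₁ ∨ w = s₂ ∨ ((w ∈ Q ∨ w ∈ T) ∧ (w ∈ Q' ∨ w ∈ T')) := by
  have e1 := h.nQ h.m3 ha
  have e2 := h'.nQ h'.m3 ha
  tauto

/-- neighbours of `s₄` -/
theorem n4 (h33 : P33 G x y s₁ s₂ s₃ s₄) (h : Half G x y s₁ s₂ s₃ s₄ T P Q)
    (h' : Half G y x s₂ s₁ s₃ s₄ T' P' Q') {w : α} (ha : G.Adj s₄ w) :
    w = x ∨ w = y ∨ ((w ∈ P ∨ w ∈ T) ∧ (w ∈ P' ∨ w ∈ T')) := by
  obtain ⟨nxy, nx1, nx2, nx3, nx4, ny1, ny2, ny3, ny4, n12, n13, n14, n23, n24, n34⟩ := nes h33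
  have e1 := h.nP h.m4 ha
  have e2 := h'.nP h'.m4 ha
  have e3 := n24.symm
  have e4 := n14.symm
  clear nxy nx1 nx2 nx3 nx4 ny1 ny2 ny3 ny4 n12 n13 n14 n23 n24 n34
  tauto

theorem nb11 (h33 : P33 G x y s₁ s₂ s₃ s₄)
    (h : Half G x y s₁ s₂ s₃ s₄ T P Q) (h' : Half G y x s₂ s₁ s₃ s₄ T' P' Q') {v w : α} (hv : v ∈ P)
    (hv' : v ∈ P') (hne : v ≠ s₄) (ha : G.Adj v w) (hw : ¬ (w ∈ P ∧ w ∈ P')) :
    (w ∈ T ∧ w ∈ P') ∨ (w ∈ T' ∧ w ∈ P) ∨ (w ∈ T ∧ w ∈ T') := by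
  have h5 := h.sub v (Or.inl hv)
  have h6 := gen h33 h h' h5.2.1 h5.2.2 (fun e => h.PQ _ hv (e ▸ h.m1)) (fun e => h'.PQ _ hv' (e ▸ h'.m1))
    (fun e => h.PQ _ hv (e ▸ h.m3)) hne ha
  tauto

/-- `P ∩ P'` -/
theorem i11 (hFRG : SpecFRG) (hG : KConn 4 G) (h33 : P33 G x y s₁ s₂ s₃ s₄)
    (h : Half G x y s₁ s₂ s₃ s₄ T P Q) (h' : Half G y x s₂ s₁ s₃ s₄ T' P' Q') :
    2 ≤ (T ∩ P').card + (T' ∩ P).card + (T ∩ T').card := by
  by_contra hlt
  obtain ⟨nxy, nx1, nx2, nx3, nx4, ny1, ny2, ny3, ny4, n12, n13, n14, n23, n24, n34⟩ := nes h33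
  refine hFRG.few (D := P ∩ P') (W := insert x (insert y ((T ∩ P') ∪ (T' ∩ P) ∪ (T ∩ T')))) (r := s₃) hG
    (fun v hv => (h.sub v (Or.inl (mem_inter.1 hv).1)).1) ⟨s₄, mem_inter.2 ⟨h.m4, h'.m4⟩⟩ ?_ ?_
    (h.sub _ (Or.inr (Or.inr h.m3))).1 ?_ ?_
  · intro w hw
    obtain ⟨hwD, v, hv, ha⟩ := mem_NB.1 hw
    rw [mem_inter] at hv hwD
    simp only [mem_insert, mem_union, mem_inter]
    by_cases hv4 : v = s₄
    · have h5 := n4 h33 h h' (hv4 ▸ ha)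
      clear nxy nx1 nx2 nx3 nx4 ny1 ny2 ny3 ny4 n12 n13 n14 n23 n24 n34 hv4 hlt
      tauto
    · rcases nb11 h33 h h' hv.1 hv.2 hv4 ha hwD with e | e | e
      · exact Or.inr (Or.inr (Or.inl (Or.inl e)))
      · exact Or.inr (Or.inr (Or.inl (Or.inr e)))
      · exact Or.inr (Or.inr (Or.inr e))
  · have h1 := card_insert_le x (insert y ((T ∩ P') ∪ (T' ∩ P) ∪ (T ∩ T')))
    have h2 := card_insert_le y ((T ∩ P') ∪ (T' ∩ P) ∪ (T ∩ T'))
    have h3 := card_union_le ((T ∩ P') ∪ (T' ∩ P)) (T ∩ T')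
    have h4 := card_union_le (T ∩ P') (T' ∩ P)
    omega
  · intro hc
    exact h.PQ _ (mem_inter.1 hc).1 h.m3
  · simp only [mem_insert, mem_union, mem_inter, not_or]
    have h1 : s₃ ∉ T := fun e => h.TQ _ e h.m3
    have h2 : s₃ ∉ P := fun e => h.PQ _ e h.m3
    exact ⟨nx3.symm, ny3.symm, ⟨fun e => h1 e.1, fun e => h2 e.2⟩, fun e => h1 e.1⟩

/-- neighbours of `P ∩ Q'` -/
theorem nb12 (h33 : P33 G x y s₁ s₂ s₃ s₄)
    (h : Half G x y s₁ s₂ s₃ s₄ T P Q) (h' : Half G y x s₂ s₁ s₃ s₄ T' P' Q') {v w : α} (hv : v ∈ P)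
    (hv' : v ∈ Q') (hne : v ≠ s₂) (ha : G.Adj v w) (hw : ¬ (w ∈ P ∧ w ∈ Q')) :
    (w ∈ T ∧ w ∈ Q') ∨ (w ∈ T' ∧ w ∈ P) ∨ (w ∈ T ∧ w ∈ T') := by
  have h5 := h.sub v (Or.inl hv)
  have h6 := gen h33 h h' h5.2.1 h5.2.2 (fun e => h.PQ _ hv (e ▸ h.m1)) hne
    (fun e => h.PQ _ hv (e ▸ h.m3)) (fun e => h'.PQ _ h'.m4 (e ▸ hv')) ha
  tauto

theorem i12 (hFRG : SpecFRG) (hG : KConn 4 G) (h33 : P33 G x y s₁ s₂ s₃ s₄)
    (h : Half G x y s₁ s₂ s₃ s₄ T P Q) (h' : Half G y x s₂ s₁ s₃ s₄ T' P' Q') :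
    2 ≤ (T ∩ Q').card + (T' ∩ P).card + (T ∩ T').card := by
  by_contra hlt
  obtain ⟨nxy, nx1, nx2, nx3, nx4, ny1, ny2, ny3, ny4, n12, n13, n14, n23, n24, n34⟩ := nes h33
  refine hFRG.few (D := P ∩ Q') (W := insert x (insert s₃ ((T ∩ Q') ∪ (T' ∩ P) ∪ (T ∩ T')))) (r := y) hG
    (fun v hv => (h.sub v (Or.inl (mem_inter.1 hv).1)).1) ⟨s₂, mem_inter.2 ⟨h.m2, h'.m1⟩⟩ ?_ ?_
    (left_mem_VS ((h33.ny x).2 (Or.inl rfl))) ?_ ?_
  · intro w hw
    obtain ⟨hwD, v, hv, ha⟩ := mem_NB.1 hw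
    rw [mem_inter] at hv hwD
    simp only [mem_insert, mem_union, mem_inter]
    by_cases hv4 : v = s₂
    · have h5 := n1 h33.sym1 h' h (hv4 ▸ ha)
      clear nxy nx1 nx2 nx3 nx4 ny1 ny2 ny3 ny4 n12 n13 n14 n23 n24 n34 hv4 hlt
      tauto
    · rcases nb12 h33 h h' hv.1 hv.2 hv4 ha hwD with e | e | e
      · exact Or.inr (Or.inr (Or.inl (Or.inl e)))
      · exact Or.inr (Or.inr (Or.inl (Or.inr e)))
      · exact Or.inr (Or.inr (Or.inr e))
  · have h1 := card_insert_le x (insert s₃ ((T ∩ Q') ∪ (T' ∩ P) ∪ (T ∩ T')))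
    have h2 := card_insert_le s₃ ((T ∩ Q') ∪ (T' ∩ P) ∪ (T ∩ T'))
    have h3 := card_union_le ((T ∩ Q') ∪ (T' ∩ P)) (T ∩ T')
    have h4 := card_union_le (T ∩ Q') (T' ∩ P)
    omega
  · intro hc
    exact (h.sub _ (Or.inl (mem_inter.1 hc).1)).2.2 rfl
  · simp only [mem_insert, mem_union, mem_inter, not_or]
    have h1 : y ∉ T := fun e => (h.sub _ (Or.inr (Or.inl e))).2.2 rfl
    have h2 : y ∉ P := fun e => (h.sub _ (Or.inl e)).2.2 rfl
    exact ⟨nxy.symm, ny3, ⟨fun e => h1 e.1, fun e => h2 e.2⟩, fun e => h1 e.1⟩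

theorem card3_le (A B C : Finset α) : (A ∪ B ∪ C).card ≤ A.card + B.card + C.card := by
  have h3 := card_union_le (A ∪ B) C
  have h4 := card_union_le A B
  omega

theorem s12 (hFRG : SpecFRG) (hG : KConn 4 G) (h33 : P33 G x y s₁ s₂ s₃ s₄)
    (h : Half G x y s₁ s₂ s₃ s₄ T P Q) (h' : Half G y x s₂ s₁ s₃ s₄ T' P' Q')
    (hc : (T ∩ Q').card + (T' ∩ P).card + (T ∩ T').card ≤ 2) : P ∩ Q' = {s₂} := by
  refine single hFRG hG (W := (T ∩ Q') ∪ (T' ∩ P) ∪ (T ∩ T')) (r := x) (mem_inter.2 ⟨h.m2, h'.m1⟩)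
    (fun v hv => (h.sub v (Or.inl (mem_inter.1 hv).1)).1) ?_ ((card3_le _ _ _).trans hc)
    (left_mem_VS ((h33.nx y).2 (Or.inl rfl))) ?_ ?_
  · intro v hv hv2 w ha hw
    rw [mem_inter] at hv hw
    have := nb12 h33 h h' hv.1 hv.2 hv2 ha hw
    simp only [mem_union, mem_inter]
    tauto
  · intro hc
    exact (h.sub _ (Or.inl (mem_inter.1 hc).1)).2.1 rfl
  · simp only [mem_union, mem_inter, not_or]
    have h1 : x ∉ T := fun e => (h.sub _ (Or.inr (Or.inl e))).2.1 rfl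
    have h2 : x ∉ P := fun e => (h.sub _ (Or.inl e)).2.1 rfl
    exact ⟨⟨fun e => h1 e.1, fun e => h2 e.2⟩, fun e => h1 e.1⟩

theorem s11 (hFRG : SpecFRG) (hG : KConn 4 G) (h33 : P33 G x y s₁ s₂ s₃ s₄)
    (h : Half G x y s₁ s₂ s₃ s₄ T P Q) (h' : Half G y x s₂ s₁ s₃ s₄ T' P' Q')
    (hc : (T ∩ P').card + (T' ∩ P).card + (T ∩ T').card ≤ 2) : P ∩ P' = {s₄} := by
  refine single hFRG hG (W := (T ∩ P') ∪ (T' ∩ P) ∪ (T ∩ T')) (r := x) (mem_inter.2 ⟨h.m4, h'.m4⟩)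
    (fun v hv => (h.sub v (Or.inl (mem_inter.1 hv).1)).1) ?_ ((card3_le _ _ _).trans hc)
    (left_mem_VS ((h33.nx y).2 (Or.inl rfl))) ?_ ?_
  · intro v hv hv2 w ha hw
    rw [mem_inter] at hv hw
    have := nb11 h33 h h' hv.1 hv.2 hv2 ha hw
    simp only [mem_union, mem_inter]
    tauto
  · intro hc
    exact (h.sub _ (Or.inl (mem_inter.1 hc).1)).2.1 rfl
  · simp only [mem_union, mem_inter, not_or]
    have h1 : x ∉ T := fun e => (h.sub _ (Or.inr (Or.inl e))).2.1 rfl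
    have h2 : x ∉ P := fun e => (h.sub _ (Or.inl e)).2.1 rfl
    exact ⟨⟨fun e => h1 e.1, fun e => h2 e.2⟩, fun e => h1 e.1⟩

theorem s22 (hFRG : SpecFRG) (hG : KConn 4 G) (h33 : P33 G x y s₁ s₂ s₃ s₄)
    (h : Half G x y s₁ s₂ s₃ s₄ T P Q) (h' : Half G y x s₂ s₁ s₃ s₄ T' P' Q')
    (hc : (T ∩ Q').card + (T' ∩ Q).card + (T ∩ T').card ≤ 2) : Q ∩ Q' = {s₃} := by
  refine single hFRG hG (W := (T ∩ Q') ∪ (T' ∩ Q) ∪ (T ∩ T')) (r := x) (mem_inter.2 ⟨h.m3, h'.m3⟩)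
    (fun v hv => (h.sub v (Or.inr (Or.inr (mem_inter.1 hv).1))).1) ?_ ((card3_le _ _ _).trans hc)
    (left_mem_VS ((h33.nx y).2 (Or.inl rfl))) ?_ ?_
  · intro v hv hv2 w ha hw
    rw [mem_inter] at hv hw
    have h5 := h.sub v (Or.inr (Or.inr hv.1))
    have h6 := gen h33 h h' h5.2.1 h5.2.2 (fun e => h'.PQ _ h'.m2 (e ▸ hv.2)) (fun e => h.PQ _ h.m2 (e ▸ hv.1))
      hv2 (fun e => h.PQ _ h.m4 (e ▸ hv.1)) ha
    simp only [mem_union, mem_inter]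
    tauto
  · intro hc
    exact (h.sub _ (Or.inr (Or.inr (mem_inter.1 hc).1))).2.1 rfl
  · simp only [mem_union, mem_inter, not_or]
    have h1 : x ∉ T := fun e => (h.sub _ (Or.inr (Or.inl e))).2.1 rfl
    have h2 : x ∉ Q := fun e => (h.sub _ (Or.inr (Or.inr e))).2.1 rfl
    exact ⟨⟨fun e => h1 e.1, fun e => h2 e.2⟩, fun e => h1 e.1⟩

theorem deg4 (hG : KConn 4 G) {v a b c d : α} (hv : v ∈ VS G)
    (h : ∀ w, G.Adj v w → w = a ∨ w = b ∨ w = c ∨ w = d) :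
    ∀ w, G.Adj v w ↔ w = a ∨ w = b ∨ w = c ∨ w = d := by
  have h1 : nbs G v ⊆ {a, b, c, d} := by
    intro w hw
    simp only [mem_insert, mem_singleton]
    exact h w (mem_nbs.1 hw)
  have h2 := eq_of_subset_of_card_le h1 (card_le_four.trans (hG.le_nbs hv))
  intro w
  rw [← mem_nbs, h2]
  simp only [mem_insert, mem_singleton]

/-- the case of two equal cuts -/
theorem case2 (hFRG : SpecFRG) (hG : KConn 4 G) (h33 : P33 G x y s₁ s₂ s₃ s₄)
    (h : Half G x y s₁ s₂ s₃ s₄ T P Q) (h' : Half G y x s₂ s₁ s₃ s₄ T' P' Q')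
    (e12 : P ∩ Q' = {s₂}) (e21 : P' ∩ Q = {s₁}) (e11 : P ∩ P' = {s₄}) (e22 : Q ∩ Q' = {s₃})
    (hTT : (T ∩ T').card = 2) : ∃ c d, XB2 G x y s₁ s₂ s₃ s₄ c d := by
  obtain ⟨nxy, nx1, nx2, nx3, nx4, ny1, ny2, ny3, ny4, n12, n13, n14, n23, n24, n34⟩ := nes h33
  have hT : T ∩ T' = T := eq_of_subset_of_card_le inter_subset_left (by rw [hTT, h.card])
  have hT' : T ∩ T' = T' := eq_of_subset_of_card_le inter_subset_right (by rw [hTT, h'.card])
  have hTe : T' = T := hT'.symm.trans hT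
  subst hTe
  obtain ⟨c, d, hcd, hcdT⟩ := card_eq_two.1 h.card
  have hc : c ∈ T' := by rw [hcdT]; simp
  have hd : d ∈ T' := by rw [hcdT]; simp
  have hmT : ∀ w ∈ T', w = c ∨ w = d := by
    intro w hw
    rw [hcdT] at hw
    simpa using hw
  have q12 : ∀ w, w ∈ P → w ∈ Q' → w = s₂ := fun w a b => by
    have : w ∈ P ∩ Q' := mem_inter.2 ⟨a, b⟩
    rw [e12] at this; exact mem_singleton.1 this
  have q21 : ∀ w, w ∈ Q → w ∈ P' → w = s₁ := fun w a b => by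
    have : w ∈ P' ∩ Q := mem_inter.2 ⟨b, a⟩
    rw [e21] at this; exact mem_singleton.1 this
  have q11 : ∀ w, w ∈ P → w ∈ P' → w = s₄ := fun w a b => by
    have : w ∈ P ∩ P' := mem_inter.2 ⟨a, b⟩
    rw [e11] at this; exact mem_singleton.1 this
  have q22 : ∀ w, w ∈ Q → w ∈ Q' → w = s₃ := fun w a b => by
    have : w ∈ Q ∩ Q' := mem_inter.2 ⟨a, b⟩
    rw [e22] at this; exact mem_singleton.1 this
  have hcs := h.sub c (Or.inr (Or.inl hc))
  have hds := h.sub d (Or.inr (Or.inl hd))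
  have hne : ∀ v ∈ T', v ≠ s₁ ∧ v ≠ s₂ ∧ v ≠ s₃ ∧ v ≠ s₄ := fun v hv =>
    ⟨fun e => h.TQ _ hv (e ▸ h.m1), fun e => h.PT _ h.m2 (e ▸ hv), fun e => h.TQ _ hv (e ▸ h.m3),
      fun e => h.PT _ h.m4 (e ▸ hv)⟩
  have hc4 := hne c hc
  have hd4 := hne d hd
  refine ⟨c, d, ?_, ?_, ?_, ?_, ?_⟩
  · simp only [List.nodup_cons, List.mem_cons, List.not_mem_nil, or_false, not_or, List.nodup_nil, and_true,
      not_false_eq_true]
    exact ⟨⟨nxy, nx1, nx2, nx3, nx4, hcs.2.1.symm, hds.2.1.symm⟩, ⟨ny1, ny2, ny3, ny4, hcs.2.2.symm,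
      hds.2.2.symm⟩, ⟨n12, n13, n14, hc4.1.symm, hd4.1.symm⟩, ⟨n23, n24, hc4.2.1.symm, hd4.2.1.symm⟩,
      ⟨n34, hc4.2.2.1.symm, hd4.2.2.1.symm⟩, ⟨hc4.2.2.2.symm, hd4.2.2.2.symm⟩, hcd⟩
  · refine deg4 hG (h.sub _ (Or.inr (Or.inr h.m1))).1 fun w ha => ?_
    rcases n1 h33 h h' ha with e | e | ⟨e | e, f | f⟩
    · exact Or.inl e
    · exact Or.inr (Or.inl e)
    · exact absurd (q21 w e f).symm ha.ne
    · exact absurd e (h.TQ _ f)
    · exact absurd e (h'.PT _ f)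
    · exact Or.inr (Or.inr (hmT w e))
  · refine deg4 hG (h.sub _ (Or.inl h.m2)).1 fun w ha => ?_
    rcases n1 h33.sym1 h' h ha with e | e | ⟨e | e, f | f⟩
    · exact Or.inl e
    · exact Or.inr (Or.inl e)
    · exact absurd (q12 w f e).symm ha.ne
    · exact absurd e (h'.TQ _ f)
    · exact absurd e (h.PT _ f)
    · exact Or.inr (Or.inr (hmT w e))
  · refine deg4 hG (h.sub _ (Or.inl h.m4)).1 fun w ha => ?_
    rcases n4 h33 h h' ha with e | e | ⟨e | e, f | f⟩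
    · exact Or.inl e
    · exact Or.inr (Or.inl e)
    · exact absurd (q11 w e f).symm ha.ne
    · exact absurd f (h.PT _ e)
    · exact absurd e (h'.PT _ f)
    · exact Or.inr (Or.inr (hmT w e))
  · intro w ha
    rcases n3 h33 h h' ha with e | e | e | e | ⟨e | e, f | f⟩
    · exact Or.inl e
    · exact Or.inr (Or.inl e)
    · exact Or.inr (Or.inr (Or.inl e))
    · exact Or.inr (Or.inr (Or.inr (Or.inl e)))
    · exact absurd (q22 w e f).symm ha.ne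
    · exact absurd e (h.TQ _ f)
    · exact absurd f (h'.TQ _ e)
    · exact Or.inr (Or.inr (Or.inr (Or.inr (hmT w e))))

/-- one common vertex -/
theorem case1 (hFRG : SpecFRG) (hXCB : SpecXCB) (hG : K48 G) (h33 : P33 G x y s₁ s₂ s₃ s₄)
    (h13 : G.Adj s₁ s₃) (h23 : G.Adj s₂ s₃)
    (h : Half G x y s₁ s₂ s₃ s₄ T P Q) (h' : Half G y x s₂ s₁ s₃ s₄ T' P' Q')
    (e12 : P ∩ Q' = {s₂}) (e21 : P' ∩ Q = {s₁}) (e22 : Q ∩ Q' = {s₃}) (c d d' : α)
    (hTT : T ∩ T' = {c}) (hTP : T ∩ P' = {d}) (hTQ : T ∩ Q' = ∅) (hTP' : T' ∩ P = {d'}) (hTQ' : T' ∩ Q = ∅) :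
    XB1 G x y s₁ s₂ s₃ s₄ c d d' (P ∩ P') := by
  obtain ⟨nxy, nx1, nx2, nx3, nx4, ny1, ny2, ny3, ny4, n12, n13, n14, n23, n24, n34⟩ := nes h33
  have q12 : ∀ w, w ∈ P → w ∈ Q' → w = s₂ := fun w a b => by
    have : w ∈ P ∩ Q' := mem_inter.2 ⟨a, b⟩
    rw [e12] at this; exact mem_singleton.1 this
  have q21 : ∀ w, w ∈ Q → w ∈ P' → w = s₁ := fun w a b => by
    have : w ∈ P' ∩ Q := mem_inter.2 ⟨b, a⟩
    rw [e21] at this; exact mem_singleton.1 this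
  have q22 : ∀ w, w ∈ Q → w ∈ Q' → w = s₃ := fun w a b => by
    have : w ∈ Q ∩ Q' := mem_inter.2 ⟨a, b⟩
    rw [e22] at this; exact mem_singleton.1 this
  have qtt : ∀ w, w ∈ T → w ∈ T' → w = c := fun w a b => by
    have : w ∈ T ∩ T' := mem_inter.2 ⟨a, b⟩
    rw [hTT] at this; exact mem_singleton.1 this
  have qtp : ∀ w, w ∈ T → w ∈ P' → w = d := fun w a b => by
    have : w ∈ T ∩ P' := mem_inter.2 ⟨a, b⟩
    rw [hTP] at this; exact mem_singleton.1 this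
  have qtq : ∀ w, w ∈ T → w ∈ Q' → False := fun w a b => by
    have : w ∈ T ∩ Q' := mem_inter.2 ⟨a, b⟩
    rw [hTQ] at this; simp at this
  have qpt : ∀ w, w ∈ P → w ∈ T' → w = d' := fun w a b => by
    have : w ∈ T' ∩ P := mem_inter.2 ⟨b, a⟩
    rw [hTP'] at this; exact mem_singleton.1 this
  have qqt : ∀ w, w ∈ Q → w ∈ T' → False := fun w a b => by
    have : w ∈ T' ∩ Q := mem_inter.2 ⟨b, a⟩
    rw [hTQ'] at this; simp at this
  have hcm : c ∈ T ∧ c ∈ T' := mem_inter.1 (by rw [hTT]; simp)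
  have hdm : d ∈ T ∧ d ∈ P' := mem_inter.1 (by rw [hTP]; simp)
  have hdm' : d' ∈ T' ∧ d' ∈ P := mem_inter.1 (by rw [hTP']; simp)
  have hcs := h.sub c (Or.inr (Or.inl hcm.1))
  have hds := h.sub d (Or.inr (Or.inl hdm.1))
  have hds' := h.sub d' (Or.inl hdm'.2)
  have hneT : ∀ v ∈ T, v ≠ s₁ ∧ v ≠ s₂ ∧ v ≠ s₃ ∧ v ≠ s₄ := fun v hv =>
    ⟨fun e => h.TQ _ hv (e ▸ h.m1), fun e => h.PT _ h.m2 (e ▸ hv), fun e => h.TQ _ hv (e ▸ h.m3),
      fun e => h.PT _ h.m4 (e ▸ hv)⟩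
  have hneT' : ∀ v ∈ T', v ≠ s₁ ∧ v ≠ s₂ ∧ v ≠ s₃ ∧ v ≠ s₄ := fun v hv =>
    ⟨fun e => h'.PT _ h'.m2 (e ▸ hv), fun e => h'.TQ _ hv (e ▸ h'.m1), fun e => h'.TQ _ hv (e ▸ h'.m3),
      fun e => h'.PT _ h'.m4 (e ▸ hv)⟩
  have hc4 := hneT c hcm.1
  have hd4 := hneT d hdm.1
  have hd4' := hneT' d' hdm'.1
  have hcd : c ≠ d := fun e => h'.PT _ hdm.2 (e ▸ hcm.2)
  have hcd' : c ≠ d' := fun e => h.PT _ hdm'.2 (e ▸ hcm.1)
  have hdd' : d ≠ d' := fun e => h.PT _ hdm'.2 (e ▸ hdm.1)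
  -- the neighbours
  have N3 : ∀ w, G.Adj s₃ w → w = x ∨ w = y ∨ w = s₁ ∨ w = s₂ ∨ w = c := by
    intro w ha
    rcases n3 h33 h h' ha with e | e | e | e | ⟨e | e, f | f⟩
    · exact Or.inl e
    · exact Or.inr (Or.inl e)
    · exact Or.inr (Or.inr (Or.inl e))
    · exact Or.inr (Or.inr (Or.inr (Or.inl e)))
    · exact absurd (q22 w e f).symm ha.ne
    · exact absurd (qqt _ e f) id
    · exact absurd (qtq _ e f) id
    · exact Or.inr (Or.inr (Or.inr (Or.inr (qtt w e f))))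
  have h3c : G.Adj s₃ c := by
    obtain ⟨w, hw, hw'⟩ := hXCB.s3 hG h33
    simp only [mem_insert, mem_singleton, not_or] at hw'
    rcases N3 w hw with e | e | e | e | e
    · exact absurd e hw'.1
    · exact absurd e hw'.2.1
    · exact absurd e hw'.2.2.1
    · exact absurd e hw'.2.2.2.1
    · exact e ▸ hw
  have N2 : ∀ w, G.Adj s₂ w → w = x ∨ w = s₃ ∨ w = c ∨ w = d' := by
    intro w ha
    rcases n1 h33.sym1 h' h ha with e | e | ⟨e | e, f | f⟩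
    · exact Or.inl e
    · exact Or.inr (Or.inl e)
    · exact absurd (q12 w f e).symm ha.ne
    · exact absurd (qtq w f e) id
    · exact Or.inr (Or.inr (Or.inr (qpt w f e)))
    · exact Or.inr (Or.inr (Or.inl (qtt w f e)))
  have N1 : ∀ w, G.Adj s₁ w → w = y ∨ w = s₃ ∨ w = c ∨ w = d := by
    intro w ha
    rcases n1 h33 h h' ha with e | e | ⟨e | e, f | f⟩
    · exact Or.inl e
    · exact Or.inr (Or.inl e)
    · exact absurd (q21 w e f).symm ha.ne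
    · exact absurd (qqt w e f) id
    · exact Or.inr (Or.inr (Or.inr (qtp w e f)))
    · exact Or.inr (Or.inr (Or.inl (qtt w e f)))
  have hDsub : P ∩ P' ⊆ VS G := fun v hv => (h.sub v (Or.inl (mem_inter.1 hv).1)).1
  have h4D : s₄ ∈ P ∩ P' := mem_inter.2 ⟨h.m4, h'.m4⟩
  refine ⟨?_, ?_, ?_, ?_, ?_, h4D, ?_, ?_⟩
  · simp only [List.nodup_cons, List.mem_cons, List.not_mem_nil, or_false, not_or, List.nodup_nil, and_true,
      not_false_eq_true]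
    exact ⟨⟨nxy, nx1, nx2, nx3, nx4, hcs.2.1.symm, hds.2.1.symm, hds'.2.1.symm⟩, ⟨ny1, ny2, ny3, ny4, hcs.2.2.symm,
      hds.2.2.symm, hds'.2.2.symm⟩, ⟨n12, n13, n14, hc4.1.symm, hd4.1.symm, hd4'.1.symm⟩,
      ⟨n23, n24, hc4.2.1.symm, hd4.2.1.symm, hd4'.2.1.symm⟩,
      ⟨n34, hc4.2.2.1.symm, hd4.2.2.1.symm, hd4'.2.2.1.symm⟩,
      ⟨hc4.2.2.2.symm, hd4.2.2.2.symm, hd4'.2.2.2.symm⟩, ⟨hcd, hcd'⟩, hdd'⟩
  · intro w
    constructor
    · exact N3 w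
    · rintro (rfl | rfl | rfl | rfl | rfl)
      · exact ((h33.nx _).2 (Or.inr (Or.inr (Or.inl rfl)))).symm
      · exact ((h33.ny _).2 (Or.inr (Or.inr (Or.inl rfl)))).symm
      · exact h13.symm
      · exact h23.symm
      · exact h3c
  · exact deg4 hG.1 (h.sub _ (Or.inl h.m2)).1 N2
  · exact deg4 hG.1 (h.sub _ (Or.inr (Or.inr h.m1))).1 N1
  · -- connected
    have hr : ∀ u ∈ P ∩ P', (del G (univ \ (P ∩ P'))).Reachable u s₄ := by
      intro u hu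
      by_contra hnr
      classical
      refine hFRG.few (D := (P ∩ P').filter fun v => (del G (univ \ (P ∩ P'))).Reachable u v)
        (W := {c, d, d'}) (r := s₄) hG.1 ((filter_subset _ _).trans hDsub)
        ⟨u, mem_filter.2 ⟨hu, Reachable.refl _⟩⟩ ?_ card_le_three (hDsub h4D) (fun e => hnr (mem_filter.1 e).2) ?_
      · intro w hw
        obtain ⟨hwD, v, hv, ha⟩ := mem_NB.1 hw
        rw [mem_filter] at hv hwD
        have hv4 : v ≠ s₄ := fun e => hnr (e ▸ hv.2)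
        have hv1 := mem_inter.1 hv.1
        have hwn : ¬ (w ∈ P ∧ w ∈ P') := by
          intro hh
          refine hwD ⟨mem_inter.2 hh, hv.2.trans ?_⟩
          apply Adj.reachable
          refine ⟨ha, ?_, ?_⟩
          · simp only [mem_sdiff, mem_univ, true_and, not_not]; exact hv.1
          · simp only [mem_sdiff, mem_univ, true_and, not_not]; exact mem_inter.2 hh
        simp only [mem_insert, mem_singleton]
        rcases nb11 h33 h h' hv1.1 hv1.2 hv4 ha hwn with e | e | e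
        · exact Or.inr (Or.inl (qtp w e.1 e.2))
        · exact Or.inr (Or.inr (qpt w e.2 e.1))
        · exact Or.inl (qtt w e.1 e.2)
      · simp only [mem_insert, mem_singleton, not_or]
        exact ⟨hc4.2.2.2.symm, hd4.2.2.2.symm, hd4'.2.2.2.symm⟩
    exact ⟨⟨s₄, h4D⟩, fun u hu v hv => (hr u hu).trans (hr v hv).symm⟩
  · intro w hw hwD
    rw [mem_inter] at hwD
    simp only [mem_insert, mem_singleton] at hw
    rcases hw with rfl | rfl | rfl | rfl | rfl | rfl | rfl | rfl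
    · exact (h.sub _ (Or.inl hwD.1)).2.1 rfl
    · exact (h.sub _ (Or.inl hwD.1)).2.2 rfl
    · exact h.PQ _ hwD.1 h.m1
    · exact h'.PQ _ hwD.2 h'.m1
    · exact h.PQ _ hwD.1 h.m3
    · exact h.PT _ hwD.1 hcm.1
    · exact h.PT _ hwD.1 hdm.1
    · exact h'.PT _ hwD.2 hdm'.1
  · -- a neighbour of `d'` in `P ∩ P'`
    by_contra hno
    push Not at hno
    have h1 : nbs G d' ⊆ {s₂, c, d} := by
      intro w hw
      have ha := mem_nbs.1 hw
      simp only [mem_insert, mem_singleton]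
      have h6 := gen h33 h h' hds'.2.1 hds'.2.2 hd4'.1 hd4'.2.1 hd4'.2.2.1 hd4'.2.2.2 ha
      have hwV := right_mem_VS ha
      rcases h6.2.2.1 hdm'.2 with e | e
      · rcases h'.part w hwV h6.2.1 h6.1 with f | f | f
        · exact absurd ha (hno w (mem_inter.2 ⟨e, f⟩))
        · exact absurd (qpt w e f).symm ha.ne
        · exact Or.inl (q12 w e f)
      · rcases h'.part w hwV h6.2.1 h6.1 with f | f | f
        · exact Or.inr (Or.inr (qtp w e f))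
        · exact Or.inr (Or.inl (qtt w e f))
        · exact absurd (qtq w e f) id
    have h2 := (hG.1.le_nbs hds'.1).trans ((card_le_card h1).trans card_le_three)
    omega

/-- no common vertex: ten vertices -/
theorem case0 (h33 : P33 G x y s₁ s₂ s₃ s₄)
    (h : Half G x y s₁ s₂ s₃ s₄ T P Q) (h' : Half G y x s₂ s₁ s₃ s₄ T' P' Q')
    (e12 : P ∩ Q' = {s₂}) (e21 : P' ∩ Q = {s₁}) (e22 : Q ∩ Q' = {s₃}) (e11 : P ∩ P' = {s₄}) (c d c' d' : α)
    (hTT : T ∩ T' = ∅) (hTP : T ∩ P' = {c}) (hTQ : T ∩ Q' = {d}) (hTP' : T' ∩ P = {c'}) (hTQ' : T' ∩ Q = {d'}) :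
    ¬ NP G := by
  obtain ⟨nxy, nx1, nx2, nx3, nx4, ny1, ny2, ny3, ny4, n12, n13, n14, n23, n24, n34⟩ := nes h33
  have q12 : ∀ w, w ∈ P → w ∈ Q' → w = s₂ := fun w a b => by
    have : w ∈ P ∩ Q' := mem_inter.2 ⟨a, b⟩
    rw [e12] at this; exact mem_singleton.1 this
  have q21 : ∀ w, w ∈ Q → w ∈ P' → w = s₁ := fun w a b => by
    have : w ∈ P' ∩ Q := mem_inter.2 ⟨b, a⟩
    rw [e21] at this; exact mem_singleton.1 this
  have q22 : ∀ w, w ∈ Q → w ∈ Q' → w = s₃ := fun w a b => by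
    have : w ∈ Q ∩ Q' := mem_inter.2 ⟨a, b⟩
    rw [e22] at this; exact mem_singleton.1 this
  have q11 : ∀ w, w ∈ P → w ∈ P' → w = s₄ := fun w a b => by
    have : w ∈ P ∩ P' := mem_inter.2 ⟨a, b⟩
    rw [e11] at this; exact mem_singleton.1 this
  have qtt : ∀ w, w ∈ T → w ∈ T' → False := fun w a b => by
    have : w ∈ T ∩ T' := mem_inter.2 ⟨a, b⟩
    rw [hTT] at this; simp at this
  have qtp : ∀ w, w ∈ T → w ∈ P' → w = c := fun w a b => by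
    have : w ∈ T ∩ P' := mem_inter.2 ⟨a, b⟩
    rw [hTP] at this; exact mem_singleton.1 this
  have qtq : ∀ w, w ∈ T → w ∈ Q' → w = d := fun w a b => by
    have : w ∈ T ∩ Q' := mem_inter.2 ⟨a, b⟩
    rw [hTQ] at this; exact mem_singleton.1 this
  have qpt : ∀ w, w ∈ P → w ∈ T' → w = c' := fun w a b => by
    have : w ∈ T' ∩ P := mem_inter.2 ⟨b, a⟩
    rw [hTP'] at this; exact mem_singleton.1 this
  have qqt : ∀ w, w ∈ Q → w ∈ T' → w = d' := fun w a b => by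
    have : w ∈ T' ∩ Q := mem_inter.2 ⟨b, a⟩
    rw [hTQ'] at this; exact mem_singleton.1 this
  have hcm : c ∈ T ∧ c ∈ P' := mem_inter.1 (by rw [hTP]; simp)
  have hdm : d ∈ T ∧ d ∈ Q' := mem_inter.1 (by rw [hTQ]; simp)
  have hcm' : c' ∈ T' ∧ c' ∈ P := mem_inter.1 (by rw [hTP']; simp)
  have hdm' : d' ∈ T' ∧ d' ∈ Q := mem_inter.1 (by rw [hTQ']; simp)
  have hcs := h.sub c (Or.inr (Or.inl hcm.1))
  have hds := h.sub d (Or.inr (Or.inl hdm.1))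
  have hcs' := h.sub c' (Or.inl hcm'.2)
  have hds' := h.sub d' (Or.inr (Or.inr hdm'.2))
  have hneT : ∀ v ∈ T, v ≠ s₁ ∧ v ≠ s₂ ∧ v ≠ s₃ ∧ v ≠ s₄ := fun v hv =>
    ⟨fun e => h.TQ _ hv (e ▸ h.m1), fun e => h.PT _ h.m2 (e ▸ hv), fun e => h.TQ _ hv (e ▸ h.m3),
      fun e => h.PT _ h.m4 (e ▸ hv)⟩
  have hneT' : ∀ v ∈ T', v ≠ s₁ ∧ v ≠ s₂ ∧ v ≠ s₃ ∧ v ≠ s₄ := fun v hv =>
    ⟨fun e => h'.PT _ h'.m2 (e ▸ hv), fun e => h'.TQ _ hv (e ▸ h'.m1), fun e => h'.TQ _ hv (e ▸ h'.m3),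
      fun e => h'.PT _ h'.m4 (e ▸ hv)⟩
  have hc4 := hneT c hcm.1
  have hd4 := hneT d hdm.1
  have hc4' := hneT' c' hcm'.1
  have hd4' := hneT' d' hdm'.1
  have hcd : c ≠ d := fun e => h'.PQ _ hcm.2 (e ▸ hdm.2)
  have hcc' : c ≠ c' := fun e => qtt _ hcm.1 (e ▸ hcm'.1)
  have hcd' : c ≠ d' := fun e => qtt _ hcm.1 (e ▸ hdm'.1)
  have hdc' : d ≠ c' := fun e => qtt _ hdm.1 (e ▸ hcm'.1)
  have hdd' : d ≠ d' := fun e => qtt _ hdm.1 (e ▸ hdm'.1)
  have hcd'' : c' ≠ d' := fun e => h.PQ _ hcm'.2 (e ▸ hdm'.2)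
  have N1 : ∀ w, G.Adj s₁ w → w = y ∨ w = s₃ ∨ w = c ∨ w = d' := by
    intro w ha
    rcases n1 h33 h h' ha with e | e | ⟨e | e, f | f⟩
    · exact Or.inl e
    · exact Or.inr (Or.inl e)
    · exact absurd (q21 w e f).symm ha.ne
    · exact Or.inr (Or.inr (Or.inr (qqt w e f)))
    · exact Or.inr (Or.inr (Or.inl (qtp w e f)))
    · exact absurd (qtt w e f) id
  have N2 : ∀ w, G.Adj s₂ w → w = x ∨ w = s₃ ∨ w = d ∨ w = c' := by
    intro w ha
    rcases n1 h33.sym1 h' h ha with e | e | ⟨e | e, f | f⟩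
    · exact Or.inl e
    · exact Or.inr (Or.inl e)
    · exact absurd (q12 w f e).symm ha.ne
    · exact Or.inr (Or.inr (Or.inl (qtq w f e)))
    · exact Or.inr (Or.inr (Or.inr (qpt w f e)))
    · exact absurd (qtt w f e) id
  have N3 : ∀ w, G.Adj s₃ w → w = x ∨ w = y ∨ w = s₁ ∨ w = s₂ ∨ w = d ∨ w = d' := by
    intro w ha
    rcases n3 h33 h h' ha with e | e | e | e | ⟨e | e, f | f⟩
    · exact Or.inl e
    · exact Or.inr (Or.inl e)
    · exact Or.inr (Or.inr (Or.inl e))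
    · exact Or.inr (Or.inr (Or.inr (Or.inl e)))
    · exact absurd (q22 w e f).symm ha.ne
    · exact Or.inr (Or.inr (Or.inr (Or.inr (Or.inr (qqt _ e f)))))
    · exact Or.inr (Or.inr (Or.inr (Or.inr (Or.inl (qtq _ e f)))))
    · exact absurd (qtt w e f) id
  have N4 : ∀ w, G.Adj s₄ w → w = x ∨ w = y ∨ w = c ∨ w = c' := by
    intro w ha
    rcases n4 h33 h h' ha with e | e | ⟨e | e, f | f⟩
    · exact Or.inl e
    · exact Or.inr (Or.inl e)
    · exact absurd (q11 w e f).symm ha.ne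
    · exact Or.inr (Or.inr (Or.inr (qpt _ e f)))
    · exact Or.inr (Or.inr (Or.inl (qtp _ e f)))
    · exact absurd (qtt w e f) id
  have Nc : ∀ w, G.Adj c w → w = s₄ ∨ w = s₁ ∨ w = c' ∨ w = d' := by
    intro w ha
    have h6 := gen h33 h h' hcs.2.1 hcs.2.2 hc4.1 hc4.2.1 hc4.2.2.1 hc4.2.2.2 ha
    have hwV := right_mem_VS ha
    rcases h6.2.2.2.2.1 hcm.2 with f | f
    · rcases h.part w hwV h6.1 h6.2.1 with e | e | e
      · exact Or.inl (q11 w e f)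
      · exact absurd (qtp w e f).symm ha.ne
      · exact Or.inr (Or.inl (q21 w e f))
    · rcases h.part w hwV h6.1 h6.2.1 with e | e | e
      · exact Or.inr (Or.inr (Or.inl (qpt w e f)))
      · exact absurd (qtt w e f) id
      · exact Or.inr (Or.inr (Or.inr (qqt w e f)))
  have Nd : ∀ w, G.Adj d w → w = s₂ ∨ w = s₃ ∨ w = c' ∨ w = d' := by
    intro w ha
    have h6 := gen h33 h h' hds.2.1 hds.2.2 hd4.1 hd4.2.1 hd4.2.2.1 hd4.2.2.2 ha
    have hwV := right_mem_VS ha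
    rcases h6.2.2.2.2.2 hdm.2 with f | f
    · rcases h.part w hwV h6.1 h6.2.1 with e | e | e
      · exact Or.inl (q12 w e f)
      · exact absurd (qtq w e f).symm ha.ne
      · exact Or.inr (Or.inl (q22 w e f))
    · rcases h.part w hwV h6.1 h6.2.1 with e | e | e
      · exact Or.inr (Or.inr (Or.inl (qpt w e f)))
      · exact absurd (qtt w e f) id
      · exact Or.inr (Or.inr (Or.inr (qqt w e f)))
  have Nc' : ∀ w, G.Adj c' w → w = s₄ ∨ w = s₂ ∨ w = c ∨ w = d := by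
    intro w ha
    have h6 := gen h33 h h' hcs'.2.1 hcs'.2.2 hc4'.1 hc4'.2.1 hc4'.2.2.1 hc4'.2.2.2 ha
    have hwV := right_mem_VS ha
    rcases h6.2.2.1 hcm'.2 with e | e
    · rcases h'.part w hwV h6.2.1 h6.1 with f | f | f
      · exact Or.inl (q11 w e f)
      · exact absurd (qpt w e f).symm ha.ne
      · exact Or.inr (Or.inl (q12 w e f))
    · rcases h'.part w hwV h6.2.1 h6.1 with f | f | f
      · exact Or.inr (Or.inr (Or.inl (qtp w e f)))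
      · exact absurd (qtt w e f) id
      · exact Or.inr (Or.inr (Or.inr (qtq w e f)))
  have Nd' : ∀ w, G.Adj d' w → w = s₁ ∨ w = s₃ ∨ w = c ∨ w = d := by
    intro w ha
    have h6 := gen h33 h h' hds'.2.1 hds'.2.2 hd4'.1 hd4'.2.1 hd4'.2.2.1 hd4'.2.2.2 ha
    have hwV := right_mem_VS ha
    rcases h6.2.2.2.1 hdm'.2 with e | e
    · rcases h'.part w hwV h6.2.1 h6.1 with f | f | f
      · exact Or.inl (q21 w e f)
      · exact absurd (qqt w e f).symm ha.ne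
      · exact Or.inr (Or.inl (q22 w e f))
    · rcases h'.part w hwV h6.2.1 h6.1 with f | f | f
      · exact Or.inr (Or.inr (Or.inl (qtp w e f)))
      · exact absurd (qtt w e f) id
      · exact Or.inr (Or.inr (Or.inr (qtq w e f)))
  refine PLCM.plan10 (x := x) (y := y) (s1 := s₁) (s2 := s₂) (s3 := s₃) (s4 := s₄) (c := c) (c' := c') (d := d)
    (d' := d') ?_ ?_
  · simp only [List.nodup_cons, List.mem_cons, List.not_mem_nil, or_false, not_or, List.nodup_nil, and_true,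
      not_false_eq_true]
    exact ⟨⟨nxy, nx1, nx2, nx3, nx4, hcs.2.1.symm, hcs'.2.1.symm, hds.2.1.symm, hds'.2.1.symm⟩,
      ⟨ny1, ny2, ny3, ny4, hcs.2.2.symm, hcs'.2.2.symm, hds.2.2.symm, hds'.2.2.symm⟩,
      ⟨n12, n13, n14, hc4.1.symm, hc4'.1.symm, hd4.1.symm, hd4'.1.symm⟩,
      ⟨n23, n24, hc4.2.1.symm, hc4'.2.1.symm, hd4.2.1.symm, hd4'.2.1.symm⟩,
      ⟨n34, hc4.2.2.1.symm, hc4'.2.2.1.symm, hd4.2.2.1.symm, hd4'.2.2.1.symm⟩,
      ⟨hc4.2.2.2.symm, hc4'.2.2.2.symm, hd4.2.2.2.symm, hd4'.2.2.2.symm⟩, ⟨hcc', hcd, hcd'⟩,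
      ⟨hdc'.symm, hcd''⟩, hdd'⟩
  · intro a b ha
    have haV := left_mem_VS ha
    have hcls : a = x ∨ a = y ∨ a = s₁ ∨ a = s₂ ∨ a = s₃ ∨ a = s₄ ∨ a = c ∨ a = d ∨ a = c' ∨ a = d' := by
      by_cases hax : a = x
      · exact Or.inl hax
      by_cases hay : a = y
      · exact Or.inr (Or.inl hay)
      rcases h.part a haV hax hay with e | e | e <;> rcases h'.part a haV hay hax with f | f | f
      · rw [q11 a e f]; simp
      · rw [qpt a e f]; simp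
      · rw [q12 a e f]; simp
      · rw [qtp a e f]; simp
      · exact absurd (qtt a e f) id
      · rw [qtq a e f]; simp
      · rw [q21 a e f]; simp
      · rw [qqt a e f]; simp
      · rw [q22 a e f]; simp
    clear e12 e21 e22 e11 hTT hTP hTQ hTP' hTQ'
    rcases hcls with rfl | rfl | rfl | rfl | rfl | rfl | rfl | rfl | rfl | rfl
    · rcases (h33.nx b).1 ha with rfl | rfl | rfl | rfl <;> simp
    · rcases (h33.ny b).1 ha with rfl | rfl | rfl | rfl <;> simp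
    · rcases N1 b ha with rfl | rfl | rfl | rfl <;> simp
    · rcases N2 b ha with rfl | rfl | rfl | rfl <;> simp
    · rcases N3 b ha with rfl | rfl | rfl | rfl | rfl | rfl <;> simp
    · rcases N4 b ha with rfl | rfl | rfl | rfl <;> simp
    · rcases Nc b ha with rfl | rfl | rfl | rfl <;> simp
    · rcases Nd b ha with rfl | rfl | rfl | rfl <;> simp
    · rcases Nc' b ha with rfl | rfl | rfl | rfl <;> simp
    · rcases Nd' b ha with rfl | rfl | rfl | rfl <;> simp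

end two

end XF4M

open XF4M in
theorem specXF4 (hFRG : SpecFRG) (hXCB : SpecXCB) : SpecXF4 := by
  intro α _ _ G x y s₁ s₂ s₃ s₄ hG hNP h33 h13 h23 _ _ hMy hMx
  obtain ⟨T, P, Q, h⟩ := half_of_MY h33 hMx
  obtain ⟨T', P', Q', h'⟩ := half_of_MY h33.sym1 hMy
  have c1 := split h h'
  have c2 := split h' h
  have c3 : T' ∩ T = T ∩ T' := inter_comm _ _
  rw [c3] at c2
  have i1 := i11 hFRG hG.1 h33 h h'
  have i2 := i12 hFRG hG.1 h33 h h'
  have i3 := i12 hFRG hG.1 h33.sym1 h' h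
  rw [c3] at i3
  have e12 := s12 hFRG hG.1 h33 h h' (by omega)
  have e21 := s12 hFRG hG.1 h33.sym1 h' h (by rw [c3]; omega)
  by_cases hb2 : (T ∩ T').card = 2
  · right
    exact case2 hFRG hG.1 h33 h h' e12 e21 (s11 hFRG hG.1 h33 h h' (by omega))
      (s22 hFRG hG.1 h33 h h' (by omega)) hb2
  by_cases hb1 : (T ∩ T').card = 1
  · left
    obtain ⟨c, hc⟩ := card_eq_one.1 hb1
    obtain ⟨d, hd⟩ := card_eq_one.1 (show (T ∩ P').card = 1 by omega)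
    obtain ⟨d', hd'⟩ := card_eq_one.1 (show (T' ∩ P).card = 1 by omega)
    exact ⟨c, d, d', _, case1 hFRG hXCB hG h33 h13 h23 h h' e12 e21
      (s22 hFRG hG.1 h33 h h' (by omega)) c d d' hc hd (card_eq_zero.1 (by omega)) hd'
      (card_eq_zero.1 (by omega))⟩
  exfalso
  have hb0 : (T ∩ T').card = 0 := by omega
  have e22 := s22 hFRG hG.1 h33 h h' (by omega)
  by_cases ha : (T ∩ P').card = 2
  · obtain ⟨w, hw, hw'⟩ := hXCB.s3 hG h33
    simp only [mem_insert, mem_singleton, not_or] at hw'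
    have z1 : T ∩ Q' = ∅ := card_eq_zero.1 (by omega)
    have z2 : T' ∩ Q = ∅ := card_eq_zero.1 (by omega)
    have z3 : T ∩ T' = ∅ := card_eq_zero.1 (by omega)
    rcases n3 h33 h h' hw with e | e | e | e | ⟨e | e, f | f⟩
    · exact hw'.1 e
    · exact hw'.2.1 e
    · exact hw'.2.2.1 e
    · exact hw'.2.2.2.1 e
    · have : w ∈ Q ∩ Q' := mem_inter.2 ⟨e, f⟩
      rw [e22] at this
      exact hw.ne (mem_singleton.1 this).symm
    · have : w ∈ T' ∩ Q := mem_inter.2 ⟨f, e⟩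
      rw [z2] at this
      simp at this
    · have : w ∈ T ∩ Q' := mem_inter.2 ⟨e, f⟩
      rw [z1] at this
      simp at this
    · have : w ∈ T ∩ T' := mem_inter.2 ⟨e, f⟩
      rw [z3] at this
      simp at this
  · obtain ⟨c, hc⟩ := card_eq_one.1 (show (T ∩ P').card = 1 by omega)
    obtain ⟨d, hd⟩ := card_eq_one.1 (show (T ∩ Q').card = 1 by omega)
    obtain ⟨c', hc'⟩ := card_eq_one.1 (show (T' ∩ P).card = 1 by omega)
    obtain ⟨d', hd'⟩ := card_eq_one.1 (show (T' ∩ Q).card = 1 by omega)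
    exact case0 h33 h h' e12 e21 e22 (s11 hFRG hG.1 h33 h h' (by omega)) c d c' d'
      (card_eq_zero.1 hb0) hc hd hc' hd' hNP

end DL
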