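import Pool.Agent.DL.E.Spec2
import Pool.Agent.DL.G4.C20

/-!
# MP_3ff0f8_gt, EXIST section 2, module XL2 (helper23): (K2)
-/

open SimpleGraph Finset

namespace DL.XL2M

open C20M

set_option linter.unusedSectionVars false

variable {α : Type} [Fintype α] [DecidableEq α] {G : SimpleGraph α} {x y s₁ s₂ s₃ s₄ : α}

/-! ## Tree paths -/

theorem tpq (hTRE : SpecTRE) {s t a b : α} {P Q : Finset (Sym2 α)} (hP : IsPth G s t P)
    (ha : a ∈ insert s (vs P)) (hb : b ∈ insert s (vs P)) (hQ : IsPth G a b Q) (hQP : Q ⊆ P) :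
    tp (fromEdgeSet (P : Set (Sym2 α))) a b = Q := by
  symm
  refine (hTRE.tp (hTRE.pth hP).1 a ha b hb).2 Q (hQ.transfer fun e he => ?_)
  rw [edgeSet_fromEdgeSet]
  exact ⟨hQP he, fun h => hQ.not_isDiag e he (by simpa using h)⟩

theorem vs_tp (hTRE : SpecTRE) {T : SimpleGraph α} {X : Finset α} {a b : α} (hT : TreeOn T X)
    (ha : a ∈ X) (hb : b ∈ X) : vs (tp T a b) ⊆ X := by
  intro v hv
  obtain ⟨e, he, hve⟩ := mem_vs.1 hv
  have h1 := (hTRE.tp hT a ha b hb).1.subset e he
  obtain ⟨w, rfl⟩ := Sym2.mem_iff_exists.1 hve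
  exact hT.inX v w h1

theorem st2 {β : Type} [DecidableEq β] (a b c d t : β) (A1 A2 B : Finset β) :
    ({a, b, c, d} ∪ ({t} ∪ A1 ∪ (B ∪ A2) ∪ ∅) : Finset β) =
      {d, a, t, b} ∪ insert c (A1 ∪ A2) ∪ B := by
  ext e
  simp only [mem_insert, mem_union, mem_singleton, notMem_empty, or_false]
  constructor
  · rintro ((h | h | h | h) | ((h | h) | (h | h))) <;> simp only [h, true_or, or_true]
  · rintro (((h | h | h | h) | (h | h | h)) | h) <;> simp only [h, true_or, or_true]

theorem st3 {β : Type} [DecidableEq β] (a b c d : β) (A1 A2 B : Finset β) :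
    ({a, b, c, d} ∪ (∅ ∪ A1 ∪ (B ∪ A2) ∪ ∅) : Finset β) =
      {d, a, b} ∪ insert c (A1 ∪ A2) ∪ B := by
  ext e
  simp only [mem_insert, mem_union, mem_singleton, notMem_empty, or_false, false_or]
  constructor
  · rintro ((h | h | h | h) | (h | (h | h))) <;> simp only [h, true_or, or_true]
  · rintro (((h | h | h) | (h | h | h)) | h) <;> simp only [h, true_or, or_true]

theorem un4 {β : Type} [DecidableEq β] (E : Fin 4 → β) (P : Fin 4 → Finset β) :
    univ.image E ∪ univ.biUnion P = {E 0, E 1, E 2, E 3} ∪ (P 0 ∪ P 1 ∪ P 2 ∪ P 3) := by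
  ext x
  constructor
  · intro h
    rw [mem_union, mem_image, mem_biUnion] at h
    rcases h with ⟨i, _, rfl⟩ | ⟨i, _, hi⟩
    · fin_cases i <;> simp
    · fin_cases i <;> simp at hi <;> simp [hi]
  · intro h
    rw [mem_union, mem_image, mem_biUnion]
    simp only [mem_insert, mem_union, mem_singleton] at h
    rcases h with (rfl | rfl | rfl | rfl) | (((h | h) | h) | h)
    · exact Or.inl ⟨0, mem_univ _, rfl⟩
    · exact Or.inl ⟨1, mem_univ _, rfl⟩
    · exact Or.inl ⟨2, mem_univ _, rfl⟩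
    · exact Or.inl ⟨3, mem_univ _, rfl⟩
    · exact Or.inr ⟨0, mem_univ _, h⟩
    · exact Or.inr ⟨1, mem_univ _, h⟩
    · exact Or.inr ⟨2, mem_univ _, h⟩
    · exact Or.inr ⟨3, mem_univ _, h⟩

/-- the cube -/
def cube : Bool × Bool × Bool × Bool ≃ (Fin 4 → Bool) where
  toFun x := ![x.1, x.2.1, x.2.2.1, x.2.2.2]
  invFun e := (e 0, e 1, e 2, e 3)
  left_inv _ := rfl
  right_inv e := by
    funext i
    fin_cases i <;> rfl

theorem sum16 (H : (Fin 4 → Bool) → ZMod 2) :
    ∑ e : Fin 4 → Bool, H e = ∑ b0 : Bool, ∑ b1 : Bool, ∑ b2 : Bool, ∑ b3 : Bool, H ![b0, b1, b2, b3] := by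
  rw [← cube.sum_comp H]
  simp only [Fintype.sum_prod_type]
  rfl

/-- only two of the sixteen terms are not zero -/
theorem two_terms {H : (Fin 4 → Bool) → ZMod 2} (h0 : ∑ e : Fin 4 → Bool, H e = 0)
    (h3 : ∀ e, e 3 = true → H e = 0) (h2 : ∀ e, e 3 = false → e 2 = true → H e = 0)
    (h1 : ∀ e, e 3 = false → e 2 = false → e 1 = false → H e = 0) :
    H ![false, true, false, false] = H ![true, true, false, false] := by
  rw [sum16] at h0
  simp only [Fintype.sum_bool] at h0
  simp only [h3 ![_, _, _, true] rfl, h2 ![_, _, true, false] rfl rfl,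
    h1 ![_, false, false, false] rfl rfl rfl, add_zero, zero_add] at h0
  generalize H ![false, true, false, false] = a at h0 ⊢
  generalize H ![true, true, false, false] = b at h0 ⊢
  revert a b
  decide

/-! ## The configuration -/

/-- the ear and the pieces -/
structure Cfg (G : SimpleGraph α) (x y s₁ s₂ s₃ s₄ p q r' a' : α)
    (A B A1 A2 B2 R : Finset (Sym2 α)) : Prop where
  h : P33 G x y s₁ s₂ s₃ s₄
  h23 : G.Adj s₂ s₃
  kA : IsPth (del G {x, y, s₃}) s₂ s₁ A
  kB : IsPth (del G {x, y, s₃}) s₁ s₄ B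
  d : vs A ∩ vs B ⊆ {s₁}
  kA1 : IsPth (del G {x, y, s₃}) s₂ q A1
  kA2 : IsPth (del G {x, y, s₃}) a' s₁ A2
  hA : A = insert s(q, a') (A1 ∪ A2)
  qa : G.Adj q a'
  q2 : q ∉ vs A2
  q1 : q ≠ s₁
  A12 : ∀ z ∈ vs A1, z ∈ vs A2 → False
  s1A1 : s₁ ∉ vs A1
  kB2 : IsPth (del G {x, y, s₃}) p s₄ B2
  hB2 : B2 ⊆ B
  p1 : p ≠ s₁
  s1B2 : s₁ ∉ vs B2
  pB : p ∈ vs B
  qA : q ∈ vs A
  kR : IsPth (del G {x, y, s₁, s₃}) r' q R
  rp : G.Adj r' p
  r1 : r' ∉ ({x, y, s₁, s₃} : Finset α)
  RA : ∀ z ∈ insert r' (vs R), z ∈ vs A → z = q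
  RB : ∀ z ∈ insert r' (vs R), z ∉ vs B

variable {p q r' a' : α} {A B A1 A2 B2 R : Finset (Sym2 α)}

theorem exists_cfg (hC20 : SpecC20) (hG : K48 G) (h : P33 G x y s₁ s₂ s₃ s₄) (h23 : G.Adj s₂ s₃)
    (hA : IsPth (del G {x, y, s₃}) s₂ s₁ A) (hB : IsPth (del G {x, y, s₃}) s₁ s₄ B)
    (hd : vs A ∩ vs B ⊆ {s₁}) :
    ∃ p q r' a' A1 A2 B2 R, Cfg G x y s₁ s₂ s₃ s₄ p q r' a' A B A1 A2 B2 R := by
  have d := ds h
  have hconn := (hC20.two hG h).2.2.1
  have hr := hconn s₄ (vsub h (by simp)) s₂ (vsub h (by simp)) (by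
    simp only [mem_insert, mem_singleton, not_or]
    exact ⟨d.x4.symm, d.y4.symm, d.s14.symm, d.s34.symm⟩) (by
    simp only [mem_insert, mem_singleton, not_or]
    exact ⟨d.x2.symm, d.y2.symm, d.s12.symm, d.s23⟩)
  obtain ⟨P, hP⟩ := exists_isPth hr
  have h4B : s₄ ∈ vs B := hB.right_mem d.s14
  have h1B : s₁ ∈ vs B := hB.left_mem d.s14
  have h2A : s₂ ∈ vs A := hA.left_mem d.s12.symm
  have h1A : s₁ ∈ vs A := hA.right_mem d.s12.symm
  obtain ⟨p, q, Q, hp, hq, hQ, hQP, -, hQp, hQq⟩ := hP.trim (A := (vs B).erase s₁)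
    (B := (vs A).erase s₁) (mem_erase.2 ⟨d.s14.symm, h4B⟩) (mem_erase.2 ⟨d.s12.symm, h2A⟩)
  rw [mem_erase] at hp hq
  have hQd : ∀ z ∈ insert p (vs Q), z ∉ ({x, y, s₁, s₃} : Finset α) := by
    intro z hz
    have hz' := hQP hz
    rw [mem_insert] at hz'
    rcases hz' with rfl | hz'
    · simp only [mem_insert, mem_singleton, not_or]
      exact ⟨d.x4.symm, d.y4.symm, d.s14.symm, d.s34.symm⟩
    · exact Finset.disjoint_left.1 (vs_of_isPth_del hP) hz'
  have hpq : p ≠ q := by
    rintro rfl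
    have := hd (mem_inter.2 ⟨hq.2, hp.2⟩)
    rw [mem_singleton] at this
    exact hp.1 this
  obtain ⟨r', hpr, hprQ, hpn, hR⟩ := hQ.uncons hpq
  have hr'Q : r' ∈ vs Q := right_mem_vs hprQ
  have sub1 : ∀ z ∈ insert r' (vs (Q \ {s(p, r')})), z ∈ vs Q := by
    intro z hz
    rw [mem_insert] at hz
    rcases hz with rfl | hz
    · exact hr'Q
    · exact vs_mono sdiff_subset hz
  have np : ∀ z ∈ insert r' (vs (Q \ {s(p, r')})), z ≠ p := by
    intro z hz
    rw [mem_insert] at hz
    rintro rfl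
    rcases hz with hz | hz
    · exact hpr.ne hz
    · exact hpn hz
  -- splitting `A` at `q`
  obtain ⟨A1, A2', hA1, hA2', hAu, hAd, hAi⟩ := hA.split (v := q) (Or.inr hq.2)
  obtain ⟨a', hqa, hqaA, hqn, hA2⟩ := hA2'.uncons hq.1
  -- splitting `B` at `p`
  obtain ⟨B1, B2, hB1, hB2, hBu, hBd, hBi⟩ := hB.split (v := p) (Or.inr hp.2)
  refine ⟨p, q, r', a', A1, A2' \ {s(q, a')}, B2, Q \ {s(p, r')}, ?_⟩
  refine ⟨h, h23, hA, hB, hd, hA1, hA2, ?_, hqa.1, hqn, hq.1, ?_, ?_, hB2, ?_, hp.1, ?_, hp.2, hq.2,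
    hR, hpr.1.symm, hQd r' (mem_insert_of_mem hr'Q), ?_, ?_⟩
  · rw [← hAu]
    ext e
    simp only [mem_insert, mem_union, mem_sdiff, mem_singleton]
    constructor
    · rintro (h1 | h1)
      · exact Or.inr (Or.inl h1)
      · by_cases he : e = s(q, a')
        · exact Or.inl he
        · exact Or.inr (Or.inr ⟨h1, he⟩)
    · rintro (rfl | h1 | h1)
      · exact Or.inr hqaA
      · exact Or.inl h1
      · exact Or.inr h1.1
  · intro z hz1 hz2
    have := hAi (mem_inter.2 ⟨hz1, vs_mono sdiff_subset hz2⟩)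
    rw [mem_singleton] at this
    exact hqn (this ▸ hz2)
  · intro h1
    have := hAi (mem_inter.2 ⟨h1, hA2'.right_mem hq.1⟩)
    rw [mem_singleton] at this
    exact hq.1 this.symm
  · rw [← hBu]; exact subset_union_right
  · intro h1
    have := hBi (mem_inter.2 ⟨hB1.left_mem hp.1.symm, h1⟩)
    rw [mem_singleton] at this
    exact hp.1 this.symm
  · intro z hz hzA
    refine hQq z (mem_insert_of_mem (sub1 z hz)) (mem_erase.2 ⟨?_, hzA⟩)
    rintro rfl
    exact hQd _ (mem_insert_of_mem (sub1 _ hz)) (by simp)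
  · intro z hz hzB
    refine np z hz (hQp z (mem_insert_of_mem (sub1 z hz)) (mem_erase.2 ⟨?_, hzB⟩))
    rintro rfl
    exact hQd _ (mem_insert_of_mem (sub1 _ hz)) (by simp)

namespace Cfg

variable (c : Cfg G x y s₁ s₂ s₃ s₄ p q r' a' A B A1 A2 B2 R)
include c

theorem offA {z : α} (hz : z ∈ vs A) : z ≠ x ∧ z ≠ y ∧ z ≠ s₃ := by
  have := Finset.disjoint_left.1 (vs_of_isPth_del c.kA) hz
  simpa only [mem_insert, mem_singleton, not_or] using this

theorem offB {z : α} (hz : z ∈ vs B) : z ≠ x ∧ z ≠ y ∧ z ≠ s₃ := by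
  have := Finset.disjoint_left.1 (vs_of_isPth_del c.kB) hz
  simpa only [mem_insert, mem_singleton, not_or] using this

theorem A1A : vs A1 ⊆ vs A := by
  rw [c.hA]
  exact vs_mono (subset_trans subset_union_left (subset_insert _ _))

theorem A2A : vs A2 ⊆ vs A := by
  rw [c.hA]
  exact vs_mono (subset_trans subset_union_right (subset_insert _ _))

theorem a'A : a' ∈ vs A := by
  rw [c.hA]
  exact right_mem_vs (mem_insert_self _ _)

theorem a'q : a' ≠ q := c.qa.ne'

theorem offR {z : α} (hz : z ∈ insert r' (vs R)) : z ≠ x ∧ z ≠ y ∧ z ≠ s₁ ∧ z ≠ s₃ := by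
  rw [mem_insert] at hz
  rcases hz with rfl | hz
  · have := c.r1
    simpa only [mem_insert, mem_singleton, not_or] using this
  · have := Finset.disjoint_left.1 (vs_of_isPth_del c.kR) hz
    simpa only [mem_insert, mem_singleton, not_or] using this

/-- the path of `X 2` -/
theorem P2 : IsPth G r' s₂ (R ∪ A1) := by
  have h1 : IsPth G r' q R := c.kR.mono (del_le _ _)
  have h2 : IsPth G s₂ q A1 := c.kA1.mono (del_le _ _)
  refine h1.append h2.symm ?_
  intro z hz
  rw [mem_inter] at hz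
  rw [mem_singleton]
  exact c.RA z (mem_insert_of_mem hz.1) (c.A1A hz.2)

/-- the path of `X 3` -/
theorem P3 : IsPth G s₄ a' (B ∪ A2) := by
  have h1 : IsPth G s₁ s₄ B := c.kB.mono (del_le _ _)
  have h2 : IsPth G a' s₁ A2 := c.kA2.mono (del_le _ _)
  refine h1.symm.append h2.symm ?_
  intro z hz
  rw [mem_inter] at hz
  exact c.d (mem_inter.2 ⟨c.A2A hz.2, hz.1⟩)

theorem s2A : s₂ ∈ vs A := c.kA.left_mem (ds c.h).s12.symm
theorem s4B : s₄ ∈ vs B := c.kB.right_mem (ds c.h).s14
theorem s1B : s₁ ∈ vs B := c.kB.left_mem (ds c.h).s14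
theorem s1A : s₁ ∈ vs A := c.kA.right_mem (ds c.h).s12.symm

/-- membership in `X 2` -/
theorem X2 {z : α} (hz : z ∈ insert r' (vs (R ∪ A1))) :
    z ∈ insert r' (vs R) ∨ z ∈ vs A1 := by
  rw [mem_insert, mem_vs_union] at hz
  rw [mem_insert]
  tauto

theorem X3 {z : α} (hz : z ∈ insert s₄ (vs (B ∪ A2))) : z ∈ vs B ∨ z ∈ vs A2 := by
  rw [mem_insert, mem_vs_union] at hz
  rcases hz with rfl | hz
  · exact Or.inl c.s4B
  · exact hz

theorem off2 {z : α} (hz : z ∈ insert r' (vs (R ∪ A1))) : z ≠ x ∧ z ≠ y ∧ z ≠ s₁ ∧ z ≠ s₃ := by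
  rcases c.X2 hz with h | h
  · exact c.offR h
  · have := c.offA (c.A1A h)
    refine ⟨this.1, this.2.1, ?_, this.2.2⟩
    rintro rfl
    exact c.s1A1 h

theorem off3 {z : α} (hz : z ∈ insert s₄ (vs (B ∪ A2))) : z ≠ x ∧ z ≠ y ∧ z ≠ s₃ := by
  rcases c.X3 hz with h | h
  · exact c.offB h
  · exact c.offA (c.A2A h)

theorem dis {z : α} (h2 : z ∈ insert r' (vs (R ∪ A1))) (h3 : z ∈ insert s₄ (vs (B ∪ A2))) : False := by
  rcases c.X3 h3 with h | h
  · rcases c.X2 h2 with h' | h'
    · exact c.RB z h' h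
    · have := c.d (mem_inter.2 ⟨c.A1A h', h⟩)
      rw [mem_singleton] at this
      exact c.s1A1 (this ▸ h')
  · rcases c.X2 h2 with h' | h'
    · exact c.q2 (c.RA z h' (c.A2A h) ▸ h)
    · exact c.A12 z h' h

end Cfg

section minor

variable (c : Cfg G x y s₁ s₂ s₃ s₄ p q r' a' A B A1 A2 B2 R)

/-- the vertex sets -/
def XX (x y s₃ s₄ r' : α) (A2 B A1 R : Finset (Sym2 α)) : Fin 4 → Finset α :=
  ![{y}, {x, s₃}, insert r' (vs (R ∪ A1)), insert s₄ (vs (B ∪ A2))]

/-- the trees -/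
def TT (x s₃ : α) (A2 B A1 R : Finset (Sym2 α)) : Fin 4 → SimpleGraph α :=
  ![⊥, fromEdgeSet (({s(x, s₃)} : Finset (Sym2 α)) : Set (Sym2 α)),
    fromEdgeSet ((R ∪ A1 : Finset (Sym2 α)) : Set (Sym2 α)),
    fromEdgeSet ((B ∪ A2 : Finset (Sym2 α)) : Set (Sym2 α))]

/-- the starts of the beads -/
def pp (x y s₁ s₃ s₄ q r' : α) : Fin 4 → Bool → α :=
  ![fun _ => y, fun b => if b then s₃ else x, fun b => if b then r' else q, fun b => if b then s₁ else s₄]

/-- the ends of the beads -/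
def qq (x y s₂ s₃ p a' : α) : Fin 4 → Bool → α :=
  ![fun b => if b then s₃ else x, fun _ => s₂, fun b => if b then p else a', fun _ => y]

include c

theorem trees (hTRE : SpecTRE) (i : Fin 4) :
    TreeOn (TT x s₃ A2 B A1 R i) (XX x y s₃ s₄ r' A2 B A1 R i) := by
  have d := ds c.h
  fin_cases i
  · exact (hTRE.single y).1
  · have h1 := (hTRE.pth (IsPth.edge (ax3 c.h))).1
    have h2 : insert x (vs ({s(x, s₃)} : Finset (Sym2 α))) = {x, s₃} := by
      rw [vs_singleton]
      simp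
    rw [h2] at h1
    exact h1
  · exact (hTRE.pth c.P2).1
  · exact (hTRE.pth c.P3).1

theorem exists_minor (hTRE : SpecTRE) : ∃ D : D4M G, D.X = XX x y s₃ s₄ r' A2 B A1 R ∧
    D.T = TT x s₃ A2 B A1 R ∧ D.p = pp x y s₁ s₃ s₄ q r' ∧ D.q = qq x y s₂ s₃ p a' := by
  have d := ds c.h
  have m2 : q ∈ insert r' (vs (R ∪ A1)) := by
    have := c.kR.end_mem
    rw [mem_insert] at this
    rw [mem_insert, mem_vs_union]
    tauto
  have m2' : s₂ ∈ insert r' (vs (R ∪ A1)) := c.P2.end_mem
  have m3 : a' ∈ insert s₄ (vs (B ∪ A2)) := c.P3.end_mem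
  have m3p : p ∈ insert s₄ (vs (B ∪ A2)) := mem_insert_of_mem (vs_mono subset_union_left c.pB)
  have m31 : s₁ ∈ insert s₄ (vs (B ∪ A2)) := mem_insert_of_mem (vs_mono subset_union_left c.s1B)
  have hdis : ∀ i j, i < j → Disjoint (XX x y s₃ s₄ r' A2 B A1 R i) (XX x y s₃ s₄ r' A2 B A1 R j) := by
    intro i j hij
    rw [Finset.disjoint_left]
    intro z hz hz'
    fin_cases i <;> fin_cases j <;> first | exact absurd hij (by decide) | skip
    · change z ∈ ({y} : Finset α) at hz
      change z ∈ ({x, s₃} : Finset α) at hz'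
      rw [mem_singleton] at hz
      rw [hz] at hz'
      simp only [mem_insert, mem_singleton] at hz'
      rcases hz' with h | h
      · exact d.xy h.symm
      · exact d.y3 h
    · change z ∈ ({y} : Finset α) at hz
      rw [mem_singleton] at hz
      exact (c.off2 hz').2.1 hz
    · change z ∈ ({y} : Finset α) at hz
      rw [mem_singleton] at hz
      exact (c.off3 hz').2.1 hz
    · change z ∈ ({x, s₃} : Finset α) at hz
      rw [mem_insert, mem_singleton] at hz
      rcases hz with h | h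
      · exact (c.off2 hz').1 h
      · exact (c.off2 hz').2.2.2 h
    · change z ∈ ({x, s₃} : Finset α) at hz
      rw [mem_insert, mem_singleton] at hz
      rcases hz with h | h
      · exact (c.off3 hz').1 h
      · exact (c.off3 hz').2.2 h
    · exact c.dis hz hz'
  have hsub : ∀ i, TT x s₃ A2 B A1 R i ≤ G := by
    intro i
    fin_cases i
    · exact bot_le
    · intro u v huv
      have h1 : (fromEdgeSet (({s(x, s₃)} : Finset (Sym2 α)) : Set (Sym2 α))).Adj u v := huv
      rw [fromEdgeSet_adj, coe_singleton, Set.mem_singleton_iff] at h1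
      rw [← mem_edgeSet, h1.1]
      exact ax3 c.h
    · intro u v huv
      have h1 : (fromEdgeSet ((R ∪ A1 : Finset (Sym2 α)) : Set (Sym2 α))).Adj u v := huv
      rw [fromEdgeSet_adj, mem_coe] at h1
      exact c.P2.adj_of_mem h1.1
    · intro u v huv
      have h1 : (fromEdgeSet ((B ∪ A2 : Finset (Sym2 α)) : Set (Sym2 α))).Adj u v := huv
      rw [fromEdgeSet_adj, mem_coe] at h1
      exact c.P3.adj_of_mem h1.1
  refine ⟨{ X := XX x y s₃ s₄ r' A2 B A1 R
            disj := fun i j hij => ?_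
            T := TT x s₃ A2 B A1 R
            sub := hsub
            inX := fun i => (trees c hTRE i).inX
            conn := fun i => (trees c hTRE i).conn
            acyc := fun i => (trees c hTRE i).acyc
            p := pp x y s₁ s₃ s₄ q r'
            q := qq x y s₂ s₃ p a'
            pX := ?_
            qX := ?_
            adj := ?_
            ne := ?_ }, rfl, rfl, rfl, rfl⟩
  · rcases lt_or_gt_of_ne hij with h | h
    · exact hdis i j h
    · exact (hdis j i h).symm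
  · intro i b
    fin_cases i
    · exact mem_singleton_self _
    · cases b
      · exact mem_insert_self _ _
      · exact mem_insert_of_mem (mem_singleton_self _)
    · cases b
      · exact m2
      · exact mem_insert_self _ _
    · cases b
      · exact mem_insert_self _ _
      · exact m31
  · intro i b
    fin_cases i
    · cases b
      · exact mem_insert_self _ _
      · exact mem_insert_of_mem (mem_singleton_self _)
    · exact m2'
    · cases b
      · exact m3
      · exact m3p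
    · exact mem_singleton_self _
  · intro i b
    fin_cases i
    · cases b
      · exact (axy c.h).symm
      · exact ay3 c.h
    · cases b
      · exact ax2 c.h
      · exact c.h23.symm
    · cases b
      · exact c.qa
      · exact c.rp
    · cases b
      · exact (ay4 c.h).symm
      · exact (ay1 c.h).symm
  · intro i
    fin_cases i
    · show s(y, x) ≠ s(y, s₃)
      intro h
      exact d.x3 (Sym2.congr_right.1 h)
    · show s(x, s₂) ≠ s(s₃, s₂)
      intro h
      exact d.x3 (Sym2.congr_left.1 h)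
    · show s(q, a') ≠ s(r', p)
      intro h
      rw [Sym2.eq_iff] at h
      rcases h with ⟨h1, h2⟩ | ⟨h1, h2⟩
      · have e1 := c.d (mem_inter.2 ⟨c.a'A, h2 ▸ c.pB⟩)
        rw [mem_singleton] at e1
        exact c.p1 (h2.symm.trans e1)
      · have e1 := c.d (mem_inter.2 ⟨c.qA, h1 ▸ c.pB⟩)
        rw [mem_singleton] at e1
        exact c.q1 e1
    · show s(s₄, y) ≠ s(s₁, y)
      intro h
      exact d.s14 (Sym2.congr_left.1 h).symm

end minor

end DL.XL2M

namespace DL

open C20M XL2M in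
theorem specXL2 (hTRE : SpecTRE) (hDCB : SpecDCB) (hC20 : SpecC20) : SpecXL2 := by
  intro α _ _ G x y s₁ s₂ s₃ s₄ f A B hK hPP
  have h := hK.p33
  have d := ds h
  obtain ⟨p, q, r', a', A1, A2, B2, R, c⟩ := exists_cfg hC20 hK.k48 h hK.h hPP.a hPP.b hPP.d
  obtain ⟨D, hX, hT, hp, hq⟩ := exists_minor c hTRE
  have tr := trees c hTRE
  -- the cycles
  have hcyc : ∀ e : Fin 4 → Bool, D.cyc e =
      {s(y, if e 0 then s₃ else x), s(if e 1 then s₃ else x, s₂),
        s(if e 2 then r' else q, if e 2 then p else a'), s(if e 3 then s₁ else s₄, y)} ∪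
      (tp (fromEdgeSet (({s(x, s₃)} : Finset (Sym2 α)) : Set (Sym2 α))) (if e 0 then s₃ else x)
          (if e 1 then s₃ else x) ∪
        tp (fromEdgeSet ((R ∪ A1 : Finset (Sym2 α)) : Set (Sym2 α))) s₂ (if e 2 then r' else q) ∪
        tp (fromEdgeSet ((B ∪ A2 : Finset (Sym2 α)) : Set (Sym2 α))) (if e 2 then p else a')
          (if e 3 then s₁ else s₄) ∪ ∅) := by
    intro e
    have h1 : D.cyc e = _ := un4 (fun i => s(D.p i (e i), D.q i (e i)))
      (fun i => tp (D.T (i + 1)) (D.q i (e i)) (D.p (i + 1) (e (i + 1))))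
    rw [h1, hT, hp, hq]
    have h2 : tp (⊥ : SimpleGraph α) y y = ∅ := (hTRE.single y).2
    rw [← h2]
    rfl
  have hC := fun e => (hDCB.cyc D e).1
  have hsum := hK.ev D
  -- the three families
  have h3 : ∀ e, e 3 = true → f (D.cyc e) = 0 := by
    intro e he
    refine hK.ze _ ⟨hC e, fun _ _ => ?_⟩
    rw [hcyc e, he, Sym2.eq_swap]
    simp
  have m3 : a' ∈ insert s₄ (vs (B ∪ A2)) := c.P3.end_mem
  have m3p : p ∈ insert s₄ (vs (B ∪ A2)) := mem_insert_of_mem (vs_mono subset_union_left c.pB)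
  have m2 : q ∈ insert r' (vs (R ∪ A1)) := by
    have := c.kR.end_mem
    rw [mem_insert] at this
    rw [mem_insert, mem_vs_union]
    tauto
  have m2' : s₂ ∈ insert r' (vs (R ∪ A1)) := c.P2.end_mem
  have t1 : ∀ e : Fin 4 → Bool, vs (tp (fromEdgeSet (({s(x, s₃)} : Finset (Sym2 α)) : Set (Sym2 α)))
      (if e 0 then s₃ else x) (if e 1 then s₃ else x)) ⊆ {x, s₃} := by
    intro e
    have := tr 1
    refine vs_tp hTRE this ?_ ?_
    · show (if e 0 then s₃ else x) ∈ ({x, s₃} : Finset α)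
      split <;> simp
    · show (if e 1 then s₃ else x) ∈ ({x, s₃} : Finset α)
      split <;> simp
  have t2 : ∀ e : Fin 4 → Bool, vs (tp (fromEdgeSet ((R ∪ A1 : Finset (Sym2 α)) : Set (Sym2 α)))
      s₂ (if e 2 then r' else q)) ⊆ insert r' (vs (R ∪ A1)) := by
    intro e
    have := tr 2
    refine vs_tp hTRE this m2' ?_
    show (if e 2 then r' else q) ∈ insert r' (vs (R ∪ A1))
    split
    · exact mem_insert_self _ _
    · exact m2
  have t3p : tp (fromEdgeSet ((B ∪ A2 : Finset (Sym2 α)) : Set (Sym2 α))) p s₄ = B2 :=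
    tpq hTRE c.P3 m3p (mem_insert_self _ _) (c.kB2.mono (del_le _ _)) (c.hB2.trans subset_union_left)
  have t3a : tp (fromEdgeSet ((B ∪ A2 : Finset (Sym2 α)) : Set (Sym2 α))) a' s₄ = B ∪ A2 :=
    tpq hTRE c.P3 m3 (mem_insert_self _ _) c.P3.symm (Subset.refl _)
  have t2q : tp (fromEdgeSet ((R ∪ A1 : Finset (Sym2 α)) : Set (Sym2 α))) s₂ q = A1 :=
    tpq hTRE c.P2 m2' m2 (c.kA1.mono (del_le _ _)) subset_union_right
  have h2 : ∀ e, e 3 = false → e 2 = true → f (D.cyc e) = 0 := by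
    intro e he3 he2
    refine hK.ze _ ⟨hC e, fun _ h1 => ?_⟩
    exfalso
    rw [hcyc e, he3, he2] at h1
    simp only [if_true, Bool.false_eq_true, if_false, union_empty] at h1
    rw [mem_vs_union, mem_vs_union, mem_vs_union, t3p] at h1
    rcases h1 with h1 | (h1 | h1) | h1
    · obtain ⟨e', he', h1e⟩ := mem_vs.1 h1
      simp only [mem_insert, mem_singleton] at he'
      rcases he' with rfl | rfl | rfl | rfl <;> rw [Sym2.mem_iff] at h1e <;> rcases h1e with h2 | h2
      · exact d.y1 h2.symm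
      · split at h2
        · exact d.s13 h2
        · exact d.x1 h2.symm
      · split at h2
        · exact d.s13 h2
        · exact d.x1 h2.symm
      · exact d.s12 h2
      · exact (c.offR (mem_insert_self _ _)).2.2.1 h2.symm
      · exact c.p1 h2.symm
      · exact d.s14 h2
      · exact d.y1 h2.symm
    · have := t1 e h1
      simp only [mem_insert, mem_singleton] at this
      rcases this with h2 | h2
      · exact d.x1 h2.symm
      · exact d.s13 h2
    · have h2 := t2 e
      rw [he2] at h2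
      simp only [if_true] at h2
      exact (c.off2 (h2 h1)).2.2.1 rfl
    · exact c.s1B2 h1
  have h1 : ∀ e, e 3 = false → e 2 = false → e 1 = false → f (D.cyc e) = 0 := by
    intro e he3 he2 he1
    refine hK.zh _ (hC e) fun hmem => ?_
    rw [hcyc e, he3, he2, he1] at hmem
    simp only [Bool.false_eq_true, if_false, union_empty] at hmem
    rw [mem_union, mem_union, mem_union, t3a, t2q] at hmem
    rcases hmem with h1 | (h1 | h1) | h1
    · simp only [mem_insert, mem_singleton] at h1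
      rcases h1 with h2 | h2 | h2 | h2
      · rw [Sym2.eq_iff] at h2
        rcases h2 with h2 | h2
        · exact d.y2 h2.1.symm
        · exact d.y3 h2.2.symm
      · rw [Sym2.eq_iff] at h2
        rcases h2 with h2 | h2
        · exact d.x2 h2.1.symm
        · exact d.x3 h2.2.symm
      · have : s₃ ∈ ({q, a'} : Finset α) := by
          rw [Sym2.eq_iff] at h2
          simp only [mem_insert, mem_singleton]
          tauto
        simp only [mem_insert, mem_singleton] at this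
        rcases this with h3 | h3
        · exact (c.offA c.qA).2.2 h3.symm
        · exact (c.offA c.a'A).2.2 h3.symm
      · rw [Sym2.eq_iff] at h2
        rcases h2 with h2 | h2
        · exact d.y3 h2.2.symm
        · exact d.y2 h2.1.symm
    · have h3 := t1 e
      rw [he1] at h3
      simp only [Bool.false_eq_true, if_false] at h3
      have h4 := h3 (left_mem_vs h1)
      simp only [mem_insert, mem_singleton] at h4
      rcases h4 with h2 | h2
      · exact d.x2 h2.symm
      · exact d.s23 h2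
    · exact (c.offA (c.A1A (right_mem_vs h1))).2.2 rfl
    · rw [mem_union] at h1
      rcases h1 with h1 | h1
      · exact (c.offB (right_mem_vs h1)).2.2 rfl
      · exact (c.offA (c.A2A (right_mem_vs h1))).2.2 rfl
  have key := two_terms (H := fun e => f (D.cyc e)) hsum h3 h2 h1
  have txs : tp (fromEdgeSet (({s(x, s₃)} : Finset (Sym2 α)) : Set (Sym2 α))) x s₃ = {s(x, s₃)} :=
    tpq hTRE (IsPth.edge (ax3 h)) (mem_insert_self _ _)
      (mem_insert_of_mem (right_mem_vs (mem_singleton_self _))) (IsPth.edge (ax3 h)) (Subset.refl _)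
  have tss : tp (fromEdgeSet (({s(x, s₃)} : Finset (Sym2 α)) : Set (Sym2 α))) s₃ s₃ = ∅ :=
    tpq hTRE (IsPth.edge (ax3 h)) (mem_insert_of_mem (right_mem_vs (mem_singleton_self _)))
      (mem_insert_of_mem (right_mem_vs (mem_singleton_self _))) (IsPth.nil s₃) (empty_subset _)
  have e2 : D.cyc ![false, true, false, false] = cy2 x y s₂ s₃ s₄ A B := by
    have h1 := hcyc ![false, true, false, false]
    have h2 : D.cyc ![false, true, false, false] =
      {s(y, x), s(s₃, s₂), s(q, a'), s(s₄, y)} ∪ (tp (fromEdgeSet (({s(x, s₃)} : Finset (Sym2 α)) :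
        Set (Sym2 α))) x s₃ ∪ tp (fromEdgeSet ((R ∪ A1 : Finset (Sym2 α)) : Set (Sym2 α))) s₂ q ∪
        tp (fromEdgeSet ((B ∪ A2 : Finset (Sym2 α)) : Set (Sym2 α))) a' s₄ ∪ ∅) := h1
    rw [h2, txs, t2q, t3a, c.hA]
    exact st2 _ _ _ _ _ _ _ _
  have e3 : D.cyc ![true, true, false, false] = cy3 y s₂ s₃ s₄ A B := by
    have h1 := hcyc ![true, true, false, false]
    have h2 : D.cyc ![true, true, false, false] =
      {s(y, s₃), s(s₃, s₂), s(q, a'), s(s₄, y)} ∪ (tp (fromEdgeSet (({s(x, s₃)} : Finset (Sym2 α)) :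
        Set (Sym2 α))) s₃ s₃ ∪ tp (fromEdgeSet ((R ∪ A1 : Finset (Sym2 α)) : Set (Sym2 α))) s₂ q ∪
        tp (fromEdgeSet ((B ∪ A2 : Finset (Sym2 α)) : Set (Sym2 α))) a' s₄ ∪ ∅) := h1
    rw [h2, tss, t2q, t3a, c.hA]
    exact st3 _ _ _ _ _ _ _
  rw [← e2, ← e3]
  exact key

end DL
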