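import Pool.Agent.DL.E.Spec2
import Pool.Agent.DL.TREE

/-!
# MP_3ff0f8_gt, EXIST section 2: module XL4 (helper46): (K4)
-/

open SimpleGraph Finset

namespace DL

set_option linter.unusedSectionVars false

namespace XL4M

variable {α : Type} [Fintype α] [DecidableEq α] {G : SimpleGraph α}

theorem un4 {β : Type} [DecidableEq β] (E : Fin 4 → β) (P : Fin 4 → Finset β) :
    univ.image E ∪ univ.biUnion P =
      {E 0} ∪ {E 1} ∪ {E 2} ∪ {E 3} ∪ P 0 ∪ P 1 ∪ P 2 ∪ P 3 := by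
  ext x
  constructor
  · intro h
    rw [mem_union, mem_image, mem_biUnion] at h
    rcases h with ⟨i, _, rfl⟩ | ⟨i, _, hi⟩
    · fin_cases i <;> simp
    · fin_cases i <;> simp at hi <;> simp [hi]
  · intro h
    rw [mem_union, mem_image, mem_biUnion]
    simp only [mem_union, mem_singleton] at h
    rcases h with (((((((rfl | rfl) | rfl) | rfl) | h) | h) | h) | h)
    · exact Or.inl ⟨0, mem_univ _, rfl⟩
    · exact Or.inl ⟨1, mem_univ _, rfl⟩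
    · exact Or.inl ⟨2, mem_univ _, rfl⟩
    · exact Or.inl ⟨3, mem_univ _, rfl⟩
    · exact Or.inr ⟨0, mem_univ _, h⟩
    · exact Or.inr ⟨1, mem_univ _, h⟩
    · exact Or.inr ⟨2, mem_univ _, h⟩
    · exact Or.inr ⟨3, mem_univ _, h⟩

/-- the cube -/
def cube : Bool × Bool × Bool × Bool ≃ (Fin 4 → Bool) where
  toFun x := ![x.1, x.2.1, x.2.2.1, x.2.2.2]
  invFun e := (e 0, e 1, e 2, e 3)
  left_inv _ := rfl
  right_inv e := by
    funext i
    fin_cases i <;> rfl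

theorem sum16 (H : Bool → Bool → Bool → Bool → ZMod 2) :
    ∑ e : Fin 4 → Bool, H (e 0) (e 1) (e 2) (e 3) =
      ∑ b0 : Bool, ∑ b1 : Bool, ∑ b2 : Bool, ∑ b3 : Bool, H b0 b1 b2 b3 := by
  rw [← cube.sum_comp (fun e => H (e 0) (e 1) (e 2) (e 3))]
  simp only [Fintype.sum_prod_type]
  rfl

/-- the cycles of a `D_4` minor -/
noncomputable def cyc4 (T0 T1 T2 T3 : SimpleGraph α) (p0 q0 p1 q1 p2 q2 p3 q3 : Bool → α)
    (b0 b1 b2 b3 : Bool) : Finset (Sym2 α) :=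
  {s(p0 b0, q0 b0)} ∪ {s(p1 b1, q1 b1)} ∪ {s(p2 b2, q2 b2)} ∪ {s(p3 b3, q3 b3)} ∪
    tp T1 (q0 b0) (p1 b1) ∪ tp T2 (q1 b1) (p2 b2) ∪ tp T3 (q2 b2) (p3 b3) ∪ tp T0 (q3 b3) (p0 b0)

/-- **a `D_4` minor from four trees** -/
theorem minor4 (hDCB : SpecDCB) {Y0 Y1 Y2 Y3 : Finset α} {T0 T1 T2 T3 : SimpleGraph α}
    (h0 : RTree Y0 T0) (h1 : RTree Y1 T1) (h2 : RTree Y2 T2) (h3 : RTree Y3 T3)
    (l0 : T0 ≤ G) (l1 : T1 ≤ G) (l2 : T2 ≤ G) (l3 : T3 ≤ G)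
    (d01 : Disjoint Y0 Y1) (d02 : Disjoint Y0 Y2) (d03 : Disjoint Y0 Y3) (d12 : Disjoint Y1 Y2)
    (d13 : Disjoint Y1 Y3) (d23 : Disjoint Y2 Y3) (p0 q0 p1 q1 p2 q2 p3 q3 : Bool → α)
    (hp0 : ∀ b, p0 b ∈ Y0) (hq0 : ∀ b, q0 b ∈ Y1) (hp1 : ∀ b, p1 b ∈ Y1) (hq1 : ∀ b, q1 b ∈ Y2)
    (hp2 : ∀ b, p2 b ∈ Y2) (hq2 : ∀ b, q2 b ∈ Y3) (hp3 : ∀ b, p3 b ∈ Y3) (hq3 : ∀ b, q3 b ∈ Y0)
    (a0 : ∀ b, G.Adj (p0 b) (q0 b)) (a1 : ∀ b, G.Adj (p1 b) (q1 b)) (a2 : ∀ b, G.Adj (p2 b) (q2 b))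
    (a3 : ∀ b, G.Adj (p3 b) (q3 b)) (n0 : s(p0 false, q0 false) ≠ s(p0 true, q0 true))
    (n1 : s(p1 false, q1 false) ≠ s(p1 true, q1 true))
    (n2 : s(p2 false, q2 false) ≠ s(p2 true, q2 true))
    (n3 : s(p3 false, q3 false) ≠ s(p3 true, q3 true))
    {f : Finset (Sym2 α) → ZMod 2} (hf : D4even G f) :
    (∀ b0 b1 b2 b3, IsCyc G (cyc4 T0 T1 T2 T3 p0 q0 p1 q1 p2 q2 p3 q3 b0 b1 b2 b3)) ∧
      ∑ b0 : Bool, ∑ b1 : Bool, ∑ b2 : Bool, ∑ b3 : Bool,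
        f (cyc4 T0 T1 T2 T3 p0 q0 p1 q1 p2 q2 p3 q3 b0 b1 b2 b3) = 0 := by
  let D : D4M G :=
    { X := ![Y0, Y1, Y2, Y3]
      disj := by
        intro i j hij
        fin_cases i <;> fin_cases j
        · exact absurd rfl hij
        · exact d01
        · exact d02
        · exact d03
        · exact d01.symm
        · exact absurd rfl hij
        · exact d12
        · exact d13
        · exact d02.symm
        · exact d12.symm
        · exact absurd rfl hij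
        · exact d23
        · exact d03.symm
        · exact d13.symm
        · exact d23.symm
        · exact absurd rfl hij
      T := ![T0, T1, T2, T3]
      sub := by
        intro i
        fin_cases i
        · exact l0
        · exact l1
        · exact l2
        · exact l3
      inX := by
        intro i
        fin_cases i
        · exact h0.inY
        · exact h1.inY
        · exact h2.inY
        · exact h3.inY
      conn := by
        intro i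
        fin_cases i
        · exact h0.conn
        · exact h1.conn
        · exact h2.conn
        · exact h3.conn
      acyc := by
        intro i
        fin_cases i
        · exact h0.acyc
        · exact h1.acyc
        · exact h2.acyc
        · exact h3.acyc
      p := ![p0, p1, p2, p3]
      q := ![q0, q1, q2, q3]
      pX := by
        intro i b
        fin_cases i
        · exact hp0 b
        · exact hp1 b
        · exact hp2 b
        · exact hp3 b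
      qX := by
        intro i b
        fin_cases i
        · exact hq0 b
        · exact hq1 b
        · exact hq2 b
        · exact hq3 b
      adj := by
        intro i b
        fin_cases i
        · exact a0 b
        · exact a1 b
        · exact a2 b
        · exact a3 b
      ne := by
        intro i
        fin_cases i
        · exact n0
        · exact n1
        · exact n2
        · exact n3 }
  have hD : ∀ e : Fin 4 → Bool,
      D.cyc e = cyc4 T0 T1 T2 T3 p0 q0 p1 q1 p2 q2 p3 q3 (e 0) (e 1) (e 2) (e 3) := by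
    intro e
    exact un4 (fun i => s(D.p i (e i), D.q i (e i)))
      (fun i => tp (D.T (i + 1)) (D.q i (e i)) (D.p (i + 1) (e (i + 1))))
  constructor
  · intro b0 b1 b2 b3
    have h := (hDCB.cyc D ![b0, b1, b2, b3]).1
    rw [hD] at h
    exact h
  · have h := hf D
    simp only [hD] at h
    rw [← sum16 (fun b0 b1 b2 b3 => f (cyc4 T0 T1 T2 T3 p0 q0 p1 q1 p2 q2 p3 q3 b0 b1 b2 b3))]
    exact h

/-- the tree of one edge -/
theorem rtree_edge {a b : α} (h : a ≠ b) : RTree {a, b} (gr {s(a, b)}) := by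
  have h1 := (RTree.single a).add_leaf (mem_singleton_self a)
    (by rw [mem_singleton]; exact h.symm : b ∉ ({a} : Finset α))
  rw [bot_sup_eq] at h1
  have h2 : ({a, b} : Finset α) = insert b {a} := pair_comm a b
  rw [h2]
  exact h1

theorem gr_edge_le {a b : α} (h : G.Adj a b) : gr {s(a, b)} ≤ G :=
  gr_le fun e he => by
    rw [mem_singleton] at he
    rw [he]
    exact h

theorem tp_edge {a b : α} (h : a ≠ b) : tp (gr {s(a, b)}) a b = {s(a, b)} :=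
  tp_eq (rtree_edge h).acyc (IsPth.edge (gr_adj.2 ⟨mem_singleton_self _, h⟩))

theorem tp_edge' {a b : α} (h : a ≠ b) : tp (gr {s(a, b)}) b a = {s(a, b)} := by
  rw [tp_comm (rtree_edge h).acyc, tp_edge h]

/-- the common shape of the cycles -/
noncomputable def cv (x y s₁ s₄ : α) (T0 T1 T2 : SimpleGraph α) (u v c d : α) : Finset (Sym2 α) :=
  {s(u, v)} ∪ {s(c, d)} ∪ {s(s₁, s₄)} ∪ {s(y, x)} ∪ tp T1 v c ∪ tp T2 d s₁ ∪ {s(s₄, y)} ∪ tp T0 x u

/-- the common part: the pairs `s₁s₄ | s₁y` and `yx | s₄x` -/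
theorem half (hDCB : SpecDCB) {x y s₁ s₄ : α} {f : Finset (Sym2 α) → ZMod 2} (ev : D4even G f)
    (ze : ∀ C, CycM G y s₁ C → f C = 0)
    (nx : x ≠ y) (ny4 : y ≠ s₄) (ny1 : y ≠ s₁)
    (axy : G.Adj x y) (ax4 : G.Adj x s₄) (ay4 : G.Adj y s₄) (ay1 : G.Adj y s₁) (a14 : G.Adj s₁ s₄)
    {Y0 Y1 Y2 : Finset α} {T0 T1 T2 : SimpleGraph α}
    (h0 : RTree Y0 T0) (h1 : RTree Y1 T1) (h2 : RTree Y2 T2)
    (l0 : T0 ≤ G) (l1 : T1 ≤ G) (l2 : T2 ≤ G)
    (d01 : Disjoint Y0 Y1) (d02 : Disjoint Y0 Y2) (d12 : Disjoint Y1 Y2)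
    (y0 : y ∉ Y0 ∧ s₄ ∉ Y0) (y1 : y ∉ Y1 ∧ s₄ ∉ Y1) (y2 : y ∉ Y2 ∧ s₄ ∉ Y2)
    (hx : x ∈ Y0) (hs : s₁ ∈ Y2) {u u' v v' c c' d d' : α}
    (hu : u ∈ Y0) (hu' : u' ∈ Y0) (hv : v ∈ Y1) (hv' : v' ∈ Y1) (hc : c ∈ Y1) (hc' : c' ∈ Y1)
    (hd : d ∈ Y2) (hd' : d' ∈ Y2) (a0 : G.Adj u v) (a0' : G.Adj u' v') (a1 : G.Adj c d)
    (a1' : G.Adj c' d') (n0 : s(u, v) ≠ s(u', v')) (n1 : s(c, d) ≠ s(c', d')) :
    IsCyc G (cv x y s₁ s₄ T0 T1 T2 u v c d) ∧ IsCyc G (cv x y s₁ s₄ T0 T1 T2 u v c' d') ∧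
    IsCyc G (cv x y s₁ s₄ T0 T1 T2 u' v' c d) ∧ IsCyc G (cv x y s₁ s₄ T0 T1 T2 u' v' c' d') ∧
    f (cv x y s₁ s₄ T0 T1 T2 u v c d) + f (cv x y s₁ s₄ T0 T1 T2 u v c' d') +
      f (cv x y s₁ s₄ T0 T1 T2 u' v' c d) + f (cv x y s₁ s₄ T0 T1 T2 u' v' c' d') = 0 := by
  have h3 : RTree {s₄, y} (gr {s(s₄, y)}) := rtree_edge ny4.symm
  have l3 : gr {s(s₄, y)} ≤ G := gr_edge_le ay4.symm
  have d3 : ∀ {Y : Finset α}, y ∉ Y ∧ s₄ ∉ Y → Disjoint Y {s₄, y} := by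
    intro Y h
    rw [disjoint_insert_right, disjoint_singleton_right]
    exact ⟨h.2, h.1⟩
  have m4 : s₄ ∈ ({s₄, y} : Finset α) := mem_insert_self _ _
  have my : y ∈ ({s₄, y} : Finset α) := mem_insert_of_mem (mem_singleton_self _)
  have e4y : tp (gr {s(s₄, y)}) s₄ y = {s(s₄, y)} := tp_edge ny4.symm
  have e44 : tp (gr {s(s₄, y)}) s₄ s₄ = ∅ := tp_self h3.acyc s₄
  obtain ⟨hcy, hsum⟩ := minor4 hDCB h0 h1 h2 h3 l0 l1 l2 l3 d01 d02 (d3 y0) d12 (d3 y1) (d3 y2)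
    (fun b => cond b u' u) (fun b => cond b v' v) (fun b => cond b c' c) (fun b => cond b d' d)
    (fun _ => s₁) (fun b => cond b y s₄) (fun b => cond b s₄ y) (fun _ => x)
    (Bool.forall_bool.2 ⟨hu, hu'⟩) (Bool.forall_bool.2 ⟨hv, hv'⟩) (Bool.forall_bool.2 ⟨hc, hc'⟩)
    (Bool.forall_bool.2 ⟨hd, hd'⟩) (fun _ => hs) (Bool.forall_bool.2 ⟨m4, my⟩)
    (Bool.forall_bool.2 ⟨my, m4⟩) (fun _ => hx) (Bool.forall_bool.2 ⟨a0, a0'⟩)
    (Bool.forall_bool.2 ⟨a1, a1'⟩) (Bool.forall_bool.2 ⟨a14, ay1.symm⟩)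
    (Bool.forall_bool.2 ⟨axy.symm, ax4.symm⟩) n0 n1
    (fun h => ny4 (Sym2.congr_right.1 h).symm) (fun h => ny4 (Sym2.congr_left.1 h)) ev
  -- the general cycle
  have hye : ∀ {a b : α}, a ≠ y → b ≠ y → y ∉ vs ({s(a, b)} : Finset (Sym2 α)) := by
    intro a b ha hb h
    rw [vs_singleton, mem_insert, mem_singleton] at h
    rcases h with h | h
    · exact ha h.symm
    · exact hb h.symm
  have ne0 : ∀ {z : α}, z ∈ Y0 → z ≠ y := fun hz e => y0.1 (e ▸ hz)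
  have ne1 : ∀ {z : α}, z ∈ Y1 → z ≠ y := fun hz e => y1.1 (e ▸ hz)
  have ne2 : ∀ {z : α}, z ∈ Y2 → z ≠ y := fun hz e => y2.1 (e ▸ hz)
  -- the cycles with `s₁ y`
  have z1 : ∀ (a b c₁ d₁ e g : α), IsCyc G ({s(a, b)} ∪ {s(c₁, d₁)} ∪ {s(s₁, y)} ∪ {s(e, x)} ∪
      tp T1 b c₁ ∪ tp T2 d₁ s₁ ∪ tp (gr {s(s₄, y)}) y e ∪ tp T0 x a) →
      f ({s(a, b)} ∪ {s(c₁, d₁)} ∪ {s(s₁, y)} ∪ {s(e, x)} ∪
      tp T1 b c₁ ∪ tp T2 d₁ s₁ ∪ tp (gr {s(s₄, y)}) y e ∪ tp T0 x a) = 0 := by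
    intro a b c₁ d₁ e g hC
    refine ze _ ⟨hC, fun _ _ => ?_⟩
    simp only [mem_union, mem_singleton]
    left; left; left; left; left; right
    rw [Sym2.eq_swap]
  -- the cycles with `s₁ s₄`, `s₄ x`
  have z2 : ∀ (a b c₁ d₁ : α), a ∈ Y0 → b ∈ Y1 → c₁ ∈ Y1 → d₁ ∈ Y2 →
      IsCyc G ({s(a, b)} ∪ {s(c₁, d₁)} ∪ {s(s₁, s₄)} ∪ {s(s₄, x)} ∪
      tp T1 b c₁ ∪ tp T2 d₁ s₁ ∪ tp (gr {s(s₄, y)}) s₄ s₄ ∪ tp T0 x a) →
      f ({s(a, b)} ∪ {s(c₁, d₁)} ∪ {s(s₁, s₄)} ∪ {s(s₄, x)} ∪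
      tp T1 b c₁ ∪ tp T2 d₁ s₁ ∪ tp (gr {s(s₄, y)}) s₄ s₄ ∪ tp T0 x a) = 0 := by
    intro a b c₁ d₁ ha hb hc₁ hd₁ hC
    refine ze _ ⟨hC, fun hy _ => ?_⟩
    exfalso
    simp only [mem_vs_union] at hy
    rcases hy with (((((((h | h) | h) | h) | h) | h) | h) | h)
    · exact hye (ne0 ha) (ne1 hb) h
    · exact hye (ne1 hc₁) (ne2 hd₁) h
    · exact hye ny1.symm ny4.symm h
    · exact hye ny4.symm nx h
    · exact y1.1 (h1.vs_tp hb hc₁ h)
    · exact y2.1 (h2.vs_tp hd₁ hs h)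
    · rw [e44] at h
      simp at h
    · exact y0.1 (h0.vs_tp hx ha h)
  have e1 : ∀ (a b c₁ d₁ : α), {s(a, b)} ∪ {s(c₁, d₁)} ∪ {s(s₁, s₄)} ∪ {s(y, x)} ∪
      tp T1 b c₁ ∪ tp T2 d₁ s₁ ∪ tp (gr {s(s₄, y)}) s₄ y ∪ tp T0 x a =
      cv x y s₁ s₄ T0 T1 T2 a b c₁ d₁ := by
    intro a b c₁ d₁
    rw [e4y]
    rfl
  rw [Fintype.sum_bool] at hsum
  simp only [Fintype.sum_bool] at hsum
  unfold cyc4 at hsum hcy
  simp only [cond_true, cond_false] at hsum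
  have c1 := hcy false false false false
  have c2 := hcy false true false false
  have c3 := hcy true false false false
  have c4 := hcy true true false false
  simp only [cond_true, cond_false, e1] at c1 c2 c3 c4
  refine ⟨c1, c2, c3, c4, ?_⟩
  rw [z1 u' v' c' d' s₄ s₄ (hcy true true true true), z1 u' v' c' d' y y (hcy true true true false),
    z2 u' v' c' d' hu' hv' hc' hd' (hcy true true false true),
    z1 u' v' c d s₄ s₄ (hcy true false true true), z1 u' v' c d y y (hcy true false true false),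
    z2 u' v' c d hu' hv' hc hd (hcy true false false true),
    z1 u v c' d' s₄ s₄ (hcy false true true true), z1 u v c' d' y y (hcy false true true false),
    z2 u v c' d' hu hv hc' hd' (hcy false true false true),
    z1 u v c d s₄ s₄ (hcy false false true true), z1 u v c d y y (hcy false false true false),
    z2 u v c d hu hv hc hd (hcy false false false true), e1, e1, e1, e1] at hsum
  rw [← hsum]
  ring

theorem setE1 {β : Type} [DecidableEq β] {e1 e2 e3 e4 e5 e6 : β} {A1 R A2 : Finset β} (h : e2 ∈ R) :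
    {e1} ∪ {e2} ∪ {e3} ∪ {e4} ∪ A1 ∪ (R \ {e2} ∪ A2) ∪ {e5} ∪ {e6} =
      {e5, e4, e6, e1} ∪ (A1 ∪ R ∪ A2) ∪ {e3} := by
  ext e
  simp only [mem_union, mem_insert, mem_singleton, mem_sdiff]
  by_cases he : e = e2
  · subst he
    simp [h]
  · simp only [he, or_false, not_false_eq_true, and_true]
    tauto

theorem setE2 {β : Type} [DecidableEq β] {e1 e2 e3 e4 e5 e6 : β} {A1 R A2 : Finset β} (h : e2 ∈ R) :
    {e1} ∪ {e2} ∪ {e3} ∪ {e4} ∪ (A1 ∪ R \ {e2}) ∪ A2 ∪ {e5} ∪ {e6} =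
      {e5, e4, e6, e1} ∪ (A1 ∪ R ∪ A2) ∪ {e3} := by
  rw [← setE1 h]
  simp only [union_assoc]

/-- one bead move -/
theorem move (hDCB : SpecDCB) {x y s₁ s₄ p q : α} {f : Finset (Sym2 α) → ZMod 2} (ev : D4even G f)
    (ze : ∀ C, CycM G y s₁ C → f C = 0) (zh : ∀ C, IsCyc G C → s(p, q) ∉ C → f C = 0)
    (nd : [x, y, s₁, s₄, p, q].Nodup)
    (axy : G.Adj x y) (ax4 : G.Adj x s₄) (ay4 : G.Adj y s₄) (ay1 : G.Adj y s₁) (a14 : G.Adj s₁ s₄)
    (axp : G.Adj x p) (axq : G.Adj x q) (apq : G.Adj p q) {E Q Q' : Finset (Sym2 α)}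
    (hB : Bead (del G {x, y, p, s₄}) q s₁ E Q Q') :
    f (cy2 x y q p s₄ Q {s(s₁, s₄)}) = f (cy2 x y q p s₄ Q' {s(s₁, s₄)}) := by
  simp only [List.nodup_cons, List.mem_cons, List.not_mem_nil, or_false, not_or, List.nodup_nil,
    and_true, not_false_eq_true] at nd
  obtain ⟨⟨nxy, nx1, nx4, nxp, nxq⟩, ⟨ny1, ny4, nyp, nyq⟩, ⟨n14, n1p, n1q⟩, ⟨n4p, n4q⟩, npq⟩ := nd
  obtain ⟨b, a, A1, R, R', A2, hba, hA1, hR, hR', hA2, hQ, hQ', v1, v2, v3, v4, v5, v6, v7, hRR⟩ :=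
    hB.data
  -- the neighbours
  obtain ⟨r, hbr, hr1, hr2, hr3⟩ := hR.uncons hba
  obtain ⟨r', har', hr1', hr2', hr3'⟩ := hR'.symm.uncons hba.symm
  have hA1r : IsPth (del G {x, y, p, s₄}) q r' (A1 ∪ (R' \ {s(a, r')})) :=
    hA1.append hr3'.symm ((inter_subset_inter_left (vs_mono sdiff_subset)).trans v2)
  have hRA2 : IsPth (del G {x, y, p, s₄}) r s₁ ((R \ {s(b, r)}) ∪ A2) :=
    hr3.append hA2 ((inter_subset_inter_right (vs_mono sdiff_subset)).trans v3)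
  -- where the vertices are
  have hS : ∀ {c d : α} {P : Finset (Sym2 α)}, IsPth (del G {x, y, p, s₄}) c d P → c ≠ x → c ≠ y →
      c ≠ p → c ≠ s₄ → ∀ v ∈ insert c (vs P), v ≠ x ∧ v ≠ y ∧ v ≠ p ∧ v ≠ s₄ := by
    intro c d P hP h1 h2 h3 h4 v hv
    rcases mem_insert.1 hv with rfl | hv
    · exact ⟨h1, h2, h3, h4⟩
    · have h5 := Finset.disjoint_left.1 (DL.isPth_del.1 hP).2 hv
      simp only [mem_insert, mem_singleton, not_or] at h5
      exact h5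
  have hY1 := hS hA1r (Ne.symm nxq) (Ne.symm nyq) (Ne.symm npq) (Ne.symm n4q)
  have hrS : r ≠ x ∧ r ≠ y ∧ r ≠ p ∧ r ≠ s₄ := by
    have h5 := hbr.2.2
    simp only [mem_insert, mem_singleton, not_or] at h5
    exact h5
  have hY2 := hS hRA2 hrS.1 hrS.2.1 hrS.2.2.1 hrS.2.2.2
  have hleG : ∀ {c d : α} {P : Finset (Sym2 α)}, IsPth (del G {x, y, p, s₄}) c d P → gr P ≤ G :=
    fun hP => gr_le fun e he => (DL.isPth_del.1 hP).1.subset e he
  -- disjointness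
  have hb2 : b ∉ vs A2 := fun h => hba (by
    have := v5 (mem_inter.2 ⟨by rw [mem_vs_union]; exact Or.inr (hR.left_mem hba), h⟩)
    exact mem_singleton.1 this)
  have ha1 : a ∉ vs A1 := fun h => hba (by
    have := v1 (mem_inter.2 ⟨h, hR.right_mem hba⟩)
    exact (mem_singleton.1 this).symm)
  have hin1 : ∀ z ∈ insert q (vs (A1 ∪ (R' \ {s(a, r')}))), z ≠ a ∧ (z = b ∨ z ∈ vs A1 ∨ z ∈ vs R') := by
    intro z hz
    rw [mem_insert, mem_vs_union] at hz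
    rcases hz with hz | hz | hz
    · by_cases hqb : q = b
      · exact ⟨fun e => hba (hqb.symm.trans (hz.symm.trans e)), Or.inl (hz.trans hqb)⟩
      · have h1 := hA1.left_mem hqb
        rw [← hz] at h1
        exact ⟨fun e => ha1 (e ▸ h1), Or.inr (Or.inl h1)⟩
    · exact ⟨fun e => ha1 (e ▸ hz), Or.inr (Or.inl hz)⟩
    · exact ⟨fun e => hr2' (e ▸ hz), Or.inr (Or.inr (vs_mono sdiff_subset hz))⟩
  have hin2 : ∀ z ∈ insert r (vs ((R \ {s(b, r)}) ∪ A2)), z ≠ b ∧ (z ∈ vs R ∨ z ∈ vs A2) := by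
    intro z hz
    rw [mem_insert, mem_vs_union] at hz
    rcases hz with hz | hz | hz
    · rw [hz]
      exact ⟨hbr.ne', Or.inl (right_mem_vs hr1)⟩
    · exact ⟨fun e => hr2 (e ▸ hz), Or.inl (vs_mono sdiff_subset hz)⟩
    · exact ⟨fun e => hb2 (e ▸ hz), Or.inr hz⟩
  have d12 : Disjoint (insert q (vs (A1 ∪ (R' \ {s(a, r')}))))
      (insert r (vs ((R \ {s(b, r)}) ∪ A2))) := by
    rw [Finset.disjoint_left]
    intro z hz1 hz2
    obtain ⟨hza, hz3⟩ := hin1 z hz1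
    obtain ⟨hzb, hz4⟩ := hin2 z hz2
    rcases hz3 with e | hz3 | hz3
    · exact hzb e
    · rcases hz4 with hz4 | hz4
      · exact hzb (mem_singleton.1 (v1 (mem_inter.2 ⟨hz3, hz4⟩)))
      · exact hza (mem_singleton.1 (v5 (mem_inter.2 ⟨by rw [mem_vs_union]; exact Or.inl hz3, hz4⟩)))
    · rcases hz4 with hz4 | hz4
      · have := v7 (mem_inter.2 ⟨hz4, hz3⟩)
        rw [mem_insert, mem_singleton] at this
        rcases this with e | e
        · exact hzb e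
        · exact hza e
      · exact hza (mem_singleton.1 (v4 (mem_inter.2 ⟨hz3, hz4⟩)))
  have d0 : ∀ {Y : Finset α}, (∀ v ∈ Y, v ≠ x ∧ v ≠ y ∧ v ≠ p ∧ v ≠ s₄) → Disjoint {x, p} Y := by
    intro Y h
    rw [disjoint_insert_left, disjoint_singleton_left]
    exact ⟨fun h1 => (h x h1).1 rfl, fun h1 => (h p h1).2.2.1 rfl⟩
  have hb1 : b ∈ insert q (vs (A1 ∪ (R' \ {s(a, r')}))) := by
    by_cases hqb : q = b
    · rw [hqb]; exact mem_insert_self _ _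
    · exact mem_insert_of_mem (by rw [mem_vs_union]; exact Or.inl (hA1.right_mem hqb))
  have hr'1 : r' ∈ insert q (vs (A1 ∪ (R' \ {s(a, r')}))) := by
    by_cases hqr : q = r'
    · rw [hqr]; exact mem_insert_self _ _
    · exact mem_insert_of_mem (hA1r.right_mem hqr)
  have ha2 : a ∈ insert r (vs ((R \ {s(b, r)}) ∪ A2)) := by
    by_cases hra : r = a
    · rw [hra]; exact mem_insert_self _ _
    · exact mem_insert_of_mem (by rw [mem_vs_union]; exact Or.inl (hr3.right_mem hra))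
  have hs2 : s₁ ∈ insert r (vs ((R \ {s(b, r)}) ∪ A2)) := by
    by_cases hrs : r = s₁
    · rw [hrs]; exact mem_insert_self _ _
    · exact mem_insert_of_mem (hRA2.right_mem hrs)
  have hT1 := hA1r.treeOn
  have hT2 := hRA2.treeOn
  have mx : x ∈ ({x, p} : Finset α) := mem_insert_self _ _
  have mp : p ∈ ({x, p} : Finset α) := mem_insert_of_mem (mem_singleton_self _)
  have hyp : y ∉ ({x, p} : Finset α) ∧ s₄ ∉ ({x, p} : Finset α) := by
    simp only [mem_insert, mem_singleton, not_or]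
    exact ⟨⟨Ne.symm nxy, nyp⟩, ⟨Ne.symm nx4, n4p⟩⟩
  have nn0 : s(x, q) ≠ s(p, q) := fun h => nxp (Sym2.congr_left.1 h)
  have nn1 : s(b, r) ≠ s(r', a) := by
    intro h
    have h1 : b ∈ s(r', a) := h ▸ Sym2.mem_mk_left b r
    rcases Sym2.mem_iff.1 h1 with h2 | h2
    · subst h2
      have h3 : r = a := Sym2.congr_right.1 h
      subst h3
      have h4 := hR.eq_singleton hr1
      have h5 := hR'.symm.eq_singleton hr1'
      rw [Sym2.eq_swap] at h5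
      exact hRR (h4.trans h5.symm)
    · exact hba h2
  obtain ⟨c1, c2, c3, c4, hsum⟩ := half hDCB ev ze nxy ny4 ny1 axy ax4 ay4 ay1 a14
    (rtree_edge nxp) hT1 hT2 (gr_edge_le axp) (hleG hA1r)
    (hleG hRA2) (d0 hY1) (d0 hY2) d12 hyp
    ⟨fun h => (hY1 y h).2.1 rfl, fun h => (hY1 s₄ h).2.2.2 rfl⟩
    ⟨fun h => (hY2 y h).2.1 rfl, fun h => (hY2 s₄ h).2.2.2 rfl⟩
    mx hs2 mx mp (mem_insert_self q _) (mem_insert_self q _) hb1 hr'1 (mem_insert_self r _) ha2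
    axq apq hbr.1 har'.1.symm nn0 nn1
  -- the values
  have z : ∀ m₁ m₂ : α, m₁ ∈ insert q (vs (A1 ∪ (R' \ {s(a, r')}))) →
      m₂ ∈ insert r (vs ((R \ {s(b, r)}) ∪ A2)) →
      IsCyc G (cv x y s₁ s₄ (gr {s(x, p)}) (gr (A1 ∪ (R' \ {s(a, r')})))
        (gr ((R \ {s(b, r)}) ∪ A2)) x q m₁ m₂) →
      f (cv x y s₁ s₄ (gr {s(x, p)}) (gr (A1 ∪ (R' \ {s(a, r')})))
        (gr ((R \ {s(b, r)}) ∪ A2)) x q m₁ m₂) = 0 := by
    intro m₁ m₂ hm₁ hm₂ hC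
    refine zh _ hC fun hpq => ?_
    have hp := left_mem_vs hpq
    unfold cv at hp
    simp only [mem_vs_union, vs_singleton, mem_insert, mem_singleton] at hp
    rcases hp with (((((((h | h) | (h | h)) | (h | h)) | (h | h)) | h) | h) | (h | h)) | h
    · exact nxp h.symm
    · exact npq h
    · exact (hY1 _ hm₁).2.2.1 h.symm
    · exact (hY2 _ hm₂).2.2.1 h.symm
    · exact n1p h.symm
    · exact n4p h.symm
    · exact nyp h.symm
    · exact nxp h.symm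
    · exact (hY1 _ (hT1.vs_tp (mem_insert_self _ _) hm₁ h)).2.2.1 rfl
    · exact (hY2 _ (hT2.vs_tp hm₂ hs2 h)).2.2.1 rfl
    · exact n4p h.symm
    · exact nyp h.symm
    · rw [tp_self (rtree_edge nxp).acyc] at h
      simp at h
  rw [z b r hb1 (mem_insert_self _ _) c1, z r' a hr'1 ha2 c2, add_zero, zero_add] at hsum
  have t1 : tp (gr (A1 ∪ (R' \ {s(a, r')}))) q b = A1 := hT1.tp_eq hA1 (by
    rw [gr_union]; exact le_sup_left)
  have t2 : tp (gr (A1 ∪ (R' \ {s(a, r')}))) q r' = A1 ∪ (R' \ {s(a, r')}) := hT1.tp_eq hA1r le_rfl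
  have t3 : tp (gr ((R \ {s(b, r)}) ∪ A2)) r s₁ = (R \ {s(b, r)}) ∪ A2 := hT2.tp_eq hRA2 le_rfl
  have t4 : tp (gr ((R \ {s(b, r)}) ∪ A2)) a s₁ = A2 := hT2.tp_eq hA2 (by
    rw [gr_union]; exact le_sup_right)
  have t5 : tp (gr {s(x, p)}) x p = {s(x, p)} := tp_edge nxp
  unfold cv at hsum
  rw [t1, t2, t3, t4, t5, setE1 hr1, Sym2.eq_swap (a := r') (b := a), setE2 hr1', hQ, hQ'] at hsum
  exact CharTwo.add_eq_zero.1 hsum

/-- the function is constant -/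
theorem const (hDCB : SpecDCB) {x y s₁ s₄ p q : α} {f : Finset (Sym2 α) → ZMod 2} (ev : D4even G f)
    (ze : ∀ C, CycM G y s₁ C → f C = 0) (zh : ∀ C, IsCyc G C → s(p, q) ∉ C → f C = 0)
    (nd : [x, y, s₁, s₄, p, q].Nodup)
    (axy : G.Adj x y) (ax4 : G.Adj x s₄) (ay4 : G.Adj y s₄) (ay1 : G.Adj y s₁) (a14 : G.Adj s₁ s₄)
    (axp : G.Adj x p) (axq : G.Adj x q) (apq : G.Adj p q) {Q Q' : Finset (Sym2 α)}
    (hQ : IsPth (del G {x, y, p, s₄}) q s₁ Q) (hQ' : IsPth (del G {x, y, p, s₄}) q s₁ Q') :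
    f (cy2 x y q p s₄ Q {s(s₁, s₄)}) = f (cy2 x y q p s₄ Q' {s(s₁, s₄)}) := by
  have key : ∀ P P', Relation.ReflTransGen (Bead (del G {x, y, p, s₄}) q s₁ (Q ∪ Q')) P P' →
      f (cy2 x y q p s₄ P {s(s₁, s₄)}) = f (cy2 x y q p s₄ P' {s(s₁, s₄)}) := by
    intro P P' h
    induction h with
    | refl => rfl
    | tail _ h1 ih => exact ih.trans (move hDCB ev ze zh nd axy ax4 ay4 ay1 a14 axp axq apq h1)
  exact key _ _ (bead_moves hQ hQ')

/-- a tree through three connected vertices -/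
theorem tree3 {H : SimpleGraph α} {a b c : α} (hab : H.Reachable a b) (hcb : H.Reachable c b) :
    ∃ (Y : Finset α) (T : SimpleGraph α), RTree Y T ∧ T ≤ H ∧ a ∈ Y ∧ b ∈ Y ∧ c ∈ Y ∧
      ∀ v ∈ Y, v ≠ b → ∃ w, H.Adj v w := by
  obtain ⟨P, hP⟩ := exists_isPth hab
  have hT := hP.treeOn
  have hPH : gr P ≤ H := gr_le hP.subset
  have ha : a ∈ insert a (vs P) := mem_insert_self _ _
  have hb : b ∈ insert a (vs P) := by
    by_cases h : a = b
    · rw [h]; exact mem_insert_self _ _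
    · exact mem_insert_of_mem (hP.right_mem h)
  have hv1 : ∀ v ∈ insert a (vs P), v ≠ b → ∃ w, H.Adj v w := by
    intro v hv hvb
    have h1 : v ∈ vs P := by
      rcases mem_insert.1 hv with rfl | h
      · exact hP.left_mem hvb
      · exact h
    exact mem_VS.1 (vs_subset_VS hP.subset h1)
  obtain ⟨P', hP'⟩ := exists_isPth hcb
  obtain ⟨z, Q1, Q2, hz, hQ1, hQ2, hQ12, -, -, hfirst, -⟩ :=
    hP'.first (X := (↑(insert a (vs P)) : Set α)) (by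
      by_cases h : c = b
      · left
        rw [h]
        exact hb
      · exact Or.inr ⟨b, hP'.right_mem h, hb⟩)
  have hz' : z ∈ insert a (vs P) := hz
  have hT2 := RTree.add_path hQ1.symm hT hz' fun v hv hv' => hfirst v hv hv'
  refine ⟨_, _, hT2, sup_le hPH (gr_le hQ1.subset), mem_union_left _ ha, mem_union_left _ hb, ?_, ?_⟩
  · by_cases h : c = z
    · rw [h]; exact mem_union_left _ hz'
    · exact mem_union_right _ (hQ1.left_mem h)
  · intro v hv hvb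
    rcases mem_union.1 hv with h | h
    · exact hv1 v h hvb
    · exact mem_VS.1 (vs_subset_VS hQ1.subset h)

theorem del_anti' {S S' : Finset α} (h : S ⊆ S') : del G S' ≤ del G S :=
  fun _ _ huv => ⟨huv.1, fun hu => huv.2.1 (h hu), fun hv => huv.2.2 (h hv)⟩

theorem sub45 {a b c d e : α} : ({a, b, d, e} : Finset α) ⊆ {a, b, c, d, e} := by
  intro v hv
  simp only [mem_insert, mem_singleton] at hv ⊢
  tauto

theorem sub45' {a b c d e : α} : ({a, b, c, e} : Finset α) ⊆ {a, b, c, d, e} := by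
  intro v hv
  simp only [mem_insert, mem_singleton] at hv ⊢
  tauto

theorem setE3 {β : Type} [DecidableEq β] {e1 e2 e3 e4 e5 e6 : β} {A : Finset β} :
    {e1} ∪ {e2} ∪ {e3} ∪ {e4} ∪ {e5} ∪ A ∪ {e6} ∪ ∅ =
      {e6, e4, e1, e5} ∪ insert e2 A ∪ {e3} := by
  ext e
  simp only [mem_union, mem_insert, mem_singleton, notMem_empty]
  tauto

end XL4M

open XL4M

theorem specXL4 (hDCB : SpecDCB) (hC20 : SpecC20) (hXCB : SpecXCB) : SpecXL4 := by
  intro α _ _ G x y s₁ s₂ s₃ s₄ f h a14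
  have hP := h.p33
  have hnd := hP.nd
  simp only [List.nodup_cons, List.mem_cons, List.not_mem_nil, or_false, not_or, List.nodup_nil,
    and_true, not_false_eq_true] at hnd
  obtain ⟨⟨nxy, nx1, nx2, nx3, nx4⟩, ⟨ny1, ny2, ny3, ny4⟩, ⟨n12, n13, n14⟩, ⟨n23, n24⟩, n34⟩ := hnd
  have axy : G.Adj x y := (hP.nx y).2 (Or.inl rfl)
  have ax2 : G.Adj x s₂ := (hP.nx s₂).2 (Or.inr (Or.inl rfl))
  have ax3 : G.Adj x s₃ := (hP.nx s₃).2 (Or.inr (Or.inr (Or.inl rfl)))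
  have ax4 : G.Adj x s₄ := (hP.nx s₄).2 (Or.inr (Or.inr (Or.inr rfl)))
  have ay4 : G.Adj y s₄ := (hP.ny s₄).2 (Or.inr (Or.inr (Or.inr rfl)))
  have ay1 : G.Adj y s₁ := (hP.ny s₁).2 (Or.inr (Or.inl rfl))
  have nd1 : [x, y, s₁, s₄, s₃, s₂].Nodup := by
    simp only [List.nodup_cons, List.mem_cons, List.not_mem_nil, or_false, not_or, List.nodup_nil,
      and_true, not_false_eq_true]
    exact ⟨⟨nxy, nx1, nx4, nx3, nx2⟩, ⟨ny1, ny4, ny3, ny2⟩, ⟨n14, n13, n12⟩,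
      ⟨Ne.symm n34, Ne.symm n24⟩, Ne.symm n23⟩
  have nd2 : [x, y, s₁, s₄, s₂, s₃].Nodup := by
    simp only [List.nodup_cons, List.mem_cons, List.not_mem_nil, or_false, not_or, List.nodup_nil,
      and_true, not_false_eq_true]
    exact ⟨⟨nxy, nx1, nx4, nx2, nx3⟩, ⟨ny1, ny4, ny2, ny3⟩, ⟨n14, n12, n13⟩,
      ⟨Ne.symm n24, Ne.symm n34⟩, n23⟩
  have zh1 : ∀ C, IsCyc G C → s(s₃, s₂) ∉ C → f C = 0 := by
    intro C hC hC'
    exact h.zh C hC (by rwa [Sym2.eq_swap])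
  -- the tree
  obtain ⟨k, hk, hkn⟩ := hXCB.s2 h.k48 hP
  obtain ⟨k', hk', hkn'⟩ := hXCB.s3 h.k48 hP
  simp only [mem_insert, mem_singleton, not_or] at hkn hkn'
  have hco : ConnOff G {x, y, s₂, s₃, s₄} := (hC20.three h.k48 hP).2.2.2
  have hmem : ∀ v : α, v ≠ x → v ≠ y → v ≠ s₂ → v ≠ s₃ → v ≠ s₄ →
      v ∉ ({x, y, s₂, s₃, s₄} : Finset α) := by
    intro v h1 h2 h3 h4 h5
    simp only [mem_insert, mem_singleton, not_or]
    exact ⟨h1, h2, h3, h4, h5⟩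
  have hs1 : s₁ ∉ ({x, y, s₂, s₃, s₄} : Finset α) := hmem s₁ (Ne.symm nx1) (Ne.symm ny1) n12 n13 n14
  have hkS := hmem k hkn.1 hkn.2.1 hk.ne' hkn.2.2.2.1 hkn.2.2.2.2
  have hkS' := hmem k' hkn'.1 hkn'.2.1 hkn'.2.2.2.1 hk'.ne' hkn'.2.2.2.2
  have r1 : (del G {x, y, s₂, s₃, s₄}).Reachable k s₁ :=
    hco k (right_mem_VS hk) s₁ (left_mem_VS a14) hkS hs1
  have r2 : (del G {x, y, s₂, s₃, s₄}).Reachable k' s₁ :=
    hco k' (right_mem_VS hk') s₁ (left_mem_VS a14) hkS' hs1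
  obtain ⟨Y, T, hT, hTle, hkY, hsY, hkY', hY⟩ := tree3 r1 r2
  have hYS : ∀ v ∈ Y, v ≠ x ∧ v ≠ y ∧ v ≠ s₂ ∧ v ≠ s₃ ∧ v ≠ s₄ := by
    intro v hv
    by_cases hvs : v = s₁
    · rw [hvs]
      exact ⟨Ne.symm nx1, Ne.symm ny1, n12, n13, n14⟩
    · obtain ⟨w, hw⟩ := hY v hv hvs
      have h5 := hw.2.1
      simp only [mem_insert, mem_singleton, not_or] at h5
      exact h5
  have hTG : T ≤ G := hTle.trans fun _ _ h => h.1
  have hT1 : RTree {s₂, s₃} (gr {s(s₂, s₃)}) := rtree_edge n23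
  have nn0 : s(x, s₂) ≠ s(x, s₃) := fun h => n23 (Sym2.congr_right.1 h)
  have nn1 : s(s₂, k) ≠ s(s₃, k') := by
    intro h
    have h1 : s₂ ∈ s(s₃, k') := h ▸ Sym2.mem_mk_left s₂ k
    rcases Sym2.mem_iff.1 h1 with h2 | h2
    · exact n23 h2
    · exact hkn'.2.2.2.1 h2.symm
  have hy0 : y ∉ ({x} : Finset α) ∧ s₄ ∉ ({x} : Finset α) := by
    simp only [mem_singleton]
    exact ⟨Ne.symm nxy, Ne.symm nx4⟩
  have hy1 : y ∉ ({s₂, s₃} : Finset α) ∧ s₄ ∉ ({s₂, s₃} : Finset α) := by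
    simp only [mem_insert, mem_singleton, not_or]
    exact ⟨⟨ny2, ny3⟩, ⟨Ne.symm n24, Ne.symm n34⟩⟩
  have dd01 : Disjoint ({x} : Finset α) {s₂, s₃} := by
    rw [disjoint_singleton_left]
    simp only [mem_insert, mem_singleton, not_or]
    exact ⟨nx2, nx3⟩
  have dd02 : Disjoint ({x} : Finset α) Y := by
    rw [disjoint_singleton_left]
    exact fun h => (hYS x h).1 rfl
  have dd12 : Disjoint ({s₂, s₃} : Finset α) Y := by
    rw [disjoint_insert_left, disjoint_singleton_left]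
    exact ⟨fun h => (hYS _ h).2.2.1 rfl, fun h => (hYS _ h).2.2.2.1 rfl⟩
  have m2 : s₂ ∈ ({s₂, s₃} : Finset α) := mem_insert_self _ _
  have m3 : s₃ ∈ ({s₂, s₃} : Finset α) := mem_insert_of_mem (mem_singleton_self _)
  obtain ⟨hc1, -, -, hc2, hsum⟩ := half hDCB h.ev h.ze nxy ny4 ny1 axy ax4 ay4 ay1 a14
    (RTree.single x) hT1 hT bot_le (gr_edge_le h.h) hTG dd01 dd02 dd12 hy0 hy1
    ⟨fun h => (hYS _ h).2.1 rfl, fun h => (hYS _ h).2.2.2.2 rfl⟩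
    (mem_singleton_self x) hsY (mem_singleton_self x) (mem_singleton_self x) m2 m3 m2 m3 hkY hkY'
    ax2 ax3 hk hk' nn0 nn1
  have hpk : IsPth T k s₁ (tp T k s₁) := hT.tp_isPth hkY hsY
  have hpk' : IsPth T k' s₁ (tp T k' s₁) := hT.tp_isPth hkY' hsY
  have vk : ∀ v ∈ vs (tp T k s₁), v ∈ Y := fun v hv => hT.vs_tp hkY hsY hv
  have vk' : ∀ v ∈ vs (tp T k' s₁), v ∈ Y := fun v hv => hT.vs_tp hkY' hsY hv
  have hbx : tp (⊥ : SimpleGraph α) x x = ∅ := tp_self (RTree.single x).acyc x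
  have e23 : tp (gr {s(s₂, s₃)}) s₃ s₂ = {s(s₂, s₃)} := tp_edge' n23
  have e23' : tp (gr {s(s₂, s₃)}) s₂ s₃ = {s(s₂, s₃)} := tp_edge n23
  have e22 : tp (gr {s(s₂, s₃)}) s₂ s₂ = ∅ := tp_self hT1.acyc s₂
  have e33 : tp (gr {s(s₂, s₃)}) s₃ s₃ = ∅ := tp_self hT1.acyc s₃
  unfold cv at hc1 hc2 hsum
  rw [hbx, e22] at hc1
  rw [hbx, e33] at hc2
  rw [hbx, e23, e23', e22, e33] at hsum
  have z1 := h.zh _ hc1 (by
    intro hm
    have h1 := right_mem_vs hm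
    simp only [mem_vs_union, vs_singleton, mem_insert, mem_singleton, vs_empty, notMem_empty,
      or_false] at h1
    rcases h1 with (((((h | h) | (h | h)) | (h | h)) | (h | h)) | h) | (h | h)
    · exact nx3 h.symm
    · exact n23 h.symm
    · exact n23 h.symm
    · exact hkn.2.2.2.1 h.symm
    · exact n13 h.symm
    · exact n34 h
    · exact ny3 h.symm
    · exact nx3 h.symm
    · exact (hYS _ (vk _ h)).2.2.2.1 rfl
    · exact n34 h
    · exact ny3 h.symm)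
  have z2 := h.zh _ hc2 (by
    intro hm
    have h1 := left_mem_vs hm
    simp only [mem_vs_union, vs_singleton, mem_insert, mem_singleton, vs_empty, notMem_empty,
      or_false] at h1
    rcases h1 with (((((h | h) | (h | h)) | (h | h)) | (h | h)) | h) | (h | h)
    · exact nx2 h.symm
    · exact n23 h
    · exact n23 h
    · exact hkn'.2.2.2.1 h.symm
    · exact n12 h.symm
    · exact n24 h
    · exact ny2 h.symm
    · exact nx2 h.symm
    · exact (hYS _ (vk' _ h)).2.2.1 rfl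
    · exact n24 h
    · exact ny2 h.symm)
  rw [z1, z2, zero_add, add_zero] at hsum
  -- the two paths
  have hle1 : T ≤ del G {x, y, s₃, s₄} := hTle.trans (del_anti' sub45)
  have hle2 : T ≤ del G {x, y, s₂, s₄} := hTle.trans (del_anti' sub45')
  have hA : IsPth (del G {x, y, s₃, s₄}) s₂ s₁ (insert s(s₂, k) (tp T k s₁)) := by
    refine (hpk.mono hle1).cons ⟨hk, ?_, ?_⟩ fun h => (hYS _ (vk _ h)).2.2.1 rfl
    · simp only [mem_insert, mem_singleton, not_or]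
      exact ⟨Ne.symm nx2, Ne.symm ny2, n23, n24⟩
    · simp only [mem_insert, mem_singleton, not_or]
      exact ⟨hkn.1, hkn.2.1, hkn.2.2.2.1, hkn.2.2.2.2⟩
  have hA' : IsPth (del G {x, y, s₂, s₄}) s₃ s₁ (insert s(s₃, k') (tp T k' s₁)) := by
    refine (hpk'.mono hle2).cons ⟨hk', ?_, ?_⟩ fun h => (hYS _ (vk' _ h)).2.2.2.1 rfl
    · simp only [mem_insert, mem_singleton, not_or]
      exact ⟨Ne.symm nx3, Ne.symm ny3, Ne.symm n23, n34⟩
    · simp only [mem_insert, mem_singleton, not_or]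
      exact ⟨hkn'.1, hkn'.2.1, hkn'.2.2.2.1, hkn'.2.2.2.2⟩
  have e1 : ({s(x, s₃)} ∪ {s(s₂, k)} ∪ {s(s₁, s₄)} ∪ {s(y, x)} ∪ {s(s₂, s₃)} ∪ tp T k s₁ ∪
      {s(s₄, y)} ∪ ∅ : Finset (Sym2 α)) =
      cy2 x y s₂ s₃ s₄ (insert s(s₂, k) (tp T k s₁)) {s(s₁, s₄)} := by
    rw [cy2, Sym2.eq_swap (a := s₃) (b := s₂)]
    exact setE3
  have e2 : ({s(x, s₂)} ∪ {s(s₃, k')} ∪ {s(s₁, s₄)} ∪ {s(y, x)} ∪ {s(s₂, s₃)} ∪ tp T k' s₁ ∪
      {s(s₄, y)} ∪ ∅ : Finset (Sym2 α)) =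
      cy2 x y s₃ s₂ s₄ (insert s(s₃, k') (tp T k' s₁)) {s(s₁, s₄)} := by
    rw [cy2]
    exact setE3
  rw [e1, e2] at hsum
  have hEq := CharTwo.add_eq_zero.1 hsum
  refine ⟨f (cy2 x y s₂ s₃ s₄ (insert s(s₂, k) (tp T k s₁)) {s(s₁, s₄)}), fun A hAp => ?_,
    fun A hAp => ?_⟩
  · exact const hDCB h.ev h.ze zh1 nd1 axy ax4 ay4 ay1 a14 ax3 ax2 h.h.symm hAp hA
  · rw [← hEq]
    exact const hDCB h.ev h.ze h.zh nd2 axy ax4 ay4 ay1 a14 ax2 ax3 h.h hAp hA'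

end DL
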