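import Pool.Agent.DL.E.Spec2
import Pool.Agent.DL.EX.PMB
import Pool.Agent.DL.E.Spec2c
import Pool.Agent.DL.EX.VRS

section
/-!
# MP_3ff0f8_gt, EXIST section 2: XE2 (helper57)
-/
set_option autoImplicit false
set_option linter.unusedSectionVars false

open SimpleGraph Finset

namespace DL.XE2M

variable {α : Type} [Fintype α] [DecidableEq α] {G : SimpleGraph α}

theorem triangle {a b x : α} (hab : G.Adj a b) (hax : G.Adj a x) (hbx : G.Adj b x) :
    IsCyc G {s(a, x), s(b, x), s(a, b)} := by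
  have h1 : IsPth G x b {s(x, b)} := IsPth.edge hbx.symm
  have h2 : IsPth G a b (insert s(a, x) {s(x, b)}) := by
    refine IsPth.cons hax h1 ?_
    rw [vs_singleton]
    simp only [mem_insert, mem_singleton, not_or]
    exact ⟨hax.ne, hab.ne⟩
  have h3 := h2.isCyc hab (by
    rw [mem_insert, mem_singleton]
    rintro (h | h)
    · rw [Sym2.congr_right] at h
      exact hbx.ne h
    · rw [Sym2.congr_left] at h
      exact hax.ne h)
  have h4 : ({s(a, x), s(b, x), s(a, b)} : Finset (Sym2 α)) =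
      insert s(a, b) (insert s(a, x) {s(x, b)}) := by
    ext e
    simp only [mem_insert, mem_singleton, Sym2.eq_swap (a := x) (b := b)]
    tauto
  rw [h4]
  exact h3

/-- at most two edges `≠ ab` at `a` or `b` -/
theorem two {a b : α} {C : Finset (Sym2 α)} (hC : CycM G a b C) :
    ∃ x y : Sym2 α, ∀ e ∈ C, (a ∈ e ∨ b ∈ e) → e ≠ s(a, b) → e = x ∨ e = y := by
  by_cases ha : a ∈ vs C
  · by_cases hb : b ∈ vs C
    · have hab := hC.2 ha hb
      have hba : s(b, a) ∈ C := by rw [Sym2.eq_swap]; exact hab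
      obtain ⟨j, hj, hjC⟩ := hC.1.exists_other hab
      obtain ⟨k, hk, hkC⟩ := hC.1.exists_other hba
      refine ⟨s(a, j), s(b, k), fun e he hor hne => ?_⟩
      rcases hor with h | h
      · obtain ⟨v, rfl⟩ := Sym2.mem_iff_exists.1 h
        rcases hC.1.eq_or_eq hab hjC hj.symm he with e | e
        · exact absurd (by rw [e]) hne
        · left; rw [e]
      · obtain ⟨v, rfl⟩ := Sym2.mem_iff_exists.1 h
        rcases hC.1.eq_or_eq hba hkC hk.symm he with e | e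
        · exact absurd (by rw [e, Sym2.eq_swap]) hne
        · right; rw [e]
    · obtain ⟨i, j, -, -, -, h⟩ := hC.1.two_edges ha
      refine ⟨s(a, i), s(a, j), fun e he hor _ => ?_⟩
      rcases hor with h' | h'
      · obtain ⟨v, rfl⟩ := Sym2.mem_iff_exists.1 h'
        rcases h v he with e | e
        · left; rw [e]
        · right; rw [e]
      · exact absurd (mem_vs.2 ⟨e, he, h'⟩) hb
  · by_cases hb : b ∈ vs C
    · obtain ⟨i, j, -, -, -, h⟩ := hC.1.two_edges hb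
      refine ⟨s(b, i), s(b, j), fun e he hor _ => ?_⟩
      rcases hor with h' | h'
      · exact absurd (mem_vs.2 ⟨e, he, h'⟩) ha
      · obtain ⟨v, rfl⟩ := Sym2.mem_iff_exists.1 h'
        rcases h v he with e | e
        · left; rw [e]
        · right; rw [e]
    · refine ⟨s(a, b), s(a, b), fun e he hor _ => ?_⟩
      rcases hor with h' | h'
      · exact absurd (mem_vs.2 ⟨e, he, h'⟩) ha
      · exact absurd (mem_vs.2 ⟨e, he, h'⟩) hb

theorem cnp_zero {R : SimpleGraph α} {a b : α} (hab : a ≠ b) {l : α → Chain α}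
    (hl : ∀ x e, a ∈ e ∨ b ∈ e → l x e = 0) {C : Finset (Sym2 α)} (hC : CycM G a b C) :
    cnp R a b l (chi C) = 0 := by
  unfold cnp
  refine sum_eq_zero fun x _ => ?_
  by_cases h1 : s(a, x) ∈ C
  · by_cases h2 : s(b, x) ∈ C
    · have h3 := hC.2 (left_mem_vs h1) (left_mem_vs h2)
      have ht := triangle (hC.1.adj_of_mem h3) (hC.1.adj_of_mem h1) (hC.1.adj_of_mem h2)
      have he := hC.1.eq_of_subset ht (by
        intro e he
        simp only [mem_insert, mem_singleton] at he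
        rcases he with rfl | rfl | rfl <;> assumption)
      have h0 : ∑ e, l x e * chi C e = 0 := by
        refine sum_eq_zero fun e _ => ?_
        by_cases heC : e ∈ C
        · rw [hl x e, zero_mul]
          rw [← he] at heC
          simp only [mem_insert, mem_singleton] at heC
          rcases heC with rfl | rfl | rfl <;> simp
        · rw [chi_of_notMem heC, mul_zero]
      rw [h0, mul_zero]
    · rw [chi_of_notMem h2]; ring
  · rw [chi_of_notMem h1]; ring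

end DL.XE2M

namespace DL

open XE2M MEBM

theorem specXE2 (hEXM : SpecEXM) (hTRA : SpecTRA) (hPOL : SpecPOL) : SpecXE2 := by
  intro α _ _ R a b hab hK3 hKZ hS φ hφ h0
  obtain ⟨ν, ρ, l, hν, hρ, hl, hval⟩ := hEXM hab hK3 hKZ hS φ hφ h0
  refine ⟨fun C => ∑ x, ∑ y, ν x y * (chi C s(a, x) * chi C s(b, y) + coh x a b y C) +
      ρ (chi C) + cnp R a b l (chi C), ?_, ?_, hval⟩
  · intro G'
    have hd1 : DegLE 3 (fun c : Chain α => ∑ x, ∑ y, ν x y * (c s(a, x) * c s(b, y))) := by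
      refine hPOL.sum _ _ fun x _ => hPOL.sum _ _ fun y _ => ?_
      exact hPOL.mul (d := 1) (e := 2) (hPOL.const 1 _)
        (hPOL.mul (d := 1) (e := 1) (deg_coord hPOL _) (deg_coord hPOL _))
    have hd2 : DegLE 3 (fun c : Chain α => cnp R a b l c) := by
      unfold cnp
      refine hPOL.sum _ _ fun x _ => ?_
      refine hPOL.mul (d := 2) (e := 1) (hPOL.mul (d := 1) (e := 1) (deg_coord hPOL _) (deg_coord hPOL _)) ?_
      refine hPOL.sum _ _ fun e _ => ?_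
      have h2 := hPOL.mul (hPOL.const 0 (l x e)) (deg_coord hPOL e)
      rw [zero_add] at h2
      exact h2
    have hP : DegLE 3 (fun c : Chain α => (∑ x, ∑ y, ν x y * (c s(a, x) * c s(b, y))) + ρ c +
        cnp R a b l c) := hPOL.add (hPOL.add hd1 (hTRA.deg hρ).1) hd2
    refine ⟨_, hP, ?_, fun x a' b' y => if a' = a then if b' = b then ν x y else 0 else 0, fun C _ => ?_⟩
    · simp [(hTRA.deg hρ).2, cnp]
    · have h1 : ∑ x, ∑ a', ∑ b', ∑ y, (if a' = a then if b' = b then ν x y else 0 else 0) * coh x a' b' y C =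
          ∑ x, ∑ y, ν x y * coh x a b y C := by
        refine sum_congr rfl fun x _ => ?_
        rw [sum_eq_single a]
        · rw [sum_eq_single b]
          · simp
          · intro b' _ hb'
            refine sum_eq_zero fun y _ => ?_
            rw [if_pos rfl, if_neg hb', zero_mul]
          · intro h; exact absurd (mem_univ _) h
        · intro a' _ ha'
          refine sum_eq_zero fun b' _ => sum_eq_zero fun y _ => ?_
          rw [if_neg ha', zero_mul]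
        · intro h; exact absurd (mem_univ _) h
      rw [h1]
      simp only [mul_add, sum_add_distrib]
      ring
  · intro G' C hC
    have e1 : ∑ x, ∑ y, ν x y * (chi C s(a, x) * chi C s(b, y) + coh x a b y C) = 0 := by
      refine sum_eq_zero fun x _ => sum_eq_zero fun y _ => ?_
      by_cases h3 : ν x y = 0
      · rw [h3, zero_mul]
      · obtain ⟨_, _, _, h5, h6⟩ := hν x y h3
        rw [EXMM.gam_zero hab.ne hC h5 h6, zmod2_add_self, mul_zero]
    have e2 : ρ (chi C) = 0 := by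
      obtain ⟨x, y, h⟩ := two hC
      exact hTRA.two hρ (chi C) x y fun e he hne => h e (chi_ne_zero.1 hne) he.2.1 he.2.2
    have e3 : cnp R a b l (chi C) = 0 := cnp_zero hab.ne hl hC
    show ∑ x, ∑ y, ν x y * (chi C s(a, x) * chi C s(b, y) + coh x a b y C) +
      ρ (chi C) + cnp R a b l (chi C) = 0
    rw [e1, e2, e3]
    ring

end DL
end

section
/-!
# MP_3ff0f8_gt, EXIST section 2, block XL: XLF (helper19)

Gluing of the two contractions of a (3,3)-pair.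
-/
set_option autoImplicit false
set_option linter.unusedSectionVars false

open SimpleGraph Finset

namespace DL.XLFM

variable {α : Type} [Fintype α] [DecidableEq α] {G : SimpleGraph α}

/-! ### a general form of the function `ψ` -/

/-- the first two parts of EXM, with the second end relabelled -/
noncomputable def psi (x s : α) (vp : α → α) (ν : α → α → ZMod 2) (ρ : Chain α → ZMod 2) (C : Finset (Sym2 α)) : ZMod 2 :=
  (∑ u, ∑ v, ν u v * (chi C s(x, u) * chi C s(s, vp v) + coh u x s (vp v) C)) + ρ (chi C)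

theorem psi_inF (hPOL : SpecPOL) {A : Set (Sym2 α)} (hTRA : SpecTRA) {x s : α} {vp : α → α} {ν : α → α → ZMod 2}
    {ρ : Chain α → ZMod 2} (hρ : ρ ∈ TR A) : InF G (psi x s vp ν ρ) := by
  unfold psi
  refine CTFM.inF_add hPOL ?_ ?_
  · refine CTFM.inF_sum hPOL _ _ fun u _ => CTFM.inF_sum hPOL _ _ fun v _ => ?_
    refine CTFM.inF_smul hPOL _ ?_
    refine CTFM.inF_add hPOL ?_ (CTFM.inF_coh hPOL _ _ _ _)
    have h2 : DegLE 3 (fun c : Chain α => c s(x, u) * c s(s, vp v)) :=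
      hPOL.mono (by norm_num) (hPOL.mul (d := 1) (e := 1) (CTFM.deg_coord hPOL _) (CTFM.deg_coord hPOL _))
    exact CTFM.inF_poly (p := fun c : Chain α => c s(x, u) * c s(s, vp v)) h2 (by simp)
  · exact CTFM.inF_poly (hTRA.deg hρ).1 (hTRA.deg hρ).2

theorem psi_zero (hTRA : SpecTRA) {x s : α} (hxs : x ≠ s) {vp : α → α} {ν : α → α → ZMod 2}
    {ρ : Chain α → ZMod 2} (hρ : ρ ∈ TR (sab G x s)) (hν : ∀ u v, ν u v ≠ 0 → u ≠ s ∧ vp v ≠ x)
    {C : Finset (Sym2 α)} (hC : CycM G x s C) : psi x s vp ν ρ C = 0 := by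
  unfold psi
  have e1 : ∑ u, ∑ v, ν u v * (chi C s(x, u) * chi C s(s, vp v) + coh u x s (vp v) C) = 0 := by
    refine sum_eq_zero fun u _ => sum_eq_zero fun v _ => ?_
    by_cases h3 : ν u v = 0
    · rw [h3, zero_mul]
    · obtain ⟨h5, h6⟩ := hν u v h3
      rw [EXMM.gam_zero hxs hC h5 h6, zmod2_add_self, mul_zero]
  have e2 : ρ (chi C) = 0 := by
    obtain ⟨u, v, h⟩ := XE2M.two hC
    exact hTRA.two hρ (chi C) u v fun e he hne => h e (chi_ne_zero.1 hne) he.2.1 he.2.2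
  rw [e1, e2, add_zero]

/-! ### corresponding cycles -/

/-- corresponding cycles agree on the edges -/
theorem chi_corr {y s₁ : α} {C D : Finset (Sym2 α)} (hch : chi C = lft G y s₁ (chi D)) {e : Sym2 α}
    (he : e ∈ G.edgeSet) (he' : e ≠ s(y, s₁)) : chi C e = chi D (e.map (mrg y s₁)) := by
  rw [chi_apply, chi_apply]
  simp only [CTBM.mem_iff hch he he']

/-- the map of an edge without `s₁` -/
theorem map_ne {y s₁ : α} {e : Sym2 α} (h : s₁ ∉ e) : e.map (mrg y s₁) = e := by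
  induction e using Sym2.ind with
  | _ u v =>
    rw [Sym2.mem_iff, not_or] at h
    rw [Sym2.map_mk, CTBM.mrg_ne (Ne.symm h.1), CTBM.mrg_ne (Ne.symm h.2)]

/-- corresponding cycles: `CycM` passes down -/
theorem cycM_up {x s₂ y s₁ : α} (hxy : x ≠ y) (hx1 : x ≠ s₁) (h2y : s₂ ≠ y) (h21 : s₂ ≠ s₁) (hx2 : G.Adj x s₂)
    {C D : Finset (Sym2 α)} (hC : CycM G y s₁ C) (hch : chi C = lft G y s₁ (chi D))
    (hD : CycM (contr G y s₁) x s₂ D) : CycM G x s₂ C := by
  have hvs : ∀ v, v ≠ y → v ≠ s₁ → v ∈ vs C → v ∈ vs D := by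
    intro v h1 h2 h3
    obtain ⟨e, heC, hve⟩ := mem_vs.1 h3
    have hne : e ≠ s(y, s₁) := by
      rintro rfl
      rcases Sym2.mem_iff.1 hve with h | h
      · exact h1 h
      · exact h2 h
    have h4 := (CTBM.mem_iff hch (hC.1.subset e heC) hne).1 heC
    refine mem_vs.2 ⟨_, h4, ?_⟩
    rw [Sym2.mem_map]
    exact ⟨v, hve, CTBM.mrg_ne h2⟩
  refine ⟨hC.1, fun hx h2 => ?_⟩
  have h3 := hD.2 (hvs x hxy hx1 hx) (hvs s₂ h2y h21 h2)
  have hne : s(x, s₂) ≠ s(y, s₁) := by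
    intro h
    rw [Sym2.eq_iff] at h
    rcases h with ⟨h, -⟩ | ⟨h, -⟩
    · exact hxy h
    · exact hx1 h
  rw [CTBM.mem_iff hch hx2 hne, Sym2.map_mk, CTBM.mrg_ne hx1, CTBM.mrg_ne h21]
  exact h3

/-- the two forms of `ψ` agree on corresponding cycles -/
theorem psi_corr (hCTB : SpecCTB) {x s₂ y s₁ : α} (hy1 : G.Adj y s₁) (hN : NoCN G y s₁) (hxy : x ≠ y) (hx1 : x ≠ s₁)
    (h2y : s₂ ≠ y) (h21 : s₂ ≠ s₁) {vp : α → α} {ν : α → α → ZMod 2} {ρ ρ' : Chain α → ZMod 2}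
    (hν : ∀ u v, ν u v ≠ 0 → G.Adj x u ∧ G.Adj s₂ (vp v) ∧ u ≠ s₁ ∧ mrg y s₁ (vp v) = v)
    {C D : Finset (Sym2 α)} (hC : CycM G y s₁ C) (hD : IsCyc (contr G y s₁) D) (hch : chi C = lft G y s₁ (chi D))
    (hρ : ρ (chi D) = ρ' (chi C)) :
    psi x s₂ vp ν ρ' C = ∑ u, ∑ v, ν u v * (chi D s(x, u) * chi D s(s₂, v) + coh u x s₂ v D) + ρ (chi D) := by
  unfold psi
  rw [hρ]
  congr 1
  refine sum_congr rfl fun u _ => sum_congr rfl fun v _ => ?_
  by_cases h3 : ν u v = 0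
  · rw [h3, zero_mul, zero_mul]
  · obtain ⟨h4, h5, h6, h7⟩ := hν u v h3
    have n1 : s(x, u) ≠ s(y, s₁) := by
      intro h
      rw [Sym2.eq_iff] at h
      rcases h with ⟨h, -⟩ | ⟨h, -⟩
      · exact hxy h
      · exact hx1 h
    have n1' : s(u, x) ≠ s(y, s₁) := by rw [Sym2.eq_swap]; exact n1
    have n2 : s(s₂, vp v) ≠ s(y, s₁) := by
      intro h
      rw [Sym2.eq_iff] at h
      rcases h with ⟨h, -⟩ | ⟨h, -⟩
      · exact h2y h
      · exact h21 h
    have e1 : chi C s(x, u) = chi D s(x, u) := by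
      rw [chi_corr hch h4 n1, Sym2.map_mk, CTBM.mrg_ne hx1, CTBM.mrg_ne h6]
    have e2 : chi C s(s₂, vp v) = chi D s(s₂, v) := by
      rw [chi_corr hch h5 n2, Sym2.map_mk, CTBM.mrg_ne h21, h7]
    have e3 : coh u x s₂ (vp v) C = coh u x s₂ v D := by
      rw [hCTB hy1 hN C D hC hD hch u x s₂ (vp v) h4.symm h5 n1' n2, CTBM.mrg_ne hx1, CTBM.mrg_ne h6,
        CTBM.mrg_ne h21, h7]
    rw [e1, e2, e3]

/-- the second end -/
def vpr (y s₁ v : α) : α := if v = y then s₁ else v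

theorem vpr_y {y s₁ : α} : vpr y s₁ y = s₁ := if_pos rfl

theorem vpr_ne {y s₁ v : α} (h : v ≠ y) : vpr y s₁ v = v := if_neg h

variable {x y s₁ s₂ s₃ s₄ : α}

/-- the edges of `contr G y s₁` at `x` -/
theorem adj_x (hP : P33 G x y s₁ s₂ s₃ s₄) {w : α} (h : (contr G y s₁).Adj x w) : G.Adj x w ∧ w ≠ s₁ := by
  have hnd := hP.nd
  simp only [List.nodup_cons, List.mem_cons, List.not_mem_nil, or_false, not_or] at hnd
  obtain ⟨-, h2, -, h | ⟨h, -⟩ | ⟨-, h⟩⟩ := h
  · exact ⟨h, h2⟩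
  · exact absurd h hnd.1.1
  · rw [hP.nx] at h
    exfalso
    rcases h with h | h | h | h <;> [exact hnd.2.1.1 h.symm; exact hnd.2.2.1.1 h; exact hnd.2.2.1.2.1 h; exact hnd.2.2.1.2.2 h]

/-- the edges of `contr G y s₁` at `s₂` -/
theorem adj_2 (hP : P33 G x y s₁ s₂ s₃ s₄) {w : α} (h : (contr G y s₁).Adj s₂ w) :
    w ≠ s₁ ∧ ((w ≠ y ∧ G.Adj s₂ w) ∨ (w = y ∧ G.Adj s₂ s₁)) := by
  have hnd := hP.nd
  simp only [List.nodup_cons, List.mem_cons, List.not_mem_nil, or_false, not_or] at hnd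
  have h2y : ¬ G.Adj s₂ y := by
    intro h
    rw [G.adj_comm, hP.ny] at h
    rcases h with h | h | h | h <;> [exact hnd.1.2.2.1 h.symm; exact hnd.2.2.1.1 h.symm; exact hnd.2.2.2.1.1 h; exact hnd.2.2.2.1.2 h]
  obtain ⟨-, h2, -, h | ⟨h, -⟩ | ⟨rfl, h⟩⟩ := h
  · refine ⟨h2, Or.inl ⟨?_, h⟩⟩
    rintro rfl
    exact h2y h
  · exact absurd h.symm hnd.2.1.2.1
  · exact ⟨h2, Or.inr ⟨rfl, h⟩⟩

/-- relabelling of the edges -/
def lam (y s₁ s₂ : α) (e : Sym2 α) : Sym2 α := if e = s(s₂, y) then s(s₂, s₁) else e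

theorem rho_map (hTRA : SpecTRA) (hP : P33 G x y s₁ s₂ s₃ s₄) {ρ : Chain α → ZMod 2}
    (hρ : ρ ∈ TR (sab (contr G y s₁) x s₂)) : ∃ ρ' ∈ TR (sab G x s₂), ∀ C D : Finset (Sym2 α),
    chi C = lft G y s₁ (chi D) → ρ (chi D) = ρ' (chi C) := by
  have hnd := hP.nd
  simp only [List.nodup_cons, List.mem_cons, List.not_mem_nil, or_false, not_or] at hnd
  have hs1 : ∀ e ∈ sab (contr G y s₁) x s₂, s₁ ∉ e := by
    intro e he h
    obtain ⟨w, rfl⟩ := Sym2.mem_iff_exists.1 h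
    exact he.1.1 rfl
  -- the edges
  have hed : ∀ e ∈ sab (contr G y s₁) x s₂, (e = s(s₂, y) ∧ G.Adj s₂ s₁) ∨ (e ≠ s(s₂, y) ∧ e ∈ G.edgeSet) := by
    intro e he
    by_cases h1 : e = s(s₂, y)
    · left
      refine ⟨h1, ?_⟩
      rw [h1] at he
      rcases (adj_2 hP he.1).2 with ⟨h, -⟩ | ⟨-, h⟩
      · exact absurd rfl h
      · exact h
    · right
      refine ⟨h1, ?_⟩
      obtain ⟨h2, h3 | h3, -⟩ := he
      · obtain ⟨w, rfl⟩ := Sym2.mem_iff_exists.1 h3
        exact (adj_x hP h2).1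
      · obtain ⟨w, rfl⟩ := Sym2.mem_iff_exists.1 h3
        rcases (adj_2 hP h2).2 with ⟨-, h⟩ | ⟨h, -⟩
        · exact h
        · exact absurd (by rw [show w = y from h]) h1
  obtain ⟨ρ', h1, h2⟩ := hTRA.map (A := sab (contr G y s₁) x s₂) (B := sab G x s₂) (lam y s₁ s₂) (by
    intro e he f hf hef
    unfold lam at hef
    split_ifs at hef with g1 g2 g2
    · rw [g1, g2]
    · exact absurd (by rw [← hef]; simp) (hs1 f hf)
    · exact absurd (by rw [hef]; simp) (hs1 e he)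
    · exact hef) (by
    intro e he
    unfold lam
    split_ifs with g1
    · rcases hed e he with ⟨-, h⟩ | ⟨h, -⟩
      · refine ⟨h, Or.inr (by simp), ?_⟩
        intro h'
        rw [Sym2.eq_iff] at h'
        rcases h' with ⟨h', -⟩ | ⟨-, h'⟩
        · exact hnd.1.2.2.1 h'.symm
        · exact hnd.1.2.1 h'.symm
      · exact absurd g1 h
    · rcases hed e he with ⟨h, -⟩ | ⟨-, h⟩
      · exact absurd h g1
      · exact ⟨h, he.2.1, he.2.2⟩) hρ
  refine ⟨ρ', h1, fun C D hch => h2 _ _ fun e he => ?_⟩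
  unfold lam
  split_ifs with g1
  · rcases hed e he with ⟨-, h⟩ | ⟨h, -⟩
    · rw [chi_corr hch h, Sym2.map_mk, CTBM.mrg_ne (Ne.symm hnd.2.2.1.1), CTBM.mrg_b, g1]
      intro h'
      rw [Sym2.eq_iff] at h'
      rcases h' with ⟨h', -⟩ | ⟨h', -⟩
      · exact hnd.2.1.2.1 h'.symm
      · exact hnd.2.2.1.1 h'.symm
    · exact absurd g1 h
  · rcases hed e he with ⟨h, -⟩ | ⟨-, h⟩
    · exact absurd h g1
    · rw [chi_corr hch h, map_ne (hs1 e he)]
      rintro rfl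
      exact hs1 _ he (by simp)

/-- the last part -/
theorem cnp_corr (hP : P33 G x y s₁ s₂ s₃ s₄) (hE : E4 G s₁ s₂ s₃ s₄) {l : α → Chain α}
    (hl : ∀ u e, x ∈ e ∨ s₂ ∈ e → l u e = 0) {C D : Finset (Sym2 α)} (hC : IsCyc G C)
    (hD : IsCyc (contr G y s₁) D) (hch : chi C = lft G y s₁ (chi D)) :
    cnp (contr G y s₁) x s₂ l (chi D) = chi C s(x, y) * chi C s(s₁, s₂) *
      ∑ e ∈ C, (if x ∈ e ∨ y ∈ e ∨ s₁ ∈ e ∨ s₂ ∈ e then 0 else l y e) := by
  have hnd := hP.nd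
  simp only [List.nodup_cons, List.mem_cons, List.not_mem_nil, or_false, not_or] at hnd
  have hcm : ∀ z ∈ cmn (contr G y s₁) x s₂, z = y ∧ G.Adj s₂ s₁ := by
    intro z hz
    simp only [cmn, mem_filter] at hz
    obtain ⟨h1, -⟩ := adj_x hP hz.2.1
    rcases (adj_2 hP hz.2.2).2 with ⟨h2, h3⟩ | h2
    · exfalso
      rw [hP.nx] at h1
      rcases h1 with rfl | rfl | rfl | rfl
      · exact h2 rfl
      · exact h3.ne rfl
      · exact hE.2.2.1 h3
      · exact hE.2.2.2 h3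
    · exact h2
  unfold cnp
  by_cases h21 : G.Adj s₂ s₁
  · have hxy : G.Adj x y := (hP.nx y).2 (Or.inl rfl)
    have h1 : cmn (contr G y s₁) x s₂ = {y} := by
      ext z
      rw [mem_singleton]
      constructor
      · intro h; exact (hcm z h).1
      · rintro rfl
        simp only [cmn, mem_filter]
        refine ⟨mem_univ _, ⟨hnd.1.2.1, hnd.2.1.1, hnd.1.1, Or.inl hxy⟩, ⟨Ne.symm hnd.2.2.1.1, hnd.2.1.1,
          Ne.symm hnd.2.1.2.1, Or.inr (Or.inr ⟨rfl, h21⟩)⟩⟩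
    have n1 : s(x, y) ≠ s(y, s₁) := by
      intro h
      rw [Sym2.eq_iff] at h
      rcases h with ⟨h, -⟩ | ⟨h, -⟩
      · exact hnd.1.1 h
      · exact hnd.1.2.1 h
    have n2 : s(s₂, s₁) ≠ s(y, s₁) := by
      intro h
      rw [Sym2.eq_iff] at h
      rcases h with ⟨h, -⟩ | ⟨h, -⟩
      · exact hnd.2.1.2.1 h.symm
      · exact hnd.2.2.1.1 h.symm
    have e1 : chi C s(x, y) = chi D s(x, y) := by
      rw [chi_corr hch hxy n1, Sym2.map_mk, CTBM.mrg_ne hnd.1.2.1, CTBM.mrg_ne hnd.2.1.1]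
    have e2 : chi C s(s₁, s₂) = chi D s(s₂, y) := by
      rw [Sym2.eq_swap, chi_corr hch h21 n2, Sym2.map_mk, CTBM.mrg_ne (Ne.symm hnd.2.2.1.1), CTBM.mrg_b]
    rw [h1, sum_singleton, e1, e2]
    by_cases g1 : s(x, y) ∈ D
    · by_cases g2 : s(s₂, y) ∈ D
      · congr 1
        have h3 : ∑ e ∈ C, (if x ∈ e ∨ y ∈ e ∨ s₁ ∈ e ∨ s₂ ∈ e then 0 else l y e) =
            ∑ e, (if x ∈ e ∨ y ∈ e ∨ s₁ ∈ e ∨ s₂ ∈ e then 0 else l y e) * chi C e := by
          have : ∀ e, (if x ∈ e ∨ y ∈ e ∨ s₁ ∈ e ∨ s₂ ∈ e then 0 else l y e) * chi C e =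
              if e ∈ C then (if x ∈ e ∨ y ∈ e ∨ s₁ ∈ e ∨ s₂ ∈ e then 0 else l y e) else 0 := by
            intro e
            by_cases h : e ∈ C
            · rw [chi_of_mem h, mul_one, if_pos h]
            · rw [chi_of_notMem h, mul_zero, if_neg h]
          simp_rw [this]
          rw [sum_ite_mem, univ_inter]
        rw [h3]
        refine sum_congr rfl fun e _ => ?_
        by_cases hx : x ∈ e ∨ s₂ ∈ e
        · rw [hl y e hx, zero_mul, if_pos (by rcases hx with h | h <;> simp [h]), zero_mul]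
        · rw [not_or] at hx
          by_cases hye : y ∈ e
          · rw [if_pos (Or.inr (Or.inl hye)), zero_mul]
            obtain ⟨w, rfl⟩ := Sym2.mem_iff_exists.1 hye
            by_cases hw : s(y, w) ∈ D
            · exfalso
              rw [Sym2.eq_swap] at g1 g2
              rcases hD.eq_or_eq g1 g2 hnd.1.2.2.1 hw with rfl | rfl
              · exact hx.1 (by simp)
              · exact hx.2 (by simp)
            · rw [chi_of_notMem hw, mul_zero]
          · by_cases h1e : s₁ ∈ e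
            · rw [if_pos (Or.inr (Or.inr (Or.inl h1e))), zero_mul]
              obtain ⟨w, rfl⟩ := Sym2.mem_iff_exists.1 h1e
              rw [chi_of_notMem, mul_zero]
              intro h
              exact (hD.adj_of_mem h).1 rfl
            · rw [if_neg (by rintro (h | h | h | h) <;> [exact hx.1 h; exact hye h; exact h1e h; exact hx.2 h])]
              congr 1
              by_cases hG : e ∈ G.edgeSet
              · rw [chi_corr hch hG, map_ne h1e]
                rintro rfl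
                exact hye (by simp)
              · rw [chi_of_notMem (fun h => hG (hC.subset e h)), chi_of_notMem]
                intro h
                refine hG ?_
                have h5 := hD.subset e h
                induction e using Sym2.ind with
                | _ u v =>
                  rw [Sym2.mem_iff, not_or] at hye
                  obtain ⟨-, -, -, h6 | ⟨h6, -⟩ | ⟨h6, -⟩⟩ := h5
                  · exact h6
                  · exact absurd h6.symm hye.1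
                  · exact absurd h6.symm hye.2
      · rw [chi_of_notMem g2, mul_zero, zero_mul, zero_mul]
    · rw [chi_of_notMem g1, zero_mul, zero_mul, zero_mul]
  · have h1 : cmn (contr G y s₁) x s₂ = ∅ := by
      rw [eq_empty_iff_forall_notMem]
      intro z hz
      exact h21 (hcm z hz).2
    have h2 : chi C s(s₁, s₂) = 0 := by
      refine chi_of_notMem fun h => h21 (hC.adj_of_mem h).symm
    rw [h1, sum_empty, h2, mul_zero, zero_mul]

end DL.XLFM

namespace DL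

open XLFM

theorem specXLF (hME : SpecME) (hEXM : SpecEXM) (hCTA : SpecCTA) (hCTB : SpecCTB) (hCTF : SpecCTF) (hTRA : SpecTRA)
    (hXM3 : SpecXM3) (hXC3 : SpecXC3) (hC20 : SpecC20) (hS3F : SpecS3F) (hPOL : SpecPOL) : SpecXLF := by
  intro α _ _ G x y s₁ s₂ s₃ s₄ hK hP hE hU1 hU2 hKZ f hf
  have hnd := hP.nd
  simp only [List.nodup_cons, List.mem_cons, List.not_mem_nil, or_false, not_or] at hnd
  have hx2 : G.Adj x s₂ := (hP.nx s₂).2 (Or.inr (Or.inl rfl))
  have hy1 : G.Adj y s₁ := (hP.ny s₁).2 (Or.inr (Or.inl rfl))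
  have hN1 : NoCN G x s₂ := by
    rintro w ⟨h1, h2⟩
    rw [hP.nx] at h1
    rcases h1 with rfl | rfl | rfl | rfl
    · rw [G.adj_comm, hP.ny] at h2
      rcases h2 with h | h | h | h <;>
        [exact hnd.1.2.2.1 h.symm; exact hnd.2.2.1.1 h.symm; exact hnd.2.2.2.1.1 h; exact hnd.2.2.2.1.2 h]
    · exact h2.ne rfl
    · exact hE.2.2.1 h2
    · exact hE.2.2.2 h2
  have hN2 : NoCN G y s₁ := by
    rintro w ⟨h1, h2⟩
    rw [hP.ny] at h1
    rcases h1 with rfl | rfl | rfl | rfl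
    · rw [G.adj_comm, hP.nx] at h2
      rcases h2 with h | h | h | h <;>
        [exact hnd.2.1.1 h.symm; exact hnd.2.2.1.1 h; exact hnd.2.2.1.2.1 h; exact hnd.2.2.1.2.2 h]
    · exact h2.ne rfl
    · exact hE.1 h2
    · exact hE.2.1 h2
  obtain ⟨hC1, hC2, -, -⟩ := hC20.c1 hK hP
  obtain ⟨φ₁, hφ₁, hv₁⟩ := hME hx2 hC1.1 hU1 (fun w h1 h2 => absurd ⟨h1, h2⟩ (hN1 w)) f hf
  obtain ⟨φ₂, hφ₂, hv₂⟩ := hME hy1 hC2.1 hU2 (fun w h1 h2 => absurd ⟨h1, h2⟩ (hN2 w)) f hf
  -- the function on the cycles of `contr G y s₁`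
  have hF2 : InF (contr G y s₁) (fun D => φ₁ (CTFM.Cof G y s₁ D) + φ₂ (CTFM.Cof G y s₁ D)) := by
    refine hCTF.down hy1 hN2 (fun C => φ₁ C + φ₂ C) _ (CTFM.inF_add hPOL hφ₁ hφ₂) ?_
    intro C D _ _ hch
    have : CTFM.Cof G y s₁ D = C := by rw [← chi_inj, CTFM.chi_Cof, hch]
    rw [this]
  have hz2 : ∀ D, CycM (contr G y s₁) x s₂ D → φ₁ (CTFM.Cof G y s₁ D) + φ₂ (CTFM.Cof G y s₁ D) = 0 := by
    intro D hD
    have h1 := CTFM.cof_cyc hy1 hN2 hD.1
    have h2 := cycM_up hnd.1.1 hnd.1.2.1 (Ne.symm hnd.2.1.2.1) (Ne.symm hnd.2.2.1.1) hx2 h1 (CTFM.chi_Cof G y s₁ D) hD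
    rw [← hv₁ _ h2, ← hv₂ _ h1, zmod2_add_self]
  have hadj2 : (contr G y s₁).Adj x s₂ := ⟨hnd.1.2.1, Ne.symm hnd.2.2.1.1, hx2.ne, Or.inl hx2⟩
  have hcc : contr (contr G y s₁) x s₂ = contr (contr G x s₂) y s₁ :=
    hXC3.cc (Ne.symm hnd.1.1) hnd.2.1.2.1 (Ne.symm hnd.1.2.1) hnd.2.2.1.1 hnd.1.2.2.1 hnd.2.1.1
  obtain ⟨ν, ρ, l, hν, hρ, hl, hval⟩ := hEXM hadj2 (by rw [hcc]; exact hXM3.m hK hP) (by rw [hcc]; exact hKZ) (by
    intro w h1 h2
    have h3 := (adj_x hP h1).1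
    rcases (adj_2 hP h2).2 with ⟨h4, h5⟩ | ⟨rfl, h5⟩
    · exact absurd ⟨h3, h5⟩ (hN1 w)
    · rw [hcc]
      exact hS3F.k3 (hXM3.d hK hP hE h5.symm)) _ hF2 hz2
  obtain ⟨ρ', hρ', hmap⟩ := rho_map hTRA hP hρ
  have hν' : ∀ u v, ν u v ≠ 0 → G.Adj x u ∧ G.Adj s₂ (vpr y s₁ v) ∧ u ≠ s₁ ∧ mrg y s₁ (vpr y s₁ v) = v := by
    intro u v h
    obtain ⟨h1, h2, -, -, -⟩ := hν u v h
    have h3 := adj_x hP h1
    obtain ⟨h4, ⟨h5, h6⟩ | ⟨rfl, h6⟩⟩ := adj_2 hP h2
    · refine ⟨h3.1, ?_, h3.2, ?_⟩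
      · rw [vpr_ne h5]; exact h6
      · rw [vpr_ne h5, CTBM.mrg_ne h4]
    · refine ⟨h3.1, ?_, h3.2, ?_⟩
      · rw [vpr_y]; exact h6
      · rw [vpr_y, CTBM.mrg_b]
  refine ⟨fun C => φ₁ C + psi x s₂ (vpr y s₁) ν ρ' C,
    fun e => if x ∈ e ∨ y ∈ e ∨ s₁ ∈ e ∨ s₂ ∈ e then 0 else l y e,
    CTFM.inF_add hPOL hφ₁ (psi_inF hPOL hTRA hρ'), ?_, ?_, ?_⟩
  · intro e he
    exact if_pos he
  · intro C hC
    show f C = φ₁ C + psi x s₂ (vpr y s₁) ν ρ' C
    rw [psi_zero hTRA hx2.ne hρ' ?_ hC, add_zero, hv₁ C hC]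
    intro u v h
    obtain ⟨h1, h2, -, h4, h5⟩ := hν u v h
    refine ⟨h4, ?_⟩
    by_cases hv : v = y
    · rw [hv, vpr_y]; exact Ne.symm hnd.1.2.1
    · rw [vpr_ne hv]; exact h5
  · intro C hC
    obtain ⟨D, hD, hch, -⟩ := hCTA.cp hy1 hN2 C hC
    have h1 := hval D hD
    have h2 : CTFM.Cof G y s₁ D = C := by rw [← chi_inj, CTFM.chi_Cof, hch]
    simp only [h2] at h1
    have h3 := psi_corr hCTB hy1 hN2 hnd.1.1 hnd.1.2.1 (Ne.symm hnd.2.1.2.1) (Ne.symm hnd.2.2.1.1) hν' hC hD hch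
      (hmap C D hch)
    rw [← h3, cnp_corr hP hE hl hC.1 hD hch] at h1
    show f C = φ₁ C + psi x s₂ (vpr y s₁) ν ρ' C + chi C s(x, y) * chi C s(s₁, s₂) *
      ∑ e ∈ C, (if x ∈ e ∨ y ∈ e ∨ s₁ ∈ e ∨ s₂ ∈ e then 0 else l y e)
    rw [add_assoc, ← h1, ← add_assoc, zmod2_add_self, zero_add, hv₂ C hC]

end DL
end
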