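import Pool.Agent.DL.E.Spec2
import Pool.Agent.DL.KC
import Pool.Agent.DL.E.Spec2b
import Pool.Agent.DL.G4.N3A
import Pool.Agent.DL.K.Spec
import Pool.Agent.DL.NP.TRC
import Pool.Agent.DL.E.Spec2c

section
/-!
# MP_3ff0f8_gt, ALGEBRA HALF: module XCC, (3,3)-pairs, deletion of the edge `s₂s₃`
-/
open SimpleGraph Finset

namespace DL

namespace XCCM

variable {α : Type} [Fintype α] [DecidableEq α] {G : SimpleGraph α}

omit [DecidableEq α] in
theorem mem_NB {A : Finset α} {w : α} : w ∈ NB G A ↔ w ∉ A ∧ ∃ a ∈ A, G.Adj a w := by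
  simp [NB]

/-- in a separation of `G - st` (`G` 4-connected, few vertices in `W`) which is no separation of `G`, the ends
of the edge are in different sides -/
theorem cross {s t : α} {W P Q : Finset α} (h : Sep (delE G s t) W P Q)
    (hno : ¬ ∀ a ∈ P, ∀ b ∈ Q, ¬ G.Adj a b) :
    (s ∈ P ∧ t ∈ Q) ∨ (t ∈ P ∧ s ∈ Q) := by
  push Not at hno
  obtain ⟨a, ha, b, hb, hab⟩ := hno
  have h1 := h.2.2.2.2 a ha b hb
  rw [delE_adj] at h1
  have h2 : s(a, b) = s(s, t) := by
    by_contra h3
    exact h1 ⟨hab, h3⟩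
  rw [Sym2.eq_iff] at h2
  rcases h2 with ⟨rfl, rfl⟩ | ⟨rfl, rfl⟩
  · exact Or.inl ⟨ha, hb⟩
  · exact Or.inr ⟨ha, hb⟩

/-- the only edge between the sides -/
theorem only {s t : α} {W P Q : Finset α} (h : Sep (delE G s t) W P Q) (hs : s ∈ P) (ht : t ∈ Q)
    {a b : α} (ha : a ∈ P) (hb : b ∈ Q) (hab : G.Adj a b) : a = s ∧ b = t := by
  have h1 := h.2.2.2.2 a ha b hb
  rw [delE_adj] at h1
  have h2 : s(a, b) = s(s, t) := by
    by_contra h3
    exact h1 ⟨hab, h3⟩
  rw [Sym2.eq_iff] at h2
  rcases h2 with ⟨rfl, rfl⟩ | ⟨rfl, rfl⟩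
  · exact ⟨rfl, rfl⟩
  · exact absurd hb (Finset.disjoint_left.1 h.2.2.2.1 hs)

/-- a side with at least two vertices whose other vertices are not adjacent to some vertices `X` of `W` -/
theorem side (hFRG : SpecFRG) (hG : KConn 4 G) {s t x : α} {W P Q : Finset α} (X : Finset α)
    (hcov : W ∪ P ∪ Q ⊆ VS G) (hcov' : VS G ⊆ W ∪ P ∪ Q) (hWP : Disjoint W P)
    (hno : ∀ a ∈ P, ∀ b ∈ Q, G.Adj a b → a = s ∧ b = t) (hW : (W \ X).card ≤ 2) (hx : x ∈ W)
    (hxX : x ∈ X) (hs : s ∈ P) (hP : 2 ≤ P.card) (hX : ∀ z ∈ X, ∀ a ∈ P, G.Adj z a → a = s) : False := by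
  have hD : (P.erase s).Nonempty := by
    rw [← card_pos, card_erase_of_mem hs]
    omega
  refine hFRG.few (D := P.erase s) (W := insert s (W \ X)) (r := x) hG ?_ hD ?_ ?_ ?_ ?_ ?_
  · intro a ha
    exact hcov (mem_union_left _ (mem_union_right _ (mem_of_mem_erase ha)))
  · intro w hw
    obtain ⟨hw1, a, ha, haw⟩ := mem_NB.1 hw
    rw [mem_erase] at ha
    rw [mem_insert, mem_sdiff]
    have hwV : w ∈ W ∪ P ∪ Q := hcov' (right_mem_VS haw)
    rw [mem_union, mem_union] at hwV
    rcases hwV with (h | h) | h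
    · right
      refine ⟨h, fun hwX => ?_⟩
      exact ha.1 (hX w hwX a ha.2 haw.symm)
    · left
      by_contra hne
      exact hw1 (mem_erase.2 ⟨hne, h⟩)
    · exact absurd (hno a ha.2 w h haw).1 ha.1
  · exact (card_insert_le _ _).trans (by omega)
  · exact hcov (mem_union_left _ (mem_union_left _ hx))
  · intro h
    exact Finset.disjoint_left.1 hWP hx (mem_of_mem_erase h)
  · rw [mem_insert, mem_sdiff]
    rintro (h | h)
    · exact Finset.disjoint_left.1 hWP hx (h ▸ hs)
    · exact h.2 hxX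

variable {x y s₁ s₂ s₃ s₄ : α}

omit [Fintype α] [DecidableEq α] in
/-- all inequalities -/
theorem nes (h : P33 G x y s₁ s₂ s₃ s₄) : x ≠ y ∧ x ≠ s₁ ∧ x ≠ s₂ ∧ x ≠ s₃ ∧ x ≠ s₄ ∧ y ≠ s₁ ∧ y ≠ s₂ ∧
    y ≠ s₃ ∧ y ≠ s₄ ∧ s₁ ≠ s₂ ∧ s₁ ≠ s₃ ∧ s₁ ≠ s₄ ∧ s₂ ≠ s₃ ∧ s₂ ≠ s₄ ∧ s₃ ≠ s₄ := by
  have := h.nd
  simp only [List.nodup_cons, List.mem_cons, List.not_mem_nil, or_false, not_or, List.nodup_nil, and_true,
    not_false_eq_true] at this
  tauto

/-- the position of `x` and `y` -/
theorem posxy (h : P33 G x y s₁ s₂ s₃ s₄) {W P Q : Finset α} (hs : Sep (delE G s₂ s₃) W P Q)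
    (hV : VS (delE G s₂ s₃) = VS G) (h2 : s₂ ∈ P) (h3 : s₃ ∈ Q) :
    x ∈ W ∧ y ∉ P ∧ (s₄ ∈ P → y ∈ W) ∧ (y ∈ Q → s₄ ∉ P) := by
  obtain ⟨n1, n2, n3, n4, n5, n6, n7, n8, n9, n10, n11, n12, n13, n14, n15⟩ := nes h
  have hx2 : G.Adj x s₂ := (h.nx _).2 (by simp)
  have hx3 : G.Adj x s₃ := (h.nx _).2 (by simp)
  have hy3 : G.Adj y s₃ := (h.ny _).2 (by simp)
  have hy4 : G.Adj y s₄ := (h.ny _).2 (by simp)
  have hxW : x ∈ W := by
    have hxV : x ∈ VS (delE G s₂ s₃) := by rw [hV]; exact left_mem_VS hx2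
    rcases hs.mem_or hxV with h' | h' | h'
    · exact h'
    · exact absurd (only hs h2 h3 h' h3 hx3).1 n3
    · exact absurd (only hs h2 h3 h2 h' hx2.symm).2 n4
  have hyP : y ∉ P := fun h' => n7 (only hs h2 h3 h' h3 hy3).1
  have hyQ : y ∈ Q → s₄ ∉ P := by
    intro h' h4
    exact n8 (only hs h2 h3 h4 h' hy4.symm).2
  refine ⟨hxW, hyP, ?_, hyQ⟩
  intro h4
  have hyV : y ∈ VS (delE G s₂ s₃) := by rw [hV]; exact left_mem_VS hy3
  rcases hs.mem_or hyV with h' | h' | h'
  · exact h'
  · exact absurd h' hyP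
  · exact absurd h4 (hyQ h')

end XCCM

open XCCM

theorem specXCC (hF1N : SpecF1N) (hNPC : SpecNPC) (hFRG : SpecFRG) : SpecXCC where
  c1 := by
    intro α _ _ G x y s₁ s₂ s₃ s₄ hK hp h23
    obtain ⟨n1, n2, n3, n4, n5, n6, n7, n8, n9, n10, n11, n12, n13, n14, n15⟩ := nes hp
    have hk3 : KConn 3 (delE G s₂ s₃) := hK.1.delE (by norm_num) s₂ s₃
    have hV : VS (delE G s₂ s₃) = VS G := VS_delE fun v hv => le_trans (by norm_num) (hK.1.le_nbs hv)
    have main : ∀ W P Q, Sep (delE G s₂ s₃) W P Q → W.card = 3 → 2 ≤ P.card → 2 ≤ Q.card → s₂ ∈ P →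
        s₃ ∈ Q → False := by
      intro W P Q hs hW hP hQ h2 h3
      obtain ⟨hxW, hyP, hyW, hyQ⟩ := posxy hp hs hV h2 h3
      have hc : W ∪ P ∪ Q = VS G := by rw [hs.1, hV]
      have hWx : (W \ {x}).card ≤ 2 := by
        rw [card_sdiff_of_subset (by simpa using hxW), hW, card_singleton]
      by_cases h4 : s₄ ∈ P
      · have hyW' := hyW h4
        refine side hFRG hK.1 (s := s₃) (t := s₂) (x := x) (W := W) (P := Q) (Q := P) {x}
          (by rw [union_right_comm, hc]) (by rw [union_right_comm, hc]) hs.2.2.1 ?_ hWx hxW (by simp) h3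
          hQ ?_
        · intro a ha b hb hab
          obtain ⟨e1, e2⟩ := only hs h2 h3 hb ha hab.symm
          exact ⟨e2, e1⟩
        · intro z hz a ha hza
          rw [mem_singleton] at hz
          subst hz
          rcases (hp.nx a).1 hza with rfl | rfl | rfl | rfl
          · exact absurd ha (Finset.disjoint_left.1 hs.2.2.1 hyW')
          · exact absurd ha (Finset.disjoint_left.1 hs.2.2.2.1 h2)
          · rfl
          · exact absurd ha (Finset.disjoint_left.1 hs.2.2.2.1 h4)
      · refine side hFRG hK.1 (s := s₂) (t := s₃) (x := x) (W := W) (P := P) (Q := Q) {x}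
          (by rw [hc]) (by rw [hc]) hs.2.1 ?_ hWx hxW (by simp) h2 hP ?_
        · intro a ha b hb hab
          exact only hs h2 h3 ha hb hab
        · intro z hz a ha hza
          rw [mem_singleton] at hz
          subst hz
          rcases (hp.nx a).1 hza with rfl | rfl | rfl | rfl
          · exact absurd ha hyP
          · rfl
          · exact absurd h3 (Finset.disjoint_left.1 hs.2.2.2.1 ha)
          · exact absurd ha h4
    refine ⟨hk3, fun W P Q hs hW => ?_⟩
    by_contra hcon
    push Not at hcon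
    obtain ⟨hP, hQ⟩ := hcon
    have hno : ¬ ∀ a ∈ P, ∀ b ∈ Q, ¬ G.Adj a b := by
      intro hno
      have h1 : Sep G W P Q := ⟨by rw [hs.1, hV], hs.2.1, hs.2.2.1, hs.2.2.2.1, hno⟩
      have h2 := hK.1.le_of_sep h1 (card_pos.1 (by omega)) (card_pos.1 (by omega))
      omega
    rcases cross hs hno with ⟨h2, h3⟩ | ⟨h3, h2⟩
    · exact main W P Q hs hW hP hQ h2 h3
    · exact main W Q P hs.symm hW hQ hP h2 h3
  np := by
    intro α _ _ G x y s₁ s₂ s₃ s₄ hK hp h23 hNP
    obtain ⟨n1, n2, n3, n4, n5, n6, n7, n8, n9, n10, n11, n12, n13, n14, n15⟩ := nes hp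
    have hx2 : G.Adj x s₂ := (hp.nx _).2 (by simp)
    have hx3 : G.Adj x s₃ := (hp.nx _).2 (by simp)
    have he : contr (delE G s₂ s₃) x s₂ = contr G x s₂ := by
      ext u w
      rw [contr_adj, contr_adj, delE_adj, delE_adj, delE_adj]
      constructor
      · rintro ⟨h1, h2, h3, h4⟩
        refine ⟨h1, h2, h3, ?_⟩
        tauto
      · rintro ⟨h1, h2, h3, h4⟩
        refine ⟨h1, h2, h3, ?_⟩
        rcases h4 with h4 | ⟨rfl, h4⟩ | ⟨rfl, h4⟩
        · left
          refine ⟨h4, fun h5 => ?_⟩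
          rw [Sym2.eq_iff] at h5
          rcases h5 with ⟨h5, -⟩ | ⟨-, h5⟩
          · exact h1 h5
          · exact h2 h5
        · by_cases hw : w = s₃
          · subst hw
            left
            refine ⟨hx3, fun h5 => ?_⟩
            rw [Sym2.eq_iff] at h5
            rcases h5 with ⟨h5, -⟩ | ⟨-, h5⟩
            · exact h1 h5
            · exact h2 h5
          · right; left
            refine ⟨rfl, h4, fun h5 => ?_⟩
            rw [Sym2.eq_iff] at h5
            rcases h5 with ⟨-, h5⟩ | ⟨-, h5⟩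
            · exact hw h5
            · exact h2 h5
        · by_cases hu : u = s₃
          · subst hu
            left
            refine ⟨hx3.symm, fun h5 => ?_⟩
            rw [Sym2.eq_iff] at h5
            rcases h5 with ⟨h5, -⟩ | ⟨-, h5⟩
            · exact h1 h5
            · exact h2 h5
          · right; right
            refine ⟨rfl, h4, fun h5 => ?_⟩
            rw [Sym2.eq_iff] at h5
            rcases h5 with ⟨h5, -⟩ | ⟨h5, -⟩
            · exact h1 h5
            · exact hu h5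
    have h1 := (hF1N hK hp hNP).1
    rw [← he] at h1
    refine hNPC.up ?_ h1
    rw [delE_adj]
    refine ⟨hx2, fun h5 => ?_⟩
    rw [Sym2.eq_iff] at h5
    rcases h5 with ⟨h5, -⟩ | ⟨h5, -⟩
    · exact n3 h5
    · exact n4 h5

end DL
end

section
/-!
# MP_3ff0f8_gt, ALGEBRA HALF: module XA3, (3,3)-pairs, case 2.3: deleting edges at `s₃`
-/
open SimpleGraph Finset

namespace DL

namespace XA3M

open XCCM

variable {α : Type} [Fintype α] [DecidableEq α] {G : SimpleGraph α}

/-- a side of a separation is contained in `E` if the vertices of `E ∪ T` have few neighbours outside `E` -/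
theorem shrink (hFRG : SpecFRG) (hG : KConn 4 G) {T A B : Finset α} (h : Sep G T A B) (hB : B.Nonempty)
    (E X : Finset α) (hE : E ⊆ A) (hX : ∀ z ∈ X, ∀ a ∈ A, G.Adj z a → a ∈ E)
    (hc : (E \ X).card + (T \ X).card ≤ 3) : A ⊆ E := by
  by_contra hcon
  rw [not_subset] at hcon
  obtain ⟨a, ha, haE⟩ := hcon
  obtain ⟨b, hb⟩ := hB
  refine hFRG.few (D := A \ E) (W := (E \ X) ∪ (T \ X)) (r := b) hG ?_ ⟨a, mem_sdiff.2 ⟨ha, haE⟩⟩ ?_
    ((card_union_le _ _).trans hc) (h.subQ hb) ?_ ?_
  · exact sdiff_subset.trans h.subP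
  · intro w hw
    obtain ⟨hw1, c, hc, hcw⟩ := mem_NB.1 hw
    rw [mem_sdiff] at hc
    rw [mem_union, mem_sdiff, mem_sdiff]
    have hwX : w ∉ X := fun h' => hc.2 (hX w h' c hc.1 hcw.symm)
    rcases h.mem_or (right_mem_VS hcw) with h' | h' | h'
    · exact Or.inr ⟨h', hwX⟩
    · left
      refine ⟨?_, hwX⟩
      by_contra h2
      exact hw1 (mem_sdiff.2 ⟨h', h2⟩)
    · exact absurd hcw (h.2.2.2.2 c hc.1 w h')
  · intro h'
    exact Finset.disjoint_left.1 h.2.2.2.1 (mem_sdiff.1 h').1 hb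
  · rw [mem_union, mem_sdiff, mem_sdiff]
    rintro (h' | h')
    · exact Finset.disjoint_left.1 h.2.2.2.1 (hE h'.1) hb
    · exact Finset.disjoint_left.1 h.2.2.1 h'.1 hb

omit [Fintype α] in
theorem card2 {T X : Finset α} {a b : α} (hT : T.card = 4) (ha : a ∈ T) (hb : b ∈ T) (hab : a ≠ b)
    (haX : a ∈ X) (hbX : b ∈ X) : (T \ X).card ≤ 2 := by
  have h1 : T \ X ⊆ T \ {a, b} := by
    intro z hz
    rw [mem_sdiff] at hz ⊢
    refine ⟨hz.1, fun h => hz.2 ?_⟩
    simp only [mem_insert, mem_singleton] at h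
    rcases h with rfl | rfl <;> assumption
  have h0 : ({a, b} : Finset α) ⊆ T := by
    intro z hz
    simp only [mem_insert, mem_singleton] at hz
    rcases hz with rfl | rfl <;> assumption
  have h2 := card_le_card h1
  rwa [card_sdiff_of_subset h0, hT, card_pair hab] at h2

omit [Fintype α] in
theorem card3 {T X : Finset α} {a b c : α} (hT : T.card = 4) (ha : a ∈ T) (hb : b ∈ T) (hc : c ∈ T)
    (hab : a ≠ b) (hac : a ≠ c) (hbc : b ≠ c)
    (haX : a ∈ X) (hbX : b ∈ X) (hcX : c ∈ X) : (T \ X).card ≤ 1 := by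
  have h1 : T \ X ⊆ T \ {a, b, c} := by
    intro z hz
    rw [mem_sdiff] at hz ⊢
    refine ⟨hz.1, fun h => hz.2 ?_⟩
    simp only [mem_insert, mem_singleton] at h
    rcases h with rfl | rfl | rfl <;> assumption
  have h0 : ({a, b, c} : Finset α) ⊆ T := by
    intro z hz
    simp only [mem_insert, mem_singleton] at hz
    rcases hz with rfl | rfl | rfl <;> assumption
  have h2 := card_le_card h1
  rwa [card_sdiff_of_subset h0, hT, card_insert_of_notMem (by simp [hab, hac]), card_pair hbc] at h2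

omit [Fintype α] in
theorem ex4 {T : Finset α} {a b c : α} (hT : T.card = 4) (ha : a ∈ T) (hb : b ∈ T) (hc : c ∈ T)
    (hab : a ≠ b) (hac : a ≠ c) (hbc : b ≠ c) : ∃ d, T = {a, b, c, d} ∧ d ≠ a ∧ d ≠ b ∧ d ≠ c := by
  have h1 : ({a, b, c} : Finset α) ⊆ T := by
    intro z hz
    simp only [mem_insert, mem_singleton] at hz
    rcases hz with rfl | rfl | rfl <;> assumption
  have h2 : (T \ {a, b, c}).card = 1 := by
    rw [card_sdiff_of_subset h1, hT, card_insert_of_notMem (by simp [hab, hac]), card_pair hbc]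
  obtain ⟨d, hd⟩ := card_eq_one.1 h2
  have hd' : d ∈ T \ {a, b, c} := by rw [hd]; exact mem_singleton_self d
  rw [mem_sdiff] at hd'
  simp only [mem_insert, mem_singleton, not_or] at hd'
  refine ⟨d, ?_, hd'.2.1, hd'.2.2.1, hd'.2.2.2⟩
  have h3 := sdiff_union_of_subset h1
  rw [hd] at h3
  rw [← h3]
  ext z
  simp only [mem_union, mem_insert, mem_singleton]
  tauto

omit [Fintype α] in
theorem ex2 {T : Finset α} {a b : α} (hT : T.card = 4) (ha : a ∈ T) (hb : b ∈ T) (hab : a ≠ b) :
    ∃ c d, [a, b, c, d].Nodup ∧ T = {a, b, c, d} := by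
  have h1 : ({a, b} : Finset α) ⊆ T := by
    intro z hz
    simp only [mem_insert, mem_singleton] at hz
    rcases hz with rfl | rfl <;> assumption
  have h2 : (T \ {a, b}).card = 2 := by
    rw [card_sdiff_of_subset h1, hT, card_pair hab]
  obtain ⟨c, d, hcd, hd⟩ := card_eq_two.1 h2
  have hc' : c ∈ T \ {a, b} := by rw [hd]; simp
  have hd' : d ∈ T \ {a, b} := by rw [hd]; simp
  rw [mem_sdiff] at hc' hd'
  simp only [mem_insert, mem_singleton, not_or] at hc' hd'
  refine ⟨c, d, ?_, ?_⟩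
  · simp only [List.nodup_cons, List.mem_cons, List.not_mem_nil, or_false, not_or, List.nodup_nil,
      and_true, not_false_eq_true]
    exact ⟨⟨hab, Ne.symm hc'.2.1, Ne.symm hd'.2.1⟩, ⟨Ne.symm hc'.2.2, Ne.symm hd'.2.2⟩, hcd⟩
  · have h3 := sdiff_union_of_subset h1
    rw [hd] at h3
    rw [← h3]
    ext z
    simp only [mem_union, mem_insert, mem_singleton]
    tauto

/-- the neighbours of a vertex with at most four neighbours -/
theorem nb4 (hG : KConn 4 G) {v a b c d : α} (hv : v ∈ VS G)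
    (h : ∀ w, G.Adj v w → w = a ∨ w = b ∨ w = c ∨ w = d) (w : α) :
    G.Adj v w ↔ w = a ∨ w = b ∨ w = c ∨ w = d := by
  refine ⟨h w, ?_⟩
  have h1 : nbs G v ⊆ {a, b, c, d} := by
    intro z hz
    rw [mem_nbs] at hz
    simpa using h z hz
  have h2 : nbs G v = {a, b, c, d} := eq_of_subset_of_card_le h1
    ((card_insert_le _ _).trans (Nat.succ_le_succ ((card_insert_le _ _).trans
      (Nat.succ_le_succ (card_insert_le _ _)))) |>.trans (hG.le_nbs hv))
  intro hw
  rw [← mem_nbs, h2]
  simpa using hw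

variable {x y s₁ s₂ s₃ s₄ : α}

theorem sep (hFRG : SpecFRG) (ht : T3 G x y s₁ s₂ s₃ s₄) (h4 : H4 G x y s₁ s₄) (T A B : Finset α)
    (hs : Sep G T A B) (hT : T.card = 4) (h3 : s₃ ∈ T) (hA : 2 ≤ A.card) (hB : 1 ≤ B.card)
    (hN : ∀ w ∈ A, G.Adj s₃ w → w = s₁ ∨ w = y) :
    (A = {y, s₁} ∧ ∃ d, T = {s₃, x, s₄, d} ∧ ∀ w, G.Adj s₁ w ↔ w = y ∨ w = s₃ ∨ w = s₄ ∨ w = d) ∨
      ∃ c d, [s₃, x, c, d].Nodup ∧ T = {s₃, x, c, d} ∧ y ∈ A ∧ s₁ ∈ A ∧ s₄ ∈ A ∧ s₂ ∈ B := by
  obtain ⟨n1, n2, n3, n4, n5, n6, n7, n8, n9, n10, n11, n12, n13, n14, n15⟩ := nes ht.p33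
  have hK := ht.k48.1
  have hAne : A.Nonempty := card_pos.1 (by omega)
  have hBne : B.Nonempty := card_pos.1 (by omega)
  have hxy : G.Adj x y := (ht.p33.nx _).2 (by simp)
  have hx2 : G.Adj x s₂ := (ht.p33.nx _).2 (by simp)
  have hx3 : G.Adj x s₃ := (ht.p33.nx _).2 (by simp)
  have hx4 : G.Adj x s₄ := (ht.p33.nx _).2 (by simp)
  have hy1 : G.Adj y s₁ := (ht.p33.ny _).2 (by simp)
  have hy3 : G.Adj y s₃ := (ht.p33.ny _).2 (by simp)
  have hy4 : G.Adj y s₄ := (ht.p33.ny _).2 (by simp)
  have hno := hs.2.2.2.2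
  have dTA : ∀ z, z ∈ T → z ∉ A := fun z h h' => Finset.disjoint_left.1 hs.2.1 h h'
  have dTB : ∀ z, z ∈ T → z ∉ B := fun z h h' => Finset.disjoint_left.1 hs.2.2.1 h h'
  have dAB : ∀ z, z ∈ A → z ∉ B := fun z h h' => Finset.disjoint_left.1 hs.2.2.2.1 h h'
  have hxA : x ∉ A := by
    intro h
    rcases hN x h hx3.symm with h' | h'
    · exact n2 h'
    · exact n1 h'
  have h2A : s₂ ∉ A := by
    intro h
    rcases hN s₂ h ht.a2.symm with h' | h'
    · exact n10 h'.symm
    · exact n7 h'.symm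
  by_cases hyA : y ∈ A
  · have hxT : x ∈ T := by
      rcases hs.mem_or (left_mem_VS hxy) with h | h | h
      · exact h
      · exact absurd h hxA
      · exact absurd hxy.symm (hno y hyA x h)
    have h1B : s₁ ∉ B := fun h => hno y hyA s₁ h hy1
    have h4B : s₄ ∉ B := fun h => hno y hyA s₄ h hy4
    have h2B : s₂ ∈ B := by
      obtain ⟨p, hp, hxp⟩ := hK.exists_adj_of_sep hs.symm hBne hT.le hxT
      rcases (ht.p33.nx p).1 hxp with rfl | rfl | rfl | rfl
      · exact absurd hp (dAB _ hyA)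
      · exact hp
      · exact absurd hp (dTB _ h3)
      · exact absurd hp h4B
    rcases hs.mem_or (right_mem_VS hy1) with h1T | h1A | h1B'
    · -- `s₁ ∈ T`
      exfalso
      have h1A := dTA _ h1T
      rcases hs.mem_or (right_mem_VS hy4) with h4T | h4A | h4B'
      · have h5 := shrink hFRG hK hs hBne {y} {s₃, x} (by simpa using hyA) (by
          intro z hz a ha hza
          rw [mem_singleton]
          simp only [mem_insert, mem_singleton] at hz
          rcases hz with rfl | rfl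
          · rcases hN a ha hza with rfl | rfl
            · exact absurd ha h1A
            · rfl
          · rcases (ht.p33.nx a).1 hza with rfl | rfl | rfl | rfl
            · rfl
            · exact absurd ha h2A
            · exact absurd ha (dTA _ h3)
            · exact absurd ha (dTA _ h4T)) (by
          have h6 := card2 hT h3 hxT (Ne.symm n4) (X := {s₃, x}) (by simp) (by simp)
          have h7 : (({y} : Finset α) \ {s₃, x}).card ≤ 1 :=
            (card_le_card sdiff_subset).trans (by simp)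
          omega)
        have h6 := card_le_card h5
        rw [card_singleton] at h6
        omega
      · obtain ⟨z, hTz, hz3, hzx, hz1⟩ := ex4 hT h3 hxT h1T (Ne.symm n4) (Ne.symm n11) n2
        have h5 := shrink hFRG hK hs hBne {y, s₄} {s₃, x, y} (by
          intro a ha
          simp only [mem_insert, mem_singleton] at ha
          rcases ha with rfl | rfl <;> assumption) (by
          intro z hz a ha hza
          simp only [mem_insert, mem_singleton] at hz ⊢
          rcases hz with rfl | rfl | rfl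
          · rcases hN a ha hza with rfl | rfl
            · exact absurd ha h1A
            · exact Or.inl rfl
          · rcases (ht.p33.nx a).1 hza with rfl | rfl | rfl | rfl
            · exact Or.inl rfl
            · exact absurd ha h2A
            · exact absurd ha (dTA _ h3)
            · exact Or.inr rfl
          · rcases (ht.p33.ny a).1 hza with rfl | rfl | rfl | rfl
            · exact absurd ha hxA
            · exact absurd ha h1A
            · exact absurd ha (dTA _ h3)
            · exact Or.inr rfl) (by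
          have h6 := card2 hT h3 hxT (Ne.symm n4) (X := {s₃, x, y}) (by simp) (by simp)
          have h7 : (({y, s₄} : Finset α) \ {s₃, x, y}) ⊆ {s₄} := by
            intro a ha
            simp only [mem_sdiff, mem_insert, mem_singleton, not_or] at ha ⊢
            tauto
          have h8 := card_le_card h7
          rw [card_singleton] at h8
          omega)
        have h34 : ¬ G.Adj s₃ s₄ := by
          intro h
          rcases hN s₄ h4A h with h' | h'
          · exact n12 h'.symm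
          · exact n9 h'.symm
        refine h4 z (nb4 hK (right_mem_VS hy4) ?_)
        intro w hw
        rcases hs.mem_or (right_mem_VS hw) with h | h | h
        · rw [hTz] at h
          simp only [mem_insert, mem_singleton] at h
          rcases h with rfl | rfl | rfl | rfl
          · exact absurd hw.symm h34
          · exact Or.inl rfl
          · exact Or.inr (Or.inr (Or.inl rfl))
          · exact Or.inr (Or.inr (Or.inr rfl))
        · have := h5 h
          simp only [mem_insert, mem_singleton] at this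
          rcases this with rfl | rfl
          · exact Or.inr (Or.inl rfl)
          · exact absurd rfl hw.ne
        · exact absurd hw (hno s₄ h4A w h)
      · exact h4B h4B'
    · rcases hs.mem_or (right_mem_VS hy4) with h4T | h4A | h4B'
      · left
        obtain ⟨d, hTd, hd3, hdx, hd4⟩ := ex4 hT h3 hxT h4T (Ne.symm n4) n15 n5
        have h5 := shrink hFRG hK hs hBne {y, s₁} {s₃, x, y} (by
          intro a ha
          simp only [mem_insert, mem_singleton] at ha
          rcases ha with rfl | rfl <;> assumption) (by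
          intro z hz a ha hza
          simp only [mem_insert, mem_singleton] at hz ⊢
          rcases hz with rfl | rfl | rfl
          · exact (hN a ha hza).symm
          · rcases (ht.p33.nx a).1 hza with rfl | rfl | rfl | rfl
            · exact Or.inl rfl
            · exact absurd ha h2A
            · exact absurd ha (dTA _ h3)
            · exact absurd ha (dTA _ h4T)
          · rcases (ht.p33.ny a).1 hza with rfl | rfl | rfl | rfl
            · exact absurd ha hxA
            · exact Or.inr rfl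
            · exact absurd ha (dTA _ h3)
            · exact absurd ha (dTA _ h4T)) (by
          have h6 := card2 hT h3 hxT (Ne.symm n4) (X := {s₃, x, y}) (by simp) (by simp)
          have h7 : (({y, s₁} : Finset α) \ {s₃, x, y}) ⊆ {s₁} := by
            intro a ha
            simp only [mem_sdiff, mem_insert, mem_singleton, not_or] at ha ⊢
            tauto
          have h8 := card_le_card h7
          rw [card_singleton] at h8
          omega)
        have hAe : A = {y, s₁} := eq_of_subset_of_card_le h5 (by rw [card_pair n6]; exact hA)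
        refine ⟨hAe, d, hTd, nb4 hK (right_mem_VS hy1) ?_⟩
        intro w hw
        rcases hs.mem_or (right_mem_VS hw) with h | h | h
        · rw [hTd] at h
          simp only [mem_insert, mem_singleton] at h
          rcases h with rfl | rfl | rfl | rfl
          · exact Or.inr (Or.inl rfl)
          · rcases (ht.p33.nx s₁).1 hw.symm with h' | h' | h' | h'
            · exact absurd h' (Ne.symm n6)
            · exact absurd h' n10
            · exact absurd h' n11
            · exact absurd h' n12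
          · exact Or.inr (Or.inr (Or.inl rfl))
          · exact Or.inr (Or.inr (Or.inr rfl))
        · have := h5 h
          simp only [mem_insert, mem_singleton] at this
          rcases this with rfl | rfl
          · exact Or.inl rfl
          · exact absurd rfl hw.ne
        · exact absurd hw (hno s₁ h1A w h)
      · right
        obtain ⟨c, d, hnd, hTe⟩ := ex2 hT h3 hxT (Ne.symm n4)
        exact ⟨c, d, hnd, hTe, hyA, h1A, h4A, h2B⟩
      · exact absurd h4B' h4B
    · exact absurd h1B' h1B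
  · exfalso
    have h1A : s₁ ∈ A := by
      obtain ⟨p, hp, h3p⟩ := hK.exists_adj_of_sep hs hAne hT.le h3
      rcases hN p hp h3p with rfl | rfl
      · exact hp
      · exact absurd hp hyA
    have hyT : y ∈ T := by
      rcases hs.mem_or (left_mem_VS hy1) with h | h | h
      · exact h
      · exact absurd h hyA
      · exact absurd hy1.symm (hno s₁ h1A y h)
    by_cases h4A : s₄ ∈ A
    · have hxT : x ∈ T := by
        rcases hs.mem_or (left_mem_VS hxy) with h | h | h
        · exact h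
        · exact absurd h hxA
        · exact absurd hx4.symm (hno s₄ h4A x h)
      obtain ⟨p, hp, hyp⟩ := hK.exists_adj_of_sep hs.symm hBne hT.le hyT
      rcases (ht.p33.ny p).1 hyp with rfl | rfl | rfl | rfl
      · exact dTB _ hxT hp
      · exact dAB _ h1A hp
      · exact dTB _ h3 hp
      · exact dAB _ h4A hp
    · have h5 := shrink hFRG hK hs hBne {s₁} {s₃, y} (by simpa using h1A) (by
        intro z hz a ha hza
        rw [mem_singleton]
        simp only [mem_insert, mem_singleton] at hz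
        rcases hz with rfl | rfl
        · rcases hN a ha hza with rfl | rfl
          · rfl
          · exact absurd ha hyA
        · rcases (ht.p33.ny a).1 hza with rfl | rfl | rfl | rfl
          · exact absurd ha hxA
          · rfl
          · exact absurd ha (dTA _ h3)
          · exact absurd ha h4A) (by
        have h6 := card2 hT h3 hyT (Ne.symm n8) (X := {s₃, y}) (by simp) (by simp)
        have h7 : (({s₁} : Finset α) \ {s₃, y}).card ≤ 1 :=
          (card_le_card sdiff_subset).trans (by simp)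
        omega)
      have h6 := card_le_card h5
      rw [card_singleton] at h6
      omega

/-- the first half of `s12` -/
theorem half (hFRG : SpecFRG) (ht : T3 G x y s₁ s₂ s₃ s₄) {T A B : Finset α}
    (hs : Sep G T A B) (hT : T.card = 4) (h3 : s₃ ∈ T) (hA : 2 ≤ A.card) (hB : 1 ≤ B.card)
    (hN : ∀ w ∈ A, G.Adj s₃ w → w = s₁ ∨ w = s₂) (h1A : s₁ ∈ A) : s₂ ∈ A := by
  by_contra h2A
  obtain ⟨n1, n2, n3, n4, n5, n6, n7, n8, n9, n10, n11, n12, n13, n14, n15⟩ := nes ht.p33
  have hK := ht.k48.1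
  have hBne : B.Nonempty := card_pos.1 (by omega)
  have hx3 : G.Adj x s₃ := (ht.p33.nx _).2 (by simp)
  have hx4 : G.Adj x s₄ := (ht.p33.nx _).2 (by simp)
  have hy1 : G.Adj y s₁ := (ht.p33.ny _).2 (by simp)
  have hy3 : G.Adj y s₃ := (ht.p33.ny _).2 (by simp)
  have hno := hs.2.2.2.2
  have dTA : ∀ z, z ∈ T → z ∉ A := fun z h h' => Finset.disjoint_left.1 hs.2.1 h h'
  have dTB : ∀ z, z ∈ T → z ∉ B := fun z h h' => Finset.disjoint_left.1 hs.2.2.1 h h'
  have dAB : ∀ z, z ∈ A → z ∉ B := fun z h h' => Finset.disjoint_left.1 hs.2.2.2.1 h h'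
  have hxA : x ∉ A := by
    intro h
    rcases hN x h hx3.symm with h' | h'
    · exact n2 h'
    · exact n3 h'
  have hyA : y ∉ A := by
    intro h
    rcases hN y h hy3.symm with h' | h'
    · exact n6 h'
    · exact n7 h'
  have hyT : y ∈ T := by
    rcases hs.mem_or (left_mem_VS hy1) with h | h | h
    · exact h
    · exact absurd h hyA
    · exact absurd hy1.symm (hno s₁ h1A y h)
  by_cases h4A : s₄ ∈ A
  · have hxT : x ∈ T := by
      rcases hs.mem_or (left_mem_VS hx3) with h | h | h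
      · exact h
      · exact absurd h hxA
      · exact absurd hx4.symm (hno s₄ h4A x h)
    obtain ⟨p, hp, hyp⟩ := hK.exists_adj_of_sep hs.symm hBne hT.le hyT
    rcases (ht.p33.ny p).1 hyp with rfl | rfl | rfl | rfl
    · exact dTB _ hxT hp
    · exact dAB _ h1A hp
    · exact dTB _ h3 hp
    · exact dAB _ h4A hp
  · have h5 := shrink hFRG hK hs hBne {s₁} {s₃, y} (by simpa using h1A) (by
      intro z hz a ha hza
      rw [mem_singleton]
      simp only [mem_insert, mem_singleton] at hz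
      rcases hz with rfl | rfl
      · rcases hN a ha hza with rfl | rfl
        · rfl
        · exact absurd ha h2A
      · rcases (ht.p33.ny a).1 hza with rfl | rfl | rfl | rfl
        · exact absurd ha hxA
        · rfl
        · exact absurd ha (dTA _ h3)
        · exact absurd ha h4A) (by
      have h6 := card2 hT h3 hyT (Ne.symm n8) (X := {s₃, y}) (by simp) (by simp)
      have h7 : (({s₁} : Finset α) \ {s₃, y}).card ≤ 1 :=
        (card_le_card sdiff_subset).trans (by simp)
      omega)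
    have h6 := card_le_card h5
    rw [card_singleton] at h6
    omega

end XA3M

open XCCM XA3M

theorem specXA3 (hCRL : SpecCRL) (hXCB : SpecXCB) (hFRG : SpecFRG) : SpecXA3 where
  sep := by
    intro α _ _ G x y s₁ s₂ s₃ s₄ ht h4 T A B hs hT h3 hA hB hN
    exact XA3M.sep hFRG ht h4 T A B hs hT h3 hA hB hN
  y0 := by
    intro α _ _ G x y s₁ s₂ s₃ s₄ ht h4
    obtain ⟨n1, n2, n3, n4, n5, n6, n7, n8, n9, n10, n11, n12, n13, n14, n15⟩ := nes ht.p33
    have hx3 : G.Adj x s₃ := (ht.p33.nx _).2 (by simp)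
    refine hCRL.c1 (x := x) (y := s₁) (z := s₂) ht.k48.1 n2 n3 n10 ?_ ?_
    · rintro w (rfl | rfl | rfl)
      · exact ⟨hx3.symm, by simpa using n1⟩
      · exact ⟨ht.a1.symm, by simpa using Ne.symm n6⟩
      · exact ⟨ht.a2.symm, by simpa using Ne.symm n7⟩
    · intro T A B hs hT h3 hA hB
      by_contra hcon
      push Not at hcon
      have hN : ∀ w ∈ A, G.Adj s₃ w → w = y := by
        intro w hw h
        simpa using hcon w hw h
      have h1A : s₁ ∈ A := by
        rcases XA3M.sep hFRG ht h4 T A B hs hT h3 hA hB (fun w hw h => Or.inr (hN w hw h)) with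
          ⟨h, -⟩ | ⟨c, d, -, -, -, h, -⟩
        · rw [h]
          simp
        · exact h
      exact n6 (hN s₁ h1A ht.a1.symm).symm
  y1 := by
    intro α _ _ G x y s₁ s₂ s₃ s₄ ht h4
    obtain ⟨n1, n2, n3, n4, n5, n6, n7, n8, n9, n10, n11, n12, n13, n14, n15⟩ := nes ht.p33
    have hxy : G.Adj x y := (ht.p33.nx _).2 (by simp)
    have hx2 : G.Adj x s₂ := (ht.p33.nx _).2 (by simp)
    have hx3 : G.Adj x s₃ := (ht.p33.nx _).2 (by simp)
    have hy1 : G.Adj y s₁ := (ht.p33.ny _).2 (by simp)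
    have hy4 : G.Adj y s₄ := (ht.p33.ny _).2 (by simp)
    obtain ⟨w, hw, hw'⟩ := hXCB.s3 ht.k48 ht.p33
    simp only [mem_insert, mem_singleton, not_or] at hw'
    refine hCRL.c1 (x := x) (y := s₁) (z := w) ht.k48.1 n2 (Ne.symm hw'.1) (Ne.symm hw'.2.2.1) ?_ ?_
    · rintro z (rfl | rfl | rfl)
      · exact ⟨hx3.symm, by simp [n1, n3]⟩
      · exact ⟨ht.a1.symm, by simp [Ne.symm n6, n10]⟩
      · exact ⟨hw, by simp [hw'.2.1, hw'.2.2.2.1]⟩
    · intro T A B hs hT h3 hA hB
      by_contra hcon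
      push Not at hcon
      have hK := ht.k48.1
      have hAne : A.Nonempty := card_pos.1 (by omega)
      have hBne : B.Nonempty := card_pos.1 (by omega)
      have hN : ∀ w ∈ A, G.Adj s₃ w → w = s₂ ∨ w = y := by
        intro w hw h
        simpa using hcon w hw h
      have hno := hs.2.2.2.2
      have dTA : ∀ z, z ∈ T → z ∉ A := fun z h h' => Finset.disjoint_left.1 hs.2.1 h h'
      have dTB : ∀ z, z ∈ T → z ∉ B := fun z h h' => Finset.disjoint_left.1 hs.2.2.1 h h'
      have dAB : ∀ z, z ∈ A → z ∉ B := fun z h h' => Finset.disjoint_left.1 hs.2.2.2.1 h h'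
      have hxA : x ∉ A := by
        intro h
        rcases hN x h hx3.symm with h' | h'
        · exact n3 h'
        · exact n1 h'
      have h1A : s₁ ∉ A := by
        intro h
        rcases hN s₁ h ht.a1.symm with h' | h'
        · exact n10 h'
        · exact n6 h'.symm
      by_cases hyA : y ∈ A
      · have hxT : x ∈ T := by
          rcases hs.mem_or (left_mem_VS hxy) with h | h | h
          · exact h
          · exact absurd h hxA
          · exact absurd hxy.symm (hno y hyA x h)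
        have h4B : s₄ ∉ B := fun h => hno y hyA s₄ h hy4
        have h2B : s₂ ∈ B := by
          obtain ⟨p, hp, hxp⟩ := hK.exists_adj_of_sep hs.symm hBne hT.le hxT
          rcases (ht.p33.nx p).1 hxp with rfl | rfl | rfl | rfl
          · exact absurd hp (dAB _ hyA)
          · exact hp
          · exact absurd hp (dTB _ h3)
          · exact absurd hp h4B
        apply h1A
        rcases XA3M.sep hFRG ht h4 T A B hs hT h3 hA hB (by
            intro w hw h
            rcases hN w hw h with rfl | h'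
            · exact absurd h2B (dAB _ hw)
            · exact Or.inr h') with
          ⟨h, -⟩ | ⟨c, d, -, -, -, h, -⟩
        · rw [h]
          simp
        · exact h
      · have h2A : s₂ ∈ A := by
          obtain ⟨p, hp, h3p⟩ := hK.exists_adj_of_sep hs hAne hT.le h3
          rcases hN p hp h3p with rfl | rfl
          · exact hp
          · exact absurd hp hyA
        have hxT : x ∈ T := by
          rcases hs.mem_or (left_mem_VS hxy) with h | h | h
          · exact h
          · exact absurd h hxA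
          · exact absurd hx2.symm (hno s₂ h2A x h)
        by_cases h4A : s₄ ∈ A
        · have hyT : y ∈ T := by
            rcases hs.mem_or (right_mem_VS hxy) with h | h | h
            · exact h
            · exact absurd h hyA
            · exact absurd hy4.symm (hno s₄ h4A y h)
          obtain ⟨p, hp, hxp⟩ := hK.exists_adj_of_sep hs.symm hBne hT.le hxT
          rcases (ht.p33.nx p).1 hxp with rfl | rfl | rfl | rfl
          · exact dTB _ hyT hp
          · exact dAB _ h2A hp
          · exact dTB _ h3 hp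
          · exact dAB _ h4A hp
        · have h5 := shrink hFRG hK hs hBne {s₂} {s₃, x} (by simpa using h2A) (by
            intro z hz a ha hza
            rw [mem_singleton]
            simp only [mem_insert, mem_singleton] at hz
            rcases hz with rfl | rfl
            · rcases hN a ha hza with rfl | rfl
              · rfl
              · exact absurd ha hyA
            · rcases (ht.p33.nx a).1 hza with rfl | rfl | rfl | rfl
              · exact absurd ha hyA
              · rfl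
              · exact absurd ha (dTA _ h3)
              · exact absurd ha h4A) (by
            have h6 := card2 hT h3 hxT (Ne.symm n4) (X := {s₃, x}) (by simp) (by simp)
            have h7 : (({s₂} : Finset α) \ {s₃, x}).card ≤ 1 :=
              (card_le_card sdiff_subset).trans (by simp)
            omega)
          have h6 := card_le_card h5
          rw [card_singleton] at h6
          omega
  s12 := by
    intro α _ _ G x y s₁ s₂ s₃ s₄ ht
    obtain ⟨n1, n2, n3, n4, n5, n6, n7, n8, n9, n10, n11, n12, n13, n14, n15⟩ := nes ht.p33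
    have hxy : G.Adj x y := (ht.p33.nx _).2 (by simp)
    have hx2 : G.Adj x s₂ := (ht.p33.nx _).2 (by simp)
    have hx3 : G.Adj x s₃ := (ht.p33.nx _).2 (by simp)
    have hy1 : G.Adj y s₁ := (ht.p33.ny _).2 (by simp)
    have hy3 : G.Adj y s₃ := (ht.p33.ny _).2 (by simp)
    obtain ⟨w, hw, hw'⟩ := hXCB.s3 ht.k48 ht.p33
    simp only [mem_insert, mem_singleton, not_or] at hw'
    refine hCRL.c1 (x := x) (y := y) (z := w) ht.k48.1 n1 (Ne.symm hw'.1) (Ne.symm hw'.2.1) ?_ ?_
    · rintro z (rfl | rfl | rfl)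
      · exact ⟨hx3.symm, by simp [n2, n3]⟩
      · exact ⟨hy3.symm, by simp [n6, n7]⟩
      · exact ⟨hw, by simp [hw'.2.2.1, hw'.2.2.2.1]⟩
    · intro T A B hs hT h3 hA hB
      by_contra hcon
      push Not at hcon
      have hK := ht.k48.1
      have hAne : A.Nonempty := card_pos.1 (by omega)
      have hBne : B.Nonempty := card_pos.1 (by omega)
      have hN : ∀ w ∈ A, G.Adj s₃ w → w = s₁ ∨ w = s₂ := by
        intro w hw h
        simpa using hcon w hw h
      have hno := hs.2.2.2.2
      have dTA : ∀ z, z ∈ T → z ∉ A := fun z h h' => Finset.disjoint_left.1 hs.2.1 h h'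
      have dTB : ∀ z, z ∈ T → z ∉ B := fun z h h' => Finset.disjoint_left.1 hs.2.2.1 h h'
      have dAB : ∀ z, z ∈ A → z ∉ B := fun z h h' => Finset.disjoint_left.1 hs.2.2.2.1 h h'
      have h12 : s₁ ∈ A ∧ s₂ ∈ A := by
        obtain ⟨p, hp, h3p⟩ := hK.exists_adj_of_sep hs hAne hT.le h3
        rcases hN p hp h3p with rfl | rfl
        · exact ⟨hp, half hFRG ht hs hT h3 hA hB hN hp⟩
        · exact ⟨half hFRG ht.sym1 hs hT h3 hA hB (fun w hw h => (hN w hw h).symm) hp, hp⟩
      obtain ⟨h1A, h2A⟩ := h12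
      have hxA : x ∉ A := by
        intro h
        rcases hN x h hx3.symm with h' | h'
        · exact n2 h'
        · exact n3 h'
      have hyA : y ∉ A := by
        intro h
        rcases hN y h hy3.symm with h' | h'
        · exact n6 h'
        · exact n7 h'
      have hxT : x ∈ T := by
        rcases hs.mem_or (left_mem_VS hxy) with h | h | h
        · exact h
        · exact absurd h hxA
        · exact absurd hx2.symm (hno s₂ h2A x h)
      have hyT : y ∈ T := by
        rcases hs.mem_or (right_mem_VS hxy) with h | h | h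
        · exact h
        · exact absurd h hyA
        · exact absurd hy1.symm (hno s₁ h1A y h)
      have h4B : s₄ ∈ B := by
        obtain ⟨p, hp, hyp⟩ := hK.exists_adj_of_sep hs.symm hBne hT.le hyT
        rcases (ht.p33.ny p).1 hyp with rfl | rfl | rfl | rfl
        · exact absurd hp (dTB _ hxT)
        · exact absurd hp (dAB _ h1A)
        · exact absurd hp (dTB _ h3)
        · exact hp
      have h4A : s₄ ∉ A := fun h => dAB _ h h4B
      have h5 := shrink hFRG hK hs.symm hAne {s₄} {x, y} (by simpa using h4B) (by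
        intro z hz a ha hza
        rw [mem_singleton]
        simp only [mem_insert, mem_singleton] at hz
        rcases hz with rfl | rfl
        · rcases (ht.p33.nx a).1 hza with rfl | rfl | rfl | rfl
          · exact absurd ha (dTB _ hyT)
          · exact absurd ha (dAB _ h2A)
          · exact absurd ha (dTB _ h3)
          · rfl
        · rcases (ht.p33.ny a).1 hza with rfl | rfl | rfl | rfl
          · exact absurd ha (dTB _ hxT)
          · exact absurd ha (dAB _ h1A)
          · exact absurd ha (dTB _ h3)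
          · rfl) (by
        have h6 := card2 hT hxT hyT n1 (X := {x, y}) (by simp) (by simp)
        have h7 : (({s₄} : Finset α) \ {x, y}).card ≤ 1 :=
          (card_le_card sdiff_subset).trans (by simp)
        omega)
      have h6 := shrink hFRG hK hs hBne {s₁, s₂} {x, y, s₃} (by
        intro a ha
        simp only [mem_insert, mem_singleton] at ha
        rcases ha with rfl | rfl <;> assumption) (by
        intro z hz a ha hza
        simp only [mem_insert, mem_singleton] at hz ⊢
        rcases hz with rfl | rfl | rfl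
        · rcases (ht.p33.nx a).1 hza with rfl | rfl | rfl | rfl
          · exact absurd ha hyA
          · exact Or.inr rfl
          · exact absurd ha (dTA _ h3)
          · exact absurd ha h4A
        · rcases (ht.p33.ny a).1 hza with rfl | rfl | rfl | rfl
          · exact absurd ha hxA
          · exact Or.inl rfl
          · exact absurd ha (dTA _ h3)
          · exact absurd ha h4A
        · exact hN a ha hza) (by
        have h6 := card3 hT hxT hyT h3 n1 n4 n8 (X := {x, y, s₃}) (by simp) (by simp) (by simp)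
        have h7 : (({s₁, s₂} : Finset α) \ {x, y, s₃}).card ≤ 2 :=
          (card_le_card sdiff_subset).trans card_le_two
        omega)
      have h7 := card_le_card h5
      have h8 := card_le_card h6
      have h9 : (VS G).card ≤ T.card + A.card + B.card := by
        rw [← hs.1]
        exact (card_union_le _ _).trans (Nat.add_le_add_right (card_union_le _ _) _)
      have h10 : ({s₁, s₂} : Finset α).card ≤ 2 := card_le_two
      rw [card_singleton] at h7
      have := ht.k48.2
      omega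
  y2 := by
    intro α _ _ G x y s₁ s₂ s₃ s₄ ht h4
    obtain ⟨n1, n2, n3, n4, n5, n6, n7, n8, n9, n10, n11, n12, n13, n14, n15⟩ := nes ht.p33
    have hx3 : G.Adj x s₃ := (ht.p33.nx _).2 (by simp)
    by_cases hbad : ∃ T A B, Sep G T A B ∧ T.card = 4 ∧ s₃ ∈ T ∧ 2 ≤ A.card ∧ 1 ≤ B.card ∧
        ∀ w ∈ A, G.Adj s₃ w → w = s₁ ∨ w = y
    · right
      obtain ⟨T, A, B, hs, hT, h3, hA, hB, hN⟩ := hbad
      rcases XA3M.sep hFRG ht h4 T A B hs hT h3 hA hB hN with
        ⟨-, d, -, h⟩ | ⟨c, d, hnd, hTe, hy, h1, h4', h2⟩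
      · exact Or.inl ⟨d, h⟩
      · subst hTe
        exact Or.inr ⟨c, d, A, B, hnd, hs, hy, h1, h4', h2, hN⟩
    · left
      obtain ⟨w, hw, hw'⟩ := hXCB.s3 ht.k48 ht.p33
      simp only [mem_insert, mem_singleton, not_or] at hw'
      refine hCRL.c1 (x := x) (y := s₂) (z := w) ht.k48.1 n3 (Ne.symm hw'.1) (Ne.symm hw'.2.2.2.1) ?_ ?_
      · rintro z (rfl | rfl | rfl)
        · exact ⟨hx3.symm, by simp [n1, n2]⟩
        · exact ⟨ht.a2.symm, by simp [Ne.symm n7, Ne.symm n10]⟩
        · exact ⟨hw, by simp [hw'.2.1, hw'.2.2.1]⟩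
      · intro T A B hs hT h3 hA hB
        by_contra hcon
        push Not at hcon
        refine hbad ⟨T, A, B, hs, hT, h3, hA, hB, ?_⟩
        intro z hz h
        simpa using hcon z hz h

end DL
end

section
/-!
# MP_3ff0f8_gt, EXIST section 2: XC3 (helper57)
-/
open SimpleGraph Finset

namespace DL.XC3M

section

variable {α : Type} [DecidableEq α] {G : SimpleGraph α}

theorem cm {a b c d : α} (hac : a ≠ c) (had : a ≠ d) (hbc : b ≠ c) (hbd : b ≠ d) :
    contr (delE G c d) a b = delE (contr G a b) c d := by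
  ext u w
  simp only [delE, deleteEdges_adj, contr, Set.mem_singleton_iff, Sym2.eq_iff]
  constructor
  · rintro ⟨h1, h2, h3, h4⟩
    rcases h4 with h4 | ⟨h4, h5⟩ | ⟨h4, h5⟩
    · exact ⟨⟨h1, h2, h3, Or.inl h4.1⟩, h4.2⟩
    · refine ⟨⟨h1, h2, h3, Or.inr (Or.inl ⟨h4, h5.1⟩)⟩, ?_⟩
      subst h4
      rintro (⟨e, -⟩ | ⟨e, -⟩)
      · exact hac e
      · exact had e
    · refine ⟨⟨h1, h2, h3, Or.inr (Or.inr ⟨h4, h5.1⟩)⟩, ?_⟩
      subst h4
      rintro (⟨-, e⟩ | ⟨-, e⟩)
      · exact had e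
      · exact hac e
  · rintro ⟨⟨h1, h2, h3, h4⟩, h5⟩
    refine ⟨h1, h2, h3, ?_⟩
    rcases h4 with h4 | ⟨h4, h6⟩ | ⟨h4, h6⟩
    · exact Or.inl ⟨h4, h5⟩
    · refine Or.inr (Or.inl ⟨h4, h6, ?_⟩)
      rintro (⟨e, -⟩ | ⟨e, -⟩)
      · exact hbc e
      · exact hbd e
    · refine Or.inr (Or.inr ⟨h4, h6, ?_⟩)
      rintro (⟨-, e⟩ | ⟨-, e⟩)
      · exact hbd e
      · exact hbc e

theorem cc {a b c d : α} (hac : a ≠ c) (had : a ≠ d) (hbc : b ≠ c) (hbd : b ≠ d) (hcd : c ≠ d) (hab : a ≠ b) :
    contr (contr G a b) c d = contr (contr G c d) a b := by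
  ext u w
  simp only [contr]
  constructor
  · rintro ⟨h1, h2, h3, h4⟩
    grind
  · rintro ⟨h1, h2, h3, h4⟩
    grind

end

variable {α : Type} [Fintype α] [DecidableEq α] {R : SimpleGraph α}

theorem vs {a b : α} (h : KConn 3 R) (hab : R.Adj a b) : VS (contr R a b) = (VS R).erase b :=
  VS_contr hab fun v hv => by have := h.le_nbs hv; omega

theorem down {a b : α} {S P Q : Finset α} (hVS : VS (contr R a b) = (VS R).erase b) (hb : b ∈ VS R)
    (h : Sep (contr R a b) S P Q) : Sep R (insert b S) P Q := by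
  obtain ⟨g1, g2, g3, g4, g5⟩ := h
  have hn : ∀ v, v ∈ S ∪ P ∪ Q → v ≠ b := by
    intro v hv
    rw [g1, hVS, mem_erase] at hv
    exact hv.1
  refine ⟨?_, ?_, ?_, g4, ?_⟩
  · have : insert b S ∪ P ∪ Q = insert b (S ∪ P ∪ Q) := by ext; simp only [mem_union, mem_insert]; tauto
    rw [this, g1, hVS, insert_erase hb]
  · rw [disjoint_insert_left]
    exact ⟨fun h => hn b (by simp [h]) rfl, g2⟩
  · rw [disjoint_insert_left]
    exact ⟨fun h => hn b (by simp [h]) rfl, g3⟩
  · intro u hu v hv huv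
    exact g5 u hu v hv (contr_adj_of_adj huv (hn u (by simp [hu])) (hn v (by simp [hv])))

theorem c1 {a b : α} (hC : C1 R) (h6 : 6 ≤ (VS R).card) (hab : R.Adj a b)
    (h3 : ∀ T P Q, Sep R T P Q → T.card = 3 → a ∈ T → b ∈ T → P = ∅ ∨ Q = ∅)
    (h4 : ∀ T P Q, Sep R T P Q → T.card = 4 → a ∈ T → b ∈ T → P.card ≤ 1 ∨ Q.card ≤ 1) : C1 (contr R a b) := by
  have hVS := vs hC.1 hab
  have hb := right_mem_VS hab
  have ha := left_mem_VS hab
  have key : ∀ S P Q, Sep (contr R a b) S P Q → S.card ≤ 3 → P.Nonempty → Q.Nonempty →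
      S.card = 3 ∧ (P.card ≤ 1 ∨ Q.card ≤ 1) := by
    intro S P Q h hS hP hQ
    by_cases haS : a ∈ S
    · have hd := down hVS hb h
      have hbS : b ∉ S := by
        intro hbS
        have := h.subS hbS
        rw [hVS] at this
        exact (notMem_erase _ _) this
      have hc : (insert b S).card = S.card + 1 := card_insert_of_notMem hbS
      have h3' := hC.1.le_of_sep hd hP hQ
      rw [hc] at h3'
      by_cases hS3 : S.card = 3
      · exact ⟨hS3, h4 _ P Q hd (by omega) (mem_insert_of_mem haS) (mem_insert_self _ _)⟩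
      · exfalso
        rcases h3 _ P Q hd (by omega) (mem_insert_of_mem haS) (mem_insert_self _ _) with e | e
        · exact hP.ne_empty e
        · exact hQ.ne_empty e
    · exact MCTM.one hVS hb hab.ne hC h haS ha hP hQ hS
  refine ⟨kconn_iff_sep.2 ⟨?_, ?_⟩, ?_⟩
  · rw [hVS, card_erase_of_mem hb]
    omega
  · intro S P Q h hS
    by_contra hcc
    rw [not_or, ← ne_eq, ← ne_eq, ← nonempty_iff_ne_empty, ← nonempty_iff_ne_empty] at hcc
    have := (key S P Q h (by omega) hcc.1 hcc.2).1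
    omega
  · intro S P Q h hS
    by_cases hPe : P.Nonempty
    · by_cases hQe : Q.Nonempty
      · exact (key S P Q h hS.le hPe hQe).2
      · rw [not_nonempty_iff_eq_empty] at hQe
        right; simp [hQe]
    · rw [not_nonempty_iff_eq_empty] at hPe
      left; simp [hPe]

end DL.XC3M

namespace DL

theorem specXC3 : SpecXC3 where
  c1 := fun hC h6 hab h3 h4 => XC3M.c1 hC h6 hab h3 h4
  vs := fun h hab => XC3M.vs h hab
  cm := fun h1 h2 h3 h4 => XC3M.cm h1 h2 h3 h4
  cc := fun h1 h2 h3 h4 h5 h6 => XC3M.cc h1 h2 h3 h4 h5 h6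

end DL
end

section
/-!
# Module XC4: the graphs of case 2.4 are S3S
-/
set_option autoImplicit false

open SimpleGraph Finset

namespace DL

namespace XC4M

variable {α : Type} [Fintype α] [DecidableEq α] {G : SimpleGraph α}

/-- four neighbours -/
theorem four_ne {a b c d p q r : α} (h : [a, b, c, d].Nodup) (ha : a = p ∨ a = q ∨ a = r)
    (hb : b = p ∨ b = q ∨ b = r) (hc : c = p ∨ c = q ∨ c = r) (hd : d = p ∨ d = q ∨ d = r) :
    False := by
  simp only [List.nodup_cons, List.mem_cons, List.not_mem_nil, or_false, not_or,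
    List.nodup_nil, and_true, not_false_eq_true] at h
  obtain ⟨⟨h1, h2, h3⟩, ⟨h4, h5⟩, h6⟩ := h
  have e1 : ∀ {u v w : α}, u = w → v = w → u = v := fun h h' => h.trans h'.symm
  rcases ha with rfl | rfl | rfl <;> rcases hb with rfl | rfl | rfl <;>
    rcases hc with rfl | rfl | rfl <;> rcases hd with rfl | rfl | rfl <;>
    first
    | exact h1 rfl
    | exact h2 rfl
    | exact h3 rfl
    | exact h4 rfl
    | exact h5 rfl
    | exact h6 rfl

theorem main (hC1L : SpecC1L) {R : SimpleGraph α} {x y s₁ s₂ s₃ s₄ u r : α}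
    (hp : P33 G x y s₁ s₂ s₃ s₄) (hRG : R ≤ G)
    (hGR : ∀ a b, G.Adj a b → a ≠ s₂ → a ≠ s₃ → R.Adj a b)
    (hC1 : C1 (contr R y s₁)) (h7 : 7 ≤ (VS (contr R y s₁)).card)
    (hu : G.Adj s₁ u) (hux : u ≠ x) (huy : u ≠ y) (hu3 : u ≠ s₃) (hu4 : u ≠ s₄)
    (hr : G.Adj s₄ r) (hrx : r ≠ x) (hry : r ≠ y) (hr1 : r ≠ s₁) (hr2 : r ≠ s₂) (hr3 : r ≠ s₃) :
    S3S (delE (contr R y s₁) y s₄) := by
  have hnp := hp.nd
  simp only [List.nodup_cons, List.mem_cons, List.not_mem_nil, or_false, not_or,
    List.nodup_nil, and_true, not_false_eq_true] at hnp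
  obtain ⟨⟨nxy, nx1, nx2, nx3, nx4⟩, ⟨ny1, ny2, ny3, ny4⟩, ⟨n12, n13, n14⟩, ⟨n23, n24⟩, n34⟩ := hnp
  have hyx : G.Adj y x := (hp.ny x).2 (by tauto)
  have hys3 : G.Adj y s₃ := (hp.ny s₃).2 (by tauto)
  have hys4 : G.Adj y s₄ := (hp.ny s₄).2 (by tauto)
  have hxs4 : G.Adj x s₄ := (hp.nx s₄).2 (by tauto)
  have a1 : (contr R y s₁).Adj y x :=
    contr_adj_of_adj (hGR _ _ hyx ny2 ny3) ny1 nx1
  have a3 : (contr R y s₁).Adj y s₃ :=
    contr_adj_of_adj (hGR _ _ hys3 ny2 ny3) ny1 (Ne.symm n13)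
  have a4 : (contr R y s₁).Adj y s₄ :=
    contr_adj_of_adj (hGR _ _ hys4 ny2 ny3) ny1 (Ne.symm n14)
  have au : (contr R y s₁).Adj y u := by
    rw [contr_adj]
    exact ⟨ny1, hu.ne', huy.symm, Or.inr (Or.inl ⟨rfl, hGR _ _ hu n12 n13⟩)⟩
  have b1 : (contr R y s₁).Adj s₄ x :=
    contr_adj_of_adj (hGR _ _ hxs4.symm (Ne.symm n24) (Ne.symm n34)) (Ne.symm n14) nx1
  have b2 : (contr R y s₁).Adj s₄ r :=
    contr_adj_of_adj (hGR _ _ hr (Ne.symm n24) (Ne.symm n34)) (Ne.symm n14) hr1
  refine hC1L _ _ _ hC1 h7 a4 ?_ ?_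
  · intro p q hpq _
    refine four_ne (a := x) (b := s₃) (c := s₄) (d := u) (p := p) (q := q) (r := s₄) ?_
      ((hpq _).1 a1) ((hpq _).1 a3) (Or.inr (Or.inr rfl)) ((hpq _).1 au)
    simp only [List.nodup_cons, List.mem_cons, List.not_mem_nil, or_false, not_or,
      List.nodup_nil, and_true, not_false_eq_true]
    exact ⟨⟨nx3, nx4, hux.symm⟩, ⟨n34, hu3.symm⟩, hu4.symm⟩
  · intro p q hpq hadj
    -- `{p, q} = {x, r}`
    have hxr : ¬ (contr R y s₁).Adj x r := by
      rw [contr_adj]
      rintro ⟨-, -, -, h | ⟨h, -⟩ | ⟨h, -⟩⟩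
      · rcases (hp.nx r).1 (hRG h) with e | e | e | e
        · exact hry e
        · exact hr2 e
        · exact hr3 e
        · exact hr.ne' e
      · exact nxy h
      · exact hry h
    have h1 := (hpq _).1 b1
    have h2 := (hpq _).1 b2
    rcases h1 with h1 | h1 | h1
    · rcases h2 with h2 | h2 | h2
      · exact hrx (h2.trans h1.symm)
      · exact hxr (h1 ▸ h2 ▸ hadj)
      · exact hry h2
    · rcases h2 with h2 | h2 | h2
      · exact hxr (h1 ▸ h2 ▸ hadj.symm)
      · exact hrx (h2.trans h1.symm)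
      · exact hry h2
    · exact nxy h1

end XC4M

open XC4M in
theorem specXC4 (hC1L : SpecC1L) (hC20 : SpecC20) (hXCB : SpecXCB) (hXCD : SpecXCD)
    (hXC3 : SpecXC3) : SpecXC4 := by
  intro α _ _ G x y s₁ s₂ s₃ s₄ hG hp h23 h14 n13' n24'
  have hnp := hp.nd
  simp only [List.nodup_cons, List.mem_cons, List.not_mem_nil, or_false, not_or,
    List.nodup_nil, and_true, not_false_eq_true] at hnp
  obtain ⟨⟨nxy, nx1, nx2, nx3, nx4⟩, ⟨ny1, ny2, ny3, ny4⟩, ⟨n12, n13, n14⟩, ⟨n23, n24⟩, n34⟩ := hnp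
  have hys1 : G.Adj y s₁ := (hp.ny s₁).2 (by tauto)
  -- the vertex `r`
  obtain ⟨r, hr, hr'⟩ := hXCB.s3 hG hp.sym2
  simp only [mem_insert, mem_singleton, not_or] at hr'
  obtain ⟨hrx, hry, hr1, hr2, hr3⟩ := hr'
  -- the vertex `u`
  obtain ⟨u, hu, huy, hu4⟩ : ∃ u, G.Adj s₁ u ∧ u ≠ y ∧ u ≠ s₄ := by
    by_contra hcon
    push Not at hcon
    have h1 : nbs G s₁ ⊆ {y, s₄} := by
      intro w hw
      rw [mem_insert, mem_singleton]
      by_cases hwy : w = y
      · exact Or.inl hwy
      · exact Or.inr (hcon w (mem_nbs.1 hw) hwy)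
    have h2 := (hG.1.le_nbs (left_mem_VS h14)).trans ((card_le_card h1).trans card_le_two)
    omega
  have hux : u ≠ x := by
    rintro rfl
    rcases (hp.nx s₁).1 hu.symm with e | e | e | e
    · exact ny1 e.symm
    · exact n12 e
    · exact n13 e
    · exact n14 e
  have hu3 : u ≠ s₃ := by
    rintro rfl; exact n13' hu
  have hG3 : KConn 3 G := hG.1.mono (by norm_num)
  refine ⟨?_, ?_⟩
  · refine main hC1L hp le_rfl (fun a b h _ _ => h) (hC20.c1 hG hp).2.1 ?_ hu hux huy hu3 hu4
      hr hrx hry hr1 hr2 hr3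
    rw [hXC3.vs hG3 hys1, card_erase_of_mem (right_mem_VS hys1)]
    have := hG.2
    omega
  · have hVS : VS (delE G s₂ s₃) = VS G :=
      VS_delE fun v hv => le_trans (by norm_num) (hG.1.le_nbs hv)
    have hR3 : KConn 3 (delE G s₂ s₃) := KConn.delE (by norm_num) hG.1 s₂ s₃
    have hR : ∀ a b, G.Adj a b → a ≠ s₂ → a ≠ s₃ → (delE G s₂ s₃).Adj a b := by
      intro a b hab h2 h3
      rw [delE_adj]
      refine ⟨hab, fun e => ?_⟩
      rw [Sym2.eq_iff] at e
      rcases e with ⟨e, -⟩ | ⟨e, -⟩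
      · exact h2 e
      · exact h3 e
    refine main hC1L hp (delE_le _ _ _) hR (hXCD hG hp h23) ?_ hu hux huy hu3 hu4
      hr hrx hry hr1 hr2 hr3
    rw [hXC3.vs hR3 (hR _ _ hys1 ny2 ny3), hVS, card_erase_of_mem (right_mem_VS hys1)]
    have := hG.2
    omega

end DL
end

section
/-!
# MP_3ff0f8_gt, EXIST section 2: XCB (helper67): a neighbour outside
-/
open SimpleGraph Finset

namespace DL.XCBM

set_option linter.unusedSectionVars false

variable {α : Type} [Fintype α] [DecidableEq α] {G : SimpleGraph α}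

theorem mem_NB {A : Finset α} {w : α} : w ∈ NB G A ↔ w ∉ A ∧ ∃ a ∈ A, G.Adj a w := by
  simp [NB]

theorem right_mem {a b : α} (h : G.Adj a b) : a ∈ VS G := by
  classical
  simp only [VS, mem_filter, mem_univ, true_and]
  exact ⟨b, h⟩

theorem card3 (a b c : α) : ({a, b, c} : Finset α).card ≤ 3 := card_le_three

/-- a vertex outside a set with at most six elements -/
theorem exists_out {a b c d e f : α} (hG : K48 G) :
    ∃ r ∈ VS G, r ∉ ({a, b, c} : Finset α) ∧ r ∉ ({d, e, f} : Finset α) := by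
  by_contra hc
  push Not at hc
  have h1 : VS G ⊆ ({a, b, c} : Finset α) ∪ {d, e, f} := by
    intro r hr
    rw [mem_union]
    by_cases h : r ∈ ({a, b, c} : Finset α)
    · exact Or.inl h
    · exact Or.inr (hc r hr h)
  have h2 := card_le_card h1
  have h3 := card_union_le ({a, b, c} : Finset α) {d, e, f}
  have h4 := card3 a b c
  have h5 := card3 d e f
  have h6 := hG.2
  omega

theorem core (hFRG : SpecFRG) {x y s d e f : α} (hG : K48 G) (hx : x ∈ VS G) (hy : y ∈ VS G)
    (hs : s ∈ VS G) (h : NB G {x, y, s} ⊆ {d, e, f}) : False := by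
  obtain ⟨r, hr, h1, h2⟩ := exists_out (a := x) (b := y) (c := s) (d := d) (e := e) (f := f) hG
  refine hFRG.few hG.1 ?_ ⟨x, mem_insert_self _ _⟩ h (card3 d e f) hr h1 h2
  intro w hw
  simp only [mem_insert, mem_singleton] at hw
  rcases hw with rfl | rfl | rfl
  · exact hx
  · exact hy
  · exact hs

end DL.XCBM

namespace DL

open XCBM in
theorem specXCB (hFRG : SpecFRG) : SpecXCB where
  s3 := by
    intro α _ _ G x y s₁ s₂ s₃ s₄ hG hP
    by_contra hc
    push Not at hc
    refine core hFRG (x := x) (y := y) (s := s₃) (d := s₁) (e := s₂) (f := s₄) hG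
      (right_mem ((hP.nx y).2 (Or.inl rfl))) (right_mem ((hP.ny x).2 (Or.inl rfl)))
      (right_mem (((hP.nx s₃).2 (Or.inr (Or.inr (Or.inl rfl)))).symm)) ?_
    intro w hw
    obtain ⟨h1, a, ha, haw⟩ := mem_NB.1 hw
    simp only [mem_insert, mem_singleton, not_or] at h1 ha ⊢
    rcases ha with rfl | rfl | rfl
    · have := (hP.nx w).1 haw
      tauto
    · have := (hP.ny w).1 haw
      tauto
    · have := hc w haw
      simp only [mem_insert, mem_singleton] at this
      tauto
  s2 := by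
    intro α _ _ G x y s₁ s₂ s₃ s₄ hG hP
    by_contra hc
    push Not at hc
    refine core hFRG (x := x) (y := y) (s := s₂) (d := s₁) (e := s₃) (f := s₄) hG
      (right_mem ((hP.nx y).2 (Or.inl rfl))) (right_mem ((hP.ny x).2 (Or.inl rfl)))
      (right_mem (((hP.nx s₂).2 (Or.inr (Or.inl rfl))).symm)) ?_
    intro w hw
    obtain ⟨h1, a, ha, haw⟩ := mem_NB.1 hw
    simp only [mem_insert, mem_singleton, not_or] at h1 ha ⊢
    rcases ha with rfl | rfl | rfl
    · have := (hP.nx w).1 haw
      tauto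
    · have := (hP.ny w).1 haw
      tauto
    · have h2 := hc w haw
      simp only [mem_insert, mem_singleton] at h2
      tauto

end DL
end

section
/-!
# MP_3ff0f8_gt, ALGEBRA HALF: module XCD, (3,3)-pairs: `(G - s₂s₃)/ys₁ ∈ C1`
-/
open SimpleGraph Finset

namespace DL

open XCCM

theorem specXCD (hXC3 : SpecXC3) (hXCB : SpecXCB) (hXCC : SpecXCC) (hC20 : SpecC20) (hFRG : SpecFRG) :
    SpecXCD := by
  intro α _ _ G x y s₁ s₂ s₃ s₄ hK hp h23
  obtain ⟨n1, n2, n3, n4, n5, n6, n7, n8, n9, n10, n11, n12, n13, n14, n15⟩ := nes hp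
  have hR := hXCC.c1 hK hp h23
  have hV : VS (delE G s₂ s₃) = VS G := VS_delE fun v hv => le_trans (by norm_num) (hK.1.le_nbs hv)
  have hy1 : G.Adj y s₁ := (hp.ny _).2 (by simp)
  have hyR : (delE G s₂ s₃).Adj y s₁ := by
    rw [delE_adj]
    refine ⟨hy1, fun h => ?_⟩
    rw [Sym2.eq_iff] at h
    rcases h with ⟨h, -⟩ | ⟨h, -⟩
    · exact n7 h
    · exact n8 h
  refine hXC3.c1 hR (by rw [hV]; have := hK.2; omega) hyR ?_ ?_
  · -- order 3
    have main : ∀ T P Q, Sep (delE G s₂ s₃) T P Q → T.card = 3 → y ∈ T → s₁ ∈ T → P.Nonempty →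
        Q.Nonempty → s₂ ∈ P → s₃ ∈ Q → False := by
      intro T P Q hs hT hy h1 hP hQ h2 h3
      obtain ⟨hxT, -, -, -⟩ := posxy hp hs hV h2 h3
      have hTe : T = {x, y, s₁} := by
        refine (eq_of_subset_of_card_le ?_ ?_).symm
        · intro z hz
          simp only [mem_insert, mem_singleton] at hz
          rcases hz with rfl | rfl | rfl <;> assumption
        · rw [hT, card_insert_of_notMem (by simp [n1, n2]), card_pair n6]
      rcases hR.2 T P Q hs hT with h | h
      · have hPe : ∀ a ∈ P, a = s₂ := fun a ha => card_le_one.1 h a ha s₂ h2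
        obtain ⟨w, hw, hw'⟩ := hXCB.s2 hK hp
        simp only [mem_insert, mem_singleton, not_or] at hw'
        have hwV : w ∈ VS (delE G s₂ s₃) := by rw [hV]; exact right_mem_VS hw
        rcases hs.mem_or hwV with h' | h' | h'
        · rw [hTe] at h'
          simp only [mem_insert, mem_singleton] at h'
          tauto
        · exact hw.ne (hPe w h').symm
        · exact hw'.2.2.2.1 (only hs h2 h3 h2 h' hw).2
      · have hQe : ∀ a ∈ Q, a = s₃ := fun a ha => card_le_one.1 h a ha s₃ h3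
        obtain ⟨w, hw, hw'⟩ := hXCB.s3 hK hp
        simp only [mem_insert, mem_singleton, not_or] at hw'
        have hwV : w ∈ VS (delE G s₂ s₃) := by rw [hV]; exact right_mem_VS hw
        rcases hs.mem_or hwV with h' | h' | h'
        · rw [hTe] at h'
          simp only [mem_insert, mem_singleton] at h'
          tauto
        · exact hw'.2.2.2.1 (only hs h2 h3 h' h3 hw.symm).1
        · exact hw.ne (hQe w h').symm
    intro T P Q hs hT hy h1
    by_contra hcon
    rw [not_or, ← ne_eq, ← ne_eq, ← nonempty_iff_ne_empty, ← nonempty_iff_ne_empty] at hcon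
    obtain ⟨hP, hQ⟩ := hcon
    have hno : ¬ ∀ a ∈ P, ∀ b ∈ Q, ¬ G.Adj a b := by
      intro hno
      have h1 : Sep G T P Q := ⟨by rw [hs.1, hV], hs.2.1, hs.2.2.1, hs.2.2.2.1, hno⟩
      have h2 := hK.1.le_of_sep h1 hP hQ
      omega
    rcases cross hs hno with ⟨h2, h3⟩ | ⟨h3, h2⟩
    · exact main T P Q hs hT hy h1 hP hQ h2 h3
    · exact main T Q P hs.symm hT hy h1 hQ hP h2 h3
  · -- order 4
    have main : ∀ T P Q, Sep (delE G s₂ s₃) T P Q → T.card = 4 → y ∈ T → s₁ ∈ T → 2 ≤ P.card →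
        2 ≤ Q.card → s₂ ∈ P → s₃ ∈ Q → False := by
      intro T P Q hs hT hy h1 hP hQ h2 h3
      obtain ⟨hxT, -, -, -⟩ := posxy hp hs hV h2 h3
      have hc : T ∪ P ∪ Q = VS G := by rw [hs.1, hV]
      have hTx : (T \ {x, y}).card ≤ 2 := by
        rw [card_sdiff_of_subset, hT, card_pair n1]
        intro z hz
        simp only [mem_insert, mem_singleton] at hz
        rcases hz with rfl | rfl <;> assumption
      by_cases h4 : s₄ ∈ P
      · refine side hFRG hK.1 (s := s₃) (t := s₂) (x := x) (W := T) (P := Q) (Q := P) {x, y}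
          (by rw [union_right_comm, hc]) (by rw [union_right_comm, hc]) hs.2.2.1 ?_ hTx hxT (by simp) h3
          hQ ?_
        · intro a ha b hb hab
          obtain ⟨e1, e2⟩ := only hs h2 h3 hb ha hab.symm
          exact ⟨e2, e1⟩
        · intro z hz a ha hza
          have haT : a ∉ T := fun h => Finset.disjoint_left.1 hs.2.2.1 h ha
          have haP : a ∉ P := fun h => Finset.disjoint_left.1 hs.2.2.2.1 h ha
          simp only [mem_insert, mem_singleton] at hz
          rcases hz with rfl | rfl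
          · rcases (hp.nx a).1 hza with rfl | rfl | rfl | rfl
            · exact absurd hy haT
            · exact absurd h2 haP
            · rfl
            · exact absurd h4 haP
          · rcases (hp.ny a).1 hza with rfl | rfl | rfl | rfl
            · exact absurd hxT haT
            · exact absurd h1 haT
            · rfl
            · exact absurd h4 haP
      · refine side hFRG hK.1 (s := s₂) (t := s₃) (x := x) (W := T) (P := P) (Q := Q) {x, y}
          (by rw [hc]) (by rw [hc]) hs.2.1 ?_ hTx hxT (by simp) h2 hP ?_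
        · intro a ha b hb hab
          exact only hs h2 h3 ha hb hab
        · intro z hz a ha hza
          have haT : a ∉ T := fun h => Finset.disjoint_left.1 hs.2.1 h ha
          have haQ : a ∉ Q := fun h => Finset.disjoint_left.1 hs.2.2.2.1 ha h
          simp only [mem_insert, mem_singleton] at hz
          rcases hz with rfl | rfl
          · rcases (hp.nx a).1 hza with rfl | rfl | rfl | rfl
            · exact absurd hy haT
            · rfl
            · exact absurd h3 haQ
            · exact absurd ha h4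
          · rcases (hp.ny a).1 hza with rfl | rfl | rfl | rfl
            · exact absurd hxT haT
            · exact absurd h1 haT
            · exact absurd h3 haQ
            · exact absurd ha h4
    intro T P Q hs hT hy h1
    by_contra hcon
    push Not at hcon
    obtain ⟨hP, hQ⟩ := hcon
    by_cases hno : ∀ a ∈ P, ∀ b ∈ Q, ¬ G.Adj a b
    · have hC := (hC20.c1 hK hp).2.1
      have hVc : VS (contr G y s₁) = (VS G).erase s₁ := hXC3.vs (hK.1.mono (by norm_num)) hy1
      have h1P : s₁ ∉ P := Finset.disjoint_left.1 hs.2.1 h1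
      have h1Q : s₁ ∉ Q := Finset.disjoint_left.1 hs.2.2.1 h1
      have hyP : y ∉ P := Finset.disjoint_left.1 hs.2.1 hy
      have hyQ : y ∉ Q := Finset.disjoint_left.1 hs.2.2.1 hy
      have hS : Sep (contr G y s₁) (T.erase s₁) P Q := by
        refine ⟨?_, disjoint_of_subset_left (erase_subset _ _) hs.2.1,
          disjoint_of_subset_left (erase_subset _ _) hs.2.2.1, hs.2.2.2.1, ?_⟩
        · rw [hVc, ← hV, ← hs.1]
          ext z
          simp only [mem_union, mem_erase]
          by_cases hz : z = s₁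
          · subst hz
            simp [h1P, h1Q]
          · simp [hz]
        · intro a ha b hb hab
          rw [contr_adj] at hab
          obtain ⟨-, -, -, h | ⟨rfl, -⟩ | ⟨rfl, -⟩⟩ := hab
          · exact hno a ha b hb h
          · exact hyP ha
          · exact hyQ hb
      rcases hC.2 _ P Q hS (by rw [card_erase_of_mem h1, hT]) with h | h <;> omega
    · rcases cross hs hno with ⟨h2, h3⟩ | ⟨h3, h2⟩
      · exact main T P Q hs hT hy h1 hP hQ h2 h3
      · exact main T Q P hs.symm hT hy h1 hQ hP h2 h3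

end DL
end

section
/-!
# Module XCE: `contr (delE G s₂ s₃) y s₁` is nonplanar
-/
set_option autoImplicit false

open SimpleGraph Finset

namespace DL

namespace XCEM

open F1NM

variable {α : Type} [Fintype α] [DecidableEq α] {G : SimpleGraph α}

/-- a chain with the trace of the row `x c` at `b` -/
theorem trace (hTRC : SpecTRC) {z : Sym2 α → Sym2 α → ZMod 2} (hz : IsZ2 G z) {x y b c : α}
    (hnd : [x, y, b, c].Nodup) (hyb : ¬ G.Adj y b) (hconn : ConnOff G (insert b {x, y, c})) :
    ∃ Z ∈ Z1 (del G {x, y, c}), ∀ e, b ∈ e → Z e = z s(x, c) e := by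
  classical
  simp only [List.nodup_cons, List.mem_cons, List.not_mem_nil, or_false, not_or, List.nodup_nil,
    and_true] at hnd
  obtain ⟨⟨hxy, hxb, hxc⟩, ⟨hyb', hyc⟩, hbc, -⟩ := hnd
  have hb : b ∉ ({x, y, c} : Finset α) := by
    simp only [mem_insert, mem_singleton, not_or]
    exact ⟨fun h => hxb h.symm, fun h => hyb' h.symm, hbc⟩
  have hT1 : ∀ e, (if b ∈ e then z s(x, c) e else 0) ≠ 0 →
      e ∈ (del G {x, y, c}).edgeSet ∧ b ∈ e := by
    intro e he
    have hbe : b ∈ e := by
      by_contra h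
      exact he (if_neg h)
    rw [if_pos hbe] at he
    obtain ⟨-, h2, h3⟩ := hz.2.1 _ _ he
    refine ⟨?_, hbe⟩
    have hxe : x ∉ e := fun h => h3 x ⟨by simp, h⟩
    have hce : c ∉ e := fun h => h3 c ⟨by simp, h⟩
    obtain ⟨w, rfl⟩ := Sym2.mem_iff_exists.1 hbe
    rw [mem_edgeSet] at h2
    rw [mem_edgeSet, del_adj]
    simp only [Sym2.mem_iff, not_or] at hxe hce
    refine ⟨h2, hb, ?_⟩
    simp only [mem_insert, mem_singleton, not_or]
    refine ⟨fun h => hxe.2 h.symm, ?_, fun h => hce.2 h.symm⟩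
    rintro rfl
    exact hyb h2.symm
  have hT2 : ∑ e, (if b ∈ e then z s(x, c) e else 0) = 0 := by
    rw [← sum_filter]
    have := hz.2.2 s(x, c) b (by
      rw [Sym2.mem_iff]
      rintro (h | h)
      · exact hxb h.symm
      · exact hbc h)
    convert this using 2
  obtain ⟨Z, hZ, hZe⟩ := hTRC G {x, y, c} b hb hconn
    (fun e => if b ∈ e then z s(x, c) e else 0) hT1 hT2
  refine ⟨Z, hZ, fun e he => ?_⟩
  rw [hZe e he, if_pos he]

/-- the core of F1N with connectivity as a hypothesis -/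
theorem core (hVKA : SpecVKA) (hKUR : SpecKUR) (hNPC : SpecNPC) (hTRC : SpecTRC)
    {x y s₁ s₂ s₃ s₄ : α} (hP : P33 G x y s₁ s₂ s₃ s₄) (hNP : NP G)
    (hc3 : ConnOff G (insert s₂ {x, y, s₃})) (hc4 : ConnOff G (insert s₂ {x, y, s₄})) :
    NP (contr G x s₂) := by
  classical
  obtain ⟨r, hr, z, hz, hv⟩ := hNP
  have hnd := hP.nd
  simp only [List.nodup_cons, List.mem_cons, List.not_mem_nil, or_false, not_or, List.nodup_nil,
    and_true] at hnd
  obtain ⟨⟨hxy, hx1, hx2, hx3, hx4⟩, ⟨hy1, hy2, hy3, hy4⟩, ⟨h12, h13, h14⟩, ⟨h23, h24⟩, h34, -⟩ := hnd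
  have axy : G.Adj x y := (hP.nx y).2 (Or.inl rfl)
  have ax2 : G.Adj x s₂ := (hP.nx s₂).2 (by tauto)
  have ax3 : G.Adj x s₃ := (hP.nx s₃).2 (by tauto)
  have ax4 : G.Adj x s₄ := (hP.nx s₄).2 (by tauto)
  have ay3 : G.Adj y s₃ := (hP.ny s₃).2 (by tauto)
  have ay4 : G.Adj y s₄ := (hP.ny s₄).2 (by tauto)
  have nay2 : ¬ G.Adj y s₂ := by
    rw [hP.ny]
    rintro (h | h | h | h)
    · exact hx2 h.symm
    · exact h12 h.symm
    · exact h23 h
    · exact h24 h
  obtain ⟨Z3, hZ3, hZ3e⟩ := trace hTRC hz (x := x) (y := y) (b := s₂) (c := s₃)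
    (by simp [hxy, hx2, hx3, hy2, hy3, h23]) nay2 hc3
  obtain ⟨Z4, hZ4, hZ4e⟩ := trace hTRC hz (x := x) (y := y) (b := s₂) (c := s₄)
    (by simp [hxy, hx2, hx4, hy2, hy4, h24]) nay2 hc4
  obtain ⟨hz1, hv1⟩ := addtor hVKA hKUR hr hz {x, y, s₃} (tri_mem axy ay3 ax3)
    (fun e v he hv => tri_supp e v he hv) hZ3
  obtain ⟨hz2, hv2⟩ := addtor hVKA hKUR hr hz1 {x, y, s₄} (tri_mem axy ay4 ax4)
    (fun e v he hv => tri_supp e v he hv) hZ4
  set z2 : Sym2 α → Sym2 α → ZMod 2 := fun e f => z e f + tor (tri x y s₃) Z3 e f +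
    tor (tri x y s₄) Z4 e f with hz2def
  have hxZ3 : ∀ w, Z3 s(x, w) = 0 := by
    intro w
    by_contra h
    exact notMem_of_mem_del ((mem_Z1.1 hZ3).1 _ h) (Sym2.mem_mk_left x w) (by simp)
  have hxZ4 : ∀ w, Z4 s(x, w) = 0 := by
    intro w
    by_contra h
    exact notMem_of_mem_del ((mem_Z1.1 hZ4).1 _ h) (Sym2.mem_mk_left x w) (by simp)
  have t33 : tri x y s₃ s(x, s₃) = 1 := by
    unfold tri; rw [chi_of_mem]; simp
  have t44 : tri x y s₄ s(x, s₄) = 1 := by
    unfold tri; rw [chi_of_mem]; simp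
  have t34 : tri x y s₃ s(x, s₄) = 0 := by
    unfold tri; rw [chi_of_notMem]
    simp only [mem_insert, mem_singleton, Sym2.eq_iff, not_or, not_and]
    exact ⟨⟨fun _ h => hy4 h.symm, fun h _ => hxy h⟩, ⟨fun h _ => hxy h, fun h _ => hx3 h⟩,
      fun _ h => h34 h.symm, fun h _ => hx3 h⟩
  have t43 : tri x y s₄ s(x, s₃) = 0 := by
    unfold tri; rw [chi_of_notMem]
    simp only [mem_insert, mem_singleton, Sym2.eq_iff, not_or, not_and]
    exact ⟨⟨fun _ h => hy3 h.symm, fun h _ => hxy h⟩, ⟨fun h _ => hxy h, fun h _ => hx4 h⟩,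
      fun _ h => h34 h, fun h _ => hx4 h⟩
  have k3 : ∀ f, s₂ ∈ f → z2 s(x, s₃) f = 0 := by
    intro f hf
    simp only [hz2def, tor, t33, t43, hxZ3, hxZ4, hZ3e f hf]
    ring_nf
    rw [show (2 : ZMod 2) = 0 from rfl, mul_zero]
  have k4 : ∀ f, s₂ ∈ f → z2 s(x, s₄) f = 0 := by
    intro f hf
    simp only [hz2def, tor, t34, t44, hxZ3, hxZ4, hZ4e f hf]
    ring_nf
    rw [show (2 : ZMod 2) = 0 from rfl, mul_zero]
  have hzab : Zab x s₂ z2 := by
    intro e f hxe h2f hne hnf
    by_contra h0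
    obtain ⟨he, hf, hdj⟩ := hz2.2.1 e f h0
    obtain ⟨w, rfl, hw⟩ := vs_adj he hxe
    rcases (hP.nx w).1 hw with rfl | rfl | rfl | rfl
    · have hxf : x ∉ f := fun h => hdj x ⟨hxe, h⟩
      have hb := hz2.2.2 f x hxf
      rw [sum_eq_single s(x, w)] at hb
      · exact h0 (by rw [hz2.1]; exact hb)
      · intro g hg hgne
        rw [mem_filter] at hg
        by_contra hg0
        obtain ⟨-, hgG, hfg⟩ := hz2.2.1 f g hg0
        obtain ⟨w', rfl, hw'⟩ := vs_adj hgG hg.2
        rcases (hP.nx w').1 hw' with rfl | rfl | rfl | rfl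
        · exact hgne rfl
        · exact hfg w' ⟨h2f, by simp⟩
        · exact hg0 (by rw [hz2.1]; exact k3 f h2f)
        · exact hg0 (by rw [hz2.1]; exact k4 f h2f)
      · intro h
        exact absurd (mem_filter.2 ⟨mem_univ _, by simp⟩) h
    · exact hne rfl
    · exact h0 (k3 f h2f)
    · exact h0 (k4 f h2f)
  refine (hNPC.down (r := r) hr hz2 ?_ ax2 hzab).1
  rw [hv2, hv1]; exact hv

end XCEM

open XCEM XCCM in
theorem specXCE (hXCC : SpecXCC) (hXCB : SpecXCB) (hVKA : SpecVKA) (hKUR : SpecKUR)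
    (hNPC : SpecNPC) (hTRC : SpecTRC) (hC20 : SpecC20) (hFRG : SpecFRG) : SpecXCE := by
  classical
  intro α _ _ G x y s₁ s₂ s₃ s₄ hK hp h23 hNP
  obtain ⟨n1, n2, n3, n4, n5, n6, n7, n8, n9, n10, n11, n12, n13, n14, n15⟩ := nes hp
  have hV : VS (delE G s₂ s₃) = VS G := VS_delE fun v hv => le_trans (by norm_num) (hK.1.le_nbs hv)
  -- `R` has the same neighbourhoods of `x` and `y`
  have hR : ∀ u w, u ≠ s₂ → u ≠ s₃ → ((delE G s₂ s₃).Adj u w ↔ G.Adj u w) := by
    intro u w h2 h3
    rw [delE_adj]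
    refine ⟨fun h => h.1, fun h => ⟨h, fun h5 => ?_⟩⟩
    rw [Sym2.eq_iff] at h5
    rcases h5 with ⟨h5, -⟩ | ⟨h5, -⟩
    · exact h2 h5
    · exact h3 h5
  have hpR : P33 (delE G s₂ s₃) y x s₂ s₁ s₃ s₄ := by
    refine ⟨hp.sym1.nd, fun w => ?_, fun w => ?_⟩
    · rw [hR y w n7 n8]; exact hp.sym1.nx w
    · rw [hR x w n3 n4]; exact hp.sym1.ny w
  obtain ⟨-, -, c13, c14, -, -⟩ := hC20.two hK hp
  refine core hVKA hKUR hNPC hTRC hpR (hXCC.np hK hp h23 hNP) ?_ ?_
  · -- `s₃` is deleted: the edge does not matter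
    intro a ha b hb haS hbS
    rw [hV] at ha hb
    have hset : (insert s₁ {y, x, s₃} : Finset α) = {x, y, s₁, s₃} := by
      ext v; simp only [mem_insert, mem_singleton]; tauto
    have h := c13 a ha b hb (by rw [← hset]; exact haS) (by rw [← hset]; exact hbS)
    refine h.mono ?_
    intro u w huw
    rw [del_adj] at huw ⊢
    rw [hset]
    refine ⟨?_, huw.2⟩
    rw [delE_adj]
    refine ⟨huw.1, fun h5 => ?_⟩
    rw [Sym2.eq_iff] at h5
    rcases h5 with ⟨-, h5⟩ | ⟨h5, -⟩
    · exact huw.2.2 (by rw [h5]; simp)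
    · exact huw.2.1 (by rw [h5]; simp)
  · -- the bridge argument
    intro a ha b hb haS hbS
    have hset : (insert s₁ {y, x, s₄} : Finset α) = {x, y, s₁, s₄} := by
      ext v; simp only [mem_insert, mem_singleton]; tauto
    rw [hset] at haS hbS ⊢
    by_contra hcon
    obtain ⟨P, Q, hs, haP, hbQ, -⟩ := exists_sep_of_not_reachable ha hb haS hbS hcon
    have hx2 : G.Adj x s₂ := (hp.nx _).2 (by simp)
    have hy4 : G.Adj y s₄ := (hp.ny _).2 (by simp)
    have hy1 : G.Adj y s₁ := (hp.ny _).2 (by simp)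
    have hSV : ({x, y, s₁, s₄} : Finset α) ∩ VS (delE G s₂ s₃) = {x, y, s₁, s₄} := by
      rw [hV, inter_eq_left]
      intro v hv
      simp only [mem_insert, mem_singleton] at hv
      rcases hv with rfl | rfl | rfl | rfl
      · exact left_mem_VS hx2
      · exact left_mem_VS hy4
      · exact right_mem_VS hy1
      · exact right_mem_VS hy4
    rw [hSV] at hs
    have hno : ¬ ∀ a ∈ P, ∀ b ∈ Q, ¬ G.Adj a b := by
      intro hno
      have h1 : Sep G {x, y, s₁, s₄} P Q := ⟨by rw [hs.1, hV], hs.2.1, hs.2.2.1, hs.2.2.2.1, hno⟩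
      rw [hV] at ha hb
      exact h1.not_reachable haP hbQ (c14 a ha b hb haS hbS)
    have main : ∀ P Q, Sep (delE G s₂ s₃) {x, y, s₁, s₄} P Q → s₂ ∈ P → s₃ ∈ Q → False := by
      intro P Q hs h2 h3
      have hc : ({x, y, s₁, s₄} : Finset α) ∪ P ∪ Q = VS G := by rw [hs.1, hV]
      have h4P : s₄ ∉ P := fun h => Finset.disjoint_left.1 hs.2.1 (by simp) h
      have h1P : s₁ ∉ P := fun h => Finset.disjoint_left.1 hs.2.1 (by simp) h
      have hxP : x ∉ P := fun h => Finset.disjoint_left.1 hs.2.1 (by simp) h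
      have hyP : y ∉ P := fun h => Finset.disjoint_left.1 hs.2.1 (by simp) h
      have h3P : s₃ ∉ P := fun h => Finset.disjoint_left.1 hs.2.2.2.1 h h3
      by_cases hP : 2 ≤ P.card
      · refine side hFRG hK.1 (s := s₂) (t := s₃) (x := x) (W := {x, y, s₁, s₄}) (P := P) (Q := Q)
          {x, y} (by rw [hc]) (by rw [hc]) hs.2.1 ?_ ?_ (by simp) (by simp) h2 hP ?_
        · intro a ha b hb hab
          exact only hs h2 h3 ha hb hab
        · have : ({x, y, s₁, s₄} : Finset α) \ {x, y} ⊆ {s₁, s₄} := by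
            intro v hv
            simp only [mem_sdiff, mem_insert, mem_singleton] at hv ⊢
            tauto
          exact (card_le_card this).trans card_le_two
        · intro z hz a ha hza
          rw [mem_insert, mem_singleton] at hz
          rcases hz with rfl | rfl
          · rcases (hp.nx a).1 hza with h | h | h | h
            · exact absurd (h ▸ ha) hyP
            · exact h
            · exact absurd (h ▸ ha) h3P
            · exact absurd (h ▸ ha) h4P
          · rcases (hp.ny a).1 hza with h | h | h | h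
            · exact absurd (h ▸ ha) hxP
            · exact absurd (h ▸ ha) h1P
            · exact absurd (h ▸ ha) h3P
            · exact absurd (h ▸ ha) h4P
      · have hP1 : P = {s₂} := by
          have h1 : P.card = 1 := by
            have := card_pos.2 ⟨s₂, h2⟩
            omega
          obtain ⟨v, hv⟩ := card_eq_one.1 h1
          rw [hv] at h2 ⊢
          rw [mem_singleton.1 h2]
        obtain ⟨w, hw, hw'⟩ := hXCB.s2 hK hp
        simp only [mem_insert, mem_singleton, not_or] at hw'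
        have hwV : w ∈ ({x, y, s₁, s₄} : Finset α) ∪ P ∪ Q := by rw [hc]; exact right_mem_VS hw
        simp only [mem_union, mem_insert, mem_singleton, hP1] at hwV
        rcases hwV with ((h | h | h | h) | h) | h
        · exact hw'.1 h
        · exact hw'.2.1 h
        · exact hw'.2.2.1 h
        · exact hw'.2.2.2.2 h
        · exact hw.ne' h
        · exact hw'.2.2.2.1 (only hs h2 h3 h2 h hw).2
    rcases cross hs hno with ⟨h2, h3⟩ | ⟨h3, h2⟩
    · exact main P Q hs h2 h3
    · exact main Q P hs.symm h2 h3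

end DL
end

section
set_option autoImplicit false
set_option linter.unusedSectionVars false

/-!
# XK2: `KZ G` in the cases 2.2 and 2.4 (helper83)
-/

open SimpleGraph Finset

namespace DL

theorem specXK2 (hKCD : SpecKCD) (hC20 : SpecC20) (hF1N : SpecF1N) (hXCC : SpecXCC) (hXCD : SpecXCD)
    (hXC3 : SpecXC3) (hS3F : SpecS3F) (hDST : SpecDST) : SpecXK2 := by
  intro α _ _ G x y s₁ s₂ s₃ s₄ hG hNP hIH h h23 h13 h4
  have hnd := h.nd
  simp only [List.nodup_cons, List.mem_cons, List.not_mem_nil, or_false, not_or,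
    not_false_eq_true, List.nodup_nil, and_true] at hnd
  obtain ⟨⟨hxy, hx1, hx2, hx3, hx4⟩, ⟨hy1, hy2, hy3, hy4⟩, ⟨h12, h13', h14⟩, ⟨h23', h24⟩, h34⟩ := hnd
  have hyb : G.Adj y s₁ := (h.ny s₁).2 (Or.inr (Or.inl rfl))
  have hxs2 : G.Adj x s₂ := (h.nx s₂).2 (Or.inr (Or.inl rfl))
  have hxs3 : G.Adj x s₃ := (h.nx s₃).2 (Or.inr (Or.inr (Or.inl rfl)))
  have hx1' : ¬ G.Adj s₁ x := fun e => by
    rcases (h.nx s₁).1 e.symm with e | e | e | e
    · exact hy1 e.symm
    · exact h12 e
    · exact h13' e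
    · exact h14 e
  have hcn : ∀ w, G.Adj y w → G.Adj s₁ w → w = s₄ := by
    intro w h1 h2
    rcases (h.ny w).1 h1 with rfl | rfl | rfl | rfl
    · exact absurd h2 hx1'
    · exact absurd h2 (G.irrefl)
    · exact absurd h2 h13
    · rfl
  have hc1 : C1 (contr G y s₁) := (hC20.c1 hG h).2.1
  have hcNP : NP (contr G y s₁) := (hF1N hG h.sym1 hNP).1
  have hcOK : OK (contr G y s₁) := hIH _ (hDST.sz2 hyb) hc1 hcNP
  have hRle : delE G s₂ s₃ ≤ G := delE_le _ _ _
  have hRC1 : C1 (delE G s₂ s₃) := hXCC.c1 hG h h23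
  have hRNP : NP (delE G s₂ s₃) := hXCC.np hG h h23 hNP
  have hRsz : sz (delE G s₂ s₃) < sz G := by
    refine hDST.sz1 hRle ?_
    intro e
    have h1 : (delE G s₂ s₃).Adj s₂ s₃ := by rw [e]; exact h23
    exact (delE_adj.1 h1).2 rfl
  have hROK : OK (delE G s₂ s₃) := hIH _ hRsz hRC1 hRNP
  have hcm : contr (delE G s₂ s₃) y s₁ = delE (contr G y s₁) s₂ s₃ := hXC3.cm hy2 hy3 h12 h13'
  have hRcC1 : C1 (delE (contr G y s₁) s₂ s₃) := hcm ▸ hXCD hG h h23
  -- the vertices s₂, s₃
  have hA : ∀ s, G.Adj x s → s ≠ s₁ → (delE (contr G y s₁) s₂ s₃).Adj s x := by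
    intro s h1 h2
    refine delE_adj.2 ⟨contr_adj_of_adj h1.symm h2 hx1, ?_⟩
    intro e
    rw [Sym2.eq_iff] at e
    rcases e with ⟨_, e⟩ | ⟨_, e⟩
    · exact hx3 e
    · exact hx2 e
  refine hKCD hyb h23 hy2 hy3 h12 h13' hc1.1 hcOK.2 ?_ hROK.2 (hS3F.k3 hRcC1.1)
    (left_mem_VS (hA s₂ hxs2 (Ne.symm h12)))
    (left_mem_VS (hA s₃ hxs3 (Ne.symm h13'))) ?_
  · intro w h1 h2
    have := hcn w h1 h2
    subst this
    exact h4 h2
  · intro w h1 h2 _ _
    have := hcn w h1 h2
    subst this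
    refine ⟨tri x s₂ s₃, ?_, ?_⟩
    · have hD : ∀ a b, G.Adj a b → a = x ∨ a = s₂ ∨ a = s₃ → b = x ∨ b = s₂ ∨ b = s₃ →
          (del G {y, s₁, w}).Adj a b := by
        intro a b hab ha hb
        refine ⟨hab, ?_, ?_⟩
        · simp only [mem_insert, mem_singleton, not_or]
          rcases ha with rfl | rfl | rfl
          · exact ⟨hxy, hx1, hx4⟩
          · exact ⟨Ne.symm hy2, Ne.symm h12, h24⟩
          · exact ⟨Ne.symm hy3, Ne.symm h13', h34⟩
        · simp only [mem_insert, mem_singleton, not_or]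
          rcases hb with rfl | rfl | rfl
          · exact ⟨hxy, hx1, hx4⟩
          · exact ⟨Ne.symm hy2, Ne.symm h12, h24⟩
          · exact ⟨Ne.symm hy3, Ne.symm h13', h34⟩
      exact F1NM.tri_mem (hD x s₂ hxs2 (Or.inl rfl) (Or.inr (Or.inl rfl)))
        (hD s₂ s₃ h23 (Or.inr (Or.inl rfl)) (Or.inr (Or.inr rfl)))
        (hD x s₃ hxs3 (Or.inl rfl) (Or.inr (Or.inr rfl)))
    · simp [tri, chi]

end DL
end

section
/-!
MP_3ff0f8_gt, ALGEBRA HALF, E block section 2, module XKA (helper41)
-/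
open SimpleGraph Finset

namespace DL

namespace XKAM

open XCCM

variable {α : Type} [Fintype α] [DecidableEq α] {G : SimpleGraph α}

/-- `delE G s t` is in `C1` if there is no bad separation with `s` and `t` in different sides -/
theorem c1_of (hK : K48 G) {s t : α}
    (main : ∀ W P Q, Sep (delE G s t) W P Q → W ∪ P ∪ Q = VS G → W.card = 3 → 2 ≤ P.card → 2 ≤ Q.card →
      s ∈ P → t ∈ Q → False) : C1 (delE G s t) := by
  have hk3 : KConn 3 (delE G s t) := hK.1.delE (by norm_num) s t
  have hV : VS (delE G s t) = VS G := VS_delE fun v hv => le_trans (by norm_num) (hK.1.le_nbs hv)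
  refine ⟨hk3, fun W P Q hs hW => ?_⟩
  by_contra hcon
  push Not at hcon
  obtain ⟨hP, hQ⟩ := hcon
  have hno : ¬ ∀ a ∈ P, ∀ b ∈ Q, ¬ G.Adj a b := by
    intro hno
    have h1 : Sep G W P Q := ⟨by rw [hs.1, hV], hs.2.1, hs.2.2.1, hs.2.2.2.1, hno⟩
    have h2 := hK.1.le_of_sep h1 (card_pos.1 (by omega)) (card_pos.1 (by omega))
    omega
  rcases cross hs hno with ⟨h2, h3⟩ | ⟨h3, h2⟩
  · exact main W P Q hs (by rw [hs.1, hV]) hW hP hQ h2 h3
  · exact main W Q P hs.symm (by rw [hs.symm.1, hV]) hW hQ hP h2 h3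

/-- a side whose vertices different from `s` are not adjacent to `s` -/
theorem side0 (hFRG : SpecFRG) (hG : KConn 4 G) {s : α} {W P Q : Finset α}
    (hc : W ∪ P ∪ Q = VS G) (hWP : Disjoint W P) (hWc : W.card = 3)
    (hno : ∀ a ∈ P, ∀ b ∈ Q, G.Adj a b → a = s) (hs : s ∈ P) (hP : 2 ≤ P.card)
    (hX : ∀ a ∈ P, ¬ G.Adj s a) : False := by
  have hD : (P.erase s).Nonempty := by
    rw [← card_pos, card_erase_of_mem hs]
    omega
  refine hFRG.few (D := P.erase s) (W := W) (r := s) hG ?_ hD ?_ hWc.le ?_ ?_ ?_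
  · intro a ha
    rw [← hc]
    exact mem_union_left _ (mem_union_right _ (mem_of_mem_erase ha))
  · intro w hw
    obtain ⟨hw1, a, ha, haw⟩ := mem_NB.1 hw
    rw [mem_erase] at ha
    have hwV : w ∈ W ∪ P ∪ Q := by rw [hc]; exact right_mem_VS haw
    rw [mem_union, mem_union] at hwV
    rcases hwV with (h | h) | h
    · exact h
    · exfalso
      have : w = s := by
        by_contra hne
        exact hw1 (mem_erase.2 ⟨hne, h⟩)
      subst this
      exact hX a ha.2 haw.symm
    · exact absurd (hno a ha.2 w h haw) ha.1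
  · rw [← hc]
    exact mem_union_left _ (mem_union_right _ hs)
  · exact notMem_erase _ _
  · exact fun h => Finset.disjoint_left.1 hWP h hs

/-- `side` for a single vertex `z` of `W` -/
theorem side1 (hFRG : SpecFRG) (hG : KConn 4 G) {s t z : α} {W P Q : Finset α}
    (hc : W ∪ P ∪ Q = VS G) (hWP : Disjoint W P) (hWc : W.card = 3)
    (hno : ∀ a ∈ P, ∀ b ∈ Q, G.Adj a b → a = s ∧ b = t) (hs : s ∈ P) (hP : 2 ≤ P.card) (hz : z ∈ W)
    (hX : ∀ a ∈ P, G.Adj z a → a = s) : False := by
  refine side hFRG hG (s := s) (t := t) (x := z) {z} (by rw [hc]) (by rw [hc]) hWP hno ?_ hz (by simp) hs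
    hP ?_
  · rw [card_sdiff_of_subset (by simpa using hz), hWc, card_singleton]
  · intro z' hz' a ha h
    rw [mem_singleton] at hz'
    subst hz'
    exact hX a ha h

end XKAM

open XCCM XKAM

theorem specXKA (hFRG : SpecFRG) : SpecXKA where
  xy := by
    intro α _ _ G x y s₁ s₂ s₃ s₄ hK hp h12
    obtain ⟨n1, n2, n3, n4, n5, n6, n7, n8, n9, n10, n11, n12, n13, n14, n15⟩ := nes hp
    have hx2 : G.Adj x s₂ := (hp.nx _).2 (by simp)
    have hx3 : G.Adj x s₃ := (hp.nx _).2 (by simp)
    have hx4 : G.Adj x s₄ := (hp.nx _).2 (by simp)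
    have hy1 : G.Adj y s₁ := (hp.ny _).2 (by simp)
    have hy3 : G.Adj y s₃ := (hp.ny _).2 (by simp)
    have hy4 : G.Adj y s₄ := (hp.ny _).2 (by simp)
    apply c1_of hK
    intro W P Q hs hc hW hP hQ hx hy
    have hcov : ∀ v ∈ VS G, v ∉ P → v ∉ Q → v ∈ W := by
      intro v hv h1 h2
      rw [← hc, mem_union, mem_union] at hv
      tauto
    have h3W : s₃ ∈ W := hcov _ (right_mem_VS hx3)
      (fun h => n4 (only hs hx hy h hy hy3.symm).1.symm)
      (fun h => n8 (only hs hx hy hx h hx3).2.symm)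
    have h4W : s₄ ∈ W := hcov _ (right_mem_VS hx4)
      (fun h => n5 (only hs hx hy h hy hy4.symm).1.symm)
      (fun h => n9 (only hs hx hy hx h hx4).2.symm)
    have h2Q : s₂ ∉ Q := fun h => n7 (only hs hx hy hx h hx2).2.symm
    have h1P : s₁ ∉ P := fun h => n2 (only hs hx hy h hy hy1.symm).1.symm
    by_cases h2W : s₂ ∈ W
    · refine side0 hFRG hK.1 (s := x) hc hs.2.1 hW
        (fun a ha b hb hab => (only hs hx hy ha hb hab).1) hx hP ?_
      intro a ha hxa
      rcases (hp.nx a).1 hxa with rfl | rfl | rfl | rfl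
      · exact Finset.disjoint_left.1 hs.2.2.2.1 ha hy
      · exact Finset.disjoint_left.1 hs.2.1 h2W ha
      · exact Finset.disjoint_left.1 hs.2.1 h3W ha
      · exact Finset.disjoint_left.1 hs.2.1 h4W ha
    · have h2P : s₂ ∈ P := by
        by_contra h
        exact h2W (hcov _ (right_mem_VS hx2) h h2Q)
      have h1W : s₁ ∈ W := hcov _ (right_mem_VS hy1) h1P
        (fun h => n6 (only hs hx hy h2P h h12.symm).2.symm)
      refine side0 hFRG hK.1 (s := y) (P := Q) (Q := P) (by rw [union_right_comm, hc]) hs.2.2.1 hW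
        (fun a ha b hb hab => (only hs hx hy hb ha hab.symm).2) hy hQ ?_
      intro a ha hya
      rcases (hp.ny a).1 hya with rfl | rfl | rfl | rfl
      · exact Finset.disjoint_left.1 hs.2.2.2.1 hx ha
      · exact Finset.disjoint_left.1 hs.2.2.1 h1W ha
      · exact Finset.disjoint_left.1 hs.2.2.1 h3W ha
      · exact Finset.disjoint_left.1 hs.2.2.1 h4W ha
  x3 := by
    intro α _ _ G x y s₁ s₂ s₃ s₄ hK hp hE h12
    obtain ⟨n1, n2, n3, n4, n5, n6, n7, n8, n9, n10, n11, n12, n13, n14, n15⟩ := nes hp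
    have hxy : G.Adj x y := (hp.nx _).2 (by simp)
    have hx2 : G.Adj x s₂ := (hp.nx _).2 (by simp)
    have hx3 : G.Adj x s₃ := (hp.nx _).2 (by simp)
    have hx4 : G.Adj x s₄ := (hp.nx _).2 (by simp)
    have hy1 : G.Adj y s₁ := (hp.ny _).2 (by simp)
    have hy3 : G.Adj y s₃ := (hp.ny _).2 (by simp)
    have hy4 : G.Adj y s₄ := (hp.ny _).2 (by simp)
    apply c1_of hK
    intro W P Q hs hc hW hP hQ hx h3
    have hc' : W ∪ Q ∪ P = VS G := by rw [union_right_comm, hc]
    have hcov : ∀ v ∈ VS G, v ∉ P → v ∉ Q → v ∈ W := by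
      intro v hv h1 h2
      rw [← hc, mem_union, mem_union] at hv
      tauto
    have hno : ∀ a ∈ P, ∀ b ∈ Q, G.Adj a b → a = x ∧ b = s₃ := fun a ha b hb hab =>
      only hs hx h3 ha hb hab
    have hno' : ∀ a ∈ Q, ∀ b ∈ P, G.Adj a b → a = s₃ ∧ b = x := fun a ha b hb hab =>
      (hno b hb a ha hab.symm).symm
    have hyW : y ∈ W := hcov _ (right_mem_VS hxy) (fun h => n1 (hno _ h _ h3 hy3).1.symm)
      (fun h => n8 (hno _ hx _ h hxy).2)
    have h4Q : s₄ ∉ Q := fun h => n15 (hno _ hx _ h hx4).2.symm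
    have h2Q : s₂ ∉ Q := fun h => n13 (hno _ hx _ h hx2).2
    have h3P : s₃ ∉ P := fun h => Finset.disjoint_left.1 hs.2.2.2.1 h h3
    have hxQ : x ∉ Q := fun h => Finset.disjoint_left.1 hs.2.2.2.1 hx h
    by_cases h4P : s₄ ∈ P
    · by_cases h1Q : s₁ ∈ Q
      · have h2W : s₂ ∈ W := hcov _ (right_mem_VS hx2) (fun h => n3 (hno _ h _ h1Q h12.symm).1.symm) h2Q
        by_cases hD : ((P.erase x).erase s₄).Nonempty
        · refine hFRG.few (D := (P.erase x).erase s₄) (W := insert s₄ (W.erase y)) (r := x) hK.1 ?_ hD ?_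
            ?_ (left_mem_VS hxy) ?_ ?_
          · intro a ha
            rw [← hc]
            exact mem_union_left _ (mem_union_right _ (mem_of_mem_erase (mem_of_mem_erase ha)))
          · intro w hw
            obtain ⟨hw1, a, ha, haw⟩ := mem_NB.1 hw
            rw [mem_erase, mem_erase] at ha
            rw [mem_insert, mem_erase]
            have hwV : w ∈ W ∪ P ∪ Q := by rw [hc]; exact right_mem_VS haw
            rw [mem_union, mem_union] at hwV
            rcases hwV with (h | h) | h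
            · right
              refine ⟨?_, h⟩
              rintro rfl
              rcases (hp.ny a).1 haw.symm with rfl | rfl | rfl | rfl
              · exact ha.2.1 rfl
              · exact Finset.disjoint_left.1 hs.2.2.2.1 ha.2.2 h1Q
              · exact h3P ha.2.2
              · exact ha.1 rfl
            · left
              by_contra hne
              have hwx : w ≠ x := by
                rintro rfl
                rcases (hp.nx a).1 haw.symm with rfl | rfl | rfl | rfl
                · exact Finset.disjoint_left.1 hs.2.1 hyW ha.2.2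
                · exact Finset.disjoint_left.1 hs.2.1 h2W ha.2.2
                · exact h3P ha.2.2
                · exact ha.1 rfl
              exact hw1 (mem_erase.2 ⟨hne, mem_erase.2 ⟨hwx, h⟩⟩)
            · exact absurd (hno a ha.2.2 w h haw).1 ha.2.1
          · refine (card_insert_le _ _).trans ?_
            rw [card_erase_of_mem hyW, hW]
          · intro h
            exact (mem_erase.1 (mem_erase.1 h).2).1 rfl
          · rw [mem_insert, mem_erase, not_or]
            exact ⟨n5, fun h => Finset.disjoint_left.1 hs.2.1 h.2 hx⟩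
        · have hPsub : ∀ a ∈ P, a = x ∨ a = s₄ := by
            intro a ha
            by_contra hne
            push Not at hne
            exact hD ⟨a, mem_erase.2 ⟨hne.2, mem_erase.2 ⟨hne.1, ha⟩⟩⟩
          refine side1 hFRG hK.1 (z := s₂) hc hs.2.1 hW hno hx hP h2W ?_
          intro a ha hadj
          rcases hPsub a ha with e | e
          · exact e
          · subst e
            exact absurd hadj hE.2.2.2
      · refine side1 hFRG hK.1 (z := y) hc' hs.2.2.1 hW hno' h3 hQ hyW ?_
        intro a ha hadj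
        rcases (hp.ny a).1 hadj with rfl | rfl | rfl | rfl
        · exact absurd ha hxQ
        · exact absurd ha h1Q
        · rfl
        · exact absurd ha h4Q
    · have h4W : s₄ ∈ W := hcov _ (right_mem_VS hx4) h4P h4Q
      by_cases h1P : s₁ ∈ P
      · have h1Q : s₁ ∉ Q := fun h => Finset.disjoint_left.1 hs.2.2.2.1 h1P h
        refine side1 hFRG hK.1 (z := y) hc' hs.2.2.1 hW hno' h3 hQ hyW ?_
        intro a ha hadj
        rcases (hp.ny a).1 hadj with rfl | rfl | rfl | rfl
        · exact absurd ha hxQ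
        · exact absurd ha h1Q
        · rfl
        · exact absurd ha h4Q
      · refine side1 hFRG hK.1 (z := y) hc hs.2.1 hW hno hx hP hyW ?_
        intro a ha hadj
        rcases (hp.ny a).1 hadj with rfl | rfl | rfl | rfl
        · rfl
        · exact absurd ha h1P
        · exact absurd ha h3P
        · exact absurd ha h4P

end DL
end

section
/-!
# MP_3ff0f8_gt, ALGEBRA HALF: module XMB, a bad cut and a 4-separation with `x` in the cut, `y` in a side
-/
set_option autoImplicit false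

open SimpleGraph Finset

namespace DL

namespace XMBM

variable {α : Type} [Fintype α] [DecidableEq α] {G : SimpleGraph α} {x y s₁ s₂ s₃ s₄ t : α}
  {A B T X Y : Finset α}

omit [DecidableEq α] in
theorem mem_NB {A : Finset α} {w : α} : w ∈ NB G A ↔ w ∉ A ∧ ∃ a ∈ A, G.Adj a w := by
  simp [NB]

/-- the position of the two separations -/
structure Cf (G : SimpleGraph α) (x y s₁ s₂ s₃ s₄ t : α) (A B T X Y : Finset α) : Prop where
  bc : BCut G x y s₁ s₂ s₃ s₄ t A B
  sp : Sep G T X Y
  tc : T.card = 4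
  xT : x ∈ T
  yX : y ∈ X
  n1 : s₁ ∉ Y
  n3 : s₃ ∉ Y
  n4 : s₄ ∉ Y
  m2 : s₂ ∈ Y
  cx : 2 ≤ X.card
  cy : 2 ≤ Y.card

theorem Cf.symm (h : Cf G x y s₁ s₂ s₃ s₄ t A B T X Y) : Cf G x y s₁ s₂ s₄ s₃ t B A T X Y where
  bc := ⟨h.bc.k48, h.bc.p33.sym2, ⟨h.bc.e4.2.1, h.bc.e4.1, h.bc.e4.2.2.2, h.bc.e4.2.2.1⟩, h.bc.tn,
    h.bc.sp.symm, h.bc.cb, h.bc.ca, h.bc.b4, h.bc.a3, h.bc.cnb, h.bc.cna⟩
  sp := h.sp
  tc := h.tc
  xT := h.xT
  yX := h.yX
  n1 := h.n1
  n3 := h.n4
  n4 := h.n3
  m2 := h.m2
  cx := h.cx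
  cy := h.cy

theorem Cf.xV (h : Cf G x y s₁ s₂ s₃ s₄ t A B T X Y) : x ∈ VS G := h.sp.subS h.xT

theorem Cf.yV (h : Cf G x y s₁ s₂ s₃ s₄ t A B T X Y) : y ∈ VS G := h.sp.subP h.yX

/-- elements of `B` are not in the cut -/
theorem Cf.nB (h : Cf G x y s₁ s₂ s₃ s₄ t A B T X Y) {v : α} (hv : v ∈ B) :
    v ≠ x ∧ v ≠ y ∧ v ≠ s₁ ∧ v ≠ s₂ ∧ v ≠ t ∧ v ∉ A := by
  have h1 : v ∉ ({x, y, s₁, s₂, t} : Finset α) := Finset.disjoint_right.1 h.bc.sp.2.2.1 hv
  simp only [mem_insert, mem_singleton, not_or] at h1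
  exact ⟨h1.1, h1.2.1, h1.2.2.1, h1.2.2.2.1, h1.2.2.2.2, Finset.disjoint_right.1 h.bc.sp.2.2.2.1 hv⟩

/-- the neighbours of an element of `B` -/
theorem Cf.adjB (h : Cf G x y s₁ s₂ s₃ s₄ t A B T X Y) {v w : α} (hv : v ∈ B) (hvw : G.Adj v w) :
    w = x ∨ w = y ∨ w = s₁ ∨ w = s₂ ∨ w = t ∨ w ∈ B := by
  rcases h.bc.sp.mem_or (right_mem_VS hvw) with h1 | h1 | h1
  · simp only [mem_insert, mem_singleton] at h1
    tauto
  · exact absurd hvw.symm (h.bc.sp.2.2.2.2 w h1 v hv)
  · tauto

/-- the neighbours of an element of `Y` -/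
theorem Cf.adjY (h : Cf G x y s₁ s₂ s₃ s₄ t A B T X Y) {v w : α} (hv : v ∈ Y) (hvw : G.Adj v w) :
    w ∈ T ∨ w ∈ Y := by
  rcases h.sp.mem_or (right_mem_VS hvw) with h1 | h1 | h1
  · exact Or.inl h1
  · exact absurd hvw.symm (h.sp.2.2.2.2 w h1 v hv)
  · exact Or.inr h1

theorem Cf.adjX (h : Cf G x y s₁ s₂ s₃ s₄ t A B T X Y) {v w : α} (hv : v ∈ X) (hvw : G.Adj v w) :
    w ∈ T ∨ w ∈ X := by
  rcases h.sp.mem_or (right_mem_VS hvw) with h1 | h1 | h1
  · exact Or.inl h1
  · exact Or.inr h1
  · exact absurd hvw (h.sp.2.2.2.2 v hv w h1)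

/-- `x` is adjacent to no element of `B ∩ Y` -/
theorem Cf.xBY (h : Cf G x y s₁ s₂ s₃ s₄ t A B T X Y) {v : α} (hv : v ∈ B) (hvY : v ∈ Y) :
    ¬ G.Adj x v := by
  intro hx
  rw [h.bc.p33.nx] at hx
  obtain ⟨n1, n2, n3, n4, n5, n6⟩ := h.nB hv
  rcases hx with rfl | rfl | rfl | rfl
  · exact n2 rfl
  · exact n4 rfl
  · exact n6 h.bc.a3
  · exact h.n4 hvY

/-- few neighbours: `B ∩ Y` is empty -/
theorem Cf.bY (hFRG : SpecFRG) (h : Cf G x y s₁ s₂ s₃ s₄ t A B T X Y) (W : Finset α)
    (hW : W.card ≤ 3) (hx : x ∉ W) (h1 : ∀ w ∈ B, w ∈ T → w ∈ W) (h2 : s₂ ∈ W)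
    (h3 : s₁ ∈ T → s₁ ∈ W) (h4 : t ∉ X → t ∈ W) : ∀ w ∈ B, w ∉ Y := by
  intro w₀ hw₀ hw₀Y
  refine hFRG.few (D := B ∩ Y) (W := W) (r := x) h.bc.k48.1 ?_ ⟨w₀, mem_inter.2 ⟨hw₀, hw₀Y⟩⟩ ?_ hW
    h.xV ?_ hx
  · intro w hw
    exact h.sp.subQ (mem_inter.1 hw).2
  · intro w hw
    obtain ⟨hw1, v, hv, hvw⟩ := mem_NB.1 hw
    rw [mem_inter] at hv
    rcases h.adjB hv.1 hvw with rfl | rfl | rfl | rfl | rfl | h5
    · exact absurd hvw.symm (h.xBY hv.1 hv.2)
    · rcases h.adjY hv.2 hvw with h6 | h6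
      · exact absurd h.yX (Finset.disjoint_left.1 h.sp.2.1 h6)
      · exact absurd h6 (Finset.disjoint_left.1 h.sp.2.2.2.1 h.yX)
    · rcases h.adjY hv.2 hvw with h6 | h6
      · exact h3 h6
      · exact absurd h6 h.n1
    · exact h2
    · apply h4
      intro h5
      rcases h.adjY hv.2 hvw with h6 | h6
      · exact absurd h5 (Finset.disjoint_left.1 h.sp.2.1 h6)
      · exact absurd h6 (Finset.disjoint_left.1 h.sp.2.2.2.1 h5)
    · rcases h.adjY hv.2 hvw with h6 | h6
      · exact h1 w h5 h6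
      · exact absurd (mem_inter.2 ⟨h5, h6⟩) hw1
  · intro h5
    exact (h.nB (mem_inter.1 h5).1).1 rfl

/-- if `t ∈ Y` and `B ∩ T = {v}` then `B ∩ X` is empty -/
theorem Cf.bX (hFRG : SpecFRG) (h : Cf G x y s₁ s₂ s₃ s₄ t A B T X Y) {v : α} (hv : v ∈ B)
    (hvT : ∀ w ∈ B, w ∈ T → w = v) (ht : t ∈ Y) : ∀ w ∈ B, w ∉ X := by
  have hYX : ∀ w, w ∈ Y → w ∉ T ∧ w ∉ X := fun w hw =>
    ⟨fun h1 => Finset.disjoint_left.1 h.sp.2.2.1 h1 hw,
      fun h1 => Finset.disjoint_left.1 h.sp.2.2.2.1 h1 hw⟩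
  -- neighbours
  have key : ∀ u ∈ B, u ∈ X → ∀ w, G.Adj u w → w = x ∨ w = y ∨ w = s₁ ∨ w = v ∨ (w ∈ B ∧ w ∈ X) := by
    intro u hu huX w hw
    rcases h.adjB hu hw with rfl | rfl | rfl | rfl | rfl | h5
    · tauto
    · tauto
    · tauto
    · rcases h.adjX huX hw with h6 | h6
      · exact absurd h6 (hYX _ h.m2).1
      · exact absurd h6 (hYX _ h.m2).2
    · rcases h.adjX huX hw with h6 | h6
      · exact absurd h6 (hYX _ ht).1
      · exact absurd h6 (hYX _ ht).2
    · rcases h.adjX huX hw with h6 | h6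
      · have := hvT w h5 h6
        tauto
      · tauto
  have h1 : ∀ w ∈ B, w ∈ X → w = s₄ := by
    intro w₀ hw₀ hw₀X
    by_contra hne
    refine hFRG.few (D := (B ∩ X).erase s₄) (W := {s₄, v, s₁}) (r := x) h.bc.k48.1 ?_
      ⟨w₀, mem_erase.2 ⟨hne, mem_inter.2 ⟨hw₀, hw₀X⟩⟩⟩ ?_ card_le_three h.xV ?_ ?_
    · intro w hw
      exact h.sp.subP (mem_inter.1 (mem_of_mem_erase hw)).2
    · intro w hw
      obtain ⟨hw1, u, hu, huw⟩ := mem_NB.1 hw
      rw [mem_erase, mem_inter] at hu
      obtain ⟨hu4, huB, huX⟩ := hu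
      obtain ⟨n1, n2, n3, n4, n5, n6⟩ := h.nB huB
      have hu3 : u ≠ s₃ := fun e => n6 (e ▸ h.bc.a3)
      simp only [mem_insert, mem_singleton]
      rcases key u huB huX w huw with rfl | rfl | rfl | rfl | ⟨h5, h6⟩
      · have := (h.bc.p33.nx u).1 huw.symm
        tauto
      · have := (h.bc.p33.ny u).1 huw.symm
        tauto
      · tauto
      · tauto
      · by_contra hcon
        apply hw1
        rw [mem_erase, mem_inter]
        tauto
    · intro h5
      exact (h.nB (mem_inter.1 (mem_of_mem_erase h5)).1).1 rfl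
    · simp only [mem_insert, mem_singleton, not_or]
      refine ⟨(h.nB h.bc.b4).1.symm, (h.nB hv).1.symm, ?_⟩
      rintro rfl
      have := h.bc.p33.nd
      simp at this
  intro w hw hwX
  have hw4 := h1 w hw hwX
  subst hw4
  -- the degree of `s₄`
  have h2 := h.bc.k48.1.le_nbs (h.sp.subP hwX)
  have h3 : nbs G w ⊆ {x, y, v} := by
    intro u hu
    rw [mem_nbs] at hu
    simp only [mem_insert, mem_singleton]
    rcases key w hw hwX u hu with h5 | h5 | h5 | h5 | ⟨h5, h6⟩
    · tauto
    · tauto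
    · rw [h5] at hu
      exact absurd hu.symm h.bc.e4.2.1
    · tauto
    · exact absurd (h1 u h5 h6) hu.ne'
  have h4 := h2.trans ((card_le_card h3).trans card_le_three)
  omega

/-- `s₂` has a neighbour in `B` -/
theorem Cf.two (hFRG : SpecFRG) (h : Cf G x y s₁ s₂ s₃ s₄ t A B T X Y) : ∃ w ∈ B, G.Adj s₂ w := by
  by_contra hcon
  push Not at hcon
  have hD : (B.erase s₄).Nonempty := by
    rw [← card_pos, card_erase_of_mem h.bc.b4]
    have := h.bc.cb
    omega
  have h3A := h.bc.a3
  have h3 : s₃ ∉ ({x, y, s₁, s₂, t} : Finset α) := Finset.disjoint_right.1 h.bc.sp.2.1 h3A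
  simp only [mem_insert, mem_singleton, not_or] at h3
  have h3B : s₃ ∉ B := fun h5 => (h.nB h5).2.2.2.2.2 h3A
  refine hFRG.few (D := B.erase s₄) (W := {s₄, s₁, t}) (r := s₃) h.bc.k48.1 ?_ hD ?_ card_le_three
    (h.bc.sp.subP h3A) ?_ ?_
  · intro w hw
    exact h.bc.sp.subQ (mem_of_mem_erase hw)
  · intro w hw
    obtain ⟨hw1, u, hu, huw⟩ := mem_NB.1 hw
    rw [mem_erase] at hu
    obtain ⟨hu4, huB⟩ := hu
    obtain ⟨n1, n2, n3, n4, n5, n6⟩ := h.nB huB
    have hu3 : u ≠ s₃ := fun e => n6 (e ▸ h3A)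
    simp only [mem_insert, mem_singleton]
    rcases h.adjB huB huw with rfl | rfl | rfl | rfl | rfl | h5
    · have := (h.bc.p33.nx u).1 huw.symm
      tauto
    · have := (h.bc.p33.ny u).1 huw.symm
      tauto
    · tauto
    · exact absurd huw.symm (hcon u huB)
    · tauto
    · by_contra hne
      apply hw1
      rw [mem_erase]
      tauto
  · intro h5
    exact h3B (mem_of_mem_erase h5)
  · simp only [mem_insert, mem_singleton, not_or]
    exact ⟨fun e => h3B (e ▸ h.bc.b4), h3.2.2.1, h3.2.2.2.2⟩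

/-- `B` meets `T` -/
theorem Cf.meet (hFRG : SpecFRG) (h : Cf G x y s₁ s₂ s₃ s₄ t A B T X Y) : (B ∩ T).Nonempty := by
  by_contra hne
  rw [not_nonempty_iff_eq_empty] at hne
  have hBT : ∀ w ∈ B, w ∉ T := fun w hw hwT => by
    have : w ∈ B ∩ T := mem_inter.2 ⟨hw, hwT⟩
    rw [hne] at this
    exact absurd this (notMem_empty _)
  obtain ⟨w, hw, hw2⟩ := h.two hFRG
  have h4X : s₄ ∈ X := by
    rcases h.sp.mem_or (h.bc.sp.subQ h.bc.b4) with h5 | h5 | h5
    · exact absurd h5 (hBT _ h.bc.b4)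
    · exact h5
    · exact absurd h5 h.n4
  have hr := h.bc.cnb.2 s₄ h.bc.b4 w hw
  have hwX : w ∈ X := by
    refine mem_of_reachable (X := {v | v ∈ X}) hr h4X ?_
    intro u v huv hu
    rcases h.adjX hu huv.1 with h5 | h5
    · have : v ∈ B := by
        by_contra hvB
        exact huv.2.2 (mem_sdiff.2 ⟨mem_univ _, hvB⟩)
      exact absurd h5 (hBT v this)
    · exact h5
  exact h.sp.2.2.2.2 w hwX s₂ h.m2 hw2.symm

/-- the size of `T` -/
theorem Cf.count (h : Cf G x y s₁ s₂ s₃ s₄ t A B T X Y) :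
    (A ∩ T).card + (B ∩ T).card + (({s₁, t} : Finset α) ∩ T).card = 3 := by
  have hn := h.bc.p33.nd
  simp only [List.nodup_cons, List.mem_cons, List.not_mem_nil, or_false, not_or, List.nodup_nil,
    and_true, not_false_eq_true] at hn
  have htn := h.bc.tn
  simp only [mem_insert, mem_singleton, not_or] at htn
  have hyT : y ∉ T := fun h5 => Finset.disjoint_left.1 h.sp.2.1 h5 h.yX
  have h2T : s₂ ∉ T := fun h5 => Finset.disjoint_left.1 h.sp.2.2.1 h5 h.m2
  have hA : ∀ v ∈ A, v ≠ x ∧ v ≠ y ∧ v ≠ s₁ ∧ v ≠ s₂ ∧ v ≠ t ∧ v ∉ B := fun v hv => h.symm.nB hv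
  have e1 : T.erase x = (A ∩ T) ∪ (B ∩ T) ∪ (({s₁, t} : Finset α) ∩ T) := by
    ext v
    simp only [mem_erase, mem_union, mem_inter, mem_insert, mem_singleton]
    constructor
    · rintro ⟨h1, h2⟩
      rcases h.bc.sp.mem_or (h.sp.subS h2) with h3 | h3 | h3
      · simp only [mem_insert, mem_singleton] at h3
        rcases h3 with rfl | rfl | rfl | rfl | rfl
        · exact absurd rfl h1
        · exact absurd h2 hyT
        · tauto
        · exact absurd h2 h2T
        · tauto
      · tauto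
      · tauto
    · rintro ((⟨h1, h2⟩ | ⟨h1, h2⟩) | ⟨rfl | rfl, h2⟩)
      · exact ⟨(hA v h1).1, h2⟩
      · exact ⟨(h.nB h1).1, h2⟩
      · exact ⟨fun e => hn.1.2.1 e.symm, h2⟩
      · exact ⟨htn.1, h2⟩
  have d1 : Disjoint ((A ∩ T) ∪ (B ∩ T)) (({s₁, t} : Finset α) ∩ T) := by
    rw [Finset.disjoint_left]
    intro v hv hv'
    simp only [mem_union, mem_inter, mem_insert, mem_singleton] at hv hv'
    rcases hv with hv | hv
    · have := hA v hv.1
      tauto
    · have := h.nB hv.1
      tauto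
  have d2 : Disjoint (A ∩ T) (B ∩ T) := by
    rw [Finset.disjoint_left]
    intro v hv hv'
    exact (hA v (mem_inter.1 hv).1).2.2.2.2.2 (mem_inter.1 hv').1
  have e2 := congrArg Finset.card e1
  rw [card_union_of_disjoint d1, card_union_of_disjoint d2, card_erase_of_mem h.xT, h.tc] at e2
  omega

theorem core (hFRG : SpecFRG) (h : Cf G x y s₁ s₂ s₃ s₄ t A B T X Y) (hb : (B ∩ T).card = 1) :
    False := by
  have hn := h.bc.p33.nd
  simp only [List.nodup_cons, List.mem_cons, List.not_mem_nil, or_false, not_or, List.nodup_nil,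
    and_true, not_false_eq_true] at hn
  have htn := h.bc.tn
  simp only [mem_insert, mem_singleton, not_or] at htn
  obtain ⟨v, hv⟩ := card_eq_one.1 hb
  have hvm : v ∈ B ∧ v ∈ T := by
    have : v ∈ B ∩ T := by rw [hv]; simp
    exact mem_inter.1 this
  have hvT : ∀ w ∈ B, w ∈ T → w = v := by
    intro w hw hwT
    have : w ∈ B ∩ T := mem_inter.2 ⟨hw, hwT⟩
    rwa [hv, mem_singleton] at this
  have hcnt := h.count
  have ha1 : 1 ≤ (A ∩ T).card := card_pos.2 (h.symm.meet hFRG)
  have hTX : ∀ w, w ∈ T → w ∉ X ∧ w ∉ Y := fun w hw =>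
    ⟨Finset.disjoint_left.1 h.sp.2.1 hw, Finset.disjoint_left.1 h.sp.2.2.1 hw⟩
  have hXY : ∀ w, w ∈ X → w ∉ Y := fun w hw => Finset.disjoint_left.1 h.sp.2.2.2.1 hw
  by_cases ht : t ∈ Y
  · have hBX := h.bX hFRG hvm.1 hvT ht
    by_cases h1T : s₁ ∈ T
    · -- `z = 1`
      have hz : 1 ≤ (({s₁, t} : Finset α) ∩ T).card := by
        rw [Nat.succ_le_iff, card_pos]
        exact ⟨s₁, mem_inter.2 ⟨by simp, h1T⟩⟩
      have ha : (A ∩ T).card = 1 := by omega
      obtain ⟨u, hu⟩ := card_eq_one.1 ha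
      have hum : u ∈ A ∧ u ∈ T := by
        have : u ∈ A ∩ T := by rw [hu]; simp
        exact mem_inter.1 this
      have huT : ∀ w ∈ A, w ∈ T → w = u := by
        intro w hw hwT
        have : w ∈ A ∩ T := mem_inter.2 ⟨hw, hwT⟩
        rwa [hu, mem_singleton] at this
      have hAX := h.symm.bX hFRG hum.1 huT ht
      have hsub : X ⊆ {y} := by
        intro w hw
        rw [mem_singleton]
        rcases h.bc.sp.mem_or (h.sp.subP hw) with h3 | h3 | h3
        · simp only [mem_insert, mem_singleton] at h3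
          rcases h3 with rfl | rfl | rfl | rfl | rfl
          · exact absurd hw (hTX _ h.xT).1
          · rfl
          · exact absurd hw (hTX _ h1T).1
          · exact absurd h.m2 (hXY _ hw)
          · exact absurd ht (hXY _ hw)
        · exact absurd hw (hAX w h3)
        · exact absurd hw (hBX w h3)
      have h5 := card_le_card hsub
      rw [card_singleton] at h5
      have := h.cx
      omega
    · -- `z = 0`
      have hBY := h.bY hFRG {v, s₂, t} card_le_three (by
          simp only [mem_insert, mem_singleton, not_or]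
          exact ⟨(h.nB hvm.1).1.symm, hn.1.2.2.1, fun e => htn.1 e.symm⟩)
        (fun w hw hwT => by simp [hvT w hw hwT]) (by simp) (fun h5 => absurd h5 h1T)
        (fun _ => by simp)
      have hsub : B ⊆ {v} := by
        intro w hw
        rw [mem_singleton]
        rcases h.sp.mem_or (h.bc.sp.subQ hw) with h3 | h3 | h3
        · exact hvT w hw h3
        · exact absurd h3 (hBX w hw)
        · exact absurd h3 (hBY w hw)
      have h5 := card_le_card hsub
      rw [card_singleton] at h5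
      have := h.bc.cb
      omega
  · have hx1 : x ≠ s₁ := hn.1.2.1
    have hx2 : x ≠ s₂ := hn.1.2.2.1
    have htX : t ∉ X → t ∈ T := by
      intro h5
      rcases h.sp.mem_or (h.bc.sp.subS (show t ∈ ({x, y, s₁, s₂, t} : Finset α) by simp)) with
        h6 | h6 | h6
      · exact h6
      · exact absurd h6 h5
      · exact absurd h6 ht
    have gen : ∀ (A' : Finset α), x ∉ A' → (A' ∩ T).card + (({s₁, t} : Finset α) ∩ T).card ≤ 2 →
        ∃ W : Finset α, W.card ≤ 3 ∧ x ∉ W ∧ (∀ w ∈ A', w ∈ T → w ∈ W) ∧ s₂ ∈ W ∧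
          (s₁ ∈ T → s₁ ∈ W) ∧ (t ∉ X → t ∈ W) := by
      intro A' hxA hc
      refine ⟨insert s₂ ((A' ∩ T) ∪ (({s₁, t} : Finset α) ∩ T)), ?_, ?_, ?_, ?_, ?_, ?_⟩
      · refine (card_insert_le _ _).trans ?_
        have := card_union_le (A' ∩ T) (({s₁, t} : Finset α) ∩ T)
        omega
      · simp only [mem_insert, mem_union, mem_inter, mem_singleton, not_or]
        refine ⟨hx2, fun h5 => hxA h5.1, ?_⟩
        rintro ⟨h5 | h5, _⟩
        · exact hx1 h5
        · exact htn.1 h5.symm
      · intro w hw hwT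
        simp only [mem_insert, mem_union, mem_inter, mem_singleton]
        tauto
      · simp
      · intro h5
        simp [h5]
      · intro h5
        simp [htX h5]
    have hBY : ∀ w ∈ B, w ∉ Y := by
      obtain ⟨W, w1, w2, w3, w4, w5, w6⟩ := gen B (fun h5 => (h.nB h5).1 rfl) (by omega)
      exact h.bY hFRG W w1 w2 w3 w4 w5 w6
    have hAY : ∀ w ∈ A, w ∉ Y := by
      obtain ⟨W, w1, w2, w3, w4, w5, w6⟩ := gen A (fun h5 => (h.symm.nB h5).1 rfl) (by omega)
      exact h.symm.bY hFRG W w1 w2 w3 w4 w5 w6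
    have hsub : Y ⊆ {s₂} := by
      intro w hw
      rw [mem_singleton]
      rcases h.bc.sp.mem_or (h.sp.subQ hw) with h3 | h3 | h3
      · simp only [mem_insert, mem_singleton] at h3
        rcases h3 with rfl | rfl | rfl | rfl | rfl
        · exact absurd hw (hTX _ h.xT).2
        · exact absurd hw (hXY _ h.yX)
        · exact absurd hw h.n1
        · rfl
        · exact absurd hw ht
      · exact absurd hw (hAY w h3)
      · exact absurd hw (hBY w h3)
    have h5 := card_le_card hsub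
    rw [card_singleton] at h5
    have := h.cy
    omega

end XMBM

open XMBM in
/-- **XMB** -/
theorem specXMB (hFRG : SpecFRG) : SpecXMB := by
  intro α _ _ G x y s₁ s₂ s₃ s₄ t A B T X Y hbc hs h4 hxT hyX hX hY
  have hYne : Y.Nonempty := card_pos.1 (by omega)
  obtain ⟨b, hb, hxb⟩ := hbc.k48.1.exists_adj_of_sep hs.symm hYne h4.le hxT
  have hXY : ∀ w, w ∈ X → w ∉ Y := fun w hw => Finset.disjoint_left.1 hs.2.2.2.1 hw
  have hnY : ∀ w, G.Adj y w → w ∉ Y := fun w hw hwY => hs.2.2.2.2 y hyX w hwY hw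
  have n1 : s₁ ∉ Y := hnY _ ((hbc.p33.ny _).2 (by simp))
  have n3 : s₃ ∉ Y := hnY _ ((hbc.p33.ny _).2 (by simp))
  have n4 : s₄ ∉ Y := hnY _ ((hbc.p33.ny _).2 (by simp))
  have m2 : s₂ ∈ Y := by
    rcases (hbc.p33.nx b).1 hxb with rfl | rfl | rfl | rfl
    · exact absurd hb (hXY _ hyX)
    · exact hb
    · exact absurd hb n3
    · exact absurd hb n4
  have h : Cf G x y s₁ s₂ s₃ s₄ t A B T X Y := ⟨hbc, hs, h4, hxT, hyX, n1, n3, n4, m2, hX, hY⟩
  have h1 : 1 ≤ (A ∩ T).card := card_pos.2 (h.symm.meet hFRG)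
  have h2 : 1 ≤ (B ∩ T).card := card_pos.2 (h.meet hFRG)
  have h3 := h.count
  by_cases h5 : (B ∩ T).card = 1
  · exact core hFRG h h5
  · exact core hFRG h.symm (by omega)

end DL
end
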