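import Pool.Agent.DL.E.Spec2c
import Pool.Agent.DL.E.Spec2d
import Pool.Agent.DL.G4.C20
import Pool.Agent.DL.MENG
import Pool.Agent.DL.KC
import Pool.Agent.DL.G4.N3A

section
/-!
MP_3ff0f8_gt, ALGEBRA HALF, E block section 2, module XDM (helper20): three disjoint paths from a cycle
-/
open SimpleGraph Finset

namespace DL

namespace XDMM

set_option linter.unusedSectionVars false

variable {α : Type} [Fintype α] [DecidableEq α] {G : SimpleGraph α} {x y s₁ s₂ s₃ s₄ : α}

/-- the vertices outside `S` connected to `A - S` -/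
noncomputable def comp (H : SimpleGraph α) (S A : Finset α) : Finset α := by
  classical exact univ.filter fun v => ∃ a ∈ A, a ∉ S ∧ (del H S).Reachable a v

theorem mem_comp {H : SimpleGraph α} {S A : Finset α} {v : α} :
    v ∈ comp H S A ↔ ∃ a ∈ A, a ∉ S ∧ (del H S).Reachable a v := by
  classical
  unfold comp
  simp

theorem comp_notMem {H : SimpleGraph α} {S A : Finset α} {v : α} (h : v ∈ comp H S A) : v ∉ S := by
  obtain ⟨a, _, ha, hr⟩ := mem_comp.1 h
  exact reachable_del_notMem_right hr ha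

theorem comp_step {H : SimpleGraph α} {S A : Finset α} {v w : α} (h : v ∈ comp H S A)
    (hvw : H.Adj v w) (hw : w ∉ S) : w ∈ comp H S A := by
  obtain ⟨a, ha, haS, hr⟩ := mem_comp.1 h
  exact mem_comp.2 ⟨a, ha, haS, hr.trans (SimpleGraph.Adj.reachable ⟨hvw, comp_notMem h, hw⟩)⟩

theorem self_mem_comp {H : SimpleGraph α} {S A : Finset α} {a : α} (ha : a ∈ A) (haS : a ∉ S) :
    a ∈ comp H S A := mem_comp.2 ⟨a, ha, haS, SimpleGraph.Reachable.refl _⟩

/-- vertices of `comp` are vertices of `H` or elements of `A` -/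
theorem comp_cases {H : SimpleGraph α} {S A : Finset α} {v : α} (h : v ∈ comp H S A) :
    v ∈ A ∨ v ∈ VS H := by
  obtain ⟨a, ha, haS, hr⟩ := mem_comp.1 h
  by_cases hav : a = v
  · exact Or.inl (hav ▸ ha)
  · obtain ⟨u, hu⟩ := exists_adj_of_reachable hr.symm (Ne.symm hav)
    exact Or.inr (left_mem_VS hu.1)

theorem mem_NB {A : Finset α} {w : α} : w ∈ NB G A ↔ w ∉ A ∧ ∃ a ∈ A, G.Adj a w := by
  unfold NB
  simp

/-- neighbours of a component -/
theorem nb_comp {T S A : Finset α} {v w : α} (hv : v ∈ comp (del G T) S A) (hvT : v ∉ T)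
    (hvw : G.Adj v w) (hw : w ∉ comp (del G T) S A) : w ∈ S ∨ w ∈ T := by
  by_contra hcon
  rw [not_or] at hcon
  exact hw (comp_step hv ⟨hvw, hvT, hcon.2⟩ hcon.1)

theorem comp_notT {T S A : Finset α} (hA : ∀ a ∈ A, a ∉ T) {v : α}
    (hv : v ∈ comp (del G T) S A) : v ∉ T := by
  rcases comp_cases hv with h | h
  · exact hA v h
  · exact (mem_sdiff.1 (VS_del_subset _ h)).2

/-- the general step: the component does not contain `s₁`, `s₂`; then it is contained in `{s₃, s₄}`
as far as allowed -/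
theorem step (hFRG : SpecFRG) (hK : K48 G) (hP : P33 G x y s₁ s₂ s₃ s₄) {K W : Finset α}
    (hKV : K ⊆ VS G) (hx : x ∉ K) (hy : y ∉ K) (h1 : s₁ ∉ K) (h2 : s₂ ∉ K)
    {r : α} (hr : r ∈ VS G) (hrK : r ∉ K) (hrW : r ∉ W) (hW : W.card ≤ 3)
    (hnb : ∀ v ∈ K, ∀ w, w ∉ K → G.Adj v w → w ∈ W ∨ w = x ∨ w = y)
    (h3 : s₃ ∉ K) (h4 : s₄ ∉ K) : K = ∅ := by
  by_contra hne
  refine hFRG.few hK.1 hKV (nonempty_iff_ne_empty.2 hne) ?_ hW hr hrK hrW
  intro w hw
  obtain ⟨hwK, a, ha, haw⟩ := mem_NB.1 hw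
  rcases hnb a ha w hwK haw with h | h | h
  · exact h
  · subst h
    have := (hP.nx a).1 haw.symm
    rcases this with rfl | rfl | rfl | rfl
    · exact absurd ha hy
    · exact absurd ha h2
    · exact absurd ha h3
    · exact absurd ha h4
  · subst h
    have := (hP.ny a).1 haw.symm
    rcases this with rfl | rfl | rfl | rfl
    · exact absurd ha hx
    · exact absurd ha h1
    · exact absurd ha h3
    · exact absurd ha h4

/-- the same without the last two hypotheses -/
theorem step' (hFRG : SpecFRG) (hK : K48 G) (hP : P33 G x y s₁ s₂ s₃ s₄) {K W : Finset α}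
    (hKV : K ⊆ VS G) (hx : x ∉ K) (hy : y ∉ K) (h1 : s₁ ∉ K) (h2 : s₂ ∉ K)
    {r : α} (hr : r ∈ VS G) (hrK : r ∉ K) (hrW : r ∉ W) (hW : (W ∪ K ∩ {s₃, s₄}).card ≤ 3)
    (hnb : ∀ v ∈ K, ∀ w, w ∉ K → G.Adj v w → w ∈ W ∨ w = x ∨ w = y) : K ⊆ {s₃, s₄} := by
  have h := step hFRG hK hP (K := K \ {s₃, s₄}) (W := W ∪ K ∩ {s₃, s₄}) (r := r)
    ((sdiff_subset).trans hKV) (fun h => hx (mem_sdiff.1 h).1) (fun h => hy (mem_sdiff.1 h).1)
    (fun h => h1 (mem_sdiff.1 h).1) (fun h => h2 (mem_sdiff.1 h).1) hr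
    (fun h => hrK (mem_sdiff.1 h).1) ?_ hW ?_ (by simp) (by simp)
  · rwa [sdiff_eq_empty_iff_subset] at h
  · rw [mem_union, not_or]
    exact ⟨hrW, fun h => hrK (mem_inter.1 h).1⟩
  · intro v hv w hw hvw
    rw [mem_sdiff] at hv
    by_cases hwK : w ∈ K
    · left
      have : w ∈ ({s₃, s₄} : Finset α) := by
        by_contra h'
        exact hw (mem_sdiff.2 ⟨hwK, h'⟩)
      exact mem_union_right _ (mem_inter.2 ⟨hwK, this⟩)
    · rcases hnb v hv.1 w hwK hvw with h | h
      · exact Or.inl (mem_union_left _ h)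
      · exact Or.inr h

theorem ex3 {a b c : α} (hab : a ≠ b) (hac : a ≠ c) (hbc : b ≠ c) {S : Finset α} (hS : S.card < 3) :
    ∃ r, (r = a ∨ r = b ∨ r = c) ∧ r ∉ S := by
  by_contra hcon
  push Not at hcon
  have h3 : ({a, b, c} : Finset α) ⊆ S := by
    intro w hw
    simp only [mem_insert, mem_singleton] at hw
    exact hcon w hw
  have h4 := card_le_card h3
  rw [card_eq_three.2 ⟨a, b, c, hab, hac, hbc, rfl⟩] at h4
  omega

theorem three_le_vs {Z : Finset (Sym2 α)} (hZ : IsCyc G Z) : 3 ≤ (vs Z).card := by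
  obtain ⟨v, hv⟩ := vs_nonempty hZ.nonempty
  obtain ⟨i, j, hij, hi, hj, _⟩ := hZ.two_edges hv
  have hvi : v ≠ i := (hZ.adj_of_mem hi).ne
  have hvj : v ≠ j := (hZ.adj_of_mem hj).ne
  have h3 : ({v, i, j} : Finset α) ⊆ vs Z := by
    intro w hw
    simp only [mem_insert, mem_singleton] at hw
    rcases hw with rfl | rfl | rfl
    · exact hv
    · exact right_mem_vs hi
    · exact right_mem_vs hj
  have h4 := card_le_card h3
  rwa [card_eq_three.2 ⟨v, i, j, hvi, hvj, hij, rfl⟩] at h4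

theorem nds (hP : P33 G x y s₁ s₂ s₃ s₄) : x ≠ y ∧ s₁ ≠ x ∧ s₁ ≠ y ∧ s₂ ≠ x ∧ s₂ ≠ y ∧ s₃ ≠ x ∧
    s₃ ≠ y ∧ s₄ ≠ x ∧ s₄ ≠ y ∧ s₁ ≠ s₂ ∧ s₁ ≠ s₃ ∧ s₁ ≠ s₄ ∧ s₂ ≠ s₃ ∧ s₂ ≠ s₄ ∧ s₃ ≠ s₄ := by
  have := hP.nd
  simp only [List.nodup_cons, List.mem_cons, List.not_mem_nil, or_false, not_or, List.nodup_nil,
    and_true, not_false_eq_true] at this
  obtain ⟨⟨a1, a2, a3, a4, a5⟩, ⟨b1, b2, b3, b4⟩, ⟨c1, c2, c3⟩, ⟨d1, d2⟩, e1⟩ := this
  exact ⟨a1, Ne.symm a2, Ne.symm b1, Ne.symm a3, Ne.symm b2, Ne.symm a4, Ne.symm b3, Ne.symm a5,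
    Ne.symm b4, c1, c2, c3, d1, d2, e1⟩

theorem sV (hP : P33 G x y s₁ s₂ s₃ s₄) : s₁ ∈ VS G ∧ s₂ ∈ VS G ∧ s₃ ∈ VS G ∧ s₄ ∈ VS G ∧
    x ∈ VS G ∧ y ∈ VS G := by
  have h1 : G.Adj y s₁ := (hP.ny s₁).2 (by simp)
  have h2 : G.Adj x s₂ := (hP.nx s₂).2 (by simp)
  have h3 : G.Adj x s₃ := (hP.nx s₃).2 (by simp)
  have h4 : G.Adj x s₄ := (hP.nx s₄).2 (by simp)
  exact ⟨right_mem_VS h1, right_mem_VS h2, right_mem_VS h3, right_mem_VS h4, left_mem_VS h2,
    left_mem_VS h1⟩

/-- Menger fails: the exceptional position of `Z` -/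
theorem outer (hFRG : SpecFRG) (hK : K48 G) (hP : P33 G x y s₁ s₂ s₃ s₄) {Z : Finset (Sym2 α)}
    (hZ : IsCyc (del G {x, y, s₁, s₂}) Z) {S : Finset α} (hS : S.card < 3)
    (hno : ¬ ∃ a ∈ vs Z, ∃ b ∈ ({s₁, s₂, s₃} : Finset α), a ∉ S ∧ b ∉ S ∧
      (del (del G {x, y}) S).Reachable a b) :
    s₄ ∉ S ∧ S.card = 2 ∧ vs Z = insert s₄ S ∧ ∀ w, G.Adj s₄ w → w ∈ S ∨ w = x ∨ w = y := by
  obtain ⟨hxy, h1x, h1y, h2x, h2y, h3x, h3y, h4x, h4y, h12, h13, h14, h23, h24, h34⟩ := nds hP
  obtain ⟨v1, v2, v3, v4, vx, vy⟩ := sV hP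
  obtain ⟨hZ1, hZ2⟩ := isCyc_del.1 hZ
  have hZV : vs Z ⊆ VS G := hZ1.vs_subset
  have hZT : ∀ a ∈ vs Z, a ∉ ({x, y} : Finset α) := by
    intro a ha h
    refine Finset.disjoint_left.1 hZ2 ha ?_
    simp only [mem_insert, mem_singleton] at h ⊢
    tauto
  set K := comp (del G {x, y}) S (vs Z) with hKd
  have hnb : ∀ b ∈ ({s₁, s₂, s₃} : Finset α), b ∉ K := by
    intro b hb hbK
    obtain ⟨a, ha, haS, hr⟩ := mem_comp.1 hbK
    exact hno ⟨a, ha, b, hb, haS, comp_notMem hbK, hr⟩
  have hKT : ∀ v ∈ K, v ∉ ({x, y} : Finset α) := fun v hv => comp_notT hZT hv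
  have hxK : x ∉ K := fun h => hKT x h (by simp)
  have hyK : y ∉ K := fun h => hKT y h (by simp)
  have h1K := hnb s₁ (by simp)
  have h2K := hnb s₂ (by simp)
  have h3K := hnb s₃ (by simp)
  have hKV : K ⊆ VS G := by
    intro v hv
    rcases comp_cases hv with h | h
    · exact hZV h
    · exact VS_mono (del_le _ _) h
  have hnb2 : ∀ v ∈ K, ∀ w, w ∉ K → G.Adj v w → w ∈ S ∨ w = x ∨ w = y := by
    intro v hv w hw hvw
    rcases nb_comp hv (hKT v hv) hvw hw with h | h
    · exact Or.inl h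
    · right
      simpa using h
  obtain ⟨r, hr, hrS⟩ := ex3 h12 h13 h23 hS
  have hrV : r ∈ VS G := by rcases hr with rfl | rfl | rfl <;> assumption
  have hrK : r ∉ K := hnb r (by simpa using hr)
  have hK4 : K ∩ {s₃, s₄} ⊆ {s₄} := by
    intro w hw
    rw [mem_inter, mem_insert, mem_singleton] at hw
    rcases hw.2 with rfl | rfl
    · exact absurd hw.1 h3K
    · exact mem_singleton_self _
  have hKs := step' hFRG hK hP (W := S) hKV hxK hyK h1K h2K hrV hrK hrS (by
    have := (card_union_le S (K ∩ {s₃, s₄})).trans (Nat.add_le_add_left (card_le_card hK4) _)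
    rw [card_singleton] at this
    omega) hnb2
  have hKs' : K ⊆ {s₄} := by
    intro w hw
    exact hK4 (mem_inter.2 ⟨hw, hKs hw⟩)
  have hsub : vs Z ⊆ insert s₄ S := by
    intro w hw
    by_cases hwS : w ∈ S
    · exact mem_insert_of_mem hwS
    · have := hKs' (self_mem_comp hw hwS)
      rw [mem_singleton] at this
      rw [this]
      exact mem_insert_self _ _
  have h3 := three_le_vs hZ1
  have hc := card_le_card hsub
  have hc2 := card_insert_le s₄ S
  have hs4 : s₄ ∉ S := by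
    intro h
    rw [insert_eq_of_mem h] at hc
    omega
  have hS2 : S.card = 2 := by omega
  have heq : vs Z = insert s₄ S := by
    refine eq_of_subset_of_card_le hsub ?_
    omega
  have h4K : s₄ ∈ K := by
    refine self_mem_comp ?_ hs4
    rw [heq]
    exact mem_insert_self _ _
  refine ⟨hs4, hS2, heq, fun w hw => hnb2 s₄ h4K w ?_ hw⟩
  intro h
  have := hKs' h
  rw [mem_singleton] at this
  exact hw.ne this.symm

/-- the inner application of Menger's theorem -/
theorem inner' (hFRG : SpecFRG) (hK : K48 G) (hP : P33 G x y s₁ s₂ s₃ s₄) {S : Finset α}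
    (hS2 : S.card = 2) (hs4 : s₄ ∉ S) (hSV : S ⊆ VS G)
    (hST : ∀ a ∈ S, a ∉ ({x, y, s₁, s₂} : Finset α))
    (hN4 : ∀ w, G.Adj s₄ w → w ∈ S ∨ w = x ∨ w = y) {S' : Finset α} (hS' : S'.card < 2) :
    ∃ a ∈ S, ∃ b ∈ ({s₁, s₂} : Finset α), a ∉ S' ∧ b ∉ S' ∧
      (del (del G {x, y, s₄}) S').Reachable a b := by
  by_contra hno
  obtain ⟨hxy, h1x, h1y, h2x, h2y, h3x, h3y, h4x, h4y, h12, h13, h14, h23, h24, h34⟩ := nds hP
  obtain ⟨v1, v2, v3, v4, vx, vy⟩ := sV hP
  have hZT : ∀ a ∈ S, a ∉ ({x, y, s₄} : Finset α) := by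
    intro a ha h
    have h1 := hST a ha
    simp only [mem_insert, mem_singleton, not_or] at h h1
    rcases h with h | h | h
    · exact h1.1 h
    · exact h1.2.1 h
    · exact hs4 (h ▸ ha)
  set K := comp (del G {x, y, s₄}) S' S with hKd
  have hnb : ∀ b ∈ ({s₁, s₂} : Finset α), b ∉ K := by
    intro b hb hbK
    obtain ⟨a, ha, haS, hr⟩ := mem_comp.1 hbK
    exact hno ⟨a, ha, b, hb, haS, comp_notMem hbK, hr⟩
  have hKT : ∀ v ∈ K, v ∉ ({x, y, s₄} : Finset α) := fun v hv => comp_notT hZT hv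
  have hxK : x ∉ K := fun h => hKT x h (by simp)
  have hyK : y ∉ K := fun h => hKT y h (by simp)
  have h4K : s₄ ∉ K := fun h => hKT s₄ h (by simp)
  have h1K := hnb s₁ (by simp)
  have h2K := hnb s₂ (by simp)
  have hKV : K ⊆ VS G := by
    intro v hv
    rcases comp_cases hv with h | h
    · exact hSV h
    · exact VS_mono (del_le _ _) h
  have hnb2 : ∀ v ∈ K, ∀ w, w ∉ K → G.Adj v w → w ∈ insert s₄ S' ∨ w = x ∨ w = y := by
    intro v hv w hw hvw
    rcases nb_comp hv (hKT v hv) hvw hw with h | h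
    · exact Or.inl (mem_insert_of_mem h)
    · simp only [mem_insert, mem_singleton] at h ⊢
      tauto
  have hr : ∃ r, (r = s₁ ∨ r = s₂) ∧ r ∉ S' := by
    by_contra hcon
    push Not at hcon
    have h3 : ({s₁, s₂} : Finset α) ⊆ S' := by
      intro w hw
      simp only [mem_insert, mem_singleton] at hw
      exact hcon w hw
    have h4 := card_le_card h3
    rw [card_pair h12] at h4
    omega
  obtain ⟨r, hr, hrS⟩ := hr
  have hrV : r ∈ VS G := by rcases hr with rfl | rfl <;> assumption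
  have hrK : r ∉ K := hnb r (by simpa using hr)
  have hr4 : r ≠ s₄ := by rcases hr with rfl | rfl <;> assumption
  have hK3 : K ∩ {s₃, s₄} ⊆ {s₃} := by
    intro w hw
    rw [mem_inter, mem_insert, mem_singleton] at hw
    rcases hw.2 with rfl | rfl
    · exact mem_singleton_self _
    · exact absurd hw.1 h4K
  have hKs := step' hFRG hK hP (W := insert s₄ S') hKV hxK hyK h1K h2K hrV hrK
    (by simp [hr4, hrS]) (by
    have := (card_union_le (insert s₄ S') (K ∩ {s₃, s₄})).trans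
      (Nat.add_le_add_left (card_le_card hK3) _)
    have h5 := card_insert_le s₄ S'
    rw [card_singleton] at this
    omega) hnb2
  have hKs' : K ⊆ {s₃} := by
    intro w hw
    exact hK3 (mem_inter.2 ⟨hw, hKs hw⟩)
  have hsub : S ⊆ insert s₃ S' := by
    intro w hw
    by_cases hwS : w ∈ S'
    · exact mem_insert_of_mem hwS
    · have := hKs' (self_mem_comp hw hwS)
      rw [mem_singleton] at this
      rw [this]
      exact mem_insert_self _ _
  have hc := card_le_card hsub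
  have hc2 := card_insert_le s₃ S'
  have hs3 : s₃ ∉ S' := by
    intro h
    rw [insert_eq_of_mem h] at hc
    omega
  have hS1 : S'.card = 1 := by omega
  obtain ⟨q, rfl⟩ := card_eq_one.1 hS1
  have heq : S = {s₃, q} := by
    refine eq_of_subset_of_card_le hsub ?_
    rw [hS2]
    exact (card_insert_le _ _).trans (by simp)
  rw [mem_singleton] at hs3
  have h3K : s₃ ∈ K := by
    refine self_mem_comp ?_ (by simpa using hs3)
    rw [heq]
    exact mem_insert_self _ _
  have hN3 : ∀ w, G.Adj s₃ w → w = s₄ ∨ w = q ∨ w = x ∨ w = y := by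
    intro w hw
    have h := hnb2 s₃ h3K w (by
      intro h
      have := hKs' h
      rw [mem_singleton] at this
      exact hw.ne this.symm) hw
    simpa [or_assoc] using h
  have hqV : q ∈ VS G := hSV (by rw [heq]; simp)
  -- a vertex outside
  have hout : ∃ r ∈ VS G, r ∉ ({x, y, s₃, s₄, s₁, s₂, q} : Finset α) := by
    by_contra hcon
    push Not at hcon
    have h1 : VS G ⊆ {x, y, s₃, s₄, s₁, s₂, q} := hcon
    have h2 := card_le_card h1
    have h3 : ({x, y, s₃, s₄, s₁, s₂, q} : Finset α).card ≤ 7 :=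
      (card_insert_le _ _).trans (Nat.succ_le_succ card_le_six)
    have h4 := hK.2
    omega
  obtain ⟨r', hr'V, hr'⟩ := hout
  simp only [mem_insert, mem_singleton, not_or] at hr'
  refine hFRG.few hK.1 (D := {x, y, s₃, s₄}) (W := {s₁, s₂, q}) (r := r') ?_ ⟨x, by simp⟩ ?_
    card_le_three hr'V ?_ ?_
  · intro w hw
    simp only [mem_insert, mem_singleton] at hw
    rcases hw with rfl | rfl | rfl | rfl <;> assumption
  · intro w hw
    obtain ⟨hwD, a, ha, haw⟩ := mem_NB.1 hw
    simp only [mem_insert, mem_singleton, not_or] at hwD ha ⊢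
    rcases ha with rfl | rfl | rfl | rfl
    · have := (hP.nx w).1 haw
      clear hno hnb2 hnb hKs hKs' hN3 hN4
      grind
    · have := (hP.ny w).1 haw
      clear hno hnb2 hnb hKs hKs' hN3 hN4
      grind
    · have := hN3 w haw
      clear hno hnb2 hnb hKs hKs' hN3 hN4
      grind
    · have := hN4 w haw
      rw [heq] at this
      simp only [mem_insert, mem_singleton] at this
      clear hno hnb2 hnb hKs hKs' hN3 hN4
      grind
  · simp only [mem_insert, mem_singleton, not_or]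
    exact ⟨hr'.1, hr'.2.1, hr'.2.2.1, hr'.2.2.2.1⟩
  · simp only [mem_insert, mem_singleton, not_or]
    exact ⟨hr'.2.2.2.2.1, hr'.2.2.2.2.2.1, hr'.2.2.2.2.2.2⟩

/-- the ends of `k` disjoint paths are different -/
theorem ends_inj {k : ℕ} {H : SimpleGraph α} {a b : Fin k → α} {P : Fin k → Finset (Sym2 α)}
    (h1 : ∀ i, IsPth H (a i) (b i) (P i))
    (h2 : ∀ i j, i ≠ j → Disjoint (insert (a i) (vs (P i))) (insert (a j) (vs (P j)))) :
    Function.Injective b := by
  intro i j hij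
  by_contra hne
  refine Finset.disjoint_left.1 (h2 i j hne) (h1 i).end_mem ?_
  rw [hij]
  exact (h1 j).end_mem

theorem ends_surj {k : ℕ} {b : Fin k → α} (hb : Function.Injective b) {B : Finset α}
    (hB : ∀ i, b i ∈ B) (hc : B.card = k) {s : α} (hs : s ∈ B) : ∃ i, b i = s := by
  have h1 : univ.image b ⊆ B := by
    intro w hw
    obtain ⟨i, _, rfl⟩ := mem_image.1 hw
    exact hB i
  have h2 : univ.image b = B := by
    refine eq_of_subset_of_card_le h1 ?_
    rw [card_image_of_injective _ hb, hc, card_univ, Fintype.card_fin]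
  rw [← h2] at hs
  obtain ⟨i, _, hi⟩ := mem_image.1 hs
  exact ⟨i, hi⟩

end XDMM

open XDMM

theorem specXDM (hFRG : SpecFRG) : SpecXDM := by
  intro α _ _ G x y s₁ s₂ s₃ s₄ hK hP Z hZ
  obtain ⟨hxy, h1x, h1y, h2x, h2y, h3x, h3y, h4x, h4y, h12, h13, h14, h23, h24, h34⟩ := nds hP
  by_cases hM : ∀ S : Finset α, S.card < 3 → ∃ a ∈ vs Z, ∃ b ∈ ({s₁, s₂, s₃} : Finset α),
      a ∉ S ∧ b ∉ S ∧ (del (del G {x, y}) S).Reachable a b
  · obtain ⟨a, b, P, ha, hb, hp, hd, hA, hB⟩ := menger' hM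
    have hinj := ends_inj hp hd
    have hcard : ({s₁, s₂, s₃} : Finset α).card = 3 := card_eq_three.2 ⟨_, _, _, h12, h13, h23, rfl⟩
    obtain ⟨i, hi⟩ := ends_surj hinj hb hcard (s := s₁) (by simp)
    obtain ⟨j, hj⟩ := ends_surj hinj hb hcard (s := s₂) (by simp)
    obtain ⟨k, hk⟩ := ends_surj hinj hb hcard (s := s₃) (by simp)
    have hij : i ≠ j := fun h => h12 (by rw [← hi, ← hj, h])
    have hik : i ≠ k := fun h => h13 (by rw [← hi, ← hk, h])
    have hjk : j ≠ k := fun h => h23 (by rw [← hj, ← hk, h])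
    have hm : ∀ l, vs (P l) ∩ vs Z ⊆ {a l} := by
      intro l z hz
      rw [mem_inter] at hz
      rw [mem_singleton]
      exact hA l z (mem_insert_of_mem hz.1) hz.2
    exact ⟨s₃, a i, a j, a k, P i, P j, P k, Or.inl rfl, hZ, ha i, ha j, ha k, hi ▸ hp i,
      hj ▸ hp j, hk ▸ hp k, hd i j hij, hd i k hik, hd j k hjk, hm i, hm j, hm k⟩
  · push Not at hM
    obtain ⟨S, hS, hno⟩ := hM
    obtain ⟨hs4, hS2, heq, hN4⟩ := outer hFRG hK hP hZ hS (by
      rintro ⟨a, ha, b, hb, haS, hbS, hr⟩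
      exact hno a ha b hb haS hbS hr)
    obtain ⟨hZ1, hZ2⟩ := isCyc_del.1 hZ
    have hSZ : S ⊆ vs Z := by
      rw [heq]
      exact subset_insert _ _
    obtain ⟨a, b, P, ha, hb, hp, hd, hA, hB⟩ := menger' (G := del G {x, y, s₄}) (A := S)
      (B := {s₁, s₂}) (k := 2) fun S' hS' => inner' hFRG hK hP hS2 hs4
        (hSZ.trans hZ1.vs_subset) (fun a ha => Finset.disjoint_left.1 hZ2 (hSZ ha)) hN4 hS'
    have hinj := ends_inj hp hd
    obtain ⟨i, hi⟩ := ends_surj hinj hb (card_pair h12) (s := s₁) (by simp)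
    obtain ⟨j, hj⟩ := ends_surj hinj hb (card_pair h12) (s := s₂) (by simp)
    have hij : i ≠ j := fun h => h12 (by rw [← hi, ← hj, h])
    have h4P : ∀ l, s₄ ∉ insert (a l) (vs (P l)) := by
      intro l h
      rw [mem_insert] at h
      rcases h with h | h
      · exact hs4 (h ▸ ha l)
      · exact Finset.disjoint_left.1 (DL.isPth_del.1 (hp l)).2 h (by simp)
    have hm : ∀ l, vs (P l) ∩ vs Z ⊆ {a l} := by
      intro l z hz
      rw [mem_inter, heq, mem_insert] at hz
      rw [mem_singleton]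
      rcases hz.2 with h | h
      · subst h
        exact absurd (mem_insert_of_mem hz.1) (h4P l)
      · exact hA l z (mem_insert_of_mem hz.1) h
    have hp' : ∀ l, IsPth (del G {x, y}) (a l) (b l) (P l) := fun l =>
      (hp l).mono (del_anti (by
        intro w hw
        simp only [mem_insert, mem_singleton] at hw ⊢
        tauto))
    have hd4 : ∀ l, Disjoint (insert (a l) (vs (P l))) (insert s₄ (vs (∅ : Finset (Sym2 α)))) := by
      intro l
      rw [vs_eq_empty.2 rfl, insert_empty_eq, disjoint_singleton_right]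
      exact h4P l
    exact ⟨s₄, a i, a j, s₄, P i, P j, ∅, Or.inr rfl, hZ, hSZ (ha i), hSZ (ha j),
      by rw [heq]; exact mem_insert_self _ _, hi ▸ hp' i, hj ▸ hp' j, IsPth.nil s₄, hd i j hij,
      hd4 i, hd4 j, hm i, hm j, by rw [vs_eq_empty.2 rfl]; simp⟩

end DL
end

section
/-!
# Module XF2 (helper72): `A13` and `A24` are not both planar
-/
open SimpleGraph Finset

namespace DL

namespace XF2M

variable {α : Type} [Fintype α] [DecidableEq α] {G : SimpleGraph α} {x y s₁ s₂ s₃ s₄ : α}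

theorem few' {D W : Finset α} {r : α} (hG : KConn 4 G) (hD : D ⊆ VS G) (h0 : D.Nonempty)
    (hW : ∀ a ∈ D, ∀ w, G.Adj a w → w ∈ D ∨ w ∈ W) (hc : W.card ≤ 3) (hr : r ∈ VS G)
    (hrD : r ∉ D) (hrW : r ∉ W) : False := by
  refine FRGM.few hG hD h0 (fun w hw => ?_) hc hr hrD hrW
  obtain ⟨h1, a, ha, haw⟩ := FRGM.mem_NB.1 hw
  exact (hW a ha w haw).resolve_left h1

/-- `G` without `x`, `y` and the two edges -/
def HH (G : SimpleGraph α) (x y s₁ s₂ s₃ : α) : SimpleGraph α :=
  delE (delE (del G {x, y}) s₁ s₃) s₂ s₃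

theorem HH_adj {a b : α} : (HH G x y s₁ s₂ s₃).Adj a b ↔
    G.Adj a b ∧ a ≠ x ∧ a ≠ y ∧ b ≠ x ∧ b ≠ y ∧ s(a, b) ≠ s(s₁, s₃) ∧
      s(a, b) ≠ s(s₂, s₃) := by
  rw [HH, delE_adj, delE_adj, del_adj]
  simp only [mem_insert, mem_singleton, not_or]
  tauto

theorem HH_le1 : HH G x y s₁ s₂ s₃ ≤ delE (del G {x, y}) s₁ s₃ := delE_le _ _ _

theorem HH_le2 : HH G x y s₁ s₂ s₃ ≤ delE (del G {x, y}) s₂ s₃ := by
  intro a b h
  have h1 := HH_adj.1 h
  rw [delE_adj, del_adj]
  simp only [mem_insert, mem_singleton, not_or]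
  tauto

theorem HH_le : HH G x y s₁ s₂ s₃ ≤ del G {x, y} := HH_le1.trans (delE_le _ _ _)

theorem caseS (hXF1 : SpecXF1) (hp : P33 G x y s₁ s₂ s₃ s₄) (n13 : NP (delE G s₁ s₃))
    {P Q : Finset (Sym2 α)} (hP : IsPth (HH G x y s₁ s₂ s₃) s₁ s₃ P)
    (hQ : IsPth (HH G x y s₁ s₂ s₃) s₂ s₄ Q) (hd : Disjoint (vs P) (vs Q)) :
    NP (dst G s₃ {s₁, y}) :=
  hXF1 hp n13 (hQ.mono HH_le) (hP.mono HH_le1) hd.symm

theorem caseT (hXF1 : SpecXF1) (hp : P33 G x y s₁ s₂ s₃ s₄) (n23 : NP (delE G s₂ s₃))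
    {P Q : Finset (Sym2 α)} (hP : IsPth (HH G x y s₁ s₂ s₃) s₁ s₄ P)
    (hQ : IsPth (HH G x y s₁ s₂ s₃) s₂ s₃ Q) (hd : Disjoint (vs P) (vs Q)) :
    NP (dst G s₃ {s₂, x}) := by
  have e : ({y, x} : Finset α) = {x, y} := pair_comm y x
  exact hXF1 (P := P) (Q := Q) hp.sym1 n23 (by rw [e]; exact hP.mono HH_le)
    (by rw [e]; exact hQ.mono HH_le2) hd

theorem linked (hXF1 : SpecXF1) (hp : P33 G x y s₁ s₂ s₃ s₄) (n13 : NP (delE G s₁ s₃))
    (n23 : NP (delE G s₂ s₃)) (h : Linked (HH G x y s₁ s₂ s₃) {s₁, s₂} {s₃, s₄} 2) :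
    NP (dst G s₃ {s₁, y}) ∨ NP (dst G s₃ {s₂, x}) := by
  obtain ⟨a, b, P, ha, hb, hP, hd⟩ := h
  have hd01 := hd 0 1 (by decide)
  have hab : a 0 ≠ a 1 := fun h =>
    Finset.disjoint_left.1 hd01 (mem_insert_self _ _) (by rw [h]; exact mem_insert_self _ _)
  have hbb : b 0 ≠ b 1 := fun h =>
    Finset.disjoint_left.1 hd01 (hP 0).end_mem (by rw [h]; exact (hP 1).end_mem)
  have hdv : Disjoint (vs (P 0)) (vs (P 1)) :=
    hd01.mono (subset_insert _ _) (subset_insert _ _)
  have ha0 := ha 0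
  have ha1 := ha 1
  have hb0 := hb 0
  have hb1 := hb 1
  have hP0 := hP 0
  have hP1 := hP 1
  rw [mem_insert, mem_singleton] at ha0 ha1 hb0 hb1
  rcases ha0 with ha0 | ha0 <;> rcases ha1 with ha1 | ha1 <;> rcases hb0 with hb0 | hb0 <;>
    rcases hb1 with hb1 | hb1 <;> rw [ha0, hb0] at hP0 <;> rw [ha1, hb1] at hP1
  all_goals first
    | exact absurd (ha0.trans ha1.symm) hab
    | exact absurd (hb0.trans hb1.symm) hbb
    | exact Or.inl (caseS hXF1 hp n13 hP0 hP1 hdv)
    | exact Or.inr (caseT hXF1 hp n23 hP0 hP1 hdv)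
    | exact Or.inl (caseS hXF1 hp n13 hP1 hP0 hdv.symm)
    | exact Or.inr (caseT hXF1 hp n23 hP1 hP0 hdv.symm)

/-- no separator with at most one vertex -/
theorem sepc (hXCB : SpecXCB) (hG : K48 G) (hp : P33 G x y s₁ s₂ s₃ s₄)
    {S : Finset α} (hS : VSep (HH G x y s₁ s₂ s₃) {s₁, s₂} {s₃, s₄} S) (hc' : S.card ≤ 1) :
    False := by
  classical
  have hnd := hp.nd
  simp only [List.nodup_cons, List.mem_cons, List.not_mem_nil, or_false, not_or, List.nodup_nil,
    and_true, not_false_eq_true] at hnd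
  obtain ⟨n1, n2, n3, n4, n5⟩ := hnd
  rw [vsep_iff] at hS
  set H := HH G x y s₁ s₂ s₃ with hH
  have hx : x ∈ VS G := left_mem_VS ((hp.nx y).2 (Or.inl rfl))
  have hy : y ∈ VS G := right_mem_VS ((hp.nx y).2 (Or.inl rfl))
  have h1V : s₁ ∈ VS G := right_mem_VS ((hp.ny s₁).2 (by tauto))
  have h3V : s₃ ∈ VS G := right_mem_VS ((hp.ny s₃).2 (by tauto))
  have h4V : s₄ ∈ VS G := right_mem_VS ((hp.ny s₄).2 (by tauto))
  let R : α → Prop := fun v => ∃ b, (b = s₃ ∨ b = s₄) ∧ b ∉ S ∧ (del H S).Reachable b v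
  have hR1 : ¬ R s₁ := by
    rintro ⟨b, hb, hbS, hr⟩
    exact hS s₁ (by simp) b (by simpa using hb) (reachable_del_notMem_right hr hbS) hbS hr.symm
  have hR2 : ¬ R s₂ := by
    rintro ⟨b, hb, hbS, hr⟩
    exact hS s₂ (by simp) b (by simpa using hb) (reachable_del_notMem_right hr hbS) hbS hr.symm
  have hRS : ∀ v, R v → v ∉ S := by
    rintro v ⟨b, hb, hbS, hr⟩
    exact reachable_del_notMem_right hr hbS
  have hstep : ∀ v w, R v → H.Adj v w → R w ∨ w ∈ S := by
    intro v w hv hvw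
    by_cases hw : w ∈ S
    · exact Or.inr hw
    · have hvS := hRS v hv
      obtain ⟨b, hb, hbS, hr⟩ := hv
      exact Or.inl ⟨b, hb, hbS, hr.trans (Adj.reachable ⟨hvw, hvS, hw⟩)⟩
  have hadj : ∀ v, R v → v ≠ s₃ → v ≠ s₄ → ∃ u, H.Adj v u := by
    rintro v ⟨b, hb, hbS, hr⟩ h3 h4
    have hne : v ≠ b := by
      rintro rfl
      rcases hb with hb | hb
      · exact h3 hb
      · exact h4 hb
    obtain ⟨u, hu⟩ := exists_adj_of_reachable hr.symm hne
    exact ⟨u, hu.1⟩
  have hemp : ∀ v, R v → v = s₃ ∨ v = s₄ := by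
    intro v hv
    by_contra hc
    rw [not_or] at hc
    let D : Finset α := univ.filter fun v => R v ∧ v ≠ s₃ ∧ v ≠ s₄
    have hmem : ∀ {u}, u ∈ D ↔ R u ∧ u ≠ s₃ ∧ u ≠ s₄ := fun {u} => by simp [D]
    have hDx : ∀ u ∈ D, u ∈ VS G ∧ u ≠ x ∧ u ≠ y ∧ u ≠ s₁ ∧ u ≠ s₂ := by
      intro u hu
      obtain ⟨h1, h2, h3⟩ := hmem.1 hu
      obtain ⟨t, ht⟩ := hadj u h1 h2 h3
      have h4 := HH_adj.1 ht
      refine ⟨left_mem_VS h4.1, h4.2.1, h4.2.2.1, ?_, ?_⟩
      · rintro rfl
        exact hR1 h1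
      · rintro rfl
        exact hR2 h1
    obtain ⟨r, hr, hrS⟩ : ∃ r, (r = x ∨ r = y) ∧ r ∉ S := by
      by_cases hxS : x ∈ S
      · refine ⟨y, Or.inr rfl, fun hyS => ?_⟩
        exact n1.1 (card_le_one.1 hc' x hxS y hyS)
      · exact ⟨x, Or.inl rfl, hxS⟩
    have hrV : r ∈ VS G := by
      rcases hr with rfl | rfl
      · exact hx
      · exact hy
    refine few' (D := D) (W := insert s₃ (insert s₄ S)) (r := r) hG.1 (fun u hu => (hDx u hu).1)
      ⟨v, hmem.2 ⟨hv, hc.1, hc.2⟩⟩ ?_ ?_ hrV ?_ ?_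
    · intro a ha w haw
      obtain ⟨h1, h2, h3⟩ := hmem.1 ha
      obtain ⟨_, h5, h6, h7, h8⟩ := hDx a ha
      have hwx : w ≠ x := by
        rintro rfl
        rcases (hp.nx a).1 haw.symm with h | h | h | h <;> tauto
      have hwy : w ≠ y := by
        rintro rfl
        rcases (hp.ny a).1 haw.symm with h | h | h | h <;> tauto
      have hA : H.Adj a w := by
        rw [hH, HH_adj]
        refine ⟨haw, h5, h6, hwx, hwy, ?_, ?_⟩
        · intro h
          rw [Sym2.eq_iff] at h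
          tauto
        · intro h
          rw [Sym2.eq_iff] at h
          tauto
      rw [mem_insert, mem_insert, hmem]
      rcases hstep a w h1 hA with h | h
      · by_cases e3 : w = s₃
        · exact Or.inr (Or.inl e3)
        · by_cases e4 : w = s₄
          · exact Or.inr (Or.inr (Or.inl e4))
          · exact Or.inl ⟨h, e3, e4⟩
      · exact Or.inr (Or.inr (Or.inr h))
    · have e1 := card_insert_le s₃ (insert s₄ S)
      have e2 := card_insert_le s₄ S
      omega
    · intro h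
      rcases hr with hr | hr
      · exact (hDx r h).2.1 hr
      · exact (hDx r h).2.2.1 hr
    · rw [mem_insert, mem_insert]
      rintro (h | h | h)
      · rcases hr with rfl | rfl
        · exact n1.2.2.2.1 h
        · exact n2.2.2.1 h
      · rcases hr with rfl | rfl
        · exact n1.2.2.2.2 h
        · exact n2.2.2.2 h
      · exact hrS h
  -- the neighbours of `s₃` and `s₄`
  have hN4 : s₄ ∉ S → ∀ w, G.Adj s₄ w → w = x ∨ w = y ∨ w = s₃ ∨ w ∈ S := by
    intro h4S w hw
    by_contra hc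
    simp only [not_or] at hc
    have hA : H.Adj s₄ w := by
      rw [hH, HH_adj]
      refine ⟨hw, fun h => n1.2.2.2.2 h.symm, fun h => n2.2.2.2 h.symm, hc.1, hc.2.1, ?_, ?_⟩
      · intro h
        rw [Sym2.eq_iff] at h
        tauto
      · intro h
        rw [Sym2.eq_iff] at h
        tauto
    have hR4 : R s₄ := ⟨s₄, Or.inr rfl, h4S, Reachable.refl _⟩
    rcases hstep s₄ w hR4 hA with h | h
    · rcases hemp w h with h5 | h5
      · exact hc.2.2.1 h5
      · exact hw.ne h5.symm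
    · exact hc.2.2.2 h
  have hN3 : s₃ ∉ S → ∀ w, G.Adj s₃ w → w = x ∨ w = y ∨ w = s₁ ∨ w = s₂ ∨ w = s₄ ∨ w ∈ S := by
    intro h3S w hw
    by_contra hc
    simp only [not_or] at hc
    have hA : H.Adj s₃ w := by
      rw [hH, HH_adj]
      refine ⟨hw, fun h => n1.2.2.2.1 h.symm, fun h => n2.2.2.1 h.symm, hc.1, hc.2.1, ?_, ?_⟩
      · intro h
        rw [Sym2.eq_iff] at h
        tauto
      · intro h
        rw [Sym2.eq_iff] at h
        tauto
    have hR3 : R s₃ := ⟨s₃, Or.inl rfl, h3S, Reachable.refl _⟩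
    rcases hstep s₃ w hR3 hA with h | h
    · rcases hemp w h with h5 | h5
      · exact hw.ne h5.symm
      · exact hc.2.2.2.2.1 h5
    · exact hc.2.2.2.2.2 h
  by_cases h3S : s₃ ∈ S
  · have h4S : s₄ ∉ S := fun h => n5 (card_le_one.1 hc' s₃ h3S s₄ h)
    have hS3 : ∀ w ∈ S, w = s₃ := fun w hw => card_le_one.1 hc' w hw s₃ h3S
    refine few' (D := {s₄}) (W := {x, y, s₃}) (r := s₁) hG.1 (singleton_subset_iff.2 h4V)
      (singleton_nonempty _) ?_ card_le_three h1V ?_ ?_
    · intro a ha w haw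
      rw [mem_singleton] at ha
      subst ha
      right
      simp only [mem_insert, mem_singleton]
      rcases hN4 h4S w haw with h | h | h | h
      · exact Or.inl h
      · exact Or.inr (Or.inl h)
      · exact Or.inr (Or.inr h)
      · exact Or.inr (Or.inr (hS3 w h))
    · rw [mem_singleton]
      tauto
    · simp only [mem_insert, mem_singleton]
      rintro (h | h | h)
      · exact n1.2.1 h.symm
      · exact n2.1 h.symm
      · tauto
  by_cases h4S : s₄ ∈ S
  · have hS4 : ∀ w ∈ S, w = s₄ := fun w hw => card_le_one.1 hc' w hw s₄ h4S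
    obtain ⟨w, hw, hw2⟩ := hXCB.s3 hG hp
    simp only [mem_insert, mem_singleton, not_or] at hw2
    rcases hN3 h3S w hw with h | h | h | h | h | h
    · exact hw2.1 h
    · exact hw2.2.1 h
    · exact hw2.2.2.1 h
    · exact hw2.2.2.2.1 h
    · exact hw2.2.2.2.2 h
    · exact hw2.2.2.2.2 (hS4 w h)
  · have hcard : (({x, y, s₃, s₄} : Finset α) ∪ insert s₁ (insert s₂ S)).card < (VS G).card := by
      have e1 := card_union_le ({x, y, s₃, s₄} : Finset α) (insert s₁ (insert s₂ S))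
      have e2 := card_insert_le s₁ (insert s₂ S)
      have e3 := card_insert_le s₂ S
      have e4 : ({x, y, s₃, s₄} : Finset α).card ≤ 4 := card_le_four
      have e5 := hG.2
      omega
    obtain ⟨r, hr, hr2⟩ := exists_mem_notMem_of_card_lt_card hcard
    rw [mem_union, not_or] at hr2
    refine few' (D := {x, y, s₃, s₄}) (W := insert s₁ (insert s₂ S)) (r := r) hG.1 ?_
      (insert_nonempty _ _) ?_ ?_ hr hr2.1 hr2.2
    · intro a ha
      simp only [mem_insert, mem_singleton] at ha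
      rcases ha with rfl | rfl | rfl | rfl
      · exact hx
      · exact hy
      · exact h3V
      · exact h4V
    · intro a ha w haw
      simp only [mem_insert, mem_singleton] at ha ⊢
      rcases ha with rfl | rfl | rfl | rfl
      · rcases (hp.nx w).1 haw with h | h | h | h <;> tauto
      · rcases (hp.ny w).1 haw with h | h | h | h <;> tauto
      · rcases hN3 h3S w haw with h | h | h | h | h | h <;> tauto
      · rcases hN4 h4S w haw with h | h | h | h <;> tauto
    · have e2 := card_insert_le s₁ (insert s₂ S)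
      have e3 := card_insert_le s₂ S
      omega

end XF2M

theorem specXF2 (hXF1 : SpecXF1) (hXCC : SpecXCC) (hXCB : SpecXCB) : SpecXF2 := by
  intro α _ _ G x y s₁ s₂ s₃ s₄ hG hNP hp h13 h23 _ _
  have n13 : NP (delE G s₁ s₃) := hXCC.np hG hp.sym1 h13 hNP
  have n23 : NP (delE G s₂ s₃) := hXCC.np hG hp h23 hNP
  by_cases h : Linked (XF2M.HH G x y s₁ s₂ s₃) {s₁, s₂} {s₃, s₄} 2
  · exact XF2M.linked hXF1 hp n13 n23 h
  · exfalso
    refine h (menger_linked fun S hS => ?_)
    by_contra hc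
    exact XF2M.sepc hXCB hG hp hS (by omega)

end DL
end

section
/-!
MP_3ff0f8_gt, ALGEBRA HALF, E block section 2, module XK1 (helper41)
-/
open SimpleGraph Finset

namespace DL

namespace XK1M

variable {α : Type} [Fintype α] [DecidableEq α] {G : SimpleGraph α}

/-- a contraction of a 4-connected graph is 4-connected if it is in `C1` and the ends have no common
neighbour -/
theorem k4 (hK : K48 G) {a b : α} (hab : G.Adj a b) (hc : C1 (contr G a b)) (hn : NoCN G a b) :
    KConn 4 (contr G a b) := by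
  refine hK.1.contr (by norm_num) hab (by have := hK.2; omega) ?_
  intro T haT hbT hT
  intro u hu w hw huT hwT
  by_contra hr
  obtain ⟨P, Q, hs, huP, hwQ, -⟩ := exists_sep_of_not_reachable hu hw huT hwT hr
  have haT' : a ∈ T ∩ VS G := mem_inter.2 ⟨haT, left_mem_VS hab⟩
  have hbT' : b ∈ T ∩ VS G := mem_inter.2 ⟨hbT, right_mem_VS hab⟩
  have hT4 : (T ∩ VS G).card ≤ 4 := (card_le_card inter_subset_left).trans hT
  have h4 : 4 ≤ (T ∩ VS G).card := hK.1.le_of_sep hs ⟨u, huP⟩ ⟨w, hwQ⟩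
  have hVS : VS (contr G a b) = (VS G).erase b :=
    VS_contr hab fun v hv => le_trans (by norm_num) (hK.1.le_nbs hv)
  have hbP : b ∉ P := fun h => Finset.disjoint_left.1 hs.2.1 hbT' h
  have hbQ : b ∉ Q := fun h => Finset.disjoint_left.1 hs.2.2.1 hbT' h
  have haP : a ∉ P := fun h => Finset.disjoint_left.1 hs.2.1 haT' h
  have haQ : a ∉ Q := fun h => Finset.disjoint_left.1 hs.2.2.1 haT' h
  have hs' : Sep (contr G a b) ((T ∩ VS G).erase b) P Q := by
    refine ⟨?_, disjoint_of_subset_left (erase_subset _ _) hs.2.1,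
      disjoint_of_subset_left (erase_subset _ _) hs.2.2.1, hs.2.2.2.1, ?_⟩
    · rw [hVS, ← hs.1]
      ext v
      simp only [mem_union, mem_erase]
      by_cases hv : v = b
      · subst hv; simp [hbP, hbQ]
      · simp only [hv, ne_eq, not_false_eq_true, true_and, mem_inter, mem_union]
        tauto
    · intro p hp q hq hpq
      rcases hpq.2.2.2 with h1 | ⟨h1, _⟩ | ⟨h1, _⟩
      · exact hs.2.2.2.2 p hp q hq h1
      · exact haP (h1 ▸ hp)
      · exact haQ (h1 ▸ hq)
  have h3 : ((T ∩ VS G).erase b).card = 3 := by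
    rw [card_erase_of_mem hbT']; omega
  -- a single vertex is adjacent to `a` and `b`
  have key : ∀ P Q : Finset α, Sep G (T ∩ VS G) P Q → P.Nonempty → P.card ≤ 1 → False := by
    intro P Q hs hP h1
    obtain ⟨p, hp, hap⟩ := hK.1.exists_adj_of_sep hs hP hT4 haT'
    obtain ⟨q, hq, hbq⟩ := hK.1.exists_adj_of_sep hs hP hT4 hbT'
    have : p = q := card_le_one.1 h1 p hp q hq
    subst this
    exact hn p ⟨hap, hbq⟩
  rcases hc.2 _ _ _ hs' h3 with h1 | h1
  · exact key P Q hs ⟨u, huP⟩ h1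
  · exact key Q P hs.symm ⟨w, hwQ⟩ h1

/-- the case `s₁ ~ s₂`, `G - xs₃` nonplanar -/
theorem dd (hKDD : SpecKDD) (hXKA : SpecXKA) (hF2N : SpecF2N) (hCRL : SpecCRL) (hDST : SpecDST)
    {x y s₁ s₂ s₃ s₄ : α} (hK : K48 G) (hNP : NP G) (hIH : IH G) (hp : P33 G x y s₁ s₂ s₃ s₄)
    (hE : E4 G s₁ s₂ s₃ s₄) (h12 : G.Adj s₁ s₂) (h3 : NP (delE G x s₃)) : KZ G := by
  have hnd := hp.nd
  simp only [List.nodup_cons, List.mem_cons, List.not_mem_nil, or_false, not_or, List.nodup_nil,
    and_true] at hnd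
  obtain ⟨⟨hxy, hx1, hx2, hx3, hx4⟩, ⟨hy1, hy2, hy3, hy4⟩, ⟨n12, n13, n14⟩, ⟨n23, n24⟩, n34, -⟩ := hnd
  have axy : G.Adj x y := (hp.nx _).2 (by simp)
  have ax2 : G.Adj x s₂ := (hp.nx _).2 (by simp)
  have ax3 : G.Adj x s₃ := (hp.nx _).2 (by simp)
  have ax4 : G.Adj x s₄ := (hp.nx _).2 (by simp)
  have ay1 : G.Adj y s₁ := (hp.ny _).2 (by simp)
  have hsz : ∀ a, G.Adj x a → sz (delE G x a) < sz G := by
    intro a ha
    refine hDST.sz1 (delE_le _ _ _) ?_
    intro e
    have h1 : (delE G x a).Adj x a := by rw [e]; exact ha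
    exact (delE_adj.1 h1).2 rfl
  have k1 : KZ (delE G x y) := (hIH _ (hsz y axy) (hXKA.xy hK hp h12) (hF2N hK hp h12 hNP)).2
  have k2 : KZ (delE G x s₃) := (hIH _ (hsz s₃ ax3) (hXKA.x3 hK hp hE h12) h3).2
  have he : delE (delE G x s₃) x y = dst G x {y, s₃} := by
    rw [hDST.ins, hDST.one]
  have hS : S3S (dst G x {y, s₃}) := by
    refine hCRL.ks hK.1 n24 ax2 ax4 ?_ ?_ (Or.inl hE.2.2.2)
    · simp only [mem_insert, mem_singleton, not_or]
      exact ⟨Ne.symm hy2, n23⟩
    · simp only [mem_insert, mem_singleton, not_or]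
      exact ⟨Ne.symm hy4, Ne.symm n34⟩
  have vx : x ∈ VS (dst G x {y, s₃}) := by
    refine left_mem_VS (b := s₂) ((hDST.adj _ _ _ _ _).2 ⟨ax2, ?_, ?_⟩)
    · rintro ⟨-, h⟩
      simp only [mem_insert, mem_singleton] at h
      rcases h with h | h
      · exact hy2 h.symm
      · exact n23 h
    · rintro ⟨h, -⟩
      exact hx2 h.symm
  have vy : y ∈ VS (dst G x {y, s₃}) := by
    refine left_mem_VS (b := s₁) ((hDST.adj _ _ _ _ _).2 ⟨ay1, ?_, ?_⟩)
    · rintro ⟨h, -⟩
      exact hxy h.symm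
    · rintro ⟨h, -⟩
      exact hx1 h.symm
  exact hKDD axy ax3 hy3 k1 k2 (by rw [he]; exact hS) (by rw [he]; exact vx) (by rw [he]; exact vy)

end XK1M

open XK1M in
theorem specXK1 (hKC0 : SpecKC0) (hKDD : SpecKDD) (hXKA : SpecXKA) (hF1N : SpecF1N) (hF2N : SpecF2N)
    (hF4N : SpecF4N) (hC20 : SpecC20) (hCRL : SpecCRL) (hS3F : SpecS3F) (hDST : SpecDST) : SpecXK1 := by
  intro α _ _ G x y s₁ s₂ s₃ s₄ hK hNP hIH hp hE
  have hnd := hp.nd
  simp only [List.nodup_cons, List.mem_cons, List.not_mem_nil, or_false, not_or, List.nodup_nil,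
    and_true] at hnd
  obtain ⟨⟨hxy, hx1, hx2, hx3, hx4⟩, ⟨hy1, hy2, hy3, hy4⟩, ⟨n12, n13, n14⟩, ⟨n23, n24⟩, n34, -⟩ := hnd
  have axy : G.Adj x y := (hp.nx _).2 (by simp)
  have ax2 : G.Adj x s₂ := (hp.nx _).2 (by simp)
  have ay1 : G.Adj y s₁ := (hp.ny _).2 (by simp)
  by_cases h12 : G.Adj s₁ s₂
  · rcases hF4N.or hK hp hNP with h | h
    · exact dd hKDD hXKA hF2N hCRL hDST hK hNP hIH hp hE h12 h.1
    · exact dd hKDD hXKA hF2N hCRL hDST hK hNP hIH hp.sym2 ⟨hE.2.1, hE.1, hE.2.2.2, hE.2.2.1⟩ h12 h.1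
  · have hc := hC20.c1 hK hp
    have k1 : KZ (contr G x s₂) := (hIH _ (hDST.sz2 ax2) hc.1 (hF1N hK hp hNP).1).2
    have k2 : KZ (contr G y s₁) := (hIH _ (hDST.sz2 ay1) hc.2.1 (hF1N hK hp.sym1 hNP).1).2
    have hnx : NoCN G x s₂ := by
      rintro w ⟨hw, hw2⟩
      rcases (hp.nx w).1 hw with rfl | rfl | rfl | rfl
      · rcases (hp.ny s₂).1 hw2.symm with e | e | e | e
        · exact hx2 e.symm
        · exact n12 e.symm
        · exact n23 e
        · exact n24 e
      · exact G.irrefl hw2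
      · exact hE.2.2.1 hw2
      · exact hE.2.2.2 hw2
    have hny : NoCN G y s₁ := by
      rintro w ⟨hw, hw1⟩
      rcases (hp.ny w).1 hw with rfl | rfl | rfl | rfl
      · rcases (hp.nx s₁).1 hw1.symm with e | e | e | e
        · exact hy1 e.symm
        · exact n12 e
        · exact n13 e
        · exact n14 e
      · exact G.irrefl hw1
      · exact hE.1 hw1
      · exact hE.2.1 hw1
    have hk4 : KConn 4 (contr G y s₁) := k4 hK ay1 hc.2.1 hny
    refine hKC0 ax2 ay1 hxy hx1 (Ne.symm hy2) (Ne.symm n12) hnx hny ?_ ?_ (hk4.mono (by norm_num))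
      (hS3F.k3 (hk4.del_vertex (by norm_num) x)) ?_ k1 k2
    · exact fun h => h12 h.2.symm
    · rintro ⟨h, -⟩
      rcases (hp.nx s₁).1 h with e | e | e | e
      · exact hy1 e.symm
      · exact n12 e
      · exact n13 e
      · exact n14 e
    · intro w _ _
      exact hk4.2 _ (lt_of_le_of_lt card_le_three (by norm_num))

end DL
end

section
/-!
# MP_3ff0f8_gt, EXIST section 2: XM3 (helper94)
-/
open SimpleGraph Finset

namespace DL.XM3M

open DL.MCTM DL.FRGM

variable {α : Type} [Fintype α] [DecidableEq α] {G : SimpleGraph α}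

/-- basic facts on `M` -/
structure Bas (G : SimpleGraph α) (x y s₁ s₂ : α) : Prop where
  vM : VS (contr (contr G x s₂) y s₁) = ((VS G).erase s₂).erase s₁
  h1V : s₁ ∈ VS G
  h2V : s₂ ∈ VS G
  hxV : x ∈ VS G
  hyV : y ∈ VS G

theorem bas (hC20 : SpecC20) {x y s₁ s₂ s₃ s₄ : α} (hK : K48 G) (hP : P33 G x y s₁ s₂ s₃ s₄) :
    Bas G x y s₁ s₂ := by
  obtain ⟨hG, hn⟩ := id hK
  have hnd := hP.nd
  simp only [List.nodup_cons, List.mem_cons, List.not_mem_nil, or_false, not_or] at hnd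
  obtain ⟨⟨nxy, nx1, nx2, nx3, nx4⟩, ⟨ny1, ny2, ny3, ny4⟩, ⟨n12, n13, n14⟩, ⟨n23, n24⟩, n34, -⟩ := hnd
  obtain ⟨c1x, c1y, -, -⟩ := hC20.c1 hK hP
  have axs₂ : G.Adj x s₂ := (hP.nx s₂).2 (by simp)
  have ays₁ : G.Adj y s₁ := (hP.ny s₁).2 (by simp)
  have hdeg : ∀ v ∈ VS G, 2 ≤ (nbs G v).card := fun v hv => by have := hG.le_nbs hv; omega
  have vx : VS (contr G x s₂) = (VS G).erase s₂ := VS_contr axs₂ hdeg
  have e1 : (contr G x s₂).Adj y s₁ := contr_adj_of_adj ays₁ ny2 n12
  have vM : VS (contr (contr G x s₂) y s₁) = (VS (contr G x s₂)).erase s₁ :=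
    VS_contr e1 (fun v hv => by have := c1x.1.le_nbs hv; omega)
  exact ⟨by rw [vM, vx], right_mem_VS ays₁, right_mem_VS axs₂, left_mem_VS axs₂, left_mem_VS ays₁⟩

theorem m (hC20 : SpecC20) {x y s₁ s₂ s₃ s₄ : α} (hK : K48 G) (hP : P33 G x y s₁ s₂ s₃ s₄) :
    KConn 3 (contr (contr G x s₂) y s₁) := by
  obtain ⟨hG, hn⟩ := id hK
  have hnd := hP.nd
  simp only [List.nodup_cons, List.mem_cons, List.not_mem_nil, or_false, not_or] at hnd
  obtain ⟨⟨nxy, nx1, nx2, nx3, nx4⟩, ⟨ny1, ny2, ny3, ny4⟩, ⟨n12, n13, n14⟩, ⟨n23, n24⟩, n34, -⟩ := hnd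
  obtain ⟨c1x, c1y, -, -⟩ := hC20.c1 hK hP
  have axs₂ : G.Adj x s₂ := (hP.nx s₂).2 (by simp)
  have ays₁ : G.Adj y s₁ := (hP.ny s₁).2 (by simp)
  have hdeg : ∀ v ∈ VS G, 2 ≤ (nbs G v).card := fun v hv => by have := hG.le_nbs hv; omega
  have vx : VS (contr G x s₂) = (VS G).erase s₂ := VS_contr axs₂ hdeg
  have vy : VS (contr G y s₁) = (VS G).erase s₁ := VS_contr ays₁ hdeg
  have e1 : (contr G x s₂).Adj y s₁ := contr_adj_of_adj ays₁ ny2 n12
  have e2 : (contr G y s₁).Adj x s₂ := contr_adj_of_adj axs₂ nx1 (Ne.symm n12)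
  have vM : VS (contr (contr G x s₂) y s₁) = (VS (contr G x s₂)).erase s₁ :=
    VS_contr e1 (fun v hv => by have := c1x.1.le_nbs hv; omega)
  have vM' : VS (contr (contr G y s₁) x s₂) = (VS (contr G y s₁)).erase s₂ :=
    VS_contr e2 (fun v hv => by have := c1y.1.le_nbs hv; omega)
  have hcomm : contr (contr G x s₂) y s₁ = contr (contr G y s₁) x s₂ :=
    contr_comm nxy nx1 nx2 ny1 ny2 n12
  have vM2 : VS (contr (contr G x s₂) y s₁) = ((VS G).erase s₂).erase s₁ := by rw [vM, vx]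
  have hxV : x ∈ VS G := left_mem_VS axs₂
  have hyV : y ∈ VS G := left_mem_VS ays₁
  have h1V : s₁ ∈ VS G := right_mem_VS ays₁
  have h2V : s₂ ∈ VS G := right_mem_VS axs₂
  refine kconn_iff_sep.2 ⟨?_, ?_⟩
  · rw [vM2, card_erase_of_mem (mem_erase.2 ⟨n12, h1V⟩), card_erase_of_mem h2V]
    omega
  · intro S P Q h hS
    by_contra hcc
    rw [not_or, ← ne_eq, ← ne_eq, ← nonempty_iff_ne_empty, ← nonempty_iff_ne_empty] at hcc
    obtain ⟨hP', hQ'⟩ := hcc
    by_cases hy : y ∈ S
    · by_cases hx : x ∈ S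
      · have hd := down vM2 h1V h2V n12 h
        have hSe : S = {x, y} := by
          symm
          apply eq_of_subset_of_card_le
          · intro v hv
            rw [mem_insert, mem_singleton] at hv
            rcases hv with rfl | rfl <;> assumption
          · rw [card_pair nxy]; omega
        obtain ⟨p, hp⟩ := hP'
        obtain ⟨q, hq⟩ := hQ'
        have hco := (hC20.two hK hP).1
        have hTe : insert s₁ (insert s₂ S) = ({x, y, s₁, s₂} : Finset α) := by
          rw [hSe]; ext; simp only [mem_insert, mem_singleton]; tauto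
        rw [hTe] at hd
        exact hd.not_reachable hp hq (hco p (hd.subP hp) q (hd.subQ hq)
          (Finset.disjoint_right.1 hd.2.1 hp) (Finset.disjoint_right.1 hd.2.2.1 hq))
      · rw [hcomm] at h
        have := (one vM' (by rw [vy]; exact mem_erase.2 ⟨(Ne.symm n12), h2V⟩) nx2 c1y h hx
          (by rw [vy]; exact mem_erase.2 ⟨nx1, hxV⟩) hP' hQ' (by omega)).1
        omega
    · have := (one vM (by rw [vx]; exact mem_erase.2 ⟨n12, h1V⟩) ny1 c1x h hy
        (by rw [vx]; exact mem_erase.2 ⟨ny2, hyV⟩) hP' hQ' (by omega)).1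
      omega

/-- adjacency in `M` -/
theorem M_adj {x y s₁ s₂ u w : α} (h : G.Adj u w) (h1 : u ≠ s₂) (h2 : w ≠ s₂) (h3 : u ≠ s₁)
    (h4 : w ≠ s₁) : (contr (contr G x s₂) y s₁).Adj u w :=
  contr_adj_of_adj (contr_adj_of_adj h h1 h2) h3 h4

theorem key {x y s₁ s₂ s₃ s₄ : α} (hXCB : SpecXCB) (hC20 : SpecC20) (hK : K48 G)
    (hP : P33 G x y s₁ s₂ s₃ s₄) (hE : E4 G s₁ s₂ s₃ s₄) {S P Q : Finset α}
    (h : Sep (delE (contr (contr G x s₂) y s₁) x y) S P Q) (hS : S.card < 3) (hx : x ∈ P)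
    (hy : y ∈ Q) (hVS : VS (delE (contr (contr G x s₂) y s₁) x y) =
      VS (contr (contr G x s₂) y s₁)) : False := by
  have hb := bas hC20 hK hP
  obtain ⟨hG, hn⟩ := id hK
  have hnd := hP.nd
  simp only [List.nodup_cons, List.mem_cons, List.not_mem_nil, or_false, not_or] at hnd
  obtain ⟨⟨nxy, nx1, nx2, nx3, nx4⟩, ⟨ny1, ny2, ny3, ny4⟩, ⟨n12, n13, n14⟩, ⟨n23, n24⟩, n34, -⟩ := hnd
  set M := contr (contr G x s₂) y s₁ with hM
  have ne_of : ∀ u v a b : α, a ≠ u → a ≠ v → s(a, b) ≠ s(u, v) := by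
    intro u v a b h1 h2 h3
    rcases Sym2.eq_iff.1 h3 with h4 | h4
    · exact h1 h4.1
    · exact h2 h4.1
  have ne_of' : ∀ u v a b : α, b ≠ u → b ≠ v → s(a, b) ≠ s(u, v) := by
    intro u v a b h1 h2 h3
    rcases Sym2.eq_iff.1 h3 with h4 | h4
    · exact h2 h4.2
    · exact h1 h4.2
  have hnoPQ : ∀ a ∈ P, ∀ b ∈ Q, ¬ M.Adj a b ∨ s(a, b) = s(x, y) := by
    intro a ha b hb'
    by_contra hcc
    push Not at hcc
    exact h.2.2.2.2 a ha b hb' (delE_adj.2 hcc)
  -- `s₃`, `s₄` in `S`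
  have inS : ∀ v, M.Adj x v → M.Adj y v → v ≠ x → v ≠ y → v ∈ S := by
    intro v h1 h2 h3 h4
    have hv : v ∈ VS (delE M x y) := by rw [hVS]; exact right_mem_VS h1
    rcases h.mem_or hv with h5 | h5 | h5
    · exact h5
    · exfalso
      rcases hnoPQ v h5 y hy with h6 | h6
      · exact h6 h2.symm
      · exact ne_of _ _ _ _ h3 h4 h6
    · exfalso
      rcases hnoPQ x hx v h5 with h6 | h6
      · exact h6 h1
      · exact ne_of' _ _ _ _ h3 h4 h6
  have hs3 : s₃ ∈ S := by
    apply inS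
    · exact M_adj ((hP.nx s₃).2 (by simp)) nx2 (Ne.symm n23) nx1 (Ne.symm n13)
    · exact M_adj ((hP.ny s₃).2 (by simp)) ny2 (Ne.symm n23) ny1 (Ne.symm n13)
    · exact Ne.symm nx3
    · exact Ne.symm ny3
  have hs4 : s₄ ∈ S := by
    apply inS
    · exact M_adj ((hP.nx s₄).2 (by simp)) nx2 (Ne.symm n24) nx1 (Ne.symm n14)
    · exact M_adj ((hP.ny s₄).2 (by simp)) ny2 (Ne.symm n24) ny1 (Ne.symm n14)
    · exact Ne.symm nx4
    · exact Ne.symm ny4
  have hSe : S = {s₃, s₄} := by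
    symm
    apply eq_of_subset_of_card_le
    · intro v hv
      rw [mem_insert, mem_singleton] at hv
      rcases hv with rfl | rfl <;> assumption
    · rw [card_pair n34]; omega
  have hPV : ∀ v ∈ P, v ∈ VS G ∧ v ≠ s₁ ∧ v ≠ s₂ := by
    intro v hv
    have h1 := h.subP hv
    rw [hVS, hb.vM, mem_erase, mem_erase] at h1
    exact ⟨h1.2.2, h1.1, h1.2.1⟩
  have hPS : ∀ v ∈ P, v ∉ S := fun v hv => Finset.disjoint_right.1 h.2.1 hv
  have hPQ : ∀ v ∈ P, v ∉ Q := fun v hv => Finset.disjoint_left.1 h.2.2.2.1 hv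
  -- `P = {x}`
  have hPx : P.erase x = ∅ := by
    by_contra hne
    rw [← ne_eq, ← nonempty_iff_ne_empty] at hne
    refine few (D := P.erase x) (W := {s₂, s₃, s₄}) (r := y) hG
      (fun v hv => (hPV v (mem_of_mem_erase hv)).1) hne ?_ ?_ hb.hyV ?_ ?_
    · intro w hw
      obtain ⟨hw1, v, hv, hvw⟩ := mem_NB.1 hw
      obtain ⟨hvx, hvP⟩ := mem_erase.1 hv
      obtain ⟨-, v1, v2⟩ := hPV v hvP
      have hvy : v ≠ y := fun e => hPQ v hvP (e ▸ hy)
      simp only [mem_insert, mem_singleton]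
      by_cases w2 : w = s₂
      · exact Or.inl w2
      · right
        have hwx : w ≠ x := by
          rintro rfl
          rcases (hP.nx v).1 hvw.symm with e | e | e | e
          · exact hvy e
          · exact v2 e
          · exact hPS v hvP (e ▸ hs3)
          · exact hPS v hvP (e ▸ hs4)
        have hw1' : w ≠ s₁ := by
          rintro rfl
          have h1 : M.Adj v y := by
            refine ⟨v1, ny1, hvy, Or.inr (Or.inr ⟨rfl, ?_⟩)⟩
            exact contr_adj_of_adj hvw v2 n12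
          rcases hnoPQ v hvP y hy with h2 | h2
          · exact h2 h1
          · exact ne_of _ _ _ _ hvx hvy h2
        have hvwM : M.Adj v w := M_adj hvw v2 w2 v1 hw1'
        have hwV : w ∈ VS (delE M x y) := by rw [hVS]; exact right_mem_VS hvwM
        rcases h.mem_or hwV with h5 | h5 | h5
        · rw [hSe, mem_insert, mem_singleton] at h5
          exact h5
        · exact absurd (mem_erase.2 ⟨hwx, h5⟩) hw1
        · exfalso
          rcases hnoPQ v hvP w h5 with h6 | h6
          · exact h6 hvwM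
          · exact ne_of _ _ _ _ hvx hvy h6
    · exact (card_insert_le _ _).trans (by
        have := card_insert_le s₃ ({s₄} : Finset α)
        simp at this
        omega)
    · intro hyP
      exact hPQ y (mem_of_mem_erase hyP) hy
    · simp only [mem_insert, mem_singleton, not_or]
      exact ⟨ny2, ny3, ny4⟩
  obtain ⟨w, hw, hwn⟩ := hXCB.s2 hK hP
  simp only [mem_insert, mem_singleton, not_or] at hwn
  obtain ⟨wx, wy, w1, w3, w4⟩ := hwn
  have w2 : w ≠ s₂ := hw.ne.symm
  have hxw : M.Adj x w := by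
    refine contr_adj_of_adj ?_ nx1 w1
    exact ⟨nx2, w2, Ne.symm wx, Or.inr (Or.inl ⟨rfl, hw⟩)⟩
  have hwV : w ∈ VS (delE M x y) := by rw [hVS]; exact right_mem_VS hxw
  rcases h.mem_or hwV with h5 | h5 | h5
  · rw [hSe, mem_insert, mem_singleton] at h5
    rcases h5 with h5 | h5
    · exact w3 h5
    · exact w4 h5
  · have : w ∈ P.erase x := mem_erase.2 ⟨wx, h5⟩
    rw [hPx] at this
    exact absurd this (notMem_empty _)
  · rcases hnoPQ x hx w h5 with h6 | h6
    · exact h6 hxw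
    · exact ne_of' _ _ _ _ wx wy h6

theorem d (hXCB : SpecXCB) (hC20 : SpecC20) {x y s₁ s₂ s₃ s₄ : α} (hK : K48 G)
    (hP : P33 G x y s₁ s₂ s₃ s₄) (hE : E4 G s₁ s₂ s₃ s₄) :
    KConn 3 (delE (contr (contr G x s₂) y s₁) x y) := by
  have hm := m hC20 hK hP
  have hnd := hP.nd
  simp only [List.nodup_cons, List.mem_cons, List.not_mem_nil, or_false, not_or] at hnd
  obtain ⟨⟨nxy, nx1, nx2, nx3, nx4⟩, ⟨ny1, ny2, ny3, ny4⟩, ⟨n12, n13, n14⟩, ⟨n23, n24⟩, n34, -⟩ := hnd
  have hVS : VS (delE (contr (contr G x s₂) y s₁) x y) = VS (contr (contr G x s₂) y s₁) := by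
    apply Subset.antisymm
    · intro v hv
      obtain ⟨w, hw⟩ := mem_VS.1 hv
      exact left_mem_VS ((delE_le _ _ _) hw)
    · intro v hv
      obtain ⟨w, hw⟩ := mem_VS.1 hv
      rw [mem_VS]
      by_cases e : s(v, w) = s(x, y)
      · rcases Sym2.eq_iff.1 e with ⟨e1, e2⟩ | ⟨e1, e2⟩
        · subst e1
          refine ⟨s₃, delE_adj.2 ⟨M_adj ((hP.nx s₃).2 (by simp)) nx2 (Ne.symm n23) nx1
            (Ne.symm n13), ?_⟩⟩
          intro h
          rcases Sym2.eq_iff.1 h with h4 | h4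
          · exact ny3 h4.2.symm
          · exact nxy h4.1
        · subst e1
          refine ⟨s₃, delE_adj.2 ⟨M_adj ((hP.ny s₃).2 (by simp)) ny2 (Ne.symm n23) ny1
            (Ne.symm n13), ?_⟩⟩
          intro h
          rcases Sym2.eq_iff.1 h with h4 | h4
          · exact nxy h4.1.symm
          · exact nx3 h4.2.symm
      · exact ⟨w, delE_adj.2 ⟨hw, e⟩⟩
  refine kconn_iff_sep.2 ⟨by rw [hVS]; exact hm.1, fun S P Q h hS => ?_⟩
  by_contra hcc
  rw [not_or, ← ne_eq, ← ne_eq, ← nonempty_iff_ne_empty, ← nonempty_iff_ne_empty] at hcc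
  obtain ⟨hP', hQ'⟩ := hcc
  by_cases h1 : x ∈ P ∧ y ∈ Q
  · exact key hXCB hC20 hK hP hE h hS h1.1 h1.2 hVS
  · by_cases h2 : x ∈ Q ∧ y ∈ P
    · exact key hXCB hC20 hK hP hE h.symm hS h2.1 h2.2 hVS
    · have hs : Sep (contr (contr G x s₂) y s₁) S P Q := by
        refine ⟨by rw [h.1, hVS], h.2.1, h.2.2.1, h.2.2.2.1, fun a ha b hb hab => ?_⟩
        by_cases e : s(a, b) = s(x, y)
        · rcases Sym2.eq_iff.1 e with ⟨e1, e2⟩ | ⟨e1, e2⟩
          · exact h1 ⟨e1 ▸ ha, e2 ▸ hb⟩
          · exact h2 ⟨e2 ▸ hb, e1 ▸ ha⟩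
        · exact h.2.2.2.2 a ha b hb (delE_adj.2 ⟨hab, e⟩)
      have := hm.le_of_sep hs hP' hQ'
      omega

section gr9

variable {x y s₁ s₂ s₃ s₄ t c d : α}

theorem rx (h : Gr9 G x y s₁ s₂ s₃ s₄ t c d) (v : α) : (contr (contr G x s₂) y s₁).Adj x v ↔
    v = y ∨ v = s₃ ∨ v = s₄ ∨ v = c ∨ v = d := by
  have hnd := h.nd
  simp only [List.nodup_cons, List.mem_cons, List.not_mem_nil, or_false, not_or] at hnd
  have a1 := h.nx v
  have a2 := h.n2 v
  have a3 := h.nx s₁
  have a4 := h.n2 s₁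
  simp only [contr_adj]
  grind

theorem ry (h : Gr9 G x y s₁ s₂ s₃ s₄ t c d) (v : α) : (contr (contr G x s₂) y s₁).Adj y v ↔
    v = x ∨ v = s₃ ∨ v = s₄ ∨ v = c ∨ v = d := by
  have hnd := h.nd
  simp only [List.nodup_cons, List.mem_cons, List.not_mem_nil, or_false, not_or] at hnd
  have a1 := h.ny v
  have a2 := h.n1 v
  have a3 := h.ny s₂
  have a4 := h.n1 s₂
  simp only [contr_adj]
  grind

theorem r3 (h : Gr9 G x y s₁ s₂ s₃ s₄ t c d) (v : α) : (contr (contr G x s₂) y s₁).Adj s₃ v ↔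
    v = x ∨ v = y ∨ v = t ∨ v = c := by
  have hnd := h.nd
  simp only [List.nodup_cons, List.mem_cons, List.not_mem_nil, or_false, not_or] at hnd
  have a1 := h.n3 v
  have a2 := h.n3 s₁
  have a3 := h.n3 s₂
  simp only [contr_adj]
  grind

theorem r4 (h : Gr9 G x y s₁ s₂ s₃ s₄ t c d) (v : α) : (contr (contr G x s₂) y s₁).Adj s₄ v ↔
    v = x ∨ v = y ∨ v = t ∨ v = d := by
  have hnd := h.nd
  simp only [List.nodup_cons, List.mem_cons, List.not_mem_nil, or_false, not_or] at hnd
  have a1 := h.n4 v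
  have a2 := h.n4 s₁
  have a3 := h.n4 s₂
  simp only [contr_adj]
  grind

theorem rt (h : Gr9 G x y s₁ s₂ s₃ s₄ t c d) (v : α) : (contr (contr G x s₂) y s₁).Adj t v ↔
    v = s₃ ∨ v = s₄ ∨ v = c ∨ v = d := by
  have hnd := h.nd
  simp only [List.nodup_cons, List.mem_cons, List.not_mem_nil, or_false, not_or] at hnd
  have a1 := h.mt v
  have a2 := h.mt s₁
  have a3 := h.mt s₂
  simp only [contr_adj]
  grind

theorem rc (h : Gr9 G x y s₁ s₂ s₃ s₄ t c d) (v : α) : (contr (contr G x s₂) y s₁).Adj c v ↔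
    v = x ∨ v = y ∨ v = s₃ ∨ v = t := by
  have hnd := h.nd
  simp only [List.nodup_cons, List.mem_cons, List.not_mem_nil, or_false, not_or] at hnd
  have a1 := h.mc v
  have a2 := h.mc s₁
  have a3 := h.mc s₂
  simp only [contr_adj]
  grind

theorem rd (h : Gr9 G x y s₁ s₂ s₃ s₄ t c d) (v : α) : (contr (contr G x s₂) y s₁).Adj d v ↔
    v = x ∨ v = y ∨ v = s₄ ∨ v = t := by
  have hnd := h.nd
  simp only [List.nodup_cons, List.mem_cons, List.not_mem_nil, or_false, not_or] at hnd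
  have a1 := h.md v
  have a2 := h.md s₁
  have a3 := h.md s₂
  simp only [contr_adj]
  grind

theorem mem7 (h : Gr9 G x y s₁ s₂ s₃ s₄ t c d) {u v : α}
    (ha : (contr (contr G x s₂) y s₁).Adj u v) :
    u = x ∨ u = y ∨ u = s₃ ∨ u = s₄ ∨ u = t ∨ u = c ∨ u = d := by
  have h1 : u ≠ s₁ := ha.1
  have h2 : (contr G x s₂).Adj u v ∨ (u = y ∧ (contr G x s₂).Adj s₁ v) ∨
    (v = y ∧ (contr G x s₂).Adj u s₁) := ha.2.2.2
  have h3 : u = y ∨ ∃ w, (contr G x s₂).Adj u w := by
    rcases h2 with h2 | h2 | h2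
    · exact Or.inr ⟨v, h2⟩
    · exact Or.inl h2.1
    · exact Or.inr ⟨s₁, h2.2⟩
  rcases h3 with h3 | ⟨w, h3⟩
  · exact Or.inr (Or.inl h3)
  · have h4 : u ≠ s₂ := h3.1
    have h5 : u = x ∨ ∃ w, G.Adj u w := by
      rcases h3.2.2.2 with h6 | h6 | h6
      · exact Or.inr ⟨w, h6⟩
      · exact Or.inl h6.1
      · exact Or.inr ⟨s₂, h6.2⟩
    rcases h5 with h5 | ⟨w', h5⟩
    · exact Or.inl h5
    · have h6 := left_mem_VS h5
      rw [h.vs] at h6
      simp only [mem_insert, mem_singleton] at h6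
      tauto

theorem k (hM9 : SpecM9) (h : Gr9 G x y s₁ s₂ s₃ s₄ t c d) :
    KZ (contr (contr G x s₂) y s₁) := by
  have hnd := h.nd
  simp only [List.nodup_cons, List.mem_cons, List.not_mem_nil, or_false, not_or] at hnd
  refine hM9 (x := x) (y := y) (t := t) (a := s₃) (b := c) (c := s₄) (d := d) ?_ ?_
  · simp only [List.nodup_cons, List.mem_cons, List.not_mem_nil, or_false, not_or,
      not_false_eq_true, List.nodup_nil, and_true]
    grind
  · intro u v
    constructor
    · intro ha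
      simp only [mem_insert, mem_singleton, Sym2.eq_iff]
      rcases mem7 h ha with e | e | e | e | e | e | e
      · subst e
        rcases (rx h v).1 ha with e | e | e | e | e <;> subst e <;> simp
      · subst e
        rcases (ry h v).1 ha with e | e | e | e | e <;> subst e <;> simp
      · subst e
        rcases (r3 h v).1 ha with e | e | e | e <;> subst e <;> simp
      · subst e
        rcases (r4 h v).1 ha with e | e | e | e <;> subst e <;> simp
      · subst e
        rcases (rt h v).1 ha with e | e | e | e <;> subst e <;> simp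
      · subst e
        rcases (rc h v).1 ha with e | e | e | e <;> subst e <;> simp
      · subst e
        rcases (rd h v).1 ha with e | e | e | e <;> subst e <;> simp
    · intro hm
      simp only [mem_insert, mem_singleton] at hm
      rw [← mem_edgeSet]
      rcases hm with e | e | e | e | e | e | e | e | e | e | e | e | e | e | e <;>
        rw [e, mem_edgeSet]
      · exact (rx h _).2 (by simp)
      · exact (r3 h _).2 (by simp)
      · exact (r4 h _).2 (by simp)
      · exact (rx h _).2 (by simp)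
      · exact (rx h _).2 (by simp)
      · exact (rx h _).2 (by simp)
      · exact (rx h _).2 (by simp)
      · exact (ry h _).2 (by simp)
      · exact (ry h _).2 (by simp)
      · exact (ry h _).2 (by simp)
      · exact (ry h _).2 (by simp)
      · exact (rt h _).2 (by simp)
      · exact (rt h _).2 (by simp)
      · exact (rt h _).2 (by simp)
      · exact (rt h _).2 (by simp)

end gr9

end DL.XM3M

namespace DL

theorem specXM3 (hC20 : SpecC20) (hXCB : SpecXCB) (hM9 : SpecM9) : SpecXM3 where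
  m := fun hK hP => XM3M.m hC20 hK hP
  d := fun hK hP hE _ => XM3M.d hXCB hC20 hK hP hE
  k := fun h => XM3M.k hM9 h

end DL
end

section
/-!
# Module XMA: a bad cut and a 4-cut through `x`, `y`
-/
set_option autoImplicit false

open SimpleGraph Finset

namespace DL

namespace XMAM

variable {α : Type} [Fintype α] [DecidableEq α] {G : SimpleGraph α} {x y s₁ s₂ s₃ s₄ t : α}
  {A B T X Y S : Finset α}

theorem mem_NB {A : Finset α} {w : α} : w ∈ NB G A ↔ w ∉ A ∧ ∃ a ∈ A, G.Adj a w := by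
  simp [NB]

/-- neighbours in a separation -/
theorem nb_of (h : Sep G S A B) {v w : α} (hv : v ∈ A) (hvw : G.Adj v w) : w ∈ S ∨ w ∈ A := by
  rcases h.mem_or (right_mem_VS hvw) with h' | h' | h'
  · exact Or.inl h'
  · exact Or.inr h'
  · exact absurd hvw (h.2.2.2.2 v hv w h')

theorem SA (h : Sep G S A B) {v : α} (hv : v ∈ S) (hv' : v ∈ A) : False :=
  Finset.disjoint_left.1 h.2.1 hv hv'

theorem AB (h : Sep G S A B) {v : α} (hv : v ∈ A) (hv' : v ∈ B) : False :=
  Finset.disjoint_left.1 h.2.2.2.1 hv hv'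

/-- a vertex set with few neighbours -/
theorem few (hFRG : SpecFRG) (hG : KConn 4 G) {D : Finset α} (W : Finset α) {v r : α}
    (hv : v ∈ D) (hD : D ⊆ VS G) (hW : ∀ v ∈ D, ∀ w, G.Adj v w → w ∈ D ∨ w ∈ W) (h3 : W.card ≤ 3)
    (hr : r ∈ VS G) (hrD : r ∉ D) (hrW : r ∉ W) : False := by
  refine hFRG.few (D := D) (W := W) (r := r) hG hD ⟨v, hv⟩ ?_ h3 hr hrD hrW
  intro w hw
  obtain ⟨hw1, a, ha, haw⟩ := mem_NB.1 hw
  exact (hW a ha w haw).resolve_left hw1

/-- four neighbours -/
theorem deg4 {a b c d u : α} (hG : KConn 4 G) (hu : u ∈ VS G)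
    (h : ∀ w, G.Adj u w → w = a ∨ w = b ∨ w = c ∨ w = d) :
    ∀ w, G.Adj u w ↔ w = a ∨ w = b ∨ w = c ∨ w = d := by
  have h1 : nbs G u ⊆ {a, b, c, d} := by
    intro w hw
    simp only [mem_insert, mem_singleton]
    exact h w (mem_nbs.1 hw)
  have h2 := eq_of_subset_of_card_le h1 (card_le_four.trans (hG.le_nbs hu))
  intro w
  refine ⟨h w, fun hw => ?_⟩
  rw [← mem_nbs, h2]
  simp only [mem_insert, mem_singleton]
  exact hw

/-- the neighbours of `x` and `y` -/
theorem xy_nb (hp : P33 G x y s₁ s₂ s₃ s₄) {v w : α} (hw : w = x ∨ w = y) (h : G.Adj v w) :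
    v = x ∨ v = y ∨ v = s₁ ∨ v = s₂ ∨ v = s₃ ∨ v = s₄ := by
  rcases hw with rfl | rfl
  · have := (hp.nx v).1 h.symm; tauto
  · have := (hp.ny v).1 h.symm; tauto

/-- a corner -/
theorem cor (hFRG : SpecFRG) (hG : KConn 4 G) (hp : P33 G x y s₁ s₂ s₃ s₄) (h1 : Sep G S A B)
    (h2 : Sep G T X Y) (hxS : x ∈ S) (hyS : y ∈ S) (W : Finset α) (h3 : W.card ≤ 3) (hxW : x ∉ W)
    (hSW : ∀ v ∈ S, v ∈ T ∨ v ∈ X → v ≠ x → v ≠ y → v ∈ W) (hAT : ∀ v ∈ A, v ∈ T → v ∈ W)
    (hsi : ∀ v ∈ A, v ∈ X → (v = s₁ ∨ v = s₂ ∨ v = s₃ ∨ v = s₄) → v ∈ W) :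
    ∀ v ∈ A, v ∈ X → v ∈ W := by
  intro v hvA hvX
  by_contra hvW
  have hxV : x ∈ VS G := h1.subS hxS
  refine few hFRG hG (D := (A ∩ X) \ W) W (v := v) (r := x) ?_ ?_ ?_ h3 hxV ?_ hxW
  · rw [mem_sdiff, mem_inter]
    exact ⟨⟨hvA, hvX⟩, hvW⟩
  · intro u hu
    rw [mem_sdiff, mem_inter] at hu
    exact h1.subP hu.1.1
  · intro u hu w huw
    rw [mem_sdiff, mem_inter] at hu
    by_cases hwW : w ∈ W
    · exact Or.inr hwW
    have hwxy : ¬ (w = x ∨ w = y) := by
      intro hw
      rcases xy_nb hp hw huw with h | h | h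
      · exact SA h1 hxS (h ▸ hu.1.1)
      · exact SA h1 hyS (h ▸ hu.1.1)
      · exact hu.2 (hsi u hu.1.1 hu.1.2 h)
    rw [not_or] at hwxy
    rcases nb_of h1 hu.1.1 huw with h | h
    · exact absurd (hSW w h (nb_of h2 hu.1.2 huw) hwxy.1 hwxy.2) hwW
    · rcases nb_of h2 hu.1.2 huw with h' | h'
      · exact absurd (hAT w h h') hwW
      · left
        rw [mem_sdiff, mem_inter]
        exact ⟨⟨h, h'⟩, hwW⟩
  · rw [mem_sdiff, mem_inter]
    exact fun h => SA h1 hxS h.1.1

/-- a side contains two of the `s i` -/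
theorem two (hFRG : SpecFRG) (hG : KConn 4 G) (hp : P33 G x y s₁ s₂ s₃ s₄) (h2 : Sep G T X Y)
    (h4 : T.card = 4) (hxT : x ∈ T) (hyT : y ∈ T) (hX : 2 ≤ X.card) (s : α) (hsx : x ≠ s) :
    ∃ v ∈ X, v ≠ s ∧ (v = s₁ ∨ v = s₂ ∨ v = s₃ ∨ v = s₄) := by
  by_contra hcon
  push Not at hcon
  have hxy : x ≠ y := fun h => by
    have := hp.nd
    simp [h] at this
  have hcard : (X.erase s).Nonempty := by
    rw [← card_pos]
    have := pred_card_le_card_erase (s := X) (a := s)
    omega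
  obtain ⟨v, hv⟩ := hcard
  have hvx : ∀ v ∈ X.erase s, ∀ w, (w = x ∨ w = y) → ¬ G.Adj v w := by
    intro v hv w hw hvw
    rw [mem_erase] at hv
    have h3 := hcon v hv.2 hv.1
    rcases xy_nb hp hw hvw with h | h | h
    · exact SA h2 hxT (h ▸ hv.2)
    · exact SA h2 hyT (h ▸ hv.2)
    · tauto
  refine few hFRG hG (D := X.erase s) (insert s (T \ {x, y})) (v := v) (r := x) hv ?_ ?_ ?_
    (h2.subS hxT) ?_ ?_
  · exact (erase_subset _ _).trans h2.subP
  · intro u hu w huw
    have hw := hvx u hu w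
    rw [mem_erase] at hu
    rcases nb_of h2 hu.2 huw with h | h
    · right
      rw [mem_insert, mem_sdiff, mem_insert, mem_singleton]
      exact Or.inr ⟨h, fun h' => hw h' huw⟩
    · by_cases hws : w = s
      · right; rw [hws]; exact mem_insert_self _ _
      · left; exact mem_erase.2 ⟨hws, h⟩
  · refine (card_insert_le _ _).trans ?_
    rw [card_sdiff_of_subset, h4, card_pair hxy]
    intro w hw
    rw [mem_insert, mem_singleton] at hw
    rcases hw with rfl | rfl
    · exact hxT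
    · exact hyT
  · intro h
    exact SA h2 hxT (mem_of_mem_erase h)
  · rw [mem_insert, mem_sdiff]
    rintro (h | h)
    · exact hsx h
    · exact h.2 (by simp)

end XMAM

theorem BCut.sym {α : Type} [Fintype α] [DecidableEq α] {G : SimpleGraph α} {x y s₁ s₂ s₃ s₄ t : α}
    {A B : Finset α} (h : BCut G x y s₁ s₂ s₃ s₄ t A B) : BCut G x y s₁ s₂ s₄ s₃ t B A :=
  ⟨h.k48, h.p33.sym2, ⟨h.e4.2.1, h.e4.1, h.e4.2.2.2, h.e4.2.2.1⟩, h.tn, h.sp.symm, h.cb, h.ca,
    h.b4, h.a3, h.cnb, h.cna⟩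

namespace XMAM

variable {α : Type} [Fintype α] [DecidableEq α] {G : SimpleGraph α} {x y s₁ s₂ s₃ s₄ t : α}
  {A B T X Y S : Finset α}

/-- all inequalities -/
theorem nes (h : P33 G x y s₁ s₂ s₃ s₄) : x ≠ y ∧ x ≠ s₁ ∧ x ≠ s₂ ∧ x ≠ s₃ ∧ x ≠ s₄ ∧ y ≠ s₁ ∧ y ≠ s₂ ∧
    y ≠ s₃ ∧ y ≠ s₄ ∧ s₁ ≠ s₂ ∧ s₁ ≠ s₃ ∧ s₁ ≠ s₄ ∧ s₂ ≠ s₃ ∧ s₂ ≠ s₄ ∧ s₃ ≠ s₄ := by
  have := h.nd
  simp only [List.nodup_cons, List.mem_cons, List.not_mem_nil, or_false, not_or, List.nodup_nil, and_true,
    not_false_eq_true] at this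
  tauto

/-- (Z): `s₁`, `s₂`, `t` have a neighbour in `A - s₃` -/
theorem zed (hFRG : SpecFRG) (h : BCut G x y s₁ s₂ s₃ s₄ t A B) {z : α} (hz : z = s₁ ∨ z = s₂ ∨ z = t) :
    ∃ v ∈ A, v ≠ s₃ ∧ G.Adj z v := by
  by_contra hcon
  push Not at hcon
  have hp := h.p33
  have h1 := h.sp
  obtain ⟨nxy, nx1, nx2, nx3, nx4, ny1, ny2, ny3, ny4, n12, n13, n14, n23, n24, n34⟩ := nes hp
  have htn := h.tn
  simp only [mem_insert, mem_singleton, not_or] at htn
  have hcard : (A.erase s₃).Nonempty := by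
    rw [← card_pos, card_erase_of_mem h.a3]
    have := h.ca
    omega
  obtain ⟨v, hv⟩ := hcard
  have hS : ∀ w, w = x ∨ w = y ∨ w = s₁ ∨ w = s₂ ∨ w = t → w ∉ A := by
    intro w hw hwA
    exact SA h1 (by simp only [mem_insert, mem_singleton]; exact hw) hwA
  have hvx : ∀ v ∈ A.erase s₃, ∀ w, (w = x ∨ w = y) → ¬ G.Adj v w := by
    intro v hv w hw hvw
    rw [mem_erase] at hv
    rcases xy_nb hp hw hvw with h' | h' | h' | h' | h' | h'
    · exact hS v (by tauto) hv.2
    · exact hS v (by tauto) hv.2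
    · exact hS v (by tauto) hv.2
    · exact hS v (by tauto) hv.2
    · exact hv.1 h'
    · exact AB h1 hv.2 (h' ▸ h.b4)
  refine few hFRG h.k48.1 (D := A.erase s₃) (insert s₃ (({s₁, s₂, t} : Finset α).erase z)) (v := v)
    (r := x) hv ?_ ?_ ?_ (h1.subS (by simp)) ?_ ?_
  · exact (erase_subset _ _).trans h1.subP
  · intro u hu w huw
    have hw := hvx u hu w
    rw [mem_erase] at hu
    rcases nb_of h1 hu.2 huw with h' | h'
    · right
      simp only [mem_insert, mem_singleton] at h'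
      simp only [mem_insert, mem_erase, mem_singleton]
      right
      refine ⟨?_, ?_⟩
      · rintro rfl
        exact hcon u hu.2 hu.1 huw.symm
      · rcases h' with h' | h' | h'
        · exact absurd huw (hw (Or.inl h'))
        · exact absurd huw (hw (Or.inr h'))
        · exact h'
    · by_cases hws : w = s₃
      · right; rw [hws]; exact mem_insert_self _ _
      · left; exact mem_erase.2 ⟨hws, h'⟩
  · refine (card_insert_le _ _).trans ?_
    rw [card_erase_of_mem (by simp only [mem_insert, mem_singleton]; tauto)]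
    have := card_le_three (a := s₁) (b := s₂) (c := t)
    omega
  · intro h'
    exact hS x (by tauto) (mem_of_mem_erase h')
  · simp only [mem_insert, mem_erase, mem_singleton]
    rintro (h' | ⟨-, h' | h' | h'⟩)
    · exact nx3 h'
    · exact nx1 h'
    · exact nx2 h'
    · exact htn.1 h'.symm

/-- a connected set which does not meet `T` -/
theorem conn (hA : CSet G A) (h2 : Sep G T X Y) (hAV : A ⊆ VS G) (hAT : ∀ v ∈ A, v ∉ T) {s : α}
    (hs : s ∈ A) (hsX : s ∈ X) : ∀ v ∈ A, v ∈ X := by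
  intro v hv
  have h1 := hA.2 s hs v hv
  refine (mem_of_reachable (X := {u | u ∈ X}) h1 hsX ?_ : v ∈ X)
  intro u w huw hu
  rw [del_adj] at huw
  have hwA : w ∈ A := by
    by_contra h
    exact huw.2.2 (mem_sdiff.2 ⟨mem_univ _, h⟩)
  rcases nb_of h2 hu huw.1 with h | h
  · exact absurd h (hAT w hwA)
  · exact h

/-- the four elements of `T` -/
theorem four (h1 : Sep G {x, y, s₁, s₂, t} A B) (h4 : T.card = 4) (hxT : x ∈ T) (hyT : y ∈ T)
    (hxy : x ≠ y) {c d : α} (hcA : c ∈ A) (hcT : c ∈ T) (hdB : d ∈ B) (hdT : d ∈ T) :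
    T = {x, y, c, d} ∧ t ∉ T ∨ t = x ∨ t = y := by
  have hS : ∀ w, w = x ∨ w = y ∨ w = s₁ ∨ w = s₂ ∨ w = t → w ∉ A ∧ w ∉ B := by
    intro w hw
    exact ⟨fun h => SA h1 (by simp only [mem_insert, mem_singleton]; exact hw) h,
      fun h => SA h1.symm (by simp only [mem_insert, mem_singleton]; exact hw) h⟩
  have hcd : c ≠ d := by rintro rfl; exact AB h1 hcA hdB
  have hxc : x ≠ c := by rintro rfl; exact (hS x (by tauto)).1 hcA
  have hxd : x ≠ d := by rintro rfl; exact (hS x (by tauto)).2 hdB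
  have hyc : y ≠ c := by rintro rfl; exact (hS y (by tauto)).1 hcA
  have hyd : y ≠ d := by rintro rfl; exact (hS y (by tauto)).2 hdB
  have hsub : ({x, y, c, d} : Finset α) ⊆ T := by
    intro w hw
    simp only [mem_insert, mem_singleton] at hw
    rcases hw with rfl | rfl | rfl | rfl <;> assumption
  have hc : ({x, y, c, d} : Finset α).card = 4 := by
    rw [card_insert_of_notMem, card_insert_of_notMem, card_insert_of_notMem, card_singleton]
    · simpa using hcd
    · simp [hyc, hyd]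
    · simp [hxy, hxc, hxd]
  have hT := eq_of_subset_of_card_le hsub (by rw [hc, h4])
  by_cases ht : t = x ∨ t = y
  · exact Or.inr ht
  · left
    refine ⟨hT.symm, fun h => ?_⟩
    rw [← hT] at h
    simp only [mem_insert, mem_singleton] at h
    rcases h with h | h | h | h
    · exact ht (Or.inl h)
    · exact ht (Or.inr h)
    · exact (hS t (by tauto)).1 (h ▸ hcA)
    · exact (hS t (by tauto)).2 (h ▸ hdB)

/-- case (2) -/
theorem case2 (hFRG : SpecFRG) (h : BCut G x y s₁ s₂ s₃ s₄ t A B) (h2 : Sep G T X Y)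
    (h4 : T.card = 4) (hxT : x ∈ T) (hyT : y ∈ T) (k1 : s₁ ∈ X) (k3 : s₃ ∈ X) (k2 : s₂ ∈ Y)
    (k4 : s₄ ∈ Y) : False := by
  have hp := h.p33
  have h1 := h.sp
  obtain ⟨nxy, nx1, nx2, nx3, nx4, ny1, ny2, ny3, ny4, n12, n13, n14, n23, n24, n34⟩ := nes hp
  have htn := h.tn
  simp only [mem_insert, mem_singleton, not_or] at htn
  have hS : ∀ w, w = x ∨ w = y ∨ w = s₁ ∨ w = s₂ ∨ w = t → w ∉ A ∧ w ∉ B := by
    intro w hw
    exact ⟨fun h => SA h1 (by simp only [mem_insert, mem_singleton]; exact hw) h,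
      fun h => SA h1.symm (by simp only [mem_insert, mem_singleton]; exact hw) h⟩
  obtain ⟨c, hcA, hcT⟩ : ∃ c ∈ A, c ∈ T := by
    by_contra hcon
    push Not at hcon
    obtain ⟨v, hv, -, hv2⟩ := zed hFRG h (z := s₂) (by tauto)
    have := conn h.cna h2 h1.subP hcon h.a3 k3 v hv
    exact h2.2.2.2.2 v this s₂ k2 hv2.symm
  obtain ⟨d, hdB, hdT⟩ : ∃ d ∈ B, d ∈ T := by
    by_contra hcon
    push Not at hcon
    obtain ⟨v, hv, -, hv2⟩ := zed hFRG h.sym (z := s₁) (by tauto)
    have := conn h.cnb h2.symm h1.subQ hcon h.b4 k4 v hv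
    exact h2.2.2.2.2 s₁ k1 v this hv2
  obtain ⟨hT, htT⟩ : T = {x, y, c, d} ∧ t ∉ T := by
    rcases four h1 h4 hxT hyT nxy hcA hcT hdB hdT with h' | h' | h'
    · exact h'
    · exact absurd h' htn.1
    · exact absurd h' htn.2.1
  have hTm : ∀ v, v ∈ T → v = x ∨ v = y ∨ v = c ∨ v = d := by
    intro v hv
    rw [hT] at hv
    simpa only [mem_insert, mem_singleton] using hv
  have htV : t ∈ VS G := h1.subS (by simp)
  have hcx : x ≠ c := by rintro rfl; exact (hS x (by tauto)).1 hcA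
  have hdx : x ≠ d := by rintro rfl; exact (hS x (by tauto)).2 hdB
  rcases h2.mem_or htV with ht | ht | ht
  · exact htT ht
  · -- `B ∩ Y = {s₄}`
    have key := cor hFRG h.k48.1 hp h1.symm h2.symm (by simp) (by simp) {s₄, s₂, d} card_le_three
      (by simp only [mem_insert, mem_singleton, not_or]; exact ⟨nx4, nx2, hdx⟩)
      (by
        intro v hv hv' hvx hvy
        simp only [mem_insert, mem_singleton] at hv ⊢
        rcases hv with hv | hv | hv | hv | hv
        · exact absurd hv hvx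
        · exact absurd hv hvy
        · exfalso
          rcases hv' with h' | h'
          · rcases hTm v h' with e | e | e | e
            · exact hvx e
            · exact hvy e
            · exact (hS v (by tauto)).1 (e ▸ hcA)
            · exact (hS v (by tauto)).2 (e ▸ hdB)
          · exact AB h2 k1 (hv ▸ h')
        · tauto
        · exfalso
          rcases hv' with h' | h'
          · exact htT (hv ▸ h')
          · exact AB h2 ht (hv ▸ h'))
      (by
        intro v hv hv'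
        simp only [mem_insert, mem_singleton]
        rcases hTm v hv' with e | e | e | e
        · exact absurd hv (hS v (by tauto)).2
        · exact absurd hv (hS v (by tauto)).2
        · exact absurd (e ▸ hcA) (fun h' => AB h1 h' hv)
        · tauto)
      (by
        intro v hv hv' hvs
        simp only [mem_insert, mem_singleton]
        rcases hvs with e | e | e | e
        · exact absurd hv (hS v (by tauto)).2
        · tauto
        · exact absurd (e ▸ h.a3) (fun h' => AB h1 h' hv)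
        · tauto)
    have hs4 : ∀ w, G.Adj s₄ w → w = x ∨ w = y ∨ w = s₂ ∨ w = d := by
      intro w hw
      rcases nb_of h1.symm h.b4 hw with h' | h'
      · simp only [mem_insert, mem_singleton] at h'
        rcases h' with e | e | e | e | e
        · tauto
        · tauto
        · exact absurd (e ▸ hw.symm) h.e4.2.1
        · tauto
        · exact absurd (e ▸ hw) (fun h' => h2.2.2.2.2 t ht s₄ k4 h'.symm)
      · rcases nb_of h2.symm k4 hw with h'' | h''
        · rcases hTm w h'' with e | e | e | e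
          · tauto
          · tauto
          · exact absurd (e ▸ hcA) (fun h3 => AB h1 h3 h')
          · tauto
        · have := key w h' h''
          simp only [mem_insert, mem_singleton] at this
          rcases this with e | e | e
          · exact absurd e hw.ne'
          · tauto
          · tauto
    exact h.e4.2.2.2 ((deg4 h.k48.1 (h1.subQ h.b4) hs4 s₂).2 (by tauto)).symm
  · -- `A ∩ X = {s₃}`
    have key := cor hFRG h.k48.1 hp h1 h2 (by simp) (by simp) {s₃, s₁, c} card_le_three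
      (by simp only [mem_insert, mem_singleton, not_or]; exact ⟨nx3, nx1, hcx⟩)
      (by
        intro v hv hv' hvx hvy
        simp only [mem_insert, mem_singleton] at hv ⊢
        rcases hv with hv | hv | hv | hv | hv
        · exact absurd hv hvx
        · exact absurd hv hvy
        · tauto
        · exfalso
          rcases hv' with h' | h'
          · rcases hTm v h' with e | e | e | e
            · exact hvx e
            · exact hvy e
            · exact (hS v (by tauto)).1 (e ▸ hcA)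
            · exact (hS v (by tauto)).2 (e ▸ hdB)
          · exact AB h2 (hv ▸ h') k2
        · exfalso
          rcases hv' with h' | h'
          · exact htT (hv ▸ h')
          · exact AB h2 (hv ▸ h') ht)
      (by
        intro v hv hv'
        simp only [mem_insert, mem_singleton]
        rcases hTm v hv' with e | e | e | e
        · exact absurd hv (hS v (by tauto)).1
        · exact absurd hv (hS v (by tauto)).1
        · tauto
        · exact absurd (e ▸ hdB) (fun h' => AB h1 hv h'))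
      (by
        intro v hv hv' hvs
        simp only [mem_insert, mem_singleton]
        rcases hvs with e | e | e | e
        · tauto
        · exact absurd hv (hS v (by tauto)).1
        · tauto
        · exact absurd (e ▸ h.b4) (fun h' => AB h1 hv h'))
    have hs3 : ∀ w, G.Adj s₃ w → w = x ∨ w = y ∨ w = s₁ ∨ w = c := by
      intro w hw
      rcases nb_of h1 h.a3 hw with h' | h'
      · simp only [mem_insert, mem_singleton] at h'
        rcases h' with e | e | e | e | e
        · tauto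
        · tauto
        · tauto
        · exact absurd (e ▸ hw.symm) h.e4.2.2.1
        · exact absurd (e ▸ hw) (fun h' => h2.2.2.2.2 s₃ k3 t ht h')
      · rcases nb_of h2 k3 hw with h'' | h''
        · rcases hTm w h'' with e | e | e | e
          · tauto
          · tauto
          · tauto
          · exact absurd (e ▸ hdB) (fun h3 => AB h1 h' h3)
        · have := key w h' h''
          simp only [mem_insert, mem_singleton] at this
          rcases this with e | e | e
          · exact absurd e hw.ne'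
          · tauto
          · tauto
    exact h.e4.1 ((deg4 h.k48.1 (h1.subP h.a3) hs3 s₁).2 (by tauto)).symm

/-- case (1) -/
theorem case1 (hFRG : SpecFRG) (h : BCut G x y s₁ s₂ s₃ s₄ t A B) (h2 : Sep G T X Y)
    (h4 : T.card = 4) (hxT : x ∈ T) (hyT : y ∈ T) (k1 : s₁ ∈ X) (k2 : s₂ ∈ X) (k3 : s₃ ∈ Y)
    (k4 : s₄ ∈ Y) : ∃ c d, Gr9 G x y s₁ s₂ s₃ s₄ t c d := by
  have hp := h.p33
  have h1 := h.sp
  obtain ⟨nxy, nx1, nx2, nx3, nx4, ny1, ny2, ny3, ny4, n12, n13, n14, n23, n24, n34⟩ := nes hp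
  have htn := h.tn
  simp only [mem_insert, mem_singleton, not_or] at htn
  have hS : ∀ w, w = x ∨ w = y ∨ w = s₁ ∨ w = s₂ ∨ w = t → w ∉ A ∧ w ∉ B := by
    intro w hw
    exact ⟨fun h => SA h1 (by simp only [mem_insert, mem_singleton]; exact hw) h,
      fun h => SA h1.symm (by simp only [mem_insert, mem_singleton]; exact hw) h⟩
  have s1V : s₁ ∈ VS G := h1.subS (by simp)
  have s1Y : s₁ ∉ Y := fun h' => AB h2 k1 h'
  have s2Y : s₂ ∉ Y := fun h' => AB h2 k2 h'
  have s1T : s₁ ∉ T := fun h' => SA h2 h' k1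
  have s2T : s₂ ∉ T := fun h' => SA h2 h' k2
  -- a side of the bad cut meets `T`
  have meet : ∀ {A B : Finset α}, Sep G {x, y, s₁, s₂, t} A B → (∃ s ∈ A, s ∈ Y) →
      ∃ c ∈ A, c ∈ T := by
    intro A B h1 ⟨s, hsA, hsY⟩
    by_contra hcon
    push Not at hcon
    refine few hFRG h.k48.1 (D := A ∩ Y) {x, y, t} (v := s) (r := s₁) (mem_inter.2 ⟨hsA, hsY⟩)
      (inter_subset_left.trans h1.subP) ?_ card_le_three s1V ?_ ?_
    · intro v hv w hvw
      rw [mem_inter] at hv
      rcases nb_of h1 hv.1 hvw with h' | h' <;> rcases nb_of h2.symm hv.2 hvw with h'' | h''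
      · right
        simp only [mem_insert, mem_singleton] at h' ⊢
        rcases h' with e | e | e | e | e
        · exact Or.inl e
        · exact Or.inr (Or.inl e)
        · exact absurd (e ▸ h'') s1T
        · exact absurd (e ▸ h'') s2T
        · exact Or.inr (Or.inr e)
      · right
        simp only [mem_insert, mem_singleton] at h' ⊢
        rcases h' with e | e | e | e | e
        · exact Or.inl e
        · exact Or.inr (Or.inl e)
        · exact absurd (e ▸ h'') s1Y
        · exact absurd (e ▸ h'') s2Y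
        · exact Or.inr (Or.inr e)
      · exact absurd h'' (hcon w h')
      · exact Or.inl (mem_inter.2 ⟨h', h''⟩)
    · rw [mem_inter]
      exact fun h' => s1Y h'.2
    · simp only [mem_insert, mem_singleton, not_or]
      exact ⟨nx1.symm, ny1.symm, fun e => htn.2.2.1 e.symm⟩
  obtain ⟨c, hcA, hcT⟩ := meet h1 ⟨s₃, h.a3, k3⟩
  obtain ⟨d, hdB, hdT⟩ := meet h1.symm ⟨s₄, h.b4, k4⟩
  obtain ⟨hT, htT⟩ : T = {x, y, c, d} ∧ t ∉ T := by
    rcases four h1 h4 hxT hyT nxy hcA hcT hdB hdT with h' | h' | h'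
    · exact h'
    · exact absurd h' htn.1
    · exact absurd h' htn.2.1
  have hTm : ∀ v, v ∈ T → v = x ∨ v = y ∨ v = c ∨ v = d := by
    intro v hv
    rw [hT] at hv
    simpa only [mem_insert, mem_singleton] using hv
  have htV : t ∈ VS G := h1.subS (by simp)
  have xc : x ≠ c := by rintro rfl; exact (hS x (by tauto)).1 hcA
  have xd : x ≠ d := by rintro rfl; exact (hS x (by tauto)).2 hdB
  have yc : y ≠ c := by rintro rfl; exact (hS y (by tauto)).1 hcA
  have yd : y ≠ d := by rintro rfl; exact (hS y (by tauto)).2 hdB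
  have cd : c ≠ d := by rintro rfl; exact AB h1 hcA hdB
  have c1 : s₁ ≠ c := by rintro rfl; exact s1T hcT
  have c2 : s₂ ≠ c := by rintro rfl; exact s2T hcT
  have c3 : s₃ ≠ c := by rintro rfl; exact SA h2.symm hcT k3
  have c4 : s₄ ≠ c := by rintro rfl; exact SA h2.symm hcT k4
  have d1 : s₁ ≠ d := by rintro rfl; exact s1T hdT
  have d2 : s₂ ≠ d := by rintro rfl; exact s2T hdT
  have d3 : s₃ ≠ d := by rintro rfl; exact SA h2.symm hdT k3
  have d4 : s₄ ≠ d := by rintro rfl; exact SA h2.symm hdT k4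
  have tc : t ≠ c := by rintro rfl; exact htT hcT
  have td : t ≠ d := by rintro rfl; exact htT hdT
  have t3 : s₃ ≠ t := by rintro rfl; exact (hS s₃ (by tauto)).1 h.a3
  have t4 : s₄ ≠ t := by rintro rfl; exact (hS s₄ (by tauto)).2 h.b4
  -- `t ∈ Y`
  have htY : t ∈ Y := by
    rcases h2.mem_or htV with ht | ht | ht
    · exact absurd ht htT
    · exfalso
      refine few hFRG h.k48.1 (D := A ∩ Y) {x, y, c} (v := s₃) (r := s₁)
        (mem_inter.2 ⟨h.a3, k3⟩) (inter_subset_left.trans h1.subP) ?_ card_le_three s1V ?_ ?_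
      · intro v hv w hvw
        rw [mem_inter] at hv
        rcases nb_of h1 hv.1 hvw with h' | h' <;> rcases nb_of h2.symm hv.2 hvw with h'' | h''
        · right
          simp only [mem_insert, mem_singleton] at h' ⊢
          rcases h' with e | e | e | e | e
          · exact Or.inl e
          · exact Or.inr (Or.inl e)
          · exact absurd (e ▸ h'') s1T
          · exact absurd (e ▸ h'') s2T
          · exact absurd (e ▸ h'') htT
        · right
          simp only [mem_insert, mem_singleton] at h' ⊢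
          rcases h' with e | e | e | e | e
          · exact Or.inl e
          · exact Or.inr (Or.inl e)
          · exact absurd (e ▸ h'') s1Y
          · exact absurd (e ▸ h'') s2Y
          · exact absurd (e ▸ h'') (fun h3 => AB h2 ht h3)
        · right
          simp only [mem_insert, mem_singleton]
          rcases hTm w h'' with e | e | e | e
          · exact Or.inl e
          · exact Or.inr (Or.inl e)
          · exact Or.inr (Or.inr e)
          · exact absurd (e ▸ hdB) (fun h3 => AB h1 h' h3)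
        · exact Or.inl (mem_inter.2 ⟨h', h''⟩)
      · rw [mem_inter]
        exact fun h' => s1Y h'.2
      · simp only [mem_insert, mem_singleton, not_or]
        exact ⟨nx1.symm, ny1.symm, c1⟩
    · exact ht
  have htX : t ∉ X := fun h' => AB h2 h' htY
  -- the corners
  have kAY : ∀ v ∈ A, v ∈ Y → v = s₃ := by
    intro v hv hv'
    have := cor hFRG h.k48.1 hp h1 h2.symm (by simp) (by simp) {s₃, t, c} card_le_three
      (by simp only [mem_insert, mem_singleton, not_or]; exact ⟨nx3, fun e => htn.1 e.symm, xc⟩)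
      (by
        intro v hv hv' hvx hvy
        simp only [mem_insert, mem_singleton] at hv ⊢
        rcases hv with e | e | e | e | e
        · exact absurd e hvx
        · exact absurd e hvy
        · rcases hv' with h' | h'
          · exact absurd (e ▸ h') s1T
          · exact absurd (e ▸ h') s1Y
        · rcases hv' with h' | h'
          · exact absurd (e ▸ h') s2T
          · exact absurd (e ▸ h') s2Y
        · exact Or.inr (Or.inl e))
      (by
        intro v hv hv'
        simp only [mem_insert, mem_singleton]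
        rcases hTm v hv' with e | e | e | e
        · exact absurd hv (hS v (by tauto)).1
        · exact absurd hv (hS v (by tauto)).1
        · exact Or.inr (Or.inr e)
        · exact absurd (e ▸ hdB) (fun h' => AB h1 hv h'))
      (by
        intro v hv hv' hvs
        simp only [mem_insert, mem_singleton]
        rcases hvs with e | e | e | e
        · exact absurd hv (hS v (by tauto)).1
        · exact absurd hv (hS v (by tauto)).1
        · exact Or.inl e
        · exact absurd (e ▸ h.b4) (fun h' => AB h1 hv h'))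
      v hv hv'
    simp only [mem_insert, mem_singleton] at this
    rcases this with e | e | e
    · exact e
    · exact absurd hv (hS v (by tauto)).1
    · exact absurd (e ▸ hv') (fun h' => SA h2.symm hcT h')
  have kBY : ∀ v ∈ B, v ∈ Y → v = s₄ := by
    intro v hv hv'
    have := cor hFRG h.k48.1 hp h1.symm h2.symm (by simp) (by simp) {s₄, t, d} card_le_three
      (by simp only [mem_insert, mem_singleton, not_or]; exact ⟨nx4, fun e => htn.1 e.symm, xd⟩)
      (by
        intro v hv hv' hvx hvy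
        simp only [mem_insert, mem_singleton] at hv ⊢
        rcases hv with e | e | e | e | e
        · exact absurd e hvx
        · exact absurd e hvy
        · rcases hv' with h' | h'
          · exact absurd (e ▸ h') s1T
          · exact absurd (e ▸ h') s1Y
        · rcases hv' with h' | h'
          · exact absurd (e ▸ h') s2T
          · exact absurd (e ▸ h') s2Y
        · exact Or.inr (Or.inl e))
      (by
        intro v hv hv'
        simp only [mem_insert, mem_singleton]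
        rcases hTm v hv' with e | e | e | e
        · exact absurd hv (hS v (by tauto)).2
        · exact absurd hv (hS v (by tauto)).2
        · exact absurd (e ▸ hcA) (fun h' => AB h1 h' hv)
        · exact Or.inr (Or.inr e))
      (by
        intro v hv hv' hvs
        simp only [mem_insert, mem_singleton]
        rcases hvs with e | e | e | e
        · exact absurd hv (hS v (by tauto)).2
        · exact absurd hv (hS v (by tauto)).2
        · exact absurd (e ▸ h.a3) (fun h' => AB h1 h' hv)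
        · exact Or.inl e)
      v hv hv'
    simp only [mem_insert, mem_singleton] at this
    rcases this with e | e | e
    · exact e
    · exact absurd hv (hS v (by tauto)).2
    · exact absurd (e ▸ hv') (fun h' => SA h2.symm hdT h')
  have kAX : ∀ v ∈ A, v ∉ X := by
    intro v hv hv'
    have := cor hFRG h.k48.1 hp h1 h2 (by simp) (by simp) {s₁, s₂, c} card_le_three
      (by simp only [mem_insert, mem_singleton, not_or]; exact ⟨nx1, nx2, xc⟩)
      (by
        intro v hv hv' hvx hvy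
        simp only [mem_insert, mem_singleton] at hv ⊢
        rcases hv with e | e | e | e | e
        · exact absurd e hvx
        · exact absurd e hvy
        · exact Or.inl e
        · exact Or.inr (Or.inl e)
        · rcases hv' with h' | h'
          · exact absurd (e ▸ h') htT
          · exact absurd (e ▸ h') htX)
      (by
        intro v hv hv'
        simp only [mem_insert, mem_singleton]
        rcases hTm v hv' with e | e | e | e
        · exact absurd hv (hS v (by tauto)).1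
        · exact absurd hv (hS v (by tauto)).1
        · exact Or.inr (Or.inr e)
        · exact absurd (e ▸ hdB) (fun h' => AB h1 hv h'))
      (by
        intro v hv hv' hvs
        simp only [mem_insert, mem_singleton]
        rcases hvs with e | e | e | e
        · exact absurd hv (hS v (by tauto)).1
        · exact absurd hv (hS v (by tauto)).1
        · exact absurd (e ▸ k3) (fun h' => AB h2 hv' h')
        · exact absurd (e ▸ k4) (fun h' => AB h2 hv' h'))
      v hv hv'
    simp only [mem_insert, mem_singleton] at this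
    rcases this with e | e | e
    · exact (hS v (by tauto)).1 hv
    · exact (hS v (by tauto)).1 hv
    · exact SA h2 hcT (e ▸ hv')
  have kBX : ∀ v ∈ B, v ∉ X := by
    intro v hv hv'
    have := cor hFRG h.k48.1 hp h1.symm h2 (by simp) (by simp) {s₁, s₂, d} card_le_three
      (by simp only [mem_insert, mem_singleton, not_or]; exact ⟨nx1, nx2, xd⟩)
      (by
        intro v hv hv' hvx hvy
        simp only [mem_insert, mem_singleton] at hv ⊢
        rcases hv with e | e | e | e | e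
        · exact absurd e hvx
        · exact absurd e hvy
        · exact Or.inl e
        · exact Or.inr (Or.inl e)
        · rcases hv' with h' | h'
          · exact absurd (e ▸ h') htT
          · exact absurd (e ▸ h') htX)
      (by
        intro v hv hv'
        simp only [mem_insert, mem_singleton]
        rcases hTm v hv' with e | e | e | e
        · exact absurd hv (hS v (by tauto)).2
        · exact absurd hv (hS v (by tauto)).2
        · exact absurd (e ▸ hcA) (fun h' => AB h1 h' hv)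
        · exact Or.inr (Or.inr e))
      (by
        intro v hv hv' hvs
        simp only [mem_insert, mem_singleton]
        rcases hvs with e | e | e | e
        · exact absurd hv (hS v (by tauto)).2
        · exact absurd hv (hS v (by tauto)).2
        · exact absurd (e ▸ k3) (fun h' => AB h2 hv' h')
        · exact absurd (e ▸ k4) (fun h' => AB h2 hv' h'))
      v hv hv'
    simp only [mem_insert, mem_singleton] at this
    rcases this with e | e | e
    · exact (hS v (by tauto)).2 hv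
    · exact (hS v (by tauto)).2 hv
    · exact SA h2 hdT (e ▸ hv')
  -- `A = {s₃, c}`, `B = {s₄, d}`, `X = {s₁, s₂}`, `Y = {s₃, s₄, t}`
  have mA : ∀ v ∈ A, v = s₃ ∨ v = c := by
    intro v hv
    rcases h2.mem_or (h1.subP hv) with h' | h' | h'
    · rcases hTm v h' with e | e | e | e
      · exact absurd hv (hS v (by tauto)).1
      · exact absurd hv (hS v (by tauto)).1
      · exact Or.inr e
      · exact absurd (e ▸ hdB) (fun h' => AB h1 hv h')
    · exact absurd h' (kAX v hv)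
    · exact Or.inl (kAY v hv h')
  have mB : ∀ v ∈ B, v = s₄ ∨ v = d := by
    intro v hv
    rcases h2.mem_or (h1.subQ hv) with h' | h' | h'
    · rcases hTm v h' with e | e | e | e
      · exact absurd hv (hS v (by tauto)).2
      · exact absurd hv (hS v (by tauto)).2
      · exact absurd (e ▸ hcA) (fun h' => AB h1 h' hv)
      · exact Or.inr e
    · exact absurd h' (kBX v hv)
    · exact Or.inl (kBY v hv h')
  have mX : ∀ v ∈ X, v = s₁ ∨ v = s₂ := by
    intro v hv
    rcases h1.mem_or (h2.subP hv) with h' | h' | h'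
    · simp only [mem_insert, mem_singleton] at h'
      rcases h' with e | e | e | e | e
      · exact absurd (e ▸ hxT) (fun h' => SA h2 h' hv)
      · exact absurd (e ▸ hyT) (fun h' => SA h2 h' hv)
      · exact Or.inl e
      · exact Or.inr e
      · exact absurd (e ▸ hv) htX
    · exact absurd hv (kAX v h')
    · exact absurd hv (kBX v h')
  have mY : ∀ v ∈ Y, v = s₃ ∨ v = s₄ ∨ v = t := by
    intro v hv
    rcases h1.mem_or (h2.subQ hv) with h' | h' | h'
    · simp only [mem_insert, mem_singleton] at h'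
      rcases h' with e | e | e | e | e
      · exact absurd (e ▸ hxT) (fun h' => SA h2.symm h' hv)
      · exact absurd (e ▸ hyT) (fun h' => SA h2.symm h' hv)
      · exact absurd (e ▸ hv) s1Y
      · exact absurd (e ▸ hv) s2Y
      · exact Or.inr (Or.inr e)
    · exact Or.inl (kAY v h' hv)
    · exact Or.inr (Or.inl (kBY v h' hv))
  have nxw : ∀ w, G.Adj x w → w ≠ s₁ ∧ w ≠ t ∧ w ≠ c ∧ w ≠ d := by
    intro w hw
    rcases (hp.nx w).1 hw with rfl | rfl | rfl | rfl
    · exact ⟨ny1, fun e => htn.2.1 e.symm, yc, yd⟩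
    · exact ⟨n12.symm, fun e => htn.2.2.2 e.symm, c2, d2⟩
    · exact ⟨n13.symm, t3, c3, d3⟩
    · exact ⟨n14.symm, t4, c4, d4⟩
  have nyw : ∀ w, G.Adj y w → w ≠ s₂ ∧ w ≠ t ∧ w ≠ c ∧ w ≠ d := by
    intro w hw
    rcases (hp.ny w).1 hw with rfl | rfl | rfl | rfl
    · exact ⟨nx2, fun e => htn.1 e.symm, xc, xd⟩
    · exact ⟨n12, fun e => htn.2.2.1 e.symm, c1, d1⟩
    · exact ⟨n23.symm, t3, c3, d3⟩
    · exact ⟨n24.symm, t4, c4, d4⟩
  refine ⟨c, d, ?_, ?_, hp.nx, hp.ny, ?_, ?_, ?_, ?_, ?_, ?_, ?_⟩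
  · simp only [List.nodup_cons, List.mem_cons, List.not_mem_nil, or_false, not_or,
      List.nodup_nil, and_true, not_false_eq_true]
    exact ⟨⟨nxy, nx1, nx2, nx3, nx4, fun e => htn.1 e.symm, xc, xd⟩,
      ⟨ny1, ny2, ny3, ny4, fun e => htn.2.1 e.symm, yc, yd⟩,
      ⟨n12, n13, n14, fun e => htn.2.2.1 e.symm, c1, d1⟩,
      ⟨n23, n24, fun e => htn.2.2.2 e.symm, c2, d2⟩, ⟨n34, t3, c3, d3⟩, ⟨t4, c4, d4⟩, ⟨tc, td⟩, cd⟩
  · ext v
    simp only [mem_insert, mem_singleton]
    constructor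
    · intro hv
      rcases h1.mem_or hv with h' | h' | h'
      · simp only [mem_insert, mem_singleton] at h'
        tauto
      · have := mA v h'; tauto
      · have := mB v h'; tauto
    · intro hv
      have hSV : ∀ w, w = x ∨ w = y ∨ w = s₁ ∨ w = s₂ ∨ w = t → w ∈ VS G := by
        intro w hw
        exact h1.subS (by simp only [mem_insert, mem_singleton]; exact hw)
      rcases hv with e | e | e | e | e | e | e | e | e
      · exact hSV v (by tauto)
      · exact hSV v (by tauto)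
      · exact hSV v (by tauto)
      · exact hSV v (by tauto)
      · exact e ▸ h1.subP h.a3
      · exact e ▸ h1.subQ h.b4
      · exact hSV v (by tauto)
      · exact e ▸ h1.subP hcA
      · exact e ▸ h1.subQ hdB
  · refine deg4 h.k48.1 s1V fun w hw => ?_
    rcases nb_of h2 k1 hw with h' | h'
    · rcases hTm w h' with e | e | e | e
      · exact absurd rfl (nxw s₁ (e ▸ hw.symm)).1
      · exact Or.inl e
      · tauto
      · tauto
    · rcases mX w h' with e | e
      · exact absurd e hw.ne'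
      · tauto
  · refine deg4 h.k48.1 (h2.subP k2) fun w hw => ?_
    rcases nb_of h2 k2 hw with h' | h'
    · rcases hTm w h' with e | e | e | e
      · exact Or.inl e
      · exact absurd rfl (nyw s₂ (e ▸ hw.symm)).1
      · tauto
      · tauto
    · rcases mX w h' with e | e
      · tauto
      · exact absurd e hw.ne'
  · refine deg4 h.k48.1 (h1.subP h.a3) fun w hw => ?_
    rcases nb_of h1 h.a3 hw with h' | h'
    · simp only [mem_insert, mem_singleton] at h'
      rcases h' with e | e | e | e | e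
      · tauto
      · tauto
      · exact absurd (e ▸ hw.symm) h.e4.1
      · exact absurd (e ▸ hw.symm) h.e4.2.2.1
      · tauto
    · rcases mA w h' with e | e
      · exact absurd e hw.ne'
      · tauto
  · refine deg4 h.k48.1 (h1.subQ h.b4) fun w hw => ?_
    rcases nb_of h1.symm h.b4 hw with h' | h'
    · simp only [mem_insert, mem_singleton] at h'
      rcases h' with e | e | e | e | e
      · tauto
      · tauto
      · exact absurd (e ▸ hw.symm) h.e4.2.1
      · exact absurd (e ▸ hw.symm) h.e4.2.2.2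
      · tauto
    · rcases mB w h' with e | e
      · exact absurd e hw.ne'
      · tauto
  · refine deg4 h.k48.1 htV fun w hw => ?_
    rcases nb_of h2.symm htY hw with h' | h'
    · rcases hTm w h' with e | e | e | e
      · exact absurd rfl (nxw t (e ▸ hw.symm)).2.1
      · exact absurd rfl (nyw t (e ▸ hw.symm)).2.1
      · tauto
      · tauto
    · rcases mY w h' with e | e | e
      · tauto
      · tauto
      · exact absurd e hw.ne'
  · refine deg4 h.k48.1 (h1.subP hcA) fun w hw => ?_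
    rcases nb_of h1 hcA hw with h' | h'
    · simp only [mem_insert, mem_singleton] at h'
      rcases h' with e | e | e | e | e
      · exact absurd rfl (nxw c (e ▸ hw.symm)).2.2.1
      · exact absurd rfl (nyw c (e ▸ hw.symm)).2.2.1
      · tauto
      · tauto
      · tauto
    · rcases mA w h' with e | e
      · tauto
      · exact absurd e hw.ne'
  · refine deg4 h.k48.1 (h1.subQ hdB) fun w hw => ?_
    rcases nb_of h1.symm hdB hw with h' | h'
    · simp only [mem_insert, mem_singleton] at h'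
      rcases h' with e | e | e | e | e
      · exact absurd rfl (nxw d (e ▸ hw.symm)).2.2.2
      · exact absurd rfl (nyw d (e ▸ hw.symm)).2.2.2
      · tauto
      · tauto
      · tauto
    · rcases mB w h' with e | e
      · tauto
      · exact absurd e hw.ne'

end XMAM

open XMAM in
theorem specXMA (hFRG : SpecFRG) : SpecXMA := by
  intro α _ _ G x y s₁ s₂ s₃ s₄ t A B T X Y h h2 h4 hxT hyT hX hY
  have hp := h.p33
  obtain ⟨nxy, nx1, nx2, nx3, nx4, ny1, ny2, ny3, ny4, n12, n13, n14, n23, n24, n34⟩ := nes hp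
  have key : ∀ {X Y : Finset α}, Sep G T X Y → 2 ≤ X.card →
      (s₂ ∈ X ∨ s₃ ∈ X ∨ s₄ ∈ X) ∧ (s₁ ∈ X ∨ s₃ ∈ X ∨ s₄ ∈ X) ∧ (s₁ ∈ X ∨ s₂ ∈ X ∨ s₄ ∈ X) ∧
      (s₁ ∈ X ∨ s₂ ∈ X ∨ s₃ ∈ X) := by
    intro X Y h2 hX
    have k := two hFRG h.k48.1 hp h2 h4 hxT hyT hX
    refine ⟨?_, ?_, ?_, ?_⟩
    · obtain ⟨v, hv, hv', e⟩ := k s₁ nx1
      rcases e with rfl | rfl | rfl | rfl <;> tauto
    · obtain ⟨v, hv, hv', e⟩ := k s₂ nx2
      rcases e with rfl | rfl | rfl | rfl <;> tauto
    · obtain ⟨v, hv, hv', e⟩ := k s₃ nx3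
      rcases e with rfl | rfl | rfl | rfl <;> tauto
    · obtain ⟨v, hv, hv', e⟩ := k s₄ nx4
      rcases e with rfl | rfl | rfl | rfl <;> tauto
  obtain ⟨a1, a2, a3, a4⟩ := key h2 hX
  obtain ⟨b1, b2, b3, b4⟩ := key h2.symm hY
  have d1 : s₁ ∈ X → s₁ ∉ Y := fun h' h'' => AB h2 h' h''
  have d2 : s₂ ∈ X → s₂ ∉ Y := fun h' h'' => AB h2 h' h''
  have d3 : s₃ ∈ X → s₃ ∉ Y := fun h' h'' => AB h2 h' h''
  have d4 : s₄ ∈ X → s₄ ∉ Y := fun h' h'' => AB h2 h' h''
  have hcases : (s₁ ∈ X ∧ s₂ ∈ X ∧ s₃ ∈ Y ∧ s₄ ∈ Y) ∨ (s₁ ∈ Y ∧ s₂ ∈ Y ∧ s₃ ∈ X ∧ s₄ ∈ X) ∨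
      (s₁ ∈ X ∧ s₃ ∈ X ∧ s₂ ∈ Y ∧ s₄ ∈ Y) ∨ (s₁ ∈ Y ∧ s₃ ∈ Y ∧ s₂ ∈ X ∧ s₄ ∈ X) ∨
      (s₁ ∈ X ∧ s₄ ∈ X ∧ s₂ ∈ Y ∧ s₃ ∈ Y) ∨ (s₁ ∈ Y ∧ s₄ ∈ Y ∧ s₂ ∈ X ∧ s₃ ∈ X) := by
    clear key h hp h2 nxy nx1 nx2 nx3 nx4 ny1 ny2 ny3 ny4 n12 n13 n14 n23 n24 n34
    generalize (s₁ ∈ X) = p1 at *
    generalize (s₂ ∈ X) = p2 at *
    generalize (s₃ ∈ X) = p3 at *
    generalize (s₄ ∈ X) = p4 at *
    generalize (s₁ ∈ Y) = q1 at *
    generalize (s₂ ∈ Y) = q2 at *
    generalize (s₃ ∈ Y) = q3 at *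
    generalize (s₄ ∈ Y) = q4 at *
    by_cases p1 <;> by_cases p2 <;> by_cases p3 <;> by_cases p4 <;> simp_all
  rcases hcases with ⟨k1, k2, k3, k4⟩ | ⟨k1, k2, k3, k4⟩ | ⟨k1, k3, k2, k4⟩ | ⟨k1, k3, k2, k4⟩ |
    ⟨k1, k4, k2, k3⟩ | ⟨k1, k4, k2, k3⟩
  · exact case1 hFRG h h2 h4 hxT hyT k1 k2 k3 k4
  · exact case1 hFRG h h2.symm h4 hxT hyT k1 k2 k3 k4
  · exact (case2 hFRG h h2 h4 hxT hyT k1 k3 k2 k4).elim
  · exact (case2 hFRG h h2.symm h4 hxT hyT k1 k3 k2 k4).elim
  · exact (case2 hFRG h.sym h2 h4 hxT hyT k1 k4 k2 k3).elim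
  · exact (case2 hFRG h.sym h2.symm h4 hxT hyT k1 k4 k2 k3).elim

end DL
end

section
/-!
# MP_3ff0f8_gt, row 186, module XQ1: case 2.1
-/
open SimpleGraph Finset

namespace DL

theorem specXQ1 (hXMC : SpecXMC) (hXM3 : SpecXM3) (hMNP : SpecMNP) (hXU1 : SpecXU1) (hXK1 : SpecXK1)
    (hC20 : SpecC20) (hF1N : SpecF1N) (hDST : SpecDST) : SpecXQ1 := by
  intro α _ _ G x y s₁ s₂ s₃ s₄ hS hP hE
  have h48 := hS.k48
  obtain ⟨c1, c2, -, -⟩ := hC20.c1 h48 hP
  have hxs : G.Adj x s₂ := (hP.nx s₂).2 (Or.inr (Or.inl rfl))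
  have hys : G.Adj y s₁ := (hP.ny s₁).2 (Or.inr (Or.inl rfl))
  have np1 := (hF1N h48 hP hS.np).1
  have np2 := (hF1N h48 hP.sym1 hS.np).1
  have ok1 := hS.ih _ (hDST.sz2 hxs) c1 np1
  have ok2 := hS.ih _ (hDST.sz2 hys) c2 np2
  have hx : x ∈ VS G := mem_VS.2 ⟨_, hxs⟩
  have nd := hP.nd
  simp only [List.nodup_cons, List.mem_cons, List.not_mem_nil, or_false, not_or, List.nodup_nil, and_true,
    not_false_eq_true] at nd
  have hK : KZ (contr (contr G x s₂) y s₁) := by
    rcases hXMC hS hP hE with h | ⟨t, c, d, h⟩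
    · have hnp := hMNP h48 hP hE hS.np fun hr => (hS.rig x hx hr).2
      have hadj : (contr G x s₂).Adj y s₁ :=
        contr_adj_of_adj hys (by tauto) (by tauto)
      exact (hS.ih _ ((hDST.sz2 hadj).trans (hDST.sz2 hxs)) h hnp).2
    · exact hXM3.k h
  exact ⟨hXU1 h48 hP hE ok1.1 ok2.1 hK, hXK1 h48 hS.np hS.ih hP hE⟩

end DL
end
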