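import Pool.Agent.DL.E.Spec2
import Pool.Agent.DL.MENG
import Pool.Agent.DL.PC2
import Pool.Agent.DL.G4.C20
import Pool.Agent.DL.NP.TRC

section
/-!
# MP_3ff0f8_gt, algebra half, module XL1 (helper98): (K1), (K1')
-/
set_option autoImplicit false
set_option linter.unusedSectionVars false

open SimpleGraph Finset

namespace DL

namespace XL1M

variable {α : Type} [Fintype α] [DecidableEq α] {G : SimpleGraph α}

/-- the tree path of a path-tree -/
theorem tp_sub (hTRE : SpecTRE) {u w v v' : α} {P Q : Finset (Sym2 α)} (hP : IsPth G u w P)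
    (hQ : IsPth G v v' Q) (hQP : Q ⊆ P) (hv : v ∈ insert u (vs P)) (hv' : v' ∈ insert u (vs P)) :
    tp (fromEdgeSet (P : Set (Sym2 α))) v v' = Q := by
  refine ((hTRE.tp (hTRE.pth hP).1 v hv v' hv').2 Q (hQ.transfer fun e he => ?_)).symm
  have h1 := hP.not_isDiag e (hQP he)
  rw [edgeSet_fromEdgeSet, Set.mem_sdiff]
  exact ⟨hQP he, h1⟩

/-- a `D_4` minor given by four paths -/
def mk4 (hTRE : SpecTRE) (u w : Fin 4 → α) (P : Fin 4 → Finset (Sym2 α))
    (hP : ∀ i, IsPth G (u i) (w i) (P i))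
    (hd : ∀ i j, i ≠ j → Disjoint (insert (u i) (vs (P i))) (insert (u j) (vs (P j))))
    (p q : Fin 4 → Bool → α) (pX : ∀ i b, p i b ∈ insert (u i) (vs (P i)))
    (qX : ∀ i b, q i b ∈ insert (u (i + 1)) (vs (P (i + 1))))
    (adj : ∀ i b, G.Adj (p i b) (q i b))
    (ne : ∀ i, s(p i false, q i false) ≠ s(p i true, q i true)) : D4M G where
  X i := insert (u i) (vs (P i))
  disj := hd
  T i := fromEdgeSet (P i : Set (Sym2 α))
  sub i := by
    intro a b hab
    rw [fromEdgeSet_adj] at hab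
    exact (hP i).adj_of_mem hab.1
  inX i v w h := ((hTRE.pth (hP i)).1).inX v w h
  conn i := ((hTRE.pth (hP i)).1).conn
  acyc i := ((hTRE.pth (hP i)).1).acyc
  p := p
  q := q
  pX := pX
  qX := qX
  adj := adj
  ne := ne

theorem cyc_eq (D : D4M G) (e : Fin 4 → Bool) :
    D.cyc e = {s(D.p 0 (e 0), D.q 0 (e 0)), s(D.p 1 (e 1), D.q 1 (e 1)),
      s(D.p 2 (e 2), D.q 2 (e 2)), s(D.p 3 (e 3), D.q 3 (e 3))} ∪
      (tp (D.T 1) (D.q 0 (e 0)) (D.p 1 (e 1)) ∪ tp (D.T 2) (D.q 1 (e 1)) (D.p 2 (e 2)) ∪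
        tp (D.T 3) (D.q 2 (e 2)) (D.p 3 (e 3)) ∪ tp (D.T 0) (D.q 3 (e 3)) (D.p 0 (e 0))) := by
  ext z
  simp only [D4M.cyc, mem_union, mem_image, mem_univ, true_and, mem_biUnion, mem_insert,
    mem_singleton]
  constructor
  · rintro (⟨i, rfl⟩ | ⟨i, hi⟩)
    · fin_cases i <;> simp
    · fin_cases i <;> simp at hi <;> simp [hi]
  · rintro ((rfl | rfl | rfl | rfl) | (((h | h) | h) | h))
    · exact Or.inl ⟨0, rfl⟩
    · exact Or.inl ⟨1, rfl⟩
    · exact Or.inl ⟨2, rfl⟩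
    · exact Or.inl ⟨3, rfl⟩
    · exact Or.inr ⟨0, h⟩
    · exact Or.inr ⟨1, h⟩
    · exact Or.inr ⟨2, h⟩
    · exact Or.inr ⟨3, h⟩

/-- the configuration of the ear -/
structure Ear (G : SimpleGraph α) (x y t p s₁ s₄ q p0 a' b' r' : α)
    (A₁ A₂ B₁ B₂ R : Finset (Sym2 α)) : Prop where
  nd : [x, y, t, p, s₁, s₄].Nodup
  xt : G.Adj x t
  xp : G.Adj x p
  x4 : G.Adj x s₄
  xy : G.Adj x y
  y1 : G.Adj y s₁
  y4 : G.Adj y s₄
  tp' : G.Adj t p
  a1 : IsPth G p q A₁
  a2 : IsPth G a' s₁ A₂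
  b1 : IsPth G s₁ p0 B₁
  b2 : IsPth G b' s₄ B₂
  r : IsPth G r' p0 R
  qa : G.Adj q a'
  pb : G.Adj p0 b'
  qr : G.Adj q r'
  /-- vertices -/
  va1 : ∀ v ∈ insert p (vs A₁), v ≠ x ∧ v ≠ y ∧ v ≠ t ∧ v ≠ s₁ ∧ v ≠ s₄
  va2 : ∀ v ∈ insert a' (vs A₂), v ≠ x ∧ v ≠ y ∧ v ≠ t ∧ v ≠ s₄
  vb1 : ∀ v ∈ insert s₁ (vs B₁), v ≠ x ∧ v ≠ y ∧ v ≠ t ∧ v ≠ s₄
  vb2 : ∀ v ∈ insert b' (vs B₂), v ≠ x ∧ v ≠ y ∧ v ≠ t ∧ v ≠ s₁
  vr : ∀ v ∈ insert r' (vs R), v ≠ x ∧ v ≠ y ∧ v ≠ t ∧ v ≠ s₁ ∧ v ≠ s₄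
  a1a2 : Disjoint (insert p (vs A₁)) (insert a' (vs A₂))
  a1b1 : Disjoint (insert p (vs A₁)) (insert s₁ (vs B₁))
  a1b2 : Disjoint (insert p (vs A₁)) (insert b' (vs B₂))
  a1r : Disjoint (insert p (vs A₁)) (insert r' (vs R))
  a2b1 : ∀ v ∈ insert a' (vs A₂), v ∈ insert s₁ (vs B₁) → v = s₁
  a2b2 : Disjoint (insert a' (vs A₂)) (insert b' (vs B₂))
  a2r : Disjoint (insert a' (vs A₂)) (insert r' (vs R))
  b1b2 : Disjoint (insert s₁ (vs B₁)) (insert b' (vs B₂))
  b1r : ∀ v ∈ insert s₁ (vs B₁), v ∈ insert r' (vs R) → v = p0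
  b2r : Disjoint (insert b' (vs B₂)) (insert r' (vs R))
  p01 : p0 ≠ s₁

theorem set_eq {β : Type} [DecidableEq β] (e1 e2 e3 e4 e5 e6 : β) (A₁ A₂ B₁ B₂ : Finset β) :
    ({e1, e2, e3, e4} : Finset β) ∪ (A₁ ∪ (A₂ ∪ B₁) ∪ insert e5 B₂ ∪ {e6}) =
      {e5, e4, e6, e1} ∪ (A₁ ∪ insert e2 A₂) ∪ (B₁ ∪ insert e3 B₂) := by
  ext z
  simp only [mem_union, mem_insert, mem_singleton]
  grind

/-- the four cycles with zero value: everything but one -/
theorem core (hTRE : SpecTRE) (hDCB : SpecDCB) {x y t p s₁ s₄ q p0 a' b' r' : α}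
    {A₁ A₂ B₁ B₂ R : Finset (Sym2 α)} (h : Ear G x y t p s₁ s₄ q p0 a' b' r' A₁ A₂ B₁ B₂ R)
    {f : Finset (Sym2 α) → ZMod 2} (hf : D4even G f)
    (zh : ∀ C, IsCyc G C → s(t, p) ∉ C → f C = 0) (ze : ∀ C, CycM G y s₁ C → f C = 0) :
    f ({s(s₄, y), s(y, x), s(x, t), s(t, p)} ∪ (A₁ ∪ insert s(q, a') A₂) ∪
      (B₁ ∪ insert s(p0, b') B₂)) = 0 := by
  have hnd := h.nd
  simp only [List.nodup_cons, List.mem_cons, List.not_mem_nil, or_false, not_or, List.nodup_nil,
    and_true, not_false_eq_true] at hnd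
  obtain ⟨⟨nxy, nxt, nxp, nx1, nx4⟩, ⟨nyt, nyp, ny1, ny4⟩, ⟨ntp, nt1, nt4⟩, ⟨np1, np4⟩, n14⟩ := hnd
  -- the four paths
  have P0 : IsPth G x t {s(x, t)} := IsPth.edge h.xt
  have PR1 : IsPth G r' s₁ (R ∪ B₁) := by
    refine h.r.append h.b1.symm fun v hv => ?_
    rw [mem_inter] at hv
    rw [mem_singleton]
    exact h.b1r v (mem_insert_of_mem hv.2) (mem_insert_of_mem hv.1)
  have P2 : IsPth G r' a' (R ∪ B₁ ∪ A₂) := by
    refine PR1.append h.a2.symm fun v hv => ?_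
    rw [mem_inter, mem_vs_union] at hv
    rw [mem_singleton]
    rcases hv.1 with h1 | h1
    · exact absurd (mem_insert_of_mem h1)
        (Finset.disjoint_left.1 h.a2r (mem_insert_of_mem hv.2))
    · exact h.a2b1 v (mem_insert_of_mem hv.2) (mem_insert_of_mem h1)
  have PA : IsPth G a' p0 (A₂ ∪ B₁) := by
    refine h.a2.append h.b1 fun v hv => ?_
    rw [mem_inter] at hv
    rw [mem_singleton]
    exact h.a2b1 v (mem_insert_of_mem hv.1) (mem_insert_of_mem hv.2)
  have P3 : IsPth G y b' (insert s(y, s₄) B₂) :=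
    h.b2.symm.cons h.y4 fun hy => (h.vb2 y (mem_insert_of_mem hy)).2.1 rfl
  have PB : IsPth G b' y (insert s(y, s₄) B₂) := P3.symm
  have hs1B : s₁ ∈ vs B₁ := h.b1.left_mem h.p01.symm
  have hp0B : p0 ∈ vs B₁ := h.b1.right_mem h.p01.symm
  -- membership
  have mr' : r' ∈ insert r' (vs (R ∪ B₁ ∪ A₂)) := mem_insert_self _ _
  have ma' : a' ∈ insert r' (vs (R ∪ B₁ ∪ A₂)) := P2.end_mem
  have ms1 : s₁ ∈ insert r' (vs (R ∪ B₁ ∪ A₂)) := mem_insert_of_mem (by
    rw [mem_vs_union, mem_vs_union]; exact Or.inl (Or.inr hs1B))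
  have mp0 : p0 ∈ insert r' (vs (R ∪ B₁ ∪ A₂)) := mem_insert_of_mem (by
    rw [mem_vs_union, mem_vs_union]; exact Or.inl (Or.inr hp0B))
  have my : y ∈ insert y (vs (insert s(y, s₄) B₂)) := mem_insert_self _ _
  have ms4 : s₄ ∈ insert y (vs (insert s(y, s₄) B₂)) := mem_insert_of_mem (by
    rw [vs_insert]; simp)
  have mb' : b' ∈ insert y (vs (insert s(y, s₄) B₂)) := P3.end_mem
  have mx : x ∈ insert x (vs {s(x, t)}) := mem_insert_self _ _
  have mt : t ∈ insert x (vs {s(x, t)}) := P0.end_mem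
  have mp : p ∈ insert p (vs A₁) := mem_insert_self _ _
  have mq : q ∈ insert p (vs A₁) := h.a1.end_mem
  -- vertices of the sets
  have w0 : ∀ v ∈ insert x (vs {s(x, t)}), v = x ∨ v = t := by
    intro v hv
    rw [vs_singleton, mem_insert, mem_insert, mem_singleton] at hv
    tauto
  have w2 : ∀ v ∈ insert r' (vs (R ∪ B₁ ∪ A₂)), v ∈ insert r' (vs R) ∨ v ∈ insert s₁ (vs B₁) ∨
      v ∈ insert a' (vs A₂) := by
    intro v hv
    rw [mem_insert, mem_vs_union, mem_vs_union] at hv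
    rcases hv with hv | (hv | hv) | hv
    · exact Or.inl (by rw [hv]; exact mem_insert_self _ _)
    · exact Or.inl (mem_insert_of_mem hv)
    · exact Or.inr (Or.inl (mem_insert_of_mem hv))
    · exact Or.inr (Or.inr (mem_insert_of_mem hv))
  have w3 : ∀ v ∈ insert y (vs (insert s(y, s₄) B₂)), v = y ∨ v = s₄ ∨ v ∈ insert b' (vs B₂) := by
    intro v hv
    rw [mem_insert, vs_insert, mem_union, mem_insert, mem_singleton] at hv
    rcases hv with hv | (hv | hv) | hv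
    · exact Or.inl hv
    · exact Or.inl hv
    · exact Or.inr (Or.inl hv)
    · exact Or.inr (Or.inr (mem_insert_of_mem hv))
  have w2' : ∀ v ∈ insert r' (vs (R ∪ B₁ ∪ A₂)), v ≠ x ∧ v ≠ y ∧ v ≠ t ∧ v ≠ s₄ := by
    intro v hv
    rcases w2 v hv with h1 | h1 | h1
    · exact ⟨(h.vr v h1).1, (h.vr v h1).2.1, (h.vr v h1).2.2.1, (h.vr v h1).2.2.2.2⟩
    · exact h.vb1 v h1
    · exact h.va2 v h1
  have d01 : Disjoint (insert x (vs {s(x, t)})) (insert p (vs A₁)) := by
    rw [Finset.disjoint_left]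
    intro v hv hv'
    rcases w0 v hv with h1 | h1
    · exact (h.va1 v hv').1 h1
    · exact (h.va1 v hv').2.2.1 h1
  have d02 : Disjoint (insert x (vs {s(x, t)})) (insert r' (vs (R ∪ B₁ ∪ A₂))) := by
    rw [Finset.disjoint_left]
    intro v hv hv'
    rcases w0 v hv with h1 | h1
    · exact (w2' v hv').1 h1
    · exact (w2' v hv').2.2.1 h1
  have d03 : Disjoint (insert x (vs {s(x, t)})) (insert y (vs (insert s(y, s₄) B₂))) := by
    rw [Finset.disjoint_left]
    intro v hv hv'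
    rcases w0 v hv with h1 | h1 <;> rcases w3 v hv' with h2 | h2 | h2
    · exact nxy (h1.symm.trans h2)
    · exact nx4 (h1.symm.trans h2)
    · exact (h.vb2 v h2).1 h1
    · exact nyt (h2.symm.trans h1)
    · exact nt4 (h1.symm.trans h2)
    · exact (h.vb2 v h2).2.2.1 h1
  have d12 : Disjoint (insert p (vs A₁)) (insert r' (vs (R ∪ B₁ ∪ A₂))) := by
    rw [Finset.disjoint_left]
    intro v hv hv'
    rcases w2 v hv' with h1 | h1 | h1
    · exact Finset.disjoint_left.1 h.a1r hv h1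
    · exact Finset.disjoint_left.1 h.a1b1 hv h1
    · exact Finset.disjoint_left.1 h.a1a2 hv h1
  have d13 : Disjoint (insert p (vs A₁)) (insert y (vs (insert s(y, s₄) B₂))) := by
    rw [Finset.disjoint_left]
    intro v hv hv'
    rcases w3 v hv' with h1 | h1 | h1
    · exact (h.va1 v hv).2.1 h1
    · exact (h.va1 v hv).2.2.2.2 h1
    · exact Finset.disjoint_left.1 h.a1b2 hv h1
  have d23 : Disjoint (insert r' (vs (R ∪ B₁ ∪ A₂))) (insert y (vs (insert s(y, s₄) B₂))) := by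
    rw [Finset.disjoint_left]
    intro v hv hv'
    rcases w3 v hv' with h1 | h1 | h1
    · exact (w2' v hv).2.1 h1
    · exact (w2' v hv).2.2.2 h1
    · rcases w2 v hv with h2 | h2 | h2
      · exact Finset.disjoint_left.1 h.b2r h1 h2
      · exact Finset.disjoint_left.1 h.b1b2 h2 h1
      · exact Finset.disjoint_left.1 h.a2b2 h2 h1
  -- the minor
  let u : Fin 4 → α := ![x, p, r', y]
  let w : Fin 4 → α := ![t, q, a', b']
  let P : Fin 4 → Finset (Sym2 α) := ![{s(x, t)}, A₁, R ∪ B₁ ∪ A₂, insert s(y, s₄) B₂]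
  let pp : Fin 4 → Bool → α := ![fun b => cond b t x, fun _ => q, fun b => cond b p0 s₁,
    fun b => cond b y s₄]
  let qq : Fin 4 → Bool → α := ![fun _ => p, fun b => cond b a' r', fun b => cond b b' y, fun _ => x]
  have hP : ∀ i, IsPth G (u i) (w i) (P i) := by
    intro i
    fin_cases i
    · exact P0
    · exact h.a1
    · exact P2
    · exact P3
  have hd : ∀ i j, i ≠ j → Disjoint (insert (u i) (vs (P i))) (insert (u j) (vs (P j))) := by
    intro i j hij
    fin_cases i <;> fin_cases j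
    · exact absurd rfl hij
    · exact d01
    · exact d02
    · exact d03
    · exact d01.symm
    · exact absurd rfl hij
    · exact d12
    · exact d13
    · exact d02.symm
    · exact d12.symm
    · exact absurd rfl hij
    · exact d23
    · exact d03.symm
    · exact d13.symm
    · exact d23.symm
    · exact absurd rfl hij
  have pX : ∀ i b, pp i b ∈ insert (u i) (vs (P i)) := by
    intro i b
    fin_cases i <;> cases b
    · exact mx
    · exact mt
    · exact mq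
    · exact mq
    · exact ms1
    · exact mp0
    · exact ms4
    · exact my
  have qX : ∀ i b, qq i b ∈ insert (u (i + 1)) (vs (P (i + 1))) := by
    intro i b
    fin_cases i <;> cases b
    · exact mp
    · exact mp
    · exact mr'
    · exact ma'
    · exact my
    · exact mb'
    · exact mx
    · exact mx
  have adj : ∀ i b, G.Adj (pp i b) (qq i b) := by
    intro i b
    fin_cases i <;> cases b
    · exact h.xp
    · exact h.tp'
    · exact h.qr
    · exact h.qa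
    · exact h.y1.symm
    · exact h.pb
    · exact h.x4.symm
    · exact h.xy.symm
  have ne : ∀ i, s(pp i false, qq i false) ≠ s(pp i true, qq i true) := by
    intro i
    fin_cases i
    · show s(x, p) ≠ s(t, p)
      rw [Ne, Sym2.eq_iff]
      rintro (⟨h1, _⟩ | ⟨h1, _⟩)
      · exact nxt h1
      · exact nxp h1
    · show s(q, r') ≠ s(q, a')
      rw [Ne, Sym2.eq_iff]
      rintro (⟨_, h1⟩ | ⟨h1, _⟩)
      · exact Finset.disjoint_left.1 h.a2r (mem_insert_self a' _)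
          (by rw [← h1]; exact mem_insert_self _ _)
      · exact h.qa.ne h1
    · show s(s₁, y) ≠ s(p0, b')
      rw [Ne, Sym2.eq_iff]
      rintro (⟨h1, _⟩ | ⟨h1, _⟩)
      · exact h.p01 h1.symm
      · exact (h.vb2 b' (mem_insert_self _ _)).2.2.2 h1.symm
    · show s(s₄, x) ≠ s(y, x)
      rw [Ne, Sym2.eq_iff]
      rintro (⟨h1, _⟩ | ⟨h1, _⟩)
      · exact ny4 h1.symm
      · exact nx4 h1.symm
  let D : D4M G := mk4 hTRE u w P hP hd pp qq pX qX adj ne
  have hD := hf D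
  -- the tree paths
  have t1 : tp (D.T 1) p q = A₁ := tp_sub hTRE h.a1 h.a1 (Subset.refl _) mp mq
  have t2ff : tp (D.T 2) r' s₁ = R ∪ B₁ := tp_sub hTRE P2 PR1 subset_union_left mr' ms1
  have t2ft : tp (D.T 2) r' p0 = R :=
    tp_sub hTRE P2 h.r (subset_union_left.trans subset_union_left) mr' mp0
  have t2tf : tp (D.T 2) a' s₁ = A₂ := tp_sub hTRE P2 h.a2 subset_union_right ma' ms1
  have t2tt : tp (D.T 2) a' p0 = A₂ ∪ B₁ := by
    refine tp_sub hTRE P2 PA ?_ ma' mp0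
    exact union_subset subset_union_right (subset_union_right.trans subset_union_left)
  have t3ff : tp (D.T 3) y s₄ = {s(y, s₄)} := by
    refine tp_sub hTRE P3 (IsPth.edge h.y4) ?_ my ms4
    rw [singleton_subset_iff]; exact mem_insert_self _ _
  have t3ft : tp (D.T 3) y y = ∅ := tp_sub hTRE P3 (IsPth.nil _) (empty_subset _) my my
  have t3tf : tp (D.T 3) b' s₄ = B₂ := tp_sub hTRE P3 h.b2 (subset_insert _ _) mb' ms4
  have t3tt : tp (D.T 3) b' y = insert s(y, s₄) B₂ :=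
    tp_sub hTRE P3 PB (Subset.refl _) mb' my
  have t0f : tp (D.T 0) x x = ∅ := tp_sub hTRE P0 (IsPth.nil _) (empty_subset _) mx mx
  have t0t : tp (D.T 0) x t = {s(x, t)} := tp_sub hTRE P0 P0 (Subset.refl _) mx mt
  have hcyc : ∀ e, D.cyc e = {s(pp 0 (e 0), p), s(q, qq 1 (e 1)), s(pp 2 (e 2), qq 2 (e 2)),
      s(pp 3 (e 3), x)} ∪ (A₁ ∪ tp (D.T 2) (qq 1 (e 1)) (pp 2 (e 2)) ∪
        tp (D.T 3) (qq 2 (e 2)) (pp 3 (e 3)) ∪ tp (D.T 0) x (pp 0 (e 0))) := by
    intro e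
    rw [cyc_eq, ← t1]
    rfl
  have hvs : ∀ e v, v ∈ vs (D.cyc e) → v = pp 0 (e 0) ∨ v = p ∨ v = q ∨ v = qq 1 (e 1) ∨
      v = pp 2 (e 2) ∨ v = qq 2 (e 2) ∨ v = pp 3 (e 3) ∨ v = x ∨ v ∈ vs A₁ ∨
      v ∈ vs (tp (D.T 2) (qq 1 (e 1)) (pp 2 (e 2))) ∨
      v ∈ vs (tp (D.T 3) (qq 2 (e 2)) (pp 3 (e 3))) ∨ v ∈ vs (tp (D.T 0) x (pp 0 (e 0))) := by
    intro e v hv
    rw [hcyc, mem_vs_union, mem_vs_union, mem_vs_union, mem_vs_union, vs_insert, vs_insert,
      vs_insert, vs_singleton] at hv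
    simp only [mem_union, mem_insert, mem_singleton, or_assoc] at hv
    exact hv
  have c1 : ∀ e, e 2 = false → f (D.cyc e) = 0 := by
    intro e he
    refine ze _ ⟨(hDCB.cyc D e).1, fun _ _ => ?_⟩
    have h1 : pp 2 (e 2) = s₁ := by rw [he]; rfl
    have h2 : qq 2 (e 2) = y := by rw [he]; rfl
    rw [hcyc, h1, h2, mem_union]
    left
    simp only [mem_insert, mem_singleton]
    right; right; left
    exact Sym2.eq_swap
  have nq : q ≠ x ∧ q ≠ y ∧ q ≠ t ∧ q ≠ s₁ ∧ q ≠ s₄ := h.va1 q mq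
  have nr : r' ≠ x ∧ r' ≠ y ∧ r' ≠ t ∧ r' ≠ s₁ ∧ r' ≠ s₄ := h.vr r' (mem_insert_self _ _)
  have nb : b' ≠ x ∧ b' ≠ y ∧ b' ≠ t ∧ b' ≠ s₁ := h.vb2 b' (mem_insert_self _ _)
  have na : a' ≠ x ∧ a' ≠ y ∧ a' ≠ t ∧ a' ≠ s₄ := h.va2 a' (mem_insert_self _ _)
  have n0 : p0 ≠ x ∧ p0 ≠ y ∧ p0 ≠ t ∧ p0 ≠ s₄ := h.vb1 p0 (mem_insert_of_mem hp0B)
  have c2 : ∀ e, e 2 = true → e 1 = false → f (D.cyc e) = 0 := by
    intro e he he1
    refine ze _ ⟨(hDCB.cyc D e).1, fun _ hs => ?_⟩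
    exfalso
    have h1 : pp 2 (e 2) = p0 := by rw [he]; rfl
    have h2 : qq 2 (e 2) = b' := by rw [he]; rfl
    have h3 : qq 1 (e 1) = r' := by rw [he1]; rfl
    have hv := hvs e s₁ hs
    rw [h1, h2, h3, t2ft] at hv
    rcases hv with hv | hv | hv | hv | hv | hv | hv | hv | hv | hv | hv | hv
    · rcases Bool.eq_false_or_eq_true (e 0) with h4 | h4 <;> rw [h4] at hv
      · exact nt1 hv.symm
      · exact nx1 hv.symm
    · exact np1 hv.symm
    · exact nq.2.2.2.1 hv.symm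
    · exact nr.2.2.2.1 hv.symm
    · exact h.p01 hv.symm
    · exact nb.2.2.2 hv.symm
    · rcases Bool.eq_false_or_eq_true (e 3) with h4 | h4 <;> rw [h4] at hv
      · exact ny1 hv.symm
      · exact n14 hv
    · exact nx1 hv.symm
    · exact (h.va1 s₁ (mem_insert_of_mem hv)).2.2.2.1 rfl
    · exact (h.vr s₁ (mem_insert_of_mem hv)).2.2.2.1 rfl
    · have h5 : vs (tp (D.T 3) b' (pp 3 (e 3))) ⊆ vs (insert s(y, s₄) B₂) := by
        rcases Bool.eq_false_or_eq_true (e 3) with h4 | h4 <;> rw [h4]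
        · exact (congrArg vs t3tt).subset
        · exact (congrArg vs t3tf).subset.trans (vs_mono (subset_insert _ _))
      rcases w3 s₁ (mem_insert_of_mem (h5 hv)) with h6 | h6 | h6
      · exact ny1 h6.symm
      · exact n14 h6
      · exact (h.vb2 s₁ h6).2.2.2 rfl
    · have h5 : vs (tp (D.T 0) x (pp 0 (e 0))) ⊆ vs {s(x, t)} := by
        rcases Bool.eq_false_or_eq_true (e 0) with h4 | h4 <;> rw [h4]
        · exact (congrArg vs t0t).subset
        · exact (congrArg vs t0f).subset.trans (vs_mono (empty_subset _))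
      rcases w0 s₁ (mem_insert_of_mem (h5 hv)) with h6 | h6
      · exact nx1 h6.symm
      · exact nt1 h6.symm
  have c3 : ∀ e, e 2 = true → e 3 = false → f (D.cyc e) = 0 := by
    intro e he he3
    refine ze _ ⟨(hDCB.cyc D e).1, fun hy _ => ?_⟩
    exfalso
    have h1 : pp 2 (e 2) = p0 := by rw [he]; rfl
    have h2 : qq 2 (e 2) = b' := by rw [he]; rfl
    have h3 : pp 3 (e 3) = s₄ := by rw [he3]; rfl
    have hv := hvs e y hy
    rw [h1, h2, h3, t3tf] at hv
    rcases hv with hv | hv | hv | hv | hv | hv | hv | hv | hv | hv | hv | hv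
    · rcases Bool.eq_false_or_eq_true (e 0) with h4 | h4 <;> rw [h4] at hv
      · exact nyt hv
      · exact nxy hv.symm
    · exact nyp hv
    · exact nq.2.1 hv.symm
    · rcases Bool.eq_false_or_eq_true (e 1) with h4 | h4 <;> rw [h4] at hv
      · exact na.2.1 hv.symm
      · exact nr.2.1 hv.symm
    · exact n0.2.1 hv.symm
    · exact nb.2.1 hv.symm
    · exact ny4 hv
    · exact nxy hv.symm
    · exact (h.va1 y (mem_insert_of_mem hv)).2.1 rfl
    · have h5 : vs (tp (D.T 2) (qq 1 (e 1)) p0) ⊆ vs (R ∪ B₁ ∪ A₂) := by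
        rcases Bool.eq_false_or_eq_true (e 1) with h4 | h4 <;> rw [h4]
        · exact (congrArg vs t2tt).subset.trans (vs_mono (union_subset subset_union_right
            (subset_union_right.trans subset_union_left)))
        · exact (congrArg vs t2ft).subset.trans (vs_mono
            (subset_union_left.trans subset_union_left))
      exact (w2' y (mem_insert_of_mem (h5 hv))).2.1 rfl
    · exact (h.vb2 y (mem_insert_of_mem hv)).2.1 rfl
    · have h5 : vs (tp (D.T 0) x (pp 0 (e 0))) ⊆ vs {s(x, t)} := by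
        rcases Bool.eq_false_or_eq_true (e 0) with h4 | h4 <;> rw [h4]
        · exact (congrArg vs t0t).subset
        · exact (congrArg vs t0f).subset.trans (vs_mono (empty_subset _))
      rcases w0 y (mem_insert_of_mem (h5 hv)) with h6 | h6
      · exact nxy h6.symm
      · exact nyt h6
  have c4 : ∀ e, e 2 = true → e 0 = false → f (D.cyc e) = 0 := by
    intro e he he0
    refine zh _ (hDCB.cyc D e).1 fun ht => ?_
    have h1 : pp 2 (e 2) = p0 := by rw [he]; rfl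
    have h2 : qq 2 (e 2) = b' := by rw [he]; rfl
    have h3 : pp 0 (e 0) = x := by rw [he0]; rfl
    have hv := hvs e t (left_mem_vs ht)
    rw [h1, h2, h3, t0f] at hv
    rcases hv with hv | hv | hv | hv | hv | hv | hv | hv | hv | hv | hv | hv
    · exact nxt hv.symm
    · exact ntp hv
    · exact nq.2.2.1 hv.symm
    · rcases Bool.eq_false_or_eq_true (e 1) with h4 | h4 <;> rw [h4] at hv
      · exact na.2.2.1 hv.symm
      · exact nr.2.2.1 hv.symm
    · exact n0.2.2.1 hv.symm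
    · exact nb.2.2.1 hv.symm
    · rcases Bool.eq_false_or_eq_true (e 3) with h4 | h4 <;> rw [h4] at hv
      · exact nyt hv.symm
      · exact nt4 hv
    · exact nxt hv.symm
    · exact (h.va1 t (mem_insert_of_mem hv)).2.2.1 rfl
    · have h5 : vs (tp (D.T 2) (qq 1 (e 1)) p0) ⊆ vs (R ∪ B₁ ∪ A₂) := by
        rcases Bool.eq_false_or_eq_true (e 1) with h4 | h4 <;> rw [h4]
        · exact (congrArg vs t2tt).subset.trans (vs_mono (union_subset subset_union_right
            (subset_union_right.trans subset_union_left)))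
        · exact (congrArg vs t2ft).subset.trans (vs_mono
            (subset_union_left.trans subset_union_left))
      exact (w2' t (mem_insert_of_mem (h5 hv))).2.2.1 rfl
    · have h5 : vs (tp (D.T 3) b' (pp 3 (e 3))) ⊆ vs (insert s(y, s₄) B₂) := by
        rcases Bool.eq_false_or_eq_true (e 3) with h4 | h4 <;> rw [h4]
        · exact (congrArg vs t3tt).subset
        · exact (congrArg vs t3tf).subset.trans (vs_mono (subset_insert _ _))
      rcases w3 t (mem_insert_of_mem (h5 hv)) with h6 | h6 | h6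
      · exact nyt h6.symm
      · exact nt4 h6
      · exact (h.vb2 t h6).2.2.1 rfl
    · simp at hv
  have hlast : D.cyc (fun _ => true) = {s(s₄, y), s(y, x), s(x, t), s(t, p)} ∪
      (A₁ ∪ insert s(q, a') A₂) ∪ (B₁ ∪ insert s(p0, b') B₂) := by
    have h0 := hcyc (fun _ => true)
    have h1 : D.cyc (fun _ => true) = {s(t, p), s(q, a'), s(p0, b'), s(y, x)} ∪
        (A₁ ∪ tp (D.T 2) a' p0 ∪ tp (D.T 3) b' y ∪ tp (D.T 0) x t) := h0
    rw [h1, t2tt, t3tt, t0t, Sym2.eq_swap (a := s₄) (b := y)]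
    exact set_eq _ _ _ _ _ _ _ _ _ _
  rw [Finset.sum_eq_single (fun _ => true)] at hD
  · rwa [hlast] at hD
  · intro e _ he
    by_cases h2 : e 2 = false
    · exact c1 e h2
    rw [Bool.not_eq_false] at h2
    by_cases h1 : e 1 = false
    · exact c2 e h2 h1
    rw [Bool.not_eq_false] at h1
    by_cases h3 : e 3 = false
    · exact c3 e h2 h3
    rw [Bool.not_eq_false] at h3
    by_cases h4 : e 0 = false
    · exact c4 e h2 h4
    rw [Bool.not_eq_false] at h4
    refine absurd (funext fun i => ?_) he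
    fin_cases i
    · exact h4
    · exact h1
    · exact h2
    · exact h3
  · intro h1
    exact absurd (mem_univ _) h1

/-- the existence of the ear -/
theorem main (hTRE : SpecTRE) (hDCB : SpecDCB) {x y t p s₁ s₄ : α} {A B : Finset (Sym2 α)}
    (nd : [x, y, t, p, s₁, s₄].Nodup) (xt : G.Adj x t) (xp : G.Adj x p) (x4 : G.Adj x s₄)
    (xy : G.Adj x y) (y1 : G.Adj y s₁) (y4 : G.Adj y s₄) (htp : G.Adj t p)
    (hcon : ConnOff G {x, y, s₁, t, s₄}) (hPP : PP G x y t p s₁ s₄ A B) (hB : B ≠ {s(s₁, s₄)})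
    {f : Finset (Sym2 α) → ZMod 2} (hf : D4even G f)
    (zh : ∀ C, IsCyc G C → s(t, p) ∉ C → f C = 0) (ze : ∀ C, CycM G y s₁ C → f C = 0) :
    f ({s(s₄, y), s(y, x), s(x, t), s(t, p)} ∪ A ∪ B) = 0 := by
  have hnd := nd
  simp only [List.nodup_cons, List.mem_cons, List.not_mem_nil, or_false, not_or, List.nodup_nil,
    and_true, not_false_eq_true] at hnd
  obtain ⟨⟨nxy, nxt, nxp, nx1, nx4⟩, ⟨nyt, nyp, ny1, ny4⟩, ⟨ntp, nt1, nt4⟩, ⟨np1, np4⟩, n14⟩ := hnd
  obtain ⟨hA, hAd⟩ := DL.isPth_del.1 hPP.a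
  obtain ⟨hB', hBd⟩ := DL.isPth_del.1 hPP.b
  have hpA : p ∈ vs A := hA.left_mem np1
  have h1A : s₁ ∈ vs A := hA.right_mem np1
  have h1B : s₁ ∈ vs B := hB'.left_mem n14
  have h4B : s₄ ∈ vs B := hB'.right_mem n14
  have hAB : ∀ v, v ∈ vs A → v ∈ vs B → v = s₁ := fun v h1 h2 =>
    mem_singleton.1 (hPP.d (mem_inter.2 ⟨h1, h2⟩))
  have vA : ∀ v ∈ vs A, v ≠ x ∧ v ≠ y ∧ v ≠ t := by
    intro v hv
    have := Finset.disjoint_left.1 hAd hv
    simp only [mem_insert, mem_singleton, not_or] at this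
    exact this
  have vB : ∀ v ∈ vs B, v ≠ x ∧ v ≠ y ∧ v ≠ t := by
    intro v hv
    have := Finset.disjoint_left.1 hBd hv
    simp only [mem_insert, mem_singleton, not_or] at this
    exact this
  have h4A : s₄ ∉ vs A := fun h => n14 (hAB s₄ h h4B).symm
  have hpB : p ∉ vs B := fun h => np1 (hAB p hpA h)
  -- an inner vertex of B
  obtain ⟨b0, hb0, hb1, hb4⟩ : ∃ b0, b0 ∈ vs B ∧ b0 ≠ s₁ ∧ b0 ≠ s₄ := by
    by_contra hc
    push Not at hc
    obtain ⟨u, hu1, hu2, _⟩ := hB'.uncons n14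
    have hu : u = s₄ := hc u (right_mem_vs hu2) hu1.ne'
    subst hu
    exact hB (hB'.eq_singleton hu2)
  have hV : ∀ {u v : α}, G.Adj u v → u ∈ VS G := by
    intro u v huv
    classical
    simp only [VS, mem_filter, mem_univ, true_and]
    exact ⟨v, huv⟩
  have hb0V : b0 ∈ VS G := by
    obtain ⟨e, he, hbe⟩ := mem_vs.1 hb0
    have h1 := hB'.subset e he
    induction e using Sym2.ind with
    | _ a b =>
      rw [mem_edgeSet] at h1
      rw [Sym2.mem_iff] at hbe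
      rcases hbe with rfl | rfl
      · exact hV h1
      · exact hV h1.symm
  have hr0 := hcon b0 hb0V p (hV htp.symm) (by
      simp only [mem_insert, mem_singleton, not_or]
      exact ⟨(vB b0 hb0).1, (vB b0 hb0).2.1, hb1, (vB b0 hb0).2.2, hb4⟩) (by
      simp only [mem_insert, mem_singleton, not_or]
      exact ⟨Ne.symm nxp, Ne.symm nyp, np1, Ne.symm ntp, np4⟩)
  obtain ⟨R0, hR0⟩ := exists_isPth hr0
  obtain ⟨p0, q, r, hp0, hq, hr, hrsub, _, hrA, hrB⟩ := hR0.trim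
    (A := (vs B).filter fun v => v ≠ s₁ ∧ v ≠ s₄) (B := (vs A).filter fun v => v ≠ s₁)
    (by rw [mem_filter]; exact ⟨hb0, hb1, hb4⟩) (by rw [mem_filter]; exact ⟨hpA, np1⟩)
  rw [mem_filter] at hp0 hq
  obtain ⟨hp0, hp01, hp04⟩ := hp0
  obtain ⟨hq, hq1⟩ := hq
  obtain ⟨hr', hrd⟩ := DL.isPth_del.1 hr
  have npq : p0 ≠ q := fun h => hp01 (hAB p0 (h ▸ hq) hp0)
  -- vertices of r
  have vr : ∀ v ∈ insert p0 (vs r), v ≠ x ∧ v ≠ y ∧ v ≠ t ∧ v ≠ s₁ ∧ v ≠ s₄ := by
    intro v hv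
    rw [mem_insert] at hv
    rcases hv with rfl | hv
    · exact ⟨(vB v hp0).1, (vB v hp0).2.1, (vB v hp0).2.2, hp01, hp04⟩
    · have := Finset.disjoint_left.1 hrd hv
      simp only [mem_insert, mem_singleton, not_or] at this
      tauto
  have rA : ∀ v ∈ insert p0 (vs r), v ∈ vs A → v = q := fun v hv hvA =>
    hrB v hv (by rw [mem_filter]; exact ⟨hvA, (vr v hv).2.2.2.1⟩)
  have rB : ∀ v ∈ insert p0 (vs r), v ∈ vs B → v = p0 := fun v hv hvB =>
    hrA v hv (by rw [mem_filter]; exact ⟨hvB, (vr v hv).2.2.2.1, (vr v hv).2.2.2.2⟩)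
  -- splitting
  obtain ⟨A₁, A₂, hA1, hA2, hA12, _, hAi⟩ := hA.split (Or.inr hq)
  obtain ⟨B₁, B₂, hB1, hB2, hB12, _, hBi⟩ := hB'.split (Or.inr hp0)
  obtain ⟨a', hqa, hqa2, hqA2, hA2'⟩ := hA2.uncons hq1
  obtain ⟨b', hpb, hpb2, hpB2, hB2'⟩ := hB2.uncons hp04
  obtain ⟨r', hqr, hqr2, hqR, hR'⟩ := hr'.symm.uncons npq.symm
  have sA1 : insert p (vs A₁) ⊆ vs A := by
    intro v hv
    rw [mem_insert] at hv
    rcases hv with rfl | hv
    · exact hpA
    · exact vs_mono (hA12 ▸ subset_union_left) hv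
  have sA2 : insert a' (vs (A₂ \ {s(q, a')})) ⊆ vs A₂ := by
    intro v hv
    rw [mem_insert] at hv
    rcases hv with rfl | hv
    · exact right_mem_vs hqa2
    · exact vs_mono sdiff_subset hv
  have sA2' : vs A₂ ⊆ vs A := vs_mono (hA12 ▸ subset_union_right)
  have sB1 : insert s₁ (vs B₁) ⊆ vs B := by
    intro v hv
    rw [mem_insert] at hv
    rcases hv with rfl | hv
    · exact h1B
    · exact vs_mono (hB12 ▸ subset_union_left) hv
  have sB2 : insert b' (vs (B₂ \ {s(p0, b')})) ⊆ vs B₂ := by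
    intro v hv
    rw [mem_insert] at hv
    rcases hv with rfl | hv
    · exact right_mem_vs hpb2
    · exact vs_mono sdiff_subset hv
  have sB2' : vs B₂ ⊆ vs B := vs_mono (hB12 ▸ subset_union_right)
  have sR : insert r' (vs (r \ {s(q, r')})) ⊆ vs r := by
    intro v hv
    rw [mem_insert] at hv
    rcases hv with rfl | hv
    · exact right_mem_vs hqr2
    · exact vs_mono sdiff_subset hv
  -- q, p0 are not in the shortened paths
  have qnA2 : q ∉ insert a' (vs (A₂ \ {s(q, a')})) := by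
    rw [mem_insert]
    rintro (h | h)
    · exact hqa.ne h
    · exact hqA2 h
  have pnB2 : p0 ∉ insert b' (vs (B₂ \ {s(p0, b')})) := by
    rw [mem_insert]
    rintro (h | h)
    · exact hpb.ne h
    · exact hpB2 h
  have qnR : q ∉ insert r' (vs (r \ {s(q, r')})) := by
    rw [mem_insert]
    rintro (h | h)
    · exact hqr.ne h
    · exact hqR h
  have s1A1 : s₁ ∉ insert p (vs A₁) := by
    rw [mem_insert]
    rintro (h | h)
    · exact np1 h.symm
    · exact hq1 (mem_singleton.1 (hAi (mem_inter.2 ⟨h, hA2.right_mem hq1⟩))).symm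
  have s1B2 : s₁ ∉ vs B₂ := fun h =>
    hp01 (mem_singleton.1 (hBi (mem_inter.2 ⟨hB1.left_mem hp01.symm, h⟩))).symm
  have s4B1 : s₄ ∉ insert s₁ (vs B₁) := by
    rw [mem_insert]
    rintro (h | h)
    · exact n14 h.symm
    · exact hp04 (mem_singleton.1 (hBi (mem_inter.2 ⟨h, hB2.right_mem hp04⟩))).symm
  have A1q : ∀ v ∈ insert p (vs A₁), v ∈ vs A₂ → v = q := by
    intro v hv hv2
    rw [hA1.insert_vs, mem_insert] at hv
    rcases hv with hv | hv
    · exact hv
    · exact mem_singleton.1 (hAi (mem_inter.2 ⟨hv, hv2⟩))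
  have B1p : ∀ v ∈ insert s₁ (vs B₁), v ∈ vs B₂ → v = p0 := by
    intro v hv hv2
    rw [hB1.insert_vs, mem_insert] at hv
    rcases hv with hv | hv
    · exact hv
    · exact mem_singleton.1 (hBi (mem_inter.2 ⟨hv, hv2⟩))
  have E : Ear G x y t p s₁ s₄ q p0 a' b' r' A₁ (A₂ \ {s(q, a')}) B₁ (B₂ \ {s(p0, b')})
      (r \ {s(q, r')}) :=
    { nd := nd
      xt := xt
      xp := xp
      x4 := x4
      xy := xy
      y1 := y1
      y4 := y4
      tp' := htp
      a1 := hA1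
      a2 := hA2'
      b1 := hB1
      b2 := hB2'
      r := hR'
      qa := hqa
      pb := hpb
      qr := hqr
      va1 := fun v hv => ⟨(vA v (sA1 hv)).1, (vA v (sA1 hv)).2.1, (vA v (sA1 hv)).2.2,
        fun h => s1A1 (h ▸ hv), fun h => h4A (h ▸ sA1 hv)⟩
      va2 := fun v hv => ⟨(vA v (sA2' (sA2 hv))).1, (vA v (sA2' (sA2 hv))).2.1,
        (vA v (sA2' (sA2 hv))).2.2, fun h => h4A (h ▸ sA2' (sA2 hv))⟩
      vb1 := fun v hv => ⟨(vB v (sB1 hv)).1, (vB v (sB1 hv)).2.1, (vB v (sB1 hv)).2.2,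
        fun h => s4B1 (h ▸ hv)⟩
      vb2 := fun v hv => ⟨(vB v (sB2' (sB2 hv))).1, (vB v (sB2' (sB2 hv))).2.1,
        (vB v (sB2' (sB2 hv))).2.2, fun h => s1B2 (h ▸ sB2 hv)⟩
      vr := fun v hv => vr v (mem_insert_of_mem (sR hv))
      a1a2 := by
        rw [Finset.disjoint_left]
        intro v hv hv'
        exact qnA2 (A1q v hv (sA2 hv') ▸ hv')
      a1b1 := by
        rw [Finset.disjoint_left]
        intro v hv hv'
        exact s1A1 (hAB v (sA1 hv) (sB1 hv') ▸ hv)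
      a1b2 := by
        rw [Finset.disjoint_left]
        intro v hv hv'
        exact s1A1 (hAB v (sA1 hv) (sB2' (sB2 hv')) ▸ hv)
      a1r := by
        rw [Finset.disjoint_left]
        intro v hv hv'
        exact qnR (rA v (mem_insert_of_mem (sR hv')) (sA1 hv) ▸ hv')
      a2b1 := fun v hv hv' => hAB v (sA2' (sA2 hv)) (sB1 hv')
      a2b2 := by
        rw [Finset.disjoint_left]
        intro v hv hv'
        exact s1B2 (hAB v (sA2' (sA2 hv)) (sB2' (sB2 hv')) ▸ sB2 hv')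
      a2r := by
        rw [Finset.disjoint_left]
        intro v hv hv'
        exact qnR (rA v (mem_insert_of_mem (sR hv')) (sA2' (sA2 hv)) ▸ hv')
      b1b2 := by
        rw [Finset.disjoint_left]
        intro v hv hv'
        exact pnB2 (B1p v hv (sB2 hv') ▸ hv')
      b1r := fun v hv hv' => rB v (mem_insert_of_mem (sR hv')) (sB1 hv)
      b2r := by
        rw [Finset.disjoint_left]
        intro v hv hv'
        exact pnB2 (rB v (mem_insert_of_mem (sR hv')) (sB2' (sB2 hv)) ▸ hv)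
      p01 := hp01 }
  have := core hTRE hDCB E hf zh ze
  have e1 : insert s(q, a') (A₂ \ {s(q, a')}) = A₂ := by
    rw [insert_eq, union_sdiff_of_subset (singleton_subset_iff.2 hqa2)]
  have e2 : insert s(p0, b') (B₂ \ {s(p0, b')}) = B₂ := by
    rw [insert_eq, union_sdiff_of_subset (singleton_subset_iff.2 hpb2)]
  rwa [e1, e2, hA12, hB12] at this

end XL1M

theorem specXL1 (hTRE : SpecTRE) (hDCB : SpecDCB) (hC20 : SpecC20) : SpecXL1 where
  a := by
    intro α _ _ G x y s₁ s₂ s₃ s₄ f A B hK hPP hB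
    have hP := hK.p33
    have hnd : [x, y, s₃, s₂, s₁, s₄].Nodup := by
      have := hP.nd
      simp only [List.nodup_cons, List.mem_cons, List.not_mem_nil, or_false, not_or,
        List.nodup_nil, and_true, not_false_eq_true] at this ⊢
      grind
    have hzh : ∀ C, IsCyc G C → s(s₃, s₂) ∉ C → f C = 0 := fun C hC h =>
      hK.zh C hC (by rwa [Sym2.eq_swap])
    exact XL1M.main hTRE hDCB hnd ((hP.nx _).2 (by simp)) ((hP.nx _).2 (by simp))
      ((hP.nx _).2 (by simp)) ((hP.nx _).2 (by simp)) ((hP.ny _).2 (by simp))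
      ((hP.ny _).2 (by simp)) hK.h.symm (hC20.three hK.k48 hP).2.2.1 hPP hB hK.ev hzh hK.ze
  b := by
    intro α _ _ G x y s₁ s₂ s₃ s₄ f A B hK hPP hB
    have hP := hK.p33
    have hnd : [x, y, s₂, s₃, s₁, s₄].Nodup := by
      have := hP.nd
      simp only [List.nodup_cons, List.mem_cons, List.not_mem_nil, or_false, not_or,
        List.nodup_nil, and_true, not_false_eq_true] at this ⊢
      grind
    exact XL1M.main hTRE hDCB hnd ((hP.nx _).2 (by simp)) ((hP.nx _).2 (by simp))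
      ((hP.nx _).2 (by simp)) ((hP.nx _).2 (by simp)) ((hP.ny _).2 (by simp))
      ((hP.ny _).2 (by simp)) hK.h (hC20.three hK.k48 hP).2.1 hPP hB hK.ev hK.zh hK.ze

end DL
end

section
/-!
# MP_3ff0f8_gt, EXIST section 2, module XTE (helper23): the cycles through an edge span `Z1`
-/
open SimpleGraph Finset

namespace DL.XTEM

set_option linter.unusedSectionVars false

variable {α : Type} [Fintype α] [DecidableEq α] {N : SimpleGraph α}

theorem pr_chi (a : Chain α) (C : Finset (Sym2 α)) : pr a (chi C) = ∑ e ∈ C, a e := by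
  unfold pr
  exact sum_mul_chi a C

theorem pr_add' (a c d : Chain α) : pr a (c + d) = pr a c + pr a d := by
  unfold pr
  rw [← sum_add_distrib]
  refine sum_congr rfl fun e _ => ?_
  rw [Pi.add_apply, mul_add]

/-- a cycle through `st` with two disjoint paths and an arc -/
theorem cyc {x0 x1 c c' : α} {P Q R : Finset (Sym2 α)} (hP : IsPth N x0 c P) (hQ : IsPth N x1 c' Q)
    (hR : IsPth N c c' R) (hcc : c ≠ c') (hadj : N.Adj x0 x1)
    (hd : Disjoint (insert x0 (vs P)) (insert x1 (vs Q)))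
    (hPR : ∀ z ∈ insert x0 (vs P), z ∈ vs R → z = c) (hQR : ∀ z ∈ insert x1 (vs Q), z ∈ vs R → z = c')
    (hstR : s(x0, x1) ∉ R) :
    IsCyc N (insert s(x0, x1) (P ∪ R ∪ Q)) ∧ s(x0, x1) ∉ P ∪ R ∪ Q ∧ Disjoint P R ∧ Disjoint (P ∪ R) Q := by
  have h1 : vs P ∩ vs R ⊆ {c} := by
    intro z hz
    rw [mem_inter] at hz
    rw [mem_singleton]
    exact hPR z (mem_insert_of_mem hz.1) hz.2
  have hPR' : IsPth N x0 c' (P ∪ R) := hP.append hR h1
  have h2 : vs (P ∪ R) ∩ vs Q ⊆ {c'} := by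
    intro z hz
    rw [mem_inter, mem_vs_union] at hz
    rw [mem_singleton]
    rcases hz.1 with h | h
    · exact absurd (mem_insert_of_mem hz.2) (Finset.disjoint_left.1 hd (mem_insert_of_mem h))
    · exact hQR z (mem_insert_of_mem hz.2) h
  have hall : IsPth N x0 x1 (P ∪ R ∪ Q) := hPR'.append hQ.symm (by
    intro z hz
    exact h2 hz)
  have hne : s(x0, x1) ∉ P ∪ R ∪ Q := by
    rw [mem_union, mem_union]
    rintro ((h | h) | h)
    · exact Finset.disjoint_left.1 hd (mem_insert_of_mem (right_mem_vs h)) (mem_insert_self _ _)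
    · exact hstR h
    · exact Finset.disjoint_left.1 hd (mem_insert_self _ _) (mem_insert_of_mem (left_mem_vs h))
  exact ⟨hall.isCyc hadj hne, hne, hP.append_disjoint h1, hPR'.append_disjoint h2⟩

end DL.XTEM

namespace DL

open XTEM in
theorem specXTE : SpecXTE := by
  intro α _ _ N s t hN hst a ha
  have key : ∀ C, IsCyc N C → ∑ e ∈ C, a e = 0 := by
    intro C hC
    by_cases hmem : s(s, t) ∈ C
    · exact ha C hC hmem
    have hA : ({s, t} : Finset α) ⊆ VS N := by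
      intro z hz; rw [mem_insert, mem_singleton] at hz
      rcases hz with rfl | rfl
      · exact left_mem_VS hst
      · exact right_mem_VS hst
    have hc2 : 2 ≤ (vs C).card := by
      obtain ⟨e, he⟩ := hC.nonempty
      induction e using Sym2.ind with
      | _ u v =>
        have := card_le_card (show ({u, v} : Finset α) ⊆ vs C by
          intro z hz; rw [mem_insert, mem_singleton] at hz
          rcases hz with rfl | rfl
          · exact left_mem_vs he
          · exact right_mem_vs he)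
        rwa [card_pair (hC.adj_of_mem he).ne] at this
    obtain ⟨x, y, P, hx, hy, hP, hdis, -, hPC⟩ := hN.linked (A := {s, t}) (B := vs C) hA hC.vs_subset
      (by rw [card_pair hst.ne]) hc2
    have h01 := hdis 0 1 (by decide)
    have hx01 : x 0 ≠ x 1 := fun e =>
      Finset.disjoint_left.1 h01 (mem_insert_self _ _) (e ▸ mem_insert_self _ _)
    have hy01 : y 0 ≠ y 1 := fun e =>
      Finset.disjoint_left.1 h01 (hP 0).end_mem (e ▸ (hP 1).end_mem)
    have hX : N.Adj (x 0) (x 1) ∧ s(x 0, x 1) = s(s, t) := by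
      have hx0 := hx 0
      have hx1 := hx 1
      rw [mem_insert, mem_singleton] at hx0 hx1
      rcases hx0 with h | h <;> rcases hx1 with h' | h'
      · exact absurd (h.trans h'.symm) hx01
      · rw [h, h']; exact ⟨hst, rfl⟩
      · rw [h, h']; exact ⟨hst.symm, Sym2.eq_swap⟩
      · exact absurd (h.trans h'.symm) hx01
    obtain ⟨R, R', hR, hR', hU, hD, hI⟩ := hC.split (hy 0) (hy 1) hy01
    have arc : ∀ S, IsPth N (y 0) (y 1) S → S ⊆ C →
        a s(s, t) + (∑ e ∈ P 0, a e + ∑ e ∈ S, a e + ∑ e ∈ P 1, a e) = 0 := by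
      intro S hS hSC
      obtain ⟨h1, h2, h3, h4⟩ := cyc (hP 0) (hP 1) hS hy01 hX.1 h01
        (fun z hz hzS => hPC 0 z hz (vs_mono hSC hzS)) (fun z hz hzS => hPC 1 z hz (vs_mono hSC hzS))
        (fun h => hmem (hX.2 ▸ hSC h))
      have h5 := ha _ h1 (by rw [← hX.2]; exact mem_insert_self _ _)
      rw [sum_insert h2, sum_union h4, sum_union h3, hX.2] at h5
      exact h5
    have e1 := arc R hR (by rw [← hU]; exact subset_union_left)
    have e2 := arc R' hR' (by rw [← hU]; exact subset_union_right)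
    rw [← hU, sum_union hD]
    generalize a s(s, t) = k at e1 e2
    generalize ∑ e ∈ P 0, a e = p0 at e1 e2
    generalize ∑ e ∈ P 1, a e = p1 at e1 e2
    generalize ∑ e ∈ R, a e = r at e1 e2 ⊢
    generalize ∑ e ∈ R', a e = r' at e1 e2 ⊢
    revert k p0 p1 r r'
    decide
  intro Z hZ
  refine Z1_induction (G := N) (motive := fun c => pr a c = 0) ?_ ?_ Z hZ
  · unfold pr
    simp
  · intro C c hC hc hd h0
    rw [pr_add', h0, add_zero, pr_chi]
    exact key C hC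

end DL
end

section
/-!
# MP_3ff0f8_gt, EXIST section 2, module XL3 (helper23): (K3)
-/
open SimpleGraph Finset

namespace DL.XL3M

open C20M

set_option linter.unusedSectionVars false

variable {α : Type} [Fintype α] [DecidableEq α] {G : SimpleGraph α} {x y s₁ s₂ s₃ s₄ : α}

/-- the cube -/
def cube : Bool × Bool × Bool × Bool ≃ (Fin 4 → Bool) where
  toFun x := ![x.1, x.2.1, x.2.2.1, x.2.2.2]
  invFun e := (e 0, e 1, e 2, e 3)
  left_inv _ := rfl
  right_inv e := by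
    funext i
    fin_cases i <;> rfl

def sq : Bool × Bool ≃ (Fin 2 → Bool) where
  toFun x := ![x.1, x.2]
  invFun e := (e 0, e 1)
  left_inv _ := rfl
  right_inv e := by
    funext i
    fin_cases i <;> rfl

theorem sum16 (H : Bool → Bool → Bool → Bool → ZMod 2) :
    ∑ e : Fin 4 → Bool, H (e 0) (e 1) (e 2) (e 3) =
      ∑ b2 : Bool, ∑ b3 : Bool, ∑ e : Fin 2 → Bool, H (e 0) (e 1) b2 b3 := by
  have h1 : ∑ e : Fin 4 → Bool, H (e 0) (e 1) (e 2) (e 3) =
      ∑ b0 : Bool, ∑ b1 : Bool, ∑ b2 : Bool, ∑ b3 : Bool, H b0 b1 b2 b3 := by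
    rw [← cube.sum_comp (fun e => H (e 0) (e 1) (e 2) (e 3))]
    simp only [Fintype.sum_prod_type]
    rfl
  have h2 : ∀ b2 b3 : Bool, ∑ e : Fin 2 → Bool, H (e 0) (e 1) b2 b3 =
      ∑ b0 : Bool, ∑ b1 : Bool, H b0 b1 b2 b3 := by
    intro b2 b3
    rw [← sq.sum_comp (fun e => H (e 0) (e 1) b2 b3)]
    simp only [Fintype.sum_prod_type]
    rfl
  rw [h1]
  simp only [h2, Fintype.sum_bool]
  ring

/-- the sum over the four cycles of `P` -/
def F4 (f : Finset (Sym2 α) → ZMod 2) (x y s₃ s₄ : α) (P : Finset (Sym2 α)) : ZMod 2 :=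
  f (P ∪ {s(x, s₃), s(x, s₄)}) + f (P ∪ {s(y, s₃), s(y, s₄)}) +
    f (P ∪ {s(x, s₃), s(y, s₄)} ∪ {s(x, y)}) + f (P ∪ {s(y, s₃), s(x, s₄)} ∪ {s(x, y)})

theorem F4_sum (hD4C : SpecD4C) (h : P33 G x y s₁ s₂ s₃ s₄) {f : Finset (Sym2 α) → ZMod 2}
    (hf : D4even G f) (K : Ch2 (del G {x, y}) s₃ s₄) :
    ∑ e : Fin 2 → Bool, F4 f x y s₃ s₄ (K.pth e) = 0 := by
  obtain ⟨D, hD⟩ := hD4C (axy h) (ax3 h) (ay3 h) (ax4 h) (ay4 h) (ds h).s34 K
  have h1 := hf D
  simp only [hD] at h1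
  have h2 := sum16 (fun e0 e1 e2 e3 => f (K.pth ![e0, e1] ∪
    {s(if e3 then y else x, s₃), s(if e2 then y else x, s₄)} ∪ if e3 = e2 then ∅ else {s(x, y)}))
  rw [h2] at h1
  have h3 : ∀ e : Fin 2 → Bool, (![e 0, e 1] : Fin 2 → Bool) = e := by
    intro e
    funext i
    fin_cases i <;> rfl
  simp only [h3, Fintype.sum_bool, if_true, if_false, Bool.false_eq_true, union_empty,
    Bool.true_eq_false] at h1
  unfold F4
  rw [sum_add_distrib, sum_add_distrib, sum_add_distrib]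
  rw [← h1]
  ring

/-- a path of `G - x - y` with one vertex -/
theorem cyc2 {u i j : α} {P : Finset (Sym2 α)} (hu : u = x ∨ u = y) (hi : G.Adj u i) (hj : G.Adj u j)
    (hij : i ≠ j) (hP : IsPth (del G {x, y}) i j P) : IsCyc G (P ∪ {s(u, i), s(u, j)}) := by
  have h1 : IsPth (del G {u}) i j P := hP.mono (del_anti (by
    rw [singleton_subset_iff]
    simp only [mem_insert, mem_singleton]
    exact hu))
  have h2 := isCyc_of_isPth_del hi hj hij h1
  have h3 : insert s(u, i) (insert s(u, j) P) = P ∪ {s(u, i), s(u, j)} := by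
    ext e
    simp only [mem_insert, mem_union, mem_singleton]
    tauto
  rwa [h3] at h2

/-- a path of `G - x - y` with both vertices -/
theorem cyc3 {u v i j : α} {P : Finset (Sym2 α)} (hu : u ∈ ({x, y} : Finset α))
    (hv : v ∈ ({x, y} : Finset α)) (huv : G.Adj u v) (hi : G.Adj u i) (hj : G.Adj v j)
    (hij : i ≠ j) (hP : IsPth (del G {x, y}) i j P) :
    IsCyc G (P ∪ {s(u, i), s(v, j)} ∪ {s(u, v)}) := by
  have hd := vs_of_isPth_del hP
  have huP : u ∉ vs P := fun h => Finset.disjoint_left.1 hd h hu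
  have hvP : v ∉ vs P := fun h => Finset.disjoint_left.1 hd h hv
  have hiP : i ∈ vs P := hP.left_mem hij
  have hjP : j ∈ vs P := hP.right_mem hij
  have h0 : IsPth G i j P := hP.mono (del_le _ _)
  have h1 : IsPth G u j (insert s(u, i) P) := h0.cons hi huP
  have h2 : IsPth (del G {v}) u j (insert s(u, i) P) := by
    rw [isPth_del]
    refine ⟨h1, ?_⟩
    rw [disjoint_singleton_right, vs_insert, mem_union, mem_insert, mem_singleton]
    rintro ((h | h) | h)
    · exact huv.ne h.symm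
    · exact hvP (h ▸ hiP)
    · exact hvP h
  have h3 := isCyc_of_isPth_del huv.symm hj (fun h => huP (h ▸ hjP)) h2
  have h4 : insert s(v, u) (insert s(v, j) (insert s(u, i) P)) =
      P ∪ {s(u, i), s(v, j)} ∪ {s(u, v)} := by
    ext e
    simp only [mem_insert, mem_union, mem_singleton, Sym2.eq_swap (a := v) (b := u)]
    tauto
  rwa [h4] at h3

theorem F4_zero (h : P33 G x y s₁ s₂ s₃ s₄) {f : Finset (Sym2 α) → ZMod 2} {P : Finset (Sym2 α)}
    (hP : IsPth (del G {x, y}) s₃ s₄ P)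
    (h0 : ∀ C, IsCyc G C → C ⊆ P ∪ {s(x, s₃), s(x, s₄), s(y, s₃), s(y, s₄), s(x, y)} → f C = 0) :
    F4 f x y s₃ s₄ P = 0 := by
  have d := ds h
  unfold F4
  rw [h0 _ (cyc2 (Or.inl rfl) (ax3 h) (ax4 h) d.s34 hP),
    h0 _ (cyc2 (Or.inr rfl) (ay3 h) (ay4 h) d.s34 hP),
    h0 _ (cyc3 (by simp) (by simp) (axy h) (ax3 h) (ay4 h) d.s34 hP)]
  · have h1 := cyc3 (by simp) (by simp) (axy h).symm (ay3 h) (ax4 h) d.s34 hP
    rw [Sym2.eq_swap (a := y) (b := x)] at h1
    rw [h0 _ h1]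
    · ring
    · intro e
      simp only [mem_insert, mem_union, mem_singleton]
      tauto
  · intro e
    simp only [mem_insert, mem_union, mem_singleton]
    tauto
  · intro e
    simp only [mem_insert, mem_union, mem_singleton]
    tauto
  · intro e
    simp only [mem_insert, mem_union, mem_singleton]
    tauto

theorem F4_h {f : Finset (Sym2 α) → ZMod 2} (hK : KF G x y s₁ s₂ s₃ s₄ f) {P : Finset (Sym2 α)}
    (hP : IsPth (del G {x, y}) s₃ s₄ P) (hh : s(s₂, s₃) ∉ P) : F4 f x y s₃ s₄ P = 0 := by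
  have d := ds hK.p33
  refine F4_zero hK.p33 hP fun C hC hCs => hK.zh C hC fun hmem => ?_
  have := hCs hmem
  simp only [mem_insert, mem_union, mem_singleton, Sym2.eq_iff] at this
  rcases this with h | h | h | h | h | h
  · exact hh h
  · rcases h with ⟨h1, -⟩ | ⟨-, h1⟩
    · exact d.x2 h1.symm
    · exact d.x3 h1.symm
  · rcases h with ⟨h1, -⟩ | ⟨-, h1⟩
    · exact d.x2 h1.symm
    · exact d.x3 h1.symm
  · rcases h with ⟨h1, -⟩ | ⟨-, h1⟩
    · exact d.y2 h1.symm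
    · exact d.y3 h1.symm
  · rcases h with ⟨h1, -⟩ | ⟨-, h1⟩
    · exact d.y2 h1.symm
    · exact d.y3 h1.symm
  · rcases h with ⟨h1, -⟩ | ⟨-, h1⟩
    · exact d.x2 h1.symm
    · exact d.x3 h1.symm

theorem F4_e {f : Finset (Sym2 α) → ZMod 2} (hK : KF G x y s₁ s₂ s₃ s₄ f) {P : Finset (Sym2 α)}
    (hP : IsPth (del G {x, y}) s₃ s₄ P) (hh : s₁ ∉ vs P) : F4 f x y s₃ s₄ P = 0 := by
  have d := ds hK.p33
  refine F4_zero hK.p33 hP fun C hC hCs => hK.ze C ⟨hC, fun _ h1 => ?_⟩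
  exfalso
  have := vs_mono hCs h1
  rw [mem_vs_union] at this
  rcases this with h | h
  · exact hh h
  · obtain ⟨e, he, h1e⟩ := mem_vs.1 h
    simp only [mem_insert, mem_singleton] at he
    rcases he with rfl | rfl | rfl | rfl | rfl <;> rw [Sym2.mem_iff] at h1e <;>
      rcases h1e with h2 | h2
    · exact d.x1 h2.symm
    · exact d.s13 h2
    · exact d.x1 h2.symm
    · exact d.s14 h2
    · exact d.y1 h2.symm
    · exact d.s13 h2
    · exact d.y1 h2.symm
    · exact d.s14 h2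
    · exact d.x1 h2.symm
    · exact d.y1 h2.symm

/-- the auxiliary graph -/
def NN (G : SimpleGraph α) (x y s₂ s₃ s₄ : α) : SimpleGraph α :=
  delE (del G {x, y}) s₂ s₃ ⊔ fromEdgeSet {s(s₃, s₄)}

theorem NN_adj {u v : α} : (NN G x y s₂ s₃ s₄).Adj u v ↔
    ((G.Adj u v ∧ u ∉ ({x, y} : Finset α) ∧ v ∉ ({x, y} : Finset α)) ∧ s(u, v) ≠ s(s₂, s₃)) ∨
      (s(u, v) = s(s₃, s₄) ∧ u ≠ v) := by
  unfold NN
  rw [sup_adj, delE_adj, del_adj, fromEdgeSet_adj, Set.mem_singleton_iff]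

/-- `s₂` and `s₃` are connected in the auxiliary graph -/
theorem NN_reach (hG : K48 G) (h : P33 G x y s₁ s₂ s₃ s₄) {S : Finset α} (hS : S.card ≤ 1)
    (h2 : s₂ ∉ S) (h3 : s₃ ∉ S) : (del (NN G x y s₂ s₃ s₄) S).Reachable s₂ s₃ := by
  classical
  by_contra hn
  have d := ds h
  obtain ⟨K, hK⟩ : ∃ K, K = delE (del G ({x, y} ∪ S)) s₂ s₃ := ⟨_, rfl⟩
  have hKN : K ≤ del (NN G x y s₂ s₃ s₄) S := by
    intro u v huv
    rw [hK, delE_adj, del_adj] at huv
    simp only [mem_union, not_or] at huv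
    exact ⟨NN_adj.2 (Or.inl ⟨⟨huv.1.1, huv.1.2.1.1, huv.1.2.2.1⟩, huv.2⟩), huv.1.2.1.2, huv.1.2.2.2⟩
  obtain ⟨P, hP⟩ : ∃ P : Finset α, P = univ.filter fun v => K.Reachable s₂ v := ⟨_, rfl⟩
  have mP : ∀ v, v ∈ P ↔ K.Reachable s₂ v := by
    intro v
    rw [hP, mem_filter]
    exact ⟨fun h => h.2, fun h => ⟨mem_univ _, h⟩⟩
  have h2P : s₂ ∈ P := (mP s₂).2 (Reachable.refl _)
  have h3P : s₃ ∉ P := fun h => hn (((mP s₃).1 h).mono hKN)
  have hPn : ∀ v ∈ P, v ∉ ({x, y} ∪ S : Finset α) := by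
    intro v hv
    rw [mP] at hv
    have hv' : (del G ({x, y} ∪ S)).Reachable s₂ v := hv.mono (by rw [hK]; exact delE_le _ _ _)
    refine reachable_del_notMem_right hv' ?_
    simp only [mem_union, mem_insert, mem_singleton, not_or]
    exact ⟨⟨d.x2.symm, d.y2.symm⟩, h2⟩
  have h4P : s₄ ∉ P := by
    intro h4
    apply hn
    refine (((mP s₄).1 h4).mono hKN).trans (Adj.reachable ?_)
    have h4S : s₄ ∉ S := by
      have := hPn s₄ h4
      rw [mem_union, not_or] at this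
      exact this.2
    exact ⟨NN_adj.2 (Or.inr ⟨Sym2.eq_swap, d.s34.symm⟩), h4S, h3⟩
  have hPx : x ∉ P := fun hv => hPn x hv (by simp)
  have hPy : y ∉ P := fun hv => hPn y hv (by simp)
  have hPV : P ⊆ VS G := by
    intro v hv
    by_cases h1 : v = s₂
    · rw [h1]
      exact vsub h (by simp)
    · rw [mP] at hv
      obtain ⟨w, hw⟩ := exists_adj_of_reachable hv.symm h1
      have : G.Adj v w := by
        rw [hK, delE_adj, del_adj] at hw
        exact hw.1.1
      exact left_mem_VS this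
  -- leaving `P`
  have step : ∀ u w, u ∈ P → G.Adj u w → w ∉ P → w ∉ ({x, y} : Finset α) → w ∉ S →
      u = s₂ ∧ w = s₃ := by
    intro u w hu huw hw hwxy hwS
    by_contra hne
    apply hw
    have huS := hPn u hu
    rw [mP] at hu ⊢
    refine hu.trans (Adj.reachable ?_)
    rw [hK, delE_adj, del_adj]
    refine ⟨⟨huw, huS, ?_⟩, ?_⟩
    · rw [mem_union, not_or]
      exact ⟨hwxy, hwS⟩
    · rw [Ne, Sym2.eq_iff, not_or]
      refine ⟨hne, ?_⟩
      rintro ⟨rfl, -⟩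
      exact h3P ((mP _).2 hu)
  have hPe : P.erase s₂ = ∅ := by
    by_contra hne
    refine few (D := P.erase s₂) (W := insert s₂ (insert y S)) (r := s₃) hG.1
      ((erase_subset _ _).trans hPV) (nonempty_iff_ne_empty.2 hne) ?_ ?_ (vsub h (by simp)) ?_ ?_
    · rintro w hw ⟨a, ha, haw⟩
      rw [mem_erase] at ha
      obtain ⟨ha1, haP⟩ := ha
      simp only [mem_insert]
      by_contra hw'
      simp only [not_or] at hw'
      have hwx : w ≠ x := by
        rintro rfl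
        rcases (h.nx a).1 haw.symm with h5 | h5 | h5 | h5
        · exact hPy (h5 ▸ haP)
        · exact ha1 h5
        · exact h3P (h5 ▸ haP)
        · exact h4P (h5 ▸ haP)
      have hwP : w ∉ P := by
        intro hwP
        exact hw (mem_erase.2 ⟨hw'.1, hwP⟩)
      exact ha1 (step a w haP haw hwP (by simp [hwx, hw'.2.1]) hw'.2.2).1
    · have e1 := card_insert_le s₂ (insert y S)
      have e2 := card_insert_le y S
      omega
    · intro h5
      exact h3P (mem_of_mem_erase h5)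
    · simp only [mem_insert, not_or]
      exact ⟨d.s23.symm, d.y3.symm, h3⟩
  -- the degree of `s₂`
  have hV2 : s₂ ∈ VS G := vsub h (by simp)
  have h1 := hG.1.le_nbs hV2
  have h4 : nbs G s₂ ⊆ insert x (insert s₃ S) := by
    intro w hw
    rw [mem_nbs] at hw
    simp only [mem_insert]
    by_contra hw'
    simp only [not_or] at hw'
    have hwy : w ≠ y := by
      rintro rfl
      rcases (h.ny s₂).1 hw.symm with h5 | h5 | h5 | h5
      · exact d.x2 h5.symm
      · exact d.s12 h5.symm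
      · exact d.s23 h5
      · exact d.s24 h5
    have hwP : w ∉ P := by
      intro hwP
      have : w ∈ P.erase s₂ := mem_erase.2 ⟨hw.ne', hwP⟩
      rw [hPe] at this
      exact notMem_empty _ this
    exact hw'.2.1 (step s₂ w h2P hw hwP (by simp [hw'.1, hwy]) hw'.2.2).2
  have h5 := card_le_card h4
  have e1 := card_insert_le x (insert s₃ S)
  have e2 := card_insert_le s₃ S
  omega

/-- two vertices are connected in the auxiliary graph -/
theorem NN_conn (hG : K48 G) (h : P33 G x y s₁ s₂ s₃ s₄) {S : Finset α} (hS : S.card ≤ 1)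
    {a b : α} (ha : a ∈ VS G) (hb : b ∈ VS G) (ha' : a ∉ ({x, y} ∪ S : Finset α))
    (hb' : b ∉ ({x, y} ∪ S : Finset α)) : (del (NN G x y s₂ s₃ s₄) S).Reachable a b := by
  have hc : ({x, y} ∪ S : Finset α).card < 4 := by
    have e1 := card_union_le ({x, y} : Finset α) S
    have e2 : ({x, y} : Finset α).card ≤ 2 := card_le_two
    omega
  have hr := hG.1.reach hc ha hb ha' hb'
  refine DL.mem_of_reachable (X := {v | (del (NN G x y s₂ s₃ s₄) S).Reachable a v}) hr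
    (Reachable.refl _) ?_
  intro u w huw hu
  rw [del_adj] at huw
  simp only [mem_union, not_or] at huw
  obtain ⟨h1, ⟨h2, h3⟩, h4, h5⟩ := huw
  refine Reachable.trans hu ?_
  by_cases he : s(u, w) = s(s₂, s₃)
  · rw [Sym2.eq_iff] at he
    rcases he with ⟨rfl, rfl⟩ | ⟨rfl, rfl⟩
    · exact NN_reach hG h hS h3 h5
    · exact (NN_reach hG h hS h5 h3).symm
  · exact Adj.reachable ⟨NN_adj.2 (Or.inl ⟨⟨h1, h2, h4⟩, he⟩), h3, h5⟩

theorem VS_NN (h : P33 G x y s₁ s₂ s₃ s₄) {a : α} (ha : a ∈ VS (NN G x y s₂ s₃ s₄)) :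
    a ∈ VS G ∧ a ∉ ({x, y} : Finset α) := by
  have d := ds h
  obtain ⟨b, hb⟩ := mem_VS.1 ha
  rw [NN_adj] at hb
  rcases hb with hb | hb
  · exact ⟨left_mem_VS hb.1.1, hb.1.2.1⟩
  · rw [Sym2.eq_iff] at hb
    simp only [mem_insert, mem_singleton, not_or]
    rcases hb.1 with ⟨rfl, rfl⟩ | ⟨rfl, rfl⟩
    · exact ⟨vsub h (by simp), d.x3.symm, d.y3.symm⟩
    · exact ⟨vsub h (by simp), d.x4.symm, d.y4.symm⟩

theorem NN_kconn (hG : K48 G) (h : P33 G x y s₁ s₂ s₃ s₄) : KConn 2 (NN G x y s₂ s₃ s₄) := by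
  have d := ds h
  have h34 : (NN G x y s₂ s₃ s₄).Adj s₃ s₄ := NN_adj.2 (Or.inr ⟨rfl, d.s34⟩)
  constructor
  · have hsub : ({s₁, s₃, s₄} : Finset α) ⊆ VS (NN G x y s₂ s₃ s₄) := by
      intro v hv
      simp only [mem_insert, mem_singleton] at hv
      rcases hv with rfl | rfl | rfl
      · have hr := NN_conn hG h (S := ∅) (a := v) (b := s₃) (by simp) (vsub h (by simp))
          (vsub h (by simp)) (by simp [d.x1.symm, d.y1.symm]) (by simp [d.x3.symm, d.y3.symm])
        obtain ⟨w, hw⟩ := exists_adj_of_reachable hr d.s13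
        exact left_mem_VS hw.1
      · exact left_mem_VS h34
      · exact right_mem_VS h34
    have hc : ({s₁, s₃, s₄} : Finset α).card = 3 := by
      rw [card_insert_of_notMem, card_pair d.s34]
      simp only [mem_insert, mem_singleton, not_or]
      exact ⟨d.s13, d.s14⟩
    have := card_le_card hsub
    omega
  · intro S hS a ha b hb haS hbS
    have h1 := VS_NN h ha
    have h2 := VS_NN h hb
    refine NN_conn hG h (by omega) h1.1 h2.1 ?_ ?_
    · rw [mem_union, not_or]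
      exact ⟨h1.2, haS⟩
    · rw [mem_union, not_or]
      exact ⟨h2.2, hbS⟩

/-- the path through `s₃s₂` -/
theorem bigpath (h : P33 G x y s₁ s₂ s₃ s₄) (h23 : G.Adj s₂ s₃) {Q : Finset (Sym2 α)}
    (hQ : IsPth (del G {x, y, s₃}) s₂ s₄ Q) :
    IsPth (del G {x, y}) s₃ s₄ (insert s(s₃, s₂) Q) ∧ s(s₃, s₄) ∉ insert s(s₃, s₂) Q := by
  have d := ds h
  have hQ' : IsPth (del G {x, y}) s₂ s₄ Q := hQ.mono (del_anti (by
    intro z
    simp only [mem_insert, mem_singleton]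
    tauto))
  have h3 : s₃ ∉ vs Q := fun h => Finset.disjoint_left.1 (vs_of_isPth_del hQ) h (by simp)
  have hadj : (del G {x, y}).Adj s₃ s₂ := by
    rw [del_adj]
    refine ⟨h23.symm, ?_, ?_⟩
    · simp [d.x3.symm, d.y3.symm]
    · simp [d.x2.symm, d.y2.symm]
  refine ⟨hQ'.cons hadj h3, ?_⟩
  rw [mem_insert, not_or]
  constructor
  · rw [Sym2.eq_iff, not_or]
    exact ⟨fun h => d.s24 h.2.symm, fun h => d.s34 h.2.symm⟩
  · intro h4
    exact h3 (left_mem_vs h4)

end DL.XL3M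

namespace DL

open C20M XL3M in
theorem specXL3 (hD4C : SpecD4C) (hRT1 : SpecRT1) (hC20 : SpecC20) (hXTE : SpecXTE) : SpecXL3 := by
  intro α _ _ G x y s₁ s₂ s₃ s₄ f A B hK hPP
  have h := hK.p33
  have d := ds h
  obtain ⟨w0, w, hw⟩ := hRT1 (del G {x, y}) s₃ s₄ d.s34 (F4 f x y s₃ s₄) (F4_sum hD4C h hK.ev)
  obtain ⟨a, ha⟩ : ∃ a : Chain α, a = fun e => if e = s(s₃, s₄) then w0 else w e := ⟨_, rfl⟩
  have ha0 : a s(s₃, s₄) = w0 := by rw [ha]; simp
  have hne : ∀ P : Finset (Sym2 α), s(s₃, s₄) ∉ P → ∑ e ∈ P, a e = ∑ e ∈ P, w e := by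
    intro P hP
    refine sum_congr rfl fun e he => ?_
    rw [ha]
    simp only
    rw [if_neg]
    rintro rfl
    exact hP he
  -- `a` vanishes on the cycle space of the auxiliary graph
  have hN := hXTE (NN_kconn hK.k48 h) (NN_adj.2 (Or.inr ⟨rfl, d.s34⟩)) a (by
    intro C hC hmem
    have hP := hC.isPth hmem
    obtain ⟨P, hPd⟩ : ∃ P, P = C \ {s(s₃, s₄)} := ⟨_, rfl⟩
    rw [← hPd] at hP
    have hnm : s(s₃, s₄) ∉ P := by rw [hPd]; simp
    have hCP : C = insert s(s₃, s₄) P := by rw [hPd, IsCyc.insert_sdiff hmem]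
    have hP2 : IsPth (delE (del G {x, y}) s₂ s₃) s₃ s₄ P := by
      refine hP.transfer ?_
      intro e he
      have h1 := hP.subset e he
      induction e using Sym2.ind with
      | _ u v =>
        rw [mem_edgeSet, NN_adj] at h1
        rw [mem_edgeSet, delE_adj, del_adj]
        rcases h1 with h1 | h1
        · exact h1
        · exact absurd (h1.1 ▸ he) hnm
    have hP3 : IsPth (del G {x, y}) s₃ s₄ P := hP2.mono (delE_le _ _ _)
    have hh : s(s₂, s₃) ∉ P := by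
      intro h1
      have := hP2.adj_of_mem h1
      rw [delE_adj] at this
      exact this.2 rfl
    have e1 := hw P hP3
    rw [F4_h hK hP3 hh] at e1
    rw [hCP, sum_insert hnm, ha0, hne P hnm, ← e1])
  -- the two paths
  have hAB : IsPth (del G {x, y, s₃}) s₂ s₄ (A ∪ B) := hPP.a.append hPP.b hPP.d
  obtain ⟨p1, p2⟩ := bigpath h hK.h hAB
  have hconn := (hC20.two hK.k48 h).2.2.1
  have hr := hconn s₂ (vsub h (by simp)) s₄ (vsub h (by simp)) (by
    simp only [mem_insert, mem_singleton, not_or]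
    exact ⟨d.x2.symm, d.y2.symm, d.s12.symm, d.s23⟩) (by
    simp only [mem_insert, mem_singleton, not_or]
    exact ⟨d.x4.symm, d.y4.symm, d.s14.symm, d.s34.symm⟩)
  obtain ⟨Q, hQ⟩ := exists_isPth hr
  have h1Q : s₁ ∉ vs Q := fun h => Finset.disjoint_left.1 (vs_of_isPth_del hQ) h (by simp)
  have hQ' : IsPth (del G {x, y, s₃}) s₂ s₄ Q := hQ.mono (del_anti (by
    intro z
    simp only [mem_insert, mem_singleton]
    tauto))
  obtain ⟨q1, q2⟩ := bigpath h hK.h hQ'
  have hF0 : F4 f x y s₃ s₄ (insert s(s₃, s₂) Q) = 0 := by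
    refine F4_e hK q1 ?_
    rw [vs_insert, mem_union, mem_insert, mem_singleton]
    rintro ((h1 | h1) | h1)
    · exact d.s13 h1
    · exact d.s12 h1
    · exact h1Q h1
  have hF : F4 f x y s₃ s₄ (insert s(s₃, s₂) (A ∪ B)) = 0 := by
    have hZ : chi (insert s(s₃, s₂) (A ∪ B)) + chi (insert s(s₃, s₂) Q) ∈ Z1 (NN G x y s₂ s₃ s₄) := by
      have h1 := p1.chi_add_mem q1
      rw [mem_Z1] at h1 ⊢
      refine ⟨fun e he => ?_, h1.2⟩
      have h2 := h1.1 e he
      induction e using Sym2.ind with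
      | _ u v =>
        rw [mem_edgeSet, del_adj] at h2
        rw [mem_edgeSet, NN_adj]
        refine Or.inl ⟨h2, ?_⟩
        intro h3
        apply he
        rw [h3, Sym2.eq_swap (a := s₂) (b := s₃), Pi.add_apply, chi_of_mem (mem_insert_self _ _),
          chi_of_mem (mem_insert_self _ _)]
        rfl
    have h1 := hN _ hZ
    rw [XTEM.pr_add', XTEM.pr_chi, XTEM.pr_chi, hne _ p2, hne _ q2] at h1
    have e1 := hw _ p1
    have e2 := hw _ q1
    rw [hF0] at e2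
    rw [e1]
    have e3 : ∑ e ∈ insert s(s₃, s₂) (A ∪ B), w e = ∑ e ∈ insert s(s₃, s₂) Q, w e := by
      generalize ∑ e ∈ insert s(s₃, s₂) (A ∪ B), w e = m at h1
      generalize ∑ e ∈ insert s(s₃, s₂) Q, w e = n at h1
      revert m n
      decide
    rw [e3, ← e2]
  -- the four cycles
  unfold F4 at hF
  have z1 : f (insert s(s₃, s₂) (A ∪ B) ∪ {s(x, s₃), s(x, s₄)}) = 0 := by
    refine hK.ze _ ⟨cyc2 (Or.inl rfl) (ax3 h) (ax4 h) d.s34 p1, fun hy => ?_⟩
    exfalso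
    rw [mem_vs_union] at hy
    rcases hy with h1 | h1
    · exact Finset.disjoint_left.1 (vs_of_isPth_del p1) h1 (by simp)
    · obtain ⟨e, he, h1e⟩ := mem_vs.1 h1
      simp only [mem_insert, mem_singleton] at he
      rcases he with rfl | rfl <;> rw [Sym2.mem_iff] at h1e <;> rcases h1e with h2 | h2
      · exact d.xy h2.symm
      · exact d.y3 h2
      · exact d.xy h2.symm
      · exact d.y4 h2
  have z2 : insert s(s₃, s₂) (A ∪ B) ∪ {s(y, s₃), s(y, s₄)} = cy3 y s₂ s₃ s₄ A B := by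
    unfold cy3
    ext e
    simp only [mem_insert, mem_union, mem_singleton, Sym2.eq_swap (a := s₄) (b := y)]
    tauto
  have z3 : insert s(s₃, s₂) (A ∪ B) ∪ {s(x, s₃), s(y, s₄)} ∪ {s(x, y)} = cy2 x y s₂ s₃ s₄ A B := by
    unfold cy2
    ext e
    simp only [mem_insert, mem_union, mem_singleton, Sym2.eq_swap (a := s₄) (b := y),
      Sym2.eq_swap (a := y) (b := x)]
    tauto
  have z4 : insert s(s₃, s₂) (A ∪ B) ∪ {s(y, s₃), s(x, s₄)} ∪ {s(x, y)} = cy1 x y s₂ s₃ s₄ A B := by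
    unfold cy1
    ext e
    simp only [mem_insert, mem_union, mem_singleton, Sym2.eq_swap (a := s₄) (b := x)]
    tauto
  rw [z1, z2, z3, z4, zero_add] at hF
  generalize f (cy3 y s₂ s₃ s₄ A B) = k3 at hF ⊢
  generalize f (cy2 x y s₂ s₃ s₄ A B) = k2 at hF ⊢
  generalize f (cy1 x y s₂ s₃ s₄ A B) = k1 at hF ⊢
  revert k1 k2 k3
  decide

end DL
end

section
/-!
# XLC: classification of the remaining cycles
-/
open SimpleGraph Finset

namespace DL

namespace XLCM

set_option linter.unusedSectionVars false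

variable {α : Type} [Fintype α] [DecidableEq α] {G : SimpleGraph α}

/-- removing the first edge of a path -/
theorem peel {a b u : α} {R : Finset (Sym2 α)} (hR : IsPth G a b R) (hab : a ≠ b)
    (hu : s(a, u) ∈ R) : ∃ R', R = insert s(a, u) R' ∧ IsPth G u b R' ∧ a ∉ vs R' := by
  obtain ⟨v, _, hv1, hv2, hv3⟩ := hR.uncons hab
  have : u = v := hR.left_unique hu hv1
  subst this
  refine ⟨R \ {s(a, u)}, ?_, hv3, hv2⟩
  rw [IsCyc.insert_sdiff hu]

/-- removing the two edges of a cycle at a vertex -/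
theorem opn {v i j : α} {C : Finset (Sym2 α)} (hC : IsCyc G C) (hi : s(v, i) ∈ C) (hj : s(v, j) ∈ C)
    (hij : i ≠ j) : ∃ R, C = insert s(v, i) (insert s(v, j) R) ∧ IsPth G i j R ∧ v ∉ vs R := by
  have h := hC.isPth_del hi hj hij
  have h' := isPth_del.1 h
  refine ⟨C \ {s(v, i), s(v, j)}, ?_, h'.1, disjoint_singleton_right.1 h'.2⟩
  ext x
  simp only [mem_insert, mem_sdiff, mem_singleton, not_or]
  constructor
  · intro hx
    by_cases h1 : x = s(v, i)
    · exact Or.inl h1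
    · by_cases h2 : x = s(v, j)
      · exact Or.inr (Or.inl h2)
      · exact Or.inr (Or.inr ⟨hx, h1, h2⟩)
  · rintro (h1 | h1 | h1)
    · rw [h1]; exact hi
    · rw [h1]; exact hj
    · exact h1.1

/-- splitting the rest at `s₁` -/
theorem splt {x y t p s₁ s₄ : α} {R : Finset (Sym2 α)} (hR : IsPth G p s₄ R) (hx : x ∉ vs R)
    (hy : y ∉ vs R) (ht : t ∉ vs R) (h1 : s₁ ∈ vs R) :
    ∃ A B, PP G x y t p s₁ s₄ A B ∧ R = A ∪ B := by
  obtain ⟨A, B, hA, hB, hAB, -, hd⟩ := hR.split (Or.inr h1)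
  have key : ∀ D, D ⊆ R → Disjoint (vs D) ({x, y, t} : Finset α) := by
    intro D hD
    rw [Finset.disjoint_left]
    intro v hv hv'
    have hv2 := vs_mono hD hv
    simp only [mem_insert, mem_singleton] at hv'
    rcases hv' with rfl | rfl | rfl
    · exact hx hv2
    · exact hy hv2
    · exact ht hv2
  refine ⟨A, B, ⟨isPth_del.2 ⟨hA, key A ?_⟩, isPth_del.2 ⟨hB, key B ?_⟩, hd⟩, hAB.symm⟩
  · rw [← hAB]; exact subset_union_left
  · rw [← hAB]; exact subset_union_right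

theorem not_vs_insert {v a b : α} {R : Finset (Sym2 α)} (h : v ∈ vs (insert s(a, b) R)) (ha : v ≠ a)
    (hb : v ≠ b) : v ∈ vs R := by
  rw [vs_insert, mem_union, mem_insert, mem_singleton] at h
  rcases h with (h | h) | h
  · exact absurd h ha
  · exact absurd h hb
  · exact h

theorem vs_of_insert {v : α} {e : Sym2 α} {R : Finset (Sym2 α)} (h : v ∉ vs (insert e R)) :
    v ∉ vs R := fun h' => h (vs_mono (subset_insert _ _) h')

theorem vs_empty' {v : α} (h : v ∈ vs (∅ : Finset (Sym2 α))) : False := by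
  obtain ⟨e, he, -⟩ := mem_vs.1 h
  exact absurd he (notMem_empty _)

/-- case (I): `xy ∈ C`, the other edge at `y` is `ys₄` -/
theorem case4 {x y s₁ s₂ s₃ s₄ : α} {C : Finset (Sym2 α)} (hP : P33 G x y s₁ s₂ s₃ s₄)
    (hC : IsCyc G C) (hh : s(s₂, s₃) ∈ C) (h1 : s₁ ∈ vs C) (hxy : s(y, x) ∈ C) (h4 : s(y, s₄) ∈ C) :
    (∃ A B, PP G x y s₃ s₂ s₁ s₄ A B ∧ C = cy2 x y s₂ s₃ s₄ A B) ∨
      ∃ A B, PP G x y s₂ s₃ s₁ s₄ A B ∧ C = cy2 x y s₃ s₂ s₄ A B := by
  have nd := hP.nd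
  simp only [List.nodup_cons, List.mem_cons, List.not_mem_nil, or_false, not_or,
      not_false_eq_true, List.nodup_nil, and_true] at nd
  obtain ⟨⟨xy, x1, x2, x3, x4⟩, ⟨y1, y2, y3, y4⟩, ⟨n12, n13, n14⟩, ⟨n23, n24⟩, n34⟩ := nd
  obtain ⟨R, hCR, hR, hyR⟩ := opn hC hxy h4 x4
  obtain ⟨k, hky, hk⟩ := hC.exists_other (v := x) (i := y) (by rw [Sym2.eq_swap]; exact hxy)
  have hkR : s(x, k) ∈ R := by
    rw [hCR, mem_insert, mem_insert] at hk
    rcases hk with hk | hk | hk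
    · rw [Sym2.eq_iff] at hk
      rcases hk with ⟨e, -⟩ | ⟨-, e⟩
      · exact absurd e xy
      · exact absurd e hky
    · rw [Sym2.eq_iff] at hk
      rcases hk with ⟨e, -⟩ | ⟨e, -⟩
      · exact absurd e xy
      · exact absurd e x4
    · exact hk
  obtain ⟨R₂, hR₂, hp₂, hx₂⟩ := peel hR x4 hkR
  have hy₂ : y ∉ vs R₂ := by rw [hR₂] at hyR; exact vs_of_insert hyR
  have hadj : G.Adj x k := hC.adj_of_mem hk
  have hhR : s(s₂, s₃) ∈ R₂ := by
    rw [hCR, hR₂] at hh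
    simp only [mem_insert] at hh
    rcases hh with hh | hh | hh | hh
    · rw [Sym2.eq_iff] at hh
      rcases hh with ⟨e, -⟩ | ⟨e, -⟩
      · exact absurd e.symm y2
      · exact absurd e.symm x2
    · rw [Sym2.eq_iff] at hh
      rcases hh with ⟨e, -⟩ | ⟨-, e⟩
      · exact absurd e.symm y2
      · exact absurd e.symm y3
    · rw [Sym2.eq_iff] at hh
      rcases hh with ⟨e, -⟩ | ⟨-, e⟩
      · exact absurd e.symm x2
      · exact absurd e.symm x3
    · exact hh
  have h1R : s₁ ∈ vs R₂ ∨ s₁ = k := by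
    by_cases hk1 : s₁ = k
    · exact Or.inr hk1
    · left
      rw [hCR, hR₂] at h1
      exact not_vs_insert (not_vs_insert (not_vs_insert h1 (Ne.symm y1) (Ne.symm x1)) (Ne.symm y1) n14)
        (Ne.symm x1) hk1
  rcases (hP.nx k).1 hadj with rfl | rfl | rfl | rfl
  · exact absurd rfl hky
  · -- `k = s₂`
    right
    obtain ⟨R₃, hR₃, hp₃, h2₃⟩ := peel hp₂ n24 hhR
    have h1' : s₁ ∈ vs R₃ := by
      rw [hR₃] at h1R
      rcases h1R with h1R | h1R
      · exact not_vs_insert h1R n12 n13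
      · exact absurd h1R n12
    obtain ⟨A, B, hPP, hAB⟩ := splt hp₃ (by rw [hR₃] at hx₂; exact vs_of_insert hx₂)
      (by rw [hR₃] at hy₂; exact vs_of_insert hy₂) h2₃ h1'
    refine ⟨A, B, hPP, ?_⟩
    rw [hCR, hR₂, hR₃, hAB, cy2, Sym2.eq_swap (a := s₄) (b := y)]
    ext e
    simp only [mem_insert, mem_union, mem_singleton, or_assoc]
    simp only [or_comm, or_left_comm]
  · -- `k = s₃`
    left
    obtain ⟨R₃, hR₃, hp₃, h2₃⟩ := peel hp₂ n34 (by rw [Sym2.eq_swap]; exact hhR)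
    have h1' : s₁ ∈ vs R₃ := by
      rw [hR₃] at h1R
      rcases h1R with h1R | h1R
      · exact not_vs_insert h1R n13 n12
      · exact absurd h1R n13
    obtain ⟨A, B, hPP, hAB⟩ := splt hp₃ (by rw [hR₃] at hx₂; exact vs_of_insert hx₂)
      (by rw [hR₃] at hy₂; exact vs_of_insert hy₂) h2₃ h1'
    refine ⟨A, B, hPP, ?_⟩
    rw [hCR, hR₂, hR₃, hAB, cy2, Sym2.eq_swap (a := s₄) (b := y)]
    ext e
    simp only [mem_insert, mem_union, mem_singleton, or_assoc]
    simp only [or_comm, or_left_comm]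
  · -- `k = s₄`
    rw [hp₂.eq_empty] at hhR
    exact absurd hhR (notMem_empty _)

/-- case (I): `xy ∈ C`, the other edge at `y` is `ys₃` -/
theorem case3 {x y s₁ s₂ s₃ s₄ : α} {C : Finset (Sym2 α)} (hP : P33 G x y s₁ s₂ s₃ s₄)
    (hC : IsCyc G C) (hh : s(s₂, s₃) ∈ C) (h1 : s₁ ∈ vs C) (hxy : s(y, x) ∈ C) (h3 : s(y, s₃) ∈ C) :
    ∃ A B, PP G x y s₃ s₂ s₁ s₄ A B ∧ C = cy1 x y s₂ s₃ s₄ A B := by
  have nd := hP.nd
  simp only [List.nodup_cons, List.mem_cons, List.not_mem_nil, or_false, not_or,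
      not_false_eq_true, List.nodup_nil, and_true] at nd
  obtain ⟨⟨xy, x1, x2, x3, x4⟩, ⟨y1, y2, y3, y4⟩, ⟨n12, n13, n14⟩, ⟨n23, n24⟩, n34⟩ := nd
  obtain ⟨R, hCR, hR, hyR⟩ := opn hC hxy h3 x3
  obtain ⟨k, hky, hk⟩ := hC.exists_other (v := x) (i := y) (by rw [Sym2.eq_swap]; exact hxy)
  have hkR : s(x, k) ∈ R := by
    rw [hCR, mem_insert, mem_insert] at hk
    rcases hk with hk | hk | hk
    · rw [Sym2.eq_iff] at hk
      rcases hk with ⟨e, -⟩ | ⟨-, e⟩
      · exact absurd e xy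
      · exact absurd e hky
    · rw [Sym2.eq_iff] at hk
      rcases hk with ⟨e, -⟩ | ⟨e, -⟩
      · exact absurd e xy
      · exact absurd e x3
    · exact hk
  obtain ⟨R₂, hR₂, hp₂, hx₂⟩ := peel hR x3 hkR
  have hy₂ : y ∉ vs R₂ := by rw [hR₂] at hyR; exact vs_of_insert hyR
  have hadj : G.Adj x k := hC.adj_of_mem hk
  have hhR : s(s₂, s₃) ∈ R₂ := by
    rw [hCR, hR₂] at hh
    simp only [mem_insert] at hh
    rcases hh with hh | hh | hh | hh
    · rw [Sym2.eq_iff] at hh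
      rcases hh with ⟨e, -⟩ | ⟨e, -⟩
      · exact absurd e.symm y2
      · exact absurd e.symm x2
    · rw [Sym2.eq_iff] at hh
      rcases hh with ⟨e, -⟩ | ⟨e, -⟩
      · exact absurd e.symm y2
      · exact absurd e n23
    · rw [Sym2.eq_iff] at hh
      rcases hh with ⟨e, -⟩ | ⟨-, e⟩
      · exact absurd e.symm x2
      · exact absurd e.symm x3
    · exact hh
  have h1R : s₁ ∈ vs R₂ ∨ s₁ = k := by
    by_cases hk1 : s₁ = k
    · exact Or.inr hk1
    · left
      rw [hCR, hR₂] at h1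
      exact not_vs_insert (not_vs_insert (not_vs_insert h1 (Ne.symm y1) (Ne.symm x1)) (Ne.symm y1) n13)
        (Ne.symm x1) hk1
  rcases (hP.nx k).1 hadj with rfl | rfl | rfl | rfl
  · exact absurd rfl hky
  · -- `k = s₂`
    exfalso
    rw [hp₂.eq_singleton hhR, vs_singleton, mem_insert, mem_singleton] at h1R
    rcases h1R with (h | h) | h
    · exact n12 h
    · exact n13 h
    · exact n12 h
  · -- `k = s₃`
    rw [hp₂.eq_empty] at hhR
    exact absurd hhR (notMem_empty _)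
  · -- `k = s₄`
    obtain ⟨R₃, hR₃, hp₃, h2₃⟩ := peel hp₂.symm n34 (by rw [Sym2.eq_swap]; exact hhR)
    have h1' : s₁ ∈ vs R₃ := by
      rw [hR₃] at h1R
      rcases h1R with h1R | h1R
      · exact not_vs_insert h1R n13 n12
      · exact absurd h1R n14
    obtain ⟨A, B, hPP, hAB⟩ := splt hp₃ (by rw [hR₃] at hx₂; exact vs_of_insert hx₂)
      (by rw [hR₃] at hy₂; exact vs_of_insert hy₂) h2₃ h1'
    refine ⟨A, B, hPP, ?_⟩
    rw [hCR, hR₂, hR₃, hAB, cy1, Sym2.eq_swap (a := k) (b := x), Sym2.eq_swap (a := x) (b := y)]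
    ext e
    simp only [mem_insert, mem_union, mem_singleton, or_assoc]
    simp only [or_comm, or_left_comm]

/-- case (II): `xy ∉ C` -/
theorem case5 {x y s₁ s₂ s₃ s₄ : α} {C : Finset (Sym2 α)} (hP : P33 G x y s₁ s₂ s₃ s₄)
    (hC : IsCyc G C) (hh : s(s₂, s₃) ∈ C) (h1 : s₁ ∈ vs C) (h3 : s(y, s₃) ∈ C) (h4 : s(y, s₄) ∈ C) :
    ∃ A B, PP G x y s₃ s₂ s₁ s₄ A B ∧ C = cy3 y s₂ s₃ s₄ A B := by
  have nd := hP.nd
  simp only [List.nodup_cons, List.mem_cons, List.not_mem_nil, or_false, not_or,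
      not_false_eq_true, List.nodup_nil, and_true] at nd
  obtain ⟨⟨xy, x1, x2, x3, x4⟩, ⟨y1, y2, y3, y4⟩, ⟨n12, n13, n14⟩, ⟨n23, n24⟩, n34⟩ := nd
  obtain ⟨R, hCR, hR, hyR⟩ := opn hC h3 h4 n34
  have hhR : s(s₃, s₂) ∈ R := by
    rw [Sym2.eq_swap]
    rw [hCR] at hh
    simp only [mem_insert] at hh
    rcases hh with hh | hh | hh
    · rw [Sym2.eq_iff] at hh
      rcases hh with ⟨e, -⟩ | ⟨e, -⟩
      · exact absurd e.symm y2
      · exact absurd e n23
    · rw [Sym2.eq_iff] at hh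
      rcases hh with ⟨e, -⟩ | ⟨-, e⟩
      · exact absurd e.symm y2
      · exact absurd e.symm y3
    · exact hh
  obtain ⟨R₂, hR₂, hp₂, h3₂⟩ := peel hR n34 hhR
  have hy₂ : y ∉ vs R₂ := by rw [hR₂] at hyR; exact vs_of_insert hyR
  have h1R : s₁ ∈ vs R₂ := by
    rw [hCR, hR₂] at h1
    exact not_vs_insert (not_vs_insert (not_vs_insert h1 (Ne.symm y1) n13) (Ne.symm y1) n14) n13 n12
  have hx₂ : x ∉ vs R₂ := by
    intro hx
    have hxC : x ∈ vs C := by
      rw [hCR, hR₂]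
      exact vs_mono ((subset_insert _ _).trans ((subset_insert _ _).trans (subset_insert _ _))) hx
    obtain ⟨i, j, hij, hi, hj, -⟩ := hC.two_edges hxC
    have key : ∀ k, s(x, k) ∈ C → k = s₂ ∨ k = s₄ := by
      intro k hk
      rcases (hP.nx k).1 (hC.adj_of_mem hk) with h | h | h | h
      · subst h
        exfalso
        rcases hC.eq_or_eq h3 h4 n34 (k := x) (by rw [Sym2.eq_swap]; exact hk) with e | e
        · exact x3 e
        · exact x4 e
      · exact Or.inl h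
      · subst h
        exfalso
        rcases hC.eq_or_eq (v := k) (i := y) (j := s₂) (by rw [Sym2.eq_swap]; exact h3)
          (by rw [Sym2.eq_swap]; exact hh) y2 (k := x) (by rw [Sym2.eq_swap]; exact hk) with e | e
        · exact xy e
        · exact x2 e
      · exact Or.inr h
    have hkk : s(x, s₂) ∈ C ∧ s(x, s₄) ∈ C := by
      rcases key i hi with e | e <;> rcases key j hj with e' | e'
      · exact absurd (e.trans e'.symm) hij
      · rw [← e, ← e']; exact ⟨hi, hj⟩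
      · rw [← e, ← e']; exact ⟨hj, hi⟩
      · exact absurd (e.trans e'.symm) hij
    have hin : ∀ k, s(x, k) ∈ C → k ≠ y → s(x, k) ∈ R₂ := by
      intro k hk hky
      rw [hCR, hR₂] at hk
      simp only [mem_insert] at hk
      rcases hk with hk | hk | hk | hk
      · rw [Sym2.eq_iff] at hk
        rcases hk with ⟨e, -⟩ | ⟨e, -⟩
        · exact absurd e xy
        · exact absurd e x3
      · rw [Sym2.eq_iff] at hk
        rcases hk with ⟨e, -⟩ | ⟨e, -⟩
        · exact absurd e xy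
        · exact absurd e x4
      · rw [Sym2.eq_iff] at hk
        rcases hk with ⟨e, -⟩ | ⟨e, -⟩
        · exact absurd e x3
        · exact absurd e x2
      · exact hk
    have e2 := hin _ hkk.1 (Ne.symm y2)
    have e4 := hin _ hkk.2 (Ne.symm y4)
    obtain ⟨R₃, hR₃, hp₃, h2₃⟩ := peel hp₂ n24 (u := x) (by rw [Sym2.eq_swap]; exact e2)
    have e4' : s(x, s₄) ∈ R₃ := by
      rw [hR₃, mem_insert] at e4
      rcases e4 with e4 | e4
      · rw [Sym2.eq_iff] at e4
        rcases e4 with ⟨e, -⟩ | ⟨-, e⟩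
        · exact absurd e x2
        · exact absurd e.symm n24
      · exact e4
    rw [hR₃, hp₃.eq_singleton e4'] at h1R
    have h5 := not_vs_insert h1R n12 (Ne.symm x1)
    rw [vs_singleton, mem_insert, mem_singleton] at h5
    rcases h5 with e | e
    · exact x1 e.symm
    · exact n14 e
  obtain ⟨A, B, hPP, hAB⟩ := splt hp₂ hx₂ hy₂ h3₂ h1R
  refine ⟨A, B, hPP, ?_⟩
  rw [hCR, hR₂, hAB, cy3, Sym2.eq_swap (a := s₄) (b := y)]
  ext e
  simp only [mem_insert, mem_union, mem_singleton, or_assoc]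
  simp only [or_comm, or_left_comm]

end XLCM

open XLCM in
/-- **XLC** -/
theorem specXLC : SpecXLC := by
  intro α _ _ G x y s₁ s₂ s₃ s₄ C hP hC hh hy h1 hy1
  obtain ⟨i, j, hij, hi, hj, -⟩ := hC.two_edges hy
  have key : ∀ k, s(y, k) ∈ C → k = x ∨ k = s₃ ∨ k = s₄ := by
    intro k hk
    rcases (hP.ny k).1 (hC.adj_of_mem hk) with h | h | h | h
    · exact Or.inl h
    · subst h; exact absurd hk hy1
    · exact Or.inr (Or.inl h)
    · exact Or.inr (Or.inr h)
  have main : ∀ i j, i ≠ j → s(y, i) ∈ C → s(y, j) ∈ C →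
      (i = x ∧ j = s₃) ∨ (i = x ∧ j = s₄) ∨ (i = s₃ ∧ j = s₄) →
      (∃ A B, PP G x y s₃ s₂ s₁ s₄ A B ∧ (C = cy1 x y s₂ s₃ s₄ A B ∨ C = cy2 x y s₂ s₃ s₄ A B ∨
        C = cy3 y s₂ s₃ s₄ A B)) ∨ ∃ A B, PP G x y s₂ s₃ s₁ s₄ A B ∧ C = cy2 x y s₃ s₂ s₄ A B := by
    intro i j _ hi hj h
    rcases h with ⟨rfl, rfl⟩ | ⟨rfl, rfl⟩ | ⟨rfl, rfl⟩
    · obtain ⟨A, B, h2, h3⟩ := case3 hP hC hh h1 hi hj
      exact Or.inl ⟨A, B, h2, Or.inl h3⟩
    · rcases case4 hP hC hh h1 hi hj with ⟨A, B, h2, h3⟩ | ⟨A, B, h2, h3⟩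
      · exact Or.inl ⟨A, B, h2, Or.inr (Or.inl h3)⟩
      · exact Or.inr ⟨A, B, h2, h3⟩
    · obtain ⟨A, B, h2, h3⟩ := case5 hP hC hh h1 hi hj
      exact Or.inl ⟨A, B, h2, Or.inr (Or.inr h3)⟩
  rcases key i hi with e | e | e <;> rcases key j hj with e' | e' | e'
  · exact absurd (e.trans e'.symm) hij
  · exact main i j hij hi hj (Or.inl ⟨e, e'⟩)
  · exact main i j hij hi hj (Or.inr (Or.inl ⟨e, e'⟩))
  · exact main j i hij.symm hj hi (Or.inl ⟨e', e⟩)
  · exact absurd (e.trans e'.symm) hij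
  · exact main i j hij hi hj (Or.inr (Or.inr ⟨e, e'⟩))
  · exact main j i hij.symm hj hi (Or.inr (Or.inl ⟨e', e⟩))
  · exact main j i hij.symm hj hi (Or.inr (Or.inr ⟨e', e⟩))
  · exact absurd (e.trans e'.symm) hij

end DL
end

section
/-!
# Module XLL: assembly of the link part
-/
set_option autoImplicit false

open SimpleGraph Finset

namespace DL

namespace XLLM

variable {α : Type} [Fintype α] [DecidableEq α] {G : SimpleGraph α}

/-- a cycle containing a triangle is the triangle -/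
theorem tri_eq {C : Finset (Sym2 α)} (hC : IsCyc G C) {a b c : α} (hab : s(a, b) ∈ C)
    (hac : s(a, c) ∈ C) (hbc : s(b, c) ∈ C) (hne : b ≠ c) :
    C = insert s(a, b) (insert s(a, c) {s(b, c)}) := by
  have h1 := hC.adj_of_mem hab
  have h2 := hC.adj_of_mem hac
  have h3 := hC.adj_of_mem hbc
  have h4 : IsPth (del G {a}) b c {s(b, c)} :=
    IsPth.edge ⟨h3, fun h => h1.ne' (mem_singleton.1 h), fun h => h2.ne' (mem_singleton.1 h)⟩
  have h5 := isCyc_of_isPth_del h1 h2 hne h4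
  refine (hC.eq_of_subset h5 ?_).symm
  intro e he
  simp only [mem_insert, mem_singleton] at he
  rcases he with rfl | rfl | rfl <;> assumption

/-- the product of the coordinates of one of the remaining cycles -/
theorem prod_eq {x y s t u v p q : α} {m : ZMod 2} {E A B : Finset (Sym2 α)}
    (hE1 : s(y, v) ∈ E) (hE2 : s(p, q) ∈ E) (hE3 : s(u, v) ∉ E)
    (hP : PP G x y t s u v A B) :
    m * (chi (E ∪ A ∪ B) s(y, v) * chi (E ∪ A ∪ B) s(u, v) * chi (E ∪ A ∪ B) s(p, q)) =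
      if B = {s(u, v)} then m else 0 := by
  have hB := hP.b
  have hvA : s(u, v) ∉ A := by
    intro h
    by_cases huv : u = v
    · subst huv
      exact hP.a.not_isDiag _ h rfl
    · have h1 : v ∈ vs A ∩ vs B := mem_inter.2 ⟨right_mem_vs h, hB.right_mem huv⟩
      exact huv (mem_singleton.1 (hP.d h1)).symm
  have e1 : chi (E ∪ A ∪ B) s(y, v) = 1 :=
    if_pos (mem_union_left _ (mem_union_left _ hE1))
  have e2 : chi (E ∪ A ∪ B) s(p, q) = 1 :=
    if_pos (mem_union_left _ (mem_union_left _ hE2))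
  rw [e1, e2, one_mul, mul_one]
  by_cases h : B = {s(u, v)}
  · rw [if_pos h]
    have e3 : chi (E ∪ A ∪ B) s(u, v) = 1 := if_pos (mem_union_right _ (by rw [h]; simp))
    rw [e3, mul_one]
  · rw [if_neg h]
    have e3 : chi (E ∪ A ∪ B) s(u, v) = 0 := by
      refine if_neg ?_
      rw [mem_union, mem_union, not_or, not_or]
      exact ⟨⟨hE3, hvA⟩, fun h' => h (hB.eq_singleton h')⟩
    rw [e3, mul_zero]

end XLLM

open XLLM in
theorem specXLL (hXLC : SpecXLC) (hXL1 : SpecXL1) (hXL2 : SpecXL2) (hXL3 : SpecXL3)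
    (hXL4 : SpecXL4) : SpecXLL := by
  intro α _ _ G x y s₁ s₂ s₃ s₄ f hf
  have hnp := hf.p33.nd
  simp only [List.nodup_cons, List.mem_cons, List.not_mem_nil, or_false, not_or,
    List.nodup_nil, and_true, not_false_eq_true] at hnp
  obtain ⟨⟨nxy, nx1, nx2, nx3, nx4⟩, ⟨ny1, ny2, ny3, ny4⟩, ⟨n12, n13, n14⟩, ⟨n23, n24⟩, n34⟩ := hnp
  obtain ⟨m, hm⟩ : ∃ m : ZMod 2, G.Adj s₁ s₄ →
      (∀ A, IsPth (del G {x, y, s₃, s₄}) s₂ s₁ A → f (cy2 x y s₂ s₃ s₄ A {s(s₁, s₄)}) = m) ∧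
      ∀ A, IsPth (del G {x, y, s₂, s₄}) s₃ s₁ A → f (cy2 x y s₃ s₂ s₄ A {s(s₁, s₄)}) = m := by
    by_cases h : G.Adj s₁ s₄
    · obtain ⟨m, hm⟩ := hXL4 hf h
      exact ⟨m, fun _ => hm⟩
    · exact ⟨0, fun h' => absurd h' h⟩
  -- a path `A` and the edge `s₁s₄`
  have hpath : ∀ (t s : α) (A : Finset (Sym2 α)), PP G x y t s s₁ s₄ A {s(s₁, s₄)} →
      G.Adj s₁ s₄ ∧ IsPth (del G {x, y, t, s₄}) s s₁ A := by
    intro t s A h
    refine ⟨(h.b.adj_of_mem (mem_singleton_self _)).1, ?_⟩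
    have h1 := h.a
    rw [isPth_del] at h1 ⊢
    refine ⟨h1.1, ?_⟩
    rw [Finset.disjoint_left] at h1 ⊢
    intro v hv hv'
    have h2 : v ∈ ({x, y, t} : Finset α) ∨ v = s₄ := by
      simp only [mem_insert, mem_singleton] at hv' ⊢
      tauto
    rcases h2 with h2 | rfl
    · exact h1.2 hv h2
    · have h3 : v ∈ vs A ∩ vs {s(s₁, v)} :=
        mem_inter.2 ⟨hv, right_mem_vs (mem_singleton_self _)⟩
      exact n14 (mem_singleton.1 (h.d h3)).symm
  have c2 : ∀ A B, PP G x y s₃ s₂ s₁ s₄ A B →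
      f (cy2 x y s₂ s₃ s₄ A B) = if B = {s(s₁, s₄)} then m else 0 := by
    intro A B h
    by_cases hB : B = {s(s₁, s₄)}
    · rw [if_pos hB]
      subst hB
      obtain ⟨h1, h2⟩ := hpath _ _ _ h
      exact (hm h1).1 A h2
    · rw [if_neg hB]
      exact hXL1.a hf h hB
  refine ⟨m, fun C hC => ?_⟩
  by_cases h23 : s(s₂, s₃) ∈ C
  swap
  · rw [hf.zh C hC h23, show chi C s(s₂, s₃) = 0 from if_neg h23, mul_zero, mul_zero]
  by_cases hM : CycM G y s₁ C
  · rw [hf.ze C hM]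
    by_cases h4 : s(y, s₄) ∈ C
    swap
    · rw [show chi C s(y, s₄) = 0 from if_neg h4, zero_mul, zero_mul, mul_zero]
    by_cases h14 : s(s₁, s₄) ∈ C
    swap
    · rw [show chi C s(s₁, s₄) = 0 from if_neg h14, mul_zero, zero_mul, mul_zero]
    exfalso
    have h1 := hM.2 (left_mem_vs h4) (left_mem_vs h14)
    rw [tri_eq hC h1 h4 h14 n14] at h23
    simp only [mem_insert, mem_singleton, Sym2.eq_iff] at h23
    rcases h23 with (⟨e, _⟩ | ⟨e, _⟩) | (⟨e, _⟩ | ⟨e, _⟩) | (⟨e, _⟩ | ⟨e, _⟩)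
    · exact ny2 e.symm
    · exact n12 e.symm
    · exact ny2 e.symm
    · exact n24 e
    · exact n12 e.symm
    · exact n24 e
  have hM' : y ∈ vs C ∧ s₁ ∈ vs C ∧ s(y, s₁) ∉ C := by
    unfold CycM at hM
    push Not at hM
    exact hM hC
  rcases hXLC hf.p33 hC h23 hM'.1 hM'.2.1 hM'.2.2 with ⟨A, B, hP, h | h | h⟩ | ⟨A, B, hP, h⟩
  · -- `cy1`
    have hy4 : s(y, s₄) ∉ C := by
      rw [h]
      unfold cy1
      rw [mem_union, mem_union, not_or, not_or]
      refine ⟨⟨?_, ?_⟩, ?_⟩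
      · simp only [mem_insert, mem_singleton, Sym2.eq_iff]
        rintro ((⟨e, _⟩ | ⟨e, _⟩) | (⟨e, _⟩ | ⟨e, e'⟩) | (⟨e, e'⟩ | ⟨e, _⟩) | (⟨e, _⟩ | ⟨e, _⟩))
        · exact ny4 e
        · exact nxy e.symm
        · exact nxy e.symm
        · exact nx4 e'.symm
        · exact n34 e'.symm
        · exact ny3 e
        · exact ny3 e
        · exact ny2 e
      · intro h'
        exact (hP.a.adj_of_mem h').2.1 (by simp)
      · intro h'
        exact (hP.b.adj_of_mem h').2.1 (by simp)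
    rw [show chi C s(y, s₄) = 0 from if_neg hy4, zero_mul, zero_mul, mul_zero, h, hXL3 hf hP,
      ← hXL2 hf hP]
    exact CharTwo.add_self_eq_zero _
  · rw [h, c2 A B hP]
    unfold cy2
    rw [prod_eq (x := x) (t := s₃) (s := s₂) ?_ ?_ ?_ hP]
    · simp [Sym2.eq_swap]
    · simp [Sym2.eq_swap]
    · simp only [mem_insert, mem_singleton, Sym2.eq_iff]
      tauto
  · rw [h, ← hXL2 hf hP, c2 A B hP]
    unfold cy3
    rw [prod_eq (x := x) (t := s₃) (s := s₂) ?_ ?_ ?_ hP]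
    · simp [Sym2.eq_swap]
    · simp [Sym2.eq_swap]
    · simp only [mem_insert, mem_singleton, Sym2.eq_iff]
      tauto
  · have c2' : f (cy2 x y s₃ s₂ s₄ A B) = if B = {s(s₁, s₄)} then m else 0 := by
      by_cases hB : B = {s(s₁, s₄)}
      · rw [if_pos hB]
        subst hB
        obtain ⟨h1, h2⟩ := hpath _ _ _ hP
        exact (hm h1).2 A h2
      · rw [if_neg hB]
        exact hXL1.b hf hP hB
    rw [h, c2']
    unfold cy2
    rw [prod_eq (x := x) (t := s₂) (s := s₃) ?_ ?_ ?_ hP]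
    · simp [Sym2.eq_swap]
    · simp [Sym2.eq_swap]
    · simp only [mem_insert, mem_singleton, Sym2.eq_iff]
      tauto

end DL
end

section
/-!
# MP_3ff0f8_gt, algebra half, module XN4 (helper98): `G/ys₁ - ys₄` is nonplanar
-/
set_option autoImplicit false
set_option linter.unusedSectionVars false

open SimpleGraph Finset

namespace DL

namespace XN4M

variable {α : Type} [Fintype α] [DecidableEq α]

/-- a chain with the trace of the row `y c` at `b` -/
theorem trace (hTRC : SpecTRC) {G : SimpleGraph α} {z : Sym2 α → Sym2 α → ZMod 2}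
    (hz : IsZ2 G z) {x y b c : α} (hbx : b ≠ x) (hby : b ≠ y) (hbc : b ≠ c)
    (hxb : ¬ G.Adj b x) (hcon : ConnOff G (insert b {x, y, c})) :
    ∃ Z ∈ Z1 (del G {x, y, c}), ∀ e, b ∈ e → Z e = z s(y, c) e := by
  classical
  have hb : b ∉ ({x, y, c} : Finset α) := by
    simp only [mem_insert, mem_singleton, not_or]
    exact ⟨hbx, hby, hbc⟩
  have hT1 : ∀ e, (if b ∈ e then z s(y, c) e else 0) ≠ 0 →
      e ∈ (del G {x, y, c}).edgeSet ∧ b ∈ e := by
    intro e he
    have hbe : b ∈ e := by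
      by_contra h
      exact he (if_neg h)
    rw [if_pos hbe] at he
    obtain ⟨-, h2, h3⟩ := hz.2.1 _ _ he
    refine ⟨?_, hbe⟩
    have hye : y ∉ e := fun h => h3 y ⟨by simp, h⟩
    have hce : c ∉ e := fun h => h3 c ⟨by simp, h⟩
    obtain ⟨w, rfl⟩ := Sym2.mem_iff_exists.1 hbe
    rw [mem_edgeSet] at h2
    rw [mem_edgeSet, del_adj]
    simp only [Sym2.mem_iff, not_or] at hye hce
    refine ⟨h2, hb, ?_⟩
    simp only [mem_insert, mem_singleton, not_or]
    refine ⟨?_, fun h => hye.2 h.symm, fun h => hce.2 h.symm⟩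
    rintro rfl
    exact hxb h2
  have hT2 : ∑ e, (if b ∈ e then z s(y, c) e else 0) = 0 := by
    rw [← sum_filter]
    have := hz.2.2 s(y, c) b (by
      rw [Sym2.mem_iff]
      rintro (h | h)
      · exact hby h
      · exact hbc h)
    convert this using 2
  obtain ⟨Z, hZ, hZe⟩ := hTRC G {x, y, c} b hb hcon
    (fun e => if b ∈ e then z s(y, c) e else 0) hT1 hT2
  refine ⟨Z, hZ, fun e he => ?_⟩
  rw [hZe e he, if_pos he]

/-- a path from `s₁` to `s₄` in `G - s₁s₄ - {x, y, s₂, s₃}` -/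
theorem reach (hFRG : SpecFRG) (hXCB : SpecXCB) {G : SimpleGraph α} {x y s₁ s₂ s₃ s₄ : α}
    (hK : K48 G) (hP : P33 G x y s₁ s₂ s₃ s₄) :
    (del (delE G s₁ s₄) {x, y, s₂, s₃}).Reachable s₄ s₁ := by
  by_contra hc
  have hnd := hP.nd
  simp only [List.nodup_cons, List.mem_cons, List.not_mem_nil, or_false, not_or, List.nodup_nil,
    and_true] at hnd
  obtain ⟨⟨hxy, hx1, hx2, hx3, hx4⟩, ⟨hy1, hy2, hy3, hy4⟩, ⟨h12, h13, h14⟩, ⟨h23, h24⟩, h34, -⟩ := hnd
  set H := del (delE G s₁ s₄) {x, y, s₂, s₃} with hH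
  obtain ⟨B, hB⟩ : ∃ B : Finset α, ∀ v, v ∈ B ↔ H.Reachable s₄ v := by
    classical
    exact ⟨univ.filter fun v => H.Reachable s₄ v, fun v => by simp⟩
  have h4B : s₄ ∈ B := (hB _).2 (Reachable.refl _)
  have h4n : s₄ ∉ ({x, y, s₂, s₃} : Finset α) := by
    simp only [mem_insert, mem_singleton, not_or]
    exact ⟨Ne.symm hx4, Ne.symm hy4, Ne.symm h24, Ne.symm h34⟩
  have hBn : ∀ v ∈ B, v ∉ ({x, y, s₂, s₃} : Finset α) := fun v hv =>
    reachable_del_notMem_right ((hB v).1 hv) h4n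
  have h1B : s₁ ∉ B := fun h => hc ((hB _).1 h)
  -- closure
  have hcl : ∀ v ∈ B, ∀ w, G.Adj v w → w ∉ ({x, y, s₂, s₃} : Finset α) → s(v, w) ≠ s(s₁, s₄) →
      w ∈ B := by
    intro v hv w hvw hw hne
    rw [hB] at hv ⊢
    refine hv.trans (Adj.reachable ?_)
    rw [hH, del_adj, delE_adj]
    exact ⟨⟨hvw, hne⟩, hBn v ((hB v).2 hv), hw⟩
  have hD : B.erase s₄ = ∅ := by
    by_contra hne
    rw [← Ne, ← nonempty_iff_ne_empty] at hne
    have hxV : x ∈ VS G := left_mem_VS ((hP.nx y).2 (Or.inl rfl))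
    refine hFRG.few (D := B.erase s₄) (W := {s₄, s₂, s₃}) (r := x) hK.1 ?_ hne ?_ ?_ hxV ?_ ?_
    · intro v hv
      rw [mem_erase] at hv
      obtain ⟨w, hw⟩ : ∃ w, H.Adj v w := by
        obtain ⟨P, hP'⟩ := exists_isPth ((hB v).1 hv.2).symm
        obtain ⟨u, hu, _⟩ := hP'.uncons hv.1
        exact ⟨u, hu⟩
      exact left_mem_VS hw.1.1
    · intro w hw
      simp only [NB, mem_filter, mem_univ, true_and] at hw
      obtain ⟨hwD, v, hv, hvw⟩ := hw
      rw [mem_erase] at hv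
      have hvn := hBn v hv.2
      simp only [mem_insert, mem_singleton, not_or] at hvn ⊢
      have hv1 : v ≠ s₁ := fun h => h1B (h ▸ hv.2)
      by_cases hw4 : w = s₄
      · exact Or.inl hw4
      by_cases hwn : w ∈ ({x, y, s₂, s₃} : Finset α)
      · simp only [mem_insert, mem_singleton] at hwn
        rcases hwn with rfl | rfl | hwn
        · exfalso
          rcases (hP.nx v).1 hvw.symm with h | h | h | h
          · exact hvn.2.1 h
          · exact hvn.2.2.1 h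
          · exact hvn.2.2.2 h
          · exact hv.1 h
        · exfalso
          rcases (hP.ny v).1 hvw.symm with h | h | h | h
          · exact hvn.1 h
          · exact hv1 h
          · exact hvn.2.2.2 h
          · exact hv.1 h
        · exact Or.inr hwn
      · exfalso
        refine hwD (mem_erase.2 ⟨hw4, hcl v hv.2 w hvw hwn ?_⟩)
        rw [Ne, Sym2.eq_iff]
        rintro (⟨h, _⟩ | ⟨h, _⟩)
        · exact hv1 h
        · exact hv.1 h
    · exact (card_insert_le _ _).trans (Nat.succ_le_succ card_le_two)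
    · intro h
      exact hBn x (mem_erase.1 h).2 (by simp)
    · simp only [mem_insert, mem_singleton, not_or]
      exact ⟨hx4, hx2, hx3⟩
  obtain ⟨w, hw, hwn⟩ := hXCB.s3 hK hP.sym2
  simp only [mem_insert, mem_singleton, not_or] at hwn
  have hwB : w ∈ B := by
    refine hcl s₄ h4B w hw ?_ ?_
    · simp only [mem_insert, mem_singleton, not_or]
      exact ⟨hwn.1, hwn.2.1, hwn.2.2.2.1, hwn.2.2.2.2⟩
    · rw [Ne, Sym2.eq_iff]
      rintro (⟨h, _⟩ | ⟨_, h⟩)
      · exact h14 h.symm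
      · exact hwn.2.2.1 h
  have : w ∈ B.erase s₄ := mem_erase.2 ⟨hw.ne', hwB⟩
  rw [hD] at this
  simp at this

theorem tri_symm {a b c : α} : tri b a c = tri a b c := by
  unfold tri
  congr 1
  ext e
  simp only [mem_insert, mem_singleton, Sym2.eq_swap (a := b) (b := a)]
  tauto

theorem perm4 {a b c d : α} : ({a, b, c, d} : Finset α) = insert c {a, b, d} := by
  ext v
  simp only [mem_insert, mem_singleton]
  tauto

/-- row zero after adding a torus -/
theorem killrow {z : Sym2 α → Sym2 α → ZMod 2} {t Z : Chain α} {e : Sym2 α} (ht : t e = 1)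
    (hZe : Z e = 0) {f : Sym2 α} (h : Z f = z e f) : z e f + tor t Z e f = 0 := by
  unfold tor
  rw [ht, hZe, h, one_mul, zero_mul, add_zero, zmod2_add_self]

end XN4M

open F1NM XN4M in
theorem specXN4 (hXCC : SpecXCC) (hVKA : SpecVKA) (hKUR : SpecKUR) (hNPC : SpecNPC)
    (hTRC : SpecTRC) (hXCB : SpecXCB) (hC20 : SpecC20) (hFRG : SpecFRG) : SpecXN4 := by
  intro α _ _ G x y s₁ s₂ s₃ s₄ hK hP a23 a14 n13 n24 hNP
  have hnd := hP.nd
  simp only [List.nodup_cons, List.mem_cons, List.not_mem_nil, or_false, not_or, List.nodup_nil,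
    and_true] at hnd
  obtain ⟨⟨hxy, hx1, hx2, hx3, hx4⟩, ⟨hy1, hy2, hy3, hy4⟩, ⟨h12, h13, h14⟩, ⟨h23, h24⟩, h34, -⟩ := hnd
  have axy : G.Adj x y := (hP.nx y).2 (Or.inl rfl)
  have ax2 : G.Adj x s₂ := (hP.nx s₂).2 (by simp)
  have ax3 : G.Adj x s₃ := (hP.nx s₃).2 (by simp)
  have ax4 : G.Adj x s₄ := (hP.nx s₄).2 (by simp)
  have ay1 : G.Adj y s₁ := (hP.ny s₁).2 (by simp)
  have ay3 : G.Adj y s₃ := (hP.ny s₃).2 (by simp)
  have ay4 : G.Adj y s₄ := (hP.ny s₄).2 (by simp)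
  have nx1 : ¬ G.Adj x s₁ := by
    rw [hP.nx]
    rintro (h | h | h | h)
    · exact hy1 h.symm
    · exact h12 h
    · exact h13 h
    · exact h14 h
  -- step 1
  have hR : NP (delE G s₁ s₄) := hXCC.np hK hP.sym1.sym2 a14 hNP
  obtain ⟨r, hr, z, hz, hv⟩ := hR
  set R := delE G s₁ s₄ with hRdef
  have hRG : R ≤ G := delE_le _ _ _
  have hRadj : ∀ {u w : α}, G.Adj u w → ¬ (u = s₁ ∧ w = s₄) → ¬ (u = s₄ ∧ w = s₁) → R.Adj u w := by
    intro u w h h1 h2
    rw [hRdef, delE_adj]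
    refine ⟨h, ?_⟩
    rw [Ne, Sym2.eq_iff]
    exact fun h3 => h3.elim h1 h2
  have rxy : R.Adj x y := hRadj axy (fun h => hx1 h.1) (fun h => hx4 h.1)
  have rx2 : R.Adj x s₂ := hRadj ax2 (fun h => hx1 h.1) (fun h => hx4 h.1)
  have rx3 : R.Adj x s₃ := hRadj ax3 (fun h => hx1 h.1) (fun h => hx4 h.1)
  have rx4 : R.Adj x s₄ := hRadj ax4 (fun h => hx1 h.1) (fun h => hx4 h.1)
  have ry1 : R.Adj y s₁ := hRadj ay1 (fun h => hy1 h.1) (fun h => hy4 h.1)
  have ry3 : R.Adj y s₃ := hRadj ay3 (fun h => hy1 h.1) (fun h => hy4 h.1)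
  have ry4 : R.Adj y s₄ := hRadj ay4 (fun h => hy1 h.1) (fun h => hy4 h.1)
  have r23 : R.Adj s₂ s₃ := hRadj a23 (fun h => h12 h.1.symm) (fun h => h24 h.1)
  -- step 2: the row `ys₄` has no edge at `x`
  obtain ⟨z', hz', hv', hzx⟩ : ∃ z', IsZ2 R z' ∧ vk r z' ≠ 0 ∧ z' s(y, s₄) s(x, s₂) = 0 := by
    by_cases h0 : z s(y, s₄) s(x, s₂) = 0
    · exact ⟨z, hz, hv, h0⟩
    obtain ⟨Q, hQ⟩ := exists_isPth (reach hFRG hXCB hK hP)
    obtain ⟨hQ1, hQ2⟩ := DL.isPth_del.1 hQ
    have hyQ : y ∉ vs Q := fun h => Finset.disjoint_left.1 hQ2 h (by simp)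
    -- the cycle `y s₄ Q s₁ y`
    have hc1 : IsPth R y s₁ (insert s(y, s₄) Q) := hQ1.cons ry4 hyQ
    have hn1 : s(y, s₁) ∉ insert s(y, s₄) Q := by
      rw [mem_insert, not_or]
      refine ⟨?_, fun h => hyQ (left_mem_vs h)⟩
      rw [Sym2.eq_iff]
      rintro (⟨_, h⟩ | ⟨h, _⟩)
      · exact h14 h
      · exact hy4 h
    have hc2 := hc1.isCyc ry1 hn1
    set C := insert s(y, s₁) (insert s(y, s₄) Q) with hC
    have hCv : ∀ e v, chi C e ≠ 0 → v ∈ e → v ∈ (univ \ {x, s₂, s₃} : Finset α) := by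
      intro e v he hve
      rw [chi_ne_zero] at he
      have hvC : v ∈ vs C := mem_vs.2 ⟨e, he, hve⟩
      rw [hC, vs_insert, vs_insert] at hvC
      simp only [mem_union, mem_insert, mem_singleton] at hvC
      rw [mem_sdiff]
      refine ⟨mem_univ _, ?_⟩
      simp only [mem_insert, mem_singleton, not_or]
      rcases hvC with (h | h) | (h | h) | h
      · rw [h]; exact ⟨Ne.symm hxy, hy2, hy3⟩
      · rw [h]; exact ⟨Ne.symm hx1, h12, h13⟩
      · rw [h]; exact ⟨Ne.symm hxy, hy2, hy3⟩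
      · rw [h]; exact ⟨Ne.symm hx4, Ne.symm h24, Ne.symm h34⟩
      · have := Finset.disjoint_left.1 hQ2 h
        simp only [mem_insert, mem_singleton, not_or] at this
        exact ⟨this.1, this.2.2.1, this.2.2.2⟩
    have htri : tri x s₂ s₃ ∈ Z1 R := tri_mem rx2 r23 rx3
    have hdis : Disjoint (univ \ {x, s₂, s₃} : Finset α) {x, s₂, s₃} := sdiff_disjoint
    refine ⟨fun e f => z e f + tor (chi C) (tri x s₂ s₃) e f,
      hKUR.zadd hz (hKUR.tor _ _ hc2.chi_mem htri hCv (fun e v he hv => tri_supp e v he hv) hdis),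
      ?_, ?_⟩
    · rw [hVKA.add, hVKA.tor _ _ hr hc2.chi_mem htri hCv (fun e v he hv => tri_supp e v he hv) hdis,
        add_zero]
      exact hv
    · have h1 : z s(y, s₄) s(x, s₂) = 1 := (zmod2_cases _).resolve_left h0
      have h2 : chi C s(y, s₄) = 1 := chi_of_mem (by simp [hC])
      have h3 : tri x s₂ s₃ s(x, s₂) = 1 := by unfold tri; exact chi_of_mem (by simp)
      have h4 : tri x s₂ s₃ s(y, s₄) = 0 := by
        by_contra h
        have := tri_supp s(y, s₄) y h (by simp)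
        simp only [mem_insert, mem_singleton] at this
        rcases this with h5 | h5 | h5
        · exact hxy h5.symm
        · exact hy2 h5
        · exact hy3 h5
      simp only [tor, h1, h2, h3, h4]
      rw [zero_mul, add_zero, one_mul]
      exact zmod2_add_self 1
  clear hv hz
  -- no edge at `x`
  have hrow : z' s(y, s₄) ∈ Z1 (del R {y, s₄}) := hKUR.row y s₄ hz'
  have hZx : ∀ e, x ∈ e → z' s(y, s₄) e = 0 := by
    have h3 : z' s(y, s₄) s(x, s₃) = 0 := by
      have hb := hz'.2.2 s(y, s₄) x (by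
        rw [Sym2.mem_iff]
        rintro (h | h)
        · exact hxy h
        · exact hx4 h)
      rw [sum_eq_single s(x, s₃)] at hb
      · exact hb
      · intro g hg hgne
        rw [mem_filter] at hg
        by_contra hg0
        obtain ⟨-, hgG, hfg⟩ := hz'.2.1 _ g hg0
        obtain ⟨w, rfl, hw⟩ := vs_adj hgG hg.2
        rcases (hP.nx w).1 (hRG hw) with rfl | rfl | rfl | rfl
        · exact hfg w ⟨by simp, by simp⟩
        · exact hg0 hzx
        · exact hgne rfl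
        · exact hfg w ⟨by simp, by simp⟩
      · intro h
        exact absurd (mem_filter.2 ⟨mem_univ _, by simp⟩) h
    intro e hxe
    by_contra h0
    obtain ⟨-, heG, hdj⟩ := hz'.2.1 _ e h0
    obtain ⟨w, rfl, hw⟩ := vs_adj heG hxe
    rcases (hP.nx w).1 (hRG hw) with rfl | rfl | rfl | rfl
    · exact hdj w ⟨by simp, by simp⟩
    · exact h0 hzx
    · exact h0 h3
    · exact hdj w ⟨by simp, by simp⟩
  have hZ1 : z' s(y, s₄) ∈ Z1 (del R {x, y, s₄}) := by
    rw [mem_Z1] at hrow ⊢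
    refine ⟨fun e he => ?_, hrow.2⟩
    have h1 := hrow.1 e he
    induction e using Sym2.ind with
    | _ a b =>
      rw [mem_edgeSet, del_adj] at h1 ⊢
      have ha : a ≠ x := fun h => he (hZx _ (by rw [h]; simp))
      have hb : b ≠ x := fun h => he (hZx _ (by rw [h]; simp))
      refine ⟨h1.1, ?_, ?_⟩
      · rw [mem_insert, not_or]; exact ⟨ha, h1.2.1⟩
      · rw [mem_insert, not_or]; exact ⟨hb, h1.2.2⟩
  obtain ⟨hz2, hv2⟩ := addtor hVKA hKUR hr hz' {x, y, s₄} (tri_mem rxy ry4 rx4)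
    (fun e v he hv => tri_supp e v he hv) hZ1
  have hself : z' s(y, s₄) s(y, s₄) = 0 := by
    by_contra h
    exact (hz'.2.1 _ _ h).2.2 y ⟨by simp, by simp⟩
  have ht4 : tri x y s₄ s(y, s₄) = 1 := by unfold tri; exact chi_of_mem (by simp)
  have hk2 : ∀ f, z' s(y, s₄) f + tor (tri x y s₄) (z' s(y, s₄)) s(y, s₄) f = 0 := fun f =>
    killrow ht4 hself rfl
  set z2 : Sym2 α → Sym2 α → ZMod 2 :=
    fun e f => z' e f + tor (tri x y s₄) (z' s(y, s₄)) e f with hz2def
  have hz2R : IsZ2 (delE R y s₄) z2 := hKUR.del hz2 hk2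
  have hvz2 : vk r z2 ≠ 0 := by rw [hv2]; exact hv'
  clear_value z2
  -- `R₂`
  set R₂ := delE R y s₄ with hR2def
  have hR2R : R₂ ≤ R := delE_le _ _ _
  have h2adj : ∀ {u w : α}, R.Adj u w → ¬ (u = y ∧ w = s₄) → ¬ (u = s₄ ∧ w = y) → R₂.Adj u w := by
    intro u w h h1 h2
    rw [hR2def, delE_adj]
    refine ⟨h, ?_⟩
    rw [Ne, Sym2.eq_iff]
    exact fun h3 => h3.elim h1 h2
  have qxy : R₂.Adj x y := h2adj rxy (fun h => hxy h.1) (fun h => hx4 h.1)
  have qx3 : R₂.Adj x s₃ := h2adj rx3 (fun h => hxy h.1) (fun h => hx4 h.1)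
  have qy1 : R₂.Adj y s₁ := h2adj ry1 (fun h => h14 h.2) (fun h => hy4 h.1)
  have qy3 : R₂.Adj y s₃ := h2adj ry3 (fun h => h34 h.2) (fun h => hy4 h.1)
  have hny : ∀ w, R₂.Adj y w → w = x ∨ w = s₁ ∨ w = s₃ := by
    intro w hw
    rcases (hP.ny w).1 (hRG (hR2R hw)) with h | h | h | h
    · exact Or.inl h
    · exact Or.inr (Or.inl h)
    · exact Or.inr (Or.inr h)
    · exfalso
      rw [hR2def, delE_adj] at hw
      exact hw.2 (by rw [h])
  have hcon : ConnOff R₂ (insert s₁ {x, y, s₃}) := by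
    have h1 := (hC20.two hK hP).2.2.1
    intro a ha b hb haS hbS
    have hVS : ∀ v, v ∈ VS R₂ → v ∈ VS G := by
      intro v hv
      obtain ⟨w, hw⟩ := mem_VS.1 hv
      exact left_mem_VS (hRG (hR2R hw))
    rw [perm4] at h1
    refine (h1 a (hVS a ha) b (hVS b hb) haS hbS).mono ?_
    intro u w huw
    rw [del_adj] at huw ⊢
    refine ⟨?_, huw.2⟩
    have hu := huw.2.1
    have hw := huw.2.2
    simp only [mem_insert, mem_singleton, not_or] at hu hw
    exact h2adj (hRadj huw.1 (fun h => hu.1 h.1) (fun h => hw.1 h.2))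
      (fun h => hu.2.2.1 h.1) (fun h => hw.2.2.1 h.2)
  obtain ⟨Z3, hZ3, hZ3e⟩ := trace hTRC hz2R (x := x) (y := y) (b := s₁) (c := s₃)
    (Ne.symm hx1) (Ne.symm hy1) h13 (fun h => nx1 (hRG (hR2R h)).symm) hcon
  obtain ⟨hz3, hv3⟩ := addtor hVKA hKUR hr hz2R {x, y, s₃} (tri_mem qxy qy3 qx3)
    (fun e v he hv => tri_supp e v he hv) hZ3
  have ht3 : tri x y s₃ s(y, s₃) = 1 := by unfold tri; exact chi_of_mem (by simp)
  have hyZ3 : Z3 s(y, s₃) = 0 := by
    by_contra h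
    exact notMem_of_mem_del ((mem_Z1.1 hZ3).1 _ h) (Sym2.mem_mk_left y s₃) (by simp)
  have hk3 : ∀ f, s₁ ∈ f → z2 s(y, s₃) f + tor (tri x y s₃) Z3 s(y, s₃) f = 0 := fun f hf =>
    killrow ht3 hyZ3 (hZ3e f hf)
  set z3 : Sym2 α → Sym2 α → ZMod 2 := fun e f => z2 e f + tor (tri x y s₃) Z3 e f with hz3def
  have hvz3 : vk r z3 ≠ 0 := by rw [hv3]; exact hvz2
  have hk3' : ∀ f, s₁ ∈ f → z3 s(y, s₃) f = 0 := hk3
  clear_value z3
  have hzab : Zab y s₁ z3 := by
    intro e f hye h1f hne hnf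
    by_contra h0
    obtain ⟨he, hf, hdj⟩ := hz3.2.1 e f h0
    obtain ⟨w, rfl, hw⟩ := vs_adj he hye
    rcases hny w hw with rfl | rfl | rfl
    · have hyf : y ∉ f := fun h => hdj y ⟨hye, h⟩
      have hb := hz3.2.2 f y hyf
      rw [sum_eq_single s(y, w)] at hb
      · exact h0 (by rw [hz3.1]; exact hb)
      · intro g hg hgne
        rw [mem_filter] at hg
        by_contra hg0
        obtain ⟨-, hgG, hfg⟩ := hz3.2.1 f g hg0
        obtain ⟨w', rfl, hw'⟩ := vs_adj hgG hg.2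
        rcases hny w' hw' with rfl | rfl | rfl
        · exact hgne rfl
        · exact hfg w' ⟨h1f, by simp⟩
        · exact hg0 (by rw [hz3.1]; exact hk3' f h1f)
      · intro h
        exact absurd (mem_filter.2 ⟨mem_univ _, by simp⟩) h
    · exact hne rfl
    · exact h0 (hk3' f h1f)
  have hfin := (hNPC.down (r := r) hr hz3 hvz3 qy1 hzab).1
  refine hNPC.mono ?_ hfin
  intro u w huw
  rw [delE_adj]
  obtain ⟨h1, h2, h3, h4⟩ := huw
  have hle : R₂ ≤ G := hR2R.trans hRG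
  have n14' : ¬ R₂.Adj s₁ s₄ := by
    intro h
    have := hR2R h
    rw [hRdef, delE_adj] at this
    exact this.2 rfl
  have ny4' : ¬ R₂.Adj y s₄ := by
    intro h
    rw [hR2def, delE_adj] at h
    exact h.2 rfl
  refine ⟨⟨h1, h2, h3, ?_⟩, ?_⟩
  · rcases h4 with h | ⟨h, h'⟩ | ⟨h, h'⟩
    · exact Or.inl (hle h)
    · exact Or.inr (Or.inl ⟨h, hle h'⟩)
    · exact Or.inr (Or.inr ⟨h, hle h'⟩)
  · rw [Ne, Sym2.eq_iff]
    rintro (⟨rfl, rfl⟩ | ⟨rfl, rfl⟩)
    · rcases h4 with h | ⟨_, h'⟩ | ⟨h, _⟩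
      · exact ny4' h
      · exact n14' h'
      · exact hy4 h.symm
    · rcases h4 with h | ⟨h, _⟩ | ⟨_, h'⟩
      · exact ny4' h.symm
      · exact hy4 h.symm
      · exact n14' h'.symm

end DL
end

section
set_option autoImplicit false
set_option linter.unusedSectionVars false

/-!
# XQ2: the cases 2.2 and 2.4 (helper83)
-/

open SimpleGraph Finset

namespace DL

theorem specXQ2 (hXU2 : SpecXU2) (hXK2 : SpecXK2) (hXC4 : SpecXC4) (hXZ4 : SpecXZ4) : SpecXQ2 := by
  intro α _ _ G x y s₁ s₂ s₃ s₄ hG hNP hIH h h23 h13 h4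
  refine ⟨hXU2 hG hNP hIH h h23 h13 ?_, hXK2 hG hNP hIH h h23 h13 ?_⟩
  · intro h14
    have h24 : ¬ G.Adj s₂ s₄ := fun e => h4 ⟨h14, e⟩
    have h1 := hXC4 hG h h23 h14 h13 h24
    exact ⟨h1.1, hXZ4 hG hNP hIH h h23 h14 h13 h24, h1.2⟩
  · intro h14
    exact (hXC4 hG h h23 h14 h13 (fun e => h4 ⟨h14, e⟩)).1

end DL
end
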