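import Pool.Agent.DL.E.Spec2c
import Pool.Agent.DL.E.XQ2

/-!
# MP_3ff0f8_gt, EXIST section 2, module XRA (helper51): (A)
-/

open SimpleGraph Finset

namespace DL.XRAM

open C20M XL3M

set_option linter.unusedSectionVars false

variable {α : Type} [Fintype α] [DecidableEq α] {G : SimpleGraph α} {x y s₁ s₂ s₃ s₄ : α}

/-- the auxiliary graph -/
def NA (G : SimpleGraph α) (x y s₃ s₄ : α) : SimpleGraph α :=
  del G {x, y} ⊔ fromEdgeSet {s(s₃, s₄)}

theorem NA_adj {u v : α} : (NA G x y s₃ s₄).Adj u v ↔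
    (G.Adj u v ∧ u ∉ ({x, y} : Finset α) ∧ v ∉ ({x, y} : Finset α)) ∨
      (s(u, v) = s(s₃, s₄) ∧ u ≠ v) := by
  unfold NA
  rw [sup_adj, del_adj, fromEdgeSet_adj, Set.mem_singleton_iff]

theorem NA_comm : NA G x y s₃ s₄ = NA G y x s₃ s₄ := by
  unfold NA
  rw [Finset.pair_comm]

/-- every vertex is connected to `s₃` or `s₄` -/
theorem conn1 (hG : K48 G) (h : P33 G x y s₁ s₂ s₃ s₄) {S : Finset α} (hS : S.card ≤ 1) {v : α}
    (hv : v ∈ VS G) (hvx : v ∉ ({x, y} : Finset α)) (hv1 : v ≠ s₁) (hvS : v ∉ S) :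
    ∃ z, (z = s₃ ∨ z = s₄) ∧ z ∉ S ∧ (del (del (NA G x y s₃ s₄) {s₁}) S).Reachable v z := by
  classical
  by_contra hn
  have d := ds h
  obtain ⟨K, hK⟩ : ∃ K, K = del (del (del G {x, y}) {s₁}) S := ⟨_, rfl⟩
  have hKa : ∀ u w, K.Adj u w ↔ G.Adj u w ∧ (u ∉ ({x, y} : Finset α) ∧ u ≠ s₁ ∧ u ∉ S) ∧
      (w ∉ ({x, y} : Finset α) ∧ w ≠ s₁ ∧ w ∉ S) := by
    intro u w
    rw [hK, del_adj, del_adj, del_adj, mem_singleton, mem_singleton]
    tauto
  have hKN : K ≤ del (del (NA G x y s₃ s₄) {s₁}) S := by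
    intro u w huw
    rw [hKa] at huw
    rw [del_adj, del_adj, NA_adj, mem_singleton, mem_singleton]
    tauto
  obtain ⟨P, hP⟩ : ∃ P : Finset α, P = univ.filter fun w => K.Reachable v w := ⟨_, rfl⟩
  have mP : ∀ w, w ∈ P ↔ K.Reachable v w := by
    intro w
    rw [hP, mem_filter]
    exact ⟨fun h => h.2, fun h => ⟨mem_univ _, h⟩⟩
  have hvP : v ∈ P := (mP v).2 (Reachable.refl _)
  have hPn : ∀ w ∈ P, w ∉ ({x, y} : Finset α) ∧ w ≠ s₁ ∧ w ∉ S := by
    intro w hw
    by_cases h1 : w = v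
    · rw [h1]
      exact ⟨hvx, hv1, hvS⟩
    · rw [mP] at hw
      obtain ⟨u, hu⟩ := exists_adj_of_reachable hw.symm h1
      rw [hKa] at hu
      exact hu.2.1
  have h34 : ∀ z, z = s₃ ∨ z = s₄ → z ∉ P := by
    intro z hz hzP
    exact hn ⟨z, hz, (hPn z hzP).2.2, ((mP z).1 hzP).mono hKN⟩
  have hPV : P ⊆ VS G := by
    intro w hw
    by_cases h1 : w = v
    · rw [h1]
      exact hv
    · rw [mP] at hw
      obtain ⟨u, hu⟩ := exists_adj_of_reachable hw.symm h1
      rw [hKa] at hu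
      exact left_mem_VS hu.1
  refine few (D := P) (W := insert s₁ (insert x (S.erase y))) (r := y) hG.1 hPV ⟨v, hvP⟩ ?_ ?_
    (vsub h (by simp)) ?_ ?_
  · rintro w hw ⟨a, ha, haw⟩
    simp only [mem_insert, mem_erase]
    by_contra hw'
    simp only [not_or, not_and] at hw'
    have hwy : w ≠ y := by
      rintro rfl
      rcases (h.ny a).1 haw.symm with h5 | h5 | h5 | h5
      · exact (hPn a ha).1 (by simp [h5])
      · exact (hPn a ha).2.1 h5
      · exact h34 a (Or.inl h5) ha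
      · exact h34 a (Or.inr h5) ha
    apply hw
    have haP := hPn a ha
    rw [mP] at ha ⊢
    refine ha.trans (Adj.reachable ((hKa a w).2 ⟨haw, haP, ?_, hw'.1, hw'.2.2 hwy⟩))
    simp only [mem_insert, mem_singleton, not_or]
    exact ⟨hw'.2.1, hwy⟩
  · have e1 := card_insert_le s₁ (insert x (S.erase y))
    have e2 := card_insert_le x (S.erase y)
    have e3 := card_erase_le (s := S) (a := y)
    omega
  · intro h5
    exact (hPn y h5).1 (by simp)
  · simp only [mem_insert, mem_erase, not_or, not_and]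
    exact ⟨d.y1, d.xy.symm, fun h => absurd rfl h⟩

theorem VS_NA (h : P33 G x y s₁ s₂ s₃ s₄) {a : α} (ha : a ∈ VS (NA G x y s₃ s₄)) :
    a ∈ VS G ∧ a ∉ ({x, y} : Finset α) := by
  have d := ds h
  obtain ⟨b, hb⟩ := mem_VS.1 ha
  rw [NA_adj] at hb
  rcases hb with hb | hb
  · exact ⟨left_mem_VS hb.1, hb.2.1⟩
  · rw [Sym2.eq_iff] at hb
    simp only [mem_insert, mem_singleton, not_or]
    rcases hb.1 with ⟨rfl, rfl⟩ | ⟨rfl, rfl⟩
    · exact ⟨vsub h (by simp), d.x3.symm, d.y3.symm⟩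
    · exact ⟨vsub h (by simp), d.x4.symm, d.y4.symm⟩

theorem kconn1 (hG : K48 G) (h : P33 G x y s₁ s₂ s₃ s₄) :
    KConn 2 (del (NA G x y s₃ s₄) {s₁}) ∧ (del (NA G x y s₃ s₄) {s₁}).Adj s₃ s₄ := by
  have d := ds h
  have h34 : (del (NA G x y s₃ s₄) {s₁}).Adj s₃ s₄ := by
    rw [del_adj, NA_adj, mem_singleton, mem_singleton]
    exact ⟨Or.inr ⟨rfl, d.s34⟩, d.s13.symm, d.s14.symm⟩
  refine ⟨⟨?_, ?_⟩, h34⟩
  · have hsub : ({s₂, s₃, s₄} : Finset α) ⊆ VS (del (NA G x y s₃ s₄) {s₁}) := by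
      intro v hv
      simp only [mem_insert, mem_singleton] at hv
      rcases hv with rfl | rfl | rfl
      · obtain ⟨z, hz, -, hr⟩ := conn1 hG h (S := ∅) (v := v) (by simp) (vsub h (by simp))
          (by simp [d.x2.symm, d.y2.symm]) d.s12.symm (by simp)
        have hne : v ≠ z := by
          rcases hz with rfl | rfl
          · exact d.s23
          · exact d.s24
        obtain ⟨w, hw⟩ := exists_adj_of_reachable hr hne
        exact left_mem_VS hw.1
      · exact left_mem_VS h34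
      · exact right_mem_VS h34
    have hc : ({s₂, s₃, s₄} : Finset α).card = 3 := by
      rw [card_insert_of_notMem, card_pair d.s34]
      simp only [mem_insert, mem_singleton, not_or]
      exact ⟨d.s23, d.s24⟩
    have := card_le_card hsub
    omega
  · intro S hS a ha b hb haS hbS
    have hV : ∀ c, c ∈ VS (del (NA G x y s₃ s₄) {s₁}) → c ∈ VS G ∧ c ∉ ({x, y} : Finset α) ∧ c ≠ s₁ := by
      intro c hc
      obtain ⟨e, he⟩ := mem_VS.1 hc
      rw [del_adj, mem_singleton, mem_singleton] at he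
      have h1 := VS_NA h (left_mem_VS he.1)
      exact ⟨h1.1, h1.2, he.2.1⟩
    obtain ⟨ha1, ha2, ha3⟩ := hV a ha
    obtain ⟨hb1, hb2, hb3⟩ := hV b hb
    obtain ⟨z, hz, hzS, hrz⟩ := conn1 hG h (S := S) (by omega) ha1 ha2 ha3 haS
    obtain ⟨t, ht, htS, hrt⟩ := conn1 hG h (S := S) (by omega) hb1 hb2 hb3 hbS
    refine hrz.trans (Reachable.trans ?_ hrt.symm)
    rcases hz with rfl | rfl <;> rcases ht with rfl | rfl
    · exact Reachable.refl _
    · exact Adj.reachable ⟨h34, hzS, htS⟩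
    · exact Adj.reachable ⟨h34.symm, hzS, htS⟩
    · exact Reachable.refl _

end DL.XRAM

namespace DL

open C20M XL3M XRAM in
theorem specXRA (hD4C : SpecD4C) (hRT1 : SpecRT1) (hC20 : SpecC20) (hXTE : SpecXTE) (hSTA : SpecSTA) :
    SpecXRA := by
  intro α _ _ G x y s₁ s₂ s₃ s₄ f hK
  have h := hK.p33
  have d := ds h
  obtain ⟨w0, w, hw⟩ := hRT1 (del G {x, y}) s₃ s₄ d.s34 (F4 f x y s₃ s₄) (F4_sum hD4C h hK.ev)
  obtain ⟨a, ha⟩ : ∃ a : Chain α, a = fun e => if e = s(s₃, s₄) then w0 else w e := ⟨_, rfl⟩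
  have ha0 : a s(s₃, s₄) = w0 := by rw [ha]; simp
  have hne : ∀ P : Finset (Sym2 α), s(s₃, s₄) ∉ P → ∑ e ∈ P, a e = ∑ e ∈ P, w e := by
    intro P hP
    refine sum_congr rfl fun e he => ?_
    rw [ha]
    simp only
    rw [if_neg]
    rintro rfl
    exact hP he
  -- the vertices of the four cycles
  have hvs : ∀ (P C : Finset (Sym2 α)) (z : α),
      C ⊆ P ∪ {s(x, s₃), s(x, s₄), s(y, s₃), s(y, s₄), s(x, y)} → z ∉ vs P → z = s₁ ∨ z = s₂ → z ∉ vs C := by
    intro P C z hC hzP hz hzC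
    have := vs_mono hC hzC
    rw [mem_vs_union] at this
    rcases this with h1 | h1
    · exact hzP h1
    · obtain ⟨e, he, hze⟩ := mem_vs.1 h1
      simp only [mem_insert, mem_singleton] at he
      rcases hz with rfl | rfl
      · rcases he with rfl | rfl | rfl | rfl | rfl <;> rw [Sym2.mem_iff] at hze <;>
          rcases hze with h2 | h2
        · exact d.x1 h2.symm
        · exact d.s13 h2
        · exact d.x1 h2.symm
        · exact d.s14 h2
        · exact d.y1 h2.symm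
        · exact d.s13 h2
        · exact d.y1 h2.symm
        · exact d.s14 h2
        · exact d.x1 h2.symm
        · exact d.y1 h2.symm
      · rcases he with rfl | rfl | rfl | rfl | rfl <;> rw [Sym2.mem_iff] at hze <;>
          rcases hze with h2 | h2
        · exact d.x2 h2.symm
        · exact d.s23 h2
        · exact d.x2 h2.symm
        · exact d.s24 h2
        · exact d.y2 h2.symm
        · exact d.s23 h2
        · exact d.y2 h2.symm
        · exact d.s24 h2
        · exact d.x2 h2.symm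
        · exact d.y2 h2.symm
  have hF1 : ∀ P, IsPth (del G {x, y}) s₃ s₄ P → s₁ ∉ vs P → F4 f x y s₃ s₄ P = 0 := by
    intro P hP h1
    exact F4_zero h hP fun C hC hCs => hK.z2 C ⟨hC, fun _ h2 => absurd h2 (hvs P C s₁ hCs h1 (Or.inl rfl))⟩
  have hF2 : ∀ P, IsPth (del G {x, y}) s₃ s₄ P → s₂ ∉ vs P → F4 f x y s₃ s₄ P = 0 := by
    intro P hP h1
    exact F4_zero h hP fun C hC hCs => hK.z1 C ⟨hC, fun _ h2 => absurd h2 (hvs P C s₂ hCs h1 (Or.inr rfl))⟩
  -- `a` vanishes on the cycles of `N - s₁` and `N - s₂`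
  have hNN : ∀ z, (∀ P, IsPth (del G {x, y}) s₃ s₄ P → z ∉ vs P → F4 f x y s₃ s₄ P = 0) →
      ∀ C, IsCyc (del (NA G x y s₃ s₄) {z}) C → s(s₃, s₄) ∈ C → ∑ e ∈ C, a e = 0 := by
    intro z hz C hC hmem
    have hP := hC.isPth hmem
    obtain ⟨P, hPd⟩ : ∃ P, P = C \ {s(s₃, s₄)} := ⟨_, rfl⟩
    rw [← hPd] at hP
    have hnm : s(s₃, s₄) ∉ P := by rw [hPd]; simp
    have hCP : C = insert s(s₃, s₄) P := by rw [hPd, IsCyc.insert_sdiff hmem]
    have hP2 : IsPth (del G {x, y}) s₃ s₄ P := by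
      refine hP.transfer ?_
      intro e he
      have h1 := hP.subset e he
      induction e using Sym2.ind with
      | _ u v =>
        rw [mem_edgeSet, del_adj, NA_adj] at h1
        rw [mem_edgeSet, del_adj]
        rcases h1.1 with h2 | h2
        · exact h2
        · exact absurd (h2.1 ▸ he) hnm
    have hzP : z ∉ vs P := fun h1 => Finset.disjoint_left.1 (vs_of_isPth_del hP) h1 (by simp)
    have e1 := hw P hP2
    rw [hz P hP2 hzP] at e1
    rw [hCP, sum_insert hnm, ha0, hne P hnm, ← e1]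
  obtain ⟨k1, a1⟩ := kconn1 hK.k48 h
  obtain ⟨k2, a2⟩ := kconn1 hK.k48 (swap h)
  rw [← NA_comm] at k2 a2
  have hZ1 := hXTE k1 a1 a (hNN s₁ hF1)
  have hZ2 := hXTE k2 a2 a (hNN s₂ hF2)
  have hconn : ConnOff (NA G x y s₃ s₄) {s₁, s₂} := by
    intro u hu v hv huT hvT
    have h1 := VS_NA h hu
    have h2 := VS_NA h hv
    have hr := (hC20.two hK.k48 h).1 u h1.1 v h2.1 (by
      have := h1.2
      simp only [mem_insert, mem_singleton, not_or] at this huT ⊢
      tauto) (by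
      have := h2.2
      simp only [mem_insert, mem_singleton, not_or] at this hvT ⊢
      tauto)
    refine hr.mono ?_
    intro p q hpq
    rw [del_adj] at hpq ⊢
    rw [NA_adj]
    simp only [mem_insert, mem_singleton, not_or] at hpq ⊢
    tauto
  obtain ⟨c, -, hc⟩ := hSTA (NA G x y s₃ s₄) s₁ s₂ d.s12 hconn a hZ1 hZ2
  refine ⟨c, fun P hP => ?_⟩
  have hd := vs_of_isPth_del hP
  have hxP : x ∉ vs P := fun h => Finset.disjoint_left.1 hd h (by simp)
  have hyP : y ∉ vs P := fun h => Finset.disjoint_left.1 hd h (by simp)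
  -- the four cycles
  have e1 : f (P ∪ {s(x, s₃), s(x, s₄)}) = 0 := by
    refine hK.z2 _ ⟨cyc2 (Or.inl rfl) (ax3 h) (ax4 h) d.s34 hP, fun hy => ?_⟩
    exfalso
    rw [mem_vs_union] at hy
    rcases hy with h1 | h1
    · exact hyP h1
    · obtain ⟨e, he, h1e⟩ := mem_vs.1 h1
      simp only [mem_insert, mem_singleton] at he
      rcases he with rfl | rfl <;> rw [Sym2.mem_iff] at h1e <;> rcases h1e with h2 | h2
      · exact d.xy h2.symm
      · exact d.y3 h2
      · exact d.xy h2.symm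
      · exact d.y4 h2
  have e2 : f (P ∪ {s(y, s₃), s(y, s₄)}) = 0 := by
    refine hK.z1 _ ⟨cyc2 (Or.inr rfl) (ay3 h) (ay4 h) d.s34 hP, fun hy => ?_⟩
    exfalso
    rw [mem_vs_union] at hy
    rcases hy with h1 | h1
    · exact hxP h1
    · obtain ⟨e, he, h1e⟩ := mem_vs.1 h1
      simp only [mem_insert, mem_singleton] at he
      rcases he with rfl | rfl <;> rw [Sym2.mem_iff] at h1e <;> rcases h1e with h2 | h2
      · exact d.xy h2
      · exact d.x3 h2
      · exact d.xy h2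
      · exact d.x4 h2
  have e3 : P ∪ {s(x, s₃), s(y, s₄)} ∪ {s(x, y)} = {s(s₃, x), s(x, y), s(y, s₄)} ∪ P := by
    ext e
    simp only [mem_insert, mem_union, mem_singleton, Sym2.eq_swap (a := s₃) (b := x)]
    tauto
  have e4 : P ∪ {s(y, s₃), s(x, s₄)} ∪ {s(x, y)} = {s(s₃, y), s(y, x), s(x, s₄)} ∪ P := by
    ext e
    simp only [mem_insert, mem_union, mem_singleton, Sym2.eq_swap (a := s₃) (b := y),
      Sym2.eq_swap (a := y) (b := x)]
    tauto
  have hF : f ({s(s₃, x), s(x, y), s(y, s₄)} ∪ P) + f ({s(s₃, y), s(y, x), s(x, s₄)} ∪ P) =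
      F4 f x y s₃ s₄ P := by
    unfold F4
    rw [e1, e2, e3, e4, zero_add, zero_add]
  rw [hF]
  by_cases hm : s(s₃, s₄) ∈ P
  · have hPs := hP.eq_singleton hm
    have h1 : s₁ ∉ vs P := by
      rw [hPs]
      intro h2
      obtain ⟨e, he, h1e⟩ := mem_vs.1 h2
      rw [mem_singleton] at he
      rw [he, Sym2.mem_iff] at h1e
      rcases h1e with h3 | h3
      · exact d.s13 h3
      · exact d.s14 h3
    rw [hF1 P hP h1, chi_of_notMem (fun h2 => h1 (left_mem_vs h2)), mul_zero]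
  · have hadj : (NA G x y s₃ s₄).Adj s₃ s₄ := NA_adj.2 (Or.inr ⟨rfl, d.s34⟩)
    have hP' : IsPth (NA G x y s₃ s₄) s₃ s₄ P := hP.mono le_sup_left
    have hC := hP'.isCyc hadj hm
    have h1 := hc _ hC.chi_mem
    rw [sum_mul_chi, sum_insert hm, ha0, hne P hm] at h1
    rw [hw P hP, h1]
    congr 1
    by_cases h2 : s(s₁, s₂) ∈ P
    · rw [chi_of_mem h2, chi_of_mem (mem_insert_of_mem h2)]
    · rw [chi_of_notMem h2, chi_of_notMem]
      rw [mem_insert, not_or]
      refine ⟨?_, h2⟩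
      rw [Sym2.eq_iff, not_or]
      exact ⟨fun h3 => d.s13 h3.1, fun h3 => d.s14 h3.1⟩

end DL
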