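import Pool.Agent.DL.EX.VRS
import Pool.Agent.DL.EX.TRE
import Pool.Agent.DL.TREE
import Pool.Agent.DL.E.Spec2c
import Pool.Agent.DL.PC2

section
/-!
# MP_3ff0f8_gt, ALGEBRA HALF: `D_4` minors in which all four trees are paths (helper19)

`d4p`: four disjoint paths `R i` (from `u i` to `v i`) and four beads (pairs of edges from path `i` to path `i + 1`): for a
`D_4`-even function `f` the sum over the 16 cycles is `0`; every cycle consists of the four chosen bead edges and four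
subpaths of the `R i`.  `unique_in`: a subpath of a path is determined by its ends.
-/
open SimpleGraph Finset

set_option linter.unusedSectionVars false

namespace DL

namespace D4PM

variable {α : Type} [Fintype α] [DecidableEq α] {G : SimpleGraph α}

/-- a subpath of a path is determined by its ends -/
theorem unique_in {s t a b : α} {P A B : Finset (Sym2 α)} (hP : IsPth G s t P) (hA : IsPth G a b A)
    (hB : IsPth G a b B) (hAP : A ⊆ P) (hBP : B ⊆ P) : A = B := by
  have hT := hP.treeOn.acyc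
  refine IsPth.unique hT (hA.transfer fun e he => ?_) (hB.transfer fun e he => ?_)
  · have h1 := hA.not_isDiag e he
    induction e using Sym2.ind with
    | _ c d => exact gr_adj.2 ⟨hAP he, by simpa using h1⟩
  · have h1 := hB.not_isDiag e he
    induction e using Sym2.ind with
    | _ c d => exact gr_adj.2 ⟨hBP he, by simpa using h1⟩

theorem gr_sub {P Q : Finset (Sym2 α)} (h : ∀ e ∈ Q, e ∈ (gr P).edgeSet) : Q ⊆ P := by
  intro e he
  have := h e he
  induction e using Sym2.ind with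
  | _ c d => exact (gr_adj.1 this).1

/-- the minor -/
noncomputable def mk {u v : Fin 4 → α} {R : Fin 4 → Finset (Sym2 α)} (hR : ∀ i, IsPth G (u i) (v i) (R i))
    (hd : ∀ i j, i ≠ j → Disjoint (insert (u i) (vs (R i))) (insert (u j) (vs (R j)))) {p q : Fin 4 → Bool → α}
    (hp : ∀ i b, p i b ∈ insert (u i) (vs (R i))) (hq : ∀ i b, q i b ∈ insert (u (i + 1)) (vs (R (i + 1))))
    (ha : ∀ i b, G.Adj (p i b) (q i b)) (hn : ∀ i, s(p i false, q i false) ≠ s(p i true, q i true)) : D4M G where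
  X i := insert (u i) (vs (R i))
  disj := hd
  T i := gr (R i)
  sub i := gr_le (hR i).subset
  inX i v w h := (hR i).treeOn.inY v w h
  conn i := (hR i).treeOn.conn
  acyc i := (hR i).treeOn.acyc
  p := p
  q := q
  pX := hp
  qX := hq
  adj := ha
  ne := hn

theorem bool_sum (F : (Fin 4 → Bool) → ZMod 2) :
    ∑ e : Fin 4 → Bool, F e = ∑ b0, ∑ b1, ∑ b2, ∑ b3, F ![b0, b1, b2, b3] := by
  rw [← (Fin.consEquiv (fun _ : Fin 4 => Bool)).sum_comp, Fintype.sum_prod_type]
  refine sum_congr rfl fun b0 _ => ?_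
  rw [← (Fin.consEquiv (fun _ : Fin 3 => Bool)).sum_comp, Fintype.sum_prod_type]
  refine sum_congr rfl fun b1 _ => ?_
  rw [← (Fin.consEquiv (fun _ : Fin 2 => Bool)).sum_comp, Fintype.sum_prod_type]
  refine sum_congr rfl fun b2 _ => ?_
  rw [← (Fin.consEquiv (fun _ : Fin 1 => Bool)).sum_comp, Fintype.sum_prod_type]
  refine sum_congr rfl fun b3 _ => ?_
  rw [Fintype.sum_subsingleton _ (fun i => Fin.elim0 i)]
  congr 1

/-- **`D_4` minors of paths** -/
theorem d4p {f : Finset (Sym2 α) → ZMod 2} (hf : D4even G f) {u0 u1 u2 u3 v0 v1 v2 v3 : α}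
    {R0 R1 R2 R3 : Finset (Sym2 α)} (h0 : IsPth G u0 v0 R0) (h1 : IsPth G u1 v1 R1) (h2 : IsPth G u2 v2 R2)
    (h3 : IsPth G u3 v3 R3) (d01 : Disjoint (insert u0 (vs R0)) (insert u1 (vs R1)))
    (d02 : Disjoint (insert u0 (vs R0)) (insert u2 (vs R2))) (d03 : Disjoint (insert u0 (vs R0)) (insert u3 (vs R3)))
    (d12 : Disjoint (insert u1 (vs R1)) (insert u2 (vs R2))) (d13 : Disjoint (insert u1 (vs R1)) (insert u3 (vs R3)))
    (d23 : Disjoint (insert u2 (vs R2)) (insert u3 (vs R3))) {p0 p1 p2 p3 q0 q1 q2 q3 : Bool → α}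
    (m0 : ∀ b, p0 b ∈ insert u0 (vs R0)) (m1 : ∀ b, p1 b ∈ insert u1 (vs R1)) (m2 : ∀ b, p2 b ∈ insert u2 (vs R2))
    (m3 : ∀ b, p3 b ∈ insert u3 (vs R3)) (k0 : ∀ b, q0 b ∈ insert u1 (vs R1)) (k1 : ∀ b, q1 b ∈ insert u2 (vs R2))
    (k2 : ∀ b, q2 b ∈ insert u3 (vs R3)) (k3 : ∀ b, q3 b ∈ insert u0 (vs R0)) (a0 : ∀ b, G.Adj (p0 b) (q0 b))
    (a1 : ∀ b, G.Adj (p1 b) (q1 b)) (a2 : ∀ b, G.Adj (p2 b) (q2 b)) (a3 : ∀ b, G.Adj (p3 b) (q3 b))
    (n0 : s(p0 false, q0 false) ≠ s(p0 true, q0 true)) (n1 : s(p1 false, q1 false) ≠ s(p1 true, q1 true))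
    (n2 : s(p2 false, q2 false) ≠ s(p2 true, q2 true)) (n3 : s(p3 false, q3 false) ≠ s(p3 true, q3 true)) :
    ∃ cyc : Bool → Bool → Bool → Bool → Finset (Sym2 α), (∑ b0, ∑ b1, ∑ b2, ∑ b3, f (cyc b0 b1 b2 b3) = 0) ∧
      ∀ b0 b1 b2 b3, IsCyc G (cyc b0 b1 b2 b3) ∧ ∃ S0 S1 S2 S3, S0 ⊆ R0 ∧ S1 ⊆ R1 ∧ S2 ⊆ R2 ∧ S3 ⊆ R3 ∧
        IsPth G (q3 b3) (p0 b0) S0 ∧ IsPth G (q0 b0) (p1 b1) S1 ∧ IsPth G (q1 b1) (p2 b2) S2 ∧
        IsPth G (q2 b2) (p3 b3) S3 ∧ cyc b0 b1 b2 b3 =
          {s(p0 b0, q0 b0), s(p1 b1, q1 b1), s(p2 b2, q2 b2), s(p3 b3, q3 b3)} ∪ (S0 ∪ (S1 ∪ (S2 ∪ S3))) := by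
  have hR : ∀ i, IsPth G ((![u0, u1, u2, u3] : Fin 4 → α) i) ((![v0, v1, v2, v3] : Fin 4 → α) i)
      ((![R0, R1, R2, R3] : Fin 4 → Finset (Sym2 α)) i) := by
    intro i
    fin_cases i
    exacts [h0, h1, h2, h3]
  have hd : ∀ i j, i ≠ j → Disjoint (insert ((![u0, u1, u2, u3] : Fin 4 → α) i)
      (vs ((![R0, R1, R2, R3] : Fin 4 → Finset (Sym2 α)) i))) (insert ((![u0, u1, u2, u3] : Fin 4 → α) j)
      (vs ((![R0, R1, R2, R3] : Fin 4 → Finset (Sym2 α)) j))) := by
    intro i j hij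
    fin_cases i <;> fin_cases j
    exacts [absurd rfl hij, d01, d02, d03, d01.symm, absurd rfl hij, d12, d13, d02.symm, d12.symm, absurd rfl hij,
      d23, d03.symm, d13.symm, d23.symm, absurd rfl hij]
  have hp : ∀ i b, (![p0, p1, p2, p3] : Fin 4 → Bool → α) i b ∈ insert ((![u0, u1, u2, u3] : Fin 4 → α) i)
      (vs ((![R0, R1, R2, R3] : Fin 4 → Finset (Sym2 α)) i)) := by
    intro i
    fin_cases i
    exacts [m0, m1, m2, m3]
  have hq : ∀ i b, (![q0, q1, q2, q3] : Fin 4 → Bool → α) i b ∈ insert ((![u0, u1, u2, u3] : Fin 4 → α) (i + 1))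
      (vs ((![R0, R1, R2, R3] : Fin 4 → Finset (Sym2 α)) (i + 1))) := by
    intro i
    fin_cases i
    exacts [k0, k1, k2, k3]
  have ha : ∀ i b, G.Adj ((![p0, p1, p2, p3] : Fin 4 → Bool → α) i b) ((![q0, q1, q2, q3] : Fin 4 → Bool → α) i b) := by
    intro i
    fin_cases i
    exacts [a0, a1, a2, a3]
  have hn : ∀ i, s((![p0, p1, p2, p3] : Fin 4 → Bool → α) i false, (![q0, q1, q2, q3] : Fin 4 → Bool → α) i false) ≠
      s((![p0, p1, p2, p3] : Fin 4 → Bool → α) i true, (![q0, q1, q2, q3] : Fin 4 → Bool → α) i true) := by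
    intro i
    fin_cases i
    exacts [n0, n1, n2, n3]
  set D : D4M G := mk hR hd hp hq ha hn with hD
  refine ⟨fun b0 b1 b2 b3 => D.cyc ![b0, b1, b2, b3], ?_, fun b0 b1 b2 b3 => ?_⟩
  · rw [← bool_sum fun e => f (D.cyc e)]
    exact hf D
  · have hc := (specDCB specTRE).cyc D ![b0, b1, b2, b3]
    refine ⟨hc.1, tp (gr R0) (q3 b3) (p0 b0), tp (gr R1) (q0 b0) (p1 b1), tp (gr R2) (q1 b1) (p2 b2),
      tp (gr R3) (q2 b2) (p3 b3), ?_, ?_, ?_, ?_, ?_, ?_, ?_, ?_, ?_⟩
    · exact gr_sub (h0.treeOn.tp_isPth (k3 b3) (m0 b0)).subset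
    · exact gr_sub (h1.treeOn.tp_isPth (k0 b0) (m1 b1)).subset
    · exact gr_sub (h2.treeOn.tp_isPth (k1 b1) (m2 b2)).subset
    · exact gr_sub (h3.treeOn.tp_isPth (k2 b2) (m3 b3)).subset
    · exact (h0.treeOn.tp_isPth (k3 b3) (m0 b0)).mono (gr_le h0.subset)
    · exact (h1.treeOn.tp_isPth (k0 b0) (m1 b1)).mono (gr_le h1.subset)
    · exact (h2.treeOn.tp_isPth (k1 b1) (m2 b2)).mono (gr_le h2.subset)
    · exact (h3.treeOn.tp_isPth (k2 b2) (m3 b3)).mono (gr_le h3.subset)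
    · ext e
      simp only [D4M.cyc]
      rw [mem_union, mem_image, mem_biUnion]
      simp only [mem_union, mem_insert, mem_singleton, mem_univ, true_and]
      constructor
      · rintro (⟨i, hi⟩ | ⟨i, hi⟩)
        · left
          fin_cases i
          · exact Or.inl hi.symm
          · exact Or.inr (Or.inl hi.symm)
          · exact Or.inr (Or.inr (Or.inl hi.symm))
          · exact Or.inr (Or.inr (Or.inr hi.symm))
        · right
          fin_cases i
          · exact Or.inr (Or.inl hi)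
          · exact Or.inr (Or.inr (Or.inl hi))
          · exact Or.inr (Or.inr (Or.inr hi))
          · exact Or.inl hi
      · rintro ((h | h | h | h) | (h | h | h | h))
        · exact Or.inl ⟨0, h.symm⟩
        · exact Or.inl ⟨1, h.symm⟩
        · exact Or.inl ⟨2, h.symm⟩
        · exact Or.inl ⟨3, h.symm⟩
        · exact Or.inr ⟨3, h⟩
        · exact Or.inr ⟨0, h⟩
        · exact Or.inr ⟨1, h⟩
        · exact Or.inr ⟨2, h⟩

end D4PM

end DL
end

section
/-!
# MP_3ff0f8_gt, EXIST section 2: module XRB (helper19)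

Case 2.1, (B): `f = 0` on the cycles `s₄ → s₁ → s₂ → s₃ x y`; two `D_4` minors in which all trees are paths.
-/
open SimpleGraph Finset

set_option linter.unusedSectionVars false

namespace DL

namespace XRBM

open D4PM

variable {α : Type} [Fintype α] [DecidableEq α] {G : SimpleGraph α}

/-- the first edge of a path -/
theorem uncons' {s t : α} {P : Finset (Sym2 α)} (h : IsPth G s t P) (hst : s ≠ t) :
    ∃ u P', G.Adj s u ∧ IsPth G u t P' ∧ s ∉ vs P' ∧ P = insert s(s, u) P' := by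
  obtain ⟨u, h1, h2, h3, h4⟩ := h.uncons hst
  refine ⟨u, _, h1, h4, h3, ?_⟩
  rw [sdiff_singleton_eq_erase, insert_erase h2]

theorem sum16 {F : Bool → Bool → Bool → Bool → ZMod 2} (h : ∑ b0, ∑ b1, ∑ b2, ∑ b3, F b0 b1 b2 b3 = 0)
    {c0 c1 c2 c3 : Bool} (hz : ∀ b0 b1 b2 b3, ¬ (b0 = c0 ∧ b1 = c1 ∧ b2 = c2 ∧ b3 = c3) → F b0 b1 b2 b3 = 0) :
    F c0 c1 c2 c3 = 0 := by
  rw [← h, Finset.sum_eq_single c0, Finset.sum_eq_single c1, Finset.sum_eq_single c2, Finset.sum_eq_single c3]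
  · intro b _ hb
    exact hz _ _ _ _ fun h => hb h.2.2.2
  · simp
  · intro b _ hb
    exact sum_eq_zero fun b3 _ => hz _ _ _ _ fun h => hb h.2.2.1
  · simp
  · intro b _ hb
    exact sum_eq_zero fun b2 _ => sum_eq_zero fun b3 _ => hz _ _ _ _ fun h => hb h.2.1
  · simp
  · intro b _ hb
    exact sum_eq_zero fun b1 _ => sum_eq_zero fun b2 _ => sum_eq_zero fun b3 _ => hz _ _ _ _ fun h => hb h.1
  · simp

/-- vertices of a cycle of a path minor -/
theorem mem_cyc {a0 b0 a1 b1 a2 b2 a3 b3 v : α} {S0 S1 S2 S3 : Finset (Sym2 α)}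
    (h : v ∈ vs ({s(a0, b0), s(a1, b1), s(a2, b2), s(a3, b3)} ∪ (S0 ∪ (S1 ∪ (S2 ∪ S3))))) :
    (v = a0 ∨ v = b0 ∨ v = a1 ∨ v = b1 ∨ v = a2 ∨ v = b2 ∨ v = a3 ∨ v = b3) ∨ v ∈ vs S0 ∨ v ∈ vs S1 ∨ v ∈ vs S2 ∨
      v ∈ vs S3 := by
  rw [mem_vs_union, mem_vs_union, mem_vs_union, mem_vs_union] at h
  rcases h with h | h
  · left
    rw [vs_insert, vs_insert, vs_insert, vs_singleton] at h
    simp only [mem_union, mem_insert, mem_singleton] at h
    tauto
  · right
    exact h

theorem or_abs {a b c : Prop} : (a ∨ (a ∨ b) ∨ c) ↔ a ∨ b ∨ c := by tauto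

theorem fin1 {β : Type*} [DecidableEq β] (a b c d e : β) (P A B C : Finset β) :
    ({a, b, c} ∪ (P ∪ (insert d A ∪ B) ∪ insert e C) : Finset β) =
      {b, e, d, c} ∪ (∅ ∪ (insert a C ∪ (B ∪ (P ∪ A)))) := by
  ext z
  simp only [mem_union, mem_insert, mem_singleton, notMem_empty, false_or]
  tauto

/-- case 1: the ear ends on the path from `s₁` to `s₂` -/
theorem case1 {f : Finset (Sym2 α) → ZMod 2} (hf : D4even G f) {x y s1 s2 s3 s4 p q r' a' b' : α}
    (hz1 : ∀ C, CycM G x s2 C → f C = 0) (hz2 : ∀ C, CycM G y s1 C → f C = 0)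
    {P1 A B C' r2 : Finset (Sym2 α)} (hxy : G.Adj x y) (hx2 : G.Adj x s2) (hx3 : G.Adj x s3) (hy1 : G.Adj y s1)
    (hy3 : G.Adj y s3) (hy4 : G.Adj y s4) (h1 : IsPth G s4 s1 P1) (hA : IsPth G s1 a' A) (hB : IsPth G q s2 B)
    (hC : IsPth G b' s3 C') (hr : IsPth G r' q r2) (hb : G.Adj s2 b') (ha : G.Adj q a') (hpr : G.Adj p r')
    (hp : p ∈ vs P1) (hp1 : p ≠ s1) (h14 : s4 ≠ s1) (h13 : s1 ≠ s3) (h12 : s1 ≠ s2)
    (nx1 : x ∉ insert s4 (vs P1)) (nxA : x ∉ insert s1 (vs A)) (nxB : x ∉ insert q (vs B))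
    (nxC : x ∉ insert b' (vs C')) (nxr : x ∉ insert r' (vs r2)) (ny1 : y ∉ insert s4 (vs P1))
    (nyA : y ∉ insert s1 (vs A)) (nyB : y ∉ insert q (vs B)) (nyC : y ∉ insert b' (vs C'))
    (nyr : y ∉ insert r' (vs r2)) (d12 : ∀ z, z = s3 ∨ z ∈ vs C' → ¬ (z = r' ∨ z ∈ vs r2 ∨ z ∈ vs B))
    (d13 : ∀ z, z = s3 ∨ z ∈ vs C' → ¬ (z = s4 ∨ z ∈ vs P1 ∨ z ∈ vs A))
    (d23 : ∀ z, z = r' ∨ z ∈ vs r2 ∨ z ∈ vs B → ¬ (z = s4 ∨ z ∈ vs P1 ∨ z ∈ vs A))
    (i1 : vs P1 ∩ vs A ⊆ {s1}) (i2 : vs r2 ∩ vs B ⊆ {q}) :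
    f ({s(s3, x), s(x, y), s(y, s4)} ∪ (P1 ∪ (insert s(q, a') A ∪ B) ∪ insert s(s2, b') C')) = 0 := by
  simp only [mem_insert, not_or] at nx1 nxA nxB nxC nxr ny1 nyA nyB nyC nyr
  have hxC : x ∉ vs C' := nxC.2
  have r0 : IsPth G y y ∅ := IsPth.nil y
  have r1 : IsPth G x b' (insert s(x, s3) C') := hC.symm.cons hx3 hxC
  have r2' : IsPth G r' s2 (r2 ∪ B) := hr.append hB i2
  have r3 : IsPth G s4 a' (P1 ∪ A) := h1.append hA i1
  have ms1 : s1 ∈ vs P1 := h1.right_mem h14
  have hbC : b' = s3 ∨ b' ∈ vs C' := by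
    by_cases h : b' = s3
    · exact Or.inl h
    · exact Or.inr (hC.left_mem h)
  have hs2B : s2 = r' ∨ s2 ∈ vs r2 ∨ s2 ∈ vs B := by
    by_cases h : q = s2
    · by_cases h' : r' = q
      · exact Or.inl (by rw [h', h])
      · exact Or.inr (Or.inl (h ▸ hr.right_mem h'))
    · exact Or.inr (Or.inr (hB.right_mem h))
  have hqB : q = r' ∨ q ∈ vs r2 ∨ q ∈ vs B := by
    by_cases h' : r' = q
    · exact Or.inl h'.symm
    · exact Or.inr (Or.inl (hr.right_mem h'))
  have haA : a' = s1 ∨ a' ∈ vs A := by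
    by_cases h : s1 = a'
    · exact Or.inl h.symm
    · exact Or.inr (hA.right_mem h)
  have hs3x : s3 ≠ x := hx3.ne'
  have V1 : ∀ z, z ∈ insert x (vs (insert s(x, s3) C')) ↔ z = x ∨ z = s3 ∨ z ∈ vs C' := by
    intro z
    rw [mem_insert, vs_insert, mem_union, mem_insert, mem_singleton]
    exact or_abs
  have V2 : ∀ z, z ∈ insert r' (vs (r2 ∪ B)) ↔ z = r' ∨ z ∈ vs r2 ∨ z ∈ vs B := by
    intro z
    rw [mem_insert, mem_vs_union]
  have V3 : ∀ z, z ∈ insert s4 (vs (P1 ∪ A)) ↔ z = s4 ∨ z ∈ vs P1 ∨ z ∈ vs A := by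
    intro z
    rw [mem_insert, mem_vs_union]
  have hv0 : vs (∅ : Finset (Sym2 α)) = ∅ := vs_eq_empty.2 rfl
  have V0 : ∀ z, z ∈ insert y (vs (∅ : Finset (Sym2 α))) ↔ z = y := by
    intro z
    rw [hv0, mem_insert]
    simp only [notMem_empty, or_false]
  obtain ⟨cyc, hsum, hcyc⟩ := d4p hf r0 r1 r2' r3
    (Finset.disjoint_left.2 fun z hz hz' => by
      rw [V0] at hz; rw [V1] at hz'
      subst hz
      rcases hz' with h | h | h
      · exact hxy.ne' h
      · exact hy3.ne h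
      · exact nyC.2 h)
    (Finset.disjoint_left.2 fun z hz hz' => by
      rw [V0] at hz; rw [V2] at hz'
      subst hz
      rcases hz' with h | h | h
      · exact nyr.1 h
      · exact nyr.2 h
      · exact nyB.2 h)
    (Finset.disjoint_left.2 fun z hz hz' => by
      rw [V0] at hz; rw [V3] at hz'
      subst hz
      rcases hz' with h | h | h
      · exact ny1.1 h
      · exact ny1.2 h
      · exact nyA.2 h)
    (Finset.disjoint_left.2 fun z hz hz' => by
      rw [V1] at hz; rw [V2] at hz'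
      rcases hz with h | h
      · subst h
        rcases hz' with h | h | h
        · exact nxr.1 h
        · exact nxr.2 h
        · exact nxB.2 h
      · exact d12 z h hz')
    (Finset.disjoint_left.2 fun z hz hz' => by
      rw [V1] at hz; rw [V3] at hz'
      rcases hz with h | h
      · subst h
        rcases hz' with h | h | h
        · exact nx1.1 h
        · exact nx1.2 h
        · exact nxA.2 h
      · exact d13 z h hz')
    (Finset.disjoint_left.2 fun z hz hz' => by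
      rw [V2] at hz; rw [V3] at hz'
      exact d23 z hz hz')
    (p0 := fun _ => y) (q0 := fun b => cond b s3 x) (p1 := fun b => cond b b' x) (q1 := fun _ => s2)
    (p2 := fun b => cond b r' q) (q2 := fun b => cond b p a') (p3 := fun b => cond b s1 s4) (q3 := fun _ => y)
    (fun b => (V0 _).2 rfl) (fun b => by rw [V1]; cases b; exacts [Or.inl rfl, Or.inr hbC])
    (fun b => by rw [V2]; cases b; exacts [hqB, Or.inl rfl])
    (fun b => by rw [V3]; cases b; exacts [Or.inl rfl, Or.inr (Or.inl ms1)])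
    (fun b => by rw [V1]; cases b; exacts [Or.inl rfl, Or.inr (Or.inl rfl)])
    (fun b => by rw [V2]; exact hs2B)
    (fun b => by
      rw [V3]
      cases b
      · rcases haA with h | h
        · exact Or.inr (Or.inl (by rw [cond_false, h]; exact ms1))
        · exact Or.inr (Or.inr h)
      · exact Or.inr (Or.inl hp))
    (fun b => (V0 _).2 rfl)
    (fun b => by cases b; exacts [hxy.symm, hy3])
    (fun b => by cases b; exacts [hx2, hb.symm])
    (fun b => by cases b; exacts [ha, hpr.symm])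
    (fun b => by cases b; exacts [hy4.symm, hy1.symm])
    (fun h => by
      simp only [cond_false, cond_true] at h
      rw [Sym2.congr_right] at h
      exact hs3x h.symm)
    (fun h => by
      simp only [cond_false, cond_true] at h
      rw [Sym2.congr_left] at h
      exact nxC.1 h)
    (fun h => by
      simp only [cond_false, cond_true] at h
      rw [Sym2.eq_iff] at h
      rcases h with ⟨_, h⟩ | ⟨h, _⟩
      · subst h
        exact d23 r' (Or.inl rfl) (by
          exfalso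
          rcases haA with h | h
          · exact hp1 h
          · have := i1 (mem_inter.2 ⟨hp, h⟩)
            exact hp1 (by simpa using this))
      · subst h
        exact d23 q hqB (Or.inr (Or.inl hp)))
    (fun h => by
      simp only [cond_false, cond_true] at h
      rw [Sym2.congr_left] at h
      exact h14 h)
  -- the special cycle
  have key : f (cyc false true false false) = 0 := by
    refine sum16 hsum fun b0 b1 b2 b3 hne => ?_
    obtain ⟨hc, S0, S1, S2, S3, e0, e1, e2, e3, t0, t1, t2, t3, he⟩ := hcyc b0 b1 b2 b3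
    -- `s₁`
    cases b3
    swap
    · refine hz2 _ ⟨hc, fun _ _ => ?_⟩
      rw [he]
      simp [Sym2.eq_swap (a := y)]
    have hS0 : S0 = ∅ := subset_empty.1 e0
    have w1 : ∀ z ∈ vs S1, z = x ∨ z = s3 ∨ z ∈ vs C' := fun z hz => by
      have := vs_mono e1 hz
      rw [vs_insert, mem_union, mem_insert, mem_singleton] at this
      exact or_assoc.1 this
    have w2 : ∀ z ∈ vs S2, z ∈ vs r2 ∨ z ∈ vs B := fun z hz => by
      have := vs_mono e2 hz
      rwa [mem_vs_union] at this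
    cases b2
    swap
    · -- not through `s₁`
      refine hz2 _ ⟨hc, fun _ hs => ?_⟩
      exfalso
      obtain ⟨Pa, Pb, g1, g2, g3, _, g5⟩ := h1.split (v := p) (Or.inr hp)
      have g6 : S3 = Pa := unique_in r3 t3 g1.symm e3
        ((subset_union_left.trans g3.subset).trans subset_union_left)
      have g7 : s1 ∉ vs S3 := by
        rw [g6]
        intro h
        have := g5 (mem_inter.2 ⟨h, g2.right_mem hp1⟩)
        rw [mem_singleton] at this
        exact hp1 this.symm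
      rw [he] at hs
      have hd2 := d23 s1
      have hd1 := d13 s1
      rcases mem_cyc hs with (h | h | h | h | h | h | h | h) | h | h | h | h
      · exact hy1.ne h.symm
      · cases b0
        · exact nxA.1 h.symm
        · exact h13 h
      · cases b1
        · exact nxA.1 h.symm
        · simp only [cond_true] at h
          rcases hbC with h' | h'
          · exact h13 (h.trans h')
          · exact hd1 (Or.inr (h ▸ h')) (Or.inr (Or.inl ms1))
      · exact h12 h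
      · exact hd2 (Or.inl h) (Or.inr (Or.inl ms1))
      · exact hp1 h.symm
      · exact h14 h.symm
      · exact hy1.ne h.symm
      · rw [hS0, hv0] at h
        exact absurd h (notMem_empty _)
      · rcases w1 _ h with h' | h' | h'
        · exact nxA.1 h'.symm
        · exact h13 h'
        · exact hd1 (Or.inr h') (Or.inr (Or.inl ms1))
      · exact hd2 (Or.inr (w2 _ h)) (Or.inr (Or.inl ms1))
      · exact g7 h
    cases b1
    · refine hz1 _ ⟨hc, fun _ _ => ?_⟩
      rw [he]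
      simp
    cases b0
    · exact absurd ⟨rfl, rfl, rfl, rfl⟩ hne
    · -- not through `x`
      refine hz1 _ ⟨hc, fun hs _ => ?_⟩
      exfalso
      have g6 : S1 = C' := unique_in r1 t1 hC.symm e1 (subset_insert _ _)
      rw [he] at hs
      rcases mem_cyc hs with (h | h | h | h | h | h | h | h) | h | h | h | h
      · exact hxy.ne h
      · exact hs3x h.symm
      · exact nxC.1 h
      · exact hx2.ne h
      · exact nxB.1 h
      · rcases haA with h' | h'
        · exact nxA.1 (h.trans h')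
        · exact nxA.2 (h ▸ h')
      · exact nx1.1 h
      · exact hxy.ne h
      · rw [hS0, hv0] at h
        exact absurd h (notMem_empty _)
      · rw [g6] at h
        exact hxC h
      · rcases w2 _ h with h' | h'
        · exact nxr.2 h'
        · exact nxB.2 h'
      · have := vs_mono e3 h
        rw [mem_vs_union] at this
        rcases this with h' | h'
        · exact nx1.2 h'
        · exact nxA.2 h'
  obtain ⟨hc, S0, S1, S2, S3, e0, e1, e2, e3, t0, t1, t2, t3, he⟩ := hcyc false true false false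
  have g0 : S0 = ∅ := subset_empty.1 e0
  have g1 : S1 = insert s(x, s3) C' := unique_in r1 t1 r1 e1 (Subset.refl _)
  have g2 : S2 = B := unique_in r2' t2 hB.symm e2 subset_union_right
  have g3 : S3 = P1 ∪ A := unique_in r3 t3 r3.symm e3 (Subset.refl _)
  rw [he, g0, g1, g2, g3] at key
  rw [← key]
  congr 1
  simp only [cond_false, cond_true]
  rw [Sym2.eq_swap (a := s3) (b := x), Sym2.eq_swap (a := y) (b := x), Sym2.eq_swap (a := b') (b := s2),
    Sym2.eq_swap (a := s4) (b := y)]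
  exact fin1 _ _ _ _ _ _ _ _ _

theorem fin2 {β : Type*} [DecidableEq β] (a b c d e g : β) (P P' A B C R : Finset β) (h : insert g R = insert c P) :
    ({a, b, c} ∪ ((P ∪ P') ∪ insert d A ∪ (B ∪ insert e C)) : Finset β) =
      {g, d, e, b} ∪ (R ∪ ((P' ∪ A) ∪ (B ∪ insert a C))) := by
  ext z
  have h1 : z = g ∨ z ∈ R ↔ z = c ∨ z ∈ P := by
    rw [← mem_insert, ← mem_insert, h]
  simp only [mem_union, mem_insert, mem_singleton]
  tauto

/-- case 2: the ear ends inside the path from `s₂` to `s₃` -/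
theorem case2 {f : Finset (Sym2 α) → ZMod 2} (hf : D4even G f) {x y s1 s2 s3 s4 p q r' a' b' c' : α}
    (hz1 : ∀ C, CycM G x s2 C → f C = 0) (hz2 : ∀ C, CycM G y s1 C → f C = 0)
    {R0 P1a P1b A B C' r2 : Finset (Sym2 α)} (hxy : G.Adj x y) (hx2 : G.Adj x s2) (hx3 : G.Adj x s3)
    (hy1 : G.Adj y s1) (hy3 : G.Adj y s3) (h0 : IsPth G y b' R0) (h1 : IsPth G p s1 P1b) (hA : IsPth G s1 a' A)
    (hB : IsPth G q s2 B) (hC : IsPth G c' s3 C') (hr : IsPth G r' q r2) (hb : G.Adj b' p) (ha : G.Adj s2 a')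
    (hc : G.Adj q c') (hpr : G.Adj p r') (hp1 : p ≠ s1)
    (nx0 : x ∉ insert y (vs R0)) (nx1 : x ∉ insert p (vs P1b)) (nxA : x ∉ insert s1 (vs A))
    (nxB : x ∉ insert q (vs B)) (nxC : x ∉ insert c' (vs C')) (nxr : x ∉ insert r' (vs r2))
    (d01 : ∀ z, z = y ∨ z ∈ vs R0 → ¬ (z = p ∨ z ∈ vs P1b ∨ z ∈ vs A))
    (d02 : ∀ z, z = y ∨ z ∈ vs R0 → ¬ (z = r' ∨ z ∈ vs r2 ∨ z ∈ vs B))
    (d03 : ∀ z, z = y ∨ z ∈ vs R0 → ¬ (z = s3 ∨ z ∈ vs C'))
    (d12 : ∀ z, z = p ∨ z ∈ vs P1b ∨ z ∈ vs A → ¬ (z = r' ∨ z ∈ vs r2 ∨ z ∈ vs B))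
    (d13 : ∀ z, z = p ∨ z ∈ vs P1b ∨ z ∈ vs A → ¬ (z = s3 ∨ z ∈ vs C'))
    (d23 : ∀ z, z = r' ∨ z ∈ vs r2 ∨ z ∈ vs B → ¬ (z = s3 ∨ z ∈ vs C'))
    (i1 : vs P1b ∩ vs A ⊆ {s1}) (i2 : vs r2 ∩ vs B ⊆ {q})
    (he0 : insert s(b', p) R0 = insert s(y, s4) P1a) :
    f ({s(s3, x), s(x, y), s(y, s4)} ∪ ((P1a ∪ P1b) ∪ insert s(s2, a') A ∪ (B ∪ insert s(q, c') C'))) = 0 := by
  simp only [mem_insert, not_or] at nx0 nx1 nxA nxB nxC nxr
  have hxC : x ∉ vs C' := nxC.2
  have r1 : IsPth G p a' (P1b ∪ A) := h1.append hA i1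
  have r2' : IsPth G r' s2 (r2 ∪ B) := hr.append hB i2
  have r3 : IsPth G x c' (insert s(x, s3) C') := hC.symm.cons hx3 hxC
  have ms1 : s1 ∈ vs P1b := h1.right_mem hp1
  have mp : p ∈ vs P1b := h1.left_mem hp1
  have hbR : b' = y ∨ b' ∈ vs R0 := by
    by_cases h : y = b'
    · exact Or.inl h.symm
    · exact Or.inr (h0.right_mem h)
  have hcC : c' = s3 ∨ c' ∈ vs C' := by
    by_cases h : c' = s3
    · exact Or.inl h
    · exact Or.inr (hC.left_mem h)
  have hs2B : s2 = r' ∨ s2 ∈ vs r2 ∨ s2 ∈ vs B := by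
    by_cases h : q = s2
    · by_cases h' : r' = q
      · exact Or.inl (by rw [h', h])
      · exact Or.inr (Or.inl (h ▸ hr.right_mem h'))
    · exact Or.inr (Or.inr (hB.right_mem h))
  have hqB : q = r' ∨ q ∈ vs r2 ∨ q ∈ vs B := by
    by_cases h' : r' = q
    · exact Or.inl h'.symm
    · exact Or.inr (Or.inl (hr.right_mem h'))
  have haA : a' = p ∨ a' ∈ vs P1b ∨ a' ∈ vs A := by
    by_cases h : s1 = a'
    · exact Or.inr (Or.inl (h ▸ ms1))
    · exact Or.inr (Or.inr (hA.right_mem h))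
  have hap : a' ≠ p := by
    intro h
    by_cases h' : s1 = a'
    · exact hp1 (by rw [← h, h'])
    · have := i1 (mem_inter.2 ⟨mp, h ▸ hA.right_mem h'⟩)
      exact hp1 (by simpa using this)
  have hs3x : s3 ≠ x := hx3.ne'
  have V0 : ∀ z, z ∈ insert y (vs R0) ↔ z = y ∨ z ∈ vs R0 := fun z => mem_insert
  have V1 : ∀ z, z ∈ insert p (vs (P1b ∪ A)) ↔ z = p ∨ z ∈ vs P1b ∨ z ∈ vs A := by
    intro z
    rw [mem_insert, mem_vs_union]
  have V2 : ∀ z, z ∈ insert r' (vs (r2 ∪ B)) ↔ z = r' ∨ z ∈ vs r2 ∨ z ∈ vs B := by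
    intro z
    rw [mem_insert, mem_vs_union]
  have V3 : ∀ z, z ∈ insert x (vs (insert s(x, s3) C')) ↔ z = x ∨ z = s3 ∨ z ∈ vs C' := by
    intro z
    rw [mem_insert, vs_insert, mem_union, mem_insert, mem_singleton]
    exact or_abs
  obtain ⟨cyc, hsum, hcyc⟩ := d4p hf h0 r1 r2' r3
    (Finset.disjoint_left.2 fun z hz hz' => by
      rw [V0] at hz; rw [V1] at hz'
      exact d01 z hz hz')
    (Finset.disjoint_left.2 fun z hz hz' => by
      rw [V0] at hz; rw [V2] at hz'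
      exact d02 z hz hz')
    (Finset.disjoint_left.2 fun z hz hz' => by
      rw [V0] at hz; rw [V3] at hz'
      rcases hz' with h | h
      · subst h
        rcases hz with h | h
        · exact nx0.1 h
        · exact nx0.2 h
      · exact d03 z hz h)
    (Finset.disjoint_left.2 fun z hz hz' => by
      rw [V1] at hz; rw [V2] at hz'
      exact d12 z hz hz')
    (Finset.disjoint_left.2 fun z hz hz' => by
      rw [V1] at hz; rw [V3] at hz'
      rcases hz' with h | h
      · subst h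
        rcases hz with h | h | h
        · exact nx1.1 h
        · exact nx1.2 h
        · exact nxA.2 h
      · exact d13 z hz h)
    (Finset.disjoint_left.2 fun z hz hz' => by
      rw [V2] at hz; rw [V3] at hz'
      rcases hz' with h | h
      · subst h
        rcases hz with h | h | h
        · exact nxr.1 h
        · exact nxr.2 h
        · exact nxB.2 h
      · exact d23 z hz h)
    (p0 := fun b => cond b y b') (q0 := fun b => cond b s1 p) (p1 := fun b => cond b p a')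
    (q1 := fun b => cond b r' s2) (p2 := fun b => cond b s2 q) (q2 := fun b => cond b x c')
    (p3 := fun b => cond b s3 x) (q3 := fun _ => y)
    (fun b => by rw [V0]; cases b; exacts [hbR, Or.inl rfl])
    (fun b => by rw [V1]; cases b; exacts [haA, Or.inl rfl])
    (fun b => by rw [V2]; cases b; exacts [hqB, hs2B])
    (fun b => by rw [V3]; cases b; exacts [Or.inl rfl, Or.inr (Or.inl rfl)])
    (fun b => by rw [V1]; cases b; exacts [Or.inl rfl, Or.inr (Or.inl ms1)])
    (fun b => by rw [V2]; cases b; exacts [hs2B, Or.inl rfl])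
    (fun b => by rw [V3]; cases b; exacts [Or.inr hcC, Or.inl rfl])
    (fun b => (V0 _).2 (Or.inl rfl))
    (fun b => by cases b; exacts [hb, hy1])
    (fun b => by cases b; exacts [ha.symm, hpr])
    (fun b => by cases b; exacts [hc, hx2.symm])
    (fun b => by cases b; exacts [hxy, hy3.symm])
    (fun h => by
      simp only [cond_false, cond_true] at h
      rw [Sym2.eq_iff] at h
      rcases h with ⟨_, h⟩ | ⟨h, _⟩
      · exact hp1 h
      · exact d01 b' hbR (Or.inr (Or.inl (h ▸ ms1))))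
    (fun h => by
      simp only [cond_false, cond_true] at h
      rw [Sym2.eq_iff] at h
      rcases h with ⟨h, _⟩ | ⟨h, _⟩
      · exact hap h
      · exact d12 a' haA (Or.inl h))
    (fun h => by
      simp only [cond_false, cond_true] at h
      rw [Sym2.eq_iff] at h
      rcases h with ⟨_, h⟩ | ⟨h, _⟩
      · exact nxC.1 h.symm
      · exact nxB.1 h.symm)
    (fun h => by
      simp only [cond_false, cond_true] at h
      rw [Sym2.congr_left] at h
      exact hs3x h.symm)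
  have hv0 : vs (∅ : Finset (Sym2 α)) = ∅ := vs_eq_empty.2 rfl
  -- the special cycle
  have key : f (cyc false false false false) = 0 := by
    refine sum16 hsum fun b0 b1 b2 b3 hne => ?_
    obtain ⟨hc', S0, S1, S2, S3, e0, e1, e2, e3, t0, t1, t2, t3, he⟩ := hcyc b0 b1 b2 b3
    cases b0
    swap
    · refine hz2 _ ⟨hc', fun _ _ => ?_⟩
      rw [he]
      simp
    have w2 : ∀ z ∈ vs S2, z ∈ vs r2 ∨ z ∈ vs B := fun z hz => by
      have := vs_mono e2 hz
      rwa [mem_vs_union] at this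
    have w3 : ∀ z ∈ vs S3, z = x ∨ z = s3 ∨ z ∈ vs C' := fun z hz => by
      have := vs_mono e3 hz
      rw [vs_insert, mem_union, mem_insert, mem_singleton] at this
      exact or_assoc.1 this
    cases b1
    swap
    · -- not through `s₁`
      refine hz2 _ ⟨hc', fun _ hs => ?_⟩
      exfalso
      have g6 : S1 = ∅ := IsPth.eq_empty t1
      rw [he] at hs
      have k01 := fun h => d01 s1 h (Or.inr (Or.inl ms1))
      have k12 := d12 s1 (Or.inr (Or.inl ms1))
      have k13 := d13 s1 (Or.inr (Or.inl ms1))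
      rcases mem_cyc hs with (h | h | h | h | h | h | h | h) | h | h | h | h
      · exact k01 (h ▸ hbR)
      · exact hp1 h.symm
      · exact hp1 h.symm
      · exact k12 (Or.inl h)
      · cases b2
        · exact k12 (h ▸ hqB)
        · exact k12 (h ▸ hs2B)
      · cases b2
        · exact k13 (h ▸ hcC)
        · exact nxA.1 h.symm
      · cases b3
        · exact nxA.1 h.symm
        · exact k13 (Or.inl h)
      · exact hy1.ne h.symm
      · exact k01 (Or.inr (vs_mono e0 h))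
      · rw [g6, hv0] at h
        exact absurd h (notMem_empty _)
      · exact k12 (Or.inr (w2 _ h))
      · rcases w3 _ h with h' | h'
        · exact nxA.1 h'.symm
        · exact k13 h'
    cases b2
    swap
    · refine hz1 _ ⟨hc', fun _ _ => ?_⟩
      rw [he]
      simp [Sym2.eq_swap (a := x)]
    cases b3
    · exact absurd ⟨rfl, rfl, rfl, rfl⟩ hne
    · -- not through `x`
      refine hz1 _ ⟨hc', fun hs _ => ?_⟩
      exfalso
      have g6 : S3 = C' := unique_in r3 t3 hC e3 (subset_insert _ _)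
      rw [he] at hs
      rcases mem_cyc hs with (h | h | h | h | h | h | h | h) | h | h | h | h
      · rcases hbR with h' | h'
        · exact nx0.1 (h.trans h')
        · exact nx0.2 (h ▸ h')
      · exact nx1.1 h
      · rcases haA with h' | h' | h'
        · exact hap h'
        · exact nx1.2 (h ▸ h')
        · exact nxA.2 (h ▸ h')
      · exact hx2.ne h
      · exact nxB.1 h
      · exact nxC.1 h
      · exact hs3x h.symm
      · exact hxy.ne h
      · exact nx0.2 (vs_mono e0 h)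
      · have := vs_mono e1 h
        rw [mem_vs_union] at this
        rcases this with h' | h'
        · exact nx1.2 h'
        · exact nxA.2 h'
      · rcases w2 _ h with h' | h'
        · exact nxr.2 h'
        · exact nxB.2 h'
      · rw [g6] at h
        exact hxC h
  obtain ⟨hc', S0, S1, S2, S3, e0, e1, e2, e3, t0, t1, t2, t3, he⟩ := hcyc false false false false
  have g0 : S0 = R0 := unique_in h0 t0 h0 e0 (Subset.refl _)
  have g1 : S1 = P1b ∪ A := unique_in r1 t1 r1 e1 (Subset.refl _)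
  have g2 : S2 = B := unique_in r2' t2 hB.symm e2 subset_union_right
  have g3 : S3 = insert s(x, s3) C' := unique_in r3 t3 r3.symm e3 (Subset.refl _)
  rw [he, g0, g1, g2, g3] at key
  rw [← key]
  congr 1
  simp only [cond_false]
  rw [Sym2.eq_swap (a := s3) (b := x), Sym2.eq_swap (a := a') (b := s2)]
  exact fin2 _ _ _ _ _ _ _ _ _ _ _ _ he0

theorem vs_ins {a b : α} {P P' : Finset (Sym2 α)} (h : P = insert s(a, b) P') (z : α) :
    z ∈ vs P ↔ z = a ∨ z = b ∨ z ∈ vs P' := by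
  rw [h, vs_insert, mem_union, mem_insert, mem_singleton, or_assoc]

theorem vs_un {P P1 P2 : Finset (Sym2 α)} (h : P1 ∪ P2 = P) (z : α) : z ∈ vs P ↔ z ∈ vs P1 ∨ z ∈ vs P2 := by
  rw [← h, mem_vs_union]

end XRBM

open XRBM D4PM in
set_option maxHeartbeats 4000000 in
theorem specXRB (hC20 : SpecC20) : SpecXRB := by
  intro α _ _ G x y s1 s2 s3 s4 f P1 P2 P3 hG h1 h2 h3 i12 i23 i13
  have nd := hG.p33.nd
  simp only [List.nodup_cons, List.mem_cons, List.not_mem_nil, or_false, not_or, List.nodup_nil, and_true,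
    not_false_eq_true] at nd
  obtain ⟨⟨nxy, nx1, nx2, nx3, nx4⟩, ⟨ny1, ny2, ny3, ny4⟩, ⟨n12, n13, n14⟩, ⟨n23, n24⟩, n34⟩ := nd
  have hnx := hG.p33.nx
  have hny := hG.p33.ny
  have axy : G.Adj x y := (hnx y).2 (Or.inl rfl)
  have ax2 : G.Adj x s2 := (hnx s2).2 (Or.inr (Or.inl rfl))
  have ax3 : G.Adj x s3 := (hnx s3).2 (Or.inr (Or.inr (Or.inl rfl)))
  have ay1 : G.Adj y s1 := (hny s1).2 (Or.inr (Or.inl rfl))
  have ay3 : G.Adj y s3 := (hny s3).2 (Or.inr (Or.inr (Or.inl rfl)))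
  have ay4 : G.Adj y s4 := (hny s4).2 (Or.inr (Or.inr (Or.inr rfl)))
  obtain ⟨h1, j1⟩ := isPth_del.1 h1
  obtain ⟨h2, j2⟩ := isPth_del.1 h2
  obtain ⟨h3, j3⟩ := isPth_del.1 h3
  have J1 : ∀ z ∈ vs P1, z ≠ x ∧ z ≠ y := fun z hz => by
    have := Finset.disjoint_left.1 j1 hz
    simpa only [mem_insert, mem_singleton, not_or] using this
  have J2 : ∀ z ∈ vs P2, z ≠ x ∧ z ≠ y := fun z hz => by
    have := Finset.disjoint_left.1 j2 hz
    simpa only [mem_insert, mem_singleton, not_or] using this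
  have J3 : ∀ z ∈ vs P3, z ≠ x ∧ z ≠ y := fun z hz => by
    have := Finset.disjoint_left.1 j3 hz
    simpa only [mem_insert, mem_singleton, not_or] using this
  have F12 : ∀ z ∈ vs P1, z ∈ vs P2 → z = s1 := fun z h h' => mem_singleton.1 (i12 (mem_inter.2 ⟨h, h'⟩))
  have F23 : ∀ z ∈ vs P2, z ∈ vs P3 → z = s2 := fun z h h' => mem_singleton.1 (i23 (mem_inter.2 ⟨h, h'⟩))
  have F13 : ∀ z ∈ vs P1, z ∉ vs P3 := fun z h h' => Finset.disjoint_left.1 i13 h h'
  have m41 : s4 ∈ vs P1 := h1.left_mem (Ne.symm n14)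
  have m11 : s1 ∈ vs P1 := h1.right_mem (Ne.symm n14)
  have m12 : s1 ∈ vs P2 := h2.left_mem n12
  have m22 : s2 ∈ vs P2 := h2.right_mem n12
  have m23 : s2 ∈ vs P3 := h3.left_mem n23
  have m33 : s3 ∈ vs P3 := h3.right_mem n23
  -- the ear
  obtain ⟨Q, hQ⟩ := exists_isPth ((hC20.two hG.k48 hG.p33).2.2.1 s4 (right_mem_VS ay4) s2 (right_mem_VS ax2)
    (by simp only [mem_insert, mem_singleton, not_or]
        exact ⟨Ne.symm nx4, Ne.symm ny4, Ne.symm n14, Ne.symm n34⟩)
    (by simp only [mem_insert, mem_singleton, not_or]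
        exact ⟨Ne.symm nx2, Ne.symm ny2, Ne.symm n12, n23⟩))
  obtain ⟨hQ, jQ⟩ := isPth_del.1 hQ
  have JQ : ∀ z ∈ vs Q, z ≠ x ∧ z ≠ y ∧ z ≠ s1 ∧ z ≠ s3 := fun z hz => by
    have := Finset.disjoint_left.1 jQ hz
    simpa only [mem_insert, mem_singleton, not_or] using this
  obtain ⟨q, Q1, Q2, hqX, hQ1, _, hQ12, _, _, hfst, _⟩ := hQ.first (X := {z | z ∈ vs P2 ∨ z ∈ vs P3})
    (Or.inr ⟨s2, hQ.right_mem (Ne.symm n24), Or.inl m22⟩)
  have hq4 : q ≠ s4 := by
    rintro rfl
    rcases hqX with h | h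
    · exact n14 (F12 _ m41 h).symm
    · exact F13 _ m41 h
  have hqQ : q ∈ vs Q := by
    rw [vs_un hQ12]
    exact Or.inl (hQ1.right_mem (Ne.symm hq4))
  obtain ⟨p, r, _, hpX, hr, _, hr12, _, _, hfst2, _⟩ := hQ1.symm.first (X := {z | z ∈ vs P1})
    (Or.inr ⟨s4, hQ1.left_mem (Ne.symm hq4), m41⟩)
  have hpX' : p ∈ vs P1 := hpX
  have JQq := JQ q hqQ
  have hqp : q ≠ p := by
    rintro rfl
    rcases hqX with h | h
    · exact JQq.2.2.1 (F12 _ hpX' h)
    · exact F13 _ hpX' h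
  have Jr : ∀ z ∈ vs r, z ∈ vs Q1 := fun z hz => by
    rw [vs_un hr12]
    exact Or.inl hz
  have JQ1 : ∀ z ∈ vs Q1, z ∈ vs Q := fun z hz => by
    rw [vs_un hQ12]
    exact Or.inl hz
  have hpr : p ∈ vs r := hr.right_mem hqp
  have hp1 : p ≠ s1 := (JQ p (JQ1 _ (Jr _ hpr))).2.2.1
  have G1 : ∀ z ∈ vs r, z ∈ vs P1 → z = p := fun z h h' => hfst2 z h h'
  have G2 : ∀ z ∈ vs r, z ∈ vs P2 ∨ z ∈ vs P3 → z = q := fun z h h' => hfst z (Jr z h) h'
  have G3 : ∀ z ∈ vs r, z ≠ x ∧ z ≠ y ∧ z ≠ s1 ∧ z ≠ s3 := fun z h => JQ z (JQ1 z (Jr z h))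
  obtain ⟨r', r2, apr, hr2, npr, er⟩ := uncons' hr.symm (Ne.symm hqp)
  have Vr := vs_ins er
  have npr' : p ≠ r' := apr.ne
  clear hQ1 hr hfst hfst2 Jr JQ1 JQ jQ hQ12 hr12 hQ hpX i12 i13 i23 j1 j2 j3
  by_cases hqP : q ∈ vs P2
  · -- case 1
    obtain ⟨Pa, B, hPa, hB, eP2, _, iPa⟩ := h2.split (v := q) (Or.inr hqP)
    have V2 := vs_un eP2
    have I2 : ∀ z ∈ vs Pa, z ∈ vs B → z = q := fun z h h' => mem_singleton.1 (iPa (mem_inter.2 ⟨h, h'⟩))
    obtain ⟨a', A, aqa, hA, nqA, eA⟩ := uncons' hPa.symm JQq.2.2.1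
    have VA := vs_ins eA
    obtain ⟨b', C', asb, hC, nsC, eC⟩ := uncons' h3 n23
    have VC := vs_ins eC
    have nqa : q ≠ a' := aqa.ne
    have nsb : s2 ≠ b' := asb.ne
    have ms1 : s1 ∈ vs Pa := hPa.left_mem (Ne.symm JQq.2.2.1)
    have key := case1 hG.ev hG.z1 hG.z2 axy ax2 ax3 ay1 ay3 ay4 h1 hA.symm hB hC hr2 asb aqa apr hpX' hp1
      (Ne.symm n14) n13 n12
      (by rw [mem_insert, not_or]; exact ⟨nx4, fun h => (J1 _ h).1 rfl⟩)
      (by rw [mem_insert, not_or]
          exact ⟨nx1, fun h => (J2 x ((V2 x).2 (Or.inl ((VA x).2 (Or.inr (Or.inr h)))))).1 rfl⟩)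
      (by rw [mem_insert, not_or]; exact ⟨Ne.symm JQq.1, fun h => (J2 x ((V2 x).2 (Or.inr h))).1 rfl⟩)
      (by rw [mem_insert, not_or]
          exact ⟨fun h => (J3 x ((VC x).2 (Or.inr (Or.inl h)))).1 rfl,
            fun h => (J3 x ((VC x).2 (Or.inr (Or.inr h)))).1 rfl⟩)
      (by rw [mem_insert, not_or]
          exact ⟨fun h => (G3 x ((Vr x).2 (Or.inr (Or.inl h)))).1 rfl,
            fun h => (G3 x ((Vr x).2 (Or.inr (Or.inr h)))).1 rfl⟩)
      (by rw [mem_insert, not_or]; exact ⟨ny4, fun h => (J1 _ h).2 rfl⟩)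
      (by rw [mem_insert, not_or]
          exact ⟨ny1, fun h => (J2 y ((V2 y).2 (Or.inl ((VA y).2 (Or.inr (Or.inr h)))))).2 rfl⟩)
      (by rw [mem_insert, not_or]; exact ⟨Ne.symm JQq.2.1, fun h => (J2 y ((V2 y).2 (Or.inr h))).2 rfl⟩)
      (by rw [mem_insert, not_or]
          exact ⟨fun h => (J3 y ((VC y).2 (Or.inr (Or.inl h)))).2 rfl,
            fun h => (J3 y ((VC y).2 (Or.inr (Or.inr h)))).2 rfl⟩)
      (by rw [mem_insert, not_or]
          exact ⟨fun h => (G3 y ((Vr y).2 (Or.inr (Or.inl h)))).2.1 rfl,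
            fun h => (G3 y ((Vr y).2 (Or.inr (Or.inr h)))).2.1 rfl⟩)
      (by
        intro z hz hz'
        have e1 := V2 z
        have e2 := VA z
        have e3 := VC z
        have e4 := Vr z
        have e5 := F23 z
        have e6 := G2 z
        have e7 := G3 z
        have e8 := I2 z
        grind)
      (by
        intro z hz hz'
        have e1 := V2 z
        have e2 := VA z
        have e3 := VC z
        have e5 := F23 z
        have e6 := F13 z
        have e7 := F12 z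
        grind)
      (by
        intro z hz hz'
        have e1 := V2 z
        have e2 := VA z
        have e4 := Vr z
        have e5 := F12 z
        have e6 := G2 z
        have e7 := G1 z
        have e8 := I2 z
        have e9 := I2 s1 ms1
        grind)
      (by
        intro z hz
        rw [mem_inter] at hz
        exact mem_singleton.2 (F12 z hz.1 ((V2 z).2 (Or.inl ((VA z).2 (Or.inr (Or.inr hz.2)))))))
      (by
        intro z hz
        rw [mem_inter] at hz
        exact mem_singleton.2 (G2 z ((Vr z).2 (Or.inr (Or.inr hz.1))) (Or.inl ((V2 z).2 (Or.inr hz.2)))))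
    rw [← eA, ← eC, eP2] at key
    exact key
  · -- case 2
    have hq3 : q ∈ vs P3 := hqX.resolve_left hqP
    have hq2 : q ≠ s2 := fun h => hqP (h ▸ m22)
    obtain ⟨Ba, Cb, hBa, hCb, eP3, _, iB⟩ := h3.split (v := q) (Or.inr hq3)
    have V3 := vs_un eP3
    have I3 : ∀ z ∈ vs Ba, z ∈ vs Cb → z = q := fun z h h' => mem_singleton.1 (iB (mem_inter.2 ⟨h, h'⟩))
    obtain ⟨c', C', aqc, hC, nqC, eC⟩ := uncons' hCb JQq.2.2.2
    have VC := vs_ins eC
    obtain ⟨a', A, asa, hA, nsA, eA⟩ := uncons' h2.symm (Ne.symm n12)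
    have VA := vs_ins eA
    obtain ⟨Pa, Pb, hPa, hPb, eP1, _, iP⟩ := h1.split (v := p) (Or.inr hpX')
    have V1 := vs_un eP1
    have I1 : ∀ z ∈ vs Pa, z ∈ vs Pb → z = p := fun z h h' => mem_singleton.1 (iP (mem_inter.2 ⟨h, h'⟩))
    have hyp : p ≠ y := (J1 p hpX').2
    have nyPa : y ∉ vs Pa := fun h => (J1 y ((V1 y).2 (Or.inl h))).2 rfl
    obtain ⟨b', R0, apb, hR0, npR, eR⟩ := uncons' (hPa.cons ay4 nyPa).symm hyp
    have VR : ∀ z, z = p ∨ z = b' ∨ z ∈ vs R0 ↔ z = y ∨ z = s4 ∨ z ∈ vs Pa := fun z => by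
      rw [← vs_ins eR, vs_ins rfl]
    have nqc : q ≠ c' := aqc.ne
    have h4a : s4 = p ∨ s4 ∈ vs Pa := by
      by_cases h : s4 = p
      · exact Or.inl h
      · exact Or.inr (hPa.left_mem h)
    have nsa : s2 ≠ a' := asa.ne
    have npb : p ≠ b' := apb.ne
    have m2B : s2 ∈ vs Ba := hBa.left_mem (Ne.symm hq2)
    have mqB : q ∈ vs Ba := hBa.right_mem (Ne.symm hq2)
    have m3C : s3 = c' ∨ s3 ∈ vs C' := by
      by_cases h : c' = s3
      · exact Or.inl h.symm
      · exact Or.inr (hC.right_mem h)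
    have key := case2 hG.ev hG.z1 hG.z2 (P1a := Pa) axy ax2 ax3 ay1 ay3 hR0.symm hPb hA.symm hBa.symm hC hr2 apb.symm asa
      aqc apr hp1
      (by rw [mem_insert, not_or]
          refine ⟨nxy, fun h => ?_⟩
          rcases (VR x).1 (Or.inr (Or.inr h)) with h' | h' | h'
          · exact nxy h'
          · exact nx4 h'
          · exact (J1 x ((V1 x).2 (Or.inl h'))).1 rfl)
      (by rw [mem_insert, not_or]
          exact ⟨fun h => (J1 p hpX').1 h.symm, fun h => (J1 x ((V1 x).2 (Or.inr h))).1 rfl⟩)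
      (by rw [mem_insert, not_or]
          exact ⟨nx1, fun h => (J2 x ((VA x).2 (Or.inr (Or.inr h)))).1 rfl⟩)
      (by rw [mem_insert, not_or]; exact ⟨Ne.symm JQq.1, fun h => (J3 x ((V3 x).2 (Or.inl h))).1 rfl⟩)
      (by rw [mem_insert, not_or]
          exact ⟨fun h => (J3 x ((V3 x).2 (Or.inr ((VC x).2 (Or.inr (Or.inl h)))))).1 rfl,
            fun h => (J3 x ((V3 x).2 (Or.inr ((VC x).2 (Or.inr (Or.inr h)))))).1 rfl⟩)
      (by rw [mem_insert, not_or]
          exact ⟨fun h => (G3 x ((Vr x).2 (Or.inr (Or.inl h)))).1 rfl,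
            fun h => (G3 x ((Vr x).2 (Or.inr (Or.inr h)))).1 rfl⟩)
      (by
        intro z hz hz'
        have e1 := V1 z
        have e2 := VA z
        have e3 := VR z
        have e4 := J1 z
        have e5 := J2 z
        have e6 := F12 z
        have e7 := I1 z
        have e8 := I1 s1
        have e9 := hPb.right_mem hp1
        grind)
      (by
        intro z hz hz'
        have e1 := V1 z
        have e3 := VR z
        have e4 := Vr z
        have e5 := G1 z
        have e6 := G3 z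
        have e7 := V3 z
        have e8 := F13 z
        have e9 := J3 z
        grind)
      (by
        intro z hz hz'
        have e1 := V1 z
        have e3 := VR z
        have e4 := VC z
        have e7 := V3 z
        have e8 := F13 z
        have e9 := J3 z
        grind)
      (by
        intro z hz hz'
        have e1 := V1 z
        have e2 := VA z
        have e4 := Vr z
        have e5 := G1 z
        have e6 := G2 z
        have e7 := V3 z
        have e8 := F13 z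
        have e9 := F23 z
        have e10 := F12 z
        grind)
      (by
        intro z hz hz'
        have e1 := V1 z
        have e2 := VA z
        have e4 := VC z
        have e7 := V3 z
        have e8 := F13 z
        have e9 := F23 z
        have e10 := I3 s2 m2B
        grind)
      (by
        intro z hz hz'
        have e2 := VC z
        have e4 := Vr z
        have e6 := G2 z
        have e7 := V3 z
        have e8 := I3 z
        have e10 := G3 z
        grind)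
      (by
        intro z hz
        rw [mem_inter] at hz
        exact mem_singleton.2 (F12 z ((V1 z).2 (Or.inr hz.1)) ((VA z).2 (Or.inr (Or.inr hz.2)))))
      (by
        intro z hz
        rw [mem_inter] at hz
        exact mem_singleton.2 (G2 z ((Vr z).2 (Or.inr (Or.inr hz.1))) (Or.inr ((V3 z).2 (Or.inl hz.2)))))
      (by rw [Sym2.eq_swap (a := b'), ← eR])
    rw [← eA, ← eC, eP1, eP3] at key
    rw [union_assoc P1 P2 P3, ← union_assoc] at key ⊢
    exact key

end DL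
end

section
/-!
# Module XRC: classification of the remaining cycles in case 2.1
-/
set_option autoImplicit false

open SimpleGraph Finset

namespace DL

namespace XRCM

variable {α : Type} [Fintype α] [DecidableEq α] {G H : SimpleGraph α}

/-- the rest of a cycle with the edges `ax`, `xy`, `yb` -/
theorem rest {C : Finset (Sym2 α)} {x y a b : α} (hC : IsCyc G C) (hxy : s(x, y) ∈ C)
    (hxa : s(x, a) ∈ C) (hyb : s(y, b) ∈ C) (hay : a ≠ y) (hbx : b ≠ x) :
    ∃ P, IsPth (del G {x, y}) a b P ∧ C = {s(a, x), s(x, y), s(y, b)} ∪ P := by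
  have h1 := hC.isPth_del hxa hxy hay
  have h2 := (DL.isPth_del.1 h1).1.symm
  have hxP : x ∉ vs (C \ {s(x, a), s(x, y)}) := by
    have := (DL.isPth_del.1 h1).2
    rw [disjoint_singleton_right] at this
    exact this
  have nxy := (hC.adj_of_mem hxy).ne
  obtain ⟨u, hu, hu1, hu2, hu3⟩ := h2.uncons (Ne.symm hay)
  have hb' : s(y, b) ∈ C \ {s(x, a), s(x, y)} := by
    rw [mem_sdiff, mem_insert, mem_singleton]
    refine ⟨hyb, ?_⟩
    rintro (h | h)
    · rw [Sym2.eq_iff] at h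
      rcases h with ⟨h, -⟩ | ⟨h, -⟩
      · exact nxy h.symm
      · exact hay h.symm
    · rw [Sym2.eq_iff] at h
      rcases h with ⟨h, -⟩ | ⟨-, h⟩
      · exact nxy h.symm
      · exact hbx h
  have hub : u = b := h2.left_unique hu1 hb'
  subst hub
  refine ⟨_, DL.isPth_del.2 ⟨hu3.symm, ?_⟩, ?_⟩
  · rw [Finset.disjoint_right]
    intro v hv
    rw [mem_insert, mem_singleton] at hv
    rcases hv with rfl | rfl
    · exact fun h => hxP (vs_mono sdiff_subset h)
    · exact hu2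
  · ext e
    simp only [mem_union, mem_sdiff, mem_insert, mem_singleton, not_or]
    constructor
    · intro he
      by_cases h3 : e = s(x, a)
      · left; left; rw [h3, Sym2.eq_swap]
      · by_cases h4 : e = s(x, y)
        · tauto
        · by_cases h5 : e = s(y, u)
          · tauto
          · exact Or.inr ⟨⟨he, h3, h4⟩, h5⟩
    · rintro ((h | h | h) | h)
      · rw [h, Sym2.eq_swap]; exact hxa
      · rw [h]; exact hxy
      · rw [h]; exact hyb
      · exact h.1.1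

/-- two vertices on a path -/
theorem thirds {P : Finset (Sym2 α)} {a b p q : α} (hP : IsPth H a b P) (hp : p ∈ vs P)
    (hq : q ∈ vs P) (hpq : p ≠ q) :
    ∃ P₁ P₂ P₃, P = P₁ ∪ P₂ ∪ P₃ ∧ vs P₁ ∩ vs P₂ ⊆ {p, q} ∧ vs P₂ ∩ vs P₃ ⊆ {p, q} ∧
      Disjoint (vs P₁) (vs P₃) ∧ IsPth H p q P₂ ∧
      ((IsPth H b p P₁ ∧ IsPth H q a P₃) ∨ (IsPth H a p P₁ ∧ IsPth H q b P₃)) := by
  obtain ⟨A, B, hA, hB, hAB, -, hi⟩ := hP.split (Or.inr hp)
  have hq' : q ∈ vs A ∨ q ∈ vs B := by
    rw [← hAB, mem_vs_union] at hq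
    exact hq
  rcases hq' with hq' | hq'
  · obtain ⟨A1, A2, hA1, hA2, hA12, -, hi'⟩ := hA.split (Or.inr hq')
    have hpA1 : p ∉ vs A1 := fun h => hpq (mem_singleton.1
      (hi' (mem_inter.2 ⟨h, hA2.right_mem (Ne.symm hpq)⟩)))
    refine ⟨B, A2, A1, ?_, ?_, ?_, ?_, hA2.symm, Or.inl ⟨hB.symm, hA1.symm⟩⟩
    · rw [← hAB, ← hA12, union_comm A1 A2, union_comm (A2 ∪ A1) B, union_assoc]
    · intro v hv
      rw [mem_inter] at hv
      have : v = p := mem_singleton.1 (hi (mem_inter.2 ⟨by rw [← hA12, mem_vs_union]; exact Or.inr hv.2, hv.1⟩))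
      rw [this]; simp
    · intro v hv
      rw [mem_inter] at hv
      have : v = q := mem_singleton.1 (hi' (mem_inter.2 ⟨hv.2, hv.1⟩))
      rw [this]; simp
    · rw [Finset.disjoint_left]
      intro v hv hv'
      have : v = p := mem_singleton.1 (hi (mem_inter.2 ⟨by rw [← hA12, mem_vs_union]; exact Or.inl hv', hv⟩))
      exact hpA1 (this ▸ hv')
  · obtain ⟨B1, B2, hB1, hB2, hB12, -, hi'⟩ := hB.split (Or.inr hq')
    have hpB2 : p ∉ vs B2 := fun h => hpq (mem_singleton.1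
      (hi' (mem_inter.2 ⟨hB1.left_mem hpq, h⟩)))
    refine ⟨A, B1, B2, ?_, ?_, ?_, ?_, hB1, Or.inr ⟨hA, hB2⟩⟩
    · rw [← hAB, ← hB12, union_assoc]
    · intro v hv
      rw [mem_inter] at hv
      have : v = p := mem_singleton.1 (hi (mem_inter.2 ⟨hv.1, by rw [← hB12, mem_vs_union]; exact Or.inl hv.2⟩))
      rw [this]; simp
    · intro v hv
      rw [mem_inter] at hv
      have : v = q := mem_singleton.1 (hi' (mem_inter.2 ⟨hv.1, hv.2⟩))
      rw [this]; simp
    · rw [Finset.disjoint_left]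
      intro v hv hv'
      have : v = p := mem_singleton.1 (hi (mem_inter.2 ⟨hv, by rw [← hB12, mem_vs_union]; exact Or.inr hv'⟩))
      exact hpB2 (this ▸ hv')

/-- a triangle -/
theorem tri_eq {C : Finset (Sym2 α)} {a b c : α} (hC : IsCyc G C) (h1 : s(a, b) ∈ C)
    (h2 : s(b, c) ∈ C) (h3 : s(a, c) ∈ C) (hac : a ≠ c) : vs C ⊆ {a, b, c} := by
  have hab := (hC.adj_of_mem h1).ne
  have hbc := (hC.adj_of_mem h2).ne
  have e1 : IsPth G a c (insert s(a, b) {s(b, c)}) := by
    refine (IsPth.edge (hC.adj_of_mem h2)).cons (hC.adj_of_mem h1) ?_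
    rw [vs_singleton]
    simp [hab, hac]
  have e2 := e1.isCyc (hC.adj_of_mem h3) (by
    simp only [mem_insert, mem_singleton, Sym2.eq_iff, not_or]
    refine ⟨⟨fun h => hbc h.2.symm, fun h => hab h.1⟩, ⟨fun h => hab h.1, fun h => hac h.1⟩⟩)
  have e3 := hC.eq_of_subset e2 (by
    intro e he
    simp only [mem_insert, mem_singleton] at he
    rcases he with rfl | rfl | rfl <;> assumption)
  rw [← e3]
  intro v hv
  rw [mem_vs] at hv
  obtain ⟨e, he, hv⟩ := hv
  simp only [mem_insert, mem_singleton] at he ⊢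
  rcases he with rfl | rfl | rfl <;> rw [Sym2.mem_iff] at hv <;> tauto

/-- a 4-cycle -/
theorem quad_eq {C : Finset (Sym2 α)} {a b c d : α} (hC : IsCyc G C) (h1 : s(a, b) ∈ C)
    (h2 : s(b, c) ∈ C) (h3 : s(c, d) ∈ C) (h4 : s(a, d) ∈ C) (hac : a ≠ c) (hbd : b ≠ d) :
    vs C ⊆ {a, b, c, d} := by
  have hab := (hC.adj_of_mem h1).ne
  have hbc := (hC.adj_of_mem h2).ne
  have hcd := (hC.adj_of_mem h3).ne
  have had := (hC.adj_of_mem h4).ne
  have e0 : IsPth G b d (insert s(b, c) {s(c, d)}) := by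
    refine (IsPth.edge (hC.adj_of_mem h3)).cons (hC.adj_of_mem h2) ?_
    rw [vs_singleton]
    simp [hbc, hbd]
  have e1 : IsPth G a d (insert s(a, b) (insert s(b, c) {s(c, d)})) := by
    refine e0.cons (hC.adj_of_mem h1) ?_
    rw [vs_insert, vs_singleton]
    simp [hab, hac, had]
  have e2 := e1.isCyc (hC.adj_of_mem h4) (by
    simp only [mem_insert, mem_singleton, Sym2.eq_iff, not_or]
    refine ⟨⟨fun h => hbd h.2.symm, fun h => hab h.1⟩, ⟨fun h => hab h.1, fun h => hac h.1⟩,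
      ⟨fun h => hac h.1, fun h => had h.1⟩⟩)
  have e3 := hC.eq_of_subset e2 (by
    intro e he
    simp only [mem_insert, mem_singleton] at he
    rcases he with rfl | rfl | rfl | rfl <;> assumption)
  rw [← e3]
  intro v hv
  rw [mem_vs] at hv
  obtain ⟨e, he, hv⟩ := hv
  simp only [mem_insert, mem_singleton] at he ⊢
  rcases he with rfl | rfl | rfl | rfl <;> rw [Sym2.mem_iff] at hv <;> tauto

end XRCM

open XRCM in
theorem specXRC : SpecXRC := by
  intro α _ _ G x y s₁ s₂ s₃ s₄ C hp hC hx h2 hy h1 hx2 hy1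
  have hnp := hp.nd
  simp only [List.nodup_cons, List.mem_cons, List.not_mem_nil, or_false, not_or,
    List.nodup_nil, and_true, not_false_eq_true] at hnp
  obtain ⟨⟨nxy, nx1, nx2, nx3, nx4⟩, ⟨ny1, ny2, ny3, ny4⟩, ⟨n12, n13, n14⟩, ⟨n23, n24⟩, n34⟩ := hnp
  have ex : ∀ k, s(x, k) ∈ C → k = y ∨ k = s₃ ∨ k = s₄ := by
    intro k hk
    rcases (hp.nx k).1 (hC.adj_of_mem hk) with h | h | h | h
    · exact Or.inl h
    · exact absurd (h ▸ hk) hx2
    · tauto
    · tauto
  have ey : ∀ k, s(y, k) ∈ C → k = x ∨ k = s₃ ∨ k = s₄ := by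
    intro k hk
    rcases (hp.ny k).1 (hC.adj_of_mem hk) with h | h | h | h
    · exact Or.inl h
    · exact absurd (h ▸ hk) hy1
    · tauto
    · tauto
  obtain ⟨i, j, hij, hi, hj, -⟩ := hC.two_edges hx
  obtain ⟨i', j', hij', hi', hj', -⟩ := hC.two_edges hy
  -- the edge `xy` is in `C`
  have hxy : s(x, y) ∈ C := by
    by_contra hxy
    have ex' : ∀ k, s(x, k) ∈ C → k = s₃ ∨ k = s₄ := fun k hk => by
      rcases ex k hk with h | h
      · exact absurd (h ▸ hk) hxy
      · exact h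
    have ey' : ∀ k, s(y, k) ∈ C → k = s₃ ∨ k = s₄ := fun k hk => by
      rcases ey k hk with h | h
      · rw [h, Sym2.eq_swap] at hk
        exact absurd hk hxy
      · exact h
    have k1 : s(x, s₃) ∈ C ∧ s(x, s₄) ∈ C := by
      rcases ex' i hi with rfl | rfl <;> rcases ex' j hj with rfl | rfl
      · exact absurd rfl hij
      · exact ⟨hi, hj⟩
      · exact ⟨hj, hi⟩
      · exact absurd rfl hij
    have k2 : s(y, s₃) ∈ C ∧ s(y, s₄) ∈ C := by
      rcases ey' i' hi' with rfl | rfl <;> rcases ey' j' hj' with rfl | rfl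
      · exact absurd rfl hij'
      · exact ⟨hi', hj'⟩
      · exact ⟨hj', hi'⟩
      · exact absurd rfl hij'
    have := quad_eq hC k1.1 (by rw [Sym2.eq_swap]; exact k2.1) k2.2 k1.2 nxy n34 h2
    simp only [mem_insert, mem_singleton] at this
    rcases this with h | h | h | h
    · exact nx2 h.symm
    · exact n23 h
    · exact ny2 h.symm
    · exact n24 h
  have hyx : s(y, x) ∈ C := by rw [Sym2.eq_swap]; exact hxy
  obtain ⟨k, hk, hxk⟩ := hC.exists_other hxy
  obtain ⟨k', hk', hyk⟩ := hC.exists_other hyx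
  have notri : ∀ k, s(x, k) ∈ C → s(y, k) ∈ C → k ≠ s₁ → False := by
    intro k h3 h4 hk1
    have := tri_eq hC hxy h4 h3 (hC.adj_of_mem h3).ne h1
    simp only [mem_insert, mem_singleton] at this
    rcases this with h | h | h
    · exact nx1 h.symm
    · exact ny1 h.symm
    · exact hk1 h.symm
  have fin : ∀ {a b : α} {P : Finset (Sym2 α)}, a ≠ s₁ → a ≠ s₂ → b ≠ s₁ → b ≠ s₂ →
      ∀ {u v : α}, (u = x ∨ u = y) → (v = x ∨ v = y) →
      C = {s(a, u), s(u, v), s(v, b)} ∪ P → s₁ ∈ vs P ∧ s₂ ∈ vs P := by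
    intro a b P ha1 ha2 hb1 hb2 u v hu hv hCP
    have key : ∀ w, w ∈ vs C → w ≠ a → w ≠ b → w ≠ x → w ≠ y → w ∈ vs P := by
      intro w hw h3 h4 h5 h6
      rw [hCP, mem_vs_union] at hw
      rcases hw with hw | hw
      · exfalso
        rw [mem_vs] at hw
        obtain ⟨e, he, hw⟩ := hw
        simp only [mem_insert, mem_singleton] at he
        rcases he with rfl | rfl | rfl <;> rw [Sym2.mem_iff] at hw
        · rcases hw with h | h
          · exact h3 h
          · rcases hu with h' | h'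
            · exact h5 (h.trans h')
            · exact h6 (h.trans h')
        · rcases hw with h | h
          · rcases hu with h' | h'
            · exact h5 (h.trans h')
            · exact h6 (h.trans h')
          · rcases hv with h' | h'
            · exact h5 (h.trans h')
            · exact h6 (h.trans h')
        · rcases hw with h | h
          · rcases hv with h' | h'
            · exact h5 (h.trans h')
            · exact h6 (h.trans h')
          · exact h4 h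
      · exact hw
    exact ⟨key _ h1 ha1.symm hb1.symm (Ne.symm nx1) (Ne.symm ny1),
      key _ h2 ha2.symm hb2.symm (Ne.symm nx2) (Ne.symm ny2)⟩
  rcases ex k hxk with h | h | h
  · exact absurd h hk
  · rcases ey k' hyk with h' | h' | h'
    · exact absurd h' hk'
    · exact (notri s₃ (h ▸ hxk) (h' ▸ hyk) (Ne.symm n13)).elim
    · subst h h'
      obtain ⟨P, hP, hCP⟩ := rest hC hxy hxk hyk (Ne.symm ny3) (Ne.symm nx4)
      obtain ⟨f1, f2⟩ := fin (Ne.symm n13) (Ne.symm n23) (Ne.symm n14) (Ne.symm n24) (Or.inl rfl) (Or.inr rfl) hCP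
      exact ⟨P, hP, Or.inl hCP, thirds hP f1 f2 n12⟩
  · rcases ey k' hyk with h' | h' | h'
    · exact absurd h' hk'
    · subst h h'
      obtain ⟨P, hP, hCP⟩ := rest hC hyx hyk hxk (Ne.symm nx3) (Ne.symm ny4)
      obtain ⟨f1, f2⟩ := fin (Ne.symm n13) (Ne.symm n23) (Ne.symm n14) (Ne.symm n24) (Or.inr rfl) (Or.inl rfl) hCP
      rw [pair_comm] at hP
      exact ⟨P, hP, Or.inr hCP, thirds hP f1 f2 n12⟩
    · exact (notri s₄ (h ▸ hxk) (h' ▸ hyk) (Ne.symm n14)).elim

end DL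
end

section
/-!
# MP_3ff0f8_gt, EXIST section 2, module XRD (helper51)

The remaining cycles: `f = c coh x y s₂ s₁`.
-/
set_option autoImplicit false
set_option linter.unusedSectionVars false

open SimpleGraph Finset

namespace DL

namespace XRDM

variable {α : Type} [Fintype α] [DecidableEq α] {G : SimpleGraph α}

theorem nd6 {x y s₁ s₂ s₃ s₄ : α} (h : [x, y, s₁, s₂, s₃, s₄].Nodup) :
    x ≠ y ∧ x ≠ s₁ ∧ x ≠ s₂ ∧ x ≠ s₃ ∧ x ≠ s₄ ∧ y ≠ s₁ ∧ y ≠ s₂ ∧ y ≠ s₃ ∧ y ≠ s₄ ∧ s₁ ≠ s₂ ∧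
      s₁ ≠ s₃ ∧ s₁ ≠ s₄ ∧ s₂ ≠ s₃ ∧ s₂ ≠ s₄ ∧ s₃ ≠ s₄ := by
  simp only [List.nodup_cons, List.mem_cons, List.not_mem_nil, or_false, not_or, List.nodup_nil,
    and_true, not_false_eq_true] at h
  tauto

/-- `C` contains `xs₂`: the vertex `s₂` is only connected to `x` -/
theorem coh_x {C : Finset (Sym2 α)} {x y s₁ s₂ : α} (hC : IsCyc G C) (h : s(x, s₂) ∈ C)
    (hxy : x ≠ y) (hx1 : x ≠ s₁) (hy2 : y ≠ s₂) : coh x y s₂ s₁ C = 0 := by
  by_contra hcon
  rw [← ne_eq, coh_ne_zero] at hcon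
  obtain ⟨h1, h2, h3⟩ := hcon
  have h' : s(s₂, x) ∈ C := by rw [Sym2.eq_swap]; exact h
  have := h3.symm.mem_of_closed (X := {x, s₂}) (fun a b hab ha => by
    rw [mem_sdiff, mem_insert, mem_singleton, not_or] at hab
    rcases ha with rfl | ha
    · rcases hC.eq_or_eq h1 h hy2 hab.1 with rfl | rfl
      · exact absurd rfl hab.2.1
      · exact Or.inr rfl
    · rw [Set.mem_singleton_iff] at ha
      subst ha
      rcases hC.eq_or_eq h' h2 hx1 hab.1 with rfl | rfl
      · exact Or.inl rfl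
      · exact absurd rfl hab.2.2) (Or.inr rfl)
  rcases this with e | e
  · exact hxy e.symm
  · exact hy2 e

/-- `C` contains `ys₁`: the vertex `y` is only connected to `s₁` -/
theorem coh_y {C : Finset (Sym2 α)} {x y s₁ s₂ : α} (hC : IsCyc G C) (h : s(y, s₁) ∈ C)
    (hx1 : x ≠ s₁) (hy2 : y ≠ s₂) (h12 : s₁ ≠ s₂) : coh x y s₂ s₁ C = 0 := by
  by_contra hcon
  rw [← ne_eq, coh_ne_zero] at hcon
  obtain ⟨h1, h2, h3⟩ := hcon
  have h' : s(s₁, y) ∈ C := by rw [Sym2.eq_swap]; exact h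
  have h1' : s(y, x) ∈ C := by rw [Sym2.eq_swap]; exact h1
  have h2' : s(s₁, s₂) ∈ C := by rw [Sym2.eq_swap]; exact h2
  have := h3.mem_of_closed (X := {y, s₁}) (fun a b hab ha => by
    rw [mem_sdiff, mem_insert, mem_singleton, not_or] at hab
    rcases ha with rfl | ha
    · rcases hC.eq_or_eq h1' h hx1 hab.1 with rfl | rfl
      · exact absurd Sym2.eq_swap hab.2.1
      · exact Or.inr rfl
    · rw [Set.mem_singleton_iff] at ha
      subst ha
      rcases hC.eq_or_eq h' h2' hy2 hab.1 with rfl | rfl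
      · exact Or.inl rfl
      · exact absurd Sym2.eq_swap hab.2.2) (Or.inl rfl)
  rcases this with e | e
  · exact hy2 e.symm
  · exact h12 e.symm

/-- the edge set `p x y q ∪ P` -/
def Fm (x y p q : α) (P : Finset (Sym2 α)) : Finset (Sym2 α) := {s(p, x), s(x, y), s(y, q)} ∪ P

theorem mem_Fm {x y p q : α} {P : Finset (Sym2 α)} {e : Sym2 α} :
    e ∈ Fm x y p q P ↔ (e = s(p, x) ∨ e = s(x, y) ∨ e = s(y, q)) ∨ e ∈ P := by
  simp only [Fm, mem_union, mem_insert, mem_singleton]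

theorem fm_two (x y p q : α) (P : Finset (Sym2 α)) :
    ({s(p, y), s(y, x), s(x, q)} : Finset (Sym2 α)) ∪ P = Fm x y q p P := by
  unfold Fm
  congr 1
  rw [Sym2.eq_swap (a := p), Sym2.eq_swap (a := y) (b := x), Sym2.eq_swap (a := x) (b := q)]
  ext e
  simp only [mem_insert, mem_singleton]
  tauto

theorem not_vs_of_del {S : Finset α} {a b v : α} {P : Finset (Sym2 α)} (h : IsPth (del G S) a b P)
    (hv : v ∈ S) : v ∉ vs P := fun h1 => Finset.disjoint_left.1 (isPth_del.1 h).2 h1 hv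

variable {x y p q s₁ s₂ : α} {P₁ P₂ P₃ : Finset (Sym2 α)}

/-- the edge `s₁s₂` is not in the cycle -/
theorem coh_no {P : Finset (Sym2 α)} (hx1 : x ≠ s₁) (hx2 : x ≠ s₂) (hy1 : y ≠ s₁) (hy2 : y ≠ s₂)
    (h : s(s₁, s₂) ∉ P) : coh x y s₂ s₁ (Fm x y p q P) = 0 := by
  apply coh_eq_zero_right
  rw [mem_Fm, Sym2.eq_swap]
  rintro ((e | e | e) | e)
  · rw [Sym2.eq_iff] at e
    rcases e with e | e
    · exact hx2 e.2.symm
    · exact hx1 e.1.symm
  · rw [Sym2.eq_iff] at e
    rcases e with e | e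
    · exact hx1 e.1.symm
    · exact hx2 e.2.symm
  · rw [Sym2.eq_iff] at e
    rcases e with e | e
    · exact hy1 e.1.symm
    · exact hy2 e.2.symm
  · exact h e

/-- `P₃` leads from `s₂` to `q` -/
theorem coh_reach (hy1 : y ≠ s₁) (hy2 : y ≠ s₂) (hqx : q ≠ x)
    (hP₃ : IsPth (del G {x, y}) s₂ q P₃) (h1 : s₁ ∉ vs P₃) (hm : s(s₁, s₂) ∈ P₂) :
    coh x y s₂ s₁ (Fm x y p q (P₁ ∪ P₂ ∪ P₃)) = 1 := by
  have h2 : s(s₂, s₁) ∈ Fm x y p q (P₁ ∪ P₂ ∪ P₃) := by
    rw [mem_Fm, Sym2.eq_swap]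
    exact Or.inr (mem_union_left _ (mem_union_right _ hm))
  rw [coh_apply, if_pos]
  refine ⟨mem_Fm.2 (Or.inl (Or.inr (Or.inl rfl))), h2, ?_⟩
  have h3 : s(y, q) ∈ Fm x y p q (P₁ ∪ P₂ ∪ P₃) \ {s(x, y), s(s₂, s₁)} := by
    rw [mem_sdiff, mem_insert, mem_singleton, not_or]
    refine ⟨mem_Fm.2 (Or.inl (Or.inr (Or.inr rfl))), fun e => ?_, fun e => ?_⟩
    · rw [Sym2.eq_iff] at e
      rcases e with e | e
      · exact hqx (e.2.trans e.1)
      · exact hqx e.2
    · rw [Sym2.eq_iff] at e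
      rcases e with e | e
      · exact hy2 e.1
      · exact hy1 e.1
  refine (Rch.of_mem h3).trans (hP₃.symm.rch fun e he => ?_)
  rw [mem_sdiff, mem_insert, mem_singleton, not_or]
  refine ⟨mem_Fm.2 (Or.inr (mem_union_right _ he)), ?_, ?_⟩
  · rintro rfl
    exact not_vs_of_del hP₃ (by simp) (left_mem_vs he)
  · rintro rfl
    exact h1 (right_mem_vs he)

/-- `P₁` leads from `q` to `s₁`, `P₃` leads from `s₂` to `p` -/
theorem coh_not (hxy : x ≠ y) (hpy : p ≠ y) (hq1 : q ≠ s₁) (hp2 : s₂ ≠ p) (hy2 : y ≠ s₂)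
    (hP₁ : IsPth (del G {x, y}) q s₁ P₁) (hP₃ : IsPth (del G {x, y}) s₂ p P₃)
    (hP₂ : P₂ = {s(s₁, s₂)}) (h13 : Disjoint (vs P₁) (vs P₃)) :
    coh x y s₂ s₁ (Fm x y p q (P₁ ∪ P₂ ∪ P₃)) = 0 := by
  by_contra hcon
  rw [← ne_eq, coh_ne_zero] at hcon
  obtain ⟨_, _, h3⟩ := hcon
  have hx : x ∉ vs P₁ := not_vs_of_del hP₁ (by simp)
  have hp : p ∈ vs P₃ := hP₃.right_mem hp2
  have h2 : s₂ ∈ vs P₃ := hP₃.left_mem hp2
  have hq : q ∈ vs P₁ := hP₁.left_mem hq1
  have hy3 : y ∉ vs P₃ := not_vs_of_del hP₃ (by simp)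
  have := h3.mem_of_closed (X := {v | v = y ∨ v ∈ vs P₁}) (fun a b hab ha => by
    rw [mem_sdiff, mem_insert, mem_singleton, not_or, mem_Fm, mem_union, mem_union, hP₂,
      mem_singleton] at hab
    obtain ⟨h4, h5, h6⟩ := hab
    rcases h4 with (e | e | e) | ((e | e) | e)
    · exfalso
      rw [Sym2.eq_iff] at e
      rcases e with ⟨rfl, _⟩ | ⟨rfl, _⟩
      · rcases ha with ha | ha
        · exact hpy ha
        · exact Finset.disjoint_left.1 h13 ha hp
      · rcases ha with ha | ha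
        · exact hxy ha
        · exact hx ha
    · exact absurd e h5
    · rw [Sym2.eq_iff] at e
      rcases e with ⟨_, rfl⟩ | ⟨_, rfl⟩
      · exact Or.inr hq
      · exact Or.inl rfl
    · exact Or.inr (right_mem_vs e)
    · exact absurd (e.trans Sym2.eq_swap) h6
    · exfalso
      rcases ha with rfl | ha
      · exact hy3 (left_mem_vs e)
      · exact Finset.disjoint_left.1 h13 ha (left_mem_vs e)) (Or.inl rfl)
  rcases this with e | e
  · exact hy2 e.symm
  · exact Finset.disjoint_left.1 h13 e h2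

end XRDM

open XRDM in
/-- **XRD** -/
theorem specXRD (hXRA : SpecXRA) (hXRB : SpecXRB) (hXRC : SpecXRC) : SpecXRD := by
  intro α _ _ G x y s₁ s₂ s₃ s₄ f h
  obtain ⟨c, hc⟩ := hXRA h
  refine ⟨c, fun C hC => ?_⟩
  obtain ⟨hxy, hx1, hx2, hx3, hx4, hy1, hy2, hy3, hy4, h12, h13, h14, h23, h24, h34⟩ :=
    nd6 h.p33.nd
  by_cases c1 : CycM G x s₂ C
  · rw [h.z1 C c1]
    by_cases hm : x ∈ vs C ∧ s₂ ∈ vs C
    · rw [coh_x hC (c1.2 hm.1 hm.2) hxy hx1 hy2, mul_zero]
    · rw [show coh x y s₂ s₁ C = 0 from ?_, mul_zero]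
      by_contra hcon
      rw [← ne_eq, coh_ne_zero] at hcon
      exact hm ⟨left_mem_vs hcon.1, left_mem_vs hcon.2.1⟩
  by_cases c2 : CycM G y s₁ C
  · rw [h.z2 C c2]
    by_cases hm : y ∈ vs C ∧ s₁ ∈ vs C
    · rw [coh_y hC (c2.2 hm.1 hm.2) hx1 hy2 h12, mul_zero]
    · rw [show coh x y s₂ s₁ C = 0 from ?_, mul_zero]
      by_contra hcon
      rw [← ne_eq, coh_ne_zero] at hcon
      exact hm ⟨right_mem_vs hcon.1, right_mem_vs hcon.2.1⟩
  have e1 : x ∈ vs C ∧ s₂ ∈ vs C ∧ s(x, s₂) ∉ C := by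
    unfold CycM at c1
    tauto
  have e2 : y ∈ vs C ∧ s₁ ∈ vs C ∧ s(y, s₁) ∉ C := by
    unfold CycM at c2
    tauto
  obtain ⟨P, hP, hCP, P₁, P₂, P₃, hPP, i12, i23, d13, hP2, hord⟩ :=
    hXRC h.p33 hC e1.1 e1.2.1 e2.1 e2.2.1 e1.2.2 e2.2.2
  have hcP := hc P hP
  rw [fm_two x y s₃ s₄ P] at hcP hCP
  change C = Fm x y s₃ s₄ P ∨ _ at hCP
  change f (Fm x y s₃ s₄ P) + _ = _ at hcP
  -- the edge `s₁s₂`
  have sgl : ∀ (hs1 : s₁ ∈ vs P₁) (hs2 : s₂ ∈ vs P₃), s(s₁, s₂) ∈ P →
      P₂ = {s(s₁, s₂)} ∧ s(s₁, s₂) ∈ P₂ := by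
    intro hs1 hs2 hm
    rw [hPP, mem_union, mem_union] at hm
    have : s(s₁, s₂) ∈ P₂ := by
      rcases hm with (hm | hm) | hm
      · exact absurd hs2 (Finset.disjoint_left.1 d13 (right_mem_vs hm))
      · exact hm
      · exact absurd (left_mem_vs hm) (Finset.disjoint_left.1 d13 hs1)
    exact ⟨hP2.eq_singleton this, this⟩
  rcases hord with ⟨hP1, hP3⟩ | ⟨hP1, hP3⟩
  · -- order `s₄, s₁, s₂, s₃`
    have hs1 : s₁ ∈ vs P₁ := hP1.right_mem h14.symm
    have hs2 : s₂ ∈ vs P₃ := hP3.left_mem h23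
    have n1 : s₁ ∉ vs P₃ := Finset.disjoint_left.1 d13 hs1
    have n2 : s₂ ∉ vs P₁ := Finset.disjoint_right.1 d13 hs2
    have hz : f (Fm x y s₃ s₄ P) = 0 := by
      rw [hPP]
      refine hXRB h hP1 hP2 hP3 (fun v hv => ?_) (fun v hv => ?_) d13
      · have := i12 hv
        rw [mem_insert, mem_singleton] at this
        rcases this with rfl | rfl
        · exact mem_singleton_self _
        · exact absurd (mem_inter.1 hv).1 n2
      · have := i23 hv
        rw [mem_insert, mem_singleton] at this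
        rcases this with rfl | rfl
        · exact absurd (mem_inter.1 hv).2 n1
        · exact mem_singleton_self _
    rw [hz, zero_add] at hcP
    rcases hCP with rfl | rfl
    · rw [hz]
      by_cases hm : s(s₁, s₂) ∈ P
      · rw [hPP, coh_not hxy hy3.symm h14.symm h23 hy2 hP1 hP3 (sgl hs1 hs2 hm).1 d13, mul_zero]
      · rw [coh_no hx1 hx2 hy1 hy2 hm, mul_zero]
    · rw [hcP]
      by_cases hm : s(s₁, s₂) ∈ P
      · rw [chi_of_mem hm, hPP, coh_reach hy1 hy2 hx3.symm hP3 n1 (sgl hs1 hs2 hm).2]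
      · rw [chi_of_notMem hm, coh_no hx1 hx2 hy1 hy2 hm]
  · -- order `s₃, s₁, s₂, s₄`
    have hs1 : s₁ ∈ vs P₁ := hP1.right_mem h13.symm
    have hs2 : s₂ ∈ vs P₃ := hP3.left_mem h24
    have n1 : s₁ ∉ vs P₃ := Finset.disjoint_left.1 d13 hs1
    have n2 : s₂ ∉ vs P₁ := Finset.disjoint_right.1 d13 hs2
    have hz : f (Fm x y s₄ s₃ P) = 0 := by
      rw [hPP]
      refine hXRB h.sym2 hP1 hP2 hP3 (fun v hv => ?_) (fun v hv => ?_) d13
      · have := i12 hv
        rw [mem_insert, mem_singleton] at this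
        rcases this with rfl | rfl
        · exact mem_singleton_self _
        · exact absurd (mem_inter.1 hv).1 n2
      · have := i23 hv
        rw [mem_insert, mem_singleton] at this
        rcases this with rfl | rfl
        · exact absurd (mem_inter.1 hv).2 n1
        · exact mem_singleton_self _
    rw [hz, add_zero] at hcP
    rcases hCP with rfl | rfl
    · rw [hcP]
      by_cases hm : s(s₁, s₂) ∈ P
      · rw [chi_of_mem hm, hPP, coh_reach hy1 hy2 hx4.symm hP3 n1 (sgl hs1 hs2 hm).2]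
      · rw [chi_of_notMem hm, coh_no hx1 hx2 hy1 hy2 hm]
    · rw [hz]
      by_cases hm : s(s₁, s₂) ∈ P
      · rw [hPP, coh_not hxy hy4.symm h13.symm h24 hy2 hP1 hP3 (sgl hs1 hs2 hm).1 d13, mul_zero]
      · rw [coh_no hx1 hx2 hy1 hy2 hm, mul_zero]

end DL
end
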