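import Pool.Agent.DL.E.Spec2d
import Pool.Agent.DL.G4.C20
import Pool.Agent.DL.KC
import Pool.Agent.DL.E.Spec2b
import Pool.Agent.DL.NP.TRC
import Pool.Agent.DL.K.KY3

section
set_option autoImplicit false

/-!
MP_3ff0f8_gt, ALGEBRA HALF, E block section 2, module XF3 (helper60)
-/

open SimpleGraph Finset

namespace DL

namespace XF3M

variable {α : Type} [Fintype α] [DecidableEq α] {G : SimpleGraph α}

/-- a component with few neighbours consists of its root -/
lemma single {J : SimpleGraph α} (hG : KConn 4 G) (hJ : J ≤ G) {u p q r : α} (hr : r ∈ VS G)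
    (hru : ¬ J.Reachable u r) (hrp : r ≠ p) (hrq : r ≠ q)
    (h : ∀ a w, J.Reachable u a → a ≠ u → G.Adj a w → J.Adj a w ∨ w = u ∨ w = p ∨ w = q) :
    ∀ a, J.Reachable u a → a = u := by
  classical
  by_contra hcon
  push Not at hcon
  obtain ⟨a, ha, hau⟩ := hcon
  have hm : ∀ v, v ∈ univ.filter (fun v => J.Reachable u v ∧ v ≠ u) ↔ J.Reachable u v ∧ v ≠ u :=
    fun v => by simp
  refine C20M.few (D := univ.filter (fun v => J.Reachable u v ∧ v ≠ u)) (W := {u, p, q}) (r := r)
    hG ?_ ⟨a, (hm a).2 ⟨ha, hau⟩⟩ ?_ card_le_three hr (fun h' => hru ((hm r).1 h').1) ?_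
  · intro v hv
    have h1 := (hm v).1 hv
    obtain ⟨w, hw⟩ := exists_adj_of_reachable h1.1.symm h1.2
    exact left_mem_VS (hJ hw)
  · rintro w hw ⟨b, hb, hbw⟩
    have h1 := (hm b).1 hb
    rw [mem_insert, mem_insert, mem_singleton]
    rcases h b w h1.1 h1.2 hbw with h2 | h2
    · left
      by_contra hwu
      exact hw ((hm w).2 ⟨h1.1.trans h2.reachable, hwu⟩)
    · exact h2
  · rw [mem_insert, mem_insert, mem_singleton, not_or, not_or]
    refine ⟨?_, hrp, hrq⟩
    rintro rfl
    exact hru (Reachable.refl _)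

/-- degree at least four -/
lemma deg4 (hG : KConn 4 G) {u a b c d : α} (hu : u ∈ VS G)
    (h : ∀ w, G.Adj u w → w = a ∨ w = b ∨ w = c ∨ w = d) : G.Adj u c ∧ G.Adj u d := by
  have h1 : nbs G u ⊆ {a, b, c, d} := by
    intro w hw
    rw [mem_nbs] at hw
    simpa using h w hw
  have h2 := eq_of_subset_of_card_le h1 ((C20M.card4 _ _ _ _).trans (hG.le_nbs hu))
  exact ⟨mem_nbs.1 (by rw [h2]; simp), mem_nbs.1 (by rw [h2]; simp)⟩

lemma mem_of_adj_del {X : Finset α} {u v : α} (h : (del G (univ \ X)).Adj u v) : u ∈ X ∧ v ∈ X := by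
  have h1 := h.2
  simp only [mem_sdiff, mem_univ, true_and, not_not] at h1
  exact h1

lemma mem_of_reach {X : Finset α} {u v : α} (h : (del G (univ \ X)).Reachable u v) (hne : v ≠ u) :
    v ∈ X := by
  obtain ⟨w, hw⟩ := exists_adj_of_reachable h.symm hne
  exact (mem_of_adj_del hw).1

lemma adj_del {X : Finset α} {u v : α} (h : G.Adj u v) (hu : u ∈ X) (hv : v ∈ X) :
    (del G (univ \ X)).Adj u v := ⟨h, by simp [hu], by simp [hv]⟩

end XF3M

open XF3M in
theorem specXF3 (hXF1 : SpecXF1) (hXCC : SpecXCC) (hXCB : SpecXCB) : SpecXF3 := by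
  intro α _ _ G x y s₁ s₂ s₃ s₄ hG hN hp h13' hM
  classical
  have dd := C20M.ds hp
  obtain ⟨c, d, A, B, hnd, hs, hxA, h2A, h4A, h1B, h3⟩ := hM
  simp only [List.nodup_cons, List.mem_cons, List.not_mem_nil, or_false, not_or, List.nodup_nil,
    and_true] at hnd
  obtain ⟨⟨h3y, h3c, h3d⟩, ⟨hyc, hyd⟩, hcd, -⟩ := hnd
  have hSA : ∀ v ∈ A, v ≠ s₃ ∧ v ≠ y ∧ v ≠ c ∧ v ≠ d := by
    intro v hv
    have h1 : v ∉ ({s₃, y, c, d} : Finset α) := fun h => Finset.disjoint_left.1 hs.2.1 h hv
    simpa only [mem_insert, mem_singleton, not_or] using h1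
  have hSB : ∀ v ∈ B, v ≠ s₃ ∧ v ≠ y ∧ v ≠ c ∧ v ≠ d := by
    intro v hv
    have h1 : v ∉ ({s₃, y, c, d} : Finset α) := fun h => Finset.disjoint_left.1 hs.2.2.1 h hv
    simpa only [mem_insert, mem_singleton, not_or] using h1
  have hAB : ∀ v ∈ A, v ∉ B := fun v hv hv' => Finset.disjoint_left.1 hs.2.2.2.1 hv hv'
  have hVx := C20M.vsub hp (z := x) (by simp)
  -- neighbours of vertices of `A` and of `B`
  have nA : ∀ a w, a ∈ A → G.Adj a w → w ∈ A ∨ w = s₃ ∨ w = y ∨ w = c ∨ w = d := by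
    intro a w ha haw
    rcases hs.mem_or (right_mem_VS haw) with h | h | h
    · right; simpa using h
    · exact Or.inl h
    · exact absurd haw (hs.2.2.2.2 a ha w h)
  have nB : ∀ a w, a ∈ B → G.Adj a w → w ∈ B ∨ w = s₃ ∨ w = y ∨ w = c ∨ w = d := by
    intro a w ha haw
    rcases hs.mem_or (right_mem_VS haw) with h | h | h
    · right; simpa using h
    · exact absurd haw.symm (hs.2.2.2.2 w h a ha)
    · exact Or.inl h
  -- (1)
  have P1 : ∀ t, t = c ∨ t = d → (del G (univ \ insert t (A.erase x))).Reachable s₂ s₄ := by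
    by_cases hr : (del G (univ \ A.erase x)).Reachable s₂ s₄
    · intro t _
      refine hr.mono fun u v huv => ?_
      have h1 := mem_of_adj_del huv
      exact adj_del huv.1 (mem_insert_of_mem h1.1) (mem_insert_of_mem h1.2)
    · have key : ∀ u v, u ∈ A.erase x → v ∈ A.erase x → (u = s₂ ∧ v = s₄) ∨ (u = s₄ ∧ v = s₂) →
          ¬ (del G (univ \ A.erase x)).Reachable u v → ∀ w, G.Adj u w → w = x ∨ w ∈ ({s₃, y} : Finset α) ∨ w = c ∨ w = d := by
        intro u v hu hv huv hnr
        have hs1 : ∀ a, (del G (univ \ A.erase x)).Reachable u a → a = u := by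
          refine single hG.1 (del_le _ _) (p := c) (q := d) hVx ?_ (fun e => ?_) (fun e => ?_) ?_
          · intro h
            have hxu : x ≠ u := by
              rintro rfl
              exact notMem_erase _ _ hu
            exact notMem_erase _ _ (mem_of_reach h hxu)
          · exact (hSA x hxA).2.2.1 e
          · exact (hSA x hxA).2.2.2 e
          · intro a w ha hau haw
            have haP := mem_of_reach ha hau
            have ha1 := mem_erase.1 haP
            have hav : a ≠ v := by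
              rintro rfl
              exact hnr ha
            have ha2 : a ≠ s₂ := by
              rintro rfl
              rcases huv with ⟨e1, e2⟩ | ⟨e1, e2⟩
              · exact hau e1.symm
              · exact hav e2.symm
            have ha4 : a ≠ s₄ := by
              rintro rfl
              rcases huv with ⟨e1, e2⟩ | ⟨e1, e2⟩
              · exact hav e2.symm
              · exact hau e1.symm
            rcases nA a w ha1.2 haw with h | h | h | h | h
            · by_cases hwx : w = x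
              · exfalso
                subst hwx
                rcases (hp.nx a).1 haw.symm with e | e | e | e
                · exact (hSA a ha1.2).2.1 e
                · exact ha2 e
                · exact (hSA a ha1.2).1 e
                · exact ha4 e
              · exact Or.inl (adj_del haw haP (mem_erase.2 ⟨hwx, h⟩))
            · exfalso
              rcases h3 a ha1.2 (h ▸ haw.symm) with e | e
              · exact ha2 e
              · exact ha1.1 e
            · exfalso
              rcases (hp.ny a).1 (h ▸ haw.symm) with e | e | e | e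
              · exact ha1.1 e
              · exact hAB a ha1.2 (e ▸ h1B)
              · exact (hSA a ha1.2).1 e
              · exact ha4 e
            · exact Or.inr (Or.inr (Or.inl h))
            · exact Or.inr (Or.inr (Or.inr h))
        intro w hw
        have hu1 := mem_erase.1 hu
        rcases nA u w hu1.2 hw with h | h | h | h | h
        · by_cases hwx : w = x
          · exact Or.inl hwx
          · exfalso
            have := hs1 w (adj_del hw hu (mem_erase.2 ⟨hwx, h⟩)).reachable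
            exact hw.ne this.symm
        · right; left; simp [h]
        · right; left; simp [h]
        · exact Or.inr (Or.inr (Or.inl h))
        · exact Or.inr (Or.inr (Or.inr h))
      have m2 : s₂ ∈ A.erase x := mem_erase.2 ⟨dd.x2.symm, h2A⟩
      have m4 : s₄ ∈ A.erase x := mem_erase.2 ⟨dd.x4.symm, h4A⟩
      have n2 : G.Adj s₂ c ∧ G.Adj s₂ d := by
        refine deg4 hG.1 (a := x) (b := s₃) (C20M.vsub hp (by simp)) fun w hw => ?_
        rcases key s₂ s₄ m2 m4 (Or.inl ⟨rfl, rfl⟩) hr w hw with h | h | h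
        · exact Or.inl h
        · simp only [mem_insert, mem_singleton] at h
          rcases h with h | h
          · exact Or.inr (Or.inl h)
          · exfalso
            rcases (hp.ny s₂).1 (h ▸ hw.symm) with e | e | e | e
            · exact dd.x2 e.symm
            · exact dd.s12 e.symm
            · exact dd.s23 e
            · exact dd.s24 e
        · exact Or.inr (Or.inr h)
      have n4 : G.Adj s₄ c ∧ G.Adj s₄ d := by
        refine deg4 hG.1 (a := x) (b := y) (C20M.vsub hp (by simp)) fun w hw => ?_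
        rcases key s₄ s₂ m4 m2 (Or.inr ⟨rfl, rfl⟩) (fun h => hr h.symm) w hw with h | h | h
        · exact Or.inl h
        · simp only [mem_insert, mem_singleton] at h
          rcases h with h | h
          · exfalso
            rcases h3 s₄ h4A (h ▸ hw.symm) with e | e
            · exact dd.s24 e.symm
            · exact dd.x4 e.symm
          · exact Or.inr (Or.inl h)
        · exact Or.inr (Or.inr h)
      intro t ht
      have t2 : G.Adj s₂ t := by rcases ht with rfl | rfl; exacts [n2.1, n2.2]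
      have t4 : G.Adj s₄ t := by rcases ht with rfl | rfl; exacts [n4.1, n4.2]
      exact (adj_del t2 (mem_insert_of_mem m2) (mem_insert_self _ _)).reachable.trans
        (adj_del t4.symm (mem_insert_self _ _) (mem_insert_of_mem m4)).reachable
  -- (2)
  obtain ⟨t', ht', hQ⟩ : ∃ t', (t' = c ∨ t' = d) ∧
      (del (delE G s₁ s₃) (univ \ insert t' (insert s₃ B))).Reachable s₁ s₃ := by
    have m1 : s₁ ∈ insert s₃ B := mem_insert_of_mem h1B
    have m3 : s₃ ∈ insert s₃ B := mem_insert_self _ _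
    have hle : del (delE G s₁ s₃) (univ \ insert s₃ B) ≤ G := (del_le _ _).trans (delE_le _ _ _)
    have hxQ : x ∉ insert s₃ B := by
      rw [mem_insert, not_or]
      exact ⟨dd.x3, hAB x hxA⟩
    by_cases hr : (del (delE G s₁ s₃) (univ \ insert s₃ B)).Reachable s₁ s₃
    · refine ⟨c, Or.inl rfl, hr.mono fun u v huv => ?_⟩
      have h1 := mem_of_adj_del huv
      exact adj_del huv.1 (mem_insert_of_mem h1.1) (mem_insert_of_mem h1.2)
    · -- `s₁`
      have q1 : ∀ a, (del (delE G s₁ s₃) (univ \ insert s₃ B)).Reachable s₁ a → a = s₁ := by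
        refine single hG.1 hle (p := c) (q := d) hVx ?_ (fun e => ?_) (fun e => ?_) ?_
        · intro h
          exact hxQ (mem_of_reach h dd.x1)
        · exact (hSA x hxA).2.2.1 e
        · exact (hSA x hxA).2.2.2 e
        · intro a w ha ha1 haw
          have haQ := mem_of_reach ha ha1
          have ha3 : a ≠ s₃ := by
            rintro rfl
            exact hr ha
          have haB : a ∈ B := (mem_insert.1 haQ).resolve_left ha3
          by_cases hw1 : w = s₁
          · exact Or.inr (Or.inl hw1)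
          have hE : (delE G s₁ s₃).Adj a w := by
            rw [delE_adj]
            refine ⟨haw, fun e => ?_⟩
            rcases Sym2.eq_iff.1 e with ⟨e, _⟩ | ⟨e, _⟩
            · exact ha1 e
            · exact ha3 e
          rcases nB a w haB haw with h | h | h | h | h
          · exact Or.inl (adj_del hE haQ (mem_insert_of_mem h))
          · exact Or.inl (adj_del hE haQ (by rw [h]; exact m3))
          · exfalso
            rcases (hp.ny a).1 (h ▸ haw.symm) with e | e | e | e
            · exact hAB x hxA (e ▸ haB)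
            · exact ha1 e
            · exact ha3 e
            · exact hAB s₄ h4A (e ▸ haB)
          · exact Or.inr (Or.inr (Or.inl h))
          · exact Or.inr (Or.inr (Or.inr h))
      have n1 : G.Adj s₁ c ∧ G.Adj s₁ d := by
        refine deg4 hG.1 (a := y) (b := s₃) (C20M.vsub hp (by simp)) fun w hw => ?_
        rcases nB s₁ w h1B hw with h | h | h | h
        · exfalso
          have hw3 : w ≠ s₃ := (hSB w h).1
          have hE : (delE G s₁ s₃).Adj s₁ w := by
            rw [delE_adj]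
            refine ⟨hw, fun e => ?_⟩
            rcases Sym2.eq_iff.1 e with ⟨_, e⟩ | ⟨e, _⟩
            · exact hw3 e
            · exact dd.s13 e
          have := q1 w (adj_del hE m1 (mem_insert_of_mem h)).reachable
          exact hw.ne this.symm
        · exact Or.inr (Or.inl h)
        · exact Or.inl h
        · exact Or.inr (Or.inr h)
      -- `s₃`
      have q3 : ∀ a, (del (delE G s₁ s₃) (univ \ insert s₃ B)).Reachable s₃ a → a = s₃ := by
        refine single hG.1 hle (p := c) (q := d) hVx ?_ (fun e => ?_) (fun e => ?_) ?_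
        · intro h
          exact hxQ (mem_of_reach h dd.x3)
        · exact (hSA x hxA).2.2.1 e
        · exact (hSA x hxA).2.2.2 e
        · intro a w ha ha3 haw
          have haQ := mem_of_reach ha ha3
          have ha1 : a ≠ s₁ := by
            rintro rfl
            exact hr ha.symm
          have haB : a ∈ B := (mem_insert.1 haQ).resolve_left ha3
          have hE : (delE G s₁ s₃).Adj a w := by
            rw [delE_adj]
            refine ⟨haw, fun e => ?_⟩
            rcases Sym2.eq_iff.1 e with ⟨e, _⟩ | ⟨e, _⟩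
            · exact ha1 e
            · exact ha3 e
          rcases nB a w haB haw with h | h | h | h | h
          · exact Or.inl (adj_del hE haQ (mem_insert_of_mem h))
          · exact Or.inl (adj_del hE haQ (by rw [h]; exact m3))
          · exfalso
            rcases (hp.ny a).1 (h ▸ haw.symm) with e | e | e | e
            · exact hAB x hxA (e ▸ haB)
            · exact ha1 e
            · exact ha3 e
            · exact hAB s₄ h4A (e ▸ haB)
          · exact Or.inr (Or.inr (Or.inl h))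
          · exact Or.inr (Or.inr (Or.inr h))
      obtain ⟨w, hw, hwn⟩ := hXCB.s3 hG hp
      simp only [mem_insert, mem_singleton, not_or] at hwn
      obtain ⟨hwx, hwy, hw1, hw2, hw4⟩ := hwn
      have hwcd : w = c ∨ w = d := by
        rcases hs.mem_or (right_mem_VS hw) with h | h | h
        · simp only [mem_insert, mem_singleton] at h
          rcases h with h | h | h
          · exact absurd h.symm hw.ne
          · exact absurd h hwy
          · exact h
        · exfalso
          rcases h3 w h hw with e | e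
          · exact hw2 e
          · exact hwx e
        · exfalso
          have hE : (delE G s₁ s₃).Adj s₃ w := by
            rw [delE_adj]
            refine ⟨hw, fun e => ?_⟩
            rcases Sym2.eq_iff.1 e with ⟨e, _⟩ | ⟨_, e⟩
            · exact dd.s13 e.symm
            · exact hw1 e
          have := q3 w (adj_del hE m3 (mem_insert_of_mem h)).reachable
          exact hw.ne this.symm
      have hw1' : G.Adj s₁ w := by rcases hwcd with rfl | rfl; exacts [n1.1, n1.2]
      have hw3 : w ≠ s₃ := hw.ne.symm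
      have e1 : (delE G s₁ s₃).Adj s₁ w := by
        rw [delE_adj]
        refine ⟨hw1', fun e => ?_⟩
        rcases Sym2.eq_iff.1 e with ⟨_, e⟩ | ⟨e, _⟩
        · exact hw3 e
        · exact dd.s13 e
      have e2 : (delE G s₁ s₃).Adj w s₃ := by
        rw [delE_adj]
        refine ⟨hw.symm, fun e => ?_⟩
        rcases Sym2.eq_iff.1 e with ⟨e, _⟩ | ⟨e, _⟩
        · exact hw1 e
        · exact hw3 e
      exact ⟨w, hwcd, (adj_del e1 (mem_insert_of_mem m1) (mem_insert_self _ _)).reachable.trans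
        (adj_del e2 (mem_insert_self _ _) (mem_insert_of_mem m3)).reachable⟩
  -- the other one of `c`, `d`
  obtain ⟨t, ht, htt⟩ : ∃ t, (t = c ∨ t = d) ∧ t ≠ t' := by
    rcases ht' with rfl | rfl
    · exact ⟨d, Or.inr rfl, Ne.symm hcd⟩
    · exact ⟨c, Or.inl rfl, hcd⟩
  obtain ⟨P, hP⟩ := exists_isPth (P1 t ht)
  obtain ⟨Q, hQ'⟩ := exists_isPth hQ
  rw [isPth_del] at hP hQ'
  have hPv : ∀ v ∈ vs P, v = t ∨ v ∈ A.erase x := by
    intro v hv
    have h1 := Finset.disjoint_left.1 hP.2 hv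
    simp only [mem_sdiff, mem_univ, true_and, not_not] at h1
    exact mem_insert.1 h1
  have hQv : ∀ v ∈ vs Q, v = t' ∨ v = s₃ ∨ v ∈ B := by
    intro v hv
    have h1 := Finset.disjoint_left.1 hQ'.2 hv
    simp only [mem_sdiff, mem_univ, true_and, not_not] at h1
    simpa only [mem_insert] using h1
  have htS : t ≠ x ∧ t ≠ y ∧ t ≠ s₃ ∧ t ∉ A ∧ t ∉ B := by
    rcases ht with rfl | rfl
    · exact ⟨fun e => (hSA x hxA).2.2.1 e.symm, Ne.symm hyc, Ne.symm h3c, fun h => (hSA _ h).2.2.1 rfl,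
        fun h => (hSB _ h).2.2.1 rfl⟩
    · exact ⟨fun e => (hSA x hxA).2.2.2 e.symm, Ne.symm hyd, Ne.symm h3d, fun h => (hSA _ h).2.2.2 rfl,
        fun h => (hSB _ h).2.2.2 rfl⟩
  have htS' : t' ≠ x ∧ t' ≠ y ∧ t' ∉ A := by
    rcases ht' with rfl | rfl
    · exact ⟨fun e => (hSA x hxA).2.2.1 e.symm, Ne.symm hyc, fun h => (hSA _ h).2.2.1 rfl⟩
    · exact ⟨fun e => (hSA x hxA).2.2.2 e.symm, Ne.symm hyd, fun h => (hSA _ h).2.2.2 rfl⟩
  refine hXF1 (P := P) (Q := Q) hp (hXCC.np hG hp.sym1 h13' hN) ?_ ?_ ?_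
  · rw [isPth_del]
    refine ⟨hP.1, ?_⟩
    rw [Finset.disjoint_left]
    intro v hv hv'
    simp only [mem_insert, mem_singleton] at hv'
    rcases hPv v hv with h | h
    · rcases hv' with e | e
      · exact htS.1 (h ▸ e)
      · exact htS.2.1 (h ▸ e)
    · have h1 := mem_erase.1 h
      rcases hv' with e | e
      · exact h1.1 e
      · exact (hSA v h1.2).2.1 e
  · rw [isPth_delE, isPth_del]
    obtain ⟨h1, h2⟩ := isPth_delE.1 hQ'.1
    refine ⟨⟨h1, ?_⟩, h2⟩
    rw [Finset.disjoint_left]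
    intro v hv hv'
    simp only [mem_insert, mem_singleton] at hv'
    rcases hQv v hv with h | h | h
    · rcases hv' with e | e
      · exact htS'.1 (h ▸ e)
      · exact htS'.2.1 (h ▸ e)
    · rcases hv' with e | e
      · exact dd.x3 (e.symm.trans h)
      · exact dd.y3 (e.symm.trans h)
    · rcases hv' with e | e
      · exact hAB x hxA (e ▸ h)
      · exact (hSB v h).2.1 e
  · rw [Finset.disjoint_left]
    intro v hv hv'
    rcases hPv v hv with h | h
    · rcases hQv v hv' with h' | h' | h'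
      · exact htt (h ▸ h')
      · exact htS.2.2.1 (h ▸ h')
      · exact htS.2.2.2.2 (h ▸ h')
    · have h1 := mem_erase.1 h
      rcases hQv v hv' with h' | h' | h'
      · exact htS'.2.2 (h' ▸ h1.2)
      · exact (hSA v h1.2).1 h'
      · exact hAB v h1.2 h'

end DL
end

section
/-!
# MP_3ff0f8_gt, ALGEBRA HALF: module XI3, (3,3)-pairs, case 2.3 (i) (assembly)
-/
open SimpleGraph Finset

namespace DL

theorem specXI3 (hXA3 : SpecXA3) (hXF2 : SpecXF2) (hXF3 : SpecXF3) (hXF4 : SpecXF4) (hXF5 : SpecXF5)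
    (hXF6 : SpecXF6) (hXF7 : SpecXF7) : SpecXI3 := by
  intro α _ _ G x y s₁ s₂ s₃ s₄ hSH ht n14 n24
  have h4 : H4 G x y s₁ s₄ := fun z h => n14 ((h s₁).2 (by simp)).symm
  have h4' : H4 G y x s₂ s₄ := fun z h => n24 ((h s₂).2 (by simp)).symm
  have hK := ht.k48
  have hx : x ∈ VS G := left_mem_VS ((ht.p33.nx y).2 (by simp))
  have hA : C1 (dst G s₃ {s₁, y}) ∨ MY G x y s₁ s₂ s₃ s₄ := by
    rcases hXA3.y2 ht h4 with h | ⟨d, h⟩ | h
    · exact Or.inl h
    · exact absurd ((h s₄).2 (by simp)) n14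
    · exact Or.inr h
  have hB : C1 (dst G s₃ {s₂, x}) ∨ MY G y x s₂ s₁ s₃ s₄ := by
    rcases hXA3.y2 ht.sym1 h4' with h | ⟨d, h⟩ | h
    · exact Or.inl h
    · exact absurd ((h s₄).2 (by simp)) n24
    · exact Or.inr h
  rcases hA with hA | hA
  · rcases hB with hB | hB
    · rcases hXF2 hK hSH.np ht.p33 ht.a1 ht.a2 n14 n24 with h | h
      · exact Or.inl ⟨hA, h⟩
      · exact Or.inr ⟨hB, h⟩
    · exact Or.inl ⟨hA, hXF3 hK hSH.np ht.p33 ht.a1 hB⟩
  · rcases hB with hB | hB
    · exact Or.inr ⟨hB, hXF3 hK hSH.np ht.p33.sym1 ht.a2 hA⟩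
    · exfalso
      rcases hXF4 hK hSH.np ht.p33 ht.a1 ht.a2 n14 n24 hA hB with ⟨c, d, d', D, h⟩ | ⟨c, d, h⟩
      · have hR := hXF5.b1 hK ht.p33 n14 h
        exact (hSH.rig x hx hR).2 (hXF7 hK hSH.np ht.p33 h hR)
      · have hR := hXF5.b2 hK ht.p33 ht.a1 ht.a2 h
        exact (hSH.rig x hx hR).2 (hXF6 ht.p33 ht.a2 h)

end DL
end

section
/-!
# MP_3ff0f8_gt, EXIST section 2, case 2.3: XTC (helper10)
-/
open SimpleGraph Finset

namespace DL

namespace XTCM

/-- basic facts -/
theorem facts {α : Type} {G : SimpleGraph α} {x y s₁ s₂ s₃ s₄ : α} (h : P33 G x y s₁ s₂ s₃ s₄) :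
    x ≠ y ∧ x ≠ s₁ ∧ x ≠ s₂ ∧ x ≠ s₃ ∧ x ≠ s₄ ∧ y ≠ s₁ ∧ y ≠ s₂ ∧ y ≠ s₃ ∧ y ≠ s₄ ∧ s₁ ≠ s₂ ∧ s₁ ≠ s₃ ∧ s₁ ≠ s₄ ∧
      s₂ ≠ s₃ ∧ s₂ ≠ s₄ ∧ s₃ ≠ s₄ := by
  have := h.nd
  simp only [List.nodup_cons, List.mem_cons, List.not_mem_nil, or_false, not_or, List.nodup_nil, and_true,
    not_false_eq_true] at this
  tauto

variable {α : Type} [Fintype α] [DecidableEq α]

/-- `A24` is 3-connected with the vertices of `G` -/
theorem k3 (hCRL : SpecCRL) (hDST : SpecDST) (hXCB : SpecXCB) {G : SimpleGraph α} {x y s₁ s₂ s₃ s₄ : α}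
    (h : T3 G x y s₁ s₂ s₃ s₄) : KConn 3 (dst G s₃ {s₁, y}) ∧ VS (dst G s₃ {s₁, y}) = VS G := by
  obtain ⟨xy, x1, x2, x3, x4, y1, y2, y3, y4, n12, n13, n14, n23, n24, n34⟩ := facts h.p33
  obtain ⟨w, hw, hw'⟩ := hXCB.s3 h.k48 h.p33
  simp only [mem_insert, mem_singleton, not_or] at hw'
  have h4 := h.k48.1
  have hx3 : G.Adj s₃ x := ((h.p33.nx s₃).2 (by tauto)).symm
  have hVd : VS (del G {s₃}) = VS G \ {s₃} := h4.VS_del (by simp)
  refine ⟨hCRL.k3 (u := s₃) (x := x) (y := s₂) (z := w) (h4.del_vertex (by norm_num) s₃) x2 (fun e => hw'.1 e.symm)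
    (fun e => hw'.2.2.2.1 e.symm) ?_ ?_, hDST.vs (h4.mono (by norm_num)) ⟨x, hx3, ?_⟩⟩
  · rintro v (rfl | rfl | rfl)
    · exact ⟨hx3, by simp only [mem_insert, mem_singleton, not_or]; exact ⟨x1, xy⟩⟩
    · exact ⟨h.a2.symm, by simp only [mem_insert, mem_singleton, not_or]; exact ⟨fun e => n12 e.symm, fun e => y2 e.symm⟩⟩
    · exact ⟨hw, by simp only [mem_insert, mem_singleton, not_or]; exact ⟨hw'.2.2.1, hw'.2.1⟩⟩
  · intro v hv _
    rw [hVd, mem_sdiff, mem_singleton]
    exact ⟨right_mem_VS hv, hv.ne'⟩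
  · simp only [mem_insert, mem_singleton, not_or]; exact ⟨x1, xy⟩

/-- adjacency in `S` -/
theorem adjS {G : SimpleGraph α} {y s₁ s₃ s₄ : α} {a b : α} (ha : a ≠ y) (hb : b ≠ y)
    (hab : (dst G s₃ {s₁, y}).Adj a b) : (contr (delE (dst G s₃ {s₁, y}) y s₄) s₁ y).Adj a b := by
  refine contr_adj_of_adj ?_ ha hb
  simp only [delE, deleteEdges_adj, Set.mem_singleton_iff, Sym2.eq_iff]
  exact ⟨hab, by rintro (⟨e, -⟩ | ⟨-, e⟩); exacts [ha e, hb e]⟩

end XTCM

open XTCM in
theorem specXTC (hXA3 : SpecXA3) (hCRL : SpecCRL) (hDST : SpecDST) (hXCB : SpecXCB) : SpecXTC := by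
  intro α _ _ G x y s₁ s₂ s₃ s₄ d h hH4 h24 hd
  obtain ⟨xy, x1, x2, x3, x4, y1, y2, y3, y4, n12, n13, n14, n23, n24, n34⟩ := facts h.p33
  obtain ⟨hA3, hAV⟩ := k3 hCRL hDST hXCB h
  have h4 := h.k48.1
  have hy3 : G.Adj y s₃ := (h.p33.ny s₃).2 (by tauto)
  have hy1 : G.Adj y s₁ := (h.p33.ny s₁).2 (by tauto)
  have hyx : G.Adj y x := (h.p33.ny x).2 (by tauto)
  have hx4 : G.Adj x s₄ := (h.p33.nx s₄).2 (by tauto)
  have h14 : G.Adj s₁ s₄ := (hd s₄).2 (by tauto)
  set A := dst G s₃ {s₁, y} with hA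
  set B := delE A y s₄ with hB
  set S := contr B s₁ y with hS
  have adjA : ∀ a b, A.Adj a b ↔ G.Adj a b ∧ ¬ (a = s₃ ∧ b ∈ ({s₁, y} : Finset α)) ∧
      ¬ (b = s₃ ∧ a ∈ ({s₁, y} : Finset α)) := fun a b => hDST.adj G s₃ {s₁, y} a b
  have adjB : ∀ a b, B.Adj a b ↔ A.Adj a b ∧ ¬ (a = y ∧ b = s₄) ∧ ¬ (a = s₄ ∧ b = y) := by
    intro a b
    simp only [hB, delE, deleteEdges_adj, Set.mem_singleton_iff, Sym2.eq_iff]
    tauto
  have hA1y : A.Adj s₁ y := by
    rw [adjA]
    exact ⟨hy1.symm, fun e => n13 e.1, fun e => y3 e.1⟩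
  have hAyx : A.Adj y x := by
    rw [adjA]
    exact ⟨hyx, fun e => y3 e.1, fun e => x3 e.1⟩
  have hB1y : B.Adj s₁ y := by
    rw [adjB]
    exact ⟨hA1y, fun e => y1 e.1.symm, fun e => n14 e.1⟩
  have hByx : B.Adj y x := by
    rw [adjB]
    exact ⟨hAyx, fun e => x4 e.2, fun e => y4 e.1⟩
  have hVB : VS B = VS G := by
    rw [hB, VS_delE fun v hv => by have := hA3.le_nbs hv; omega]
    exact hAV
  have hnb : ∀ v ∈ VS B, 2 ≤ (nbs B v).card := by
    intro v hv
    have h1 : KConn 2 B := hA3.delE (by norm_num) y s₄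
    exact h1.le_nbs hv
  have hVS : VS S = (VS G).erase y := by
    rw [hS, VS_contr hB1y hnb, hVB]
  have hyV : y ∈ VS G := left_mem_VS hyx
  have h3V : s₃ ∈ VS G := right_mem_VS hy3
  -- edges of `S`
  have eS : ∀ a b, a ≠ y → b ≠ y → A.Adj a b → S.Adj a b := fun a b ha hb hab => adjS ha hb hab
  have eS1 : S.Adj x s₁ := by
    refine ⟨xy, fun e => y1 e.symm, x1, Or.inr (Or.inr ⟨rfl, hByx.symm⟩)⟩
  have eS2 : S.Adj s₁ s₄ := eS _ _ (fun e => y1 e.symm) (fun e => y4 e.symm)
    ((adjA _ _).2 ⟨h14, fun e => n13 e.1, fun e => n34 e.1.symm⟩)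
  have eS3 : S.Adj x s₄ := eS _ _ xy (fun e => y4 e.symm)
    ((adjA _ _).2 ⟨hx4, fun e => x3 e.1, fun e => n34 e.1.symm⟩)
  -- neighbours of `y` in `A`
  have nyA : ∀ a, A.Adj y a → a = x ∨ a = s₁ ∨ a = s₄ := by
    intro a ha
    rw [adjA] at ha
    rcases (h.p33.ny a).1 ha.1 with e | e | e | e
    · exact Or.inl e
    · exact Or.inr (Or.inl e)
    · exact absurd ⟨e, by simp⟩ ha.2.2
    · exact Or.inr (Or.inr e)
  -- main claim for one naming
  have key : ∀ W P Q, Sep S W P Q → W.card ≤ 3 → (W.card = 3 → 2 ≤ P.card ∧ 2 ≤ Q.card) → P.Nonempty → Q.Nonempty →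
      x ∉ P → s₁ ∉ P → s₄ ∉ P → False := by
    intro W P Q hsep hW hPQ hPn hQn hxP h1P h4P
    have hyn : y ∉ W ∧ y ∉ P ∧ y ∉ Q := by
      refine ⟨fun e => ?_, fun e => ?_, fun e => ?_⟩
      · have := hsep.subS e; rw [hVS] at this; exact notMem_erase _ _ this
      · have := hsep.subP e; rw [hVS] at this; exact notMem_erase _ _ this
      · have := hsep.subQ e; rw [hVS] at this; exact notMem_erase _ _ this
    obtain ⟨g1, g2, g3, g4, g5⟩ := hsep
    have huni : W ∪ P ∪ insert y Q = VS G := by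
      have : W ∪ P ∪ insert y Q = insert y (W ∪ P ∪ Q) := by ext; simp only [mem_union, mem_insert]; tauto
      rw [this, g1, hVS, insert_erase hyV]
    have hWQ : Disjoint W (insert y Q) := by rw [disjoint_insert_right]; exact ⟨hyn.1, g3⟩
    have hPQd : Disjoint P (insert y Q) := by rw [disjoint_insert_right]; exact ⟨hyn.2.1, g4⟩
    have hneP : ∀ a ∈ P, a ≠ y := fun a ha e => hyn.2.1 (e ▸ ha)
    have noA : ∀ a ∈ P, ∀ b ∈ insert y Q, ¬ A.Adj a b := by
      intro a ha b hb hab
      rw [mem_insert] at hb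
      rcases hb with rfl | hb
      · rcases nyA a hab.symm with e | e | e
        · exact hxP (e ▸ ha)
        · exact h1P (e ▸ ha)
        · exact h4P (e ▸ ha)
      · exact g5 a ha b hb (eS a b (hneP a ha) (fun e => hyn.2.2 (e ▸ hb)) hab)
    have hsA : Sep A W P (insert y Q) := ⟨by rw [huni, hAV], g2, hWQ, hPQd, noA⟩
    have hW3 : W.card = 3 := le_antisymm hW (hA3.le_of_sep hsA hPn (insert_nonempty _ _))
    obtain ⟨hP2, hQ2⟩ := hPQ hW3
    have hyQc : (insert y Q).card = Q.card + 1 := card_insert_of_notMem hyn.2.2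
    -- edges of `G` away from `s₃`
    have GA : ∀ a b, a ≠ s₃ → b ≠ s₃ → G.Adj a b → A.Adj a b := fun a b ha hb hab =>
      (adjA a b).2 ⟨hab, fun e => ha e.1, fun e => hb e.1⟩
    rcases hsA.mem_or (by rw [hAV]; exact h3V) with h3 | h3 | h3
    · -- `s₃ ∈ W`
      have hsG : Sep G W P (insert y Q) := by
        refine ⟨huni, g2, hWQ, hPQd, fun a ha b hb hab => noA a ha b hb (GA a b ?_ ?_ hab)⟩
        · rintro rfl; exact Finset.disjoint_left.1 g2 h3 ha
        · rintro rfl; exact Finset.disjoint_left.1 hWQ h3 hb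
      have := h4.le_of_sep hsG hPn (insert_nonempty _ _)
      omega
    · -- `s₃ ∈ P`
      have h3W : s₃ ∉ W := fun e => Finset.disjoint_left.1 g2 e h3
      have h3Q : s₃ ∉ insert y Q := fun e => Finset.disjoint_left.1 hPQd h3 e
      have hsG : Sep G (insert s₃ W) (insert y Q) (P.erase s₃) := by
        refine ⟨?_, ?_, ?_, ?_, ?_⟩
        · rw [← huni]
          ext v
          simp only [mem_union, mem_insert, mem_erase]
          by_cases hv : v = s₃
          · subst hv; simp [h3]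
          · simp only [hv, ne_eq, not_false_eq_true, true_and, false_or]; tauto
        · rw [disjoint_insert_left]; exact ⟨h3Q, hWQ⟩
        · rw [disjoint_insert_left]
          exact ⟨notMem_erase _ _, disjoint_of_subset_right (erase_subset _ _) g2⟩
        · exact disjoint_of_subset_right (erase_subset _ _) hPQd.symm
        · intro a ha b hb hab
          rw [mem_erase] at hb
          exact noA b hb.2 a ha (GA b a hb.1 (fun e => h3Q (e ▸ ha)) hab.symm)
      have hc : (insert s₃ W).card = 4 := by rw [card_insert_of_notMem h3W, hW3]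
      have hPe : 1 ≤ (P.erase s₃).card := by rw [card_erase_of_mem h3]; omega
      have hnb3 : ∀ w ∈ insert y Q, G.Adj s₃ w → w = s₁ ∨ w = y := by
        intro w hw hadj
        have := noA s₃ h3 w hw
        rw [adjA] at this
        by_contra hc
        rw [not_or] at hc
        refine this ⟨hadj, ?_, fun e => h3Q (e.1 ▸ hw)⟩
        rintro ⟨-, e⟩
        simp only [mem_insert, mem_singleton] at e
        tauto
      rcases hXA3.sep h hH4 (insert s₃ W) (insert y Q) (P.erase s₃) hsG hc (mem_insert_self _ _) (by omega) hPe hnb3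
        with ⟨e, -⟩ | ⟨c, e, -, -, -, -, h4A, h2B⟩
      · have : (insert y Q).card ≤ 2 := by rw [e]; exact card_le_two
        omega
      · exact hsG.2.2.2.2 s₄ h4A s₂ h2B h24.symm
    · -- `s₃ ∈ Q`
      have h3W : s₃ ∉ W := fun e => Finset.disjoint_left.1 hWQ e h3
      have h3P : s₃ ∉ P := fun e => Finset.disjoint_left.1 hPQd e h3
      have hsG : Sep G (insert s₃ W) P ((insert y Q).erase s₃) := by
        refine ⟨?_, ?_, ?_, ?_, ?_⟩
        · rw [← huni]
          ext v
          simp only [mem_union, mem_insert, mem_erase]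
          by_cases hv : v = s₃
          · subst hv
            rw [mem_insert] at h3
            rcases h3 with e | e
            · simp [e]
            · simp [e]
          · simp only [hv, ne_eq, not_false_eq_true, true_and, false_or]
        · rw [disjoint_insert_left]; exact ⟨h3P, g2⟩
        · rw [disjoint_insert_left]
          exact ⟨notMem_erase _ _, disjoint_of_subset_right (erase_subset _ _) hWQ⟩
        · exact disjoint_of_subset_right (erase_subset _ _) hPQd
        · intro a ha b hb hab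
          rw [mem_erase] at hb
          exact noA a ha b hb.2 (GA a b (fun e => h3P (e ▸ ha)) hb.1 hab)
      have hc : (insert s₃ W).card = 4 := by rw [card_insert_of_notMem h3W, hW3]
      have hQe : 1 ≤ ((insert y Q).erase s₃).card := by rw [card_erase_of_mem h3]; omega
      have hnb3 : ∀ w ∈ P, G.Adj s₃ w → w = s₁ ∨ w = y := by
        intro w hw hadj
        have := noA w hw s₃ h3
        rw [adjA] at this
        by_contra hc
        rw [not_or] at hc
        refine this ⟨hadj.symm, fun e => h3P (e.1 ▸ hw), ?_⟩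
        rintro ⟨-, e⟩
        simp only [mem_insert, mem_singleton] at e
        tauto
      rcases hXA3.sep h hH4 (insert s₃ W) P ((insert y Q).erase s₃) hsG hc (mem_insert_self _ _) hP2 hQe hnb3
        with ⟨e, -⟩ | ⟨c, e, -, -, hyP, -⟩
      · exact hyn.2.1 (by rw [e]; simp)
      · exact hyn.2.1 hyP
  -- the triangle `x, s₁, s₄` misses one of the sides
  have key2 : ∀ W P Q, Sep S W P Q → W.card ≤ 3 → (W.card = 3 → 2 ≤ P.card ∧ 2 ≤ Q.card) → P.Nonempty → Q.Nonempty →
      False := by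
    intro W P Q hsep hW hPQ hPn hQn
    by_cases hP : x ∈ P ∨ s₁ ∈ P ∨ s₄ ∈ P
    · have hQ : x ∉ Q ∧ s₁ ∉ Q ∧ s₄ ∉ Q := by
        have g4 := hsep.2.2.2.1
        have g5 := hsep.2.2.2.2
        rcases hP with hP | hP | hP
        · exact ⟨fun e => Finset.disjoint_left.1 g4 hP e, fun e => g5 _ hP _ e eS1, fun e => g5 _ hP _ e eS3⟩
        · exact ⟨fun e => g5 _ hP _ e eS1.symm, fun e => Finset.disjoint_left.1 g4 hP e, fun e => g5 _ hP _ e eS2⟩
        · exact ⟨fun e => g5 _ hP _ e eS3.symm, fun e => g5 _ hP _ e eS2.symm,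
            fun e => Finset.disjoint_left.1 g4 hP e⟩
      exact key W Q P hsep.symm hW (fun e => (hPQ e).symm) hQn hPn hQ.1 hQ.2.1 hQ.2.2
    · rw [not_or, not_or] at hP
      exact key W P Q hsep hW hPQ hPn hQn hP.1 hP.2.1 hP.2.2
  refine ⟨kconn_iff_sep.2 ⟨?_, ?_⟩, ?_⟩
  · rw [hVS, card_erase_of_mem hyV]
    have := h.k48.2
    omega
  · intro W P Q hsep hW
    by_contra hcc
    rw [not_or, ← ne_eq, ← ne_eq, ← nonempty_iff_ne_empty, ← nonempty_iff_ne_empty] at hcc
    exact key2 W P Q hsep (by omega) (fun e => by omega) hcc.1 hcc.2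
  · intro W P Q hsep hW
    by_contra hcc
    rw [not_or, not_le, not_le] at hcc
    exact key2 W P Q hsep (by omega) (fun _ => hcc) (card_pos.1 (by omega)) (card_pos.1 (by omega))

end DL
end

section
/-!
# MP_3ff0f8_gt, EXIST section 2, case 2.3: XTN (helper10)
-/
open SimpleGraph Finset

namespace DL

namespace XTNM

variable {α : Type} [Fintype α] [DecidableEq α]

/-- `Z1 J = Z1 (J - l) + Z1 (J - m)` if `l`, `m` are not adjacent and `J - l - m` is connected -/
theorem two (hSTA : SpecSTA) {J : SimpleGraph α} {l m : α} (hlm : l ≠ m) (hna : ¬ J.Adj l m)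
    (hc : ConnOff J {l, m}) {c : Chain α} (h : c ∈ Z1 J) :
    ∃ c₁ ∈ Z1 (del J {l}), ∃ c₂ ∈ Z1 (del J {m}), c = c₁ + c₂ := by
  by_contra hno
  set V : Submodule (ZMod 2) (Chain α) := Z1 (del J {l}) ⊔ Z1 (del J {m}) with hV
  have hcV : c ∉ V := by
    intro h
    rw [hV, Submodule.mem_sup] at h
    obtain ⟨x, hx, y, hy, rfl⟩ := h
    exact hno ⟨x, hx, y, hy, rfl⟩
  obtain ⟨φ, hφc, hφV⟩ := Submodule.exists_le_ker_of_notMem hcV
  obtain ⟨a, ha⟩ := SM3M.functional φ
  have hl : ∀ Z ∈ Z1 (del J {l}), ∑ e, a e * Z e = 0 := fun Z hZ => by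
    rw [← ha]
    exact hφV (Submodule.mem_sup_left hZ)
  have hm : ∀ Z ∈ Z1 (del J {m}), ∑ e, a e * Z e = 0 := fun Z hZ => by
    rw [← ha]
    exact hφV (Submodule.mem_sup_right hZ)
  obtain ⟨κ, hκ, hκZ⟩ := hSTA J l m hlm hc a hl hm
  have hκ0 : κ = 0 := by
    by_contra hne
    exact hna (hκ hne)
  apply hφc
  rw [ha, hκZ c h, hκ0, zero_mul]

omit [Fintype α] [DecidableEq α] in
theorem row0 {z : Sym2 α → Sym2 α → ZMod 2} {t₁ t₂ Z' Z'' : Chain α} {e : Sym2 α} (h1 : t₁ e = 1) (h2 : t₂ e = 1)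
    (h3 : Z' e = 0) (h4 : Z'' e = 0) (hs : ∀ f, z e f = Z' f + Z'' f) (f : Sym2 α) :
    z e f + tor t₁ Z' e f + tor t₂ Z'' e f = 0 := by
  have e1 := zmod2_add_self (Z' f)
  have e2 := zmod2_add_self (Z'' f)
  rw [tor, tor, h1, h2, h3, h4, hs f, one_mul, one_mul, zero_mul, zero_mul, add_zero, add_zero]
  calc Z' f + Z'' f + Z' f + Z'' f = (Z' f + Z' f) + (Z'' f + Z'' f) := by abel
    _ = 0 := by rw [e1, e2, add_zero]

omit [Fintype α] [DecidableEq α] in
theorem adjDelE {A : SimpleGraph α} {y s : α} (a b : α) :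
    (delE A y s).Adj a b ↔ A.Adj a b ∧ ¬ (a = y ∧ b = s) ∧ ¬ (a = s ∧ b = y) := by
  simp only [delE, deleteEdges_adj, Set.mem_singleton_iff, Sym2.eq_iff, not_or]

end XTNM

open XTNM XTCM F1NM in
theorem specXTN (hXPY : SpecXPY) (hVKA : SpecVKA) (hNPC : SpecNPC) (hKUR : SpecKUR) (hSTA : SpecSTA)
    (hC20 : SpecC20) (hDST : SpecDST) : SpecXTN := by
  classical
  intro α _ _ G x y s₁ s₂ s₃ s₄ d h hNP h24 hd
  obtain ⟨xy, x1, x2, x3, x4, y1, y2, y3, y4, n12, n13, n14, n23, n24, n34⟩ := facts h.p33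
  have hy1 : G.Adj y s₁ := (h.p33.ny s₁).2 (by tauto)
  have hyx : G.Adj y x := (h.p33.ny x).2 (by tauto)
  have hy4 : G.Adj y s₄ := (h.p33.ny s₄).2 (by tauto)
  have hx4 : G.Adj x s₄ := (h.p33.nx s₄).2 (by tauto)
  have h14 : G.Adj s₁ s₄ := (hd s₄).2 (by tauto)
  set A := dst G s₃ {s₁, y} with hA
  have adjA : ∀ a b, A.Adj a b ↔ G.Adj a b ∧ ¬ (a = s₃ ∧ b ∈ ({s₁, y} : Finset α)) ∧
      ¬ (b = s₃ ∧ a ∈ ({s₁, y} : Finset α)) := fun a b => hDST.adj G s₃ {s₁, y} a b
  have GA : ∀ a b, a ≠ s₃ → b ≠ s₃ → G.Adj a b → A.Adj a b := fun a b ha hb hab =>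
    (adjA a b).2 ⟨hab, fun e => ha e.1, fun e => hb e.1⟩
  have ayx : A.Adj y x := GA _ _ y3 x3 hyx
  have ay1 : A.Adj y s₁ := GA _ _ y3 n13 hy1
  have ay4 : A.Adj y s₄ := GA _ _ y3 (fun e => n34 e.symm) hy4
  have ax4 : A.Adj x s₄ := GA _ _ x3 (fun e => n34 e.symm) hx4
  have a14 : A.Adj s₁ s₄ := GA _ _ n13 (fun e => n34 e.symm) h14
  have nyA : ∀ a, A.Adj y a → a = x ∨ a = s₁ ∨ a = s₄ := by
    intro a ha
    rw [adjA] at ha
    rcases (h.p33.ny a).1 ha.1 with e | e | e | e
    · exact Or.inl e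
    · exact Or.inr (Or.inl e)
    · exact absurd ⟨e, by simp⟩ ha.2.2
    · exact Or.inr (Or.inr e)
  obtain ⟨r, hr, z, hz, hv⟩ := hXPY h hNP h24
  have hrow := hKUR.row y s₄ hz
  have hna : ¬ (del A {y, s₄}).Adj x s₁ := by
    intro e
    have := (h.p33.nx s₁).1 ((adjA _ _).1 e.1).1
    rcases this with e | e | e | e
    · exact y1 e.symm
    · exact n12 e
    · exact n13 e
    · exact n14 e
  have hco : ConnOff (del A {y, s₄}) {x, s₁} := by
    intro a ha b hb haS hbS
    have h1 := (hC20.two h.k48 h.p33).2.2.2.1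
    have hin : ∀ v, v ∈ VS (del A {y, s₄}) → v ∉ ({x, s₁} : Finset α) → v ∈ VS G ∧ v ∉ ({x, y, s₁, s₄} : Finset α) := by
      intro v hv hvn
      have h2 := VS_del_subset _ hv
      rw [mem_sdiff] at h2
      refine ⟨VS_mono (hDST.le G s₃ {s₁, y}) h2.1, ?_⟩
      have h3 := h2.2
      simp only [mem_insert, mem_singleton, not_or] at h3 hvn ⊢
      tauto
    have h2 := h1 a (hin a ha haS).1 b (hin b hb hbS).1 (hin a ha haS).2 (hin b hb hbS).2
    refine h2.mono ?_
    intro u v huv
    obtain ⟨g1, g2, g3⟩ := huv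
    simp only [mem_insert, mem_singleton, not_or] at g2 g3
    refine ⟨⟨(adjA u v).2 ⟨g1, ?_, ?_⟩, ?_, ?_⟩, ?_, ?_⟩
    · simp only [mem_insert, mem_singleton]; tauto
    · simp only [mem_insert, mem_singleton]; tauto
    · simp only [mem_insert, mem_singleton]; tauto
    · simp only [mem_insert, mem_singleton]; tauto
    · simp only [mem_insert, mem_singleton]; tauto
    · simp only [mem_insert, mem_singleton]; tauto
  obtain ⟨Z', hZ', Z'', hZ'', hsum⟩ := two hSTA x1 hna hco hrow
  -- the supports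
  have hZ'3 : Z' ∈ Z1 (del A {x, y, s₄}) := by
    refine Z1_mono ?_ hZ'
    intro u v huv
    obtain ⟨⟨g1, g2, g3⟩, g4, g5⟩ := huv
    simp only [mem_insert, mem_singleton, not_or] at g2 g3 g4 g5
    refine ⟨g1, ?_, ?_⟩ <;> simp only [mem_insert, mem_singleton] <;> tauto
  have hZ''3 : Z'' ∈ Z1 (del A {s₁, y, s₄}) := by
    refine Z1_mono ?_ hZ''
    intro u v huv
    obtain ⟨⟨g1, g2, g3⟩, g4, g5⟩ := huv
    simp only [mem_insert, mem_singleton, not_or] at g2 g3 g4 g5
    refine ⟨g1, ?_, ?_⟩ <;> simp only [mem_insert, mem_singleton] <;> tauto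
  have hZ'0 : Z' s(y, s₄) = 0 := by
    by_contra hne
    have := (mem_Z1.1 hZ'3).1 _ hne
    exact (this : (del A {x, y, s₄}).Adj y s₄).2.1 (by simp)
  have hZ''0 : Z'' s(y, s₄) = 0 := by
    by_contra hne
    have := (mem_Z1.1 hZ''3).1 _ hne
    exact (this : (del A {s₁, y, s₄}).Adj y s₄).2.1 (by simp)
  obtain ⟨hz1, hv1⟩ := addtor hVKA hKUR hr hz {x, y, s₄} (tri_mem ayx.symm ay4 ax4) tri_supp hZ'3
  obtain ⟨hz2, hv2⟩ := addtor hVKA hKUR hr hz1 {s₁, y, s₄} (tri_mem ay1.symm ay4 a14) tri_supp hZ''3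
  set z2 : Sym2 α → Sym2 α → ZMod 2 := fun e f => (fun e f => z e f + tor (tri x y s₄) Z' e f) e f +
    tor (tri s₁ y s₄) Z'' e f with hz2d
  have hvk : vk r z2 ≠ 0 := by rw [hv2, hv1]; exact hv
  have ht1 : tri x y s₄ s(y, s₄) = 1 := chi_of_mem (by simp)
  have ht2 : tri s₁ y s₄ s(y, s₄) = 1 := chi_of_mem (by simp)
  have hsf : ∀ f, z s(y, s₄) f = Z' f + Z'' f := fun f => congrFun hsum f
  have hrow0 : ∀ f, z2 s(y, s₄) f = 0 := fun f => row0 ht1 ht2 hZ'0 hZ''0 hsf f
  have hzB := hKUR.del hz2 hrow0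
  set B := delE A y s₄ with hB
  have adjB : ∀ a b, B.Adj a b ↔ A.Adj a b ∧ ¬ (a = y ∧ b = s₄) ∧ ¬ (a = s₄ ∧ b = y) := adjDelE
  have hB1y : B.Adj s₁ y := by
    rw [adjB]
    exact ⟨ay1.symm, fun e => y1 e.1.symm, fun e => n14 e.1⟩
  have nyB : ∀ a, B.Adj y a → a = x ∨ a = s₁ := by
    intro a ha
    rw [adjB] at ha
    rcases nyA a ha.1 with e | e | e
    · exact Or.inl e
    · exact Or.inr e
    · exact absurd ⟨rfl, e⟩ ha.2.1
  have hZab : Zab s₁ y z2 := by
    intro e f he hf hes hfs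
    by_contra hne
    obtain ⟨h1, h2, h3⟩ := hzB.2.1 _ _ hne
    obtain ⟨w, rfl⟩ := Sym2.mem_iff_exists.1 hf
    rw [mem_edgeSet] at h2
    have hye : y ∉ e := fun g => h3 y ⟨g, hf⟩
    rcases nyB w h2 with rfl | rfl
    · have hb := hzB.2.2 e y hye
      rw [Finset.sum_eq_single s(y, w)] at hb
      · exact hne hb
      · intro f' hf' hnf
        rw [mem_filter] at hf'
        obtain ⟨w', rfl⟩ := Sym2.mem_iff_exists.1 hf'.2
        by_contra hne'
        obtain ⟨g1, g2, g3⟩ := hzB.2.1 _ _ hne'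
        rw [mem_edgeSet] at g2
        rcases nyB w' g2 with e' | e'
        · subst e'; exact hnf rfl
        · subst e'; exact g3 _ ⟨he, by simp⟩
      · intro g
        exact absurd (by simp) g
    · exact hfs Sym2.eq_swap
  exact (hNPC.down hr hzB hvk hB1y hZab).1

end DL
end
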