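import Pool.Agent.DL.E.Spec2
import Pool.Agent.DL.KC
import Pool.Agent.DL.E.Spec2c

section
/-!
# MP_3ff0f8_gt, EXIST section 2: module XS4 (helper46)

`N = delE (contr G y s₁) y s₄` is in C1, or a subdivision of a graph in C1.
-/
open SimpleGraph Finset

namespace DL

set_option linter.unusedSectionVars false

namespace XS4M

variable {α : Type} [Fintype α] [DecidableEq α] {G : SimpleGraph α} {x y s₁ s₂ s₃ s₄ : α}

theorem mem_NB {A : Finset α} {w : α} : w ∈ NB G A ↔ w ∉ A ∧ ∃ a ∈ A, G.Adj a w := by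
  simp [NB]

/-- the 15 inequalities -/
theorem nes (h : P33 G x y s₁ s₂ s₃ s₄) : (x ≠ y ∧ x ≠ s₁ ∧ x ≠ s₂ ∧ x ≠ s₃ ∧ x ≠ s₄) ∧
    (y ≠ s₁ ∧ y ≠ s₂ ∧ y ≠ s₃ ∧ y ≠ s₄) ∧ (s₁ ≠ s₂ ∧ s₁ ≠ s₃ ∧ s₁ ≠ s₄) ∧ (s₂ ≠ s₃ ∧ s₂ ≠ s₄) ∧
    s₃ ≠ s₄ := by
  have := h.nd
  simp only [List.nodup_cons, List.mem_cons, List.not_mem_nil, or_false, not_or, List.nodup_nil,
    and_true, not_false_eq_true] at this
  exact this

/-- the hypotheses -/
structure Hyp4 (G : SimpleGraph α) (x y s₁ s₂ s₃ s₄ : α) : Prop where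
  k48 : K48 G
  p33 : P33 G x y s₁ s₂ s₃ s₄
  a23 : G.Adj s₂ s₃
  a14 : G.Adj s₁ s₄
  n13 : ¬ G.Adj s₁ s₃
  n24 : ¬ G.Adj s₂ s₄

/-- the graph `N` -/
def NN (G : SimpleGraph α) (y s₁ s₄ : α) : SimpleGraph α := delE (contr G y s₁) y s₄

theorem nn_adj {a b : α} : (NN G y s₁ s₄).Adj a b ↔ (contr G y s₁).Adj a b ∧ s(a, b) ≠ s(y, s₄) := by
  rw [NN, delE, deleteEdges_adj, Set.mem_singleton_iff]

theorem nn_of {a b : α} (h : G.Adj a b) (ha : a ≠ s₁) (hb : b ≠ s₁) (hne : s(a, b) ≠ s(y, s₄)) :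
    (NN G y s₁ s₄).Adj a b := nn_adj.2 ⟨contr_adj_of_adj h ha hb, hne⟩

theorem nn_of1 {b : α} (hy : y ≠ s₁) (h : G.Adj s₁ b) (hb : b ≠ y) (hne : b ≠ s₄) :
    (NN G y s₁ s₄).Adj y b := by
  refine nn_adj.2 ⟨⟨hy, h.ne', hb.symm, Or.inr (Or.inl ⟨rfl, h⟩)⟩, ?_⟩
  rw [ne_eq, Sym2.eq_iff]
  rintro (⟨_, h1⟩ | ⟨h1, h2⟩)
  · exact hne h1
  · exact hb h2

theorem vsN (hC20 : SpecC20) (hXC3 : SpecXC3) (h : Hyp4 G x y s₁ s₂ s₃ s₄) :
    VS (NN G y s₁ s₄) = (VS G).erase s₁ := by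
  have hC := (hC20.c1 h.k48 h.p33).2.1
  have hys : G.Adj y s₁ := (h.p33.ny s₁).2 (Or.inr (Or.inl rfl))
  rw [NN, VS_delE fun v hv => le_trans (by norm_num) (hC.1.le_nbs hv)]
  exact hXC3.vs (h.k48.1.mono (by norm_num)) hys

/-- edges of `G` between `P ∪ {s₁}` and `Q` -/
theorem cross (h : Hyp4 G x y s₁ s₂ s₃ s₄) {W P Q : Finset α} (hS : Sep (NN G y s₁ s₄) W P Q)
    (hyP : y ∈ P) (hs1 : s₁ ∉ VS (NN G y s₁ s₄)) {p q : α} (hp : p ∈ P ∨ p = s₁) (hq : q ∈ Q)
    (hpq : G.Adj p q) : q = s₄ ∧ (p = y ∨ p = s₁) := by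
  have hq1 : q ≠ s₁ := fun e => hs1 (e ▸ hS.subQ hq)
  have hqy : q ≠ y := fun e => Finset.disjoint_left.1 hS.2.2.2.1 hyP (e ▸ hq)
  obtain ⟨-, ⟨hy1, -⟩, -⟩ := nes h.p33
  rcases hp with hp | hp
  · have hp1 : p ≠ s₁ := fun e => hs1 (e ▸ hS.subP hp)
    by_contra hc
    have hne : s(p, q) ≠ s(y, s₄) := by
      rw [ne_eq, Sym2.eq_iff]
      rintro (⟨h1, h2⟩ | ⟨h1, h2⟩)
      · exact hc ⟨h2, Or.inl h1⟩
      · exact hqy h2
    exact hS.2.2.2.2 p hp q hq (nn_of hpq hp1 hq1 hne)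
  · subst hp
    refine ⟨?_, Or.inr rfl⟩
    by_contra hc
    exact hS.2.2.2.2 y hyP q hq (nn_of1 hy1 hpq hqy hc)

/-- the neighbours of `Q - s₄` -/
theorem nbQ (h : Hyp4 G x y s₁ s₂ s₃ s₄) {W P Q : Finset α} (hS : Sep (NN G y s₁ s₄) W P Q)
    (hyP : y ∈ P) (hVS : VS (NN G y s₁ s₄) = (VS G).erase s₁) {w : α}
    (hw : w ∈ NB G (Q.erase s₄)) : w = s₄ ∨ w ∈ W := by
  have hs1 : s₁ ∉ VS (NN G y s₁ s₄) := by rw [hVS]; exact fun h => (mem_erase.1 h).1 rfl
  obtain ⟨h1, q, hq, hqw⟩ := mem_NB.1 hw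
  obtain ⟨hq4, hq⟩ := mem_erase.1 hq
  by_cases hw1 : w = s₁
  · exact absurd (cross h hS hyP hs1 (Or.inr hw1) hq hqw.symm).1 hq4
  · have hwV : w ∈ VS (NN G y s₁ s₄) := by
      rw [hVS]
      exact mem_erase.2 ⟨hw1, right_mem_VS hqw⟩
    rcases hS.mem_or hwV with hw' | hw' | hw'
    · exact Or.inr hw'
    · exact absurd (cross h hS hyP hs1 (Or.inl hw') hq hqw.symm).1 hq4
    · left
      by_contra hc
      exact h1 (mem_erase.2 ⟨hc, hw'⟩)

/-- the main claim, one orientation -/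
theorem claim0 (hFRG : SpecFRG) (h : Hyp4 G x y s₁ s₂ s₃ s₄) {W P Q : Finset α}
    (hVS : VS (NN G y s₁ s₄) = (VS G).erase s₁) (hS : Sep (NN G y s₁ s₄) W P Q)
    (hyP : y ∈ P) (h4Q : s₄ ∈ Q) (hW : W.card ≤ 2 ∨ (W.card = 3 ∧ 2 ≤ P.card ∧ 2 ≤ Q.card)) :
    W.card ≤ 2 ∧ Q = {s₄} := by
  have hs1 : s₁ ∉ VS (NN G y s₁ s₄) := by rw [hVS]; exact fun h => (mem_erase.1 h).1 rfl
  obtain ⟨⟨nxy, nx1, nx2, nx3, nx4⟩, ⟨ny1, ny2, ny3, ny4⟩, ⟨n12, n13, n14⟩, ⟨n23, n24⟩, n34⟩ :=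
    nes h.p33
  have axy : G.Adj x y := (h.p33.nx y).2 (Or.inl rfl)
  have ax4 : G.Adj x s₄ := (h.p33.nx s₄).2 (Or.inr (Or.inr (Or.inr rfl)))
  have ay3 : G.Adj y s₃ := (h.p33.ny s₃).2 (Or.inr (Or.inr (Or.inl rfl)))
  have dPQ := hS.2.2.2.1
  have dWP := hS.2.1
  have dWQ := hS.2.2.1
  have hsubQ : ∀ v ∈ Q, v ∈ VS G := fun v hv => by
    have := hS.subQ hv
    rw [hVS] at this
    exact (mem_erase.1 this).2
  have hsubP : ∀ v ∈ P, v ∈ VS G := fun v hv => by
    have := hS.subP hv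
    rw [hVS] at this
    exact (mem_erase.1 this).2
  -- `x ∈ W`
  have Nxy : (NN G y s₁ s₄).Adj x y := nn_of axy nx1 ny1 (by
    rw [ne_eq, Sym2.eq_iff]
    rintro (⟨h1, _⟩ | ⟨h1, _⟩)
    · exact nxy h1
    · exact nx4 h1)
  have Nx4 : (NN G y s₁ s₄).Adj x s₄ := nn_of ax4 nx1 n14.symm (by
    rw [ne_eq, Sym2.eq_iff]
    rintro (⟨h1, _⟩ | ⟨h1, _⟩)
    · exact nxy h1
    · exact nx4 h1)
  have hxW : x ∈ W := by
    rcases hS.mem_or (left_mem_VS Nxy) with h1 | h1 | h1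
    · exact h1
    · exact absurd Nx4 (hS.2.2.2.2 x h1 s₄ h4Q)
    · exact absurd Nxy.symm (hS.2.2.2.2 y hyP x h1)
  have hyV : y ∈ VS G := right_mem_VS axy
  have h4V : s₄ ∈ VS G := right_mem_VS ax4
  have hyQ : y ∉ Q := fun h => Finset.disjoint_left.1 dPQ hyP h
  have hyW : y ∉ W := fun h => Finset.disjoint_left.1 dWP h hyP
  -- FEW for `Q - s₄`
  have hfewQ : ∀ W' : Finset α, NB G (Q.erase s₄) ⊆ W' → W' ⊆ insert s₄ W → W'.card ≤ 3 →
      Q = {s₄} := by
    intro W' h1 h2 h3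
    by_contra hQ
    have hne : (Q.erase s₄).Nonempty := by
      rw [nonempty_iff_ne_empty]
      intro h4
      apply hQ
      apply Subset.antisymm
      · intro v hv
        rw [mem_singleton]
        by_contra h5
        exact absurd (mem_erase.2 ⟨h5, hv⟩) (by rw [h4]; simp)
      · rw [singleton_subset_iff]
        exact h4Q
    refine hFRG.few (r := y) h.k48.1 (fun v hv => hsubQ v (mem_erase.1 hv).2) hne h1 h3 hyV
      (fun h => hyQ (mem_erase.1 h).2) fun h4 => ?_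
    rcases mem_insert.1 (h2 h4) with h5 | h5
    · exact ny4 h5
    · exact hyW h5
  rcases hW with hW | ⟨hW3, hP2, hQ2⟩
  · refine ⟨hW, hfewQ (insert s₄ W) ?_ (Subset.refl _) ?_⟩
    · intro w hw
      exact mem_insert.2 (nbQ h hS hyP hVS hw)
    · exact (card_insert_le _ _).trans (by omega)
  · exfalso
    have hQne : Q ≠ {s₄} := fun e => by rw [e, card_singleton] at hQ2; omega
    -- `x` has another neighbour in `Q`
    have hx : x ∈ NB G (Q.erase s₄) := by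
      by_contra hx
      apply hQne
      refine hfewQ (insert s₄ (W.erase x)) ?_ ?_ ?_
      · intro w hw
        rcases nbQ h hS hyP hVS hw with h1 | h1
        · exact mem_insert.2 (Or.inl h1)
        · refine mem_insert.2 (Or.inr (mem_erase.2 ⟨?_, h1⟩))
          rintro rfl
          exact hx hw
      · exact insert_subset_insert _ (erase_subset _ _)
      · have h1 := card_erase_of_mem hxW
        have h2 := card_insert_le s₄ (W.erase x)
        omega
    have N3 : (NN G y s₁ s₄).Adj y s₃ := nn_of ay3 ny1 n13.symm (by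
      rw [ne_eq, Sym2.eq_iff]
      rintro (⟨_, h1⟩ | ⟨h1, _⟩)
      · exact n34 h1
      · exact ny4 h1)
    have h3Q : s₃ ∉ Q := fun h1 => hS.2.2.2.2 y hyP s₃ h1 N3
    have h2Q : s₂ ∈ Q := by
      obtain ⟨-, q, hq, hqx⟩ := mem_NB.1 hx
      obtain ⟨hq4, hqQ⟩ := mem_erase.1 hq
      rcases (h.p33.nx q).1 hqx.symm with e | e | e | e
      · exact absurd (e ▸ hqQ) hyQ
      · exact e ▸ hqQ
      · exact absurd (e ▸ hqQ) h3Q
      · exact absurd e hq4
    have N23 : (NN G y s₁ s₄).Adj s₃ s₂ := nn_of h.a23.symm n13.symm n12.symm (by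
      rw [ne_eq, Sym2.eq_iff]
      rintro (⟨h1, _⟩ | ⟨h1, _⟩)
      · exact ny3 h1.symm
      · exact n34 h1)
    have h3W : s₃ ∈ W := by
      rcases hS.mem_or (left_mem_VS N23) with h1 | h1 | h1
      · exact h1
      · exact absurd N23 (hS.2.2.2.2 s₃ h1 s₂ h2Q)
      · exact absurd h1 h3Q
    -- FEW for `P - y`
    have hNBP : NB G (P.erase y) ⊆ insert s₁ (W.erase x) := by
      intro w hw
      obtain ⟨h1, p, hp, hpw⟩ := mem_NB.1 hw
      obtain ⟨hpy, hpP⟩ := mem_erase.1 hp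
      have hp1 : p ≠ s₁ := fun e => hs1 (e ▸ hS.subP hpP)
      have hp2 : p ≠ s₂ := fun e => Finset.disjoint_left.1 dPQ hpP (e ▸ h2Q)
      have hp3 : p ≠ s₃ := fun e => Finset.disjoint_left.1 dWP h3W (e ▸ hpP)
      have hp4 : p ≠ s₄ := fun e => Finset.disjoint_left.1 dPQ hpP (e ▸ h4Q)
      have hpx : p ≠ x := fun e => Finset.disjoint_left.1 dWP hxW (e ▸ hpP)
      by_cases hw1 : w = s₁
      · exact mem_insert.2 (Or.inl hw1)
      · refine mem_insert.2 (Or.inr (mem_erase.2 ⟨?_, ?_⟩))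
        · rintro rfl
          rcases (h.p33.nx p).1 hpw.symm with e | e | e | e
          · exact hpy e
          · exact hp2 e
          · exact hp3 e
          · exact hp4 e
        · have hwV : w ∈ VS (NN G y s₁ s₄) := by
            rw [hVS]
            exact mem_erase.2 ⟨hw1, right_mem_VS hpw⟩
          rcases hS.mem_or hwV with hw' | hw' | hw'
          · exact hw'
          · exfalso
            by_cases hwy : w = y
            · subst hwy
              rcases (h.p33.ny p).1 hpw.symm with e | e | e | e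
              · exact hpx e
              · exact hp1 e
              · exact hp3 e
              · exact hp4 e
            · exact h1 (mem_erase.2 ⟨hwy, hw'⟩)
          · rcases (cross h hS hyP hs1 (Or.inl hpP) hw' hpw).2 with e | e
            · exact absurd e hpy
            · exact absurd e hp1
    have hPne : (P.erase y).Nonempty := by
      rw [← card_pos, card_erase_of_mem hyP]
      omega
    refine hFRG.few (r := s₄) h.k48.1 (fun v hv => hsubP v (mem_erase.1 hv).2) hPne hNBP ?_ h4V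
      (fun h => Finset.disjoint_left.1 dPQ (mem_erase.1 h).2 h4Q) fun h4 => ?_
    · have h1 := card_erase_of_mem hxW
      have h2 := card_insert_le s₁ (W.erase x)
      omega
    · rcases mem_insert.1 h4 with h5 | h5
      · exact n14 h5.symm
      · exact Finset.disjoint_left.1 dWQ (mem_erase.1 h5).2 h4Q

theorem sep_of_delE {R : SimpleGraph α} {a b : α} {W P Q : Finset α} (hVS : VS (delE R a b) = VS R)
    (hS : Sep (delE R a b) W P Q) (h : ¬ (a ∈ P ∧ b ∈ Q)) (h' : ¬ (a ∈ Q ∧ b ∈ P)) : Sep R W P Q := by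
  refine ⟨by rw [← hVS]; exact hS.1, hS.2.1, hS.2.2.1, hS.2.2.2.1, fun p hp q hq hpq => ?_⟩
  by_cases he : s(p, q) = s(a, b)
  · rw [Sym2.eq_iff] at he
    rcases he with ⟨rfl, rfl⟩ | ⟨rfl, rfl⟩
    · exact h ⟨hp, hq⟩
    · exact h' ⟨hq, hp⟩
  · refine hS.2.2.2.2 p hp q hq ?_
    rw [delE, deleteEdges_adj, Set.mem_singleton_iff]
    exact ⟨hpq, he⟩

/-- **CLAIM** -/
theorem claim (hC20 : SpecC20) (hFRG : SpecFRG) (hXC3 : SpecXC3) (h : Hyp4 G x y s₁ s₂ s₃ s₄)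
    {W P Q : Finset α} (hS : Sep (NN G y s₁ s₄) W P Q)
    (hW : (W.card ≤ 2 ∧ P.Nonempty ∧ Q.Nonempty) ∨ (W.card = 3 ∧ 2 ≤ P.card ∧ 2 ≤ Q.card)) :
    W.card ≤ 2 ∧ (P = {s₄} ∨ Q = {s₄}) := by
  have hVS := vsN hC20 hXC3 h
  have hC := (hC20.c1 h.k48 h.p33).2.1
  have hW' : W.card ≤ 2 ∨ (W.card = 3 ∧ 2 ≤ P.card ∧ 2 ≤ Q.card) := hW.imp (fun h => h.1) id
  have hW'' : W.card ≤ 2 ∨ (W.card = 3 ∧ 2 ≤ Q.card ∧ 2 ≤ P.card) :=
    hW.imp (fun h => h.1) fun h => ⟨h.1, h.2.2, h.2.1⟩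
  by_cases h1 : y ∈ P ∧ s₄ ∈ Q
  · have h2 := claim0 hFRG h hVS hS h1.1 h1.2 hW'
    exact ⟨h2.1, Or.inr h2.2⟩
  by_cases h2 : y ∈ Q ∧ s₄ ∈ P
  · have h3 := claim0 hFRG h hVS hS.symm h2.1 h2.2 hW''
    exact ⟨h3.1, Or.inl h3.2⟩
  exfalso
  have h3 : Sep (contr G y s₁) W P Q :=
    sep_of_delE (VS_delE fun v hv => le_trans (by norm_num) (hC.1.le_nbs hv)) hS h1 h2
  rcases hW with ⟨h4, h5, h6⟩ | ⟨h4, h5, h6⟩
  · have h7 := hC.1.le_of_sep h3 h5 h6
    omega
  · rcases hC.2 W P Q h3 h4 with h7 | h7 <;> omega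

end XS4M

open XS4M

theorem specXS4 (hC20 : SpecC20) (hFRG : SpecFRG) (hXC3 : SpecXC3) (hXCB : SpecXCB) : SpecXS4 where
  c1 := by
    intro α _ _ G x y s₁ s₂ s₃ s₄ r r' hK hP a23 a14 n13 n24 hr hr' hrr hrn hrn'
    have h : Hyp4 G x y s₁ s₂ s₃ s₄ := ⟨hK, hP, a23, a14, n13, n24⟩
    obtain ⟨⟨nxy, nx1, nx2, nx3, nx4⟩, ⟨ny1, ny2, ny3, ny4⟩, ⟨n12, n13', n14⟩, ⟨n23, n24'⟩, n34⟩ :=
      nes hP
    simp only [mem_insert, mem_singleton, not_or] at hrn hrn'
    have ax4 : G.Adj x s₄ := (hP.nx s₄).2 (Or.inr (Or.inr (Or.inr rfl)))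
    have hVS := vsN hC20 hXC3 h
    have hcard : 7 ≤ (VS (NN G y s₁ s₄)).card := by
      rw [hVS, card_erase_of_mem (left_mem_VS a14)]
      have := hK.2
      omega
    -- three neighbours of `s₄`
    have N4x : (NN G y s₁ s₄).Adj s₄ x := nn_of ax4.symm n14.symm nx1 (by
      rw [ne_eq, Sym2.eq_iff]
      rintro (⟨h1, _⟩ | ⟨_, h1⟩)
      · exact ny4 h1.symm
      · exact nxy h1)
    have N4r : (NN G y s₁ s₄).Adj s₄ r := nn_of hr n14.symm hrn.2.2 (by
      rw [ne_eq, Sym2.eq_iff]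
      rintro (⟨h1, _⟩ | ⟨_, h1⟩)
      · exact ny4 h1.symm
      · exact hrn.2.1 h1)
    have N4r' : (NN G y s₁ s₄).Adj s₄ r' := nn_of hr' n14.symm hrn'.2.2 (by
      rw [ne_eq, Sym2.eq_iff]
      rintro (⟨h1, _⟩ | ⟨_, h1⟩)
      · exact ny4 h1.symm
      · exact hrn'.2.1 h1)
    have key : ∀ W P : Finset α, Sep (NN G y s₁ s₄) W P {s₄} → 3 ≤ W.card := by
      intro W P hS
      have hin : ∀ v, (NN G y s₁ s₄).Adj s₄ v → v ∈ W := by
        intro v hv
        rcases hS.mem_or (right_mem_VS hv) with h1 | h1 | h1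
        · exact h1
        · exact absurd hv.symm (hS.2.2.2.2 v h1 s₄ (mem_singleton_self _))
        · exact absurd (mem_singleton.1 h1).symm hv.ne
      have hsub : ({x, r, r'} : Finset α) ⊆ W := by
        intro v hv
        simp only [mem_insert, mem_singleton] at hv
        rcases hv with rfl | rfl | rfl
        · exact hin _ N4x
        · exact hin _ N4r
        · exact hin _ N4r'
      have h3 : ({x, r, r'} : Finset α).card = 3 :=
        card_eq_three.2 ⟨x, r, r', fun e => hrn.1 e.symm, fun e => hrn'.1 e.symm, hrr, rfl⟩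
      rw [← h3]
      exact card_le_card hsub
    refine ⟨kconn_iff_sep.2 ⟨by show 3 < (VS (NN G y s₁ s₄)).card; omega, ?_⟩, ?_⟩
    · intro W P Q hS hW
      by_contra hc
      rw [not_or] at hc
      have h1 := claim hC20 hFRG hXC3 h hS (Or.inl ⟨by omega, nonempty_iff_ne_empty.2 hc.1,
        nonempty_iff_ne_empty.2 hc.2⟩)
      rcases h1.2 with h2 | h2
      · subst h2
        have := key W Q hS.symm
        omega
      · subst h2
        have := key W P hS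
        omega
    · intro W P Q hS hW
      by_contra hc
      rw [not_or, not_le, not_le] at hc
      have h1 := claim hC20 hFRG hXC3 h hS (Or.inr ⟨hW, hc.1, hc.2⟩)
      omega
  sup := by
    intro α _ _ G x y s₁ s₂ s₃ s₄ r hK hP a23 a14 n13 n24 hN
    have h : Hyp4 G x y s₁ s₂ s₃ s₄ := ⟨hK, hP, a23, a14, n13, n24⟩
    obtain ⟨⟨nxy, nx1, nx2, nx3, nx4⟩, ⟨ny1, ny2, ny3, ny4⟩, ⟨n12, n13', n14⟩, ⟨n23, n24'⟩, n34⟩ :=
      nes hP
    have ax4 : G.Adj x s₄ := (hP.nx s₄).2 (Or.inr (Or.inr (Or.inr rfl)))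
    have axy : G.Adj x y := (hP.nx y).2 (Or.inl rfl)
    have hVS := vsN hC20 hXC3 h
    -- `r` is new
    obtain ⟨w, hw, hwn⟩ := hXCB.s3 hK hP.sym2
    have hrw : w = r := by
      simp only [mem_insert, mem_singleton, not_or] at hwn
      rcases (hN w).1 hw with e | e | e | e
      · exact absurd e hwn.1
      · exact absurd e hwn.2.1
      · exact absurd e hwn.2.2.1
      · exact e
    subst hrw
    simp only [mem_insert, mem_singleton, not_or] at hwn
    obtain ⟨hwx, hwy, hw1, hw2, hw3⟩ := hwn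
    have hadj : ∀ v, (delE (contr G y s₁) y s₄).Adj s₄ v ↔ v = x ∨ v = w := by
      intro v
      constructor
      · intro hv
        obtain ⟨⟨-, h2, h3, h4⟩, h5⟩ := nn_adj.1 hv
        rcases h4 with h4 | ⟨h4, -⟩ | ⟨h4, -⟩
        · rcases (hN v).1 h4 with e | e | e | e
          · exact Or.inl e
          · subst e
            exact absurd Sym2.eq_swap h5
          · exact absurd e h2
          · exact Or.inr e
        · exact absurd h4.symm ny4
        · subst h4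
          exact absurd Sym2.eq_swap h5
      · rintro (rfl | rfl)
        · exact nn_of ax4.symm n14.symm nx1 (by
            rw [ne_eq, Sym2.eq_iff]
            rintro (⟨h1, _⟩ | ⟨_, h1⟩)
            · exact ny4 h1.symm
            · exact nxy h1)
        · exact nn_of hw n14.symm hw1 (by
            rw [ne_eq, Sym2.eq_iff]
            rintro (⟨h1, _⟩ | ⟨_, h1⟩)
            · exact ny4 h1.symm
            · exact hwy h1)
    have hnxw : ¬ (delE (contr G y s₁) y s₄).Adj x w := by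
      intro hv
      obtain ⟨⟨-, -, -, h4⟩, -⟩ := nn_adj.1 hv
      rcases h4 with h4 | ⟨h4, -⟩ | ⟨h4, -⟩
      · rcases (hP.nx w).1 h4 with e | e | e | e
        · exact hwy e
        · exact hw2 e
        · exact hw3 e
        · exact hw.ne e.symm
      · exact nxy h4
      · exact hwy h4
    refine ⟨hadj, fun e => hwx e.symm, hnxw, ?_⟩
    -- the contraction
    have hC := (hC20.c1 hK hP).2.1
    have hVS' : VS (contr G y s₁) = (VS G).erase s₁ := by
      rw [← hVS, NN, VS_delE fun v hv => le_trans (by norm_num) (hC.1.le_nbs hv)]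
    have Nx4 : (NN G y s₁ s₄).Adj x s₄ := ((hadj x).2 (Or.inl rfl)).symm
    have N4w : (NN G y s₁ s₄).Adj s₄ w := (hadj w).2 (Or.inr rfl)
    have hdeg : ∀ v ∈ VS (NN G y s₁ s₄), 2 ≤ (nbs (NN G y s₁ s₄) v).card := by
      intro v hv
      rw [hVS, ← hVS'] at hv
      have h1 := hC.1.le_nbs hv
      -- at most one neighbour is lost
      have h2 : ∃ z, nbs (contr G y s₁) v ⊆ insert z (nbs (NN G y s₁ s₄) v) := by
        by_cases hvy : v = y
        · refine ⟨s₄, fun u hu => ?_⟩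
          rw [mem_nbs] at hu
          by_cases hus : u = s₄
          · exact mem_insert.2 (Or.inl hus)
          · refine mem_insert.2 (Or.inr (mem_nbs.2 (nn_adj.2 ⟨hu, ?_⟩)))
            rw [ne_eq, Sym2.eq_iff]
            rintro (⟨_, h1⟩ | ⟨h1, _⟩)
            · exact hus h1
            · exact ny4 (hvy.symm.trans h1)
        · refine ⟨y, fun u hu => ?_⟩
          rw [mem_nbs] at hu
          by_cases huy : u = y
          · exact mem_insert.2 (Or.inl huy)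
          · refine mem_insert.2 (Or.inr (mem_nbs.2 (nn_adj.2 ⟨hu, ?_⟩)))
            rw [ne_eq, Sym2.eq_iff]
            rintro (⟨h1, _⟩ | ⟨_, h1⟩)
            · exact hvy h1
            · exact huy h1
      obtain ⟨z, hz⟩ := h2
      have h3 := (card_le_card hz).trans (card_insert_le _ _)
      omega
    have hVS0 : VS (contr (NN G y s₁ s₄) x s₄) = (VS (NN G y s₁ s₄)).erase s₄ := VS_contr Nx4 hdeg
    have hcard : 6 ≤ (VS (contr (NN G y s₁ s₄) x s₄)).card := by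
      rw [hVS0, card_erase_of_mem (right_mem_VS Nx4), hVS, card_erase_of_mem (left_mem_VS a14)]
      have := hK.2
      omega
    have N0xw : (contr (NN G y s₁ s₄) x s₄).Adj x w :=
      ⟨nx4, hw.ne', fun e => hwx e.symm, Or.inr (Or.inl ⟨rfl, N4w⟩)⟩
    -- lifting a separation
    have lift : ∀ W P Q : Finset α, Sep (contr (NN G y s₁ s₄) x s₄) W P Q → x ∉ P → w ∉ P →
        Sep (NN G y s₁ s₄) W P (insert s₄ Q) := by
      intro W P Q hS hx hw'
      have h4 : s₄ ∉ VS (contr (NN G y s₁ s₄) x s₄) := by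
        rw [hVS0]
        exact fun h => (mem_erase.1 h).1 rfl
      have h4P : s₄ ∉ P := fun h => h4 (hS.subP h)
      have h4Q : s₄ ∉ Q := fun h => h4 (hS.subQ h)
      have h4W : s₄ ∉ W := fun h => h4 (hS.subS h)
      refine ⟨?_, hS.2.1, ?_, ?_, ?_⟩
      · rw [union_insert, hS.1, hVS0, insert_erase (right_mem_VS Nx4)]
      · rw [disjoint_insert_right]
        exact ⟨h4W, hS.2.2.1⟩
      · rw [disjoint_insert_right]
        exact ⟨h4P, hS.2.2.2.1⟩
      · intro p hp q hq hpq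
        rcases mem_insert.1 hq with rfl | hq
        · rcases (hadj p).1 hpq.symm with rfl | rfl
          · exact hx hp
          · exact hw' hp
        · exact hS.2.2.2.2 p hp q hq (contr_adj_of_adj hpq (fun e => h4P (e ▸ hp))
            (fun e => h4Q (e ▸ hq)))
    have key : ∀ W P Q : Finset α, Sep (contr (NN G y s₁ s₄) x s₄) W P Q →
        ((W.card ≤ 2 ∧ P.Nonempty ∧ Q.Nonempty) ∨ (W.card = 3 ∧ 2 ≤ P.card ∧ 2 ≤ Q.card)) →
        x ∉ P → w ∉ P → False := by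
      intro W P Q hS hW hx hw'
      have h4 : s₄ ∉ VS (contr (NN G y s₁ s₄) x s₄) := by
        rw [hVS0]
        exact fun h => (mem_erase.1 h).1 rfl
      have h4P : s₄ ∉ P := fun h => h4 (hS.subP h)
      have h4Q : s₄ ∉ Q := fun h => h4 (hS.subQ h)
      have h1 := claim hC20 hFRG hXC3 h (lift W P Q hS hx hw') (hW.imp
        (fun h => ⟨h.1, h.2.1, insert_nonempty _ _⟩) fun h => ⟨h.1, h.2.1, by
          rw [card_insert_of_notMem h4Q]; omega⟩)
      have hQne : Q.Nonempty := by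
        rcases hW with h | h
        · exact h.2.2
        · rw [← card_pos]; omega
      rcases h1.2 with h2 | h2
      · exact h4P (h2 ▸ mem_singleton_self _)
      · obtain ⟨q, hq⟩ := hQne
        have h3 : q ∈ ({s₄} : Finset α) := h2 ▸ mem_insert_of_mem hq
        exact h4Q (mem_singleton.1 h3 ▸ hq)
    have key2 : ∀ W P Q : Finset α, Sep (contr (NN G y s₁ s₄) x s₄) W P Q →
        ((W.card ≤ 2 ∧ P.Nonempty ∧ Q.Nonempty) ∨ (W.card = 3 ∧ 2 ≤ P.card ∧ 2 ≤ Q.card)) → False := by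
      intro W P Q hS hW
      have hno : ∀ a b, (contr (NN G y s₁ s₄) x s₄).Adj a b → a ∈ P → b ∉ Q :=
        fun a b hab ha hb => hS.2.2.2.2 a ha b hb hab
      by_cases hxP : x ∈ P
      · -- then `x, w ∉ Q`
        refine key W Q P hS.symm (hW.imp (fun h => ⟨h.1, h.2.2, h.2.1⟩) fun h => ⟨h.1, h.2.2, h.2.1⟩)
          (fun h => Finset.disjoint_left.1 hS.2.2.2.1 hxP h) (hno x w N0xw hxP)
      · by_cases hwP : w ∈ P
        · refine key W Q P hS.symm (hW.imp (fun h => ⟨h.1, h.2.2, h.2.1⟩)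
            fun h => ⟨h.1, h.2.2, h.2.1⟩) (hno w x N0xw.symm hwP)
            (fun h => Finset.disjoint_left.1 hS.2.2.2.1 hwP h)
        · exact key W P Q hS hW hxP hwP
    show C1 (contr (NN G y s₁ s₄) x s₄)
    refine ⟨kconn_iff_sep.2 ⟨by omega, ?_⟩, ?_⟩
    · intro W P Q hS hW
      by_contra hc
      rw [not_or] at hc
      exact key2 W P Q hS (Or.inl ⟨by omega, nonempty_iff_ne_empty.2 hc.1,
        nonempty_iff_ne_empty.2 hc.2⟩)
    · intro W P Q hS hW
      by_contra hc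
      rw [not_or, not_le, not_le] at hc
      exact key2 W P Q hS (Or.inr ⟨hW, hc.1, hc.2⟩)

end DL
end

section
/-!
# MP_3ff0f8_gt, EXIST section 2: XU1, `U G` in case 2.1 (helper94)
-/
open SimpleGraph Finset

namespace DL

theorem specXU1 (hXLF : SpecXLF) (hXDR : SpecXDR) (hXRD : SpecXRD) (hGLU : SpecGLU) :
    SpecXU1 := by
  intro α _ _ G x y s₁ s₂ s₃ s₄ hK hP hE hU1 hU2 hKZ f hf
  obtain ⟨φ, l, hφ, hl, hz1, hz2⟩ := hXLF hK hP hE hU1 hU2 hKZ f hf
  have hg : D4even G (fun C => f C + φ C) := hGLU.dadd hf hφ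
  have g1 : ∀ C, CycM G x s₂ C → (fun C => f C + φ C) C = 0 := fun C hC => by
    show f C + φ C = 0
    rw [hz1 C hC, zmod2_add_self]
  have g2 : ∀ C, CycM G y s₁ C →
      (fun C => f C + φ C) C = chi C s(x, y) * chi C s(s₁, s₂) * ∑ e ∈ C, l e := fun C hC => by
    show f C + φ C = _
    rw [hz2 C hC, add_right_comm, zmod2_add_self, zero_add]
  obtain ⟨φ', hφ', k1, k2⟩ := hXDR hK hP hg hl g1 g2
  have hh : D4even G (fun C => (f C + φ C) + φ' C) := hGLU.dadd hg hφ'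
  have hKG : KG G x y s₁ s₂ s₃ s₄ (fun C => (f C + φ C) + φ' C) := by
    refine ⟨hK, hP, hE, hh, fun C hC => ?_, fun C hC => ?_⟩
    · show (f C + φ C) + φ' C = 0
      have h1 : f C + φ C = 0 := g1 C hC
      rw [h1, k1 C hC, add_zero]
    · show (f C + φ C) + φ' C = 0
      have h1 : f C + φ C = φ' C := k2 C hC
      rw [h1, zmod2_add_self]
  obtain ⟨c, hc⟩ := hXRD hKG
  refine hGLU.congr (fun C hC => ?_) (hGLU.add (hGLU.add (hGLU.coh1 G c x y s₂ s₁) hφ') hφ)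
  have h1 : (f C + φ C) + φ' C = c * coh x y s₂ s₁ C := hc C hC
  rw [← h1]
  have e1 := zmod2_add_self (φ C)
  have e2 := zmod2_add_self (φ' C)
  linear_combination -e1 - e2

end DL
end

section
set_option autoImplicit false
set_option linter.unusedSectionVars false

/-!
# XU2: `U G` in the cases 2.2 and 2.4 (helper83)
-/

open SimpleGraph Finset

namespace DL

namespace XU2M

variable {α : Type} [Fintype α] [DecidableEq α]

/-- a cycle of `delE G a b` is a cycle of `G` -/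
theorem cycM_mono {G H : SimpleGraph α} {a b : α} {C : Finset (Sym2 α)} (h : H ≤ G) (hC : CycM H a b C) :
    CycM G a b C :=
  ⟨hC.1.mono h, hC.2⟩

/-- the product of three coordinates is in `F(G)` -/
theorem inF_prod (hGLU : SpecGLU) (G : SimpleGraph α) (m : ZMod 2) (e f h : Sym2 α) :
    InF G (fun C => m * (chi C e * chi C f * chi C h)) := by
  refine hGLU.congr (fun C _ => ?_) (hGLU.quad G e f 0 (Pi.single h m))
  have h1 : ∑ g ∈ C, (Pi.single h m : Chain α) g = m * chi C h := by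
    simp only [chi]
    by_cases hh : h ∈ C
    · rw [Finset.sum_eq_single h]
      · simp [hh]
      · intro b _ hb
        simp [hb]
      · intro hn
        exact absurd hh hn
    · rw [if_neg hh, mul_zero]
      refine Finset.sum_eq_zero fun g hg => ?_
      have : g ≠ h := fun e => hh (e ▸ hg)
      simp [this]
  rw [h1]
  ring

end XU2M

open XU2M in
theorem specXU2 (hME : SpecME) (hGLU : SpecGLU) (hXE2 : SpecXE2) (hXLL : SpecXLL) (hC20 : SpecC20)
    (hF1N : SpecF1N) (hXCC : SpecXCC) (hXCD : SpecXCD) (hXCE : SpecXCE) (hDST : SpecDST) : SpecXU2 := by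
  intro α _ _ G x y s₁ s₂ s₃ s₄ hG hNP hIH h h23 h13 h4 f hf
  have hnd := h.nd
  simp only [List.nodup_cons, List.mem_cons, List.not_mem_nil, or_false, not_or,
    not_false_eq_true, List.nodup_nil, and_true] at hnd
  obtain ⟨⟨hxy, hx1, hx2, hx3, hx4⟩, ⟨hy1, hy2, hy3, hy4⟩, ⟨h12, h13', h14⟩, ⟨h23', h24⟩, h34⟩ := hnd
  have hyb : G.Adj y s₁ := (h.ny s₁).2 (Or.inr (Or.inl rfl))
  have hx1' : ¬ G.Adj s₁ x := fun e => by
    rcases (h.nx s₁).1 e.symm with e | e | e | e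
    · exact hy1 e.symm
    · exact h12 e
    · exact h13' e
    · exact h14 e
  have hcn : ∀ w, G.Adj y w → G.Adj s₁ w → w = s₄ := by
    intro w h1 h2
    rcases (h.ny w).1 h1 with rfl | rfl | rfl | rfl
    · exact absurd h2 hx1'
    · exact absurd h2 (G.irrefl)
    · exact absurd h2 h13
    · rfl
  -- the contraction
  have hc1 : C1 (contr G y s₁) := (hC20.c1 hG h).2.1
  have hcNP : NP (contr G y s₁) := (hF1N hG h.sym1 hNP).1
  have hcOK : OK (contr G y s₁) := hIH _ (hDST.sz2 hyb) hc1 hcNP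
  obtain ⟨φ₁, hφ₁, hφ₁C⟩ := hME hyb hc1.1 hcOK.1 (by
    intro w h1 h2
    have := hcn w h1 h2
    subst this
    exact ⟨(h4 h2).1, (h4 h2).2.1⟩) f hf
  set f₁ : Finset (Sym2 α) → ZMod 2 := fun C => f C + φ₁ C with hf₁
  have hf₁e : D4even G f₁ := hGLU.dadd hf hφ₁
  have hf₁z : ∀ C, CycM G y s₁ C → f₁ C = 0 := by
    intro C hC
    rw [hf₁]
    simp only
    rw [hφ₁C C hC]
    exact CharTwo.add_self_eq_zero _
  -- the deletion
  have hRle : delE G s₂ s₃ ≤ G := delE_le _ _ _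
  have hRC1 : C1 (delE G s₂ s₃) := hXCC.c1 hG h h23
  have hRNP : NP (delE G s₂ s₃) := hXCC.np hG h h23 hNP
  have hRsz : sz (delE G s₂ s₃) < sz G := by
    refine hDST.sz1 hRle ?_
    intro e
    have h1 : (delE G s₂ s₃).Adj s₂ s₃ := by rw [e]; exact h23
    exact (delE_adj.1 h1).2 rfl
  have hROK : OK (delE G s₂ s₃) := hIH _ hRsz hRC1 hRNP
  obtain ⟨φ₂, hφ₂, hφ₂C⟩ := hGLU.u hROK.1 hRle hf₁e
  have hRyb : (delE G s₂ s₃).Adj y s₁ := by
    refine delE_adj.2 ⟨hyb, ?_⟩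
    intro e
    rw [Sym2.eq_iff] at e
    rcases e with ⟨e, _⟩ | ⟨e, _⟩
    · exact hy2 e
    · exact hy3 e
  have hRcC1 : C1 (contr (delE G s₂ s₃) y s₁) := hXCD hG h h23
  have hRcOK : OK (contr (delE G s₂ s₃) y s₁) :=
    hIH _ (lt_trans (hDST.sz2 hRyb) hRsz) hRcC1 (hXCE hG h h23 hNP)
  obtain ⟨ψ, hψ, hψ0, hψC⟩ := hXE2 hRyb hRcC1.1 hRcOK.2 (by
    intro w h1 h2
    have h2' := hRle h2
    have := hcn w (hRle h1) h2'
    subst this
    exact (h4 h2').2.2) φ₂ (hφ₂ _) (by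
      intro C hC
      rw [← hφ₂C C hC.1]
      exact hf₁z C (cycM_mono hRle hC))
  -- the difference
  set f₂ : Finset (Sym2 α) → ZMod 2 := fun C => f₁ C + ψ C with hf₂
  have hKF : KF G x y s₁ s₂ s₃ s₄ f₂ := by
    refine ⟨hG, h, h23, hGLU.dadd hf₁e (hψ G), ?_, ?_⟩
    · intro C hC hn
      have hC' : IsCyc (delE G s₂ s₃) C := isCyc_delE.2 ⟨hC, hn⟩
      rw [hf₂]
      simp only
      rw [hφ₂C C hC', hψC C hC']
      exact CharTwo.add_self_eq_zero _
    · intro C hC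
      rw [hf₂]
      simp only
      rw [hf₁z C hC, hψ0 G C hC, add_zero]
  obtain ⟨m, hm⟩ := hXLL hKF
  refine hGLU.congr (g := fun C => φ₁ C + (ψ C + m * (chi C s(y, s₄) * chi C s(s₁, s₄) * chi C s(s₂, s₃))))
    (fun C hC => ?_) (hGLU.add hφ₁ (hGLU.add (hψ G) (inF_prod hGLU G m _ _ _)))
  have h1 := hm C hC
  rw [hf₂] at h1
  simp only [hf₁] at h1
  change f C = φ₁ C + (ψ C + m * (chi C s(y, s₄) * chi C s(s₁, s₄) * chi C s(s₂, s₃)))
  rw [← h1]
  have h2 : ∀ a b c : ZMod 2, a = b + (c + (a + b + c)) := by decide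
  exact h2 _ _ _

end DL
end

section
/-!
# MP_3ff0f8_gt, EXIST section 2: module XZ4 (helper46)
-/
open SimpleGraph Finset

namespace DL

set_option linter.unusedSectionVars false

namespace XZ4M

variable {α : Type} [Fintype α] [DecidableEq α]

/-- a vertex `v` with exactly the neighbours `p`, `q`: every 2-cycle vanishes on (edges at `p`) × (edges at `v`) -/
theorem zab {N : SimpleGraph α} {v p q : α} (hpq : p ≠ q) (hN : ∀ w, N.Adj v w ↔ w = p ∨ w = q)
    {z : Sym2 α → Sym2 α → ZMod 2} (hz : IsZ2 N z) : Zab p v z := by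
  intro e f hpe hvf he hf
  by_contra hne
  obtain ⟨h1, h2, h3⟩ := hz.2.1 e f hne
  have hve : v ∉ e := fun h => h3 v ⟨h, hvf⟩
  have hpf : p ∉ f := fun h => h3 p ⟨hpe, h⟩
  -- `f = vq`
  obtain ⟨w, rfl⟩ := Sym2.mem_iff_exists.1 hvf
  have hw : w = q := by
    rcases (hN w).1 h2 with rfl | rfl
    · exact absurd (Sym2.mem_mk_right _ _) hpf
    · rfl
  subst hw
  have hb := hz.2.2 e v hve
  have h4 : ∑ g ∈ univ.filter (fun g => v ∈ g), z e g = z e s(v, w) := by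
    apply sum_eq_single
    · intro g hg hgne
      by_contra hg0
      obtain ⟨-, g2, g3⟩ := hz.2.1 e g hg0
      obtain ⟨u, rfl⟩ := Sym2.mem_iff_exists.1 (mem_filter.1 hg).2
      rcases (hN u).1 g2 with rfl | rfl
      · exact g3 u ⟨hpe, Sym2.mem_mk_right _ _⟩
      · exact hgne rfl
    · intro h
      exfalso
      apply h
      rw [mem_filter]
      exact ⟨mem_univ _, Sym2.mem_mk_left _ _⟩
  exact hne (by rw [← h4]; convert hb)

end XZ4M

open XZ4M

theorem specXZ4 (hXS4 : SpecXS4) (hXN4 : SpecXN4) (hXCB : SpecXCB) (hNPC : SpecNPC)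
    (hKSU : SpecKSU) (hDST : SpecDST) : SpecXZ4 := by
  intro α _ _ G x y s₁ s₂ s₃ s₄ hK hNP hIH hP a23 a14 n13 n24
  have hnd := hP.nd
  simp only [List.nodup_cons, List.mem_cons, List.not_mem_nil, or_false, not_or, List.nodup_nil,
    and_true, not_false_eq_true] at hnd
  obtain ⟨⟨nxy, nx1, nx2, nx3, nx4⟩, ⟨ny1, ny2, ny3, ny4⟩, ⟨n12, n13', n14⟩, ⟨n23, n24'⟩, n34⟩ :=
    hnd
  have hys : G.Adj y s₁ := (hP.ny s₁).2 (Or.inr (Or.inl rfl))
  have ax4 : G.Adj x s₄ := (hP.nx s₄).2 (Or.inr (Or.inr (Or.inr rfl)))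
  have ay4 : G.Adj y s₄ := (hP.ny s₄).2 (Or.inr (Or.inr (Or.inr rfl)))
  have hnp := hXN4 hK hP a23 a14 n13 n24 hNP
  -- sizes
  have hsz1 : sz (contr G y s₁) < sz G := hDST.sz2 hys
  have hsz2 : sz (delE (contr G y s₁) y s₄) < sz (contr G y s₁) := by
    refine hDST.sz1 (delE_le _ _ _) fun e => ?_
    have h1 : (contr G y s₁).Adj y s₄ := contr_adj_of_adj ay4 ny1 (fun e => n14 e.symm)
    rw [← e, delE, deleteEdges_adj] at h1
    exact h1.2 rfl
  obtain ⟨r, hr, hrn⟩ := hXCB.s3 hK hP.sym2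
  have hrn' : r ∉ ({x, y, s₁} : Finset α) := by
    simp only [mem_insert, mem_singleton, not_or] at hrn ⊢
    exact ⟨hrn.1, hrn.2.1, hrn.2.2.1⟩
  by_cases hex : ∃ r', G.Adj s₄ r' ∧ r ≠ r' ∧ r' ∉ ({x, y, s₁} : Finset α)
  · obtain ⟨r', hr', hrr, hrn''⟩ := hex
    have hc1 := hXS4.c1 hK hP a23 a14 n13 n24 hr hr' hrr hrn' hrn''
    exact (hIH _ (hsz2.trans hsz1) hc1 hnp).2
  · have hN : ∀ w, G.Adj s₄ w ↔ w = x ∨ w = y ∨ w = s₁ ∨ w = r := by
      intro w
      constructor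
      · intro hw
        by_contra hc
        rw [not_or, not_or, not_or] at hc
        apply hex
        refine ⟨w, hw, fun e => hc.2.2.2 e.symm, ?_⟩
        simp only [mem_insert, mem_singleton, not_or]
        exact ⟨hc.1, hc.2.1, hc.2.2.1⟩
      · rintro (rfl | rfl | rfl | rfl)
        · exact ax4.symm
        · exact ay4.symm
        · exact a14.symm
        · exact hr
    obtain ⟨hadj, hxr, hnxr, hc1⟩ := hXS4.sup hK hP a23 a14 n13 n24 hN
    obtain ⟨ρ, hρ, z, hz, hvk⟩ := hnp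
    have hadjx : (delE (contr G y s₁) y s₄).Adj x s₄ := ((hadj x).2 (Or.inl rfl)).symm
    have hnp' := (hNPC.down hρ hz hvk hadjx (zab hxr hadj hz)).1
    have hsz3 : sz (contr (delE (contr G y s₁) y s₄) x s₄) < sz (delE (contr G y s₁) y s₄) :=
      hDST.sz2 hadjx
    have hkz := (hIH _ (hsz3.trans (hsz2.trans hsz1)) hc1 hnp').2
    exact hKSU hxr hadj hnxr hkz

end DL
end
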